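import Pool.Agent.NUCR.DefB
import Pool.Agent.NUO.GasPot

/-!
# Two fillings: every row of species Y is a `q`-fold row

* `class Fil`: the multiplicity `q ≥ 1` of the rows of species Y (species X: one);
* `Fil.n a : ℕ`, `Fil.b a : ℝ`: the multiplicity of the rows of species `a` (`n true = 1`, `n false = q`);
* `Fil.cv a η`: the curve of species `a`, `fun t => η t / b a`, so that the currents
  `(b a * s * P t) * cv a η t = s * P t * η t` of the two species are equal;
* `Fil.xn m = (q - 1) * m`: the number of the additional rows of species Y;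
* `Fil.one`: the instance `q = 1` of the landed files.
-/

set_option autoImplicit false

noncomputable section

open Filter Topology

namespace PLX

/-- every row of species Y is a `q`-fold row -/
class Fil where
  /-- the multiplicity -/
  q : ℕ
  one_le_q : 1 ≤ q

namespace Fil

/-- the instance of the landed files -/
@[reducible] def one : Fil := ⟨1, le_rfl⟩

variable [Fil]

/-- multiplicity of the rows of a species -/
def n (a : Bool) : ℕ := cond a 1 q

/-- multiplicity of the rows of a species, real number -/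
def b (a : Bool) : ℝ := cond a 1 (q : ℝ)

/-- number of the additional rows of species Y -/
def xn (m : ℕ) : ℕ := (q - 1) * m

@[simp] theorem n_true : n true = 1 := rfl
@[simp] theorem n_false : n false = q := rfl
@[simp] theorem b_true : b true = 1 := rfl
@[simp] theorem b_false : b false = (q : ℝ) := rfl

theorem cast_n (a : Bool) : ((n a : ℕ) : ℝ) = b a := by
  cases a <;> simp

theorem q_pos : 0 < q := Nat.lt_of_lt_of_le Nat.zero_lt_one one_le_q

theorem one_le_qr : (1 : ℝ) ≤ (q : ℝ) := by exact_mod_cast one_le_q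

theorem q_posr : (0 : ℝ) < (q : ℝ) := lt_of_lt_of_le one_pos one_le_qr

theorem q_ne : (q : ℝ) ≠ 0 := q_posr.ne'

theorem one_le_n (a : Bool) : 1 ≤ n a := by
  cases a
  · exact one_le_q
  · exact le_rfl

theorem n_le (a : Bool) : n a ≤ q := by
  cases a
  · exact le_rfl
  · exact one_le_q

theorem n_pos (a : Bool) : 0 < n a := Nat.lt_of_lt_of_le Nat.zero_lt_one (one_le_n a)

theorem n_ne (a : Bool) : n a ≠ 0 := (n_pos a).ne'

theorem one_le (a : Bool) : 1 ≤ b a := by
  cases a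
  · exact one_le_qr
  · exact le_rfl

theorem b_le (a : Bool) : b a ≤ (q : ℝ) := by
  cases a
  · exact le_rfl
  · exact one_le_qr

theorem b_pos (a : Bool) : 0 < b a := lt_of_lt_of_le one_pos (one_le a)

theorem b_nonneg (a : Bool) : 0 ≤ b a := (b_pos a).le

theorem b_ne (a : Bool) : b a ≠ 0 := (b_pos a).ne'

theorem b_ne_c (a : Bool) : ((b a : ℝ) : ℂ) ≠ 0 := by exact_mod_cast b_ne a

theorem inv_b_le (a : Bool) : (b a)⁻¹ ≤ 1 := inv_le_one_of_one_le₀ (one_le a)

theorem inv_b_pos (a : Bool) : 0 < (b a)⁻¹ := inv_pos.2 (b_pos a)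

theorem le_inv_b (a : Bool) : ((q : ℕ) : ℝ)⁻¹ ≤ (b a)⁻¹ := inv_anti₀ (b_pos a) (b_le a)

theorem add_xn (m : ℕ) : m + xn m = q * m := by
  obtain ⟨k, hk⟩ := Nat.exists_eq_add_of_le (one_le_q (self := inferInstance))
  unfold xn
  rw [hk]
  have : 1 + k - 1 = k := by omega
  rw [this]
  ring

theorem cast_xn (m : ℕ) : ((xn m : ℕ) : ℝ) = (b false - 1) * m := by
  have h : ((m + xn m : ℕ) : ℝ) = ((q * m : ℕ) : ℝ) := by rw [add_xn]
  push_cast at h
  rw [b_false]
  linarith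

theorem xn_mono {m m' : ℕ} (h : m ≤ m') : xn m ≤ xn m' := Nat.mul_le_mul_left _ h

theorem xn_add (m m' : ℕ) : xn (m + m') = xn m + xn m' := by
  unfold xn
  ring

@[simp] theorem xn_zero : xn 0 = 0 := rfl

/-! ### the curves -/

/-- **the curve of species `a`** -/
def cv (a : Bool) (η : ℝ → ℝ) : ℝ → ℝ := fun t => η t / b a

theorem cv_apply (a : Bool) (η : ℝ → ℝ) (t : ℝ) : cv a η t = η t / b a := rfl

@[simp] theorem cv_true (η : ℝ → ℝ) : cv true η = η := by
  funext t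
  rw [cv_apply, b_true, div_one]

theorem cv_false (η : ℝ → ℝ) (t : ℝ) : cv false η t = η t / q := rfl

@[simp] theorem cv_zero (a : Bool) : cv a (fun _ => 0) = fun _ => 0 := by
  funext t
  rw [cv_apply, zero_div]

@[simp] theorem cv_zero' (a : Bool) : cv a 0 = 0 := by
  funext t
  rw [cv_apply, Pi.zero_apply, zero_div]

theorem cv_smul (a : Bool) (c : ℝ) (η : ℝ → ℝ) : cv a (fun t => c * η t) = fun t => c * cv a η t := by
  funext t
  rw [cv_apply, cv_apply, mul_div_assoc]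

theorem cv_add (a : Bool) (η ζ : ℝ → ℝ) :
    cv a (fun t => η t + ζ t) = fun t => cv a η t + cv a ζ t := by
  funext t
  simp only [cv_apply, add_div]

theorem cv_sub (a : Bool) (η ζ : ℝ → ℝ) :
    cv a (fun t => η t - ζ t) = fun t => cv a η t - cv a ζ t := by
  funext t
  simp only [cv_apply, sub_div]

theorem cv_neg (a : Bool) (η : ℝ → ℝ) : cv a (fun t => -η t) = fun t => -cv a η t := by
  funext t
  simp only [cv_apply, neg_div]

/-- the currents of the two species are equal -/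
theorem b_mul_cv (a : Bool) (η : ℝ → ℝ) (t : ℝ) : b a * cv a η t = η t := by
  rw [cv_apply, mul_div_cancel₀ _ (b_ne a)]

theorem cur_eq (a : Bool) (s p : ℝ) (η : ℝ → ℝ) (t : ℝ) :
    b a * s * p * cv a η t = s * p * η t := by
  rw [cv_apply]
  have := b_ne a
  field_simp

theorem abs_cv (a : Bool) (η : ℝ → ℝ) (t : ℝ) : |cv a η t| = |η t| / b a := by
  rw [cv_apply, abs_div, abs_of_pos (b_pos a)]

theorem abs_cv_le (a : Bool) (η : ℝ → ℝ) (t : ℝ) : |cv a η t| ≤ |η t| := by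
  rw [abs_cv]
  exact div_le_self (abs_nonneg _) (one_le a)

theorem abs_cv_le_of {a : Bool} {η : ℝ → ℝ} {t C : ℝ} (h : |η t| ≤ C) : |cv a η t| ≤ C :=
  (abs_cv_le a η t).trans h

theorem cv_nonneg {a : Bool} {η : ℝ → ℝ} {t : ℝ} (h : 0 ≤ η t) : 0 ≤ cv a η t :=
  div_nonneg h (b_nonneg a)

theorem cv_pos {a : Bool} {η : ℝ → ℝ} {t : ℝ} (h : 0 < η t) : 0 < cv a η t :=
  div_pos h (b_pos a)

theorem cv_nonpos {a : Bool} {η : ℝ → ℝ} {t : ℝ} (h : η t ≤ 0) : cv a η t ≤ 0 :=
  div_nonpos_of_nonpos_of_nonneg h (b_nonneg a)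

/-- upper bounds by a nonnegative number pass to the curves -/
theorem cv_le_of {a : Bool} {η : ℝ → ℝ} {t C : ℝ} (hC : 0 ≤ C) (h : η t ≤ C) : cv a η t ≤ C := by
  rw [cv_apply, div_le_iff₀ (b_pos a)]
  nlinarith [one_le a]

/-- lower bounds by a nonpositive number pass to the curves -/
theorem le_cv_of {a : Bool} {η : ℝ → ℝ} {t C : ℝ} (hC : 0 ≤ C) (h : -C ≤ η t) : -C ≤ cv a η t := by
  rw [cv_apply, le_div_iff₀ (b_pos a)]
  nlinarith [one_le a]

theorem cv_le {a : Bool} {η : ℝ → ℝ} {t : ℝ} (h : 0 ≤ η t) : cv a η t ≤ η t := cv_le_of h le_rfl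

/-- the displacement of a species is at least the displacement divided by `q` -/
theorem div_q_le {a : Bool} {η : ℝ → ℝ} {t : ℝ} (h : 0 ≤ η t) : η t / q ≤ cv a η t := by
  rw [cv_apply]
  exact div_le_div_of_nonneg_left h (b_pos a) (b_le a)

theorem cv_mono {a : Bool} {η ζ : ℝ → ℝ} {t : ℝ} (h : η t ≤ ζ t) : cv a η t ≤ cv a ζ t :=
  div_le_div_of_nonneg_right h (b_nonneg a)

theorem cv_eq_zero {a : Bool} {η : ℝ → ℝ} {t : ℝ} : cv a η t = 0 ↔ η t = 0 := by
  rw [cv_apply, div_eq_zero_iff, or_iff_left (b_ne a)]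

theorem hasDerivAt_cv (a : Bool) {η η' : ℝ → ℝ} {t : ℝ} (h : HasDerivAt η (η' t) t) :
    HasDerivAt (cv a η) (cv a η' t) t := h.div_const _

theorem hasDerivAt_cv' (a : Bool) {η : ℝ → ℝ} {d t : ℝ} (h : HasDerivAt η d t) :
    HasDerivAt (cv a η) (d / b a) t := h.div_const _

theorem continuous_cv (a : Bool) {η : ℝ → ℝ} (h : Continuous η) : Continuous (cv a η) :=
  h.div_const _

theorem measurable_cv (a : Bool) {η : ℝ → ℝ} (h : Measurable η) : Measurable (cv a η) :=
  h.div_const _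

theorem differentiable_cv (a : Bool) {η : ℝ → ℝ} (h : Differentiable ℝ η) :
    Differentiable ℝ (cv a η) := h.div_const _

theorem contDiff_cv (a : Bool) {k : WithTop ℕ∞} {η : ℝ → ℝ} (h : ContDiff ℝ k η) :
    ContDiff ℝ k (cv a η) := h.div_const _

theorem bdd_cv (a : Bool) {η : ℝ → ℝ} (h : ∃ B, ∀ t, |η t| ≤ B) : ∃ B, ∀ t, |cv a η t| ≤ B := by
  obtain ⟨B, hB⟩ := h
  exact ⟨B, fun t => abs_cv_le_of (hB t)⟩

/-- differences -/
theorem abs_cv_sub_le (a : Bool) (η : ℝ → ℝ) (t u : ℝ) :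
    |cv a η t - cv a η u| ≤ |η t - η u| := by
  rw [cv_apply, cv_apply, ← sub_div, abs_div, abs_of_pos (b_pos a)]
  exact div_le_self (abs_nonneg _) (one_le a)

theorem abs_cv_sub_cv_le (a : Bool) (η ζ : ℝ → ℝ) (t : ℝ) :
    |cv a η t - cv a ζ t| ≤ |η t - ζ t| := by
  rw [cv_apply, cv_apply, ← sub_div, abs_div, abs_of_pos (b_pos a)]
  exact div_le_self (abs_nonneg _) (one_le a)

theorem lipschitz_cv (a : Bool) {K : NNReal} {η : ℝ → ℝ} (h : LipschitzWith K η) :
    LipschitzWith K (cv a η) := by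
  refine LipschitzWith.of_dist_le_mul fun t u => ?_
  rw [Real.dist_eq]
  refine (abs_cv_sub_le a η t u).trans ?_
  rw [← Real.dist_eq]
  exact h.dist_le_mul t u

/-- curves of a parameter (`Crs` and others) -/
theorem measurable_cv_uncurry (a : Bool) {α : Type*} [MeasurableSpace α] {η : α → ℝ → ℝ}
    (h : Measurable fun p : α × ℝ => η p.1 p.2) :
    Measurable fun p : α × ℝ => cv a (η p.1) p.2 := h.div_const _

theorem continuous_cv_uncurry (a : Bool) {α : Type*} [TopologicalSpace α] {η : α → ℝ → ℝ}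
    (h : Continuous fun p : α × ℝ => η p.1 p.2) :
    Continuous fun p : α × ℝ => cv a (η p.1) p.2 := h.div_const _

/-- the displacement `dA` -/
theorem dA_cv (a : Bool) (η : ℝ → ℝ) (t : ℝ) :
    NUO.dA (cv a η) t = NUO.dA η t / ((b a : ℝ) : ℂ) := by
  unfold NUO.dA
  rw [cv_apply]
  push_cast
  ring

theorem norm_dA_cv_le (a : Bool) (η : ℝ → ℝ) (t : ℝ) :
    ‖NUO.dA (cv a η) t‖ ≤ ‖NUO.dA η t‖ := by
  unfold NUO.dA
  rw [norm_mul, norm_mul, Complex.norm_real, Complex.norm_real]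
  exact mul_le_mul_of_nonneg_right (abs_cv_le a η t) (norm_nonneg _)

/-- point of the curve of species `a` -/
theorem pA_cv (a : Bool) (η : ℝ → ℝ) (t : ℝ) :
    NUO.pA (cv a η) t = NUP1.vl (NUP1.l - η t / b a) t := rfl

end Fil

end PLX

/-! ### the admissible curves -/

open PLX in
theorem NUCR.CurB.cv [Fil] {ep : ℝ} {η η' : ℝ → ℝ} (h : NUCR.CurB ep η η') (a : Bool) :
    NUCR.CurB ep (Fil.cv a η) (Fil.cv a η') where
  hd t := Fil.hasDerivAt_cv a (h.hd t)
  hc := Fil.continuous_cv a h.hc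
  h1 t := Fil.abs_cv_le_of (h.h1 t)
  hb := Fil.bdd_cv a h.hb

open PLX in
theorem NUO.CrvR.cv [Fil] {δ : ℝ} {η η' : ℝ → ℝ} (h : NUO.CrvR δ η η') (hδ : 0 ≤ δ) (a : Bool) :
    NUO.CrvR δ (Fil.cv a η) (Fil.cv a η') where
  hd t := Fil.hasDerivAt_cv a (h.hd t)
  hc := Fil.continuous_cv a h.hc
  h0 t := Fil.le_cv_of (mul_nonneg hδ NUP1.Bd.l_pos.le) (h.h0 t)
  h1 t := Fil.cv_le_of (div_nonneg NUP1.Bd.l_pos.le (by norm_num)) (h.h1 t)
  hb := Fil.bdd_cv a h.hb

open PLX in
/-- the point of the curve of species `a` stays in the strip -/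
theorem NUO.pA_cv_mem [Fil] {δ : ℝ} {η η' : ℝ → ℝ} (h : NUO.CrvR δ η η') (hδ : 0 ≤ δ) (a : Bool)
    (t : ℝ) : (NUO.pA (Fil.cv a η) t).re ∈ NUO.Ks δ := NUO.pA_mem (h.cv hδ a) t

end
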