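/-!
# The namespaces of the port (plx.py, helper64)
-/

namespace NUBR
end NUBR

namespace NUBR.PLX
end NUBR.PLX

namespace NUGC
end NUGC

namespace NUGC.PLX
end NUGC.PLX

namespace NUS4C
end NUS4C

namespace NUS4C.PLX
end NUS4C.PLX

namespace NUSea
end NUSea

namespace NUSea.PLX
end NUSea.PLX

namespace NUSea.CUR
end NUSea.CUR

namespace NUSea.PLX.CUR
end NUSea.PLX.CUR

namespace NUSea.Ev
end NUSea.Ev

namespace NUSea.PLX.Ev
end NUSea.PLX.Ev

namespace NUSea.H0
end NUSea.H0

namespace NUSea.PLX.H0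
end NUSea.PLX.H0

namespace NUSea.O
end NUSea.O

namespace NUSea.PLX.O
end NUSea.PLX.O

namespace PB0
end PB0

namespace PB0.PLX
end PB0.PLX

namespace PBC
end PBC

namespace PBC.PLX
end PBC.PLX

namespace PBE
end PBE

namespace PBE.PLX
end PBE.PLX

namespace PBF
end PBF

namespace PBF.PLX
end PBF.PLX

namespace PBFX
end PBFX

namespace PBFX.PLX
end PBFX.PLX

namespace PBFunc
end PBFunc

namespace PBFunc.PLX
end PBFunc.PLX

namespace PBH
end PBH

namespace PBH.PLX
end PBH.PLX

namespace PBI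
end PBI

namespace PBI.PLX
end PBI.PLX

namespace PBL
end PBL

namespace PBL.PLX
end PBL.PLX

namespace PBLX
end PBLX

namespace PBLX.PLX
end PBLX.PLX

namespace PBLZ
end PBLZ

namespace PBLZ.PLX
end PBLZ.PLX

namespace PBLg
end PBLg

namespace PBLg.PLX
end PBLg.PLX

namespace PBM
end PBM

namespace PBM.PLX
end PBM.PLX

namespace PBO
end PBO

namespace PBO.PLX
end PBO.PLX

namespace PBOR
end PBOR

namespace PBOR.PLX
end PBOR.PLX

namespace PBOb
end PBOb

namespace PBOb.PLX
end PBOb.PLX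

namespace PBP
end PBP

namespace PBP.PLX
end PBP.PLX

namespace PBQ
end PBQ

namespace PBQ.PLX
end PBQ.PLX

namespace PBQM
end PBQM

namespace PBQM.PLX
end PBQM.PLX

namespace PBR
end PBR

namespace PBR.PLX
end PBR.PLX

namespace PBRep
end PBRep

namespace PBRep.PLX
end PBRep.PLX

namespace PBS
end PBS

namespace PBS.PLX
end PBS.PLX

namespace PBT
end PBT

namespace PBT.PLX
end PBT.PLX

namespace PBTRF
end PBTRF

namespace PBTRF.PLX
end PBTRF.PLX

namespace PBTRat
end PBTRat

namespace PBTRat.PLX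
end PBTRat.PLX

namespace PBTV
end PBTV

namespace PBTV.PLX
end PBTV.PLX

namespace PBTV.GG
end PBTV.GG

namespace PBTV.PLX.GG
end PBTV.PLX.GG

namespace PBTW
end PBTW

namespace PBTW.PLX
end PBTW.PLX

namespace PBTs
end PBTs

namespace PBTs.PLX
end PBTs.PLX

namespace PBU
end PBU

namespace PBU.PLX
end PBU.PLX

namespace PBUI
end PBUI

namespace PBUI.PLX
end PBUI.PLX

namespace PBV
end PBV

namespace PBV.PLX
end PBV.PLX

namespace PBVR
end PBVR

namespace PBVR.PLX
end PBVR.PLX

namespace PBWM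
end PBWM

namespace PBWM.PLX
end PBWM.PLX

namespace PBWP
end PBWP

namespace PBWP.PLX
end PBWP.PLX

namespace PBX
end PBX

namespace PBX.PLX
end PBX.PLX

namespace PBZ
end PBZ

namespace PBZ.PLX
end PBZ.PLX

namespace PBZF
end PBZF

namespace PBZF.PLX
end PBZF.PLX

namespace PotH
end PotH

namespace PotH.PLX
end PotH.PLX

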