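import Pool.Agent.PLX.FilN

/-!
# Effective numbers of rows of the two species, all cases

`class Ends`: `e ≤ 1` = number of the ends per group which count as rows in the sea, `o` = the number of
the additional rows of species Y.

* `Fil.ne a k`: effective number of rows of species `a`, where `k` = effective number of rows of X:
  `ne true k = k`, `ne false k = q * (k - e) + e + o`;
* `Fil.xe k = xn (k - e) + o`: the number of the additional quanta Y, `ne true k + xe k = ne false k`;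
* `ends1`: `k - 1` rows and one end (`Fil.ne = Fil.nn`); `ends0`: `k` rows; `endsK o`: `k | q * k + o`.
-/

set_option autoImplicit false

noncomputable section

namespace PLX

/-- what counts as a row in the two seas besides the rows in the proportion `1 | q` -/
class Ends where
  /-- number of the ends per group -/
  e : ℕ
  /-- number of the additional rows of species Y -/
  o : ℕ
  le : e ≤ 1

/-- `k - 1` rows X, `q * (k - 1)` rows Y, one end in each group -/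
@[reducible] def ends1 : Ends := ⟨1, 0, le_rfl⟩

/-- `k` rows X, `q * k` rows Y -/
@[reducible] def ends0 : Ends := ⟨0, 0, Nat.zero_le _⟩

/-- `k` rows X, `q * k + o` rows Y -/
@[reducible] def endsK (o : ℕ) : Ends := ⟨0, o, Nat.zero_le _⟩

namespace Fil

variable [Fil] [Ends]

/-- **effective number of rows of species `a`** -/
def ne (a : Bool) (k : ℕ) : ℕ := n a * (k - Ends.e) + Ends.e + cond a 0 Ends.o

/-- **number of the additional quanta Y** -/
def xe (k : ℕ) : ℕ := xn (k - Ends.e) + Ends.o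

/-- the constant of the upper bounds, `ne a k ≤ qo * k` -/
def qo : ℕ := q + Ends.o

theorem one_le_qo : 1 ≤ qo := le_trans one_le_q (Nat.le_add_right _ _)

theorem one_le_qor : (1 : ℝ) ≤ (qo : ℕ) := by exact_mod_cast one_le_qo

theorem ne_true {k : ℕ} (hk : 1 ≤ k) : ne true k = k := by
  have := Ends.le
  show n true * (k - Ends.e) + Ends.e + 0 = k
  rw [n_true]
  omega

theorem ne_false (k : ℕ) : ne false k = q * (k - Ends.e) + Ends.e + Ends.o := rfl

/-- the additional quanta Y -/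
theorem ne_true_add (k : ℕ) : ne true k + xe k = ne false k := by
  have h2 := add_xn (k - Ends.e)
  show n true * (k - Ends.e) + Ends.e + 0 + (xn (k - Ends.e) + Ends.o) = _
  rw [n_true, ne_false, ← h2]
  omega

theorem add_xe {k : ℕ} (hk : 1 ≤ k) : k + xe k = ne false k := by
  have := ne_true_add k
  rwa [ne_true hk] at this

theorem ne_false_eq {k : ℕ} (hk : 1 ≤ k) : ne false k = k + xe k := (add_xe hk).symm

theorem ne_false_sub (k : ℕ) : ne false k - ne true k = xe k := by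
  have := ne_true_add k
  omega

theorem le_ne (a : Bool) (k : ℕ) : k ≤ ne a k := by
  have h1 : k - Ends.e ≤ n a * (k - Ends.e) := Nat.le_mul_of_pos_left _ (n_pos a)
  unfold ne
  omega

theorem ne_pos (a : Bool) {k : ℕ} (hk : 1 ≤ k) : 0 < ne a k := lt_of_lt_of_le hk (le_ne a k)

theorem one_le_ne (a : Bool) {k : ℕ} (hk : 1 ≤ k) : 1 ≤ ne a k := ne_pos a hk

theorem ne_ne (a : Bool) {k : ℕ} (hk : 1 ≤ k) : ne a k ≠ 0 := (ne_pos a hk).ne'

theorem ne_mono (a : Bool) {k k' : ℕ} (h : k ≤ k') : ne a k ≤ ne a k' := by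
  unfold ne
  have : n a * (k - Ends.e) ≤ n a * (k' - Ends.e) := Nat.mul_le_mul_left _ (by omega)
  omega

theorem ne_true_le (a : Bool) {k : ℕ} (hk : 1 ≤ k) : ne true k ≤ ne a k := by
  rw [ne_true hk]
  exact le_ne a k

theorem ne_le (a : Bool) {k : ℕ} (hk : 1 ≤ k) : ne a k ≤ n a * k + cond a 0 Ends.o := by
  have h1 := Ends.le
  obtain ⟨j, hj⟩ : ∃ j, k = j + Ends.e := ⟨k - Ends.e, by omega⟩
  have h2 : j + Ends.e - Ends.e = j := by omega
  unfold ne
  rw [hj, h2, mul_add]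
  have h3 : Ends.e ≤ n a * Ends.e := Nat.le_mul_of_pos_left _ (n_pos a)
  omega

theorem ne_le_q (a : Bool) {k : ℕ} (hk : 1 ≤ k) : ne a k ≤ q * k + Ends.o := by
  refine (ne_le a hk).trans (Nat.add_le_add (Nat.mul_le_mul_right _ (n_le a)) ?_)
  cases a
  · exact le_rfl
  · exact Nat.zero_le _

theorem ne_le_qo (a : Bool) {k : ℕ} (hk : 1 ≤ k) : ne a k ≤ qo * k := by
  refine (ne_le_q a hk).trans ?_
  unfold qo
  rw [add_mul]
  exact Nat.add_le_add_left (Nat.le_mul_of_pos_right _ hk) _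

theorem xe_le (k : ℕ) : xe k ≤ q * k + Ends.o := by
  unfold xe
  refine Nat.add_le_add_right ?_ _
  refine (xn_mono (Nat.sub_le k Ends.e)).trans ?_
  have := add_xn k
  omega

theorem xe_bd : ∃ c : ℕ, ∀ m, xe m ≤ q * m + c := ⟨Ends.o, xe_le⟩

theorem xe_le_qo {k : ℕ} (hk : 1 ≤ k) : xe k ≤ qo * k := by
  refine le_trans ?_ (ne_le_qo false hk)
  rw [← ne_true_add k]
  exact Nat.le_add_left _ _

theorem xe_mono {k k' : ℕ} (h : k ≤ k') : xe k ≤ xe k' := by
  unfold xe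
  exact Nat.add_le_add_right (xn_mono (by omega)) _

/-! ### real numbers -/

theorem cast_ne (a : Bool) {k : ℕ} (hk : 1 ≤ k) :
    ((ne a k : ℕ) : ℝ) = b a * ((k : ℝ) - (Ends.e : ℕ)) + (Ends.e : ℕ) + cond a 0 ((Ends.o : ℕ) : ℝ) := by
  have h1 := Ends.le
  have h2 : Ends.e ≤ k := by omega
  unfold ne
  push_cast [Nat.cast_sub h2]
  rw [cast_n]
  cases a <;> simp

theorem cast_ne_true {k : ℕ} (hk : 1 ≤ k) : ((ne true k : ℕ) : ℝ) = k := by rw [ne_true hk]

theorem le_ner (a : Bool) (k : ℕ) : (k : ℝ) ≤ (ne a k : ℕ) := by exact_mod_cast le_ne a k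

theorem ner_le_qo (a : Bool) {k : ℕ} (hk : 1 ≤ k) : ((ne a k : ℕ) : ℝ) ≤ (qo : ℕ) * k := by
  exact_mod_cast ne_le_qo a hk

theorem ner_pos (a : Bool) {k : ℕ} (hk : 1 ≤ k) : (0 : ℝ) < (ne a k : ℕ) := by
  exact_mod_cast ne_pos a hk

theorem one_le_ner (a : Bool) {k : ℕ} (hk : 1 ≤ k) : (1 : ℝ) ≤ (ne a k : ℕ) := by
  exact_mod_cast one_le_ne a hk

theorem ner_sub (k : ℕ) : ((ne false k : ℕ) : ℝ) - (ne true k : ℕ) = (xe k : ℕ) := by
  rw [← ne_true_add k]
  push_cast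
  ring

theorem cast_xe {k : ℕ} (hk : 1 ≤ k) :
    ((xe k : ℕ) : ℝ) = (b false - 1) * ((k : ℝ) - (Ends.e : ℕ)) + (Ends.o : ℕ) := by
  have h1 := Ends.le
  have h2 : Ends.e ≤ k := by omega
  unfold xe
  push_cast
  rw [cast_xn, Nat.cast_sub h2]

theorem abs_ner_sub_le (a : Bool) {k : ℕ} (hk : 1 ≤ k) :
    |((ne a k : ℕ) : ℝ) - b a * k| ≤ (qo : ℕ) - 1 := by
  have h1 : ((Ends.e : ℕ) : ℝ) ≤ 1 := by exact_mod_cast Ends.le
  have h2 : (0 : ℝ) ≤ ((Ends.e : ℕ) : ℝ) := Nat.cast_nonneg _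
  have h3 : (0 : ℝ) ≤ ((Ends.o : ℕ) : ℝ) := Nat.cast_nonneg _
  have hq := one_le_qr
  rw [cast_ne a hk]
  unfold qo
  push_cast
  rw [abs_le]
  cases a
  · rw [b_false]
    simp only [cond_false]
    constructor <;> nlinarith
  · rw [b_true]
    simp only [cond_true]
    constructor <;> nlinarith

/-! ### the common current -/

theorem ne_mul_cv_sub (a : Bool) {k : ℕ} (hk : 1 ≤ k) (η : ℝ → ℝ) (t : ℝ) :
    ((ne a k : ℕ) : ℝ) * cv a η t - k * η t
      = (((Ends.e : ℕ) : ℝ) * ((b a)⁻¹ - 1) + cond a 0 ((Ends.o : ℕ) : ℝ) * (b a)⁻¹) * η t := by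
  have hb := b_ne a
  rw [cast_ne a hk, cv_apply]
  field_simp
  ring

/-- **the currents of the two species agree up to `1 + o` rows** -/
theorem abs_ne_mul_cv_sub_le (a : Bool) {k : ℕ} (hk : 1 ≤ k) (η : ℝ → ℝ) (t : ℝ) :
    |((ne a k : ℕ) : ℝ) * cv a η t - k * η t| ≤ (1 + (Ends.o : ℕ)) * |η t| := by
  rw [ne_mul_cv_sub a hk, abs_mul]
  refine mul_le_mul_of_nonneg_right ?_ (abs_nonneg _)
  have h1 : ((Ends.e : ℕ) : ℝ) ≤ 1 := by exact_mod_cast Ends.le
  have h2 : (0 : ℝ) ≤ ((Ends.e : ℕ) : ℝ) := Nat.cast_nonneg _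
  have h3 : (0 : ℝ) ≤ ((Ends.o : ℕ) : ℝ) := Nat.cast_nonneg _
  have h4 := inv_b_le a
  have h5 := inv_b_pos a
  have h6 : 0 ≤ cond a (0 : ℝ) ((Ends.o : ℕ) : ℝ) := by cases a <;> simp
  have h7 : cond a (0 : ℝ) ((Ends.o : ℕ) : ℝ) ≤ ((Ends.o : ℕ) : ℝ) := by cases a <;> simp
  rw [abs_le]
  constructor <;> nlinarith

theorem abs_ne_true_mul_cv {k : ℕ} (hk : 1 ≤ k) (η : ℝ → ℝ) (t : ℝ) :
    ((ne true k : ℕ) : ℝ) * cv true η t = k * η t := by
  rw [cv_true, ne_true hk]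

end Fil

/-! ### the instances -/

section

variable [Fil]

theorem ne_ends1 (a : Bool) (k : ℕ) : @Fil.ne _ ends1 a k = Fil.nn a k := by
  cases a <;> rfl

theorem xe_ends1 (k : ℕ) : @Fil.xe _ ends1 k = Fil.xn (k - 1) := rfl

theorem ne_ends0 (a : Bool) (k : ℕ) : @Fil.ne _ ends0 a k = Fil.n a * k := by
  cases a <;> rfl

theorem xe_ends0 (k : ℕ) : @Fil.xe _ ends0 k = Fil.xn k := rfl

theorem ne_endsK (o : ℕ) (a : Bool) (k : ℕ) :
    @Fil.ne _ (endsK o) a k = Fil.n a * k + cond a 0 o := by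
  cases a <;> rfl

theorem xe_endsK (o : ℕ) (k : ℕ) : @Fil.xe _ (endsK o) k = Fil.xn k + o := rfl

end

end PLX

end
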