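import Pool.Agent.PLX.NzF
import Pool.Agent.RX.Minus

/-!
# PLAX, K5: the minus row of one group

Legs at `z`, `|Re z| < 7 l / 10`; content `x : Fin m → ℂ` (first group), `y : Fin M → ℂ` (second group) with
`|Re| ≤ l / 2` (equal rows allowed); removed row `w` of the first group, `|Re w| < 13 l / 10`.

* `JU z x y w` : the content without the row `w` of the first group; `JV` its mirror image;
* `JU_gen` (different heights), `JU_tendsto` (joint continuity), `JU_perm`, `JU_diff` (analytic in `w`);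
* **`JU_self`, `JU_row`** : if `w` is a row of the content: `nzU` of the content without it;
* **`JU_far`** : the state `-` of a far row `x0` (`cF .neg`) is `JU` at `w = x0 - 3 l`, all rows;
* **`JU_zeros`** : `JU z x y w - JV z x y w = (∏ j : Fin m, (w - x j)) * Q w`, `Q` analytic.
-/

set_option autoImplicit false
set_option linter.unusedSectionVars false
set_option linter.unusedVariables false

noncomputable section

open Complex Filter Topology

namespace Pool.Agent.PLX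

open NUP1 (l lpos St sta sw pr qu nq crq Gr sta_cons sta_mul sta_congr pr_pos)
open NUP1.Grand (P)
open NUP1.Leg (hr)
open NURow (UB ub_sin ub_inv_sin InBox)
open PBX (Lg Rws SpA pull K3 Lg_SpA pull_ne pull_re pull_Rws pull_tendsto isCompact_K3)
open PBS (Th fw gw Lw ww)
open PBR (rh rh_neg rh_ne_zero differentiableAt_rh)
open Pool.Agent.PB
open Pool.Agent.RX (sin_ne_08 Lp_ne Fp_ne row_re leg_re LS_of Fp_zero P_cons' sin_hgt' YS YS_open YS_neg)
open _root_.RX (sumU Wo Vo kO kX k1 LL)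

variable {m M : ℕ}

/-- factor of a quantum `u` of the first group -/
def sX (z w u : ℂ) : ℂ := Lg z z u * (sin (u - w) * sin (u - w - 2 * l))

/-- factor of a quantum `v` of the second group -/
def sY (z w v : ℂ) : ℂ := Lg z z v * (1 / sin (v - w + 3 * l) ^ 2)

/-- the prefactor of the removed row, relative to the content -/
def PJU (z : ℂ) (x : Fin m → ℂ) (y : Fin M → ℂ) (w : ℂ) : ℂ :=
  3 / 2 * sin l * (rh (z - w) ^ 2 / Lp z w) *
    ((∏ i, rh (w - x i) ^ 2 / Fp (w - x i)) * ∏ j, rh (w - y j) ^ 2)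

/-- **the content `x`, `y` without the row `w` of the first group**, legs at `z` -/
def JU (z : ℂ) (x : Fin m → ℂ) (y : Fin M → ℂ) (w : ℂ) : ℂ :=
  Pf z x y * PJU z x y w * sumU m M 1 fun n n' => DZU (-cn m) (cn M) (sX z w) (sY z w) x y n n'

/-- the mirror image of `JU` -/
def JV (z : ℂ) (x : Fin m → ℂ) (y : Fin M → ℂ) (w : ℂ) : ℂ := JU (-z) (-x) (-y) (-w)

/-! ### the factor of a quantum -/

theorem sX_self (z w : ℂ) : sX z w w = 0 := by
  unfold sX
  rw [sub_self, Complex.sin_zero]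
  ring

theorem sX_meas (z w : ℂ) : Measurable (sX z w) := by
  have h := PBX.Lg_meas z z
  unfold sX
  exact h.mul (by fun_prop)

theorem sY_meas (z w : ℂ) : Measurable (sY z w) := by
  have h := PBX.Lg_meas z z
  unfold sY
  exact h.mul (by fun_prop)

theorem sX_gr (α β : ℝ) (w : ℂ) : Gr α β (2 * 1) fun u => sin (u - w) * sin (u - w - 2 * l) := by
  have h1 := Gr.sin (α := α) (β := β) w
  have h2 := Gr.sin (α := α) (β := β) (w + 2 * l)
  refine ((h1.mul h2).mono (κ' := 2 * 1) (by norm_num)).congr 0 fun u _ _ _ => ?_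
  rw [show u - (w + 2 * (l : ℂ)) = u - w - 2 * l by ring]

theorem sY_gr (α β : ℝ) (w : ℂ) : Gr α β (2 * -1) fun v => 1 / sin (v - w + 3 * l) ^ 2 := by
  have h3 := Gr.inv_sin (α := α) (β := β) (w - 3 * l)
  refine ((h3.mul h3).mono (κ' := 2 * -1) (by norm_num)).congr 0 fun u _ _ _ => ?_
  rw [show u - (w - 3 * (l : ℂ)) = u - w + 3 * l by ring, one_div, sq, mul_inv]

theorem cas1 : (((1 : ℤ)) : ℝ) = 1 := by norm_num

theorem sX_SpU {z : ℂ} (hz : z ∈ LS) (w : ℂ) : SpU (((1 : ℤ)) : ℝ) (sX z w) := by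
  rw [cas1]
  have hL : SpU 0 (Lg z z) := SpU.of_SpA (Lg_SpA (q := z) hz.1 hz.2)
  have h : SpU 1 (fun u => sin (u - w) * sin (u - w - 2 * l)) :=
    ⟨by fun_prop, fun u _ _ => by fun_prop, sX_gr _ _ w⟩
  have := hL.mul h
  rw [zero_add] at this
  exact this

theorem sY_SpU {z w : ℂ} (hz : z ∈ LS) (hw : |w.re| < 13 / 10 * l) : SpU (-(((1 : ℤ)) : ℝ)) (sY z w) := by
  rw [cas1]
  have hl := lpos
  obtain ⟨h5, h6⟩ := abs_lt.1 hw
  have hL : SpU 0 (Lg z z) := SpU.of_SpA (Lg_SpA (q := z) hz.1 hz.2)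
  have h : SpU (-1) (fun v => 1 / sin (v - w + 3 * l) ^ 2) := by
    refine ⟨by fun_prop, fun u h3 h4 => ?_, sY_gr _ _ w⟩
    have e : (u - w + 3 * (l : ℂ)).re = u.re - w.re + 3 * l := by simp
    have hs : sin (u - w + 3 * l) ^ 2 ≠ 0 :=
      pow_ne_zero _ (sin_ne_08 (by rw [e]; (clear * - h6 h3; linarith)) (by rw [e]; (clear * - hl h5 h4; linarith)))
    fun_prop (disch := exact hs)
  have := hL.mul h
  rw [zero_add] at this
  exact this

/-- uniform bound on the three lines -/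
theorem J_ub {X ρ : ℝ} (hX : |X| < 13 / 10 * l) :
    ∃ δ : ℝ, 0 < δ ∧
      UB {p : ℂ | |p.re| ≤ δ ∧ |p.im| ≤ ρ} K3 (2 * 1)
        (fun p u => sin (u - (p + X)) * sin (u - (p + X) - 2 * l)) ∧
      UB {p : ℂ | |p.re| ≤ δ ∧ |p.im| ≤ ρ} K3 (2 * -1) (fun p u => 1 / sin (u - (p + X) + 3 * l) ^ 2) := by
  have hl := lpos
  obtain ⟨x1, x2⟩ := abs_lt.1 hX
  have x3 : X ≤ |X| := le_abs_self X
  have x4 : -|X| ≤ X := neg_abs_le X
  set δ : ℝ := (13 / 10 * l - |X|) / 2 with hδ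
  have hδ0 : 0 < δ := by rw [hδ]; (clear * - hX; linarith)
  set S : Set ℂ := {p : ℂ | |p.re| ≤ δ ∧ |p.im| ≤ ρ} with hS
  have hb : InBox S δ ρ fun p : ℂ => p := fun p hp => hp
  have hK : ∀ d ∈ K3, -(17 / 10 * l) ≤ d ∧ d ≤ 3 / 5 * l := by
    intro d hd
    simp only [PBX.K3, Set.mem_insert_iff, Set.mem_singleton_iff] at hd
    rcases hd with rfl | rfl | rfl <;> constructor <;> (clear * - hX x3 x4; linarith)
  have hs : ∀ k : ℝ, UB S K3 1 (fun p u => sin (u - (p + X) + ((k * l : ℝ) : ℂ))) := fun k => by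
    refine (ub_sin hb K3 (k * l - X)).congr fun p _ u _ => ?_
    congr 1
    push_cast
    ring
  have hi : UB S K3 (-1) (fun p u => 1 / sin (u - (p + X) + ((3 * l : ℝ) : ℂ))) := by
    refine (ub_inv_sin hb isCompact_K3 (3 * l - X) fun d hd e he => ?_).congr fun p _ u _ => ?_
    · obtain ⟨k1, k2⟩ := hK d hd
      obtain ⟨k3, k4⟩ := abs_le.1 he
      exact NURow.sin_ne_pos (by (clear * - δ x3 hδ hδ0 k1 k4; linarith)) (by (clear * - δ x3 x4 hδ hδ0 k2 k3; linarith))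
    · congr 2
      push_cast
      ring
  refine ⟨δ, hδ0, ?_, ?_⟩
  · refine (((hs 0).mul (hs (-2))).rate (s' := 2 * 1) (by ring)).congr fun p _ u _ => ?_
    rw [show u - (p + (X : ℂ)) + ((0 * l : ℝ) : ℂ) = u - (p + X) by push_cast; ring,
      show u - (p + (X : ℂ)) + ((-2 * l : ℝ) : ℂ) = u - (p + X) - 2 * l by push_cast; ring]
  · refine ((hi.pow 2).rate (s' := 2 * -1) (by push_cast; ring)).congr fun p _ u _ => ?_
    rw [show u - (p + (X : ℂ)) + ((3 * l : ℝ) : ℂ) = u - (p + X) + 3 * l by push_cast; ring]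
    rw [one_div, one_div, inv_pow]

section
variable {E : Type*} {F : Filter E} {z w : E → ℂ} {z0 w0 : ℂ}

/-- the factors are bounded on the three lines near a point -/
theorem s_unif (tz : Tendsto z F (𝓝 z0)) (tw : Tendsto w F (𝓝 w0)) (hz : z0 ∈ LS)
    (hw : |w0.re| < 13 / 10 * l) :
    ∃ D : ℝ, 0 ≤ D ∧ ∀ᶠ e in F, ∀ u : ℂ, u.re ∈ K3 →
      ‖sX (z e) (w e) u‖ ≤ D * Real.exp (2 * (((1 : ℤ)) : ℝ) * |u.im|) ∧
        ‖sY (z e) (w e) u‖ ≤ D * Real.exp (2 * (-(((1 : ℤ)) : ℝ)) * |u.im|) := by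
  rw [cas1]
  obtain ⟨D, hD, hb⟩ := Lg_unif tz hz
  obtain ⟨δ, hδ, ⟨C1, hC1, b1⟩, ⟨C2, hC2, b2⟩⟩ := J_ub (ρ := |w0.im| + 1) hw
  refine ⟨D * max C1 C2, mul_nonneg hD (le_max_of_le_left hC1), ?_⟩
  have t1 : Tendsto (fun e' => |(w e' - (w0.re : ℂ)).re|) F (𝓝 0) := by
    have := (((Complex.continuous_re.tendsto _).comp (tw.sub_const ((w0.re : ℝ) : ℂ)))).abs
    simpa using this
  have t2 : Tendsto (fun e' => |(w e' - (w0.re : ℂ)).im|) F (𝓝 |w0.im|) := by
    have := (((Complex.continuous_im.tendsto _).comp (tw.sub_const ((w0.re : ℝ) : ℂ)))).abs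
    simpa using this
  filter_upwards [hb, t1.eventually (gt_mem_nhds hδ), t2.eventually (gt_mem_nhds (lt_add_one _))] with
    e' h0 h1 h2 u hu
  have hp : (w e' - (w0.re : ℂ)) ∈ {p : ℂ | |p.re| ≤ δ ∧ |p.im| ≤ |w0.im| + 1} := ⟨h1.le, h2.le⟩
  have a1 := b1 _ hp u hu
  have a2 := b2 _ hp u hu
  beta_reduce at a1 a2
  rw [sub_add_cancel] at a1 a2
  unfold sX sY
  constructor
  · rw [norm_mul, mul_assoc]
    exact mul_le_mul (h0 u hu) (a1.trans (mul_le_mul_of_nonneg_right (le_max_left _ _)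
      (Real.exp_pos _).le)) (norm_nonneg _) hD
  · rw [norm_mul, mul_assoc]
    exact mul_le_mul (h0 u hu) (a2.trans (mul_le_mul_of_nonneg_right (le_max_right _ _)
      (Real.exp_pos _).le)) (norm_nonneg _) hD

theorem sX_tendsto (tz : Tendsto z F (𝓝 z0)) (tw : Tendsto w F (𝓝 w0)) (hz : z0 ∈ LS) {u : ℂ}
    (hu : u.re ∈ K3) : Tendsto (fun e => sX (z e) (w e) u) F (𝓝 (sX z0 w0 u)) := by
  unfold sX
  exact (Lg_tendsto tz hz hu).mul ((sin_tendsto (tendsto_const_nhds.sub tw)).mul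
    (sin_tendsto ((tendsto_const_nhds.sub tw).sub_const _)))

theorem sY_tendsto (tz : Tendsto z F (𝓝 z0)) (tw : Tendsto w F (𝓝 w0)) (hz : z0 ∈ LS)
    (hw : |w0.re| < 13 / 10 * l) {u : ℂ} (hu : u.re ∈ K3) :
    Tendsto (fun e => sY (z e) (w e) u) F (𝓝 (sY z0 w0 u)) := by
  unfold sY
  refine (Lg_tendsto tz hz hu).mul (Tendsto.div tendsto_const_nhds
    ((sin_tendsto ((tendsto_const_nhds.sub tw).add_const _)).pow 2) ?_)
  refine pow_ne_zero _ (NUP1.Bd.sin_ne_zero_of_re ?_)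
  have e : (u - w0 + 3 * (l : ℂ)).re = u.re - w0.re + 3 * l := by simp
  rw [e]
  exact (Pool.Agent.RX.K3_posJ hw hu).ne'

end

/-! ### the prefactor -/

section
variable {E : Type*} {F : Filter E} {z w : E → ℂ} {z0 w0 : ℂ} {x : E → Fin m → ℂ} {x0 : Fin m → ℂ}
  {y : E → Fin M → ℂ} {y0 : Fin M → ℂ}

theorem PJU_tendsto (tz : Tendsto z F (𝓝 z0)) (tw : Tendsto w F (𝓝 w0))
    (tx : ∀ i, Tendsto (fun e => x e i) F (𝓝 (x0 i)))
    (ty : ∀ i, Tendsto (fun e => y e i) F (𝓝 (y0 i))) (hz : |z0.re| < 7 / 10 * l)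
    (hw : |w0.re| < 13 / 10 * l) (hx : Rws x0) (hy : Rws y0) :
    Tendsto (fun e => PJU (z e) (x e) (y e) (w e)) F (𝓝 (PJU z0 x0 y0 w0)) := by
  have hl := lpos
  have tL : Tendsto (fun e => Lp (z e) (w e)) F (𝓝 (Lp z0 w0)) := by
    unfold PB.Lp
    exact (sin_tendsto ((tz.sub tw).add_const _)).mul (sin_tendsto ((tz.sub tw).add_const _))
  have tF : ∀ j, Tendsto (fun e => Fp (w e - x e j)) F (𝓝 (Fp (w0 - x0 j))) := by
    intro j
    unfold PB.Fp
    exact ((sin_tendsto ((tw.sub (tx j)).add_const _)).mul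
      (sin_tendsto ((tw.sub (tx j)).add_const _))).mul
      ((sin_tendsto (tendsto_const_nhds.sub (tw.sub (tx j)))).mul
      (sin_tendsto (tendsto_const_nhds.sub (tw.sub (tx j)))))
  unfold PJU
  refine Tendsto.mul (tendsto_const_nhds.mul (Tendsto.div ((rh_tendsto (tz.sub tw)
    (leg_re hz hw)).pow 2) tL (Lp_ne hz hw)))
    ((tendsto_finsetProd _ fun j _ => Tendsto.div ((rh_tendsto (tw.sub (tx j)) ?_).pow 2)
      (tF j) (Fp_ne (row_re hw (hx j)))).mul
      (tendsto_finsetProd _ fun j _ => (rh_tendsto (tw.sub (ty j)) ?_).pow 2))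
  · have := row_re hw (hx j)
    linarith
  · have := row_re hw (hy j)
    linarith

end

theorem PJU_diff {z : ℂ} {x : Fin m → ℂ} {y : Fin M → ℂ} {w : ℂ} (hz : |z.re| < 7 / 10 * l)
    (hw : |w.re| < 13 / 10 * l) (hx : Rws x) (hy : Rws y) : DifferentiableAt ℂ (PJU z x y) w := by
  have hl := lpos
  have hL := Lp_ne hz hw
  have dL : DifferentiableAt ℂ (fun w => Lp z w) w := by
    unfold PB.Lp
    fun_prop
  have dF : ∀ j, DifferentiableAt ℂ (fun w => Fp (w - x j)) w := by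
    intro j
    unfold PB.Fp
    fun_prop
  have r1 : DifferentiableAt ℂ (fun w => rh (z - w)) w :=
    (differentiableAt_rh (by linarith [leg_re hz hw])).comp w (differentiableAt_id.const_sub _)
  have r2 : ∀ j, DifferentiableAt ℂ (fun w => rh (w - x j)) w := fun j =>
    (differentiableAt_rh (by linarith [row_re hw (hx j)])).comp w (differentiableAt_id.sub_const _)
  have r3 : ∀ j, DifferentiableAt ℂ (fun w => rh (w - y j)) w := fun j =>
    (differentiableAt_rh (by linarith [row_re hw (hy j)])).comp w (differentiableAt_id.sub_const _)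
  unfold PJU
  refine DifferentiableAt.mul (DifferentiableAt.const_mul ((r1.pow 2).div dL hL) _)
    ((DifferentiableAt.fun_finsetProd fun j _ => ?_).mul
      (DifferentiableAt.fun_finsetProd fun j _ => (r3 j).pow 2))
  exact ((r2 j).pow 2).div (dF j) (Fp_ne (row_re hw (hx j)))

theorem PJU_perm (z : ℂ) (x : Fin m → ℂ) (y : Fin M → ℂ) (σ : Equiv.Perm (Fin m))
    (τ : Equiv.Perm (Fin M)) (w : ℂ) :
    PJU z (fun i => x (σ i)) (fun i => y (τ i)) w = PJU z x y w := by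
  unfold PJU
  rw [Equiv.prod_comp σ fun j => rh (w - x j) ^ 2 / Fp (w - x j), Equiv.prod_comp τ fun j =>
    rh (w - y j) ^ 2]

/-- the constant of the removed row -/
theorem const_JU : (9 / 4 : ℂ) * sin l ^ 2 * rh 0 ^ 2 = Fp 0 := by
  have h1 := PBS.rh3
  have h2 := PBS.rh03
  rw [Fp_zero, ← h2, ← h1]
  ring

theorem D2_consX {x0 : ℂ} (x : Fin m → ℂ) (y : Fin M → ℂ) :
    D2 (Fin.cons x0 x : Fin (m + 1) → ℂ) y = (∏ j, rh (x0 - y j) ^ 2) * D2 x y := by
  unfold PB.D2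
  rw [Fin.prod_univ_succ]
  simp only [Fin.cons_zero, Fin.cons_succ]

theorem Pf_consU {z x0 : ℂ} {x : Fin m → ℂ} {y : Fin M → ℂ} (hz : |z.re| < 7 / 10 * l)
    (h0 : |x0.re| ≤ l / 2) (hx : Rws x) (hy : Rws y) :
    Pf z (Fin.cons x0 x : Fin (m + 1) → ℂ) y * PJU z (Fin.cons x0 x : Fin (m + 1) → ℂ) y x0 =
      Pf z x y := by
  have hl := lpos
  have h0' : |x0.re| < 13 / 10 * l := by (clear * - h0 hl; linarith)
  have nL := Lp_ne hz h0'
  have nF : ∀ j, Fp (x0 - x j) ≠ 0 := fun j => Fp_ne (row_re h0' (hx j))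
  have nF0 : Fp 0 ≠ 0 := Fp_ne (by simpa using by (clear * - hl; linarith))
  have nR0 : rh 0 ≠ 0 := rh0_ne
  have nRz : rh (z - x0) ≠ 0 := rh_ne_zero (leg_re hz h0')
  have nR : ∀ j, rh (x0 - x j) ≠ 0 := fun j => rh_ne_zero (by linarith [row_re h0' (hx j)])
  have nRy : ∀ j, rh (x0 - y j) ≠ 0 := fun j => rh_ne_zero (by (clear * - hl h0' hy; linarith [row_re h0' (hy j)]))
  have e1 : Nu z (Fin.cons x0 x : Fin (m + 1) → ℂ) =
      sin l * Lp z x0 * (∏ j, Fp (x0 - x j)) * Nu z x := by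
    unfold PB.Nu
    rw [P_cons' (f := Fp), Fin.prod_univ_succ]
    simp only [Fin.cons_zero, Fin.cons_succ]
    ring
  have e2 : D1 z (Fin.cons x0 x : Fin (m + 1) → ℂ) =
      (∏ j, rh (x0 - x j) ^ 2) * rh (z - x0) ^ 2 * D1 z x := by
    unfold PB.D1
    rw [P_cons' (f := fun w => rh w ^ 2), Fin.prod_univ_succ]
    simp only [Fin.cons_zero, Fin.cons_succ]
    ring
  have e3 := D2_consX (x0 := x0) x y
  have e4 : PJU z (Fin.cons x0 x : Fin (m + 1) → ℂ) y x0 =
      3 / 2 * sin l * (rh (z - x0) ^ 2 / Lp z x0) * (rh 0 ^ 2 / Fp 0 *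
        ((∏ j, rh (x0 - x j) ^ 2) / ∏ j, Fp (x0 - x j)) * ∏ j, rh (x0 - y j) ^ 2) := by
    unfold PJU
    rw [Fin.prod_univ_succ]
    simp only [Fin.cons_zero, Fin.cons_succ, sub_self]
    rw [Finset.prod_div_distrib]
  have nPF : ∏ j, Fp (x0 - x j) ≠ 0 := Finset.prod_ne_zero_iff.2 fun j _ => nF j
  have nPR : ∏ j, rh (x0 - x j) ^ 2 ≠ 0 := Finset.prod_ne_zero_iff.2 fun j _ => pow_ne_zero _ (nR j)
  have nPY : ∏ j, rh (x0 - y j) ^ 2 ≠ 0 := Finset.prod_ne_zero_iff.2 fun j _ => pow_ne_zero _ (nRy j)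
  unfold PB.Pf
  rw [e1, e2, e3, e4, show m + 1 + M + 1 = (m + M + 1) + 1 by ring, pow_succ (3 / 2 : ℂ) (m + M + 1)]
  have hcon := const_JU
  generalize (∏ j, Fp (x0 - x j)) = a at *
  generalize (∏ j, rh (x0 - x j) ^ 2) = b at *
  generalize (∏ j, rh (x0 - y j) ^ 2) = d at *
  generalize Lp z x0 = L0 at *
  generalize Fp 0 = F0 at *
  generalize sin (l : ℂ) = s at *
  generalize rh 0 = R0 at *
  generalize rh (z - x0) = Rz at *
  generalize D1 z x = t1 at *
  generalize D1 z y = t2 at *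
  generalize D2 x y = t3 at *
  generalize Nu z x = t4 at *
  generalize Nu z y = t5 at *
  have hF : F0 = 9 / 4 * s ^ 2 * R0 ^ 2 := hcon.symm
  have ns : s ≠ 0 := by
    rintro rfl
    exact nF0 (by rw [hF]; ring)
  rw [hF]
  field_simp
  ring

/-! ### joint continuity -/

theorem JU_tendsto {E : Type*} {F : Filter E} [F.IsCountablyGenerated] {z w : E → ℂ}
    {x : E → Fin m → ℂ} {y : E → Fin M → ℂ} {z0 w0 : ℂ} {x0 : Fin m → ℂ} {y0 : Fin M → ℂ}
    (tz : Tendsto z F (𝓝 z0)) (tw : Tendsto w F (𝓝 w0))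
    (tx : ∀ i, Tendsto (fun e => x e i) F (𝓝 (x0 i)))
    (ty : ∀ i, Tendsto (fun e => y e i) F (𝓝 (y0 i))) (hx : ∀ᶠ e in F, Rws (x e))
    (hy : ∀ᶠ e in F, Rws (y e)) (hx0 : Rws x0) (hy0 : Rws y0) (hz : |z0.re| < 7 / 10 * l)
    (hw : |w0.re| < 13 / 10 * l) :
    Tendsto (fun e => JU (z e) (x e) (y e) (w e)) F (𝓝 (JU z0 x0 y0 w0)) := by
  have hL := LS_of hz
  unfold JU
  refine Tendsto.mul ((Pf_tendsto tz tx ty (fun i j => Rws.dist hx0 hx0 i j)
    (fun i j => Rws.dist hy0 hy0 i j) (fun i j => Rws.dist hx0 hy0 i j) (Rws.narZ hx0 hL)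
    (Rws.narZ hy0 hL)).mul (PJU_tendsto tz tw tx ty hz hw hx0 hy0)) (sumU_tendsto fun n n' hn => ?_)
  obtain ⟨D, hD, hb⟩ := s_unif tz tw hL hw
  refine DZU_tendsto (R := (∑ j, |(x0 j).im| + 1) + (∑ j, |(y0 j).im| + 1)) (-cn m) (cn M) ?_ hx0 hy0
    tx ty hD ?_ (fun u hu => sX_tendsto tz tw hL hu) (fun u hu => sY_tendsto tz tw hL hw hu)
    (cast_hn hn)
  · filter_upwards [hx, hy, bd_im tx, bd_im ty] with e h1 h2 h3 h4
    have s1 : 0 ≤ ∑ j, |(x0 j).im| := Finset.sum_nonneg fun _ _ => abs_nonneg _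
    have s2 : 0 ≤ ∑ j, |(y0 j).im| := Finset.sum_nonneg fun _ _ => abs_nonneg _
    exact ⟨h1, h2, fun i => (h3 i).trans (by (clear * - s2; linarith)), fun i => (h4 i).trans (by linarith)⟩
  · filter_upwards [hb] with e he
    exact ⟨sX_meas _ _, sY_meas _ _, he⟩

theorem JU_perm (z : ℂ) (x : Fin m → ℂ) (y : Fin M → ℂ) (σ : Equiv.Perm (Fin m))
    (τ : Equiv.Perm (Fin M)) (w : ℂ) :
    JU z (fun i => x (σ i)) (fun i => y (τ i)) w = JU z x y w := by
  have h : ∀ n n' : ℕ, DZU (-cn m) (cn M) (sX z w) (sY z w) (fun i => x (σ i)) (fun i => y (τ i)) n n' =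
      DZU (-cn m) (cn M) (sX z w) (sY z w) x y n n' := fun n n' =>
    DZU_perm (-cn m) (cn M) (sX z w) (sY z w) x y n n' σ τ
  unfold JU
  rw [Pf_permU, PJU_perm]
  simp only [h]

theorem JV_perm (z : ℂ) (x : Fin m → ℂ) (y : Fin M → ℂ) (σ : Equiv.Perm (Fin m))
    (τ : Equiv.Perm (Fin M)) (w : ℂ) :
    JV z (fun i => x (σ i)) (fun i => y (τ i)) w = JV z x y w :=
  JU_perm (-z) (-x) (-y) σ τ (-w)

/-! ### the sum over the states -/

theorem JU_gen {z w : ℂ} {x : Fin m → ℂ} {y : Fin M → ℂ} (hz : |z.re| < 7 / 10 * l)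
    (hw : |w.re| < 13 / 10 * l) (hx : Rws x) (hy : Rws y) (ix : Hgt x) (iy : Hgt y) :
    JU z x y w = Pf z x y * PJU z x y w *
      sumU m M 1 fun n n' => DSU (-cn m) (cn M) (sX z w) (sY z w) x y n n' := by
  have hL := LS_of hz
  unfold JU
  congr 1
  exact sumU_congr fun n n' hn => DZU_eq ix iy hx hy (sX_SpU hL w) (sY_SpU hL hw) (cast_hn hn)

/-- one body function of the first group: the row and the removed row -/
theorem hrX_row (c z x₀ : ℂ) (x : Fin m → ℂ) (y : Fin M → ℂ) {v : ℂ} (h : sin (v - x₀) ≠ 0)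
    (h2 : sin (v - x₀ - 2 * l) ≠ 0) :
    hr c (Fin.cons x₀ x : Fin (m + 1) → ℂ) y v * sX z x₀ v * (1 / sin (v - x₀)) =
      hr c x y v * Lg z z v := by
  unfold NUP1.Leg.hr sX
  rw [Fin.prod_univ_succ]
  simp only [Fin.cons_zero, Fin.cons_succ]
  have key : 1 / sin (v - x₀ - 2 * l) * (sin (v - x₀) * sin (v - x₀ - 2 * l)) * (1 / sin (v - x₀)) =
      1 := by
    generalize sin (v - x₀) = a at *
    generalize sin (v - x₀ - 2 * l) = b at *
    field_simp
  linear_combination (c * (∏ i, 1 / sin (v - x i - 2 * l)) * (∏ j, sin (v - y j + 3 * l) ^ 2) *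
    Lg z z v) * key

/-- one body function of the second group: the row and the removed row -/
theorem hrY_row (c z x₀ : ℂ) (x : Fin m → ℂ) (y : Fin M → ℂ) {v : ℂ} (h : sin (v - x₀ + 3 * l) ≠ 0) :
    hr c y (Fin.cons x₀ x : Fin (m + 1) → ℂ) v * sY z x₀ v = hr c y x v * Lg z z v := by
  unfold NUP1.Leg.hr sY
  rw [Fin.prod_univ_succ]
  simp only [Fin.cons_zero, Fin.cons_succ]
  have key : sin (v - x₀ + 3 * l) ^ 2 * (1 / sin (v - x₀ + 3 * l) ^ 2) = 1 := by
    field_simp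
  linear_combination (c * (∏ i, 1 / sin (v - y i - 2 * l)) * (∏ j, sin (v - x j + 3 * l) ^ 2) *
    Lg z z v) * key

/-- the row `x₀` carries no quantum -/
theorem sta_rowX (c z x₀ : ℂ) {x : Fin m → ℂ} (y : Fin M → ℂ)
    (h0 : ∀ i, sin (x i - x₀) ≠ 0 ∧ sin (x i - x₀ - 2 * l) ≠ 0)
    (h1 : ∀ i, sin (x i - l - x₀) ≠ 0 ∧ sin (x i - l - x₀ - 2 * l) ≠ 0) (a₀ : SignType)
    (a : Fin m → SignType) :
    sta (Fin.cons x₀ x : Fin (m + 1) → ℂ)
      (fun u => hr c (Fin.cons x₀ x : Fin (m + 1) → ℂ) y u * sX z x₀ u)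
      (Fin.cons a₀ a : Fin (m + 1) → SignType) =
    if a₀ = .pos then sta x (fun u => hr c x y u * Lg z z u) a else 0 := by
  rw [sta_cons]
  simp only [Fin.cons_zero, Fin.cons_succ]
  rcases a₀ with _ | _ | _
  · rw [if_neg (by decide)]
    show hr c _ _ x₀ * sX z x₀ x₀ * _ * _ = 0
    rw [sX_self]
    ring
  · rw [if_neg (by decide)]
    show NUP1.rho / sin l * (hr c _ _ x₀ * sX z x₀ x₀ * _) * _ * _ = 0
    rw [sX_self]
    ring
  · rw [if_pos rfl]
    show 1 * _ * _ = _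
    have e1 : ∏ j, pr .pos (a j) x₀ (x j) =
        ∏ i, ((qu (a i) (x i)).map fun v => 1 / sin (v - x₀)).prod :=
      Finset.prod_congr rfl fun j _ => pr_pos _ _ _
    rw [e1, one_mul, mul_comm, ← sta_mul]
    exact sta_congr (fun i => hrX_row c z x₀ x y (h0 i).1 (h0 i).2)
      (fun i => hrX_row c z x₀ x y (h1 i).1 (h1 i).2) a

/-- an empty row of the first group has no cross weight -/
theorem crq_rowX (x₀ : ℂ) (x : Fin m → ℂ) (y : Fin M → ℂ) (a : Fin m → SignType)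
    (b : Fin M → SignType) :
    crq (Fin.cons x₀ x : Fin (m + 1) → ℂ) y (Fin.cons .pos a : Fin (m + 1) → SignType) b =
      crq x y a b := by
  unfold NUP1.crq
  rw [Fin.prod_univ_succ]
  have e1 : ∏ j : Fin M, ((qu ((Fin.cons SignType.pos a : Fin (m + 1) → SignType) 0)
      ((Fin.cons x₀ x : Fin (m + 1) → ℂ) 0)).map fun u =>
        ((qu (b j) (y j)).map fun v => NUP1.Bd.qg (u - v)).prod).prod = 1 := by
    refine Finset.prod_eq_one fun j _ => ?_
    simp [qu]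
  rw [e1, one_mul]
  simp only [Fin.cons_succ]

/-- **the removed row and the row together**, the sum over the states -/
theorem DSU_J (n n' : ℕ) (c c' z x₀ : ℂ) {x : Fin m → ℂ} {y : Fin M → ℂ}
    (h0 : ∀ i, sin (x i - x₀) ≠ 0 ∧ sin (x i - x₀ - 2 * l) ≠ 0)
    (h1 : ∀ i, sin (x i - l - x₀) ≠ 0 ∧ sin (x i - l - x₀ - 2 * l) ≠ 0)
    (hy0 : ∀ i, sin (y i - x₀ + 3 * l) ≠ 0) (hy1 : ∀ i, sin (y i - l - x₀ + 3 * l) ≠ 0) :
    DSU c c' (sX z x₀) (sY z x₀) (Fin.cons x₀ x : Fin (m + 1) → ℂ) y n n' =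
      DSU c c' (Lg z z) (Lg z z) x y n n' := by
  unfold DSU
  rw [sum_St_succ]
  · refine Finset.sum_congr rfl fun a _ => Finset.sum_congr rfl fun b _ => ?_
    have e : sta y (fun v => hr c' y (Fin.cons x₀ x : Fin (m + 1) → ℂ) v * sY z x₀ v) b =
        sta y (fun v => hr c' y x v * Lg z z v) b :=
      NUP1.N.sta_congr' (h := fun v => hr c' y (Fin.cons x₀ x : Fin (m + 1) → ℂ) v * sY z x₀ v)
        (k := fun v => hr c' y x v * Lg z z v) (fun i => hrY_row c' z x₀ x y (hy0 i))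
        (fun i => hrY_row c' z x₀ x y (hy1 i)) b
    rw [sta_rowX c z x₀ y h0 h1, if_pos rfl, e, crq_rowX]
  · intro a₀ a ha
    refine Finset.sum_eq_zero fun b _ => ?_
    rw [sta_rowX c z x₀ y h0 h1, if_neg ha]
    ring

theorem y_ne {x0 : ℂ} {y : Fin M → ℂ} (h0 : |x0.re| ≤ l / 2) (hy : Rws y) (i : Fin M) :
    sin (y i - x0 + 3 * l) ≠ 0 ∧ sin (y i - l - x0 + 3 * l) ≠ 0 := by
  have hl := lpos
  obtain ⟨h1, h2⟩ := abs_le.1 h0
  obtain ⟨h3, h4⟩ := abs_le.1 (hy i)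
  have e1 : (y i - x0 + 3 * (l : ℂ)).re = (y i).re - x0.re + 3 * l := by simp
  have e2 : (y i - (l : ℂ) - x0 + 3 * (l : ℂ)).re = (y i).re - l - x0.re + 3 * l := by simp
  exact ⟨sin_ne_08 (by rw [e1]; (clear * - hl h2 h3; linarith)) (by rw [e1]; linarith),
    sin_ne_08 (by rw [e2]; linarith) (by rw [e2]; linarith)⟩

/-- the sum over the numbers of quanta: one row less -/
theorem sumU_succ {F : ℕ → ℕ → ℂ} (hF : ∀ n n', 2 * m < n → F n n' = 0) :
    sumU (m + 1) M 1 F = sumU m M 0 F := by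
  unfold _root_.RX.sumU
  have e : ∀ n n' : ℕ, ((n' : ℤ) + ((m + 1 : ℕ) : ℤ) = n + M + 1) ↔ ((n' : ℤ) + m = n + M + 0) := by
    intro n n'
    push_cast
    constructor <;> intro h <;> (clear * - h; linarith)
  symm
  refine (Finset.sum_subset (Finset.range_mono (by omega)) fun n _ hn => ?_).trans
    (Finset.sum_congr rfl fun n _ => Finset.sum_congr rfl fun n' _ => if_congr (e n n').symm rfl rfl)
  refine Finset.sum_eq_zero fun n' _ => ?_
  rw [Finset.mem_range] at hn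
  rw [hF n n' (by omega), ite_self]

/-- the removed row is a row of the content, pairwise different heights -/
theorem JU_self_gen {z x0 : ℂ} {x : Fin m → ℂ} {y : Fin M → ℂ} (hz : |z.re| < 7 / 10 * l)
    (h0 : |x0.re| ≤ l / 2) (hx : Rws x) (hy : Rws y) (ix : Hgt (Fin.cons x0 x : Fin (m + 1) → ℂ))
    (iy : Hgt y) : JU z (Fin.cons x0 x : Fin (m + 1) → ℂ) y x0 = nzU z x y := by
  have hl := lpos
  have ix' : Hgt x := fun i j hij => by
    simpa using ix i.succ j.succ fun h => hij (Fin.succ_injective _ h)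
  have kx : ∀ i, (x i).im ≠ x0.im := fun i => by simpa using ix i.succ 0 (Fin.succ_ne_zero i)
  rw [JU_gen hz (by linarith) (Rws.cons h0 hx) hy ix iy, Pf_consU hz h0 hx hy, cn_succ, neg_neg,
    nzU_gen (LS_of hz) hx hy ix' iy]
  congr 1
  have e : ∀ n n' : ℕ, DSU (cn m) (cn M) (sX z x0) (sY z x0) (Fin.cons x0 x : Fin (m + 1) → ℂ) y n n' =
      DSU (cn m) (cn M) (Lg z z) (Lg z z) x y n n' := fun n n' =>
    DSU_J n n' (cn m) (cn M) z x0 (fun i => ⟨(sin_hgt' (kx i)).1.1, (sin_hgt' (kx i)).1.2.1⟩)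
      (fun i => ⟨(sin_hgt' (kx i)).2.1, (sin_hgt' (kx i)).2.2.1⟩) (fun i => (y_ne h0 hy i).1)
      (fun i => (y_ne h0 hy i).2)
  simp only [e]
  exact sumU_succ fun n n' hn => DSU_zero (Or.inl hn)

/-- **The removed row is a row of the content, all rows.** -/
theorem JU_self {z x0 : ℂ} {x : Fin m → ℂ} {y : Fin M → ℂ} (hz : |z.re| < 7 / 10 * l)
    (h0 : |x0.re| ≤ l / 2) (hx : Rws x) (hy : Rws y) :
    JU z (Fin.cons x0 x : Fin (m + 1) → ℂ) y x0 = nzU z x y := by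
  have hl := lpos
  have rx := Rws.cons h0 hx
  set px : ℝ → Fin m → ℂ := fun e i => pull (Fin.cons x0 x : Fin (m + 1) → ℂ) e i.succ with hpx
  have rpx : ∀ e, Rws (px e) := fun e i => pull_Rws rx e i.succ
  have t1 : Tendsto (fun e => JU z (pull (Fin.cons x0 x : Fin (m + 1) → ℂ) e) (pull y e) x0)
      (𝓝[>] (0 : ℝ)) (𝓝 (JU z (Fin.cons x0 x : Fin (m + 1) → ℂ) y x0)) :=
    JU_tendsto tendsto_const_nhds tendsto_const_nhds (pull_tendsto _) (pull_tendsto _)
      (Eventually.of_forall fun e => pull_Rws rx e) (Eventually.of_forall fun e => pull_Rws hy e)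
      rx hy hz (by linarith)
  have t2 : Tendsto (fun e => nzU z (px e) (pull y e)) (𝓝[>] (0 : ℝ)) (𝓝 (nzU z x y)) := by
    have t : ∀ i, Tendsto (fun e => px e i) (𝓝[>] (0 : ℝ)) (𝓝 (x i)) := fun i => by
      simpa using pull_tendsto (Fin.cons x0 x : Fin (m + 1) → ℂ) i.succ
    exact nzU_tendsto tendsto_const_nhds t (pull_tendsto y) (Eventually.of_forall rpx)
      (Eventually.of_forall fun e => pull_Rws hy e) hx hy (LS_of hz)
  refine tendsto_nhds_unique (t1.congr' ?_) t2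
  filter_upwards [pull_Hgt (Fin.cons x0 x : Fin (m + 1) → ℂ), pull_Hgt y] with e h1 h2
  rw [pull_cons x0 x e] at h1 ⊢
  exact JU_self_gen hz h0 (rpx e) (pull_Rws hy e) h1 h2

theorem JV_self {z x0 : ℂ} {x : Fin m → ℂ} {y : Fin M → ℂ} (hz : |z.re| < 7 / 10 * l)
    (h0 : |x0.re| ≤ l / 2) (hx : Rws x) (hy : Rws y) :
    JV z (Fin.cons x0 x : Fin (m + 1) → ℂ) y x0 = nzU z x y := by
  have hl := lpos
  unfold JV
  rw [neg_cons, JU_self (by rwa [neg_re, abs_neg]) (by rwa [neg_re, abs_neg]) (Rws.neg hx)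
    (Rws.neg hy)]
  exact nzU_neg (by (clear * - hz hl; linarith)) hx hy

/-- **the value at the rows: the content without this row** -/
theorem JU_row {z : ℂ} {x : Fin (m + 1) → ℂ} {y : Fin M → ℂ} (hz : |z.re| < 7 / 10 * l)
    (hx : Rws x) (hy : Rws y) (j : Fin (m + 1)) :
    JU z x y (x j) = nzU z (fun i : Fin m => x (Equiv.swap 0 j i.succ)) y := by
  have hx' : Rws fun i : Fin m => x (Equiv.swap 0 j i.succ) := fun i => hx _
  have h := JU_perm z x y (Equiv.swap 0 j) (Equiv.refl _) (x j)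
  rw [← h, cons_swap]
  exact JU_self hz (hx j) hx' hy

theorem JV_row {z : ℂ} {x : Fin (m + 1) → ℂ} {y : Fin M → ℂ} (hz : |z.re| < 7 / 10 * l)
    (hx : Rws x) (hy : Rws y) (j : Fin (m + 1)) :
    JV z x y (x j) = nzU z (fun i : Fin m => x (Equiv.swap 0 j i.succ)) y := by
  have hx' : Rws fun i : Fin m => x (Equiv.swap 0 j i.succ) := fun i => hx _
  have h := JV_perm z x y (Equiv.swap 0 j) (Equiv.refl _) (x j)
  rw [← h, cons_swap]
  exact JV_self hz (hx j) hx' hy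

/-- the difference vanishes at the rows of the first group -/
theorem JU_node {z : ℂ} {x : Fin m → ℂ} {y : Fin M → ℂ} (hz : |z.re| < 7 / 10 * l) (hx : Rws x)
    (hy : Rws y) (j : Fin m) : JU z x y (x j) - JV z x y (x j) = 0 := by
  rcases m with _ | m
  · exact j.elim0
  rw [JU_row hz hx hy j, JV_row hz hx hy j, sub_self]

/-! ### analyticity -/

theorem sX_diff (z w u : ℂ) : DifferentiableAt ℂ (fun w => sX z w u) w := by
  unfold sX
  fun_prop

theorem sY_diff {z w u : ℂ} (hw : |w.re| < 13 / 10 * l) (h1 : -(17 / 10 * l) ≤ u.re)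
    (h2 : u.re ≤ 3 / 5 * l) : DifferentiableAt ℂ (fun w => sY z w u) w := by
  have hl := lpos
  obtain ⟨h3, h4⟩ := abs_lt.1 hw
  have e : (u - w + 3 * (l : ℂ)).re = u.re - w.re + 3 * l := by simp
  have hs : sin (u - w + 3 * l) ^ 2 ≠ 0 :=
    pow_ne_zero _ (sin_ne_08 (by rw [e]; (clear * - h1 h4; linarith)) (by rw [e]; (clear * - h2 hl h3; linarith)))
  unfold sY
  fun_prop (disch := exact hs)

theorem sta_diffW (c : ℂ) {s : ℂ → ℂ → ℂ} {x : Fin m → ℂ} (y : Fin M → ℂ) (a : Fin m → SignType)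
    {w : ℂ} (hs : ∀ u : ℂ, -(17 / 10 * l) ≤ u.re → u.re ≤ 3 / 5 * l →
      DifferentiableAt ℂ (fun w => s w u) w) (hx : Rws x) :
    DifferentiableAt ℂ (fun w => sta x (fun u => hr c x y u * s w u) a) w := by
  have hl := lpos
  unfold NUP1.sta
  refine DifferentiableAt.mul_const (DifferentiableAt.fun_finsetProd fun i _ => ?_) _
  obtain ⟨h1, h2⟩ := abs_le.1 (hx i)
  have e : (x i - (l : ℂ)).re = (x i).re - l := by simp
  have d1 : DifferentiableAt ℂ (fun w => hr c x y (x i) * s w (x i)) w :=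
    (hs _ (by linarith) (by linarith)).const_mul _
  have d2 : DifferentiableAt ℂ (fun w => hr c x y (x i - l) * s w (x i - l)) w :=
    (hs _ (by rw [e]; linarith) (by rw [e]; linarith)).const_mul _
  rcases a i with _ | _ | _
  · exact d1
  · exact (d1.mul d2).const_mul _
  · exact differentiableAt_const _

theorem JU_diff_gen {z : ℂ} {x : Fin m → ℂ} {y : Fin M → ℂ} (hz : |z.re| < 7 / 10 * l)
    (hx : Rws x) (hy : Rws y) (ix : Hgt x) (iy : Hgt y) : DifferentiableOn ℂ (JU z x y) YS := by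
  have h : DifferentiableOn ℂ (fun w => Pf z x y * PJU z x y w *
      sumU m M 1 fun n n' => DSU (-cn m) (cn M) (sX z w) (sY z w) x y n n') YS := by
    intro w hw
    refine DifferentiableAt.differentiableWithinAt (((PJU_diff hz hw hx hy).const_mul _).mul
      (sumU_diff fun n n' _ => ?_))
    unfold DSU
    refine DifferentiableAt.fun_sum fun a _ => DifferentiableAt.fun_sum fun b _ => ?_
    exact ((sta_diffW (-cn m) y a (fun u _ _ => sX_diff z w u) hx).mul
      (sta_diffW (cn M) x b (fun u h1 h2 => sY_diff hw h1 h2) hy)).mul_const _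
  exact h.congr fun w hw => JU_gen hz hw hx hy ix iy

/-- **analyticity in the removed row** -/
theorem JU_diff {z : ℂ} {x : Fin m → ℂ} {y : Fin M → ℂ} (hz : |z.re| < 7 / 10 * l)
    (hx : Rws x) (hy : Rws y) : DifferentiableOn ℂ (JU z x y) YS := by
  refine diff_of_joint (F := 𝓝[>] (0 : ℝ)) (D := fun w e => JU z (pull x e) (pull y e) w)
    (fun w hw => ?_) YS_open ?_
  · have t2 : ∀ {k : ℕ} (x : Fin k → ℂ) (i : Fin k), Tendsto (fun p : ℂ × ℝ => pull x p.2 i)
        (𝓝 w ×ˢ 𝓝[>] 0) (𝓝 (x i)) := fun x i => (pull_tendsto x i).comp tendsto_snd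
    exact JU_tendsto (F := 𝓝 w ×ˢ 𝓝[>] (0 : ℝ)) (z := fun _ => z) (w := fun p => p.1)
      (x := fun p => pull x p.2) (y := fun p => pull y p.2) tendsto_const_nhds tendsto_fst (t2 x)
      (t2 y) (Eventually.of_forall fun p => pull_Rws hx p.2)
      (Eventually.of_forall fun p => pull_Rws hy p.2) hx hy hz hw
  · filter_upwards [pull_Hgt x, pull_Hgt y] with e h1 h2
    exact JU_diff_gen hz (pull_Rws hx e) (pull_Rws hy e) h1 h2

theorem JV_diff {z : ℂ} {x : Fin m → ℂ} {y : Fin M → ℂ} (hz : |z.re| < 7 / 10 * l)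
    (hx : Rws x) (hy : Rws y) : DifferentiableOn ℂ (JV z x y) YS := by
  have h := JU_diff (z := -z) (by rwa [neg_re, abs_neg]) (Rws.neg hx) (Rws.neg hy)
  exact h.comp (differentiable_neg.differentiableOn) fun w hw => YS_neg hw

theorem JV_tendsto {E : Type*} {F : Filter E} [F.IsCountablyGenerated] {z w : E → ℂ}
    {x : E → Fin m → ℂ} {y : E → Fin M → ℂ} {z0 w0 : ℂ} {x0 : Fin m → ℂ} {y0 : Fin M → ℂ}
    (tz : Tendsto z F (𝓝 z0)) (tw : Tendsto w F (𝓝 w0))
    (tx : ∀ i, Tendsto (fun e => x e i) F (𝓝 (x0 i)))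
    (ty : ∀ i, Tendsto (fun e => y e i) F (𝓝 (y0 i))) (hx : ∀ᶠ e in F, Rws (x e))
    (hy : ∀ᶠ e in F, Rws (y e)) (hx0 : Rws x0) (hy0 : Rws y0) (hz : |z0.re| < 7 / 10 * l)
    (hw : |w0.re| < 13 / 10 * l) :
    Tendsto (fun e => JV (z e) (x e) (y e) (w e)) F (𝓝 (JV z0 x0 y0 w0)) :=
  JU_tendsto (z := fun e => -z e) (w := fun e => -w e) (x := fun e => -x e) (y := fun e => -y e)
    tz.neg tw.neg (fun i => (tx i).neg) (fun i => (ty i).neg) (hx.mono fun e he => Rws.neg he)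
    (hy.mono fun e he => Rws.neg he) (Rws.neg hx0) (Rws.neg hy0) (by rwa [neg_re, abs_neg])
    (by rwa [neg_re, abs_neg])

/-- **The zeros of the difference**, all rows. -/
theorem JU_zeros {z : ℂ} {x : Fin m → ℂ} {y : Fin M → ℂ} (hz : |z.re| < 7 / 10 * l) (hx : Rws x)
    (hy : Rws y) : ∃ Q : ℂ → ℂ, DifferentiableOn ℂ Q {w | |w.re| < 13 / 10 * l} ∧
      ∀ w, JU z x y w - JV z x y w = (∏ j, (w - x j)) * Q w := by
  have hl := lpos
  set R : ℝ := ∑ j, |(x j).im| + 1 with hR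
  set U : Set ℂ := {y | |y.re| < l ∧ |y.im| < R} with hU
  have hUo : IsOpen U := (isOpen_lt (continuous_abs.comp Complex.continuous_re)
    continuous_const).inter (isOpen_lt (continuous_abs.comp Complex.continuous_im) continuous_const)
  have hUb : Bornology.IsBounded U := by
    refine (Metric.isBounded_iff_subset_closedBall (0 : ℂ)).2 ⟨l + R, fun z hz => ?_⟩
    rw [Metric.mem_closedBall, dist_zero_right]
    have := Complex.norm_le_abs_re_add_abs_im z
    clear * - R this hz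
    linarith [hz.1, hz.2]
  have hUc : closure U ⊆ YS := by
    have h1 : closure U ⊆ {z : ℂ | |z.re| ≤ l} := by
      refine closure_minimal (fun z hz => hz.1.le) ?_
      exact isClosed_le (continuous_abs.comp Complex.continuous_re) continuous_const
    intro z hz
    have h2 : |z.re| ≤ l := h1 hz
    show |z.re| < 13 / 10 * l
    clear * - hl h2
    linarith
  obtain ⟨-, Q, hQ, hfQ⟩ := zero_rowsW (ι := Fin m) YS_open hUo hUb hUc (c := x) (S := GS m)
    (D := fun w x => JU z x y w - JV z x y w)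
    (fun j => by
      have h1 := hx j
      have h2 := PBX.im_le x j
      exact ⟨by linarith, by linarith⟩)
    (mem_closure_GS hx)
    (fun y hy i j hij => by
      by_contra hne
      exact hy.2 i j hne (by rw [hij]))
    (fun x hx => (JU_diff hz hx.1 hy).sub (JV_diff hz hx.1 hy))
    (fun w hw => by
      have tr : ∀ i, Tendsto (fun p : ℂ × (Fin m → ℂ) => p.2 i) (𝓝 w ×ˢ 𝓝[GS m] x)
          (𝓝 (x i)) := fun i =>
        (((continuous_apply i).tendsto x).mono_left nhdsWithin_le_nhds).comp tendsto_snd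
      have hrw : ∀ᶠ p : ℂ × (Fin m → ℂ) in 𝓝 w ×ˢ 𝓝[GS m] x, Rws p.2 := by
        have h1 : ∀ᶠ y in 𝓝[GS m] x, Rws y := by
          filter_upwards [self_mem_nhdsWithin] with y hy
          exact hy.1
        exact tendsto_snd.eventually h1
      exact (JU_tendsto (F := 𝓝 w ×ˢ 𝓝[GS m] x) (z := fun _ => z) (w := fun p => p.1)
        (x := fun p => p.2) (y := fun _ => y) tendsto_const_nhds tendsto_fst tr
        (fun _ => tendsto_const_nhds) hrw (Eventually.of_forall fun _ => hy) hx hy hz hw).sub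
        (JV_tendsto (F := 𝓝 w ×ˢ 𝓝[GS m] x) (z := fun _ => z) (w := fun p => p.1)
        (x := fun p => p.2) (y := fun _ => y) tendsto_const_nhds tendsto_fst tr
        (fun _ => tendsto_const_nhds) hrw (Eventually.of_forall fun _ => hy) hx hy hz hw))
    (by
      filter_upwards [self_mem_nhdsWithin] with x hx j
      exact JU_node hz hx.1 hy j)
  exact ⟨Q, hQ, hfQ⟩

/-! ### the state `-` of a far row -/

theorem k1_neg {z w : ℂ} (hz : |z.re| < 7 / 10 * l) (hw : |w.re| < 13 / 10 * l) :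
    k1 z .neg (w + 3 * l) = 3 / 2 * sin l * (rh (z - w) ^ 2 / Lp z w) := by
  have hl := lpos
  have h5 := leg_re hz hw
  have e1 : (z - w).re = z.re - w.re := by simp
  obtain ⟨h1, h2⟩ := abs_lt.1 hz
  obtain ⟨h3, h4⟩ := abs_lt.1 hw
  have hm := PBR.rh_mul' (w := z - w) (by (clear * - hl h5; linarith)) (by
    rw [e1, abs_lt]
    constructor <;> (clear * - hl h1 h4 h2 h3; linarith))
  have nL := Lp_ne hz hw
  have n1 : rh (z - w) ≠ 0 := rh_ne_zero h5
  have hLp : Lp z w = rh (z - w) * rh (z - w - 3 * l) := by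
    rw [hm]
    unfold PB.Lp
    rw [show 3 * (l : ℂ) + (z - w) = z - w + 3 * l by ring,
      show 2 * (l : ℂ) + (z - w) = z - w + 2 * l by ring]
    ring
  have n2 : rh (z - w - 3 * l) ≠ 0 := fun h => nL (by rw [hLp, h, mul_zero])
  have hLw : Lw .neg (z - (w + 3 * l)) = Lp z w := by
    show sin (z - (w + 3 * l) - 3 * l) * sin (z - (w + 3 * l) - 2 * l) = _
    have h8 : (8 : ℂ) * l = Real.pi := by
      unfold NUP1.l
      push_cast
      ring
    unfold PB.Lp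
    rw [show z - (w + 3 * (l : ℂ)) - 3 * l = z - w + 2 * l - 8 * l by ring,
      show z - (w + 3 * (l : ℂ)) - 2 * l = z - w + 3 * l - 8 * l by ring, h8, Complex.sin_sub_pi,
      Complex.sin_sub_pi]
    ring
  unfold _root_.RX.k1 _root_.RX.LL
  rw [hLw, show z - (w + 3 * (l : ℂ)) = z - w - 3 * l by ring]
  show sin l * Lp z w / (2 / 3 * rh (z - w - 3 * l) ^ 2) = _
  rw [hLp]
  field_simp

theorem kO_neg {w : ℂ} (h : |w.re| < 2 * l) : kO .neg (w + 3 * l) = rh w ^ 2 / Fp w := by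
  have hl := lpos
  obtain ⟨h1, h2⟩ := abs_lt.1 h
  have hm := PBR.rh_mul (w := w) (by linarith) (by
    rw [abs_lt]
    constructor <;> linarith)
  have nF := Fp_ne h
  have nr : rh w ≠ 0 := rh_ne_zero (by linarith)
  have e5 := sin5 w
  have e6 := sin6 w
  unfold _root_.RX.kO
  show sin (w + 3 * l + 2 * l) * sin (w + 3 * l + 3 * l) / (sin (w + 3 * l) * sin (w + 3 * l - l)) /
    rh (w + 3 * l) ^ 2 = _
  rw [e5, e6, show w + 3 * (l : ℂ) - l = w + 2 * l by ring]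
  unfold PB.Fp at nF ⊢
  have nS : sin (3 * l - w) * sin (2 * l - w) ≠ 0 := right_ne_zero_of_mul nF
  have nr3 : rh (w + 3 * l) ≠ 0 := fun h0 => nS (by rw [← hm, h0, mul_zero])
  have n1 := left_ne_zero_of_mul nF
  have n2 := left_ne_zero_of_mul n1
  have n3 := right_ne_zero_of_mul n1
  rw [← hm]
  field_simp

theorem kX_neg {w : ℂ} (h : |w.re| < 2 * l) : kX .neg (w + 3 * l) = rh w ^ 2 := by
  have hl := lpos
  obtain ⟨h1, h2⟩ := abs_lt.1 h
  have hm := PBR.rh_mul (w := w) (by linarith) (by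
    rw [abs_lt]
    constructor <;> linarith)
  have nF := Fp_ne h
  unfold PB.Fp at nF
  have nS : sin (3 * l - w) * sin (2 * l - w) ≠ 0 := right_ne_zero_of_mul nF
  have nr3 : rh (w + 3 * l) ≠ 0 := fun h0 => nS (by rw [← hm, h0, mul_zero])
  have e5 := sin5 w
  have e6 := sin6 w
  unfold _root_.RX.kX
  show sin (2 * l - -(w + 3 * l)) ^ 2 * sin (3 * l - -(w + 3 * l)) ^ 2 / rh (w + 3 * l) ^ 2 = _
  rw [show 2 * (l : ℂ) - -(w + 3 * l) = w + 3 * l + 2 * l by ring,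
    show 3 * (l : ℂ) - -(w + 3 * l) = w + 3 * l + 3 * l by ring, e5, e6, ← mul_pow, ← hm, mul_pow]
  field_simp

theorem GU_scale {c c' : ℂ} {s s' : ℂ → ℂ} (β : ℝ) (x : Fin m → ℂ) (y : Fin M → ℂ) (g : ℂ → ℂ)
    (h : ∀ u, c * s u = c' * s' u) : GU c β x y g s = GU c' β x y g s' := by
  funext u
  unfold GU NUP1.N.Gr0 NUP1.Leg.hr
  have := h u
  linear_combination ((∏ i, 1 / sin (u - x i - 2 * l)) * (∏ j, sin (u - y j + 3 * l) ^ 2) *
    PBX.ph β x g u * ∏ i, 1 / sin (u - x i)) * this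

theorem Wo_neg_s (z w u : ℂ) : Th z u * Wo .neg (u - (w + 3 * l)) = -sX z w u := by
  have h8 : (8 : ℂ) * l = Real.pi := by
    unfold NUP1.l
    push_cast
    ring
  show Lg z z u * -(sin (u - (w + 3 * l) + l) * sin (u - (w + 3 * l) + 3 * l)) = _
  unfold sX
  rw [show u - (w + 3 * (l : ℂ)) + l = u - w - 2 * l by ring,
    show u - (w + 3 * (l : ℂ)) + 3 * l = u - w by ring]
  ring

theorem Vo_neg_s (z w v : ℂ) : Th z v * Vo .neg (v - (w + 3 * l)) = sY z w v := by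
  have h8 : (8 : ℂ) * l = Real.pi := by
    unfold NUP1.l
    push_cast
    ring
  show Lg z z v * (1 / sin (v - (w + 3 * l) - 2 * l) ^ 2) = _
  unfold sY
  rw [show v - (w + 3 * (l : ℂ)) - 2 * l = v - w + 3 * l - 8 * l by ring, h8, Complex.sin_sub_pi]
  ring

/-- **the state `-` of the far row `w + 3 l` is the content without the row `w`** -/
theorem JU_far {z w : ℂ} {x : Fin m → ℂ} {y : Fin M → ℂ} (hz : |z.re| < 7 / 10 * l)
    (hw : |w.re| < 13 / 10 * l) (hx : Rws x) (hy : Rws y) :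
    cF .neg z (w + 3 * l) x y = JU z x y w := by
  have hD : ∀ n n' : ℕ, DZU (cn m) (cn M) (fun u => Th z u * Wo .neg (u - (w + 3 * l)))
      (fun u => Th z u * Vo .neg (u - (w + 3 * l))) x y n n' =
      DZU (-cn m) (cn M) (sX z w) (sY z w) x y n n' := by
    intro n n'
    unfold DZU
    rw [GU_scale (4 / 3) x y (fun _ => 1) (c := cn m) (c' := -cn m)
      (s := fun u => Th z u * Wo .neg (u - (w + 3 * l))) (s' := sX z w) (fun u => by
        rw [Wo_neg_s]
        ring), GU_scale (4 / 3) y x (fun _ => 1) (c := cn M) (c' := cn M)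
      (s := fun u => Th z u * Vo .neg (u - (w + 3 * l))) (s' := sY z w) (fun u => by
        rw [Vo_neg_s])]
  have hk : k1 z .neg (w + 3 * l) * ((∏ i, kO .neg (w + 3 * l - x i)) * ∏ j, kX .neg (w + 3 * l - y j)) =
      PJU z x y w := by
    have p1 : ∏ i, kO .neg (w + 3 * l - x i) = ∏ i, rh (w - x i) ^ 2 / Fp (w - x i) :=
      Finset.prod_congr rfl fun i _ => by
        rw [show w + 3 * (l : ℂ) - x i = w - x i + 3 * l by ring, kO_neg (row_re hw (hx i))]
    have p2 : ∏ j, kX .neg (w + 3 * l - y j) = ∏ j, rh (w - y j) ^ 2 :=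
      Finset.prod_congr rfl fun j _ => by
        rw [show w + 3 * (l : ℂ) - y j = w - y j + 3 * l by ring, kX_neg (row_re hw (hy j))]
    unfold PJU
    rw [k1_neg hz hw, p1, p2]
  unfold cF JU
  rw [hk]
  simp only [hD]
  rfl

end Pool.Agent.PLX

end
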