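import Pool.Agent.PLX.PB.ObB

/-!
# Lower bounds of the cutoff and of the row factors (the one body factor of a hole)

* `norm_psi_wide`: `‖psi β z‖ ≤ exp (16 exp (-2 β |im z|))` for `|re z + l / 2| ≤ 2 l`;
* **`phi_low`**: `min 1 (m exp (-2 β |im u|)) / 2048 ≤ ‖phi β W u‖` for `W = 0^K ++ ex` and
  `|re u + l / 2| ≤ 95 / 64 l` (to the left and to the right of the points of `ex`, `|re| ≤ l / 2`);
* `phi_inv`: the same as an upper bound of the inverse;
* `inv_rwO_le`, `inv_rwX_le`: inverse factors of a row against the row `0`;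
* `RwL`, `prod_rwO_le`, `prod_rwX_le`, `inv_prod_rwO_le`, `inv_prod_rwX_le`: lists of rows;
* `bas N a u = rwO 0 u ^ N a * rwX 0 u ^ N (!a)`, `R_up`, `R_inv`: both species.
-/

set_option autoImplicit false

noncomputable section

open Complex MeasureTheory Set

namespace PBO.PLX

open NUP1

/-! ### the factor of one point -/

section psi
variable {β : ℝ} {z : ℂ}

theorem cos_wide (h0 : 0 < β) (h1 : β ≤ 4 / 3) (hz : |z.re + l / 2| ≤ 2 * l) :
    -(1 / 2) ≤ Real.cos (2 * β * (z.re + l / 2)) := by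
  have hl := l_pos
  have hpi := pi_eq
  rw [← Real.cos_abs (2 * β * (z.re + l / 2))]
  have h2 : |2 * β * (z.re + l / 2)| ≤ 2 * Real.pi / 3 := by
    rw [abs_mul, abs_of_pos (by (clear * - h0; linarith) : 0 < 2 * β), ← hpi]
    calc 2 * β * |z.re + l / 2| ≤ 2 * (4 / 3) * (2 * l) := by (clear * - h1 hz; gcongr)
      _ = _ := by ring
  have e : Real.cos (2 * Real.pi / 3) = -(1 / 2) := by
    rw [show 2 * Real.pi / 3 = Real.pi - Real.pi / 3 by ring, Real.cos_pi_sub, Real.cos_pi_div_three]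
  rw [← e]
  exact Real.cos_le_cos_of_nonneg_of_le_pi (abs_nonneg _) (by (clear * - hl hpi; linarith [Real.pi_pos])) h2

/-- the denominator in the wide strip -/
theorem den_wide (h0 : 0 < β) (h1 : β ≤ 4 / 3) (hz : |z.re + l / 2| ≤ 2 * l) :
    Real.cosh (2 * β * z.im) ^ 2 / 8 ≤
      ‖Complex.cos (2 * β * z + β * l) + ((cl β : ℝ) : ℂ)‖ ^ 2 := by
  have ha := cos_wide h0 h1 hz
  have ha1 := Real.cos_le_one (2 * β * (z.re + l / 2))
  have hs := Real.sin_sq_add_cos_sq (2 * β * (z.re + l / 2))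
  have hx := Real.one_le_cosh (2 * β * z.im)
  have hc := Real.cosh_sq (2 * β * z.im)
  have hcl := NUGC.cl_ge h0 h1
  have hcl1 := cl_le_one β
  rw [cos_form, ← Complex.normSq_eq_norm_sq, Complex.normSq_apply]
  simp only [add_re, add_im, mul_re, mul_im, ofReal_re, ofReal_im, I_re, I_im]
  generalize Real.cos (2 * β * (z.re + l / 2)) = a at *
  generalize Real.sin (2 * β * (z.re + l / 2)) = s at *
  generalize Real.cosh (2 * β * z.im) = x at *
  generalize Real.sinh (2 * β * z.im) = y at *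
  generalize cl β = c at *
  have h3 : (0.8660 : ℝ) ≤ c := by
    have h5 : (1.732 : ℝ) < √3 := by
      rw [Real.lt_sqrt (by norm_num)]
      norm_num
    clear * - hcl h5
    linarith
  have e : (a * x + -(s * y) * 0 - 0 * 1 + c) * (a * x + -(s * y) * 0 - 0 * 1 + c) +
      (0 + (-(s * y) * 1 + 0 * 0) + 0) * (0 + (-(s * y) * 1 + 0 * 0) + 0) =
      x ^ 2 + 2 * (a * c) * x + c ^ 2 + a ^ 2 - 1 := by
    have e1 : s ^ 2 * y ^ 2 = (1 - a ^ 2) * (x ^ 2 - 1) := by
      rw [show s ^ 2 = 1 - a ^ 2 by (clear * - hs; linarith), show y ^ 2 = x ^ 2 - 1 by (clear * - hc; linarith)]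
    linear_combination e1
  have key : x ^ 2 / 8 ≤ x ^ 2 + 2 * (a * c) * x + c ^ 2 + a ^ 2 - 1 := by
    have h6 : -(1 / 2) ≤ a * c := by (clear * - ha hcl1 h3; nlinarith)
    have h7 : (1 / 8 : ℝ) ≤ (a + c) ^ 2 := by (clear * - ha hs hcl1 h3; nlinarith)
    clear * - h7 hx h6
    nlinarith [mul_nonneg (sub_nonneg.2 hx) (by linarith : (0 : ℝ) ≤ 7 / 4 + 2 * (a * c)),
      sq_nonneg (x - 1)]
  refine key.trans (le_of_eq ?_)
  rw [← e]
  ring

theorem cosh_inv_le (hβ : 0 < β) (t : ℝ) :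
    (Real.cosh (2 * β * t))⁻¹ ≤ 2 * Real.exp (-(2 * β) * |t|) := by
  have h := cosh_ge (2 * β * t)
  rw [abs_mul, abs_of_pos (by (clear * - hβ; linarith) : 0 < 2 * β)] at h
  have hE := Real.exp_pos (2 * β * |t|)
  rw [inv_le_comm₀ (Real.cosh_pos _) (by positivity), neg_mul, Real.exp_neg]
  refine le_trans (le_of_eq ?_) h
  field_simp

/-- **the factor of a point in the wide strip** -/
theorem norm_psi_wide (h0 : 0 < β) (h1 : β ≤ 4 / 3) (hz : |z.re + l / 2| ≤ 2 * l) :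
    ‖psi β z‖ ≤ Real.exp (16 * Real.exp (-(2 * β) * |z.im|)) := by
  have hden := den_wide h0 h1 hz
  have ha := cos_wide h0 h1 hz
  have hx := Real.one_le_cosh (2 * β * z.im)
  have hcl := NUGC.cl_ge h0 h1
  have hcl1 := cl_le_one β
  have hc0 : 0 ≤ cl β := le_trans (by positivity) hcl
  obtain ⟨C, hC⟩ : ∃ C, C = Complex.cos (2 * β * z + β * l) := ⟨_, rfl⟩
  have hcr : Complex.cos (β * l : ℂ) = ((cl β : ℝ) : ℂ) := by unfold cl; push_cast; rfl
  have hre : C.re = Real.cos (2 * β * (z.re + l / 2)) * Real.cosh (2 * β * z.im) := by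
    rw [hC, cos_form, vl_re]
  have hid : ‖C - (cl β : ℝ)‖ ^ 2 = ‖C + (cl β : ℝ)‖ ^ 2 - 4 * cl β * C.re := by
    rw [← Complex.normSq_eq_norm_sq, ← Complex.normSq_eq_norm_sq, Complex.normSq_apply,
      Complex.normSq_apply]
    simp only [sub_re, add_re, sub_im, add_im, ofReal_re, ofReal_im]
    ring
  rw [← hC] at hden
  have hden0 : 0 < ‖C + (cl β : ℝ)‖ ^ 2 := lt_of_lt_of_le (by positivity) hden
  have hpsi : ‖psi β z‖ ^ 2 = 1 - 4 * cl β * C.re / ‖C + (cl β : ℝ)‖ ^ 2 := by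
    unfold psi
    rw [← hC, hcr, norm_div, div_pow, hid, sub_div, div_self hden0.ne']
  have hci := cosh_inv_le h0 z.im
  have h2 : ‖psi β z‖ ^ 2 ≤ 1 + 16 * (Real.cosh (2 * β * z.im))⁻¹ := by
    rw [hpsi]
    have h3 : -(4 * cl β * C.re / ‖C + (cl β : ℝ)‖ ^ 2) ≤ 16 * (Real.cosh (2 * β * z.im))⁻¹ := by
      rw [← neg_div, div_le_iff₀ hden0]
      have h4 : -(4 * cl β * C.re) ≤ 2 * Real.cosh (2 * β * z.im) := by
        rw [hre]
        have h5 : -(1 / 2) ≤ cl β * Real.cos (2 * β * (z.re + l / 2)) := by (clear * - hcl1 ha hc0; nlinarith)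
        clear * - h5 hx
        nlinarith
      refine h4.trans ?_
      have h6 : 0 < Real.cosh (2 * β * z.im) := Real.cosh_pos _
      calc 2 * Real.cosh (2 * β * z.im) =
          16 * (Real.cosh (2 * β * z.im))⁻¹ * (Real.cosh (2 * β * z.im) ^ 2 / 8) := by
            field_simp
            ring
        _ ≤ _ := by (clear * - hden; gcongr)
    clear * - h3
    linarith
  have h7 : ‖psi β z‖ ^ 2 ≤ Real.exp (16 * Real.exp (-(2 * β) * |z.im|)) ^ 2 := by
    rw [← Real.exp_nat_mul]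
    have h8 := Real.add_one_le_exp (((2 : ℕ) : ℝ) * (16 * Real.exp (-(2 * β) * |z.im|)))
    push_cast at h8 ⊢
    clear * - hci h2 h8
    linarith
  exact (sq_le_sq₀ (norm_nonneg _) (Real.exp_pos _).le).1 h7

/-- half width of the strip of the points `0` -/
def sH : ℝ := 95 / 64 * l

theorem adm_sH (h0 : 0 < β) (h1 : β ≤ 4 / 3) : Adm β sH := by
  have hl := l_pos
  have hpi := pi_eq
  unfold sH
  refine ⟨h0, by positivity, ?_, ?_⟩
  · rw [← hpi]
    calc 2 * β * (95 / 64 * l) ≤ 2 * (4 / 3) * (95 / 64 * l) := by (clear * - h1 hl; gcongr)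
      _ < _ := by (clear * - hl; linarith)
  · rw [← hpi]
    calc β * l ≤ 4 / 3 * l := by (clear * - hl h1; gcongr)
      _ < _ := by (clear * - hl; linarith)

theorem kap_sH (h0 : 0 < β) (h1 : β ≤ 4 / 3) : 1 / 96 ≤ kap β sH := by
  have hl := l_pos
  have hpi := pi_eq
  have h2 : 2 * β * sH ≤ Real.pi / 2 - l / 24 := by
    unfold sH
    rw [← hpi]
    calc 2 * β * (95 / 64 * l) ≤ 2 * (4 / 3) * (95 / 64 * l) := by (clear * - h1 hl; gcongr)
      _ ≤ _ := by linarith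
  have h3 : 0 ≤ 2 * β * sH := by unfold sH; positivity
  have h4 : Real.sin (l / 24) ≤ kap β sH := by
    unfold kap
    rw [← Real.cos_pi_div_two_sub]
    exact Real.cos_le_cos_of_nonneg_of_le_pi h3 (by (clear * - hl hpi; linarith [Real.pi_pos])) h2
  have h5 := Real.mul_le_sin (x := l / 24) (by positivity) (by (clear * - hl hpi; linarith))
  have h6 : 2 / Real.pi * (l / 24) = 1 / 96 := by
    rw [← hpi]
    field_simp
    norm_num
  clear * - h4 h5 h6
  linarith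

/-- the factor of a point `0` -/
theorem norm_psi_sH (h0 : 0 < β) (h1 : β ≤ 4 / 3) (hz : |z.re + l / 2| ≤ sH) :
    ‖psi β z‖ ≤ Real.exp (-(1 / 256 * Real.exp (-(2 * β) * |z.im|))) := by
  refine (norm_psi (adm_sH h0 h1) hz).trans (Real.exp_le_exp.2 (neg_le_neg ?_))
  have h2 := kap_sH h0 h1
  have h3 := NUGC.cl_ge h0 h1
  have h4 : (3 / 4 : ℝ) ≤ cl β := by
    have h5 : (1.5 : ℝ) < √3 := by
      rw [Real.lt_sqrt (by norm_num)]
      norm_num
    clear * - h3 h5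
    linarith
  have hE := Real.exp_pos (-(2 * β) * |z.im|)
  refine mul_le_mul_of_nonneg_right ?_ hE.le
  clear * - h2 h4
  nlinarith

end psi

/-! ### the cutoff -/

/-- at most `n0` rows which are not `0` -/
structure RwL (n0 : ℕ) (h0 : ℝ) (K : ℕ) (W ex : List ℂ) : Prop where
  perm : W.Perm (List.replicate K 0 ++ ex)
  len : ex.length ≤ n0
  re : ∀ x ∈ ex, |x.re| ≤ l / 2
  im : ∀ x ∈ ex, |x.im| ≤ h0

section cutoff
variable {β : ℝ} {n0 K m : ℕ} {h0 : ℝ} {W ex : List ℂ} {u : ℂ}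

theorem norm_prod_ex (hβ0 : 0 < β) (hβ1 : β ≤ 4 / 3) (hh : 0 ≤ h0)
    (hr : ∀ x ∈ ex, |x.re| ≤ l / 2) (hi : ∀ x ∈ ex, |x.im| ≤ h0) (hu : |u.re + l / 2| ≤ sH) :
    ‖(ex.map fun x => psi β (u - x)).prod‖ ≤
      Real.exp (16 * Real.exp (8 / 3 * h0) * Real.exp (-(2 * β) * |u.im|) * ex.length) := by
  have hl := l_pos
  induction ex with
  | nil => simp
  | cons x X ih =>
    have ih' := ih (fun y hy => hr y (by simp [hy])) fun y hy => hi y (by simp [hy])
    have a1 : ‖psi β (u - x)‖ ≤ Real.exp (16 * Real.exp (8 / 3 * h0) * Real.exp (-(2 * β) * |u.im|)) := by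
      refine (norm_psi_wide hβ0 hβ1 ?_).trans (Real.exp_le_exp.2 ?_)
      · have h1 := abs_le.1 (hr x (by simp))
        have h2 := abs_le.1 hu
        unfold sH at h2
        rw [sub_re, abs_le]
        constructor <;> (clear * - hl h1 h2; linarith [h1.1, h1.2, h2.1, h2.2])
      · rw [mul_assoc, ← Real.exp_add]
        refine mul_le_mul_of_nonneg_left (Real.exp_le_exp.2 ?_) (by norm_num)
        have h3 : |u.im| - |x.im| ≤ |(u - x).im| := by rw [sub_im]; exact abs_sub_abs_le_abs_sub _ _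
        have h4 := hi x (by simp)
        have h5 : 2 * β * (|u.im| - |(u - x).im|) ≤ 2 * β * h0 :=
          mul_le_mul_of_nonneg_left (by (clear * - h3 h4; linarith)) (by (clear * - hβ0; linarith))
        have h6 : 2 * β * h0 ≤ 8 / 3 * h0 := mul_le_mul_of_nonneg_right (by (clear * - hβ1; linarith)) hh
        clear * - h5 h6
        linarith
    rw [List.map_cons, List.prod_cons, norm_mul, List.length_cons]
    refine (mul_le_mul a1 ih' (norm_nonneg _) (Real.exp_pos _).le).trans (le_of_eq ?_)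
    rw [← Real.exp_add]
    congr 1
    push_cast
    ring

theorem one_sub_exp_ge {y : ℝ} (hy : 0 ≤ y) : min 1 y / 2 ≤ 1 - Real.exp (-y) := by
  rcases le_total y 1 with h | h
  · rw [min_eq_right h]
    have h1 := Real.add_one_le_exp y
    have h2 : Real.exp (-y) ≤ (y + 1)⁻¹ := by
      rw [Real.exp_neg]
      exact inv_anti₀ (by linarith) h1
    have h3 : (y + 1)⁻¹ ≤ 1 - y / 2 := by
      rw [inv_le_iff_one_le_mul₀ (by (clear * - hy; linarith))]
      clear * - hy h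
      nlinarith
    linarith
  · rw [min_eq_left h]
    have h2 : Real.exp (-y) ≤ Real.exp (-1) := Real.exp_le_exp.2 (by linarith)
    have h3 : Real.exp (-1) ≤ 1 / 2 := by
      rw [Real.exp_neg, one_div]
      refine inv_anti₀ two_pos ?_
      have := Real.add_one_le_exp (1 : ℝ)
      linarith
    clear * - h2 h3
    linarith

/-- **the cutoff from below** -/
theorem phi_low (hβ0 : 0 < β) (hβ1 : β ≤ 4 / 3) (hh : 0 ≤ h0) (h : RwL n0 h0 K W ex)
    (hK : m ≤ K + n0) (hm : 2 ^ 14 * Real.exp (8 / 3 * h0) * n0 ≤ m) (hu : |u.re + l / 2| ≤ sH) :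
    min 1 (m * Real.exp (-(2 * β) * |u.im|)) / 2048 ≤ ‖phi β W u‖ := by
  have hE := Real.exp_pos (-(2 * β) * |u.im|)
  have hE8 : 1 ≤ Real.exp (8 / 3 * h0) := Real.one_le_exp (by positivity)
  have a1 := norm_psi_sH hβ0 hβ1 (z := u) hu
  have a2 := norm_prod_ex hβ0 hβ1 hh h.re h.im hu
  set E := Real.exp (-(2 * β) * |u.im|) with hEdef
  have e : phi β W u = 1 - psi β u ^ K * (ex.map fun x => psi β (u - x)).prod := by
    unfold phi
    rw [(h.perm.map fun x => psi β (u - x)).prod_eq, List.map_append, List.prod_append,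
      List.map_replicate, List.prod_replicate, sub_zero]
  have hn0 : (0 : ℝ) ≤ n0 := Nat.cast_nonneg n0
  have hKr : (m : ℝ) ≤ K + n0 := by exact_mod_cast hK
  have hlen : (ex.length : ℝ) ≤ n0 := by exact_mod_cast h.len
  have a3 : ‖psi β u ^ K * (ex.map fun x => psi β (u - x)).prod‖ ≤ Real.exp (-(m * E / 1024)) := by
    rw [norm_mul, norm_pow]
    have b1 : ‖psi β u‖ ^ K ≤ Real.exp (-(1 / 256 * E)) ^ K :=
      pow_le_pow_left₀ (norm_nonneg _) a1 K
    refine (mul_le_mul b1 a2 (norm_nonneg _) (by positivity)).trans ?_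
    rw [← Real.exp_nat_mul, ← Real.exp_add]
    refine Real.exp_le_exp.2 ?_
    have b2 : 16 * Real.exp (8 / 3 * h0) * E * ex.length ≤ m * E / 1024 := by
      have b3 : 16 * Real.exp (8 / 3 * h0) * ex.length ≤ m / 1024 := by
        have b4 : 16 * Real.exp (8 / 3 * h0) * ex.length ≤ 16 * Real.exp (8 / 3 * h0) * n0 := by
          clear * - hlen
          gcongr
        clear * - hm b4
        nlinarith
      clear * - E hE b3
      nlinarith
    have b5 : (n0 : ℝ) ≤ m / 2 := by (clear * - hm hE8; nlinarith)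
    have b6 : (m : ℝ) / 2 ≤ K := by (clear * - hKr b5; linarith)
    have b7 : (m : ℝ) * E / 512 ≤ K * (1 / 256 * E) := by (clear * - E hE hKr b5; nlinarith)
    clear * - E b2 b7
    linarith
  have a4 : 1 - Real.exp (-(m * E / 1024)) ≤ ‖phi β W u‖ := by
    rw [e]
    have b1 := norm_sub_norm_le (1 : ℂ) (psi β u ^ K * (ex.map fun x => psi β (u - x)).prod)
    rw [norm_one] at b1
    clear * - E a3 b1
    linarith
  have hmE : 0 ≤ m * E := by positivity
  refine le_trans ?_ ((one_sub_exp_ge (y := m * E / 1024) (by positivity)).trans a4)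
  rw [show min 1 (m * E) / 2048 = min 1 (m * E) / 1024 / 2 by ring]
  refine div_le_div_of_nonneg_right ?_ two_pos.le
  refine le_min ?_ ?_
  · have := min_le_left 1 (m * E)
    clear * - E this
    linarith
  · exact div_le_div_of_nonneg_right (min_le_right _ _) (by norm_num)

/-- the inverse of the cutoff -/
theorem phi_inv (hβ0 : 0 < β) (hβ1 : β ≤ 4 / 3) (hh : 0 ≤ h0) (h : RwL n0 h0 K W ex)
    (hK : m ≤ K + n0) (hm0 : 1 ≤ m) (hm : 2 ^ 14 * Real.exp (8 / 3 * h0) * n0 ≤ m)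
    (hu : |u.re + l / 2| ≤ sH) :
    phi β W u ≠ 0 ∧ ‖phi β W u‖⁻¹ ≤ 2048 * max 1 (Real.exp (2 * β * |u.im|) / m) := by
  have h1 := phi_low hβ0 hβ1 hh h hK hm hu
  have hmr : (0 : ℝ) < m := by exact_mod_cast hm0
  have hE := Real.exp_pos (-(2 * β) * |u.im|)
  have h2 : 0 < min 1 (m * Real.exp (-(2 * β) * |u.im|)) := lt_min one_pos (by positivity)
  have h3 : 0 < ‖phi β W u‖ := lt_of_lt_of_le (by positivity) h1
  refine ⟨norm_pos_iff.1 h3, ?_⟩
  refine (inv_anti₀ (by positivity) h1).trans ?_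
  rw [inv_div, div_le_iff₀ h2, mul_assoc]
  refine le_mul_of_one_le_right (by norm_num) ?_
  rcases le_total 1 (m * Real.exp (-(2 * β) * |u.im|)) with h4 | h4
  · rw [min_eq_left h4, mul_one]
    exact le_max_left _ _
  · rw [min_eq_right h4]
    have h5 : Real.exp (2 * β * |u.im|) / m * (m * Real.exp (-(2 * β) * |u.im|)) = 1 := by
      rw [div_mul_eq_mul_div, mul_left_comm, ← Real.exp_add,
        show 2 * β * |u.im| + -(2 * β) * |u.im| = 0 by ring, Real.exp_zero, mul_one,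
        div_self hmr.ne']
    calc (1 : ℝ) = Real.exp (2 * β * |u.im|) / m * (m * Real.exp (-(2 * β) * |u.im|)) := h5.symm
      _ ≤ _ := by
          gcongr
          exact le_max_right _ _

end cutoff

/-! ### inverse row factors -/

theorem inv_rwO_le {x u : ℂ} {h0 : ℝ} (h : AwO 0 u) (hh : |x.im| ≤ h0) :
    (rwO x u)⁻¹ ≤ cRh h0 * (rwO 0 u)⁻¹ := by
  have h1 := rwO_le h
  have h2 : 0 < rwO 0 u := lt_of_lt_of_le (by have := Real.cosh_pos (u - 0).im; positivity) (rwO_ge h)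
  have hR := cR_pos
  have h3 : Real.cosh (u - x).im ^ 2 ≤ Real.exp (2 * h0) * Real.cosh (u - 0).im ^ 2 :=
    cosh_sq_sub (by rw [zero_im, sub_zero]; exact hh)
  have hc := Real.cosh_pos (u - 0).im
  have h4 : Real.cosh (u - 0).im ^ 2 ≤ cR * (rwO 0 u)⁻¹ := by
    rw [← div_eq_mul_inv, le_div_iff₀ h2]
    rw [← div_eq_mul_inv, le_div_iff₀ (by positivity)] at h1
    linarith
  have h5 : (rwO x u)⁻¹ ≤ Real.cosh (u - x).im ^ 2 := by
    have i1 : (u - x - 2 * l).im = (u - x).im := by simp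
    have b2 := sin_up (u - x)
    have b3 := sin_up (u - x - 2 * l)
    rw [i1] at b3
    unfold rwO
    rw [inv_inv, sq]
    have := Real.cosh_pos (u - x).im
    clear * - b2 b3
    gcongr
  have he := Real.exp_pos (2 * h0)
  unfold cRh
  calc (rwO x u)⁻¹ ≤ Real.exp (2 * h0) * Real.cosh (u - 0).im ^ 2 := h5.trans h3
    _ ≤ Real.exp (2 * h0) * (cR * (rwO 0 u)⁻¹) := by (clear * - h4; gcongr)
    _ = _ := by ring

theorem inv_rwX_le {x u : ℂ} {h0 : ℝ} (h : AwX x u) (h' : AwX 0 u) (hh : |x.im| ≤ h0) :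
    (rwX x u)⁻¹ ≤ cRh h0 * (rwX 0 u)⁻¹ := by
  have h1 := rwX_ge h
  have h2 := rwX_le 0 u
  have hR := cR_pos
  have hc := Real.cosh_pos (u - 0).im
  have hc' := Real.cosh_pos (u - x).im
  have h3 : Real.cosh (u - 0).im ^ 2 ≤ Real.exp (2 * h0) * Real.cosh (u - x).im ^ 2 :=
    cosh_sq_sub (by rw [zero_im, zero_sub, abs_neg]; exact hh)
  have h4 : 0 < rwX 0 u := lt_of_lt_of_le (by positivity) (rwX_ge h')
  have h5 : (rwX x u)⁻¹ ≤ cR * (Real.cosh (u - x).im ^ 2)⁻¹ := by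
    refine (inv_anti₀ (by positivity) h1).trans (le_of_eq ?_)
    rw [mul_inv, inv_inv]
  have h6 : (Real.cosh (u - x).im ^ 2)⁻¹ ≤ Real.exp (2 * h0) * (Real.cosh (u - 0).im ^ 2)⁻¹ := by
    rw [← div_eq_mul_inv, le_div_iff₀ (by positivity), inv_mul_eq_div, div_le_iff₀ (by positivity)]
    exact h3
  have h7 : (Real.cosh (u - 0).im ^ 2)⁻¹ ≤ (rwX 0 u)⁻¹ := inv_anti₀ h4 h2
  have he := Real.exp_pos (2 * h0)
  unfold cRh
  calc (rwX x u)⁻¹ ≤ cR * (Real.exp (2 * h0) * (Real.cosh (u - 0).im ^ 2)⁻¹) :=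
        h5.trans (mul_le_mul_of_nonneg_left h6 hR.le)
    _ ≤ cR * (Real.exp (2 * h0) * (rwX 0 u)⁻¹) := by (clear * - h7 hR; gcongr)
    _ = _ := by ring

/-! ### lists of rows -/

section lists
variable {n0 K : ℕ} {h0 : ℝ} {W ex : List ℂ} {u : ℂ}

theorem prod_ratio (h : RwL n0 h0 K W ex) {f : ℂ → ℝ} {c : ℝ} (hc : 1 ≤ c)
    (hf : ∀ x ∈ 0 :: ex, 0 ≤ f x) (hr : ∀ x ∈ ex, f x ≤ c * f 0) :
    (W.map f).prod ≤ c ^ n0 * f 0 ^ W.length := by
  have h0' : 0 ≤ f 0 := hf 0 (by simp)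
  have key : ∀ X : List ℂ, (∀ x ∈ X, 0 ≤ f x) → (∀ x ∈ X, f x ≤ c * f 0) →
      0 ≤ (X.map f).prod ∧ (X.map f).prod ≤ c ^ X.length * f 0 ^ X.length := by
    intro X
    induction X with
    | nil => intro _ _; simp
    | cons x X ih =>
      intro h1 h2
      obtain ⟨i0, i1⟩ := ih (fun y hy => h1 y (by simp [hy])) fun y hy => h2 y (by simp [hy])
      have a0 := h1 x (by simp)
      have a1 := h2 x (by simp)
      rw [List.map_cons, List.prod_cons, List.length_cons, pow_succ, pow_succ]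
      refine ⟨mul_nonneg a0 i0, ?_⟩
      calc f x * (X.map f).prod ≤ (c * f 0) * (c ^ X.length * f 0 ^ X.length) :=
            mul_le_mul a1 i1 i0 (by positivity)
        _ = _ := by ring
  obtain ⟨-, i1⟩ := key ex (fun x hx => hf x (by simp [hx])) hr
  have e : W.length = K + ex.length := by
    rw [h.perm.length_eq, List.length_append, List.length_replicate]
  rw [(h.perm.map f).prod_eq, List.map_append, List.prod_append, List.map_replicate,
    List.prod_replicate, e, pow_add]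
  calc f 0 ^ K * (ex.map f).prod ≤ f 0 ^ K * (c ^ ex.length * f 0 ^ ex.length) := by (clear * - i1 h0'; gcongr)
    _ ≤ f 0 ^ K * (c ^ n0 * f 0 ^ ex.length) := by
        have := pow_le_pow_right₀ hc h.len
        clear * - this h0'
        gcongr
    _ = _ := by ring

theorem inv_prod_map (X : List ℂ) (f : ℂ → ℝ) : ((X.map f).prod)⁻¹ = (X.map fun x => (f x)⁻¹).prod := by
  induction X with
  | nil => simp
  | cons x X ih => rw [List.map_cons, List.prod_cons, mul_inv, ih, List.map_cons, List.prod_cons]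

theorem prod_rwO_le (hh : 0 ≤ h0) (h : RwL n0 h0 K W ex) (hA : ∀ x ∈ ex, AwO x u) (hA0 : AwO 0 u) :
    (W.map fun x => rwO x u).prod ≤ cRh h0 ^ n0 * rwO 0 u ^ W.length :=
  prod_ratio h (one_le_cRh hh) (fun x _ => rwO_nonneg x u) fun x hx =>
    rwO_ratio (hA x hx) hA0 (by rw [zero_im, sub_zero]; exact h.im x hx)

theorem prod_rwX_le (hh : 0 ≤ h0) (h : RwL n0 h0 K W ex) (hA0 : AwX 0 u) :
    (W.map fun x => rwX x u).prod ≤ cRh h0 ^ n0 * rwX 0 u ^ W.length :=
  prod_ratio h (one_le_cRh hh) (fun x _ => rwX_nonneg x u) fun x hx =>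
    rwX_ratio hA0 (by rw [zero_im, sub_zero]; exact h.im x hx)

theorem inv_prod_rwO_le (hh : 0 ≤ h0) (h : RwL n0 h0 K W ex) (hA0 : AwO 0 u) :
    ((W.map fun x => rwO x u).prod)⁻¹ ≤ cRh h0 ^ n0 * (rwO 0 u ^ W.length)⁻¹ := by
  rw [inv_prod_map, ← inv_pow]
  exact prod_ratio h (f := fun x => (rwO x u)⁻¹) (one_le_cRh hh)
    (fun x _ => inv_nonneg.2 (rwO_nonneg x u)) fun x hx => inv_rwO_le hA0 (h.im x hx)

theorem inv_prod_rwX_le (hh : 0 ≤ h0) (h : RwL n0 h0 K W ex) (hA : ∀ x ∈ ex, AwX x u)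
    (hA0 : AwX 0 u) :
    ((W.map fun x => rwX x u).prod)⁻¹ ≤ cRh h0 ^ n0 * (rwX 0 u ^ W.length)⁻¹ := by
  rw [inv_prod_map, ← inv_pow]
  exact prod_ratio h (f := fun x => (rwX x u)⁻¹) (one_le_cRh hh)
    (fun x _ => inv_nonneg.2 (rwX_nonneg x u)) fun x hx => inv_rwX_le (hA x hx) hA0 (h.im x hx)

end lists

/-! ### both species -/

/-- row factor of `N true` rows of species X and `N false` rows of species Y at `0` on a quantum of
species `a` at `u` -/
def bas (N : Bool → ℕ) (a : Bool) (u : ℂ) : ℝ := rwO 0 u ^ N a * rwX 0 u ^ N (!a)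

theorem bas_nonneg (N : Bool → ℕ) (a : Bool) (u : ℂ) : 0 ≤ bas N a u :=
  mul_nonneg (pow_nonneg (rwO_nonneg 0 u) _) (pow_nonneg (rwX_nonneg 0 u) _)

/-- row factor of the rows `W true` of species X and `W false` of species Y -/
def rwL (W : Bool → List ℂ) (a : Bool) (u : ℂ) : ℝ :=
  ((W a).map fun x => rwO x u).prod * ((W (!a)).map fun x => rwX x u).prod

theorem rwL_nonneg (W : Bool → List ℂ) (a : Bool) (u : ℂ) : 0 ≤ rwL W a u := by
  unfold rwL
  refine mul_nonneg (List.prod_nonneg fun b hb => ?_) (List.prod_nonneg fun b hb => ?_)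
  · obtain ⟨x, -, rfl⟩ := List.mem_map.1 hb
    exact rwO_nonneg x u
  · obtain ⟨x, -, rfl⟩ := List.mem_map.1 hb
    exact rwX_nonneg x u

section both
variable {n0 : ℕ} {h0 : ℝ} {W ex : Bool → List ℂ} {K : Bool → ℕ} {u : ℂ}

/-- **rows from above** -/
theorem R_up (hh : 0 ≤ h0) (h : ∀ a, RwL n0 h0 (K a) (W a) (ex a)) (a : Bool)
    (hA : ∀ x ∈ ex a, AwO x u) (hA0 : AwO 0 u) (hX0 : AwX 0 u) :
    rwL W a u ≤ cRh h0 ^ (2 * n0) * bas (fun a => (W a).length) a u := by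
  have h1 := prod_rwO_le hh (h a) hA hA0
  have h2 := prod_rwX_le hh (h (!a)) hX0
  have hc := cRh_pos h0
  have p2 : 0 ≤ ((W (!a)).map fun x => rwX x u).prod := List.prod_nonneg fun b hb => by
    obtain ⟨x, -, rfl⟩ := List.mem_map.1 hb
    exact rwX_nonneg x u
  unfold rwL bas
  calc _ ≤ (cRh h0 ^ n0 * rwO 0 u ^ (W a).length) * (cRh h0 ^ n0 * rwX 0 u ^ (W (!a)).length) :=
        mul_le_mul h1 h2 p2 (mul_nonneg (pow_pos hc _).le (pow_nonneg (rwO_nonneg 0 u) _))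
    _ = _ := by rw [two_mul, pow_add]; ring

/-- **the inverse of the rows from above** -/
theorem R_inv (hh : 0 ≤ h0) (h : ∀ a, RwL n0 h0 (K a) (W a) (ex a)) (a : Bool)
    (hA0 : AwO 0 u) (hX : ∀ x ∈ ex (!a), AwX x u) (hX0 : AwX 0 u) :
    (rwL W a u)⁻¹ ≤ cRh h0 ^ (2 * n0) * (bas (fun a => (W a).length) a u)⁻¹ := by
  have h1 := inv_prod_rwO_le hh (h a) hA0
  have h2 := inv_prod_rwX_le hh (h (!a)) hX hX0
  have hc := cRh_pos h0
  have p2 : 0 ≤ (((W (!a)).map fun x => rwX x u).prod)⁻¹ := inv_nonneg.2 (List.prod_nonneg fun b hb => by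
    obtain ⟨x, -, rfl⟩ := List.mem_map.1 hb
    exact rwX_nonneg x u)
  unfold rwL bas
  rw [mul_inv, mul_inv]
  calc _ ≤ (cRh h0 ^ n0 * (rwO 0 u ^ (W a).length)⁻¹) * (cRh h0 ^ n0 * (rwX 0 u ^ (W (!a)).length)⁻¹) :=
        mul_le_mul h1 h2 p2 (mul_nonneg (pow_pos hc _).le
          (inv_nonneg.2 (pow_nonneg (rwO_nonneg 0 u) _)))
    _ = _ := by rw [two_mul, pow_add]; ring

/-- **the one body factor of a hole**: inverse of rows and cutoff -/
theorem hole_up (hh : 0 ≤ h0) (h : ∀ a, RwL n0 h0 (K a) (W a) (ex a)) (a : Bool)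
    (hA0 : AwO 0 u) (hX : ∀ x ∈ ex (!a), AwX x u) (hX0 : AwX 0 u) {β : ℝ} (hβ0 : 0 < β)
    (hβ1 : β ≤ 4 / 3) {m n1 K1 : ℕ} {W1 ex1 : List ℂ} (h1 : RwL n1 h0 K1 W1 ex1) (hK : m ≤ K1 + n1)
    (hm0 : 1 ≤ m) (hm : 2 ^ 14 * Real.exp (8 / 3 * h0) * n1 ≤ m) (hu : |u.re + l / 2| ≤ sH) :
    (rwL W a u * ‖phi β W1 u‖)⁻¹ ≤ 2048 * cRh h0 ^ (2 * n0) *
      (bas (fun a => (W a).length) a u)⁻¹ * max 1 (Real.exp (2 * β * |u.im|) / m) := by
  have h2 := R_inv hh h a hA0 hX hX0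
  have h3 := (phi_inv hβ0 hβ1 hh h1 hK hm0 hm hu).2
  have hc := cRh_pos h0
  have hb := bas_nonneg (fun a => (W a).length) a u
  rw [mul_inv]
  calc (rwL W a u)⁻¹ * ‖phi β W1 u‖⁻¹ ≤
      (cRh h0 ^ (2 * n0) * (bas (fun a => (W a).length) a u)⁻¹) *
        (2048 * max 1 (Real.exp (2 * β * |u.im|) / m)) :=
        mul_le_mul h2 h3 (inv_nonneg.2 (norm_nonneg _)) (mul_nonneg (pow_pos hc _).le (inv_nonneg.2 hb))
    _ = _ := by ring

end both

end PBO.PLX

end
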