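import Pool.Agent.PLX.DZU
import Pool.Agent.PB.ExMix3

/-!
# PLAX: stage 2 for groups of sizes `(m, M)` (the layer of PB.ExMix)

`x : Fin m -> C` own rows, `y : Fin M -> C` rows of the other group, real parts in `[-l / 2, l / 2]`, arbitrary heights;
* `RRU` : row factor of a quantum, growth `exp (2 (M - m) |Im|)`;
* `TTU`, `XXU`, `GXU` : one body functions (cutoff corrections `g`, `g0`; spectators `s1`, `s2`);
* `dataXU` : they satisfy `DataQ`; the spectators have `SpecQ b Q'`, `Q sc = Q' sc - (M - m)`;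
* `stageXU` : the straight line class formula, `n' + m = n + M + q`, spectators `SpecQ true (-q)`, `SpecQ false (-q)`;
* `GXU_eq_GU` : the one body function of `DZU`; `RRU_self`, `TTU_self`, `XXU_self`, `GXU_self` : `m = M`.
-/

set_option autoImplicit false
set_option linter.unusedSectionVars false
set_option linter.unusedVariables false

noncomputable section

open Complex MeasureTheory

namespace Pool.Agent.PLX

open NUP1 NUP1S NUP1.Bd NURow
open NUP1.N (Z3 Gr0)
open NUP1.Leg (hr)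
open PBX (Rws ph GOk KK K1_KK K2_KK K2_KK' im_le box NPr_K1 NPr_S NPr_K2' shiftK2 NQr_KK NQ_KK bdd_ph diffAt_ph
  measurable_ph Pm Am Cm Am_mul Cm_mul K2_sub_re sin_or sin_pos_row sin_row2 NQ_neg bdd_glueR)

variable {m M : ℕ}

/-- row factor of a quantum: own rows `x`, rows of the other group `y` -/
def RRU (c : ℂ) (x : Fin m → ℂ) (y : Fin M → ℂ) (u : ℂ) : ℂ :=
  c * (∏ i, 1 / sin (u - x i)) * (∏ i, 1 / sin (u - x i - 2 * l)) * (∏ j, sin (u - y j + 3 * l) ^ 2)

theorem RRU_self (c : ℂ) (x y : Fin m → ℂ) : RRU c x y = RR c x y := rfl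

theorem measurable_RRU (c : ℂ) (x : Fin m → ℂ) (y : Fin M → ℂ) : Measurable (RRU c x y) := by
  unfold RRU
  fun_prop

/-! ## the row factor -/

section rows

variable {c : ℂ} {x : Fin m → ℂ} {y : Fin M → ℂ}

theorem ub_RRU {Θ : Type*} {S : Set Θ} {r ρ : ℝ} {K : Set ℝ} (c : ℂ) {x : Θ → Fin m → ℂ} {y : Θ → Fin M → ℂ}
    (hx : ∀ i, InBox S r ρ fun θ => x θ i) (hy : ∀ i, InBox S r ρ fun θ => y θ i) (hK : IsCompact K)
    (h : NPr r K) : UB S K (2 * ((M : ℝ) - m)) (fun θ u => RRU c (x θ) (y θ) u) := by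
  have h1 : UB S K _ (fun θ z => ∏ i : Fin m, 1 / sin (z - x θ i + ((0 : ℝ) : ℂ))) :=
    UB.prod Finset.univ fun i _ => ub_inv_sin (hx i) hK 0 fun d hd e he => by
      rw [add_zero]; exact (h d hd e he).1
  have h2 : UB S K _ (fun θ z => ∏ i : Fin m, 1 / sin (z - x θ i + ((-(2 * l) : ℝ) : ℂ))) :=
    UB.prod Finset.univ fun i _ => ub_inv_sin (hx i) hK (-(2 * l)) fun d hd e he => by
      rw [← sub_eq_add_neg]; exact (h d hd e he).2
  have h3 : UB S K _ (fun θ z => ∏ i : Fin M, sin (z - y θ i + ((3 * l : ℝ) : ℂ)) ^ 2) :=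
    UB.prod Finset.univ fun i _ => (ub_sin (hy i) K (3 * l)).pow 2
  have h4 := ((((UB.const S K c).mul h1).mul h2).mul h3).rate (s' := 2 * ((M : ℝ) - m)) (by
    simp only [Finset.sum_const, Finset.card_univ, Fintype.card_fin, nsmul_eq_mul]
    push_cast
    ring)
  refine h4.congr fun θ _ z _ => ?_
  unfold RRU
  push_cast
  simp only [add_zero, ← sub_eq_add_neg]

theorem bdd_RRU (c : ℂ) (hx : Rws x) (hy : Rws y) {K : Set ℝ} (hK : IsCompact K)
    (h : NPr (l / 2) K) : Bdd K (2 * ((M : ℝ) - m)) (RRU c x y) := by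
  have h0 : ∀ i, |(x i).im| ≤ ∑ j, |(x j).im| + ∑ j, |(y j).im| := fun i =>
    (im_le x i).trans (le_add_of_nonneg_right (Finset.sum_nonneg fun _ _ => abs_nonneg _))
  have h1 : ∀ i, |(y i).im| ≤ ∑ j, |(x j).im| + ∑ j, |(y j).im| := fun i =>
    (im_le y i).trans (le_add_of_nonneg_left (Finset.sum_nonneg fun _ _ => abs_nonneg _))
  exact (ub_RRU (Θ := Unit) (S := Set.univ) (x := fun _ => x) (y := fun _ => y) c
    (fun i => box hx h0 i) (fun i => box hy h1 i) hK h).bdd (Set.mem_univ ())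

theorem diffAt_RRU (c : ℂ) {K : Set ℝ} (h : NPr (l / 2) K) (hx : Rws x) {z : ℂ} (hz : z.re ∈ K) :
    DifferentiableAt ℂ (RRU c x y) z := by
  have hN : ∀ i, NP (z - x i).re := fun i => by
    rw [sub_re]
    exact h _ hz _ (hx i)
  unfold RRU
  have d1 := DifferentiableAt.fun_finsetProd (𝕜 := ℂ) (u := Finset.univ)
    (f := fun (i : Fin m) s => 1 / sin (s - x i)) (x := z) (fun i _ => by
      have h0 : sin (z - x i) ≠ 0 := Bd.sin_ne_zero_of_re (hN i).1
      fun_prop (disch := exact h0))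
  have d2 := DifferentiableAt.fun_finsetProd (𝕜 := ℂ) (u := Finset.univ)
    (f := fun (i : Fin m) s => 1 / sin (s - x i - 2 * l)) (x := z) (fun i _ => by
      have h0 : sin (z - x i - 2 * l) ≠ 0 := Bd.sin_ne_zero_of_re (by
        have := (hN i).2
        simpa using this)
      fun_prop (disch := exact h0))
  have d3 := DifferentiableAt.fun_finsetProd (𝕜 := ℂ) (u := Finset.univ)
    (f := fun (i : Fin M) s => sin (s - y i + 3 * l) ^ 2) (x := z) (fun i _ => by fun_prop)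
  exact (((differentiableAt_const c).mul d1).mul d2).mul d3

theorem RRU_shift_bdd (c : ℂ) (hx : Rws x) (hy : Rws y) :
    Bdd K2 (2 * ((M : ℝ) - m)) fun w => RRU c x y (w - l) :=
  shiftK2 (bdd_RRU c hx hy (isCompact_K2.image (by fun_prop)) NPr_K2')

theorem RRU_shift_diff (c : ℂ) (hx : Rws x) {w : ℂ} (hw : w.re ∈ K2) :
    DifferentiableAt ℂ (fun w => RRU c x y (w - l)) w := by
  refine (diffAt_RRU (y := y) c NPr_K2' hx (z := w - l) ?_).comp w
    (differentiableAt_id.sub_const _)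
  refine ⟨w.re, hw, ?_⟩
  simp [sub_eq_add_neg]

/-- growth of the row factor in the whole strip -/
theorem Gr_RRU (c : ℂ) (α β : ℝ) (x : Fin m → ℂ) (y : Fin M → ℂ) :
    Gr α β (2 * ((M : ℝ) - m)) (RRU c x y) := by
  have h1 : Gr α β (∑ _i : Fin m, (-1 : ℝ)) (fun z => ∏ i : Fin m, 1 / sin (z - x i)) :=
    Gr.finProd (fun i z => 1 / sin (z - x i)) (fun _ => -1) fun i => by
      have := Gr.inv_sin (α := α) (β := β) (x i)
      simpa only [one_div] using this
  have h2 : Gr α β (∑ _i : Fin m, (-1 : ℝ)) (fun z => ∏ i : Fin m, 1 / sin (z - x i - 2 * l)) :=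
    Gr.finProd (fun i z => 1 / sin (z - x i - 2 * l)) (fun _ => -1) fun i => by
      have := Gr.inv_sin (α := α) (β := β) (x i + 2 * l)
      simpa only [one_div, sub_sub] using this
  have h3 : Gr α β (∑ _i : Fin M, (2 : ℝ)) (fun z => ∏ i : Fin M, sin (z - y i + 3 * l) ^ 2) :=
    Gr.finProd (fun i z => sin (z - y i + 3 * l) ^ 2) (fun _ => 2) fun i => by
      have h := Gr.sin (α := α) (β := β) (y i - 3 * l)
      have h' := h.mul h
      have e : (fun z => sin (z - (y i - 3 * l)) * sin (z - (y i - 3 * l))) =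
          fun z => sin (z - y i + 3 * l) ^ 2 := by
        funext z
        rw [pow_two, show z - (y i - 3 * l) = z - y i + 3 * l by ring]
      rw [e] at h'
      exact h'.mono (by norm_num)
  have h4 := (((Gr.const (α := α) (β := β) c).mul h1).mul h2).mul h3
  refine h4.mono (le_of_eq ?_)
  simp only [Finset.sum_const, Finset.card_univ, Fintype.card_fin, nsmul_eq_mul]
  ring

end rows

/-! ## the strings T -/

section strT

variable {c : ℂ} {x : Fin m → ℂ} {y : Fin M → ℂ} {β β' : ℝ} {g g0 : ℂ → ℂ} {w : ℂ}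

/-- row factor without the poles at real part `- l / 2` -/
def RgU (c : ℂ) (x : Fin m → ℂ) (y : Fin M → ℂ) (w : ℂ) : ℂ :=
  c * (∏ i, if (x i).re = -(l / 2) then 1 else 1 / sin (w - x i)) *
    (∏ i, 1 / sin (w - x i - 2 * l)) * ∏ j, sin (w - y j + 3 * l) ^ 2

theorem RRU_Pm (hs : ∀ i, (x i).re = -(l / 2) → sin (w - x i) ≠ 0) :
    RRU c x y w * Pm x w = RgU c x y w := by
  unfold RRU Pm RgU
  have e : (∏ i, 1 / sin (w - x i)) * (∏ i, if (x i).re = -(l / 2) then sin (w - x i) else 1) =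
      ∏ i, if (x i).re = -(l / 2) then 1 else 1 / sin (w - x i) := by
    rw [← Finset.prod_mul_distrib]
    refine Finset.prod_congr rfl fun i _ => ?_
    split_ifs with h
    · exact one_div_mul_cancel (hs i h)
    · rw [mul_one]
  rw [← e]
  ring

/-- the one body function of the strings T, without the poles at real part `- l / 2` -/
def TTU (c : ℂ) (β β' : ℝ) (x : Fin m → ℂ) (y : Fin M → ℂ) (g g0 : ℂ → ℂ) (w : ℂ) : ℂ :=
  RgU c x y w * RRU c x y (w - l) * (Am β' x g0 w - Am β x g w - ph β x g w * Cm β x g w)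

theorem TTU_eq (hq : ∀ i, NQ β (w - x i).re) (hq' : ∀ i, NQ β' (w - x i).re)
    (hq'' : ∀ i, (x i).re = -(l / 2) → NQ β (-(w - x i)).re)
    (hs : ∀ i, (x i).re = -(l / 2) → sin (w - x i) ≠ 0) :
    TTU c β β' x y g g0 w = RRU c x y w * RRU c x y (w - l) *
      (ph β x g w * ph β x g (w - l) - ph β' x g0 w) := by
  have e1 := Am_mul (g := g) hq hs
  have e2 := Am_mul (g := g0) hq' hs
  have e3 := Cm_mul (g := g) hq'' hs
  have e4 := RRU_Pm (c := c) (y := y) hs
  unfold TTU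
  rw [← e4]
  have f1 : ph β x g w = 1 - Am β x g w * Pm x w := by rw [e1]; ring
  have f2 : ph β' x g0 w = 1 - Am β' x g0 w * Pm x w := by rw [e2]; ring
  have f3 : ph β x g (w - l) = 1 - Cm β x g w * Pm x w := by rw [e3]; ring
  rw [f2, f3, f1]
  ring

theorem diffAt_TTU (c : ℂ) (hβ : 0 < β) (hβ1 : β ≤ 4 / 3) (hβ' : 0 < β') (hβ1' : β' ≤ 4 / 3)
    (hx : Rws x) (hg : GOk β g) (hg0 : GOk β' g0) (hw : w.re ∈ K2) :
    DifferentiableAt ℂ (TTU c β β' x y g g0) w := by
  have hK := K2_KK hw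
  have hK' : (w - l).re ∈ KK := by
    have := K2_KK' hw
    simpa using this
  have hR : DifferentiableAt ℂ (RgU c x y) w := by
    unfold RgU
    refine (((differentiableAt_const c).mul ?_).mul ?_).mul ?_
    · refine DifferentiableAt.fun_finsetProd fun i _ => ?_
      split_ifs with h
      · exact differentiableAt_const _
      · have hs := sin_pos_row hx hw h
        fun_prop (disch := exact hs)
    · refine DifferentiableAt.fun_finsetProd fun i _ => ?_
      have hs := sin_row2 hx hw i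
      fun_prop (disch := exact hs)
    · refine DifferentiableAt.fun_finsetProd fun i _ => ?_
      fun_prop
  have hA : ∀ {b : ℝ} {k : ℂ → ℂ}, 0 < b → b ≤ 4 / 3 → GOk b k →
      DifferentiableAt ℂ (Am b x k) w := by
    intro b k h0 h1 hk
    unfold Am
    refine DifferentiableAt.mul ?_ (hk.diff w hK)
    refine DifferentiableAt.fun_finsetProd fun i _ => ?_
    split_ifs with h
    · exact (differentiableAt_qs (NQ_KK h0 h1 hx hK i) (sin_or hx hw i)).comp w
        (differentiableAt_id.sub_const _)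
    · exact (diff_psi' (NQ_KK h0 h1 hx hK i)).comp w (differentiableAt_id.sub_const _)
  have hC : DifferentiableAt ℂ (Cm β x g) w := by
    unfold Cm
    refine DifferentiableAt.mul ?_ ((hg.diff (w - l) hK').comp w
      (differentiableAt_id.sub_const _))
    refine DifferentiableAt.fun_finsetProd fun i _ => ?_
    split_ifs with h
    · refine ((differentiableAt_qs (NQ_neg hβ hβ1 hx hw i h) ?_).comp w
        ((differentiableAt_id.sub_const _).neg)).neg
      rcases sin_or hx hw i with h0 | h0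
      · left
        rw [h0, neg_zero]
      · right
        rw [Complex.sin_neg]
        exact neg_ne_zero.2 h0
    · exact (diff_psi' (z := w - l - x i) (NQ_KK hβ hβ1 hx hK' i)).comp w
        ((differentiableAt_id.sub_const _).sub_const _)
  unfold TTU
  exact (hR.mul (RRU_shift_diff c hx hw)).mul (((hA hβ' hβ1' hg0).sub (hA hβ hβ1 hg)).sub
    ((diffAt_ph hβ hβ1 hx hg hK).mul hC))

theorem measurable_RgU (c : ℂ) (x : Fin m → ℂ) (y : Fin M → ℂ) : Measurable (RgU c x y) := by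
  unfold RgU
  refine Measurable.mul (Measurable.mul (measurable_const.mul ?_) ?_) ?_
  · refine Finset.measurable_prod _ fun i _ => ?_
    split_ifs
    · exact measurable_const
    · fun_prop
  · exact Finset.measurable_prod _ fun i _ => by fun_prop
  · exact Finset.measurable_prod _ fun i _ => by fun_prop

theorem measurable_TTU (c : ℂ) (β β' : ℝ) (x : Fin m → ℂ) (y : Fin M → ℂ) (hg : Measurable g)
    (hg0 : Measurable g0) : Measurable (TTU c β β' x y g g0) := by
  have hA : ∀ {b : ℝ} {k : ℂ → ℂ}, Measurable k → Measurable (Am b x k) := by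
    intro b k hk
    unfold Am
    refine Measurable.mul (Finset.measurable_prod _ fun i _ => ?_) hk
    split_ifs
    · exact (measurable_qs b).comp (measurable_id.sub_const _)
    · exact (measurable_psi0 b).comp (measurable_id.sub_const _)
  have hC : Measurable (Cm β x g) := by
    unfold Cm
    refine Measurable.mul (Finset.measurable_prod _ fun i _ => ?_)
      (hg.comp (measurable_id.sub_const _))
    split_ifs
    · exact ((measurable_qs β).comp (measurable_id.sub_const _).neg).neg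
    · exact (measurable_psi0 β).comp ((measurable_id.sub_const _).sub_const _)
  unfold TTU
  exact ((measurable_RgU c x y).mul ((measurable_RRU c x y).comp (measurable_id.sub_const _))).mul
    (((hA hg0).sub (hA hg)).sub ((measurable_ph β x hg).mul hC))

/-- **The strings T decay on strips containing the rows `- l / 2`.** -/
theorem bdd_TTU (c : ℂ) (hβ : 0 < β) (hββ' : β ≤ β') (hβ1' : β' ≤ 4 / 3)
    (hx : Rws x) (hy : Rws y) (hg : GOk β g) (hg0 : GOk β' g0) :
    Bdd K2 (-(2 * β) + 4 * ((M : ℝ) - m)) (TTU c β β' x y g g0) := by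
  have hβ' : 0 < β' := hβ.trans_le hββ'
  have hβ1 : β ≤ 4 / 3 := hββ'.trans hβ1'
  have hl := Bd.l_pos
  obtain ⟨C1, R1, hC1, g1⟩ := Gr_RRU c l (-(23 / 10 * l)) x y
  obtain ⟨C2, hC2, g2⟩ := RRU_shift_bdd c hx hy
  obtain ⟨C3, hC3, g3⟩ := bdd_ph hβ hβ1 hx hg
  obtain ⟨C4, hC4, g4⟩ := bdd_ph hβ' hβ1' hx hg0
  refine bdd_glueR (R := max R1 (1 + ∑ j, |(x j).im|)) isCompact_K2
    (fun z hz => (diffAt_TTU c hβ hβ1 hβ' hβ1' hx hg hg0 hz).continuousAt)
    ⟨C1 * C2 * (C3 * C3 + C4), by positivity, fun z hz hi => ?_⟩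
  have hK := K2_KK hz
  have hK' : (z - l).re ∈ KK := by
    have := K2_KK' hz
    simpa using this
  have hi1 := (le_max_left _ _).trans hi
  have hi2 := (le_max_right _ _).trans hi
  have hs : ∀ i, (x i).re = -(l / 2) → sin (z - x i) ≠ 0 := by
    intro i _
    refine NUP1.sin_ne_im ?_
    rw [sub_im]
    intro h0
    have h1 : z.im = (x i).im := by linarith
    have h2 := im_le x i
    rw [h1] at hi2
    linarith
  rw [TTU_eq (fun i => NQ_KK hβ hβ1 hx hK i) (fun i => NQ_KK hβ' hβ1' hx hK i)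
    (fun i h => NQ_neg hβ hβ1 hx hz i h) hs, norm_mul, norm_mul]
  have a1 : ‖RRU c x y z‖ ≤ C1 * Real.exp (2 * ((M : ℝ) - m) * |z.im|) := g1 z hK.1 hK.2 hi1
  have a2 : ‖RRU c x y (z - l)‖ ≤ C2 * Real.exp (2 * ((M : ℝ) - m) * |z.im|) := g2 z hz
  have a3 := g3 z hK
  have a4 := g3 (z - l) hK'
  have a5 := g4 z hK
  have e1 : (z - (l : ℂ)).im = z.im := by simp
  rw [e1] at a4
  have b1 : Real.exp (-(2 * β) * |z.im|) ≤ 1 := by
    rw [Real.exp_le_one_iff]
    have := abs_nonneg z.im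
    nlinarith
  have b2 : Real.exp (-(2 * β') * |z.im|) ≤ Real.exp (-(2 * β) * |z.im|) := by
    refine Real.exp_le_exp.2 ?_
    have := abs_nonneg z.im
    nlinarith
  have hE := (Real.exp_pos (-(2 * β) * |z.im|)).le
  have a6 : ‖ph β x g z * ph β x g (z - l) - ph β' x g0 z‖ ≤
      (C3 * C3 + C4) * Real.exp (-(2 * β) * |z.im|) := by
    refine (norm_sub_le _ _).trans ?_
    rw [norm_mul, add_mul]
    refine add_le_add ?_ ?_
    · calc ‖ph β x g z‖ * ‖ph β x g (z - l)‖ ≤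
          (C3 * Real.exp (-(2 * β) * |z.im|)) * (C3 * 1) :=
            mul_le_mul a3 (a4.trans (mul_le_mul_of_nonneg_left b1 hC3)) (norm_nonneg _)
              (by positivity)
        _ = _ := by ring
    · exact a5.trans (mul_le_mul_of_nonneg_left b2 hC4)
  calc _ ≤ (C1 * Real.exp (2 * ((M : ℝ) - m) * |z.im|)) * (C2 * Real.exp (2 * ((M : ℝ) - m) * |z.im|)) *
          ((C3 * C3 + C4) * Real.exp (-(2 * β) * |z.im|)) :=
        mul_le_mul (mul_le_mul a1 a2 (norm_nonneg _) (by positivity)) a6 (norm_nonneg _) (by positivity)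
    _ = _ := by
        have e2 : Real.exp ((-(2 * β) + 4 * ((M : ℝ) - m)) * |z.im|) = Real.exp (2 * ((M : ℝ) - m) * |z.im|) *
            Real.exp (2 * ((M : ℝ) - m) * |z.im|) * Real.exp (-(2 * β) * |z.im|) := by
          rw [← Real.exp_add, ← Real.exp_add]
          congr 1
          ring
        rw [e2]
        ring

end strT

/-! ## the data of stage 2 -/

section data

variable {c : ℂ} {x : Fin m → ℂ} {y : Fin M → ℂ} {β : ℝ} {g g0 s1 s2 : ℂ → ℂ} {b : Bool} {Q Q' : ℝ}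

/-- one body functions of the four kinds -/
def XXU (c : ℂ) (β : ℝ) (x : Fin m → ℂ) (y : Fin M → ℂ) (g g0 s1 s2 : ℂ → ℂ) : Option O3 → ℂ → ℂ
  | none, u => RRU c x y u * ph β x g u * s1 u
  | some .L, u => RRU c x y u * ph β x g u * s1 u
  | some .S, w => RRU c x y w * RRU c x y (w - l) * ph (4 / 3) x g0 w * s2 w
  | some .T, w => TTU c β (4 / 3) x y g g0 w * s2 w

/-- one body function of the contour identity -/
def GXU (c : ℂ) (β : ℝ) (x : Fin m → ℂ) (y : Fin M → ℂ) (g s1 : ℂ → ℂ) (u : ℂ) : ℂ :=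
  RRU c x y u * ph β x g u * s1 u

theorem bdd_GXU (hβ : 0 < β) (hβ' : β ≤ 4 / 3) (hx : Rws x) (hy : Rws y) (hg : GOk β g)
    (h : SpecQ b Q' s1 s2) (hQ : Q * sc (b, .A) = Q' * sc (b, .A) - ((M : ℝ) - m)) :
    Bdd K1 (-(2 * β) + -(2 * Q * sc (b, .A))) (GXU c β x y g s1) := by
  have h1 := bdd_RRU c hx hy isCompact_K1 NPr_K1
  have h2 : Bdd K1 (-(2 * β)) (ph β x g) := Bdd.mono_set (bdd_ph hβ hβ' hx hg) fun x hx => K1_KK hx
  exact ((h1.mul h2).mul h.b1).rate (by linarith)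

theorem diffAt_GXU (hβ : 0 < β) (hβ' : β ≤ 4 / 3) (hx : Rws x) (hg : GOk β g)
    (h : SpecQ b Q' s1 s2) {z : ℂ} (hz : z.re ∈ K1) :
    DifferentiableAt ℂ (GXU c β x y g s1) z :=
  ((diffAt_RRU c NPr_K1 hx hz).mul (diffAt_ph hβ hβ' hx hg (K1_KK hz))).mul (h.d1 z hz)

theorem sc_S (b : Bool) : sc (b, .S) = 2 * sc (b, .A) := by
  cases b <;> simp [sc, chg]

theorem bdd_SXU (hx : Rws x) (hy : Rws y) (hg0 : GOk (4 / 3) g0) (h : SpecQ b Q' s1 s2)
    (hQ : Q * sc (b, .A) = Q' * sc (b, .A) - ((M : ℝ) - m)) :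
    Bdd (Set.Icc (-(13 / 10 * l)) (-(7 / 10 * l))) (-(2 * (4 / 3)) + -(2 * Q * sc (b, .S)))
      (fun w => RRU c x y w * RRU c x y (w - l) * ph (4 / 3) x g0 w * s2 w) := by
  have h1 := bdd_RRU c hx hy isCompact_Icc NPr_S
  have h2 : Bdd (Set.Icc (-(13 / 10 * l)) (-(7 / 10 * l))) (2 * ((M : ℝ) - m)) (fun w => RRU c x y (w - l)) :=
    Bdd.mono_set (RRU_shift_bdd c hx hy) fun x hx => K2_sub hx
  have h3 : Bdd (Set.Icc (-(13 / 10 * l)) (-(7 / 10 * l))) (-(2 * (4 / 3))) (ph (4 / 3) x g0) :=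
    Bdd.mono_set (bdd_ph (by norm_num) le_rfl hx hg0) fun x hx => K2_KK (K2_sub hx)
  exact (((h1.mul h2).mul h3).mul (Bdd.mono_set h.b2 fun x hx => K2_sub hx)).rate (by
    rw [sc_S]
    linarith)

theorem diffAt_SXU (hx : Rws x) (hg0 : GOk (4 / 3) g0) (h : SpecQ b Q' s1 s2) {z : ℂ}
    (hz : z.re ∈ Set.Icc (-(13 / 10 * l)) (-(7 / 10 * l))) :
    DifferentiableAt ℂ (fun w => RRU c x y w * RRU c x y (w - l) * ph (4 / 3) x g0 w * s2 w) z :=
  (((diffAt_RRU c NPr_S hx hz).mul (RRU_shift_diff c hx (K2_sub hz))).mul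
    (diffAt_ph (by norm_num) le_rfl hx hg0 (K2_KK (K2_sub hz)))).mul (h.d2 z (K2_sub hz))

theorem measurable_XXU (hg : Measurable g) (hg0 : Measurable g0) (hm1 : Measurable s1)
    (hm2 : Measurable s2) (k : Option O3) : Measurable (XXU c β x y g g0 s1 s2 k) := by
  have h1 := measurable_RRU c x y
  have h2 := measurable_ph β x hg
  have h3 := measurable_ph (4 / 3) x hg0
  have h4 := measurable_TTU c β (4 / 3) x y hg hg0
  rcases k with _ | k
  · exact (h1.mul h2).mul hm1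
  · cases k
    · exact (h1.mul h2).mul hm1
    · exact ((h1.mul (h1.comp (measurable_id.sub_const _))).mul h3).mul hm2
    · exact h4.mul hm2

theorem GXU_mul (hβ : 0 < β) (hβ' : β ≤ 4 / 3) (hx : Rws x) (h : SpecQ b Q' s1 s2) {w : ℂ}
    (hw : w.re = -(7 / 10 * l)) : GXU c β x y g s1 w * GXU c β x y g s1 (w - l) =
      XXU c β x y g g0 s1 s2 (some .S) w + XXU c β x y g g0 s1 s2 (some .T) w := by
  have hl := Bd.l_pos
  have hK : w.re ∈ K2 := by
    rw [hw]
    exact ⟨by linarith, by linarith⟩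
  have hs : ∀ i, (x i).re = -(l / 2) → sin (w - x i) ≠ 0 := by
    intro i hi
    refine Bd.sin_ne_zero_of_re ?_
    rw [sub_re, hi, hw]
    exact sin_ne_neg (by linarith) (by linarith)
  show _ = RRU c x y w * RRU c x y (w - l) * ph (4 / 3) x g0 w * s2 w +
    TTU c β (4 / 3) x y g g0 w * s2 w
  rw [TTU_eq (fun i => NQ_KK hβ hβ' hx (K2_KK hK) i)
    (fun i => NQ_KK (by norm_num) le_rfl hx (K2_KK hK) i)
    (fun i hi => NQ_neg hβ hβ' hx hK i hi) hs, h.mul w hw]
  unfold GXU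
  ring

/-- **The data of stage 2.** -/
theorem dataXU (hβ : 0 < β) (hβ' : β ≤ 4 / 3) (hx : Rws x) (hy : Rws y) (hg : GOk β g)
    (hg0 : GOk (4 / 3) g0) (h : SpecQ b Q' s1 s2) (hQ : Q * sc (b, .A) = Q' * sc (b, .A) - ((M : ℝ) - m)) :
    DataQ b (3 / 5 * l) (-(17 / 10 * l)) (-(17 / 10 * l)) (-(5 / 4 * l)) (-(13 / 10 * l))
      (-(7 / 10 * l)) (-(7 / 10 * l)) (-(l / 2)) (2 * β) Q (GXU c β x y g s1)
      (XXU c β x y g g0 s1 s2) where
  meas := measurable_XXU hg.meas hg0.meas h.m1 h.m2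
  dec k := by
    have hl := Bd.l_pos
    rcases k with _ | k
    · refine DecOn_of (Bdd.mono_set (bdd_GXU hβ hβ' hx hy hg h hQ) ?_)
        (by simp only [sc4, ob4, Option.elim]; linarith)
      rintro x ⟨h1, h2⟩
      have h1 : 3 / 5 * l ≤ x := h1
      have h2 : x ≤ 3 / 5 * l := h2
      exact Or.inl ⟨h1, by linarith⟩
    · cases k
      · refine DecOn_of (Bdd.mono_set (bdd_GXU hβ hβ' hx hy hg h hQ) ?_)
          (by simp only [sc4, ob4, ob3, Option.elim]; exact le_of_eq (by cases b <;> simp [sc, chg] <;> ring))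
        rintro x ⟨h1, h2⟩
        exact Or.inr ⟨h1, h2⟩
      · exact DecOn_of (bdd_SXU hx hy hg0 h hQ) (by simp only [sc4, ob4, ob3, Option.elim]; linarith)
      · refine DecOn_of (Bdd.mono_set
          (((bdd_TTU c hβ hβ' le_rfl hx hy hg hg0).mul h.b2).rate
            (s' := -(2 * β) + -(2 * Q * sc (b, .S))) (by rw [sc_S]; linarith)) ?_)
          (by simp only [sc4, ob4, ob3, Option.elim]; linarith)
        rintro x ⟨h1, h2⟩
        exact K2_subT ⟨h1, h2⟩
  cont k := by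
    intro z hz
    refine ContinuousAt.continuousWithinAt ?_
    cases k
    · exact (diffAt_GXU hβ hβ' hx hg h (Or.inr ⟨hz.1, hz.2⟩)).continuousAt
    · exact (diffAt_SXU hx hg0 h ⟨hz.1, hz.2⟩).continuousAt
    · exact ((diffAt_TTU c hβ hβ' (by norm_num) le_rfl hx hg hg0 (K2_subT ⟨hz.1, hz.2⟩)).mul
        (h.d2 z (K2_subT ⟨hz.1, hz.2⟩))).continuousAt
  diff k := by
    intro z hz
    refine DifferentiableAt.differentiableWithinAt ?_
    cases k
    · exact diffAt_GXU hβ hβ' hx hg h (Or.inr ⟨hz.1.le, hz.2.le⟩)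
    · exact diffAt_SXU hx hg0 h ⟨hz.1.le, hz.2.le⟩
    · exact (diffAt_TTU c hβ hβ' (by norm_num) le_rfl hx hg hg0 (K2_subT ⟨hz.1.le, hz.2.le⟩)).mul
        (h.d2 z (K2_subT ⟨hz.1.le, hz.2.le⟩))
  split k t := by
    have e : ∀ a, one4L (3 / 5 * l) (-(17 / 10 * l)) (XXU c β x y g g0 s1 s2) a t =
        XXU c β x y g g0 s1 s2 a (pt (3 / 5 * l) (-(17 / 10 * l)) (ob4 a) t) := fun _ => rfl
    unfold oneL
    cases k
    · have : (Finset.univ.filter fun a => ob4 a = Ob.A) = {none} := by decide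
      rw [this, Finset.sum_singleton, e]
      rfl
    · have : (Finset.univ.filter fun a => ob4 a = Ob.L) = {some .L} := by decide
      rw [this, Finset.sum_singleton, e]
      rfl
    · have : (Finset.univ.filter fun a => ob4 a = Ob.S) = {some .S, some .T} := by decide
      rw [this, Finset.sum_pair (by decide), e, e]
      have hw : (pt (3 / 5 * l) (-(17 / 10 * l)) .S t).re = -(7 / 10 * l) := by
        show (vl (-(17 / 10 * l) + l) t).re = _
        rw [re_vl]
        ring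
      exact GXU_mul hβ hβ' hx h hw

variable {c' : ℂ} {g' g0' t1 t2 : ℂ → ℂ} {q : ℝ}

/-- **Stage 2 for rows at arbitrary heights**: the gas of quanta and strings on the start lines as
the sum over the objects on their final lines. -/
theorem stageXU (hβ : 0 < β) (hβ' : β ≤ 4 / 3) (hx : Rws x) (hy : Rws y) (hg : GOk β g)
    (hg0 : GOk (4 / 3) g0) (hh : GOk β g') (hh0 : GOk (4 / 3) g0') (n n' : ℕ)
    (hn : (n' : ℝ) + m = n + M + q) (hX : SpecQ true (-q) s1 s2) (hY : SpecQ false (-q) t1 t2)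
    (lnX : ∀ p p' : ℕ, (Fin p → O3) → (Fin p' → O3) → Fin p → ℝ)
    (lnY : ∀ p p' : ℕ, (Fin p → O3) → (Fin p' → O3) → Fin p' → ℝ)
    (hlX : ∀ p p' k k' i, lnX p p' k k' i ∈ Set.Icc
      (lo4 (3 / 5 * l) (-(17 / 10 * l)) (-(13 / 10 * l)) (-(7 / 10 * l)) (some (k i)))
      (lo4 (3 / 5 * l) (-(5 / 4 * l)) (-(7 / 10 * l)) (-(l / 2)) (some (k i))))
    (hlY : ∀ p p' k k' i, lnY p p' k k' i ∈ Set.Icc
      (lo4 (3 / 5 * l) (-(17 / 10 * l)) (-(13 / 10 * l)) (-(7 / 10 * l)) (some (k' i)))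
      (lo4 (3 / 5 * l) (-(5 / 4 * l)) (-(7 / 10 * l)) (-(l / 2)) (some (k' i)))) :
    Z3 (3 / 5 * l) (-(17 / 10 * l)) n n' (GXU c β x y g s1) (GXU c' β y x g' t1) =
      ZobjQ (XXU c β x y g g0 s1 s2) (XXU c' β y x g' g0' t1 t2) (3 / 5 * l) n n' lnX lnY := by
  have hl := Bd.l_pos
  refine stage2Z stripsH ⟨le_rfl, by linarith⟩ ⟨by linarith, by linarith⟩
    ⟨by linarith, by linarith⟩ (κ := 2 * β) (by linarith) n n' (dataXU hβ hβ' hx hy hg hg0 hX ?_)
    (dataXU hβ hβ' hy hx hh hh0 hY ?_) lnX lnY hlX hlY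
  · have e : sc (true, .A) = 1 := by simp [sc, chg]
    rw [e]
    linarith
  · have e : sc (false, .A) = -1 := by simp [sc, chg]
    rw [e]
    linarith

/-- the one body function of the state sums `DZU` -/
theorem GXU_eq_GU (c : ℂ) (β : ℝ) (x : Fin m → ℂ) (y : Fin M → ℂ) (g s1 : ℂ → ℂ) :
    GXU c β x y g s1 = GU c β x y g s1 := by
  funext u
  unfold GXU GU RRU Gr0 hr
  simp only [one_div, Finset.prod_inv_distrib]
  ring

theorem TTU_self (c : ℂ) (β β' : ℝ) (x y : Fin m → ℂ) (g g0 : ℂ → ℂ) :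
    TTU c β β' x y g g0 = PBX.TT c β β' x y g g0 := rfl

theorem GXU_self (c : ℂ) (β : ℝ) (x y : Fin m → ℂ) (g s1 : ℂ → ℂ) :
    GXU c β x y g s1 = PBX.GX c β x y g s1 := rfl

theorem XXU_self (c : ℂ) (β : ℝ) (x y : Fin m → ℂ) (g g0 s1 s2 : ℂ → ℂ) :
    XXU c β x y g g0 s1 s2 = PBX.XX c β x y g g0 s1 s2 := by
  funext k u
  rcases k with _ | k
  · rfl
  · cases k <;> rfl

end data

end Pool.Agent.PLX

end
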