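import Pool.Agent.PLX.Fil
import Pool.Agent.PB.ExMix

/-!
# The rows of the two groups: every row of species Y is a `q`-fold row

* `yqn q y : Fin (q * m) → α`, `yqn q y j = y j.modNat` : every row `q` times;
* `yq y = yqn Fil.q y`;
* `rwq x a : Fin (cond a m (Fil.q * m)) → α` : the rows of the species `a`, `rwq x true = x`,
  `rwq x false = yq x`;
* products, sums, lists over these rows.
-/

set_option autoImplicit false
set_option linter.unusedSectionVars false

noncomputable section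

open Finset
open PLX (Fil)

namespace Pool.Agent.PLX

variable {α β : Type*} {m : ℕ}

/-- every row `q` times -/
def yqn (q : ℕ) (y : Fin m → α) : Fin (q * m) → α := fun j => y j.modNat

theorem yqn_apply (q : ℕ) (y : Fin m → α) (j : Fin (q * m)) : yqn q y j = y j.modNat := rfl

theorem yqn_comp (q : ℕ) (f : α → β) (y : Fin m → α) : yqn q (fun i => f (y i)) = fun j => f (yqn q y j) :=
  rfl

theorem yqn_mul (q : ℕ) (y : Fin m → α) (i : Fin q) (k : Fin m) :
    yqn q y (finProdFinEquiv (i, k)) = y k := by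
  unfold yqn
  congr 1
  have h := finProdFinEquiv.symm_apply_apply (i, k)
  exact congrArg Prod.snd h

theorem prod_yqn' {M : Type*} [CommMonoid M] (q : ℕ) (f : Fin m → M) :
    ∏ j : Fin (q * m), f j.modNat = (∏ i, f i) ^ q := by
  rw [← Equiv.prod_comp finProdFinEquiv, Fintype.prod_prod_type]
  have h : ∀ i : Fin q, ∏ k : Fin m, f (finProdFinEquiv (i, k)).modNat = ∏ k, f k := fun i =>
    Finset.prod_congr rfl fun k _ => by
      rw [show (finProdFinEquiv (i, k)).modNat = k from yqn_mul q id i k]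
  rw [Finset.prod_congr rfl fun i _ => h i, Finset.prod_const, Finset.card_univ, Fintype.card_fin]

/-- **products over the rows** -/
theorem prod_yqn {M : Type*} [CommMonoid M] (q : ℕ) (f : α → M) (y : Fin m → α) :
    ∏ j, f (yqn q y j) = (∏ i, f (y i)) ^ q := prod_yqn' q fun i => f (y i)

theorem sum_yqn' {M : Type*} [AddCommMonoid M] (q : ℕ) (f : Fin m → M) :
    ∑ j : Fin (q * m), f j.modNat = q • ∑ i, f i := by
  rw [← Equiv.sum_comp finProdFinEquiv, Fintype.sum_prod_type]
  have h : ∀ i : Fin q, ∑ k : Fin m, f (finProdFinEquiv (i, k)).modNat = ∑ k, f k := fun i =>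
    Finset.sum_congr rfl fun k _ => by
      rw [show (finProdFinEquiv (i, k)).modNat = k from yqn_mul q id i k]
  rw [Finset.sum_congr rfl fun i _ => h i, Finset.sum_const, Finset.card_univ, Fintype.card_fin]

/-- **sums over the rows** -/
theorem sum_yqn {M : Type*} [AddCommMonoid M] (q : ℕ) (f : α → M) (y : Fin m → α) :
    ∑ j, f (yqn q y j) = q • ∑ i, f (y i) := sum_yqn' q fun i => f (y i)

theorem sum_yqn_real (q : ℕ) (f : α → ℝ) (y : Fin m → α) :
    ∑ j, f (yqn q y j) = q * ∑ i, f (y i) := by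
  rw [sum_yqn, nsmul_eq_mul]

theorem sum_yqn_complex (q : ℕ) (f : α → ℂ) (y : Fin m → α) :
    ∑ j, f (yqn q y j) = q * ∑ i, f (y i) := by
  rw [sum_yqn, nsmul_eq_mul]

theorem forall_yqn {q : ℕ} {y : Fin m → α} {P : α → Prop} (h : ∀ i, P (y i)) (j : Fin (q * m)) :
    P (yqn q y j) := h _

theorem range_yqn {q : ℕ} (hq : 0 < q) (y : Fin m → α) : Set.range (yqn q y) = Set.range y := by
  apply Set.eq_of_subset_of_subset
  · rintro _ ⟨j, rfl⟩
    exact ⟨_, rfl⟩
  · rintro _ ⟨k, rfl⟩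
    exact ⟨finProdFinEquiv (⟨0, hq⟩, k), yqn_mul q y _ _⟩

theorem range_yqn_subset (q : ℕ) (y : Fin m → α) : Set.range (yqn q y) ⊆ Set.range y := by
  rintro _ ⟨j, rfl⟩
  exact ⟨_, rfl⟩

theorem mem_ofFn_yqn {q : ℕ} {y : Fin m → α} {w : α} (h : w ∈ List.ofFn (yqn q y)) :
    w ∈ List.ofFn y := by
  obtain ⟨j, rfl⟩ := (List.mem_ofFn' _ _).1 h
  exact (List.mem_ofFn' _ _).2 ⟨_, rfl⟩

theorem mem_ofFn_yqn_iff {q : ℕ} (hq : 0 < q) {y : Fin m → α} {w : α} :
    w ∈ List.ofFn (yqn q y) ↔ w ∈ List.ofFn y := by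
  refine ⟨mem_ofFn_yqn, fun h => ?_⟩
  obtain ⟨k, rfl⟩ := (List.mem_ofFn' _ _).1 h
  exact (List.mem_ofFn' _ _).2 ⟨finProdFinEquiv (⟨0, hq⟩, k), yqn_mul q y _ _⟩

/-- products over the list of the rows -/
theorem prod_ofFn_yqn {M : Type*} [CommMonoid M] (q : ℕ) (f : α → M) (y : Fin m → α) :
    ((List.ofFn (yqn q y)).map f).prod = ((List.ofFn y).map f).prod ^ q := by
  rw [List.map_ofFn, List.prod_ofFn, List.map_ofFn, List.prod_ofFn]
  exact prod_yqn q f y

/-- sums over the list of the rows -/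
theorem sum_ofFn_yqn {M : Type*} [AddCommMonoid M] (q : ℕ) (f : α → M) (y : Fin m → α) :
    ((List.ofFn (yqn q y)).map f).sum = q • ((List.ofFn y).map f).sum := by
  rw [List.map_ofFn, List.sum_ofFn, List.map_ofFn, List.sum_ofFn]
  exact sum_yqn q f y

theorem yqn_const (q : ℕ) (a : α) : yqn q (fun _ : Fin m => a) = fun _ => a := rfl

theorem Rws_yqn {q : ℕ} {y : Fin m → ℂ} (h : PBX.Rws y) : PBX.Rws (yqn q y) := fun _ => h _

/-! ### the class -/

variable [Fil]

/-- **the rows of the species Y** -/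
def yq (y : Fin m → α) : Fin (Fil.q * m) → α := yqn Fil.q y

theorem yq_apply (y : Fin m → α) (j : Fin (Fil.q * m)) : yq y j = y j.modNat := rfl

theorem yq_eq (y : Fin m → α) : yq y = yqn Fil.q y := rfl

theorem yq_const (a : α) : yq (fun _ : Fin m => a) = fun _ => a := rfl

theorem prod_yq {M : Type*} [CommMonoid M] (f : α → M) (y : Fin m → α) :
    ∏ j, f (yq y j) = (∏ i, f (y i)) ^ Fil.q := prod_yqn _ f y

theorem sum_yq {M : Type*} [AddCommMonoid M] (f : α → M) (y : Fin m → α) :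
    ∑ j, f (yq y j) = Fil.q • ∑ i, f (y i) := sum_yqn _ f y

theorem Rws_yq {y : Fin m → ℂ} (h : PBX.Rws y) : PBX.Rws (yq y) := fun _ => h _

/-- **the rows of the species `a`** -/
def rwq (x : Fin m → α) : ∀ a : Bool, Fin (cond a m (Fil.q * m)) → α
  | true => x
  | false => yq x

@[simp] theorem rwq_true (x : Fin m → α) : rwq x true = x := rfl

@[simp] theorem rwq_false (x : Fin m → α) : rwq x false = yq x := rfl

theorem cond_eq (a : Bool) (m : ℕ) : cond a m (Fil.q * m) = Fil.n a * m := by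
  cases a
  · rfl
  · show m = 1 * m
    rw [one_mul]

theorem cast_cond (a : Bool) (m : ℕ) : ((cond a m (Fil.q * m) : ℕ) : ℝ) = Fil.b a * m := by
  rw [cond_eq]
  push_cast
  rw [Fil.cast_n]

/-- **products over the rows of a species** -/
theorem prod_rwq {M : Type*} [CommMonoid M] (f : α → M) (x : Fin m → α) (a : Bool) :
    ∏ j, f (rwq x a j) = (∏ i, f (x i)) ^ Fil.n a := by
  cases a
  · exact prod_yq f x
  · exact (pow_one _).symm

/-- **sums over the rows of a species** -/
theorem sum_rwq {M : Type*} [AddCommMonoid M] (f : α → M) (x : Fin m → α) (a : Bool) :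
    ∑ j, f (rwq x a j) = Fil.n a • ∑ i, f (x i) := by
  cases a
  · exact sum_yq f x
  · exact (one_nsmul _).symm

theorem sum_rwq_real (f : α → ℝ) (x : Fin m → α) (a : Bool) :
    ∑ j, f (rwq x a j) = Fil.b a * ∑ i, f (x i) := by
  rw [sum_rwq, nsmul_eq_mul, Fil.cast_n]

theorem sum_rwq_complex (f : α → ℂ) (x : Fin m → α) (a : Bool) :
    ∑ j, f (rwq x a j) = ((Fil.b a : ℝ) : ℂ) * ∑ i, f (x i) := by
  rw [sum_rwq, nsmul_eq_mul, ← Fil.cast_n, Complex.ofReal_natCast]

theorem forall_rwq {x : Fin m → α} {P : α → Prop} (h : ∀ i, P (x i)) (a : Bool)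
    (j : Fin (cond a m (Fil.q * m))) : P (rwq x a j) := by
  cases a
  · exact h _
  · exact h j

theorem range_rwq (x : Fin m → α) (a : Bool) : Set.range (rwq x a) = Set.range x := by
  cases a
  · exact range_yqn Fil.q_pos x
  · rfl

theorem mem_ofFn_rwq {x : Fin m → α} {a : Bool} {w : α} :
    w ∈ List.ofFn (rwq x a) ↔ w ∈ List.ofFn x := by
  cases a
  · exact mem_ofFn_yqn_iff Fil.q_pos
  · exact Iff.rfl

theorem prod_ofFn_rwq {M : Type*} [CommMonoid M] (f : α → M) (x : Fin m → α) (a : Bool) :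
    ((List.ofFn (rwq x a)).map f).prod = ((List.ofFn x).map f).prod ^ Fil.n a := by
  cases a
  · exact prod_ofFn_yqn _ f x
  · exact (pow_one _).symm

theorem sum_ofFn_rwq {M : Type*} [AddCommMonoid M] (f : α → M) (x : Fin m → α) (a : Bool) :
    ((List.ofFn (rwq x a)).map f).sum = Fil.n a • ((List.ofFn x).map f).sum := by
  cases a
  · exact sum_ofFn_yqn _ f x
  · exact (one_nsmul _).symm

theorem rwq_const (c : α) (a : Bool) : rwq (fun _ : Fin m => c) a = fun _ => c := by
  cases a <;> rfl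

theorem rwq_comp (f : α → β) (x : Fin m → α) (a : Bool) :
    rwq (fun i => f (x i)) a = fun j => f (rwq x a j) := by
  cases a <;> rfl

theorem Rws_rwq {x : Fin m → ℂ} (h : PBX.Rws x) (a : Bool) : PBX.Rws (rwq x a) := fun j =>
  forall_rwq (P := fun w : ℂ => |w.re| ≤ NUP1.l / 2) h a j

end Pool.Agent.PLX

end
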