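import Pool.Agent.PLX.Fil

/-!
# Effective numbers of the two seas: `k - 1` rows and one end in each group

`k` = number of the rows X and the end; species Y has `q` rows for each row X and one end.

* `Fil.nn a k = n a * (k - 1) + 1`: effective number of rows of species `a`;
* `Fil.sa a s = b a * (s - 1) + 1`: the same for a real number;
* `Fil.xn (k - 1)`: the number of the additional quanta Y.
-/

set_option autoImplicit false

noncomputable section

namespace PLX

namespace Fil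

variable [Fil]

/-- effective number of rows of species `a` with `k - 1` rows X and one end per group -/
def nn (a : Bool) (k : ℕ) : ℕ := n a * (k - 1) + 1

/-- effective number of rows of species `a`, real number -/
def sa (a : Bool) (s : ℝ) : ℝ := b a * (s - 1) + 1

/-! ### natural numbers -/

theorem nn_true {k : ℕ} (hk : 1 ≤ k) : nn true k = k := by
  unfold nn
  rw [n_true]
  omega

theorem nn_false (k : ℕ) : nn false k = q * (k - 1) + 1 := rfl

theorem nn_succ (a : Bool) (m : ℕ) : nn a (m + 1) = n a * m + 1 := by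
  unfold nn
  rw [Nat.add_sub_cancel]

@[simp] theorem nn_one (a : Bool) : nn a 1 = 1 := by
  unfold nn
  simp

theorem nn_pos (a : Bool) (k : ℕ) : 0 < nn a k := Nat.succ_pos _

theorem one_le_nn (a : Bool) (k : ℕ) : 1 ≤ nn a k := nn_pos a k

theorem nn_ne (a : Bool) (k : ℕ) : nn a k ≠ 0 := (nn_pos a k).ne'

theorem le_nn (a : Bool) (k : ℕ) : k ≤ nn a k := by
  have h1 : k - 1 ≤ n a * (k - 1) := Nat.le_mul_of_pos_left _ (n_pos a)
  unfold nn
  omega

theorem nn_le (a : Bool) {k : ℕ} (hk : 1 ≤ k) : nn a k ≤ n a * k := by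
  obtain ⟨m, rfl⟩ : ∃ m, k = m + 1 := ⟨k - 1, by omega⟩
  rw [nn_succ, Nat.mul_succ]
  have := one_le_n a
  omega

theorem nn_le_q (a : Bool) {k : ℕ} (hk : 1 ≤ k) : nn a k ≤ q * k :=
  (nn_le a hk).trans (Nat.mul_le_mul_right _ (n_le a))

theorem nn_mono (a : Bool) {k k' : ℕ} (h : k ≤ k') : nn a k ≤ nn a k' := by
  unfold nn
  have : n a * (k - 1) ≤ n a * (k' - 1) := Nat.mul_le_mul_left _ (by omega)
  omega

theorem nn_true_le (a : Bool) (k : ℕ) : nn true k ≤ nn a k := by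
  unfold nn
  rw [n_true, one_mul]
  have : k - 1 ≤ n a * (k - 1) := Nat.le_mul_of_pos_left _ (n_pos a)
  omega

/-- the additional quanta Y -/
theorem nn_true_add (k : ℕ) : nn true k + xn (k - 1) = nn false k := by
  have h := add_xn (k - 1)
  unfold nn
  rw [n_true, n_false, one_mul]
  omega

theorem nn_false_sub (k : ℕ) : nn false k - nn true k = xn (k - 1) := by
  have := nn_true_add k
  omega

theorem add_xn_pred {k : ℕ} (hk : 1 ≤ k) : k + xn (k - 1) = nn false k := by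
  have := nn_true_add k
  rwa [nn_true hk] at this

/-- rows and the end -/
theorem nn_eq (a : Bool) {k : ℕ} (hk : 1 ≤ k) : nn a k + n a = n a * k + 1 := by
  obtain ⟨m, rfl⟩ : ∃ m, k = m + 1 := ⟨k - 1, by omega⟩
  rw [nn_succ, Nat.mul_succ]
  omega

/-! ### real numbers -/

@[simp] theorem sa_true (s : ℝ) : sa true s = s := by
  unfold sa
  rw [b_true]
  ring

theorem sa_false (s : ℝ) : sa false s = q * (s - 1) + 1 := rfl

@[simp] theorem sa_one (a : Bool) : sa a 1 = 1 := by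
  unfold sa
  simp

theorem sa_eq (a : Bool) (s : ℝ) : sa a s = b a * s - (b a - 1) := by
  unfold sa
  ring

theorem cast_nn (a : Bool) {k : ℕ} (hk : 1 ≤ k) : ((nn a k : ℕ) : ℝ) = sa a k := by
  obtain ⟨m, rfl⟩ : ∃ m, k = m + 1 := ⟨k - 1, by omega⟩
  rw [nn_succ]
  unfold sa
  push_cast
  rw [cast_n]
  ring

theorem cast_nn_true {k : ℕ} (hk : 1 ≤ k) : ((nn true k : ℕ) : ℝ) = k := by rw [nn_true hk]

theorem cast_nn_false {k : ℕ} (hk : 1 ≤ k) : ((nn false k : ℕ) : ℝ) = q * ((k : ℝ) - 1) + 1 := by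
  rw [cast_nn _ hk, sa_false]

theorem le_sa (a : Bool) {s : ℝ} (hs : 1 ≤ s) : s ≤ sa a s := by
  have h := one_le a
  unfold sa
  nlinarith

theorem sa_le (a : Bool) (s : ℝ) : sa a s ≤ b a * s := by
  have h := one_le a
  rw [sa_eq]
  linarith

theorem sa_le_q (a : Bool) {s : ℝ} (hs : 0 ≤ s) : sa a s ≤ q * s :=
  (sa_le a s).trans (mul_le_mul_of_nonneg_right (b_le a) hs)

theorem sa_ge (a : Bool) (s : ℝ) : b a * s - (q - 1) ≤ sa a s := by
  have h := b_le a
  rw [sa_eq]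
  linarith

theorem one_le_sa (a : Bool) {s : ℝ} (hs : 1 ≤ s) : 1 ≤ sa a s := hs.trans (le_sa a hs)

theorem sa_pos (a : Bool) {s : ℝ} (hs : 1 ≤ s) : 0 < sa a s :=
  lt_of_lt_of_le one_pos (one_le_sa a hs)

theorem sa_nonneg (a : Bool) {s : ℝ} (hs : 1 ≤ s) : 0 ≤ sa a s := (sa_pos a hs).le

theorem abs_sa_sub_le (a : Bool) (s : ℝ) : |sa a s - b a * s| ≤ q - 1 := by
  have h := b_le a
  have h1 := one_le a
  rw [sa_eq, abs_le]
  constructor <;> linarith

theorem sa_false_sub (s : ℝ) : sa false s - sa true s = (b false - 1) * (s - 1) := by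
  rw [sa_true, sa_eq]
  ring

theorem le_nnr (a : Bool) (k : ℕ) : (k : ℝ) ≤ (nn a k : ℕ) := by exact_mod_cast le_nn a k

theorem nnr_le (a : Bool) {k : ℕ} (hk : 1 ≤ k) : ((nn a k : ℕ) : ℝ) ≤ b a * k := by
  rw [cast_nn a hk]
  exact sa_le a _

theorem nnr_le_q (a : Bool) {k : ℕ} (hk : 1 ≤ k) : ((nn a k : ℕ) : ℝ) ≤ q * k := by
  exact_mod_cast nn_le_q a hk

theorem nnr_pos (a : Bool) (k : ℕ) : (0 : ℝ) < (nn a k : ℕ) := by exact_mod_cast nn_pos a k

theorem one_le_nnr (a : Bool) (k : ℕ) : (1 : ℝ) ≤ (nn a k : ℕ) := by exact_mod_cast one_le_nn a k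

theorem abs_nnr_sub_le (a : Bool) {k : ℕ} (hk : 1 ≤ k) :
    |((nn a k : ℕ) : ℝ) - b a * k| ≤ q - 1 := by
  rw [cast_nn a hk]
  exact abs_sa_sub_le a _

theorem nnr_sub {k : ℕ} : ((nn false k : ℕ) : ℝ) - (nn true k : ℕ) = (xn (k - 1) : ℕ) := by
  rw [← nn_true_add k]
  push_cast
  ring

theorem cast_xn_pred {k : ℕ} (hk : 1 ≤ k) :
    ((xn (k - 1) : ℕ) : ℝ) = (b false - 1) * ((k : ℝ) - 1) := by
  rw [cast_xn, Nat.cast_sub hk]
  push_cast
  ring

/-! ### the common current -/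

theorem sa_mul_cv (a : Bool) (s : ℝ) (η : ℝ → ℝ) (t : ℝ) :
    sa a s * cv a η t = (s - 1 + (b a)⁻¹) * η t := by
  have h := b_ne a
  unfold sa
  rw [cv_apply]
  field_simp

theorem sa_mul_cv_sub (a : Bool) (s : ℝ) (η : ℝ → ℝ) (t : ℝ) :
    sa a s * cv a η t - s * η t = -((1 - (b a)⁻¹) * η t) := by
  rw [sa_mul_cv]
  ring

/-- **the currents of the two species agree up to one row** -/
theorem abs_sa_mul_cv_sub_le (a : Bool) (s : ℝ) (η : ℝ → ℝ) (t : ℝ) :
    |sa a s * cv a η t - s * η t| ≤ |η t| := by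
  have h0 := inv_b_pos a
  have h1 := inv_b_le a
  rw [sa_mul_cv_sub, abs_neg, abs_mul]
  have : |1 - (b a)⁻¹| ≤ 1 := by
    rw [abs_le]
    constructor <;> linarith
  exact mul_le_of_le_one_left (abs_nonneg _) this

theorem abs_nn_mul_cv_sub_le (a : Bool) {k : ℕ} (hk : 1 ≤ k) (η : ℝ → ℝ) (t : ℝ) :
    |((nn a k : ℕ) : ℝ) * cv a η t - k * η t| ≤ |η t| := by
  rw [cast_nn a hk]
  exact abs_sa_mul_cv_sub_le a _ η t

end Fil

end PLX

end
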