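import Pool.Agent.PLX.Rows
import Pool.Agent.GLD.W0

/-!
# The two-point function of two rows of a cylinder is a walk sum (project PLAX, exact side)

`N` rows, all rapidities `0`, cut rows `0` and `r`.  `WP_lim`, `WP_iSup`: `WP` is the limit (the supremum) of the sums
over the words of the cylinder `Cy N` in the rings `-m, .., m - 1` from the cut edge of the row `0` to the cut edge of
the row `r`.  (`r = k`, `N = 2 k`: `GLD/W0`.)
-/

set_option autoImplicit false

namespace Pool.Agent.PLX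

open Pool.Agent.EXL hiding cc
open Pool.Agent.EXL.Pat Pool.Agent.EXL.Net HexObs Filter Topology
open Pool.Agent.NUF
open Pool.Agent.NUF.Cyl (Nm Cy pL)
open Pool.Agent.NUN (cc Xr Xl Om mem_Om)
open Pool.Agent.NUNC (dd)
open Pool.Agent.MXR (XR XL gS Rest prs prs_append prs_fst prs_snd glu_prs nodup_XR nodup_XL
  cc_XR dd_XR cc_XL dd_XL cc_ne_dd Xr_notMem gS_nn ind_nn)
open Pool.Agent.GLD (isD_VR0 Om_mono Ws_mono rings_eq0)

variable {N r : ℕ}

/-- the rows between the cut rows -/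
def rowJ (N r : ℕ) : List (Fin N) := ((List.finRange N).drop 1).take (r - 1)

/-- the other rows -/
def rowI (N r : ℕ) : List (Fin N) := (List.finRange N).drop (r + 1)

theorem Jr_eq : Jr N r = prs (rowJ N r) := rfl

theorem Ir_eq : Ir N r = prs (rowI N r) := rfl

theorem one_le (h : r < N) : 1 ≤ N := by omega

theorem r0_ne_rr (h1 : 1 ≤ r) (h : r < N) : r0 h ≠ rr h := by
  intro e
  have := congrArg Fin.val e
  unfold r0 rr at this
  simp at this
  omega

theorem rest_r (h1 : 1 ≤ r) (h : r < N) : Rest (rowI N r ++ rowJ N r) (r0 h) (rr h) := by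
  have h2 : (r0 h :: (rowJ N r ++ rr h :: rowI N r)).Perm (r0 h :: rr h :: (rowI N r ++ rowJ N r)) := by
    refine List.Perm.cons _ ?_
    refine List.perm_middle.trans ?_
    exact List.Perm.cons _ List.perm_append_comm
  have e : List.finRange N = r0 h :: (rowJ N r ++ rr h :: rowI N r) := finRange_split h1 h
  rw [← e] at h2
  have h3 := h2.nodup (List.nodup_finRange _)
  rw [List.nodup_cons, List.nodup_cons] at h3
  refine ⟨h3.2.2, fun a => ⟨fun h => ⟨?_, ?_⟩, fun h => ?_⟩⟩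
  · rintro rfl
    exact h3.1 (List.mem_cons_of_mem _ h)
  · rintro rfl
    exact h3.2.1 h
  · have h4 := h2.mem_iff.1 (List.mem_finRange a)
    rw [List.mem_cons, List.mem_cons] at h4
    rcases h4 with h4 | h4 | h4
    · exact absurd h4 h.1
    · exact absurd h4 h.2
    · exact h4

theorem rowsR_X (h1 : 1 ≤ r) (h : r < N) :
    NU5.rowsR (prs (rowI N r)) (prs (rowJ N r)) (Xr (r0 h)) (Xr (rr h)) = XR N := rowsR_r h1 h

theorem rowsL_X (h1 : 1 ≤ r) (h : r < N) :
    (NU5.rowsL (prs (rowI N r)) (prs (rowJ N r)) (Xl (r0 h)) (Xl (rr h))).reverse = XL N :=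
  congrArg List.reverse (rowsL_r h1 h)

/-- the function of the cut. -/
noncomputable def FP (h : r < N) : Pat (NUF.St N) → ℝ :=
  gS ℝ (rowI N r ++ rowJ N r) (HS.ind (cup (Xr (r0 h)) (Xr (rr h)) Pat.empty))

theorem WP_eq (h1 : 1 ≤ r) (h : r < N) :
    WP h = NUG.pU (NUT2.VR cc dd (fun _ => (0 : ℂ)) (XR N)) (NUT2.VR cc dd (fun _ => (0 : ℂ)) (XL N))
      (fun q => ((FP h q : ℝ) : ℂ)) := by
  rw [NUG.pU_apply]
  show NU5.WR cc dd (fun _ => (0 : ℂ)) (prs (rowI N r)) (prs (rowJ N r)) (Xr (r0 h)) (Xl (r0 h)) (Xr (rr h))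
    (Xl (rr h)) = _
  unfold NU5.WR
  rw [rowsR_X h1 h, rowsL_X h1 h, ← prs_append]
  refine congrArg _ (funext fun p => congrArg _ (funext fun p' => ?_))
  refine glu_prs _ _ _ (fun q => ?_) _
  unfold NU5.arc
  by_cases h : q = cup (Xr (r0 h)) (Xr (rr h)) Pat.empty
  · rw [h, HS.ind_self, HS.ind_self, Complex.ofReal_one]
  · rw [HS.ind_ne h, HS.ind_ne h, Complex.ofReal_zero]

/-- the sum over the words of the cylinder with `N` rows in the rings `-m, .., m - 1` from the cut edge of the row `0`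
to the cut edge of the row `r`. -/
noncomputable def WPm (h : r < N) (m : ℕ) : ℝ :=
  (Cy N (one_le h)).Ws xc (Om N m) {pL (r : ℤ)} (pL 0)

/-- **The iterated rings are the words.** -/
theorem rings_WPm (h1 : 1 ≤ r) (h : r < N) {m : ℕ} (hm : 1 ≤ m) :
    (NUG.ringC cc dd (XR N))^[m] ((NUG.ringC cc dd (XL N))^[m]
      (fun q => ((FP h q : ℝ) : ℂ))) Pat.empty = (WPm h m : ℂ) := by
  rw [NUG.ringC_iterate_ofReal, NUG.ringC_iterate_ofReal]
  have h2 := rings_eq0 (K := ℝ) xc (one_le h) hm (r0_ne_rr h1 h) (rest_r h1 h)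
  exact congrArg (fun r : ℝ => (r : ℂ)) h2

/-- **The two-point function is the limit of the words.** -/
theorem WP_lim (h1 : 1 ≤ r) (h : r < N) : Tendsto (fun m => (WPm h m : ℂ)) atTop (𝓝 (WP h)) := by
  rw [WP_eq h1]
  have hXY : ∀ x ∈ XR N, x ∉ XL N := by
    intro x hx hx'
    obtain ⟨a, -, rfl⟩ := List.mem_map.1 hx
    exact Xr_notMem a hx'
  have h2 := NUG.ring_pU_lim (nodup_XR N) (nodup_XL N) hXY (cc_ne_dd _) (cc_XR _) (dd_XR _) (cc_XL _)
    (dd_XL _) (isD_VR0 (nodup_XR N) (cc_ne_dd _) (cc_XR _) (dd_XR _))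
    (isD_VR0 (nodup_XL N) (cc_ne_dd _) (cc_XL _) (dd_XL _)) (fun q => ((FP h q : ℝ) : ℂ))
  refine h2.congr' ?_
  filter_upwards [eventually_ge_atTop 1] with m hm
  exact rings_WPm h1 h hm

theorem WPm_mono (h : r < N) : Monotone (WPm h) := fun _ _ hm => Ws_mono (Om_mono hm) _ _ xc_pos.le

theorem WPm_nn (h : r < N) (m : ℕ) : 0 ≤ WPm h m := Finset.sum_nonneg fun _ _ => pow_nonneg xc_pos.le _

/-- the value is real and non-negative. -/
theorem WP_real (h1 : 1 ≤ r) (h : r < N) : WP h = ((WP h).re : ℂ) ∧ 0 ≤ (WP h).re ∧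
    Tendsto (WPm h) atTop (𝓝 (WP h).re) := by
  have h2 := WP_lim h1 h
  have h3 : Tendsto (WPm h) atTop (𝓝 (WP h).re) := by
    have := (Complex.continuous_re.tendsto (WP h)).comp h2
    exact this
  have h4 : Tendsto (fun m => (WPm h m : ℂ).im) atTop (𝓝 (WP h).im) :=
    (Complex.continuous_im.tendsto (WP h)).comp h2
  have h5 : (WP h).im = 0 := by
    refine tendsto_nhds_unique h4 ?_
    simp
  refine ⟨?_, ge_of_tendsto' h3 (WPm_nn h), h3⟩
  apply Complex.ext
  · rw [Complex.ofReal_re]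
  · rw [Complex.ofReal_im, h5]

theorem WPm_le (h1 : 1 ≤ r) (h : r < N) (m : ℕ) : WPm h m ≤ (WP h).re :=
  (WPm_mono h).ge_of_tendsto (WP_real h1 h).2.2 m

/-- **The two-point function is the supremum of the words.** -/
theorem WP_iSup (h1 : 1 ≤ r) (h : r < N) : ENNReal.ofReal (WP h).re = ⨆ m, ENNReal.ofReal (WPm h m) := by
  refine tendsto_nhds_unique ?_ (tendsto_atTop_iSup fun a b hm => ENNReal.ofReal_le_ofReal (WPm_mono h hm))
  exact (ENNReal.continuous_ofReal.tendsto _).comp (WP_real h1 h).2.2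

end Pool.Agent.PLX
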