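import Pool.Agent.PLX.RgF
import Pool.Agent.PLX.Words
import Pool.Agent.PB.W0Fam

/-!
# PLAX, exact layer: the two-point function at rows 0 as the sum of the eleven integrals, `m ≤ M`

`W_gas` : `BN N ^ 2 * WP N r = sin l * (Bp 0 0 (0 : Fin m) * Bp 0 0 (0 : Fin M)) * ∑ n < 2 m + 1, E11 .. n (n + (M - m))`,
`r = m + 1`, `N = m + M + 2`, for every admissible data with rows and ends `0`.
-/

set_option autoImplicit false
set_option linter.unusedSectionVars false
set_option linter.unusedVariables false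

noncomputable section

open Complex MeasureTheory Filter Topology

namespace Pool.Agent.PLX

open NUP1 PBX PBZ
open NUTP (th ea)
open NUP1.N (Bx E11)
open NUP1.Leg (Bp Ht cc)
open Pool.Agent.NU5 (gasR)

/-- rows and ends at `0` -/
structure RU.Z {m M : ℕ} (D : RU m M) : Prop where
  x : D.x = fun _ => 0
  y : D.y = fun _ => 0
  p : D.p = 0
  q : D.q = 0

theorem RU.Z.sw {m M : ℕ} {D : RU m M} (h : D.Z) : D.sw.Z := ⟨h.y, h.x, h.q, h.p⟩

section swap

open NUTP.Gas (gasF gas sm tm tt mk nl ow cr Cf Ty fl En)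

variable {θ χ : ℂ}

theorem cr_comm (hθ : θ ^ 8 = -1) (e f : Cf) : cr θ f e = cr θ e f := by
  induction e with
  | nil => rw [NUTP.Gas.cr_nil_left, NUTP.Gas.cr_nil_right]
  | cons c e ih => rw [NUTP.Gas.cr_cons_left, NUTP.Gas.cr_cons_right hθ, ih]

theorem tm_swap (hθ : θ ^ 8 = -1) (m : ℤ) (e f : Cf) :
    tm θ χ 0 0 0 m e f = tm θ χ 0 0 0 m f e := by
  unfold tm
  by_cases h : 0 + tt mk e = 0 ∧ 0 + tt mk f = 0 ∧ 0 + tt NUTP.Gas.ch e = tt NUTP.Gas.ch f
  · rw [if_pos h, if_pos ⟨h.2.1, h.1, by linarith [h.2.2]⟩, cr_comm hθ e f,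
      show tt NUTP.Gas.ch f = tt NUTP.Gas.ch e by linarith [h.2.2]]
    rw [show m + tt NUTP.Gas.ch e + tt nl e + tt nl f = m + tt NUTP.Gas.ch e + tt nl f + tt nl e by
      ring]
    ring
  · rw [if_neg h, if_neg fun h' => h ⟨h'.2.1, h'.1, by linarith [h'.2.2]⟩]

/-- the gas is symmetric in the two groups -/
theorem gas_swap (hθ : θ ^ 8 = -1) (X Y : List (ℂ × Ty)) : gas θ χ X Y = gas θ χ Y X := by
  unfold gas
  rw [NUTP.Gas.sm_comm]
  congr 1
  exact NUTP.Gas.sm_congr' fun f => NUTP.Gas.sm_congr' fun e => tm_swap hθ _ _ _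

theorem RE_swapU (hθ : θ ^ 8 = -1) (I J : List ℂ) (p h q g : ℂ) :
    (gasF θ χ true q g).RE I J p h = (gasF θ χ true p h).RE J I q g :=
  gas_swap hθ _ _

end swap

/-- exchange of the two cut rows -/
theorem gasR_swap (K L : List ℂ) (a b q g : ℂ) : gasR K L a b q g = gasR L K q g a b := by
  unfold Pool.Agent.NU5.gasR
  exact RE_swapU NUTP.th8 K L a b q g

section fam
variable (m M : ℕ)

/-- rows of the species `X` -/
def xU (e : ℝ) (i : Fin m) : ℂ := pZ (1 + i.val) e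

/-- rows of the species `Y` -/
def yU (e : ℝ) (i : Fin M) : ℂ := pZ (m + 1 + i.val) e

variable {m M} {e : ℝ}

theorem Ht_U (he : 0 < e) : Ht (pZ (m + M + 1) e) (pZ (m + M + 2) e) (pZ (m + M + 3) e)
    (pZ (m + M + 4) e) (xU m e) (yU m M e) where
  xx i j hij := pZ_ne he (by
    intro h
    exact hij (Fin.ext (by omega)))
  yy i j hij := pZ_ne he (by
    intro h
    exact hij (Fin.ext (by omega)))
  xy i j := pZ_ne he (by have := i.isLt; omega)
  hx i := pZ_ne he (by have := i.isLt; omega)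
  hy i := pZ_ne he (by have := i.isLt; omega)
  gx i := pZ_ne he (by have := i.isLt; omega)
  gy i := pZ_ne he (by have := i.isLt; omega)
  hg := pZ_ne he (by omega)
  qx i := pZ_ne he (by have := i.isLt; omega)
  py i := pZ_ne he (by have := i.isLt; omega)

/-- generic lines, the second group first -/
theorem G_U (he : 0 < e) : NUTP.G th (ea (-pZ (m + M + 3) e) :: ea (-pZ (m + M + 4) e) ::
    ea (-pZ (m + M + 1) e) :: ea (-pZ (m + M + 2) e) ::
      ((List.ofFn fun i => ea (-yU m M e i)) ++ List.ofFn fun i => ea (-xU m e i))) := by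
  have e1 : (ea (-pZ (m + M + 3) e) :: ea (-pZ (m + M + 4) e) ::
      ea (-pZ (m + M + 1) e) :: ea (-pZ (m + M + 2) e) ::
      ((List.ofFn fun i => ea (-yU m M e i)) ++ List.ofFn fun i => ea (-xU m e i))) =
      (-pZ (m + M + 3) e :: -pZ (m + M + 4) e :: -pZ (m + M + 1) e :: -pZ (m + M + 2) e ::
        ((List.ofFn fun i => -yU m M e i) ++ List.ofFn fun i => -xU m e i)).map ea := by
    simp [List.map_ofFn, Function.comp_def]
  rw [e1, NUTP.G_ea]
  have key : (-pZ (m + M + 3) e :: -pZ (m + M + 4) e :: -pZ (m + M + 1) e ::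
      -pZ (m + M + 2) e :: ((List.ofFn fun i => -yU m M e i) ++
        List.ofFn fun i => -xU m e i)).Pairwise fun z w => z.im ≠ w.im := by
    have im' : ∀ {d d' : ℕ}, d ≠ d' → (-pZ d e).im ≠ (-pZ d' e).im := by
      intro d d' h h'
      rw [neg_im, neg_im, neg_inj] at h'
      exact pZ_ne he h h'
    simp only [List.pairwise_cons, List.pairwise_append, List.pairwise_ofFn, List.mem_cons,
      List.mem_append, List.mem_ofFn]
    refine ⟨?_, ?_, ?_, ?_, ?_, ?_, ?_⟩
    · rintro z (rfl | rfl | rfl | ⟨i, rfl⟩ | ⟨i, rfl⟩)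
      · exact im' (by omega)
      · exact im' (by omega)
      · exact im' (by omega)
      · exact im' (by have := i.isLt; omega)
      · exact im' (by have := i.isLt; omega)
    · rintro z (rfl | rfl | ⟨i, rfl⟩ | ⟨i, rfl⟩)
      · exact im' (by omega)
      · exact im' (by omega)
      · exact im' (by have := i.isLt; omega)
      · exact im' (by have := i.isLt; omega)
    · rintro z (rfl | ⟨i, rfl⟩ | ⟨i, rfl⟩)
      · exact im' (by omega)
      · exact im' (by have := i.isLt; omega)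
      · exact im' (by have := i.isLt; omega)
    · rintro z (⟨i, rfl⟩ | ⟨i, rfl⟩)
      · exact im' (by have := i.isLt; omega)
      · exact im' (by have := i.isLt; omega)
    · intro i j hij
      have : i.val < j.val := hij
      exact im' (by omega)
    · intro i j hij
      have : i.val < j.val := hij
      exact im' (by omega)
    · rintro z ⟨i, rfl⟩ w ⟨j, rfl⟩
      exact im' (by have := i.isLt; have := j.isLt; omega)
  refine key.imp fun {z w} h k => ?_
  refine NUP1.sin_ne_im ?_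
  have e2 : (z - w + (k : ℂ) * NUTP.lam).im = z.im - w.im := by
    rw [show NUTP.lam = (l : ℂ) from rfl]
    simp
  rw [e2]
  exact sub_ne_zero.2 h

end fam

/-- **The gas of two cut rows at rows and ends 0**, `m ≤ M` rows. -/
theorem gasR_zeroU {m M : ℕ} (hmM : m ≤ M) {a : ℝ} (ha : a = 31 / 50 ∨ a = 5 / 4) {D : RU m M} (O : D.Ok)
    (hβ : 1 < D.β) (hc : D.c = cc m) (hc' : D.c' = cc M) (Z : D.Z) :
    Tendsto (fun e => gasR (List.ofFn fun i => ea (-xU m e i)) (List.ofFn fun i => ea (-yU m M e i))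
      (ea (-pZ (m + M + 1) e)) (ea (-pZ (m + M + 2) e)) (ea (-pZ (m + M + 3) e))
      (ea (-pZ (m + M + 4) e))) (𝓝[>] 0)
    (𝓝 (sin l * (Bp 0 0 (fun _ : Fin m => 0) * Bp 0 0 (fun _ : Fin M => 0)) *
      ∑ n ∈ Finset.range (2 * m + 1),
        E11 (3 / 5 * l) (-(17 / 10) * l) D.p D.q D.x D.y D.hX D.hY n (n + (M - m)) (a * l)
          (-(11 / 4) * l))) := by
  have hx := Z.x
  have hy := Z.y
  have hp := Z.p
  have hq := Z.q
  have hpos : ∀ᶠ e : ℝ in 𝓝[>] 0, 0 < e := self_mem_nhdsWithin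
  have hle : ∀ᶠ e : ℝ in 𝓝[>] 0, e ≤ 1 := nhdsWithin_le_nhds (eventually_le_nhds one_pos)
  have hbox := hpos.and hle
  have bx : ∀ d : ℕ, d ≤ m + M + 4 → ∀ᶠ e : ℝ in 𝓝[>] 0, Bx (m + M + 4 : ℝ) (pZ d e) :=
    fun d hd => hbox.mono fun e he => pZ_box he.1.le he.2 (by exact_mod_cast hd)
  have R0 : (0 : ℝ) ≤ m + M + 4 := by positivity
  have key := O.RE_tendsto (F := 𝓝[>] (0 : ℝ)) (R := (m + M + 4 : ℝ)) hmM ha hβ hc hc'
    (p := pZ (m + M + 1)) (h := pZ (m + M + 2)) (q := pZ (m + M + 3)) (g := pZ (m + M + 4))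
    (x := xU m) (y := yU m M) (hpos.mono fun e he => Ht_U he) (bx _ (by omega)) (bx _ (by omega))
    (bx _ (by omega)) (bx _ (by omega))
    (Filter.eventually_all.2 fun i => bx _ (by have := i.isLt; omega))
    (Filter.eventually_all.2 fun i => bx _ (by have := i.isLt; omega))
    (by rw [hp]; simpa using R0) (by rw [hq]; simpa using R0)
    (fun i => by rw [hx]; simpa using R0) (fun i => by rw [hy]; simpa using R0)
    (by rw [hp]; exact pZ_tendsto _) (by rw [hp]; exact pZ_tendsto _)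
    (by rw [hq]; exact pZ_tendsto _) (by rw [hq]; exact pZ_tendsto _)
    (fun i => by rw [hx]; exact pZ_tendsto _) (fun i => by rw [hy]; exact pZ_tendsto _)
  have e1 : Bp D.p D.q D.x * Bp D.q D.p D.y =
      Bp 0 0 (fun _ : Fin m => 0) * Bp 0 0 (fun _ : Fin M => 0) := by
    rw [hx, hy, hp, hq]
  rw [e1] at key
  exact key

/-- the gas tends to the two-point function, any cut distance -/
theorem gasR_BN {N r : ℕ} (h1 : 1 ≤ r) (h : r < N) :
    Tendsto (fun e => gasR (List.ofFn fun i => ea (-xU (r - 1) e i))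
      (List.ofFn fun i => ea (-yU (r - 1) (N - 1 - r) e i))
      (ea (-pZ (r - 1 + (N - 1 - r) + 1) e)) (ea (-pZ (r - 1 + (N - 1 - r) + 2) e))
      (ea (-pZ (r - 1 + (N - 1 - r) + 3) e)) (ea (-pZ (r - 1 + (N - 1 - r) + 4) e))) (𝓝[>] (0 : ℝ))
      (𝓝 (BN N ^ 2 * WP h)) := by
  have hpos : ∀ᶠ e : ℝ in 𝓝[>] 0, 0 < e := self_mem_nhdsWithin
  have key := RRP (l := 𝓝[>] (0 : ℝ)) (N := N) (r := r) (X := fun e i => -yU (r - 1) (N - 1 - r) e i)
    (Y := fun e i => -xU (r - 1) e i) (ra := fun e => -pZ (r - 1 + (N - 1 - r) + 3) e)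
    (rb := fun e => -pZ (r - 1 + (N - 1 - r) + 4) e) (rq := fun e => -pZ (r - 1 + (N - 1 - r) + 1) e)
    (rg := fun e => -pZ (r - 1 + (N - 1 - r) + 2) e) h1 h (fun i => pZ_neg_tendsto _)
    (fun i => pZ_neg_tendsto _) (pZ_neg_tendsto _) (pZ_neg_tendsto _) (pZ_neg_tendsto _)
    (pZ_neg_tendsto _) (hpos.mono fun e he => G_U he)
  refine key.congr fun e => ?_
  exact gasR_swap _ _ _ _ _ _

/-- **The two-point function of two rows at distance `r ≤ N / 2` as the sum of the eleven integrals.** -/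
theorem W_gas' {N r : ℕ} (h1 : 1 ≤ r) (h : r < N) (hr : 2 * r ≤ N) {a : ℝ}
    (ha : a = 31 / 50 ∨ a = 5 / 4) {D : RU (r - 1) (N - 1 - r)} (O : D.Ok) (hβ : 1 < D.β)
    (hc : D.c = cc (r - 1)) (hc' : D.c' = cc (N - 1 - r)) (Z : D.Z) :
    BN N ^ 2 * WP h =
      sin l * (Bp 0 0 (fun _ : Fin (r - 1) => 0) * Bp 0 0 (fun _ : Fin (N - 1 - r) => 0)) *
      ∑ n ∈ Finset.range (2 * (r - 1) + 1),
        E11 (3 / 5 * l) (-(17 / 10) * l) D.p D.q D.x D.y D.hX D.hY n (n + (N - 1 - r - (r - 1))) (a * l)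
          (-(11 / 4) * l) :=
  tendsto_nhds_unique (gasR_BN h1 h) (gasR_zeroU (by omega) ha O hβ hc hc' Z)

/-- **The two-point function of two rows as the sum of the eleven integrals**, `m ≤ M` rows between the cut rows. -/
theorem W_gas {m M N r : ℕ} (hr : r = m + 1) (hN : N = m + M + 2) (hmM : m ≤ M) (h : r < N) {a : ℝ}
    (ha : a = 31 / 50 ∨ a = 5 / 4) {D : RU m M} (O : D.Ok) (hβ : 1 < D.β)
    (hc : D.c = cc m) (hc' : D.c' = cc M) (Z : D.Z) :
    BN N ^ 2 * WP h =
      sin l * (Bp 0 0 (fun _ : Fin m => 0) * Bp 0 0 (fun _ : Fin M => 0)) *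
      ∑ n ∈ Finset.range (2 * m + 1),
        E11 (3 / 5 * l) (-(17 / 10) * l) D.p D.q D.x D.y D.hX D.hY n (n + (M - m)) (a * l)
          (-(11 / 4) * l) := by
  obtain rfl : m = r - 1 := by omega
  obtain rfl : M = N - 1 - r := by omega
  exact W_gas' (by omega) h (by omega) ha O hβ hc hc' Z

end Pool.Agent.PLX

end
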