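import Pool.Agent.PB.TRMF
import Pool.Agent.PB.TrG7

/-!
# TR along a ray: the mean field of half quanta, legs and ends, each species on its own (project PLAX)

`LC z = log (Ck z)`, `LD z = log (Dk z)` (`LC + LD = LCD`), density `P` of mass one, row at the real position `x`, `|x| < l`:

* `c_flat`: `∫ Pc (s + i x) LC (w - l - i s) ds = LSn (w - x)`, `l < Re w < 7 l`;
* `d_flat`: `∫ Pc (s + i x) LD (w - l - i s) ds = -LSn (w + 3 l - x)`, `-2 l < Re w < 4 l`;
* `GX z w w' s`: logarithm of (minus) the ratio regular / dislocated of the species X, half quanta `w`, `w'`, legs `z`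
  (species Y: `GX z w' w s`; sum `PBTn.GM z w w' s`);
* **`GX_mean`**: the exponential of its mean is `EX z w w'`, closed form; `EX z w w' * EX z w' w = EM z w w'`;
* **`mean_pow2`**: densities `c a * P` (`c : Bool → ℕ`), for logarithms `D true = GX z w w'`, `D false = GX z w' w`.
-/

set_option autoImplicit false

noncomputable section

open MeasureTheory Filter Topology Set Complex

namespace Pool.Agent.PLX

open NUMF (P Pc l)
open Pool.Agent.PB (fS LSn LCD leg_mf l_eq sum_rule_pos' LS_bound diff_LS exp_LS)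

/-- `log (sin z sin (z + 2 l) / sin (z + l))` -/
def LC (z : ℂ) : ℂ := LSn z - LSn (z + l) + LSn (z + 2 * l)

/-- `log (sin (z + 4 l) / (sin (z + 3 l) sin (z + 5 l)))` -/
def LD (z : ℂ) : ℂ := LSn (z + 4 * l) - LSn (z + 3 * l) - LSn (z + 5 * l)

theorem LC_LD (z : ℂ) : LC z + LD z = LCD z := by
  unfold LC LD Pool.Agent.PB.LCD Pool.Agent.PB.fS
  rw [show z + (l : ℂ) + 3 * l = z + 4 * l by ring, show z + 2 * (l : ℂ) + 3 * l = z + 5 * l by ring]
  ring

/-- the sum rule for `log sin` -/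
theorem LS_rule {w : ℂ} {x : ℝ} (hx : |x| < l) (h0 : l < w.re) (h1 : w.re < 7 * l) :
    Integrable (fun s : ℝ => Pc (s + x * I) * (LSn (w + l - s * I) + LSn (w - l - s * I) - LSn (w - s * I))) ∧
    ∫ s : ℝ, Pc (s + x * I) * (LSn (w + l - s * I) + LSn (w - l - s * I) - LSn (w - s * I)) =
      LSn (w - x) := by
  have hl := NUMF.l_pos
  obtain ⟨C, hC, hb⟩ := LS_bound (a := w.re - l) (b := w.re + l) (by linarith) (by linarith)
  obtain ⟨k1, k2, k3, k4⟩ := sum_rule_pos' (f := LSn) (w := w) (x := x) (a := 0) (b := 8 * l)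
    (M := 1) (C := C) hx zero_le_one hC (by linarith) (by linarith)
    (fun z h1 h2 => diff_LS h1 h2) (fun z h1 h2 => by rw [one_mul]; exact hb z h1 h2)
  refine ⟨((k1.add k2).sub k3).congr (Eventually.of_forall fun s => ?_), k4⟩
  simp only [Pi.add_apply, Pi.sub_apply]
  ring

/-- **the half quantum on its own species** -/
theorem c_flat {w : ℂ} {x : ℝ} (hx : |x| < l) (h0 : l < w.re) (h1 : w.re < 7 * l) :
    Integrable (fun s : ℝ => Pc (s + x * I) * LC (w - l - s * I)) ∧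
    ∫ s : ℝ, Pc (s + x * I) * LC (w - l - s * I) = LSn (w - x) := by
  obtain ⟨k1, k2⟩ := LS_rule hx h0 h1
  have e : ∀ s : ℝ, LC (w - l - s * I) = LSn (w + l - s * I) + LSn (w - l - s * I) - LSn (w - s * I) := by
    intro s
    unfold LC
    rw [show w - l - s * I + l = w - s * I by ring, show w - l - s * I + 2 * l = w + l - s * I by ring]
    ring
  simp only [e]
  exact ⟨k1, k2⟩

/-- **the half quantum on the other species** -/
theorem d_flat {w : ℂ} {x : ℝ} (hx : |x| < l) (h0 : -2 * l < w.re) (h1 : w.re < 4 * l) :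
    Integrable (fun s : ℝ => Pc (s + x * I) * LD (w - l - s * I)) ∧
    ∫ s : ℝ, Pc (s + x * I) * LD (w - l - s * I) = -LSn (w + 3 * l - x) := by
  have hre : (w + 3 * (l : ℂ)).re = w.re + 3 * l := by simp
  obtain ⟨k1, k2⟩ := LS_rule (w := w + 3 * l) hx (by rw [hre]; linarith) (by rw [hre]; linarith)
  have e : ∀ s : ℝ, LD (w - l - s * I) =
      -(LSn (w + 3 * l + l - s * I) + LSn (w + 3 * l - l - s * I) - LSn (w + 3 * l - s * I)) := by
    intro s
    unfold LD
    rw [show w - l - s * I + 4 * l = w + 3 * l - s * I by ring,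
      show w - l - s * I + 3 * l = w + 3 * l - l - s * I by ring,
      show w - l - s * I + 5 * l = w + 3 * l + l - s * I by ring]
    ring
  simp only [e, mul_neg]
  refine ⟨k1.neg, ?_⟩
  rw [integral_neg, k2]

/-- mean of the half quantum, own species -/
theorem c_mean {w : ℂ} (h0 : l < w.re) (h1 : w.re < 7 * l) :
    Integrable (fun s : ℝ => (P s : ℂ) * LC (w - l - s * I)) ∧
    exp (∫ s : ℝ, (P s : ℂ) * LC (w - l - s * I)) = sin w := by
  have hl := NUMF.l_pos
  obtain ⟨i1, i2⟩ := c_flat (w := w) (x := 0) (by rw [abs_zero]; exact hl) h0 h1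
  simp only [ofReal_zero, zero_mul, add_zero, sub_zero, NUMF.Pc_ofReal] at i1 i2
  exact ⟨i1, by rw [i2, exp_LS (by linarith) (by linarith)]⟩

/-- mean of the half quantum, other species -/
theorem d_mean {w : ℂ} (h0 : -2 * l < w.re) (h1 : w.re < 4 * l) :
    Integrable (fun s : ℝ => (P s : ℂ) * LD (w - l - s * I)) ∧
    exp (∫ s : ℝ, (P s : ℂ) * LD (w - l - s * I)) = (sin (w + 3 * l))⁻¹ := by
  have hl := NUMF.l_pos
  have hre : (w + 3 * (l : ℂ)).re = w.re + 3 * l := by simp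
  obtain ⟨i1, i2⟩ := d_flat (w := w) (x := 0) (by rw [abs_zero]; exact hl) h0 h1
  simp only [ofReal_zero, zero_mul, add_zero, sub_zero, NUMF.Pc_ofReal] at i1 i2
  exact ⟨i1, by rw [i2, exp_neg, exp_LS (by rw [hre]; linarith) (by rw [hre]; linarith)]⟩

/-- the logarithm of minus the ratio, species X with the half quanta `w`, `w'` (own, other) -/
def GX (z w w' : ℂ) (s : ℝ) : ℂ :=
  -2 * fS (l - s * I) + fS (z + l - s * I) + (LC (w - l - s * I) + LD (w' - l - s * I))

theorem GX_sum (z w w' : ℂ) (s : ℝ) : GX z w w' s + GX z w' w s = PBTn.GM z w w' s := by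
  unfold GX PBTn.GM
  rw [← LC_LD (w - l - s * I), ← LC_LD (w' - l - s * I)]
  ring

/-- the mean field value of the species X -/
def EX (z w w' : ℂ) : ℂ := (PBR.rh 0 ^ 2 / (sin (2 * l) * sin (3 * l))) ^ 2 *
  (sin w / sin (w' + 3 * l)) * (sin (z + 2 * l) * sin (z + 3 * l) / PBR.rh z ^ 2)

theorem EX_mul (z w w' : ℂ) : EX z w w' * EX z w' w = PBTn.EM z w w' := by
  unfold EX PBTn.EM
  ring

/-- **the mean of the species X** -/
theorem GX_mean {z w w' : ℂ} (hz0 : -l < z.re) (hz1 : z.re < 4 * l) (hw0 : l < w.re) (hw1 : w.re < 7 * l)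
    (hw0' : -2 * l < w'.re) (hw1' : w'.re < 4 * l) :
    Integrable (fun s : ℝ => (P s : ℂ) * GX z w w' s) ∧
    exp (∫ s : ℝ, (P s : ℂ) * GX z w w' s) = EX z w w' := by
  have hl := NUMF.l_pos
  obtain ⟨a1, a2⟩ := PBTn.leg_mean (z := 0) (by rw [zero_re]; linarith) (by rw [zero_re]; linarith)
  obtain ⟨b1, b2⟩ := PBTn.leg_mean hz0 hz1
  obtain ⟨c1, c2⟩ := c_mean hw0 hw1
  obtain ⟨d1, d2⟩ := d_mean hw0' hw1'
  simp only [zero_add] at a1 a2
  have e : (fun s : ℝ => (P s : ℂ) * GX z w w' s) = fun s : ℝ =>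
      (-2 * ((P s : ℂ) * fS (l - s * I)) + (P s : ℂ) * fS (z + l - s * I)) +
        ((P s : ℂ) * LC (w - l - s * I) + (P s : ℂ) * LD (w' - l - s * I)) := by
    funext s
    unfold GX
    ring
  have i1 := (a1.const_mul (-2)).add b1
  have i2 := c1.add d1
  rw [e]
  refine ⟨i1.add i2, ?_⟩
  have s1 := integral_add i1 i2
  have s2 := integral_add (a1.const_mul (-2)) b1
  have s3 := integral_add c1 d1
  simp only [Pi.add_apply] at s1 s2 s3
  rw [s1, s2, s3, integral_const_mul, exp_add, exp_add, exp_add, c2, d2, b2]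
  set A := ∫ s : ℝ, (P s : ℂ) * fS (l - s * I)
  rw [show -2 * A = -((2 : ℕ) * A) by push_cast; ring, exp_neg, exp_nat_mul, a2]
  unfold EX
  rw [← inv_pow, inv_div, mul_comm (sin (2 * (l : ℂ)))]
  ring

/-- **the means of the two species**, densities `c a * P` -/
theorem mean_pow2 {z w w' : ℂ} (hz0 : -l < z.re) (hz1 : z.re < 4 * l) (hw0 : l < w.re)
    (hw1 : w.re < 4 * l) (hw0' : l < w'.re) (hw1' : w'.re < 4 * l) {D : Bool → ℂ → ℂ}
    (h1 : ∀ s : ℝ, D true (l + I * s) = GX z w w' s) (h2 : ∀ s : ℝ, D false (l + I * s) = GX z w' w s)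
    (c : Bool → ℕ) :
    exp (-∑ a, ∫ s : ℝ, ((c a * P s : ℝ) : ℂ) * D a (l + I * s)) =
      (EX z w w')⁻¹ ^ c true * (EX z w' w)⁻¹ ^ c false := by
  have hl := NUMF.l_pos
  have e : ∀ a, ∫ s : ℝ, ((c a * P s : ℝ) : ℂ) * D a (l + I * s) =
      c a * ∫ s : ℝ, (P s : ℂ) * D a (l + I * s) := by
    intro a
    rw [← integral_const_mul]
    refine integral_congr_ae (Eventually.of_forall fun s => ?_)
    simp only
    push_cast
    ring
  simp only [e, Fintype.sum_bool, h1, h2]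
  rw [neg_add, exp_add, exp_neg, exp_neg, exp_nat_mul, exp_nat_mul,
    (GX_mean hz0 hz1 hw0 (by linarith) (by linarith) hw1').2,
    (GX_mean hz0 hz1 hw0' (by linarith) (by linarith) hw1).2, inv_pow, inv_pow]

/-! ### the logarithm `Dl` of `PB/TrG7` -/

theorem LC_cos (v x : ℂ) (h : v = 4 * l - x) : LC v = Complex.log (Complex.cos x) -
    Complex.log (Complex.cos (x - l)) + Complex.log (Complex.cos (x - 2 * l)) := by
  unfold LC Pool.Agent.PB.LSn
  rw [← PBT3.LS_cos, ← PBT3.LS_cos, ← PBT3.LS_cos, h]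
  rw [show (4 * l - (x - l) : ℂ) = 4 * l - x + l by ring, show (4 * l - (x - 2 * l) : ℂ) = 4 * l - x + 2 * l by ring]

theorem LD_cos (v x : ℂ) (h : v = 4 * l - x) : LD v = Complex.log (Complex.cos (x - 4 * l)) -
    Complex.log (Complex.cos (x - 3 * l)) - Complex.log (Complex.cos (x - 5 * l)) := by
  unfold LD Pool.Agent.PB.LSn
  rw [← PBT3.LS_cos, ← PBT3.LS_cos, ← PBT3.LS_cos, h]
  rw [show (4 * l - (x - 4 * l) : ℂ) = 4 * l - x + 4 * l by ring, show (4 * l - (x - 3 * l) : ℂ) = 4 * l - x + 3 * l by ring,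
    show (4 * l - (x - 5 * l) : ℂ) = 4 * l - x + 5 * l by ring]

theorem Ds_GX (w w' : ℂ) (s : ℝ) : PBT3.Ds w w' s = GX (PBT3.zz w w') w w' s := by
  unfold GX
  rw [PBT3.Ds_eq,
    PBT3.fS_cos (l - s * I) (3 * l + I * s) (by ring),
    PBT3.fS_cos (PBT3.zz w w' + l - s * I) (3 * l - PBT3.zz w w' + I * s) (by ring),
    LC_cos (w - l - s * I) (5 * l - w + I * s) (by ring),
    LD_cos (w' - l - s * I) (5 * l - w' + I * s) (by ring)]
  rw [show (3 * l + I * s - 3 * l : ℂ) = 0 + I * s by ring,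
    show (3 * l - PBT3.zz w w' + I * s - 3 * l : ℂ) = -PBT3.zz w w' + I * s by ring,
    show (5 * l - w + I * s - l : ℂ) = 4 * l - w + I * s by ring,
    show (5 * l - w + I * s - 2 * l : ℂ) = 3 * l - w + I * s by ring,
    show (5 * l - w' + I * s - 3 * l : ℂ) = 2 * l - w' + I * s by ring,
    show (5 * l - w' + I * s - 4 * l : ℂ) = l - w' + I * s by ring,
    show (5 * l - w' + I * s - 5 * l : ℂ) = -w' + I * s by ring]
  ring

theorem Dl_true_GX (w w' : ℂ) (s : ℝ) : PBT3.Dl w w' true s = GX (PBT3.zz w w') w w' s := by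
  rw [← Ds_GX]
  simp [PBT3.Dl]

theorem Dl_false_GX (w w' : ℂ) (s : ℝ) : PBT3.Dl w w' false s = GX (PBT3.zz w w') w' w s := by
  rw [← PBT3.zz_symm w w', ← Ds_GX]
  simp [PBT3.Dl]

end Pool.Agent.PLX

end
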