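import Pool.Agent.PB.TRRat
import Pool.Agent.PLX.TRMF2

/-!
# TR along a ray: the ratio of the prefactors, `m` rows `0` in the first group, `M` rows `0` in the second (project PLAX)

Ends at `0`, half quanta at `w` (own species X) and `w'` (own species Y), legs at `z`.

* `EX z w w'`: exponential of the mean of the species X (`PLX/TRMF2`); species Y: `EX z w' w`;
* `Pf_EX`: `Pf z 0^m 0^M * (EX z w w')⁻¹ ^ m * (EX z w' w)⁻¹ ^ M = b ^ eb * (1 / r) ^ er * rows of the half quanta`,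
  `b = sin 2l sin 3l`, `r = rh 0`, `eb = m² + M² + 2 (m + M) + 1`, `er = (m + M)² + 4 (m + M) + 2`;
* `bulkN N`: the bulk term of `N` rows (`N = 2 (m + 1)`: `bulkT m`);
* **`ratio2`**: prefactor of the regular function over the bulk term = `3 / 2 / rh 0`, times the kernel `K1`
  (independent of `m`, `M`), times `Pf z 0^m 0^M * (EX z w w')⁻¹ ^ m * (EX z w' w)⁻¹ ^ M`; exactly.
-/

set_option autoImplicit false

noncomputable section

open Complex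

namespace Pool.Agent.PLX

open NUP1 (l)
open NUP1.Grand (P)
open NUP1.Leg (kap Dk Ck Bp thE)
open PBR (rh r2 r2_sq rh_zero)
open Pool.Agent.PB (Pf Nu D1 D2 Lp Fp)
open PBTRat (bb rel rh0_ne bb_ne Lp_zero Fp_zero kap0_eq bulkT)

/-- the product over the pairs of a constant -/
theorem P_const (m : ℕ) (c : ℂ) : P (fun _ _ : Fin m => c) = c ^ (m.choose 2) := by
  induction m with
  | zero => simp [NUP1.Grand.P]
  | succ m ih =>
    rw [NUP1.P_succ, ih]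
    simp only [Finset.prod_const, Finset.card_univ, Fintype.card_fin]
    rw [← pow_add]
    congr 1
    rw [Nat.choose_succ_succ' m 1, Nat.choose_one_right]

theorem two_choose (m : ℕ) : m * m = 2 * m.choose 2 + m := by
  induction m with
  | zero => simp
  | succ m ih =>
    rw [Nat.choose_succ_succ' m 1, Nat.choose_one_right]
    nlinarith

/-- exponent of `b` -/
def eb (m M : ℕ) : ℕ := m * m + M * M + 2 * (m + M) + 1

/-- exponent of `1 / r` -/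
def er (m M : ℕ) : ℕ := (m + M) * (m + M) + 4 * (m + M) + 2

/-- the prefactor at rows `0` -/
theorem Pf_zero2 (z : ℂ) (m M : ℕ) : Pf z (fun _ : Fin m => (0 : ℂ)) (fun _ : Fin M => (0 : ℂ)) =
    (3 / 2) ^ (m + M + 1) * sin l * (((sin l * Lp z 0) ^ m * (bb ^ 2) ^ m.choose 2) *
      ((sin l * Lp z 0) ^ M * (bb ^ 2) ^ M.choose 2)) /
      (((rh 0 ^ 2) ^ m.choose 2 * (rh z ^ 2) ^ m) * ((rh 0 ^ 2) ^ M.choose 2 * (rh z ^ 2) ^ M) *
        ((rh 0 ^ 2) ^ M) ^ m * rh 0) := by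
  unfold Pf Nu D1 D2
  simp only [sub_self, sub_zero, Fp_zero, P_const, Finset.prod_const, Finset.card_univ, Fintype.card_fin]

/-- algebra of the exponents -/
theorem alg2 {a b r rz L : ℂ} (X X' : ℂ) {m M q q' : ℕ} (hm : m * m = 2 * q + m) (hM : M * M = 2 * q' + M)
    (hr : r ≠ 0) (hL : L ≠ 0) (hz : rz ≠ 0) (ha : a = 2 / 3 * (b / r)) :
    (3 / 2) ^ (m + M + 1) * a * (((a * L) ^ m * (b ^ 2) ^ q) * ((a * L) ^ M * (b ^ 2) ^ q')) /
      (((r ^ 2) ^ q * (rz ^ 2) ^ m) * ((r ^ 2) ^ q' * (rz ^ 2) ^ M) * ((r ^ 2) ^ M) ^ m * r) *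
        ((b / r ^ 2) ^ 2 * X * (rz ^ 2 / L)) ^ m * ((b / r ^ 2) ^ 2 * X' * (rz ^ 2 / L)) ^ M =
      b ^ eb m M * r⁻¹ ^ er m M * (X ^ m * X' ^ M) := by
  have e2 : (3 / 2 : ℂ) * a = b * r⁻¹ := by
    rw [ha]
    field_simp
  have e1 : (3 / 2 : ℂ) ^ (m + M + 1) * a * (((a * L) ^ m * (b ^ 2) ^ q) * ((a * L) ^ M * (b ^ 2) ^ q')) =
      (3 / 2 * a) ^ (m + M + 1) * (L ^ (m + M) * b ^ (2 * q + 2 * q')) := by
    rw [mul_pow (3 / 2 : ℂ) a]
    ring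
  have h1 : L ^ (m + M) * L⁻¹ ^ (m + M) = 1 := by
    rw [← mul_pow, mul_inv_cancel₀ hL, one_pow]
  have h2 : rz⁻¹ ^ (2 * (m + M)) * rz ^ (2 * (m + M)) = 1 := by
    rw [← mul_pow, inv_mul_cancel₀ hz, one_pow]
  have e3 : (((r ^ 2) ^ q * (rz ^ 2) ^ m) * ((r ^ 2) ^ q' * (rz ^ 2) ^ M) * ((r ^ 2) ^ M) ^ m * r)⁻¹ =
      r⁻¹ ^ (2 * q + 2 * q' + 2 * M * m + 1) * rz⁻¹ ^ (2 * (m + M)) := by
    have : ((r ^ 2) ^ q * (rz ^ 2) ^ m) * ((r ^ 2) ^ q' * (rz ^ 2) ^ M) * ((r ^ 2) ^ M) ^ m * r =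
        r ^ (2 * q + 2 * q' + 2 * M * m + 1) * rz ^ (2 * (m + M)) := by ring
    rw [this, mul_inv, inv_pow, inv_pow]
  have e4 : ((b / r ^ 2) ^ 2 * X * (rz ^ 2 / L)) ^ m * ((b / r ^ 2) ^ 2 * X' * (rz ^ 2 / L)) ^ M =
      b ^ (2 * (m + M)) * r⁻¹ ^ (4 * (m + M)) * (X ^ m * X' ^ M) *
        (rz ^ (2 * (m + M)) * L⁻¹ ^ (m + M)) := by
    rw [div_eq_mul_inv, div_eq_mul_inv, ← inv_pow]
    ring
  have hb : eb m M = (m + M + 1) + (2 * q + 2 * q') + 2 * (m + M) := by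
    unfold eb
    omega
  have hr' : er m M = (m + M + 1) + (2 * q + 2 * q' + 2 * M * m + 1) + 4 * (m + M) := by
    unfold er
    have : (m + M) * (m + M) = m * m + M * M + 2 * M * m := by ring
    rw [this, hm, hM]
    ring
  rw [mul_assoc, e4, e1, e2, div_eq_mul_inv, e3, hb, hr']
  calc (b * r⁻¹) ^ (m + M + 1) * (L ^ (m + M) * b ^ (2 * q + 2 * q')) *
        (r⁻¹ ^ (2 * q + 2 * q' + 2 * M * m + 1) * rz⁻¹ ^ (2 * (m + M))) *
        (b ^ (2 * (m + M)) * r⁻¹ ^ (4 * (m + M)) * (X ^ m * X' ^ M) *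
          (rz ^ (2 * (m + M)) * L⁻¹ ^ (m + M)))
      = (L ^ (m + M) * L⁻¹ ^ (m + M)) * (rz⁻¹ ^ (2 * (m + M)) * rz ^ (2 * (m + M))) *
          (b ^ ((m + M + 1) + (2 * q + 2 * q') + 2 * (m + M)) *
            r⁻¹ ^ ((m + M + 1) + (2 * q + 2 * q' + 2 * M * m + 1) + 4 * (m + M)) * (X ^ m * X' ^ M)) := by
        rw [mul_pow b r⁻¹]
        ring
    _ = _ := by rw [h1, h2, one_mul, one_mul]

theorem sinl_rel : sin (l : ℂ) = 2 / 3 * (bb / rh 0) := by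
  have hr := rh0_ne
  field_simp
  linear_combination rel

/-- **the prefactor of the dislocated function against the mean field** -/
theorem Pf_EX {z w w' : ℂ} (hz : rh z ≠ 0) (h2 : sin (z + 2 * l) ≠ 0) (h3 : sin (z + 3 * l) ≠ 0)
    (m M : ℕ) :
    Pf z (fun _ : Fin m => (0 : ℂ)) (fun _ : Fin M => (0 : ℂ)) * (EX z w w')⁻¹ ^ m * (EX z w' w)⁻¹ ^ M =
      bb ^ eb m M * (rh 0)⁻¹ ^ er m M *
        ((sin (w' + 3 * l) / sin w) ^ m * (sin (w + 3 * l) / sin w') ^ M) := by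
  have hEX : ∀ w w' : ℂ, (EX z w w')⁻¹ = (bb / rh 0 ^ 2) ^ 2 * (sin (w' + 3 * l) / sin w) *
      (rh z ^ 2 / (sin (z + 2 * l) * sin (z + 3 * l))) := by
    intro w w'
    unfold EX PBTRat.bb
    rw [mul_inv, mul_inv, ← inv_pow, inv_div, inv_div, inv_div]
    rfl
  rw [Pf_zero2, hEX, hEX, Lp_zero]
  exact alg2 _ _ (two_choose m) (two_choose M) rh0_ne (mul_ne_zero h2 h3) hz sinl_rel

/-- the bulk term of `N` rows -/
def bulkN (N : ℕ) : ℂ := (2 * rh 0) ^ (N * (N - 1)) * (2 / 3) ^ N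

theorem bulkN_two (m : ℕ) : bulkN (2 * (m + 1)) = bulkT m := rfl

/-- the prefactor of the regular function at rows `0`, ends `0`, one group -/
theorem Bp_zero (m : ℕ) : Bp 0 0 (fun _ : Fin m => (0 : ℂ)) = sin (l : ℂ) ^ m * (bb ^ 2) ^ (m + m.choose 2) := by
  unfold NUP1.Leg.Bp
  simp only [PBVR.EX_zero, sub_self, PBVR.FF_zero, Finset.prod_const, Finset.card_univ, Fintype.card_fin]
  rw [P_const, kap0_eq]
  ring

/-- **the prefactor of the regular function over the bulk term** -/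
theorem reg_pre2 (m M : ℕ) : (2 : ℂ) ^ ((m + M + 2) * (m + M + 2 - 1)) *
    (sin l * (Bp 0 0 (fun _ : Fin m => (0 : ℂ)) * Bp 0 0 (fun _ : Fin M => (0 : ℂ)))) / bulkN (m + M + 2) =
      3 / 2 / rh 0 * (bb ^ eb m M * (rh 0)⁻¹ ^ er m M) := by
  have hr := rh0_ne
  have hb := bb_ne
  have hrel : 3 / 2 * sin (l : ℂ) = bb * (rh 0)⁻¹ := by
    field_simp
    linear_combination rel
  have hm := two_choose m
  have hM := two_choose M
  rw [Bp_zero, Bp_zero]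
  unfold bulkN
  set q := m.choose 2
  set q' := M.choose 2
  have hE : (m + M + 2) * (m + M + 2 - 1) = 2 * q + 2 * q' + 2 * M * m + 4 * (m + M) + 2 := by
    have h1 : m + M + 2 - 1 = m + M + 1 := by omega
    have h2 : (m + M + 2) * (m + M + 1) = m * m + M * M + 2 * M * m + 3 * (m + M) + 2 := by ring
    rw [h1, h2, hm, hM]
    ring
  have h2 : (2 : ℂ) ^ (2 * q + 2 * q' + 2 * M * m + 4 * (m + M) + 2) *
      (2 : ℂ)⁻¹ ^ (2 * q + 2 * q' + 2 * M * m + 4 * (m + M) + 2) = 1 := by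
    rw [← mul_pow]; norm_num
  have h3 : ((2 / 3 : ℂ) ^ (m + M + 2))⁻¹ = (3 / 2) ^ (m + M + 1) * (3 / 2) := by
    rw [← inv_pow, ← pow_succ]
    norm_num
  have hb' : eb m M = (m + M + 1) + (2 * (m + q) + 2 * (M + q')) := by
    unfold eb
    omega
  have hr' : er m M + 1 = (m + M + 1) + (2 * q + 2 * q' + 2 * M * m + 4 * (m + M) + 2) := by
    unfold er
    have : (m + M) * (m + M) = m * m + M * M + 2 * M * m := by ring
    rw [this, hm, hM]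
    ring
  rw [hE, mul_pow (2 : ℂ) (rh 0), div_eq_mul_inv, mul_inv, mul_inv, h3, ← inv_pow, ← inv_pow (rh 0)]
  calc (2 : ℂ) ^ (2 * q + 2 * q' + 2 * M * m + 4 * (m + M) + 2) *
        (sin l * (sin l ^ m * (bb ^ 2) ^ (m + q) * (sin l ^ M * (bb ^ 2) ^ (M + q')))) *
        ((2 : ℂ)⁻¹ ^ (2 * q + 2 * q' + 2 * M * m + 4 * (m + M) + 2) *
          (rh 0)⁻¹ ^ (2 * q + 2 * q' + 2 * M * m + 4 * (m + M) + 2) * ((3 / 2) ^ (m + M + 1) * (3 / 2)))
      = ((2 : ℂ) ^ (2 * q + 2 * q' + 2 * M * m + 4 * (m + M) + 2) *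
          (2 : ℂ)⁻¹ ^ (2 * q + 2 * q' + 2 * M * m + 4 * (m + M) + 2)) *
        (3 / 2 * ((3 / 2 * sin l) ^ (m + M + 1) * bb ^ (2 * (m + q) + 2 * (M + q')) *
          (rh 0)⁻¹ ^ (2 * q + 2 * q' + 2 * M * m + 4 * (m + M) + 2))) := by
        rw [mul_pow (3 / 2 : ℂ) (sin l)]
        ring
    _ = 3 / 2 * (bb ^ ((m + M + 1) + (2 * (m + q) + 2 * (M + q'))) *
          (rh 0)⁻¹ ^ ((m + M + 1) + (2 * q + 2 * q' + 2 * M * m + 4 * (m + M) + 2))) := by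
        rw [h2, one_mul, hrel, mul_pow bb]
        ring
    _ = 3 / 2 / rh 0 * (bb ^ eb m M * (rh 0)⁻¹ ^ er m M) := by
        rw [← hb', ← hr', pow_succ, div_eq_mul_inv (3 / 2 : ℂ) (rh 0)]
        ring

/-- the kernel of a half quantum with `m` rows of its own group, `M` rows of the other one, all at `0`
(`kfX m m = PBX.kf0 m`) -/
def kfX (m M : ℕ) (w : ℂ) : ℂ := kap w * sin (w + 3 * l) * (sin (w + 3 * l) ^ M / sin w ^ m)

theorem kfX_self (m : ℕ) (w : ℂ) : kfX m m w = PBX.kf0 m w := by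
  unfold kfX PBX.kf0
  rw [div_pow]

/-- **(h4) on a ray, exactly**: prefactor of the regular function over the bulk term = `3 / 2 / rh 0` times the
kernel of the two half quanta times (prefactor of the dislocated function / mean field) -/
theorem ratio2 {z w w' : ℂ} (hz : rh z ≠ 0) (h2 : sin (z + 2 * l) ≠ 0) (h3 : sin (z + 3 * l) ≠ 0)
    (m M : ℕ) :
    (2 : ℂ) ^ ((m + M + 2) * (m + M + 2 - 1)) *
      (sin l * (Bp 0 0 (fun _ : Fin m => (0 : ℂ)) * Bp 0 0 (fun _ : Fin M => (0 : ℂ)))) /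
        bulkN (m + M + 2) * (kfX m M w * kfX M m w' * Dk (w - w')) =
      3 / 2 / rh 0 * (kap w * kap w' * sin (w + 3 * l) * sin (w' + 3 * l) * Dk (w - w')) *
        (Pf z (fun _ : Fin m => (0 : ℂ)) (fun _ : Fin M => (0 : ℂ)) * (EX z w w')⁻¹ ^ m *
          (EX z w' w)⁻¹ ^ M) := by
  rw [reg_pre2, Pf_EX hz h2 h3]
  unfold kfX
  rw [div_pow, div_pow]
  ring

/-- the domain of `ratio2` at the heights `τ` of the half quanta -/
theorem zt_dom (τ : ℝ × ℝ) : rh (PBT3.zt τ) ≠ 0 ∧ sin (PBT3.zt τ + 2 * l) ≠ 0 ∧ sin (PBT3.zt τ + 3 * l) ≠ 0 := by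
  have hl := PBR.l_pos'
  have hz := PBT3.zt_re τ
  have hre : ∀ k : ℝ, (PBT3.zt τ + (k : ℂ) * l).re = k * l - l / 4 := by
    intro k
    rw [Complex.add_re, hz]
    simp
    ring
  have hs : ∀ k : ℝ, 1 / 4 < k → k < 8 → sin (PBT3.zt τ + (k : ℂ) * l) ≠ 0 := by
    intro k hk hk'
    have h1 : Real.sin (PBT3.zt τ + (k : ℂ) * l).re ≠ 0 := by
      rw [hre]
      exact NURow.sin_ne_pos (by nlinarith) (by nlinarith)
    intro h0
    have h2 := PBR.norm_sin_ge (PBT3.zt τ + (k : ℂ) * l)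
    rw [h0, norm_zero] at h2
    have h3 : 0 < |Real.sin (PBT3.zt τ + (k : ℂ) * l).re| / 2 *
        Real.exp |(PBT3.zt τ + (k : ℂ) * l).im| := by
      have := abs_pos.2 h1
      positivity
    linarith
  have h2 := hs 2 (by norm_num) (by norm_num)
  have h3 := hs 3 (by norm_num) (by norm_num)
  push_cast at h2 h3
  refine ⟨PBR.rh_ne_zero ?_, h2, h3⟩
  rw [hz, abs_lt]
  constructor <;> nlinarith

/-- `ratio2` at the heights `τ` of the half quanta -/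
theorem ratio2_wt (τ : ℝ × ℝ) (m M : ℕ) :
    (2 : ℂ) ^ ((m + M + 2) * (m + M + 2 - 1)) *
      (sin l * (Bp 0 0 (fun _ : Fin m => (0 : ℂ)) * Bp 0 0 (fun _ : Fin M => (0 : ℂ)))) /
        bulkN (m + M + 2) * (kfX m M (PBT3.wt τ.1) * kfX M m (PBT3.wt τ.2) *
          Dk (PBT3.wt τ.1 - PBT3.wt τ.2)) =
      3 / 2 / rh 0 * PBT3.k1T τ *
        (Pf (PBT3.zt τ) (fun _ : Fin m => (0 : ℂ)) (fun _ : Fin M => (0 : ℂ)) *
          (EX (PBT3.zt τ) (PBT3.wt τ.1) (PBT3.wt τ.2))⁻¹ ^ m *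
            (EX (PBT3.zt τ) (PBT3.wt τ.2) (PBT3.wt τ.1))⁻¹ ^ M) := by
  obtain ⟨h1, h2, h3⟩ := zt_dom τ
  exact ratio2 h1 h2 h3 m M

end Pool.Agent.PLX

end
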