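import Pool.Agent.PLX.ExU
import Pool.Agent.PLX.PB.ClsFF
import Pool.Agent.PLX.PB.OneD
import Pool.Agent.NURow.ConvL

/-!
# PLAX: the state sums of groups of sizes `(m, M)` as sums over the classes

* `DZU_cls` : `DZU = ZobjQ (XXU ..)`, any cutoffs, `n' + m = n + M + q`;
* `decZ_XXU` : decay of the class functions on the final lines, total charge `Q = n - n'`;
* **`DZU_FF`** : `DZU` is the functional `FF` of the class functions, every family of admissible curves.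
-/

set_option autoImplicit false
set_option linter.unusedSectionVars false
set_option linter.unusedVariables false

noncomputable section

open Complex MeasureTheory

namespace Pool.Agent.PLX

open NUO NUP1 NUP1S NUP1.Bd NURow
open NUP1.N (Z3 Gr0)
open PBX (Rws ph GOk KK K1_KK)
open PBC.PLX (DecZ)
open NUGC.PLX (ParC)

variable {m M : ℕ}

/-- **The class formula on straight lines**, any cutoffs `g` (quanta) and `g0` (strings). -/
theorem DZU_cls {c c' : ℂ} {s t : ℂ → ℂ} {x : Fin m → ℂ} {y : Fin M → ℂ} {β q : ℝ} (hβ : 0 < β)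
    (hβ' : β ≤ 4 / 3) (hx : Rws x) (hy : Rws y)
    {g g' g0 g0' s2 t2 : ℂ → ℂ} (hg : GOk β g) (hg' : GOk β g') (hg0 : GOk (4 / 3) g0)
    (hg0' : GOk (4 / 3) g0') (hs : SpU q s) (ht : SpU (-q) t) (hs2 : SpecQ true (-q) s s2)
    (ht2 : SpecQ false (-q) t t2) {n n' : ℕ} (hn : (n' : ℝ) + m = n + M + q)
    (lnX : ∀ p p' : ℕ, (Fin p → O3) → (Fin p' → O3) → Fin p → ℝ)
    (lnY : ∀ p p' : ℕ, (Fin p → O3) → (Fin p' → O3) → Fin p' → ℝ)
    (hlX : ∀ p p' k k' i, lnX p p' k k' i ∈ Set.Icc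
      (lo4 (3 / 5 * l) (-(17 / 10 * l)) (-(13 / 10 * l)) (-(7 / 10 * l)) (some (k i)))
      (lo4 (3 / 5 * l) (-(5 / 4 * l)) (-(7 / 10 * l)) (-(l / 2)) (some (k i))))
    (hlY : ∀ p p' k k' i, lnY p p' k k' i ∈ Set.Icc
      (lo4 (3 / 5 * l) (-(17 / 10 * l)) (-(13 / 10 * l)) (-(7 / 10 * l)) (some (k' i)))
      (lo4 (3 / 5 * l) (-(5 / 4 * l)) (-(7 / 10 * l)) (-(l / 2)) (some (k' i)))) :
    DZU c c' s t x y n n' =
      ZobjQ (XXU c β x y g g0 s s2) (XXU c' β y x g' g0' t t2) (3 / 5 * l) n n' lnX lnY := by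
  rw [DZU_GU hβ hβ' hx hy hg hg' hs ht hn, ← GXU_eq_GU, ← GXU_eq_GU]
  exact stageXU hβ hβ' hx hy hg hg0 hg' hg0' n n' hn hs2 ht2 lnX lnY hlX hlY

/-- **decay of the class functions on the final lines**, sizes `N a`, spectators of charge `Q'`,
total charge `Q = Q' - (N false - N true)` -/
theorem decZ_XXU {P : NUO.Par} (hP : ParC P) {c : Bool → ℂ} {β Q Q' : ℝ} (hβ : 0 < β)
    (hβ' : β ≤ 4 / 3) {N : Bool → ℕ} {ro : ∀ a, Fin (N a) → ℂ} (hr : ∀ a, Rws (ro a))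
    {g g0 : Bool → ℂ → ℂ} (hg : ∀ a, GOk β (g a)) (hg0 : ∀ a, GOk (4 / 3) (g0 a))
    {s1 s2 : Bool → ℂ → ℂ} (h : ∀ a, SpecQ a Q' (s1 a) (s2 a))
    (hQ : Q = Q' - ((N false : ℝ) - N true)) :
    DecZ (fun a => XXU (c a) β (ro a) (ro (!a)) (g a) (g0 a) (s1 a) (s2 a)) P (3 / 5 * l)
      (2 * β) Q := by
  have hl := Bd.l_pos
  have hQa : ∀ a : Bool, Q * sc (a, .A) = Q' * sc (a, .A) - ((N (!a) : ℝ) - N a) := by
    rintro (_ | _)
    · have e : sc (false, .A) = -1 := by simp [sc, Bd.chg]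
      rw [e, hQ]
      show _ = _ - ((N true : ℝ) - N false)
      ring
    · have e : sc (true, .A) = 1 := by simp [sc, Bd.chg]
      rw [e, hQ]
      show _ = _ - ((N false : ℝ) - N true)
      ring
  have hD := fun a => (dataXU (c := c a) hβ hβ' (hr a) (hr (!a)) (hg a) (hg0 a) (h a)
    (hQa a)).dec
  have j1 := hP.j1
  have j2 := hP.j2
  refine ⟨fun a => ?_, fun a => ?_, fun a => ?_, fun a r i hi => ?_⟩
  · refine DecOn_of (Bdd.mono_set (bdd_GXU (c := c a) hβ hβ' (hr a) (hr (!a)) (hg a) (h a)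
      (hQa a)) ?_) (by linarith)
    rintro y ⟨h1, h2⟩
    exact Or.inl ⟨h1, by linarith⟩
  · refine DecOn.mono (hD a (some .L)) ?_
    rw [Set.singleton_subset_iff]
    constructor
    · show -(17 / 10 * l) ≤ (1 - P.jL) * l
      nlinarith
    · show (1 - P.jL) * l ≤ -(5 / 4 * l)
      nlinarith
  · refine DecOn.mono (hD a (some .T)) ?_
    rw [Set.singleton_subset_iff]
    constructor
    · show -(7 / 10 * l) ≤ -(1 / 2 * l)
      linarith
    · show -(1 / 2 * l) ≤ -(l / 2)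
      linarith
  · refine DecOn.mono (hD a (some .S)) ?_
    rw [Set.singleton_subset_iff]
    have h3 := hP.e2 r
    have h4 := hP.d0 r
    exact lnO_memL hP.goodP j1 j2 (by linarith) hi .S

/-- **the state sum with `n`, `n'` quanta is the functional**, sizes `N a`, rows `ro a`, spectators of
charge `q`, every family of admissible curves -/
theorem DZU_FF [_root_.PLX.Fil] {P : NUO.Par} {ep β : ℝ} (hP : ParC P)
    (hρ : ∀ r, ∃ ρ0, 0 < ρ0 ∧ ∀ t, ρ0 ≤ P.rad r t)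
    (hep0 : 0 < ep) (hep : ep ≤ 1 / 100) (hβ : 0 < β) (hβ' : β ≤ 4 / 3)
    {N : Bool → ℕ} {ro : ∀ a, Fin (N a) → ℂ} (hr : ∀ a, Rws (ro a)) {ex ex0 : Bool → List ℂ}
    (hex : ∀ a, ∀ w ∈ ex a, |w.re| ≤ l / 2) (hex0 : ∀ a, ∀ w ∈ ex0 a, |w.re| ≤ l / 2)
    {c : Bool → ℂ} {c0 : ℝ} (hc : ∀ a, ‖c a‖ = c0) {q : ℤ}
    {s1 s2 : Bool → ℂ → ℂ} (hT : SpU (q : ℝ) (s1 true)) (hF : SpU (-(q : ℝ)) (s1 false))
    (hQ : ∀ a, SpecQ a ((-q : ℤ) : ℝ) (s1 a) (s2 a))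
    (hAt : ∀ a, NUGC.PLX.SpecAt (3 / 5 * l) a ((-q : ℤ) : ℝ) (s1 a)) {E : Set ℝ}
    (hE : volume E = 0) (hS : ∀ a, NUGC.PLX.SpecS P E (s1 a) (s2 a)) {n n' : ℕ}
    (hn : (n' : ℤ) + N true = n + N false + q) {η η' : PBF.PLX.Crs}
    (hη : ∀ r ≤ n + n', ∀ᵐ O ∂(Measure.pi fun _ : Fin r => NUO.nu),
      NUCR.CurB ep (η r O) (η' r O)) :
    DZU (c true) (c false) (s1 true) (s1 false) (ro true) (ro false) n n' =
      PBF.PLX.FF (fun a => XXU (c a) β (ro a) (ro (!a)) (PBX.gP β (ex a)) (PBX.gP (4 / 3) (ex0 a))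
        (s1 a) (s2 a)) P n n' η η' (fun _ _ _ _ _ => 1) := by
  have hl := Bd.l_pos
  have L : LnH (lX P) (lY P) := LnH_P hP.goodP hP.j1 hP.j2 fun r => by
    have h3 := hP.e2 r
    have h4 := hP.d0 r
    linarith
  have hg := fun a => GOk.gP hβ hβ' (hex a)
  have hg0 := fun a => GOk.gP (β := 4 / 3) (by norm_num) le_rfl (hex0 a)
  have hn' : (n' : ℝ) + N true = n + N false + (q : ℝ) := by exact_mod_cast hn
  have eQ : (((-q : ℤ) : ℝ)) = -(q : ℝ) := by push_cast; ring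
  have h := DZU_cls (c := c true) (c' := c false) (s := s1 true) (t := s1 false) hβ hβ' (hr true)
    (hr false) (g := PBX.gP β (ex true)) (g' := PBX.gP β (ex false)) (g0 := PBX.gP (4 / 3) (ex0 true))
    (g0' := PBX.gP (4 / 3) (ex0 false)) (hg true) (hg false) (hg0 true) (hg0 false) hT hF
    (by rw [← eQ]; exact hQ true) (by rw [← eQ]; exact hQ false) hn' (lX P) (lY P) L.hX L.hY
  rw [h]
  have hO := PBX.PLX.oneC_XXU (P := P) (ep := ep) (β := β) (x0 := 3 / 5 * l) (q := -q) (E := E)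
    (c := c) (s1 := s1) (s2 := s2) le_rfl (by linarith) hP hep0 hep hβ hβ' hr hex ex0 hc
    (fun a => (hQ a).m1) (fun a => (hQ a).m2) hAt hS hE
  have hD : DecZ (fun a => XXU (c a) β (ro a) (ro (!a)) (PBX.gP β (ex a)) (PBX.gP (4 / 3) (ex0 a))
      (s1 a) (s2 a)) P (3 / 5 * l) (2 * β) ((-q + N true - N false : ℤ) : ℝ) :=
    decZ_XXU hP hβ hβ' hr hg hg0 hQ (by push_cast; ring)
  exact PBC.PLX.FF_oneC (Z := fun a => XXU (c a) β (ro a) (ro (!a)) (PBX.gP β (ex a))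
    (PBX.gP (4 / 3) (ex0 a)) (s1 a) (s2 a)) hO
    hP.goodQ hep0 hep (by linarith [hP.j2]) hP.rm (by positivity) hρ hD (by linarith) hη

end Pool.Agent.PLX

end
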