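import Pool.Agent.PLX.RgF
import Pool.Agent.PLX.ExU
import Pool.Agent.PB.Reg2

/-!
# PLAX, exact layer: one body functions of the classes, groups of sizes `(m, M)` (the layer of PB.Reg1)

`RU.X`, `RU.Y` : one body functions of the four kinds (the ends are a spectator of `XXU`); `RU.KF`, `RU.KP` : prefactors of
a half quantum; `RU.stX` : stage 2 for one class, numbers `n`, `n'`; `RU.rxWW` .. : the spectators in the form of the
classes.
-/

set_option autoImplicit false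
set_option linter.unusedSectionVars false
set_option linter.unusedVariables false

noncomputable section

open Complex MeasureTheory

namespace Pool.Agent.PLX

open NUP1 NUP1S NUP1.Bd NURow PBX
open NUP1.N (Z3 Gr0 GXs GYs ZP ZP' ZPP prc pr1 rA rB)
open NUP1.Leg (hE hr thE cc Ck Dk)

section

variable {m M : ℕ} (D : RU m M)

/-- one body functions of `X` with spectators -/
def RU.Xs (s1 s2 : ℂ → ℂ) : Option O3 → ℂ → ℂ :=
  XXU D.c D.β D.x D.y D.g D.g0 (fun u => thE D.p D.p D.q D.q u * s1 u)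
    (fun w => thS D.p D.p D.q D.q w * s2 w)

/-- one body functions of `Y` with spectators -/
def RU.Ys (s1 s2 : ℂ → ℂ) : Option O3 → ℂ → ℂ :=
  XXU D.c' D.β D.y D.x D.g' D.g0' (fun u => thE D.q D.q D.p D.p u * s1 u)
    (fun w => thS D.q D.q D.p D.p w * s2 w)

/-- **one body functions of `X`** -/
def RU.X : Option O3 → ℂ → ℂ :=
  XXU D.c D.β D.x D.y D.g D.g0 (thE D.p D.p D.q D.q) (thS D.p D.p D.q D.q)

/-- **one body functions of `Y`** -/
def RU.Y : Option O3 → ℂ → ℂ :=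
  XXU D.c' D.β D.y D.x D.g' D.g0' (thE D.q D.q D.p D.p) (thS D.q D.q D.p D.p)

theorem RU.sw_X : D.sw.X = D.Y := rfl

theorem RU.sw_Y : D.sw.Y = D.X := rfl

/-- **prefactor of the half quantum of species X** -/
def RU.KF (w : ℂ) : ℂ := pr1 D.p D.q D.x D.y w

/-- **prefactor of the half quantum of species Y** -/
def RU.KF' (w : ℂ) : ℂ := pr1 D.q D.p D.y D.x w

/-- the half quantum X with a captured quantum Y -/
def RU.KP (w : ℂ) : ℂ := sin l / sin (2 * l) * (D.KF w * D.Y none (w + 3 * l))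

/-- the half quantum Y with a captured quantum X -/
def RU.KP' (w : ℂ) : ℂ := sin l / sin (2 * l) * (D.KF' w * D.X none (w + 3 * l))

/-- class D1, `w = w' + 3 l` -/
def RU.XD (w : ℂ) : ℂ := NUP1.N.XD D.p D.q D.y w

/-- class D1, `w' = w + 3 l` -/
def RU.XD' (w : ℂ) : ℂ := NUP1.N.XD D.q D.p D.x w

theorem Gr0_hX (u : ℂ) : Gr0 D.hX D.x u = D.X none u := by
  show _ = RRU D.c D.x D.y u * ph D.β D.x D.g u * thE D.p D.p D.q D.q u
  unfold Gr0 RU.hX hE RRU hr
  ring

theorem Gr0_hY (u : ℂ) : Gr0 D.hY D.y u = D.Y none u := by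
  show _ = RRU D.c' D.y D.x u * ph D.β D.y D.g' u * thE D.q D.q D.p D.p u
  unfold Gr0 RU.hY hE RRU hr
  ring

/-! ## spectators -/

theorem XXU_XS (b : Bool) (c : ℂ) (β : ℝ) (x : Fin m → ℂ) (y : Fin M → ℂ) (g g0 e1 e2 : ℂ → ℂ) {S S' : Sp}
    (hL : S b (some .L) = S b none) (hT : S b (some .T) = S b (some .S))
    (hL' : S' b (some .L) = S' b none) (hT' : S' b (some .T) = S' b (some .S)) (w w' : ℂ) :
    XXU c β x y g g0 (fun u => e1 u * (S b none (w - u) * S' b none (w' - u)))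
      (fun u => e2 u * (S b (some .S) (w - u) * S' b (some .S) (w' - u))) =
    XS b (XXU c β x y g g0 e1 e2) S S' w w' := by
  funext k z
  unfold XS
  rcases k with _ | (_ | _ | _)
  · simp only [XXU]
    ring
  · simp only [XXU, hL, hL']
    ring
  · simp only [XXU]
    ring
  · simp only [XXU, hT, hT']
    ring

/-- the same with one half quantum -/
theorem XXU_XS1 (b : Bool) (c : ℂ) (β : ℝ) (x : Fin m → ℂ) (y : Fin M → ℂ) (g g0 e1 e2 : ℂ → ℂ) {S : Sp}
    (hL : S b (some .L) = S b none) (hT : S b (some .T) = S b (some .S)) (w : ℂ) :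
    XXU c β x y g g0 (fun u => e1 u * S b none (w - u)) (fun u => e2 u * S b (some .S) (w - u)) =
    XS b (XXU c β x y g g0 e1 e2) S (fun _ _ _ => 1) w 0 := by
  funext k z
  unfold XS
  rcases k with _ | (_ | _ | _)
  · simp only [XXU]
    ring
  · simp only [XXU, hL]
    ring
  · simp only [XXU]
    ring
  · simp only [XXU, hT]
    ring

end

/-! ## stage 2 for one class -/

section conv

variable {m M : ℕ} {D : RU m M} (H : D.Ok)
  {lnX : ∀ p p' : ℕ, (Fin p → O3) → (Fin p' → O3) → Fin p → ℝ}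
  {lnY : ∀ p p' : ℕ, (Fin p → O3) → (Fin p' → O3) → Fin p' → ℝ} (L : LnH lnX lnY)
  {w w' : ℂ} {s1 s2 t1 t2 : ℂ → ℂ}
include H L

/-- **Stage 2 for one class**: numbers `n`, `n'`, charge `q = n' + m - (n + M)` -/
theorem stX (n n' : ℕ) {q : ℝ} (hn : (n' : ℝ) + m = n + M + q) (hX : SpecQ true (-q) s1 s2)
    (hY : SpecQ false (-q) t1 t2) {f k : ℂ → ℂ}
    (hf : ∀ u, f u = Gr0 D.hX D.x u * s1 u) (hk : ∀ v, k v = Gr0 D.hY D.y v * t1 v) :
    Z3 (3 / 5 * l) (-(17 / 10) * l) n n' f k =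
      ZobjQ (D.Xs s1 s2) (D.Ys t1 t2) (3 / 5 * l) n n' lnX lnY := by
  have ef : f = GXU D.c D.β D.x D.y D.g (fun u => thE D.p D.p D.q D.q u * s1 u) := by
    funext u
    rw [hf, Gr0_hX]
    show RRU D.c D.x D.y u * ph D.β D.x D.g u * thE D.p D.p D.q D.q u * s1 u = _
    unfold GXU
    ring
  have ek : k = GXU D.c' D.β D.y D.x D.g' (fun u => thE D.q D.q D.p D.p u * t1 u) := by
    funext u
    rw [hk, Gr0_hY]
    show RRU D.c' D.y D.x u * ph D.β D.y D.g' u * thE D.q D.q D.p D.p u * t1 u = _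
    unfold GXU
    ring
  have h1 : SpecQ true (-q) (fun u => thE D.p D.p D.q D.q u * s1 u)
      (fun w => thS D.p D.p D.q D.q w * s2 w) := by
    have := specQ_mul (thE_SpecQ true (o := D.p) (r' := D.q) H.hp H.hq) hX
    simpa using this
  have h2 : SpecQ false (-q) (fun u => thE D.q D.q D.p D.p u * t1 u)
      (fun w => thS D.q D.q D.p D.p w * t2 w) := by
    have := specQ_mul (thE_SpecQ false (o := D.q) (r' := D.p) H.hq H.hp) hY
    simpa using this
  rw [ef, ek, neg_mul]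
  exact stageXU H.b0 H.b1 H.hx H.hy H.gg H.gg0 H.gg' H.gg0' n n' hn h1 h2 lnX lnY L.hX L.hY

variable {n n' : ℕ} (hn : n + M = n' + m)
include hn

omit H L in
theorem num0 : (n' : ℝ) + m = n + M + 0 := by
  have : ((n + M : ℕ) : ℝ) = ((n' + m : ℕ) : ℝ) := by rw [hn]
  push_cast at this
  linarith

omit H L in
theorem numP (h : 1 ≤ n') : ((n' - 1 : ℕ) : ℝ) + m = n + M + (-1) := by
  have := num0 hn
  rw [Nat.cast_sub h]
  push_cast
  linarith

omit H L in
theorem numP' (h : 1 ≤ n) : (n' : ℝ) + m = ((n - 1 : ℕ) : ℝ) + M + 1 := by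
  have := num0 hn
  rw [Nat.cast_sub h]
  push_cast
  linarith

omit H L in
theorem numPP (h : 1 ≤ n) (h' : 1 ≤ n') :
    ((n' - 1 : ℕ) : ℝ) + m = ((n - 1 : ℕ) : ℝ) + M + 0 := by
  have := num0 hn
  rw [Nat.cast_sub h, Nat.cast_sub h']
  push_cast
  linarith

/-- no captured quantum -/
theorem stX_WW (h : Pos w) (h' : Pos w') :
    Z3 (3 / 5 * l) (-(17 / 10) * l) n n' (GXs D.hX D.x w w') (GYs D.hY D.y w w') =
      ZobjQ (D.Xs (fun u => Ck (w - u) * Dk (w' - u)) (fun u => CC (w - u) * DD (w' - u)))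
        (D.Ys (fun v => Dk (w - v) * Ck (w' - v)) (fun v => DD (w - v) * CC (w' - v)))
        (3 / 5 * l) n n' lnX lnY := by
  refine stX H L n n' (num0 hn) ?_ ?_ (fun u => rfl) fun v => rfl
  · rw [neg_zero]
    exact specX_WW h h'
  · rw [neg_zero]
    exact specY_WW h h'

/-- a captured quantum of `Y` -/
theorem stX_P (h : w.re = -(11 / 4) * l) (h' : Pos w') :
    ZP (3 / 5 * l) (-(17 / 10) * l) D.x D.y D.hX D.hY n n' w w' =
      if 1 ≤ n' then
        ZobjQ (D.Xs (fun u => Ck (w - u) * Dk (w' - u) * qg (u - (w + 3 * l)))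
          (fun u => CC (w - u) * DD (w' - u) * QQ (u - (w + 3 * l))))
        (D.Ys (fun v => Ck (w' - v) * Ck (v - (w + 3 * l)))
          (fun v => CC (w' - v) * C2 (v - (w + 3 * l)))) (3 / 5 * l) n (n' - 1) lnX lnY
      else 0 := by
  unfold ZP
  by_cases h1 : 1 ≤ n'
  · rw [if_pos h1, if_pos h1]
    refine stX H L n (n' - 1) (numP hn h1) ?_ ?_ (fun u => ?_) fun v => ?_
    · rw [neg_neg]
      exact specX_P h h'
    · rw [neg_neg]
      exact specY_P h h'
    · ring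
    · ring
  · rw [if_neg h1, if_neg h1]

/-- a captured quantum of `X` -/
theorem stX_P' (h : Pos w) (h' : w'.re = -(11 / 4) * l) :
    ZP' (3 / 5 * l) (-(17 / 10) * l) D.x D.y D.hX D.hY n n' w w' =
      if 1 ≤ n then
        ZobjQ (D.Xs (fun u => Ck (w - u) * Ck (u - (w' + 3 * l)))
            (fun u => CC (w - u) * C2 (u - (w' + 3 * l))))
        (D.Ys (fun v => Dk (w - v) * Ck (w' - v) * qg (v - (w' + 3 * l)))
          (fun v => DD (w - v) * CC (w' - v) * QQ (v - (w' + 3 * l)))) (3 / 5 * l) (n - 1) n'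
          lnX lnY
      else 0 := by
  unfold ZP'
  by_cases h1 : 1 ≤ n
  · rw [if_pos h1, if_pos h1]
    refine stX H L (n - 1) n' (numP' hn h1) ?_ ?_ (fun u => ?_) fun v => ?_
    · exact specX_P' h h'
    · exact specY_P' h h'
    · ring
    · ring
  · rw [if_neg h1, if_neg h1]

/-- both captured quanta -/
theorem stX_PP (h : w.re = -(11 / 4) * l) (h' : w'.re = -(11 / 4) * l) :
    ZPP (3 / 5 * l) (-(17 / 10) * l) D.x D.y D.hX D.hY n n' w w' =
      if 1 ≤ n ∧ 1 ≤ n' then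
        ZobjQ (D.Xs
          (fun u => Ck (w - u) * qg (u - (w + 3 * l)) * Ck (u - (w' + 3 * l)))
          (fun u => CC (w - u) * QQ (u - (w + 3 * l)) * C2 (u - (w' + 3 * l))))
        (D.Ys
          (fun v => Ck (w' - v) * Ck (v - (w + 3 * l)) * qg (v - (w' + 3 * l)))
          (fun v => CC (w' - v) * C2 (v - (w + 3 * l)) * QQ (v - (w' + 3 * l)))) (3 / 5 * l)
          (n - 1) (n' - 1) lnX lnY
      else 0 := by
  unfold ZPP
  by_cases h1 : 1 ≤ n ∧ 1 ≤ n'
  · rw [if_pos h1, if_pos h1]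
    refine stX H L (n - 1) (n' - 1) (numPP hn h1.1 h1.2) ?_ ?_ (fun u => ?_) fun v => ?_
    · rw [neg_zero]
      exact specX_PP h h'
    · rw [neg_zero]
      exact specY_PP h h'
    · ring
    · ring
  · rw [if_neg h1, if_neg h1]

/-- captured pair seen by `Y` -/
theorem stX_D (h : w.re = -(11 / 4) * l) :
    Z3 (3 / 5 * l) (-(17 / 10) * l) n n' (Gr0 D.hX D.x) (fun v => Gr0 D.hY D.y v * Tk (w - v)) =
      ZobjQ (D.Xs (fun _ => 1) (fun _ => 1)) (D.Ys (fun v => Tk (w - v)) (fun v => TTk (w - v)))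
        (3 / 5 * l) n n' lnX lnY := by
  refine stX H L n n' (num0 hn) ?_ ?_ (fun u => (mul_one _).symm) fun v => rfl
  · rw [neg_zero]
    exact spec_one true
  · rw [neg_zero]
    exact spec_D false h

/-- captured pair seen by `X` -/
theorem stX_D' (h : w.re = -(11 / 4) * l) :
    Z3 (3 / 5 * l) (-(17 / 10) * l) n n' (fun u => Gr0 D.hX D.x u * Tk (w - u)) (Gr0 D.hY D.y) =
      ZobjQ (D.Xs (fun u => Tk (w - u)) (fun u => TTk (w - u))) (D.Ys (fun _ => 1) (fun _ => 1))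
        (3 / 5 * l) n n' lnX lnY := by
  refine stX H L n n' (num0 hn) ?_ ?_ (fun u => rfl) fun v => (mul_one _).symm
  · rw [neg_zero]
    exact spec_D true h
  · rw [neg_zero]
    exact spec_one false

end conv

/-! ## the spectators in the form of the classes -/

section specs

variable {m M : ℕ} (D : RU m M) (w w' : ℂ)

theorem rxWW : D.Xs (fun u => Ck (w - u) * Dk (w' - u)) (fun u => CC (w - u) * DD (w' - u)) =
    XS true D.X SF (fl SF) w w' :=
  XXU_XS true _ _ _ _ _ _ _ _ (S := SF) (S' := fl SF) rfl rfl rfl rfl w w'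

theorem ryWW : D.Ys (fun u => Dk (w - u) * Ck (w' - u)) (fun u => DD (w - u) * CC (w' - u)) =
    XS false D.Y SF (fl SF) w w' :=
  XXU_XS false _ _ _ _ _ _ _ _ (S := SF) (S' := fl SF) rfl rfl rfl rfl w w'

theorem rxP : D.Xs (fun u => Ck (w - u) * Dk (w' - u) * qg (u - (w + 3 * l)))
    (fun u => CC (w - u) * DD (w' - u) * QQ (u - (w + 3 * l))) =
    XS true D.X SP (fl SF) w w' := by
  refine Eq.trans ?_ (XXU_XS true _ _ _ _ _ _ _ _ (S := SP) (S' := fl SF) rfl rfl rfl rfl w w')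
  unfold RU.Xs
  congr 1 <;> funext u
  · show _ = _ * (Ck (w - u) * qg (w - u + 3 * l) * Dk (w' - u))
    beta_reduce
    rw [qg_c]
    ring
  · show _ = _ * (CC (w - u) * QQ (-(w - u) - 3 * l) * DD (w' - u))
    beta_reduce
    rw [QQ_c]
    ring

theorem ryP : D.Ys (fun v => Ck (w' - v) * Ck (v - (w + 3 * l)))
    (fun v => CC (w' - v) * C2 (v - (w + 3 * l))) =
    XS false D.Y SP (fl SF) w w' := by
  refine Eq.trans ?_ (XXU_XS false _ _ _ _ _ _ _ _ (S := SP) (S' := fl SF) rfl rfl rfl rfl w w')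
  unfold RU.Ys
  congr 1 <;> funext u
  · show _ = _ * (Ck (-(w - u) - 3 * l) * Ck (w' - u))
    beta_reduce
    rw [Ck_c]
    ring
  · show _ = _ * (C2 (-(w - u) - 3 * l) * CC (w' - u))
    beta_reduce
    rw [C2_c]
    ring

theorem rxP' : D.Xs (fun u => Ck (w - u) * Ck (u - (w' + 3 * l)))
    (fun u => CC (w - u) * C2 (u - (w' + 3 * l))) =
    XS true D.X SF (fl SP) w w' := by
  refine Eq.trans ?_ (XXU_XS true _ _ _ _ _ _ _ _ (S := SF) (S' := fl SP) rfl rfl rfl rfl w w')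
  unfold RU.Xs
  congr 1 <;> funext u
  · show _ = _ * (Ck (w - u) * Ck (-(w' - u) - 3 * l))
    beta_reduce
    rw [Ck_c]
  · show _ = _ * (CC (w - u) * C2 (-(w' - u) - 3 * l))
    beta_reduce
    rw [C2_c]

theorem ryP' : D.Ys (fun v => Dk (w - v) * Ck (w' - v) * qg (v - (w' + 3 * l)))
    (fun v => DD (w - v) * CC (w' - v) * QQ (v - (w' + 3 * l))) =
    XS false D.Y SF (fl SP) w w' := by
  refine Eq.trans ?_ (XXU_XS false _ _ _ _ _ _ _ _ (S := SF) (S' := fl SP) rfl rfl rfl rfl w w')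
  unfold RU.Ys
  congr 1 <;> funext u
  · show _ = _ * (Dk (w - u) * (Ck (w' - u) * qg (w' - u + 3 * l)))
    beta_reduce
    rw [qg_c]
    ring
  · show _ = _ * (DD (w - u) * (CC (w' - u) * QQ (-(w' - u) - 3 * l)))
    beta_reduce
    rw [QQ_c]
    ring

theorem rxPP : D.Xs
    (fun u => Ck (w - u) * qg (u - (w + 3 * l)) * Ck (u - (w' + 3 * l)))
    (fun u => CC (w - u) * QQ (u - (w + 3 * l)) * C2 (u - (w' + 3 * l))) =
    XS true D.X SP (fl SP) w w' := by
  refine Eq.trans ?_ (XXU_XS true _ _ _ _ _ _ _ _ (S := SP) (S' := fl SP) rfl rfl rfl rfl w w')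
  unfold RU.Xs
  congr 1 <;> funext u
  · show _ = _ * (Ck (w - u) * qg (w - u + 3 * l) * Ck (-(w' - u) - 3 * l))
    beta_reduce
    rw [qg_c, Ck_c]
  · show _ = _ * (CC (w - u) * QQ (-(w - u) - 3 * l) * C2 (-(w' - u) - 3 * l))
    beta_reduce
    rw [QQ_c, C2_c]

theorem ryPP : D.Ys
    (fun v => Ck (w' - v) * Ck (v - (w + 3 * l)) * qg (v - (w' + 3 * l)))
    (fun v => CC (w' - v) * C2 (v - (w + 3 * l)) * QQ (v - (w' + 3 * l))) =
    XS false D.Y SP (fl SP) w w' := by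
  refine Eq.trans ?_ (XXU_XS false _ _ _ _ _ _ _ _ (S := SP) (S' := fl SP) rfl rfl rfl rfl w w')
  unfold RU.Ys
  congr 1 <;> funext u
  · show _ = _ * (Ck (-(w - u) - 3 * l) * (Ck (w' - u) * qg (w' - u + 3 * l)))
    beta_reduce
    rw [qg_c, Ck_c]
    ring
  · show _ = _ * (C2 (-(w - u) - 3 * l) * (CC (w' - u) * QQ (-(w' - u) - 3 * l)))
    beta_reduce
    rw [QQ_c, C2_c]
    ring

theorem rxD : D.Xs (fun _ => 1) (fun _ => 1) = XS true D.X SD (fun _ _ _ => 1) w 0 :=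
  XXU_XS1 true _ _ _ _ _ _ _ _ (S := SD) rfl rfl w

theorem ryD : D.Ys (fun v => Tk (w - v)) (fun v => TTk (w - v)) =
    XS false D.Y SD (fun _ _ _ => 1) w 0 :=
  XXU_XS1 false _ _ _ _ _ _ _ _ (S := SD) rfl rfl w

theorem rxD' : D.Xs (fun v => Tk (w - v)) (fun v => TTk (w - v)) =
    XS true D.X (fl SD) (fun _ _ _ => 1) w 0 :=
  XXU_XS1 true _ _ _ _ _ _ _ _ (S := fl SD) rfl rfl w

theorem ryD' : D.Ys (fun _ => 1) (fun _ => 1) = XS false D.Y (fl SD) (fun _ _ _ => 1) w 0 :=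
  XXU_XS1 false _ _ _ _ _ _ _ _ (S := fl SD) rfl rfl w

end specs

end Pool.Agent.PLX

end
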