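import Pool.Agent.PB.RepE

/-!
# Plateau parts of a quadratic statistic, total charge of the words = charge of the sea (helper46)

`nuQI_charge` (`PB.RepE`, helper15) for words of any charge: the centred total charge is `0` because
the density has the same charge (two fillings: `n - n' = m - q m`).
-/

set_option autoImplicit false
set_option linter.unusedSectionVars false

noncomputable section

open Complex MeasureTheory Finset
open scoped Classical

namespace PBI

open NUP1 NUP1S NUP1.Bd NURow PB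

variable {D : Kd → Set ℂ} {ρ : Kd → ℝ → ℂ} {a : Kd → Kd → ℂ → ℂ → ℂ}

/-- **plateau parts**, charge of the word = charge of the density -/
theorem nuQI_chargeQ {xp xm : ℂ} {ξ sg : Kd → ℂ → ℂ} (he : ∀ b u, ρ b u ≠ 0 → vl l u ∈ D b)
    (hQ : NX.QID D (vl l) ρ a) (hρ : ∀ b, Integrable (ρ b))
    (hb : ∀ b, Integrable fun u => ρ b u * beK xp xm ξ sg b (vl l u))
    (hs : ∀ b, Integrable fun u => ρ b u * sgK sg b (vl l u)) {ι : Type} [Fintype ι] {c : ι → Kd}
    (hc : ((∑ i, sc (co (c i)) : ℝ) : ℂ) = ∑ b, ∫ u, ρ b u * (chK b * 1)) {z : ι → ℂ}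
    (hz : ∀ i, z i ∈ D (c i)) :
    nuQI ρ a ι c z = nuQI ρ (aLoc xp xm ξ sg a) ι c z +
      2 * (nuI ρ (beK xp xm ξ sg) ι c z * nuI ρ (sgK sg) ι c z) -
      (xp - xm) / 2 * (nuI ρ (sgK sg) ι c z * nuI ρ (sgK sg) ι c z) := by
  have h := NX.nuQ_chargeD (e := vl l) c (q := chK) (ξ := ξ) (σ := sg) (xp := xp) (xm := xm) he hQ
    (fun b => by
      have := (hρ b).mul_const (chK b * 1)
      exact this) hb hs hz
  have h0 : NX.Qf (vl l) c ρ chK (fun _ _ => 1) z = 0 := by
    unfold NX.Qf NX.nuL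
    have e : ∑ i, chK (c i) * 1 = ((∑ i, sc (co (c i)) : ℝ) : ℂ) := by
      push_cast
      exact Finset.sum_congr rfl fun i _ => by unfold chK; ring
    rw [e, hc, sub_self]
  unfold nuQI
  rw [h, h0]
  unfold nuI aLoc beK sgK NX.Qf
  ring

end PBI

end
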