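import Pool.Agent.NURow.StageQ

/-!
# PLAX: moving all lines of the class formula, the line of the quanta included

* `StripsA al ah ..` : strips of the kinds (`quanta on A` in `[al, ah]`, L in `[bl, bh]`, S in `[sl, sh]`,
  T in `[tl, th]`, `[gl, gh]` contains both strips of the strings) which do not meet a pole of a pair function;
* `FamA` : one body functions of a species on the strips;
* **`ZobjQ_move`** : `ZobjQ X Y α n n' lnX lnY = ZobjQ X Y α' n n' lnX' lnY'` for all lines in the strips.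
-/

set_option autoImplicit false
set_option linter.unusedSectionVars false

noncomputable section

open Complex MeasureTheory

namespace NURow

open NUP1 NUP1S NUP1.Bd

/-- **admissible strips** -/
structure StripsA (al ah bl bh sl sh tl th gl gh : ℝ) : Prop where
  s1 : gl ≤ sl
  s2 : sh ≤ gh
  t1 : gl ≤ tl
  t2 : th ≤ gh
  a1 : ah - al < l
  h1 : bh + l < al
  h2 : ah - bl < 3 * l
  h3 : bh - bl < l
  h4 : ah - gl < 2 * l
  h5 : gh - al < 3 * l
  h6 : bh - gl < 2 * l
  h7 : gh - bl < 3 * l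
  h8 : gh - gl < 2 * l

theorem RO_stripsA {al ah bl bh sl sh tl th gl gh : ℝ} (hs : StripsA al ah bl bh sl sh tl th gl gh)
    (c c' : Bool) (k k' : Option O3) {u v : ℝ}
    (hu : u ∈ Set.Icc (lo4 al bl sl tl k) (lo4 ah bh sh th k))
    (hv : v ∈ Set.Icc (lo4 al bl sl tl k') (lo4 ah bh sh th k')) :
    RO (c, ob4 k) (c', ob4 k') (u - v) := by
  have hl := l_pos
  obtain ⟨s1, s2, t1, t2, a1, h1, h2, h3, h4, h5, h6, h7, h8⟩ := hs
  obtain ⟨hu1, hu2⟩ := hu
  obtain ⟨hv1, hv2⟩ := hv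
  have e0 : ∀ {u v : ℝ}, al ≤ u → u ≤ ah → al ≤ v → v ≤ ah → |u - v| < l := by
    intro u v a b c d
    rw [abs_lt]
    constructor <;> linarith
  have e1 : ∀ {u v : ℝ}, al ≤ u → u ≤ ah → bl ≤ v → v ≤ bh → l < |u - v| ∧ |u - v| < 7 * l := by
    intro u v a b c d
    rw [abs_of_pos (by linarith)]
    constructor <;> linarith
  have e2 : ∀ {u v : ℝ}, bl ≤ u → u ≤ bh → al ≤ v → v ≤ ah → l < |u - v| ∧ |u - v| < 7 * l := by
    intro u v a b c d
    rw [abs_of_neg (by linarith)]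
    constructor <;> linarith
  have e3 : ∀ {u v : ℝ}, bl ≤ u → u ≤ bh → bl ≤ v → v ≤ bh → |u - v| < l := by
    intro u v a b c d
    rw [abs_lt]
    constructor <;> linarith
  have hcc : c = c' ∨ c ≠ c' := em _
  unfold RO
  rcases hcc with rfl | hc
  · simp only [if_true]
    rcases k with _ | k
    · rcases k' with _ | k'
      · exact Or.inl (e0 hu1 hu2 hv1 hv2)
      · cases k'
        · exact Or.inr (e1 hu1 hu2 hv1 hv2)
        · trivial
        · trivial
    · rcases k' with _ | k'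
      · cases k
        · exact Or.inr (e2 hu1 hu2 hv1 hv2)
        · trivial
        · trivial
      · cases k <;> cases k' <;> first | trivial | exact Or.inl (e3 hu1 hu2 hv1 hv2)
  · simp only [hc, if_false]
    rcases k with _ | k <;> rcases k' with _ | k' <;> (try cases k) <;> (try cases k') <;>
      simp only [lo4] at hu1 hu2 hv1 hv2 <;> simp only [ob4, ob3, Option.elim] <;>
      constructor <;> linarith

/-- the one body functions of a species on the strips, total charge `Q` -/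
structure FamA (c : Bool) (al ah bl bh sl sh tl th κ Q : ℝ) (X : Option O3 → ℂ → ℂ) : Prop where
  meas : ∀ k, Measurable (X k)
  dec : ∀ k, DecOn (κ + 2 * Q * sc4 c k) (Set.Icc (lo4 al bl sl tl k) (lo4 ah bh sh th k)) (X k)
  cont : ∀ k, ContinuousOn (X k) (CS (lo4 al bl sl tl k) (lo4 ah bh sh th k))
  diff : ∀ k, DifferentiableOn ℂ (X k) (OS (lo4 al bl sl tl k) (lo4 ah bh sh th k))

variable {ι ι' : Type*} [Fintype ι] [Fintype ι']

section

variable {al ah bl bh sl sh tl th gl gh κ : ℝ} {n n' : ℕ} {X Y : Option O3 → ℂ → ℂ}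

/-- **moving the lines** of a joint integral -/
theorem Ig_shiftA (hs : StripsA al ah bl bh sl sh tl th gl gh) (hκ : 0 < κ)
    (hX : FamA true al ah bl bh sl sh tl th κ ((n : ℝ) - n') X)
    (hY : FamA false al ah bl bh sl sh tl th κ ((n : ℝ) - n') Y)
    (k : ι → Option O3) (k' : ι' → Option O3) (hk : ∑ i, chg (ob4 (k i)) = n)
    (hk' : ∑ i, chg (ob4 (k' i)) = n') (x y : ι → ℝ) (x' y' : ι' → ℝ)
    (hx : ∀ i, x i ∈ Set.Icc (lo4 al bl sl tl (k i)) (lo4 ah bh sh th (k i)))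
    (hx' : ∀ i, x' i ∈ Set.Icc (lo4 al bl sl tl (k' i)) (lo4 ah bh sh th (k' i)))
    (hy : ∀ i, y i ∈ Set.Icc (lo4 al bl sl tl (k i)) (lo4 ah bh sh th (k i)))
    (hy' : ∀ i, y' i ∈ Set.Icc (lo4 al bl sl tl (k' i)) (lo4 ah bh sh th (k' i))) :
    Ig (oo (fun i => ob4 (k i)) (fun i => ob4 (k' i)))
      (Sum.elim (fun i => X (k i)) (fun i => Y (k' i))) (Sum.elim x x') =
    Ig (oo (fun i => ob4 (k i)) (fun i => ob4 (k' i)))
      (Sum.elim (fun i => X (k i)) (fun i => Y (k' i))) (Sum.elim y y') := by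
  refine shift_allQ (sum_scQ hk hk')
    (lo := Sum.elim (fun i => lo4 al bl sl tl (k i)) (fun i => lo4 al bl sl tl (k' i)))
    (hi := Sum.elim (fun i => lo4 ah bh sh th (k i)) (fun i => lo4 ah bh sh th (k' i)))
    hκ ?_ ?_ ?_ ?_ ?_ ?_ ?_
  · rintro (i | i)
    · exact hX.meas _
    · exact hY.meas _
  · rintro (i | i)
    · exact hx i
    · exact hx' i
  · rintro (i | i)
    · exact hy i
    · exact hy' i
  · rintro (i | i)
    · exact hX.dec _
    · exact hY.dec _
  · rintro (i | i) h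
    · exact hX.cont _
    · exact hY.cont _
  · rintro (i | i) h
    · exact hX.diff _
    · exact hY.diff _
  · rintro (a | a) (b | b) _ u hu v hv <;> exact Ok_of_RO (RO_stripsA hs _ _ _ _ hu hv)

/-- integrability on all systems of lines in the strips -/
theorem integrable_stripsA (hs : StripsA al ah bl bh sl sh tl th gl gh) (hκ : 0 < κ)
    (hX : FamA true al ah bl bh sl sh tl th κ ((n : ℝ) - n') X)
    (hY : FamA false al ah bl bh sl sh tl th κ ((n : ℝ) - n') Y)
    (k : ι → Option O3) (k' : ι' → Option O3)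
    (hk : ∑ i, chg (ob4 (k i)) = n) (hk' : ∑ i, chg (ob4 (k' i)) = n') (x : ι → ℝ) (x' : ι' → ℝ)
    (hx : ∀ i, x i ∈ Set.Icc (lo4 al bl sl tl (k i)) (lo4 ah bh sh th (k i)))
    (hx' : ∀ i, x' i ∈ Set.Icc (lo4 al bl sl tl (k' i)) (lo4 ah bh sh th (k' i))) :
    Integrable (fun t => Fg (oo (fun i => ob4 (k i)) (fun i => ob4 (k' i)))
      (Sum.elim (fun i => X (k i)) (fun i => Y (k' i))) (pos (Sum.elim x x') t))
      (Measure.pi fun _ => volume) := by
  refine integrable_FgQ (sum_scQ hk hk') hκ ?_ ?_ ?_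
  · rintro (i | i)
    · exact hX.meas _
    · exact hY.meas _
  · rintro (i | i)
    · refine (hX.dec (k i)).mono fun y hy => ?_
      rw [Set.mem_singleton_iff] at hy
      rw [hy]
      exact hx i
    · refine (hY.dec (k' i)).mono fun y hy => ?_
      rw [Set.mem_singleton_iff] at hy
      rw [hy]
      exact hx' i
  · have hin : ∀ a : ι ⊕ ι', ∃ (c : Bool) (k0 : Option O3), oo (fun i => ob4 (k i))
        (fun i => ob4 (k' i)) a = (c, ob4 k0) ∧
        Sum.elim x x' a ∈ Set.Icc (lo4 al bl sl tl k0) (lo4 ah bh sh th k0) := by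
      rintro (a | a)
      · exact ⟨true, k a, rfl, hx a⟩
      · exact ⟨false, k' a, rfl, hx' a⟩
    intro a b _
    obtain ⟨c, k0, e0, h0⟩ := hin a
    obtain ⟨c', k1, e1, h1⟩ := hin b
    rw [e0, e1]
    exact Ok_of_RO (RO_stripsA hs _ _ _ _ h0 h1)

/-- **one term on other lines** -/
theorem termQ_move (hs : StripsA al ah bl bh sl sh tl th gl gh) (hκ : 0 < κ)
    (hX : FamA true al ah bl bh sl sh tl th κ ((n : ℝ) - n') X)
    (hY : FamA false al ah bl bh sl sh tl th κ ((n : ℝ) - n') Y)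
    {α α' : ℝ} (hα : α ∈ Set.Icc al ah) (hα' : α' ∈ Set.Icc al ah)
    {p p' : ℕ} (k : Fin p → O3) (k' : Fin p' → O3) (hk : ∑ i, c3 (k i) ≤ n)
    (hk' : ∑ i, c3 (k' i) ≤ n') {x y : Fin p → ℝ} {x' y' : Fin p' → ℝ}
    (hx : ∀ i, x i ∈ Set.Icc (lo4 al bl sl tl (some (k i))) (lo4 ah bh sh th (some (k i))))
    (hx' : ∀ i, x' i ∈ Set.Icc (lo4 al bl sl tl (some (k' i))) (lo4 ah bh sh th (some (k' i))))
    (hy : ∀ i, y i ∈ Set.Icc (lo4 al bl sl tl (some (k i))) (lo4 ah bh sh th (some (k i))))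
    (hy' : ∀ i, y' i ∈ Set.Icc (lo4 al bl sl tl (some (k' i))) (lo4 ah bh sh th (some (k' i)))) :
    termQ X Y α n n' k k' x x' = termQ X Y α' n n' k k' y y' := by
  have hch := sum_chg_kA n k hk
  have hch' := sum_chg_kA n' k' hk'
  have key : ∀ (α : ℝ) (x : Fin p → ℝ) (x' : Fin p' → ℝ), α ∈ Set.Icc al ah →
      (∀ i, x i ∈ Set.Icc (lo4 al bl sl tl (some (k i))) (lo4 ah bh sh th (some (k i)))) →
      (∀ i, x' i ∈ Set.Icc (lo4 al bl sl tl (some (k' i))) (lo4 ah bh sh th (some (k' i)))) →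
      termQ X Y α n n' k k' x x' =
        (∏ i, wt (ob3 (k i))) * (∏ i, wt (ob3 (k' i))) *
        ((((nA n k).factorial : ℕ) : ℂ)⁻¹ * (((nA n' k').factorial : ℕ) : ℂ)⁻¹ *
          ((2 * Real.pi : ℂ)⁻¹ ^ (nA n k) * (2 * Real.pi : ℂ)⁻¹ ^ (nA n' k')) *
        Ig (oo (fun i => ob4 (kA (nA n k) k i)) (fun i => ob4 (kA (nA n' k') k' i)))
          (Sum.elim (fun i => X (kA (nA n k) k i)) (fun i => Y (kA (nA n' k') k' i)))
          (Sum.elim (Sum.elim (fun _ => α) x) (Sum.elim (fun _ => α) x'))) := by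
    intro α x x' hα hx hx'
    have hx1 : ∀ i, Sum.elim (fun _ => α) x i ∈
        Set.Icc (lo4 al bl sl tl (kA (nA n k) k i)) (lo4 ah bh sh th (kA (nA n k) k i)) := by
      rintro (i | i)
      · exact hα
      · exact hx i
    have hx2 : ∀ i, Sum.elim (fun _ => α) x' i ∈
        Set.Icc (lo4 al bl sl tl (kA (nA n' k') k' i)) (lo4 ah bh sh th (kA (nA n' k') k' i)) := by
      rintro (i | i)
      · exact hα
      · exact hx' i
    rw [Ig_canon X Y α _ _ k k' _ _ (integrable_stripsA hs hκ hX hY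
        (kA (nA n k) k) (kA (nA n' k') k') hch hch' _ _ hx1 hx2)]
    unfold termQ gas
    rw [← integral_const_mul, ← integral_const_mul, ← integral_const_mul]
    refine integral_congr_ae (Filter.Eventually.of_forall fun t => ?_)
    simp only []
    ring
  rw [key α x x' hα hx hx', key α' y y' hα' hy hy']
  congr 2
  refine Ig_shiftA hs hκ hX hY (kA (nA n k) k) (kA (nA n' k') k') hch hch' _ _ _ _ ?_ ?_ ?_ ?_
  · rintro (i | i)
    · exact hα
    · exact hx i
  · rintro (i | i)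
    · exact hα
    · exact hx' i
  · rintro (i | i)
    · exact hα'
    · exact hy i
  · rintro (i | i)
    · exact hα'
    · exact hy' i

/-- **the class formula on other lines** -/
theorem ZobjQ_move (hs : StripsA al ah bl bh sl sh tl th gl gh) (hκ : 0 < κ)
    (hX : FamA true al ah bl bh sl sh tl th κ ((n : ℝ) - n') X)
    (hY : FamA false al ah bl bh sl sh tl th κ ((n : ℝ) - n') Y)
    {α α' : ℝ} (hα : α ∈ Set.Icc al ah) (hα' : α' ∈ Set.Icc al ah)
    {lnX lnX' : ∀ p p' : ℕ, (Fin p → O3) → (Fin p' → O3) → Fin p → ℝ}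
    {lnY lnY' : ∀ p p' : ℕ, (Fin p → O3) → (Fin p' → O3) → Fin p' → ℝ}
    (hlX : ∀ p p' k k' i,
      lnX p p' k k' i ∈ Set.Icc (lo4 al bl sl tl (some (k i))) (lo4 ah bh sh th (some (k i))))
    (hlY : ∀ p p' k k' i,
      lnY p p' k k' i ∈ Set.Icc (lo4 al bl sl tl (some (k' i))) (lo4 ah bh sh th (some (k' i))))
    (hlX' : ∀ p p' k k' i,
      lnX' p p' k k' i ∈ Set.Icc (lo4 al bl sl tl (some (k i))) (lo4 ah bh sh th (some (k i))))
    (hlY' : ∀ p p' k k' i,
      lnY' p p' k k' i ∈ Set.Icc (lo4 al bl sl tl (some (k' i))) (lo4 ah bh sh th (some (k' i)))) :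
    ZobjQ X Y α n n' lnX lnY = ZobjQ X Y α' n n' lnX' lnY' := by
  unfold ZobjQ
  refine Finset.sum_congr rfl fun p' _ => Finset.sum_congr rfl fun p _ => ?_
  congr 1
  refine Finset.sum_congr rfl fun k' _ => Finset.sum_congr rfl fun k _ => ?_
  split_ifs with h
  · exact termQ_move hs hκ hX hY hα hα' k k' h.2 h.1 (hlX p p' k k') (hlY p p' k k')
      (hlX' p p' k k') (hlY' p p' k k')
  · rfl

end

end NURow

end
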