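import Pool.Agent.PLX.ExU
import Pool.Agent.PLX.ZMove

/-!
# PLAX: the class formula on the lines of the particle-hole form, groups of sizes `(m, M)`

* `K1P`, `K2P` : the real parts of quanta (A, L) and of strings; `GOn K β g` : a correction of the cutoff on `K`
  (the strings need it on `K2P` only); `SpecP` : spectators on the larger sets;
* `LnR a r` : the ranges of the lines: quanta A on `[a, 3/5 l]`, strings from `r` on, `51/100 l ≤ a ≤ 3/5 l`,
  `-149/100 l ≤ r ≤ -13/10 l`, `a - 2 l < r`; `lnR_P1 : LnR (3/5 l) (-69/50 l)`;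
* `famXU` : the one body functions `XXU` on the strips A `[a, 3/5 l]`, L `[-17/10 l, -101/100 l]`,
  S `[r, -7/10 l]`, T `[-7/10 l, -l/2]`;
* **`stageXUP`**, **`DZU_clsP`** : `DZU = ZobjQ (XXU ..) α ..` for `LnR α sl`, strings S on `[sl, -7/10 l]`.
-/

set_option autoImplicit false
set_option linter.unusedSectionVars false
set_option linter.unusedVariables false

noncomputable section

open Complex MeasureTheory

namespace Pool.Agent.PLX

open NUP1 NUP1S NUP1.Bd NURow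
open NUP1.N (Z3 Gr0)
open NUP1.Leg (hr)
open PBX (Rws ph GOk KK NQr_KK NQ_KK bdd_ph diffAt_ph bdd_prod measurable_ph Pm Am Cm im_le box isCompact_KK
  K2_KK K2_KK' sin_or sin_pos_row sin_row2 NQ_neg bdd_glueR K2_sub_re)

/-- real parts of the quanta: A from `a` on, L -/
def K1P (a : ℝ) : Set ℝ := Set.Icc a l ∪ Set.Icc (-(17 / 10 * l)) (-(101 / 100 * l))

/-- real parts of the strings, from `r` on -/
def K2P (r : ℝ) : Set ℝ := Set.Icc r (-(l / 2))

/-- the ranges: quanta from `a` on, strings from `r` on -/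
structure LnR (a r : ℝ) : Prop where
  a1 : 51 / 100 * l ≤ a
  a2 : a ≤ 3 / 5 * l
  r1 : -(149 / 100 * l) ≤ r
  r2 : r ≤ -(13 / 10 * l)
  ar : a - 2 * l < r

theorem lnR_P1 : LnR (3 / 5 * l) (-(69 / 50 * l)) := by
  have hl := Bd.l_pos
  constructor <;> (clear * - hl; linarith)

theorem isCompact_K1P {a : ℝ} : IsCompact (K1P a) := isCompact_Icc.union isCompact_Icc
theorem isCompact_K2P {r : ℝ} : IsCompact (K2P r) := isCompact_Icc

section sets

variable {a r : ℝ} (hR : LnR a r)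

include hR

theorem K1_K1P {x : ℝ} (h : x ∈ K1) : x ∈ K1P a := by
  have hl := Bd.l_pos
  obtain ⟨_, _, _, _, _⟩ := hR
  rcases h with ⟨h1, h2⟩ | ⟨h1, h2⟩
  · exact Or.inl ⟨by linarith, h2⟩
  · exact Or.inr ⟨h1, by linarith⟩

theorem K2_K2P {x : ℝ} (h : x ∈ K2) : x ∈ K2P r := by
  have hl := Bd.l_pos
  exact ⟨by (clear * - h hR; linarith [h.1, hR.r2]), h.2⟩

theorem K1P_KK {x : ℝ} (h : x ∈ K1P a) : x ∈ KK := by
  have hl := Bd.l_pos
  obtain ⟨_, _, _, _, _⟩ := hR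
  rcases h with ⟨h1, h2⟩ | ⟨h1, h2⟩ <;> constructor <;> linarith

theorem K2P_KK {x : ℝ} (h : x ∈ K2P r) : x ∈ KK := by
  have hl := Bd.l_pos
  obtain ⟨_, _, _, _, _⟩ := hR
  obtain ⟨h1, h2⟩ := h
  constructor <;> linarith

theorem NPr_K1P : NPr (l / 2) (K1P a) := by
  have hl := Bd.l_pos
  obtain ⟨_, _, _, _, _⟩ := hR
  intro d hd e he
  obtain ⟨h3, h4⟩ := abs_le.1 he
  rcases hd with ⟨h1, h2⟩ | ⟨h1, h2⟩
  · exact NP_pos (by linarith) (by linarith)
  · exact NP_neg (by linarith) (by linarith)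

theorem NPr_SP : NPr (l / 2) (Set.Icc r (-(7 / 10 * l))) := by
  have hl := Bd.l_pos
  obtain ⟨_, _, _, _, _⟩ := hR
  refine NPr_neg fun d hd => ?_
  obtain ⟨h1, h2⟩ := hd
  constructor <;> linarith

theorem NPr_K2P' : NPr (l / 2) ((fun d => d + -l) '' K2P r) := by
  have hl := Bd.l_pos
  obtain ⟨_, _, _, _, _⟩ := hR
  refine NPr_neg fun d hd => ?_
  obtain ⟨e, ⟨h1, h2⟩, rfl⟩ := hd
  constructor <;> linarith

end sets

/-- a correction of the cutoff on the lines `K` -/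
structure GOn (K : Set ℝ) (β : ℝ) (g : ℂ → ℂ) : Prop where
  meas : Measurable g
  bd : Bdd K (-(2 * β)) (fun z => 1 - g z)
  diff : ∀ z : ℂ, z.re ∈ K → DifferentiableAt ℂ g z

theorem GOn.of_GOk {K : Set ℝ} {β : ℝ} {g : ℂ → ℂ} (h : GOk β g) (hK : ∀ x ∈ K, x ∈ KK) : GOn K β g :=
  ⟨h.meas, Bdd.mono_set h.bd hK, fun z hz => h.diff z (hK _ hz)⟩

theorem GOn.mono {K K' : Set ℝ} {β : ℝ} {g : ℂ → ℂ} (h : GOn K' β g) (hK : ∀ x ∈ K, x ∈ K') : GOn K β g :=
  ⟨h.meas, Bdd.mono_set h.bd hK, fun z hz => h.diff z (hK _ hz)⟩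

/-- spectators of a species: `s1` for quanta, `s2` for strings, charge `-Q`, on the larger sets -/
structure SpecP (a r : ℝ) (c : Bool) (Q : ℝ) (s1 s2 : ℂ → ℂ) : Prop where
  m1 : Measurable s1
  m2 : Measurable s2
  b1 : Bdd (K1P a) (-(2 * Q * sc (c, .A))) s1
  b2 : Bdd (K2P r) (-(2 * Q * sc (c, .S))) s2
  d1 : ∀ z : ℂ, z.re ∈ K1P a → DifferentiableAt ℂ s1 z
  d2 : ∀ z : ℂ, z.re ∈ K2P r → DifferentiableAt ℂ s2 z
  mul : ∀ z : ℂ, z.re = -(7 / 10 * l) → s2 z = s1 z * s1 (z - l)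

theorem SpecP.toQ {a r : ℝ} (hR : LnR a r) {c : Bool} {Q : ℝ} {s1 s2 : ℂ → ℂ} (h : SpecP a r c Q s1 s2) :
    SpecQ c Q s1 s2 :=
  ⟨h.m1, h.m2, Bdd.mono_set h.b1 fun _ hx => K1_K1P hR hx, Bdd.mono_set h.b2 fun _ hx => K2_K2P hR hx,
    fun z hz => h.d1 z (K1_K1P hR hz), fun z hz => h.d2 z (K2_K2P hR hz), h.mul⟩

variable {m M : ℕ}

section rows

variable {c : ℂ} {x : Fin m → ℂ} {y : Fin M → ℂ} {a r : ℝ} (hR : LnR a r)

include hR

theorem RRU_shift_bddP (c : ℂ) (hx : Rws x) (hy : Rws y) :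
    Bdd (K2P r) (2 * ((M : ℝ) - m)) fun w => RRU c x y (w - l) :=
  bdd_shift_l (bdd_RRU c hx hy (isCompact_K2P.image (by fun_prop)) (NPr_K2P' hR))

theorem RRU_shift_diffP (c : ℂ) (hx : Rws x) {w : ℂ} (hw : w.re ∈ K2P r) :
    DifferentiableAt ℂ (fun w => RRU c x y (w - l)) w := by
  refine (diffAt_RRU (y := y) c (NPr_K2P' hR) hx (z := w - l) ?_).comp w
    (differentiableAt_id.sub_const _)
  refine ⟨w.re, hw, ?_⟩
  simp [sub_eq_add_neg]

end rows

section cut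

variable {β : ℝ} {x : Fin m → ℂ} {g : ℂ → ℂ} {K : Set ℝ}

theorem bdd_phOn (hβ : 0 < β) (hβ' : β ≤ 4 / 3) (hx : Rws x) (hK : ∀ t ∈ K, t ∈ KK) (hg : GOn K β g) :
    Bdd K (-(2 * β)) (ph β x g) := by
  have h1 := Bdd.mono_set (bdd_ph hβ hβ' hx (GOk.one β)) hK
  have h2 := ((Bdd.mono_set (bdd_prod hβ hβ' hx) hK).mul hg.bd).rate (s' := -(2 * β)) (by ring)
  obtain ⟨C, hC, h1⟩ := h1
  obtain ⟨D, hD, h2⟩ := h2
  refine ⟨C + D, by positivity, fun z hz => ?_⟩
  have e : ph β x g z = ph β x (fun _ => 1) z + (∏ i, psi β (z - x i)) * (1 - g z) := by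
    unfold PBX.ph
    ring
  rw [e, add_mul]
  exact (norm_add_le _ _).trans (add_le_add (h1 z hz) (h2 z hz))

theorem diffAt_phOn (hβ : 0 < β) (hβ' : β ≤ 4 / 3) (hx : Rws x) (hK : ∀ t ∈ K, t ∈ KK) (hg : GOn K β g)
    {z : ℂ} (hz : z.re ∈ K) : DifferentiableAt ℂ (ph β x g) z := by
  have d1 := DifferentiableAt.fun_finsetProd (𝕜 := ℂ) (u := Finset.univ)
    (f := fun (i : Fin m) s => psi β (s - x i)) (x := z) (fun i _ =>
      (diff_psi' (NQ_KK hβ hβ' hx (hK _ hz) i)).comp z (differentiableAt_id.sub_const _))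
  exact (d1.mul (hg.diff z hz)).const_sub 1

end cut

/-! ### the strings T -/

section strT

variable {c : ℂ} {x : Fin m → ℂ} {y : Fin M → ℂ} {β β' : ℝ} {g g0 : ℂ → ℂ} {w : ℂ}

theorem diffAt_TTUOn (c : ℂ) (hβ : 0 < β) (hβ1 : β ≤ 4 / 3) (hβ' : 0 < β') (hβ1' : β' ≤ 4 / 3)
    (hx : Rws x) (hg : GOk β g) (hg0 : GOn K2 β' g0) (hw : w.re ∈ K2) :
    DifferentiableAt ℂ (TTU c β β' x y g g0) w := by
  have hK := K2_KK hw
  have hK' : (w - l).re ∈ KK := by
    have := K2_KK' hw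
    simpa using this
  have hR : DifferentiableAt ℂ (RgU c x y) w := by
    unfold RgU
    refine (((differentiableAt_const c).mul ?_).mul ?_).mul ?_
    · refine DifferentiableAt.fun_finsetProd fun i _ => ?_
      split_ifs with h
      · exact differentiableAt_const _
      · have hs := sin_pos_row hx hw h
        fun_prop (disch := exact hs)
    · refine DifferentiableAt.fun_finsetProd fun i _ => ?_
      have hs := sin_row2 hx hw i
      fun_prop (disch := exact hs)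
    · refine DifferentiableAt.fun_finsetProd fun i _ => ?_
      fun_prop
  have hA : ∀ {b : ℝ} {k : ℂ → ℂ}, 0 < b → b ≤ 4 / 3 → DifferentiableAt ℂ k w →
      DifferentiableAt ℂ (Am b x k) w := by
    intro b k h0 h1 hk
    unfold Am
    refine DifferentiableAt.mul ?_ hk
    refine DifferentiableAt.fun_finsetProd fun i _ => ?_
    split_ifs with h
    · exact (differentiableAt_qs (NQ_KK h0 h1 hx hK i) (sin_or hx hw i)).comp w
        (differentiableAt_id.sub_const _)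
    · exact (diff_psi' (NQ_KK h0 h1 hx hK i)).comp w (differentiableAt_id.sub_const _)
  have hC : DifferentiableAt ℂ (Cm β x g) w := by
    unfold Cm
    refine DifferentiableAt.mul ?_ ((hg.diff (w - l) hK').comp w
      (differentiableAt_id.sub_const _))
    refine DifferentiableAt.fun_finsetProd fun i _ => ?_
    split_ifs with h
    · refine ((differentiableAt_qs (NQ_neg hβ hβ1 hx hw i h) ?_).comp w
        ((differentiableAt_id.sub_const _).neg)).neg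
      rcases sin_or hx hw i with h0 | h0
      · left
        rw [h0, neg_zero]
      · right
        rw [Complex.sin_neg]
        exact neg_ne_zero.2 h0
    · exact (diff_psi' (z := w - l - x i) (NQ_KK hβ hβ1 hx hK' i)).comp w
        ((differentiableAt_id.sub_const _).sub_const _)
  unfold TTU
  exact (hR.mul (RRU_shift_diff c hx hw)).mul (((hA hβ' hβ1' (hg0.diff w hw)).sub
    (hA hβ hβ1 (hg.diff w hK))).sub ((diffAt_ph hβ hβ1 hx hg hK).mul hC))

theorem bdd_TTUOn (c : ℂ) (hβ : 0 < β) (hββ' : β ≤ β') (hβ1' : β' ≤ 4 / 3)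
    (hx : Rws x) (hy : Rws y) (hg : GOk β g) (hg0 : GOn K2 β' g0) :
    Bdd K2 (-(2 * β) + 4 * ((M : ℝ) - m)) (TTU c β β' x y g g0) := by
  have hβ' : 0 < β' := hβ.trans_le hββ'
  have hβ1 : β ≤ 4 / 3 := hββ'.trans hβ1'
  have hl := Bd.l_pos
  obtain ⟨C1, R1, hC1, g1⟩ := Gr_RRU c l (-(23 / 10 * l)) x y
  obtain ⟨C2, hC2, g2⟩ := RRU_shift_bdd c hx hy
  obtain ⟨C3, hC3, g3⟩ := bdd_ph hβ hβ1 hx hg
  obtain ⟨C4, hC4, g4⟩ := bdd_phOn hβ' hβ1' hx (fun t ht => K2_KK ht) hg0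
  refine bdd_glueR (R := max R1 (1 + ∑ j, |(x j).im|)) isCompact_K2
    (fun z hz => (diffAt_TTUOn c hβ hβ1 hβ' hβ1' hx hg hg0 hz).continuousAt)
    ⟨C1 * C2 * (C3 * C3 + C4), by (clear * - hC1 hC2 hC3 hC4; positivity), fun z hz hi => ?_⟩
  have hK := K2_KK hz
  have hK' : (z - l).re ∈ KK := by
    have := K2_KK' hz
    simpa using this
  have hi1 := (le_max_left _ _).trans hi
  have hi2 := (le_max_right _ _).trans hi
  have hs : ∀ i, (x i).re = -(l / 2) → sin (z - x i) ≠ 0 := by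
    intro i _
    refine NUP1.sin_ne_im ?_
    rw [sub_im]
    intro h0
    have h1 : z.im = (x i).im := by (clear * - h0; linarith)
    have h2 := im_le x i
    rw [h1] at hi2
    clear * - hi2 h2
    linarith
  rw [TTU_eq (fun i => NQ_KK hβ hβ1 hx hK i) (fun i => NQ_KK hβ' hβ1' hx hK i)
    (fun i h => NQ_neg hβ hβ1 hx hz i h) hs, norm_mul, norm_mul]
  have a1 : ‖RRU c x y z‖ ≤ C1 * Real.exp (2 * ((M : ℝ) - m) * |z.im|) := g1 z hK.1 hK.2 hi1
  have a2 : ‖RRU c x y (z - l)‖ ≤ C2 * Real.exp (2 * ((M : ℝ) - m) * |z.im|) := g2 z hz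
  have a3 := g3 z hK
  have a4 := g3 (z - l) hK'
  have a5 := g4 z hz
  have e1 : (z - (l : ℂ)).im = z.im := by simp
  rw [e1] at a4
  have b1 : Real.exp (-(2 * β) * |z.im|) ≤ 1 := by
    rw [Real.exp_le_one_iff]
    have := abs_nonneg z.im
    clear * - hβ this
    nlinarith
  have b2 : Real.exp (-(2 * β') * |z.im|) ≤ Real.exp (-(2 * β) * |z.im|) := by
    refine Real.exp_le_exp.2 ?_
    have := abs_nonneg z.im
    clear * - hββ' this
    nlinarith
  have hE := (Real.exp_pos (-(2 * β) * |z.im|)).le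
  have a6 : ‖ph β x g z * ph β x g (z - l) - ph β' x g0 z‖ ≤
      (C3 * C3 + C4) * Real.exp (-(2 * β) * |z.im|) := by
    refine (norm_sub_le _ _).trans ?_
    rw [norm_mul, add_mul]
    refine add_le_add ?_ ?_
    · calc ‖ph β x g z‖ * ‖ph β x g (z - l)‖ ≤
          (C3 * Real.exp (-(2 * β) * |z.im|)) * (C3 * 1) :=
            mul_le_mul a3 (a4.trans (mul_le_mul_of_nonneg_left b1 hC3)) (norm_nonneg _)
              (by positivity)
        _ = _ := by ring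
    · exact a5.trans (mul_le_mul_of_nonneg_left b2 hC4)
  calc _ ≤ (C1 * Real.exp (2 * ((M : ℝ) - m) * |z.im|)) * (C2 * Real.exp (2 * ((M : ℝ) - m) * |z.im|)) *
          ((C3 * C3 + C4) * Real.exp (-(2 * β) * |z.im|)) :=
        mul_le_mul (mul_le_mul a1 a2 (norm_nonneg _) (by positivity)) a6 (norm_nonneg _) (by positivity)
    _ = _ := by
        have e2 : Real.exp ((-(2 * β) + 4 * ((M : ℝ) - m)) * |z.im|) = Real.exp (2 * ((M : ℝ) - m) * |z.im|) *
            Real.exp (2 * ((M : ℝ) - m) * |z.im|) * Real.exp (-(2 * β) * |z.im|) := by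
          rw [← Real.exp_add, ← Real.exp_add]
          congr 1
          ring
        rw [e2]
        ring

end strT

/-! ### the data -/

section data

variable {c : ℂ} {x : Fin m → ℂ} {y : Fin M → ℂ} {β : ℝ} {g g0 s1 s2 : ℂ → ℂ} {b : Bool} {Q Q' : ℝ}
  {a r : ℝ} (hR : LnR a r)

include hR

theorem bdd_GXUP (hβ : 0 < β) (hβ' : β ≤ 4 / 3) (hx : Rws x) (hy : Rws y) (hg : GOk β g)
    (h : SpecP a r b Q' s1 s2) (hQ : Q * sc (b, .A) = Q' * sc (b, .A) - ((M : ℝ) - m)) :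
    Bdd (K1P a) (-(2 * β) + -(2 * Q * sc (b, .A))) (GXU c β x y g s1) := by
  have h1 := bdd_RRU c hx hy isCompact_K1P (NPr_K1P hR)
  have h2 : Bdd (K1P a) (-(2 * β)) (ph β x g) := Bdd.mono_set (bdd_ph hβ hβ' hx hg) fun x hx => K1P_KK hR hx
  exact ((h1.mul h2).mul h.b1).rate (by (clear * - hQ; linarith))

theorem diffAt_GXUP (hβ : 0 < β) (hβ' : β ≤ 4 / 3) (hx : Rws x) (hg : GOk β g)
    (h : SpecP a r b Q' s1 s2) {z : ℂ} (hz : z.re ∈ K1P a) :
    DifferentiableAt ℂ (GXU c β x y g s1) z :=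
  ((diffAt_RRU c (NPr_K1P hR) hx hz).mul (diffAt_ph hβ hβ' hx hg (K1P_KK hR hz))).mul (h.d1 z hz)

theorem SP_K2P {t : ℝ} (h : t ∈ Set.Icc r (-(7 / 10 * l))) : t ∈ K2P r := by
  have hl := Bd.l_pos
  exact ⟨h.1, by linarith [h.2]⟩

theorem bdd_SXUP (hx : Rws x) (hy : Rws y) (hg0 : GOn (K2P r) (4 / 3) g0) (h : SpecP a r b Q' s1 s2)
    (hQ : Q * sc (b, .A) = Q' * sc (b, .A) - ((M : ℝ) - m)) :
    Bdd (Set.Icc r (-(7 / 10 * l))) (-(2 * (4 / 3)) + -(2 * Q * sc (b, .S)))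
      (fun w => RRU c x y w * RRU c x y (w - l) * ph (4 / 3) x g0 w * s2 w) := by
  have h1 := bdd_RRU c hx hy isCompact_Icc (NPr_SP hR)
  have h2 : Bdd (Set.Icc r (-(7 / 10 * l))) (2 * ((M : ℝ) - m)) (fun w => RRU c x y (w - l)) :=
    Bdd.mono_set (RRU_shift_bddP hR c hx hy) fun x hx => SP_K2P hR hx
  have h3 : Bdd (Set.Icc r (-(7 / 10 * l))) (-(2 * (4 / 3))) (ph (4 / 3) x g0) :=
    Bdd.mono_set (bdd_phOn (by norm_num) le_rfl hx (fun t ht => K2P_KK hR ht) hg0) fun x hx => SP_K2P hR hx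
  exact (((h1.mul h2).mul h3).mul (Bdd.mono_set h.b2 fun x hx => SP_K2P hR hx)).rate (by
    rw [sc_S]
    clear * - hQ
    linarith)

theorem diffAt_SXUP (hx : Rws x) (hg0 : GOn (K2P r) (4 / 3) g0) (h : SpecP a r b Q' s1 s2) {z : ℂ}
    (hz : z.re ∈ Set.Icc r (-(7 / 10 * l))) :
    DifferentiableAt ℂ (fun w => RRU c x y w * RRU c x y (w - l) * ph (4 / 3) x g0 w * s2 w) z :=
  (((diffAt_RRU c (NPr_SP hR) hx hz).mul (RRU_shift_diffP hR c hx (SP_K2P hR hz))).mul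
    (diffAt_phOn (by norm_num) le_rfl hx (fun t ht => K2P_KK hR ht) hg0 (SP_K2P hR hz))).mul (h.d2 z (SP_K2P hR hz))

theorem A_K1P {t : ℝ} (h : t ∈ Set.Icc a (3 / 5 * l)) : t ∈ K1P a := by
  have hl := Bd.l_pos
  exact Or.inl ⟨h.1, by linarith [h.2]⟩

theorem diffAt_XXUP (hβ : 0 < β) (hβ' : β ≤ 4 / 3) (hx : Rws x) (hg : GOk β g)
    (hg0 : GOn (K2P r) (4 / 3) g0) (h : SpecP a r b Q' s1 s2) (k : Option O3) {z : ℂ}
    (hz : z.re ∈ Set.Icc (lo4 a (-(17 / 10 * l)) r (-(7 / 10 * l)) k)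
      (lo4 (3 / 5 * l) (-(101 / 100 * l)) (-(7 / 10 * l)) (-(l / 2)) k)) :
    DifferentiableAt ℂ (XXU c β x y g g0 s1 s2 k) z := by
  rcases k with _ | k
  · exact diffAt_GXUP hR hβ hβ' hx hg h (A_K1P hR hz)
  · cases k
    · exact diffAt_GXUP hR hβ hβ' hx hg h (Or.inr hz)
    · exact diffAt_SXUP hR hx hg0 h hz
    · exact (diffAt_TTUOn c hβ hβ' (by norm_num) le_rfl hx hg (hg0.mono fun t ht => K2_K2P hR ht)
        (K2_subT hz)).mul (h.d2 z (K2_K2P hR (K2_subT hz)))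

/-- **the one body functions on the strips** -/
theorem famXU (hβ : 0 < β) (hβ' : β ≤ 4 / 3) (hx : Rws x) (hy : Rws y) (hg : GOk β g)
    (hg0 : GOn (K2P r) (4 / 3) g0) (h : SpecP a r b Q' s1 s2)
    (hQ : Q * sc (b, .A) = Q' * sc (b, .A) - ((M : ℝ) - m)) :
    FamA b a (3 / 5 * l) (-(17 / 10 * l)) (-(101 / 100 * l)) r
      (-(7 / 10 * l)) (-(7 / 10 * l)) (-(l / 2)) (2 * β) Q (XXU c β x y g g0 s1 s2) where
  meas := measurable_XXU hg.meas hg0.meas h.m1 h.m2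
  dec k := by
    have hl := Bd.l_pos
    rcases k with _ | k
    · refine DecOn_of (Bdd.mono_set (bdd_GXUP hR hβ hβ' hx hy hg h hQ) ?_)
        (by simp only [sc4, ob4, Option.elim]; linarith)
      intro t ht
      exact A_K1P hR ht
    · cases k
      · refine DecOn_of (Bdd.mono_set (bdd_GXUP hR hβ hβ' hx hy hg h hQ) ?_)
          (by simp only [sc4, ob4, ob3, Option.elim]; exact le_of_eq (by cases b <;> simp [sc, chg] <;> ring))
        rintro x ⟨h1, h2⟩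
        exact Or.inr ⟨h1, h2⟩
      · exact DecOn_of (bdd_SXUP hR hx hy hg0 h hQ) (by simp only [sc4, ob4, ob3, Option.elim]; (clear * - hβ'; linarith))
      · refine DecOn_of (Bdd.mono_set
          (((bdd_TTUOn c hβ hβ' le_rfl hx hy hg (hg0.mono fun t ht => K2_K2P hR ht)).mul
            (Bdd.mono_set h.b2 fun t ht => K2_K2P hR ht)).rate
            (s' := -(2 * β) + -(2 * Q * sc (b, .S))) (by rw [sc_S]; linarith)) ?_)
          (by simp only [sc4, ob4, ob3, Option.elim]; linarith)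
        rintro x ⟨h1, h2⟩
        exact K2_subT ⟨h1, h2⟩
  cont k := fun z hz => (diffAt_XXUP hR hβ hβ' hx hg hg0 h k
    ⟨hz.1, hz.2⟩).continuousAt.continuousWithinAt
  diff k := fun z hz => (diffAt_XXUP hR hβ hβ' hx hg hg0 h k
    ⟨hz.1.le, hz.2.le⟩).differentiableWithinAt

end data

end Pool.Agent.PLX

namespace NURow

open NUP1 NUP1S NUP1.Bd

/-- smaller strips -/
theorem FamA.mono {c : Bool} {al ah bl bh sl sh tl th κ Q : ℝ} {al' ah' bl' bh' sl' sh' tl' th' : ℝ}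
    {X : Option O3 → ℂ → ℂ} (h : FamA c al ah bl bh sl sh tl th κ Q X) (a1 : al ≤ al') (a2 : ah' ≤ ah)
    (b1 : bl ≤ bl') (b2 : bh' ≤ bh) (s1 : sl ≤ sl') (s2 : sh' ≤ sh) (t1 : tl ≤ tl') (t2 : th' ≤ th) :
    FamA c al' ah' bl' bh' sl' sh' tl' th' κ Q X := by
  have hlo : ∀ k, lo4 al bl sl tl k ≤ lo4 al' bl' sl' tl' k := by
    intro k
    rcases k with _ | k
    · exact a1
    · cases k
      · exact b1
      · exact s1
      · exact t1
  have hhi : ∀ k, lo4 ah' bh' sh' th' k ≤ lo4 ah bh sh th k := by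
    intro k
    rcases k with _ | k
    · exact a2
    · cases k
      · exact b2
      · exact s2
      · exact t2
  exact ⟨h.meas, fun k => (h.dec k).mono (Set.Icc_subset_Icc (hlo k) (hhi k)),
    fun k => (h.cont k).mono fun z hz => ⟨(hlo k).trans hz.1, hz.2.trans (hhi k)⟩,
    fun k => (h.diff k).mono fun z hz => ⟨(hlo k).trans_lt hz.1, hz.2.trans_le (hhi k)⟩⟩

/-- the quanta on one line -/
theorem FamA.toFam {c : Bool} {α bl bh sl sh tl th κ Q : ℝ} {X : Option O3 → ℂ → ℂ}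
    (h : FamA c α α bl bh sl sh tl th κ Q X) : Fam c α bl bh sl sh tl th κ Q X :=
  ⟨h.meas, h.dec, fun k => h.cont k, fun k => h.diff k⟩

end NURow

namespace Pool.Agent.PLX

open NUP1 NUP1S NUP1.Bd NURow
open NUP1.N (Z3 Gr0)
open PBX (Rws ph GOk KK)

variable {m M : ℕ}

section stage

variable {c c' : ℂ} {x : Fin m → ℂ} {y : Fin M → ℂ} {β : ℝ} {g g0 g' g0' s1 s2 t1 t2 : ℂ → ℂ}
  {b : Bool} {Q Q' q : ℝ}

theorem split_XXU (hβ : 0 < β) (hβ' : β ≤ 4 / 3) (hx : Rws x) (h : SpecQ b Q' s1 s2) (k : Ob) (t : ℝ) :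
    oneL (3 / 5 * l) (-(17 / 10 * l)) (GXU c β x y g s1) k t =
      ∑ a ∈ Finset.univ.filter (fun a => ob4 a = k),
        one4L (3 / 5 * l) (-(17 / 10 * l)) (XXU c β x y g g0 s1 s2) a t := by
  have e : ∀ a, one4L (3 / 5 * l) (-(17 / 10 * l)) (XXU c β x y g g0 s1 s2) a t =
      XXU c β x y g g0 s1 s2 a (pt (3 / 5 * l) (-(17 / 10 * l)) (ob4 a) t) := fun _ => rfl
  unfold oneL
  cases k
  · have : (Finset.univ.filter fun a => ob4 a = Ob.A) = {none} := by decide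
    rw [this, Finset.sum_singleton, e]
    rfl
  · have : (Finset.univ.filter fun a => ob4 a = Ob.L) = {some .L} := by decide
    rw [this, Finset.sum_singleton, e]
    rfl
  · have : (Finset.univ.filter fun a => ob4 a = Ob.S) = {some .S, some .T} := by decide
    rw [this, Finset.sum_pair (by decide), e, e]
    have hw : (pt (3 / 5 * l) (-(17 / 10 * l)) .S t).re = -(7 / 10 * l) := by
      show (vl (-(17 / 10 * l) + l) t).re = _
      rw [re_vl]
      ring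
    exact GXU_mul hβ hβ' hx h hw

/-- **the class formula on the lines of the particle-hole form** -/
theorem stageXUP (hβ : 0 < β) (hβ' : β ≤ 4 / 3) (hx : Rws x) (hy : Rws y) (hg : GOk β g)
    {α sl : ℝ} (hR : LnR α sl) (hg0 : GOn (K2P sl) (4 / 3) g0) (hh : GOk β g')
    (hh0 : GOn (K2P sl) (4 / 3) g0') (n n' : ℕ)
    (hn : (n' : ℝ) + m = n + M + q) (hX : SpecP α sl true (-q) s1 s2) (hY : SpecP α sl false (-q) t1 t2)
    (lnX : ∀ p p' : ℕ, (Fin p → O3) → (Fin p' → O3) → Fin p → ℝ)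
    (lnY : ∀ p p' : ℕ, (Fin p → O3) → (Fin p' → O3) → Fin p' → ℝ)
    (hlX : ∀ p p' k k' i, lnX p p' k k' i ∈ Set.Icc
      (lo4 α (-(17 / 10 * l)) sl (-(7 / 10 * l)) (some (k i)))
      (lo4 α (-(101 / 100 * l)) (-(7 / 10 * l)) (-(l / 2)) (some (k i))))
    (hlY : ∀ p p' k k' i, lnY p p' k k' i ∈ Set.Icc
      (lo4 α (-(17 / 10 * l)) sl (-(7 / 10 * l)) (some (k' i)))
      (lo4 α (-(101 / 100 * l)) (-(7 / 10 * l)) (-(l / 2)) (some (k' i)))) :
    Z3 (3 / 5 * l) (-(17 / 10 * l)) n n' (GXU c β x y g s1) (GXU c' β y x g' t1) =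
      ZobjQ (XXU c β x y g g0 s1 s2) (XXU c' β y x g' g0' t1 t2) α n n' lnX lnY := by
  have hl := Bd.l_pos
  have hκ : 0 < 2 * β := by linarith
  obtain ⟨hα, hα', hsl, hsl2, hsl'⟩ := id hR
  have FX : FamA true α (3 / 5 * l) (-(17 / 10 * l)) (-(101 / 100 * l)) sl
      (-(7 / 10 * l)) (-(7 / 10 * l)) (-(l / 2)) (2 * β) ((n : ℝ) - n') (XXU c β x y g g0 s1 s2) :=
    famXU hR hβ hβ' hx hy hg hg0 hX (by
      have e : sc (true, .A) = 1 := by simp [sc, chg]
      rw [e]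
      clear * - hn
      linarith)
  have FY : FamA false α (3 / 5 * l) (-(17 / 10 * l)) (-(101 / 100 * l)) sl
      (-(7 / 10 * l)) (-(7 / 10 * l)) (-(l / 2)) (2 * β) ((n : ℝ) - n') (XXU c' β y x g' g0' t1 t2) :=
    famXU hR hβ hβ' hy hx hh hh0 hY (by
      have e : sc (false, .A) = -1 := by simp [sc, chg]
      rw [e]
      clear * - hn
      linarith)
  -- the start lines
  set st : O3 → ℝ := fun k => lo4 0 (-(17 / 10 * l)) (-(7 / 10 * l)) (-(7 / 10 * l)) (some k) with hst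
  have hs0 : StripsQ (3 / 5 * l) (-(17 / 10 * l)) (-(101 / 100 * l)) (-(7 / 10 * l)) (-(7 / 10 * l))
      (-(7 / 10 * l)) (-(l / 2)) (-(7 / 10 * l)) (-(l / 2)) := by
    constructor <;> (clear * - hα hsl2 hsl'; linarith)
  have step0 : Z3 (3 / 5 * l) (-(17 / 10 * l)) n n' (GXU c β x y g s1) (GXU c' β y x g' t1) =
      ZobjQ (XXU c β x y g g0 s1 s2) (XXU c' β y x g' g0' t1 t2) (3 / 5 * l) n n'
        (fun _ _ k _ i => st (k i)) (fun _ _ _ k' i => st (k' i)) := by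
    refine stage2Z hs0 ⟨le_rfl, by (clear * - hα hsl2 hsl'; linarith)⟩ ⟨by (clear * -; linarith), by (clear * -; linarith)⟩
      ⟨by (clear * -; linarith), by (clear * - hα hsl2 hsl'; linarith)⟩ (κ := 2 * β) hκ n n'
      ⟨(FX.mono (al' := 3 / 5 * l) (ah' := 3 / 5 * l) (by (clear * - hα'; linarith)) le_rfl le_rfl le_rfl
        (sl' := -(7 / 10 * l)) (by (clear * - hα hsl2 hsl'; linarith)) le_rfl le_rfl le_rfl).toFam,
        split_XXU hβ hβ' hx (hX.toQ hR)⟩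
      ⟨(FY.mono (al' := 3 / 5 * l) (ah' := 3 / 5 * l) (by (clear * - hα'; linarith)) le_rfl le_rfl le_rfl
        (sl' := -(7 / 10 * l)) (by linarith) le_rfl le_rfl le_rfl).toFam,
        split_XXU hβ hβ' hy (hY.toQ hR)⟩ _ _ ?_ ?_
    · intro p p' k k' i
      rw [hst]
      rcases hki : k i with _ | _ | _ <;> simp only [lo4] <;> constructor <;> (clear * - hα hsl2 hsl'; linarith)
    · intro p p' k k' i
      rw [hst]
      rcases hki : k' i with _ | _ | _ <;> simp only [lo4] <;> constructor <;> (clear * - hα hsl2 hsl'; linarith)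
  -- the quanta
  have hs1 : StripsA α (3 / 5 * l) (-(17 / 10 * l)) (-(101 / 100 * l)) (-(7 / 10 * l)) (-(7 / 10 * l))
      (-(7 / 10 * l)) (-(l / 2)) (-(7 / 10 * l)) (-(l / 2)) := by
    constructor <;> (clear * - hα hsl2 hsl'; linarith)
  have step1 : ZobjQ (XXU c β x y g g0 s1 s2) (XXU c' β y x g' g0' t1 t2) (3 / 5 * l) n n'
        (fun _ _ k _ i => st (k i)) (fun _ _ _ k' i => st (k' i)) =
      ZobjQ (XXU c β x y g g0 s1 s2) (XXU c' β y x g' g0' t1 t2) α n n'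
        (fun _ _ k _ i => st (k i)) (fun _ _ _ k' i => st (k' i)) := by
    refine ZobjQ_move hs1 hκ (FX.mono le_rfl le_rfl le_rfl le_rfl (by (clear * - hα hsl2 hsl'; linarith)) le_rfl le_rfl le_rfl)
      (FY.mono le_rfl le_rfl le_rfl le_rfl (by (clear * - hα hsl2 hsl'; linarith)) le_rfl le_rfl le_rfl) ⟨hα', le_rfl⟩ ⟨le_rfl, hα'⟩
      ?_ ?_ ?_ ?_ <;>
    · intro p p' k k' i
      rw [hst]
      first
      | (rcases hki : k i with _ | _ | _ <;> simp only [lo4] <;> constructor <;> (clear * - hα hsl2 hsl'; linarith))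
      | (rcases hki : k' i with _ | _ | _ <;> simp only [lo4] <;> constructor <;> (clear * - hα hsl2 hsl'; linarith))
  -- the other objects
  have hs2 : StripsA α α (-(17 / 10 * l)) (-(101 / 100 * l)) sl (-(7 / 10 * l))
      (-(7 / 10 * l)) (-(l / 2)) sl (-(l / 2)) := by
    constructor <;> (clear * - hα hsl2 hsl'; linarith)
  have step2 : ZobjQ (XXU c β x y g g0 s1 s2) (XXU c' β y x g' g0' t1 t2) α n n'
        (fun _ _ k _ i => st (k i)) (fun _ _ _ k' i => st (k' i)) =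
      ZobjQ (XXU c β x y g g0 s1 s2) (XXU c' β y x g' g0' t1 t2) α n n' lnX lnY := by
    refine ZobjQ_move hs2 hκ (FX.mono le_rfl hα' le_rfl le_rfl le_rfl le_rfl le_rfl le_rfl)
      (FY.mono le_rfl hα' le_rfl le_rfl le_rfl le_rfl le_rfl le_rfl) ⟨le_rfl, le_rfl⟩ ⟨le_rfl, le_rfl⟩
      ?_ ?_ hlX hlY
    · intro p p' k k' i
      rw [hst]
      rcases hki : k i with _ | _ | _ <;> simp only [lo4] <;> constructor <;> (clear * - hα hsl2 hsl'; linarith)
    · intro p p' k k' i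
      rw [hst]
      rcases hki : k' i with _ | _ | _ <;> simp only [lo4] <;> constructor <;> (clear * - hα hsl2 hsl'; linarith)
  rw [step0, step1, step2]

end stage

/-- **the state sums as sums over the classes, lines of the particle-hole form** -/
theorem DZU_clsP {c c' : ℂ} {s t : ℂ → ℂ} {x : Fin m → ℂ} {y : Fin M → ℂ} {β q : ℝ} (hβ : 0 < β)
    (hβ' : β ≤ 4 / 3) (hx : Rws x) (hy : Rws y)
    {α sl : ℝ} (hR : LnR α sl)
    {g g' g0 g0' s2 t2 : ℂ → ℂ} (hg : GOk β g) (hg' : GOk β g') (hg0 : GOn (K2P sl) (4 / 3) g0)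
    (hg0' : GOn (K2P sl) (4 / 3) g0') (hs : SpU q s) (ht : SpU (-q) t) (hs2 : SpecP α sl true (-q) s s2)
    (ht2 : SpecP α sl false (-q) t t2) {n n' : ℕ} (hn : (n' : ℝ) + m = n + M + q)
    (lnX : ∀ p p' : ℕ, (Fin p → O3) → (Fin p' → O3) → Fin p → ℝ)
    (lnY : ∀ p p' : ℕ, (Fin p → O3) → (Fin p' → O3) → Fin p' → ℝ)
    (hlX : ∀ p p' k k' i, lnX p p' k k' i ∈ Set.Icc
      (lo4 α (-(17 / 10 * l)) sl (-(7 / 10 * l)) (some (k i)))
      (lo4 α (-(101 / 100 * l)) (-(7 / 10 * l)) (-(l / 2)) (some (k i))))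
    (hlY : ∀ p p' k k' i, lnY p p' k k' i ∈ Set.Icc
      (lo4 α (-(17 / 10 * l)) sl (-(7 / 10 * l)) (some (k' i)))
      (lo4 α (-(101 / 100 * l)) (-(7 / 10 * l)) (-(l / 2)) (some (k' i)))) :
    DZU c c' s t x y n n' =
      ZobjQ (XXU c β x y g g0 s s2) (XXU c' β y x g' g0' t t2) α n n' lnX lnY := by
  rw [DZU_GU hβ hβ' hx hy hg hg' hs ht hn, ← GXU_eq_GU, ← GXU_eq_GU]
  exact stageXUP hβ hβ' hx hy hg hR hg0 hg' hg0' n n' hn hs2 ht2 lnX lnY hlX hlY

end Pool.Agent.PLX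

end
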