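import Pool.Agent.PLX.FunQ

/-!
# Two fillings: the inputs `U1Q`, `U0Q 1` of the function side from the bound on the right (port of PB/U1Of)

* `FxLe q δ`: `‖fxQ q k x z‖ ≤ (k + 1) ^ δ exp (2 |Im z|)` for `-9/10 l ≤ Re z < 31/10 l`;
* `FxLe.both`: both signs of `Re z`; **`u1Q_of`**, **`u0Q_of`**.
-/

set_option autoImplicit false
set_option linter.unusedSectionVars false

noncomputable section

open Complex MeasureTheory Set Filter Topology

namespace Pool.Agent.PLX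

open Pool.Agent.PB (Rwo neg_cons Rws_cons xr)

/-- the bound of the function with one moved row, `Re z ≥ -9/10 l` -/
def FxLe (q : ℕ) (δ : ℝ) : Prop := ∃ m0 : ℕ, ∀ k : ℕ, m0 ≤ k → ∀ x z : ℂ,
  |x.re| ≤ NUMF.l / 10 → |x.im| ≤ 2 → -(9 / 10 * NUMF.l) ≤ z.re → z.re < 31 / 10 * NUMF.l →
  |z.im| ≤ 3 / 20 * Real.log (k + 1 : ℕ) + 2 →
  ‖fxQ q k x z‖ ≤ ((k + 1 : ℕ) : ℝ) ^ δ * Real.exp (2 * |z.im|)

variable {q : ℕ}

/-- symmetry -/
theorem fxQ_neg (q N : ℕ) {x : ℂ} (h : |x.re| < 3 / 5 * NUP1.l) {z : ℂ} (hz : |z.re| < 43 / 10 * NUP1.l) :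
    fxQ q N (-x) (-z) = fxQ q N x z := by
  have h1 := fQ_even (q := q) (mu := xr N x) (Pool.Agent.PB.Rwo.cons h (Pool.Agent.PB.Rwo_zero N)) hz
  have e : -(xr N x) = xr N (-x) := by
    rw [Pool.Agent.PB.neg_cons]
    have : -(fun _ : Fin N => (0 : ℂ)) = fun _ : Fin N => (0 : ℂ) := by
      funext i
      simp
    rw [this]
  rw [e] at h1
  exact h1

/-- **the bound of the function with one moved row** -/
theorem FxLe.both {δ : ℝ} (h : FxLe q δ) : ∃ m0 : ℕ, ∀ k : ℕ, m0 ≤ k → ∀ x z : ℂ,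
    |x.re| ≤ NUMF.l / 10 → |x.im| ≤ 2 → |z.re| < 31 / 10 * NUMF.l →
    |z.im| ≤ 3 / 20 * Real.log (k + 1 : ℕ) + 2 →
    ‖fxQ q k x z‖ ≤ ((k + 1 : ℕ) : ℝ) ^ δ * Real.exp (2 * |z.im|) := by
  obtain ⟨m0, H⟩ := h
  refine ⟨m0, fun k hk x z hx hx' hz hz' => ?_⟩
  have hl := NUMF.l_pos
  have hlN : NUP1.l = NUMF.l := rfl
  obtain ⟨z1, z2⟩ := abs_lt.1 hz
  rcases le_or_gt (-(9 / 10 * NUMF.l)) z.re with h1 | h1
  · exact H k hk x z hx hx' h1 z2 hz'
  · rw [← fxQ_neg q k (by rw [hlN]; linarith) (by rw [hlN]; linarith)]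
    have := H k hk (-x) (-z) (by rwa [neg_re, abs_neg]) (by rwa [neg_im, abs_neg])
      (by rw [neg_re]; linarith) (by rw [neg_re]; linarith) (by rwa [neg_im, abs_neg])
    rwa [neg_im, abs_neg] at this

/-- **the bound of the function at the rows `0`** -/
theorem FxLe.zero {δ : ℝ} (h : FxLe q δ) : ∃ m0 : ℕ, ∀ j : ℕ, m0 ≤ j → ∀ z : ℂ,
    |z.re| < 31 / 10 * NUMF.l → |z.im| ≤ 3 / 20 * Real.log j + 2 →
    ‖f0Q q j z‖ ≤ (j : ℝ) ^ δ * Real.exp (2 * |z.im|) := by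
  obtain ⟨m0, H⟩ := h.both
  refine ⟨m0 + 1, fun j hj z hz hz' => ?_⟩
  have hl := NUMF.l_pos
  obtain ⟨k, rfl⟩ : ∃ k, j = k + 1 := ⟨j - 1, by omega⟩
  rw [← fxQ_zero]
  exact H k (by omega) 0 z (by simp; positivity) (by simp) hz hz'

/-- powers -/
theorem ev_powQ {a b : ℝ} (C : ℝ) (hab : a < b) :
    ∀ᶠ j : ℕ in atTop, C * (j : ℝ) ^ a ≤ (j : ℝ) ^ b := by
  have t1 : Tendsto (fun j : ℕ => (j : ℝ) ^ (b - a)) atTop atTop :=
    (tendsto_rpow_atTop (by linarith)).comp tendsto_natCast_atTop_atTop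
  filter_upwards [t1.eventually_ge_atTop C, eventually_ge_atTop 1] with j h1 h2
  have hj : (0 : ℝ) < j := by exact_mod_cast h2
  have e : (j : ℝ) ^ b = (j : ℝ) ^ (b - a) * (j : ℝ) ^ a := by
    rw [← Real.rpow_add hj]
    congr 1
    ring
  rw [e]
  exact mul_le_mul_of_nonneg_right h1 (by positivity)

/-- `j + 1` rows -/
theorem succ_powQ {δ : ℝ} (h0 : 0 ≤ δ) (h1 : δ ≤ 1) {j : ℕ} (hj : 1 ≤ j) :
    ((j + 1 : ℕ) : ℝ) ^ δ ≤ 2 * (j : ℝ) ^ δ := by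
  have hj' : (1 : ℝ) ≤ j := by exact_mod_cast hj
  have h2 : ((j + 1 : ℕ) : ℝ) ≤ 2 * j := by
    push_cast
    linarith
  calc ((j + 1 : ℕ) : ℝ) ^ δ ≤ (2 * (j : ℝ)) ^ δ := Real.rpow_le_rpow (by positivity) h2 h0
    _ = 2 ^ δ * (j : ℝ) ^ δ := Real.mul_rpow (by norm_num) (by positivity)
    _ ≤ 2 * (j : ℝ) ^ δ := by
        refine mul_le_mul_of_nonneg_right ?_ (by positivity)
        calc (2 : ℝ) ^ δ ≤ 2 ^ (1 : ℝ) := Real.rpow_le_rpow_of_exponent_le (by norm_num) h1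
          _ = 2 := Real.rpow_one 2

/-- **(U1)** -/
theorem u1Q_of (h : ∀ δ : ℝ, 0 < δ → FxLe q δ) : U1Q q := by
  intro ε hε
  obtain ⟨δ, hδ, hδ1, hδε⟩ : ∃ δ : ℝ, 0 < δ ∧ δ ≤ 1 ∧ δ < ε :=
    ⟨min 1 (ε / 2), lt_min one_pos (by linarith), min_le_left _ _,
      (min_le_right _ _).trans_lt (by linarith)⟩
  obtain ⟨m0, H0⟩ := (h δ hδ).zero
  obtain ⟨m1, H1⟩ := (h δ hδ).both
  have hl := NUMF.l_pos
  constructor
  · filter_upwards [eventually_ge_atTop m0, eventually_ge_atTop 1] with j h1 h2 z hz hz'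
    have hj : (1 : ℝ) ≤ j := by exact_mod_cast h2
    have hlog : 0 ≤ Real.log j := Real.log_nonneg hj
    have hz1 : |z.re| ≤ 3 * NUMF.l := by
      refine hz.trans (le_of_eq ?_)
      rw [PBV.aL_eq]
      rfl
    refine (H0 j h1 z (by linarith) (by linarith)).trans ?_
    exact mul_le_mul_of_nonneg_right (Real.rpow_le_rpow_of_exponent_le hj hδε.le)
      (Real.exp_pos _).le
  · filter_upwards [eventually_ge_atTop m1, eventually_ge_atTop 1,
      ev_powQ (2 * Real.exp 2) hδε] with j h1 h2 h3 s hs t ht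
    have hj : (1 : ℝ) ≤ j := by exact_mod_cast h2
    have hlog : 0 ≤ Real.log (j + 1 : ℕ) := Real.log_nonneg (by push_cast; linarith)
    have k1 := H1 j h1 (I * s) (I * t) (by simp; positivity)
      (by simp [abs_of_nonneg hs.1]; linarith [hs.2]) (by simp; positivity)
      (by simp [abs_of_nonneg ht.1]; push_cast at hlog; linarith [ht.2])
    refine k1.trans (le_trans ?_ h3)
    have e1 : (I * (t : ℂ)).im = t := by simp
    rw [e1, abs_of_nonneg ht.1]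
    calc ((j + 1 : ℕ) : ℝ) ^ δ * Real.exp (2 * t) ≤ (2 * (j : ℝ) ^ δ) * Real.exp 2 := by
          refine mul_le_mul (succ_powQ hδ.le hδ1 h2) (Real.exp_le_exp.2 (by linarith [ht.2]))
            (Real.exp_pos _).le (by positivity)
      _ = _ := by ring

/-- **(U0)** -/
theorem u0Q_of (h : ∀ δ : ℝ, 0 < δ → FxLe q δ) : U0Q q 1 := by
  obtain ⟨m0, H0⟩ := (h (1 / 10) (by norm_num)).zero
  obtain ⟨m1, H1⟩ := (h (1 / 10) (by norm_num)).both
  have hl := NUMF.l_pos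
  have hlN : NUP1.l = NUMF.l := rfl
  have key : ∀ j : ℕ, 1 ≤ j → ∀ y : ℝ, |y| ≤ 3 / 20 * Real.log j + 1 →
      (j : ℝ) ^ (1 / 10 : ℝ) * Real.exp (2 * |y|) ≤ Real.exp 2 * (j : ℝ) ^ (2 / 5 : ℝ) := by
    intro j hj y hy
    have hj' : (0 : ℝ) < j := by exact_mod_cast hj
    have e1 : (j : ℝ) ^ (2 / 5 : ℝ) = (j : ℝ) ^ (1 / 10 : ℝ) * (j : ℝ) ^ (3 / 10 : ℝ) := by
      rw [← Real.rpow_add hj']
      norm_num
    have e2 : Real.exp (2 * |y|) ≤ Real.exp 2 * (j : ℝ) ^ (3 / 10 : ℝ) := by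
      rw [Real.rpow_def_of_pos hj', ← Real.exp_add]
      refine Real.exp_le_exp.2 ?_
      linarith
    rw [e1]
    calc (j : ℝ) ^ (1 / 10 : ℝ) * Real.exp (2 * |y|) ≤
        (j : ℝ) ^ (1 / 10 : ℝ) * (Real.exp 2 * (j : ℝ) ^ (3 / 10 : ℝ)) :=
          mul_le_mul_of_nonneg_left e2 (by positivity)
      _ = _ := by ring
  constructor
  · filter_upwards [eventually_ge_atTop m0, eventually_ge_atTop 1,
      ev_powQ (Real.exp 2) (show (2 / 5 : ℝ) < 1 by norm_num)] with j h1 h2 h3 z hz hz'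
    have hz1 : |z.re| < 31 / 10 * NUMF.l := by
      have : |z.re| ≤ 61 / 20 * NUMF.l := hz
      linarith
    exact (H0 j h1 z hz1 (by linarith)).trans ((key j h2 _ hz').trans h3)
  · filter_upwards [eventually_ge_atTop m1, eventually_ge_atTop 1,
      ev_powQ (2 * Real.exp 2) (show (2 / 5 : ℝ) < 1 by norm_num)] with j h1 h2 h3 s hs z hz hz'
    have hj : (1 : ℝ) ≤ j := by exact_mod_cast h2
    have hz1 : |z.re| < 31 / 10 * NUMF.l := by
      have : |z.re| ≤ 61 / 20 * NUMF.l := hz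
      linarith
    have hlog : Real.log j ≤ Real.log (j + 1 : ℕ) :=
      Real.log_le_log (by linarith) (by push_cast; linarith)
    have k1 := H1 j h1 (I * s) z (by simp; positivity)
      (by simp [abs_of_nonneg hs.1]; linarith [hs.2]) hz1 (by linarith)
    refine k1.trans (le_trans ?_ h3)
    calc ((j + 1 : ℕ) : ℝ) ^ (1 / 10 : ℝ) * Real.exp (2 * |z.im|) ≤
        (2 * (j : ℝ) ^ (1 / 10 : ℝ)) * Real.exp (2 * |z.im|) :=
          mul_le_mul_of_nonneg_right (succ_powQ (by norm_num) (by norm_num) h2) (Real.exp_pos _).le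
      _ = 2 * ((j : ℝ) ^ (1 / 10 : ℝ) * Real.exp (2 * |z.im|)) := by ring
      _ ≤ 2 * (Real.exp 2 * (j : ℝ) ^ (2 / 5 : ℝ)) :=
          mul_le_mul_of_nonneg_left (key j h2 _ hz') (by norm_num)
      _ = _ := by ring

end Pool.Agent.PLX

end
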