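import Pool.Agent.NUBR.RN
import Pool.Agent.NUAct.U
import Pool.Agent.NUAct.FE

/-!
# PLAX: the own and the cross factor of a row on the line `l + i z`

* `own_line`: `1 / (|sin u| |sin (u - 2 l)|) = exp (Re vs z)`, `u = l + i z`, `|Im z| < l`;
* `cross_line`: `|sin (u + 3 l)| ^ 2 = exp (Re vx z)`;
* `own_row`, `cross_row`: a row at the real height `y` on the imaginary axis (`u - x`, `x = - i y`).
-/

set_option autoImplicit false

noncomputable section

open Complex

namespace Pool.Agent.PLX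

theorem re_Ly {y : ℝ} {z : ℂ} (h : |z.im| + |y| < Real.pi / 2) :
    Real.exp (NUAct.Ly y z).re = ‖Complex.cosh (2 * z) + Real.cos (2 * y)‖ := by
  rw [← Complex.norm_exp, NUAct.exp_Ly h]

/-- **the cross factor of a row** -/
theorem cross_line {z : ℂ} (hz : |z.im| < NUMF.l) :
    ‖sin (NUP1.l + I * z + 3 * NUP1.l)‖ ^ 2 = Real.exp (NUAct.vx z).re := by
  have h := re_Ly (NUAct.a0 hz)
  have e : (NUAct.vx z).re = (NUAct.Ly 0 z).re - Real.log 2 := by
    unfold NUAct.vx
    rw [Complex.sub_re, Complex.ofReal_re]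
  rw [e, Real.exp_sub, Real.exp_log two_pos, h, NUBR.sin3, ← norm_pow, NUBR.cosh_sq', norm_div]
  simp

/-- **the own factor of a row** -/
theorem own_line {z : ℂ} (hz : |z.im| < NUMF.l) :
    1 / (‖sin (NUP1.l + I * z)‖ * ‖sin (NUP1.l + I * z - 2 * NUP1.l)‖) = Real.exp (NUAct.vs z).re := by
  have h := re_Ly (NUAct.a3 hz)
  have e : (NUAct.vs z).re = Real.log 2 - (NUAct.Ly (3 * NUMF.l) z).re := by
    unfold NUAct.vs
    rw [Complex.sub_re, Complex.ofReal_re]
  have hr : Real.cos (2 * (3 * NUMF.l)) = -NUMF.r := by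
    rw [NUMF.r_eq, ← Real.cos_pi_sub]
    congr 1
    unfold NUMF.l
    ring
  rw [e, Real.exp_sub, Real.exp_log two_pos, h, ← norm_mul, NUBR.sin_sin, norm_neg, norm_div, hr,
    Complex.ofReal_neg, ← sub_eq_add_neg]
  simp only [Complex.norm_ofNat, one_div, inv_div]

/-- a row at `x = - i y` -/
theorem cross_row (y : ℝ) {z : ℂ} (hz : |z.im| < NUMF.l) :
    ‖sin (NUP1.l + I * z - (-(y * I)) + 3 * NUP1.l)‖ ^ 2 = Real.exp (NUAct.vx (z + y)).re := by
  have h := cross_line (z := z + y) (by simpa using hz)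
  rw [← h]
  congr 3
  ring

/-- a row at `x = - i y` -/
theorem own_row (y : ℝ) {z : ℂ} (hz : |z.im| < NUMF.l) :
    1 / (‖sin (NUP1.l + I * z - (-(y * I)))‖ * ‖sin (NUP1.l + I * z - (-(y * I)) - 2 * NUP1.l)‖) =
      Real.exp (NUAct.vs (z + y)).re := by
  have h := own_line (z := z + y) (by simpa using hz)
  rw [← h]
  have e : (NUP1.l : ℂ) + I * (z + y) = NUP1.l + I * z - (-(y * I)) := by ring
  rw [e]

end Pool.Agent.PLX

end
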