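import Pool.Agent.PLX.NzV
import Pool.Agent.PLX.Yq

/-!
# PLAX: the rows of the second group are `q`-fold rows

* rows `yqn q y` (PLX/Yq): `hr_yqn`, `hr_yqn'`, `ph_yqn`, `D2_yqn`;
* `fQ q mu z := fU mu (yqn q mu) z`; `f0Q q N z`, `fxQ q N ξ z` : the rows `0^N`, `ξ, 0^N` in the first
  group, every one `q`-fold in the second;
* `fQ_hol`, **`fQ_Hol2`, `fxQ_Hol2`**, `fxQ_eta`, `fxQ_tau`, `fxQ_tau2`, `.._cont_I`;
* `f0Q_even`, **`f0Q_zeros`, `fxQ_zeros`**, `fxQ_zero`;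
* `SQ q z mu` : the sum over the numbers `n`, `n + (q - 1) m`; `fQ_eq`, **`fxQ_deriv_row`**,
  `fxQ_deriv_leg`, `fxQ_deriv_leg2` : product formulas.
-/

set_option autoImplicit false
set_option linter.unusedSectionVars false
set_option linter.unusedVariables false

noncomputable section

open Complex Filter Topology Metric Set

namespace Pool.Agent.PLX

open NUP1 (l lpos)
open NUP1.Grand (P)
open NUP1.Leg (hr)
open PBR (rh rh_neg)
open PBX (Lg Rws ph)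
open PBH (Hol2)
open Pool.Agent.PB
open RX (sumU)

variable {m M : ℕ}

/-! ### `q`-fold rows -/

/-- the index of the first copy -/
def iq (q : ℕ) (hq : 1 ≤ q) (j : Fin m) : Fin (q * m) := finProdFinEquiv (⟨0, hq⟩, j)

theorem iq_inj (q : ℕ) (hq : 1 ≤ q) : Function.Injective (iq (m := m) q hq) := fun i j h => by
  have := finProdFinEquiv.injective h
  exact (Prod.mk.inj this).2

theorem modNat_iq (q : ℕ) (hq : 1 ≤ q) (j : Fin m) : (iq q hq j).modNat = j := by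
  have := (finProdFinEquiv (m := q) (n := m)).symm_apply_apply (⟨0, hq⟩, j)
  exact congrArg Prod.snd this

theorem yqn_iq (q : ℕ) (hq : 1 ≤ q) (y : Fin m → ℂ) (j : Fin m) : yqn q y (iq q hq j) = y j := by
  unfold yqn
  rw [modNat_iq]

theorem yqn_neg (q : ℕ) (y : Fin m → ℂ) : yqn q (-y) = -yqn q y := rfl

theorem Rwo_yqn {q : ℕ} {y : Fin m → ℂ} (h : Rwo y) : Rwo (yqn q y) := fun j => h _

/-- the product over the pairs of a symmetric function, squared -/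
theorem P_sq {k : ℕ} (F : Fin k → Fin k → ℂ) (hF : ∀ i j, F i j = F j i) :
    (∏ i, ∏ j, F i j) = P F ^ 2 * ∏ i, F i i := by
  have h1 : ∀ i : Fin k, ∏ j, F i j = (∏ j, if i < j then F i j else 1) *
      ((∏ j, if j < i then F i j else 1) * F i i) := by
    intro i
    have h2 : ∏ j, (if j = i then F i j else 1) = F i i := by simp
    rw [← h2, ← Finset.prod_mul_distrib, ← Finset.prod_mul_distrib]
    refine Finset.prod_congr rfl fun j _ => ?_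
    rcases lt_trichotomy i j with h | h | h
    · simp [h, h.not_gt, h.ne']
    · simp [h]
    · simp [h, h.not_gt, h.ne]
  have h3 : (∏ i, ∏ j, if j < i then F i j else 1) = P F := by
    unfold NUP1.Grand.P
    rw [Finset.prod_comm]
    refine Finset.prod_congr rfl fun i _ => Finset.prod_congr rfl fun j _ => ?_
    rw [hF]
  rw [Finset.prod_congr rfl fun i _ => h1 i, Finset.prod_mul_distrib, Finset.prod_mul_distrib, h3]
  have h4 : (∏ i, ∏ j, if i < j then F i j else 1) = P F := rfl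
  rw [h4]
  ring

/-- one row of each of the products -/
theorem hr_yqn (c : ℂ) (q : ℕ) (x : Fin M → ℂ) (y : Fin m → ℂ) (u : ℂ) : hr c x (yqn q y) u =
    c * (∏ i, 1 / sin (u - x i - 2 * l)) * (∏ i, sin (u - y i + 3 * l) ^ 2) ^ q := by
  unfold NUP1.Leg.hr
  rw [prod_yqn q (fun w => sin (u - w + 3 * l) ^ 2) y]

theorem hr_yqn' (c : ℂ) (q : ℕ) (x : Fin m → ℂ) (y : Fin M → ℂ) (u : ℂ) : hr c (yqn q x) y u =
    c * (∏ i, 1 / sin (u - x i - 2 * l)) ^ q * ∏ i, sin (u - y i + 3 * l) ^ 2 := by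
  unfold NUP1.Leg.hr
  rw [prod_yqn q (fun w => 1 / sin (u - w - 2 * l)) x]

theorem ph_yqn (β : ℝ) (q : ℕ) (x : Fin m → ℂ) (g : ℂ → ℂ) (u : ℂ) :
    ph β (yqn q x) g u = 1 - (∏ i, NUP1.psi β (u - x i)) ^ q * g u := by
  unfold PBX.ph
  rw [prod_yqn q (fun w => NUP1.psi β (u - w)) x]

theorem D2_yqn (q : ℕ) (x : Fin M → ℂ) (y : Fin m → ℂ) : D2 x (yqn q y) = D2 x y ^ q := by
  unfold PB.D2
  rw [← Finset.prod_pow]
  exact Finset.prod_congr rfl fun i _ => prod_yqn q (fun w => rh (x i - w) ^ 2) y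

/-! ### the function -/

/-- **rows `mu` in the first group, every row `q`-fold in the second** -/
def fQ (q : ℕ) (mu : Fin m → ℂ) (z : ℂ) : ℂ := fU mu (yqn q mu) z

theorem fQ_right {q : ℕ} {mu : Fin m → ℂ} (hmu : Rwo mu) {z : ℂ} (hz : z ∈ LS) :
    fQ q mu z = nzU z mu (yqn q mu) := fU_right hmu (Rwo_yqn hmu) hz

theorem fQ_left {q : ℕ} {mu : Fin m → ℂ} (hmu : Rwo mu) {z : ℂ} (hz : -z ∈ LS) :
    fQ q mu z = nzU (-z) (-mu) (yqn q (-mu)) := fU_left hmu (Rwo_yqn hmu) hz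

/-- **(A2)** -/
theorem fQ_even {q : ℕ} {mu : Fin m → ℂ} (hmu : Rwo mu) {z : ℂ} (hz : |z.re| < 43 / 10 * l) :
    fQ q (-mu) (-z) = fQ q mu z := fU_even hmu (Rwo_yqn hmu) hz

/-- joint continuity -/
theorem fQ_tendsto {E : Type*} {F : Filter E} [F.IsCountablyGenerated] (q : ℕ) {z : E → ℂ}
    {x : E → Fin m → ℂ} {z0 : ℂ} {x0 : Fin m → ℂ} (tz : Tendsto z F (𝓝 z0))
    (tx : ∀ i, Tendsto (fun e => x e i) F (𝓝 (x0 i))) (hx0 : Rwo x0)
    (hz : |z0.re| < 43 / 10 * l) : Tendsto (fun e => fQ q (x e) (z e)) F (𝓝 (fQ q x0 z0)) :=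
  fU_tendsto' (y := fun e => yqn q (x e)) tz tx (fun j => tx _) hx0 (Rwo_yqn hx0) hz

/-- holomorphy along analytic curves of legs and rows -/
theorem fQ_hol (q : ℕ) {z : ℂ → ℂ} {x : ℂ → Fin m → ℂ} {θ0 : ℂ}
    (dz : ∀ᶠ θ in 𝓝 θ0, DifferentiableAt ℂ z θ)
    (dx : ∀ᶠ θ in 𝓝 θ0, ∀ i, DifferentiableAt ℂ (fun θ => x θ i) θ) (hx : Rwo (x θ0))
    (hz : |(z θ0).re| < 43 / 10 * l) : DifferentiableAt ℂ (fun θ => fQ q (x θ) (z θ)) θ0 :=
  fU_hol (y := fun θ => yqn q (x θ)) dz dx (dx.mono fun θ h j => h _) hx (Rwo_yqn hx) hz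

theorem fQ_diff (q : ℕ) {mu : Fin m → ℂ} (hmu : Rwo mu) :
    DifferentiableOn ℂ (fQ q mu) {z | |z.re| < 43 / 10 * l} := fU_diff hmu (Rwo_yqn hmu)

/-- **the zeros of the difference** -/
theorem fQ_zeros {q : ℕ} (hq : 1 ≤ q) {mu : Fin m → ℂ} (hmu : Rws mu) :
    ∃ Q : ℂ → ℂ, DifferentiableOn ℂ Q {z | |z.re| < 13 / 10 * l} ∧
      ∀ z, fQ q mu (z + 3 * l) - fQ q mu (z - 3 * l) = (∏ j, (z - mu j)) * Q z :=
  fU_zeros hmu (Rws_yqn hmu) (iq_inj q hq) (yqn_iq q hq mu)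

/-- **`fQ (ξ, mu) z` as a function of `(ξ, z)`** -/
theorem fQ_Hol2 (q : ℕ) {mu : Fin m → ℂ} (hmu : Rwo mu) :
    Hol2 WX (fun ξ z => fQ q (Fin.cons ξ mu : Fin (m + 1) → ℂ) z) where
  cont p hp := fQ_tendsto (F := 𝓝 p) q (z := fun p : ℂ × ℂ => p.2)
    (x := fun p : ℂ × ℂ => (Fin.cons p.1 mu : Fin (m + 1) → ℂ)) (continuous_snd.tendsto p)
    (PBX.cons_tendsto (continuous_fst.tendsto p) fun _ => tendsto_const_nhds)
    (Rwo.cons hp.1 hmu) hp.2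
  d1 p hp := fQ_hol q (z := fun _ => p.2) (x := fun ξ => (Fin.cons ξ mu : Fin (m + 1) → ℂ))
    (Eventually.of_forall fun _ => differentiableAt_const _)
    (Eventually.of_forall fun ξ i => PBX.cons_diff mu i ξ) (Rwo.cons hp.1 hmu) hp.2
  d2 p hp := fQ_hol q (z := fun z => z) (x := fun _ => (Fin.cons p.1 mu : Fin (m + 1) → ℂ))
    (Eventually.of_forall fun _ => differentiableAt_id)
    (Eventually.of_forall fun _ _ => differentiableAt_const _) (Rwo.cons hp.1 hmu) hp.2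

/-! ### the rows `0` and one moved row -/

/-- `N` rows at `0`, `q`-fold in the second group -/
def f0Q (q N : ℕ) (z : ℂ) : ℂ := fQ q (fun _ : Fin N => (0 : ℂ)) z

/-- the rows `ξ, 0, .., 0` (`N + 1` rows), `q`-fold in the second group -/
def fxQ (q N : ℕ) (ξ z : ℂ) : ℂ := fQ q (xr N ξ) z

theorem fxQ_zero (q N : ℕ) (z : ℂ) : fxQ q N 0 z = f0Q q (N + 1) z := by
  unfold fxQ f0Q
  congr 1
  funext i
  refine Fin.cases ?_ (fun j => ?_) i
  · simp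
  · simp

theorem f0Q_even (q N : ℕ) {z : ℂ} (hz : |z.re| < 43 / 10 * l) : f0Q q N (-z) = f0Q q N z := by
  have h := fQ_even (q := q) (Rwo_zero N) hz
  have e : -(fun _ : Fin N => (0 : ℂ)) = fun _ : Fin N => (0 : ℂ) := by
    funext i
    simp
  rw [e] at h
  exact h

theorem f0Q_diff (q N : ℕ) : DifferentiableOn ℂ (f0Q q N) {z | |z.re| < 43 / 10 * l} :=
  fQ_diff q (Rwo_zero N)

theorem fxQ_diff (q N : ℕ) {ξ : ℂ} (h : |ξ.re| < 3 / 5 * l) :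
    DifferentiableOn ℂ (fxQ q N ξ) {z | |z.re| < 43 / 10 * l} := fQ_diff q (Rwo.cons h (Rwo_zero N))

/-- the zeros of the difference, rows `0` -/
theorem f0Q_zeros {q : ℕ} (hq : 1 ≤ q) (N : ℕ) :
    ∃ Q : ℂ → ℂ, DifferentiableOn ℂ Q {z | |z.re| < 13 / 10 * l} ∧
      ∀ z, f0Q q N (z + 3 * l) - f0Q q N (z - 3 * l) = z ^ N * Q z := by
  obtain ⟨Q, hQ, h⟩ := fQ_zeros hq (Rws_zero N)
  refine ⟨Q, hQ, fun z => ?_⟩
  have := h z
  simp only [sub_zero, Finset.prod_const, Finset.card_univ, Fintype.card_fin] at this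
  exact this

/-- the zeros of the difference, one moved row -/
theorem fxQ_zeros {q : ℕ} (hq : 1 ≤ q) (N : ℕ) {x : ℂ} (hx : |x.re| ≤ l / 2) :
    ∃ Q : ℂ → ℂ, DifferentiableOn ℂ Q {z | |z.re| < 13 / 10 * l} ∧
      ∀ z, fxQ q N x (z + 3 * l) - fxQ q N x (z - 3 * l) = (z - x) * z ^ N * Q z := by
  obtain ⟨Q, hQ, h⟩ := fQ_zeros hq (Rws_cons (N := N) hx)
  refine ⟨Q, hQ, fun z => ?_⟩
  have := h z
  rw [Fin.prod_univ_succ] at this
  simp only [Fin.cons_zero, Fin.cons_succ, sub_zero, Finset.prod_const, Finset.card_univ,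
    Fintype.card_fin] at this
  exact this

/-- **`fxQ q N ξ z` as a function of `(ξ, z)`** -/
theorem fxQ_Hol2 (q N : ℕ) : Hol2 WX (fxQ q N) := fQ_Hol2 q (Rwo_zero N)

/-- **derivative along the row** -/
theorem fxQ_eta (q N : ℕ) {x0 z : ℂ} (h0 : |x0.re| < 3 / 5 * l) (hz : |z.re| < 43 / 10 * l) (s : ℝ) :
    HasDerivAt (fun s : ℝ => fxQ q N (x0 + I * s) z)
      (I * deriv (fun ξ => fxQ q N ξ z) (x0 + I * s)) s := by
  have h : (x0 + s * I, z) ∈ WX := ⟨by simpa using h0, hz⟩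
  have := (fxQ_Hol2 q N).im1 h
  simp only [mul_comm _ I] at this
  exact this

/-- **derivative along the legs** -/
theorem fxQ_tau (q N : ℕ) {ξ z0 : ℂ} (h0 : |ξ.re| < 3 / 5 * l) (hz : |z0.re| < 43 / 10 * l) (t : ℝ) :
    HasDerivAt (fun t : ℝ => fxQ q N ξ (z0 + I * t)) (I * deriv (fxQ q N ξ) (z0 + I * t)) t := by
  have h : (ξ, z0 + t * I) ∈ WX := ⟨h0, by simpa using hz⟩
  have := (fxQ_Hol2 q N).im2 h
  simp only [mul_comm _ I] at this
  exact this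

/-- **second derivative along the legs** -/
theorem fxQ_tau2 (q N : ℕ) {ξ z0 : ℂ} (h0 : |ξ.re| < 3 / 5 * l) (hz : |z0.re| < 43 / 10 * l) (t : ℝ) :
    HasDerivAt (fun t : ℝ => I * deriv (fxQ q N ξ) (z0 + I * t))
      (-deriv (deriv (fxQ q N ξ)) (z0 + I * t)) t := by
  have h : (ξ, z0 + t * I) ∈ WX := ⟨h0, by simpa using hz⟩
  have h1 := (((fxQ_Hol2 q N).D2 WX_open).im2 h).const_mul I
  simp only [mul_comm _ I] at h1
  refine h1.congr_deriv ?_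
  rw [← mul_assoc, I_mul_I, neg_one_mul]

theorem fxQ_d1 (q N : ℕ) : Hol2 WX (fun ξ z => deriv (fun ξ => fxQ q N ξ z) ξ) :=
  (fxQ_Hol2 q N).D1 WX_open

theorem fxQ_d2 (q N : ℕ) : Hol2 WX (fun ξ z => deriv (fxQ q N ξ) z) := (fxQ_Hol2 q N).D2 WX_open

theorem fxQ_d22 (q N : ℕ) : Hol2 WX (fun ξ z => deriv (deriv (fxQ q N ξ)) z) :=
  (fxQ_d2 q N).D2 WX_open

theorem fxQ_cont_I (q N : ℕ) : Continuous fun p : ℝ × ℝ => fxQ q N (I * p.1) (I * p.2) :=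
  Hol2_cont_I (fxQ_Hol2 q N)

theorem fxQ_d1_cont_I (q N : ℕ) :
    Continuous fun p : ℝ × ℝ => deriv (fun ξ => fxQ q N ξ (I * p.2)) (I * p.1) :=
  Hol2_cont_I (fxQ_d1 q N)

theorem fxQ_d2_cont_I (q N : ℕ) :
    Continuous fun p : ℝ × ℝ => deriv (fxQ q N (I * p.1)) (I * p.2) := Hol2_cont_I (fxQ_d2 q N)

theorem fxQ_d22_cont_I (q N : ℕ) :
    Continuous fun p : ℝ × ℝ => deriv (deriv (fxQ q N (I * p.1))) (I * p.2) :=
  Hol2_cont_I (fxQ_d22 q N)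

/-! ### product formulas of the derivatives -/

/-- the sum over the numbers of quanta, `q`-fold rows -/
theorem sumU_q {q : ℕ} (hq : 1 ≤ q) (F : ℕ → ℕ → ℂ) : sumU m (q * m) 0 F =
    ∑ n ∈ Finset.range (2 * m + 1), F n (n + (q - 1) * m) := by
  unfold RX.sumU
  refine Finset.sum_congr rfl fun n hn => ?_
  have hn' := Finset.mem_range.1 hn
  have e : (q - 1) * m + m = q * m := by
    obtain ⟨k, rfl⟩ : ∃ k, q = k + 1 := ⟨q - 1, by omega⟩
    rw [Nat.add_sub_cancel]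
    ring
  have hm : m ≤ q * m := Nat.le_mul_of_pos_left m hq
  rw [Finset.sum_eq_single_of_mem (n + (q - 1) * m) (Finset.mem_range.2 (by omega))
    fun n' _ hne => if_neg fun h => hne (by
      have h2 : (n' : ℤ) + m = n + (q * m : ℕ) := by simpa using h
      omega), if_pos]
  have h3 : ((n + (q - 1) * m : ℕ) : ℤ) + m = n + (q * m : ℕ) := by
    rw [← e]
    push_cast
    ring
  simpa using h3

/-- one term of the sum over the states, `q`-fold rows -/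
def SQt (q : ℕ) (z : ℂ) (mu : Fin m → ℂ) (n : ℕ) : ℂ :=
  DZU (cn m) (cn (q * m)) (Lg z z) (Lg z z) mu (yqn q mu) n (n + (q - 1) * m)

/-- **the sum over the states** -/
def SQ (q : ℕ) (z : ℂ) (mu : Fin m → ℂ) : ℂ := ∑ n ∈ Finset.range (2 * m + 1), SQt q z mu n

theorem fQ_eq {q : ℕ} (hq : 1 ≤ q) {mu : Fin m → ℂ} (hmu : Rwo mu) {z : ℂ} (hz : z ∈ LS) :
    fQ q mu z = Pf z mu (yqn q mu) * SQ q z mu := by
  rw [fQ_right hmu hz]
  unfold nzU SQ SQt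
  rw [sumU_q hq]

theorem cast_q {q : ℕ} (hq : 1 ≤ q) (n : ℕ) :
    ((n + (q - 1) * m : ℕ) : ℝ) + m = n + (q * m : ℕ) := by
  have e : (q - 1) * m + m = q * m := by
    obtain ⟨k, rfl⟩ : ∃ k, q = k + 1 := ⟨q - 1, by omega⟩
    rw [Nat.add_sub_cancel]
    ring
  rw [← e]
  push_cast
  ring

/-- the terms are holomorphic along analytic curves -/
theorem SQt_hol {q : ℕ} (hq : 1 ≤ q) {z : ℂ → ℂ} {x : ℂ → Fin m → ℂ} {θ0 : ℂ}
    (dz : ∀ᶠ θ in 𝓝 θ0, DifferentiableAt ℂ z θ)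
    (dx : ∀ᶠ θ in 𝓝 θ0, ∀ i, DifferentiableAt ℂ (fun θ => x θ i) θ) (hx : Rwo (x θ0))
    (hz : z θ0 ∈ LS) (n : ℕ) : DifferentiableAt ℂ (fun θ => SQt q (z θ) (x θ) n) θ0 :=
  SZU_hol (y := fun θ => yqn q (x θ)) (cn m) (cn (q * m)) dz dx (dx.mono fun θ h j => h _) hx
    (Rwo_yqn hx) hz (cast_q hq n)

/-- **derivative in the moved row**, legs in `LS` -/
theorem fQ_row_deriv {q : ℕ} (hq : 1 ≤ q) {mu : Fin m → ℂ} (hmu : Rwo mu) {ξ z : ℂ}
    (h0 : |ξ.re| < 3 / 5 * l) (hz : z ∈ LS) :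
    HasDerivAt (fun ξ => fQ q (Fin.cons ξ mu : Fin (m + 1) → ℂ) z)
      (deriv (fun ξ => Pf z (Fin.cons ξ mu : Fin (m + 1) → ℂ) (yqn q (Fin.cons ξ mu))) ξ *
        SQ q z (Fin.cons ξ mu : Fin (m + 1) → ℂ) +
      Pf z (Fin.cons ξ mu : Fin (m + 1) → ℂ) (yqn q (Fin.cons ξ mu)) *
        ∑ n ∈ Finset.range (2 * (m + 1) + 1),
          deriv (fun ξ => SQt q z (Fin.cons ξ mu : Fin (m + 1) → ℂ) n) ξ) ξ := by
  have hc := Rwo.cons h0 hmu
  have hc' : Rwo (yqn q (Fin.cons ξ mu : Fin (m + 1) → ℂ)) := Rwo_yqn hc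
  have hd : ∀ i ξ, DifferentiableAt ℂ (fun ξ => (Fin.cons ξ mu : Fin (m + 1) → ℂ) i) ξ :=
    fun i ξ => PBX.cons_diff mu i ξ
  have h1 : HasDerivAt (fun ξ => Pf z (Fin.cons ξ mu : Fin (m + 1) → ℂ) (yqn q (Fin.cons ξ mu)))
      (deriv (fun ξ => Pf z (Fin.cons ξ mu : Fin (m + 1) → ℂ) (yqn q (Fin.cons ξ mu))) ξ) ξ :=
    (Pf_hol (z := fun _ => z) (x := fun ξ => (Fin.cons ξ mu : Fin (m + 1) → ℂ))
      (y := fun ξ => yqn q (Fin.cons ξ mu : Fin (m + 1) → ℂ)) (e := ξ) (differentiableAt_const _)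
      (fun i => hd i ξ) (fun j => hd _ ξ) (Rwo.dist hc hc) (Rwo.dist hc' hc') (Rwo.dist hc hc')
      (Rwo.narZ hc hz) (Rwo.narZ hc' hz)).hasDerivAt
  have h2 : HasDerivAt (fun ξ => SQ q z (Fin.cons ξ mu : Fin (m + 1) → ℂ))
      (∑ n ∈ Finset.range (2 * (m + 1) + 1),
        deriv (fun ξ => SQt q z (Fin.cons ξ mu : Fin (m + 1) → ℂ) n) ξ) ξ :=
    HasDerivAt.fun_sum fun n _ => (SQt_hol hq (z := fun _ => z)
      (x := fun ξ => (Fin.cons ξ mu : Fin (m + 1) → ℂ)) (θ0 := ξ)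
      (Eventually.of_forall fun _ => differentiableAt_const _)
      (Eventually.of_forall fun ξ i => hd i ξ) hc hz n).hasDerivAt
  refine (h1.mul h2).congr_of_eventuallyEq ?_
  have hn : ∀ᶠ ξ' : ℂ in 𝓝 ξ, |ξ'.re| < 3 / 5 * l :=
    (isOpen_lt (by fun_prop) continuous_const).mem_nhds h0
  filter_upwards [hn] with ξ' h'
  exact fQ_eq hq (Rwo.cons h' hmu) hz

/-- **derivative in the legs**, legs in `LS` -/
theorem fQ_leg_deriv {q : ℕ} (hq : 1 ≤ q) {mu : Fin m → ℂ} (hmu : Rwo mu) {z : ℂ} (hz : z ∈ LS) :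
    HasDerivAt (fQ q mu) (deriv (fun z => Pf z mu (yqn q mu)) z * SQ q z mu +
      Pf z mu (yqn q mu) * ∑ n ∈ Finset.range (2 * m + 1), deriv (fun z => SQt q z mu n) z) z := by
  have hmu' : Rwo (yqn q mu) := Rwo_yqn hmu
  have h1 : HasDerivAt (fun z => Pf z mu (yqn q mu)) (deriv (fun z => Pf z mu (yqn q mu)) z) z :=
    (Pf_diff (Rwo.dist hmu hmu) (Rwo.dist hmu' hmu') (Rwo.dist hmu hmu')
      (Rwo.narZ hmu hz) (Rwo.narZ hmu' hz)).hasDerivAt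
  have h2 : HasDerivAt (fun z => SQ q z mu) (∑ n ∈ Finset.range (2 * m + 1),
      deriv (fun z => SQt q z mu n) z) z :=
    HasDerivAt.fun_sum fun n _ => (SQt_hol hq (z := fun z => z) (x := fun _ => mu)
      (θ0 := z) (Eventually.of_forall fun _ => differentiableAt_id)
      (Eventually.of_forall fun _ _ => differentiableAt_const _) hmu hz n).hasDerivAt
  refine (h1.mul h2).congr_of_eventuallyEq ?_
  filter_upwards [LS_open.mem_nhds hz] with w hw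
  exact fQ_eq hq hmu hw

theorem SQt_diff {q : ℕ} (hq : 1 ≤ q) {mu : Fin m → ℂ} (hmu : Rwo mu) (n : ℕ) :
    DifferentiableOn ℂ (fun z => SQt q z mu n) LS := fun z hz =>
  (SQt_hol hq (z := fun z => z) (x := fun _ => mu) (θ0 := z)
    (Eventually.of_forall fun _ => differentiableAt_id)
    (Eventually.of_forall fun _ _ => differentiableAt_const _) hmu hz n).differentiableWithinAt

/-- **second derivative in the legs**, legs in `LS` -/
theorem fQ_leg_deriv2 {q : ℕ} (hq : 1 ≤ q) {mu : Fin m → ℂ} (hmu : Rwo mu) {z : ℂ} (hz : z ∈ LS) :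
    deriv (deriv (fQ q mu)) z = deriv (deriv fun z => Pf z mu (yqn q mu)) z * SQ q z mu +
      2 * (deriv (fun z => Pf z mu (yqn q mu)) z * ∑ n ∈ Finset.range (2 * m + 1),
        deriv (fun z => SQt q z mu n) z) +
      Pf z mu (yqn q mu) * ∑ n ∈ Finset.range (2 * m + 1),
        deriv (deriv fun z => SQt q z mu n) z := by
  have hmu' : Rwo (yqn q mu) := Rwo_yqn hmu
  have h1 : DifferentiableOn ℂ (fun z => Pf z mu (yqn q mu)) LS := fun z hz =>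
    (Pf_diff (Rwo.dist hmu hmu) (Rwo.dist hmu' hmu') (Rwo.dist hmu hmu')
      (Rwo.narZ hmu hz) (Rwo.narZ hmu' hz)).differentiableWithinAt
  have h2 : DifferentiableOn ℂ (fun z => SQ q z mu) LS := by
    unfold SQ
    exact DifferentiableOn.fun_sum fun n _ => SQt_diff hq hmu n
  have d : ∀ n, ∀ w ∈ LS, DifferentiableAt ℂ (fun z => SQt q z mu n) w := fun n w hw =>
    (SQt_diff hq hmu n).differentiableAt (LS_open.mem_nhds hw)
  have e1 : ∀ w ∈ LS, deriv (fun z => SQ q z mu) w = ∑ n ∈ Finset.range (2 * m + 1),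
      deriv (fun z => SQt q z mu n) w := fun w hw =>
    (HasDerivAt.fun_sum fun n _ => (d n w hw).hasDerivAt).deriv
  have e2 : deriv (deriv fun z => SQ q z mu) z = ∑ n ∈ Finset.range (2 * m + 1),
      deriv (deriv fun z => SQt q z mu n) z := by
    have e3 : (deriv fun z => SQ q z mu) =ᶠ[𝓝 z] fun w => ∑ n ∈ Finset.range (2 * m + 1),
        deriv (fun z => SQt q z mu n) w := by
      filter_upwards [LS_open.mem_nhds hz] with w hw
      exact e1 w hw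
    rw [e3.deriv_eq]
    exact (HasDerivAt.fun_sum fun n _ => (((SQt_diff hq hmu n).deriv LS_open).differentiableAt
      (LS_open.mem_nhds hz)).hasDerivAt).deriv
  have e4 : fQ q mu =ᶠ[𝓝 z] fun z => Pf z mu (yqn q mu) * SQ q z mu := by
    filter_upwards [LS_open.mem_nhds hz] with w hw
    exact fQ_eq hq hmu hw
  rw [e4.deriv.deriv_eq, deriv2_mul LS_open h1 h2 hz, e1 z hz, e2]

/-- `fxQ` at the legs in `LS` -/
theorem fxQ_eq {q : ℕ} (hq : 1 ≤ q) {N : ℕ} {ξ z : ℂ} (h0 : |ξ.re| < 3 / 5 * l) (hz : z ∈ LS) :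
    fxQ q N ξ z = Pf z (xr N ξ) (yqn q (xr N ξ)) * SQ q z (xr N ξ) :=
  fQ_eq hq (Rwo.cons h0 (Rwo_zero N)) hz

/-- `∂_ξ fxQ`, legs in `LS` -/
theorem fxQ_deriv_row {q : ℕ} (hq : 1 ≤ q) {N : ℕ} {ξ z : ℂ} (h0 : |ξ.re| < 3 / 5 * l) (hz : z ∈ LS) :
    deriv (fun ξ => fxQ q N ξ z) ξ =
      deriv (fun ξ => Pf z (xr N ξ) (yqn q (xr N ξ))) ξ * SQ q z (xr N ξ) +
      Pf z (xr N ξ) (yqn q (xr N ξ)) *
        ∑ n ∈ Finset.range (2 * (N + 1) + 1), deriv (fun ξ => SQt q z (xr N ξ) n) ξ :=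
  (fQ_row_deriv hq (Rwo_zero N) h0 hz).deriv

/-- `∂_z fxQ`, legs in `LS` -/
theorem fxQ_deriv_leg {q : ℕ} (hq : 1 ≤ q) {N : ℕ} {ξ z : ℂ} (h0 : |ξ.re| < 3 / 5 * l) (hz : z ∈ LS) :
    deriv (fxQ q N ξ) z =
      deriv (fun z => Pf z (xr N ξ) (yqn q (xr N ξ))) z * SQ q z (xr N ξ) +
      Pf z (xr N ξ) (yqn q (xr N ξ)) *
        ∑ n ∈ Finset.range (2 * (N + 1) + 1), deriv (fun z => SQt q z (xr N ξ) n) z :=
  (fQ_leg_deriv hq (Rwo.cons h0 (Rwo_zero N)) hz).deriv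

/-- `∂_z² fxQ`, legs in `LS` -/
theorem fxQ_deriv_leg2 {q : ℕ} (hq : 1 ≤ q) {N : ℕ} {ξ z : ℂ} (h0 : |ξ.re| < 3 / 5 * l) (hz : z ∈ LS) :
    deriv (deriv (fxQ q N ξ)) z =
      deriv (deriv fun z => Pf z (xr N ξ) (yqn q (xr N ξ))) z * SQ q z (xr N ξ) +
      2 * (deriv (fun z => Pf z (xr N ξ) (yqn q (xr N ξ))) z *
        ∑ n ∈ Finset.range (2 * (N + 1) + 1), deriv (fun z => SQt q z (xr N ξ) n) z) +
      Pf z (xr N ξ) (yqn q (xr N ξ)) *
        ∑ n ∈ Finset.range (2 * (N + 1) + 1), deriv (deriv fun z => SQt q z (xr N ξ) n) z :=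
  fQ_leg_deriv2 hq (Rwo.cons h0 (Rwo_zero N)) hz

/-! ### `q = 1` : the landed functions -/

theorem nzU_yqn_one (z : ℂ) (x : Fin m → ℂ) (y : Fin m → ℂ) : nzU z x (yqn 1 y) = nz z x y := by
  have h : ∀ {k : ℕ} (e : k = m) (y' : Fin k → ℂ) (he : ∀ j, y' j = y (Fin.cast e j)),
      nzU z x y' = nz z x y := by
    intro k e y' he
    subst e
    have : y' = y := funext he
    rw [this, nzU_self]
  refine h (one_mul m) (yqn 1 y) fun j => ?_
  unfold yqn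
  congr 1
  ext
  show (j : ℕ) % m = (j : ℕ)
  have hj : (j : ℕ) < m := by
    have := j.isLt
    omega
  exact Nat.mod_eq_of_lt hj

theorem fQ_one (mu : Fin m → ℂ) (z : ℂ) : fQ 1 mu z = fN mu z := by
  unfold fQ fU PB.fN
  rw [nzU_yqn_one]
  split_ifs
  · rfl
  · exact nzU_yqn_one (-z) (-mu) (-mu)

theorem fxQ_one (N : ℕ) (ξ z : ℂ) : fxQ 1 N ξ z = fx N ξ z := fQ_one _ z

theorem f0Q_one (N : ℕ) (z : ℂ) : f0Q 1 N z = f0 N z := fQ_one _ z

end Pool.Agent.PLX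

end
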