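import Pool.Agent.PB.MFh
import Pool.Agent.PLX.Fil

/-!
# The mean field identity at complex points, rows of species Y `q`-fold

`ρ` = density of the one-fold rows, `Fil.b s * ρ` the density of the species `s`.
* `rS2`, `mulF2`: densities and fields times densities;
* `kp2 ρ s z = b s * cV ρ' z + (b s - b (!s)) * cG ρ z`: the force of the two seas on the species `s`;
* **`mf_h2`**: `X s z κ z + ∑ c ∫ aC s c z u (b c * ρ u) du = - rsp (X b ρ) s z`, `κ = kp2 ρ s`;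
* `smr_h2`, `constH2`, **`alg_h2`**: the algebra of the Ward identity.
-/

set_option autoImplicit false

noncomputable section

open MeasureTheory Set Filter Topology

namespace PB

open NUMF PBK Pool.Agent.PB
open PLX (Fil)

variable {b1 : ℝ} {ρ : ℂ → ℂ} {X : Bool → ℂ → ℂ}

/-! ### linearity of the convolutions -/

theorem cG_smul (c : ℂ) (f : ℂ → ℂ) (z : ℂ) : cG (fun w => c * f w) z = c * cG f z := by
  unfold cG
  rw [← integral_const_mul]
  refine integral_congr_ae (Eventually.of_forall fun u => ?_)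
  simp only []
  ring

theorem cV_smul (c : ℂ) (f : ℂ → ℂ) (z : ℂ) : cV (fun w => c * f w) z = c * cV f z := by
  unfold cV
  rw [← integral_const_mul]
  refine integral_congr_ae (Eventually.of_forall fun u => ?_)
  simp only []
  ring

/-- the integrand of `cG` on a horizontal line -/
theorem cG_ok {f : ℂ → ℂ} {z : ℂ} (hi : Integrable fun s : ℝ => f (s + z.im * Complex.I)) :
    Integrable fun u : ℝ => f (z - u) * (Kg u : ℂ) := by
  have h1 : Integrable fun s : ℝ => f (s + z.im * Complex.I) * (Kg (z.re - s) : ℂ) := by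
    have mK : AEStronglyMeasurable fun s : ℝ => (Kg (z.re - s) : ℂ) :=
      (Kg_meas.comp (measurable_const.sub measurable_id)).aestronglyMeasurable
    refine hi.mul_bdd (c := 9) mK (Eventually.of_forall fun s => ?_)
    rw [Complex.norm_real, Real.norm_eq_abs]
    exact abs_Kg_le _
  have h2 := h1.comp_sub_left z.re
  refine h2.congr (Eventually.of_forall fun u => ?_)
  simp only []
  rw [sub_ln z u, sub_sub_cancel]

theorem cG_sub {f g : ℂ → ℂ} {z : ℂ} (hf : Integrable fun s : ℝ => f (s + z.im * Complex.I))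
    (hg : Integrable fun s : ℝ => g (s + z.im * Complex.I)) :
    cG (fun w => f w - g w) z = cG f z - cG g z := by
  unfold cG
  rw [← integral_sub (cG_ok hf) (cG_ok hg)]
  refine integral_congr_ae (Eventually.of_forall fun u => ?_)
  simp only []
  ring

theorem deriv_smul' (c : ℂ) (f : ℂ → ℂ) : deriv (fun w => c * f w) = fun w => c * deriv f w := by
  funext w
  exact deriv_const_mul_field c

/-- the density and the fields are integrable on horizontal lines -/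
theorem line_i (hρ : SeaF b1 ρ) (hX : FldF b1 X) {y : ℝ} (hy : |y| < b1) (b : Bool) :
    (Integrable fun s : ℝ => ρ (s + y * Complex.I)) ∧
    Integrable fun s : ℝ => mulF ρ X b (s + y * Complex.I) := by
  obtain ⟨B, D⟩ := xi_dat hρ hX hy b
  exact ⟨D.i0, D.i1⟩

/-- **the cross kernel against the sea** -/
theorem cross_h (hρ : SeaF b1 ρ) (hX : FldF b1 X) (hb : 2 * b1 ≤ l) {z : ℂ} (hz : |z.im| < b1)
    (b : Bool) : ∫ s : ℝ, aC X b (!b) z s * ρ s = X b z * cG ρ z - cG (mulF ρ X (!b)) z := by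
  rw [← aC_shift hρ hX hb hz b (!b)]
  obtain ⟨i0, i1⟩ := line_i hρ hX hz (!b)
  have hne : b ≠ !b := by cases b <;> decide
  have mK : AEStronglyMeasurable fun s : ℝ => (Kg (z.re - s) : ℂ) :=
    (Kg_meas.comp (measurable_const.sub measurable_id)).aestronglyMeasurable
  have bK : ∀ᵐ s : ℝ, ‖(Kg (z.re - s) : ℂ)‖ ≤ 9 := Eventually.of_forall fun s => by
    rw [Complex.norm_real, Real.norm_eq_abs]
    exact abs_Kg_le _
  have j0 : Integrable fun s : ℝ => X b z * (ρ (s + z.im * Complex.I) * (Kg (z.re - s) : ℂ)) :=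
    (i0.mul_bdd (c := 9) mK bK).const_mul _
  have j1 : Integrable fun s : ℝ => mulF ρ X (!b) (s + z.im * Complex.I) * (Kg (z.re - s) : ℂ) :=
    i1.mul_bdd (c := 9) mK bK
  rw [cG_ln ρ, cG_ln (mulF ρ X (!b)), ← integral_const_mul, ← integral_sub j0 j1]
  refine integral_congr_ae (Eventually.of_forall fun s => ?_)
  simp only []
  rw [aC_off X hne, z_sub_ln, Kgc_real]
  unfold mulF
  ring

/-- the cross kernel is odd -/
theorem cG_odd {f g : ℂ → ℂ} (hf : Integrable fun s : ℝ => f s) (hg : Integrable fun s : ℝ => g s) :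
    ∫ t : ℝ, f t * cG g t = -∫ t : ℝ, g t * cG f t := by
  have h1 : Integrable (fun p : ℝ × ℝ => f p.1 * g p.2) (volume.prod volume) := hf.mul_prod hg
  have mK : AEStronglyMeasurable (fun p : ℝ × ℝ => (Kg (p.1 - p.2) : ℂ)) (volume.prod volume) :=
    (Kg_meas.comp (measurable_fst.sub measurable_snd)).aestronglyMeasurable
  have h2 : Integrable (fun p : ℝ × ℝ => f p.1 * (g p.2 * (Kg (p.1 - p.2) : ℂ)))
      (volume.prod volume) := by
    refine (h1.mul_bdd (c := 9) mK (Eventually.of_forall fun p => ?_)).congr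
      (Eventually.of_forall fun p => ?_)
    · rw [Complex.norm_real, Real.norm_eq_abs]
      exact abs_Kg_le _
    · simp only []
      ring
  have h3 := integral_integral_swap (f := fun t s : ℝ => f t * (g s * (Kg (t - s) : ℂ))) h2
  simp only [cG_real]
  simp_rw [← integral_const_mul]
  rw [h3, ← integral_neg]
  refine integral_congr_ae (Eventually.of_forall fun s => ?_)
  simp only []
  rw [← integral_neg]
  refine integral_congr_ae (Eventually.of_forall fun t => ?_)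
  simp only []
  rw [show t - s = -(s - t) by ring, Kg_neg]
  push_cast
  ring

variable [Fil]

/-- the two densities -/
def rS2 (ρ : ℂ → ℂ) (b : Bool) (u : ℝ) : ℂ := (Fil.b b : ℂ) * ρ u

/-- a field times the densities -/
def mulF2 (ρ : ℂ → ℂ) (X : Bool → ℂ → ℂ) (b : Bool) (z : ℂ) : ℂ := X b z * ((Fil.b b : ℂ) * ρ z)

/-- **the force of the two seas on the species `b`** -/
def kp2 (ρ : ℂ → ℂ) (b : Bool) (z : ℂ) : ℂ :=
  (Fil.b b : ℂ) * cV (deriv ρ) z + ((Fil.b b : ℂ) - (Fil.b (!b) : ℂ)) * cG ρ z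

theorem mulF2_eq (ρ : ℂ → ℂ) (X : Bool → ℂ → ℂ) (b : Bool) :
    mulF2 ρ X b = fun z => (Fil.b b : ℂ) * mulF ρ X b z := by
  funext z
  unfold mulF2 mulF
  ring

theorem mulF2_d (hρ : SeaF b1 ρ) (hX : FldF b1 X) (b : Bool) (z : ℂ) (hz : |z.im| < b1) :
    DifferentiableAt ℂ (mulF2 ρ X b) z := by
  rw [mulF2_eq]
  exact (mulF_d hρ hX b z hz).const_mul _

theorem mulF2_bd (hρ : SeaF b1 ρ) (hX : FldF b1 X) : ∃ A c : ℝ, 0 ≤ A ∧ 0 < c ∧
    ∀ b (z : ℂ), |z.im| < b1 → ‖mulF2 ρ X b z‖ ≤ A * Real.exp (-(c * |z.re|)) := by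
  obtain ⟨A, c, hA, hc, h⟩ := mulF_bd hρ hX
  refine ⟨(Fil.q : ℝ) * A, c, mul_nonneg Fil.q_posr.le hA, hc, fun b z hz => ?_⟩
  rw [mulF2_eq]
  show ‖(Fil.b b : ℂ) * mulF ρ X b z‖ ≤ _
  rw [norm_mul, Complex.norm_real, Real.norm_eq_abs, abs_of_pos (Fil.b_pos b), mul_assoc]
  exact mul_le_mul (Fil.b_le b) (h b z hz) (norm_nonneg _) Fil.q_posr.le

/-- **the mean field identity at a complex point** -/
theorem mf_h2 (hρ : SeaF b1 ρ) (hX : FldF b1 X) (hb : 2 * b1 ≤ l) {z : ℂ} (hz : |z.im| < b1)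
    (b : Bool) :
    X b z * kp2 ρ b z + ∑ c, ∫ s : ℝ, aC X b c z s * ((Fil.b c : ℂ) * ρ s) =
      -rsp (mulF2 ρ X) b z := by
  have h0 := mf_h hρ hX hb hz b
  have h1 := cross_h hρ hX hb hz b
  have hs : ∀ f : Bool → ℂ, ∑ c, f c = f b + f (!b) := by
    intro f
    rw [Fintype.sum_bool]
    cases b
    · exact add_comm _ _
    · rfl
  have e : ∀ c, ∫ s : ℝ, aC X b c z s * ((Fil.b c : ℂ) * ρ s) =
      (Fil.b c : ℂ) * ∫ s : ℝ, aC X b c z s * ρ s := by
    intro c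
    rw [← integral_const_mul]
    refine integral_congr_ae (Eventually.of_forall fun s => ?_)
    simp only []
    ring
  simp_rw [e]
  rw [hs] at h0 ⊢
  have i1 := (line_i hρ hX hz b).2
  have i2 := (line_i hρ hX hz (!b)).2
  unfold rsp at h0 ⊢
  rw [cG_sub i1 i2] at h0
  simp only [mulF2_eq]
  rw [deriv_smul', cV_smul, cG_sub (i1.const_mul _) (i2.const_mul _), cG_smul, cG_smul]
  unfold kp2
  linear_combination (Fil.b b : ℂ) * h0 + ((Fil.b (!b) : ℂ) - (Fil.b b : ℂ)) * h1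

/-! ### the constants -/

theorem smr_h2 (hρ : SeaF b1 ρ) (hX : FldF b1 X) (hb : 2 * b1 ≤ l) {z : ℂ} (hz : |z.im| < b1)
    (b : Bool) :
    NX.smr eR (rS2 ρ) (aC X) b z = -rsp (mulF2 ρ X) b z - X b z * kp2 ρ b z := by
  rw [← mf_h2 hρ hX hb hz b]
  unfold NX.smr eR rS2
  ring

variable (ρ X) in
/-- the integrability and the constant of the algebra -/
structure ConstH2 : Prop where
  i1 : ∀ b, Integrable fun s : ℝ => rS2 ρ b s * (X b (eR s) * kp2 ρ b (eR s))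
  i2 : ∀ b, Integrable fun s : ℝ => rS2 ρ b s * NX.smr eR (rS2 ρ) (aC X) b (eR s)
  e : ∑ b, (∫ s, rS2 ρ b s * (X b (eR s) * kp2 ρ b (eR s))) +
    (1 / 2) * NX.dbl eR (rS2 ρ) (aC X) = 0

theorem constH2 (hρ : SeaF b1 ρ) (hX : FldF b1 X) (h0 : 0 < b1) (hb : 2 * b1 ≤ l) :
    ConstH2 ρ X := by
  have hL := int_line hρ hX h0
  have iρ : Integrable fun s : ℝ => ρ s := by
    obtain ⟨B, D⟩ := xi_dat0 hρ hX h0 true
    exact D.i0
  have iX : ∀ b, Integrable fun s : ℝ => mulF ρ X b s := fun b => by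
    obtain ⟨B, D⟩ := xi_dat0 hρ hX h0 b
    exact D.i1
  -- the integrals of the cross part
  have j1 : ∀ b, Integrable fun s : ℝ => ρ s * cG (mulF ρ X b) s := fun b =>
    (int_cG iρ (iX b)).congr (Eventually.of_forall fun t => by simp only [cG_real])
  have j2 : ∀ b, Integrable fun s : ℝ => mulF ρ X b s * cG ρ s := fun b =>
    (int_cG (iX b) iρ).congr (Eventually.of_forall fun t => by simp only [cG_real])
  have j3 : ∀ b, (∫ s : ℝ, ρ s * cG (mulF ρ X b) s) = -∫ s : ℝ, mulF ρ X b s * cG ρ s := fun b =>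
    cG_odd iρ (iX b)
  have hre : ∀ (b : Bool) (s : ℝ), Integrable fun u : ℝ =>
      mulF ρ X b (u + ((s : ℂ)).im * Complex.I) := by
    intro b s
    simpa using iX b
  have e0 : ∀ b (s : ℝ), rS2 ρ b s * NX.smr eR (rS2 ρ) (aC X) b (eR s) =
      (Fil.b b : ℂ) ^ 2 * (ρ s * cV (deriv (mulF ρ X b)) s) +
        ((Fil.b b : ℂ) ^ 2 * (ρ s * cG (mulF ρ X b) s) -
        (Fil.b b : ℂ) * (Fil.b (!b) : ℂ) * (ρ s * cG (mulF ρ X (!b)) s)) -
        ((Fil.b b : ℂ) ^ 2 * (ρ s * (X b s * cV (deriv ρ) s)) +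
          (Fil.b b : ℂ) * ((Fil.b b : ℂ) - (Fil.b (!b) : ℂ)) * (mulF ρ X b s * cG ρ s)) := by
    intro b s
    have h1 : NX.smr eR (rS2 ρ) (aC X) b (eR s) = _ := smr_h2 hρ hX hb (real_im s h0) b
    rw [h1]
    unfold rsp
    simp only [mulF2_eq]
    rw [deriv_smul', cV_smul, cG_sub ((hre b s).const_mul _) ((hre (!b) s).const_mul _), cG_smul,
      cG_smul]
    unfold rS2 kp2 mulF
    ring
  have e00 : ∀ b (s : ℝ), rS2 ρ b s * (X b (eR s) * kp2 ρ b (eR s)) =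
      (Fil.b b : ℂ) ^ 2 * (ρ s * (X b s * cV (deriv ρ) s)) +
        (Fil.b b : ℂ) * ((Fil.b b : ℂ) - (Fil.b (!b) : ℂ)) * (mulF ρ X b s * cG ρ s) := by
    intro b s
    unfold rS2 kp2 mulF eR
    ring
  have k1 : ∀ b, Integrable fun s : ℝ => (Fil.b b : ℂ) ^ 2 * (ρ s * (X b s * cV (deriv ρ) s)) +
      (Fil.b b : ℂ) * ((Fil.b b : ℂ) - (Fil.b (!b) : ℂ)) * (mulF ρ X b s * cG ρ s) := fun b =>
    ((hL b).1.const_mul _).add ((j2 b).const_mul _)
  have k2 : ∀ b, Integrable fun s : ℝ => (Fil.b b : ℂ) ^ 2 * (ρ s * cG (mulF ρ X b) s) -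
      (Fil.b b : ℂ) * (Fil.b (!b) : ℂ) * (ρ s * cG (mulF ρ X (!b)) s) := fun b =>
    ((j1 b).const_mul _).sub ((j1 (!b)).const_mul _)
  have k3 : ∀ b, Integrable fun s : ℝ => (Fil.b b : ℂ) ^ 2 * (ρ s * cV (deriv (mulF ρ X b)) s) +
      ((Fil.b b : ℂ) ^ 2 * (ρ s * cG (mulF ρ X b) s) -
      (Fil.b b : ℂ) * (Fil.b (!b) : ℂ) * (ρ s * cG (mulF ρ X (!b)) s)) := fun b =>
    ((hL b).2.1.const_mul _).add (k2 b)
  refine ⟨fun b => ?_, fun b => ?_, ?_⟩
  · simp_rw [e00]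
    exact k1 b
  · simp_rw [e0]
    exact (k3 b).sub (k1 b)
  · unfold NX.dbl
    simp_rw [e0, e00]
    have e1 : ∀ b, (∫ s : ℝ, ((Fil.b b : ℂ) ^ 2 * (ρ s * cV (deriv (mulF ρ X b)) s) +
        ((Fil.b b : ℂ) ^ 2 * (ρ s * cG (mulF ρ X b) s) -
        (Fil.b b : ℂ) * (Fil.b (!b) : ℂ) * (ρ s * cG (mulF ρ X (!b)) s)) -
        ((Fil.b b : ℂ) ^ 2 * (ρ s * (X b s * cV (deriv ρ) s)) +
          (Fil.b b : ℂ) * ((Fil.b b : ℂ) - (Fil.b (!b) : ℂ)) * (mulF ρ X b s * cG ρ s)))) =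
        -2 * ((Fil.b b : ℂ) ^ 2 * ∫ s : ℝ, ρ s * (X b s * cV (deriv ρ) s)) -
          (Fil.b b : ℂ) ^ 2 * (∫ s : ℝ, mulF ρ X b s * cG ρ s) +
          (Fil.b b : ℂ) * (Fil.b (!b) : ℂ) * (∫ s : ℝ, mulF ρ X (!b) s * cG ρ s) -
          (Fil.b b : ℂ) * ((Fil.b b : ℂ) - (Fil.b (!b) : ℂ)) *
            (∫ s : ℝ, mulF ρ X b s * cG ρ s) := by
      intro b
      rw [integral_sub (k3 b) (k1 b), integral_add ((hL b).2.1.const_mul _) (k2 b),
        integral_sub ((j1 b).const_mul _) ((j1 (!b)).const_mul _),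
        integral_add ((hL b).1.const_mul _) ((j2 b).const_mul _), integral_const_mul,
        integral_const_mul, integral_const_mul, integral_const_mul, integral_const_mul,
        (hL b).2.2.2, j3, j3]
      ring
    have e2 : ∀ b, (∫ s : ℝ, ((Fil.b b : ℂ) ^ 2 * (ρ s * (X b s * cV (deriv ρ) s)) +
        (Fil.b b : ℂ) * ((Fil.b b : ℂ) - (Fil.b (!b) : ℂ)) * (mulF ρ X b s * cG ρ s))) =
        (Fil.b b : ℂ) ^ 2 * (∫ s : ℝ, ρ s * (X b s * cV (deriv ρ) s)) +
          (Fil.b b : ℂ) * ((Fil.b b : ℂ) - (Fil.b (!b) : ℂ)) *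
            (∫ s : ℝ, mulF ρ X b s * cG ρ s) := by
      intro b
      rw [integral_add ((hL b).1.const_mul _) ((j2 b).const_mul _), integral_const_mul,
        integral_const_mul]
    simp_rw [e1, e2]
    rw [Fintype.sum_bool, Fintype.sum_bool]
    simp only [Bool.not_true, Bool.not_false]
    ring

/-- **the algebra of the Ward identity at complex positions** -/
theorem alg_h2 {ι : Type*} [Fintype ι] {r : ι → ι → Prop} (hr : Tourn r) (hρ : SeaF b1 ρ)
    (hX : FldF b1 X) (h0 : 0 < b1) (hb : 2 * b1 ≤ l) (sp : ι → Bool) {lam : Bool → ℂ → ℂ}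
    (z : ι → ℂ) (hz : ∀ i, |(z i).im| < b1) :
    (∑ k, (deriv (X (sp k)) (z k) + X (sp k) (z k) * (kp2 ρ (sp k) (z k) + lam (sp k) (z k)))) +
      ∑ p ∈ prs r, aC X (sp p.1) (sp p.2) (z p.1) (z p.2) =
    -NX.nuL eR sp (rS2 ρ) (rsp (mulF2 ρ X)) z + NX.nuQ eR sp (rS2 ρ) (aC X) z +
      ∑ k, X (sp k) (z k) * lam (sp k) (z k) := by
  have C := constH2 hρ hX h0 hb
  have hC : ∀ b (z : ℂ), |z.im| < b1 →
      NX.Cv eR (rS2 ρ) X (kp2 ρ) (rsp (mulF2 ρ X)) (aC X) b z = 0 := by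
    intro b z hz
    unfold NX.Cv
    rw [smr_h2 hρ hX hb hz]
    ring
  have key := NX.normI1 hr eR sp (ρ := rS2 ρ) (ξ := X) (dξ := fun b => deriv (X b))
    (κr := kp2 ρ) (r1 := rsp (mulF2 ρ X)) (lam := fun k => lam (sp k)) (a := aC X)
    (fun b c s t => aC_symm X b c s t) C.i1 C.i2 C.e
    (fun b s => by
      rw [hC b (eR s) (real_im s h0), mul_zero]) z
  have e1 : ∀ k, NX.Cv eR (rS2 ρ) X (kp2 ρ) (rsp (mulF2 ρ X)) (aC X) (sp k) (z k) =
      0 := fun k => hC _ _ (hz k)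
  have e2 : ∀ k, deriv (X (sp k)) (z k) - (1 / 2) * aC X (sp k) (sp k) (z k) (z k) = 0 := by
    intro k
    rw [aC_diag]
    ring
  simp only [e1, e2, Finset.sum_const_zero, add_zero] at key
  have e3 : ∑ k, (rsp (mulF2 ρ X) (sp k) (z k) + (deriv (X (sp k)) (z k) + X (sp k) (z k) *
      (kp2 ρ (sp k) (z k) + lam (sp k) (z k)))) = ∑ k, rsp (mulF2 ρ X) (sp k) (z k) +
      ∑ k, (deriv (X (sp k)) (z k) + X (sp k) (z k) *
      (kp2 ρ (sp k) (z k) + lam (sp k) (z k))) := Finset.sum_add_distrib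
  rw [e3] at key
  unfold NX.nuL
  linear_combination key

end PB

end
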