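import Pool.Agent.PB.WardFc

/-!
# The Ward identity for the quanta on two curves (helper38)

`PB/WardFc` for two species on two different curves `u = τ + i (t + D s t)`, `s` the species.

* `zd2`, `hF2`, `wF2`, `aF2` : displacement, one body function, pair function, kernels;
* **`ward_Fc2`** : the Ward identity.
-/

set_option autoImplicit false
set_option linter.unusedSectionVars false

noncomputable section

open Complex MeasureTheory
open scoped Classical

namespace PLC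

open NUP1 NUP1.Bd NUP1S NUKer PBK PB

variable {ι : Type*} [Fintype ι]

/-- one body function of a quantum on its curve -/
def hF2 (sp : ι → Bool) (g : Bool → ℂ → ℂ) (τ : ℝ) (D : Bool → ℝ → ℂ) (i : ι) (t : ℝ) : ℂ :=
  (2 * Real.pi : ℂ)⁻¹ * g (sp i) (vl τ t + I * D (sp i) t)

/-- displacement of a point of the curve of `b` and a point of the curve of `c` -/
def zd2 (D : Bool → ℝ → ℂ) (b c : Bool) (s u : ℝ) : ℂ := (s + D b s) - (u + D c u)

/-- pair function on the curves -/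
def wF2 (sp : ι → Bool) (D : Bool → ℝ → ℂ) (i j : ι) (s u : ℝ) : ℂ :=
  wb (sp i) (sp j) (zd2 D (sp i) (sp j) s u)

/-- its derivative in the displacement -/
def wF2' (sp : ι → Bool) (D : Bool → ℝ → ℂ) (i j : ι) (s u : ℝ) : ℂ :=
  kb (sp i) (sp j) (zd2 D (sp i) (sp j) s u) * wb (sp i) (sp j) (zd2 D (sp i) (sp j) s u)

/-- kernels of the field `X`, continued to the diagonal -/
def aF2 (D D1 : Bool → ℝ → ℂ) (X X1 : Bool → ℝ → ℂ) (b c : Bool) (s u : ℝ) : ℂ :=
  if b = c then qw (D b) (D1 b) (X b) (X1 b) s u else qg (D b) (D c) (X b) (X c) s u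

theorem Fc_eq_PhiC2 (sp : ι → Bool) (g : Bool → ℂ → ℂ) (τ : ℝ) (D D1 : Bool → ℝ → ℂ)
    (t : ι → ℝ) :
    Fc p0 g (fun i => crvC (sp i) τ (D (sp i)) (D1 (sp i))) t =
      PhiC (er ι) (fun i s => 1 + D1 (sp i) s) (hF2 sp g τ D) (wF2 sp D) t := by
  unfold Fc PhiC PhiN
  rw [PU_prs, ← mul_assoc, ← Finset.prod_mul_distrib]
  congr 1
  · refine Finset.prod_congr rfl fun i _ => ?_
    unfold hh hF2
    rw [Wt_p0]
    show (2 * Real.pi : ℂ)⁻¹ * (1 + D1 (sp i) (t i)) *
      g (sp i) (vl τ (t i) + I * D (sp i) (t i)) = _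
    ring
  · refine Finset.prod_congr rfl fun p _ => ?_
    unfold pwc
    show PP (sp p.1) (sp p.2) ((crvC (sp p.1) τ (D (sp p.1)) (D1 (sp p.1))).pos (t p.1) -
      (crvC (sp p.2) τ (D (sp p.2)) (D1 (sp p.2))).pos (t p.2)) = _
    rw [NUP1S.pos_sub]
    rfl

/-! ### the kernels -/

theorem zd2_im {a b τ : ℝ} {D D1 : Bool → ℝ → ℂ} (C : ∀ s, Crv a b τ (D s) (D1 s))
    (c c' : Bool) (s u : ℝ) : |(zd2 D c c' s u).im| ≤ b - a := by
  have h1 := (C c).re1 s
  have h2 := (C c).re2 s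
  have h3 := (C c').re1 u
  have h4 := (C c').re2 u
  have e : (zd2 D c c' s u).im = (D c s).im - (D c' u).im := by
    unfold zd2
    simp
  rw [e, abs_le]
  constructor <;> linarith

theorem aF2_rel {D D1 : Bool → ℝ → ℂ} (hD : ∀ b x, HasDerivAt (D b) (D1 b x) x)
    (hc : ∀ b, Continuous (D1 b)) {X X1 : Bool → ℝ → ℂ}
    (hX : ∀ b x, HasDerivAt (X b) (X1 b x) x)
    (hXc : ∀ b, Continuous (X1 b)) (b c : Bool) (s u : ℝ) :
    (X b s - X c u) * (kb b c (zd2 D b c s u) * wb b c (zd2 D b c s u)) =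
      aF2 D D1 X X1 b c s u * wb b c (zd2 D b c s u) := by
  unfold aF2 kb
  by_cases hbc : b = c
  · subst hbc
    rw [if_pos rfl, if_pos rfl]
    by_cases hsu : s = u
    · subst hsu
      have e : zd2 D b b s s = 0 := by
        unfold zd2
        ring
      rw [e, wb_self_zero]
      ring
    · rw [qw_eq (hD b) (hc b) (hX b) (hXc b) hsu]
      unfold zd2
      ring
  · rw [if_neg hbc, if_neg hbc, qg_eq]
    unfold zd2
    ring

theorem aF2_symm {D D1 : Bool → ℝ → ℂ} (hD : ∀ b x, HasDerivAt (D b) (D1 b x) x)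
    (hc : ∀ b, Continuous (D1 b)) {X X1 : Bool → ℝ → ℂ}
    (hX : ∀ b x, HasDerivAt (X b) (X1 b x) x)
    (hXc : ∀ b, Continuous (X1 b)) (b c : Bool) (s u : ℝ) :
    aF2 D D1 X X1 b c s u = aF2 D D1 X X1 c b u s := by
  unfold aF2
  by_cases hbc : b = c
  · subst hbc
    rw [if_pos rfl, if_pos rfl]
    by_cases hsu : s = u
    · subst hsu
      rfl
    · rw [qw_eq (hD b) (hc b) (hX b) (hXc b) hsu, qw_eq (hD b) (hc b) (hX b) (hXc b)
        (Ne.symm hsu)]
      have e : ((u : ℂ) + D b u) - (s + D b s) = -((s + D b s) - (u + D b u)) := by ring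
      rw [e, Kwc_neg]
      ring
  · rw [if_neg hbc, if_neg (Ne.symm hbc), qg_eq, qg_eq]
    have e : ((u : ℂ) + D c u) - (s + D b s) = -((s + D b s) - (u + D c u)) := by ring
    rw [e, Kgc_neg]
    ring

theorem aF2_diag (D D1 : Bool → ℝ → ℂ) (X X1 : Bool → ℝ → ℂ) (b : Bool) (t : ℝ) :
    aF2 D D1 X X1 b b t t = 2 * (X1 b t * (1 + D1 b t)⁻¹) := by
  unfold aF2
  rw [if_pos rfl, qw_diag]
  ring

/-! ### derivatives on the curves -/

variable {a b τ κ : ℝ} {D D1 : Bool → ℝ → ℂ}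

theorem hasDerivAt_zd21 (hD : ∀ b x, HasDerivAt (D b) (D1 b x) x) (c c' : Bool) (s u : ℝ) :
    HasDerivAt (fun s => zd2 D c c' s u) (1 + D1 c s) s := by
  unfold zd2
  have h1 : HasDerivAt (fun s : ℝ => (s : ℂ)) 1 s := Complex.ofRealCLM.hasDerivAt
  exact (h1.add (hD c s)).sub_const _

theorem hasDerivAt_zd22 (hD : ∀ b x, HasDerivAt (D b) (D1 b x) x) (c c' : Bool) (s u : ℝ) :
    HasDerivAt (fun u => zd2 D c c' s u) (-(1 + D1 c' u)) u := by
  unfold zd2
  have h1 : HasDerivAt (fun s : ℝ => (s : ℂ)) 1 u := Complex.ofRealCLM.hasDerivAt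
  exact (h1.add (hD c' u)).const_sub _

theorem hasDerivAt_wF21 (C : ∀ s, Crv a b τ (D s) (D1 s)) (hw : b - a < l) (sp : ι → Bool)
    (i j : ι) (s u : ℝ) :
    HasDerivAt (fun s => wF2 sp D i j s u) ((1 + D1 (sp i) s) * wF2' sp D i j s u) s := by
  have h1 := hasDerivAt_wb (sp i) (sp j) (z := zd2 D (sp i) (sp j) s u)
    ((zd2_im C _ _ s u).trans_lt hw)
  have h2 := h1.scomp s (hasDerivAt_zd21 (fun b => (C b).der) (sp i) (sp j) s u)
  rw [smul_eq_mul] at h2
  exact h2

theorem hasDerivAt_wF22 (C : ∀ s, Crv a b τ (D s) (D1 s)) (hw : b - a < l) (sp : ι → Bool)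
    (i j : ι) (s u : ℝ) :
    HasDerivAt (fun u => wF2 sp D i j s u) (-(1 + D1 (sp j) u) * wF2' sp D i j s u) u := by
  have h1 := hasDerivAt_wb (sp i) (sp j) (z := zd2 D (sp i) (sp j) s u)
    ((zd2_im C _ _ s u).trans_lt hw)
  have h2 := h1.scomp u (hasDerivAt_zd22 (fun b => (C b).der) (sp i) (sp j) s u)
  rw [smul_eq_mul] at h2
  exact h2

theorem hasDerivAt_hF2 (hD : ∀ b x, HasDerivAt (D b) (D1 b x) x) {g L : Bool → ℂ → ℂ}
    (hL : ∀ b t, HasDerivAt (g b) (L b (vl τ t + I * D b t) * g b (vl τ t + I * D b t))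
      (vl τ t + I * D b t)) (sp : ι → Bool) (i : ι) (t : ℝ) :
    HasDerivAt (hF2 sp g τ D i)
      (I * L (sp i) (vl τ t + I * D (sp i) t) * (1 + D1 (sp i) t) * hF2 sp g τ D i t) t := by
  have h1 : HasDerivAt (fun t : ℝ => vl τ t + I * D (sp i) t) (I * (1 + D1 (sp i) t)) t := by
    have := (hasDerivAt_vl τ t).add ((hD (sp i) t).const_mul I)
    refine this.congr_deriv ?_
    ring
  have h2 := ((hL (sp i) t).scomp t h1).const_mul (2 * Real.pi : ℂ)⁻¹
  refine h2.congr_deriv ?_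
  unfold hF2
  rw [smul_eq_mul]
  ring

/-! ### bounds -/

/-- bound of the one body factors on the curves -/
theorem hF2_le (C : ∀ s, Crv a b τ (D s) (D1 s)) (hre : ∀ s t, (D s t).re = 0) {sp : ι → Bool}
    {g : Bool → ℂ → ℂ} (hg : Reg p0 κ a b (∑ i, sg (sp i)) g) : ∃ M : ℝ, 0 ≤ M ∧ ∀ i t,
    ‖(1 + D1 (sp i) t) * hF2 sp g τ D i t‖ ≤
      M * Real.exp (-((κ + 2 * (sr (sp i) * ∑ j, sr (sp j))) * |t|)) := by
  obtain ⟨K, hK, hb⟩ := hg.bd
  obtain ⟨M0, hM0, hM0'⟩ := (C true).bdd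
  obtain ⟨M1, hM1, hM1'⟩ := (C false).bdd
  have hM' : ∀ s t, ‖D1 s t‖ ≤ M0 + M1 := fun s t => by
    rcases s with _ | _
    · exact (hM1' t).2.trans (by linarith)
    · exact (hM0' t).2.trans (by linarith)
  refine ⟨(1 + (M0 + M1)) * K, by positivity, fun i t => ?_⟩
  have hre1 : a ≤ (vl τ t + I * D (sp i) t).re := by
    have e' : (vl τ t + I * D (sp i) t).re = τ - (D (sp i) t).im :=
      crv_re true τ (D (sp i)) (D1 (sp i)) t
    rw [e']
    exact (C (sp i)).re1 t
  have hre2 : (vl τ t + I * D (sp i) t).re ≤ b := by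
    have e' : (vl τ t + I * D (sp i) t).re = τ - (D (sp i) t).im :=
      crv_re true τ (D (sp i)) (D1 (sp i)) t
    rw [e']
    exact (C (sp i)).re2 t
  have him : (vl τ t + I * D (sp i) t).im = t := by
    have e' : (vl τ t + I * D (sp i) t).im = t + (D (sp i) t).re :=
      crv_im true τ (D (sp i)) (D1 (sp i)) t
    rw [e', hre (sp i) t, add_zero]
  have h1 := hb (sp i) _ hre1 hre2
  rw [him] at h1
  have e1 : (κ + 2 * ((sg (sp i) * ∑ i, sg (sp i) : ℤ) : ℝ) - 2 * ((p0 (sp i)).card : ℝ)) =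
      κ + 2 * (sr (sp i) * ∑ j, sr (sp j)) := by
    rw [Int.cast_mul, sum_sr, sg_sr]
    simp [p0]
  rw [e1] at h1
  have h2 : ‖(2 * Real.pi : ℂ)⁻¹‖ ≤ 1 := by
    rw [norm_inv]
    have e : ‖(2 * Real.pi : ℂ)‖ = 2 * Real.pi := by
      rw [norm_mul, Complex.norm_real, Real.norm_of_nonneg Real.pi_pos.le]
      simp
    rw [e]
    exact inv_le_one_of_one_le₀ (by linarith [Real.pi_gt_three])
  have h3 : ‖1 + D1 (sp i) t‖ ≤ 1 + (M0 + M1) := by
    refine (norm_add_le _ _).trans ?_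
    rw [norm_one]
    linarith [hM' (sp i) t]
  unfold hF2
  rw [norm_mul, norm_mul]
  have hE := Real.exp_pos (-((κ + 2 * (sr (sp i) * ∑ j, sr (sp j))) * |t|))
  calc _ ≤ (1 + (M0 + M1)) *
        (1 * (K * Real.exp (-((κ + 2 * (sr (sp i) * ∑ j, sr (sp j))) * |t|)))) :=
        mul_le_mul h3 (mul_le_mul h2 h1 (norm_nonneg _) zero_le_one) (by positivity)
          (by positivity)
    _ = _ := by ring

theorem zd2_re (hre : ∀ s t, (D s t).re = 0) (c c' : Bool) (s u : ℝ) :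
    (zd2 D c c' s u).re = s - u := by
  unfold zd2
  simp [hre]

/-- the product weight with a general pair function is integrable -/
theorem int_gen2 (hκ : 0 < κ) (C : ∀ s, Crv a b τ (D s) (D1 s))
    (hre : ∀ s t, (D s t).re = 0) {sp : ι → Bool}
    {g : Bool → ℂ → ℂ} (hg : Reg p0 κ a b (∑ i, sg (sp i)) g) {f : (ι → ℝ) → ι → ι → ℂ}
    (hfm : Measurable fun t => PU (f t)) {K : ℝ} (hK : 1 ≤ K)
    (hf : ∀ t i j, i ≠ j → ‖f t i j‖ ≤ K * Real.exp (2 * (sr (sp i) * sr (sp j) * |t i - t j|))) :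
    Integrable fun t : ι → ℝ =>
      (∏ i, (1 + D1 (sp i) (t i)) * hF2 sp g τ D i (t i)) * PU (f t) := by
  obtain ⟨M, hM, hb⟩ := hF2_le C hre hg
  refine ((integrable_prod_exp' (ι := ι) hκ).const_mul
    (M ^ Fintype.card ι * K ^ (Fintype.card ι * Fintype.card ι))).mono' ?_
    (Filter.Eventually.of_forall fun t => ?_)
  · refine ((Finset.measurable_prod _ fun i _ => ?_).mul hfm).aestronglyMeasurable
    have h1 : Measurable fun s : ℝ => (1 + D1 (sp i) s) * hF2 sp g τ D i s := by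
      unfold hF2
      have hcD := (C (sp i)).contD
      have hcD1 := (C (sp i)).cont
      have h2 : Measurable fun s : ℝ => vl τ s + I * D (sp i) s := by
        unfold vl
        fun_prop
      exact (measurable_const.add hcD1.measurable).mul (((hg.meas (sp i)).comp h2).const_mul _)
    exact h1.comp (measurable_pi_apply i)
  · exact gen_le (σ := fun i => sr (sp i)) (t := t) (h := fun i => (1 + D1 (sp i) (t i)) *
      hF2 sp g τ D i (t i)) (f := f t) hK (fun i => hb i (t i)) (hf t)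

/-! ### integrability -/

theorem prod_J2 (sp : ι → Bool) (g : Bool → ℂ → ℂ) (f : ι → ι → ℂ) (t : ι → ℝ) :
    (∏ i, (1 + D1 (sp i) (t i)) * hF2 sp g τ D i (t i)) * PU f =
      (∏ i, (1 + D1 (sp i) (t i))) * ((∏ i, hF2 sp g τ D i (t i)) * PU f) := by
  rw [Finset.prod_mul_distrib, mul_assoc]

theorem measurable_wF2 (hD : ∀ s, Measurable (D s)) (sp : ι → Bool) (i j : ι) :
    Measurable fun t : ι → ℝ => wF2 sp D i j (t i) (t j) := by
  unfold wF2 zd2
  refine (measurable_wb _ _).comp ?_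
  have h1 : Measurable fun t : ι → ℝ => D (sp i) (t i) := (hD _).comp (measurable_pi_apply i)
  have h2 : Measurable fun t : ι → ℝ => D (sp j) (t j) := (hD _).comp (measurable_pi_apply j)
  fun_prop

theorem measurable_wF2' (hD : ∀ s, Measurable (D s)) (sp : ι → Bool) (i j : ι) :
    Measurable fun t : ι → ℝ => wF2' sp D i j (t i) (t j) := by
  unfold wF2'
  refine Measurable.mul ?_ (measurable_wF2 hD sp i j)
  unfold zd2
  refine (measurable_kb _ _).comp ?_
  have h1 : Measurable fun t : ι → ℝ => D (sp i) (t i) := (hD _).comp (measurable_pi_apply i)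
  have h2 : Measurable fun t : ι → ℝ => D (sp j) (t j) := (hD _).comp (measurable_pi_apply j)
  fun_prop

/-- **the integrand is integrable** -/
theorem int_PhiC2 (hκ : 0 < κ) (C : ∀ s, Crv a b τ (D s) (D1 s)) (hw : b - a < l)
    (hre : ∀ s t, (D s t).re = 0)
    {sp : ι → Bool} {g : Bool → ℂ → ℂ} (hg : Reg p0 κ a b (∑ i, sg (sp i)) g) :
    Integrable (PhiC (er ι) (fun i s => 1 + D1 (sp i) s) (hF2 sp g τ D) (wF2 sp D)) := by
  have hab : 0 ≤ b - a := by linarith [(C true).tau.1, (C true).tau.2]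
  obtain ⟨K, hK, hb⟩ := wb_bound hab hw
  have h1 := int_gen2 hκ C hre hg (f := fun t i j => wF2 sp D i j (t i) (t j))
    (measurable_PU fun i j => measurable_wF2 (fun s => (C s).contD.measurable) sp i j) hK
    (fun t i j _ => by
      have := hb (sp i) (sp j) (zd2 D (sp i) (sp j) (t i) (t j)) (zd2_im C _ _ _ _)
      rwa [zd2_re hre] at this)
  refine h1.congr (Filter.Eventually.of_forall fun t => ?_)
  simp only []
  rw [prod_J2, PU_prs]
  rfl

/-- the weight with one pair differentiated -/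
theorem PhiNP_eq2 (sp : ι → Bool) (g : Bool → ℂ → ℂ) (t : ι → ℝ) (p : ι × ι)
    (hp : p ∈ prs (er ι)) :
    PhiNP (er ι) (hF2 sp g τ D) (wF2 sp D) (wF2' sp D) t p = (∏ i, hF2 sp g τ D i (t i)) *
      PU fun i j => if (i, j) = p then wF2' sp D i j (t i) (t j)
        else wF2 sp D i j (t i) (t j) := by
  unfold PhiNP
  rw [PU_prs, ← Finset.mul_prod_erase (prs (er ι)) _ hp]
  congr 2
  · rw [if_pos rfl]
  · refine Finset.prod_congr rfl fun q hq => ?_
    rw [if_neg (Finset.ne_of_mem_erase hq)]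

/-- **integrability with one pair differentiated** -/
theorem int_PhiNP2 (hκ : 0 < κ) (C : ∀ s, Crv a b τ (D s) (D1 s)) (hw : b - a < l)
    (hre : ∀ s t, (D s t).re = 0)
    {sp : ι → Bool} {g : Bool → ℂ → ℂ} (hg : Reg p0 κ a b (∑ i, sg (sp i)) g) (p : ι × ι)
    (hp : p ∈ prs (er ι)) :
    Integrable fun t : ι → ℝ => (∏ i, (1 + D1 (sp i) (t i))) *
      PhiNP (er ι) (hF2 sp g τ D) (wF2 sp D) (wF2' sp D) t p := by
  have hab : 0 ≤ b - a := by linarith [(C true).tau.1, (C true).tau.2]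
  obtain ⟨K, hK, hb⟩ := wb_bound hab hw
  obtain ⟨K', hK', hb'⟩ := dwb_bound hab hw
  have h1 := int_gen2 hκ C hre hg (K := K + K')
    (f := fun t i j => if (i, j) = p then wF2' sp D i j (t i) (t j)
      else wF2 sp D i j (t i) (t j))
    (measurable_PU fun i j => by
      split_ifs
      · exact measurable_wF2' (fun s => (C s).contD.measurable) sp i j
      · exact measurable_wF2 (fun s => (C s).contD.measurable) sp i j) (by linarith)
    (fun t i j _ => by
      have h2 := hb (sp i) (sp j) (zd2 D (sp i) (sp j) (t i) (t j)) (zd2_im C _ _ _ _)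
      have h3 := hb' (sp i) (sp j) (zd2 D (sp i) (sp j) (t i) (t j)) (zd2_im C _ _ _ _)
      rw [zd2_re hre] at h2 h3
      have hE := Real.exp_pos (2 * (sr (sp i) * sr (sp j) * |t i - t j|))
      split_ifs
      · refine h3.trans (mul_le_mul_of_nonneg_right (by linarith) hE.le)
      · refine h2.trans (mul_le_mul_of_nonneg_right (by linarith) hE.le))
  refine h1.congr (Filter.Eventually.of_forall fun t => ?_)
  simp only []
  rw [prod_J2, ← PhiNP_eq2 sp g t p hp]

/-- integrability of the derivatives of the weight -/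
theorem int_dPhiC2 (hκ : 0 < κ) (C : ∀ s, Crv a b τ (D s) (D1 s)) (hw : b - a < l)
    (hre : ∀ s t, (D s t).re = 0)
    {sp : ι → Bool} {g : Bool → ℂ → ℂ} (hg : Reg p0 κ a b (∑ i, sg (sp i)) g)
    {L : Bool → ℂ → ℂ} (hLm : ∀ b, Measurable (L b)) {B : ℝ}
    (hLB : ∀ b t, ‖L b (vl τ t + I * D b t)‖ ≤ B) (k : ι) :
    Integrable fun t : ι → ℝ => dPhiC (er ι) (fun i s => 1 + D1 (sp i) s) (hF2 sp g τ D)
      (fun i t => I * L (sp i) (vl τ t + I * D (sp i) t)) (wF2 sp D) (wF2' sp D) k t := by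
  unfold dPhiC dPhiN
  have hcD := (C (sp k)).contD
  have e : ∀ t : ι → ℝ, (∏ i, (1 + D1 (sp i) (t i))) *
      (I * L (sp k) (vl τ (t k) + I * D (sp k) (t k)) *
      PhiN (er ι) (hF2 sp g τ D) (wF2 sp D) t + ∑ p ∈ prs (er ι),
        ((if p.1 = k then (1 : ℂ) else 0) - (if p.2 = k then (1 : ℂ) else 0)) *
        PhiNP (er ι) (hF2 sp g τ D) (wF2 sp D) (wF2' sp D) t p) =
      I * L (sp k) (vl τ (t k) + I * D (sp k) (t k)) *
        PhiC (er ι) (fun i s => 1 + D1 (sp i) s) (hF2 sp g τ D) (wF2 sp D) t +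
        ∑ p ∈ prs (er ι),
        ((if p.1 = k then (1 : ℂ) else 0) - (if p.2 = k then (1 : ℂ) else 0)) *
        ((∏ i, (1 + D1 (sp i) (t i))) *
          PhiNP (er ι) (hF2 sp g τ D) (wF2 sp D) (wF2' sp D) t p) := by
    intro t
    unfold PhiC
    rw [mul_add, Finset.mul_sum]
    congr 1
    · ring
    · exact Finset.sum_congr rfl fun p _ => by ring
  simp_rw [e]
  refine Integrable.add ?_ (integrable_finsetSum _ fun p hp =>
    (int_PhiNP2 hκ C hw hre hg p hp).const_mul _)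
  refine (int_PhiC2 hκ C hw hre hg).bdd_mul (c := B) ?_
    (Filter.Eventually.of_forall fun t => ?_)
  · refine Measurable.aestronglyMeasurable ?_
    refine measurable_const.mul ((hLm (sp k)).comp ?_)
    have h1 : Measurable fun t : ι → ℝ => D (sp k) (t k) :=
      hcD.measurable.comp (measurable_pi_apply k)
    unfold vl
    fun_prop
  · rw [norm_mul, norm_I, one_mul]
    exact hLB _ _

/-- **the Ward identity of the quanta on the two curves** -/
theorem ward_Fc2 (hκ : 0 < κ) (C : ∀ s, Crv a b τ (D s) (D1 s)) (hw : b - a < l)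
    (hre : ∀ s t, (D s t).re = 0)
    (hJ : ∀ s t, 1 ≤ ‖1 + D1 s t‖) {sp : ι → Bool}
    {g L : Bool → ℂ → ℂ} (hg : Reg p0 κ a b (∑ i, sg (sp i)) g)
    (hL : ∀ b t, HasDerivAt (g b) (L b (vl τ t + I * D b t) * g b (vl τ t + I * D b t))
      (vl τ t + I * D b t)) (hLm : ∀ b, Measurable (L b)) {B : ℝ}
    (hLB : ∀ b t, ‖L b (vl τ t + I * D b t)‖ ≤ B)
    {X X1 : Bool → ℝ → ℂ} (hX : ∀ b x, HasDerivAt (X b) (X1 b x) x)
    (hXc : ∀ b, Continuous (X1 b)) (hXB : ∀ b x, ‖X b x‖ ≤ B) (hX1B : ∀ b x, ‖X1 b x‖ ≤ B)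
    {O : (ι → ℝ) → ℂ} {dO : ι → (ι → ℝ) → ℂ}
    (hO : ∀ k t, HasDerivAt (fun s => O (Function.update t k s))
      ((1 + D1 (sp k) (t k)) * dO k t) (t k))
    (hOm : AEStronglyMeasurable O) (hdOm : ∀ k, AEStronglyMeasurable (dO k))
    {B' : ℝ} (hOB : ∀ t, ‖O t‖ ≤ B') (hdOB : ∀ k t, ‖dO k t‖ ≤ B') :
    ∫ t : ι → ℝ, ((∑ k, (X1 (sp k) (t k) * (1 + D1 (sp k) (t k))⁻¹ + X (sp k) (t k) *
        (I * L (sp k) (vl τ (t k) + I * D (sp k) (t k)))) +
      ∑ p ∈ prs (er ι), aF2 D D1 X X1 (sp p.1) (sp p.2) (t p.1) (t p.2)) * O t +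
      ∑ k, X (sp k) (t k) * dO k t) *
        Fc p0 g (fun i => crvC (sp i) τ (D (sp i)) (D1 (sp i))) t = 0 := by
  have iP := int_PhiC2 hκ C hw hre hg
  have iD := int_dPhiC2 hκ C hw hre hg hLm hLB
  have hJ0 : ∀ s t, 1 + D1 s t ≠ 0 := fun s t h0 => by
    have := hJ s t
    rw [h0, norm_zero] at this
    linarith
  have hJi : ∀ s t, ‖(1 + D1 s t)⁻¹‖ ≤ 1 := fun s t => by
    rw [norm_inv]
    exact inv_le_one_of_one_le₀ (hJ s t)
  have hcX : ∀ b, Continuous (X b) := fun b =>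
    continuous_iff_continuousAt.2 fun x => (hX b x).continuousAt
  have mX : ∀ k, AEStronglyMeasurable fun t : ι → ℝ => X (sp k) (t k) := fun k =>
    ((hcX (sp k)).measurable.comp (measurable_pi_apply k)).aestronglyMeasurable
  have mX1 : ∀ k, AEStronglyMeasurable
      fun t : ι → ℝ => X1 (sp k) (t k) * (1 + D1 (sp k) (t k))⁻¹ :=
    fun k => by
      have h1 : Measurable fun s : ℝ => X1 (sp k) s * (1 + D1 (sp k) s)⁻¹ :=
        (hXc (sp k)).measurable.mul (measurable_const.add (C (sp k)).cont.measurable).inv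
      exact (h1.comp (measurable_pi_apply k)).aestronglyMeasurable
  have mJi : ∀ k, AEStronglyMeasurable fun t : ι → ℝ => (1 + D1 (sp k) (t k))⁻¹ := fun k => by
    have h1 : Measurable fun s : ℝ => (1 + D1 (sp k) s)⁻¹ :=
      (measurable_const.add (C (sp k)).cont.measurable).inv
    exact (h1.comp (measurable_pi_apply k)).aestronglyMeasurable
  have key := wardC (r := er ι) (tour_er ι).irr (J := fun i s => 1 + D1 (sp i) s)
    (h := hF2 sp g τ D)
    (κ := fun i t => I * L (sp i) (vl τ t + I * D (sp i) t)) (w := wF2 sp D) (w' := wF2' sp D)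
    (X := fun i => X (sp i)) (dX := fun i t => X1 (sp i) t * (1 + D1 (sp i) t)⁻¹)
    (a := fun i j => aF2 D D1 X X1 (sp i) (sp j)) (O := O) (dO := dO)
    (fun i t => hasDerivAt_hF2 (fun b => (C b).der) hL sp i t)
    (fun i j s u => hasDerivAt_wF21 C hw sp i j s u)
    (fun i j s u => hasDerivAt_wF22 C hw sp i j s u)
    (fun i s => (hX (sp i) s).congr_deriv (by
      have := hJ0 (sp i) s
      field_simp))
    (fun i j s u => aF2_rel (fun b => (C b).der) (fun b => (C b).cont) hX hXc (sp i) (sp j) s u)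
    hO
    (fun k => by
      have h1 := int_mul (int_mul (int_mul iP hOm hOB) (mX k) fun t => hXB _ _) (mJi k)
        fun t => hJi (sp k) (t k)
      refine h1.congr (Filter.Eventually.of_forall fun t => ?_)
      simp only []
      unfold PhiC
      rw [← Finset.mul_prod_erase Finset.univ (fun i => 1 + D1 (sp i) (t i)) (Finset.mem_univ k)]
      have := hJ0 (sp k) (t k)
      field_simp)
    (fun k => by
      have h2 : ∀ t : ι → ℝ, ‖X1 (sp k) (t k) * (1 + D1 (sp k) (t k))⁻¹‖ ≤ B := fun t => by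
        rw [norm_mul]
        have h3 := hX1B (sp k) (t k)
        have h4 := hJi (sp k) (t k)
        calc _ ≤ B * 1 := mul_le_mul h3 h4 (norm_nonneg _) ((norm_nonneg _).trans h3)
          _ = B := mul_one _
      exact int_mul (int_mul iP hOm hOB) (mX1 k) h2)
    (fun k => int_mul (int_mul iP (hdOm k) (hdOB k)) (mX k) fun t => hXB _ _)
    (fun k => int_mul (int_mul (iD k) hOm hOB) (mX k) fun t => hXB _ _)
  simp_rw [Fc_eq_PhiC2]
  exact key

end PLC

end
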