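import Pool.Agent.PLX.ForceX

/-!
# Two fillings: the convective term vanishes, own and cross multiplicities

`α` (own), `γ` (cross) : multiplicities of the rows of the two species (`1`, `1`: the landed
statements).

* `mfS`, `mfG` : force of a row with its sea on an object, own and cross pair functions;
  **`mfS_head`, `mfG_head`** : both are multiples of the density at the point where the field is read;
* `krA`, `r1A` : row forces; `krA_one`, `r1A_one`;
* **`conv_formB0`** : the convective term;
* `RRB`, `hasDerivAt_RRB`, `hasDerivAt_RRB_row`, `rowB` : the row factor with natural multiplicities.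
-/

set_option autoImplicit false

noncomputable section

open MeasureTheory Set Filter Topology

namespace PBForce

open NUP1 NUP1.Bd NUP1S PB

/-! ### the mean force on an object -/

/-- own force of the row `x` with its sea on an object with head `w` -/
def mfS (k : Ob) (w x : ℂ) : ℂ := kO rowS k (w - l - x) +
  ∫ s : ℝ, pc (x - s * Complex.I) * kO keX k (w - l - s * Complex.I)

/-- cross force -/
def mfG (k : Ob) (w x : ℂ) : ℂ := kO rowX k (w - l - x) +
  ∫ s : ℝ, pc (x - s * Complex.I) * kO keY k (w - l - s * Complex.I)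

lemma kO_rowD (k : Ob) (z : ℂ) : kO rowD k z = kO rowS k z + kO rowX k z := by
  cases k with
  | A => exact rowD_split z
  | L => exact rowD_split z
  | S =>
    show rowD z + rowD (z - l) = rowS z + rowS (z - l) + (rowX z + rowX (z - l))
    rw [rowD_split, rowD_split (z - l)]
    ring

theorem mfO_split (k : Ob) {w x : ℂ} (h1 : Off (w - l).re) (h2 : k = .S → Off (w - l - l).re)
    (hx : |x.re| < l) : mfO k w x = mfS k w x + mfG k w x := by
  obtain ⟨a1, a2, -⟩ := int_mfO k h1 h2 hx
  unfold mfO mfS mfG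
  have e : ∫ s : ℝ, pc (x - s * Complex.I) * (kO keX k (w - l - s * Complex.I) +
      kO keY k (w - l - s * Complex.I)) =
      (∫ s : ℝ, pc (x - s * Complex.I) * kO keX k (w - l - s * Complex.I)) +
      ∫ s : ℝ, pc (x - s * Complex.I) * kO keY k (w - l - s * Complex.I) := by
    rw [← integral_add a1 a2]
    refine integral_congr_ae (Eventually.of_forall fun s => ?_)
    simp only
    ring
  rw [e, kO_rowD]
  ring

/-- the cross force on an object is the sum over its quanta -/
theorem mfG_S {w x : ℂ} (h1 : Off (w - l).re) (h2 : Off (w - l - l).re) (hx : |x.re| < l) :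
    mfG .S w x = frcXx (w - l) x + frcXx (w - l - l) x := by
  have i1 := (int_row (z := w - l) h1 hx).2.1
  have i2 := (int_row (z := w - l - l) h2 hx).2.1
  unfold mfG frcXx kO
  simp only
  rw [show w - (l : ℂ) - x - l = w - l - l - x by ring]
  have e : ∫ s : ℝ, pc (x - s * Complex.I) * (keY (w - l - s * Complex.I) +
      keY (w - l - s * Complex.I - l)) =
      (∫ s : ℝ, pc (x - s * Complex.I) * keY (w - l - s * Complex.I)) +
      ∫ s : ℝ, pc (x - s * Complex.I) * keY (w - l - l - s * Complex.I) := by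
    rw [← integral_add i1 i2]
    refine integral_congr_ae (Eventually.of_forall fun s => ?_)
    simp only
    rw [sub_sub_l]
    ring
  rw [e]
  ring

lemma off_of {y : ℝ} (a : -(4 * l) < y) (b : y < 0) (c : y ≠ -l) (d : y ≠ -(2 * l))
    (e : y ≠ -(3 * l)) : Off y := ⟨a, b, c, d, e⟩

/-- the coefficients of a head: own and cross -/
inductive HeadC : Ob → ℂ → ℂ → ℂ → ℂ → Prop
  | A {w : ℂ} : 0 < w.re → w.re < l → HeadC .A w w (-(2 * Real.pi * Complex.I)) 0
  | L {w : ℂ} : -(2 * l) < w.re → w.re < -l → HeadC .L w (w + 2 * l) 0 0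
  | T {w : ℂ} : -l < w.re → w.re < 0 → HeadC .S w (w + 2 * l) (2 * Real.pi * Complex.I) 0
  | S {w : ℂ} : -(2 * l) < w.re → w.re < -l → HeadC .S w (w + 2 * l) 0 (4 * Real.pi * Complex.I)

lemma HeadOk.c2 {k : Ob} {w f c : ℂ} (h : HeadOk k w f c) : ∃ cs cg, c = cs + cg ∧
    HeadC k w f cs cg := by
  cases h with
  | A a b => exact ⟨_, _, (add_zero _).symm, .A a b⟩
  | L a b => exact ⟨_, _, (add_zero _).symm, .L a b⟩
  | T a b => exact ⟨_, _, (add_zero _).symm, .T a b⟩
  | S a b => exact ⟨_, _, (zero_add _).symm, .S a b⟩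

lemma HeadC.ok {k : Ob} {w f cs cg : ℂ} (h : HeadC k w f cs cg) : HeadOk k w f (cs + cg) := by
  cases h with
  | A a b => rw [add_zero]; exact .A a b
  | L a b => rw [add_zero]; exact .L a b
  | T a b => rw [add_zero]; exact .T a b
  | S a b => rw [zero_add]; exact .S a b

/-- **the cross force on a head** -/
theorem mfG_head {k : Ob} {w f cs cg x : ℂ} (h : HeadC k w f cs cg) (hx : |x.re| < l)
    (h2 : w + 2 * l ≠ x) : mfG k w x = cg * pc (f - l - x) := by
  have hl : 0 < l := NUMF.l_pos
  have r : (w - l : ℂ).re = w.re - l := (re_add_nat w).2.1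
  have r2 : (w - l - l : ℂ).re = w.re - l - l := by
    have := (re_add_nat (w - l)).2.1
    rw [show (w - l - l : ℂ).re = (w - l : ℂ).re - l from this, r]
  obtain ⟨o1, o2⟩ := h.ok.off
  have z1 : -(3 * l) < w.re - l → w.re - l < 3 * l → frcXx (w - l) x = 0 := fun a b => by
    refine crossx_0 ?_ hx
    rw [r, abs_lt]
    exact ⟨a, b⟩
  have z2 : -(3 * l) < w.re - l - l → w.re - l - l < 3 * l → frcXx (w - l - l) x = 0 := fun a b => by
    refine crossx_0 ?_ hx
    rw [r2, abs_lt]
    exact ⟨a, b⟩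
  cases h with
  | A a b =>
    rw [zero_mul]
    exact z1 (by linarith) (by linarith)
  | L a b =>
    rw [zero_mul]
    exact z1 (by linarith) (by linarith)
  | T a b =>
    rw [zero_mul, mfG_S o1 (o2 rfl) hx, z1 (by linarith) (by linarith),
      z2 (by linarith) (by linarith), add_zero]
  | S a b =>
    rw [mfG_S o1 (o2 rfl) hx, z1 (by linarith) (by linarith), zero_add, crossx_34 ?_ ?_ hx ?_]
    · congr 2
      show w - l - l + 3 * l - x = _
      ring
    · rw [r2]
      show -(4 * l) < w.re - l - l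
      linarith
    · rw [r2]
      show w.re - l - l < -(3 * l)
      linarith
    · intro e
      apply h2
      have e' : w - l - l - x = -(4 * l) := e
      linear_combination e'

/-- **the own force on a head** -/
theorem mfS_head {k : Ob} {w f cs cg x : ℂ} (h : HeadC k w f cs cg) (hx : |x.re| < l)
    (h1 : w ≠ x) (h2 : w + 2 * l ≠ x) : mfS k w x = cs * pc (f - l - x) := by
  obtain ⟨o1, o2⟩ := h.ok.off
  have a := mf_head h.ok hx h1 h2
  rw [mfO_split k o1 o2 hx, mfG_head h hx h2] at a
  linear_combination a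

/-! ### several rows -/

variable {m : ℕ}

/-- **the convective term vanishes** for all multiplicities `α` (own), `γ` (cross) -/
theorem conv_zeroB (α γ : ℂ) {k : Ob} {w f cs cg : ℂ} {x : Fin m → ℂ} (i0 : Fin m)
    (h : HeadC k w f cs cg)
    (hx : ∀ i, |(x i).re| < l) (h1 : ∀ i, w ≠ x i) (h2 : ∀ i, w + 2 * l ≠ x i)
    (hr : rhoR x f ≠ 0) :
    xiR x i0 f * ∑ i, (α * mfS k w (x i) + γ * mfG k w (x i)) -
      (α * mfS k w (x i0) + γ * mfG k w (x i0)) = 0 := by
  have e : ∀ i, α * mfS k w (x i) + γ * mfG k w (x i) = (α * cs + γ * cg) * pc (f - l - x i) :=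
    fun i => by
      rw [mfS_head h (hx i) (h1 i) (h2 i), mfG_head h (hx i) (h2 i)]
      ring
  have e2 : ∑ i, (α * mfS k w (x i) + γ * mfG k w (x i)) = (α * cs + γ * cg) * rhoR x f := by
    rw [Finset.sum_congr rfl fun i _ => e i, ← Finset.mul_sum]
    rfl
  rw [e2, e i0]
  unfold xiR
  field_simp
  ring

/-- row force on an object with multiplicities `α` (own), `γ` (cross) -/
def krA (α γ : ℂ) (k : Ob) (x : Fin m → ℂ) (w : ℂ) : ℂ :=
  ∑ i, (α * kO rowS k (w - l - x i) + γ * kO rowX k (w - l - x i))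

/-- derivative in the height of the row `i0` -/
def r1A (α γ : ℂ) (k : Ob) (x : Fin m → ℂ) (i0 : Fin m) (w : ℂ) : ℂ :=
  -(α * kO rowS k (w - l - x i0) + γ * kO rowX k (w - l - x i0))

/-- **the convective term in the form of the Ward identity** -/
theorem conv_formB (α γ : ℂ) (b : Bool) {k : Ob} {w f c : ℂ} {x : Fin m → ℂ} (i0 : Fin m)
    (h : HeadOk k w f c) (hx : ∀ i, |(x i).re| < l) (h1 : ∀ i, w ≠ x i)
    (h2 : ∀ i, w + 2 * l ≠ x i) (hf : rhoR x f ≠ 0)
    (hr : ∀ s : ℝ, rhoR x (l + s * Complex.I) ≠ 0) :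
    Integrable (fun s : ℝ => rhoR x (l + s * Complex.I) * ((xiR x i0 f - xiR x i0 (l + s * Complex.I)) *
      (Complex.I * lz (b, k) (b, .A) (w - (l + s * Complex.I))))) ∧
    Integrable (fun s : ℝ => rhoR x (l + s * Complex.I) * ((xiR x i0 f - xiR x i0 (l + s * Complex.I)) *
      (Complex.I * lz (b, k) (!b, .A) (w - (l + s * Complex.I))))) ∧
    xiR x i0 f * krA α γ k x w +
      (α * (∫ s : ℝ, rhoR x (l + s * Complex.I) * ((xiR x i0 f - xiR x i0 (l + s * Complex.I)) *
        (Complex.I * lz (b, k) (b, .A) (w - (l + s * Complex.I))))) +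
      γ * ∫ s : ℝ, rhoR x (l + s * Complex.I) * ((xiR x i0 f - xiR x i0 (l + s * Complex.I)) *
        (Complex.I * lz (b, k) (!b, .A) (w - (l + s * Complex.I))))) +
      r1A α γ k x i0 w = 0 := by
  obtain ⟨cs, cg, -, h'⟩ := HeadOk.c2 h
  obtain ⟨o1, o2⟩ := h.off
  have hi := fun i => int_mfO k o1 o2 (hx i)
  obtain ⟨c1, d1⟩ := conv_int (K := fun s => kO keX k (w - l - s * Complex.I)) i0 (xiR x i0 f)
    (fun i => (hi i).1) hr
  obtain ⟨c2, d2⟩ := conv_int (K := fun s => kO keY k (w - l - s * Complex.I)) i0 (xiR x i0 f)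
    (fun i => (hi i).2.1) hr
  have e1 : (fun s : ℝ => rhoR x (l + s * Complex.I) * ((xiR x i0 f - xiR x i0 (l + s * Complex.I)) *
      (Complex.I * lz (b, k) (b, .A) (w - (l + s * Complex.I))))) =ᵐ[volume]
      fun s : ℝ => rhoR x (l + s * Complex.I) * ((xiR x i0 f - xiR x i0 (l + s * Complex.I)) *
      kO keX k (w - l - s * Complex.I)) := by
    filter_upwards [lz_ae b k w] with s hs
    rw [hs.1]
  have e2 : (fun s : ℝ => rhoR x (l + s * Complex.I) * ((xiR x i0 f - xiR x i0 (l + s * Complex.I)) *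
      (Complex.I * lz (b, k) (!b, .A) (w - (l + s * Complex.I))))) =ᵐ[volume]
      fun s : ℝ => rhoR x (l + s * Complex.I) * ((xiR x i0 f - xiR x i0 (l + s * Complex.I)) *
      kO keY k (w - l - s * Complex.I)) := by
    filter_upwards [lz_ae b k w] with s hs
    rw [hs.2]
  refine ⟨c1.congr e1.symm, c2.congr e2.symm, ?_⟩
  rw [integral_congr_ae e1, integral_congr_ae e2, d1, d2]
  have hz := conv_zeroB α γ i0 h' hx h1 h2 hf
  unfold mfS mfG at hz
  unfold krA r1A
  simp only [Finset.sum_add_distrib, ← Finset.mul_sum, mul_add] at hz ⊢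
  linear_combination hz

/-- **rows on the imaginary axis**: no condition but the line of the head -/
theorem conv_formB0 (α γ : ℂ) (b : Bool) {k : Ob} {w f c : ℂ} {x : Fin m → ℂ} (i0 : Fin m)
    (h : HeadOk k w f c) (hx : ∀ i, (x i).re = 0) :
    Integrable (fun s : ℝ => rhoR x (l + s * Complex.I) * ((xiR x i0 f - xiR x i0 (l + s * Complex.I)) *
      (Complex.I * lz (b, k) (b, .A) (w - (l + s * Complex.I))))) ∧
    Integrable (fun s : ℝ => rhoR x (l + s * Complex.I) * ((xiR x i0 f - xiR x i0 (l + s * Complex.I)) *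
      (Complex.I * lz (b, k) (!b, .A) (w - (l + s * Complex.I))))) ∧
    xiR x i0 f * krA α γ k x w +
      (α * (∫ s : ℝ, rhoR x (l + s * Complex.I) * ((xiR x i0 f - xiR x i0 (l + s * Complex.I)) *
        (Complex.I * lz (b, k) (b, .A) (w - (l + s * Complex.I))))) +
      γ * ∫ s : ℝ, rhoR x (l + s * Complex.I) * ((xiR x i0 f - xiR x i0 (l + s * Complex.I)) *
        (Complex.I * lz (b, k) (!b, .A) (w - (l + s * Complex.I))))) +
      r1A α γ k x i0 w = 0 := by
  have hl : 0 < l := NUMF.l_pos
  have hm : 0 < m := i0.pos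
  have r3 : (w + 2 * l : ℂ).re = w.re + 2 * l := (re_add_nat w).2.2.1
  have rw1 : (w - l : ℂ).re = w.re - l := (re_add_nat w).2.1
  have r4 : (w + 2 * l - l : ℂ).re = w.re + 2 * l - l := by
    have := (re_add_nat (w + 2 * l)).2.1
    rw [show (w + 2 * l - l : ℂ).re = (w + 2 * l : ℂ).re - l from this, r3]
  have ne_of : ∀ {a : ℂ}, a.re ≠ 0 → ∀ i, a ≠ x i := by
    intro a ha i e
    exact ha (by rw [e, hx i])
  refine conv_formB α γ b i0 h (fun i => by rw [hx i, abs_zero]; exact hl) ?_ ?_ ?_ ?_
  · cases h with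
    | A a b => exact ne_of (by linarith)
    | L a b => exact ne_of (by linarith)
    | T a b => exact ne_of (by linarith)
    | S a b => exact ne_of (by linarith)
  · cases h with
    | A a b => exact ne_of (by rw [r3]; linarith)
    | L a b => exact ne_of (by rw [r3]; linarith)
    | T a b => exact ne_of (by rw [r3]; linarith)
    | S a b => exact ne_of (by rw [r3]; linarith)
  · refine rhoR_ne hm fun i => ?_
    rw [Complex.sub_re, hx i, sub_zero, abs_lt]
    cases h with
    | A a b => rw [rw1]; constructor <;> linarith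
    | L a b => rw [r4]; constructor <;> linarith
    | T a b => rw [r4]; constructor <;> linarith
    | S a b => rw [r4]; constructor <;> linarith
  · intro s
    refine rhoR_ne hm fun i => ?_
    rw [Complex.sub_re, hx i, sub_zero]
    have : ((l : ℂ) + s * Complex.I - l).re = 0 := by simp
    rw [this, abs_zero]
    exact hl

/-! ### the row factor -/

/-- own factor of a row at `0` -/
def rwS (v : ℂ) : ℂ := 1 / Complex.sin v * (1 / Complex.sin (v - 2 * l))

/-- cross factor of a row at `0` -/
def rwG (v : ℂ) : ℂ := Complex.sin (v + 3 * l) ^ 2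

lemma rwF_split (v : ℂ) : rwF v = rwS v * rwG v := rfl

theorem hasDerivAt_rwS {v : ℂ} (h0 : Complex.sin v ≠ 0) (h2 : Complex.sin (v - 2 * l) ≠ 0) :
    HasDerivAt rwS (rwS v * (-Complex.I * rowS (v - l))) v := by
  have d0 : HasDerivAt (fun z : ℂ => Complex.sin z) (Complex.cos v) v := Complex.hasDerivAt_sin v
  have d2 : HasDerivAt (fun z : ℂ => Complex.sin (z - 2 * l)) (Complex.cos (v - 2 * l)) v := by
    simpa [sub_eq_add_neg] using hd_sin v (-(2 * l))
  have d := (d0.inv h0).mul (d2.inv h2)
  have hf : rwS = fun z : ℂ => (Complex.sin z)⁻¹ * (Complex.sin (z - 2 * l))⁻¹ := by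
    funext z
    unfold rwS
    rw [one_div, one_div]
  rw [hf]
  refine d.congr_deriv ?_
  unfold rowS
  change _ = _ * (-Complex.I * (Complex.I * (-Complex.cot (v - l + l) - Complex.cot (v - l - l))))
  rw [show v - (l : ℂ) + l = v by ring, show v - (l : ℂ) - l = v - 2 * l by ring]
  unfold Complex.cot
  rw [show ∀ a : ℂ, -Complex.I * (Complex.I * a) = a from fun a => by
    rw [← mul_assoc, neg_mul, Complex.I_mul_I, neg_neg, one_mul]]
  simp only [Pi.inv_apply]
  clear d d0 d2 hf
  generalize Complex.sin v = A at *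
  generalize Complex.sin (v - 2 * l) = B at *
  field_simp
  ring

theorem hasDerivAt_rwG {v : ℂ} (h3 : Complex.sin (v + 3 * l) ≠ 0) :
    HasDerivAt rwG (rwG v * (-Complex.I * rowX (v - l))) v := by
  have d3 := hd_sin v (3 * l)
  have d := d3.pow 2
  have ht : Complex.tan (v - l) = -Complex.cot (v + 3 * l) := by
    rw [cot_m, neg_neg]
    congr 1
    show v - l = v + 3 * l - 4 * l
    ring
  refine d.congr_deriv ?_
  change ((2 : ℕ) : ℂ) * Complex.sin (v + 3 * l) ^ (2 - 1) * Complex.cos (v + 3 * l) =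
    Complex.sin (v + 3 * l) ^ 2 * (-Complex.I * (Complex.I * (-2 * Complex.tan (v - l))))
  rw [ht]
  unfold Complex.cot
  rw [show ∀ a : ℂ, -Complex.I * (Complex.I * a) = a from fun a => by
    rw [← mul_assoc, neg_mul, Complex.I_mul_I, neg_neg, one_mul]]
  have e : (2 - 1 : ℕ) = 1 := rfl
  rw [e, pow_one]
  push_cast
  field_simp

/-- factor of one row with natural multiplicities `a` (own), `g` (cross) -/
def rwB (a g : ℕ) (v : ℂ) : ℂ := rwS v ^ a * rwG v ^ g

lemma rwB_one (v : ℂ) : rwB 1 1 v = rwF v := by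
  unfold rwB
  rw [pow_one, pow_one, rwF_split]

theorem hasDerivAt_rwB (a g : ℕ) {v : ℂ} (h : RowOk v) : HasDerivAt (rwB a g)
    (rwB a g v * (-Complex.I * (a * rowS (v - l) + g * rowX (v - l)))) v := by
  have d1 := (hasDerivAt_rwS h.a h.b).pow a
  have d2 := (hasDerivAt_rwG h.c).pow g
  have e1 : (a : ℂ) * rwS v ^ (a - 1) * (rwS v * (-Complex.I * rowS (v - l))) =
      rwS v ^ a * (-Complex.I * (a * rowS (v - l))) := by
    rcases a with _ | a
    · simp
    · rw [Nat.add_sub_cancel, pow_succ]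
      ring
  have e2 : (g : ℂ) * rwG v ^ (g - 1) * (rwG v * (-Complex.I * rowX (v - l))) =
      rwG v ^ g * (-Complex.I * (g * rowX (v - l))) := by
    rcases g with _ | g
    · simp
    · rw [Nat.add_sub_cancel, pow_succ]
      ring
  rw [e1] at d1
  rw [e2] at d2
  refine (d1.mul d2).congr_deriv ?_
  simp only [Pi.pow_apply]
  unfold rwB
  ring

/-- **the row factor with natural multiplicities** `a` (own), `g` (cross) -/
def RRB (c : ℂ) (a g : ℕ) (x : Fin m → ℂ) (u : ℂ) : ℂ := c * ∏ i, rwB a g (u - x i)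

lemma RRB_one (c : ℂ) (x : Fin m → ℂ) (u : ℂ) : RRB c 1 1 x u = NURow.RR c x x u := by
  rw [RR_eq]
  unfold RRB
  simp_rw [rwB_one]

/-- logarithmic derivative in the position -/
theorem hasDerivAt_RRB (c : ℂ) (a g : ℕ) (x : Fin m → ℂ) {u : ℂ} (h : ∀ i, RowOk (u - x i)) :
    HasDerivAt (RRB c a g x)
      (RRB c a g x u * (-Complex.I * ∑ i, (a * rowS (u - l - x i) + g * rowX (u - l - x i)))) u := by
  have hi : ∀ i ∈ Finset.univ, HasDerivAt (fun u : ℂ => rwB a g (u - x i))
      (rwB a g (u - x i) * (-Complex.I * (a * rowS (u - x i - l) + g * rowX (u - x i - l)))) u := by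
    intro i _
    have := (hasDerivAt_rwB a g (h i)).comp u ((hasDerivAt_id u).sub_const (x i))
    rwa [mul_one] at this
  have hd := (HasDerivAt.fun_finsetProd hi).const_mul c
  refine hd.congr_deriv ?_
  show c * _ = (c * ∏ i, rwB a g (u - x i)) * _
  rw [mul_assoc]
  congr 1
  rw [Finset.mul_sum, Finset.mul_sum]
  refine Finset.sum_congr rfl fun i hi' => ?_
  rw [← Finset.mul_prod_erase Finset.univ (fun i => rwB a g (u - x i)) hi', smul_eq_mul,
    show u - x i - (l : ℂ) = u - l - x i by ring]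
  ring

/-- derivative in the height of one row -/
theorem hasDerivAt_RRB_row (c : ℂ) (a g : ℕ) (x : Fin m → ℂ) (i0 : Fin m) {u : ℂ}
    (h : RowOk (u - x i0)) :
    HasDerivAt (fun η : ℝ => RRB c a g (Function.update x i0 (x i0 + η * Complex.I)) u)
      (RRB c a g x u * -(a * rowS (u - l - x i0) + g * rowX (u - l - x i0))) 0 := by
  have hf : (fun η : ℝ => RRB c a g (Function.update x i0 (x i0 + η * Complex.I)) u) = fun η : ℝ =>
      rwB a g (u - (x i0 + η * Complex.I)) * (c * ∏ i ∈ Finset.univ.erase i0, rwB a g (u - x i)) := by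
    funext η
    unfold RRB
    rw [← Finset.mul_prod_erase Finset.univ _ (Finset.mem_univ i0), Function.update_self]
    have : ∏ i ∈ Finset.univ.erase i0, rwB a g (u - Function.update x i0 (x i0 + η * Complex.I) i) =
        ∏ i ∈ Finset.univ.erase i0, rwB a g (u - x i) := by
      refine Finset.prod_congr rfl fun i hi => ?_
      rw [Function.update_of_ne (Finset.ne_of_mem_erase hi)]
    rw [this]
    ring
  have h1 : HasDerivAt (fun η : ℝ => u - (x i0 + η * Complex.I)) (-Complex.I) 0 := by
    have h2 : HasDerivAt (fun η : ℝ => (η : ℂ) * Complex.I) Complex.I 0 := by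
      have := (Complex.ofRealCLM.hasDerivAt (x := (0 : ℝ))).mul_const Complex.I
      simpa using this
    have := (h2.const_add (x i0)).const_sub u
    exact this
  have h3 : HasDerivAt (rwB a g) (rwB a g (u - x i0) *
      (-Complex.I * (a * rowS (u - x i0 - l) + g * rowX (u - x i0 - l))))
      (u - (x i0 + ((0 : ℝ) : ℂ) * Complex.I)) := by
    rw [Complex.ofReal_zero, zero_mul, add_zero]
    exact hasDerivAt_rwB a g h
  have h4 := (h3.comp (0 : ℝ) h1).mul_const (c * ∏ i ∈ Finset.univ.erase i0, rwB a g (u - x i))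
  rw [hf]
  refine h4.congr_deriv ?_
  unfold RRB
  rw [← Finset.mul_prod_erase Finset.univ (fun i => rwB a g (u - x i)) (Finset.mem_univ i0),
    show u - x i0 - (l : ℂ) = u - l - x i0 by ring]
  linear_combination (rwB a g (u - x i0) * (a * rowS (u - l - x i0) + g * rowX (u - l - x i0)) *
    (c * ∏ i ∈ Finset.univ.erase i0, rwB a g (u - x i))) * Complex.I_mul_I

/-- row factor of an object with natural multiplicities -/
def rowB (c : ℂ) (a g : ℕ) (x : Fin m → ℂ) (k : Ob) (w : ℂ) : ℂ := one (RRB c a g x) k w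

theorem hasDerivAt_rowB (c : ℂ) (a g : ℕ) (x : Fin m → ℂ) (k : Ob) {w : ℂ}
    (h : ∀ i, RowOk (w - x i)) (h' : k = .S → ∀ i, RowOk (w - l - x i)) :
    HasDerivAt (rowB c a g x k) (rowB c a g x k w * (-Complex.I * krA a g k x w)) w := by
  have d1 := hasDerivAt_RRB c a g x h
  cases k with
  | A => exact d1
  | L => exact d1
  | S =>
    have d2 := (hasDerivAt_RRB c a g x (h' rfl)).comp w ((hasDerivAt_id w).sub_const (l : ℂ))
    rw [mul_one] at d2
    refine (d1.mul d2).congr_deriv ?_
    show RRB c a g x w * (-Complex.I * ∑ i, (a * rowS (w - l - x i) + g * rowX (w - l - x i))) *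
      RRB c a g x (w - l) + RRB c a g x w * (RRB c a g x (w - l) * (-Complex.I *
        ∑ i, (a * rowS (w - l - l - x i) + g * rowX (w - l - l - x i)))) =
      RRB c a g x w * RRB c a g x (w - l) *
        (-Complex.I * ∑ i, (a * (rowS (w - l - x i) + rowS (w - l - x i - l)) +
          g * (rowX (w - l - x i) + rowX (w - l - x i - l))))
    have e : ∀ i, w - l - x i - (l : ℂ) = w - l - l - x i := fun i => by ring
    simp_rw [e]
    simp only [mul_add, Finset.sum_add_distrib]
    ring

theorem hasDerivAt_rowB_row (c : ℂ) (a g : ℕ) (x : Fin m → ℂ) (i0 : Fin m) (k : Ob) {w : ℂ}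
    (h : RowOk (w - x i0)) (h' : k = .S → RowOk (w - l - x i0)) :
    HasDerivAt (fun η : ℝ => rowB c a g (Function.update x i0 (x i0 + η * Complex.I)) k w)
      (rowB c a g x k w * r1A a g k x i0 w) 0 := by
  have d1 := hasDerivAt_RRB_row c a g x i0 h
  cases k with
  | A => exact d1
  | L => exact d1
  | S =>
    have d2 := hasDerivAt_RRB_row c a g x i0 (h' rfl)
    refine (d1.mul d2).congr_deriv ?_
    have e0 : Function.update x i0 (x i0 + ((0 : ℝ) : ℂ) * Complex.I) = x := by
      rw [Complex.ofReal_zero, zero_mul, add_zero, Function.update_eq_self]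
    rw [e0]
    show RRB c a g x w * -(a * rowS (w - l - x i0) + g * rowX (w - l - x i0)) *
        RRB c a g x (w - l) +
      RRB c a g x w * (RRB c a g x (w - l) * -(a * rowS (w - l - l - x i0) +
        g * rowX (w - l - l - x i0))) =
      RRB c a g x w * RRB c a g x (w - l) *
        -(a * (rowS (w - l - x i0) + rowS (w - l - x i0 - l)) +
          g * (rowX (w - l - x i0) + rowX (w - l - x i0 - l)))
    rw [show w - l - x i0 - (l : ℂ) = w - l - l - x i0 by ring]
    ring

/-- multiplicities one: the landed row forces -/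
lemma krA_one (k : Ob) (x : Fin m → ℂ) (w : ℂ) : krA 1 1 k x w = krR k x w := by
  unfold krA krR
  refine Finset.sum_congr rfl fun i _ => ?_
  rw [one_mul, one_mul, ← kO_rowD]

lemma r1A_one (k : Ob) (x : Fin m → ℂ) (i0 : Fin m) (w : ℂ) : r1A 1 1 k x i0 w = r1R k x i0 w := by
  unfold r1A r1R
  rw [one_mul, one_mul, ← kO_rowD]

end PBForce
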