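import Pool.Agent.PB.I1Q
import Pool.Agent.PLX.ForceK2
import Pool.Agent.PLX.Fil

/-!
# Two fillings: the first Ward identity in normal form

Rows `x : Fin m → ℂ`; the rows of species `a` are `Fil.n a`-fold.  Field `xiR x i0` of the moved row
(all its copies are moved together), the same for both species.

* `Cx_line`, `CvA_line` : the convective term on the line `A`, own and cross multiplicities;
* `rhK2`, `krK2`, `r1K2` : density, row force, derivative in the height of the moved row, of the kinds;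
* `conv_K2`, `hI12`, `hI12'`, `hI22`, `qidK2`, `hE2`; `C02`;
* **`normal_form2`**.
-/

set_option autoImplicit false
set_option linter.unusedSectionVars false

noncomputable section

open MeasureTheory Set Filter Topology Finset
open scoped Classical

namespace PBQ1

open NUP1 NUP1S NUP1.Bd NURow PB PBI PBForce Pool.Agent.PB
open PLX (Fil)

variable {m : ℕ}

/-! ### the cross part on the line `A` -/

lemma line_re (t : ℝ) : ((l : ℂ) + t * Complex.I - l).re = 0 := by simp

lemma line_I (t : ℝ) : (l : ℂ) + t * Complex.I - l = t * Complex.I := by ring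

/-- one row and its sea, cross pair function, on the line `A` -/
lemma crossA {x : ℂ} (hx : |x.re| < l) (t : ℝ) :
    Integrable (fun s : ℝ => pc (x - s * Complex.I) *
      kO keY .A ((l : ℂ) + t * Complex.I - l - s * Complex.I)) ∧
    kO rowX .A ((l : ℂ) + t * Complex.I - l - x) + (∫ s : ℝ, pc (x - s * Complex.I) *
      kO keY .A ((l : ℂ) + t * Complex.I - l - s * Complex.I)) = 0 := by
  have h3 : |((l : ℂ) + t * Complex.I - l).re| < 3 * NUMF.l := by
    rw [line_re, abs_zero]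
    have := NUMF.l_pos
    positivity
  refine ⟨(conv_diff (int_keY0 h3) hx).2, ?_⟩
  exact crossx_0 h3 hx

/-- **the cross part of the convective term on the line `A`** -/
theorem Cx_line (b : Bool) {x : Fin m → ℂ} (i0 : Fin m) (hx : ∀ i, |(x i).re| < l)
    (hr : ∀ s : ℝ, rhoR x (l + s * Complex.I) ≠ 0) (t : ℝ) :
    xiR x i0 (l + t * Complex.I) * (∑ i, kO rowX .A (l + t * Complex.I - l - x i)) +
      (∫ s : ℝ, rhoR x (l + s * Complex.I) * ((xiR x i0 (l + t * Complex.I) -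
        xiR x i0 (l + s * Complex.I)) * (Complex.I * lz (b, .A) (!b, .A)
          ((l + t * Complex.I) - (l + s * Complex.I))))) -
      kO rowX .A (l + t * Complex.I - l - x i0) = 0 := by
  have hi := fun i => crossA (hx i) t
  obtain ⟨c2, d2⟩ := conv_int (K := fun s : ℝ =>
    kO keY .A ((l : ℂ) + t * Complex.I - l - s * Complex.I)) i0 (xiR x i0 (l + t * Complex.I))
    (fun i => (hi i).1) hr
  have e2 : (fun s : ℝ => rhoR x (l + s * Complex.I) * ((xiR x i0 (l + t * Complex.I) -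
        xiR x i0 (l + s * Complex.I)) * (Complex.I * lz (b, .A) (!b, .A)
          ((l + t * Complex.I) - (l + s * Complex.I))))) =ᵐ[volume]
      fun s : ℝ => rhoR x (l + s * Complex.I) * ((xiR x i0 (l + t * Complex.I) -
        xiR x i0 (l + s * Complex.I)) * kO keY .A ((l : ℂ) + t * Complex.I - l - s * Complex.I)) := by
    filter_upwards [lz_ae b .A (l + t * Complex.I)] with s hs
    rw [hs.2]
  rw [integral_congr_ae e2, d2]
  have e : ∀ i, ∫ s : ℝ, pc (x i - s * Complex.I) *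
      kO keY .A ((l : ℂ) + t * Complex.I - l - s * Complex.I) =
      -kO rowX .A ((l : ℂ) + t * Complex.I - l - x i) := fun i => by
    linear_combination (hi i).2
  rw [Finset.sum_congr rfl fun i _ => e i, e i0, Finset.sum_neg_distrib]
  ring

/-- **the convective term on the line `A`**, multiplicities `α` (own), `γ` (cross) -/
theorem CvA_line (α γ : ℂ) (b : Bool) {x : Fin m → ℂ} (i0 : Fin m) (hx : ∀ i, |(x i).re| < l)
    (hne : ∀ t : ℝ, ro x t ≠ 0) (t : ℝ) :
    Integrable (fun s : ℝ => rhoR x (l + s * Complex.I) * ((xiR x i0 (l + t * Complex.I) -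
      xiR x i0 (l + s * Complex.I)) * (Complex.I * lz (b, .A) (b, .A)
        ((l + t * Complex.I) - (l + s * Complex.I))))) ∧
    Integrable (fun s : ℝ => rhoR x (l + s * Complex.I) * ((xiR x i0 (l + t * Complex.I) -
      xiR x i0 (l + s * Complex.I)) * (Complex.I * lz (b, .A) (!b, .A)
        ((l + t * Complex.I) - (l + s * Complex.I))))) ∧
    xiR x i0 (l + t * Complex.I) * krA α γ .A x (l + t * Complex.I) +
      (α * (∫ s : ℝ, rhoR x (l + s * Complex.I) * ((xiR x i0 (l + t * Complex.I) -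
        xiR x i0 (l + s * Complex.I)) * (Complex.I * lz (b, .A) (b, .A)
          ((l + t * Complex.I) - (l + s * Complex.I))))) +
      γ * ∫ s : ℝ, rhoR x (l + s * Complex.I) * ((xiR x i0 (l + t * Complex.I) -
        xiR x i0 (l + s * Complex.I)) * (Complex.I * lz (b, .A) (!b, .A)
          ((l + t * Complex.I) - (l + s * Complex.I))))) +
      r1A α γ .A x i0 (l + t * Complex.I) = 0 := by
  obtain ⟨j1, j2, j3⟩ := Cv_line b i0 hx hne t
  refine ⟨j1, j2, ?_⟩
  have hr : ∀ s : ℝ, rhoR x (l + s * Complex.I) ≠ 0 := fun s => by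
    have h := rhoR_line hx s
    change rhoR x (NUMF.l + s * Complex.I) ≠ 0
    rw [h]
    exact hne s
  have j4 := Cx_line b i0 hx hr t
  unfold krR r1R at j3
  unfold krA r1A
  simp only [kO_rowD, Finset.sum_add_distrib, ← Finset.mul_sum] at j3 ⊢
  linear_combination α * j3 + (γ - α) * j4

/-! ### kinds, two fillings -/

section fil

variable [Fil]

/-- density of the kinds: only the quanta have a sea -/
def rhK2 (x : Fin m → ℂ) (b : K4) (s : ℝ) : ℂ := (Fil.b b.1 : ℂ) * rhK x b s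

/-- the row force on the kinds -/
def krK2 (x : Fin m → ℂ) (b : K4) (w : ℂ) : ℂ := krA (Fil.b b.1) (Fil.b (!b.1)) (ob4 b.2) x w

/-- derivative of the row factor of the kinds in the height of the row `i0` -/
def r1K2 (x : Fin m → ℂ) (i0 : Fin m) (b : K4) (w : ℂ) : ℂ :=
  r1A (Fil.b b.1) (Fil.b (!b.1)) (ob4 b.2) x i0 w

lemma rhK2_none (x : Fin m → ℂ) (s : Bool) (t : ℝ) :
    rhK2 x (s, none) t = (Fil.b s : ℂ) * rhoR x (vl l t) := rfl

lemma rhK2_some (x : Fin m → ℂ) (s : Bool) (k : O3) (t : ℝ) : rhK2 x (s, some k) t = 0 := by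
  unfold rhK2
  rw [rhK_some, mul_zero]

variable {x : Fin m → ℂ} {i0 : Fin m} {D : K4 → Set ℂ} {dxi : K4 → ℂ → ℂ}
    {a : K4 → K4 → ℂ → ℂ → ℂ}

lemma rhK2_mem (H : KerH x i0 D dxi a) (b : K4) (u : ℝ) (h : rhK2 x b u ≠ 0) :
    vl l u ∈ D b :=
  rhK_mem H b u (right_ne_zero_of_mul h)

/-- **both species: the convective identity** -/
theorem conv_K2 (H : KerH x i0 D dxi a) (hx : ∀ i, (x i).re = 0) {b : K4} {z : ℂ} (hz : z ∈ D b) :
    (∀ c, Integrable fun u : ℝ => a b c z (vl l u) * rhK2 x c u) ∧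
    NX.Cv (vl l) (rhK2 x) (xiK x i0) (krK2 x) (r1K2 x i0) a b z = 0 := by
  have e1 := ker_ae H hz b.1
  have e2 := ker_ae H hz (!b.1)
  have hq : ∀ (c : K4), (fun u : ℝ => a b c z (vl l u) * rhK2 x c u) =
      fun u : ℝ => (Fil.b c.1 : ℂ) * (a b c z (vl l u) * rhK x c u) := by
    intro c
    funext u
    unfold rhK2
    ring
  have hsum : NX.smr (vl l) (rhK2 x) a b z =
      (Fil.b b.1 : ℂ) * (∫ u : ℝ, a b (b.1, none) z (vl l u) * rhK x (b.1, none) u) +
        (Fil.b (!b.1) : ℂ) * ∫ u : ℝ, a b (!b.1, none) z (vl l u) * rhK x (!b.1, none) u := by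
    unfold NX.smr
    simp only [hq]
    simp_rw [integral_const_mul]
    exact sum_K4 (f := fun c : K4 => (Fil.b c.1 : ℂ) * ∫ u : ℝ, a b c z (vl l u) * rhK x c u)
      (fun s k => by simp [rhK_some]) b.1
  have main : xiR x i0 (fp b z) * krK2 x b z + ((Fil.b b.1 : ℂ) * (∫ u : ℝ,
      rhoR x (l + u * Complex.I) * ((xiR x i0 (fp b z) - xiR x i0 (l + u * Complex.I)) *
        (Complex.I * lz (co b) (b.1, .A) (z - (l + u * Complex.I))))) + (Fil.b (!b.1) : ℂ) * ∫ u : ℝ,
      rhoR x (l + u * Complex.I) * ((xiR x i0 (fp b z) - xiR x i0 (l + u * Complex.I)) *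
        (Complex.I * lz (co b) (!b.1, .A) (z - (l + u * Complex.I))))) +
      r1K2 x i0 b z = 0 := by
    rcases H.adm b z hz with ⟨hb, hre⟩ | ⟨c, hc⟩
    · obtain ⟨s, k⟩ := b
      simp only at hb
      subst hb
      have ez : z = (l : ℂ) + z.im * Complex.I := by
        rw [← hre]
        exact (Complex.re_add_im z).symm
      have hL := (CvA_line (Fil.b s) (Fil.b (!s)) s i0 (hx_line hx) (ro_ne i0 hx) z.im).2.2
      rw [← ez] at hL
      exact hL
    · exact (conv_formB0 (Fil.b b.1) (Fil.b (!b.1)) b.1 i0 hc hx).2.2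
  constructor
  · intro c
    rw [hq c]
    exact ((conv_K H hx hz).1 c).const_mul _
  · unfold NX.Cv
    rw [hsum, integral_congr_ae e1, integral_congr_ae e2]
    exact main

/-! ### the cross row force on the line -/

lemma rowX_bdd {y : ℂ} (hy : y.re = 0) (t : ℝ) : ‖kO rowX .A (vl l t - l - y)‖ ≤ 2 := by
  have hre : (vl l t - l - y).re = 0 := by simp [vl, hy]
  show ‖rowX (vl l t - l - y)‖ ≤ 2
  unfold rowX
  have h := tan_le (w := vl l t - l - y) (by rw [hre, Real.cos_zero]; exact one_ne_zero)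
  rw [hre, Real.cos_zero, abs_one, _root_.div_one] at h
  rw [norm_mul, Complex.norm_I, one_mul, norm_mul, norm_neg, Complex.norm_ofNat]
  linarith

lemma rowX_meas (y : ℂ) : Measurable fun t : ℝ => kO rowX .A (vl l t - l - y) := by
  show Measurable fun t : ℝ => rowX (vl l t - l - y)
  unfold rowX
  have h1 : Measurable fun t : ℝ => vl l t - l - y := by
    unfold vl
    fun_prop
  exact ((tan_meas.comp h1).const_mul _).const_mul _

/-- the cross force of the rows on the line `A` -/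
def frX (x : Fin m → ℂ) (t : ℝ) : ℂ := ∑ i, kO rowX .A (vl l t - l - x i)

/-- the cross force of the moved row on the line `A` -/
def frX1 (x : Fin m → ℂ) (i0 : Fin m) (t : ℝ) : ℂ := kO rowX .A (vl l t - l - x i0)

lemma frX_bdd {x : Fin m → ℂ} (hx : ∀ i, (x i).re = 0) (t : ℝ) : ‖frX x t‖ ≤ m * 2 := by
  unfold frX
  refine (norm_sum_le _ _).trans ?_
  refine (Finset.sum_le_sum fun i _ => rowX_bdd (hx i) t).trans (le_of_eq ?_)
  rw [Finset.sum_const, Finset.card_univ, Fintype.card_fin, nsmul_eq_mul]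

lemma frX_meas (x : Fin m → ℂ) : Measurable (frX x) := by
  unfold frX
  exact Finset.measurable_sum _ fun i _ => rowX_meas (x i)

/-- the cross force of a row is the smeared cross kernel -/
lemma rowX_conv {y : ℂ} (hy : |y.re| < l) (t : ℝ) :
    Integrable (fun s : ℝ => NUMF.Pc (s - hr y) * (Kg (t - s) : ℂ)) ∧
    kO rowX .A (vl l t - l - y) = -∫ s : ℝ, NUMF.Pc (s - hr y) * (Kg (t - s) : ℂ) := by
  obtain ⟨a1, a2⟩ := crossA hy t
  have e : (fun s : ℝ => pc (y - s * Complex.I) *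
      kO keY .A ((l : ℂ) + t * Complex.I - l - s * Complex.I)) =ᵐ[volume]
      fun s : ℝ => NUMF.Pc (s - hr y) * (Kg (t - s) : ℂ) := by
    filter_upwards [ln_ne t] with s hst
    have e1 : pc (y - s * Complex.I) = NUMF.Pc (s - hr y) := by
      rw [← pc_neg, ← pc_Im (sub_im hy s), ← line_eq s y]
      congr 1
      ring
    have e2 : (l : ℂ) + t * Complex.I - l - s * Complex.I = ((t - s : ℝ) : ℂ) * Complex.I := by
      push_cast
      ring
    have e3 : kO keY .A ((l : ℂ) + t * Complex.I - l - s * Complex.I) = (Kg (t - s) : ℂ) := by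
      rw [e2]
      exact keY_I (sub_ne_zero.2 (Ne.symm hst))
    rw [e1, e3]
  refine ⟨a1.congr e, ?_⟩
  rw [← integral_congr_ae e]
  have e4 : vl l t = (l : ℂ) + t * Complex.I := rfl
  rw [e4]
  linear_combination a2

lemma frX_conv {x : Fin m → ℂ} (hx : ∀ i, |(x i).re| < l) (t : ℝ) :
    frX x t = -∫ s : ℝ, ro x s * (Kg (t - s) : ℂ) := by
  unfold frX ro
  simp only [Finset.sum_mul]
  rw [integral_finsetSum _ fun i _ => (rowX_conv (hx i) t).1, ← Finset.sum_neg_distrib]
  exact Finset.sum_congr rfl fun i _ => (rowX_conv (hx i) t).2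

/-- the cross kernel is odd -/
lemma cross_swap {f g : ℝ → ℂ} (hf : Integrable f) (hg : Integrable g) :
    ∫ t : ℝ, f t * ∫ s : ℝ, g s * (Kg (t - s) : ℂ) =
      -∫ t : ℝ, g t * ∫ s : ℝ, f s * (Kg (t - s) : ℂ) := by
  have h1 : Integrable (fun p : ℝ × ℝ => f p.1 * g p.2) (volume.prod volume) := hf.mul_prod hg
  have mK : AEStronglyMeasurable (fun p : ℝ × ℝ => (Kg (p.1 - p.2) : ℂ)) (volume.prod volume) :=
    (Complex.measurable_ofReal.comp (Kg_meas.comp
      (measurable_fst.sub measurable_snd))).aestronglyMeasurable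
  have h2 : Integrable (fun p : ℝ × ℝ => f p.1 * (g p.2 * (Kg (p.1 - p.2) : ℂ)))
      (volume.prod volume) := by
    refine (h1.mul_bdd (c := 6) mK (Eventually.of_forall fun p => ?_)).congr
      (Eventually.of_forall fun p => ?_)
    · rw [Complex.norm_real, Real.norm_eq_abs]
      exact abs_Kg_le _
    · simp only []
      ring
  have h3 := integral_integral_swap (f := fun t s : ℝ => f t * (g s * (Kg (t - s) : ℂ))) h2
  simp_rw [← integral_const_mul]
  rw [h3, ← integral_neg]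
  refine integral_congr_ae (Eventually.of_forall fun s => ?_)
  simp only []
  rw [← integral_neg]
  refine integral_congr_ae (Eventually.of_forall fun t => ?_)
  simp only []
  rw [show t - s = -(s - t) by ring, Kg_neg]
  push_cast
  ring

/-- **the cross part of the constant term** -/
theorem crossE (i0 : Fin m) (hx : ∀ i, (x i).re = 0) :
    Integrable (fun t : ℝ => NUMF.Pc (t - hr (x i0)) * frX x t) ∧
    Integrable (fun t : ℝ => ro x t * frX1 x i0 t) ∧
    (∫ t : ℝ, NUMF.Pc (t - hr (x i0)) * frX x t) + ∫ t : ℝ, ro x t * frX1 x i0 t = 0 := by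
  have hl := hx_line hx
  have hne := ro_ne i0 hx
  obtain ⟨B, D⟩ := rowDat i0 hl hne
  refine ⟨D.i1.mul_bdd (c := m * 2) (frX_meas x).aestronglyMeasurable
      (Eventually.of_forall fun t => frX_bdd hx t),
    D.i0.mul_bdd (c := 2) (rowX_meas (x i0)).aestronglyMeasurable
      (Eventually.of_forall fun t => rowX_bdd (hx i0) t), ?_⟩
  have e1 : ∀ t : ℝ, frX x t = -∫ s : ℝ, ro x s * (Kg (t - s) : ℂ) := frX_conv hl
  have e2 : ∀ t : ℝ, frX1 x i0 t = -∫ s : ℝ, NUMF.Pc (s - hr (x i0)) * (Kg (t - s) : ℂ) :=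
    fun t => (rowX_conv (hl i0) t).2
  have h := cross_swap D.i1 D.i0
  simp only [e1, e2, mul_neg, integral_neg]
  rw [h]
  ring

/-! ### the constant terms -/

/-- the row force on the line, own and cross -/
lemma krK2_line (hx : ∀ i, (x i).re = 0) (σ : Bool) (t : ℝ) :
    krK2 x (σ, none) (vl l t) = (Fil.b σ : ℂ) * frc x t + ((Fil.b (!σ) : ℂ) - Fil.b σ) * frX x t := by
  have h : krR .A x (vl l t) = frc x t := krR_line (hx_line hx) t
  show krA (Fil.b σ) (Fil.b (!σ)) .A x (vl l t) = _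
  rw [← h]
  unfold krA krR frX
  simp only [kO_rowD, Finset.sum_add_distrib, ← Finset.mul_sum]
  ring

lemma r1K2_line (i0 : Fin m) (hx : ∀ i, (x i).re = 0) (σ : Bool) (t : ℝ) :
    r1K2 x i0 (σ, none) (vl l t) = -((Fil.b σ : ℂ) * deriv NUMF.vc (t - hr (x i0))) -
      ((Fil.b (!σ) : ℂ) - Fil.b σ) * frX1 x i0 t := by
  have h : r1R .A x i0 (vl l t) = -deriv NUMF.vc (t - hr (x i0)) := r1R_line i0 (hx_line hx) t
  have h2 : deriv NUMF.vc (t - hr (x i0)) = -r1R .A x i0 (vl l t) := by rw [h, neg_neg]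
  show r1A (Fil.b σ) (Fil.b (!σ)) .A x i0 (vl l t) = _
  rw [h2]
  unfold r1A r1R frX1
  rw [kO_rowD]
  ring

/-- density times field on the line -/
lemma rx_line (i0 : Fin m) (hx : ∀ i, (x i).re = 0) (t : ℝ) :
    rhoR x (vl l t) * xiR x i0 (vl l t) = NUMF.Pc (t - hr (x i0)) := by
  have h1 : rhoR x (vl l t) = ro x t := rhoR_line (hx_line hx) t
  have h2 : xiR x i0 (vl l t) = NUMF.Pc (t - hr (x i0)) / ro x t := xiR_line i0 (hx_line hx) t
  rw [h1, h2, mul_div_cancel₀ _ (ro_ne i0 hx t)]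

/-- the one body means on the line -/
lemma mean_line (i0 : Fin m) (hx : ∀ i, (x i).re = 0) (σ : Bool) :
    (fun t : ℝ => rhK2 x (σ, none) t * (xiK x i0 (σ, none) (vl l t) * krK2 x (σ, none) (vl l t))) =
      fun t : ℝ => (Fil.b σ : ℂ) * ((Fil.b σ : ℂ) * (NUMF.Pc (t - hr (x i0)) * frc x t) +
        ((Fil.b (!σ) : ℂ) - Fil.b σ) * (NUMF.Pc (t - hr (x i0)) * frX x t)) := by
  funext t
  rw [krK2_line hx, rhK2_none]
  have h : xiK x i0 (σ, none) (vl l t) = xiR x i0 (vl l t) := rfl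
  rw [h]
  have := rx_line i0 hx t
  linear_combination ((Fil.b σ : ℂ) * ((Fil.b σ : ℂ) * frc x t +
    ((Fil.b (!σ) : ℂ) - Fil.b σ) * frX x t)) * this

lemma mean1_line (i0 : Fin m) (hx : ∀ i, (x i).re = 0) (σ : Bool) :
    (fun t : ℝ => rhK2 x (σ, none) t * r1K2 x i0 (σ, none) (vl l t)) =
      fun t : ℝ => (Fil.b σ : ℂ) * (-((Fil.b σ : ℂ) * (ro x t * deriv NUMF.vc (t - hr (x i0)))) -
        ((Fil.b (!σ) : ℂ) - Fil.b σ) * (ro x t * frX1 x i0 t)) := by
  funext t
  have h1 : rhoR x (vl l t) = ro x t := rhoR_line (hx_line hx) t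
  rw [r1K2_line i0 hx, rhK2_none, h1]
  ring

/-- integrability of the landed means -/
lemma one_line (i0 : Fin m) (hx : ∀ i, (x i).re = 0) :
    Integrable (fun t : ℝ => NUMF.Pc (t - hr (x i0)) * frc x t) ∧
    Integrable (fun t : ℝ => ro x t * deriv NUMF.vc (t - hr (x i0))) := by
  obtain ⟨a1, a2⟩ := line_one i0 hx
  have hl := hx_line hx
  constructor
  · refine a1.congr (Eventually.of_forall fun t => ?_)
    have h2 : krR .A x (vl l t) = frc x t := krR_line hl t
    simp only []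
    rw [← mul_assoc, rx_line i0 hx t, h2]
  · refine a2.neg.congr (Eventually.of_forall fun t => ?_)
    have h1 : rhoR x (vl l t) = ro x t := rhoR_line hl t
    have h2 : r1R .A x i0 (vl l t) = -deriv NUMF.vc (t - hr (x i0)) := r1R_line i0 hl t
    simp only [Pi.neg_apply]
    rw [h1, h2]
    ring

theorem hI12 (i0 : Fin m) (hx : ∀ i, (x i).re = 0) (b : K4) :
    Integrable fun s => rhK2 x b s * (xiK x i0 b (vl l s) * krK2 x b (vl l s)) := by
  obtain ⟨σ, k⟩ := b
  cases k with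
  | some k => simp [rhK2_some]
  | none =>
    rw [mean_line i0 hx σ]
    exact (((one_line i0 hx).1.const_mul _).add ((crossE i0 hx).1.const_mul _)).const_mul _

theorem hI12' (i0 : Fin m) (hx : ∀ i, (x i).re = 0) (b : K4) :
    Integrable fun s => rhK2 x b s * r1K2 x i0 b (vl l s) := by
  obtain ⟨σ, k⟩ := b
  cases k with
  | some k => simp [rhK2_some]
  | none =>
    rw [mean1_line i0 hx σ]
    exact (((one_line i0 hx).2.const_mul _).neg.sub ((crossE i0 hx).2.1.const_mul _)).const_mul _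

/-- the smeared kernel on the line -/
lemma smr_line2 (H : KerH x i0 D dxi a) (hx : ∀ i, (x i).re = 0) (b : K4) (s : ℝ) :
    rhK2 x b s * NX.smr (vl l) (rhK2 x) a b (vl l s) =
      -(rhK2 x b s * (xiK x i0 b (vl l s) * krK2 x b (vl l s))) -
        rhK2 x b s * r1K2 x i0 b (vl l s) := by
  obtain ⟨σ, k⟩ := b
  cases k with
  | some k => simp [rhK2_some]
  | none =>
    have h := (conv_K2 H hx (H.line σ s)).2
    unfold NX.Cv at h
    linear_combination (rhK2 x (σ, none) s) * h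

theorem hI22 (H : KerH x i0 D dxi a) (hx : ∀ i, (x i).re = 0) (b : K4) :
    Integrable fun s => rhK2 x b s * NX.smr (vl l) (rhK2 x) a b (vl l s) := by
  simp only [smr_line2 H hx]
  exact (hI12 i0 hx b).neg.sub (hI12' i0 hx b)

/-- integrability of the kernel against the sea -/
theorem qidK2 (H : KerH x i0 D dxi a) (hx : ∀ i, (x i).re = 0) : NX.QID D (vl l) (rhK2 x) a :=
  ⟨fun _ c _ hz => (conv_K2 H hx hz).1 c, fun b => hI22 H hx b⟩

/-- the total constant term: `∫ ρ ξ F = ∫ ρ vc'` -/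
lemma totalE (H : KerH x i0 D dxi a) (hx : ∀ i, (x i).re = 0) :
    (∫ t : ℝ, NUMF.Pc (t - hr (x i0)) * frc x t) +
      ∫ t : ℝ, ro x t * deriv NUMF.vc (t - hr (x i0)) = 0 := by
  have h := hE H hx
  have hl := hx_line hx
  have f1 : ∀ σ : Bool, ∫ s, rhK x (σ, none) s * (xiK x i0 (σ, none) (vl l s) *
      krK x (σ, none) (vl l s)) = ∫ t : ℝ, NUMF.Pc (t - hr (x i0)) * frc x t := by
    intro σ
    refine integral_congr_ae (Eventually.of_forall fun t => ?_)
    change rhoR x (vl l t) * (xiR x i0 (vl l t) * krR .A x (vl l t)) = _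
    have h2 : krR .A x (vl l t) = frc x t := krR_line hl t
    rw [← mul_assoc, rx_line i0 hx t, h2]
  have f3 : ∀ σ : Bool, ∫ s, rhK x (σ, none) s * r1K x i0 (σ, none) (vl l s) =
      -∫ t : ℝ, ro x t * deriv NUMF.vc (t - hr (x i0)) := by
    intro σ
    rw [← integral_neg]
    refine integral_congr_ae (Eventually.of_forall fun t => ?_)
    change rhoR x (vl l t) * r1R .A x i0 (vl l t) = _
    have h1 : rhoR x (vl l t) = ro x t := rhoR_line hl t
    have h2 : r1R .A x i0 (vl l t) = -deriv NUMF.vc (t - hr (x i0)) := r1R_line i0 hl t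
    rw [h1, h2]
    ring
  have f2 : ∀ σ : Bool, ∫ s, rhK x (σ, none) s * NX.smr (vl l) (rhK x) a (σ, none) (vl l s) =
      -(∫ t : ℝ, NUMF.Pc (t - hr (x i0)) * frc x t) +
        ∫ t : ℝ, ro x t * deriv NUMF.vc (t - hr (x i0)) := by
    intro σ
    simp only [smr_line H hx]
    have h5 := integral_sub (hI1 i0 hx (σ, none)).neg (hI1' i0 hx (σ, none))
    simp only [Pi.neg_apply] at h5
    rw [h5, integral_neg, f1, f3]
    ring
  have g1 : ∑ b : K4, (∫ s, rhK x b s * (xiK x i0 b (vl l s) * krK x b (vl l s))) =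
      2 * ∫ t : ℝ, NUMF.Pc (t - hr (x i0)) * frc x t := by
    rw [sum_K4 (f := fun b : K4 => ∫ s, rhK x b s * (xiK x i0 b (vl l s) * krK x b (vl l s)))
      (fun s k => by simp [rhK_some]) true, f1, f1]
    ring
  have g2 : NX.dbl (vl l) (rhK x) a = 2 * (-(∫ t : ℝ, NUMF.Pc (t - hr (x i0)) * frc x t) +
        ∫ t : ℝ, ro x t * deriv NUMF.vc (t - hr (x i0))) := by
    unfold NX.dbl
    rw [sum_K4 (f := fun b : K4 => ∫ s, rhK x b s * NX.smr (vl l) (rhK x) a b (vl l s))
      (fun s k => by simp [rhK_some]) true, f2, f2]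
    ring
  rw [g1, g2] at h
  linear_combination h

/-- **the constant term of the Ward identity vanishes**, two fillings -/
theorem hE2 (H : KerH x i0 D dxi a) (hx : ∀ i, (x i).re = 0) :
    ∑ b, (∫ s, rhK2 x b s * (xiK x i0 b (vl l s) * krK2 x b (vl l s))) +
      (1 / 2) * NX.dbl (vl l) (rhK2 x) a = 0 := by
  obtain ⟨o1, o2⟩ := one_line i0 hx
  obtain ⟨c1, c2, c3⟩ := crossE i0 hx
  have t0 := totalE H hx
  have f1 : ∀ σ : Bool, ∫ s, rhK2 x (σ, none) s * (xiK x i0 (σ, none) (vl l s) *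
      krK2 x (σ, none) (vl l s)) = (Fil.b σ : ℂ) * ((Fil.b σ : ℂ) *
        (∫ t : ℝ, NUMF.Pc (t - hr (x i0)) * frc x t) + ((Fil.b (!σ) : ℂ) - Fil.b σ) *
        ∫ t : ℝ, NUMF.Pc (t - hr (x i0)) * frX x t) := by
    intro σ
    rw [mean_line i0 hx σ, integral_const_mul, integral_add (o1.const_mul _) (c1.const_mul _),
      integral_const_mul, integral_const_mul]
  have f3 : ∀ σ : Bool, ∫ s, rhK2 x (σ, none) s * r1K2 x i0 (σ, none) (vl l s) =
      (Fil.b σ : ℂ) * (-((Fil.b σ : ℂ) * ∫ t : ℝ, ro x t * deriv NUMF.vc (t - hr (x i0))) -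
        ((Fil.b (!σ) : ℂ) - Fil.b σ) * ∫ t : ℝ, ro x t * frX1 x i0 t) := by
    intro σ
    have h5 := integral_sub (o2.const_mul (Fil.b σ : ℂ)).neg
      (c2.const_mul ((Fil.b (!σ) : ℂ) - Fil.b σ))
    simp only [Pi.neg_apply] at h5
    rw [mean1_line i0 hx σ, integral_const_mul, h5, integral_neg, integral_const_mul,
      integral_const_mul]
  have f2 : ∀ σ : Bool, ∫ s, rhK2 x (σ, none) s * NX.smr (vl l) (rhK2 x) a (σ, none) (vl l s) =
      -(∫ s, rhK2 x (σ, none) s * (xiK x i0 (σ, none) (vl l s) * krK2 x (σ, none) (vl l s))) -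
        ∫ s, rhK2 x (σ, none) s * r1K2 x i0 (σ, none) (vl l s) := by
    intro σ
    simp only [smr_line2 H hx]
    have h5 := integral_sub (hI12 i0 hx (σ, none)).neg (hI12' i0 hx (σ, none))
    simp only [Pi.neg_apply] at h5
    rw [h5, integral_neg]
  have g1 : ∑ b : K4, (∫ s, rhK2 x b s * (xiK x i0 b (vl l s) * krK2 x b (vl l s))) =
      (∫ s, rhK2 x (true, none) s * (xiK x i0 (true, none) (vl l s) * krK2 x (true, none) (vl l s))) +
      ∫ s, rhK2 x (false, none) s *
        (xiK x i0 (false, none) (vl l s) * krK2 x (false, none) (vl l s)) :=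
    sum_K4 (f := fun b : K4 => ∫ s, rhK2 x b s * (xiK x i0 b (vl l s) * krK2 x b (vl l s)))
      (fun s k => by simp [rhK2_some]) true
  have g2 : NX.dbl (vl l) (rhK2 x) a =
      (∫ s, rhK2 x (true, none) s * NX.smr (vl l) (rhK2 x) a (true, none) (vl l s)) +
      ∫ s, rhK2 x (false, none) s * NX.smr (vl l) (rhK2 x) a (false, none) (vl l s) :=
    sum_K4 (f := fun b : K4 => ∫ s, rhK2 x b s * NX.smr (vl l) (rhK2 x) a b (vl l s))
      (fun s k => by simp [rhK2_some]) true
  rw [g1, g2, f2, f2, f1, f1, f3, f3]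
  simp only [Bool.not_true, Bool.not_false]
  set A := ∫ t : ℝ, NUMF.Pc (t - hr (x i0)) * frc x t
  set A' := ∫ t : ℝ, NUMF.Pc (t - hr (x i0)) * frX x t
  set R := ∫ t : ℝ, ro x t * deriv NUMF.vc (t - hr (x i0))
  set R' := ∫ t : ℝ, ro x t * frX1 x i0 t
  linear_combination (1 / 2 * ((Fil.b true : ℂ) ^ 2 + (Fil.b false : ℂ) ^ 2)) * t0 +
    (1 / 2 * ((Fil.b true : ℂ) * ((Fil.b false : ℂ) - Fil.b true) +
      (Fil.b false : ℂ) * ((Fil.b true : ℂ) - Fil.b false))) * c3

/-- the constant of the identity -/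
def C02 (x : Fin m → ℂ) (i0 : Fin m) : ℂ :=
  ∑ b : K4, (∫ s, rhK2 x b s * r1K2 x i0 b (vl l s))

lemma C02_eq (x : Fin m → ℂ) (i0 : Fin m) : C02 x i0 =
    (∫ s, rhK2 x (true, none) s * r1K2 x i0 (true, none) (vl l s)) +
      ∫ s, rhK2 x (false, none) s * r1K2 x i0 (false, none) (vl l s) :=
  sum_K4 (f := fun b : K4 => ∫ s, rhK2 x b s * r1K2 x i0 b (vl l s))
    (fun s k => by simp [rhK2_some]) true

lemma C02_line (hx : ∀ i, (x i).re = 0) : C02 x i0 =
    -(((Fil.b true : ℂ) ^ 2 + (Fil.b false : ℂ) ^ 2) *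
        ∫ t : ℝ, ro x t * deriv NUMF.vc (t - hr (x i0))) +
      ((Fil.b true : ℂ) - Fil.b false) ^ 2 * ∫ t : ℝ, ro x t * frX1 x i0 t := by
  obtain ⟨o1, o2⟩ := one_line i0 hx
  obtain ⟨c1, c2, c3⟩ := crossE i0 hx
  have f3 : ∀ σ : Bool, ∫ s, rhK2 x (σ, none) s * r1K2 x i0 (σ, none) (vl l s) =
      (Fil.b σ : ℂ) * (-((Fil.b σ : ℂ) * ∫ t : ℝ, ro x t * deriv NUMF.vc (t - hr (x i0))) -
        ((Fil.b (!σ) : ℂ) - Fil.b σ) * ∫ t : ℝ, ro x t * frX1 x i0 t) := by
    intro σ
    have h5 := integral_sub (o2.const_mul (Fil.b σ : ℂ)).neg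
      (c2.const_mul ((Fil.b (!σ) : ℂ) - Fil.b σ))
    simp only [Pi.neg_apply] at h5
    rw [mean1_line i0 hx σ, integral_const_mul, h5, integral_neg, integral_const_mul,
      integral_const_mul]
  rw [C02_eq, f3, f3]
  simp only [Bool.not_true, Bool.not_false]
  ring

/-! ### the normal form -/

/-- **the first Ward identity, pointwise, for all kinds, two fillings** -/
theorem normal_form2 {ι : Type*} [Fintype ι] {r : ι → ι → Prop} (hr : Tourn r)
    (H : KerH x i0 D dxi a) (hx : ∀ i, (x i).re = 0) (sp : ι → K4) {z : ι → ℂ}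
    (hz : ∀ i, z i ∈ D (sp i)) (lam : ι → ℂ) :
    (∑ k, (r1K2 x i0 (sp k) (z k) + (dxi (sp k) (z k) + xiK x i0 (sp k) (z k) *
      (krK2 x (sp k) (z k) + lam k)))) + ∑ p ∈ prs r, a (sp p.1) (sp p.2) (z p.1) (z p.2) =
    C02 x i0 + NX.nuQ (vl l) sp (rhK2 x) a z + ∑ k, xiK x i0 (sp k) (z k) * lam k := by
  have he := rhK2_mem H
  have q := qidK2 H hx
  have hs : ∀ b c s t, NX.cD D a b c s t = NX.cD D a c b t s := by
    intro b c s t
    unfold NX.cD
    by_cases h : s ∈ D b ∧ t ∈ D c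
    · rw [if_pos h, if_pos h.symm, H.symm b c s t h.1 h.2]
    · rw [if_neg h, if_neg (fun h' => h h'.symm)]
  have e2 : NX.dbl (vl l) (rhK2 x) (NX.cD D a) = NX.dbl (vl l) (rhK2 x) a := by
    unfold NX.dbl
    simp only [NX.mul_smr_cD he]
  have cv : ∀ b w, w ∈ D b →
      NX.Cv (vl l) (rhK2 x) (xiK x i0) (krK2 x) (r1K2 x i0) (NX.cD D a) b w = 0 := by
    intro b w hw
    have h := (conv_K2 H hx hw).2
    unfold NX.Cv at h ⊢
    rw [NX.smr_cD he a hw]
    exact h
  have key := NX.normI1 hr (vl l) sp (ρ := rhK2 x) (ξ := xiK x i0) (dξ := dxi) (κr := krK2 x)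
    (r1 := r1K2 x i0) (lam := fun k _ => lam k) (a := NX.cD D a) hs (hI12 i0 hx)
    (fun b => by simp only [NX.mul_smr_cD he]; exact hI22 H hx b)
    (by rw [e2]; exact hE2 H hx)
    (fun b s => by
      by_cases h0 : rhK2 x b s = 0
      · rw [h0, zero_mul]
      · rw [cv b _ (he b s h0), mul_zero]) z
  rw [NX.nuQ_cD he a hz] at key
  have hc : ∑ b : K4, (∫ s, rhK2 x b s * r1K2 x i0 b (vl l s)) = C02 x i0 := rfl
  rw [hc] at key
  have p1 : ∑ p ∈ prs r, NX.cD D a (sp p.1) (sp p.2) (z p.1) (z p.2) =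
      ∑ p ∈ prs r, a (sp p.1) (sp p.2) (z p.1) (z p.2) := by
    refine Finset.sum_congr rfl fun p _ => ?_
    unfold NX.cD
    rw [if_pos ⟨hz _, hz _⟩]
  have p2 : ∑ k, NX.Cv (vl l) (rhK2 x) (xiK x i0) (krK2 x) (r1K2 x i0) (NX.cD D a) (sp k) (z k) =
      0 := Finset.sum_eq_zero fun k _ => cv _ _ (hz k)
  have p3 : ∑ k, (dxi (sp k) (z k) - (1 / 2) * NX.cD D a (sp k) (sp k) (z k) (z k)) = 0 := by
    refine Finset.sum_eq_zero fun k _ => ?_
    unfold NX.cD
    rw [if_pos ⟨hz k, hz k⟩, H.diag _ _ (hz k)]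
    ring
  rw [p1, p2, p3] at key
  rw [key]
  ring

end fil

/-! ### one filling: the landed data -/

lemma b_one (σ : Bool) : @Fil.b Fil.one σ = 1 := by
  cases σ
  · show ((1 : ℕ) : ℝ) = 1
    exact Nat.cast_one
  · rfl

example (x : Fin m → ℂ) : @rhK2 m Fil.one x = rhK x := by
  funext b s
  unfold rhK2
  rw [b_one, Complex.ofReal_one, _root_.one_mul]

example (x : Fin m → ℂ) : @krK2 m Fil.one x = krK x := by
  funext b w
  unfold krK2 krK
  rw [← krA_one, b_one, b_one, Complex.ofReal_one]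

example (x : Fin m → ℂ) (i0 : Fin m) : @r1K2 m Fil.one x i0 = r1K x i0 := by
  funext b w
  unfold r1K2 r1K
  rw [← r1A_one, b_one, b_one, Complex.ofReal_one]

end PBQ1

end
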