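import Pool.Agent.PLX.NzB
import Pool.Agent.PB.PfD

/-!
# PLAX: the prefactor of `q`-fold rows and its derivatives (the layer of PB.PfD)

* `P_append`, **`P_yqn`** : products over the pairs of `q`-fold rows;
* `Lf w`, `Sf w` : a leg and a row, two rows of one group; **`Pf_prod`** : `Pf` as a product, sizes `(m, M)`;
* `GlQ q`, `GpQ q` : a leg and a row, two rows; `glQ q`, `gpQ q` : their logarithmic derivatives
  (`q = 1` : `Gl`, `Gp`, `gl`, `gp`);
* **`PfQ_eq`** : `Pf z x (yqn q x) = KQ q m * (∏ i, GlQ q (z - x i)) * P (GpQ q)`; `PfQ_cons`,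
  **`PfQ_row`** (`∂_ξ`), **`PfQ_leg_D`** (`∂_z`), `PfQ_xr`, `PfQ_xr_leg`, `PfQ_xr_I`, `PfQ_xr_leg_I`.
-/

set_option autoImplicit false
set_option linter.unusedSectionVars false
set_option linter.unusedVariables false

noncomputable section

open Complex Filter Topology

namespace Pool.Agent.PLX

open NUP1 (l lpos)
open NUP1.Grand (P)
open PBR (rh rh_neg rh_ne_zero)
open Pool.Agent.PB

variable {m M : ℕ}

/-! ### products over the pairs -/

theorem P_append {k n : ℕ} (F : Fin (k + n) → Fin (k + n) → ℂ) :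
    P F = (P fun i j : Fin k => F (Fin.castAdd n i) (Fin.castAdd n j)) *
      (P fun i j : Fin n => F (Fin.natAdd k i) (Fin.natAdd k j)) *
      ∏ i : Fin k, ∏ j : Fin n, F (Fin.castAdd n i) (Fin.natAdd k j) := by
  unfold NUP1.Grand.P
  rw [Fin.prod_univ_add]
  have h1 : ∀ i : Fin k, (∏ j, if Fin.castAdd n i < j then F (Fin.castAdd n i) j else 1) =
      (∏ j : Fin k, if i < j then F (Fin.castAdd n i) (Fin.castAdd n j) else 1) *
        ∏ j : Fin n, F (Fin.castAdd n i) (Fin.natAdd k j) := by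
    intro i
    rw [Fin.prod_univ_add]
    congr 1
    refine Finset.prod_congr rfl fun j _ => if_pos ?_
    rw [Fin.lt_def]
    simp only [Fin.val_castAdd, Fin.val_natAdd]
    have := i.isLt
    omega
  have h2 : ∀ i : Fin n, (∏ j, if Fin.natAdd k i < j then F (Fin.natAdd k i) j else 1) =
      ∏ j : Fin n, if i < j then F (Fin.natAdd k i) (Fin.natAdd k j) else 1 := by
    intro i
    rw [Fin.prod_univ_add]
    have h3 : (∏ j : Fin k, if Fin.natAdd k i < Fin.castAdd n j then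
        F (Fin.natAdd k i) (Fin.castAdd n j) else 1) = 1 := by
      refine Finset.prod_eq_one fun j _ => if_neg ?_
      rw [Fin.lt_def]
      simp only [Fin.val_castAdd, Fin.val_natAdd]
      have := j.isLt
      omega
    rw [h3, one_mul]
    refine Finset.prod_congr rfl fun j _ => ?_
    simp
  simp only [h1, h2, Finset.prod_mul_distrib]
  ring

/-- **the product over the pairs of `q`-fold rows** -/
theorem P_yqn (q : ℕ) (G : Fin m → Fin m → ℂ) (hG : ∀ i j, G i j = G j i) :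
    (P fun i j : Fin (q * m) => G i.modNat j.modNat) = P G ^ (q ^ 2) * (∏ i, G i i) ^ (q.choose 2) := by
  rcases Nat.eq_zero_or_pos m with h0 | h0
  · subst h0
    unfold NUP1.Grand.P
    have : IsEmpty (Fin (q * 0)) := by
      rw [Nat.mul_zero]
      exact Fin.isEmpty
    simp
  -- the function of the numbers
  obtain ⟨g, hg⟩ : ∃ g : ℕ → ℕ → ℂ, g = fun a b => G ⟨a % m, Nat.mod_lt _ h0⟩ ⟨b % m, Nat.mod_lt _ h0⟩ :=
    ⟨_, rfl⟩
  have g1 : ∀ i j : Fin m, g i j = G i j := by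
    intro i j
    rw [hg]
    show G _ _ = G i j
    congr 1
    · ext
      exact Nat.mod_eq_of_lt i.isLt
    · ext
      exact Nat.mod_eq_of_lt j.isLt
  have g2 : ∀ (k a b : ℕ), g (k * m + a) b = g a b := by
    intro k a b
    rw [hg]
    show G _ _ = G _ _
    congr 1
    ext
    show (k * m + a) % m = a % m
    rw [Nat.mul_add_mod_self_right]
  have g3 : ∀ (k a b : ℕ), g a (k * m + b) = g a b := by
    intro k a b
    rw [hg]
    show G _ _ = G _ _
    congr 1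
    ext
    show (k * m + b) % m = b % m
    rw [Nat.mul_add_mod_self_right]
  have g4 : ∀ k : ℕ, (P fun i j : Fin (k * m) => G i.modNat j.modNat) = P fun i j : Fin (k * m) => g i j := by
    intro k
    rw [hg]
    rfl
  have gc : ∀ k : ℕ, (∏ i : Fin (k * m), ∏ j : Fin m, g i j) = (∏ i, ∏ j, G i j) ^ k := by
    intro k
    have h := prod_yqn' k fun i : Fin m => ∏ j, G i j
    rw [← h]
    refine Finset.prod_congr rfl fun i _ => Finset.prod_congr rfl fun j _ => ?_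
    rw [← g1]
    show g (i : ℕ) (j : ℕ) = g ((i.modNat : Fin m) : ℕ) (j : ℕ)
    rw [hg]
    show G _ _ = G _ _
    congr 1
    ext
    show (i : ℕ) % m = ((i : ℕ) % m) % m
    rw [Nat.mod_mod]
  rw [g4]
  induction q with
  | zero =>
    unfold NUP1.Grand.P
    have : IsEmpty (Fin (0 * m)) := by
      rw [Nat.zero_mul]
      exact Fin.isEmpty
    simp
  | succ q ih =>
    have e1 : (P fun i j : Fin ((q + 1) * m) => g i j) = P fun i j : Fin (q * m + m) => g i j := by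
      rw [Nat.succ_mul]
    rw [e1, P_append]
    simp only [Fin.val_castAdd, Fin.val_natAdd, g2, g3]
    rw [ih, gc, P_sq G hG]
    have e2 : (P fun i j : Fin m => g i j) = P G := by
      refine NUP1.Mu.P_congr fun i j _ => ?_
      exact g1 i j
    rw [e2, Nat.choose_succ_succ q 1, Nat.choose_one_right, mul_pow, ← pow_mul]
    ring

/-! ### the prefactor as a product -/

/-- a leg and a row -/
def Lf (w : ℂ) : ℂ := sin (w + 2 * l) * sin (w + 3 * l) / rh w ^ 2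

/-- two rows of one group -/
def Sf (w : ℂ) : ℂ := Fp w / rh w ^ 2

theorem Sf_neg (w : ℂ) : Sf (-w) = Sf w := by
  unfold Sf
  rw [Fp_neg, rh_neg]

theorem ND_eq (z : ℂ) (x : Fin m → ℂ) : Nu z x / D1 z x =
    sin l ^ m * (∏ i, Lf (z - x i)) * P fun i j => Sf (x i - x j) := by
  unfold PB.Nu PB.D1 Lf Sf Lp
  have h1 : (P fun i j => Fp (x i - x j) / rh (x i - x j) ^ 2) =
      (P fun i j => Fp (x i - x j)) / P fun i j => rh (x i - x j) ^ 2 := by
    unfold NUP1.Grand.P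
    simp only [← Finset.prod_div_distrib]
    refine Finset.prod_congr rfl fun i _ => Finset.prod_congr rfl fun j _ => ?_
    split_ifs
    · rfl
    · simp
  rw [h1, Finset.prod_mul_distrib, Finset.prod_const, Finset.card_univ, Fintype.card_fin,
    Finset.prod_div_distrib]
  simp only [div_eq_mul_inv, mul_inv]
  ring

/-- **the prefactor as a product**, sizes `(m, M)` -/
theorem Pf_prod (z : ℂ) (x : Fin m → ℂ) (y : Fin M → ℂ) : Pf z x y =
    (3 / 2) ^ (m + M + 1) * sin l ^ (m + M + 1) / rh 0 *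
      ((∏ i, Lf (z - x i)) * ∏ j, Lf (z - y j)) *
      ((P fun i j => Sf (x i - x j)) * P fun i j => Sf (y i - y j)) / D2 x y := by
  have h : Pf z x y = (3 / 2) ^ (m + M + 1) * sin l * ((Nu z x / D1 z x) * (Nu z y / D1 z y)) /
      (D2 x y * rh 0) := by
    unfold PB.Pf
    simp only [div_eq_mul_inv, mul_inv]
    ring
  rw [h, ND_eq, ND_eq, show m + M + 1 = 1 + m + M by ring]
  simp only [div_eq_mul_inv, mul_inv, pow_add, pow_one]
  ring

/-! ### `q`-fold rows -/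

/-- a leg and a row (`1 + q` copies) -/
def GlQ (q : ℕ) (w : ℂ) : ℂ := Lf w ^ (1 + q)

/-- two rows -/
def GpQ (q : ℕ) (w : ℂ) : ℂ := Sf w ^ (1 + q ^ 2) / rh w ^ (4 * q)

theorem GpQ_neg (q : ℕ) (w : ℂ) : GpQ q (-w) = GpQ q w := by
  unfold GpQ
  rw [Sf_neg, rh_neg]

/-- the constant -/
def KQ (q m : ℕ) : ℂ := (3 / 2) ^ (m + q * m + 1) * sin l ^ (m + q * m + 1) / rh 0 *
  (Sf 0 ^ q.choose 2 / rh 0 ^ (2 * q)) ^ m

theorem D2_self (x : Fin m → ℂ) : D2 x x = (P fun i j => rh (x i - x j) ^ 2) ^ 2 * (rh 0 ^ 2) ^ m := by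
  unfold PB.D2
  rw [P_sq (fun i j => rh (x i - x j) ^ 2) fun i j => by
    show rh (x i - x j) ^ 2 = rh (x j - x i) ^ 2
    rw [← rh_neg (x j - x i), neg_sub]]
  simp

/-- **the prefactor of `q`-fold rows** -/
theorem PfQ_eq (q : ℕ) (z : ℂ) (x : Fin m → ℂ) : Pf z x (yqn q x) =
    KQ q m * (∏ i, GlQ q (z - x i)) * P fun i j => GpQ q (x i - x j) := by
  have h1 : ∏ j, Lf (z - yqn q x j) = (∏ i, Lf (z - x i)) ^ q := prod_yqn q (fun w => Lf (z - w)) x
  have h2 : (P fun i j => Sf (yqn q x i - yqn q x j)) =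
      (P fun i j => Sf (x i - x j)) ^ (q ^ 2) * (Sf 0 ^ m) ^ q.choose 2 := by
    have h := P_yqn q (fun i j : Fin m => Sf (x i - x j)) fun i j => by
      show Sf (x i - x j) = Sf (x j - x i)
      rw [← Sf_neg (x j - x i), neg_sub]
    unfold yqn
    rw [h]
    simp
  have h3 : (∏ i, GlQ q (z - x i)) = (∏ i, Lf (z - x i)) ^ (1 + q) := by
    unfold GlQ
    rw [Finset.prod_pow]
  have h4 : (P fun i j => GpQ q (x i - x j)) =
      (P fun i j => Sf (x i - x j)) ^ (1 + q ^ 2) / (P fun i j => rh (x i - x j) ^ 2) ^ (2 * q) := by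
    have e1 : ∀ (k : ℕ) (F : Fin m → Fin m → ℂ), P F ^ k = P fun i j => F i j ^ k := fun k F => (P_pow F k).symm
    rw [e1, e1]
    have e2 : ∀ F G : Fin m → Fin m → ℂ, P F / P G = P fun i j => F i j / G i j := by
      intro F G
      unfold NUP1.Grand.P
      simp only [← Finset.prod_div_distrib]
      refine Finset.prod_congr rfl fun i _ => Finset.prod_congr rfl fun j _ => ?_
      split_ifs
      · rfl
      · simp
    rw [e2]
    refine NUP1.Mu.P_congr fun i j _ => ?_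
    unfold GpQ
    rw [← pow_mul, show 2 * (2 * q) = 4 * q by ring]
  rw [Pf_prod, D2_yqn, D2_self, h1, h2, h3, h4]
  unfold KQ
  generalize (∏ i, Lf (z - x i)) = A
  generalize (P fun i j => Sf (x i - x j)) = B
  generalize (P fun i j => rh (x i - x j) ^ 2) = C
  generalize Sf 0 = E
  generalize rh 0 = H
  have e1 : (C ^ 2 * (H ^ 2) ^ m) ^ q = C ^ (2 * q) * (H ^ (2 * q)) ^ m := by
    rw [mul_pow, ← pow_mul, ← pow_mul, ← pow_mul, ← pow_mul]
    congr 2
    ring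
  have e3 : (E ^ q.choose 2 / H ^ (2 * q)) ^ m = (E ^ m) ^ q.choose 2 / (H ^ (2 * q)) ^ m := by
    rw [div_pow, ← pow_mul E, ← pow_mul E, mul_comm m (q.choose 2)]
  rw [e1, e3, pow_add A 1 q, pow_add B 1 (q ^ 2), pow_one, pow_one]
  generalize (H ^ (2 * q)) ^ m = H'
  generalize (E ^ m) ^ q.choose 2 = E'
  generalize C ^ (2 * q) = C'
  simp only [div_eq_mul_inv, mul_inv]
  ring

/-- the constant of one more row -/
def cQ (q : ℕ) : ℂ := (3 / 2) ^ (1 + q) * sin l ^ (1 + q) * (Sf 0 ^ q.choose 2 / rh 0 ^ (2 * q))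

theorem KQ_succ (q m : ℕ) : KQ q (m + 1) = cQ q * KQ q m := by
  unfold KQ cQ
  rw [show m + 1 + q * (m + 1) + 1 = (1 + q) + (m + q * m + 1) by ring, pow_add, pow_add _ (1 + q),
    pow_succ _ m]
  ring

/-- **the row `ξ` split off** -/
theorem PfQ_cons (q : ℕ) (z ξ : ℂ) (mu : Fin m → ℂ) :
    Pf z (Fin.cons ξ mu : Fin (m + 1) → ℂ) (yqn q (Fin.cons ξ mu : Fin (m + 1) → ℂ)) =
      cQ q * (GlQ q (z - ξ) * ∏ j, GpQ q (ξ - mu j)) * Pf z mu (yqn q mu) := by
  rw [PfQ_eq, PfQ_eq, KQ_succ, Fin.prod_univ_succ]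
  have h : (P fun i j : Fin (m + 1) => GpQ q ((Fin.cons ξ mu : Fin (m + 1) → ℂ) i -
      (Fin.cons ξ mu : Fin (m + 1) → ℂ) j)) = (∏ j, GpQ q (ξ - mu j)) * P fun i j => GpQ q (mu i - mu j) := by
    rw [NUP1.Mu.P_cons]
    simp only [Fin.cons_zero, Fin.cons_succ]
  rw [h]
  simp only [Fin.cons_zero, Fin.cons_succ]
  ring

/-! ### logarithmic derivatives -/

/-- logarithmic derivative of `Lf` -/
def lf (w : ℂ) : ℂ := ct (w + 2 * l) + ct (w + 3 * l) - 2 * rr w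

/-- logarithmic derivative of `Sf` -/
def sf (w : ℂ) : ℂ := ct (w + 2 * l) + ct (w + 3 * l) - ct (3 * l - w) - ct (2 * l - w) - 2 * rr w

/-- logarithmic derivative of `GlQ q` -/
def glQ (q : ℕ) (w : ℂ) : ℂ := (1 + q) * lf w

/-- logarithmic derivative of `GpQ q` -/
def gpQ (q : ℕ) (w : ℂ) : ℂ := (1 + q ^ 2) * sf w - 4 * q * rr w

theorem GlQ_one (w : ℂ) : GlQ 1 w = Gl w := by
  unfold GlQ Lf Gl
  rw [div_pow]
  norm_num
  ring

theorem GpQ_one (w : ℂ) : GpQ 1 w = Gp w := by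
  unfold GpQ Sf Gp
  rw [div_pow, div_div, ← pow_mul, ← pow_add]
  norm_num

theorem glQ_one (w : ℂ) : glQ 1 w = gl w := by
  unfold glQ lf gl
  push_cast
  ring

theorem gpQ_one (w : ℂ) : gpQ 1 w = gp w := by
  unfold gpQ sf gp
  push_cast
  ring

theorem gpQ_neg (q : ℕ) {w : ℂ} (h : |w.re| < 5 * l) : gpQ q (-w) = -gpQ q w := by
  unfold gpQ sf
  rw [rr_neg h, show -w + 2 * (l : ℂ) = 2 * l - w by ring,
    show -w + 3 * (l : ℂ) = 3 * l - w by ring, show 3 * (l : ℂ) - -w = w + 3 * l by ring,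
    show 2 * (l : ℂ) - -w = w + 2 * l by ring]
  ring

theorem Lf_HLD {w : ℂ} (h1 : -(2 * l) < w.re) (h2 : w.re < 5 * l) : HLD Lf (lf w) w := by
  have hl := lpos
  have hw : |w.re| < 5 * l := abs_lt.2 ⟨by linarith, h2⟩
  have s2 : sin (w + 2 * (l : ℂ)) ≠ 0 := sin_ne_re (by simp; linarith) (by simp; linarith)
  have s3 : sin (w + 3 * (l : ℂ)) ≠ 0 := sin_ne_re (by simp; linarith) (by simp; linarith)
  have h2' : HLD (fun w => sin (w + 2 * (l : ℂ))) (ct (w + 2 * l) * 1) w :=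
    (HLD.sin s2).comp (u := fun w => w + 2 * (l : ℂ)) ((hasDerivAt_id w).add_const _)
  have h3' : HLD (fun w => sin (w + 3 * (l : ℂ))) (ct (w + 3 * l) * 1) w :=
    (HLD.sin s3).comp (u := fun w => w + 3 * (l : ℂ)) ((hasDerivAt_id w).add_const _)
  have h := (h2'.mul h3').div ((rh_HLD hw).pow 2) (pow_ne_zero _ (rh_ne_zero hw))
  refine HLD.congr_a (f := Lf) h ?_
  unfold lf
  push_cast
  ring

theorem Sf_HLD {w : ℂ} (h : |w.re| < 2 * l) : HLD Sf (sf w) w := by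
  have hl := lpos
  obtain ⟨h1, h2⟩ := abs_lt.1 h
  have hw : |w.re| < 5 * l := by linarith
  have s2 : sin (w + 2 * (l : ℂ)) ≠ 0 := sin_ne_re (by simp; linarith) (by simp; linarith)
  have s3 : sin (w + 3 * (l : ℂ)) ≠ 0 := sin_ne_re (by simp; linarith) (by simp; linarith)
  have t2 : sin (2 * (l : ℂ) - w) ≠ 0 := sin_ne_re (by simp; linarith) (by simp; linarith)
  have t3 : sin (3 * (l : ℂ) - w) ≠ 0 := sin_ne_re (by simp; linarith) (by simp; linarith)
  have h2' : HLD (fun w => sin (w + 2 * (l : ℂ))) (ct (w + 2 * l) * 1) w :=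
    (HLD.sin s2).comp (u := fun w => w + 2 * (l : ℂ)) ((hasDerivAt_id w).add_const _)
  have h3' : HLD (fun w => sin (w + 3 * (l : ℂ))) (ct (w + 3 * l) * 1) w :=
    (HLD.sin s3).comp (u := fun w => w + 3 * (l : ℂ)) ((hasDerivAt_id w).add_const _)
  have k2 : HLD (fun w => sin (2 * (l : ℂ) - w)) (ct (2 * l - w) * -1) w :=
    (HLD.sin t2).comp (u := fun w => 2 * (l : ℂ) - w) ((hasDerivAt_id w).const_sub _)
  have k3 : HLD (fun w => sin (3 * (l : ℂ) - w)) (ct (3 * l - w) * -1) w :=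
    (HLD.sin t3).comp (u := fun w => 3 * (l : ℂ) - w) ((hasDerivAt_id w).const_sub _)
  have h := ((h2'.mul h3').mul (k3.mul k2)).div ((rh_HLD hw).pow 2) (pow_ne_zero _ (rh_ne_zero hw))
  refine HLD.congr_a (f := Sf) h ?_
  unfold sf
  push_cast
  ring

theorem GlQ_HLD (q : ℕ) {w : ℂ} (h1 : -(2 * l) < w.re) (h2 : w.re < 5 * l) :
    HLD (GlQ q) (glQ q w) w := by
  refine HLD.congr_a (f := GlQ q) ((Lf_HLD h1 h2).pow (1 + q)) ?_
  unfold glQ
  push_cast
  ring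

theorem GpQ_HLD (q : ℕ) {w : ℂ} (h : |w.re| < 2 * l) : HLD (GpQ q) (gpQ q w) w := by
  have hl := lpos
  have hw : |w.re| < 5 * l := by linarith
  refine HLD.congr_a (f := GpQ q) (((Sf_HLD h).pow (1 + q ^ 2)).div ((rh_HLD hw).pow (4 * q))
    (pow_ne_zero _ (rh_ne_zero hw))) ?_
  unfold gpQ
  push_cast
  ring

/-- **`∂_ξ` of the prefactor** -/
theorem PfQ_row (q : ℕ) {mu : Fin m → ℂ} (hmu : Rwo mu) {ξ z : ℂ} (h0 : |ξ.re| < 3 / 5 * l) (hz : z ∈ LS) :
    HLD (fun ξ => Pf z (Fin.cons ξ mu : Fin (m + 1) → ℂ) (yqn q (Fin.cons ξ mu : Fin (m + 1) → ℂ)))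
      (-glQ q (z - ξ) + ∑ j, gpQ q (ξ - mu j)) ξ := by
  have hl := lpos
  obtain ⟨a1, a2⟩ := abs_lt.1 h0
  obtain ⟨z1, z2⟩ := hz
  have h1 : HLD (fun ξ => GlQ q (z - ξ)) (glQ q (z - ξ) * -1) ξ :=
    (GlQ_HLD q (by rw [sub_re]; linarith) (by rw [sub_re]; linarith)).comp (u := fun ξ => z - ξ)
      ((hasDerivAt_id ξ).const_sub z)
  have h2 : HLD (fun ξ => ∏ j, GpQ q (ξ - mu j)) (∑ j, gpQ q (ξ - mu j) * 1) ξ :=
    HLD.prod fun j _ => (GpQ_HLD q (by
      obtain ⟨b1, b2⟩ := abs_lt.1 (hmu j)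
      rw [sub_re, abs_lt]
      constructor <;> linarith)).comp (u := fun ξ => ξ - mu j) ((hasDerivAt_id ξ).sub_const _)
  have h3 := ((h1.mul h2).const_mul (cQ q)).mul_const (Pf z mu (yqn q mu))
  refine (h3.congr (Eventually.of_forall fun y => PfQ_cons q z y mu)).congr_a ?_
  simp only [mul_one]
  ring

/-- **`∂_z` of the prefactor** -/
theorem PfQ_leg_D (q : ℕ) {mu : Fin m → ℂ} (hmu : Rwo mu) {z : ℂ} (hz : z ∈ LS) :
    HLD (fun z => Pf z mu (yqn q mu)) (∑ i, glQ q (z - mu i)) z := by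
  have hl := lpos
  obtain ⟨z1, z2⟩ := hz
  have h2 : HLD (fun z => ∏ i, GlQ q (z - mu i)) (∑ i, glQ q (z - mu i) * 1) z :=
    HLD.prod fun i _ => (GlQ_HLD q (by
      obtain ⟨b1, b2⟩ := abs_lt.1 (hmu i)
      rw [sub_re]
      linarith) (by
      obtain ⟨b1, b2⟩ := abs_lt.1 (hmu i)
      rw [sub_re]
      linarith)).comp (u := fun z => z - mu i) ((hasDerivAt_id z).sub_const _)
  refine (((h2.const_mul (KQ q m)).mul_const (P fun i j => GpQ q (mu i - mu j))).congr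
    (Eventually.of_forall fun y => PfQ_eq q y mu)).congr_a ?_
  simp only [mul_one]

/-- the rows `0` and one row `ξ` -/
theorem PfQ_xr (q : ℕ) {N : ℕ} {ξ z : ℂ} (h0 : |ξ.re| < 3 / 5 * l) (hz : z ∈ LS) :
    HLD (fun ξ => Pf z (xr N ξ) (yqn q (xr N ξ))) (-glQ q (z - ξ) + N * gpQ q ξ) ξ := by
  refine (PfQ_row q (Rwo_zero N) h0 hz).congr_a ?_
  simp

theorem PfQ_xr_leg (q : ℕ) {N : ℕ} {ξ z : ℂ} (h0 : |ξ.re| < 3 / 5 * l) (hz : z ∈ LS) :
    HLD (fun z => Pf z (xr N ξ) (yqn q (xr N ξ))) (glQ q (z - ξ) + N * glQ q z) z := by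
  refine (PfQ_leg_D q (Rwo.cons h0 (Rwo_zero N)) hz).congr_a ?_
  rw [Fin.sum_univ_succ]
  simp

/-- along `x0 + i s` -/
theorem PfQ_xr_I (q : ℕ) {N : ℕ} {x0 z : ℂ} {s : ℝ} (h0 : |x0.re| < 3 / 5 * l) (hz : z ∈ LS) :
    HasDerivAt (fun s : ℝ => Pf z (xr N (x0 + I * s)) (yqn q (xr N (x0 + I * s))))
      (Pf z (xr N (x0 + I * s)) (yqn q (xr N (x0 + I * s))) *
        (I * (-glQ q (z - (x0 + I * s)) + N * gpQ q (x0 + I * s)))) s :=
  HLD.real (f := fun ξ => Pf z (xr N ξ) (yqn q (xr N ξ))) (PfQ_xr q (by rwa [re_add_I]) hz)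

/-- along `z0 + i t` -/
theorem PfQ_xr_leg_I (q : ℕ) {N : ℕ} {ξ z0 : ℂ} {t : ℝ} (h0 : |ξ.re| < 3 / 5 * l) (hz : z0 + I * t ∈ LS) :
    HasDerivAt (fun t : ℝ => Pf (z0 + I * t) (xr N ξ) (yqn q (xr N ξ)))
      (Pf (z0 + I * t) (xr N ξ) (yqn q (xr N ξ)) *
        (I * (glQ q (z0 + I * t - ξ) + N * glQ q (z0 + I * t)))) t :=
  HLD.real (f := fun z => Pf z (xr N ξ) (yqn q (xr N ξ))) (PfQ_xr_leg q h0 hz)

end Pool.Agent.PLX

end
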