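import Pool.Agent.PLX.Yq

/-!
# The lists of the rows of the two groups

* `ofFn_yqn`: the list of the `q`-fold rows is `q` times the list of the rows;
* `ofFn_rwq`: the list of the rows of species `a` is `n a` times the list of the rows;
* `ofFn_rwq_cons`: rows `x, 0, …, 0`: the list of the rows of species `a` is, up to order, `n a` times
  `x` and `n a * k` times `0`.
-/

set_option autoImplicit false
set_option linter.unusedSectionVars false

noncomputable section

open PLX (Fil)

namespace Pool.Agent.PLX

variable {α : Type*} {m : ℕ}

/-- **the list of the `q`-fold rows** -/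
theorem ofFn_yqn (q : ℕ) (y : Fin m → α) :
    List.ofFn (yqn q y) = (List.replicate q (List.ofFn y)).flatten := by
  rw [List.ofFn_mul, ← List.ofFn_const]
  congr 2
  funext i
  congr 1
  funext j
  unfold yqn
  congr 1
  apply Fin.ext
  simp only [Fin.modNat]
  rw [Nat.add_comm, Nat.add_mul_mod_self_right, Nat.mod_eq_of_lt j.2]

theorem flatten_replicate_perm {a : α} {l : List α} (q : ℕ) :
    ((List.replicate q (a :: l)).flatten).Perm
      (List.replicate q a ++ (List.replicate q l).flatten) := by
  induction q with
  | zero => simp
  | succ q ih =>
    rw [List.replicate_succ, List.flatten_cons, List.replicate_succ, List.replicate_succ,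
      List.flatten_cons, List.cons_append, List.cons_append]
    refine List.Perm.cons a ?_
    refine (List.Perm.append_left l ih).trans ?_
    rw [← List.append_assoc, ← List.append_assoc]
    exact List.Perm.append_right _ List.perm_append_comm

theorem flatten_replicate_replicate (q k : ℕ) (a : α) :
    (List.replicate q (List.replicate k a)).flatten = List.replicate (q * k) a := by
  induction q with
  | zero => simp
  | succ q ih =>
    rw [List.replicate_succ, List.flatten_cons, ih, ← List.replicate_add]
    congr 1
    ring

/-- rows `x, 0, …, 0`, every row `q` times -/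
theorem ofFn_yqn_cons (q k : ℕ) (x a : α) :
    (List.ofFn (yqn q (Fin.cons x fun _ => a : Fin (k + 1) → α))).Perm
      (List.replicate q x ++ List.replicate (q * k) a) := by
  have h : List.ofFn (Fin.cons x fun _ => a : Fin (k + 1) → α) = x :: List.replicate k a := by
    rw [List.ofFn_succ]
    simp [List.ofFn_const]
  rw [ofFn_yqn, h]
  refine (flatten_replicate_perm q).trans ?_
  rw [flatten_replicate_replicate]

variable [Fil]

/-- **the list of the rows of species `a`** -/
theorem ofFn_rwq (y : Fin m → α) (a : Bool) :
    List.ofFn (rwq y a) = (List.replicate (Fil.n a) (List.ofFn y)).flatten := by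
  cases a
  · exact ofFn_yqn _ y
  · show List.ofFn y = _
    simp

/-- **rows `x, 0, …, 0`** -/
theorem ofFn_rwq_cons (k : ℕ) (x z : α) (a : Bool) :
    (List.ofFn (rwq (Fin.cons x fun _ => z : Fin (k + 1) → α) a)).Perm
      (List.replicate (Fil.n a) x ++ List.replicate (Fil.n a * k) z) := by
  cases a
  · exact ofFn_yqn_cons _ k x z
  · show (List.ofFn (Fin.cons x fun _ => z : Fin (k + 1) → α)).Perm _
    rw [List.ofFn_succ]
    simp [List.ofFn_const]

/-- number of the rows of species `a` -/
theorem length_ofFn_rwq (y : Fin m → α) (a : Bool) :
    (List.ofFn (rwq y a)).length = Fil.n a * m := by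
  rw [List.length_ofFn, cond_eq]

end Pool.Agent.PLX

end
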