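import Pool.Agent.PB.FldX
import Pool.Agent.PLX.Fil

/-!
# The fields of the (1 | q) world: `X s / b s`

Rows of species `s` are `Fil.b s`-fold; `ib X s z = X s z / Fil.b s`. The product of the field `ib X`
with the density `Fil.b s * ρ` of species `s` is the product of `X` with the density `ρ` of the one-fold
rows, so the response of `ib X` is the response of `X` in the landed files.
-/

set_option autoImplicit false

noncomputable section

open Complex PLX

namespace PBE.PLX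

variable [Fil]

/-- the field divided by the multiplicity of the rows -/
def ib (X : Bool → ℂ → ℂ) (s : Bool) (z : ℂ) : ℂ := ((Fil.b s : ℝ) : ℂ)⁻¹ * X s z

theorem b_ib (X : Bool → ℂ → ℂ) (s : Bool) (z : ℂ) : ((Fil.b s : ℝ) : ℂ) * ib X s z = X s z := by
  unfold ib
  rw [← mul_assoc, mul_inv_cancel₀ (Fil.b_ne_c s), one_mul]

theorem ib_dens (ρ : ℂ → ℂ) (X : Bool → ℂ → ℂ) (s : Bool) (z : ℂ) :
    ib X s z * (((Fil.b s : ℝ) : ℂ) * ρ z) = X s z * ρ z := by
  rw [← mul_assoc, mul_comm (ib X s z), b_ib]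

theorem ib_dens' (ρ : ℂ → ℂ) (X : Bool → ℂ → ℂ) (s : Bool) (z w : ℂ) :
    ((Fil.b s : ℝ) : ℂ) * ρ z * ib X s w = ρ z * X s w := by
  rw [mul_assoc, mul_left_comm, b_ib]

theorem norm_inv_b_le (s : Bool) : ‖((Fil.b s : ℝ) : ℂ)⁻¹‖ ≤ 1 := by
  rw [norm_inv, Complex.norm_real, Real.norm_of_nonneg (Fil.b_nonneg s)]
  exact Fil.inv_b_le s

theorem norm_ib_le (X : Bool → ℂ → ℂ) (s : Bool) (z : ℂ) : ‖ib X s z‖ ≤ ‖X s z‖ := by
  unfold ib
  rw [norm_mul]
  exact mul_le_of_le_one_left (norm_nonneg _) (norm_inv_b_le s)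

theorem ib_add (X Y : Bool → ℂ → ℂ) (s : Bool) (z : ℂ) :
    ib (fun s z => X s z + Y s z) s z = ib X s z + ib Y s z := mul_add _ _ _

theorem ib_sub (X Y : Bool → ℂ → ℂ) (s : Bool) (z : ℂ) :
    ib (fun s z => X s z - Y s z) s z = ib X s z - ib Y s z := mul_sub _ _ _

theorem ib_smul (c : ℂ) (X : Bool → ℂ → ℂ) (s : Bool) (z : ℂ) :
    ib (fun s z => c * X s z) s z = c * ib X s z := mul_left_comm _ _ _

theorem ib_true (X : Bool → ℂ → ℂ) : ib X true = X true := by
  funext z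
  unfold ib
  rw [Fil.b_true, ofReal_one, inv_one, one_mul]

theorem FldF.ib {b1 : ℝ} {X : Bool → ℂ → ℂ} (h : PB.FldF b1 X) : PB.FldF b1 (PBE.PLX.ib X) where
  d s z hz := (h.d s z hz).const_mul _
  bd := by
    obtain ⟨B, hB, h1⟩ := h.bd
    exact ⟨B, hB, fun s z hz => (norm_ib_le X s z).trans (h1 s z hz)⟩

theorem TC.ib {y₁ y₂ a M : ℝ} {X : Bool → ℂ → ℂ} (s : Bool) (h : PBE.TC y₁ y₂ a M (X s)) :
    PBE.TC y₁ y₂ a M (PBE.PLX.ib X s) where
  an := h.an.const_mul _
  bd z hz := (norm_ib_le X s z).trans (h.bd z hz)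

theorem ib_meas {X : Bool → ℂ → ℂ} (s : Bool) (h : Measurable fun t : ℝ => X s t) :
    Measurable fun t : ℝ => ib X s t := h.const_mul _

theorem ib_int {X : Bool → ℂ → ℂ} {f : ℝ → ℂ} (s : Bool)
    (h : MeasureTheory.Integrable fun t : ℝ => X s t * f t) :
    MeasureTheory.Integrable fun t : ℝ => ib X s t * f t := by
  have e : (fun t : ℝ => ib X s t * f t) =
      fun t : ℝ => ((Fil.b s : ℝ) : ℂ)⁻¹ * (X s t * f t) := by
    funext t
    exact mul_assoc _ _ _
  rw [e]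
  exact h.const_mul _

/-- the regularised quotient: the field times the density is `β` minus `b` times the field -/
theorem ib_XS {b c0 N : ℝ} {ρ β : ℂ → ℂ} (h : PBE.SeaL b c0 N ρ) (ε : Bool → ℂ) (r : ℝ) (s : Bool)
    {z : ℂ} (hz : |z.im| < b) :
    ((Fil.b s : ℝ) : ℂ) * ρ (z + r) * ib (fun s z => ε s * PBE.XS ρ r β z) s z =
      ε s * β z - ((Fil.b s : ℝ) : ℂ) * ib (fun s z => ε s * PBE.XS ρ r β z) s z := by
  rw [b_ib, ib_dens']
  have h1 := PBE.XS_mul (β := β) h r hz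
  linear_combination (ε s) * h1

/-- the landed files -/
theorem ib_one (X : Bool → ℂ → ℂ) : @ib Fil.one X = X := by
  funext s z
  unfold ib
  have : (@Fil.b Fil.one s : ℝ) = 1 := by
    cases s
    · exact Nat.cast_one
    · rfl
  rw [this, ofReal_one, inv_one, one_mul]

end PBE.PLX

end
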