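import Pool.Agent.PB.ForceK

/-!
# The mean force of one row with its sea on the quanta of the OTHER species

`rowX` = logarithmic derivative of the factor of one row in the other species, `rowS` = in its own
species, `rowD = rowS + rowX`.
* `cross_0`: row and sea cancel: `rowX z + ∫ P keY (z - i s) ds = 0` for `|Re z| < 3 l`;
* `cross_34`: `4 π i pc (z + 3 l)` for the offset in `(3 l, 4 l)`;
* `crossx_0`, `crossx_34`: the same for complex rows; `own_..`: the own part is what is left.
-/

set_option autoImplicit false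

noncomputable section

open MeasureTheory Set Filter Topology

namespace PBForce

open NUMF

/-- logarithmic derivative in the height of the factor of one row of the other species -/
def rowX (z : ℂ) : ℂ := Complex.I * (-2 * Complex.tan z)

/-- logarithmic derivative in the height of the factor of one row of the own species -/
def rowS (z : ℂ) : ℂ := Complex.I * (-Complex.cot (z + l) - Complex.cot (z - l))

lemma rowD_split (z : ℂ) : rowD z = rowS z + rowX z := by
  unfold rowD rowS rowX
  ring

/-- terms, real part of the offset in `(- 3 l, 3 l)` -/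
def LX0 : List Tm := [(-2, -2, 0), (0, 2, -1), (0, 2, 1)]

/-- terms, offset in `(3 l, 4 l)` -/
def LX4 : List Tm := [(-2, -2, 0), (0, 2, 7), (0, 2, 1)]

lemma idX0 (u v : ℂ) (m : ℝ) : (LX0.map fun x : Tm => (x.1 * (2 * Complex.cosh v - 1) + x.2.1) *
    Complex.sinh (u + x.2.2 * v)).sum = 0 * (Complex.cosh (u + m * v) * Complex.sinh (4 * v)) := by
  unfold LX0
  simp only [List.map_cons, List.map_nil, List.sum_cons, List.sum_nil]
  have hx : Complex.exp v ≠ 0 := Complex.exp_ne_zero v
  have hy : Complex.exp u ≠ 0 := Complex.exp_ne_zero u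
  have s0 := shx u v 0
  have s1 := shx u v 1
  have s1' := shx u v (-1)
  push_cast at s0 s1 s1' ⊢
  rw [s0, s1, s1', ch1x, zero_mul]
  generalize Complex.exp v = x at *
  generalize Complex.exp u = y at *
  field_simp
  ring

lemma idX4 (u v : ℂ) : (LX4.map fun x : Tm => (x.1 * (2 * Complex.cosh v - 1) + x.2.1) *
    Complex.sinh (u + x.2.2 * v)).sum = 4 * (Complex.cosh (u + (3 : ℝ) * v) * Complex.sinh (4 * v)) := by
  unfold LX4
  simp only [List.map_cons, List.map_nil, List.sum_cons, List.sum_nil]
  have hx : Complex.exp v ≠ 0 := Complex.exp_ne_zero v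
  have hy : Complex.exp u ≠ 0 := Complex.exp_ne_zero u
  have s0 := shx u v 0
  have s1 := shx u v 1
  have s7 := shx u v 7
  have c3 := chx u v 3
  push_cast at s0 s1 s7 c3 ⊢
  rw [s0, s1, s7, c3, ch1x, sh4x]
  generalize Complex.exp v = x at *
  generalize Complex.exp u = y at *
  field_simp
  ring

/-- force of a row at `0` with its sea on the other species -/
def frcX (z : ℂ) : ℂ := rowX z + ∫ s : ℝ, (P s : ℂ) * keY (z - s * Complex.I)

lemma frcX_of {z : ℂ} {L : List Tm}
    (hr : rowX z = Complex.I * (L.map fun x : Tm => x.1 * Complex.tan (z + x.2.2 * l)).sum)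
    (hk : ∀ w : ℂ, keY w =
      Complex.I * (L.map fun x : Tm => x.2.1 * Complex.tan (w + x.2.2 * l)).sum) :
    frcX z = Complex.I * ((L.map fun x : Tm => x.1 * Complex.tan (z + x.2.2 * l)).sum +
      ∫ s : ℝ, (P s : ℂ) * (L.map fun x : Tm =>
        x.2.1 * Complex.tan (z - s * Complex.I + x.2.2 * l)).sum) := by
  unfold frcX
  simp_rw [hk]
  rw [hr, mul_add, ← integral_const_mul]
  congr 2
  funext s
  ring

/-- **a row with its sea exerts no force on the other species**, real part in `(- 3 l, 3 l)` -/
theorem cross_0 {z : ℂ} (h : |z.re| < 3 * l) : frcX z = 0 := by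
  have hl := l_pos
  obtain ⟨h1, h2⟩ := abs_lt.1 h
  have hr : rowX z = Complex.I * (LX0.map fun x : Tm => x.1 * Complex.tan (z + x.2.2 * l)).sum := by
    unfold LX0 rowX
    simp only [List.map_cons, List.map_nil, List.sum_cons, List.sum_nil]
    push_cast
    ring_nf
  have hk : ∀ w : ℂ, keY w =
      Complex.I * (LX0.map fun x : Tm => x.2.1 * Complex.tan (w + x.2.2 * l)).sum := by
    intro w
    unfold LX0 keY
    simp only [List.map_cons, List.map_nil, List.sum_cons, List.sum_nil]
    have a3 := (cot_tan w 3).2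
    have a3' := (cot_tan w (-3)).1
    push_cast at a3 a3' ⊢
    rw [show w + -3 * (l : ℂ) = w - 3 * l by ring] at a3'
    rw [a3, a3']
    ring_nf
  rw [frcX_of hr hk, eval z LX0 ?_ 0 (-z.re / l) ?_ fun u v => idX0 u v _, zero_mul, mul_zero]
  · intro x hx
    unfold LX0 at hx
    rw [← four_l, abs_lt]
    simp only [List.mem_cons, List.not_mem_nil, or_false] at hx
    rcases hx with rfl | rfl | rfl <;> constructor <;> simp only <;> linarith
  · rw [div_mul_cancel₀ _ hl.ne', add_neg_cancel, abs_zero]
    exact hl

/-- **offset in `(3 l, 4 l)`** -/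
theorem cross_34 {z : ℂ} (h1 : -(4 * l) < z.re) (h2 : z.re < -(3 * l)) :
    frcX z = 4 * Real.pi * Complex.I * pc (z + 3 * l) := by
  have hl := l_pos
  have hr : rowX z = Complex.I * (LX4.map fun x : Tm => x.1 * Complex.tan (z + x.2.2 * l)).sum := by
    unfold LX4 rowX
    simp only [List.map_cons, List.map_nil, List.sum_cons, List.sum_nil]
    push_cast
    ring_nf
  have hk : ∀ w : ℂ, keY w =
      Complex.I * (LX4.map fun x : Tm => x.2.1 * Complex.tan (w + x.2.2 * l)).sum := by
    intro w
    unfold LX4 keY
    simp only [List.map_cons, List.map_nil, List.sum_cons, List.sum_nil]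
    have a3 := (cot_tan w 3).1
    have a3' := (cot_tan w (-3)).1
    push_cast at a3 a3' ⊢
    rw [show w + -3 * (l : ℂ) = w - 3 * l by ring] at a3'
    rw [a3, a3']
    ring_nf
  rw [frcX_of hr hk, eval z LX4 ?_ 4 3 ?_ idX4]
  · push_cast
    ring
  · intro x hx
    unfold LX4 at hx
    rw [← four_l, abs_lt]
    simp only [List.mem_cons, List.not_mem_nil, or_false] at hx
    rcases hx with rfl | rfl | rfl <;> constructor <;> simp only <;> linarith
  · rw [abs_lt]
    constructor <;> linarith

/-! ### complex rows -/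

/-- force of the complex row `x` with its sea on the other species -/
def frcXx (z x : ℂ) : ℂ := rowX (z - x) + ∫ s : ℝ, pc (x - s * Complex.I) * keY (z - s * Complex.I)

lemma frcXx_I (z : ℂ) (t : ℝ) : frcXx z (t * Complex.I) = frcX (z - t * Complex.I) := by
  unfold frcXx frcX
  rw [conv_shift keY]

lemma rowX_diff {w : ℂ} (h0 : Complex.cos w ≠ 0) : DifferentiableAt ℂ rowX w := by
  have h := (Complex.hasDerivAt_tan h0).differentiableAt
  unfold rowX
  exact (h.const_mul (-2)).const_mul Complex.I

lemma rowX_diff' {z x : ℂ} (h : DifferentiableAt ℂ rowX (z - x)) :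
    DifferentiableAt ℂ (fun x => rowX (z - x)) x := by
  have h1 : DifferentiableAt ℂ (fun x : ℂ => z - x) x := (differentiableAt_id).const_sub z
  exact h.comp x h1

lemma frcXx_of {z x0 : ℂ} (hK : Integrable fun s : ℝ => (P s : ℂ) * keY (z - s * Complex.I))
    {R : ℂ → ℂ}
    (hR : ∀ x : ℂ, |x.re| < l → x ≠ x0 → DifferentiableAt ℂ R x ∧
      DifferentiableAt ℂ (fun x => rowX (z - x)) x)
    (he : ∀ t : ℝ, frcX (z - t * Complex.I) = R (t * Complex.I)) :
    ∀ x : ℂ, |x.re| < l → x ≠ x0 → frcXx z x = R x := by
  intro x hx hne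
  have h1 := ext_id (B := fun x : ℂ => ∫ s : ℝ, pc (x - s * Complex.I) *
      keY (z - s * Complex.I)) (R := fun x => R x - rowX (z - x))
    (x0 := x0) (fun x hx => (conv_diff hK hx).1)
    (fun x hx hn => (hR x hx hn).1.sub (hR x hx hn).2) (fun t => by
      have e1 := frcXx_I z t
      unfold frcXx at e1
      rw [he] at e1
      rw [← e1]
      ring) x hx hne
  unfold frcXx
  have h2 : ∫ s : ℝ, pc (x - s * Complex.I) * keY (z - s * Complex.I) = R x - rowX (z - x) := h1
  rw [h2]
  ring

/-- the cross kernel is integrable against the density for `|Re z| < 3 l` -/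
lemma int_keY0 {z : ℂ} (h : |z.re| < 3 * l) :
    Integrable fun s : ℝ => (P s : ℂ) * keY (z - s * Complex.I) := by
  have hl := l_pos
  obtain ⟨h1, h2⟩ := abs_lt.1 h
  have hk : ∀ w : ℂ, keY w =
      Complex.I * (LX0.map fun x : Tm => x.2.1 * Complex.tan (w + x.2.2 * l)).sum := by
    intro w
    unfold LX0 keY
    simp only [List.map_cons, List.map_nil, List.sum_cons, List.sum_nil]
    have a3 := (cot_tan w 3).2
    have a3' := (cot_tan w (-3)).1
    push_cast at a3 a3' ⊢
    rw [show w + -3 * (l : ℂ) = w - 3 * l by ring] at a3'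
    rw [a3, a3']
    ring_nf
  have hc := (comb z LX0 (fun x hx => by
    unfold LX0 at hx
    rw [← four_l, abs_lt]
    simp only [List.mem_cons, List.not_mem_nil, or_false] at hx
    rcases hx with rfl | rfl | rfl <;> constructor <;> simp only <;> linarith)).1
  refine (hc.const_mul Complex.I).congr (Eventually.of_forall fun s => ?_)
  simp only []
  rw [hk]
  ring

/-- **a complex row with its sea exerts no force on the other species** -/
theorem crossx_0 {z x : ℂ} (h : |z.re| < 3 * l) (hx : |x.re| < l) : frcXx z x = 0 := by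
  have hl := l_pos
  obtain ⟨h1, h2⟩ := abs_lt.1 h
  refine frcXx_of (x0 := ((2 * l : ℝ) : ℂ)) (R := fun _ => 0) (int_keY0 h) (fun x hx _ => ?_)
    (fun t => ?_) x hx (fun e => ?_)
  · have hx' := abs_lt.1 hx
    have hre : (z - x).re = z.re - x.re := Complex.sub_re z x
    refine ⟨differentiableAt_const _, rowX_diff' (rowX_diff ?_)⟩
    refine cos_ne_of ?_
    rw [hre, abs_lt, ← four_l]
    constructor <;> linarith
  · exact cross_0 (z := z - t * Complex.I) (by rw [re_sub_mul_I]; exact h)
  · rw [e, Complex.ofReal_re, abs_of_pos (by positivity)] at hx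
    linarith

/-- **offset in `(3 l, 4 l)`, complex row** -/
theorem crossx_34 {z x : ℂ} (h1 : -(4 * l) < z.re) (h2 : z.re < -(3 * l)) (hx : |x.re| < l)
    (hne : z - x ≠ -(4 * l)) : frcXx z x = 4 * Real.pi * Complex.I * pc (z + 3 * l - x) := by
  have hl := l_pos
  refine frcXx_of (x0 := z + 4 * l) (R := fun x => 4 * Real.pi * Complex.I * pc (z + 3 * l - x))
    (int_keY ⟨by linarith, by linarith, by linarith, by linarith, by linarith⟩) (fun x hx hn => ?_)
    (fun t => ?_) x hx (fun e => hne (by rw [e]; ring))
  · have hx' := abs_lt.1 hx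
    have hre : (z - x).re = z.re - x.re := Complex.sub_re z x
    have hn' : z - x ≠ -(4 * l) := fun e => hn (by linear_combination -e)
    obtain ⟨-, -, -, r4⟩ := re_add_nat (z - x)
    have e3 : z + 3 * l - x = z - x + 3 * l := by ring
    constructor
    · refine (pc_diff_sub (den_ne' ?_ ?_ ?_ ?_)).const_mul _
      · rw [e3, r4, hre]; linarith
      · rw [e3, r4, hre]; linarith
      · intro e
        have := congrArg Complex.re e
        rw [e3, r4, hre, Complex.ofReal_re] at this
        linarith
      · intro e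
        apply hn'
        linear_combination e
    · refine rowX_diff' (rowX_diff ?_)
      refine cos_ne_p ?_ ?_ hn'
      · rw [hre]; linarith
      · rw [hre]; linarith
  · have := cross_34 (z := z - t * Complex.I) (by rw [re_sub_mul_I]; exact h1)
      (by rw [re_sub_mul_I]; exact h2)
    rw [this]
    congr 2
    ring

/-! ### the own part -/

/-- force of the complex row `x` with its sea on its own species -/
def frcSx (z x : ℂ) : ℂ := rowS (z - x) + ∫ s : ℝ, pc (x - s * Complex.I) * keX (z - s * Complex.I)

/-- the two parts -/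
theorem frc_split {z x : ℂ} (h : Off z.re) (hx : |x.re| < l) :
    forcx z x = frcSx z x + frcXx z x := by
  obtain ⟨i1, i2, -⟩ := int_row h hx
  unfold forcx frcSx frcXx
  rw [rowD_split, show (fun s : ℝ => pc (x - s * Complex.I) *
    (keX (z - s * Complex.I) + keY (z - s * Complex.I))) = fun s : ℝ =>
      pc (x - s * Complex.I) * keX (z - s * Complex.I) +
        pc (x - s * Complex.I) * keY (z - s * Complex.I) from funext fun s => by ring,
    integral_add i1 i2]
  ring

theorem own_01 {z x : ℂ} (h1 : -l < z.re) (h2 : z.re < 0) (hx : |x.re| < l)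
    (hne : z - x ≠ -l) : frcSx z x = -(2 * Real.pi * Complex.I) * pc (z - x) := by
  have hl := l_pos
  have h := frc_split (z := z) (x := x)
    ⟨by linarith, h2, by linarith, by linarith, by linarith⟩ hx
  rw [forcx_01 h1 h2 hx hne, crossx_0 (by rw [abs_lt]; constructor <;> linarith) hx, add_zero] at h
  exact h.symm

theorem own_12 {z x : ℂ} (h1 : -(2 * l) < z.re) (h2 : z.re < -l) (hx : |x.re| < l)
    (hne : z - x ≠ -l) : frcSx z x = 2 * Real.pi * Complex.I * pc (z + 2 * l - x) := by
  have hl := l_pos
  have h := frc_split (z := z) (x := x)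
    ⟨by linarith, by linarith, by linarith, by linarith, by linarith⟩ hx
  rw [forcx_12 h1 h2 hx hne, crossx_0 (by rw [abs_lt]; constructor <;> linarith) hx, add_zero] at h
  exact h.symm

theorem own_23 {z x : ℂ} (h1 : -(3 * l) < z.re) (h2 : z.re < -(2 * l)) (hx : |x.re| < l) :
    frcSx z x = 0 := by
  have hl := l_pos
  have h := frc_split (z := z) (x := x)
    ⟨by linarith, by linarith, by linarith, by linarith, by linarith⟩ hx
  rw [forcx_23 h1 h2 hx, crossx_0 (by rw [abs_lt]; constructor <;> linarith) hx, add_zero] at h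
  exact h.symm

theorem own_34 {z x : ℂ} (h1 : -(4 * l) < z.re) (h2 : z.re < -(3 * l)) (hx : |x.re| < l)
    (hne : z - x ≠ -(4 * l)) : frcSx z x = 0 := by
  have hl := l_pos
  have h := frc_split (z := z) (x := x)
    ⟨by linarith, by linarith, by linarith, by linarith, by linarith⟩ hx
  rw [forcx_34 h1 h2 hx hne, crossx_34 h1 h2 hx hne] at h
  linear_combination -h

end PBForce
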