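import Pool.Agent.PLX.PB.ValS
import Pool.Agent.PLX.Fil

/-!
# Bulk exponent of the sea at rows `0`, two fillings

* `EMs s = 1/2 (s₁² + s₂²) EMF0 - 1/2 (s₁ - s₂)² EX0`: mean field exponent of the sea `(s₁ P | s₂ P)`
  (`EMs_eq`: the value of `NUSea.PLX.MF` at the rows `0`).
-/

set_option autoImplicit false

noncomputable section

open MeasureTheory

namespace PLX

open PBVR.PLX (EMF0 EX0)

/-- **mean field exponent of the sea with `s a` rows of species `a`** -/
def EMs (s : Bool → ℝ) : ℝ :=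
  1 / 2 * (s true ^ 2 + s false ^ 2) * EMF0 - 1 / 2 * (s true - s false) ^ 2 * EX0

theorem EMs_eq (s : Bool → ℝ) : @NUSea.PLX.MF NUSea.seaP s = EMs s := PBVR.PLX.MF_seaP s

theorem EMs_const (k : ℝ) : EMs (fun _ => k) = k ^ 2 * EMF0 := by
  unfold EMs
  ring

theorem EMs_cross (s : Bool → ℝ) :
    EMs s = 1 / 2 * (s true ^ 2 + s false ^ 2) * (EMF0 - EX0) + s true * s false * EX0 := by
  unfold EMs
  ring

end PLX

end
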