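import Pool.Agent.NUAct.CK

/-!
# The second and third derivatives of the cross potential `Ux` decay

`Ux_inc`: `‖Ux w' - Ux w - Uxd w (w' - w)‖ ≤ K exp (-2 |x|) ‖w' - w‖²` for points on the same vertical line
`Re = x`, and the same for the derivative `Uxd`.
-/

set_option autoImplicit false
set_option linter.unusedSectionVars false

open MeasureTheory Set Filter Topology Complex

namespace NUAct

open NUMF (l l_pos)

noncomputable section

/-- derivative of `Ty` -/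
def Ty2 (y : ℝ) (z : ℂ) : ℂ :=
  1 / Complex.cosh (z + y * I) ^ 2 + 1 / Complex.cosh (z - y * I) ^ 2

/-- derivative of `Ty2` -/
def Ty3 (y : ℝ) (z : ℂ) : ℂ :=
  -2 * (Complex.sinh (z + y * I) / Complex.cosh (z + y * I) ^ 3) +
    -2 * (Complex.sinh (z - y * I) / Complex.cosh (z - y * I) ^ 3)

/-- second derivative of `Ux` -/
def Uxd2 (z : ℂ) : ℂ := 2 * Ty2 l z - Ty2 0 z

/-- third derivative of `Ux` -/
def Uxd3 (z : ℂ) : ℂ := 2 * Ty3 l z - Ty3 0 z

lemma cosh_ge {b : ℝ} (hb0 : 0 ≤ b) (hb : b < Real.pi / 2) {w : ℂ} (hw : |w.im| ≤ b) :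
    Real.cos b / 2 * Real.exp |w.re| ≤ ‖Complex.cosh w‖ := by
  have hc : 0 < Real.cos b := Real.cos_pos_of_mem_Ioo ⟨by linarith [Real.pi_pos], hb⟩
  have h1 : Real.cos b ≤ Real.cos w.im := by
    rw [← Real.cos_abs w.im]
    exact Real.cos_le_cos_of_nonneg_of_le_pi (abs_nonneg _) (by linarith [Real.pi_pos]) hw
  have h2 := norm_cosh_sq' w
  have h3 : Real.exp |w.re| ≤ 2 * Real.cosh w.re := by
    rw [← Real.cosh_abs w.re, Real.cosh_eq]
    have := Real.exp_pos (-|w.re|)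
    linarith
  have h4 : Real.cosh w.re ^ 2 = Real.sinh w.re ^ 2 + 1 := Real.cosh_sq w.re
  have h5 : Real.cos b ≤ 1 := Real.cos_le_one b
  have h6 : Real.cos b ^ 2 ≤ Real.cos w.im ^ 2 := by nlinarith
  have h7 : (Real.cos b * Real.cosh w.re) ^ 2 ≤ ‖Complex.cosh w‖ ^ 2 := by
    rw [h2, mul_pow, h4]
    have : 0 ≤ Real.sinh w.re ^ 2 := sq_nonneg _
    have h8 : Real.cos b ^ 2 ≤ 1 := by nlinarith
    nlinarith
  have h8 : Real.cos b * Real.cosh w.re ≤ ‖Complex.cosh w‖ :=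
    le_of_sq_le_sq h7 (norm_nonneg _)
  calc Real.cos b / 2 * Real.exp |w.re| ≤ Real.cos b / 2 * (2 * Real.cosh w.re) := by gcongr
    _ = Real.cos b * Real.cosh w.re := by ring
    _ ≤ _ := h8

lemma inv_cosh_sq {b : ℝ} (hb0 : 0 ≤ b) (hb : b < Real.pi / 2) {w : ℂ} (hw : |w.im| ≤ b) :
    ‖1 / Complex.cosh w ^ 2‖ ≤ 4 / Real.cos b ^ 2 * Real.exp (-2 * |w.re|) := by
  have hc : 0 < Real.cos b := Real.cos_pos_of_mem_Ioo ⟨by linarith [Real.pi_pos], hb⟩
  have h1 := cosh_ge hb0 hb hw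
  have h2 : 0 < Real.cos b / 2 * Real.exp |w.re| := by positivity
  rw [norm_div, norm_one, norm_pow]
  have h3 : (Real.cos b / 2 * Real.exp |w.re|) ^ 2 ≤ ‖Complex.cosh w‖ ^ 2 := by gcongr
  have h4 : 0 < (Real.cos b / 2 * Real.exp |w.re|) ^ 2 := by positivity
  calc 1 / ‖Complex.cosh w‖ ^ 2 ≤ 1 / (Real.cos b / 2 * Real.exp |w.re|) ^ 2 :=
        one_div_le_one_div_of_le h4 h3
    _ = 4 / Real.cos b ^ 2 * Real.exp (-2 * |w.re|) := by
        have e1 : Real.exp (-2 * |w.re|) = (Real.exp |w.re| ^ 2)⁻¹ := by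
          rw [← Real.exp_nat_mul, ← Real.exp_neg]
          congr 1
          push_cast
          ring
        rw [e1]
        field_simp
        ring

lemma cosh_ne_of {w : ℂ} (hw : |w.im| < Real.pi / 2) : Complex.cosh w ≠ 0 := by
  intro h
  have h1 := cosh_ge (abs_nonneg w.im) hw (le_refl |w.im|)
  have hc : 0 < Real.cos |w.im| := Real.cos_pos_of_mem_Ioo ⟨by
    have := abs_nonneg w.im
    linarith [Real.pi_pos], hw⟩
  rw [h, norm_zero] at h1
  have := Real.exp_pos |w.re|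
  nlinarith [mul_pos hc this]

lemma hasDerivAt_tanh {w : ℂ} (hw : |w.im| < Real.pi / 2) :
    HasDerivAt (fun z => Complex.sinh z / Complex.cosh z) (1 / Complex.cosh w ^ 2) w := by
  have h0 := cosh_ne_of hw
  refine ((Complex.hasDerivAt_sinh w).div (Complex.hasDerivAt_cosh w) h0).congr_deriv ?_
  have := Complex.cosh_sq w
  congr 1
  linear_combination this

lemma hasDerivAt_icosh {w : ℂ} (hw : |w.im| < Real.pi / 2) :
    HasDerivAt (fun z => 1 / Complex.cosh z ^ 2) (-2 * (Complex.sinh w / Complex.cosh w ^ 3)) w := by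
  have h0 := cosh_ne_of hw
  have h1 := ((Complex.hasDerivAt_cosh w).pow 2)
  have h2 := h1.inv (pow_ne_zero 2 h0)
  refine (h2.congr_deriv ?_).congr_of_eventuallyEq (Eventually.of_forall fun z => ?_)
  · simp only [Pi.pow_apply]
    push_cast
    field_simp
  · simp [one_div]

lemma hasDerivAt_Ty {y : ℝ} {z : ℂ} (h : |z.im| + |y| < Real.pi / 2) : HasDerivAt (Ty y) (Ty2 y z) z := by
  have h1 := (hasDerivAt_tanh (im_add_lt h)).comp_add_const z (y * I)
  have h2 := (hasDerivAt_tanh (im_sub_lt h)).comp_sub_const z (y * I)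
  exact h1.add h2

lemma hasDerivAt_Ty2 {y : ℝ} {z : ℂ} (h : |z.im| + |y| < Real.pi / 2) : HasDerivAt (Ty2 y) (Ty3 y z) z := by
  have h1 := (hasDerivAt_icosh (im_add_lt h)).comp_add_const z (y * I)
  have h2 := (hasDerivAt_icosh (im_sub_lt h)).comp_sub_const z (y * I)
  exact h1.add h2

lemma hasDerivAt_Uxd {z : ℂ} (h : |z.im| < l) : HasDerivAt Uxd (Uxd2 z) z :=
  ((hasDerivAt_Ty (a1 h)).const_mul 2).sub (hasDerivAt_Ty (a0 h))

lemma hasDerivAt_Uxd2 {z : ℂ} (h : |z.im| < l) : HasDerivAt Uxd2 (Uxd3 z) z :=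
  ((hasDerivAt_Ty2 (a1 h)).const_mul 2).sub (hasDerivAt_Ty2 (a0 h))

lemma Ty23_dec {b y : ℝ} (hb0 : 0 ≤ b) (hb : b + |y| < Real.pi / 2) {w : ℂ} (hw : |w.im| ≤ b) :
    ‖Ty2 y w‖ ≤ 8 / Real.cos (b + |y|) ^ 3 * Real.exp (-2 * |w.re|) ∧
    ‖Ty3 y w‖ ≤ 16 / Real.cos (b + |y|) ^ 3 * Real.exp (-2 * |w.re|) := by
  have hc : 0 < Real.cos (b + |y|) := Real.cos_pos_of_mem_Ioo ⟨by
    have := abs_nonneg y
    linarith [Real.pi_pos], hb⟩
  have hc1 : Real.cos (b + |y|) ≤ 1 := Real.cos_le_one _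
  have hB0 : 0 ≤ b + |y| := by positivity
  have i1 : |(w + y * I).im| ≤ b + |y| := by
    rw [im_add]
    exact (abs_add_le _ _).trans (by linarith)
  have i2 : |(w - y * I).im| ≤ b + |y| := by
    rw [im_sub]
    exact (abs_sub _ _).trans (by linarith)
  have r1 : (w + y * I).re = w.re := by simp
  have r2 : (w - y * I).re = w.re := by simp
  have g1 := inv_cosh_sq hB0 hb i1
  have g2 := inv_cosh_sq hB0 hb i2
  rw [r1] at g1
  rw [r2] at g2
  have t1 := tanh_bound hb i1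
  have t2 := tanh_bound hb i2
  have hE := Real.exp_pos (-2 * |w.re|)
  obtain ⟨c, hcd⟩ : ∃ c, c = Real.cos (b + |y|) := ⟨_, rfl⟩
  rw [← hcd] at hc hc1 g1 g2 t1 t2 ⊢
  have k1 : 4 / c ^ 2 ≤ 4 / c ^ 3 := by
    refine div_le_div_of_nonneg_left (by norm_num) (by positivity) ?_
    calc c ^ 3 = c ^ 2 * c := by ring
      _ ≤ c ^ 2 * 1 := by gcongr
      _ = c ^ 2 := by ring
  constructor
  · unfold Ty2
    refine (norm_add_le _ _).trans ?_
    calc _ ≤ 4 / c ^ 2 * Real.exp (-2 * |w.re|) + 4 / c ^ 2 * Real.exp (-2 * |w.re|) := add_le_add g1 g2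
      _ ≤ 4 / c ^ 3 * Real.exp (-2 * |w.re|) + 4 / c ^ 3 * Real.exp (-2 * |w.re|) := by gcongr
      _ = _ := by ring
  · have key : ∀ z : ℂ, ‖Complex.sinh z / Complex.cosh z‖ ≤ 1 / c →
        ‖1 / Complex.cosh z ^ 2‖ ≤ 4 / c ^ 2 * Real.exp (-2 * |w.re|) →
        ‖-2 * (Complex.sinh z / Complex.cosh z ^ 3)‖ ≤ 8 / c ^ 3 * Real.exp (-2 * |w.re|) := by
      intro z h1 h2
      have e : -2 * (Complex.sinh z / Complex.cosh z ^ 3) =
          -2 * ((Complex.sinh z / Complex.cosh z) * (1 / Complex.cosh z ^ 2)) := by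
        by_cases h : Complex.cosh z = 0
        · rw [h]; simp
        · field_simp
      rw [e, norm_mul, norm_mul]
      have n2 : ‖(-2 : ℂ)‖ = 2 := by simp
      rw [n2]
      calc 2 * (‖Complex.sinh z / Complex.cosh z‖ * ‖1 / Complex.cosh z ^ 2‖) ≤
            2 * (1 / c * (4 / c ^ 2 * Real.exp (-2 * |w.re|))) := by gcongr
        _ = _ := by field_simp; ring
    unfold Ty3
    refine (norm_add_le _ _).trans ?_
    calc _ ≤ 8 / c ^ 3 * Real.exp (-2 * |w.re|) + 8 / c ^ 3 * Real.exp (-2 * |w.re|) :=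
          add_le_add (key _ t1 g1) (key _ t2 g2)
      _ = _ := by ring

/-- **decay of the second and third derivatives** -/
theorem Uxd23_dec : ∃ K : ℝ, 0 < K ∧ ∀ w : ℂ, |w.im| ≤ l / 2 →
    ‖Uxd2 w‖ ≤ K * Real.exp (-2 * |w.re|) ∧ ‖Uxd3 w‖ ≤ K * Real.exp (-2 * |w.re|) := by
  have hl := l_pos
  have h8 := l8
  have q1 : l / 2 + |l| < Real.pi / 2 := by rw [abs_of_pos hl]; linarith
  have q0 : l / 2 + |(0:ℝ)| < Real.pi / 2 := by rw [abs_zero]; linarith
  have hc : ∀ y : ℝ, l / 2 + |y| < Real.pi / 2 → 0 < Real.cos (l / 2 + |y|) := fun y h =>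
    Real.cos_pos_of_mem_Ioo ⟨by
      have := abs_nonneg y
      linarith [Real.pi_pos], h⟩
  have c1 := hc _ q1
  have c0 := hc _ q0
  refine ⟨32 / Real.cos (l / 2 + |l|) ^ 3 + 16 / Real.cos (l / 2 + |(0:ℝ)|) ^ 3, by positivity,
    fun w hw => ?_⟩
  obtain ⟨a1, a2⟩ := Ty23_dec (y := l) (by positivity) q1 hw
  obtain ⟨b1, b2⟩ := Ty23_dec (y := 0) (by positivity) q0 hw
  have hE := Real.exp_pos (-2 * |w.re|)
  obtain ⟨E, hEd⟩ : ∃ E, E = Real.exp (-2 * |w.re|) := ⟨_, rfl⟩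
  rw [← hEd] at a1 a2 b1 b2 hE ⊢
  obtain ⟨u, hu⟩ : ∃ u, u = 1 / Real.cos (l / 2 + |l|) ^ 3 := ⟨_, rfl⟩
  obtain ⟨v, hv⟩ : ∃ v, v = 1 / Real.cos (l / 2 + |(0:ℝ)|) ^ 3 := ⟨_, rfl⟩
  have hu0 : 0 < u := by rw [hu]; positivity
  have hv0 : 0 < v := by rw [hv]; positivity
  have e : ∀ (x c : ℝ), x / c = x * (1 / c) := fun x c => by ring
  rw [e 8, ← hu] at a1
  rw [e 16, ← hu] at a2
  rw [e 8, ← hv] at b1
  rw [e 16, ← hv] at b2
  rw [e 32, e 16, ← hu, ← hv]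
  have n2 : ‖(2 : ℂ)‖ = 2 := by simp
  have uE : 0 ≤ u * E := by positivity
  have vE : 0 ≤ v * E := by positivity
  constructor
  · unfold Uxd2
    refine (norm_sub_le _ _).trans ?_
    rw [norm_mul, n2]
    nlinarith
  · unfold Uxd3
    refine (norm_sub_le _ _).trans ?_
    rw [norm_mul, n2]
    nlinarith

/-- Taylor's formula of first order on a convex set -/
lemma seg_taylor {S : Set ℂ} (hS : Convex ℝ S) {F F1 F2 : ℂ → ℂ} {A : ℝ}
    (h1 : ∀ w ∈ S, HasDerivAt F (F1 w) w) (h2 : ∀ w ∈ S, HasDerivAt F1 (F2 w) w)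
    (hA : ∀ w ∈ S, ‖F2 w‖ ≤ A) {p q : ℂ} (hp : p ∈ S) (hq : q ∈ S) :
    ‖F q - F p - F1 p * (q - p)‖ ≤ A * ‖q - p‖ ^ 2 := by
  have hsub : segment ℝ p q ⊆ S := hS.segment_subset hp hq
  have hA0 : 0 ≤ A := (norm_nonneg _).trans (hA p hp)
  have k1 : ∀ w ∈ segment ℝ p q, ‖F1 w - F1 p‖ ≤ A * ‖q - p‖ := by
    intro w hw
    have h3 := hS.norm_image_sub_le_of_norm_hasDerivWithin_le (f := F1) (f' := F2) (C := A)
      (fun w hw => (h2 w hw).hasDerivWithinAt) hA hp (hsub hw)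
    have h4 : ‖w - p‖ ≤ ‖q - p‖ := by
      obtain ⟨s, t, hs, ht, hst, rfl⟩ := hw
      have e : s • p + t • q - p = t • (q - p) := by
        have : s = 1 - t := by linarith
        rw [this]
        simp only [Complex.real_smul]
        push_cast
        ring
      rw [e, norm_smul, Real.norm_eq_abs, abs_of_nonneg ht]
      exact mul_le_of_le_one_left (norm_nonneg _) (by linarith)
    exact h3.trans (mul_le_mul_of_nonneg_left h4 hA0)
  have h5 := (convex_segment p q).norm_image_sub_le_of_norm_hasDerivWithin_le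
    (f := fun w => F w - F1 p * w) (f' := fun w => F1 w - F1 p) (C := A * ‖q - p‖)
    (fun w hw => ((h1 w (hsub hw)).sub (((hasDerivAt_id w).const_mul (F1 p)).congr_deriv
      (by ring))).hasDerivWithinAt) k1 (left_mem_segment ℝ p q) (right_mem_segment ℝ p q)
  have e2 : F q - F p - F1 p * (q - p) = (F q - F1 p * q) - (F p - F1 p * p) := by ring
  rw [e2]
  refine h5.trans (le_of_eq ?_)
  ring

lemma convex_vert (x b : ℝ) : Convex ℝ {w : ℂ | w.re = x ∧ |w.im| ≤ b} := by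
  intro p hp q hq s t hs ht hst
  obtain ⟨p1, p2⟩ := hp
  obtain ⟨q1, q2⟩ := hq
  refine ⟨?_, ?_⟩
  · simp only [Complex.add_re, Complex.real_smul, Complex.re_ofReal_mul, p1, q1]
    rw [← add_mul, hst, one_mul]
  · simp only [Complex.add_im, Complex.real_smul, Complex.im_ofReal_mul]
    refine (abs_add_le _ _).trans ?_
    rw [abs_mul, abs_mul, abs_of_nonneg hs, abs_of_nonneg ht]
    calc s * |p.im| + t * |q.im| ≤ s * b + t * b := by gcongr
      _ = b := by rw [← add_mul, hst, one_mul]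

/-- **increments of the cross potential and of its derivative** -/
theorem Ux_inc : ∃ K : ℝ, 0 < K ∧ ∀ w w' : ℂ, w.re = w'.re → |w.im| ≤ l / 2 → |w'.im| ≤ l / 2 →
    ‖Ux w' - Ux w - Uxd w * (w' - w)‖ ≤ K * Real.exp (-2 * |w.re|) * ‖w' - w‖ ^ 2 ∧
    ‖Uxd w' - Uxd w - Uxd2 w * (w' - w)‖ ≤ K * Real.exp (-2 * |w.re|) * ‖w' - w‖ ^ 2 := by
  have hl := l_pos
  obtain ⟨K, hK, H⟩ := Uxd23_dec
  refine ⟨K, hK, fun w w' hre hw hw' => ?_⟩
  have hin : ∀ z ∈ {z : ℂ | z.re = w.re ∧ |z.im| ≤ l / 2}, |z.im| < l := fun z hz =>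
    lt_of_le_of_lt hz.2 (by linarith)
  constructor
  · exact seg_taylor (convex_vert w.re (l / 2)) (fun z hz => hasDerivAt_Ux (hin z hz))
      (fun z hz => hasDerivAt_Uxd (hin z hz)) (fun z hz => by
        have := (H z hz.2).1
        rwa [hz.1] at this) ⟨rfl, hw⟩ ⟨hre.symm, hw'⟩
  · exact seg_taylor (convex_vert w.re (l / 2)) (fun z hz => hasDerivAt_Uxd (hin z hz))
      (fun z hz => hasDerivAt_Uxd2 (hin z hz)) (fun z hz => by
        have := (H z hz.2).2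
        rwa [hz.1] at this) ⟨rfl, hw⟩ ⟨hre.symm, hw'⟩

end

end NUAct
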