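import Pool.Agent.PLX.RayStep

/-! # PLX: the literal of (K) and the family of contents of the ray step

`nL z X Y` : the function of the content, rows `X` of the first and `Y` of the second group (lists, any
order), legs at `z`.  `aF = 3 l`.

* `red k v` : the rows `v` and `k` rows `0` of one group; a row at the far point takes a row `0`;
* `CtOk b m m1 m2 EX EY` : the contents `(0^m1 ∪ EX | 0^m2 ∪ EY)` of the page;
* **`KRows nL b`** : (K), `2 K + 1` terms in one row of one group on the segment and at `3 l`;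
* `rayF` : the family `F j v` of `ray_step`; `rayF_C`, `rayF_K0`, `rayF_Kj`, `rayF_W`, `rayF_end`;
* **`ray_rows`** : `ray_step` for the contents. -/

set_option autoImplicit false

noncomputable section

open Complex Polynomial

namespace Pool.Agent.PLX

/-- the far point `3 l` -/
def aF : ℂ := ((3 * (Real.pi / 8) : ℝ) : ℂ)

lemma aF_re : aF.re = 3 * (Real.pi / 8) := Complex.ofReal_re _

lemma ax_ne {x : ℂ} (h : Ax x) : x ≠ aF := by
  intro e
  have h1 := h.1
  rw [e, aF_re] at h1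
  have := Real.pi_pos
  linarith

/-- rows `0` -/
def zr (k : ℕ) : List ℂ := List.replicate k 0

/-- the rows `v` and `k` rows `0` of one group, a row at the far point takes a row `0` -/
def red (k : ℕ) (v : List ℂ) : List ℂ := v.filter (fun x => decide (x ≠ aF)) ++ zr (k - v.count aF)

lemma red_far (k : ℕ) (v : List ℂ) : red k (aF :: v) = red (k - 1) v := by
  unfold red
  rw [List.filter_cons_of_neg (by simp), List.count_cons_self]
  congr 2
  omega

lemma red_cons {x : ℂ} (h : x ≠ aF) (k : ℕ) (v : List ℂ) : red k (x :: v) = x :: red k v := by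
  unfold red
  rw [List.filter_cons_of_pos (by simpa using h), List.count_cons_of_ne (by simpa using h), List.cons_append]

lemma red_near (k : ℕ) {v : List ℂ} (h : ∀ x ∈ v, Ax x) : red k v = v ++ zr k := by
  induction v with
  | nil => simp [red]
  | cons x v ih =>
    rw [red_cons (ax_ne (h x (by simp))), ih fun y hy => h y (by simp [hy])]
    rfl

lemma red_nil (k : ℕ) : red k [] = zr k := by simp [red]

lemma red_perm (k : ℕ) {v v' : List ℂ} (h : v.Perm v') : (red k v).Perm (red k v') := by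
  unfold red
  rw [h.count_eq]
  exact (h.filter _).append_right _

/-- the contents `(0^m1 ∪ EX | 0^m2 ∪ EY)` near `(0^m | 0^(b m))`, numbers `(k | b k + o)`, `-1 ≤ o ≤ 2 b` -/
structure CtOk (b m m1 m2 : ℕ) (EX EY : List ℂ) : Prop where
  le1 : m ≤ m1 + 2
  ge1 : m1 ≤ m + 2
  le2 : b * m ≤ m2 + 2 * b
  ge2 : m2 ≤ b * m + 2 * b
  len : EX.length + EY.length ≤ b + 1
  ax : ∀ x ∈ EX, Ax x
  ay : ∀ y ∈ EY, Ax y
  lo : b * (m1 + EX.length) ≤ m2 + EY.length + 1
  hi : m2 + EY.length ≤ b * (m1 + EX.length) + 2 * b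

/-- **(K)** for the function `nL` of the content -/
def KRows (nL : ℂ → List ℂ → List ℂ → ℂ) (b : ℕ) : Prop := ∀ e : ℝ, ∃ K0 : ℕ, ∀ K ≥ K0, ∃ m0 : ℕ, ∀ m ≥ m0,
  ∀ (m1 m2 : ℕ) (EX EY : List ℂ), CtOk b m m1 m2 EX EY → ∀ z : ℂ, Ax0 z →
    Kt (8 / 3) K (fun x => Ax x ∨ x = aF) ((m : ℝ) ^ (-e)) (fun x => nL z (red m1 (x :: EX)) (EY ++ zr m2)) ∧
    Kt (8 / 3) K (fun x => Ax x ∨ x = aF) ((m : ℝ) ^ (-e)) (fun y => nL z (EX ++ zr m1) (red m2 (y :: EY)))

/-- (K) at one size with the constants `K`, `ε`, for one function `n = nL z` of the content -/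
def KAt (n : List ℂ → List ℂ → ℂ) (b m K : ℕ) (ε : ℝ) : Prop :=
  ∀ (m1 m2 : ℕ) (EX EY : List ℂ), CtOk b m m1 m2 EX EY →
    Kt (8 / 3) K (fun x => Ax x ∨ x = aF) ε (fun x => n (red m1 (x :: EX)) (EY ++ zr m2)) ∧
    Kt (8 / 3) K (fun x => Ax x ∨ x = aF) ε (fun y => n (EX ++ zr m1) (red m2 (y :: EY)))

lemma KRows.at {nL : ℂ → List ℂ → List ℂ → ℂ} {b : ℕ} (h : KRows nL b) (e : ℝ) : ∃ K0 : ℕ, ∀ K ≥ K0,
    ∃ m0 : ℕ, ∀ m ≥ m0, ∀ z : ℂ, Ax0 z → KAt (nL z) b m K ((m : ℝ) ^ (-e)) := by
  obtain ⟨K0, h⟩ := h e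
  refine ⟨K0, fun K hK => ?_⟩
  obtain ⟨m0, h⟩ := h K hK
  exact ⟨m0, fun m hm z hz m1 m2 EX EY hc => h m hm m1 m2 EX EY hc z hz⟩

/-- a fixed linear combination (the modes in `z`) -/
lemma KAt.sum {ι : Type*} (s : Finset ι) (c : ι → ℂ) {n : ι → List ℂ → List ℂ → ℂ} {b m K : ℕ} {ε : ℝ}
    (h : ∀ i ∈ s, KAt (n i) b m K ε) :
    KAt (fun X Y => ∑ i ∈ s, c i * n i X Y) b m K ((∑ i ∈ s, ‖c i‖) * ε) := by
  intro m1 m2 EX EY hc
  rw [Finset.sum_mul]
  exact ⟨Kt.sum s c fun i hi => (h i hi m1 m2 EX EY hc).1, Kt.sum s c fun i hi => (h i hi m1 m2 EX EY hc).2⟩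

/-- the family of `ray_step` -/
def rayF (n : List ℂ → List ℂ → ℂ) (b m : ℕ) : ℕ → List ℂ → ℂ
  | 0, v => n (red (m - 1) (v.take 1)) (red (b * (m - 1)) (v.drop 1))
  | j + 1, v => n (zr (m - 2)) (red (b * (m - 1) - j) v)

variable {n : List ℂ → List ℂ → ℂ} {b m : ℕ}

lemma rayF_C (j : ℕ) (v : List ℂ) : rayF n b m j (aF :: v) = rayF n b m (j + 1) v := by
  obtain _ | j := j
  · simp only [rayF]
    rw [List.take_succ_cons, List.take_zero, List.drop_succ_cons, List.drop_zero, red_far, red_nil]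
    congr 1
  · simp only [rayF]
    rw [red_far]
    congr 2

/-- on the diagonal -/
lemma rayF_W {x : ℂ} (hx : Ax x) : rayF n b m 0 (List.replicate (b + 1) x) =
    n (x :: zr (m - 1)) (List.replicate b x ++ zr (b * (m - 1))) := by
  simp only [rayF]
  rw [List.replicate_succ, List.take_succ_cons, List.take_zero, List.drop_succ_cons, List.drop_zero,
    red_near _ (by simpa using hx), red_near _ fun y hy => by rw [List.eq_of_mem_replicate hy]; exact hx]
  rfl

/-- the content after the elimination of all rows -/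
lemma rayF_end (hm : 2 ≤ m) : rayF n b m (b + 1) [] = n (zr (m - 2)) (zr (b * (m - 2))) := by
  simp only [rayF]
  rw [red_nil]
  congr 2
  obtain ⟨k, rfl⟩ := Nat.exists_eq_add_of_le hm
  rw [show 2 + k - 1 = k + 1 by omega, show 2 + k - 2 = k by omega, mul_add, mul_one, Nat.add_sub_cancel]

lemma rayF_K0 {K : ℕ} {ε : ℝ} (hm : 2 ≤ m) (hp : ∀ X X' Y Y', X.Perm X' → Y.Perm Y' → n X Y = n X' Y')
    (h : KAt n b m K ε) (u v : List ℂ) (huv : u.length + 1 + v.length = b + 1) (hu : ∀ x ∈ u, Ax x)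
    (hv : ∀ x ∈ v, Ax x) :
    Kt (8 / 3) K (fun x => Ax x ∨ x = aF) ε fun x => rayF n b m 0 (u ++ x :: v) := by
  have hbm : b * (m - 1) + b = b * m := by
    obtain ⟨k, rfl⟩ := Nat.exists_eq_add_of_le hm
    rw [show 2 + k - 1 = k + 1 by omega]
    ring
  obtain _ | ⟨x0, u⟩ := u
  · have := (h (m - 1) (b * (m - 1)) [] v ⟨by omega, by omega, by omega, by omega, by
      simp only [List.length_nil] at huv ⊢
      omega, by simp, hv, by
      simp only [List.length_nil, add_zero] at huv ⊢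
      omega, by
      simp only [List.length_nil, add_zero] at huv ⊢
      omega⟩).1
    simp only [rayF, List.nil_append]
    simp only [List.take_succ_cons, List.take_zero, List.drop_succ_cons, List.drop_zero]
    rw [red_near _ hv]
    exact this
  · have hx0 : Ax x0 := hu x0 (by simp)
    have hu' : ∀ x ∈ u ++ v, Ax x := by
      intro x hx
      rcases List.mem_append.1 hx with hx | hx
      · exact hu x (by simp [hx])
      · exact hv x hx
    have hl : u.length + v.length + 1 = b := by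
      simp only [List.length_cons] at huv
      omega
    have := (h (m - 1) (b * (m - 1)) [x0] (u ++ v) ⟨by omega, by omega, by omega, by omega, by
      simp only [List.length_cons, List.length_nil, List.length_append]
      omega, by simpa using hx0, hu', by
      simp only [List.length_cons, List.length_nil, List.length_append]
      rw [show m - 1 + (0 + 1) = m by omega]
      omega, by
      simp only [List.length_cons, List.length_nil, List.length_append]
      rw [show m - 1 + (0 + 1) = m by omega]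
      omega⟩).2
    obtain ⟨p, hpd, hpp⟩ := this
    refine ⟨p, hpd, fun y hy => ?_⟩
    have e : rayF n b m 0 (x0 :: u ++ y :: v) = n ([x0] ++ zr (m - 1)) (red (b * (m - 1)) (y :: (u ++ v))) := by
      simp only [rayF, List.cons_append]
      rw [List.take_succ_cons, List.take_zero, List.drop_succ_cons, List.drop_zero,
        red_near _ (by simpa using hx0)]
      exact hp _ _ _ _ (List.Perm.refl _) (red_perm _ List.perm_middle)
    show ‖rayF n b m 0 (x0 :: u ++ y :: v) - _‖ ≤ ε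
    rw [e]
    exact hpp y hy

lemma rayF_Kj {K : ℕ} {ε : ℝ} (hm : 2 ≤ m) (hp : ∀ X X' Y Y', X.Perm X' → Y.Perm Y' → n X Y = n X' Y')
    (h : KAt n b m K ε) (j : ℕ) (hj : j < b + 1) (v : List ℂ) (hv : v.length = b + 1 - j - 1)
    (hvA : ∀ x ∈ v, Ax x) :
    Kt (8 / 3) K (fun x => Ax x ∨ x = aF) ε fun x => rayF n b m j (x :: v) := by
  have hbm : b * (m - 1) + b = b * m := by
    obtain ⟨k, rfl⟩ := Nat.exists_eq_add_of_le hm
    rw [show 2 + k - 1 = k + 1 by omega]
    ring
  obtain _ | j := j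
  · have := rayF_K0 hm hp h [] v (by simp; omega) (by simp) hvA
    simpa using this
  · simp only [rayF]
    have hbm2 : b * (m - 2) + b = b * (m - 1) := by
      obtain ⟨k, rfl⟩ := Nat.exists_eq_add_of_le hm
      rw [show 2 + k - 1 = k + 1 by omega, show 2 + k - 2 = k by omega]
      ring
    have := (h (m - 2) (b * (m - 1) - j) [] v ⟨by omega, by omega, by omega, by omega, by
      simp only [List.length_nil]
      omega, by simp, hvA, by
      simp only [List.length_nil, add_zero]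
      omega, by
      simp only [List.length_nil, add_zero]
      omega⟩).2
    simpa using this

/-- **the ray step for the contents** -/
theorem ray_rows (b K : ℕ) : ∃ C : ℝ, ∀ (n : List ℂ → List ℂ → ℂ) (m : ℕ) (ε : ℝ) (p : ℂ[X]), 2 ≤ m → 0 ≤ ε →
    (∀ X X' Y Y', X.Perm X' → Y.Perm Y' → n X Y = n X' Y') → KAt n b m K ε →
    p.degree < (2 * ((b + 1) * K) + 1 : ℕ) →
    (∀ x, Ax0 x → ‖n (x :: zr (m - 1)) (List.replicate b x ++ zr (b * (m - 1))) -
      p.eval (ez (8 / 3) x) / ez (8 / 3) x ^ ((b + 1) * K)‖ ≤ ε) →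
    ‖n (zr (m - 2)) (zr (b * (m - 2))) - p.eval (ez (8 / 3) aF) / ez (8 / 3) aF ^ ((b + 1) * K)‖ ≤ C * ε := by
  obtain ⟨C, hC⟩ := ray_step (w := 8 / 3) (by norm_num) aF K (b + 1)
  refine ⟨C, fun n m ε p hm hε hp h hpd hW => ?_⟩
  have := hC ε (rayF n b m) p hε hpd (rayF_K0 hm hp h) (rayF_Kj hm hp h) (fun j _ v _ _ => rayF_C j v)
    (fun x hx => by rw [rayF_W hx.ax]; exact hW x hx)
  rwa [rayF_end hm] at this

/-- `ez (8/3) (3 l) = -1` -/
lemma ez_aF : ez (8 / 3) aF = -1 := by
  unfold ez aF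
  rw [show I * ((8 / 3 : ℝ) : ℂ) * ((3 * (Real.pi / 8) : ℝ) : ℂ) = Real.pi * I by push_cast; ring]
  exact Complex.exp_pi_mul_I

end Pool.Agent.PLX

end
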