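import Pool.Agent.PLX.Ns
import Pool.Agent.PLX.PB.Geo
import Pool.Agent.PLX.NUGC.QC3
import Pool.Agent.PLX.NUGC.AsmC
import Pool.Agent.PLX.NUGC.CurEx
import Pool.Agent.NUGC.QC1
import Pool.Agent.PLX.Ends

/-!
# (K): groups of spectators at every height, the pair of a unit charge, uniform constants by selection

The parts of the class theorem of (K) which do not see the kinds of the objects.

* `GrpR`: the hypotheses on the groups, the numbers and the far factors;
* `pK b h`: the pair of groups of a unit charge at the height `h` (species X first; `b = true`: the half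
  quantum of species X is bare, charge `+ 1`; `b = false`: charge `- 1`); **`grpR_pK`**: its price is at
  most `Q m ^ 3` for `|h| ≤ (2 / 3) log m`; `grpR_zero`: no group; `gnF_pK`, `gnF_zero`: the gain is
  nonnegative;
* `unif_sel`, `Geo.sel`: constants uniform in a family of geometries, if every selection `m ↦ G (i m)`
  of the family has the bound.
-/

set_option autoImplicit false
set_option linter.unusedSectionVars false

noncomputable section

open MeasureTheory Finset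

open PLX (Fil Ends)

namespace PBO.PLX

open NUGC NUGC.PLX
open NUO NUP1
open NUSea.PLX.H0 (Gd IG TG cstF)
open NUSp (qc)

/-- **uniform constants by selection**: if for every selection `m ↦ i m` of the family the bound holds
with some constants, then it holds with common constants -/
theorem unif_sel {ι α : Type*} [Nonempty ι] (R : ℝ → α → Prop)
    (hR : ∀ κ κ' p, κ ≤ κ' → R κ p → R κ' p) (P : ι → α → ℕ → ℝ → Prop)
    (hP : ∀ i p m C C', C ≤ C' → P i p m C → P i p m C')
    (h : ∀ i : ℕ → ι, ∃ κ0 : ℝ, 0 < κ0 ∧ ∀ p, R κ0 p → ∃ C : ℝ, 0 ≤ C ∧ ∃ m0 : ℕ, ∀ m ≥ m0,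
      P (i m) p m C) :
    ∃ κ0 : ℝ, 0 < κ0 ∧ ∀ p, R κ0 p → ∃ C : ℝ, 0 ≤ C ∧ ∃ m0 : ℕ, ∀ m ≥ m0, ∀ i, P i p m C := by
  classical
  by_contra hne
  push Not at hne
  choose p hp hbad using fun n : ℕ => hne (1 / ((n : ℝ) + 1)) (by positivity)
  obtain ⟨s, hs, hs2⟩ := Filter.extraction_forall_of_frequently
    (P := fun (t m : ℕ) => t.unpair.2 ≤ m ∧ ∃ i, ¬P i (p t.unpair.1) m t.unpair.2) (fun t => by
      rw [Filter.frequently_atTop]
      intro a
      obtain ⟨m, hm, i, hi⟩ := hbad t.unpair.1 t.unpair.2 (Nat.cast_nonneg _) (max a t.unpair.2)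
      exact ⟨m, (le_max_left _ _).trans hm, (le_max_right _ _).trans hm, i, hi⟩)
  choose hs3 I hI using hs2
  obtain ⟨κ0, hκ0, h⟩ := h fun m => if hm : ∃ t, s t = m then I hm.choose else Classical.arbitrary ι
  obtain ⟨n, hn⟩ := exists_nat_one_div_lt hκ0
  obtain ⟨C, hC, m0, h⟩ := h (p n) (hR _ _ _ hn.le (hp n))
  obtain ⟨k, hk⟩ := exists_nat_ge C
  set t := Nat.pair n (max k m0) with ht
  have h1 : t.unpair.1 = n := by rw [ht, Nat.unpair_pair]
  have h2 : t.unpair.2 = max k m0 := by rw [ht, Nat.unpair_pair]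
  have h3 := hs3 t
  rw [h2] at h3
  have h4 := hI t
  rw [h1, h2] at h4
  have h5 := h (s t) ((le_max_right _ _).trans h3)
  have hex : ∃ t', s t' = s t := ⟨t, rfl⟩
  have h6 : hex.choose = t := hs.injective hex.choose_spec
  simp only [dif_pos hex, h6] at h5
  refine h4 (hP _ _ _ _ _ ?_ h5)
  refine hk.trans ?_
  exact_mod_cast le_max_left _ _

/-- the geometry which has the data of `G (i m)` at size `m` -/
def Geo.sel {ι : Type*} (G : ι → Geo) (i : ℕ → ι) : Geo where
  B m := (G (i m)).B m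
  one m := (G (i m)).one m
  EM m := (G (i m)).EM m
  MF m := (G (i m)).MF m

/-- the pair of groups of a unit charge at the height `h`; `b = true`: the half quantum of species X bare -/
def pK (b : Bool) (h : ℝ) : Fin 2 → Gd :=
  ![⟨if b then .w else .p, true, true, h⟩, ⟨if b then .p else .w, true, false, h⟩]

theorem pK_τ (b : Bool) (h : ℝ) (i : Fin 2) : (pK b h i).τ = h := by
  fin_cases i <;> rfl

theorem pK_c (b : Bool) (h : ℝ) (i : Fin 2) : (pK b h i).c = .w ∨ (pK b h i).c = .p := by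
  fin_cases i <;> cases b <;> simp [pK]

theorem pK_sum (b : Bool) (h : ℝ) :
    ∑ i, NUC43.sg (pK b h i).σ * qc (pK b h i).c / 2 = if b then 1 else -1 := by
  rw [Fin.sum_univ_two]
  cases b <;> norm_num [pK, qc, NUC43.sg]

theorem MQ_le_one {T : ℝ} (hT : 0 ≤ T) (z : ℝ × ℝ) : MQ T z ≤ 1 := by
  have hx : ∀ t, 0 ≤ xs T t := fun t => le_max_right _ _
  unfold MQ
  split_ifs
  · unfold QI0
    rw [Real.exp_le_one_iff]
    have h1 := abs_nonneg z.1
    have h2 := abs_nonneg z.2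
    have h3 := abs_nonneg (z.1 - z.2)
    linarith
  · unfold MJ
    rw [Real.exp_le_one_iff]
    have h1 := hx z.1
    have h2 := hx z.2
    linarith

/-- the price of the pair -/
theorem QX_pair {T : ℝ} (hT : 0 ≤ T) {L h : ℝ} (hh : |h| ≤ 2 / 3 * L) (q q' : ℝ) :
    QX T q q' h h ≤ Real.exp (3 * L) := by
  unfold QX
  have h1 := MQ_le_one hT (h, h)
  have h0 := MQ_nonneg T (h, h)
  have he : ∀ q, ex T q h ≤ |h| := by
    intro q
    unfold ex xs
    have := abs_nonneg h
    split_ifs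
    · exact this
    · exact max_le (by linarith) this
  have hm : max (ex T q h) (ex T q' h) ≤ |h| := max_le (he q) (he q')
  have h2 := abs_nonneg h
  calc _ ≤ Real.exp (|h| + |h| + (q * q' + 1) / 2 * |h - h| + 12 / 5 * max (ex T q h) (ex T q' h)) * 1 :=
        mul_le_mul_of_nonneg_left h1 (Real.exp_pos _).le
    _ ≤ Real.exp (3 * L) := by
        rw [mul_one, sub_self, abs_zero, mul_zero, add_zero]
        refine Real.exp_le_exp.2 ?_
        linarith

theorem TWK_nonneg {ep e1 : ℝ} (hep : 0 ≤ ep) (he1 : 0 ≤ e1) (m : ℕ) : 0 ≤ TW ep e1 m := by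
  have hL : 0 ≤ Real.log m := Real.log_natCast_nonneg m
  unfold TW Tb
  positivity

/-! ### the numbers and the groups -/

variable [Fil] [Ends]

/-- the hypotheses on the groups `g`, the numbers `aX`, `aY` of extra quanta (`aY` contains the additional
quanta `Fil.xe m`), the excess `E` and the factor `Qe` of the groups -/
structure GrpR (ep e1 : ℝ) (m : ℕ) {n : ℕ} (g : Fin n → Gd) (aX aY : ℕ) (ν E Qe : ℝ) : Prop where
  n2 : n ≤ 2
  sp : ∀ i j, i ≠ j → (g i).σ ≠ (g j).σ
  ax : aX ≤ 3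
  ay : aY ≤ Fil.xe m + 3
  ay' : Fil.xe m ≤ aY + 3
  q : (aX : ℝ) + Fil.xe m - aY = -∑ i, NUC43.sg (g i).σ * qc (g i).c / 2
  nu : |ν - m| ≤ 2
  E0 : 0 ≤ E
  hE : ∀ i, (g i).c = .w ∨ (g i).c = .d ∨ |(g i).τ| ≤ TW ep e1 m + E
  Q0 : 0 ≤ Qe
  pin : ∀ T1, TW ep e1 m + E ≤ T1 → ∃ x, 0 ≤ x ∧ (∀ i, NUSp.exc T1 (g i).τ ≤ x) ∧
    Real.exp (enQ g ((aX : ℝ) + Fil.xe m - aY) E x T1) ≤ Qe

theorem nX_le {m aX aY : ℕ} (hm : Fil.qo + 12 ≤ m) (hX : aX ≤ 3) (hY : aY ≤ Fil.xe m + 3) :
    2 * (2 * m) + (aX + aY) + 1 ≤ m * m := by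
  have h1 : 1 ≤ m := by omega
  have h2 := Fil.xe_le_qo h1
  have h3 : (Fil.qo + 12) * m ≤ m * m := Nat.mul_le_mul_right _ hm
  have h4 : (Fil.qo + 12) * m = Fil.qo * m + 12 * m := by ring
  omega

/-- **the pair of a unit charge is admissible**, its price is at most `Q m ^ 3` -/
theorem grpR_pK : ∃ Q : ℝ, 0 ≤ Q ∧ ∀ ep e1 : ℝ, 0 ≤ ep → 0 ≤ e1 → ∀ m : ℕ, 1 ≤ m → ∀ (b : Bool) (h : ℝ),
    |h| ≤ 2 / 3 * Real.log m → ∀ aX aY : ℕ, aX ≤ 2 →
    (aY : ℤ) = aX + Fil.xe m + (if b then 1 else -1) →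
    GrpR ep e1 m (pK b h) aX aY m (max (|h| - TW ep e1 m) 0) (Q * (m : ℝ) ^ 3) := by
  obtain ⟨K3, hK3, hQ2⟩ := grp_QX
  refine ⟨Real.exp K3, (Real.exp_pos _).le, fun ep e1 hep he1 m hm b h hh aX aY haX haY => ?_⟩
  have hmp : (0 : ℝ) < m := by exact_mod_cast hm
  have hT0 := TWK_nonneg hep he1 m
  have hq : (aX : ℝ) + Fil.xe m - aY = -∑ i, NUC43.sg (pK b h i).σ * qc (pK b h i).c / 2 := by
    rw [pK_sum]
    have : (aY : ℝ) = aX + Fil.xe m + (if b then 1 else -1) := by
      have h1 : ((aY : ℤ) : ℝ) = ((aX + Fil.xe m + (if b then 1 else -1) : ℤ) : ℝ) := by rw [haY]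
      push_cast at h1
      exact h1
    rw [this]
    ring
  refine ⟨le_rfl, ?_, by omega, ?_, ?_, hq, by simp, le_max_right _ _, ?_, by positivity, ?_⟩
  · intro i j hij
    fin_cases i <;> fin_cases j
    · exact absurd rfl hij
    · simp [pK]
    · simp [pK]
    · exact absurd rfl hij
  · cases b
    · simp only [Bool.false_eq_true, if_false] at haY
      omega
    · simp only [if_true] at haY
      omega
  · cases b
    · simp only [Bool.false_eq_true, if_false] at haY
      omega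
    · simp only [if_true] at haY
      omega
  · intro i
    rcases pK_c b h i with hc | hc
    · exact Or.inl hc
    · refine Or.inr (Or.inr ?_)
      rw [pK_τ]
      have := le_max_left (|h| - TW ep e1 m) 0
      linarith
  · intro T1 hT1
    have hhT : |h| ≤ T1 := by
      have := le_max_left (|h| - TW ep e1 m) 0
      linarith
    have hTT : TW ep e1 m ≤ T1 := by
      have := le_max_right (|h| - TW ep e1 m) 0
      linarith
    refine ⟨0, le_rfl, fun i => ?_, ?_⟩
    · rw [pK_τ]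
      unfold NUSp.exc
      exact max_le (by linarith) le_rfl
    have k1 := hQ2 (pK b h) rfl rfl (by
      intro i
      rcases pK_c b h i with hc | hc <;> rw [hc] <;> simp) (TW ep e1 m) T1 hT0 hTT (by
      intro i
      right
      rw [pK_τ]
      exact hhT)
    have hx : xs T1 h = 0 := by
      unfold xs
      exact max_eq_right (by linarith)
    have hexc : max (ex (TW ep e1 m) (qc (pK b h 0).c) (pK b h 0).τ)
        (ex (TW ep e1 m) (qc (pK b h 1).c) (pK b h 1).τ) = max (|h| - TW ep e1 m) 0 := by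
      have h1 : ex (TW ep e1 m) 1 h = 0 := if_pos rfl
      have h2 : ex (TW ep e1 m) (-1) h = xs (TW ep e1 m) h := if_neg (by norm_num)
      have h3 : xs (TW ep e1 m) h = max (|h| - TW ep e1 m) 0 := rfl
      have h4 : 0 ≤ max (|h| - TW ep e1 m) 0 := le_max_right _ _
      cases b
      · show max (ex (TW ep e1 m) (-1) h) (ex (TW ep e1 m) 1 h) = _
        rw [h1, h2, h3, max_eq_left h4]
      · show max (ex (TW ep e1 m) 1 h) (ex (TW ep e1 m) (-1) h) = _
        rw [h1, h2, h3, max_eq_right h4]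
    have hxx : max (xs T1 (pK b h 0).τ) (xs T1 (pK b h 1).τ) = 0 := by
      rw [pK_τ, pK_τ, hx, max_self]
    rw [hexc, hxx] at k1
    have k2 := QX_pair hT0 hh (qc (pK b h 0).c) (qc (pK b h 1).c)
    have e3 : Real.exp (3 * Real.log m) = (m : ℝ) ^ 3 := by
      rw [show (3 : ℝ) * Real.log m = ((3 : ℕ) : ℝ) * Real.log m by norm_num, Real.exp_nat_mul,
        Real.exp_log hmp]
    rw [pK_τ, pK_τ] at k1
    rw [hq]
    calc Real.exp (enQ (pK b h) (-∑ i, NUC43.sg (pK b h i).σ * qc (pK b h i).c / 2)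
          (max (|h| - TW ep e1 m) 0) 0 T1)
        ≤ Real.exp K3 * QX (TW ep e1 m) (qc (pK b h 0).c) (qc (pK b h 1).c) h h := by
          refine le_trans (le_of_eq ?_) k1
          unfold enQ
          congr 1
          ring
      _ ≤ Real.exp K3 * Real.exp (3 * Real.log m) := mul_le_mul_of_nonneg_left k2 (Real.exp_pos _).le
      _ = Real.exp K3 * (m : ℝ) ^ 3 := by rw [e3]

/-- no group -/
theorem grpR_zero {ep e1 : ℝ} {m aX aY : ℕ} (haX : aX ≤ 3) (haY : aY = aX + Fil.xe m) :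
    GrpR ep e1 m (Fin.elim0 : Fin 0 → Gd) aX aY m 0 1 := by
  have hq : (aX : ℝ) + Fil.xe m - aY = 0 := by
    rw [haY]
    push_cast
    ring
  refine ⟨by norm_num, fun i => i.elim0, haX, by omega, by omega, ?_, by simp, le_rfl, fun i => i.elim0,
    zero_le_one, fun T1 _ => ⟨0, le_rfl, fun i => i.elim0, ?_⟩⟩
  · rw [hq]
    simp
  · refine le_of_eq (Real.exp_eq_one_iff _ |>.2 ?_)
    rw [hq]
    unfold enQ
    simp [TG]

/-- the gain of the pair is nonnegative -/
theorem gnF_pK {e1 J : ℝ} {m : ℕ} (he1 : e1 ≤ 1 / 100) (hJ : 0 ≤ J) (hT : 20 ≤ Tb (Real.log m))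
    (b : Bool) (h : ℝ) : 0 ≤ gnF e1 J m (pK b h) := by
  have hl := NUMF.l_pos
  have h0 := NUGC.PLX.hC_nonneg he1 hJ hT 0
  have h1 := NUGC.PLX.hC_nonneg he1 hJ hT h
  have e : gnF e1 J m (pK b h) =
      12 * NUMF.l * NUGC.PLX.hC e1 J m 0 + 4 * NUMF.l * NUGC.PLX.hC e1 J m h := by
    unfold gnF
    rw [Fin.sum_univ_two, pK_τ, pK_τ]
    cases b
    · show _ + (2 * (phC .p * _) + 2 * (phC .w * _)) = _
      unfold phC
      ring
    · show _ + (2 * (phC .w * _) + 2 * (phC .p * _)) = _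
      unfold phC
      ring
  rw [e]
  positivity

theorem gnF_zero {e1 J : ℝ} {m : ℕ} (he1 : e1 ≤ 1 / 100) (hJ : 0 ≤ J) (hT : 20 ≤ Tb (Real.log m)) :
    0 ≤ gnF e1 J m (Fin.elim0 : Fin 0 → Gd) := by
  have hl := NUMF.l_pos
  have h0 := NUGC.PLX.hC_nonneg he1 hJ hT 0
  unfold gnF
  simp only [univ_eq_empty, sum_empty, add_zero]
  positivity

end PBO.PLX

end
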