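import Mathlib

/-! # The step of the recursion along a ray, with rows only (abstract part)

`nu34/PLAX_96`, section 2.  A function of `n` row positions is, in each variable separately, close to a
sum of `2 K + 1` exponentials `z ^ k`, `|k| ≤ K`, `z = exp (I w x)`, on the segment `I [-1, 1]` and at one
far point `a`; at `a` the row disappears (exact relation); with all rows together on the segment the
function is close to a given exponential polynomial `G` (Ward step; a constant for the zero mode).  Then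
the value after the elimination of all rows is close to `G a`. -/

namespace Pool.Agent.PLX

open Complex Polynomial

/-- the axis segment -/
def Ax (x : ℂ) : Prop := x.re = 0 ∧ |x.im| ≤ 1

/-- the exponential -/
noncomputable def ez (w : ℝ) (x : ℂ) : ℂ := Complex.exp (I * w * x)

/-- `K` terms on the set `S` up to `ε` -/
def Kt (w : ℝ) (K : ℕ) (S : ℂ → Prop) (ε : ℝ) (g : ℂ → ℂ) : Prop :=
  ∃ p : ℂ[X], p.degree < (2 * K + 1 : ℕ) ∧
    ∀ x, S x → ‖g x - p.eval (ez w x) / ez w x ^ K‖ ≤ ε

/-- nodes on the segment -/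
noncomputable def nd (D : ℕ) (r : Fin (D + 1)) : ℂ := I * ((r : ℕ) / (D + 1 : ℕ) : ℝ)

/-- the upper half of the segment -/
def Ax0 (x : ℂ) : Prop := x.re = 0 ∧ 0 ≤ x.im ∧ x.im ≤ 1

lemma Ax0.ax {x : ℂ} (h : Ax0 x) : Ax x := ⟨h.1, by rw [abs_of_nonneg h.2.1]; exact h.2.2⟩

lemma nd_ax0 (D : ℕ) (r : Fin (D + 1)) : Ax0 (nd D r) := by
  have h0 : (0 : ℝ) ≤ ((r : ℕ) / (D + 1 : ℕ) : ℝ) := by positivity
  have h1 : ((r : ℕ) / (D + 1 : ℕ) : ℝ) ≤ 1 := by
    rw [div_le_one (by positivity)]
    exact_mod_cast r.2.le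
  have e1 : (nd D r).re = 0 := by
    rw [nd, Complex.mul_re, Complex.I_re, Complex.I_im, Complex.ofReal_im]; ring
  have e2 : (nd D r).im = ((r : ℕ) / (D + 1 : ℕ) : ℝ) := by
    rw [nd, Complex.mul_im, Complex.I_re, Complex.I_im, Complex.ofReal_re, Complex.ofReal_im]; ring
  exact ⟨e1, by rw [e2]; exact h0, by rw [e2]; exact h1⟩

lemma nd_ax (D : ℕ) (r : Fin (D + 1)) : Ax (nd D r) := (nd_ax0 D r).ax

lemma ez_ne (w : ℝ) (x : ℂ) : ez w x ≠ 0 := Complex.exp_ne_zero _

lemma ez_nd_inj {w : ℝ} (hw : w ≠ 0) (D : ℕ) : Function.Injective fun r => ez w (nd D r) := by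
  intro r s h
  have e : ∀ t : Fin (D + 1), ez w (nd D t) = ((Real.exp (-(w * ((t : ℕ) / (D + 1 : ℕ) : ℝ))) : ℝ) : ℂ) := by
    intro t
    rw [Complex.ofReal_exp]
    unfold ez nd
    congr 1
    push_cast
    have := I_mul_I
    linear_combination (↑w * (↑↑t / (↑D + 1)) : ℂ) * this
  simp only [e] at h
  have h2 := Real.exp_injective (Complex.ofReal_injective h)
  have h3 : ((r : ℕ) / (D + 1 : ℕ) : ℝ) = ((s : ℕ) / (D + 1 : ℕ) : ℝ) := by
    have : w * ((r : ℕ) / (D + 1 : ℕ) : ℝ) = w * ((s : ℕ) / (D + 1 : ℕ) : ℝ) := by linarith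
    exact mul_left_cancel₀ hw this
  have h4 : ((r : ℕ) : ℝ) = ((s : ℕ) : ℝ) := by
    have hD : ((D + 1 : ℕ) : ℝ) ≠ 0 := by positivity
    field_simp at h3
    exact_mod_cast h3
  exact Fin.ext (by exact_mod_cast h4)

/-- Lagrange weights -/
noncomputable def lw (w : ℝ) (K : ℕ) (r : Fin (2 * K + 1)) (x : ℂ) : ℂ :=
  (Lagrange.basis Finset.univ (fun s => ez w (nd (2 * K) s)) r).eval (ez w x) / ez w x ^ K *
    ez w (nd (2 * K) r) ^ K

/-- exactness on `K` terms -/
lemma lw_exact {w : ℝ} (hw : w ≠ 0) {K : ℕ} {p : ℂ[X]} (hp : p.degree < (2 * K + 1 : ℕ)) (x : ℂ) :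
    p.eval (ez w x) / ez w x ^ K =
      ∑ r : Fin (2 * K + 1), lw w K r x * (p.eval (ez w (nd (2 * K) r)) / ez w (nd (2 * K) r) ^ K) := by
  have h := Lagrange.eq_interpolate (s := Finset.univ) (v := fun s => ez w (nd (2 * K) s)) (f := p)
    ((ez_nd_inj hw (2 * K)).injOn) (by simpa using hp)
  conv_lhs => rw [h]
  rw [Lagrange.interpolate_apply, eval_finsetSum, Finset.sum_div]
  refine Finset.sum_congr rfl fun r _ => ?_
  rw [eval_mul, eval_C, lw]
  have h1 : ez w (nd (2 * K) r) ^ K ≠ 0 := pow_ne_zero _ (ez_ne _ _)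
  field_simp

/-- interpolation of a `K` term function -/
lemma kt_interp {w : ℝ} (hw : w ≠ 0) {K : ℕ} {S : ℂ → Prop} {ε B : ℝ} {g : ℂ → ℂ}
    (hS : ∀ x, Ax x → S x) (hB : ∀ r x, S x → ‖lw w K r x‖ ≤ B)
    (hg : Kt w K S ε g) {x : ℂ} (hx : S x) :
    ‖g x - ∑ r : Fin (2 * K + 1), lw w K r x * g (nd (2 * K) r)‖ ≤ (1 + (2 * K + 1 : ℕ) * B) * ε := by
  obtain ⟨p, hp, hpS⟩ := hg
  have e : g x - ∑ r : Fin (2 * K + 1), lw w K r x * g (nd (2 * K) r) =
      (g x - p.eval (ez w x) / ez w x ^ K) - ∑ r : Fin (2 * K + 1), lw w K r x *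
        (g (nd (2 * K) r) - p.eval (ez w (nd (2 * K) r)) / ez w (nd (2 * K) r) ^ K) := by
    rw [lw_exact hw hp x]
    simp only [mul_sub, Finset.sum_sub_distrib]
    ring
  rw [e]
  have hε : 0 ≤ ε := (norm_nonneg _).trans (hpS x hx)
  have hB0 : 0 ≤ B := (norm_nonneg _).trans (hB 0 x hx)
  refine (norm_sub_le _ _).trans ?_
  have h2 : ‖∑ r : Fin (2 * K + 1), lw w K r x *
      (g (nd (2 * K) r) - p.eval (ez w (nd (2 * K) r)) / ez w (nd (2 * K) r) ^ K)‖ ≤
      ∑ _r : Fin (2 * K + 1), B * ε := by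
    refine norm_sum_le_of_le _ fun r _ => ?_
    rw [norm_mul]
    exact mul_le_mul (hB r x hx) (hpS _ (hS _ (nd_ax _ _))) (norm_nonneg _) hB0
  rw [Finset.sum_const, Finset.card_univ, Fintype.card_fin, nsmul_eq_mul] at h2
  have := hpS x hx
  nlinarith

/-- interpolation in all the variables of a list -/
noncomputable def J (w : ℝ) (K : ℕ) : (List ℂ → ℂ) → List ℂ → ℂ
  | f, [] => f []
  | f, x :: v => ∑ r : Fin (2 * K + 1), lw w K r x * J w K (fun v' => f (nd (2 * K) r :: v')) v

lemma J_nil (w : ℝ) (K : ℕ) (f : List ℂ → ℂ) : J w K f [] = f [] := by rw [J]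

lemma J_cons (w : ℝ) (K : ℕ) (f : List ℂ → ℂ) (x : ℂ) (v : List ℂ) :
    J w K f (x :: v) = ∑ r : Fin (2 * K + 1), lw w K r x * J w K (fun v' => f (nd (2 * K) r :: v')) v := by
  rw [J]

/-- linearity -/
lemma J_sum (w : ℝ) (K : ℕ) {ι : Type*} (s : Finset ι) (a : ι → ℂ) (f : ι → List ℂ → ℂ) (v : List ℂ) :
    J w K (fun v' => ∑ i ∈ s, a i * f i v') v = ∑ i ∈ s, a i * J w K (f i) v := by
  induction v generalizing f with
  | nil => simp [J_nil]
  | cons x v ih =>
    rw [J_cons]
    simp only [J_cons]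
    have : ∀ r : Fin (2 * K + 1), J w K (fun v' => ∑ i ∈ s, a i * f i (nd (2 * K) r :: v')) v =
        ∑ i ∈ s, a i * J w K (fun v' => f i (nd (2 * K) r :: v')) v := fun r =>
      ih fun i v' => f i (nd (2 * K) r :: v')
    simp only [this, Finset.mul_sum]
    rw [Finset.sum_comm]
    exact Finset.sum_congr rfl fun i _ => Finset.sum_congr rfl fun r _ => by ring

lemma J_sub (w : ℝ) (K : ℕ) (f g : List ℂ → ℂ) (v : List ℂ) :
    J w K (fun v' => f v' - g v') v = J w K f v - J w K g v := by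
  induction v generalizing f g with
  | nil => simp [J_nil]
  | cons x v ih =>
    rw [J_cons, J_cons, J_cons, ← Finset.sum_sub_distrib]
    exact Finset.sum_congr rfl fun r _ => by
      rw [ih (fun v' => f (nd (2 * K) r :: v')) fun v' => g (nd (2 * K) r :: v')]
      ring

/-- bound of the interpolation by the values at the nodes -/
lemma J_le {w : ℝ} {K : ℕ} {S : ℂ → Prop} {B δ : ℝ} (hB0 : 0 ≤ B)
    (hB : ∀ r x, S x → ‖lw w K r x‖ ≤ B) (f : List ℂ → ℂ) (v : List ℂ) (hv : ∀ x ∈ v, S x)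
    (hf : ∀ u : List ℂ, u.length = v.length → (∀ x ∈ u, Ax x) → ‖f u‖ ≤ δ) :
    ‖J w K f v‖ ≤ ((2 * K + 1 : ℕ) * B) ^ v.length * δ := by
  induction v generalizing f with
  | nil => simpa [J_nil] using hf [] rfl (by simp)
  | cons x v ih =>
    rw [J_cons]
    have h1 : ∀ r : Fin (2 * K + 1), ‖lw w K r x * J w K (fun v' => f (nd (2 * K) r :: v')) v‖ ≤
        B * (((2 * K + 1 : ℕ) * B) ^ v.length * δ) := by
      intro r
      rw [norm_mul]
      refine mul_le_mul (hB r x (hv x (by simp))) ?_ (norm_nonneg _) hB0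
      refine ih _ (fun y hy => hv y (by simp [hy])) fun u hu hu' => ?_
      refine hf _ (by simp [hu]) ?_
      intro y hy
      rcases List.mem_cons.1 hy with rfl | hy
      · exact nd_ax _ _
      · exact hu' y hy
    refine (norm_sum_le_of_le _ fun r _ => h1 r).trans ?_
    rw [Finset.sum_const, Finset.card_univ, Fintype.card_fin, nsmul_eq_mul, List.length_cons, pow_succ]
    nlinarith [pow_nonneg (mul_nonneg (Nat.cast_nonneg (2 * K + 1)) hB0 : (0:ℝ) ≤ (2 * K + 1 : ℕ) * B) v.length]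

/-- close to the interpolation, if `K` terms in each variable -/
lemma J_near {w : ℝ} (hw : w ≠ 0) {K : ℕ} {S : ℂ → Prop} {B : ℝ} (hS : ∀ x, Ax x → S x)
    (hB0 : 0 ≤ B) (hB : ∀ r x, S x → ‖lw w K r x‖ ≤ B) (n : ℕ) :
    ∃ C : ℝ, 0 ≤ C ∧ ∀ (ε : ℝ), 0 ≤ ε → ∀ f : List ℂ → ℂ,
      (∀ u v : List ℂ, u.length + 1 + v.length = n → (∀ x ∈ u, Ax x) → (∀ x ∈ v, Ax x) →
        Kt w K S ε fun x => f (u ++ x :: v)) →
      ∀ v : List ℂ, v.length = n → (∀ x ∈ v, Ax x) → ‖f v - J w K f v‖ ≤ C * ε := by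
  induction n with
  | zero =>
    refine ⟨0, le_rfl, fun ε _ f _ v hv _ => ?_⟩
    rw [List.length_eq_zero_iff.1 hv, J_nil]
    simp
  | succ n ih =>
    obtain ⟨C, hC0, hC⟩ := ih
    refine ⟨(1 + (2 * K + 1 : ℕ) * B) + (2 * K + 1 : ℕ) * (B * C), by positivity, ?_⟩
    intro ε hε f hf v hv hvA
    obtain _ | ⟨x, v⟩ := v
    · simp at hv
    have hvl : v.length = n := by simpa using hv
    have hx : Ax x := hvA x (by simp)
    have hv' : ∀ y ∈ v, Ax y := fun y hy => hvA y (by simp [hy])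
    have h1 := kt_interp hw hS hB (hf [] v (by simp [hvl]; omega) (by simp) hv') (hS x hx)
    simp only [List.nil_append] at h1
    rw [J_cons]
    have h2 : ‖(∑ r : Fin (2 * K + 1), lw w K r x * f (nd (2 * K) r :: v)) -
        ∑ r : Fin (2 * K + 1), lw w K r x * J w K (fun v' => f (nd (2 * K) r :: v')) v‖ ≤
        (2 * K + 1 : ℕ) * (B * (C * ε)) := by
      rw [← Finset.sum_sub_distrib]
      have : ∀ r : Fin (2 * K + 1), ‖lw w K r x * f (nd (2 * K) r :: v) -
          lw w K r x * J w K (fun v' => f (nd (2 * K) r :: v')) v‖ ≤ B * (C * ε) := by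
        intro r
        rw [← mul_sub, norm_mul]
        refine mul_le_mul (hB r x (hS x hx)) ?_ (norm_nonneg _) hB0
        refine hC ε hε (fun v' => f (nd (2 * K) r :: v')) ?_ v hvl hv'
        intro u v' huv hu hv''
        have := hf (nd (2 * K) r :: u) v' (by simp; omega) (by
          intro y hy
          rcases List.mem_cons.1 hy with rfl | hy
          · exact nd_ax _ _
          · exact hu y hy) hv''
        simpa using this
      refine (norm_sum_le_of_le _ fun r _ => this r).trans ?_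
      rw [Finset.sum_const, Finset.card_univ, Fintype.card_fin, nsmul_eq_mul]
    calc ‖f (x :: v) - ∑ r : Fin (2 * K + 1), lw w K r x * J w K (fun v' => f (nd (2 * K) r :: v')) v‖
        ≤ ‖f (x :: v) - ∑ r : Fin (2 * K + 1), lw w K r x * f (nd (2 * K) r :: v)‖ +
          ‖(∑ r : Fin (2 * K + 1), lw w K r x * f (nd (2 * K) r :: v)) -
            ∑ r : Fin (2 * K + 1), lw w K r x * J w K (fun v' => f (nd (2 * K) r :: v')) v‖ := by
          refine (le_of_eq ?_).trans (norm_add_le _ _)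
          congr 1; ring
      _ ≤ (1 + (2 * K + 1 : ℕ) * B) * ε + (2 * K + 1 : ℕ) * (B * (C * ε)) := add_le_add h1 h2
      _ = _ := by ring

/-- on the diagonal the interpolation is a function with `n K` terms -/
lemma J_diag {w : ℝ} (K n : ℕ) (f : List ℂ → ℂ) :
    ∃ q : ℂ[X], q.degree < (2 * (n * K) + 1 : ℕ) ∧
      ∀ x, J w K f (List.replicate n x) = q.eval (ez w x) / ez w x ^ (n * K) := by
  induction n generalizing f with
  | zero =>
    refine ⟨C (f []), ?_, fun x => by simp [J_nil]⟩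
    exact lt_of_le_of_lt degree_C_le (by norm_num)
  | succ n ih =>
    choose q hq hqe using fun r : Fin (2 * K + 1) => ih fun v' => f (nd (2 * K) r :: v')
    refine ⟨∑ r : Fin (2 * K + 1), C (ez w (nd (2 * K) r) ^ K) *
      (Lagrange.basis Finset.univ (fun s => ez w (nd (2 * K) s)) r * q r), ?_, ?_⟩
    · refine lt_of_le_of_lt (degree_sum_le _ _) ?_
      rw [Finset.sup_lt_iff (by exact_mod_cast WithBot.bot_lt_coe _)]
      intro r _
      refine lt_of_le_of_lt (degree_mul_le _ _) ?_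
      have h1 : (C (ez w (nd (2 * K) r) ^ K)).degree ≤ 0 := degree_C_le
      have h2 : (Lagrange.basis Finset.univ (fun s => ez w (nd (2 * K) s)) r).natDegree ≤ 2 * K := by
        unfold Lagrange.basis
        refine (natDegree_prod_le _ _).trans ?_
        refine (Finset.sum_le_sum (g := fun _ => 1) fun s _ => ?_).trans ?_
        · unfold Lagrange.basisDivisor
          refine natDegree_mul_le.trans ?_
          simp
        · simp
      have h3 : (q r).natDegree ≤ 2 * (n * K) := by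
        by_cases h0 : q r = 0
        · simp [h0]
        · have := hq r
          rw [degree_eq_natDegree h0] at this
          have := WithBot.coe_lt_coe.1 this
          exact Nat.lt_succ_iff.1 (by exact_mod_cast this)
      have h4 : (Lagrange.basis Finset.univ (fun s => ez w (nd (2 * K) s)) r * q r).natDegree ≤
          2 * K + 2 * (n * K) := natDegree_mul_le.trans (add_le_add h2 h3)
      refine lt_of_le_of_lt (add_le_add h1 (degree_le_of_natDegree_le h4)) ?_
      rw [zero_add]
      norm_cast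
      rw [add_mul]
      omega
    · intro x
      rw [List.replicate_succ, J_cons, eval_finsetSum, Finset.sum_div]
      refine Finset.sum_congr rfl fun r _ => ?_
      rw [hqe, lw, eval_mul, eval_C, eval_mul]
      have h1 : ez w x ≠ 0 := ez_ne _ _
      rw [add_mul, one_mul, pow_add]
      field_simp

/-- **The step.**  `F j v` : content after the elimination of `j` rows, the remaining `n - j` rows at `v`. -/
theorem ray_step {w : ℝ} (hw : w ≠ 0) (a : ℂ) (K n : ℕ) :
    ∃ C : ℝ, ∀ (ε : ℝ) (F : ℕ → List ℂ → ℂ) (p : ℂ[X]), 0 ≤ ε → p.degree < (2 * (n * K) + 1 : ℕ) →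
      (∀ u v : List ℂ, u.length + 1 + v.length = n → (∀ x ∈ u, Ax x) → (∀ x ∈ v, Ax x) →
        Kt w K (fun x => Ax x ∨ x = a) ε fun x => F 0 (u ++ x :: v)) →
      (∀ j, j < n → ∀ v : List ℂ, v.length = n - j - 1 → (∀ x ∈ v, Ax x) →
        Kt w K (fun x => Ax x ∨ x = a) ε fun x => F j (x :: v)) →
      (∀ j, j < n → ∀ v : List ℂ, v.length = n - j - 1 → (∀ x ∈ v, Ax x) →
        F j (a :: v) = F (j + 1) v) →
      (∀ x, Ax0 x → ‖F 0 (List.replicate n x) - p.eval (ez w x) / ez w x ^ (n * K)‖ ≤ ε) →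
      ‖F n [] - p.eval (ez w a) / ez w a ^ (n * K)‖ ≤ C * ε := by
  -- bound of the weights
  have hAxB : ∀ (L : ℕ), ∃ B : ℝ, 0 ≤ B ∧ ∀ r x, (Ax x ∨ x = a) → ‖lw w L r x‖ ≤ B := by
    intro L
    have hcont : ∀ r, Continuous fun x => lw w L r x := by
      intro r
      unfold lw
      refine ((((Polynomial.continuous _).comp ?_).div ?_ fun x => pow_ne_zero _ (ez_ne _ _))).mul
        continuous_const
      · unfold ez; fun_prop
      · unfold ez; fun_prop
    have hcomp : IsCompact {x : ℂ | Ax x ∨ x = a} := by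
      have h1 : {x : ℂ | Ax x ∨ x = a} = (fun t : ℝ => (t : ℂ) * I) '' Set.Icc (-1) 1 ∪ {a} := by
        ext x
        simp only [Set.mem_ofPred_eq, Set.mem_union, Set.mem_image, Set.mem_Icc, Set.mem_singleton_iff]
        refine or_congr ?_ Iff.rfl
        constructor
        · intro h
          refine ⟨x.im, abs_le.1 h.2, ?_⟩
          apply Complex.ext <;> simp [h.1]
        · rintro ⟨t, ht, rfl⟩
          refine ⟨by simp, ?_⟩
          simpa using abs_le.2 ht
      rw [h1]
      refine IsCompact.union (isCompact_Icc.image (by fun_prop)) isCompact_singleton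
    choose b hb using fun r => hcomp.exists_bound_of_continuousOn (hcont r).continuousOn
    refine ⟨∑ r, |b r|, Finset.sum_nonneg fun r _ => abs_nonneg _, fun r x hx => ?_⟩
    exact ((hb r x hx).trans (le_abs_self _)).trans
      (Finset.single_le_sum (f := fun r => |b r|) (fun r _ => abs_nonneg _) (Finset.mem_univ r))
  obtain ⟨B, hB0, hB⟩ := hAxB K
  obtain ⟨B2, hB20, hB2⟩ := hAxB (n * K)
  set S : ℂ → Prop := fun x => Ax x ∨ x = a with hSdef
  have hS : ∀ x, Ax x → S x := fun x hx => Or.inl hx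
  -- `E m` : constants of the elimination
  set A1 : ℝ := 1 + (2 * K + 1 : ℕ) * B with hA1
  set A2 : ℝ := (2 * K + 1 : ℕ) * B with hA2
  have hA1p : 0 ≤ A1 := by positivity
  have hA2p : 0 ≤ A2 := by positivity
  obtain ⟨Cn, hCn0, hCn⟩ := J_near hw (S := S) hS hB0 hB n
  refine ⟨(∑ m ∈ Finset.range n, A2 ^ m * A1) + (2 * (n * K) + 1 : ℕ) * (B2 * (Cn + 1)), ?_⟩
  intro ε F p hε hp hK0 hKj hC hW
  -- elimination
  have hel : ∀ m, m ≤ n → ‖F n [] - J w K (F (n - m)) (List.replicate m a)‖ ≤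
      (∑ i ∈ Finset.range m, A2 ^ i * A1) * ε := by
    intro m
    induction m with
    | zero => intro _; simp [J_nil]
    | succ m ih =>
      intro hm
      have ih' := ih (by omega)
      have hj : n - (m + 1) < n := by omega
      have hj1 : n - m = n - (m + 1) + 1 := by omega
      have hd : ‖J w K (F (n - m)) (List.replicate m a) -
          J w K (F (n - (m + 1))) (List.replicate (m + 1) a)‖ ≤ A2 ^ m * (A1 * ε) := by
        rw [List.replicate_succ, J_cons, ← J_sum, ← J_sub]
        have := J_le (w := w) (K := K) (S := S) (B := B) (δ := A1 * ε) hB0 hB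
          (fun v' => F (n - m) v' - ∑ r : Fin (2 * K + 1), lw w K r a * F (n - (m + 1)) (nd (2 * K) r :: v'))
          (List.replicate m a) (fun x hx => Or.inr (List.eq_of_mem_replicate hx)) (by
            intro u hu huA
            rw [List.length_replicate] at hu
            have hul : u.length = n - (n - (m + 1)) - 1 := by omega
            have e1 : F (n - m) u = F (n - (m + 1)) (a :: u) := by
              rw [hC _ hj u hul huA, ← hj1]
            rw [e1]
            exact kt_interp hw hS hB (hKj _ hj u hul huA) (Or.inr rfl))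
        rw [List.length_replicate] at this
        exact this
      calc ‖F n [] - J w K (F (n - (m + 1))) (List.replicate (m + 1) a)‖
          ≤ ‖F n [] - J w K (F (n - m)) (List.replicate m a)‖ +
            ‖J w K (F (n - m)) (List.replicate m a) -
              J w K (F (n - (m + 1))) (List.replicate (m + 1) a)‖ := by
            refine (le_of_eq ?_).trans (norm_add_le _ _)
            congr 1; ring
        _ ≤ (∑ i ∈ Finset.range m, A2 ^ i * A1) * ε + A2 ^ m * (A1 * ε) := add_le_add ih' hd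
        _ = _ := by rw [Finset.sum_range_succ]; ring
  have h1 := hel n le_rfl
  rw [Nat.sub_self] at h1
  -- the diagonal
  obtain ⟨q, hq, hqe⟩ := J_diag (w := w) K n (F 0)
  have h2 : J w K (F 0) (List.replicate n a) - p.eval (ez w a) / ez w a ^ (n * K) =
      ∑ r : Fin (2 * (n * K) + 1), lw w (n * K) r a *
        (J w K (F 0) (List.replicate n (nd (2 * (n * K)) r)) -
          p.eval (ez w (nd (2 * (n * K)) r)) / ez w (nd (2 * (n * K)) r) ^ (n * K)) := by
    have e1 := lw_exact hw hq a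
    have e2 := lw_exact hw (K := n * K) hp a
    simp only [mul_sub, Finset.sum_sub_distrib]
    rw [hqe a, e1, e2]
    simp only [hqe]
  have h3 : ‖J w K (F 0) (List.replicate n a) - p.eval (ez w a) / ez w a ^ (n * K)‖ ≤
      (2 * (n * K) + 1 : ℕ) * (B2 * ((Cn + 1) * ε)) := by
    rw [h2]
    have : ∀ r : Fin (2 * (n * K) + 1), ‖lw w (n * K) r a *
        (J w K (F 0) (List.replicate n (nd (2 * (n * K)) r)) -
          p.eval (ez w (nd (2 * (n * K)) r)) / ez w (nd (2 * (n * K)) r) ^ (n * K))‖ ≤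
        B2 * ((Cn + 1) * ε) := by
      intro r
      rw [norm_mul]
      refine mul_le_mul (hB2 r a (Or.inr rfl)) ?_ (norm_nonneg _) hB20
      have hx := nd_ax (2 * (n * K)) r
      have h5 := hCn ε hε (F 0) hK0 (List.replicate n (nd (2 * (n * K)) r)) (by simp)
        (fun y hy => by rw [List.eq_of_mem_replicate hy]; exact hx)
      have h6 := hW _ (nd_ax0 (2 * (n * K)) r)
      calc ‖J w K (F 0) (List.replicate n (nd (2 * (n * K)) r)) -
          p.eval (ez w (nd (2 * (n * K)) r)) / ez w (nd (2 * (n * K)) r) ^ (n * K)‖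
          = ‖(F 0 (List.replicate n (nd (2 * (n * K)) r)) -
            p.eval (ez w (nd (2 * (n * K)) r)) / ez w (nd (2 * (n * K)) r) ^ (n * K)) -
            (F 0 (List.replicate n (nd (2 * (n * K)) r)) -
              J w K (F 0) (List.replicate n (nd (2 * (n * K)) r)))‖ := by congr 1; ring
        _ ≤ ε + Cn * ε := (norm_sub_le _ _).trans (add_le_add h6 h5)
        _ = _ := by ring
    refine (norm_sum_le_of_le _ fun r _ => this r).trans ?_
    rw [Finset.sum_const, Finset.card_univ, Fintype.card_fin, nsmul_eq_mul]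
  calc ‖F n [] - p.eval (ez w a) / ez w a ^ (n * K)‖
      ≤ ‖F n [] - J w K (F 0) (List.replicate n a)‖ +
        ‖J w K (F 0) (List.replicate n a) - p.eval (ez w a) / ez w a ^ (n * K)‖ := by
        refine (le_of_eq ?_).trans (norm_add_le _ _)
        congr 1; ring
    _ ≤ (∑ m ∈ Finset.range n, A2 ^ m * A1) * ε +
        (2 * (n * K) + 1 : ℕ) * (B2 * ((Cn + 1) * ε)) := add_le_add h1 h3
    _ = _ := by ring

/-- a fixed linear combination of `K` term functions -/
lemma Kt.sum {w : ℝ} {K : ℕ} {S : ℂ → Prop} {ι : Type*} (s : Finset ι) (c : ι → ℂ) {ε : ι → ℝ}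
    {g : ι → ℂ → ℂ} (h : ∀ i ∈ s, Kt w K S (ε i) (g i)) :
    Kt w K S (∑ i ∈ s, ‖c i‖ * ε i) fun x => ∑ i ∈ s, c i * g i x := by
  classical
  choose! p hp hpe using h
  refine ⟨∑ i ∈ s, C (c i) * p i, ?_, fun x hx => ?_⟩
  · refine lt_of_le_of_lt (degree_sum_le _ _) ?_
    rw [Finset.sup_lt_iff (by exact_mod_cast WithBot.bot_lt_coe _)]
    intro i hi
    refine lt_of_le_of_lt (degree_mul_le _ _) ?_
    refine lt_of_le_of_lt (add_le_add degree_C_le le_rfl) ?_
    rw [zero_add]
    exact hp i hi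
  · rw [eval_finsetSum, Finset.sum_div, ← Finset.sum_sub_distrib]
    refine norm_sum_le_of_le _ fun i hi => ?_
    rw [eval_mul, eval_C, mul_div_assoc, ← mul_sub, norm_mul]
    exact mul_le_mul_of_nonneg_left (hpe i hi x hx) (norm_nonneg _)

end Pool.Agent.PLX
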