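import Pool.Agent.ISR.Join91
import Pool.Agent.PLX.RayStep

/-! # PLX, block K6 (helper91): crude bounds, formula of the far zone, zeros at the rows => `Kt`

`WideP C Cp E N f` (`ISR.Wide` with the numbers of `nu34/PLAX_96`, `l = π / 8`): the function `f` of the position of one row of
one group is
* up to a factor without zeros a trigonometric polynomial of degree `≤ Cp N` on `|Re x| < 4 l`,
* `≤ N^C` for `|Re x| ≤ l / 2` and for `11 l / 5 ≤ |Re x| ≤ 16 l / 5`, heights `≤ log N / 4` (two thirds of the window),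
* `J₊ (x - 3 l)`, `J₋ (x + 3 l)` in the far zone up to `N^{-E}`, heights `≤ log N / 40`,
* `J₊ - J₋` is `≤ N^C` and has `≥ N / 2` zeros in `|Re y| ≤ l / 10, |Im y| ≤ 1`; box `|Re y| ≤ l / 2, |Im y| ≤ log N / 30 + 1`.

`kSix` : `Kt (8 / 3) K {|Re x| ≤ 3 l, |Im x| ≤ 1} (N^{-e}) f` for every `e < E`. -/

set_option autoImplicit false

open Complex Set Polynomial
open Pool.Agent.PB.Rec (EL)

noncomputable section

namespace Pool.Agent.PLX

/-- a sum of exponentials as a value of a polynomial -/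
lemma EL_poly (w : ℝ) (K : ℕ) (a : ℤ → ℂ) : ∃ p : ℂ[X], p.degree < (2 * K + 1 : ℕ) ∧
    ∀ z, EL w K a z = p.eval (ez w z) / ez w z ^ K := by
  refine ⟨∑ j ∈ Finset.range (2 * K + 1), Polynomial.C (a ((j : ℤ) - K)) * X ^ j, ?_, fun z => ?_⟩
  · refine lt_of_le_of_lt (degree_sum_le _ _) ?_
    rw [Finset.sup_lt_iff (WithBot.bot_lt_coe _)]
    intro j hj
    rw [Finset.mem_range] at hj
    refine lt_of_le_of_lt (degree_C_mul_X_pow_le _ _) ?_
    exact_mod_cast hj
  · have hz : ez w z ≠ 0 := ez_ne w z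
    rw [eq_div_iff (pow_ne_zero _ hz), eval_finsetSum]
    unfold EL
    rw [Finset.sum_mul]
    refine Finset.sum_bij' (fun k _ => (k + K).toNat) (fun j _ => (j : ℤ) - K) ?_ ?_ ?_ ?_ ?_
    · intro k hk
      rw [Finset.mem_Icc] at hk
      rw [Finset.mem_range]
      omega
    · intro j hj
      rw [Finset.mem_range] at hj
      rw [Finset.mem_Icc]
      omega
    · intro k hk
      rw [Finset.mem_Icc] at hk
      have : 0 ≤ k + (K : ℤ) := by omega
      rw [Int.toNat_of_nonneg this]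
      ring
    · intro j _
      have : (j : ℤ) - K + K = j := by ring
      rw [this, Int.toNat_natCast]
    · intro k hk
      rw [Finset.mem_Icc] at hk
      have h0 : 0 ≤ k + (K : ℤ) := by omega
      have h1 : (((k + K).toNat : ℕ) : ℤ) - K = k := by
        rw [Int.toNat_of_nonneg h0]
        ring
      have h2 : (((k + K).toNat : ℕ) : ℂ) = (k : ℂ) + K := by
        have : (((k + K).toNat : ℤ) : ℂ) = ((k + K : ℤ) : ℂ) := by rw [Int.toNat_of_nonneg h0]
        push_cast at this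
        exact_mod_cast this
      rw [eval_mul, eval_C, eval_pow, eval_X, h1, mul_assoc]
      congr 1
      unfold ez
      rw [← Complex.exp_nat_mul, ← Complex.exp_nat_mul, ← Complex.exp_add, h2]
      congr 1
      ring

/-- the unit -/
abbrev ll : ℝ := Real.pi / 8

/-- the hypotheses on the function of one row of one group -/
abbrev WideP (C Cp E : ℝ) (N : ℕ) (f : ℂ → ℂ) : Prop :=
  ISR.Wide (3 * ll) (1 / 5 * ll) (4 * ll) (1 / 2 * ll) (11 / 5 * ll) (1 / 2 * ll) (1 / 10 * ll) 1 (1 / 4) (1 / 40) (1 / 30)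
    C Cp E N f

/-- **K6** -/
theorem kSix {C Cp E e : ℝ} (hC : 0 ≤ C) (hCp : 0 ≤ Cp) (hE : e < E) : ∃ K0 : ℕ, ∀ K ≥ K0, ∃ N0 : ℕ, ∀ N ≥ N0,
    ∀ f : ℂ → ℂ, WideP C Cp E N f → Kt (8 / 3) K (fun x => |x.re| ≤ 3 * ll ∧ |x.im| ≤ 1) ((N : ℝ) ^ (-e)) f := by
  have hpi := Real.pi_pos
  have h3 := Real.pi_gt_d2
  have h4 := Real.pi_lt_d2
  have hw : Real.pi / (3 * ll) = 8 / 3 := by
    unfold ll
    field_simp
  obtain ⟨K0, hK⟩ := ISR.join (a := 3 * ll) (σ := 1 / 5 * ll) (R := 4 * ll) (a₀ := 1 / 2 * ll) (a₁ := 11 / 5 * ll)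
    (δJ := 1 / 2 * ll) (b₀ := 1 / 10 * ll) (y₀ := 1) (ct := 1 / 4) (cs := 1 / 40) (xJ := 1 / 30) (C := C) (Cp := Cp) (E := E)
    (c₁ := 1 / 40) (κ := 4.5) (x₁ := 1 / 40) (ε := 1 / 5) (ρ := 1 / 10 * ll) (ε' := 1 / 2) (e := e)
    (by unfold ll; linarith) (by unfold ll; linarith) (by unfold ll; linarith) (by unfold ll; linarith)
    (by unfold ll; linarith) (by unfold ll; linarith) (by unfold ll; linarith) hC hCp (by norm_num) (by norm_num)
    (by unfold ll; linarith) (by norm_num) (by unfold ll; linarith) (by unfold ll; linarith) (by unfold ll; linarith)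
    (by norm_num) (by norm_num) (by norm_num) (by norm_num)
    (by unfold ll; rw [le_div_iff₀ hpi]; linarith) (by norm_num) (by norm_num) (by norm_num) (by norm_num) (by norm_num) hE
  refine ⟨K0, fun K hKK => ?_⟩
  obtain ⟨N0, hN⟩ := hK K hKK
  refine ⟨max N0 1, fun N hNN f hf => ?_⟩
  have hN1 : (1 : ℝ) ≤ N := by exact_mod_cast (le_max_right _ _).trans hNN
  have hL : 0 ≤ Real.log N := Real.log_nonneg hN1
  have key := hN N ((le_max_left _ _).trans hNN) f hf
  rw [hw] at key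
  obtain ⟨p, hp, hp2⟩ := EL_poly (8 / 3) K (PBV.cf (3 * ll) (-(3 * ll)) (1 / 40 * Real.log N) f)
  refine ⟨p, hp, fun x hx => ?_⟩
  rw [← hp2 x]
  exact key x (by unfold ll at hx ⊢; linarith [hx.1]) (by nlinarith [hx.2])

/-- on smaller sets, with larger errors -/
lemma Kt.mono_set {w : ℝ} {K : ℕ} {S S' : ℂ → Prop} {ε ε' : ℝ} {g : ℂ → ℂ} (h : Kt w K S ε g) (hS : ∀ x, S' x → S x)
    (hε : ε ≤ ε') : Kt w K S' ε' g := by
  obtain ⟨p, hp, h⟩ := h
  exact ⟨p, hp, fun x hx => (h x (hS x hx)).trans hε⟩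

/-- the set of `ray_step` -/
lemma ax_or {x : ℂ} (hx : Ax x ∨ x = ((3 * ll : ℝ) : ℂ)) : |x.re| ≤ 3 * ll ∧ |x.im| ≤ 1 := by
  have h0 : 0 < 3 * ll := by
    have := Real.pi_pos
    unfold ll
    positivity
  rcases hx with hx | hx
  · refine ⟨?_, hx.2⟩
    rw [hx.1, abs_zero]
    exact h0.le
  · rw [hx]
    constructor
    · rw [ofReal_re, abs_of_pos h0]
    · rw [ofReal_im, abs_zero]
      norm_num

end Pool.Agent.PLX
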