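import Pool.Agent.PLX.GlueC
import Pool.Agent.PLX.KDef
import Pool.Agent.PLX.KSix

/-! # PLX, block K6' (helper91): K-terms with the gluing of the minus row

`WideG C Cp E N f Jp Jm` (`nu34/PLAX_96` as corrected, `l = π / 8`): `f` the function of one row of one group,
`Jp`, `Jm` the functions of the minus row:
* `poly` : `f` is a trigonometric polynomial of degree `≤ Cp N` up to a factor without zeros, `|Re x| < 4 l`;
* `near`, `far` : `|f| ≤ N^C` for `|Re x| ≤ 12 l / 25` and for `23 l / 10 ≤ |Re x| ≤ 53 l / 20`, heights `≤ log N / 4`;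
* `fp`, `fm` : `f x = Jp (x - 3 l)` (right), `Jm (x + 3 l)` (left) up to `N^{-E}` on `23 l / 10 ≤ |Re x| ≤ 53 l / 20`, heights
  `≤ log N / 50`;
* `jd`, `jb` : `Jp`, `Jm` are analytic and `≤ N^C` for `|Re y| ≤ 7 l / 10`, heights `≤ log N / 30 + 1`;
* `zer` : `Jp - Jm` has `≥ N / 2` zeros in `|Re| ≤ l / 10`, `|Im| ≤ 1`.

**`kSixG`** : `Kt (8 / 3) K {axis segment, 3 l} (N^{-e}) (f on the axis, Jp 0 at 3 l)`. -/

set_option autoImplicit false

open Complex Set Polynomial Filter Topology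
open Pool.Agent.PB.Rec (EL)

noncomputable section

namespace Pool.Agent.PLX

/-- the hypotheses on the function `f` of one row of one group and the functions `Jp`, `Jm` of the minus row -/
structure WideG (C Cp E : ℝ) (N : ℕ) (f Jp Jm : ℂ → ℂ) : Prop where
  poly : ∃ (P : ℂ[X]) (W : ℂ → ℂ) (D : ℕ), (D : ℝ) ≤ Cp * N ∧ P.natDegree ≤ D ∧
    (∀ x : ℂ, |x.re| < 4 * ll → DifferentiableAt ℂ W x ∧ W x ≠ 0) ∧
    (∀ x : ℂ, |x.re| < 4 * ll → f x * W x = P.eval (cexp (2 * x * I))) ∧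
    ∀ x x' : ℂ, x.im = x'.im → |x'.re| ≤ 1 / 2 * ll → |x.re| ≤ 3 * ll + 1 / 5 * ll → ‖W x'‖ ≤ Real.exp (Cp * N) * ‖W x‖
  near : ∀ x : ℂ, |x.re| ≤ 12 / 25 * ll → |x.im| ≤ 1 / 4 * Real.log N → ‖f x‖ ≤ (N : ℝ) ^ C
  far : ∀ x : ℂ, 23 / 10 * ll ≤ |x.re| → |x.re| ≤ 53 / 20 * ll → |x.im| ≤ 1 / 4 * Real.log N → ‖f x‖ ≤ (N : ℝ) ^ C
  fp : ∀ x : ℂ, 23 / 10 * ll ≤ x.re → x.re ≤ 53 / 20 * ll → |x.im| ≤ 1 / 50 * Real.log N →
    ‖f x - Jp (x - (3 * ll : ℝ))‖ ≤ (N : ℝ) ^ (-E)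
  fm : ∀ x : ℂ, -(53 / 20 * ll) ≤ x.re → x.re ≤ -(23 / 10 * ll) → |x.im| ≤ 1 / 50 * Real.log N →
    ‖f x - Jm (x + (3 * ll : ℝ))‖ ≤ (N : ℝ) ^ (-E)
  jd : ∀ y : ℂ, |y.re| ≤ 7 / 10 * ll → |y.im| ≤ 1 / 30 * Real.log N + 1 →
    DifferentiableAt ℂ Jp y ∧ DifferentiableAt ℂ Jm y
  jb : ∀ y : ℂ, |y.re| ≤ 7 / 10 * ll → |y.im| ≤ 1 / 30 * Real.log N + 1 → ‖Jp y‖ ≤ (N : ℝ) ^ C ∧ ‖Jm y‖ ≤ (N : ℝ) ^ C
  zer : ∃ (ι : Type) (_ : Fintype ι) (c : ι → ℂ) (Q : ℂ → ℂ), N ≤ 2 * Fintype.card ι ∧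
      (∀ j, |(c j).re| ≤ 1 / 10 * ll ∧ |(c j).im| ≤ 1) ∧
      ∀ y : ℂ, |y.re| ≤ 7 / 10 * ll → |y.im| ≤ 1 / 30 * Real.log N + 1 →
        DifferentiableAt ℂ Q y ∧ Jp y - Jm y = (∏ j, (y - c j)) * Q y

variable {C Cp E : ℝ} {N : ℕ} {f Jp Jm : ℂ → ℂ}

lemma ll_pos : 0 < ll := by
  have := Real.pi_pos
  unfold ll
  positivity

/-- the part of the hypotheses on `f` alone -/
lemma WideG.wide (h : WideG C Cp E N f Jp Jm) :
    ISR.Wide (5 / 2 * ll) (3 / 20 * ll) (4 * ll) (12 / 25 * ll) (23 / 10 * ll) (-1) 0 0 (1 / 4) (1 / 50) (1 / 30)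
      C Cp E N f := by
  have hl := ll_pos
  refine ⟨?_, h.near, fun x h1 h2 h3 => h.far x h1 (by (clear * - h2; linarith)) h3, ?_⟩
  · obtain ⟨P, W, D, h1, h2, h3, h4, h5⟩ := h.poly
    exact ⟨P, W, D, h1, h2, h3, h4, fun x x' e1 e2 e3 => h5 x x' e1 (by (clear * - hl e2; linarith)) (by (clear * - hl e3; linarith))⟩
  · have hN : (0 : ℝ) ≤ (N : ℝ) ^ (-E) := Real.rpow_nonneg (Nat.cast_nonneg _) _
    refine ⟨fun y => f (y + ((5 / 2 * ll : ℝ) : ℂ)), fun y => f (y - ((5 / 2 * ll : ℝ) : ℂ)), fun x _ _ _ => ?_,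
      fun x _ _ _ => ?_, Fin N, inferInstance, fun _ => 0, fun _ => 0, ?_, fun j => ?_, fun y hy _ => ?_⟩
    · simpa using hN
    · simpa using hN
    · rw [Fintype.card_fin]
      omega
    · simp
    · exfalso
      linarith [abs_nonneg y.re]

/-- the logarithm against a power -/
lemma log_small {r c : ℝ} (hr : 0 < r) (hc : 0 < c) : ∃ N0 : ℕ, ∀ N ≥ N0, Real.log N ≤ c * (N : ℝ) ^ r := by
  have h := ((isLittleO_log_rpow_atTop hr).bound hc).and (eventually_ge_atTop (1 : ℝ))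
  have h2 := (tendsto_natCast_atTop_atTop (R := ℝ)).eventually h
  obtain ⟨N0, hN⟩ := eventually_atTop.1 h2
  refine ⟨N0, fun N hNN => ?_⟩
  obtain ⟨h3, h4⟩ := hN N hNN
  have h5 : 0 ≤ Real.log N := Real.log_nonneg h4
  rwa [Real.norm_of_nonneg h5, Real.norm_of_nonneg (by positivity)] at h3

/-- the kernel away from the lines -/
lemma s_low {d r : ℝ} (hr : r = d * ll) (h1 : 1 / 2 ≤ |d|) (h2 : |d| ≤ 11 / 2) :
    Real.sin (Real.pi / 12) ≤ |Real.sin (Real.pi * r / (2 * (3 * ll)))| := by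
  have hpi := Real.pi_pos
  have hl := ll_pos
  have e : Real.pi * r / (2 * (3 * ll)) = d * (Real.pi / 6) := by
    rw [hr]
    field_simp
    ring
  rw [e]
  have h3 : |d * (Real.pi / 6)| = |d| * (Real.pi / 6) := by
    rw [abs_mul, abs_of_pos (by positivity : 0 < Real.pi / 6)]
  have h5 : Real.pi / 12 ≤ |d * (Real.pi / 6)| := by
    rw [h3]
    clear * - h1 hpi
    nlinarith
  have h6 : |d * (Real.pi / 6)| ≤ 11 * (Real.pi / 12) := by
    rw [h3]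
    clear * - h2 hpi
    nlinarith
  have h7 : |Real.sin (d * (Real.pi / 6))| = Real.sin |d * (Real.pi / 6)| := by
    rcases le_total 0 (d * (Real.pi / 6)) with h | h
    · rw [abs_of_nonneg h, abs_of_nonneg]
      rw [abs_of_nonneg h] at h6
      exact Real.sin_nonneg_of_nonneg_of_le_pi h (by (clear * - hpi h6; linarith))
    · rw [abs_of_nonpos h, Real.sin_neg, abs_of_nonpos]
      rw [abs_of_nonpos h] at h6
      exact Real.sin_nonpos_of_nonpos_of_neg_pi_le h (by (clear * - hpi h6; linarith))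
  rw [h7]
  exact PBV.sin_geV (by positivity) h5 (by linarith)

/-- the final estimate -/
lemma fin_est {C e E a s : ℝ} (hE : e < E) (ha : 0 < a) (hs : 0 < s) (hw : Real.pi / a = 8 / 3) {K : ℕ}
    (hKr : (C + 1 + e + 1) * 50 ≤ K) : ∃ N0 : ℕ, ∀ N ≥ N0, ∀ t : ℝ, 0 ≤ t → t ≤ 1 →
    4 * (N : ℝ) ^ (C + 1) * (Real.exp (-(Real.pi * (1 / 50 * Real.log N - t) / a)) ^ (K + 1) /
        (1 - Real.exp (-(Real.pi * (1 / 50 * Real.log N - t) / a)))) +
      2 * (1 / 50 * Real.log N) * (2 * (N : ℝ) ^ (-E)) / (a * s) ≤ (N : ℝ) ^ (-e) := by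
  obtain ⟨N3, hN3⟩ := log_small (r := E - e) (c := a * s / (1 / 50 * 2 * 2 * 2)) (by (clear * - hE; linarith)) (by positivity)
  obtain ⟨N4, hN4⟩ := exists_nat_ge (16 * Real.exp (8 / 3 * (K + 1)))
  obtain ⟨N5, hN5⟩ := exists_nat_ge (Real.exp 100)
  refine ⟨max (max N3 N4) (max N5 2), fun N hN t ht0 ht1 => ?_⟩
  have hNN3 : N3 ≤ N := by omega
  have hNN4 : N4 ≤ N := by omega
  have hNN5 : N5 ≤ N := by omega
  have hNN6 : 2 ≤ N := by omega
  have hNr : (2 : ℝ) ≤ N := by exact_mod_cast hNN6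
  have hNr0 : (0 : ℝ) < N := by (clear * - hNr; linarith)
  have h3N := hN3 N hNN3
  have h4N : 16 * Real.exp (8 / 3 * (K + 1)) ≤ N := hN4.trans (by exact_mod_cast hNN4)
  set L := Real.log N with hL
  have hL100 : 100 ≤ L := by
    rw [hL, Real.le_log_iff_exp_le hNr0]
    exact hN5.trans (by exact_mod_cast hNN5)
  clear hN3 hN4 hN5 hN hNN3 hNN4 hNN5
  have e1 : Real.pi * (1 / 50 * L - t) / a = 8 / 3 * (1 / 50 * L - t) := by rw [← hw]; ring
  rw [e1]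
  set q := Real.exp (-(8 / 3 * (1 / 50 * L - t))) with hq
  have hq0 : 0 < q := Real.exp_pos _
  have hq1 : q ≤ Real.exp (8 / 3 - 8 / 3 * (1 / 50 * L)) := by
    rw [hq]
    refine Real.exp_le_exp.2 ?_
    clear * - L ht1
    linarith
  have hq2 : q ≤ 1 / 2 := by
    refine hq1.trans ?_
    have h5 : Real.exp (8 / 3 - 8 / 3 * (1 / 50 * L)) ≤ Real.exp (-1) := Real.exp_le_exp.2 (by (clear * - L hL100; linarith))
    refine h5.trans ?_
    rw [Real.exp_neg, inv_le_comm₀ (Real.exp_pos 1) (by norm_num)]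
    have := Real.add_one_le_exp (1 : ℝ)
    clear * - this
    linarith
  have hNe : 0 ≤ (N : ℝ) ^ (-e) := by positivity
  have hgeo : 4 * (N : ℝ) ^ (C + 1) * (q ^ (K + 1) / (1 - q)) ≤ 1 / 2 * (N : ℝ) ^ (-e) := by
    have h5 : q ^ (K + 1) / (1 - q) ≤ 2 * q ^ (K + 1) := by
      rw [div_le_iff₀ (by (clear * - q hq0 hq2; linarith))]
      have h6 : 0 < q ^ (K + 1) := by positivity
      have h7 : 1 ≤ 2 * (1 - q) := by (clear * - q hq2; linarith)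
      calc q ^ (K + 1) = q ^ (K + 1) * 1 := (mul_one _).symm
        _ ≤ q ^ (K + 1) * (2 * (1 - q)) := mul_le_mul_of_nonneg_left h7 h6.le
        _ = _ := by ring
    have h6 : q ^ (K + 1) ≤ Real.exp (8 / 3 * (K + 1)) * (N : ℝ) ^ (-(C + 1 + e + 1)) := by
      calc q ^ (K + 1) ≤ Real.exp (8 / 3 - 8 / 3 * (1 / 50 * L)) ^ (K + 1) := by gcongr
        _ = Real.exp (8 / 3 * (K + 1)) * Real.exp (-(8 / 3 * (K + 1) * (1 / 50)) * L) := by
            rw [← Real.exp_nat_mul, ← Real.exp_add]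
            congr 1
            push_cast
            ring
        _ ≤ _ := by
            refine mul_le_mul_of_nonneg_left ?_ (Real.exp_pos _).le
            rw [Real.rpow_def_of_pos hNr0, ← hL]
            refine Real.exp_le_exp.2 ?_
            have hK1 : (C + 1 + e + 1) ≤ 8 / 3 * (K + 1) * (1 / 50) := by
              have hKn : (0 : ℝ) ≤ K := Nat.cast_nonneg _
              clear * - q hKr hq0 hq2
              linarith
            have := mul_le_mul_of_nonneg_right hK1 (show 0 ≤ L by (clear * - L q hL100 hq0 hq2; linarith))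
            clear * - L this
            linarith
    have h7 : (N : ℝ) ^ (C + 1) * (N : ℝ) ^ (-(C + 1 + e + 1)) = (N : ℝ) ^ (-e) * (N : ℝ)⁻¹ := by
      rw [← Real.rpow_add hNr0, ← Real.rpow_neg_one, ← Real.rpow_add hNr0]
      congr 1
      ring
    have h9 : 8 * Real.exp (8 / 3 * (K + 1)) * (N : ℝ)⁻¹ ≤ 1 / 2 := by
      rw [← div_eq_mul_inv, div_le_iff₀ hNr0]
      clear * - h4N
      linarith
    calc 4 * (N : ℝ) ^ (C + 1) * (q ^ (K + 1) / (1 - q)) ≤ 4 * (N : ℝ) ^ (C + 1) * (2 *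
          (Real.exp (8 / 3 * (K + 1)) * (N : ℝ) ^ (-(C + 1 + e + 1)))) := by
          refine mul_le_mul_of_nonneg_left (h5.trans (mul_le_mul_of_nonneg_left h6 (by norm_num))) (by positivity)
      _ = 8 * Real.exp (8 / 3 * (K + 1)) * ((N : ℝ) ^ (C + 1) * (N : ℝ) ^ (-(C + 1 + e + 1))) := by ring
      _ = (8 * Real.exp (8 / 3 * (K + 1)) * (N : ℝ)⁻¹) * (N : ℝ) ^ (-e) := by rw [h7]; ring
      _ ≤ 1 / 2 * (N : ℝ) ^ (-e) := mul_le_mul_of_nonneg_right h9 hNe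
  have hver : 2 * (1 / 50 * L) * (2 * (N : ℝ) ^ (-E)) / (a * s) ≤ 1 / 2 * (N : ℝ) ^ (-e) := by
    have has : 0 < a * s := by positivity
    have h6 : (N : ℝ) ^ (-e) = (N : ℝ) ^ (E - e) * (N : ℝ) ^ (-E) := by
      rw [← Real.rpow_add hNr0]
      congr 1
      ring
    rw [h6, div_le_iff₀ has]
    have h7 : 0 ≤ (N : ℝ) ^ (-E) := by positivity
    have h8 : 1 / 50 * 2 * 2 * 2 * L ≤ a * s * (N : ℝ) ^ (E - e) := by
      have := mul_le_mul_of_nonneg_left h3N (show (0 : ℝ) ≤ 1 / 50 * 2 * 2 * 2 by norm_num)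
      refine this.trans (le_of_eq ?_)
      field_simp
    have h9 := mul_le_mul_of_nonneg_right h8 h7
    clear * - L h9
    linarith
  clear * - q L hgeo hver
  linarith

/-- **K6'** -/
theorem kSixG {C Cp E e : ℝ} (hC : 0 ≤ C) (hCp : 0 ≤ Cp) (hE : e < E) : ∃ K0 : ℕ, ∀ K ≥ K0, ∃ N0 : ℕ, ∀ N ≥ N0,
    ∀ f Jp Jm : ℂ → ℂ, WideG C Cp E N f Jp Jm →
      Kt (8 / 3) K (fun x => Ax x ∨ x = aF) ((N : ℝ) ^ (-e)) (fun x => if x = aF then Jp 0 else f x) := by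
  have hpi := Real.pi_pos
  have h3 := Real.pi_gt_d2
  have h4 := Real.pi_lt_d2
  have hl := ll_pos
  have hlv : ll = Real.pi / 8 := rfl
  set a : ℝ := 3 * ll with ha_def
  have ha : 0 < a := by rw [ha_def]; (clear * - h3 h4 hlv; linarith)
  have hw : Real.pi / a = 8 / 3 := by
    rw [ha_def, hlv]
    field_simp
  set s : ℝ := Real.sin (Real.pi / 12) with hs_def
  have hs : 0 < s := Real.sin_pos_of_pos_of_lt_pi (by positivity) (by (clear * - h3 h4; linarith))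
  obtain ⟨N1, hN1⟩ := ISR.Wide.mid (a := 5 / 2 * ll) (σ := 3 / 20 * ll) (R := 4 * ll) (a₀ := 12 / 25 * ll)
    (a₁ := 23 / 10 * ll) (δJ := -1) (b₀ := 0) (y₀ := 0) (ct := 1 / 4) (cs := 1 / 50) (xJ := 1 / 30) (C := C) (Cp := Cp)
    (E := E) (c₁ := 1 / 50) (κ := 4.39) (by (clear * - h3 h4 hlv; linarith)) (by rw [hlv]; (clear * - h3 h4; linarith)) (by linarith) (by linarith)
    (by (clear * - h3 h4 hlv; linarith)) hC hCp (by norm_num) (by norm_num) (by rw [hlv]; linarith) (by norm_num)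
  obtain ⟨N2, hN2⟩ := PBV.small_Nx (δ := 7 / 10 * ll) (ρ := 1 / 2 * ll) (b0 := 1 / 10 * ll) (y0 := 1) (x1 := 1 / 30)
    (C + 1) E (ε := 1 / 5) (by linarith) (by linarith) (by linarith) (by linarith) (by linarith) (by norm_num)
    (by norm_num) (by norm_num) (by norm_num) (by rw [hlv, le_div_iff₀ hpi]; linarith)
  set K0 : ℕ := ⌈(C + 1 + e + 1) * 50⌉₊ with hK0
  refine ⟨K0, fun K hK => ?_⟩
  have hKr : (C + 1 + e + 1) * 50 ≤ K := (Nat.le_ceil _).trans (by exact_mod_cast hK)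
  obtain ⟨N3, hN3⟩ := fin_est (C := C) hE ha hs hw hKr
  obtain ⟨N5, hN5⟩ := exists_nat_ge (Real.exp 100)
  refine ⟨max (max (max N1 N2) N3) (max N5 2), fun N hN f Jp Jm hf => ?_⟩
  have hNN1 : N1 ≤ N := by omega
  have hNN2 : N2 ≤ N := by omega
  have hNN3 : N3 ≤ N := by omega
  have hNN5 : N5 ≤ N := by omega
  have hNN6 : 2 ≤ N := by omega
  have hNr : (2 : ℝ) ≤ N := by exact_mod_cast hNN6
  have hNr0 : (0 : ℝ) < N := by (clear * - h3 h4 hNr; linarith)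
  have hNr1 : (1 : ℝ) ≤ N := by linarith
  set L := Real.log N with hL
  have hL100 : 100 ≤ L := by
    rw [hL, Real.le_log_iff_exp_le hNr0]
    exact hN5.trans (by exact_mod_cast hNN5)
  set τ : ℝ := 1 / 50 * L with hτ
  have hτ0 : 0 < τ := by rw [hτ]; (clear * - L h3 h4 hL100; linarith)
  have hτ2 : 2 ≤ τ := by rw [hτ]; (clear * - L hL100; linarith)
  have hτJ : τ ≤ 1 / 30 * L + 1 := by rw [hτ]; (clear * - L h3 h4 hL100; linarith)
  -- the difference of the two functions of the minus row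
  have hJ : ∀ y : ℂ, |y.re| ≤ 1 / 2 * ll → |y.im| ≤ τ → ‖Jp y - Jm y‖ ≤ (N : ℝ) ^ (-E) := by
    intro y hy hyi
    obtain ⟨ι, hι, c, Q, hn, hcj, hJJ⟩ := hf.zer
    refine hN2 N hNN2 ι c (fun y => Jp y - Jm y) Q hn hcj ?_ ?_ ?_ y hy ?_
    · exact fun w hw => (hJJ w hw.1 hw.2).1
    · exact fun w hw => (hJJ w hw.1 hw.2).2
    · intro w hw
      obtain ⟨b1, b2⟩ := hf.jb w hw.1 hw.2
      have e1 : (N : ℝ) ^ (C + 1) = (N : ℝ) ^ C * N := by rw [Real.rpow_add hNr0, Real.rpow_one]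
      have hNC : 0 ≤ (N : ℝ) ^ C := by positivity
      rw [e1]
      refine (norm_sub_le _ _).trans ?_
      clear * - b1 b2 h3 h4 hNr hNC
      nlinarith
    · refine hyi.trans ?_
      rw [hτ]
      clear * - L h3 h4 hL100
      nlinarith
  have hB : ∀ x : ℂ, |x.re| ≤ 5 / 2 * ll → |x.im| ≤ τ → ‖f x‖ ≤ (N : ℝ) ^ (C + 1) := fun x hx hxi =>
    hN1 N hNN1 f hf.wide x (by (clear * - h3 h4 hlv hx; linarith)) hxi
  have hCC : (N : ℝ) ^ C ≤ (N : ℝ) ^ (C + 1) := Real.rpow_le_rpow_of_exponent_le hNr1 (by (clear * - h3 h4; linarith))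
  have hgJ : ∀ x : ℂ, 5 / 2 * ll ≤ x.re → x.re ≤ 7 / 2 * ll → |(x - ((3 * ll : ℝ) : ℂ)).re| ≤ 1 / 2 * ll := by
    intro x h1 h2
    rw [sub_re, ofReal_re, abs_le]
    constructor <;> (clear * - h1 h2; linarith)
  -- the glued function
  set g : ℂ → ℂ := fun x => Jp (x - ((3 * ll : ℝ) : ℂ)) with hg_def
  have h2a : -(5 / 2 * ll) + 2 * a = 7 / 2 * ll := by rw [ha_def]; ring
  have hdf : ∀ ζ ∈ Bx (-(5 / 2 * ll)) (5 / 2 * ll) τ, DifferentiableAt ℂ f ζ := fun ζ hζ =>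
    hf.wide.diff (lt_of_le_of_lt (abs_le.2 ⟨hζ.1, hζ.2.1⟩) (by (clear * - h3 h4 hlv; linarith)))
  have hdg : ∀ ζ ∈ Bx (5 / 2 * ll) (-(5 / 2 * ll) + 2 * a) τ, DifferentiableAt ℂ g ζ := by
    intro ζ hζ
    rw [h2a] at hζ
    have h5 := (hf.jd (ζ - ((3 * ll : ℝ) : ℂ)) ((hgJ ζ hζ.1 hζ.2.1).trans (by (clear * - h3 h4 hlv; linarith))) (by
      refine le_trans ?_ hτJ
      simpa using hζ.2.2)).1
    exact h5.comp ζ (differentiableAt_id.sub_const _)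
  have hBf : ∀ x ∈ Icc (-(5 / 2 * ll)) (5 / 2 * ll), ‖f (x - τ * I)‖ ≤ (N : ℝ) ^ (C + 1) ∧
      ‖f (x + τ * I)‖ ≤ (N : ℝ) ^ (C + 1) := by
    intro x hx
    constructor <;> refine hB _ ?_ ?_
    · simpa using abs_le.2 hx
    · simp [abs_of_pos hτ0]
    · simpa using abs_le.2 hx
    · simp [abs_of_pos hτ0]
  have hBg : ∀ x ∈ Icc (5 / 2 * ll) (-(5 / 2 * ll) + 2 * a), ‖g (x - τ * I)‖ ≤ (N : ℝ) ^ (C + 1) ∧
      ‖g (x + τ * I)‖ ≤ (N : ℝ) ^ (C + 1) := by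
    intro x hx
    rw [h2a] at hx
    constructor
    · refine (hf.jb _ ((hgJ _ ?_ ?_).trans (by (clear * - h3 h4 hlv; linarith))) ?_).1.trans hCC
      · simpa using hx.1
      · simpa using hx.2
      · refine le_trans (le_of_eq ?_) hτJ
        simp [abs_of_pos hτ0]
    · refine (hf.jb _ ((hgJ _ ?_ ?_).trans (by (clear * - h3 h4 hlv; linarith))) ?_).1.trans hCC
      · simpa using hx.1
      · simpa using hx.2
      · refine le_trans (le_of_eq ?_) hτJ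
        simp [abs_of_pos hτ0]
  have hD1 : ∀ y ∈ Icc (-τ) τ, ‖g (((-(5 / 2 * ll) : ℝ) : ℂ) + y * I + 2 * a) -
      f (((-(5 / 2 * ll) : ℝ) : ℂ) + y * I)‖ ≤ 2 * (N : ℝ) ^ (-E) := by
    intro y hy
    set x : ℂ := ((-(5 / 2 * ll) : ℝ) : ℂ) + y * I with hx
    have hxr : x.re = -(5 / 2 * ll) := by simp [hx]
    have hxi : |x.im| ≤ τ := by
      have : x.im = y := by simp [hx]
      rw [this]
      exact abs_le.2 hy
    have e1 : x + 2 * (a : ℂ) - ((3 * ll : ℝ) : ℂ) = x + ((3 * ll : ℝ) : ℂ) := by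
      rw [ha_def]
      push_cast
      ring
    have e2 := hf.fm x (by rw [hxr]; (clear * - h3 h4 hlv; linarith)) (by rw [hxr]; (clear * - h3 h4 hlv; linarith)) hxi
    have e3 := hJ (x + ((3 * ll : ℝ) : ℂ)) (by
      rw [add_re, ofReal_re, hxr, abs_le]
      constructor <;> (clear * - h3 h4 hlv; linarith)) (by simpa using hxi)
    show ‖Jp (x + 2 * (a : ℂ) - ((3 * ll : ℝ) : ℂ)) - f x‖ ≤ _
    rw [e1]
    calc ‖Jp (x + ((3 * ll : ℝ) : ℂ)) - f x‖ = ‖(Jp (x + ((3 * ll : ℝ) : ℂ)) - Jm (x + ((3 * ll : ℝ) : ℂ))) -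
          (f x - Jm (x + ((3 * ll : ℝ) : ℂ)))‖ := by congr 1; ring
      _ ≤ _ := norm_sub_le _ _
      _ ≤ 2 * (N : ℝ) ^ (-E) := by (clear * - x e2 e3; linarith)
  have hD2 : ∀ y ∈ Icc (-τ) τ, ‖f (((5 / 2 * ll : ℝ) : ℂ) + y * I) - g (((5 / 2 * ll : ℝ) : ℂ) + y * I)‖ ≤
      2 * (N : ℝ) ^ (-E) := by
    intro y hy
    have hE0 : 0 ≤ (N : ℝ) ^ (-E) := by positivity
    have e2 := hf.fp (((5 / 2 * ll : ℝ) : ℂ) + y * I) (by simp; (clear * - h3 h4 hlv; linarith)) (by simp; (clear * - h3 h4 hlv; linarith)) (by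
      have h5 : (((5 / 2 * ll : ℝ) : ℂ) + y * I).im = y := by simp
      rw [h5]
      exact abs_le.2 hy)
    exact e2.trans (by (clear * - hE0; linarith))
  -- the kernel
  have hker : ∀ (r : ℝ) (z : ℂ), s ≤ |Real.sin (Real.pi * (r - z.re) / (2 * a))| → ∀ y : ℝ,
      ‖PBV.ker a (r + y * I - z)‖ ≤ Real.pi / a / s := by
    intro r z h y
    refine PBV.ker_upper2 ha _ hs ?_
    have : ((r : ℂ) + y * I - z).re = r - z.re := by simp
    rwa [this]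
  -- the final estimate
  have hfin : ∀ z : ℂ, |z.im| ≤ 1 → 4 * (N : ℝ) ^ (C + 1) * (Real.exp (-(Real.pi * (τ - |z.im|) / a)) ^ (K + 1) /
        (1 - Real.exp (-(Real.pi * (τ - |z.im|) / a)))) + 2 * τ * (2 * (N : ℝ) ^ (-E)) / (a * s) ≤ (N : ℝ) ^ (-e) :=
    fun z hz => hN3 N hNN3 _ (abs_nonneg _) hz
  -- assembly
  set c : ℤ → ℂ := fun k => cI a (-(5 / 2 * ll)) (5 / 2 * ll) τ f k +
    cI a (5 / 2 * ll) (-(5 / 2 * ll) + 2 * a) τ g k with hc
  obtain ⟨p, hp, hp2⟩ := EL_poly (8 / 3) K c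
  refine ⟨p, hp, fun x hx => ?_⟩
  show ‖(if x = aF then Jp 0 else f x) - _‖ ≤ _
  rw [← hp2 x, ← hw, ← PBV.sum_EL ha.ne' K c x]
  have hαβ : -(5 / 2 * ll) ≤ 5 / 2 * ll := by (clear * - h3 h4 hlv; linarith)
  have hβ : 5 / 2 * ll ≤ -(5 / 2 * ll) + 2 * a := by rw [h2a]; (clear * - h3 h4 hlv; linarith)
  by_cases hxa : x = aF
  · have hxr : x.re = 3 * ll := by
      rw [hxa, aF_re]
    have hxi : x.im = 0 := by
      rw [hxa]
      exact Complex.ofReal_im _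
    have e0 : (if x = aF then Jp 0 else f x) = g x := by
      rw [if_pos hxa, hg_def]
      show Jp 0 = Jp (x - ((3 * ll : ℝ) : ℂ))
      congr 1
      rw [hxa]
      unfold aF ll
      rw [sub_self]
    rw [e0]
    exact (glue_repr ha hτ0 hαβ hβ hdf hdg hBf hBg hD1 hD2 K (z := x) (s := s) (by rw [hxi, abs_zero]; exact hτ0) hs
      (hker _ x (s_low (d := -(11 / 2)) (by rw [hxr]; ring) (by norm_num) (by norm_num)))
      (hker _ x (s_low (d := -(1 / 2)) (by rw [hxr]; ring) (by norm_num) (by norm_num)))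
      (Or.inr ⟨by rw [hxr]; (clear * - h3 h4 hlv; linarith), by rw [hxr, h2a]; (clear * - h3 h4 hlv; linarith), rfl⟩)).trans
        (hfin x (by rw [hxi, abs_zero]; norm_num))
  · have hxA : Ax x := hx.resolve_right hxa
    obtain ⟨hxr, hxi⟩ := hxA
    rw [if_neg hxa]
    exact (glue_repr ha hτ0 hαβ hβ hdf hdg hBf hBg hD1 hD2 K (z := x) (s := s) (by (clear * - τ L h3 h4 hL100 hτ hxi; linarith)) hs
      (hker _ x (s_low (d := -(5 / 2)) (by rw [hxr]; ring) (by norm_num) (by norm_num)))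
      (hker _ x (s_low (d := 5 / 2) (by rw [hxr]; ring) (by norm_num) (by norm_num)))
      (Or.inl ⟨by rw [hxr]; (clear * - h3 h4 hlv; linarith), by rw [hxr]; (clear * - h3 h4 hlv; linarith), rfl⟩)).trans (hfin x hxi)

end Pool.Agent.PLX
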