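import Pool.Agent.PLX.GlueT
import Pool.Agent.PLX.KSixG

/-!
# PLX: K-terms from the far zones, real parameters (helper91)

* `Zn`: the numbers of the zones: far zone `u0 l ≤ |Re x| ≤ u1 l`, `J₊` on `(u0 - 3) l ≤ Re y ≤ d l`, `J₋` on
  `-d l ≤ Re y ≤ (3 - u0) l`, heights `c0 log N` (formula of the far zone), `cJ log N + 1` (`J₊`, `J₋`), `ct log N` (far zone);
* `WideR Z`: the hypotheses: trigonometric polynomial, `‖f‖ ≤ N^C` in the far zone, `f = J± (x ∓ 3 l)` up to `N^{-E}`,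
  `J₊ - J₋` has `≥ N / 2` zeros on the axis;
* `WideR.dif`, `WideR.crude`, `WideR.mid`; **`kSixR`**: the K-terms (gluing in three pieces, junction `J₊ / J₋` on `Re y = d l / 2`).
-/

set_option autoImplicit false

noncomputable section

open Complex Set Filter Topology Polynomial
open Pool.Agent.PB.Rec (EL)

namespace Pool.Agent.PLX

/-- the numbers of the zones -/
structure Zn where
  /-- left end of the far zone -/
  u0 : ℝ
  /-- right end of the far zone -/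
  u1 : ℝ
  /-- half width of the overlap of `J₊` and `J₋` -/
  d : ℝ
  /-- low heights -/
  c0 : ℝ
  /-- heights of `J₊`, `J₋` -/
  cJ : ℝ
  /-- tall heights -/
  ct : ℝ
  hu0 : 0 < u0
  hu1 : u0 < u1
  hu3 : u1 < 3
  hd : 0 < d
  hd1 : d ≤ 3 - u1
  hc0 : 0 < c0
  hcJ : c0 < cJ
  hJ : cJ ≤ d / 4
  ht : u0 < 4 * (ct - c0)

/-- **the hypotheses** -/
structure WideR (Z : Zn) (C Cp E : ℝ) (N : ℕ) (f Jp Jm : ℂ → ℂ) : Prop where
  poly : ∃ (P : ℂ[X]) (W : ℂ → ℂ) (D : ℕ), (D : ℝ) ≤ Cp * N ∧ P.natDegree ≤ D ∧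
    (∀ x : ℂ, |x.re| < 4 * ll → DifferentiableAt ℂ W x ∧ W x ≠ 0) ∧
    (∀ x : ℂ, |x.re| < 4 * ll → f x * W x = P.eval (cexp (2 * x * I))) ∧
    ∀ x x' : ℂ, x.im = x'.im → |x'.re| ≤ 3 * ll → |x.re| ≤ 3 * ll → ‖W x'‖ ≤ Real.exp (Cp * N) * ‖W x‖
  far : ∀ x : ℂ, Z.u0 * ll ≤ |x.re| → |x.re| ≤ Z.u1 * ll → |x.im| ≤ Z.ct * Real.log N → ‖f x‖ ≤ (N : ℝ) ^ C
  fp : ∀ x : ℂ, Z.u0 * ll ≤ x.re → x.re ≤ Z.u1 * ll → |x.im| ≤ Z.c0 * Real.log N →
    ‖f x - Jp (x - (3 * ll : ℝ))‖ ≤ (N : ℝ) ^ (-E)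
  fm : ∀ x : ℂ, -(Z.u1 * ll) ≤ x.re → x.re ≤ -(Z.u0 * ll) → |x.im| ≤ Z.c0 * Real.log N →
    ‖f x - Jm (x + (3 * ll : ℝ))‖ ≤ (N : ℝ) ^ (-E)
  jp : ∀ y : ℂ, (Z.u0 - 3) * ll ≤ y.re → y.re ≤ Z.d * ll → |y.im| ≤ Z.cJ * Real.log N + 1 →
    DifferentiableAt ℂ Jp y ∧ ‖Jp y‖ ≤ (N : ℝ) ^ C
  jm : ∀ y : ℂ, -(Z.d * ll) ≤ y.re → y.re ≤ (3 - Z.u0) * ll → |y.im| ≤ Z.cJ * Real.log N + 1 →
    DifferentiableAt ℂ Jm y ∧ ‖Jm y‖ ≤ (N : ℝ) ^ C
  zer : ∃ (ι : Type) (_ : Fintype ι) (c : ι → ℂ) (Q : ℂ → ℂ), N ≤ 2 * Fintype.card ι ∧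
      (∀ j, (c j).re = 0 ∧ |(c j).im| ≤ 1) ∧
      ∀ y : ℂ, |y.re| ≤ Z.d * ll → |y.im| ≤ Z.cJ * Real.log N + 1 →
        DifferentiableAt ℂ Q y ∧ Jp y - Jm y = (∏ j, (y - c j)) * Q y

variable {Z : Zn} {C Cp E : ℝ} {N : ℕ} {f Jp Jm : ℂ → ℂ}

/-! ### numbers -/

lemma Zn.u0_lt (Z : Zn) : Z.u0 < 3 := Z.hu1.trans Z.hu3

lemma Zn.ct_pos (Z : Zn) : Z.c0 < Z.ct := by
  have := Z.hu0
  have := Z.ht
  linarith

/-- the kernel away from the lines -/
lemma s_pos {d : ℝ} (h1 : 0 < |d|) (h2 : |d| < 6) : 0 < |Real.sin (Real.pi * (d * ll) / (2 * (3 * ll)))| := by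
  have hpi := Real.pi_pos
  have hl := ll_pos
  have e : Real.pi * (d * ll) / (2 * (3 * ll)) = d * (Real.pi / 6) := by
    field_simp
    ring
  rw [e, abs_pos]
  intro h
  rcases abs_cases d with ⟨h3, h4⟩ | ⟨h3, h4⟩
  · rw [h3] at h1 h2
    exact (Real.sin_pos_of_pos_of_lt_pi (by positivity) (by (clear * - h2 hpi; nlinarith))).ne' h
  · rw [h3] at h1 h2
    exact (Real.sin_neg_of_neg_of_neg_pi_lt (by (clear * - h1 hpi; nlinarith)) (by (clear * - h2 hpi; nlinarith))).ne h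

/-- the final estimate -/
lemma fin_est3 {C e E a s c0 : ℝ} (hE : e < E) (ha : 0 < a) (hs : 0 < s) (hc0 : 0 < c0) (hw : Real.pi / a = 8 / 3)
    {K : ℕ} (hKr : C + 1 + e + 1 ≤ c0 * K) : ∃ N0 : ℕ, ∀ N ≥ N0, ∀ t : ℝ, 0 ≤ t → t ≤ 1 →
    6 * (N : ℝ) ^ (C + 1) * (Real.exp (-(Real.pi * (c0 * Real.log N - t) / a)) ^ (K + 1) /
        (1 - Real.exp (-(Real.pi * (c0 * Real.log N - t) / a)))) +
      3 * (c0 * Real.log N) * (N : ℝ) ^ (-E) / (a * s) ≤ (N : ℝ) ^ (-e) := by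
  obtain ⟨N3, hN3⟩ := log_small (r := E - e) (c := a * s / (c0 * 3 * 2)) (by linarith) (by positivity)
  obtain ⟨N4, hN4⟩ := exists_nat_ge (24 * Real.exp (8 / 3 * (K + 1)))
  obtain ⟨N5, hN5⟩ := exists_nat_ge (Real.exp (2 / c0))
  refine ⟨max (max N3 N4) (max N5 2), fun N hN t ht0 ht1 => ?_⟩
  have hNN3 : N3 ≤ N := by omega
  have hNN4 : N4 ≤ N := by omega
  have hNN5 : N5 ≤ N := by omega
  have hNN6 : 2 ≤ N := by omega
  have hNr : (2 : ℝ) ≤ N := by exact_mod_cast hNN6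
  have hNr0 : (0 : ℝ) < N := by (clear * - hNr; linarith)
  have h3N := hN3 N hNN3
  have h4N : 24 * Real.exp (8 / 3 * (K + 1)) ≤ N := hN4.trans (by exact_mod_cast hNN4)
  set L := Real.log N with hL
  have hL2 : 2 / c0 ≤ L := by
    rw [hL, Real.le_log_iff_exp_le hNr0]
    exact hN5.trans (by exact_mod_cast hNN5)
  have hL0 : 0 ≤ L := le_trans (by positivity) hL2
  have hcL : 2 ≤ c0 * L := by
    rw [div_le_iff₀ hc0] at hL2
    clear * - L hL2
    linarith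
  clear hN3 hN4 hN5 hN hNN3 hNN4 hNN5
  have e1 : Real.pi * (c0 * L - t) / a = 8 / 3 * (c0 * L - t) := by rw [← hw]; ring
  rw [e1]
  set q := Real.exp (-(8 / 3 * (c0 * L - t))) with hq
  have hq0 : 0 < q := Real.exp_pos _
  have hq1 : q ≤ Real.exp (8 / 3 - 8 / 3 * (c0 * L)) := by
    rw [hq]
    refine Real.exp_le_exp.2 ?_
    clear * - L ht1
    linarith
  have hq2 : q ≤ 1 / 2 := by
    refine hq1.trans ?_
    have h5 : Real.exp (8 / 3 - 8 / 3 * (c0 * L)) ≤ Real.exp (-1) := Real.exp_le_exp.2 (by (clear * - L hcL; linarith))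
    refine h5.trans ?_
    rw [Real.exp_neg, inv_le_comm₀ (Real.exp_pos 1) (by norm_num)]
    have := Real.add_one_le_exp (1 : ℝ)
    clear * - this
    linarith
  have hNe : 0 ≤ (N : ℝ) ^ (-e) := by positivity
  have hgeo : 6 * (N : ℝ) ^ (C + 1) * (q ^ (K + 1) / (1 - q)) ≤ 1 / 2 * (N : ℝ) ^ (-e) := by
    have h5 : q ^ (K + 1) / (1 - q) ≤ 2 * q ^ (K + 1) := by
      rw [div_le_iff₀ (by (clear * - q hq0 hq2; linarith))]
      have h6 : 0 < q ^ (K + 1) := by positivity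
      have h7 : 1 ≤ 2 * (1 - q) := by (clear * - q hq2; linarith)
      calc q ^ (K + 1) = q ^ (K + 1) * 1 := (mul_one _).symm
        _ ≤ q ^ (K + 1) * (2 * (1 - q)) := mul_le_mul_of_nonneg_left h7 h6.le
        _ = _ := by ring
    have h6 : q ^ (K + 1) ≤ Real.exp (8 / 3 * (K + 1)) * (N : ℝ) ^ (-(C + 1 + e + 1)) := by
      calc q ^ (K + 1) ≤ Real.exp (8 / 3 - 8 / 3 * (c0 * L)) ^ (K + 1) := by (clear * - q L hq1; gcongr)
        _ = Real.exp (8 / 3 * (K + 1)) * Real.exp (-(8 / 3 * (K + 1) * c0) * L) := by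
            rw [← Real.exp_nat_mul, ← Real.exp_add]
            congr 1
            push_cast
            ring
        _ ≤ _ := by
            refine mul_le_mul_of_nonneg_left ?_ (Real.exp_pos _).le
            rw [Real.rpow_def_of_pos hNr0, ← hL]
            refine Real.exp_le_exp.2 ?_
            have hK1 : (C + 1 + e + 1) ≤ 8 / 3 * (K + 1) * c0 := by
              have hKn : (0 : ℝ) ≤ K := Nat.cast_nonneg _
              clear * - hc0 hKr
              nlinarith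
            have := mul_le_mul_of_nonneg_right hK1 hL0
            clear * - L this
            linarith
    have h7 : (N : ℝ) ^ (C + 1) * (N : ℝ) ^ (-(C + 1 + e + 1)) = (N : ℝ) ^ (-e) * (N : ℝ)⁻¹ := by
      rw [← Real.rpow_add hNr0, ← Real.rpow_neg_one, ← Real.rpow_add hNr0]
      congr 1
      ring
    have h9 : 12 * Real.exp (8 / 3 * (K + 1)) * (N : ℝ)⁻¹ ≤ 1 / 2 := by
      rw [← div_eq_mul_inv, div_le_iff₀ hNr0]
      clear * - h4N
      linarith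
    calc 6 * (N : ℝ) ^ (C + 1) * (q ^ (K + 1) / (1 - q)) ≤ 6 * (N : ℝ) ^ (C + 1) * (2 *
          (Real.exp (8 / 3 * (K + 1)) * (N : ℝ) ^ (-(C + 1 + e + 1)))) := by
          refine mul_le_mul_of_nonneg_left (h5.trans (mul_le_mul_of_nonneg_left h6 (by norm_num))) (by positivity)
      _ = 12 * Real.exp (8 / 3 * (K + 1)) * ((N : ℝ) ^ (C + 1) * (N : ℝ) ^ (-(C + 1 + e + 1))) := by ring
      _ = (12 * Real.exp (8 / 3 * (K + 1)) * (N : ℝ)⁻¹) * (N : ℝ) ^ (-e) := by rw [h7]; ring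
      _ ≤ 1 / 2 * (N : ℝ) ^ (-e) := mul_le_mul_of_nonneg_right h9 hNe
  have hver : 3 * (c0 * L) * (N : ℝ) ^ (-E) / (a * s) ≤ 1 / 2 * (N : ℝ) ^ (-e) := by
    have has : 0 < a * s := by positivity
    have h6 : (N : ℝ) ^ (-e) = (N : ℝ) ^ (E - e) * (N : ℝ) ^ (-E) := by
      rw [← Real.rpow_add hNr0]
      congr 1
      ring
    rw [h6, div_le_iff₀ has]
    have h7 : 0 ≤ (N : ℝ) ^ (-E) := by positivity
    have h8 : c0 * 3 * 2 * L ≤ a * s * (N : ℝ) ^ (E - e) := by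
      have := mul_le_mul_of_nonneg_left h3N (show (0 : ℝ) ≤ c0 * 3 * 2 by positivity)
      refine this.trans (le_of_eq ?_)
      field_simp
    have h9 := mul_le_mul_of_nonneg_right h8 h7
    clear * - L h9
    linarith
  clear * - q L hgeo hver
  linarith

/-! ### the middle zone -/

theorem WideR.dif (hf : WideR Z C Cp E N f Jp Jm) (x : ℂ) (hx : |x.re| < 4 * ll) : DifferentiableAt ℂ f x := by
  obtain ⟨P, W, D, -, -, hW, hP, -⟩ := hf.poly
  have hopen : IsOpen {z : ℂ | |z.re| < 4 * ll} := isOpen_lt (by fun_prop) continuous_const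
  have h1 : f =ᶠ[𝓝 x] fun z => P.eval (cexp (2 * z * I)) / W z := by
    filter_upwards [hopen.mem_nhds hx] with z hz
    rw [eq_div_iff (hW z hz).2]
    exact hP z hz
  refine DifferentiableAt.congr_of_eventuallyEq ?_ h1
  refine DifferentiableAt.div ?_ (hW x hx).1 (hW x hx).2
  have h2 : DifferentiableAt ℂ (fun w : ℂ => P.eval w) (cexp (2 * x * I)) := P.differentiable.differentiableAt
  have h3 : DifferentiableAt ℂ (fun z : ℂ => cexp (2 * z * I)) x := by fun_prop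
  exact h2.comp x h3

/-- half width of the far zone -/
def Zn.wd (Z : Zn) : ℝ := (Z.u1 - Z.u0) / 2 * ll

lemma Zn.wd_pos (Z : Zn) : 0 < Z.wd := by
  have h1 := Z.hu1
  have h2 := ll_pos
  unfold Zn.wd
  have : 0 < (Z.u1 - Z.u0) / 2 := by linarith
  positivity

lemma Zn.wd_le (Z : Zn) : Z.wd ≤ Real.pi / 4 := by
  have h1 := Z.hu3
  have h2 := Z.hu0
  have hpi := Real.pi_pos
  unfold Zn.wd ll
  clear * - hpi h1 h2
  nlinarith

/-- the crude constant -/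
def Zn.q (Z : Zn) : ℝ := Real.pi * Real.exp 1 / (2 * Z.wd)

lemma Zn.one_le_q (Z : Zn) : 1 ≤ Z.q := by
  have h1 := Z.wd_pos
  have h2 := Z.wd_le
  have hpi := Real.pi_pos
  unfold Zn.q
  rw [le_div_iff₀ (by positivity)]
  have : 1 ≤ Real.exp 1 := Real.one_le_exp (by norm_num)
  clear * - h1 h2 this
  nlinarith

/-- the crude bound -/
theorem WideR.crude (hf : WideR Z C Cp E N f Jp Jm) (hC : 0 ≤ C) (hN : 1 ≤ N) {x : ℂ}
    (hx : |x.re| ≤ Z.u1 * ll) (hxi : |x.im| ≤ Z.ct * Real.log N) :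
    ‖f x‖ ≤ Real.exp ((Cp * (1 + Real.log Z.q) + C) * N) := by
  have hpi := Real.pi_pos
  have hl := ll_pos
  have hNr : (1 : ℝ) ≤ N := by exact_mod_cast hN
  have hu3 := Z.hu3
  have hu0 := Z.hu0
  have hu1 := Z.hu1
  have hx3 : |x.re| ≤ 3 * ll := hx.trans (by (clear * - hl hu3; nlinarith))
  obtain ⟨P, W, D, hD, hPD, hW, hP, hr⟩ := hf.poly
  have hWx := hW x (lt_of_le_of_lt hx3 (by (clear * - hl; linarith)))
  have hWn : 0 < ‖W x‖ := norm_pos_iff.2 hWx.2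
  have hNC : (N : ℝ) ^ C ≤ Real.exp (C * N) := by
    rw [Real.rpow_def_of_pos (by linarith), Real.exp_le_exp]
    have := Real.log_le_sub_one_of_pos (show (0 : ℝ) < N by linarith)
    clear * - hC this
    nlinarith
  set c : ℝ := (Z.u0 + Z.u1) / 2 * ll with hc
  set P' : ℂ[X] := P.comp (Polynomial.C (cexp (2 * (c : ℂ) * I)) * X) with hP'
  have hP'D : P'.natDegree ≤ D := by
    refine Polynomial.natDegree_comp_le.trans ?_
    refine (Nat.mul_le_mul hPD (Polynomial.natDegree_C_mul_le _ _)).trans ?_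
    rw [Polynomial.natDegree_X, mul_one]
  have he : ∀ y : ℂ, P'.eval (cexp (2 * y * I)) = P.eval (cexp (2 * (y + c) * I)) := by
    intro y
    rw [hP', Polynomial.eval_comp, Polynomial.eval_mul, Polynomial.eval_C, Polynomial.eval_X, ← Complex.exp_add]
    congr 2
    ring
  have hwd : Z.wd = (Z.u1 - Z.u0) / 2 * ll := rfl
  have h1 : ∀ y : ℂ, y.im = x.im → |y.re| ≤ Z.wd →
      ‖P'.eval (cexp (2 * y * I))‖ ≤ (N : ℝ) ^ C * (Real.exp (Cp * N) * ‖W x‖) := by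
    intro y hy hy'
    obtain ⟨h5, h6⟩ := abs_le.1 hy'
    rw [hwd] at h5 h6
    have hre : (y + c).re = y.re + c := by simp
    have him : (y + c).im = x.im := by simpa using hy
    have h8 : Z.u0 * ll ≤ (y + c).re := by rw [hre, hc]; (clear * - h5; linarith)
    have h9 : (y + c).re ≤ Z.u1 * ll := by rw [hre, hc]; (clear * - h6; linarith)
    have h7 : |(y + c).re| = (y + c).re := abs_of_nonneg (le_trans (by positivity) h8)
    have h10 : (y + c).re ≤ 3 * ll := h9.trans (by (clear * - hl hu3; nlinarith))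
    rw [he, ← hP (y + c) (by rw [h7]; (clear * - c hl h10; linarith)), norm_mul]
    refine mul_le_mul (hf.far (y + c) (by rw [h7]; exact h8) (by rw [h7]; exact h9) (by rw [him]; exact hxi))
      (hr x (y + c) him.symm (by rw [h7]; exact h10) hx3) (norm_nonneg _) (by positivity)
  have h2 := ISR.remez hP'D Z.wd_pos Z.wd_le h1 (x := x - c) (by simp)
  rw [he, sub_add_cancel, ← hP x (lt_of_le_of_lt hx3 (by (clear * - hl; linarith))), norm_mul] at h2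
  change ‖f x‖ * ‖W x‖ ≤ Z.q ^ D * _ at h2
  have hq1 := Z.one_le_q
  set q : ℝ := Z.q with hq
  have h3 : q ^ D ≤ Real.exp (Cp * Real.log q * N) := by
    rw [← Real.exp_log (show 0 < q by (clear * - q hq1; linarith)), ← Real.exp_nat_mul, Real.log_exp, Real.exp_le_exp]
    have h4 : 0 ≤ Real.log q := Real.log_nonneg hq1
    clear * - q hD h4
    nlinarith
  have h5 : ‖f x‖ ≤ q ^ D * ((N : ℝ) ^ C * Real.exp (Cp * N)) := by
    have h6 : ‖f x‖ * ‖W x‖ ≤ q ^ D * ((N : ℝ) ^ C * Real.exp (Cp * N)) * ‖W x‖ := by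
      calc _ ≤ _ := h2
        _ = _ := by ring
    exact le_of_mul_le_mul_right h6 hWn
  calc ‖f x‖ ≤ q ^ D * ((N : ℝ) ^ C * Real.exp (Cp * N)) := h5
    _ ≤ Real.exp (Cp * Real.log q * N) * (Real.exp (C * N) * Real.exp (Cp * N)) := by (clear * - q h3 hNC hN; gcongr)
    _ = _ := by
        rw [← Real.exp_add, ← Real.exp_add]
        congr 1
        ring

/-- the exponent of the two constants -/
lemma Zn.kap (Z : Zn) : ∃ κ : ℝ, 0 < κ ∧ κ * (Z.u0 * ll) < Real.pi / 2 ∧ 1 ≤ κ * (Z.ct - Z.c0) := by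
  have hpi := Real.pi_pos
  have h1 := Z.hu0
  have h2 := Z.ht
  have h3 := Z.ct_pos
  refine ⟨1 / (Z.ct - Z.c0), by have : 0 < Z.ct - Z.c0 := by linarith
                                positivity, ?_, ?_⟩
  · unfold ll
    rw [div_mul_eq_mul_div, div_lt_iff₀ (by linarith)]
    clear * - hpi h2
    nlinarith
  · rw [one_div, inv_mul_cancel₀ (by linarith)]

/-- the middle zone -/
theorem WideR.mid (hC : 0 ≤ C) (hCp : 0 ≤ Cp) : ∃ N0 : ℕ, ∀ N ≥ N0, ∀ f Jp Jm : ℂ → ℂ, WideR Z C Cp E N f Jp Jm →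
    ∀ x : ℂ, |x.re| ≤ Z.u1 * ll → |x.im| ≤ Z.c0 * Real.log N → ‖f x‖ ≤ (N : ℝ) ^ (C + 1) := by
  have hpi := Real.pi_pos
  have hl := ll_pos
  have hu0 := Z.hu0
  have hu1 := Z.hu1
  have hu3 := Z.hu3
  have hct := Z.ct_pos
  have hc0 := Z.hc0
  obtain ⟨κ, hκ0, hκ, hκ1⟩ := Z.kap
  set C1 : ℝ := Cp * (1 + Real.log Z.q) + C with hC1
  have hC10 : 0 ≤ C1 := by
    have := Real.log_nonneg Z.one_le_q
    positivity
  set q0 := Real.cos (κ * (Z.u0 * ll)) with hq0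
  have hq0' : 0 < q0 := Real.cos_pos_of_mem_Ioo ⟨by
    have : 0 < κ * (Z.u0 * ll) := by positivity
    clear * - hκ this
    linarith, hκ⟩
  obtain ⟨N0, hN0⟩ := exists_nat_ge (Real.exp (2 * C1 / q0))
  refine ⟨max N0 2, fun N hN f Jp Jm hf x hx hxi => ?_⟩
  have hN2 : 2 ≤ N := (le_max_right _ _).trans hN
  have hNr : (2 : ℝ) ≤ N := by exact_mod_cast hN2
  have hNr0 : (0 : ℝ) < N := by (clear * - hNr; linarith)
  have hNE : Real.exp (2 * C1 / q0) ≤ N := hN0.trans (by exact_mod_cast (le_max_left _ _).trans hN)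
  have hL : 0 < Real.log N := Real.log_pos (by (clear * - hNr; linarith))
  have hNC : 1 ≤ (N : ℝ) ^ C := Real.one_le_rpow (by (clear * - hNr; linarith)) hC
  have e1 : (N : ℝ) ^ (C + 1) = (N : ℝ) ^ C * N := by rw [Real.rpow_add hNr0, Real.rpow_one]
  have hup : (N : ℝ) ^ C ≤ (N : ℝ) ^ (C + 1) := by
    rw [e1]
    clear * - hNr hNC
    nlinarith
  rcases le_total (Z.u0 * ll) |x.re| with h1 | h1
  · exact (hf.far x h1 hx (hxi.trans (by (clear * - hct hL; nlinarith)))).trans hup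
  · have h6 := ISR.thinS_log (g := f) (a := 0) (δ := Z.u0 * ll) (c := Z.c0) (c₁ := Z.ct) (M := (N : ℝ) ^ C)
      (C := C1) (q := 1) (κ := κ) hN2 (by positivity) hc0.le hct hNC hC10 hκ0 hκ hκ1
      (fun z hz => hf.dif z ?_) (fun z hz hzi => ?_) (fun z hz hzi => ?_) (z := x) (by simpa using h1) hxi
    · refine h6.trans ?_
      rw [e1]
      exact mul_le_mul_of_nonneg_left hNE (by positivity)
    · have h2 := hz.1
      rw [sub_zero] at h2
      clear * - hl h2 hu1 hu3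
      nlinarith
    · rw [sub_zero] at hz
      exact hf.far z hz.ge (by rw [hz]; (clear * - hl hu1; nlinarith)) hzi
    · rw [sub_zero] at hz
      rw [Real.rpow_one]
      exact hf.crude hC (by omega) (hz.trans (by (clear * - hl hu1; nlinarith))) hzi.le

/-! ### the gluing -/

/-- **the K-terms** -/
theorem kSixR (Z : Zn) {C Cp E e : ℝ} (hC : 0 ≤ C) (hCp : 0 ≤ Cp) (hE : e < E) : ∃ K0 : ℕ, ∀ K ≥ K0, ∃ N0 : ℕ,
    ∀ N ≥ N0, ∀ f Jp Jm : ℂ → ℂ, WideR Z C Cp E N f Jp Jm →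
      Kt (8 / 3) K (fun x => Ax x ∨ x = aF) ((N : ℝ) ^ (-e)) (fun x => if x = aF then Jp 0 else f x) := by
  have hpi := Real.pi_pos
  have h4 := Real.pi_lt_four
  have hl := ll_pos
  have hlv : ll = Real.pi / 8 := rfl
  have hu0 := Z.hu0
  have hu1 := Z.hu1
  have hu3 := Z.hu3
  have hd := Z.hd
  have hd1 := Z.hd1
  have hc0 := Z.hc0
  have hcJ := Z.hcJ
  have hJ := Z.hJ
  obtain ⟨u, hu⟩ : ∃ u, u = (Z.u0 + Z.u1) / 2 := ⟨_, rfl⟩
  have hu0' : Z.u0 < u := by (clear * - hu1 hu; linarith)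
  have hu1' : u < Z.u1 := by (clear * - hu hu0'; linarith)
  have k1 : Z.u0 * ll < u * ll := mul_lt_mul_of_pos_right hu0' hl
  have k2 : u * ll < Z.u1 * ll := mul_lt_mul_of_pos_right hu1' hl
  have k3 : Z.u1 * ll < 3 * ll := mul_lt_mul_of_pos_right hu3 hl
  have k4 : Z.d * ll ≤ (3 - Z.u1) * ll := mul_le_mul_of_nonneg_right hd1 hl.le
  have k5 : 0 < Z.d * ll := mul_pos hd hl
  have k6 : 0 < Z.u0 * ll := mul_pos hu0 hl
  set a : ℝ := 3 * ll with ha_def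
  have ha : 0 < a := by rw [ha_def]; linarith
  have hw : Real.pi / a = 8 / 3 := by
    rw [ha_def, hlv]
    field_simp
  -- the kernel constants
  have habs : ∀ {r : ℝ}, r ≠ 0 → -6 < r → r < 6 → 0 < |Real.sin (Real.pi * (r * ll) / (2 * (3 * ll)))| :=
    fun h0 h1 h2 => s_pos (abs_pos.2 h0) (abs_lt.2 ⟨h1, h2⟩)
  obtain ⟨s, hs, hs1, hs2, hs3, hs4, hs5, hs6⟩ : ∃ s : ℝ, 0 < s ∧
      s ≤ |Real.sin (Real.pi * (-u * ll) / (2 * (3 * ll)))| ∧ s ≤ |Real.sin (Real.pi * (u * ll) / (2 * (3 * ll)))| ∧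
      s ≤ |Real.sin (Real.pi * ((3 + Z.d / 2) * ll) / (2 * (3 * ll)))| ∧
      s ≤ |Real.sin (Real.pi * ((-u - 3) * ll) / (2 * (3 * ll)))| ∧
      s ≤ |Real.sin (Real.pi * ((u - 3) * ll) / (2 * (3 * ll)))| ∧
      s ≤ |Real.sin (Real.pi * (Z.d / 2 * ll) / (2 * (3 * ll)))| := by
    have g1 := habs (r := -u) (by (clear * - hu0 hu0'; linarith)) (by (clear * - hu0 hu1 hd1 hc0 hcJ hJ hu; linarith)) (by (clear * - hu0 hu0'; linarith))
    have g2 := habs (r := u) (by (clear * - hu0 hu0'; linarith)) (by (clear * - hu0 hu0'; linarith)) (by (clear * - hu0 hu1 hd1 hc0 hcJ hJ hu; linarith))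
    have g3 := habs (r := 3 + Z.d / 2) (by (clear * - hc0 hcJ hJ; linarith)) (by (clear * - hc0 hcJ hJ; linarith)) (by (clear * - h4 hlv hu0 hu1 hd1 k1 k2 k4 k5 k6; linarith))
    have g4 := habs (r := -u - 3) (by (clear * - hu0 hu0'; linarith)) (by (clear * - hu1 hd1 hc0 hcJ hJ hu; linarith)) (by (clear * - hu0 hu0'; linarith))
    have g5 := habs (r := u - 3) (by (clear * - hu1 hd1 hc0 hcJ hJ hu; linarith)) (by (clear * - hu0 hu0'; linarith)) (by (clear * - hu0 hu1 hd1 hc0 hcJ hJ hu; linarith))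
    have g6 := habs (r := Z.d / 2) (by (clear * - hc0 hcJ hJ; linarith)) (by (clear * - hc0 hcJ hJ; linarith)) (by (clear * - h4 hlv hu0 hu1 hd1 k1 k2 k4 k5 k6; linarith))
    refine ⟨_, lt_min g1 (lt_min g2 (lt_min g3 (lt_min g4 (lt_min g5 g6)))), min_le_left _ _,
      (min_le_right _ _).trans (min_le_left _ _), ?_, ?_, ?_, ?_⟩
    · exact (min_le_right _ _).trans ((min_le_right _ _).trans (min_le_left _ _))
    · exact (min_le_right _ _).trans ((min_le_right _ _).trans ((min_le_right _ _).trans (min_le_left _ _)))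
    · exact (min_le_right _ _).trans ((min_le_right _ _).trans ((min_le_right _ _).trans
        ((min_le_right _ _).trans (min_le_left _ _))))
    · exact (min_le_right _ _).trans ((min_le_right _ _).trans ((min_le_right _ _).trans
        ((min_le_right _ _).trans (min_le_right _ _))))
  clear habs
  obtain ⟨N1, hN1⟩ := WideR.mid (Z := Z) (E := E) hC hCp
  have hδ : 0 < Z.d * ll := by positivity
  have hεd : 0 < 1 - Z.c0 / Z.cJ := by
    rw [sub_pos, div_lt_one (by (clear * - hc0 hcJ; linarith))]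
    exact hcJ
  have hεd1 : 1 - Z.c0 / Z.cJ < 1 := by
    have : 0 < Z.c0 / Z.cJ := div_pos hc0 (by (clear * - hc0 hcJ; linarith))
    clear * - this
    linarith
  obtain ⟨N2, hN2⟩ := PBV.small_Nx (δ := Z.d * ll) (ρ := Z.d / 2 * ll) (b0 := 0) (y0 := 1) (x1 := Z.cJ)
    (C + 1) E (ε := 1 - Z.c0 / Z.cJ) hδ (by positivity) (by (clear * - k5; linarith)) le_rfl hδ (by norm_num)
    hεd hεd1 (by (clear * - hc0 hcJ; linarith)) (by
      rw [hlv, le_div_iff₀ hpi]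
      have := mul_le_mul_of_nonneg_right hJ hpi.le
      clear * - this
      linarith)
  set K0 : ℕ := ⌈(C + 1 + e + 1) / Z.c0⌉₊ with hK0
  refine ⟨K0, fun K hK => ?_⟩
  have hKr : C + 1 + e + 1 ≤ Z.c0 * K := by
    have h5 : (C + 1 + e + 1) / Z.c0 ≤ K := (Nat.le_ceil _).trans (by exact_mod_cast hK)
    rw [div_le_iff₀ hc0] at h5
    clear * - h5
    linarith
  obtain ⟨N3, hN3⟩ := fin_est3 (C := C) hE ha hs hc0 hw hKr
  obtain ⟨N5, hN5⟩ := exists_nat_ge (Real.exp (2 / Z.c0))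
  refine ⟨max (max N1 (max N2 N3)) (max N5 2), fun N hN f Jp Jm hf => ?_⟩
  have hNN1 : N1 ≤ N := by omega
  have hNN2 : N2 ≤ N := by omega
  have hNN3 : N3 ≤ N := by omega
  have hNN5 : N5 ≤ N := by omega
  have hNN6 : 2 ≤ N := by omega
  have hNr : (2 : ℝ) ≤ N := by exact_mod_cast hNN6
  have hNr0 : (0 : ℝ) < N := by (clear * - hNr; linarith)
  have hNr1 : (1 : ℝ) ≤ N := by (clear * - hNr; linarith)
  set L := Real.log N with hL
  have hL2 : 2 / Z.c0 ≤ L := by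
    rw [hL, Real.le_log_iff_exp_le hNr0]
    exact hN5.trans (by exact_mod_cast hNN5)
  set τ : ℝ := Z.c0 * L with hτ
  have hτ2 : 2 ≤ τ := by
    rw [div_le_iff₀ hc0] at hL2
    rw [hτ]
    clear * - L hL2
    linarith
  have hτ0 : 0 < τ := by (clear * - τ L hτ2; linarith)
  have hL0 : 0 ≤ L := le_trans (by positivity) hL2
  have hτJ : τ ≤ Z.cJ * L + 1 := by
    have := mul_le_mul_of_nonneg_right hcJ.le hL0
    rw [hτ]
    clear * - L this
    linarith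
  -- the difference of the two functions of the minus row
  have hJJ : ∀ y : ℂ, |y.re| ≤ Z.d / 2 * ll → |y.im| ≤ τ → ‖Jp y - Jm y‖ ≤ (N : ℝ) ^ (-E) := by
    intro y hy hyi
    obtain ⟨ι, hι, c, Q, hn, hcj, hJJ⟩ := hf.zer
    refine hN2 N hNN2 ι c (fun y => Jp y - Jm y) Q hn (fun j => ⟨by rw [(hcj j).1, abs_zero], (hcj j).2⟩)
      ?_ ?_ ?_ y hy ?_
    · exact fun w hw => (hJJ w hw.1 hw.2).1
    · exact fun w hw => (hJJ w hw.1 hw.2).2
    · intro w hw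
      obtain ⟨w1, w2⟩ := abs_le.1 hw.1
      have b1 := (hf.jp w (by (clear * - k1 k2 k4 w1; linarith)) w2 hw.2).2
      have b2 := (hf.jm w w1 (by (clear * - k1 k2 k4 w2; linarith)) hw.2).2
      have e1 : (N : ℝ) ^ (C + 1) = (N : ℝ) ^ C * N := by rw [Real.rpow_add hNr0, Real.rpow_one]
      have hNC : 0 ≤ (N : ℝ) ^ C := by positivity
      rw [e1]
      refine (norm_sub_le _ _).trans ?_
      have := mul_le_mul_of_nonneg_left hNr hNC
      clear * - b1 b2 this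
      linarith
    · refine hyi.trans (le_of_eq ?_)
      have : Z.cJ ≠ 0 := by (clear * - hc0 hcJ; linarith)
      rw [hτ]
      field_simp
      ring
  have hCC : (N : ℝ) ^ C ≤ (N : ℝ) ^ (C + 1) := Real.rpow_le_rpow_of_exponent_le hNr1 (by (clear * -; linarith))
  -- the pieces
  set g : ℂ → ℂ := fun x => Jp (x - ((3 * ll : ℝ) : ℂ)) with hg_def
  set h : ℂ → ℂ := fun x => Jm (x - ((3 * ll : ℝ) : ℂ)) with hh_def
  have h2a : -(u * ll) + 2 * a = (6 - u) * ll := by rw [ha_def]; ring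
  have hgre : ∀ x : ℂ, (x - ((3 * ll : ℝ) : ℂ)).re = x.re - 3 * ll := fun x => by rw [sub_re, ofReal_re]
  have hgim : ∀ x : ℂ, (x - ((3 * ll : ℝ) : ℂ)).im = x.im := fun x => by rw [sub_im, ofReal_im, sub_zero]
  have hG : ∀ x : ℂ, u * ll ≤ x.re → x.re ≤ (3 + Z.d / 2) * ll → |x.im| ≤ Z.cJ * L + 1 →
      DifferentiableAt ℂ g x ∧ ‖g x‖ ≤ (N : ℝ) ^ (C + 1) := by
    intro x h1 h2 h3
    obtain ⟨k1, k2⟩ := hf.jp (x - ((3 * ll : ℝ) : ℂ)) (by rw [hgre]; (clear * - k1 h1; linarith)) (by rw [hgre]; (clear * - k5 h2; linarith))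
      (by rw [hgim]; exact h3)
    exact ⟨k1.comp x (differentiableAt_id.sub_const _), k2.trans hCC⟩
  have hH : ∀ x : ℂ, (3 + Z.d / 2) * ll ≤ x.re → x.re ≤ (6 - u) * ll → |x.im| ≤ Z.cJ * L + 1 →
      DifferentiableAt ℂ h x ∧ ‖h x‖ ≤ (N : ℝ) ^ (C + 1) := by
    intro x h1 h2 h3
    obtain ⟨k1, k2⟩ := hf.jm (x - ((3 * ll : ℝ) : ℂ)) (by rw [hgre]; (clear * - k5 h1; linarith)) (by rw [hgre]; (clear * - k1 h2; linarith))
      (by rw [hgim]; exact h3)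
    exact ⟨k1.comp x (differentiableAt_id.sub_const _), k2.trans hCC⟩
  have hdf : ∀ ζ ∈ Bx (-(u * ll)) (u * ll) τ, DifferentiableAt ℂ f ζ := fun ζ hζ =>
    hf.dif ζ (lt_of_le_of_lt (abs_le.2 ⟨hζ.1, hζ.2.1⟩) (by (clear * - k1 k2 k4 k5 k6; linarith)))
  have hdg : ∀ ζ ∈ Bx (u * ll) ((3 + Z.d / 2) * ll) τ, DifferentiableAt ℂ g ζ := fun ζ hζ =>
    (hG ζ hζ.1 hζ.2.1 (hζ.2.2.trans hτJ)).1
  have hdh : ∀ ζ ∈ Bx ((3 + Z.d / 2) * ll) (-(u * ll) + 2 * a) τ, DifferentiableAt ℂ h ζ := by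
    intro ζ hζ
    rw [h2a] at hζ
    exact (hH ζ hζ.1 hζ.2.1 (hζ.2.2.trans hτJ)).1
  have rem : ∀ x : ℝ, ((x : ℂ) - τ * I).re = x ∧ |((x : ℂ) - τ * I).im| = τ := fun x => by
    simp [abs_of_pos hτ0]
  have rep : ∀ x : ℝ, ((x : ℂ) + τ * I).re = x ∧ |((x : ℂ) + τ * I).im| = τ := fun x => by
    simp [abs_of_pos hτ0]
  have hBf : ∀ x ∈ Icc (-(u * ll)) (u * ll), ‖f (x - τ * I)‖ ≤ (N : ℝ) ^ (C + 1) ∧
      ‖f (x + τ * I)‖ ≤ (N : ℝ) ^ (C + 1) := by
    intro x hx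
    have h5 := abs_le.2 hx
    exact ⟨hN1 N hNN1 f Jp Jm hf _ (by rw [(rem x).1]; (clear * - k2 h5; linarith)) (rem x).2.le,
      hN1 N hNN1 f Jp Jm hf _ (by rw [(rep x).1]; (clear * - k2 h5; linarith)) (rep x).2.le⟩
  have hBg : ∀ x ∈ Icc (u * ll) ((3 + Z.d / 2) * ll), ‖g (x - τ * I)‖ ≤ (N : ℝ) ^ (C + 1) ∧
      ‖g (x + τ * I)‖ ≤ (N : ℝ) ^ (C + 1) := fun x hx =>
    ⟨(hG _ (by rw [(rem x).1]; exact hx.1) (by rw [(rem x).1]; exact hx.2) (by rw [(rem x).2]; exact hτJ)).2,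
      (hG _ (by rw [(rep x).1]; exact hx.1) (by rw [(rep x).1]; exact hx.2) (by rw [(rep x).2]; exact hτJ)).2⟩
  have hBh : ∀ x ∈ Icc ((3 + Z.d / 2) * ll) (-(u * ll) + 2 * a), ‖h (x - τ * I)‖ ≤ (N : ℝ) ^ (C + 1) ∧
      ‖h (x + τ * I)‖ ≤ (N : ℝ) ^ (C + 1) := by
    intro x hx
    rw [h2a] at hx
    exact ⟨(hH _ (by rw [(rem x).1]; exact hx.1) (by rw [(rem x).1]; exact hx.2) (by rw [(rem x).2]; exact hτJ)).2,
      (hH _ (by rw [(rep x).1]; exact hx.1) (by rw [(rep x).1]; exact hx.2) (by rw [(rep x).2]; exact hτJ)).2⟩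
  have hD1 : ∀ y ∈ Icc (-τ) τ, ‖h (((-(u * ll) : ℝ) : ℂ) + y * I + 2 * a) -
      f (((-(u * ll) : ℝ) : ℂ) + y * I)‖ ≤ (N : ℝ) ^ (-E) := by
    intro y hy
    set x : ℂ := ((-(u * ll) : ℝ) : ℂ) + y * I with hx
    have hxr : x.re = -(u * ll) := by simp [hx]
    have hxi : |x.im| ≤ τ := by
      have : x.im = y := by simp [hx]
      rw [this]
      exact abs_le.2 hy
    have e1 : x + 2 * (a : ℂ) - ((3 * ll : ℝ) : ℂ) = x + ((3 * ll : ℝ) : ℂ) := by
      rw [ha_def]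
      push_cast
      ring
    have e2 := hf.fm x (by rw [hxr]; (clear * - k2; linarith)) (by rw [hxr]; (clear * - k1; linarith)) hxi
    show ‖Jm (x + 2 * (a : ℂ) - ((3 * ll : ℝ) : ℂ)) - f x‖ ≤ _
    rw [e1, norm_sub_rev]
    exact e2
  have hD2 : ∀ y ∈ Icc (-τ) τ, ‖f (((u * ll : ℝ) : ℂ) + y * I) - g (((u * ll : ℝ) : ℂ) + y * I)‖ ≤
      (N : ℝ) ^ (-E) := by
    intro y hy
    have h5 : (((u * ll : ℝ) : ℂ) + y * I).im = y := by simp
    have h6 : (((u * ll : ℝ) : ℂ) + y * I).re = u * ll := by simp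
    exact hf.fp (((u * ll : ℝ) : ℂ) + y * I) (by rw [h6]; (clear * - k1; linarith)) (by rw [h6]; (clear * - k2; linarith)) (by
      rw [h5]
      exact abs_le.2 hy)
  have hD3 : ∀ y ∈ Icc (-τ) τ, ‖g ((((3 + Z.d / 2) * ll : ℝ) : ℂ) + y * I) -
      h ((((3 + Z.d / 2) * ll : ℝ) : ℂ) + y * I)‖ ≤ (N : ℝ) ^ (-E) := by
    intro y hy
    have h5 : ((((3 + Z.d / 2) * ll : ℝ) : ℂ) + y * I).im = y := by simp
    have h6 : ((((3 + Z.d / 2) * ll : ℝ) : ℂ) + y * I).re = (3 + Z.d / 2) * ll := by simp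
    refine hJJ _ ?_ ?_
    · rw [hgre, h6, show (3 + Z.d / 2) * ll - 3 * ll = Z.d / 2 * ll by ring, abs_of_pos (by positivity)]
    · rw [hgim, h5]
      exact abs_le.2 hy
  -- the kernel
  have hker : ∀ (r : ℝ) (z : ℂ), s ≤ |Real.sin (Real.pi * (r - z.re) / (2 * (3 * ll)))| → ∀ y : ℝ,
      ‖PBV.ker a (r + y * I - z)‖ ≤ Real.pi / a / s := by
    intro r z h y
    refine PBV.ker_upper2 ha _ hs ?_
    have : ((r : ℂ) + y * I - z).re = r - z.re := by simp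
    rwa [this]
  -- the final estimate
  have hfin : ∀ z : ℂ, |z.im| ≤ 1 → 6 * (N : ℝ) ^ (C + 1) * (Real.exp (-(Real.pi * (τ - |z.im|) / a)) ^ (K + 1) /
        (1 - Real.exp (-(Real.pi * (τ - |z.im|) / a)))) + 3 * τ * (N : ℝ) ^ (-E) / (a * s) ≤ (N : ℝ) ^ (-e) :=
    fun z hz => hN3 N hNN3 _ (abs_nonneg _) hz
  -- assembly
  set c : ℤ → ℂ := fun k => cI a (-(u * ll)) (u * ll) τ f k + cI a (u * ll) ((3 + Z.d / 2) * ll) τ g k +
    cI a ((3 + Z.d / 2) * ll) (-(u * ll) + 2 * a) τ h k with hc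
  obtain ⟨p, hp, hp2⟩ := EL_poly (8 / 3) K c
  refine ⟨p, hp, fun x hx => ?_⟩
  show ‖(if x = aF then Jp 0 else f x) - _‖ ≤ _
  rw [← hp2 x, ← hw, ← PBV.sum_EL ha.ne' K c x]
  have hαβ : -(u * ll) ≤ u * ll := by (clear * - k1 k6; linarith)
  have hβγ : u * ll ≤ (3 + Z.d / 2) * ll := by (clear * - k2 k4 k5; linarith)
  have hγ : (3 + Z.d / 2) * ll ≤ -(u * ll) + 2 * a := by rw [h2a]; (clear * - k2 k4 k5; linarith)
  by_cases hxa : x = aF
  · have hxr : x.re = 3 * ll := by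
      rw [hxa, aF_re]
    have hxi : x.im = 0 := by
      rw [hxa]
      exact Complex.ofReal_im _
    have e0 : (if x = aF then Jp 0 else f x) = g x := by
      rw [if_pos hxa, hg_def]
      show Jp 0 = Jp (x - ((3 * ll : ℝ) : ℂ))
      congr 1
      rw [hxa]
      unfold aF ll
      rw [sub_self]
    rw [e0]
    exact (glue_repr3 ha hτ0 hαβ hβγ hγ hdf hdg hdh hBf hBg hBh hD1 hD2 hD3 K (z := x) (s := s)
      (by rw [hxi, abs_zero]; exact hτ0) hs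
      (hker _ x (by rw [hxr, show -(u * ll) - 3 * ll = (-u - 3) * ll by ring]; exact hs4))
      (hker _ x (by rw [hxr, show u * ll - 3 * ll = (u - 3) * ll by ring]; exact hs5))
      (hker _ x (by rw [hxr, show (3 + Z.d / 2) * ll - 3 * ll = Z.d / 2 * ll by ring]; exact hs6))
      (Or.inr (Or.inl ⟨by rw [hxr]; (clear * - k2 k4 k5; linarith), by rw [hxr]; (clear * - k5; linarith), rfl⟩))).trans
        (hfin x (by rw [hxi, abs_zero]; norm_num))
  · have hxA : Ax x := hx.resolve_right hxa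
    obtain ⟨hxr, hxi⟩ := hxA
    rw [if_neg hxa]
    exact (glue_repr3 ha hτ0 hαβ hβγ hγ hdf hdg hdh hBf hBg hBh hD1 hD2 hD3 K (z := x) (s := s) (by (clear * - τ L hτ2 hxi; linarith)) hs
      (hker _ x (by rw [hxr, sub_zero, ← neg_mul]; exact hs1))
      (hker _ x (by rw [hxr, sub_zero]; exact hs2))
      (hker _ x (by rw [hxr, sub_zero]; exact hs3))
      (Or.inl ⟨by rw [hxr]; (clear * - k1 k6; linarith), by rw [hxr]; (clear * - k1 k6; linarith), rfl⟩)).trans (hfin x hxi)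

end Pool.Agent.PLX

end
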