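import Pool.Agent.PLX.KAsm
import Pool.Agent.PLX.KSixP

/-!
# PLX: (K) from the bounds of the row functions, real parameters (helper91)

Zones `Z : Zn` with `17 / 10 < u0`; content `Cont b m P Q`, legs on the axis:

* `MinP Z b`: `‖JU z P Q w‖ ≤ m^C` on `(u0 - 3) l ≤ Re w ≤ (u1 - 3) l`, `|Im w| ≤ ct log m`, and on `(u0 - 3) l ≤ Re w ≤ d l`,
  `|Im w| ≤ cJ log m + 1`;
* `FarP Z b`: the states `0`, `+` of the far row are `≤ m^C`, `u0 l ≤ Re x ≤ u1 l`, `|Im x| ≤ ct log m`;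
* `FarSP Z b`: they are `≤ m^{-E}` for every `E`, `|Im x| ≤ c0 log m`; `FarSP.of_exp`;
* **`kRows_ofP : 17 / 10 < Z.u0 → 1 ≤ b → MinP Z b → FarP Z b → FarSP Z b → KRows nL b`**;
* `zP`: the numbers `u0 = 206/100`, `u1 = 210/100`, `d = 1/10`, `c0 = 1/100`, `cJ = 1/50`, `ct = 11/20`.
-/

set_option autoImplicit false

noncomputable section

open Complex Filter Topology Polynomial

namespace Pool.Agent.PLX

open NUP1 (l lpos)
open PBX (Rws)
open Pool.Agent.PB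
open Pool.Agent.RX (YS YS_open)

/-- **(K2)** -/
structure MinP (Z : Zn) (b : ℕ) : Prop where
  tall : ∃ (C : ℝ) (m0 : ℕ), ∀ m ≥ m0, ∀ P Q : List ℂ, Cont b m P Q → ∀ z : ℂ, Ax z →
    ∀ w : ℂ, (Z.u0 - 3) * ll ≤ w.re → w.re ≤ (Z.u1 - 3) * ll → |w.im| ≤ Z.ct * Real.log m →
      ‖JU z P.get Q.get w‖ ≤ (m : ℝ) ^ C
  low : ∃ (C : ℝ) (m0 : ℕ), ∀ m ≥ m0, ∀ P Q : List ℂ, Cont b m P Q → ∀ z : ℂ, Ax z →
    ∀ w : ℂ, (Z.u0 - 3) * ll ≤ w.re → w.re ≤ Z.d * ll → |w.im| ≤ Z.cJ * Real.log m + 1 →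
      ‖JU z P.get Q.get w‖ ≤ (m : ℝ) ^ C

/-- **(K3)** -/
def FarP (Z : Zn) (b : ℕ) : Prop := ∃ (C : ℝ) (m0 : ℕ), ∀ m ≥ m0, ∀ P Q : List ℂ, Cont b m P Q → ∀ z : ℂ, Ax z →
  ∀ e : SignType, e ≠ .neg → ∀ x : ℂ, Z.u0 * ll ≤ x.re → x.re ≤ Z.u1 * ll → |x.im| ≤ Z.ct * Real.log m →
    ‖cF e z x P.get Q.get‖ ≤ (m : ℝ) ^ C

/-- **(K4)** -/
def FarSP (Z : Zn) (b : ℕ) : Prop := ∀ E : ℝ, ∃ m0 : ℕ, ∀ m ≥ m0, ∀ P Q : List ℂ, Cont b m P Q → ∀ z : ℂ, Ax z →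
  ∀ e : SignType, e ≠ .neg → ∀ x : ℂ, Z.u0 * ll ≤ x.re → x.re ≤ Z.u1 * ll → |x.im| ≤ Z.c0 * Real.log m →
    ‖cF e z x P.get Q.get‖ ≤ (m : ℝ) ^ (-E)

/-! ### the hypotheses of the K-terms -/

/-- `WideR` for one content -/
theorem wide_ofP {Z : Zn} (h17 : 17 / 10 < Z.u0) {b m : ℕ} {P Q : List ℂ} {z : ℂ} {C E Cp : ℝ} (hb : 1 ≤ b)
    (hm : 4 ≤ m) (hPQ : Cont b m P Q) (hz : Ax z) (hC : 0 ≤ C)
    (hpoly : ∃ (P' : ℂ[X]) (W : ℂ → ℂ) (D : ℕ), (D : ℝ) ≤ Cp * m ∧ P'.natDegree ≤ D ∧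
      (∀ x0 : ℂ, |x0.re| < 4 * ll → DifferentiableAt ℂ W x0 ∧ W x0 ≠ 0) ∧
      (∀ x0 : ℂ, |x0.re| < 4 * ll → nhG z P.get Q.get x0 * W x0 = P'.eval (cexp (2 * x0 * I))) ∧
      ∀ x0 x' : ℂ, x0.im = x'.im → |x'.re| ≤ 3 * ll + 1 / 5 * ll → |x0.re| ≤ 3 * ll + 1 / 5 * ll →
        ‖W x'‖ ≤ Real.exp (Cp * m) * ‖W x0‖)
    (hmin : ∀ w : ℂ, (Z.u0 - 3) * ll ≤ w.re → w.re ≤ (Z.u1 - 3) * ll → |w.im| ≤ Z.ct * Real.log m →
      ‖JU z P.get Q.get w‖ ≤ (m : ℝ) ^ C)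
    (hmin' : ∀ w : ℂ, (Z.u0 - 3) * ll ≤ w.re → w.re ≤ (Z.u1 - 3) * ll → |w.im| ≤ Z.ct * Real.log m →
      ‖JU (-z) (P.map Neg.neg).get (Q.map Neg.neg).get w‖ ≤ (m : ℝ) ^ C)
    (hlow : ∀ w : ℂ, (Z.u0 - 3) * ll ≤ w.re → w.re ≤ Z.d * ll → |w.im| ≤ Z.cJ * Real.log m + 1 →
      ‖JU z P.get Q.get w‖ ≤ (m : ℝ) ^ C)
    (hlow' : ∀ w : ℂ, (Z.u0 - 3) * ll ≤ w.re → w.re ≤ Z.d * ll → |w.im| ≤ Z.cJ * Real.log m + 1 →
      ‖JU (-z) (P.map Neg.neg).get (Q.map Neg.neg).get w‖ ≤ (m : ℝ) ^ C)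
    (hfar : ∀ e : SignType, e ≠ .neg → ∀ x : ℂ, Z.u0 * ll ≤ x.re → x.re ≤ Z.u1 * ll →
      |x.im| ≤ Z.ct * Real.log m → ‖cF e z x P.get Q.get‖ ≤ (m : ℝ) ^ C)
    (hfar' : ∀ e : SignType, e ≠ .neg → ∀ x : ℂ, Z.u0 * ll ≤ x.re → x.re ≤ Z.u1 * ll →
      |x.im| ≤ Z.ct * Real.log m → ‖cF e (-z) x (P.map Neg.neg).get (Q.map Neg.neg).get‖ ≤ (m : ℝ) ^ C)
    (hfs : ∀ e : SignType, e ≠ .neg → ∀ x : ℂ, Z.u0 * ll ≤ x.re → x.re ≤ Z.u1 * ll →
      |x.im| ≤ Z.c0 * Real.log m → ‖cF e z x P.get Q.get‖ ≤ (m : ℝ) ^ (-(E + 1)))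
    (hfs' : ∀ e : SignType, e ≠ .neg → ∀ x : ℂ, Z.u0 * ll ≤ x.re → x.re ≤ Z.u1 * ll →
      |x.im| ≤ Z.c0 * Real.log m →
        ‖cF e (-z) x (P.map Neg.neg).get (Q.map Neg.neg).get‖ ≤ (m : ℝ) ^ (-(E + 1))) :
    WideR Z (C + 1) Cp E m (nhG z P.get Q.get) (JU z P.get Q.get) (JV z P.get Q.get) := by
  have hl := lpos
  have hll : ll = l := rfl
  obtain ⟨nP, nQ⟩ := hPQ.nr
  have rP := nP.get
  have rQ := nQ.get
  have hz1 : |z.re| ≤ l / 2 := by rw [hz.1, abs_zero]; (clear * - hl; linarith)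
  have hz2 : |z.re| < 7 / 10 * l := by rw [hz.1, abs_zero]; (clear * - hl; linarith)
  have hz1' : |(-z).re| ≤ l / 2 := by rwa [neg_re, abs_neg]
  have hz2' : |(-z).re| < 7 / 10 * l := by rwa [neg_re, abs_neg]
  have hmr : (4 : ℝ) ≤ m := by exact_mod_cast hm
  have hm0 : (0 : ℝ) < m := by (clear * - hmr; linarith)
  have hL : 0 ≤ Real.log m := Real.log_nonneg (by (clear * - hmr; linarith))
  have hCC : (m : ℝ) ^ (C + 1) = (m : ℝ) ^ C * m := by rw [Real.rpow_add hm0, Real.rpow_one]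
  have hC1 : 1 ≤ (m : ℝ) ^ C := Real.one_le_rpow (by (clear * - hmr; linarith)) hC
  have hup : (m : ℝ) ^ C ≤ (m : ℝ) ^ (C + 1) := by
    rw [hCC]
    clear * - hmr hC1
    nlinarith
  have hE1 : (m : ℝ) ^ (-(E + 1)) = (m : ℝ) ^ (-E) * (m : ℝ)⁻¹ := by
    rw [← Real.rpow_neg_one, ← Real.rpow_add hm0]
    congr 1
    ring
  have hEE : (m : ℝ) ^ (-(E + 1)) + (m : ℝ) ^ (-(E + 1)) ≤ (m : ℝ) ^ (-E) := by
    rw [hE1]
    have h0 : 0 ≤ (m : ℝ) ^ (-E) := by positivity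
    have h1 : (m : ℝ)⁻¹ ≤ 1 / 2 := by
      rw [inv_le_comm₀ hm0 (by norm_num)]
      linarith
    clear * - h0 h1
    nlinarith
  -- the numbers of the zones
  have hd1 := Z.hd1
  have k0 : 17 / 10 * l < Z.u0 * ll := by rw [hll]; exact mul_lt_mul_of_pos_right h17 hl
  have k1 : Z.u0 * ll < Z.u1 * ll := mul_lt_mul_of_pos_right Z.hu1 (by rw [hll]; exact hl)
  have k3 : Z.u1 * ll < 3 * l := by rw [hll]; exact mul_lt_mul_of_pos_right Z.hu3 hl
  have k4 : Z.d * ll ≤ (3 - Z.u1) * l := by rw [hll]; exact mul_le_mul_of_nonneg_right hd1 hl.le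
  have k5 : 0 < Z.d * ll := mul_pos Z.hd (by rw [hll]; exact hl)
  rw [hll] at k0 k1 k3 k4 k5
  -- the right far zone
  have hR : ∀ x : ℂ, Z.u0 * ll ≤ x.re → x.re ≤ Z.u1 * ll →
      ‖nhG z P.get Q.get x - JU z P.get Q.get (x - ((3 * ll : ℝ) : ℂ))‖ ≤
        ‖cF .zero z x P.get Q.get‖ + ‖cF .pos z x P.get Q.get‖ := by
    intro x h1 h2
    rw [hll] at h1 h2
    have hx : x ∈ FS := ⟨by (clear * - k0 k1 k3 h1; linarith), by (clear * - k0 k1 k3 h2; linarith)⟩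
    have hw : |(x - ((3 * ll : ℝ) : ℂ)).re| < 13 / 10 * l := by
      rw [sub_re, ofReal_re, hll, abs_lt]
      constructor <;> (clear * - k0 h1 k1 k3 h2; linarith)
    have e1 : x = (x - ((3 * ll : ℝ) : ℂ)) + 3 * (l : ℂ) := by
      rw [hll]
      push_cast
      ring
    have e2 : cF .neg z x P.get Q.get = JU z P.get Q.get (x - ((3 * ll : ℝ) : ℂ)) := by
      conv_lhs => rw [e1]
      exact JU_far hz2 hw rP rQ
    rw [nhG_far hz1 rP rQ hx]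
    unfold nzF
    rw [sum_sign, e2]
    calc _ = ‖cF .zero z x P.get Q.get + cF .pos z x P.get Q.get‖ := by
          congr 1
          ring
      _ ≤ _ := norm_add_le _ _
  -- the left far zone
  have hLf : ∀ x : ℂ, -(Z.u1 * ll) ≤ x.re → x.re ≤ -(Z.u0 * ll) →
      ‖nhG z P.get Q.get x - JV z P.get Q.get (x + ((3 * ll : ℝ) : ℂ))‖ ≤
        ‖cF .zero (-z) (-x) (P.map Neg.neg).get (Q.map Neg.neg).get‖ +
          ‖cF .pos (-z) (-x) (P.map Neg.neg).get (Q.map Neg.neg).get‖ := by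
    intro x h1 h2
    rw [hll] at h1 h2
    have h4 : |x.re| < 4 * l := by
      rw [abs_lt]
      constructor <;> (clear * - k0 k1 k3 h1 h2; linarith)
    have hx : -x ∈ FS := ⟨by rw [neg_re]; (clear * - k0 k1 k3 h2; linarith), by rw [neg_re]; (clear * - k0 k1 k3 h1; linarith)⟩
    have hw : |(-(x + ((3 * ll : ℝ) : ℂ))).re| < 13 / 10 * l := by
      rw [neg_re, add_re, ofReal_re, hll, abs_lt]
      constructor <;> (clear * - k0 h2 k1 k3 h1; linarith)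
    have e1 : -x = (-(x + ((3 * ll : ℝ) : ℂ))) + 3 * (l : ℂ) := by
      rw [hll]
      push_cast
      ring
    have e2 : cF .neg (-z) (-x) (-P.get) (-Q.get) = JV z P.get Q.get (x + ((3 * ll : ℝ) : ℂ)) := by
      conv_lhs => rw [e1]
      exact JU_far hz2' hw (Rws.neg rP) (Rws.neg rQ)
    rw [← nhG_neg hz1 rP rQ h4, nhG_far hz1' (Rws.neg rP) (Rws.neg rQ) hx, cF_get_neg, cF_get_neg]
    unfold nzF
    rw [sum_sign, e2]
    calc _ = ‖cF .zero (-z) (-x) (-P.get) (-Q.get) + cF .pos (-z) (-x) (-P.get) (-Q.get)‖ := by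
          congr 1
          ring
      _ ≤ _ := norm_add_le _ _
  have hJV : ∀ w : ℂ, (3 - Z.u1) * ll ≤ w.re → w.re ≤ (3 - Z.u0) * ll → |w.im| ≤ Z.ct * Real.log m →
      ‖JV z P.get Q.get w‖ ≤ (m : ℝ) ^ C := by
    intro w h1 h2 h5
    have h3 := hmin' (-w) (by rw [neg_re]; linarith) (by rw [neg_re]; linarith) (by rwa [neg_im, abs_neg])
    rw [JU_get_neg] at h3
    exact h3
  have hJVl : ∀ w : ℂ, -(Z.d * ll) ≤ w.re → w.re ≤ (3 - Z.u0) * ll → |w.im| ≤ Z.cJ * Real.log m + 1 →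
      ‖JV z P.get Q.get w‖ ≤ (m : ℝ) ^ C := by
    intro w h1 h2 h5
    have h3 := hlow' (-w) (by rw [neg_re]; linarith) (by rw [neg_re]; linarith) (by rwa [neg_im, abs_neg])
    rw [JU_get_neg] at h3
    exact h3
  have hneg : ∀ x : ℂ, -(Z.u1 * ll) ≤ x.re → x.re ≤ -(Z.u0 * ll) →
      Z.u0 * ll ≤ (-x).re ∧ (-x).re ≤ Z.u1 * ll := fun x h1 h2 =>
    ⟨by rw [neg_re]; linarith, by rw [neg_re]; linarith⟩
  refine ⟨?_, fun x h1 h2 h3 => ?_, fun x h1 h2 h3 => ?_, fun x h1 h2 h3 => ?_,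
    fun y h1 h2 h3 => ?_, fun y h1 h2 h3 => ?_, ?_⟩
  · obtain ⟨P', W, D, a1, a2, a3, a4, a5⟩ := hpoly
    have := ll_pos
    exact ⟨P', W, D, a1, a2, a3, a4, fun x x' i1 i2 i3 => a5 x x' i1 (by (clear * - hll k0 k1 k3 i2; linarith)) (by (clear * - hll k0 k1 k3 i3; linarith))⟩
  · rcases le_total 0 x.re with h0 | h0
    · rw [abs_of_nonneg h0] at h1 h2
      have h4 := hR x h1 h2
      have h5 := hmin (x - ((3 * ll : ℝ) : ℂ)) (by rw [sub_re, ofReal_re]; linarith)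
        (by rw [sub_re, ofReal_re]; linarith) (by simpa using h3)
      have h6 := norm_sub_norm_le (nhG z P.get Q.get x) (JU z P.get Q.get (x - ((3 * ll : ℝ) : ℂ)))
      have h7 := hfar .zero (by decide) x h1 h2 h3
      have h8 := hfar .pos (by decide) x h1 h2 h3
      rw [hCC]
      clear * - hmr h4 h5 h6 h7 h8 hC1
      nlinarith
    · rw [abs_of_nonpos h0] at h1 h2
      have h4 := hLf x (by linarith) (by linarith)
      have h5 := hJV (x + ((3 * ll : ℝ) : ℂ)) (by rw [add_re, ofReal_re]; linarith)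
        (by rw [add_re, ofReal_re]; linarith) (by simpa using h3)
      have h6 := norm_sub_norm_le (nhG z P.get Q.get x) (JV z P.get Q.get (x + ((3 * ll : ℝ) : ℂ)))
      obtain ⟨i1, i2⟩ := hneg x (by linarith) (by linarith)
      have i3 : |(-x).im| ≤ Z.ct * Real.log m := by rwa [neg_im, abs_neg]
      have h7 := hfar' .zero (by decide) (-x) i1 i2 i3
      have h8 := hfar' .pos (by decide) (-x) i1 i2 i3
      rw [hCC]
      clear * - hmr h4 h5 h6 h7 h8 hC1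
      nlinarith
  · exact (hR x h1 h2).trans ((add_le_add (hfs .zero (by decide) x h1 h2 h3) (hfs .pos (by decide) x h1 h2 h3)).trans
      hEE)
  · obtain ⟨i1, i2⟩ := hneg x h1 h2
    have i3 : |(-x).im| ≤ Z.c0 * Real.log m := by rwa [neg_im, abs_neg]
    exact (hLf x h1 h2).trans ((add_le_add (hfs' .zero (by decide) (-x) i1 i2 i3)
      (hfs' .pos (by decide) (-x) i1 i2 i3)).trans hEE)
  · have hy : |y.re| < 13 / 10 * l := by
      rw [hll] at h1 h2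
      rw [abs_lt]
      constructor <;> (clear * - k0 h1 k1 k4 h2; linarith)
    exact ⟨(JU_diff hz2 rP rQ).differentiableAt (YS_open.mem_nhds hy), (hlow y h1 h2 h3).trans hup⟩
  · have hy : |y.re| < 13 / 10 * l := by
      rw [hll] at h1 h2
      rw [abs_lt]
      constructor <;> (clear * - k0 k1 k4 h1 h2; linarith)
    exact ⟨(JV_diff hz2 rP rQ).differentiableAt (YS_open.mem_nhds hy), (hJVl y h1 h2 h3).trans hup⟩
  · obtain ⟨R, hR1, hR2⟩ := JU_zeros hz2 rP rQ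
    refine ⟨Fin P.length, inferInstance, P.get, R, ?_, fun j => ?_, fun y h1 h2 => ⟨?_, hR2 y⟩⟩
    · rw [Fintype.card_fin]
      exact (hPQ.size hb hm).1
    · have hmem := List.get_mem P j
      have hax : ∀ {E : List ℂ} {k : ℕ}, (∀ x ∈ E, Ax x) → ∀ x ∈ E ++ zr k, Ax x := by
        intro E k hE x hx
        rcases List.mem_append.1 hx with hx | hx
        · exact hE x hx
        · rw [List.eq_of_mem_replicate hx]
          exact ⟨by simp, by simp⟩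
      cases hPQ with
      | fst h => exact hax h.ax _ hmem
      | snd h => exact hax h.ay _ hmem
    · have hy : |y.re| < 13 / 10 * l := by
        rw [hll] at h1
        clear * - k0 k1 k4 h1
        linarith
      exact hR1.differentiableAt ((isOpen_lt (continuous_abs.comp Complex.continuous_re)
        continuous_const).mem_nhds hy)

/-! ### the theorem -/

/-- **(K) from the bounds of the row functions** -/
theorem kRows_ofP {Z : Zn} (h17 : 17 / 10 < Z.u0) {b : ℕ} (hb : 1 ≤ b) (h1 : MinP Z b) (h2 : FarP Z b)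
    (h3 : FarSP Z b) : KRows nL b := by
  have hl := lpos
  intro e
  obtain ⟨⟨C1, m1, h1⟩, ⟨C1', m1', h1'⟩⟩ := h1
  obtain ⟨C2, m2, h2⟩ := h2
  set C : ℝ := max (max C1 C1') (max C2 0) with hC_def
  have hC : 0 ≤ C := (le_max_right _ _).trans (le_max_right _ _)
  have hC1 : C1 ≤ C := (le_max_left _ _).trans (le_max_left _ _)
  have hC1' : C1' ≤ C := (le_max_right _ _).trans (le_max_left _ _)
  have hC2 : C2 ≤ C := (le_max_left _ _).trans (le_max_right _ _)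
  set E : ℝ := max e 0 + 1 with hE_def
  have hE1 : e < E := by
    have := le_max_left e 0
    clear * - E this
    linarith
  obtain ⟨m3, h3⟩ := h3 (E + 1)
  obtain ⟨B, hB, hpoly⟩ := nhG_poly
  set Cp : ℝ := B * (4 * b + 5) with hCp_def
  have hCp : 0 ≤ Cp := by positivity
  obtain ⟨K0, hK0⟩ := kSixR Z (C := C + 1) (Cp := Cp) (E := E) (e := e) (by (clear * - C hC; linarith)) hCp hE1
  refine ⟨K0, fun K hK => ?_⟩
  obtain ⟨m4, hm4⟩ := hK0 K hK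
  refine ⟨max (max (max m1 m1') m2) (max (max m3 m4) 4), fun m hm n1 n2 EX EY hc z hz => ?_⟩
  have i1 : m1 ≤ m := by omega
  have i1' : m1' ≤ m := by omega
  have i2 : m2 ≤ m := by omega
  have i3 : m3 ≤ m := by omega
  have i4 : m4 ≤ m := by omega
  have i6 : 4 ≤ m := by omega
  have hmr : (4 : ℝ) ≤ m := by exact_mod_cast i6
  have hza := hz.ax
  have hzn := ax_neg hza
  have hzr : |z.re| ≤ l / 2 := by rw [hz.1, abs_zero]; (clear * - hl; linarith)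
  have hpow1 : (m : ℝ) ^ C1 ≤ (m : ℝ) ^ C := Real.rpow_le_rpow_of_exponent_le (by (clear * - hmr; linarith)) hC1
  have hpow1' : (m : ℝ) ^ C1' ≤ (m : ℝ) ^ C := Real.rpow_le_rpow_of_exponent_le (by (clear * - hmr; linarith)) hC1'
  have hpow2 : (m : ℝ) ^ C2 ≤ (m : ℝ) ^ C := Real.rpow_le_rpow_of_exponent_le (by linarith) hC2
  have hwide : ∀ P Q : List ℂ, Cont b m P Q →
      WideR Z (C + 1) Cp E m (nhG z P.get Q.get) (JU z P.get Q.get) (JV z P.get Q.get) := by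
    intro P Q hPQ
    have hsz : B * ((P.length : ℝ) + Q.length + 1) ≤ Cp * m := by
      have h := (hPQ.size hb i6).2
      have h' : (P.length : ℝ) + Q.length + 1 ≤ (4 * b + 5) * m := by exact_mod_cast h
      rw [hCp_def, mul_assoc]
      exact mul_le_mul_of_nonneg_left h' (by linarith)
    exact wide_ofP h17 hb i6 hPQ hza hC
      (hpoly _ _ z P.get Q.get Cp m hzr hPQ.nr.1.get hPQ.nr.2.get hsz)
      (fun w a1 a2 a3 => (h1 m i1 P Q hPQ z hza w a1 a2 a3).trans hpow1)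
      (fun w a1 a2 a3 => (h1 m i1 _ _ hPQ.neg (-z) hzn w a1 a2 a3).trans hpow1)
      (fun w a1 a2 a3 => (h1' m i1' P Q hPQ z hza w a1 a2 a3).trans hpow1')
      (fun w a1 a2 a3 => (h1' m i1' _ _ hPQ.neg (-z) hzn w a1 a2 a3).trans hpow1')
      (fun s hs x a1 a2 a3 => (h2 m i2 P Q hPQ z hza s hs x a1 a2 a3).trans hpow2)
      (fun s hs x a1 a2 a3 => (h2 m i2 _ _ hPQ.neg (-z) hzn s hs x a1 a2 a3).trans hpow2)
      (fun s hs x a1 a2 a3 => h3 m i3 P Q hPQ z hza s hs x a1 a2 a3)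
      (fun s hs x a1 a2 a3 => h3 m i3 _ _ hPQ.neg (-z) hzn s hs x a1 a2 a3)
  have hKt : ∀ P Q : List ℂ, Cont b m P Q → Kt (8 / 3) K (fun x => Ax x ∨ x = aF) ((m : ℝ) ^ (-e))
      (fun x => if x = aF then JU z P.get Q.get 0 else nhG z P.get Q.get x) :=
    fun P Q hPQ => hm4 m i4 _ _ _ (hwide P Q hPQ)
  have hk1 : 1 ≤ n1 := by
    have := hc.le1
    omega
  have hk2 : 1 ≤ n2 := by
    have j1 := hc.le2
    have j2 : b * 4 ≤ b * m := Nat.mul_le_mul_left _ i6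
    omega
  refine ⟨kt_of hza hKt hk1 hc.ax (Cont.fst hc), ?_⟩
  obtain ⟨p, hp, hpe⟩ := kt_of hza hKt hk2 hc.ay (Cont.snd hc)
  refine ⟨p, hp, fun y hy => ?_⟩
  have h := hpe y hy
  have e1 : nL z (EX ++ zr n1) (red n2 (y :: EY)) = nL z (red n2 (y :: EY)) (EX ++ zr n1) := by
    refine nL_swap (mem_LS hzr) ?_ (nr_E hc.ax _)
    rcases hy with hy | rfl
    · rw [red_cons (ax_ne hy), red_near _ hc.ay]
      intro x hx
      rcases List.mem_cons.1 hx with rfl | hx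
      · rw [hy.1, abs_zero]
        clear * - hl
        linarith
      · exact nr_E hc.ay _ x hx
    · rw [red_far, red_near _ hc.ay]
      exact nr_E hc.ay _
  show ‖nL z (EX ++ zr n1) (red n2 (y :: EY)) - _‖ ≤ _
  rw [e1]
  exact h

/-- `FarSP` from a bound `exp (-m^c)` -/
theorem FarSP.of_exp {Z : Zn} {b : ℕ} {c : ℝ} (hc : 0 < c) (h : ∃ m0 : ℕ, ∀ m ≥ m0, ∀ P Q : List ℂ, Cont b m P Q →
    ∀ z : ℂ, Ax z → ∀ e : SignType, e ≠ .neg → ∀ x : ℂ, Z.u0 * ll ≤ x.re → x.re ≤ Z.u1 * ll →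
      |x.im| ≤ Z.c0 * Real.log m → ‖cF e z x P.get Q.get‖ ≤ Real.exp (-(m : ℝ) ^ c)) : FarSP Z b := by
  obtain ⟨m0, h⟩ := h
  intro E
  have h1 : ∀ᶠ m : ℕ in atTop, E * Real.log m ≤ (m : ℝ) ^ c := by
    have h2 := tendsto_natCast_atTop_atTop.eventually
      ((isLittleO_log_rpow_atTop hc).bound (show 0 < 1 / (|E| + 1) by positivity))
    filter_upwards [h2, eventually_ge_atTop 2] with m h3 h4
    have hm2 : (2 : ℝ) ≤ m := by exact_mod_cast h4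
    have hL : 0 < Real.log m := Real.log_pos (by linarith)
    rw [Real.norm_of_nonneg hL.le, Real.norm_of_nonneg (by positivity), one_div, inv_mul_eq_div,
      le_div_iff₀ (by positivity)] at h3
    clear * - h3 hL
    nlinarith [le_abs_self E]
  obtain ⟨m1, hm1⟩ := h1.exists_forall_of_atTop
  refine ⟨max m0 (max m1 2), fun m hm P Q hPQ z hz e he x a1 a2 a3 => ?_⟩
  refine (h m (by omega) P Q hPQ z hz e he x a1 a2 a3).trans ?_
  have hm2 : (2 : ℝ) ≤ m := by exact_mod_cast (by omega : 2 ≤ m)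
  have h4 := hm1 m (by omega)
  rw [Real.rpow_def_of_pos (by linarith : (0 : ℝ) < m) (-E)]
  refine Real.exp_le_exp.2 ?_
  clear * - h4
  nlinarith

/-- **the numbers of (P)** -/
def zP : Zn where
  u0 := 206 / 100
  u1 := 210 / 100
  d := 1 / 10
  c0 := 1 / 100
  cJ := 1 / 50
  ct := 11 / 20
  hu0 := by norm_num
  hu1 := by norm_num
  hu3 := by norm_num
  hd := by norm_num
  hd1 := by norm_num
  hc0 := by norm_num
  hcJ := by norm_num
  hJ := by norm_num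
  ht := by norm_num

end Pool.Agent.PLX

end
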