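import Pool.Agent.ISR.FarMF
import Pool.Agent.PB.MFrho3
import Pool.Agent.RX.Un

/-!
# PLAX, block K4: the mean field of one far row in one group

Far row `x`, `11 l / 5 ≤ Re x ≤ 16 l / 5`, in the state `e`; `kO e x`, `kX e x`: the (normalised) factors of a
row `0` of the own and of the other group; `MO P k x`, `MC P k x` (`ISR/FarMF`): the mean values of the factor
on the free quanta of the own and of the other group.

* `cross_pos`, `cross_zero`, `cross_neg`: the part of the OTHER group is exactly `0`, every state;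
* `own_neg`: the part of the own group of the state `-` is exactly `0`;
* **`kO_zero_le`, `kO_pos_le`**: the part of the own group of the states `0`, `+` is at most
  `- 1/5 exp (- 8/3 |Im x|)` per row.
-/

set_option autoImplicit false
set_option linter.unusedVariables false

open MeasureTheory Set Filter Topology Complex

noncomputable section

namespace FarMF

open NUMF (l l_pos h H P Ag zj mf ch)
open PBR (rh)
open RX (kO kX)

lemma l_eq : NUP1.l = l := rfl

/-- `log ‖rh‖` on the lines -/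
lemma log_rh {j t : ℝ} (hj : |j| ≤ 4) : Real.log ‖rh (zj j t)‖ = (H t (j * l) - Real.log 2) / 2 := by
  have := NUMF.H_rh t hj
  have e : zj j t = ((j * l : ℝ) : ℂ) + t * I := by
    unfold NUMF.zj
    push_cast
    ring
  rw [e]
  linarith

lemma rh_zj_ne {j t : ℝ} (hj : |j| ≤ 4) : rh (zj j t) ≠ 0 := by
  have hl := l_pos
  refine PBR.rh_ne_zero ?_
  have e : (zj j t).re = j * l := by
    unfold NUMF.zj
    simp
  rw [e, l_eq, abs_mul, abs_of_pos hl]
  nlinarith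

section

variable {e t : ℝ}

/-- `sin` at the lines, `w = zj (1 + e) t` -/
lemma s_add (k : ℝ) (n : ℂ) (hn : n = k * l) : zj (1 + e) t + n = zj (1 + e + k) t := by
  rw [← zadd (1 + e) t k, hn]
  push_cast
  ring

lemma sn {j : ℝ} (hj : j ≠ 0) (hj8 : |j| < 8) : sin (zj j t) ≠ 0 := sin_zj_ne (Or.inr ⟨hj, hj8⟩)

lemma norm_pow_log {z : ℂ} (n : ℕ) : Real.log ‖z ^ n‖ = n * Real.log ‖z‖ := by
  rw [norm_pow, Real.log_pow]

variable (e1 : 6 / 5 ≤ e) (e2 : e ≤ 11 / 5)
include e1 e2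

lemma lrh2 : Real.log ‖rh (zj (1 + e) t) ^ 2‖ = H t ((1 + e) * l) - Real.log 2 := by
  rw [norm_pow_log, log_rh (by rw [abs_of_pos (by linarith)]; linarith)]
  push_cast
  ring

lemma rh2_ne : rh (zj (1 + e) t) ^ 2 ≠ 0 :=
  pow_ne_zero _ (rh_zj_ne (by rw [abs_of_pos (by linarith)]; linarith))

/-- the four sines which never vanish -/
lemma ls2 : sin (zj (1 + e) t + 2 * l) ≠ 0 ∧ Real.log ‖sin (zj (1 + e) t + 2 * l)‖ =
    (h t ((1 - e) * l) - Real.log 2) / 2 := by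
  have e0 : zj (1 + e) t + 2 * l = zj (1 + e + 2) t := s_add 2 _ (by push_cast; ring)
  have n : sin (zj (1 + e + 2) t) ≠ 0 := sn (by linarith) (by rw [abs_of_pos (by linarith)]; linarith)
  rw [e0, lsin n, show (4 : ℝ) - (1 + e + 2) = 1 - e by ring]
  exact ⟨n, rfl⟩

lemma ls3 : sin (zj (1 + e) t + 3 * l) ≠ 0 ∧ Real.log ‖sin (zj (1 + e) t + 3 * l)‖ =
    (h t (e * l) - Real.log 2) / 2 := by
  have e0 : zj (1 + e) t + 3 * l = zj (1 + e + 3) t := s_add 3 _ (by push_cast; ring)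
  have n : sin (zj (1 + e + 3) t) ≠ 0 := sn (by linarith) (by rw [abs_of_pos (by linarith)]; linarith)
  have q := NUMF.h_neg_right t (e * l)
  rw [e0, lsin n, show (4 : ℝ) - (1 + e + 3) = -e by ring, show -e * l = -(e * l) by ring, q]
  exact ⟨n, rfl⟩

lemma ls0 : sin (zj (1 + e) t) ≠ 0 ∧ Real.log ‖sin (zj (1 + e) t)‖ =
    (h t ((3 - e) * l) - Real.log 2) / 2 := by
  have n : sin (zj (1 + e) t) ≠ 0 := sn (by linarith) (by rw [abs_of_pos (by linarith)]; linarith)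
  rw [lsin n, show (4 : ℝ) - (1 + e) = 3 - e by ring]
  exact ⟨n, rfl⟩

lemma lsm1 : sin (zj (1 + e) t - l) ≠ 0 ∧ Real.log ‖sin (zj (1 + e) t - l)‖ =
    (h t ((4 - e) * l) - Real.log 2) / 2 := by
  have n : sin (zj e t) ≠ 0 := sn (by linarith) (by rw [abs_of_pos (by linarith)]; linarith)
  rw [zj_sub, lsin n]
  exact ⟨n, rfl⟩

lemma lsm2 : sin (2 * l - zj (1 + e) t) ≠ 0 ∧ Real.log ‖sin (2 * l - zj (1 + e) t)‖ =
    (h t ((5 - e) * l) - Real.log 2) / 2 := by
  have e0 : zj (1 + e) t + -2 * l = zj (1 + e + -2) t := s_add (-2) _ (by push_cast; ring)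
  have n : sin (zj (1 + e + -2) t) ≠ 0 := sn (by linarith) (by rw [abs_of_pos (by linarith)]; linarith)
  have e3 : 2 * (l : ℂ) - zj (1 + e) t = -zj (1 + e + -2) t := by rw [← e0]; ring
  rw [e3, Complex.sin_neg, norm_neg, lsin n, show (4 : ℝ) - (1 + e + -2) = 5 - e by ring]
  exact ⟨neg_ne_zero.2 n, rfl⟩

/-- the sine which vanishes at `3 l` -/
lemma lsm3 (hs : t ≠ 0 ∨ e ≠ 2) : sin (3 * l - zj (1 + e) t) ≠ 0 ∧
    Real.log ‖sin (3 * l - zj (1 + e) t)‖ = (h t ((6 - e) * l) - Real.log 2) / 2 := by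
  have e0 : zj (1 + e) t + -3 * l = zj (1 + e + -3) t := s_add (-3) _ (by push_cast; ring)
  have n : sin (zj (1 + e + -3) t) ≠ 0 := sin_zj_ne (by
    rcases hs with hs | hs
    · exact Or.inl hs
    · refine Or.inr ⟨fun h => hs (by linarith), ?_⟩
      rw [abs_lt]
      constructor <;> linarith)
  have e3 : 3 * (l : ℂ) - zj (1 + e) t = -zj (1 + e + -3) t := by rw [← e0]; ring
  rw [e3, Complex.sin_neg, norm_neg, lsin n, show (4 : ℝ) - (1 + e + -3) = 6 - e by ring]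
  exact ⟨neg_ne_zero.2 n, rfl⟩

/-! ### the other group -/

theorem cross_pos : kX .pos (zj (1 + e) t) ≠ 0 ∧
    Real.log ‖kX .pos (zj (1 + e) t)‖ + MC P 0 (zj (1 + e) t) = 0 := by
  have a := (MC0 NUMF.integral_P NUMF.P_integrable hP e t).2
  simp only [Hr_P] at a
  have r := lrh2 (t := t) e1 e2
  have rn := rh2_ne (t := t) e1 e2
  have e0 : kX .pos (zj (1 + e) t) = 1 / rh (zj (1 + e) t) ^ 2 := by
    unfold RX.kX
    simp only [PBS.gw]
  rw [e0, norm_div, norm_one, Real.log_div one_ne_zero (norm_ne_zero_iff.2 rn), Real.log_one, r, a]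
  exact ⟨div_ne_zero one_ne_zero rn, by ring⟩

theorem cross_zero : kX .zero (zj (1 + e) t) ≠ 0 ∧
    Real.log ‖kX .zero (zj (1 + e) t)‖ + MC P 1 (zj (1 + e) t) = 0 := by
  have a := (MC1 NUMF.integral_P NUMF.P_integrable hP e t).2
  simp only [Hr_P] at a
  have r := lrh2 (t := t) e1 e2
  have rn := rh2_ne (t := t) e1 e2
  obtain ⟨n3, s3⟩ := ls3 (t := t) e1 e2
  have e0 : kX .zero (zj (1 + e) t) = sin (zj (1 + e) t + 3 * l) ^ 2 / rh (zj (1 + e) t) ^ 2 := by
    unfold RX.kX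
    simp only [PBS.gw]
    rw [l_eq, sub_neg_eq_add, add_comm]
  have nn := pow_ne_zero 2 n3
  have c := NUMF.conv_unit t (y := e) (by rw [abs_of_pos (by linarith)]; linarith)
  have r5 := NUMF.H_refl t (7 + e)
  have q := NUMF.H_neg_right t ((e - 1) * l)
  rw [show (8 : ℝ) - (7 + e) = 1 - e by ring, show (1 - e) * l = -((e - 1) * l) by ring, q] at r5
  rw [e0, norm_div, Real.log_div (norm_ne_zero_iff.2 nn) (norm_ne_zero_iff.2 rn), norm_pow_log, s3, r, a]
  refine ⟨div_ne_zero nn rn, ?_⟩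
  rw [show (1 + e) * l = (e + 1) * l by ring]
  push_cast
  linarith

theorem cross_neg : kX .neg (zj (1 + e) t) ≠ 0 ∧
    Real.log ‖kX .neg (zj (1 + e) t)‖ + MC P 2 (zj (1 + e) t) = 0 := by
  have a := (MC2 NUMF.integral_P NUMF.P_integrable hP e t).2
  simp only [Hr_P] at a
  have r := lrh2 (t := t) e1 e2
  have rn := rh2_ne (t := t) e1 e2
  obtain ⟨n3, s3⟩ := ls3 (t := t) e1 e2
  obtain ⟨n2, s2⟩ := ls2 (t := t) e1 e2
  have e0 : kX .neg (zj (1 + e) t) = sin (zj (1 + e) t + 2 * l) ^ 2 * sin (zj (1 + e) t + 3 * l) ^ 2 /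
      rh (zj (1 + e) t) ^ 2 := by
    unfold RX.kX
    simp only [PBS.gw]
    rw [l_eq, sub_neg_eq_add, sub_neg_eq_add, add_comm (2 * (l : ℂ)), add_comm (3 * (l : ℂ))]
  have m3 := pow_ne_zero 2 n3
  have m2 := pow_ne_zero 2 n2
  have c := NUMF.conv_unit t (y := e) (by rw [abs_of_pos (by linarith)]; linarith)
  have c' := NUMF.conv_unit t (y := 1 - e) (by rw [abs_le]; constructor <;> linarith)
  have r6 := NUMF.H_refl t (6 + e)
  have q := NUMF.H_neg_right t ((e - 1) * l)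
  have q0 := NUMF.H_neg_right t (e * l)
  rw [show (8 : ℝ) - (6 + e) = 2 - e by ring] at r6
  rw [show 1 - e + 1 = 2 - e by ring, show (1 - e - 1) * l = -(e * l) by ring, q0,
    show (1 - e) * l = -((e - 1) * l) by ring, q] at c'
  rw [show -((e - 1) * l) = (1 - e) * l by ring] at c'
  rw [e0, norm_div, Real.log_div (norm_ne_zero_iff.2 (mul_ne_zero m2 m3)) (norm_ne_zero_iff.2 rn), norm_mul,
    Real.log_mul (norm_ne_zero_iff.2 m2) (norm_ne_zero_iff.2 m3), norm_pow_log, norm_pow_log, s3, s2, r, a]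
  refine ⟨div_ne_zero (mul_ne_zero m2 m3) rn, ?_⟩
  rw [show (1 + e) * l = (e + 1) * l by ring]
  push_cast
  linarith

/-! ### the own group -/

theorem own_neg : kO .neg (zj (1 + e) t) ≠ 0 ∧
    Real.log ‖kO .neg (zj (1 + e) t)‖ + MO P 2 (zj (1 + e) t) = 0 := by
  have a := (MO2 NUMF.integral_P NUMF.P_integrable hP e t).2
  simp only [Hr_P] at a
  have r := lrh2 (t := t) e1 e2
  have rn := rh2_ne (t := t) e1 e2
  obtain ⟨n3, s3⟩ := ls3 (t := t) e1 e2
  obtain ⟨n2, s2⟩ := ls2 (t := t) e1 e2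
  obtain ⟨n0, s0⟩ := ls0 (t := t) e1 e2
  obtain ⟨n1, s1⟩ := lsm1 (t := t) e1 e2
  have e0 : kO .neg (zj (1 + e) t) = sin (zj (1 + e) t + 2 * l) * sin (zj (1 + e) t + 3 * l) /
      (sin (zj (1 + e) t) * sin (zj (1 + e) t - l)) / rh (zj (1 + e) t) ^ 2 := by
    unfold RX.kO
    simp only [PBS.fw]
    rw [l_eq]
  have m1 := mul_ne_zero n2 n3
  have m2 := mul_ne_zero n0 n1
  have c := NUMF.conv_unit t (y := e) (by rw [abs_of_pos (by linarith)]; linarith)
  have c' := NUMF.conv_unit t (y := 1 - e) (by rw [abs_le]; constructor <;> linarith)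
  have c3 := NUMF.conv_unit t (y := 3 - e) (by rw [abs_of_pos (by linarith)]; linarith)
  have c4 := NUMF.conv_unit t (y := 4 - e) (by rw [abs_of_pos (by linarith)]; linarith)
  have r3 := NUMF.H_refl t (3 + e)
  have q := NUMF.H_neg_right t ((e - 1) * l)
  have q0 := NUMF.H_neg_right t (e * l)
  rw [show (8 : ℝ) - (3 + e) = 5 - e by ring] at r3
  rw [show 1 - e + 1 = 2 - e by ring, show (1 - e - 1) * l = -(e * l) by ring, q0] at c'
  rw [show 3 - e + 1 = 4 - e by ring, show 3 - e - 1 = 2 - e by ring] at c3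
  rw [show 4 - e + 1 = 5 - e by ring, show 4 - e - 1 = 3 - e by ring] at c4
  rw [show -((e - 1) * l) = (1 - e) * l by ring] at q
  rw [e0, norm_div, Real.log_div (norm_ne_zero_iff.2 (div_ne_zero m1 m2)) (norm_ne_zero_iff.2 rn), norm_div,
    Real.log_div (norm_ne_zero_iff.2 m1) (norm_ne_zero_iff.2 m2), norm_mul, norm_mul,
    Real.log_mul (norm_ne_zero_iff.2 n2) (norm_ne_zero_iff.2 n3),
    Real.log_mul (norm_ne_zero_iff.2 n0) (norm_ne_zero_iff.2 n1), s3, s2, s0, s1, r, a]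
  refine ⟨div_ne_zero (div_ne_zero m1 m2) rn, ?_⟩
  rw [show (1 + e) * l = (e + 1) * l by ring]
  linarith

theorem own_zero (hs : t ≠ 0 ∨ e ≠ 2) : kO .zero (zj (1 + e) t) ≠ 0 ∧
    Real.log ‖kO .zero (zj (1 + e) t)‖ + MO P 1 (zj (1 + e) t) = -mf (e - 1) t := by
  have a := (MO1 NUMF.integral_P NUMF.P_integrable hP e t).2
  simp only [Hr_P] at a
  have r := lrh2 (t := t) e1 e2
  have rn := rh2_ne (t := t) e1 e2
  obtain ⟨n3, s3⟩ := ls3 (t := t) e1 e2
  obtain ⟨n2, s2⟩ := ls2 (t := t) e1 e2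
  obtain ⟨n0, s0⟩ := ls0 (t := t) e1 e2
  obtain ⟨m3, t3⟩ := lsm3 e1 e2 hs
  have e0 : kO .zero (zj (1 + e) t) = sin (zj (1 + e) t + 3 * l) * sin (3 * l - zj (1 + e) t) *
      sin (zj (1 + e) t + 2 * l) / sin (zj (1 + e) t) / rh (zj (1 + e) t) ^ 2 := by
    unfold RX.kO
    simp only [PBS.fw]
    rw [l_eq, add_comm (3 * (l : ℂ))]
  have m0 := mul_ne_zero (mul_ne_zero n3 m3) n2
  have c := NUMF.conv_unit t (y := e) (by rw [abs_of_pos (by linarith)]; linarith)
  have c' := NUMF.conv_unit t (y := e - 1) (by rw [abs_le]; constructor <;> linarith)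
  have r3 := NUMF.H_refl t (3 + e)
  have r5 := NUMF.H_refl t (5 + e)
  have r4 := NUMF.H_refl t (4 + e)
  have r2 := NUMF.H_refl t (2 + e)
  have q := NUMF.H_neg_right t ((e - 1) * l)
  have q' := NUMF.h_neg_right t ((e - 1) * l)
  have q2 := NUMF.H_neg_right t ((e - 2) * l)
  have q0 := NUMF.H_neg_right t (e * l)
  rw [show (8 : ℝ) - (3 + e) = 5 - e by ring] at r3
  rw [show (8 : ℝ) - (5 + e) = 3 - e by ring] at r5
  rw [show (8 : ℝ) - (4 + e) = 4 - e by ring] at r4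
  rw [show (8 : ℝ) - (2 + e) = 6 - e by ring] at r2
  rw [show -((e - 1) * l) = (1 - e) * l by ring] at q q'
  rw [show -((e - 2) * l) = (2 - e) * l by ring] at q2
  rw [show e - 1 + 1 = e by ring, show e - 1 - 1 = e - 2 by ring] at c'
  have c3 := NUMF.conv_unit t (y := 3 - e) (by rw [abs_of_pos (by linarith)]; linarith)
  have c4 := NUMF.conv_unit t (y := 4 - e) (by rw [abs_of_pos (by linarith)]; linarith)
  rw [show 3 - e + 1 = 4 - e by ring, show 3 - e - 1 = 2 - e by ring] at c3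
  rw [show 4 - e + 1 = 5 - e by ring, show 4 - e - 1 = 3 - e by ring] at c4
  rw [e0, norm_div, Real.log_div (norm_ne_zero_iff.2 (div_ne_zero m0 n0)) (norm_ne_zero_iff.2 rn), norm_div,
    Real.log_div (norm_ne_zero_iff.2 m0) (norm_ne_zero_iff.2 n0), norm_mul, norm_mul,
    Real.log_mul (mul_ne_zero (norm_ne_zero_iff.2 n3) (norm_ne_zero_iff.2 m3)) (norm_ne_zero_iff.2 n2),
    Real.log_mul (norm_ne_zero_iff.2 n3) (norm_ne_zero_iff.2 m3), s3, s2, s0, t3, r, a, NUMF.mf_eq]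
  refine ⟨div_ne_zero (div_ne_zero m0 n0) rn, ?_⟩
  rw [show (3 : ℝ) - (e - 1) = 4 - e by ring, show (5 : ℝ) - (e - 1) = 6 - e by ring,
    show (4 : ℝ) - (e - 1) = 5 - e by ring, show (2 : ℝ) - (e - 1) = 3 - e by ring,
    show (2 : ℝ) + (e - 1) = e + 1 by ring, show e - 1 + 1 = e by ring, show e - 1 - 1 = e - 2 by ring,
    show (1 + e) * l = (e + 1) * l by ring]
  linarith

theorem own_pos (hs : t ≠ 0 ∨ e ≠ 2) : kO .pos (zj (1 + e) t) ≠ 0 ∧
    Real.log ‖kO .pos (zj (1 + e) t)‖ + MO P 0 (zj (1 + e) t) = -mf (e - 1) t - mf e t := by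
  obtain ⟨hz, z⟩ := own_zero e1 e2 hs
  have a0 := (MO0 NUMF.integral_P NUMF.P_integrable hP e t).2
  have a1 := (MO1 NUMF.integral_P NUMF.P_integrable hP e t).2
  simp only [Hr_P] at a0 a1
  have rn := rh2_ne (t := t) e1 e2
  obtain ⟨n3, s3⟩ := ls3 (t := t) e1 e2
  obtain ⟨n2, s2⟩ := ls2 (t := t) e1 e2
  obtain ⟨n0, s0⟩ := ls0 (t := t) e1 e2
  obtain ⟨m2, t2⟩ := lsm2 (t := t) e1 e2
  obtain ⟨m3, t3⟩ := lsm3 e1 e2 hs
  have e0 : kO .pos (zj (1 + e) t) = kO .zero (zj (1 + e) t) *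
      (sin (zj (1 + e) t) * sin (2 * l - zj (1 + e) t)) := by
    unfold RX.kO
    simp only [PBS.fw]
    rw [l_eq, add_comm (2 * (l : ℂ)) (zj (1 + e) t)]
    field_simp
  have r5 := NUMF.H_refl t (5 + e)
  have r6 := NUMF.H_refl t (6 + e)
  have r4 := NUMF.H_refl t (4 + e)
  have r3 := NUMF.H_refl t (3 + e)
  have r2 := NUMF.H_refl t (2 + e)
  have q := NUMF.H_neg_right t ((e - 1) * l)
  have c := NUMF.conv_unit t (y := e) (by rw [abs_of_pos (by linarith)]; linarith)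
  rw [show (8 : ℝ) - (3 + e) = 5 - e by ring] at r3
  rw [show (8 : ℝ) - (5 + e) = 3 - e by ring] at r5
  rw [show (8 : ℝ) - (4 + e) = 4 - e by ring] at r4
  rw [show (8 : ℝ) - (6 + e) = 2 - e by ring] at r6
  rw [show (8 : ℝ) - (2 + e) = 6 - e by ring] at r2
  rw [e0, norm_mul, norm_mul, Real.log_mul (norm_ne_zero_iff.2 hz) (mul_ne_zero (norm_ne_zero_iff.2 n0)
    (norm_ne_zero_iff.2 m2)), Real.log_mul (norm_ne_zero_iff.2 n0) (norm_ne_zero_iff.2 m2), s0, t2]
  refine ⟨mul_ne_zero hz (mul_ne_zero n0 m2), ?_⟩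
  have hm := NUMF.mf_eq e t
  rw [show (2 : ℝ) + e = 2 + e from rfl] at hm
  linarith

end

/-! ### the far zone -/

lemma far_e {x : ℂ} (h1 : 11 / 5 * l ≤ x.re) (h2 : x.re ≤ 16 / 5 * l) : ∃ e : ℝ, 6 / 5 ≤ e ∧ e ≤ 11 / 5 ∧
    x = zj (1 + e) x.im := by
  have hl := l_pos
  refine ⟨x.re / l - 1, ?_, ?_, as_zj x⟩
  · have : 11 / 5 ≤ x.re / l := by rw [le_div_iff₀ hl]; exact h1
    linarith
  · have : x.re / l ≤ 16 / 5 := by rw [div_le_iff₀ hl]; exact h2
    linarith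

/-- the number of caught quanta -/
def kk : SignType → ℕ
  | .pos => 0
  | .zero => 1
  | .neg => 2

lemma exp_one {a b : ℝ} (ha : 0 < a) (h : Real.log a + b = 0) : a * Real.exp b = 1 := by
  rw [show b = -Real.log a by linarith, Real.exp_neg, Real.exp_log ha]
  exact mul_inv_cancel₀ ha.ne'

variable {x : ℂ} (h1 : 11 / 5 * l ≤ x.re) (h2 : x.re ≤ 16 / 5 * l)
include h1 h2

/-- **the other group: no mean field**, every state of the far row -/
theorem kX_one (e : SignType) : ‖kX e x‖ * Real.exp (MC P (kk e) x) = 1 := by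
  obtain ⟨r, r1, r2, hx⟩ := far_e h1 h2
  rw [hx]
  cases e
  · obtain ⟨n, h⟩ := cross_zero (t := x.im) r1 r2
    exact exp_one (norm_pos_iff.2 n) h
  · obtain ⟨n, h⟩ := cross_neg (t := x.im) r1 r2
    exact exp_one (norm_pos_iff.2 n) h
  · obtain ⟨n, h⟩ := cross_pos (t := x.im) r1 r2
    exact exp_one (norm_pos_iff.2 n) h

/-- **the own group, state `-`: no mean field** -/
theorem kO_one : ‖kO .neg x‖ * Real.exp (MO P 2 x) = 1 := by
  obtain ⟨r, r1, r2, hx⟩ := far_e h1 h2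
  rw [hx]
  obtain ⟨n, h⟩ := own_neg (t := x.im) r1 r2
  exact exp_one (norm_pos_iff.2 n) h

theorem kO_ne_neg : kO .neg x ≠ 0 := by
  obtain ⟨r, r1, r2, hx⟩ := far_e h1 h2
  rw [hx]
  exact (own_neg (t := x.im) r1 r2).1

theorem kX_ne (e : SignType) : kX e x ≠ 0 := by
  obtain ⟨r, r1, r2, hx⟩ := far_e h1 h2
  rw [hx]
  cases e
  · exact (cross_zero (t := x.im) r1 r2).1
  · exact (cross_neg (t := x.im) r1 r2).1
  · exact (cross_pos (t := x.im) r1 r2).1

/-- **the own group, states `0`, `+`** -/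
theorem kO_le {e : SignType} (he : e ≠ .neg) : ‖kO e x‖ * Real.exp (MO P (kk e) x) ≤
    Real.exp (-(1 / 5) * Real.exp (-(8 / 3) * |x.im|)) := by
  have hl := l_pos
  obtain ⟨r, r1, r2, hx⟩ := far_e h1 h2
  obtain ⟨t, ht⟩ : ∃ t : ℝ, t = x.im := ⟨_, rfl⟩
  rw [← ht] at hx ⊢
  by_cases hs : t ≠ 0 ∨ r ≠ 2
  · have hm := mf_ge (j := r - 1) (t := t) (by linarith) (by linarith) (by
      rcases hs with hs | hs
      · exact Or.inl hs
      · exact Or.inr fun h => hs (by linarith))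
    have hm2 := mf_nonneg (j := r) (t := t) r1 r2
    have hc := exp_ch t
    have h5 : 1 / 5 / ch t = 1 / 5 * (1 / ch t) := by ring
    rw [h5] at hm
    rw [hx]
    cases e
    · obtain ⟨n, h⟩ := own_zero r1 r2 hs
      rw [← Real.exp_log (norm_pos_iff.2 n), ← Real.exp_add]
      show Real.exp (_ + MO P 1 (zj (1 + r) t)) ≤ _
      rw [h]
      exact Real.exp_le_exp.2 (by linarith)
    · exact absurd rfl he
    · obtain ⟨n, h⟩ := own_pos r1 r2 hs
      rw [← Real.exp_log (norm_pos_iff.2 n), ← Real.exp_add]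
      show Real.exp (_ + MO P 0 (zj (1 + r) t)) ≤ _
      rw [h]
      exact Real.exp_le_exp.2 (by linarith)
  · push Not at hs
    obtain ⟨a1, a2⟩ := hs
    have e3 : sin (3 * l - x) = 0 := by
      rw [hx, a1, a2]
      have : 3 * (l : ℂ) - zj (1 + 2) 0 = 0 := by
        unfold NUMF.zj
        push_cast
        ring
      rw [this, Complex.sin_zero]
    have : kO e x = 0 := by
      unfold RX.kO
      cases e
      · simp only [PBS.fw]
        rw [l_eq, e3]
        simp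
      · exact absurd rfl he
      · simp only [PBS.fw]
        rw [l_eq, e3]
        simp
    rw [this, norm_zero, zero_mul]
    positivity

end FarMF

end
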