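import Pool.Agent.PLX.KEx
import Pool.Agent.PLX.FarK5

/-!
# PLAX (K): mean field of a removed row and of a far row, near the line `2 l`

As `PLX/KEx`, for the far zone `41/20 l ≤ Re x ≤ 43/20 l` (states `0`, `+`), `41/20 l ≤ Re x ≤ 63/20 l` (state `-`:
`JU` with `x = w + 3 l`, `- 19/20 l ≤ Re w ≤ 3/20 l`); gain `1/20 exp (- 8/3 |Im x|)`.

* `kO_TS`, `kX_TS`, `k1_le`, `kO_gn`, `kX_gn`; **`pre_le`**.
-/

set_option autoImplicit false
set_option linter.unusedVariables false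

open MeasureTheory Set Filter Topology Complex

noncomputable section

namespace Pool.Agent.PLX.P

open NUP1 (l lpos)
open PBX (Rws)
open PBR (rh)
open _root_.RX (kO kX k1 LL)
open Pool.Agent.PB (Lp Fp)
open FarMF (MO MC kk)

/-! ### the factors of one row -/

/-- the range of the state `-` -/
def Kn : Set ℝ := Set.Icc (41 / 20 * l) (63 / 20 * l)

/-- the range of the states `0`, `+` -/
def Kf : Set ℝ := Set.Icc (41 / 20 * l) (43 / 20 * l)

/-- the range of a state -/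
def KF (e : SignType) : Set ℝ := if e = .neg then Kn else Kf

theorem Kf_Kn {t : ℝ} (h : t ∈ Kf) : t ∈ Kn := by
  have hl := lpos
  obtain ⟨h1, h2⟩ := h
  exact ⟨h1, by linarith⟩

theorem KF_Kn {e : SignType} {t : ℝ} (h : t ∈ KF e) : t ∈ Kn := by
  unfold KF at h
  split_ifs at h
  · exact h
  · exact Kf_Kn h

theorem Kn_ab : ∀ t ∈ Kn, 41 / 20 * l ≤ t ∧ t ≤ 63 / 20 * l := fun t h => h

theorem Kf_ab : ∀ t ∈ Kf, 41 / 20 * l ≤ t ∧ t ≤ 43 / 20 * l := fun t h => h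

theorem rh_Kn : TS Kn 1 rh := ts_rh fun t h => by
  have hl := lpos
  obtain ⟨h1, h2⟩ := h
  rw [abs_of_nonneg (by linarith)]
  linarith

theorem rh_Kf : TS Kf 1 rh := ts_rh fun t h => by
  have hl := lpos
  obtain ⟨h1, h2⟩ := h
  rw [abs_of_nonneg (by linarith)]
  linarith

/-- **the own row** -/
theorem kO_TS (e : SignType) : ∃ r : ℝ, TS (KF e) r (kO e) := by
  cases e
  · -- zero
    have h := ((((ts_add Kf_ab 3 (δ := 1) 0 (by norm_num) (by norm_num) (by norm_num) (by norm_num)).mul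
      (ts_sub Kf_ab 3 (δ := 1 / 10) 0 (by norm_num) (by norm_num) (by norm_num) (by norm_num))).mul
      (ts_add Kf_ab 2 (δ := 1) 0 (by norm_num) (by norm_num) (by norm_num) (by norm_num))).div
      (ts_add Kf_ab 0 (δ := 1) 0 (by norm_num) (by norm_num) (by norm_num) (by norm_num))).div rh_Kf.sq
    refine ⟨_, h.congr rfl fun w _ => ?_⟩
    unfold _root_.RX.kO
    simp only [PBS.fw]
    push_cast
    rw [add_comm (3 * (l : ℂ)), zero_mul, add_zero]
  · have h := (((ts_add Kn_ab 2 (δ := 1) 0 (by norm_num) (by norm_num) (by norm_num) (by norm_num)).mul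
      (ts_add Kn_ab 3 (δ := 1) 0 (by norm_num) (by norm_num) (by norm_num) (by norm_num))).div
      ((ts_add Kn_ab 0 (δ := 1) 0 (by norm_num) (by norm_num) (by norm_num) (by norm_num)).mul
      (ts_add Kn_ab (-1) (δ := 1) 0 (by norm_num) (by norm_num) (by norm_num) (by norm_num)))).div rh_Kn.sq
    refine ⟨_, h.congr rfl fun w _ => ?_⟩
    unfold _root_.RX.kO
    simp only [PBS.fw]
    push_cast
    rw [zero_mul, add_zero, neg_one_mul, ← sub_eq_add_neg]
  · have h := (((ts_add Kf_ab 3 (δ := 1) 0 (by norm_num) (by norm_num) (by norm_num) (by norm_num)).mul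
      (ts_sub Kf_ab 3 (δ := 1 / 10) 0 (by norm_num) (by norm_num) (by norm_num) (by norm_num))).mul
      ((ts_add Kf_ab 2 (δ := 1) 0 (by norm_num) (by norm_num) (by norm_num) (by norm_num)).mul
      (ts_sub Kf_ab 2 (δ := 1 / 20) (-1) (by norm_num) (by norm_num) (by norm_num) (by norm_num)))).div rh_Kf.sq
    refine ⟨_, h.congr rfl fun w _ => ?_⟩
    unfold _root_.RX.kO
    simp only [PBS.fw]
    push_cast
    rw [add_comm (3 * (l : ℂ)), add_comm (2 * (l : ℂ))]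

/-- **the row of the other group** -/
theorem kX_TS (e : SignType) : ∃ r : ℝ, TS (KF e) r (kX e) := by
  cases e
  · have h := (ts_add Kf_ab 3 (δ := 1) 0 (by norm_num) (by norm_num) (by norm_num) (by norm_num)).sq.div
      rh_Kf.sq
    refine ⟨_, h.congr rfl fun w _ => ?_⟩
    unfold _root_.RX.kX
    simp only [PBS.gw]
    push_cast
    rw [sub_neg_eq_add, add_comm (3 * (l : ℂ))]
  · have h := ((ts_add Kn_ab 2 (δ := 1) 0 (by norm_num) (by norm_num) (by norm_num) (by norm_num)).sq.mul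
      (ts_add Kn_ab 3 (δ := 1) 0 (by norm_num) (by norm_num) (by norm_num) (by norm_num)).sq).div
      rh_Kn.sq
    refine ⟨_, h.congr rfl fun w _ => ?_⟩
    unfold _root_.RX.kX
    simp only [PBS.gw]
    push_cast
    rw [sub_neg_eq_add, sub_neg_eq_add, add_comm (3 * (l : ℂ)), add_comm (2 * (l : ℂ))]
  · have h := rh_Kf.sq.inv
    refine ⟨_, h.congr rfl fun w _ => ?_⟩
    unfold _root_.RX.kX
    simp only [PBS.gw]

/-- **the legs and the row itself** -/
theorem k1_le : ∃ C : ℝ, 1 ≤ C ∧ ∀ (e : SignType) (z x0 : ℂ), Ax z → x0.re ∈ Kn →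
    ‖k1 z e x0‖ ≤ C := by
  have hl := lpos
  obtain ⟨C, hC, h⟩ := ts_rh (K := Set.Icc (-(63 / 20 * l)) (-(41 / 20 * l))) (fun t h => by
    obtain ⟨h1, h2⟩ := h
    rw [abs_of_nonpos (by linarith)]
    linarith)
  refine ⟨3 / 2 * C ^ 2, by nlinarith, fun e z x0 hz hx => ?_⟩
  obtain ⟨x1, x2⟩ := hx
  have hre : (z - x0).re ∈ Set.Icc (-(63 / 20 * l)) (-(41 / 20 * l)) := by
    rw [sub_re, hz.1, zero_sub]
    exact ⟨by linarith, by linarith⟩
  obtain ⟨h1, h2⟩ := h _ hre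
  rw [one_mul] at h1
  have hn : 0 < ‖rh (z - x0)‖ := norm_pos_iff.2 ((ts_rh (K := Set.Icc (-(63 / 20 * l)) (-(41 / 20 * l)))
    (fun t h => by
    obtain ⟨h1, h2⟩ := h
    rw [abs_of_nonpos (by linarith)]
    linarith)).ne hre)
  have sl : ‖Complex.sin (l : ℂ)‖ ≤ 1 := by
    have := PBR.norm_sin_le (l : ℂ)
    rwa [ofReal_im, abs_zero, Real.exp_zero] at this
  have him : ∀ k : ℝ, ‖Complex.sin (z - x0 + ((k * l : ℝ) : ℂ))‖ ≤ Real.exp |(z - x0).im| := fun k => by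
    have := PBR.norm_sin_le (z - x0 + ((k * l : ℝ) : ℂ))
    rwa [add_im, ofReal_im, add_zero] at this
  have hE := Real.exp_pos |(z - x0).im|
  have key : ‖LL z e x0‖ ≤ Real.exp |(z - x0).im| ^ 2 := by
    unfold _root_.RX.LL
    rw [norm_mul]
    have two : ∀ k k' : ℝ, ‖Complex.sin (z - x0 + ((k * l : ℝ) : ℂ)) * Complex.sin (z - x0 + ((k' * l : ℝ) : ℂ))‖ ≤
        Real.exp |(z - x0).im| ^ 2 := fun k k' => by
      rw [norm_mul, sq]
      exact mul_le_mul (him k) (him k') (norm_nonneg _) hE.le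
    have q3 : z - x0 - 3 * (l : ℂ) = z - x0 + ((-3 * l : ℝ) : ℂ) := by push_cast; ring
    have q2 : z - x0 - 2 * (l : ℂ) = z - x0 + ((-2 * l : ℝ) : ℂ) := by push_cast; ring
    have p3 : z - x0 + 3 * (l : ℂ) = z - x0 + ((3 * l : ℝ) : ℂ) := by push_cast; ring
    have p2 : z - x0 + 2 * (l : ℂ) = z - x0 + ((2 * l : ℝ) : ℂ) := by push_cast; ring
    cases e
    · show ‖(1 : ℂ)‖ * ‖Complex.sin (z - x0 + 3 * l) * Complex.sin (z - x0 - 3 * l)‖ ≤ _
      rw [norm_one, one_mul, p3, q3]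
      exact two 3 (-3)
    · show ‖Complex.sin (l : ℂ)‖ * ‖Complex.sin (z - x0 - 3 * l) * Complex.sin (z - x0 - 2 * l)‖ ≤ _
      rw [q3, q2]
      exact (mul_le_of_le_one_left (norm_nonneg _) sl).trans (two (-3) (-2))
    · show ‖Complex.sin (l : ℂ)‖ * ‖Complex.sin (z - x0 + 3 * l) * Complex.sin (z - x0 + 2 * l)‖ ≤ _
      rw [p3, p2]
      exact (mul_le_of_le_one_left (norm_nonneg _) sl).trans (two 3 2)
  unfold _root_.RX.k1
  rw [norm_div, norm_mul, norm_pow, div_le_iff₀ (by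
    have : (0 : ℝ) < ‖(2 / 3 : ℂ)‖ := norm_pos_iff.2 (by norm_num)
    positivity)]
  have h23 : ‖(2 / 3 : ℂ)‖ = 2 / 3 := by
    rw [norm_div]
    simp
  rw [h23]
  calc ‖LL z e x0‖ ≤ Real.exp |(z - x0).im| ^ 2 := key
    _ ≤ (C * ‖rh (z - x0)‖) ^ 2 := by gcongr
    _ = _ := by ring

/-! ### the two mean values of one row -/

/-- the gain of one row `0` of the own group -/
def gn (e : SignType) (h : ℝ) : ℝ := if e = .neg then 0 else 1 / 20 * Real.exp (-(8 / 3) * |h|)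

theorem gn_nonneg (e : SignType) (h : ℝ) : 0 ≤ gn e h := by
  unfold gn
  split_ifs
  · exact le_rfl
  · positivity

/-- **one row of the own group** -/
theorem kO_gn {e : SignType} {x : ℂ} (hx : x.re ∈ KF e) :
    ‖kO e x‖ * Real.exp (MO NUMF.P (kk e) x) ≤ Real.exp (-gn e x.im) := by
  have hl := lpos
  unfold KF at hx
  unfold gn
  split_ifs at hx ⊢ with he
  · subst he
    obtain ⟨h1, h2⟩ := hx
    rw [neg_zero, Real.exp_zero]
    exact (FarMF.W.kO_one (x := x) (by rw [← FarMF.l_eq]; linarith) (by rw [← FarMF.l_eq]; linarith)).le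
  · obtain ⟨h1, h2⟩ := hx
    rw [← neg_mul]
    exact FarMF.W.kO_le (x := x) (by rw [← FarMF.l_eq]; linarith) (by rw [← FarMF.l_eq]; linarith)
      (by norm_num) (by norm_num) (by rw [← FarMF.l_eq]; linarith) he

/-- **one row of the other group** -/
theorem kX_gn {e : SignType} {x : ℂ} (hx : x.re ∈ KF e) :
    ‖kX e x‖ * Real.exp (MC NUMF.P (kk e) x) = 1 := by
  have hl := lpos
  unfold KF at hx
  split_ifs at hx with he
  · subst he
    obtain ⟨h1, h2⟩ := hx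
    exact FarMF.W.kX_one (x := x) (by rw [← FarMF.l_eq]; linarith) (by rw [← FarMF.l_eq]; linarith) .neg
  · obtain ⟨h1, h2⟩ := hx
    exact FarMF.W.kX_one (x := x) (by rw [← FarMF.l_eq]; linarith) (by rw [← FarMF.l_eq]; linarith) e

theorem kO_ne {e : SignType} {x : ℂ} (hx : x.re ∈ KF e) : kO e x ≠ 0 := by
  obtain ⟨r, h⟩ := kO_TS e
  exact h.ne hx

theorem kX_ne' {e : SignType} {x : ℂ} (hx : x.re ∈ KF e) : kX e x ≠ 0 := by
  obtain ⟨r, h⟩ := kX_TS e
  exact h.ne hx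

/-- **the direct factors of the moved row against the mean field of its spectators**: `p + |EP|` rows of the
own group, `q + |EQ|` rows of the other group, seas with `sP`, `sQ` rows -/
theorem pre_le : ∃ C : ℝ, 1 ≤ C ∧ ∀ (e : SignType) (x0 : ℂ), x0.re ∈ KF e → ∀ z : ℂ, Ax z →
    ∀ EP EQ : List ℂ, (∀ x ∈ EP, Ax x) → (∀ x ∈ EQ, Ax x) → ∀ (p q : ℕ) (sP sQ D : ℝ), 0 ≤ sP → 0 ≤ sQ →
    |sP - (EP ++ zr p).length| ≤ D → |sQ - (EQ ++ zr q).length| ≤ D →
    ‖k1 z e x0 * ((∏ i, kO e (x0 - (EP ++ zr p).get i)) * ∏ j, kX e (x0 - (EQ ++ zr q).get j))‖ *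
      Real.exp (sP * MO NUMF.P (kk e) x0 + sQ * MC NUMF.P (kk e) x0) ≤
      Real.exp (C * (EP.length + EQ.length + 1 + D) * (1 + |x0.im|)) * Real.exp (-(sP * gn e x0.im)) := by
  obtain ⟨C1, hC1, h1⟩ := k1_le
  have hr : ∀ e : SignType, ∃ C : ℝ, 1 ≤ C ∧ ∀ w : ℂ, w.re ∈ KF e →
      (∀ x, Ax x → ‖kO e (w - x)‖ ≤ C * ‖kO e w‖) ∧ (∀ x, Ax x → ‖kX e (w - x)‖ ≤ C * ‖kX e w‖) ∧
      |Real.log ‖kO e w‖| ≤ C * (1 + |w.im|) ∧ |Real.log ‖kX e w‖| ≤ C * (1 + |w.im|) := by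
    intro e
    obtain ⟨r, hr⟩ := kO_TS e
    obtain ⟨s, hs⟩ := kX_TS e
    obtain ⟨A, hA, a⟩ := hr.ratio
    obtain ⟨B, hB, b⟩ := hs.ratio
    obtain ⟨A', hA', a'⟩ := hr.logb
    obtain ⟨B', hB', b'⟩ := hs.logb
    have r0 := abs_nonneg r
    have s0 := abs_nonneg s
    refine ⟨A + B + A' + B' + |r| + |s|, by linarith, fun w hw => ⟨fun x hx => ?_, fun x hx => ?_, ?_, ?_⟩⟩
    · refine (a w x hw hx).trans (mul_le_mul_of_nonneg_right (by linarith) (norm_nonneg _))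
    · refine (b w x hw hx).trans (mul_le_mul_of_nonneg_right (by linarith) (norm_nonneg _))
    · refine (a' w hw).trans ?_
      have := abs_nonneg w.im
      nlinarith
    · refine (b' w hw).trans ?_
      have := abs_nonneg w.im
      nlinarith
  obtain ⟨C2, hC2, h2⟩ : ∃ C : ℝ, 1 ≤ C ∧ ∀ (e : SignType) (w : ℂ), w.re ∈ KF e →
      (∀ x, Ax x → ‖kO e (w - x)‖ ≤ C * ‖kO e w‖) ∧ (∀ x, Ax x → ‖kX e (w - x)‖ ≤ C * ‖kX e w‖) ∧
      |Real.log ‖kO e w‖| ≤ C * (1 + |w.im|) ∧ |Real.log ‖kX e w‖| ≤ C * (1 + |w.im|) := by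
    obtain ⟨A, hA, a⟩ := hr .zero
    obtain ⟨B, hB, b⟩ := hr .neg
    obtain ⟨C, hC, c⟩ := hr .pos
    have mono : ∀ {D E : ℝ} {e : SignType} {w : ℂ}, D ≤ E →
        ((∀ x, Ax x → ‖kO e (w - x)‖ ≤ D * ‖kO e w‖) ∧ (∀ x, Ax x → ‖kX e (w - x)‖ ≤ D * ‖kX e w‖) ∧
        |Real.log ‖kO e w‖| ≤ D * (1 + |w.im|) ∧ |Real.log ‖kX e w‖| ≤ D * (1 + |w.im|)) →
        ((∀ x, Ax x → ‖kO e (w - x)‖ ≤ E * ‖kO e w‖) ∧ (∀ x, Ax x → ‖kX e (w - x)‖ ≤ E * ‖kX e w‖) ∧
        |Real.log ‖kO e w‖| ≤ E * (1 + |w.im|) ∧ |Real.log ‖kX e w‖| ≤ E * (1 + |w.im|)) := by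
      intro D E e w hDE h
      obtain ⟨i1, i2, i3, i4⟩ := h
      have := abs_nonneg w.im
      exact ⟨fun x hx => (i1 x hx).trans (mul_le_mul_of_nonneg_right hDE (norm_nonneg _)),
        fun x hx => (i2 x hx).trans (mul_le_mul_of_nonneg_right hDE (norm_nonneg _)),
        i3.trans (mul_le_mul_of_nonneg_right hDE (by linarith)),
        i4.trans (mul_le_mul_of_nonneg_right hDE (by linarith))⟩
    refine ⟨A + B + C, by linarith, fun e w hw => ?_⟩
    cases e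
    · exact mono (by linarith) (a w hw)
    · exact mono (by linarith) (b w hw)
    · exact mono (by linarith) (c w hw)
  refine ⟨2 * (C1 + C2), by linarith, fun e x0 hx z hz EP EQ hEP hEQ p q sP sQ D hsP hsQ hP hQ => ?_⟩
  obtain ⟨i1, i2, i3, i4⟩ := h2 e x0 hx
  have hO := norm_pos_iff.2 (kO_ne hx)
  have hX := norm_pos_iff.2 (kX_ne' hx)
  have j1 := h1 e z x0 hz (KF_Kn hx)
  have j2 := prod_rows hC2 i1 hEP p
  have j3 := prod_rows hC2 i2 hEQ q
  have m1 := pow_mean hO (kO_gn hx) hsP hP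
  have m2 := pow_mean (M := MC NUMF.P (kk e) x0) (g := 0) hX (by
    rw [neg_zero, Real.exp_zero]
    exact (kX_gn hx).le) hsQ hQ
  rw [mul_zero, neg_zero, Real.exp_zero, one_mul] at m2
  have hD : 0 ≤ D := (abs_nonneg _).trans hP
  have him := abs_nonneg x0.im
  have hC0 : 0 < C1 := by linarith
  have hC3 : 0 < C2 := by linarith
  rw [norm_mul, norm_mul, Real.exp_add]
  have e1 : ∀ n : ℕ, C2 ^ n ≤ Real.exp (C2 * n) := fun n => by
    rw [mul_comm, Real.exp_nat_mul]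
    have : C2 ≤ Real.exp C2 := by linarith [Real.add_one_le_exp C2]
    gcongr
  have e2 : C1 ≤ Real.exp C1 := by linarith [Real.add_one_le_exp C1]
  calc _ ≤ C1 * ((C2 ^ EP.length * ‖kO e x0‖ ^ (EP ++ zr p).length) *
        (C2 ^ EQ.length * ‖kX e x0‖ ^ (EQ ++ zr q).length)) *
        (Real.exp (sP * MO NUMF.P (kk e) x0) * Real.exp (sQ * MC NUMF.P (kk e) x0)) := by
        gcongr
    _ = C1 * C2 ^ EP.length * C2 ^ EQ.length *
        (‖kO e x0‖ ^ (EP ++ zr p).length * Real.exp (sP * MO NUMF.P (kk e) x0)) *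
        (‖kX e x0‖ ^ (EQ ++ zr q).length * Real.exp (sQ * MC NUMF.P (kk e) x0)) := by ring
    _ ≤ Real.exp C1 * Real.exp (C2 * EP.length) * Real.exp (C2 * EQ.length) *
        (Real.exp (-(sP * gn e x0.im)) * Real.exp (D * |Real.log ‖kO e x0‖|)) *
        Real.exp (D * |Real.log ‖kX e x0‖|) := by
        gcongr
        · exact e1 _
        · exact e1 _
    _ ≤ Real.exp C1 * Real.exp (C2 * EP.length) * Real.exp (C2 * EQ.length) *
        (Real.exp (-(sP * gn e x0.im)) * Real.exp (D * (C2 * (1 + |x0.im|)))) *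
        Real.exp (D * (C2 * (1 + |x0.im|))) := by
        gcongr
    _ = Real.exp (C1 + C2 * EP.length + C2 * EQ.length + D * (C2 * (1 + |x0.im|)) + D * (C2 * (1 + |x0.im|))) *
        Real.exp (-(sP * gn e x0.im)) := by
        simp only [Real.exp_add]
        ring
    _ ≤ Real.exp (2 * (C1 + C2) * (EP.length + EQ.length + 1 + D) * (1 + |x0.im|)) *
        Real.exp (-(sP * gn e x0.im)) := by
        refine mul_le_mul_of_nonneg_right (Real.exp_le_exp.2 ?_) (Real.exp_pos _).le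
        have a1 : (0 : ℝ) ≤ EP.length := by positivity
        have a2 : (0 : ℝ) ≤ EQ.length := by positivity
        have a3 : 0 ≤ C1 * (EP.length + EQ.length + D) := by positivity
        have a4 : 0 ≤ C2 * (EP.length + EQ.length + 1) := by positivity
        have a5 : 0 ≤ C1 * D * |x0.im| := by positivity
        have a6 : 0 ≤ 2 * (C1 + C2) * (EP.length + EQ.length + 1) * |x0.im| := by positivity
        nlinarith [mul_nonneg hC0.le hD, mul_nonneg hC0.le a1, mul_nonneg hC0.le a2]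

end Pool.Agent.PLX.P

end
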