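import Pool.Agent.PLX.KJoinI
import Pool.Agent.PLX.KExP

/-!
# PLAX (K): the join of the exact side, far zone `41/20 l ≤ Re x ≤ 43/20 l`

As `PLX/KJoin`, `PLX/KJoinI` for the sets `P.KF` and the gain `P.gn` of `PLX/KExP`:

* **`exists_KJP`**, **`exists_KJ0P`** : value of the content times the direct factors of the far row times the
  masses of the spectators (with the curves of the content, on the line);
* **`exists_KJIP`** : the same for an instance `KI`.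
-/

set_option autoImplicit false
set_option linter.unusedSectionVars false
set_option linter.unusedVariables false

noncomputable section

open Complex MeasureTheory Set Filter Topology
open PLX (EMs Fil Ends)

namespace PBV.PLX

open NUMF (l l_pos)
open NUO (pA)
open PBR (rh)
open PBH (AT)
open PBH.PLX (Atm HS AtOk RL RO RX)
open PB0.PLX (MFo MFx mfs)
open Pool.Agent.PB (Pf)
open Pool.Agent.PLX (zr Ax)
open _root_.RX (kO kX k1)
open FarMF (MO MC kk)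

/-- **the join of the exact side** -/
theorem exists_KJP {δ : ℝ} (hδ : 0 < δ) (hδ1 : δ ≤ l / 2) : ∃ C : ℝ, 1 ≤ C ∧
    ∀ (e : SignType) (x0 : ℂ), x0.re ∈ Pool.Agent.PLX.P.KF e → ∀ (σ : Bool) (E : Bool → List ℂ) (k : Bool → ℕ) (z : ℂ),
    (∀ a, ∀ x ∈ E a, Ax x) → Ax z →
    ∀ (n : ℕ) (K : ℝ) (x : Bool → Fin n → Atm), 0 ≤ K → AtOk K δ x →
    ∀ (n' : ℕ) (g : Fin n' → NUSea.PLX.H0.Gd),
    (∀ a t, ‖Sfar e x0 σ a (pA (fun _ => 0) t)‖ = NUGC.PLX.spF g a (pA (fun _ => 0) t) *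
      Real.exp (HS x (fun _ _ => 0) a t)) →
    ∀ (h0 : ℝ) (ζ : Bool → ℝ → ℝ), (∀ a t, |ζ a t| ≤ δ / 2) → (∀ a, Continuous (ζ a)) →
      (∀ a t, |nE E k a * NUMF.P t * ζ a t| ≤ h0) →
      (∀ a, Integrable (fun t => nE E k a * NUMF.P t * (HC E z ζ a t + HS x ζ a t))) ∧
      ‖Pf z (E σ ++ zr (k σ)).get (E (!σ) ++ zr (k !σ)).get *
        (k1 z e x0 * ((∏ i, kO e (x0 - (E σ ++ zr (k σ)).get i)) *
          ∏ j, kX e (x0 - (E (!σ) ++ zr (k !σ)).get j)))‖ *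
        Real.exp (EMs (nE E k) + (∑ a, ∫ t, nE E k a * NUMF.P t * (HC E z ζ a t + HS x ζ a t)) +
          ∑ i, mfs (nE E k) MFo MFx (g i).σ (g i).c (g i).w) ≤
        Real.exp (C * (dE E ^ 2 + (dE E + n * K) * h0 + dE E * (1 + |x0.im|))) *
          Real.exp (-(nE E k σ * Pool.Agent.PLX.P.gn e x0.im)) := by
  obtain ⟨C1, hC1, H1⟩ := exists_KC hδ hδ1
  obtain ⟨C2, hC2, H2⟩ := Pool.Agent.PLX.P.pre_le
  refine ⟨C1 + C2, by linarith, ?_⟩
  intro e x0 hx0 σ E k z hE hz n K x hK hx n' g hS h0 ζ hζ hc hh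
  obtain ⟨i1, h1⟩ := H1 E k z hE hz n K x hK hx h0 ζ hζ hc hh
  refine ⟨i1, ?_⟩
  have hh0 : 0 ≤ h0 := (abs_nonneg _).trans (hh true 0)
  have h1 := h1 σ
  have hm := mass_far hδ hx g e x0 σ hS (nE E k)
  have h2 := H2 e x0 hx0 z hz (E σ) (E !σ) (hE σ) (hE !σ) (k σ) (k !σ) (nE E k σ) (nE E k !σ) 0
    (nE_nonneg _ _ _) (nE_nonneg _ _ _) (by
      rw [List.length_append, Pool.Agent.PLX.zr, List.length_replicate]
      unfold nE
      push_cast
      rw [sub_self, abs_zero]) (by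
      rw [List.length_append, Pool.Agent.PLX.zr, List.length_replicate]
      unfold nE
      push_cast
      rw [sub_self, abs_zero])
  rw [← hm] at h2
  have hd : ((E σ).length : ℝ) + (E !σ).length + 1 + 0 = dE E := by
    unfold dE
    cases σ
    · show ((E false).length : ℝ) + (E true).length + 1 + 0 = _
      ring
    · show ((E true).length : ℝ) + (E false).length + 1 + 0 = _
      ring
  rw [hd] at h2
  obtain ⟨A, hA⟩ : ∃ A : ℝ, A = ‖Pf z (E σ ++ zr (k σ)).get (E (!σ) ++ zr (k !σ)).get‖ := ⟨_, rfl⟩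
  obtain ⟨B, hB⟩ : ∃ B : ℝ, B = ‖k1 z e x0 * ((∏ i, kO e (x0 - (E σ ++ zr (k σ)).get i)) *
    ∏ j, kX e (x0 - (E (!σ) ++ zr (k !σ)).get j))‖ := ⟨_, rfl⟩
  rw [norm_mul, ← hA, ← hB]
  rw [← hA] at h1
  rw [← hB] at h2
  obtain ⟨S, hSd⟩ : ∃ S : ℝ, S = ∑ a, ∫ t, nE E k a * NUMF.P t * (HC E z ζ a t + HS x ζ a t) := ⟨_, rfl⟩
  obtain ⟨T, hT⟩ : ∃ T : ℝ, T = ∑ i, mfs (nE E k) MFo MFx (g i).σ (g i).c (g i).w := ⟨_, rfl⟩
  obtain ⟨U, hU⟩ : ∃ U : ℝ, U = ∑ a, nE E k a * mHS x a := ⟨_, rfl⟩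
  rw [← hSd, ← hT]
  rw [← hSd, ← hU] at h1
  rw [← hU, ← hT] at h2
  have hA0 : 0 ≤ A := by
    rw [hA]
    exact norm_nonneg _
  have hB0 : 0 ≤ B := by
    rw [hB]
    exact norm_nonneg _
  have hd1 := dE_one E
  have e1 : A * B * Real.exp (EMs (nE E k) + S + T) =
      (A * Real.exp (EMs (nE E k) + S)) * Real.exp (-U) * (B * Real.exp (U + T)) := by
    rw [show EMs (nE E k) + S + T = (EMs (nE E k) + S) + -U + (U + T) by ring, Real.exp_add,
      Real.exp_add]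
    ring
  rw [e1]
  have h3 : (A * Real.exp (EMs (nE E k) + S)) * Real.exp (-U) ≤
      Real.exp (C1 * (dE E ^ 2 + (dE E + n * K) * h0)) := by
    calc _ ≤ Real.exp (C1 * (dE E ^ 2 + (dE E + n * K) * h0) + U) * Real.exp (-U) :=
          mul_le_mul_of_nonneg_right h1 (Real.exp_pos _).le
      _ = _ := by
        rw [← Real.exp_add]
        congr 1
        ring
  calc (A * Real.exp (EMs (nE E k) + S)) * Real.exp (-U) * (B * Real.exp (U + T))
      ≤ Real.exp (C1 * (dE E ^ 2 + (dE E + n * K) * h0)) *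
        (Real.exp (C2 * dE E * (1 + |x0.im|)) * Real.exp (-(nE E k σ * Pool.Agent.PLX.P.gn e x0.im))) :=
        mul_le_mul h3 h2 (by positivity) (Real.exp_pos _).le
    _ ≤ _ := by
        rw [← mul_assoc, ← Real.exp_add]
        refine mul_le_mul_of_nonneg_right (Real.exp_le_exp.2 ?_) (Real.exp_pos _).le
        have p1 : 0 ≤ (n : ℝ) * K := by positivity
        have p2 : 0 ≤ C2 * (dE E ^ 2 + (dE E + n * K) * h0) := by positivity
        have p3 : 0 ≤ C1 * (dE E * (1 + |x0.im|)) := by positivity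
        nlinarith

/-- **the join of the exact side, on the line** -/
theorem exists_KJ0P {δ : ℝ} (hδ : 0 < δ) (hδ1 : δ ≤ l / 2) : ∃ C : ℝ, 1 ≤ C ∧
    ∀ (e : SignType) (x0 : ℂ), x0.re ∈ Pool.Agent.PLX.P.KF e → ∀ (σ : Bool) (E : Bool → List ℂ) (k : Bool → ℕ) (z : ℂ),
    (∀ a, ∀ x ∈ E a, Ax x) → Ax z →
    ∀ (n : ℕ) (K : ℝ) (x : Bool → Fin n → Atm), 0 ≤ K → AtOk K δ x →
    ∀ (n' : ℕ) (g : Fin n' → NUSea.PLX.H0.Gd),
    (∀ a t, ‖Sfar e x0 σ a (pA (fun _ => 0) t)‖ = NUGC.PLX.spF g a (pA (fun _ => 0) t) *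
      Real.exp (HS x (fun _ _ => 0) a t)) →
      ‖Pf z (E σ ++ zr (k σ)).get (E (!σ) ++ zr (k !σ)).get *
        (k1 z e x0 * ((∏ i, kO e (x0 - (E σ ++ zr (k σ)).get i)) *
          ∏ j, kX e (x0 - (E (!σ) ++ zr (k !σ)).get j)))‖ *
        Real.exp (EMs (nE E k) + (∑ a, nE E k a * (lin (E true) (E false) a + NUMFH.lE z +
          ∫ t, NUMF.P t * HS x (fun _ _ => 0) a t)) +
          ∑ i, mfs (nE E k) MFo MFx (g i).σ (g i).c (g i).w) ≤
        Real.exp (C * (dE E ^ 2 + dE E * (1 + |x0.im|))) * Real.exp (-(nE E k σ * Pool.Agent.PLX.P.gn e x0.im)) := by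
  obtain ⟨C, hC, H⟩ := exists_KJP hδ hδ1
  refine ⟨C, hC, ?_⟩
  intro e x0 hx0 σ E k z hE hz n K x hK hx n' g hS
  have h := (H e x0 hx0 σ E k z hE hz n K x hK hx n' g hS 0 (fun _ _ => 0) (fun a t => by
    rw [abs_zero]
    positivity) (fun _ => continuous_const) (fun a t => by
    rw [mul_zero, abs_zero])).2
  simp only [int_line hδ hδ1 hx k hE hz] at h
  rw [mul_zero, add_zero] at h
  exact h

end PBV.PLX

namespace PBK.PLX

open NUMF (l l_pos)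
open NUO (pA)
open PBH.PLX (Atm HS AtOk)
open PotH.PLX (sN)
open PB0.PLX (MFo MFx mfs)
open PBV.PLX (nE Sfar dE exists_KJ0P)
open Pool.Agent.PB (Pf)
open Pool.Agent.PLX (zr Ax)
open _root_.RX (kO kX k1)

/-- **the join of the exact side for an instance** -/
theorem exists_KJIP [Fil] [Ends] (n' : ℕ) {K δ : ℝ} (hδ : 0 < δ) (hδ1 : δ ≤ l / 2) : ∃ C : ℝ, 1 ≤ C ∧
    ∀ (n : ℕ) (Sp : (Bool → ℂ → ℝ) → Prop) (m : ℕ) (y : KI n), KOk n' K δ Sp m y →
    ∀ (e : SignType) (x0 : ℂ), x0.re ∈ Pool.Agent.PLX.P.KF e → ∀ (σ : Bool) (k' : ℕ) (g : Fin k' → NUSea.PLX.H0.Gd),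
    (∀ a t, ‖Sfar e x0 σ a (pA (fun _ => 0) t)‖ = NUGC.PLX.spF g a (pA (fun _ => 0) t) *
      y.S a (pA (fun _ => 0) t)) →
      ‖Pf y.z (y.W σ).get (y.W !σ).get * (k1 y.z e x0 * ((∏ i, kO e (x0 - (y.W σ).get i)) *
          ∏ j, kX e (x0 - (y.W !σ).get j)))‖ *
        Real.exp (y.em + ∑ i, mfs (sN m) MFo MFx (g i).σ (g i).c (g i).w) ≤
        Real.exp (C * (1 + |x0.im|)) * Real.exp (-(sN m σ * Pool.Agent.PLX.P.gn e x0.im)) := by
  have hl := l_pos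
  obtain ⟨C, hC, H⟩ := exists_KJ0P hδ hδ1
  refine ⟨C * (2 * ((n' : ℝ) + 1) ^ 2), by
    have : (1:ℝ) ≤ ((n' : ℝ) + 1) ^ 2 := one_le_pow₀ (by
      have : (0:ℝ) ≤ n' := by positivity
      linarith)
    nlinarith, ?_⟩
  intro n Sp m y hy e x0 hx0 σ k' g hS
  have h := H e x0 hx0 σ y.E y.k y.z hy.ax hy.z n (max K 0) y.x (le_max_right _ _)
    (AtOk.mono hy.atm (le_max_left _ _)) k' g (fun a t => by
      rw [hS a t, hy.cur (fun _ => 0) (fun t => by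
        rw [abs_zero]
        positivity) a t])
  have hs : y.s = sN m := funext fun a => hy.s_eq a
  rw [KI.s_nE, hs] at h
  have hem : y.em = EMs (sN m) + ∑ a, sN m a * (PBV.PLX.lin (y.E true) (y.E false) a +
      NUMFH.lE y.z + ∫ t, NUMF.P t * HS y.x (fun _ _ => 0) a t) := by
    unfold KI.em
    rw [hs]
  rw [← hem] at h
  refine h.trans (mul_le_mul_of_nonneg_right (Real.exp_le_exp.2 ?_) (Real.exp_pos _).le)
  have h1 : dE y.E ≤ n' + 1 := by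
    have h2 := hy.len
    have h3 : (((y.E true).length : ℝ) + (y.E false).length) ≤ n' := by exact_mod_cast h2
    unfold PBV.PLX.dE
    linarith
  have h0 := PBV.PLX.dE_one y.E
  have h4 : dE y.E ^ 2 ≤ ((n' : ℝ) + 1) ^ 2 := pow_le_pow_left₀ (by linarith) h1 2
  have h5 : (n' : ℝ) + 1 ≤ ((n' : ℝ) + 1) ^ 2 := by
    have : (0:ℝ) ≤ n' := by positivity
    nlinarith
  have h6 : 0 ≤ |x0.im| := abs_nonneg _
  have h7 : dE y.E * (1 + |x0.im|) ≤ ((n' : ℝ) + 1) ^ 2 * (1 + |x0.im|) :=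
    mul_le_mul_of_nonneg_right (h1.trans h5) (by linarith)
  have h8 : dE y.E ^ 2 ≤ ((n' : ℝ) + 1) ^ 2 * (1 + |x0.im|) := by
    have : 0 ≤ ((n' : ℝ) + 1) ^ 2 * |x0.im| := by positivity
    linarith
  rw [mul_assoc]
  refine mul_le_mul_of_nonneg_left ?_ (by linarith)
  linarith

end PBK.PLX

end
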