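import Pool.Agent.PLX.KSpkP
import Pool.Agent.PHK.Defs

/-!
# PLAX (K) on the lines of (P): two sided bounds of the neutral rest

* `Win6 e ρ` : `41/20 l ≤ ρ`, `ρ ≤ 31/10 l` (`e = -`; `JU` with `- 19/20 l ≤ Re w ≤ l / 10`), `ρ ≤ 21/10 l`
  (`e = 0, +`);
* `Ln6 P r` : `r` is the line of `L`, `T` (two), `E`, `F` (two), `b`, of the holes;
* **`Gk_six`** : `1 / G ≤ Gk e σ x0 a u ≤ G` on all these lines, `13/16 ≤ j2 ≤ 7/8`;
* `gF_six` : the factor of the groups is positive there.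
-/

set_option autoImplicit false
set_option linter.unusedSectionVars false
set_option linter.unusedVariables false

noncomputable section

open Complex MeasureTheory Filter Topology

namespace Pool.Agent.PLX

open NUP1 (l lpos vl)
open PHK (Par6 GoodP6)

/-- the windows of (K) for (P) -/
def Win6 (e : SignType) (ρ : ℝ) : Prop :=
  41 / 20 * l ≤ ρ ∧ ρ ≤ (if e = .neg then 31 / 10 * l else 21 / 10 * l)

theorem Win6.winD {e : SignType} {ρ : ℝ} (h : Win6 e ρ) : WinD (1 / 20) e ρ := by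
  have hl := lpos
  obtain ⟨h1, h2⟩ := h
  unfold WinD
  refine ⟨by (clear * - h1; linarith), ?_⟩
  split_ifs at h2 ⊢ <;> (clear * - hl h2; linarith)

theorem Win6_JU {w : ℂ} (h1 : -(19 / 20 * l) ≤ w.re) (h2 : w.re ≤ l / 10) : Win6 .neg (w + 3 * l).re := by
  have hl := lpos
  have e : (w + 3 * (l : ℂ)).re = w.re + 3 * l := by simp
  unfold Win6
  rw [if_pos rfl, e]
  constructor <;> (clear * - h1 h2; linarith)

/-- the lines of the constituents of (P) -/
def Ln6 (P : Par6) (r : ℝ) : Prop :=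
  r = (1 - P.jL) * l ∨ r = -(l / 2) ∨ r = -(3 / 2 * l) ∨ r = -((1 + P.e) * l) ∨ r = -((2 + P.e) * l) ∨
    r = (1 - P.e) * l ∨ r = (1 - P.j1) * l ∨ r = (1 - P.j2) * l

theorem Ln6.box {P : Par6} (hP : GoodP6 P) (h2 : 13 / 16 ≤ P.j2) (h3 : P.j2 ≤ 7 / 8) {r : ℝ} (h : Ln6 P r) :
    ∃ a b : ℝ, a ≤ r ∧ r ≤ b ∧ ((a = -(49 / 20 * l) ∧ b = -(7 / 3 * l)) ∨ (a = -(3 / 2 * l) ∧ b = -(3 / 2 * l)) ∨
      (a = -(29 / 20 * l) ∧ b = -(101 / 100 * l)) ∨ (a = -(l / 2) ∧ b = -(l / 2)) ∨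
      (a = 1 / 8 * l ∧ b = 3 / 16 * l) ∨ (a = 11 / 20 * l ∧ b = 39 / 40 * l)) := by
  have hl := lpos
  obtain ⟨p1, p2, p3, p4, p5, p6, p7, p8⟩ := hP
  have m : ∀ {x y : ℝ}, x ≤ y → x * l ≤ y * l := fun h => mul_le_mul_of_nonneg_right h hl.le
  have a1 := m p1.le
  have a2 := m p2.le
  have a3 := m p3.le
  have a4 := m p4.le
  have a5 := m p5
  have a6 := m p6.le
  have a7 := m p7
  have a8 := m p8
  have a9 := m h2
  have a10 := m h3
  rcases h with h | h | h | h | h | h | h | h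
  · exact ⟨_, _, by (clear * - a2 a6 a8 h; linarith), by (clear * - a5 h; linarith), Or.inr (Or.inr (Or.inl ⟨rfl, rfl⟩))⟩
  · exact ⟨_, _, by (clear * - h; linarith), by (clear * - h; linarith), Or.inr (Or.inr (Or.inr (Or.inl ⟨rfl, rfl⟩)))⟩
  · exact ⟨_, _, by (clear * - h; linarith), by (clear * - h; linarith), Or.inr (Or.inl ⟨rfl, rfl⟩)⟩
  · exact ⟨_, _, by (clear * - a8 h; linarith), by (clear * - hl a7 h; linarith), Or.inr (Or.inr (Or.inl ⟨rfl, rfl⟩))⟩
  · exact ⟨_, _, by (clear * - a8 h; linarith), by (clear * - a7 h; linarith), Or.inl ⟨rfl, rfl⟩⟩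
  · exact ⟨_, _, by (clear * - a8 h; linarith), by (clear * - hl a7 h; linarith), Or.inr (Or.inr (Or.inr (Or.inr (Or.inr ⟨rfl, rfl⟩))))⟩
  · exact ⟨_, _, by (clear * - a2 a8 h; linarith), by (clear * - hl a1 h; linarith), Or.inr (Or.inr (Or.inr (Or.inr (Or.inr ⟨rfl, rfl⟩))))⟩
  · exact ⟨_, _, by (clear * - a10 h; linarith), by (clear * - a9 h; linarith), Or.inr (Or.inr (Or.inr (Or.inr (Or.inl ⟨rfl, rfl⟩))))⟩

theorem Ln6.pl {P : Par6} (hP : GoodP6 P) (h2 : 13 / 16 ≤ P.j2) (h3 : P.j2 ≤ 7 / 8) {r : ℝ} (h : Ln6 P r) :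
    Pl (l / 40) r := by
  have hl := lpos
  obtain ⟨a, b, ha, hb, hab⟩ := h.box hP h2 h3
  have pos : ∀ {x : ℝ}, l / 40 ≤ x → l / 40 ≤ |x| := fun h => h.trans (le_abs_self _)
  have neg : ∀ {x : ℝ}, x ≤ -(l / 40) → l / 40 ≤ |x| := fun h => by
    rw [abs_of_nonpos (by (clear * - hl h; linarith))]
    clear * - h
    linarith
  refine ⟨?_, ?_, ?_, ?_, ?_, ?_, ?_⟩ <;>
    rcases hab with ⟨rfl, rfl⟩ | ⟨rfl, rfl⟩ | ⟨rfl, rfl⟩ | ⟨rfl, rfl⟩ | ⟨rfl, rfl⟩ | ⟨rfl, rfl⟩ <;>
    first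
      | (clear * - hl ha hb; linarith)
      | exact pos (by (clear * - hl ha; linarith))
      | exact neg (by (clear * - hl hb; linarith))

/-- the lines where a lower bound is needed: the points `b` and the holes -/
def Lo6 (P : Par6) (r : ℝ) : Prop := r = (1 - P.e) * l ∨ r = (1 - P.j1) * l ∨ r = (1 - P.j2) * l

theorem Lo6.ln {P : Par6} {r : ℝ} (h : Lo6 P r) : Ln6 P r := by
  rcases h with h | h | h
  · exact Or.inr (Or.inr (Or.inr (Or.inr (Or.inr (Or.inl h)))))
  · exact Or.inr (Or.inr (Or.inr (Or.inr (Or.inr (Or.inr (Or.inl h))))))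
  · exact Or.inr (Or.inr (Or.inr (Or.inr (Or.inr (Or.inr (Or.inr h))))))

theorem Lo6.box {P : Par6} (hP : GoodP6 P) (h3 : P.j2 ≤ 7 / 8) {r : ℝ} (h : Lo6 P r) :
    1 / 8 * l ≤ r ∧ r ≤ 39 / 40 * l := by
  have hl := lpos
  obtain ⟨p1, p2, p3, p4, p5, p6, p7, p8⟩ := hP
  have m : ∀ {x y : ℝ}, x ≤ y → x * l ≤ y * l := fun h => mul_le_mul_of_nonneg_right h hl.le
  have a1 := m p1.le
  have a2 := m p2.le
  have a3 := m p3.le
  have a10 := m h3
  rcases h with h | h | h <;> constructor <;> (clear * - a3 a10 h hl a1 a2; linarith)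

theorem Lo6.ps {P : Par6} (hP : GoodP6 P) (h3 : P.j2 ≤ 7 / 8) {r : ℝ} (h : Lo6 P r)
    {e : SignType} {ρ : ℝ} (hρ : Win6 e ρ) : Ps e (l / 40) ρ r := by
  have hl := lpos
  obtain ⟨a, b⟩ := h.box hP h3
  obtain ⟨w1, w2⟩ := hρ
  unfold Ps
  cases e
  · rw [if_neg (by decide)] at w2
    refine ⟨?_, ?_, ?_, ?_, ?_, ?_⟩ <;>
      first
        | exact Aw.pos (by (clear * - a w2 hl; linarith)) (by (clear * - hl b w1; linarith)) (by (clear * - hl; linarith))
        | exact Aw.neg (by (clear * - hl b w1; linarith)) (by (clear * - hl a w2; linarith)) (by (clear * - hl; linarith))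
  · rw [if_pos rfl] at w2
    refine ⟨?_, ?_, ?_⟩ <;>
      first
        | exact Aw.pos (by linarith) (by (clear * - hl b w1; linarith)) (by (clear * - hl; linarith))
        | exact Aw.neg (by (clear * - hl b w1; linarith)) (by (clear * - hl a w2; linarith)) (by (clear * - hl; linarith))
  · rw [if_neg (by decide)] at w2
    refine ⟨?_, ?_, ?_⟩ <;>
      first
        | exact Aw.pos (by (clear * - hl a w2; linarith)) (by (clear * - hl b w1; linarith)) (by (clear * - hl; linarith))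
        | exact Aw.neg (by (clear * - hl b w1; linarith)) (by (clear * - hl a w2; linarith)) (by (clear * - hl; linarith))

/-- the negative powers of the spectators, on all lines -/
theorem LS_Ln6 {e : SignType} {σ : Bool} {ρ : ℝ} (hρ : Win6 e ρ) {a : Bool} {p : ℤ × ℝ}
    (h : p ∈ LS e σ ρ a) (hp : p.1 < 0) {t : ℝ} (ht1 : -(49 / 20 * l) ≤ t) (ht2 : t ≤ 39 / 40 * l) :
    Aw (l / 40) (t + p.2) := by
  have hl := lpos
  obtain ⟨h1, h2⟩ := hρ
  unfold LS at h
  cases e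
  · rw [if_neg (by decide)] at h2
    split_ifs at h
    · simp only [LW, List.mem_cons, List.not_mem_nil, or_false] at h
      rcases h with rfl | rfl | rfl | rfl
      · simp at hp
      · simp at hp
      · exact Aw.neg (by (clear * - ht2 hl h1; linarith)) (by (clear * - ht1 hl h2; linarith)) (by linarith)
      · exact Aw.neg (by linarith) (by (clear * - ht1 hl h2; linarith)) (by (clear * - hl; linarith))
    · simp only [LV, List.mem_cons, List.not_mem_nil, or_false] at h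
      rcases h with rfl | rfl
      · simp at hp
      · exact Aw.neg (by (clear * - ht2 hl h1; linarith)) (by (clear * - ht1 hl h2; linarith)) (by (clear * - hl; linarith))
  · rw [if_pos rfl] at h2
    split_ifs at h
    · simp only [LW, List.mem_cons, List.not_mem_nil, or_false] at h
      rcases h with rfl | rfl
      · simp at hp
      · simp at hp
    · simp only [LV, List.mem_cons, List.not_mem_nil, or_false] at h
      rcases h with rfl
      exact Aw.neg (by (clear * - ht2 hl h1; linarith)) (by (clear * - ht1 hl h2; linarith)) (by (clear * - hl; linarith))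
  · rw [if_neg (by decide)] at h2
    split_ifs at h
    · simp only [LW, List.mem_cons, List.not_mem_nil, or_false] at h
      rcases h with rfl | rfl
      · exact Aw.neg (by (clear * - ht2 hl h1; linarith)) (by (clear * - ht1 hl h2; linarith)) (by linarith)
      · exact Aw.neg (by (clear * - ht2 hl h1; linarith)) (by (clear * - ht1 hl h2; linarith)) (by linarith)
    · simp only [LV, List.mem_cons, List.not_mem_nil, or_false] at h
      rcases h with rfl
      simp at hp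

theorem Ln6.rng {P : Par6} (hP : GoodP6 P) (h2 : 13 / 16 ≤ P.j2) (h3 : P.j2 ≤ 7 / 8) {r : ℝ} (h : Ln6 P r) :
    -(49 / 20 * l) ≤ r ∧ r ≤ 39 / 40 * l := by
  have hl := lpos
  obtain ⟨a, b, ha, hb, hab⟩ := h.box hP h2 h3
  rcases hab with ⟨rfl, rfl⟩ | ⟨rfl, rfl⟩ | ⟨rfl, rfl⟩ | ⟨rfl, rfl⟩ | ⟨rfl, rfl⟩ | ⟨rfl, rfl⟩ <;>
    constructor <;> (clear * - ha hl hb; linarith)

/-- **bounds of the neutral rest on the lines of (P)**: above on all lines, below at the points `b` and on the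
lines of the holes -/
theorem Gk_six : ∃ G : ℝ, 1 ≤ G ∧ ∀ P : Par6, GoodP6 P → 13 / 16 ≤ P.j2 → P.j2 ≤ 7 / 8 →
    ∀ (e : SignType) (σ : Bool) (x0 : ℂ), Win6 e x0.re → ∀ (a : Bool) (u : ℂ),
    0 ≤ Gk e σ x0 a u ∧ (Ln6 P u.re → Gk e σ x0 a u ≤ G) ∧ (Lo6 P u.re → G⁻¹ ≤ Gk e σ x0 a u) := by
  have hl := lpos
  obtain ⟨δ, hδ⟩ : ∃ δ, δ = Real.sin (l / 40) := ⟨_, rfl⟩
  have hd : 0 < δ := by
    rw [hδ]
    exact SPR.sin_pos' (by positivity) (by linarith)
  have hd1 : δ ≤ 1 := by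
    rw [hδ]
    exact Real.sin_le_one _
  have hi : 1 ≤ δ⁻¹ := (one_le_inv₀ hd).2 hd1
  refine ⟨(δ⁻¹) ^ 26, one_le_pow₀ hi, fun P hP h2 h3 e σ x0 hx a u => ⟨?_, fun hu => ?_, fun hu => ?_⟩⟩
  · rw [Gk_pF]
    exact pF_nonneg _ _ _
  · rw [Gk_pF]
    obtain ⟨r1, r2⟩ := hu.rng hP h2 h3
    have hpl := hu.pl hP h2 h3
    have h4 := pF_le hd hd1 x0.im u (LR e σ x0.re a) fun p hp hn => by
      rw [hδ]
      unfold LR at hp
      rcases List.mem_append.1 hp with hp | hp
      · exact (LS_Ln6 hx hp hn r1 r2).sin (by positivity)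
      · have h5 := mem_nf hp
        rcases LGr_cases e σ a with h6 | h6
        · rw [h6] at h5
          simp at h5
        · exact (Lpm_pl (δ := l / 40) (by positivity) (by (clear * - hl; linarith)) hpl h6 (p := (-p.1, p.2)) h5).sin
            (by positivity)
    rw [LR_sum, zpow_zero, mul_one] at h4
    exact h4.trans (pow_le_pow_right₀ hi (LR_natAbs e σ x0.re a))
  · have h4 := (Gk_line (δ := l / 40) (by positivity) (by (clear * - hl; linarith)) (hu.ln.pl hP h2 h3) (hu.ps hP h3 hx) a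
      (e := e) (σ := σ) (x0 := x0) (u := u)).1
    rw [← hδ] at h4
    rwa [← inv_pow, inv_inv]

/-- **the factor of the groups is positive on the lines of (P)** -/
theorem gF_six {P : Par6} (hP : GoodP6 P) (h2 : 13 / 16 ≤ P.j2) (h3 : P.j2 ≤ 7 / 8) (e : SignType) (σ : Bool)
    (h : ℝ) (a : Bool) {u : ℂ} (hu : Ln6 P u.re) : 0 < gF e σ h a u := by
  have hl := lpos
  exact gF_posP (δ := l / 40) (by positivity) (by (clear * - hl; linarith)) e σ h a (hu.pl hP h2 h3)

/-- the quanta on `A'` and left of it -/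
theorem Pl_A {r : ℝ} (h1 : 1 / 2 * l ≤ r) (h2 : r ≤ 21 / 20 * l) : Pl (l / 8) r := by
  have hl := lpos
  have pos : ∀ {x : ℝ}, l / 8 ≤ x → l / 8 ≤ |x| := fun h => h.trans (le_abs_self _)
  have neg : ∀ {x : ℝ}, x ≤ -(l / 8) → l / 8 ≤ |x| := fun h => by
    rw [abs_of_nonpos (by (clear * - hl h; linarith))]
    clear * - h
    linarith
  refine ⟨by (clear * - h1 hl; linarith), by (clear * - h2 hl; linarith), pos (by linarith), pos (by linarith), pos (by linarith), pos (by (clear * - h1 hl; linarith)),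
    neg (by (clear * - h2 hl; linarith))⟩

/-- the factor of the groups is positive at the quanta on `A'` -/
theorem gF_posA (e : SignType) (σ : Bool) (h : ℝ) (a : Bool) {u : ℂ} (h1 : 1 / 2 * l ≤ u.re)
    (h2 : u.re ≤ 21 / 20 * l) : 0 < gF e σ h a u := by
  have hl := lpos
  exact gF_posP (δ := l / 8) (by positivity) le_rfl e σ h a (Pl_A h1 h2)

/-- the rest times the groups is the spectator, wherever the groups do not vanish -/
theorem Gk_mul' {e : SignType} {σ : Bool} {x0 : ℂ} {a : Bool} {u : ℂ} (h : 0 < gF e σ x0.im a u) :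
    Gk e σ x0 a u * gF e σ x0.im a u =
      ‖spS σ (fun u => _root_.RX.Wo e (u - x0)) (fun u => _root_.RX.Vo e (u - x0)) a u‖ :=
  div_mul_cancel₀ _ h.ne'

end Pool.Agent.PLX

end
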