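import Pool.Agent.PLX.RayC
import Pool.Agent.PB.Fin

/-!
# The recursion along a ray: the limit for each parity; (E') from the gas side (helper3)

* **`FunO2.lim`** : `0 < c`: `|g j - L (j mod 2)| ≤ C j^{-c}` (two numbers `L 0`, `L 1`);
* `bd_ray`, `dbd_ray` : `Psi` and two derivatives in the legs are `≤ m^ε` near `i[0,1]`;
* **`EPr_ray`** : `PBV.E2 c Psi → PBV.EPr c Psi`, `c < 1`, for a function with `FD` in the legs and
  `|Psi| ≤ m^ε` on the axis; `RayH.epr` : for `Psi m z x = F m 0 (x, .., x) z`;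
* **`RayH.out2`** : `RayH` and `E2 c`, `0 ≤ c < 2 / 3`: `FunO2 c f g`.
-/

set_option autoImplicit false

noncomputable section

open Complex Filter Topology Set
open Pool.Agent.PB.Rec (EL EL_coef EL_sub EL_le seg Bx Op)
open PBV (aL aL_pos kc FD EPr E2 log_ev rP rM ball_box pow_ev field_diff)

namespace Pool.Agent.PLX

/-- **the limit for each parity** -/
theorem FunO2.lim {c : ℝ} {f : ℕ → ℂ → ℂ} {g : ℕ → ℂ} (h : FunO2 c f g) (hc : 0 < c) :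
    ∃ (L : ℕ → ℂ) (C' : ℝ), 0 ≤ C' ∧ ∀ᶠ j : ℕ in atTop, ‖g j - L (j % 2)‖ ≤ C' * (j : ℝ) ^ (-c) := by
  obtain ⟨C, hC⟩ := h.step
  have hp : ∀ p : ℕ, ∃ L : ℂ, ∃ C' : ℝ, 0 ≤ C' ∧ ∀ᶠ n : ℕ in atTop, ‖g (2 * n + p) - L‖ ≤
      C' * (n : ℝ) ^ (-c) := by
    intro p
    have ht : Tendsto (fun n : ℕ => 2 * n + p) atTop atTop :=
      tendsto_atTop_mono (fun n => by omega : ∀ n, n ≤ 2 * n + p) tendsto_id
    obtain ⟨L, -, C', hC', h1⟩ := PBF.tendsto_of_step (G := fun n => g (2 * n + p)) (C := |C|) hc (by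
      filter_upwards [ht.eventually hC, eventually_ge_atTop 1] with n hn hn1
      have hn0 : (0 : ℝ) < n := by exact_mod_cast hn1
      have e1 : 2 * (n + 1) + p = 2 * n + p + 2 := by ring
      rw [e1]
      refine hn.trans ?_
      have e2 : ((2 * n + p : ℕ) : ℝ) ^ (-(1 + c)) ≤ (n : ℝ) ^ (-(1 + c)) := by
        refine Real.rpow_le_rpow_of_nonpos hn0 ?_ (by linarith)
        push_cast
        have : (0 : ℝ) ≤ p := Nat.cast_nonneg _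
        linarith
      have e3 : 0 ≤ ((2 * n + p : ℕ) : ℝ) ^ (-(1 + c)) := Real.rpow_nonneg (Nat.cast_nonneg _) _
      exact mul_le_mul (le_abs_self C) e2 e3 (abs_nonneg _))
    exact ⟨L, C', hC', h1⟩
  choose L C' hC' hL using hp
  refine ⟨L, (C' 0 + C' 1) * 4 ^ c, mul_nonneg (add_nonneg (hC' 0) (hC' 1)) (Real.rpow_nonneg (by norm_num) _), ?_⟩
  have ht : Tendsto (fun n : ℕ => n / 2) atTop atTop := Nat.tendsto_div_const_atTop (by norm_num)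
  filter_upwards [ht.eventually (hL 0), ht.eventually (hL 1), eventually_ge_atTop 4] with j h0 h1 hj
  have hj0 : (4 : ℝ) ≤ j := by exact_mod_cast hj
  have hd : (j : ℝ) / 4 ≤ ((j / 2 : ℕ) : ℝ) := by
    have e1 : j ≤ 2 * (j / 2) + 1 := by omega
    have e2 : (j : ℝ) ≤ 2 * ((j / 2 : ℕ) : ℝ) + 1 := by exact_mod_cast e1
    clear * - hj0 e2
    linarith
  have e2 : ((j / 2 : ℕ) : ℝ) ^ (-c) ≤ 4 ^ c * (j : ℝ) ^ (-c) := by
    calc ((j / 2 : ℕ) : ℝ) ^ (-c) ≤ ((j : ℝ) / 4) ^ (-c) :=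
          Real.rpow_le_rpow_of_nonpos (by linarith) hd (by linarith)
      _ = 4 ^ c * (j : ℝ) ^ (-c) := by
          rw [Real.div_rpow (by linarith) (by norm_num), Real.rpow_neg (by norm_num : (0 : ℝ) ≤ 4)]
          field_simp
  have h4 : 0 ≤ (4 : ℝ) ^ c * (j : ℝ) ^ (-c) := by positivity
  have e3 : ∀ p : ℕ, (p = 0 ∨ p = 1) → C' p ≤ C' 0 + C' 1 := by
    rintro p (rfl | rfl)
    · linarith [hC' 1]
    · linarith [hC' 0]
  have e4 : ∀ p : ℕ, (p = 0 ∨ p = 1) → j % 2 = p → ‖g (2 * (j / 2) + p) - L p‖ ≤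
      C' p * ((j / 2 : ℕ) : ℝ) ^ (-c) → ‖g j - L (j % 2)‖ ≤ (C' 0 + C' 1) * 4 ^ c * (j : ℝ) ^ (-c) := by
    intro p hp hjp hb
    have e5 : 2 * (j / 2) + p = j := by omega
    rw [e5] at hb
    rw [hjp, mul_assoc]
    exact hb.trans (mul_le_mul (e3 p hp) e2 (Real.rpow_nonneg (Nat.cast_nonneg _) _)
      (add_nonneg (hC' 0) (hC' 1)))
  rcases Nat.mod_two_eq_zero_or_one j with hj2 | hj2
  · exact e4 0 (Or.inl rfl) hj2 h0
  · exact e4 1 (Or.inr rfl) hj2 h1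

/-! ### (E') from the gas side -/

variable {C : ℝ} {Psi : ℕ → ℂ → ℂ → ℂ}

/-- `Psi` in the box -/
theorem bd_ray (hfp : ∀ᶠ m : ℕ in atTop, ∀ x ∈ seg 0, FD aL σP 1 0 C m (fun z => Psi m z x))
    (hup : ∀ ε : ℝ, 0 < ε → ∀ᶠ m : ℕ in atTop, ∀ x ∈ seg 0, ∀ t ∈ Icc (0 : ℝ) 1,
      ‖Psi m (I * t) x‖ ≤ (m : ℝ) ^ ε) {ε : ℝ} (hε : 0 < ε) : ∀ᶠ j : ℕ in atTop, ∀ x ∈ seg 0,
    ∀ z : ℂ, |z.re| ≤ aL → |z.im| ≤ 2 → ‖Psi j z x‖ ≤ (j : ℝ) ^ ε := by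
  obtain ⟨K, hK0⟩ := kLP C 0 (ρ := 0) le_rfl σP_pos
  obtain ⟨V, hV0, hV⟩ := hK0 K le_rfl
  set M : ℝ := (2 * K + 1) * Real.exp (|(8 / 3 : ℝ)| * K * 2) * (2 * V) + 1 with hM
  filter_upwards [hV, hfp, hup (ε / 2) (by positivity), pow_ev (show 0 < ε / 2 by positivity) M,
    log_ev 100, eventually_ge_atTop 1] with j v0 h2 h1 h3 l0 h4 x hx z hz hzi
  have hj1 : (1 : ℝ) ≤ j := by exact_mod_cast h4
  have hj0 : (0 : ℝ) < j := by (clear * - hj1; linarith)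
  have e1 := (v0 _ (h2 x hx)).1 z (by linarith) (by (clear * - l0 hzi; linarith))
  have e4 : 1 ≤ (j : ℝ) ^ (ε / 2) := Real.one_le_rpow hj1 (by positivity)
  have ec : ∀ k ∈ Finset.Icc (-(K : ℤ)) K,
      ‖kc aL σP (1 / 5) j (fun z => Psi j z x) k‖ ≤ 2 * V * (j : ℝ) ^ (ε / 2) := by
    intro k hk
    refine ((v0 _ (h2 x hx)).2 _ (fun t ht => h1 x hx t ht) k hk).trans ?_
    rw [neg_zero, Real.rpow_zero]
    clear * - hV0 e4
    nlinarith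
  rw [neg_zero, Real.rpow_zero] at e1
  have e2 := EL_le (w := 8 / 3) ec z
  have e3 : ‖EL (8 / 3) K (kc aL σP (1 / 5) j (fun z => Psi j z x)) z‖ ≤
      (2 * K + 1) * Real.exp (|(8 / 3 : ℝ)| * K * 2) * (2 * V * (j : ℝ) ^ (ε / 2)) := by
    refine e2.trans ?_
    clear * - hzi hV0 h4
    gcongr
  have e5 : ‖Psi j z x‖ ≤ M * (j : ℝ) ^ (ε / 2) := by
    have : Psi j z x = (Psi j z x - EL (8 / 3) K (kc aL σP (1 / 5) j (fun z => Psi j z x)) z) +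
        EL (8 / 3) K (kc aL σP (1 / 5) j (fun z => Psi j z x)) z := by ring
    rw [this]
    refine (norm_add_le _ _).trans ?_
    rw [hM]
    calc _ ≤ 1 + (2 * K + 1) * Real.exp (|(8 / 3 : ℝ)| * K * 2) * (2 * V * (j : ℝ) ^ (ε / 2)) :=
          add_le_add e1 e3
      _ ≤ _ := by (clear * - e4; linarith)
  calc ‖Psi j z x‖ ≤ M * (j : ℝ) ^ (ε / 2) := e5
    _ ≤ (j : ℝ) ^ (ε / 2) * (j : ℝ) ^ (ε / 2) := by gcongr
    _ = (j : ℝ) ^ ε := by rw [← Real.rpow_add hj0, add_halves]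

/-- the derivatives in the legs -/
theorem dbd_ray (hfp : ∀ᶠ m : ℕ in atTop, ∀ x ∈ seg 0, FD aL σP 1 0 C m (fun z => Psi m z x))
    (hup : ∀ ε : ℝ, 0 < ε → ∀ᶠ m : ℕ in atTop, ∀ x ∈ seg 0, ∀ t ∈ Icc (0 : ℝ) 1,
      ‖Psi m (I * t) x‖ ≤ (m : ℝ) ^ ε) {ε : ℝ} (hε : 0 < ε) : ∀ᶠ j : ℕ in atTop, ∀ x ∈ seg 0,
    ∀ t ∈ Icc (0 : ℝ) 1, ‖deriv (fun z => Psi j z x) (I * t)‖ ≤ (j : ℝ) ^ ε ∧
      ‖deriv (deriv fun z => Psi j z x) (I * t)‖ ≤ (j : ℝ) ^ ε := by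
  filter_upwards [bd_ray hfp hup (show 0 < ε / 2 by positivity), hfp, log_ev 100,
    pow_ev (show 0 < ε / 2 by positivity) 16, eventually_ge_atTop 1] with j h1 h2 h3 h4 h5 x hx t ht
  have hj1 : (1 : ℝ) ≤ j := by exact_mod_cast h5
  have hj0 : (0 : ℝ) < j := by linarith
  have key := Pool.Agent.PB.Rec.cauchy2 (f := fun z => Psi j z x) (z := I * t) (r := 1 / 2)
    (ε := (j : ℝ) ^ (ε / 2)) (by norm_num)
    (fun z hz => ((h2 x hx).df z (by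
      have := ball_box ht hz
      have := σP_pos
      linarith) (by
      rw [two_σP]
      have := ball_box ht hz
      linarith)).differentiableWithinAt)
    (fun z hz => h1 x hx z (ball_box ht hz).1 (ball_box ht hz).2)
  have e0 : 0 < (j : ℝ) ^ (ε / 2) := by positivity
  have e1 : (j : ℝ) ^ ε = (j : ℝ) ^ (ε / 2) * (j : ℝ) ^ (ε / 2) := by
    rw [← Real.rpow_add hj0, add_halves]
  constructor
  · refine key.1.trans ?_
    rw [e1, div_le_iff₀ (by norm_num)]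
    clear * - h4
    nlinarith
  · refine key.2.trans ?_
    rw [e1, div_le_iff₀ (by norm_num)]
    clear * - h4
    nlinarith

/-- **(E') from the gas side** -/
theorem EPr_ray (hfp : ∀ᶠ m : ℕ in atTop, ∀ x ∈ seg 0, FD aL σP 1 0 C m (fun z => Psi m z x))
    (hup : ∀ ε : ℝ, 0 < ε → ∀ᶠ m : ℕ in atTop, ∀ x ∈ seg 0, ∀ t ∈ Icc (0 : ℝ) 1,
      ‖Psi m (I * t) x‖ ≤ (m : ℝ) ^ ε) {c : ℝ} (hc : c < 1) (hE : E2 c Psi) : EPr c Psi := by
  obtain ⟨C1, hE⟩ := hE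
  set Y : ℝ := Real.exp (8 / 3) with hY
  have hY1 : 1 ≤ Y := Real.one_le_exp (by norm_num)
  refine ⟨|C1| + 2 * Y ^ 2, ?_⟩
  filter_upwards [hE, dbd_ray hfp hup (show 0 < 1 - c by linarith), eventually_ge_atTop 1]
    with j h1 h2 h3 s hs t ht
  obtain ⟨D, hD, hD1⟩ := h1 s hs t ht
  refine ⟨D, hD, ?_⟩
  have hj1 : (1 : ℝ) ≤ j := by exact_mod_cast h3
  have hj0 : (0 : ℝ) < j := by linarith
  have hx : I * (s : ℂ) ∈ seg 0 := ⟨s, hs, by simp⟩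
  obtain ⟨d1, d2⟩ := h2 _ hx t ht
  set g1 := deriv (fun z => Psi j z (I * s)) (I * t) with hg1
  set g2 := deriv (deriv fun z => Psi j z (I * s)) (I * t) with hg2
  set E : ℝ := Real.exp (8 / 3 * s) with hEd
  have hE0 : 0 < E := Real.exp_pos _
  have hEY : E ≤ Y := Real.exp_le_exp.2 (by (clear * - hs; linarith [hs.2]))
  have hE0' : 0 < E⁻¹ := by positivity
  have hE1 : 1 ≤ E := Real.one_le_exp (by linarith [hs.1])
  have hEY' : E⁻¹ ≤ Y := (inv_le_one_of_one_le₀ hE1).trans hY1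
  have hEm : Real.exp (-(8 / 3 * s)) = E⁻¹ := by rw [hEd, Real.exp_neg]
  -- y
  have hy : exp (I * (8 / 3 : ℝ) * (I * s)) = ((E⁻¹ : ℝ) : ℂ) := by
    rw [← hEm, ofReal_exp]
    congr 1
    push_cast
    linear_combination (8 / 3 * s : ℂ) * I_sq
  have hy' : (exp (I * (8 / 3 : ℝ) * (I * s)))⁻¹ = ((E : ℝ) : ℂ) := by
    rw [hy, ofReal_inv, inv_inv]
  unfold Op
  rw [hy', hy, ← hg1, ← hg2]
  -- the two fields
  set A : ℝ := E / (j + E) with hA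
  set B : ℝ := E⁻¹ / (j + E⁻¹) with hB
  have hrP : rP j s = (j + 1) * A := by
    unfold rP
    rw [← hEd, hA, mul_div_assoc]
  have hrM : rM j s = (j + 1) * B := by
    unfold rM
    rw [hEm, hB, mul_div_assoc]
  have hA1 := field_diff hj1 hE0 hEY
  have hB1 := field_diff hj1 hE0' hEY'
  rw [← hA] at hA1
  rw [← hB] at hB1
  have hN : ((j + 1 : ℝ) : ℂ) ≠ 0 := by
    have : (0 : ℝ) < j + 1 := by (clear * - hj1; linarith)
    exact_mod_cast this.ne'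
  -- first part
  have p1 : ‖D - ((((A - B) / 8 : ℝ) : ℂ) * g2 - (((A + B) / 2 : ℝ) : ℂ) * (I * g1))‖ ≤
      |C1| * (j : ℝ) ^ (-(1 + c)) := by
    have e1 : ((j + 1 : ℝ) : ℂ) * D - (-(((rP j s - rM j s) / 8 : ℝ) : ℂ) * (-g2) -
        (((rP j s + rM j s) / 2 : ℝ) : ℂ) * (I * g1)) = ((j + 1 : ℝ) : ℂ) *
        (D - ((((A - B) / 8 : ℝ) : ℂ) * g2 - (((A + B) / 2 : ℝ) : ℂ) * (I * g1))) := by
      rw [hrP, hrM]
      push_cast
      ring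
    rw [e1, norm_mul, norm_real, Real.norm_of_nonneg (by (clear * - hj1; linarith))] at hD1
    have e2 : (j : ℝ) ^ (-c) = (j : ℝ) * (j : ℝ) ^ (-(1 + c)) := by
      rw [show -c = 1 + -(1 + c) by ring, Real.rpow_add hj0, Real.rpow_one]
    have e3 : (j : ℝ) * ‖D - ((((A - B) / 8 : ℝ) : ℂ) * g2 - (((A + B) / 2 : ℝ) : ℂ) * (I * g1))‖ ≤
        (j : ℝ) * (|C1| * (j : ℝ) ^ (-(1 + c))) := by
      have e4 : 0 ≤ (j : ℝ) ^ (-c) := by positivity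
      calc _ ≤ ((j : ℝ) + 1) * ‖D - ((((A - B) / 8 : ℝ) : ℂ) * g2 -
            (((A + B) / 2 : ℝ) : ℂ) * (I * g1))‖ := by
            have := norm_nonneg (D - ((((A - B) / 8 : ℝ) : ℂ) * g2 - (((A + B) / 2 : ℝ) : ℂ) * (I * g1)))
            clear * - A B g2 g1 this
            nlinarith
        _ ≤ C1 * (j : ℝ) ^ (-c) := hD1
        _ ≤ |C1| * (j : ℝ) ^ (-c) := by
            gcongr
            exact le_abs_self _
        _ = _ := by rw [e2]; ring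
    exact le_of_mul_le_mul_left e3 hj0
  -- second part
  have p2 : ‖((((A - B) / 8 : ℝ) : ℂ) * g2 - (((A + B) / 2 : ℝ) : ℂ) * (I * g1)) -
      ((1 / j : ℝ) : ℂ) * ((((E : ℝ) : ℂ) - ((E⁻¹ : ℝ) : ℂ)) * ((1 / 8 : ℝ) : ℂ) * g2 +
        (((E : ℝ) : ℂ) + ((E⁻¹ : ℝ) : ℂ)) * (-(I / 2)) * g1)‖ ≤ 2 * Y ^ 2 * (j : ℝ) ^ (-(1 + c)) := by
    have e1 : ((((A - B) / 8 : ℝ) : ℂ) * g2 - (((A + B) / 2 : ℝ) : ℂ) * (I * g1)) -
      ((1 / j : ℝ) : ℂ) * ((((E : ℝ) : ℂ) - ((E⁻¹ : ℝ) : ℂ)) * ((1 / 8 : ℝ) : ℂ) * g2 +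
        (((E : ℝ) : ℂ) + ((E⁻¹ : ℝ) : ℂ)) * (-(I / 2)) * g1) =
      (((A - E / j) - (B - E⁻¹ / j) : ℝ) : ℂ) * (1 / 8 * g2) -
      (((A - E / j) + (B - E⁻¹ / j) : ℝ) : ℂ) * (I / 2 * g1) := by
      push_cast
      ring
    have hQ : ‖(((A - E / j) - (B - E⁻¹ / j) : ℝ) : ℂ)‖ ≤ 2 * (Y ^ 2 / j ^ 2) := by
      rw [norm_real, Real.norm_eq_abs]
      exact (abs_sub _ _).trans (by (clear * - A E B Y hA1 hB1; linarith))
    have hQ' : ‖(((A - E / j) + (B - E⁻¹ / j) : ℝ) : ℂ)‖ ≤ 2 * (Y ^ 2 / j ^ 2) := by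
      rw [norm_real, Real.norm_eq_abs]
      exact (abs_add_le _ _).trans (by (clear * - A E B Y hA1 hB1; linarith))
    have hP : 0 ≤ Y ^ 2 / (j : ℝ) ^ 2 := by positivity
    have hjc : 0 ≤ (j : ℝ) ^ (1 - c) := by positivity
    rw [e1]
    refine (norm_sub_le _ _).trans ?_
    rw [norm_mul _ ((1 / 8 : ℂ) * g2), norm_mul _ ((I / 2 : ℂ) * g1)]
    have g2n : ‖(1 / 8 : ℂ) * g2‖ ≤ 1 / 2 * (j : ℝ) ^ (1 - c) := by
      rw [norm_mul]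
      have : ‖(1 / 8 : ℂ)‖ = 1 / 8 := by norm_num
      rw [this]
      clear * - g2 d2 hjc
      nlinarith
    have g1n : ‖(I / 2 : ℂ) * g1‖ ≤ 1 / 2 * (j : ℝ) ^ (1 - c) := by
      rw [norm_mul]
      have : ‖(I / 2 : ℂ)‖ = 1 / 2 := by
        rw [norm_div, norm_I]
        norm_num
      rw [this]
      clear * - g1 d1
      nlinarith
    calc _ ≤ 2 * (Y ^ 2 / j ^ 2) * (1 / 2 * (j : ℝ) ^ (1 - c)) +
          2 * (Y ^ 2 / j ^ 2) * (1 / 2 * (j : ℝ) ^ (1 - c)) :=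
          add_le_add (mul_le_mul hQ g2n (norm_nonneg _) (by positivity))
            (mul_le_mul hQ' g1n (norm_nonneg _) (by positivity))
      _ = 2 * Y ^ 2 * ((j : ℝ) ^ (1 - c) / (j : ℝ) ^ 2) := by ring
      _ = _ := by
        congr 1
        have e6 : (j : ℝ) ^ (-(1 + c)) * (j : ℝ) ^ (2 : ℕ) = (j : ℝ) ^ (1 - c) := by
          rw [← Real.rpow_natCast (j : ℝ) 2, ← Real.rpow_add hj0]
          congr 1
          push_cast
          ring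
        rw [div_eq_iff (by positivity), e6]
  have e5 : D - ((1 / j : ℝ) : ℂ) * ((((E : ℝ) : ℂ) - ((E⁻¹ : ℝ) : ℂ)) * ((1 / 8 : ℝ) : ℂ) * g2 +
        (((E : ℝ) : ℂ) + ((E⁻¹ : ℝ) : ℂ)) * (-(I / 2)) * g1) =
      (D - ((((A - B) / 8 : ℝ) : ℂ) * g2 - (((A + B) / 2 : ℝ) : ℂ) * (I * g1))) +
      (((((A - B) / 8 : ℝ) : ℂ) * g2 - (((A + B) / 2 : ℝ) : ℂ) * (I * g1)) -
      ((1 / j : ℝ) : ℂ) * ((((E : ℝ) : ℂ) - ((E⁻¹ : ℝ) : ℂ)) * ((1 / 8 : ℝ) : ℂ) * g2 +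
        (((E : ℝ) : ℂ) + ((E⁻¹ : ℝ) : ℂ)) * (-(I / 2)) * g1)) := by ring
  rw [e5]
  exact (norm_add_le _ _).trans ((add_le_add p1 p2).trans (le_of_eq (by ring)))

variable {n : ℕ} {f : ℕ → ℂ → ℂ} {F : ℕ → ℕ → List ℂ → ℂ → ℂ}

/-- **output of the function side along a ray, gas side form of (E')** -/
theorem RayH.out2 (h : RayH n C f F) (hn : 1 ≤ n) {c : ℝ} (hc : 0 ≤ c) (hc1 : c < 2 / 3)
    (hE : E2 c fun m z x => F m 0 (List.replicate n x) z) : FunO2 c f (fun j => bP f j 0) :=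
  h.out hn hc hc1 (EPr_ray (Psi := fun m z x => F m 0 (List.replicate n x) z) h.fp h.up
    (by linarith) hE)

end Pool.Agent.PLX

end
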