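import Pool.Agent.PB.TRPh
import Pool.Agent.PLX.RayE

/-!
# (TR) along a ray: integration over the heights, function side with steps of two rows (project PLAX)

Input of the function side: `FunO2 c f g` (`PLX/RayC`), any `c > 0`.

* `tr_core2`: `PBTR.tr_core` with thresholds `0` in place of `3 / 8`;
* **`tr_fun2`**: `r k W k = u' k (κ G ((k - 1) % 2)) + O(k ^ (-c'))`, `‖u' k‖ = 1`, `c' > 0`.
-/

set_option autoImplicit false

noncomputable section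

open MeasureTheory Set Filter Topology Complex

namespace PBTR.PLX

open PBTR
open Pool.Agent.PB.Rec
open Pool.Agent.PLX (FunO2)

variable {d c0 c1 A x0 : ℝ} {f : ℕ → ℂ → ℂ}

/-- **integration over the heights of the half quanta**, core form, positive margins -/
theorem tr_core2 {m B1 V0 : ℝ} {g0 : ℕ → ℂ} {n : ℕ → ℂ} {R : ℕ → ℝ × ℝ → ℂ} {k1 E : ℝ × ℝ → ℂ}
    {W : ℕ → Set (ℝ × ℝ)}
    (hd : 0 < d) (hd' : d ≤ 1 / 20) (hc0 : 0 < c0) (hc1 : 0 < c1)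
    (hm : 0 < m) (hB1 : 0 ≤ B1) (hV0 : 0 ≤ V0) (hWm : ∀ k, MeasurableSet (W k))
    (hWS : ∀ᶠ k : ℕ in atTop, nearS (3 / 8 + d) k ⊆ W k)
    (hRm : ∀ᶠ k : ℕ in atTop,
      AEStronglyMeasurable (fun τ => k1 τ * R k τ) (volume.restrict (W k)))
    (hKm : AEStronglyMeasurable (fun τ => k1 τ * E τ) volume)
    (H1 : ∀ᶠ k : ℕ in atTop, ‖n k - ∫ τ in W k, k1 τ * R k τ‖ ≤ (k : ℝ) ^ (-c0))
    (H2 : ∀ᶠ k : ℕ in atTop, ∀ τ ∈ W k,
      ‖k1 τ * R k τ‖ ≤ (k : ℝ) ^ (d / 8) * Real.exp (-(mT τ)))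
    (H3 : ∀ᶠ k : ℕ in atTop, ∀ τ ∈ nearS (3 / 8 + d) k,
      ‖k1 τ‖ * ‖R k τ - E τ * f k (zT x0 τ)‖ ≤ (k : ℝ) ^ (-c1))
    (H4 : ∀ τ, ‖k1 τ * E τ‖ ≤ A * Real.exp (-(3 * sT τ)))
    (Hh : ∀ᶠ k : ℕ in atTop, ∀ τ ∈ nearS (3 / 8 + d) k,
      ‖f k (zT x0 τ) - g0 k‖ * Real.exp (-(3 * sT τ)) ≤ B1 * (k : ℝ) ^ (-m))
    (Hg : ∀ᶠ k : ℕ in atTop, ‖g0 k‖ ≤ V0 * (k : ℝ) ^ (d / 8)) :
    ∃ c' : ℝ, 0 < c' ∧ ∃ B : ℝ, ∀ᶠ k : ℕ in atTop,
      ‖n k - g0 k * ∫ τ, k1 τ * E τ‖ ≤ B * (k : ℝ) ^ (-c') := by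
  have hA : 0 ≤ A := by
    have h1 := H4 (0, 0)
    have h2 : sT (0, 0) = 0 := by simp [sT]
    rw [h2, mul_zero, neg_zero, Real.exp_zero, mul_one] at h1
    exact (norm_nonneg _).trans h1
  -- the margin
  obtain ⟨m0, hm0, m1, m2, m3, m4, m5⟩ : ∃ m0 : ℝ, 0 < m0 ∧ m0 ≤ m ∧ m0 ≤ c1 ∧
      m0 ≤ c0 ∧ m0 ≤ d ∧ m0 ≤ 1 / 16 := by
    refine ⟨min (min m c1) (min c0 (min d (1 / 16))), ?_, ?_, ?_, ?_, ?_, ?_⟩
    · exact lt_min (lt_min hm hc1) (lt_min hc0 (lt_min hd (by norm_num)))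
    · exact (min_le_left _ _).trans (min_le_left _ _)
    · exact (min_le_left _ _).trans (min_le_right _ _)
    · exact (min_le_right _ _).trans (min_le_left _ _)
    · exact (min_le_right _ _).trans ((min_le_right _ _).trans (min_le_left _ _))
    · exact (min_le_right _ _).trans ((min_le_right _ _).trans (min_le_right _ _))
  -- integrals of the weights
  have hv := int_esT (θ := m0) hm0
  have hdq : 0 < d / 4 := by (clear * - hd; linarith)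
  have hw : Integrable fun τ : ℝ × ℝ => Real.exp (-(d / 4 * mT τ)) := by
    refine (int_esT hdq).mono' ?_ (Eventually.of_forall fun τ => ?_)
    · exact (Real.continuous_exp.comp (continuous_const.mul continuous_mT).neg).aestronglyMeasurable
    · rw [Real.norm_of_nonneg (Real.exp_pos _).le]
      apply Real.exp_le_exp.2
      have h1 := two_sT_le τ
      have h2 := sT_nonneg τ
      clear * - hd h1 h2
      nlinarith
  set IV : ℝ := ∫ τ : ℝ × ℝ, Real.exp (-(m0 * sT τ)) with hIV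
  set IW : ℝ := ∫ τ : ℝ × ℝ, Real.exp (-(d / 4 * mT τ)) with hIW
  have hIV0 : 0 ≤ IV := integral_nonneg fun τ => (Real.exp_pos _).le
  have hIW0 : 0 ≤ IW := integral_nonneg fun τ => (Real.exp_pos _).le
  have hKi : Integrable fun τ => k1 τ * E τ := by
    refine ((int_esT (θ := 3) (by norm_num)).const_mul A).mono' hKm (Eventually.of_forall fun τ => ?_)
    exact H4 τ
  refine ⟨m0 / 2, by linarith, 1 + ((1 + A * B1) * IV + (1 + V0 * A) * IW), ?_⟩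
  filter_upwards [hWS, hRm, H1, H2, H3, Hh, Hg, ev_log 0, ev_one] with k q1 q2 q3 q4 q5 q6 q7 hL hk
  set L := Real.log k with hLdef
  set RR : ℝ × ℝ → ℂ := (W k).indicator fun τ => k1 τ * R k τ with hRR
  have hkp : (0 : ℝ) < k := by (clear * - hd hd' hk; linarith)
  have hRRi : Integrable RR := by
    rw [hRR, integrable_indicator_iff (hWm k)]
    refine Integrable.mono' (g := fun τ => (k : ℝ) ^ (d / 8) * Real.exp (-(d / 4 * mT τ)))
      ((hw.const_mul _).integrableOn) q2 ?_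
    refine (ae_restrict_iff' (hWm k)).2 (Eventually.of_forall fun τ hτ => (q4 τ hτ).trans ?_)
    have h1 := mT_nonneg τ
    have h2 : Real.exp (-(mT τ)) ≤ Real.exp (-(d / 4 * mT τ)) := by
      apply Real.exp_le_exp.2
      clear * - h1 hd'
      nlinarith
    have h3 : 0 ≤ (k : ℝ) ^ (d / 8) := Real.rpow_nonneg hkp.le _
    exact mul_le_mul_of_nonneg_left h2 h3
  have hRRint : ∫ τ, RR τ = ∫ τ in W k, k1 τ * R k τ := by
    rw [hRR, integral_indicator (hWm k)]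
  -- near
  have near : ∀ τ ∈ nearS (3 / 8 + d) k, ‖RR τ - g0 k * (k1 τ * E τ)‖ ≤
      ((1 + A * B1) * (k : ℝ) ^ (-(m0 / 2))) * Real.exp (-(m0 * sT τ)) := by
    intro τ hτ
    have h1 : RR τ = k1 τ * R k τ := by
      rw [hRR, Set.indicator_of_mem (q1 hτ)]
    have h2 : RR τ - g0 k * (k1 τ * E τ) = k1 τ * (R k τ - E τ * f k (zT x0 τ)) +
        (k1 τ * E τ) * (f k (zT x0 τ) - g0 k) := by rw [h1]; ring
    have h3 := q5 τ hτ
    have h4 := q6 τ hτ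
    have h5 : ‖k1 τ * E τ‖ * ‖f k (zT x0 τ) - g0 k‖ ≤ A * (B1 * (k : ℝ) ^ (-m)) := by
      calc _ ≤ A * Real.exp (-(3 * sT τ)) * ‖f k (zT x0 τ) - g0 k‖ := by
            gcongr
            exact H4 τ
        _ = A * (‖f k (zT x0 τ) - g0 k‖ * Real.exp (-(3 * sT τ))) := by ring
        _ ≤ _ := by gcongr
    have h6 : (k : ℝ) ^ (-c1) ≤ (k : ℝ) ^ (-m0) :=
      Real.rpow_le_rpow_of_exponent_le hk (by linarith)
    have h7 : (k : ℝ) ^ (-m) ≤ (k : ℝ) ^ (-m0) :=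
      Real.rpow_le_rpow_of_exponent_le hk (by linarith)
    have h10 : (k : ℝ) ^ (-m0) ≤
        (k : ℝ) ^ (-(m0 / 2)) * Real.exp (-(m0 * sT τ)) := by
      rw [rpow_log hk, rpow_log hk, ← Real.exp_add]
      apply Real.exp_le_exp.2
      have := (nearS_sT hd' hL hτ).1
      clear * - L hd hd' hm0 hL this
      nlinarith
    rw [h2]
    calc _ ≤ ‖k1 τ * (R k τ - E τ * f k (zT x0 τ))‖ + ‖(k1 τ * E τ) * (f k (zT x0 τ) - g0 k)‖ :=
          norm_add_le _ _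
      _ = ‖k1 τ‖ * ‖R k τ - E τ * f k (zT x0 τ)‖ + ‖k1 τ * E τ‖ * ‖f k (zT x0 τ) - g0 k‖ := by
          rw [norm_mul, norm_mul (k1 τ * E τ)]
      _ ≤ (k : ℝ) ^ (-m0) + A * (B1 * (k : ℝ) ^ (-m0)) := by
          refine add_le_add (h3.trans h6) (h5.trans ?_)
          clear * - h7 hB1 hA
          gcongr
      _ = (1 + A * B1) * (k : ℝ) ^ (-m0) := by ring
      _ ≤ (1 + A * B1) * ((k : ℝ) ^ (-(m0 / 2)) * Real.exp (-(m0 * sT τ))) := by
          clear * - hA hB1 h10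
          gcongr
      _ = _ := by ring
  -- far
  have hout : ∀ τ ∉ nearS (3 / 8 + d) k, Real.exp (-(mT τ)) ≤
      (k : ℝ) ^ (-(3 / 8 + 7 / 8 * d)) * Real.exp (-(d / 4 * mT τ)) := by
    intro τ hτ
    have h1 : (3 / 8 + d) * L < mT τ := by
      by_contra hn
      push Not at hn
      exact hτ hn
    rw [rpow_log hk, ← Real.exp_add]
    apply Real.exp_le_exp.2
    have h2 : (1 - d / 4) * ((3 / 8 + d) * L) ≤ (1 - d / 4) * mT τ :=
      mul_le_mul_of_nonneg_left h1.le (by linarith)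
    have h3 : (3 / 8 + 7 / 8 * d) * L ≤ (1 - d / 4) * ((3 / 8 + d) * L) := by
      rw [← mul_assoc]
      refine mul_le_mul_of_nonneg_right ?_ hL
      clear * - hd hd'
      nlinarith
    clear * - L h2 h3
    linarith
  have far : ∀ τ ∉ nearS (3 / 8 + d) k, ‖RR τ‖ ≤
      ((k : ℝ) ^ (d / 8) * (k : ℝ) ^ (-(3 / 8 + 7 / 8 * d))) * Real.exp (-(d / 4 * mT τ)) := by
    intro τ hτ
    by_cases hW : τ ∈ W k
    · rw [hRR, Set.indicator_of_mem hW]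
      refine (q4 τ hW).trans ?_
      rw [mul_assoc]
      exact mul_le_mul_of_nonneg_left (hout τ hτ) (Real.rpow_nonneg hkp.le _)
    · rw [hRR, Set.indicator_of_notMem hW, norm_zero]
      positivity
  have farK : ∀ τ ∉ nearS (3 / 8 + d) k, ‖k1 τ * E τ‖ ≤
      (A * (k : ℝ) ^ (-(3 / 8 + 7 / 8 * d))) * Real.exp (-(d / 4 * mT τ)) := by
    intro τ hτ
    refine (H4 τ).trans ?_
    rw [mul_assoc]
    refine mul_le_mul_of_nonneg_left (le_trans ?_ (hout τ hτ)) hA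
    apply Real.exp_le_exp.2
    have h1 := mT_le τ
    have h2 := sT_nonneg τ
    linarith
  have hfin := nearfar (μ := volume) (measurableSet_nearS (3 / 8 + d) k) (g := g0 k) hRRi hKi hv hw
    (fun τ => (Real.exp_pos _).le) (fun τ => (Real.exp_pos _).le)
    (by positivity) (by positivity) near far farK (A := IV) (B := IW) le_rfl
    (setIntegral_le_integral hw (Eventually.of_forall fun τ => (Real.exp_pos _).le)) (by positivity)
  rw [hRRint] at hfin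
  have p1 : (k : ℝ) ^ (-c0) ≤ (k : ℝ) ^ (-(m0 / 2)) :=
    Real.rpow_le_rpow_of_exponent_le hk (by (clear * - hc0 m3; linarith))
  have p2 : (k : ℝ) ^ (d / 8) * (k : ℝ) ^ (-(3 / 8 + 7 / 8 * d)) ≤ (k : ℝ) ^ (-(m0 / 2)) := by
    rw [← Real.rpow_add hkp]
    exact Real.rpow_le_rpow_of_exponent_le hk (by (clear * - hd hd' m4; linarith))
  have p3 : ‖g0 k‖ * (A * (k : ℝ) ^ (-(3 / 8 + 7 / 8 * d))) ≤
      V0 * A * (k : ℝ) ^ (-(m0 / 2)) := by
    calc _ ≤ V0 * (k : ℝ) ^ (d / 8) * (A * (k : ℝ) ^ (-(3 / 8 + 7 / 8 * d))) := by (clear * - hA hk q7; gcongr)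
      _ = V0 * A * ((k : ℝ) ^ (d / 8) * (k : ℝ) ^ (-(3 / 8 + 7 / 8 * d))) := by ring
      _ ≤ _ := by (clear * - hV0 hA p2; gcongr)
  have e1 : n k - g0 k * ∫ τ, k1 τ * E τ = (n k - ∫ τ in W k, k1 τ * R k τ) +
      ((∫ τ in W k, k1 τ * R k τ) - g0 k * ∫ τ, k1 τ * E τ) := by ring
  rw [e1]
  refine (norm_add_le _ _).trans ?_
  have p4 : ((k : ℝ) ^ (d / 8) * (k : ℝ) ^ (-(3 / 8 + 7 / 8 * d)) +
      ‖g0 k‖ * (A * (k : ℝ) ^ (-(3 / 8 + 7 / 8 * d)))) * IW ≤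
      (((k : ℝ) ^ (-(m0 / 2)) + V0 * A * (k : ℝ) ^ (-(m0 / 2)))) * IW := by
    clear * - IW p2 p3
    gcongr
  calc _ ≤ (k : ℝ) ^ (-(m0 / 2)) +
        ((1 + A * B1) * (k : ℝ) ^ (-(m0 / 2)) * IV +
        (((k : ℝ) ^ (-(m0 / 2)) + V0 * A * (k : ℝ) ^ (-(m0 / 2)))) * IW) :=
        add_le_add (q3.trans p1) (hfin.trans (by gcongr))
    _ = _ := by ring

/-- division by the phase -/
lemma div_phase2 {b c0 : ℝ} {Y : ℕ → ℂ} {I u : ℕ → ℂ} (hb : 0 < b) (hu : ∀ᶠ k : ℕ in atTop, ‖u k‖ = b)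
    (hc0 : 0 < c0) (H1 : ∀ᶠ k : ℕ in atTop, ‖Y k - u k * I k‖ ≤ (k : ℝ) ^ (-c0)) :
    ∃ c0' : ℝ, 0 < c0' ∧ ∀ᶠ k : ℕ in atTop, ‖Y k / u k - I k‖ ≤ (k : ℝ) ^ (-c0') := by
  obtain ⟨c0', h1, h2⟩ : ∃ c0' : ℝ, 0 < c0' ∧ c0' < c0 := exists_between hc0
  refine ⟨c0', h1, ?_⟩
  filter_upwards [H1, hu, absorb (B := 1 / b) h2] with k q1 q2 q3
  have hu0 : u k ≠ 0 := by
    intro h
    rw [h, norm_zero] at q2
    linarith
  have e1 : Y k / u k - I k = (Y k - u k * I k) / u k := by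
    field_simp
  rw [e1, norm_div, q2]
  refine le_trans ?_ q3
  rw [one_div_mul_eq_div]
  exact div_le_div_of_nonneg_right q1 hb.le

/-- back to the function with the phase; the limit may depend on the index -/
lemma phase_core2 {b c c' B B' : ℝ} {Y : ℕ → ℂ} {u g0 G : ℕ → ℂ} {J : ℂ} (hb : 0 < b)
    (hu : ∀ᶠ k : ℕ in atTop, ‖u k‖ = b) (hc : 0 < c) (hc' : 0 < c')
    (hB : ∀ᶠ k : ℕ in atTop, ‖Y k / u k - g0 k * J‖ ≤ B * (k : ℝ) ^ (-c'))
    (hB' : ∀ᶠ k : ℕ in atTop, ‖g0 k - G k‖ ≤ B' * (k : ℝ) ^ (-c)) :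
    ∃ (c' C : ℝ) (κ : ℂ) (u' : ℕ → ℂ), 0 < c' ∧ (∀ᶠ k : ℕ in atTop, ‖u' k‖ = 1) ∧
      ∀ᶠ k : ℕ in atTop, ‖Y k - u' k * (κ * G k)‖ ≤ C * (k : ℝ) ^ (-c') := by
  have hb' : (b : ℂ) ≠ 0 := by exact_mod_cast hb.ne'
  have hbn : ‖(b : ℂ)‖ = b := by rw [norm_real, Real.norm_of_nonneg hb.le]
  obtain ⟨cm, h4, h5, h6⟩ : ∃ cm : ℝ, 0 < cm ∧ cm ≤ c' ∧ cm ≤ c :=
    ⟨min c' c, lt_min hc' hc, min_le_left _ _, min_le_right _ _⟩
  refine ⟨cm, b * (|B| + |B'| * ‖J‖), b * J, fun k => u k / b, h4, ?_, ?_⟩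
  · filter_upwards [hu] with k q1
    rw [norm_div, q1, hbn, div_self hb.ne']
  · filter_upwards [hB, hB', hu, ev_one] with k q1 q2 q3 hk
    have hk0 : (0 : ℝ) < k := by linarith
    have hu0 : u k ≠ 0 := by
      intro h
      rw [h, norm_zero] at q3
      linarith
    have m1 : (k : ℝ) ^ (-c') ≤ (k : ℝ) ^ (-cm) := Real.rpow_le_rpow_of_exponent_le hk (by linarith)
    have m2 : (k : ℝ) ^ (-c) ≤ (k : ℝ) ^ (-cm) := Real.rpow_le_rpow_of_exponent_le hk (by linarith)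
    have p1 : 0 ≤ (k : ℝ) ^ (-c') := Real.rpow_nonneg hk0.le _
    have p2 : 0 ≤ (k : ℝ) ^ (-c) := Real.rpow_nonneg hk0.le _
    have e1 : Y k - u k / b * (b * J * G k) =
        u k * ((Y k / u k - g0 k * J) + (g0 k - G k) * J) := by
      field_simp
      ring
    rw [e1, norm_mul, q3]
    have s1 : ‖Y k / u k - g0 k * J‖ ≤ |B| * (k : ℝ) ^ (-cm) :=
      q1.trans ((mul_le_mul_of_nonneg_right (le_abs_self B) p1).trans
        (mul_le_mul_of_nonneg_left m1 (abs_nonneg B)))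
    have s2 : ‖(g0 k - G k) * J‖ ≤ |B'| * ‖J‖ * (k : ℝ) ^ (-cm) := by
      rw [norm_mul]
      calc ‖g0 k - G k‖ * ‖J‖ ≤ (|B'| * (k : ℝ) ^ (-cm)) * ‖J‖ := by
            refine mul_le_mul_of_nonneg_right ?_ (norm_nonneg _)
            exact q2.trans ((mul_le_mul_of_nonneg_right (le_abs_self B') p2).trans
              (mul_le_mul_of_nonneg_left m2 (abs_nonneg B')))
        _ = _ := by ring
    calc b * ‖(Y k / u k - g0 k * J) + (g0 k - G k) * J‖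
        ≤ b * (|B| * (k : ℝ) ^ (-cm) + |B'| * ‖J‖ * (k : ℝ) ^ (-cm)) :=
          mul_le_mul_of_nonneg_left ((norm_add_le _ _).trans (add_le_add s1 s2)) hb.le
      _ = _ := by ring

/-- the harmonics on the near set, from `FunO2`, any `c > 0` -/
theorem harm_fun2 {x0 c d : ℝ} {f : ℕ → ℂ → ℂ} {g : ℕ → ℂ} (hF : FunO2 c f g) (hc : 0 < c)
    (hx : |x0| ≤ PBV.aL) (hd' : d ≤ 1 / 20) :
    ∃ m : ℝ, 0 < m ∧ ∃ B : ℝ, 0 ≤ B ∧ ∀ᶠ k : ℕ in atTop, ∀ τ ∈ nearS (3 / 8 + d) k,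
      ‖f (k - 1) (zT x0 τ) - g (k - 1)‖ * Real.exp (-(3 * sT τ)) ≤ B * (k : ℝ) ^ (-m) := by
  obtain ⟨c2, h21, h22, h23⟩ : ∃ c2 : ℝ, 0 < c2 ∧ c2 ≤ c ∧ c2 ≤ 1 / 100 :=
    ⟨min c (1 / 100), lt_min hc (by norm_num), min_le_left _ _, min_le_right _ _⟩
  set ε : ℝ := c2 / 4 with hε
  have hε0 : 0 < ε := by rw [hε]; linarith
  have hv := hF.val 0 le_rfl Pool.Agent.PLX.σP_pos ε hε0
  have hub := hF.ub ε hε0
  have ht : Tendsto (fun k : ℕ => k - 1) atTop atTop := tendsto_sub_atTop_nat 1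
  refine ⟨ε, hε0, 4 * Real.exp ε, by positivity, ?_⟩
  filter_upwards [ht.eventually hv, ht.eventually hub, ev_log 20, eventually_ge_atTop 3]
    with k h1 h1' hL hk3
  intro τ hτ
  set L := Real.log k with hLdef
  have hL0 : 0 ≤ L := by linarith
  have hk : (1 : ℝ) ≤ k := by
    have : 1 ≤ k := by omega
    exact_mod_cast this
  have hk0 : (0 : ℝ) < k := by (clear * - hk; linarith)
  obtain ⟨hs, hy, hy'⟩ := nearS_sT hd' hL0 hτ
  have hys := yT_le τ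
  set y := |yT τ| with hydef
  have hy0 : 0 ≤ y := abs_nonneg _
  -- the logarithm of `k - 1`
  have hj : ((k - 1 : ℕ) : ℝ) = k - 1 := by
    rw [Nat.cast_sub (by omega)]
    norm_num
  have hk3' : (3 : ℝ) ≤ k := by exact_mod_cast hk3
  have hj0 : (0 : ℝ) < ((k - 1 : ℕ) : ℝ) := by rw [hj]; (clear * - ε h23 hε hε0 hk3'; linarith)
  set L' := Real.log ((k - 1 : ℕ) : ℝ) with hL'def
  have hLL : L - 1 ≤ L' := by
    have e1 : L - 1 = Real.log (k / Real.exp 1) := by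
      rw [Real.log_div hk0.ne' (Real.exp_pos 1).ne', Real.log_exp]
    rw [e1, hL'def, hj]
    apply Real.log_le_log (by positivity)
    rw [div_le_iff₀ (Real.exp_pos 1)]
    have := Real.add_one_le_exp (1 : ℝ)
    clear * - ε hk3' h23 hε hε0 hk this
    nlinarith
  have hL'L : L' ≤ L := by
    rw [hL'def, hj]
    exact Real.log_le_log (by (clear * - ε h23 hε hε0 hk3'; linarith)) (by (clear * - ε h23 hε hε0; linarith))
  have hL'0 : 0 < L' := by (clear * - L' ε L h23 hε hε0 hL hLL; linarith)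
  have hyL : y ≤ 9 / 80 * L' := by (clear * - y L' ε L hd' h23 hε hε0 hL hy hLL; nlinarith)
  have hje : ∀ x : ℝ, ((k - 1 : ℕ) : ℝ) ^ x = Real.exp (x * L') := by
    intro x
    rw [Real.rpow_def_of_pos hj0, mul_comm]
  have hre : |(zT x0 τ).re| ≤ PBV.aL := by rw [zT_re]; exact hx
  have hfin : ∀ A : ℝ, A ≤ 4 * Real.exp (-(ε * L')) →
      A ≤ 4 * Real.exp ε * (k : ℝ) ^ (-ε) := by
    intro A hA
    refine hA.trans ?_
    rw [rpow_log hk, mul_assoc, ← Real.exp_add]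
    refine mul_le_mul_of_nonneg_left (Real.exp_le_exp.2 ?_) (by norm_num)
    have := mul_le_mul_of_nonneg_left hLL hε0.le
    clear * - ε L' L this
    linarith
  -- the value near the axis
  have hlow : ∀ w : ℂ, |w.re| ≤ PBV.aL → |w.im| ≤ 1 / 200 * L' →
      ‖f (k - 1) w - g (k - 1)‖ ≤ Real.exp (-(ε * L')) * Real.exp (2 * |w.im|) := by
    intro w hw1 hw2
    have hw0 := abs_nonneg w.im
    have h2 := h1 w (by rw [add_zero]; exact hw1) (by (clear * - L' ε L h23 hε hε0 hL hLL hw2; linarith))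
    refine h2.trans (mul_le_mul_of_nonneg_right ?_ (Real.exp_pos _).le)
    rw [hje]
    refine Real.exp_le_exp.2 ?_
    have e3 : (1 - |w.im| / (1 / 100 * L')) * L' = L' - 100 * |w.im| := by
      field_simp
    have e4 : (-(c * (1 - |w.im| / (1 / 100 * L'))) + ε) * L' =
        -(c * ((1 - |w.im| / (1 / 100 * L')) * L')) + ε * L' := by ring
    rw [e4, e3]
    have p1 : 1 / 2 * L' ≤ L' - 100 * |w.im| := by (clear * - L' hw2; linarith)
    have p2 : c2 * (1 / 2 * L') ≤ c * (L' - 100 * |w.im|) :=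
      mul_le_mul h22 p1 (by positivity) hc.le
    have p3 : c2 = 4 * ε := by rw [hε]; ring
    rw [p3] at p2
    clear * - L' ε p2
    linarith
  rcases le_or_gt y (1 / 200 * L') with hcase | hcase
  · have h2 := hlow (zT x0 τ) hre (by rw [zT_im, abs_neg]; exact hcase)
    rw [zT_im, abs_neg, ← hydef] at h2
    refine hfin _ ?_
    calc ‖f (k - 1) (zT x0 τ) - g (k - 1)‖ * Real.exp (-(3 * sT τ))
        ≤ (Real.exp (-(ε * L')) * Real.exp (2 * y)) * Real.exp (-(3 * sT τ)) :=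
          mul_le_mul_of_nonneg_right h2 (Real.exp_pos _).le
      _ = Real.exp (-(ε * L') + 2 * y + -(3 * sT τ)) := by rw [← Real.exp_add, ← Real.exp_add]
      _ ≤ Real.exp (-(ε * L')) := Real.exp_le_exp.2 (by (clear * - ε L' y hys hy0; linarith))
      _ ≤ 4 * Real.exp (-(ε * L')) := by (clear * - ε L'; linarith [Real.exp_pos (-(ε * L'))])
  · -- above: the sharp bound
    have b1 := h1' (zT x0 τ) hre (by rw [zT_im, abs_neg]; (clear * - L' ε y h23 hε hε0 hyL; linarith))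
    rw [zT_im, abs_neg, ← hydef, hje] at b1
    have b2 := h1' 0 (by rw [Complex.zero_re, abs_zero]; exact PBV.aL_pos.le)
      (by rw [Complex.zero_im, abs_zero]; positivity)
    rw [Complex.zero_im, abs_zero, mul_zero, Real.exp_zero, mul_one, hje] at b2
    have b3 := hlow 0 (by rw [Complex.zero_re, abs_zero]; exact PBV.aL_pos.le)
      (by rw [Complex.zero_im, abs_zero]; positivity)
    rw [Complex.zero_im, abs_zero, mul_zero, Real.exp_zero, mul_one] at b3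
    have b4 : Real.exp (-(ε * L')) ≤ Real.exp (ε * L') := Real.exp_le_exp.2 (by
      have : 0 ≤ ε * L' := by positivity
      clear * - ε L' this
      linarith)
    have b5 : ‖g (k - 1)‖ ≤ 2 * Real.exp (ε * L') := by
      have e : g (k - 1) = f (k - 1) 0 - (f (k - 1) 0 - g (k - 1)) := by ring
      rw [e]
      refine (norm_sub_le _ _).trans ?_
      clear * - ε L' b2 b3 b4
      linarith
    have b6 : 1 ≤ Real.exp (2 * y) := Real.one_le_exp (by (clear * - y; positivity))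
    have b7 : ‖f (k - 1) (zT x0 τ) - g (k - 1)‖ ≤ 4 * (Real.exp (ε * L') * Real.exp (2 * y)) := by
      refine (norm_sub_le _ _).trans ?_
      have hE := Real.exp_pos (ε * L')
      clear * - ε L' y b1 b5 h23 hE hε hε0 b6
      nlinarith
    refine hfin _ ?_
    calc ‖f (k - 1) (zT x0 τ) - g (k - 1)‖ * Real.exp (-(3 * sT τ))
        ≤ 4 * (Real.exp (ε * L') * Real.exp (2 * y)) * Real.exp (-(3 * sT τ)) :=
          mul_le_mul_of_nonneg_right b7 (Real.exp_pos _).le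
      _ = 4 * Real.exp (ε * L' + 2 * y + -(3 * sT τ)) := by
          rw [mul_assoc, ← Real.exp_add, ← Real.exp_add]
      _ ≤ 4 * Real.exp (-(ε * L')) := by
          refine mul_le_mul_of_nonneg_left (Real.exp_le_exp.2 ?_) (by norm_num)
          have p3 : ε ≤ 1 / 400 := by rw [hε]; (clear * - h23; linarith)
          have p4 : ε * L' ≤ 1 / 400 * L' := mul_le_mul_of_nonneg_right p3 hL'0.le
          clear * - ε L' y L h23 hε hε0 hL hys hLL hcase p4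
          linarith

/-- a bound at `k - 1` -/
lemma shift_one2 {c B : ℝ} (hc : 0 < c) (hB : 0 ≤ B) {g G : ℕ → ℂ}
    (h : ∀ᶠ j : ℕ in atTop, ‖g j - G j‖ ≤ B * (j : ℝ) ^ (-c)) :
    ∀ᶠ k : ℕ in atTop, ‖g (k - 1) - G (k - 1)‖ ≤ (B * 2 ^ c) * (k : ℝ) ^ (-c) := by
  have h' : ∀ᶠ j : ℕ in atTop, ‖(fun j => g j - G j) j - 0‖ ≤ B * (j : ℝ) ^ (-c) := by
    filter_upwards [h] with j hj
    rwa [sub_zero]
  filter_upwards [shift_one hc hB h'] with k hk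
  rwa [sub_zero] at hk

/-- **(TR) along a ray with the output of the function side** -/
theorem tr_fun2 {f : ℕ → ℂ → ℂ} {g : ℕ → ℂ} {x0 c c1 c0 d A b : ℝ}
    {Y : ℕ → ℂ} {u : ℕ → ℂ} {R : ℕ → ℝ × ℝ → ℂ} {k1 E : ℝ × ℝ → ℂ} {W : ℕ → Set (ℝ × ℝ)}
    (hF : FunO2 c f g) (hc : 0 < c) (hx : |x0| ≤ PBV.aL)
    (hb : 0 < b) (hu : ∀ᶠ k : ℕ in atTop, ‖u k‖ = b)
    (hd : 0 < d) (hd' : d ≤ 1 / 20) (hc0 : 0 < c0) (hc1 : 0 < c1)
    (hWm : ∀ k, MeasurableSet (W k))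
    (hWS : ∀ᶠ k : ℕ in atTop, nearS (3 / 8 + d) k ⊆ W k)
    (hRm : ∀ᶠ k : ℕ in atTop,
      AEStronglyMeasurable (fun τ => k1 τ * R k τ) (volume.restrict (W k)))
    (hKm : AEStronglyMeasurable (fun τ => k1 τ * E τ) volume)
    (H1 : ∀ᶠ k : ℕ in atTop, ‖Y k - u k * ∫ τ in W k, k1 τ * R k τ‖ ≤ (k : ℝ) ^ (-c0))
    (H2 : ∀ᶠ k : ℕ in atTop, ∀ τ ∈ W k,
      ‖k1 τ * R k τ‖ ≤ (k : ℝ) ^ (d / 8) * Real.exp (-(mT τ)))
    (H3 : ∀ᶠ k : ℕ in atTop, ∀ τ ∈ nearS (3 / 8 + d) k,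
      ‖k1 τ‖ * ‖R k τ - E τ * f (k - 1) (zT x0 τ)‖ ≤ (k : ℝ) ^ (-c1))
    (H4 : ∀ τ, ‖k1 τ * E τ‖ ≤ A * Real.exp (-(3 * sT τ))) :
    ∃ (G : ℕ → ℂ) (c' C : ℝ) (κ : ℂ) (u' : ℕ → ℂ), 0 < c' ∧ (∀ᶠ k : ℕ in atTop, ‖u' k‖ = 1) ∧
      (∀ᶠ j : ℕ in atTop, ‖g j - G (j % 2)‖ ≤ C * (j : ℝ) ^ (-c)) ∧
        ∀ᶠ k : ℕ in atTop, ‖Y k - u' k * (κ * G ((k - 1) % 2))‖ ≤ C * (k : ℝ) ^ (-c') := by
  obtain ⟨G, C2, hC2, hrate⟩ := hF.lim hc
  obtain ⟨c0', h1, H1'⟩ := div_phase2 hb hu hc0 H1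
  obtain ⟨m, hm, B1, hB1, Hh⟩ := harm_fun2 hF hc hx hd'
  have hr1 := shift_one2 (G := fun j => G (j % 2)) hc hC2 hrate
  -- the zero coefficient is bounded
  have Hg : ∀ᶠ k : ℕ in atTop, ‖g (k - 1)‖ ≤ (‖G 0‖ + ‖G 1‖ + C2) * (k : ℝ) ^ (d / 8) := by
    have ht : Tendsto (fun k : ℕ => k - 1) atTop atTop := tendsto_sub_atTop_nat 1
    filter_upwards [ht.eventually hrate, ev_one, eventually_ge_atTop 2] with k q1 hk hk2
    have q3 : 1 ≤ (k : ℝ) ^ (d / 8) := Real.one_le_rpow hk (by linarith)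
    have hk1 : (1 : ℝ) ≤ ((k - 1 : ℕ) : ℝ) := by
      have : 1 ≤ k - 1 := by omega
      exact_mod_cast this
    have q4 : ((k - 1 : ℕ) : ℝ) ^ (-c) ≤ 1 := Real.rpow_le_one_of_one_le_of_nonpos hk1 (by (clear * - hc; linarith))
    have q5 : ‖G ((k - 1) % 2)‖ ≤ ‖G 0‖ + ‖G 1‖ := by
      rcases Nat.mod_two_eq_zero_or_one (k - 1) with hp | hp
      · rw [hp]; (clear * -; linarith [norm_nonneg (G 1)])
      · rw [hp]; (clear * -; linarith [norm_nonneg (G 0)])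
    have q6 : ‖g (k - 1)‖ ≤ ‖G 0‖ + ‖G 1‖ + C2 := by
      have e : g (k - 1) = (g (k - 1) - G ((k - 1) % 2)) + G ((k - 1) % 2) := by ring
      rw [e]
      refine (norm_add_le _ _).trans ?_
      have : C2 * ((k - 1 : ℕ) : ℝ) ^ (-c) ≤ C2 * 1 := mul_le_mul_of_nonneg_left q4 hC2
      clear * - q1 q5 this
      linarith
    have : 0 ≤ ‖G 0‖ + ‖G 1‖ + C2 := by positivity
    clear * - q6 hd hd' q3 this
    nlinarith
  obtain ⟨c', hc', B, hB⟩ := tr_core2 (g0 := fun k => g (k - 1)) (f := fun k => f (k - 1))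
    hd hd' h1 hc1 hm hB1 (by (clear * - hC2; positivity)) hWm hWS hRm hKm H1' H2 H3 H4 Hh Hg
  obtain ⟨c3, C3, κ, u', h2, h3, h4⟩ := phase_core2 (G := fun k => G ((k - 1) % 2)) hb hu hc hc' hB hr1
  refine ⟨G, c3, max C2 C3, κ, u', h2, h3, ?_, ?_⟩
  · filter_upwards [hrate] with j hj
    exact hj.trans (mul_le_mul_of_nonneg_right (le_max_left _ _) (Real.rpow_nonneg (Nat.cast_nonneg _) _))
  · filter_upwards [h4] with k hk
    exact hk.trans (mul_le_mul_of_nonneg_right (le_max_right _ _) (Real.rpow_nonneg (Nat.cast_nonneg _) _))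

end PBTR.PLX

end
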