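import Pool.Agent.PLX.Rg2

/-!
# PLAX, exact layer: the eleven integrals as the final classes, groups of sizes `(m, M)` (the layer of PB.Reg3)

`RU.Ok.E11_val` : the eleven integrals as the start classes; `RU.Ok.E11_fin` : as the sixteen final classes and the two
classes with one line; numbers `n`, `n'` with `n + M = n' + m`.
-/

set_option autoImplicit false
set_option linter.unusedSectionVars false
set_option linter.unusedVariables false

noncomputable section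

open Complex MeasureTheory

namespace Pool.Agent.PLX

open NUP1 NUP1S NUP1.Bd NURow PBX
open NUP1.N (Z3 Gr0 GXs GYs ZP ZP' ZPP prc pr1 rA rB I0 IP IP' IPP ID ID' E11 Ln Ln_start)
open NUP1.Leg (hE hr thE cc Ck Dk)

variable {m M : ℕ} {D : RU m M}

/-- the start classes -/
abbrev RU.cS (D : RU m M) (t t' : HT) : CD := NURow.cS D.KF D.KP D.KF' D.KP' t t'

/-- the final classes -/
abbrev RU.cF (D : RU m M) (t t' : HT) : CD := NURow.cF D.X D.Y D.KF D.KP D.KF' D.KP' t t'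

section pts

variable (H : D.Ok) {n n' : ℕ} (hn : n + M = n' + m)
  {lnX : ∀ p p' : ℕ, (Fin p → O3) → (Fin p' → O3) → Fin p → ℝ}
  {lnY : ∀ p p' : ℕ, (Fin p → O3) → (Fin p' → O3) → Fin p' → ℝ} (L : LnH lnX lnY)
  {w w' : ℂ} {t t' : HT}
include H hn L

theorem RU.Ok.pt_I0 (ht : t = .W ∨ t = .F) (ht' : t' = .W ∨ t' = .F) (hw : w.re = t.l0)
    (hw' : w'.re = t'.l0) :
    I0 (3 / 5 * l) (-(17 / 10) * l) D.p D.q D.x D.y D.hX D.hY n n' w w' =
      (D.cS t t').pre w w' * (D.cS t t').Z D.X D.Y (3 / 5 * l) n n' lnX lnY w w' := by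
  have p1 : Pos w := by
    rcases ht with rfl | rfl
    · exact Or.inl hw
    · exact Or.inr hw
  have p2 : Pos w' := by
    rcases ht' with rfl | rfl
    · exact Or.inl hw'
    · exact Or.inr hw'
  rw [D.I0_pre, stX_WW H L hn p1 p2, rxWW, ryWW]
  have e : (D.cS t t').pre w w' * (D.cS t t').Z D.X D.Y (3 / 5 * l) n n' lnX lnY w w' =
      Pre gFF D.KF D.KF' w w' * (if 0 ≤ n ∧ 0 ≤ n' then
        ZobjQ (XS true D.X SF (fl SF) w w') (XS false D.Y SF (fl SF) w w')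
          (3 / 5 * l) n n' lnX lnY else 0) := by
    rcases ht with rfl | rfl <;> rcases ht' with rfl | rfl <;> rfl
  rw [e, if_pos ⟨Nat.zero_le _, Nat.zero_le _⟩]
  rfl

theorem RU.Ok.pt_IP (ht' : t' = .W ∨ t' = .F) (hw : w.re = -(11 / 4) * l)
    (hw' : w'.re = t'.l0) :
    IP (3 / 5 * l) (-(17 / 10) * l) D.p D.q D.x D.y D.hX D.hY n n' w w' =
      (D.cS .P t').pre w w' * (D.cS .P t').Z D.X D.Y (3 / 5 * l) n n' lnX lnY w w' := by
  have p2 : Pos w' := by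
    rcases ht' with rfl | rfl
    · exact Or.inl hw'
    · exact Or.inr hw'
  rw [H.IP_pre hw, stX_P H L hn hw p2, rxP, ryP]
  have e : (D.cS .P t').pre w w' * (D.cS .P t').Z D.X D.Y (3 / 5 * l) n n' lnX lnY w w' =
      Pre gPF D.KP D.KF' w w' * (if 0 ≤ n ∧ 1 ≤ n' then
        ZobjQ (XS true D.X SP (fl SF) w w') (XS false D.Y SP (fl SF) w w')
          (3 / 5 * l) n (n' - 1) lnX lnY else 0) := by
    rcases ht' with rfl | rfl <;> rfl
  rw [e]
  simp only [Nat.zero_le, true_and]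
  rfl

theorem RU.Ok.pt_IP' (ht : t = .W ∨ t = .F) (hw : w.re = t.l0) (hw' : w'.re = -(11 / 4) * l) :
    IP' (3 / 5 * l) (-(17 / 10) * l) D.p D.q D.x D.y D.hX D.hY n n' w w' =
      (D.cS t .P).pre w w' * (D.cS t .P).Z D.X D.Y (3 / 5 * l) n n' lnX lnY w w' := by
  have p1 : Pos w := by
    rcases ht with rfl | rfl
    · exact Or.inl hw
    · exact Or.inr hw
  rw [H.IP'_pre w hw', stX_P' H L hn p1 hw', rxP', ryP']
  have e : (D.cS t .P).pre w w' * (D.cS t .P).Z D.X D.Y (3 / 5 * l) n n' lnX lnY w w' =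
      Pre gFP D.KF D.KP' w w' * (if 1 ≤ n ∧ 0 ≤ n' then
        ZobjQ (XS true D.X SF (fl SP) w w') (XS false D.Y SF (fl SP) w w')
          (3 / 5 * l) (n - 1) n' lnX lnY else 0) := by
    rcases ht with rfl | rfl <;> rfl
  rw [e]
  simp only [Nat.zero_le, and_true]
  rfl

theorem RU.Ok.pt_IPP (hw : w.re = -(11 / 4) * l) (hw' : w'.re = -(11 / 4) * l) :
    IPP (3 / 5 * l) (-(17 / 10) * l) D.p D.q D.x D.y D.hX D.hY n n' w w' =
      (D.cS .P .P).pre w w' * (D.cS .P .P).Z D.X D.Y (3 / 5 * l) n n' lnX lnY w w' := by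
  rw [H.IPP_pre hw hw', stX_PP H L hn hw hw', rxPP, ryPP]
  have e : (D.cS .P .P).pre w w' * (D.cS .P .P).Z D.X D.Y (3 / 5 * l) n n' lnX lnY w w' =
      Pre gPP D.KP D.KP' w w' * (if 1 ≤ n ∧ 1 ≤ n' then
        ZobjQ (XS true D.X SP (fl SP) w w') (XS false D.Y SP (fl SP) w w')
          (3 / 5 * l) (n - 1) (n' - 1) lnX lnY else 0) := rfl
  rw [e]
  rfl

theorem RU.Ok.pt_ID (hw : w.re = -(11 / 4) * l) :
    ID (3 / 5 * l) (-(17 / 10) * l) D.p D.q D.x D.y D.hX D.hY n n' w =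
      D.XD w * (cD D.XD).Z D.X D.Y (3 / 5 * l) n n' lnX lnY w := by
  rw [D.ID_pre, stX_D H L hn hw, rxD D w, ryD]
  rfl

theorem RU.Ok.pt_ID' (hw : w.re = -(11 / 4) * l) :
    ID' (3 / 5 * l) (-(17 / 10) * l) D.p D.q D.x D.y D.hX D.hY n n' w =
      D.XD' w * (cD' D.XD').Z D.X D.Y (3 / 5 * l) n n' lnX lnY w := by
  rw [D.ID'_pre, stX_D' H L hn hw, rxD', ryD' D w]
  rfl

end pts

section final

variable {n n' : ℕ}
  {lnX : ∀ p p' : ℕ, (Fin p → O3) → (Fin p' → O3) → Fin p → ℝ}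
  {lnY : ∀ p p' : ℕ, (Fin p → O3) → (Fin p' → O3) → Fin p' → ℝ}

theorem RU.LL_cls {t t' : HT} {f : ℂ → ℂ → ℂ} (h : NUP1.G2 t.l0 t'.l0 f)
    (e : ∀ w w' : ℂ, w.re = t.l0 → w'.re = t'.l0 → f w w' = (D.cS t t').pre w w' *
      (D.cS t t').Z D.X D.Y (3 / 5 * l) n n' lnX lnY w w') :
    NUP1.LL t.l0 t'.l0 f = ((2 * Real.pi : ℂ)⁻¹) ^ 2 *
      (D.cS t t').val D.X D.Y (3 / 5 * l) n n' lnX lnY :=
  LL_joint_congr h fun _ => e _ _ (NUP1.vlre _ _) (NUP1.vlre _ _)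

/-- **The eleven integrals are the start classes.** -/
theorem RU.Ok.E11_val (H : D.Ok) (hβ : 1 < D.β) (hn : n + M = n' + m) (L : LnH lnX lnY) :
    E11 (3 / 5 * l) (-(17 / 10) * l) D.p D.q D.x D.y D.hX D.hY n n'
      (31 / 50 * l) (-(11 / 4) * l) =
    ((2 * Real.pi : ℂ)⁻¹) ^ 2 * ∑ t ∈ ({HT.W, HT.F, HT.P} : Finset HT),
      ∑ t' ∈ ({HT.W, HT.F, HT.P} : Finset HT), t.sg * t'.sg *
        (D.cS t t').val D.X D.Y (3 / 5 * l) n n' lnX lnY -
    sin l / sin (2 * l) * ((2 * Real.pi : ℂ)⁻¹ *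
      ((cD D.XD).val D.X D.Y (3 / 5 * l) n n' lnX lnY +
        (cD' D.XD').val D.X D.Y (3 / 5 * l) n n' lnX lnY)) := by
  obtain ⟨C, R, U⟩ := H.UD_rows
  have Ls : Ln (3 / 5 * l) (-(17 / 10) * l) (31 / 50 * l) (-(11 / 4) * l) :=
    Ln_start (Or.inl rfl)
  have hK : 2 < 2 * D.β := by linarith
  have hA : NUP1.N.LnAB (31 / 50 * l) (-(11 / 4) * l) (31 / 50 * l) := Or.inl rfl
  have hB : NUP1.N.LnAB (31 / 50 * l) (-(11 / 4) * l) (-(11 / 4) * l) := Or.inr rfl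
  have eWW := RU.LL_cls (D := D) (t := .W) (t' := .W) (Rg.G2_I0 Ls U hn hK hA hA)
    fun w w' h h' => H.pt_I0 hn L (Or.inl rfl) (Or.inl rfl) h h'
  have eWF := RU.LL_cls (D := D) (t := .W) (t' := .F) (Rg.G2_I0 Ls U hn hK hA hB)
    fun w w' h h' => H.pt_I0 hn L (Or.inl rfl) (Or.inr rfl) h h'
  have eFW := RU.LL_cls (D := D) (t := .F) (t' := .W) (Rg.G2_I0 Ls U hn hK hB hA)
    fun w w' h h' => H.pt_I0 hn L (Or.inr rfl) (Or.inl rfl) h h'
  have eFF := RU.LL_cls (D := D) (t := .F) (t' := .F) (Rg.G2_I0 Ls U hn hK hB hB)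
    fun w w' h h' => H.pt_I0 hn L (Or.inr rfl) (Or.inr rfl) h h'
  have eWP := RU.LL_cls (D := D) (t := .W) (t' := .P) (Rg.G2_IP' Ls U hn hK hA)
    fun w w' h h' => H.pt_IP' hn L (Or.inl rfl) h h'
  have eFP := RU.LL_cls (D := D) (t := .F) (t' := .P) (Rg.G2_IP' Ls U hn hK hB)
    fun w w' h h' => H.pt_IP' hn L (Or.inr rfl) h h'
  have ePW := RU.LL_cls (D := D) (t := .P) (t' := .W) (Rg.G2_IP Ls U hn hK hA)
    fun w w' h h' => H.pt_IP hn L (Or.inl rfl) h h'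
  have ePF := RU.LL_cls (D := D) (t := .P) (t' := .F) (Rg.G2_IP Ls U hn hK hB)
    fun w w' h h' => H.pt_IP hn L (Or.inr rfl) h h'
  have ePP := RU.LL_cls (D := D) (t := .P) (t' := .P) (Rg.G2_IPP Ls U hn hK)
    fun w w' h h' => H.pt_IPP hn L h h'
  have eD : NUP1.LI (-(11 / 4) * l) (ID (3 / 5 * l) (-(17 / 10) * l) D.p D.q D.x D.y
      D.hX D.hY n n') = (2 * Real.pi : ℂ)⁻¹ *
      (cD D.XD).val D.X D.Y (3 / 5 * l) n n' lnX lnY := by
    unfold NUP1.LI CD1.val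
    congr 1
    exact integral_congr_ae (Filter.Eventually.of_forall fun t =>
      H.pt_ID hn L (NUP1.vlre _ _))
  have eD' : NUP1.LI (-(11 / 4) * l) (ID' (3 / 5 * l) (-(17 / 10) * l) D.p D.q D.x D.y
      D.hX D.hY n n') = (2 * Real.pi : ℂ)⁻¹ *
      (cD' D.XD').val D.X D.Y (3 / 5 * l) n n' lnX lnY := by
    unfold NUP1.LI CD1.val
    congr 1
    exact integral_congr_ae (Filter.Eventually.of_forall fun t =>
      H.pt_ID' hn L (NUP1.vlre _ _))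
  simp only [HT.l0] at eWW eWF eFW eFF eWP eFP ePW ePF ePP
  unfold NUP1.N.E11
  rw [eWW, eWF, eFW, eFF, eWP, eFP, ePW, ePF, ePP, eD, eD']
  simp only [sum_st, HT.sg]
  ring

/-- **The start classes as the final classes.** -/
theorem RU.Ok.cS_cF (H : D.Ok) (hβ : 1 < D.β) (hn : n + M = n' + m) {P : NUO.Par} (hP : ParP P) :
    ∑ t ∈ T3, ∑ t' ∈ T3, t.sg * t'.sg *
        (D.cS t t').val D.X D.Y (3 / 5 * l) n n' (lX P) (lY P) =
      ∑ t, ∑ t', t.sg * t'.sg * (D.cF t t').val D.X D.Y (3 / 5 * l) n n' (lX P) (lY P) := by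
  have hs : ({-(11 / 4) * l} : Set ℝ) ⊆ Set.Icc (-(11 / 4) * l) (-(11 / 4) * l) := by
    intro x hx
    rw [Set.mem_singleton_iff.1 hx]
    exact ⟨le_rfl, le_rfl⟩
  have hQ : (n : ℝ) - n' = (m : ℝ) - M := by
    have := num0 hn
    linarith
  exact cS_cFQ (κ := 1) (lo := loP) (hi := hiP) one_pos okS_P le_rfl le_rfl
    (H.fmD (by linarith)) hQ
    (mvQ_SF D.measurable_KF H.PB_KF_A (by linarith))
    (mvQ_SF D.measurable_KF' H.PB_KF'_A (by linarith))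
    (fxH_SF D.measurable_KF ((H.PB_KF_B.decOn (by linarith)).mono hs))
    (fxH_SP H.measurable_KP ((H.PB_KP_B.decOn (by linarith)).mono hs))
    (fxH_SF D.measurable_KF' ((H.PB_KF'_B.decOn (by linarith)).mono hs))
    (fxH_SP H.measurable_KP' ((H.PB_KP'_B.decOn (by linarith)).mono hs))
    (lnA_P hP) (lnA_P' hP)

/-- **The eleven integrals are the final classes.** -/
theorem RU.Ok.E11_fin (H : D.Ok) (hβ : 1 < D.β) (hn : n + M = n' + m) {P : NUO.Par} (hP : ParP P)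
    (L : LnH (lX P) (lY P)) :
    E11 (3 / 5 * l) (-(17 / 10) * l) D.p D.q D.x D.y D.hX D.hY n n'
      (31 / 50 * l) (-(11 / 4) * l) =
    ((2 * Real.pi : ℂ)⁻¹) ^ 2 * ∑ t : HT, ∑ t' : HT, t.sg * t'.sg *
        (D.cF t t').val D.X D.Y (3 / 5 * l) n n' (lX P) (lY P) -
    sin l / sin (2 * l) * ((2 * Real.pi : ℂ)⁻¹ *
      ((cD D.XD).val D.X D.Y (3 / 5 * l) n n' (lX P) (lY P) +
        (cD' D.XD').val D.X D.Y (3 / 5 * l) n n' (lX P) (lY P))) := by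
  rw [H.E11_val hβ hn L, ← H.cS_cF hβ hn hP]
  rfl

end final

end Pool.Agent.PLX

end
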