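import Pool.Agent.PB.NHat

/-!
# Crossing in one group (project PLAX, block C, generic rows)

`nh z x y` (`PB/NHat`): the normalised state sum with two legs at `z`, any numbers `m`, `M` of rows.

* `nh_cross`: rows `t + 3 λ`, `t` of the same group cancel;  `nh_cross'`: rows `t - 3 λ`, `t`;
* `nh_crossY`, `nh_crossY'`: the same in the second group;
* `nh_period`: one row moved, `x i + 3 λ` against `x i - 3 λ`.
-/

set_option autoImplicit false
set_option linter.unusedSectionVars false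
set_option linter.unusedSimpArgs false

noncomputable section

open Complex

namespace Pool.Agent.PLX.Cr

open NUP1 (l)
open PBS
open NUP1.Grand (P)
open NUP1.Mu (P_cons P_congr P_mul sin_eight)
open PBR (rh rh_neg rh_mul rh_ne_zero)

/-! ## the weights of a pair `t + 3 λ`, `t` -/

theorem fw_three_zero (a b : SignType) (h : a ≠ .neg ∨ b ≠ .pos) : fw a b (3 * l) = 0 := by
  have e0 : sin (3 * (l : ℂ) - 3 * l) = 0 := by rw [sub_self, sin_zero]
  cases a <;> cases b <;> simp_all [fw]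

theorem fw_three : fw .neg .pos (3 * l) = 1 := by
  have hl := l_pos
  have e : ∀ k : ℝ, ((k : ℂ) * l).re = k * l := fun k => by
    rw [Complex.re_ofReal_mul, Complex.ofReal_re]
  have e2 := e 2
  have e3 := e 3
  push_cast at e2 e3
  have s2 : sin (2 * (l : ℂ)) ≠ 0 := sin_ne_of_bd (by rw [e2]; linarith) (by rw [e2]; linarith)
  have s3 : sin (3 * (l : ℂ)) ≠ 0 := sin_ne_of_bd (by rw [e3]; linarith) (by rw [e3]; linarith)
  simp only [fw]
  have a5 : sin (3 * (l : ℂ) + 2 * l) = sin (3 * l) := by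
    rw [← sin_refl (3 * l)]; congr 1; ring
  have a6 : sin (3 * (l : ℂ) + 3 * l) = sin (2 * l) := by
    rw [← sin_refl (2 * l)]; congr 1; ring
  have a2 : sin (3 * (l : ℂ) - l) = sin (2 * l) := by congr 1; ring
  rw [a5, a6, a2]
  generalize sin (2 * (l : ℂ)) = u at s2 ⊢
  generalize sin (3 * (l : ℂ)) = v at s3 ⊢
  field_simp

theorem fw_pair (e : SignType) {w : ℂ} (h0 : sin w ≠ 0) (h1 : sin (w + l) ≠ 0)
    (h2 : sin (w + 2 * l) ≠ 0) (h3 : sin (w + 3 * l) ≠ 0) :
    fw .neg e (w + 3 * l) * fw .pos e w = Kw w ^ 2 := by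
  have a5 : sin (w + 3 * l + 2 * l) = sin (3 * l - w) := by
    rw [← sin_refl (3 * l - w)]; congr 1; ring
  have a6 : sin (w + 3 * l + 3 * l) = sin (2 * l - w) := by
    rw [← sin_refl (2 * l - w)]; congr 1; ring
  have a6' : sin (3 * l + (w + 3 * l)) = sin (2 * l - w) := by rw [← a6]; congr 1; ring
  have a5' : sin (2 * l + (w + 3 * l)) = sin (3 * l - w) := by rw [← a5]; congr 1; ring
  have a0 : sin (3 * l - (w + 3 * l)) = -sin w := by rw [← sin_neg]; congr 1; ring
  have a1 : sin (2 * l - (w + 3 * l)) = -sin (w + l) := by rw [← sin_neg]; congr 1; ring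
  have a2 : sin (w + 3 * l - l) = sin (w + 2 * l) := by congr 1; ring
  have c2 : sin (w - 2 * l) = -sin (2 * l - w) := by rw [← sin_neg]; congr 1; ring
  have c3 : sin (w - 3 * l) = -sin (3 * l - w) := by rw [← sin_neg]; congr 1; ring
  have d2 : sin (2 * l + w) = sin (w + 2 * l) := by congr 1; ring
  have d3 : sin (3 * l + w) = sin (w + 3 * l) := by congr 1; ring
  unfold Kw
  cases e <;> simp only [fw, a5, a6, a6', a5', a0, a1, a2, c2, c3, d2, d3]
  · generalize sin (3 * l - w) = s3m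
    generalize sin (2 * l - w) = s2m
    field_simp
  · generalize sin (3 * l - w) = s3m
    generalize sin (2 * l - w) = s2m
    field_simp
  · generalize sin (3 * l - w) = s3m
    generalize sin (2 * l - w) = s2m
    generalize sin (w + 2 * l) = s2p at h2 ⊢
    generalize sin (w + 3 * l) = s3p at h3 ⊢
    field_simp

theorem gw_pair (e : SignType) (w : ℂ) : gw .neg e (w + 3 * l) * gw .pos e w = Kw w ^ 2 := by
  have a6' : sin (3 * l + (w + 3 * l)) = sin (2 * l - w) := by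
    rw [← sin_refl (2 * l - w)]; congr 1; ring
  have a5' : sin (2 * l + (w + 3 * l)) = sin (3 * l - w) := by
    rw [← sin_refl (3 * l - w)]; congr 1; ring
  unfold Kw
  cases e <;> simp only [gw, a6', a5'] <;> ring

/-- the leg factor of a pair -/
def Jw (w : ℂ) : ℂ := sin (w + 2 * l) * sin (w + 3 * l)

theorem Lw_pair (w : ℂ) : Lw .neg (w - 3 * l) * Lw .pos w = Jw w ^ 2 := by
  have a6 : sin (w - 3 * l - 3 * l) = -sin (w + 2 * l) := by
    have h := sin_eight (w - 3 * l - 3 * l)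
    rw [show w - 3 * (l : ℂ) - 3 * l + 8 * l = w + 2 * l by ring] at h
    rw [h, neg_neg]
  have a5 : sin (w - 3 * l - 2 * l) = -sin (w + 3 * l) := by
    have h := sin_eight (w - 3 * l - 2 * l)
    rw [show w - 3 * (l : ℂ) - 2 * l + 8 * l = w + 3 * l by ring] at h
    rw [h, neg_neg]
  unfold Jw
  simp only [Lw, a6, a5]
  ring

/-! ## the state sum -/

/-- two new rows of the first group -/
abbrev c2 {n : ℕ} {α : Type*} (u v : α) (x : Fin n → α) : Fin (n + 2) → α :=
  (Fin.cons u (Fin.cons v x : Fin (n + 1) → α) : Fin (n + 2) → α)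

theorem tm_pair_zero (z : ℂ) {m M : ℕ} (t : ℂ) (x : Fin m → ℂ) (y : Fin M → ℂ) (c d : SignType)
    (a : Fin m → SignType) (b : Fin M → SignType) (h : c ≠ .neg ∨ d ≠ .pos) :
    tm z (c2 (t + 3 * l) t x) y (c2 c d a) b = 0 := by
  unfold tm c2
  rw [P_cons (n := m + 1), Fin.prod_univ_succ (f := fun i : Fin (m + 1) => _)]
  simp only [Fin.cons_zero, Fin.cons_succ]
  rw [show t + 3 * (l : ℂ) - t = 3 * l by ring, fw_three_zero c d h]
  ring

theorem tm_pair (z : ℂ) {m M : ℕ} {t : ℂ} {x : Fin m → ℂ} {y : Fin M → ℂ}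
    (hx : ∀ i, sin (t - x i) ≠ 0 ∧ sin (t - x i + l) ≠ 0 ∧ sin (t - x i + 2 * l) ≠ 0 ∧
      sin (t - x i + 3 * l) ≠ 0)
    (a : Fin m → SignType) (b : Fin M → SignType) :
    tm z (c2 (t + 3 * l) t x) y (c2 .neg .pos a) b =
      (sin l * Jw (z - t)) ^ 2 * ((∏ i, Kw (t - x i) ^ 2) * ∏ j, Kw (t - y j) ^ 2) *
        tm z x y a b := by
  unfold tm c2
  rw [P_cons (n := m + 1), P_cons (n := m), Fin.prod_univ_succ (n := m + 1),
    Fin.prod_univ_succ (n := m)]
  simp only [Fin.cons_zero, Fin.cons_succ]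
  simp_rw [Fin.prod_univ_succ (n := m + 1), Fin.prod_univ_succ (n := m)]
  simp only [Fin.cons_zero, Fin.cons_succ]
  rw [show t + 3 * (l : ℂ) - t = 3 * l by ring, fw_three,
    show z - (t + 3 * (l : ℂ)) = z - t - 3 * l by ring]
  have hX : (∏ i, fw .neg (a i) (t + 3 * l - x i)) * (∏ i, fw .pos (a i) (t - x i)) =
      ∏ i, Kw (t - x i) ^ 2 := by
    rw [← Finset.prod_mul_distrib]
    refine Finset.prod_congr rfl fun i _ => ?_
    obtain ⟨h0, h1, h2, h3⟩ := hx i
    rw [show t + 3 * (l : ℂ) - x i = t - x i + 3 * l by ring]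
    exact fw_pair (a i) h0 h1 h2 h3
  have hY : (∏ i, gw .neg (b i) (t + 3 * l - y i)) * (∏ i, gw .pos (b i) (t - y i)) =
      ∏ i, Kw (t - y i) ^ 2 := by
    rw [← Finset.prod_mul_distrib]
    refine Finset.prod_congr rfl fun i _ => ?_
    rw [show t + 3 * (l : ℂ) - y i = t - y i + 3 * l by ring]
    exact gw_pair (b i) (t - y i)
  have hL := Lw_pair (z - t)
  rw [← hX, ← hY, mul_pow, ← hL]
  simp only [ww]
  ring

theorem SS_cross (z : ℂ) {m M : ℕ} {t : ℂ} {x : Fin m → ℂ} {y : Fin M → ℂ}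
    (hx : ∀ i, sin (t - x i) ≠ 0 ∧ sin (t - x i + l) ≠ 0 ∧ sin (t - x i + 2 * l) ≠ 0 ∧
      sin (t - x i + 3 * l) ≠ 0) :
    SS z (c2 (t + 3 * l) t x) y =
      (sin l * Jw (z - t)) ^ 2 * ((∏ i, Kw (t - x i) ^ 2) * ∏ j, Kw (t - y j) ^ 2) *
        SS z x y := by
  unfold SS
  rw [sum_cons, Finset.sum_eq_single_of_mem (SignType.neg) (Finset.mem_univ _)]
  · rw [sum_cons, Finset.sum_eq_single_of_mem (SignType.pos) (Finset.mem_univ _)]
    · rw [← mul_assoc, mul_comm (_ * _ : ℂ) (sin (l : ℂ)), mul_assoc (sin (l : ℂ))]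
      congr 1
      rw [Finset.mul_sum]
      refine Finset.sum_congr rfl fun a _ => ?_
      rw [Finset.mul_sum]
      refine Finset.sum_congr rfl fun b _ => ?_
      have e : (∑ i, ((Fin.cons SignType.neg (Fin.cons SignType.pos a : Fin (m + 1) → SignType) :
          Fin (m + 2) → SignType) i : ℤ) = ∑ j, (b j : ℤ)) ↔
          ∑ i, (a i : ℤ) = ∑ j, (b j : ℤ) := by
        rw [Fin.sum_univ_succ, Fin.sum_univ_succ]
        simp only [Fin.cons_zero, Fin.cons_succ]
        have e1 : ((SignType.neg : SignType) : ℤ) = -1 := rfl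
        have e2 : ((SignType.pos : SignType) : ℤ) = 1 := rfl
        rw [e1, e2, neg_add_cancel_left]
      rw [if_congr e rfl rfl, mul_ite, mul_zero]
      refine if_congr Iff.rfl ?_ rfl
      exact tm_pair z hx a b
    · intro d _ hd
      refine Finset.sum_eq_zero fun a _ => Finset.sum_eq_zero fun b _ => ?_
      have h := tm_pair_zero z t x y .neg d a b (Or.inr hd)
      unfold c2 at h
      rw [h, ite_self]
  · intro c _ hc
    rw [sum_cons]
    refine Finset.sum_eq_zero fun d _ => Finset.sum_eq_zero fun a _ =>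
      Finset.sum_eq_zero fun b _ => ?_
    have h := tm_pair_zero z t x y c d a b (Or.inl hc)
    unfold c2 at h
    rw [h, ite_self]

/-! ## the normaliser -/

theorem PN_pair {z t : ℂ} {m M : ℕ} {x : Fin m → ℂ} {y : Fin M → ℂ}
    (hz : |(z - t).re| < 8 * l) (hz' : |(z - t).re - 3 * l| < 8 * l)
    (hx : ∀ i, |(t - x i).re| < 5 * l) (hy : ∀ i, |(t - y i).re| < 5 * l) :
    PN z (c2 (t + 3 * l) t x) y =
      (sin l * Jw (z - t)) ^ 2 * ((∏ i, Kw (t - x i) ^ 2) * ∏ j, Kw (t - y j) ^ 2) *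
        PN z x y := by
  have hl := l_pos
  have key : ∀ u : ℂ, |(t - u).re| < 5 * l → rh (t + 3 * l - u) * rh (t - u) = Kw (t - u) := by
    intro u h
    have e : t + 3 * (l : ℂ) - u = t - u + 3 * l := by ring
    have h' := abs_lt.1 h
    rw [e, mul_comm, rh_mul (by linarith) (by rw [abs_lt]; constructor <;> linarith)]
    unfold Kw
    ring
  have kz : rh (z - t - 3 * l) * rh (z - t) = Jw (z - t) := by
    have h := rh_mul (w := z - t - 3 * l) (by
      rw [show (z - t - 3 * (l : ℂ)).re = (z - t).re - 3 * l by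
        rw [Complex.sub_re (z - t)]; simp]
      exact hz') (by
      rw [show (z - t - 3 * (l : ℂ)).re + 3 * l = (z - t).re by
        rw [Complex.sub_re (z - t)]; simp]
      exact hz)
    rw [show z - t - 3 * (l : ℂ) + 3 * l = z - t by ring] at h
    rw [h]
    have a6 : sin (3 * l - (z - t - 3 * l)) = sin (z - t + 2 * l) := by
      rw [← sin_refl (z - t + 2 * l)]; congr 1; ring
    have a5 : sin (2 * l - (z - t - 3 * l)) = sin (z - t + 3 * l) := by
      rw [← sin_refl (z - t + 3 * l)]; congr 1; ring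
    unfold Jw
    rw [a6, a5]
  unfold PN c2
  rw [Fin.prod_univ_succ (n := m + 1), P_cons (n := m + 1), P_cons (n := m),
    Fin.prod_univ_succ (n := m)]
  simp only [Fin.cons_zero, Fin.cons_succ]
  simp_rw [Fin.prod_univ_succ (n := m + 1), Fin.prod_univ_succ (n := m)]
  simp only [Fin.cons_zero, Fin.cons_succ]
  rw [show t + 3 * (l : ℂ) - t = 3 * l by ring, show z - (t + 3 * (l : ℂ)) = z - t - 3 * l by ring]
  have hX : ∏ i, Kw (t - x i) ^ 2 = (∏ i, rh (t + 3 * l - x i) ^ 2) * ∏ i, rh (t - x i) ^ 2 := by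
    rw [← Finset.prod_mul_distrib]
    exact Finset.prod_congr rfl fun i _ => by rw [← key _ (hx i)]; ring
  have hY : ∏ i, Kw (t - y i) ^ 2 = (∏ i, rh (t + 3 * l - y i) ^ 2) * ∏ i, rh (t - y i) ^ 2 := by
    rw [← Finset.prod_mul_distrib]
    exact Finset.prod_congr rfl fun i _ => by rw [← key _ (hy i)]; ring
  rw [hX, hY, mul_pow, ← rh3, ← kz, show m + 2 + M + 1 = (m + M + 1) + 2 by ring,
    pow_add (2 / 3 : ℂ) (m + M + 1) 2]
  ring

/-! ## the normalised function -/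

theorem re_kl (k : ℝ) : ((k : ℂ) * l).re = k * l := by rw [Complex.re_ofReal_mul, Complex.ofReal_re]

theorem Kw_ne' {w : ℂ} (h : |w.re| < 2 * l) : Kw w ≠ 0 := by
  have hl := l_pos
  have h' := abs_lt.1 h
  have e : ∀ k : ℝ, ((k : ℂ) * l - w).re = k * l - w.re := fun k => by
    rw [Complex.sub_re, Complex.re_ofReal_mul, Complex.ofReal_re]
  have e2 := e 2
  have e3 := e 3
  push_cast at e2 e3
  unfold Kw
  exact mul_ne_zero (sin_ne_of_bd (by rw [e2]; linarith) (by rw [e2]; linarith))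
    (sin_ne_of_bd (by rw [e3]; linarith) (by rw [e3]; linarith))

theorem Jw_ne {w : ℂ} (h1 : -(2 * l) < w.re) (h2 : w.re < 5 * l) : Jw w ≠ 0 := by
  have hl := l_pos
  have e : ∀ k : ℝ, (w + (k : ℂ) * l).re = w.re + k * l := fun k => by
    rw [Complex.add_re, Complex.re_ofReal_mul, Complex.ofReal_re]
  have e2 := e 2
  have e3 := e 3
  push_cast at e2 e3
  unfold Jw
  exact mul_ne_zero (sin_ne_of_bd (by rw [e2]; linarith) (by rw [e2]; linarith))
    (sin_ne_of_bd (by rw [e3]; linarith) (by rw [e3]; linarith))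

theorem sinl_ne : sin (l : ℂ) ≠ 0 := by
  have hl := l_pos
  exact sin_ne_of_bd (by simpa using hl) (by rw [Complex.ofReal_re]; linarith)

/-- **Crossing in one group**: the rows `t + 3 λ`, `t` of the first group cancel. -/
theorem nh_cross {z t : ℂ} {m M : ℕ} {x : Fin m → ℂ} {y : Fin M → ℂ}
    (hz1 : -(2 * l) < (z - t).re) (hz2 : (z - t).re < 5 * l)
    (hx : ∀ i, |(t - x i).re| < 2 * l) (hy : ∀ i, |(t - y i).re| < 2 * l)
    (sx : ∀ i, sin (t - x i) ≠ 0 ∧ sin (t - x i + l) ≠ 0 ∧ sin (t - x i + 2 * l) ≠ 0 ∧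
      sin (t - x i + 3 * l) ≠ 0) :
    nh z (c2 (t + 3 * l) t x) y = nh z x y := by
  have hl := l_pos
  unfold nh
  rw [SS_cross z sx, PN_pair (by rw [abs_lt]; constructor <;> linarith)
    (by rw [abs_lt]; constructor <;> linarith) (fun i => by linarith [hx i])
    (fun i => by linarith [hy i])]
  refine mul_div_mul_left _ _ (mul_ne_zero (pow_ne_zero _ (mul_ne_zero sinl_ne (Jw_ne hz1 hz2)))
    (mul_ne_zero ?_ ?_))
  · exact Finset.prod_ne_zero_iff.2 fun i _ => pow_ne_zero _ (Kw_ne' (hx i))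
  · exact Finset.prod_ne_zero_iff.2 fun i _ => pow_ne_zero _ (Kw_ne' (hy i))

theorem neg_c2 {n : ℕ} (u v : ℂ) (x : Fin n → ℂ) : -(c2 u v x) = c2 (-u) (-v) (-x) := by
  funext i
  refine Fin.cases ?_ (fun j => ?_) i
  · simp [c2]
  · refine Fin.cases ?_ (fun k => ?_) j
    · simp [c2]
    · simp [c2]

/-- **Crossing in one group**: the rows `t - 3 λ`, `t` of the first group cancel. -/
theorem nh_cross' {z t : ℂ} {m M : ℕ} {x : Fin m → ℂ} {y : Fin M → ℂ}
    (hz1 : (z - t).re < 2 * l) (hz2 : -(5 * l) < (z - t).re)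
    (hx : ∀ i, |(t - x i).re| < 2 * l) (hy : ∀ i, |(t - y i).re| < 2 * l)
    (sx : ∀ i, sin (t - x i) ≠ 0 ∧ sin (t - x i - l) ≠ 0 ∧ sin (t - x i - 2 * l) ≠ 0 ∧
      sin (t - x i - 3 * l) ≠ 0) :
    nh z (c2 (t - 3 * l) t x) y = nh z x y := by
  have e1 : (-z - -t).re = -(z - t).re := by rw [← Complex.neg_re]; congr 1; ring
  have e2 : ∀ u : ℂ, (-t - -u).re = -(t - u).re := fun u => by rw [← Complex.neg_re]; congr 1; ring
  have e3 : ∀ (u : ℂ) (k : ℂ), sin (-t - -u + k) = -sin (t - u - k) := fun u k => by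
    rw [← sin_neg]; congr 1; ring
  have e4 : ∀ u : ℂ, sin (-t - -u) = -sin (t - u) := fun u => by rw [← sin_neg]; congr 1; ring
  have h := nh_cross (z := -z) (t := -t) (x := -x) (y := -y) (by rw [e1]; linarith)
    (by rw [e1]; linarith) (fun i => by rw [Pi.neg_apply, e2, abs_neg]; exact hx i)
    (fun i => by rw [Pi.neg_apply, e2, abs_neg]; exact hy i)
    (fun i => by
      obtain ⟨h0, h1, h2, h3⟩ := sx i
      rw [Pi.neg_apply, e4, e3, e3, e3]
      exact ⟨neg_ne_zero.2 h0, neg_ne_zero.2 h1, neg_ne_zero.2 h2, neg_ne_zero.2 h3⟩)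
  rw [← nh_neg, neg_c2, show -(t - 3 * (l : ℂ)) = -t + 3 * l by ring, h, nh_neg]

/-- **Crossing in the second group.** -/
theorem nh_crossY {z t : ℂ} {m M : ℕ} {x : Fin m → ℂ} {y : Fin M → ℂ}
    (hz1 : -(2 * l) < (z - t).re) (hz2 : (z - t).re < 5 * l)
    (hx : ∀ i, |(t - x i).re| < 2 * l) (hy : ∀ i, |(t - y i).re| < 2 * l)
    (sy : ∀ i, sin (t - y i) ≠ 0 ∧ sin (t - y i + l) ≠ 0 ∧ sin (t - y i + 2 * l) ≠ 0 ∧
      sin (t - y i + 3 * l) ≠ 0) :
    nh z x (c2 (t + 3 * l) t y) = nh z x y := by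
  rw [nh_swap, nh_cross hz1 hz2 hy hx sy, nh_swap]

theorem nh_crossY' {z t : ℂ} {m M : ℕ} {x : Fin m → ℂ} {y : Fin M → ℂ}
    (hz1 : (z - t).re < 2 * l) (hz2 : -(5 * l) < (z - t).re)
    (hx : ∀ i, |(t - x i).re| < 2 * l) (hy : ∀ i, |(t - y i).re| < 2 * l)
    (sy : ∀ i, sin (t - y i) ≠ 0 ∧ sin (t - y i - l) ≠ 0 ∧ sin (t - y i - 2 * l) ≠ 0 ∧
      sin (t - y i - 3 * l) ≠ 0) :
    nh z x (c2 (t - 3 * l) t y) = nh z x y := by
  rw [nh_swap, nh_cross' hz1 hz2 hy hx sy, nh_swap]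

/-- **One moved row of one group**: `x₀ + 3 λ` against `x₀ - 3 λ`, where `x₀` is a row of the same group. -/
theorem nh_period {z t : ℂ} {m M : ℕ} {x : Fin m → ℂ} {y : Fin M → ℂ}
    (hz : |(z - t).re| < 2 * l)
    (hx : ∀ i, |(t - x i).re| < 2 * l) (hy : ∀ i, |(t - y i).re| < 2 * l)
    (sx : ∀ i, (t - x i).im ≠ 0) :
    nh z (c2 (t + 3 * l) t x) y = nh z (c2 (t - 3 * l) t x) y := by
  have hl := l_pos
  have hz' := abs_lt.1 hz
  have s : ∀ (i : Fin m) (k : ℝ), sin (t - x i + (k : ℂ) * l) ≠ 0 := fun i k => by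
    apply sin_ne_of_im
    rw [Complex.add_im, Complex.im_ofReal_mul, Complex.ofReal_im, mul_zero, add_zero]
    exact sx i
  have s' : ∀ (i : Fin m) (k : ℝ), sin (t - x i - (k : ℂ) * l) ≠ 0 := fun i k => by
    apply sin_ne_of_im
    rw [Complex.sub_im (t - x i), Complex.im_ofReal_mul, Complex.ofReal_im, mul_zero, sub_zero]
    exact sx i
  have s0 : ∀ i, sin (t - x i) ≠ 0 := fun i => sin_ne_of_im (sx i)
  rw [nh_cross (by linarith) (by linarith) hx hy (fun i => ⟨s0 i, by simpa using s i 1,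
    by simpa using s i 2, by simpa using s i 3⟩),
    nh_cross' (by linarith) (by linarith) hx hy (fun i => ⟨s0 i, by simpa using s' i 1,
    by simpa using s' i 2, by simpa using s' i 3⟩)]

end Pool.Agent.PLX.Cr

end
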