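import Pool.Agent.PLX.NzF
import Pool.Agent.PLX.Cross
import Pool.Agent.PLX.KDef

/-!
# PLAX: (C) at coinciding rows, and the literal `nL` of (K)

* `nzU_swap`, `nzF_cross` : the rows `t + 3 l`, `t` of one group cancel, all rows;
* `nL z X Y := nzU z X.get Y.get`, `nF z x X Y := nzF z x X.get Y.get` (the far row `x` is in the first
  group): `nL_perm`, `nL_swap`, `nF_perm`, `nF_cross`;
* **`nF_red`, `nF_redY`** : `nF z (3 l) (EX ∪ 0^k) Y = nL z (red k (3 l :: EX)) Y`, the literal of `KRows`.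
-/

set_option autoImplicit false

noncomputable section

open Complex Filter Topology

namespace Pool.Agent.PLX

open NUP1 (l lpos)
open PBX (Rws pull pull_ne pull_re pull_Rws pull_tendsto)
open Pool.Agent.PB

variable {m M : ℕ}

/-! ### the two groups may be exchanged -/

/-- **the two groups may be exchanged**, all rows -/
theorem nzU_swap {z : ℂ} {x : Fin m → ℂ} {y : Fin M → ℂ} (hz : z ∈ LS) (hx : Rws x) (hy : Rws y) :
    nzU z y x = nzU z x y := by
  have t1 : Tendsto (fun e => nzU z (pull y e) (pull x e)) (𝓝[>] (0 : ℝ)) (𝓝 (nzU z y x)) :=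
    nzU_tendsto tendsto_const_nhds (pull_tendsto y) (pull_tendsto x)
      (Eventually.of_forall fun e => pull_Rws hy e) (Eventually.of_forall fun e => pull_Rws hx e)
      hy hx hz
  have t2 : Tendsto (fun e => nzU z (pull x e) (pull y e)) (𝓝[>] (0 : ℝ)) (𝓝 (nzU z x y)) :=
    nzU_tendsto tendsto_const_nhds (pull_tendsto x) (pull_tendsto y)
      (Eventually.of_forall fun e => pull_Rws hx e) (Eventually.of_forall fun e => pull_Rws hy e)
      hx hy hz
  refine tendsto_nhds_unique (t1.congr' ?_) t2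
  filter_upwards [pull_Hgt x, pull_Hgt y] with e h1 h2
  rw [nzU_nh hz (pull_Rws hy e) (pull_Rws hx e) h2 h1, nzU_nh hz (pull_Rws hx e) (pull_Rws hy e) h1 h2,
    PBS.nh_swap]

/-! ### crossing -/

theorem far_FS {t : ℂ} (ht : |t.re| < 3 / 10 * l) : t + 3 * l ∈ FS := by
  have hl := lpos
  obtain ⟨h1, h2⟩ := abs_lt.1 ht
  have e : (t + 3 * (l : ℂ)).re = t.re + 3 * l := by simp
  constructor
  · show 8 / 5 * l < _
    rw [e]
    linarith
  · show _ < 33 / 10 * l
    rw [e]
    linarith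

/-- pairwise different heights -/
theorem nzF_cross_gen {z t : ℂ} {mu : Fin m → ℂ} {nu : Fin M → ℂ} (hz : z ∈ LS) (ht : |t.re| < 3 / 10 * l)
    (hx : Rws mu) (hy : Rws nu) (ix : Hgt (Fin.cons t mu : Fin (m + 1) → ℂ)) (iy : Hgt nu) :
    nzF z (t + 3 * l) (Fin.cons t mu : Fin (m + 1) → ℂ) nu = nzU z mu nu := by
  have hl := lpos
  obtain ⟨h1, h2⟩ := abs_lt.1 ht
  have ix' : Hgt mu := fun i j hij => by
    simpa using ix i.succ j.succ fun h => hij (Fin.succ_injective _ h)
  have kx : ∀ i, (mu i).im ≠ t.im := fun i => by simpa using ix i.succ 0 (Fin.succ_ne_zero i)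
  have d : ∀ u : ℂ, |u.re| ≤ l / 2 → |(t - u).re| < 2 * l := fun u hu => by
    obtain ⟨h3, h4⟩ := abs_le.1 hu
    rw [abs_lt, sub_re]
    constructor <;> linarith
  have hne : ∀ (i : Fin m) (k : ℝ), sin (t - mu i + k * l) ≠ 0 := fun i k => by
    refine NUP1.sin_ne_im ?_
    have e : (t - mu i + (k : ℂ) * l).im = t.im - (mu i).im := by simp
    rw [e]
    exact sub_ne_zero.2 (kx i).symm
  have hm : Rws (Fin.cons t mu : Fin (m + 1) → ℂ) := Rws.cons (by linarith) hx
  rw [nzF_nh hz (far_FS ht) hm hy ix iy, nzU_nh hz hx hy ix' iy]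
  refine Cr.nh_cross ?_ ?_ (fun i => d _ (hx i)) (fun i => d _ (hy i)) fun i => ⟨?_, ?_, ?_, ?_⟩
  · rw [sub_re]
    linarith [hz.1]
  · rw [sub_re]
    linarith [hz.2]
  · have := hne i 0
    rwa [show t - mu i + ((0 : ℝ) : ℂ) * l = t - mu i by push_cast; ring] at this
  · have := hne i 1
    rwa [show t - mu i + ((1 : ℝ) : ℂ) * l = t - mu i + l by push_cast; ring] at this
  · have := hne i 2
    rwa [show t - mu i + ((2 : ℝ) : ℂ) * l = t - mu i + 2 * l by push_cast; ring] at this
  · have := hne i 3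
    rwa [show t - mu i + ((3 : ℝ) : ℂ) * l = t - mu i + 3 * l by push_cast; ring] at this

/-- **(C), all rows: the rows `t + 3 l`, `t` of the first group cancel** -/
theorem nzF_cross {z t : ℂ} {mu : Fin m → ℂ} {nu : Fin M → ℂ} (hz : z ∈ LS) (ht : |t.re| < 3 / 10 * l)
    (hx : Rws mu) (hy : Rws nu) :
    nzF z (t + 3 * l) (Fin.cons t mu : Fin (m + 1) → ℂ) nu = nzU z mu nu := by
  have hl := lpos
  obtain ⟨k1, k2⟩ := abs_lt.1 ht
  have rx : Rws (Fin.cons t mu : Fin (m + 1) → ℂ) := Rws.cons (by linarith) hx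
  set px : ℝ → Fin m → ℂ := fun e i => pull (Fin.cons t mu : Fin (m + 1) → ℂ) e i.succ with hpx
  have rpx : ∀ e, Rws (px e) := fun e i => pull_Rws rx e i.succ
  have t1 : Tendsto (fun e => nzF z (t + 3 * l) (pull (Fin.cons t mu : Fin (m + 1) → ℂ) e) (pull nu e))
      (𝓝[>] (0 : ℝ)) (𝓝 (nzF z (t + 3 * l) (Fin.cons t mu : Fin (m + 1) → ℂ) nu)) :=
    nzF_tendsto tendsto_const_nhds tendsto_const_nhds (pull_tendsto _) (pull_tendsto _)
      (Eventually.of_forall fun e => pull_Rws rx e) (Eventually.of_forall fun e => pull_Rws hy e)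
      rx hy hz (far_FS ht) (by
        have e : (z - (t + 3 * (l : ℂ))).re = z.re - t.re - 3 * l := by
          simp
          ring
        rw [e, abs_lt]
        constructor
        · linarith [hz.1]
        · linarith [hz.2])
  have t2 : Tendsto (fun e => nzU z (px e) (pull nu e)) (𝓝[>] (0 : ℝ)) (𝓝 (nzU z mu nu)) :=
    nzU_tendsto tendsto_const_nhds
      (fun i => by simpa using pull_tendsto (Fin.cons t mu : Fin (m + 1) → ℂ) i.succ)
      (pull_tendsto _) (Eventually.of_forall rpx) (Eventually.of_forall fun e => pull_Rws hy e)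
      hx hy hz
  refine tendsto_nhds_unique (t1.congr' ?_) t2
  filter_upwards [pull_Hgt (Fin.cons t mu : Fin (m + 1) → ℂ), pull_Hgt nu] with e h1 h2
  rw [pull_cons t mu e] at h1 ⊢
  exact nzF_cross_gen hz ht (rpx e) (pull_Rws hy e) h1 h2

/-! ### functions of lists -/

theorem perm_equiv {X X' : List ℂ} (h : X.Perm X') :
    ∃ e : Fin X'.length ≃ Fin X.length, ∀ i, X'.get i = X.get (e i) := by
  induction h with
  | nil => exact ⟨Equiv.refl _, fun i => rfl⟩
  | cons x _ ih =>
    obtain ⟨e, he⟩ := ih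
    refine ⟨(finSuccEquiv _).trans ((Equiv.optionCongr e).trans (finSuccEquiv _).symm), fun i => ?_⟩
    refine Fin.cases ?_ (fun j => ?_) i
    · simp
    · have := he j
      simpa using this
  | swap x y l =>
    refine ⟨Equiv.swap (0 : Fin (l.length + 2)) 1, fun i => ?_⟩
    refine Fin.cases ?_ (fun j => Fin.cases ?_ (fun k => ?_) j) i
    · rw [Equiv.swap_apply_left]
      rfl
    · have : (Fin.succ 0 : Fin (l.length + 2)) = 1 := rfl
      rw [this, Equiv.swap_apply_right]
      rfl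
    · rw [Equiv.swap_apply_of_ne_of_ne (Fin.succ_ne_zero _) (by
        intro h
        have := congrArg Fin.val h
        simp at this)]
      rfl
  | trans _ _ ih1 ih2 =>
    obtain ⟨e1, h1⟩ := ih1
    obtain ⟨e2, h2⟩ := ih2
    exact ⟨e2.trans e1, fun i => by rw [h2, h1]; rfl⟩

/-- **the function of the content**, legs at `z`, rows `X` of the first and `Y` of the second group -/
def nL (z : ℂ) (X Y : List ℂ) : ℂ := nzU z X.get Y.get

/-- one far row `x` in the first group -/
def nF (z x : ℂ) (X Y : List ℂ) : ℂ := nzF z x X.get Y.get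

theorem nzU_equiv (z : ℂ) {m' M' : ℕ} (x : Fin m → ℂ) (y : Fin M → ℂ) (e : Fin m' ≃ Fin m)
    (f : Fin M' ≃ Fin M) : nzU z (fun i => x (e i)) (fun i => y (f i)) = nzU z x y := by
  obtain rfl : m' = m := by simpa using Fintype.card_congr e
  obtain rfl : M' = M := by simpa using Fintype.card_congr f
  exact nzU_perm z x y e f

theorem nzF_equiv (z w : ℂ) {m' M' : ℕ} (x : Fin m → ℂ) (y : Fin M → ℂ) (e : Fin m' ≃ Fin m)
    (f : Fin M' ≃ Fin M) : nzF z w (fun i => x (e i)) (fun i => y (f i)) = nzF z w x y := by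
  obtain rfl : m' = m := by simpa using Fintype.card_congr e
  obtain rfl : M' = M := by simpa using Fintype.card_congr f
  exact nzF_perm z w x y e f

theorem nL_perm (z : ℂ) {X X' Y Y' : List ℂ} (hX : X.Perm X') (hY : Y.Perm Y') : nL z X Y = nL z X' Y' := by
  obtain ⟨e, he⟩ := perm_equiv hX
  obtain ⟨f, hf⟩ := perm_equiv hY
  unfold nL
  rw [show X'.get = fun i => X.get (e i) from funext he, show Y'.get = fun i => Y.get (f i) from funext hf,
    nzU_equiv]

theorem nF_perm (z w : ℂ) {X X' Y Y' : List ℂ} (hX : X.Perm X') (hY : Y.Perm Y') :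
    nF z w X Y = nF z w X' Y' := by
  obtain ⟨e, he⟩ := perm_equiv hX
  obtain ⟨f, hf⟩ := perm_equiv hY
  unfold nF
  rw [show X'.get = fun i => X.get (e i) from funext he, show Y'.get = fun i => Y.get (f i) from funext hf,
    nzF_equiv]

/-- rows near the axis -/
def Nr (X : List ℂ) : Prop := ∀ x ∈ X, |x.re| ≤ l / 2

theorem Nr.get {X : List ℂ} (h : Nr X) : Rws X.get := fun i => h _ (List.get_mem X i)

theorem Nr.append {X Y : List ℂ} (h : Nr X) (h' : Nr Y) : Nr (X ++ Y) := fun x hx => by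
  rcases List.mem_append.1 hx with hx | hx
  · exact h x hx
  · exact h' x hx

theorem Nr_zr (k : ℕ) : Nr (zr k) := fun x hx => by
  rw [List.eq_of_mem_replicate hx]
  simpa using (half_pos lpos).le

theorem Nr_ax {X : List ℂ} (h : ∀ x ∈ X, Ax x) : Nr X := fun x hx => by
  rw [(h x hx).1, abs_zero]
  exact (half_pos lpos).le

theorem nL_swap {z : ℂ} (hz : z ∈ LS) {X Y : List ℂ} (hX : Nr X) (hY : Nr Y) : nL z Y X = nL z X Y :=
  nzU_swap hz hX.get hY.get

theorem get_cons (x : ℂ) (X : List ℂ) : (x :: X).get = (Fin.cons x X.get : Fin (X.length + 1) → ℂ) := by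
  funext i
  refine Fin.cases ?_ (fun j => ?_) i <;> rfl

/-- **(C) for the contents** -/
theorem nF_cross {z t : ℂ} (hz : z ∈ LS) (ht : |t.re| < 3 / 10 * l) {X Y : List ℂ} (hX : Nr X)
    (hY : Nr Y) : nF z (t + 3 * l) (t :: X) Y = nL z X Y := by
  unfold nF nL
  rw [get_cons]
  exact nzF_cross hz ht hX.get hY.get

theorem aF_eq : aF = 0 + 3 * (l : ℂ) := by
  unfold aF NUP1.l
  push_cast
  ring

/-- **the value at the far point, row in the first group**, the literal of `KRows` -/
theorem nF_red {z : ℂ} (hz : z ∈ LS) {k : ℕ} (hk : 1 ≤ k) {E Y : List ℂ} (hE : ∀ x ∈ E, Ax x) (hY : Nr Y) :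
    nF z aF (E ++ zr k) Y = nL z (red k (aF :: E)) Y := by
  obtain ⟨j, rfl⟩ := Nat.exists_eq_add_of_le' hk
  have hp : (E ++ zr (j + 1)).Perm (0 :: (E ++ zr j)) := by
    unfold zr
    rw [List.replicate_succ]
    exact List.perm_middle
  rw [red_far, red_near _ hE, Nat.add_sub_cancel, nF_perm z aF hp (List.Perm.refl Y), aF_eq,
    nF_cross hz (by simpa using lpos) ((Nr_ax hE).append (Nr_zr j)) hY]

/-- **the value at the far point, row in the second group** -/
theorem nF_redY {z : ℂ} (hz : z ∈ LS) {k : ℕ} (hk : 1 ≤ k) {E X : List ℂ} (hE : ∀ x ∈ E, Ax x) (hX : Nr X) :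
    nF z aF (E ++ zr k) X = nL z X (red k (aF :: E)) := by
  rw [nF_red hz hk hE hX]
  refine nL_swap hz hX ?_
  rw [red_far, red_near _ hE]
  exact (Nr_ax hE).append (Nr_zr _)

end Pool.Agent.PLX

end
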