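import Pool.Agent.PLX.Words
import Pool.Agent.PB.CloseS

/-!
# End of the hard side along a ray (project PLAX, helper82)

The normaliser `PBM.nrm k` depends on the number `2 k` of rows only.

* `lim_of_nrm` : from `nrm (k r) W r = u r (κ g) + o(1)`, `|u r| = 1`, `W r ≥ 0`, along any filter, the limit of
  `W r (k r)^(5/24)`;
* `Lr b m = (b + 1) m + 2` rows (`b` odd), cut rows `0` and `m + 1`;
* `TRray b l` : the transfer on the ray, along the filter `l` of the numbers `m`;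
* **`hard_of`** : the two-point function of the ray times `(m + 1) ^ (5/24)` has a limit.
-/

set_option autoImplicit false

noncomputable section

open Filter Topology

namespace Pool.Agent.PLX

/-- the two-point function of `N` rows at `0`, cut rows `0` and `r`, as a real number -/
def WPr (N r : ℕ) : ℝ := if h : r < N then (WP h).re else 0

theorem WPr_eq {N r : ℕ} (h : r < N) : WPr N r = (WP h).re := dif_pos h

theorem WPr_nonneg {N r : ℕ} (h1 : 1 ≤ r) : 0 ≤ WPr N r := by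
  unfold WPr
  split
  · rename_i h
    exact (WP_real h1 h).2.1
  · exact le_rfl

/-- the normaliser over `k ^ (5/24)` has a positive limit -/
theorem nrm_lim : ∃ L : ℝ, 0 < L ∧ Tendsto (fun k : ℕ => PBM.nrm k / (k : ℝ) ^ (5 / 24 : ℝ)) atTop (𝓝 L) := by
  obtain ⟨L, C, hL, -, h⟩ := PBC.nrm0_sharp
  refine ⟨L, hL, ?_⟩
  have h3 := (tendsto_rpow_neg_atTop (show (0 : ℝ) < 1 / 2 by norm_num)).comp
    (tendsto_natCast_atTop_atTop (R := ℝ))
  have h2 : Tendsto (fun k : ℕ => C * (k : ℝ) ^ (-(1 / 2) : ℝ)) atTop (𝓝 0) := by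
    simpa using h3.const_mul C
  have h4 : Tendsto (fun k : ℕ => PBM.nrm k / (k : ℝ) ^ (5 / 24 : ℝ) - L) atTop (𝓝 0) := by
    refine squeeze_zero_norm' ?_ h2
    filter_upwards [eventually_ge_atTop 1] with k hk
    rw [Real.norm_eq_abs]
    exact h k hk
  simpa using h4.add_const L

/-- **the limit from the normalised function**, any filter, any phases -/
theorem lim_of_nrm {ι : Type*} {l : Filter ι} {k : ι → ℕ} (hk : Tendsto k l atTop) {W : ι → ℝ} (hW : ∀ᶠ i in l, 0 ≤ W i)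
    {a : ℂ} {u : ι → ℂ} (hu : ∀ᶠ i in l, ‖u i‖ = 1)
    (hT : Tendsto (fun i => ‖((PBM.nrm (k i) * W i : ℝ) : ℂ) - u i * a‖) l (𝓝 0)) :
    ∃ A : ℝ, 0 ≤ A ∧ Tendsto (fun i => W i * (k i : ℝ) ^ (5 / 24 : ℝ)) l (𝓝 A) := by
  obtain ⟨L, hL, hn⟩ := nrm_lim
  have hn' := hn.comp hk
  have h1 : Tendsto (fun i => PBM.nrm (k i) * W i) l (𝓝 ‖a‖) := by
    have h2 : Tendsto (fun i => PBM.nrm (k i) * W i - ‖a‖) l (𝓝 0) := by
      refine squeeze_zero_norm' ?_ hT
      filter_upwards [hu, hW] with i h1 h2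
      have h3 := abs_norm_sub_norm_le ((PBM.nrm (k i) * W i : ℝ) : ℂ) (u i * a)
      rw [norm_mul, h1, one_mul, Complex.norm_real, Real.norm_of_nonneg
        (mul_nonneg (PBM.nrm_nonneg _) h2)] at h3
      rw [Real.norm_eq_abs]
      exact h3
    simpa using h2.add_const ‖a‖
  refine ⟨‖a‖ / L, by positivity, ?_⟩
  refine (h1.div hn' hL.ne').congr' ?_
  have hp : ∀ᶠ i in l, 0 < PBM.nrm (k i) / (k i : ℝ) ^ (5 / 24 : ℝ) := hn'.eventually_const_lt hL
  filter_upwards [hp, hk.eventually (eventually_ge_atTop 1)] with i h2 h3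
  have h4 : (0 : ℝ) < k i := by
    exact_mod_cast h3
  have h5 : (0 : ℝ) < (k i : ℝ) ^ (5 / 24 : ℝ) := by positivity
  have h6 : 0 < PBM.nrm (k i) := (div_pos_iff_of_pos_right h5).1 h2
  show PBM.nrm (k i) * W i / (PBM.nrm (k i) / (k i : ℝ) ^ (5 / 24 : ℝ)) = W i * (k i : ℝ) ^ (5 / 24 : ℝ)
  field_simp

/-- the number of rows of the ray: `m` rows between the cut rows on one side, `b m` on the other side -/
def Lr (b m : ℕ) : ℕ := (b + 1) * m + 2

/-- half the number of rows -/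
def kr (b m : ℕ) : ℕ := Lr b m / 2

theorem two_kr {b : ℕ} (hb : Odd b) (m : ℕ) : 2 * kr b m = Lr b m := by
  obtain ⟨p, rfl⟩ := hb
  unfold kr Lr
  have : (2 * p + 1 + 1) * m + 2 = 2 * ((p + 1) * m + 1) := by ring
  rw [this, Nat.mul_div_cancel_left _ (by norm_num)]

/-- **the transfer on the ray** `L = (b + 1) m + 2`, cut rows `0` and `m + 1`, along the filter `l` of the numbers `m` -/
def TRray (b : ℕ) (l : Filter ℕ) : Prop :=
  ∃ (c C : ℝ) (a : ℂ) (u : ℕ → ℂ), 0 < c ∧ (∀ᶠ m in l, ‖u m‖ = 1) ∧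
    ∀ᶠ m : ℕ in l, ‖((PBM.nrm (kr b m) * WPr (Lr b m) (m + 1) : ℝ) : ℂ) - u m * a‖ ≤ C * (m : ℝ) ^ (-c)

theorem kr_ratio {b : ℕ} (hb : Odd b) :
    Tendsto (fun m : ℕ => (kr b m : ℝ) / ((m : ℝ) + 1)) atTop (𝓝 (((b : ℝ) + 1) / 2)) := by
  have h1 : ∀ m : ℕ, (kr b m : ℝ) / ((m : ℝ) + 1) = ((b : ℝ) + 1) / 2 + (1 - ((b : ℝ) + 1) / 2) * (1 / ((m : ℝ) + 1)) := by
    intro m
    have h2 : (2 : ℝ) * kr b m = (b + 1) * m + 2 := by
      have := two_kr hb m
      unfold Lr at this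
      exact_mod_cast this
    have h3 : (m : ℝ) + 1 ≠ 0 := by positivity
    field_simp
    linarith
  simp only [h1]
  have h4 := (tendsto_one_div_add_atTop_nhds_zero_nat (𝕜 := ℝ)).const_mul (1 - ((b : ℝ) + 1) / 2)
  simpa using h4.const_add (((b : ℝ) + 1) / 2)

/-- **the hard side of the ray from the transfer** -/
theorem hard_of {b : ℕ} (hb : Odd b) {l : Filter ℕ} (hl : l ≤ atTop) (h : TRray b l) :
    ∃ A : ℝ, 0 ≤ A ∧
      Tendsto (fun m : ℕ => WPr (Lr b m) (m + 1) * ((m : ℝ) + 1) ^ (5 / 24 : ℝ)) l (𝓝 A) := by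
  obtain ⟨c, C, a, u, hc, hu, hT⟩ := h
  have hk : Tendsto (kr b) l atTop := by
    refine Tendsto.mono_left ?_ hl
    refine tendsto_atTop_mono (fun m => ?_) tendsto_id
    have h1 := two_kr hb m
    unfold Lr at h1
    have h2 := hb.pos
    show m ≤ kr b m
    nlinarith
  have h3 := (tendsto_rpow_neg_atTop hc).comp (tendsto_natCast_atTop_atTop (R := ℝ))
  have h4 : Tendsto (fun m : ℕ => C * (m : ℝ) ^ (-c)) l (𝓝 0) := by
    have := (h3.const_mul C).mono_left hl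
    simpa using this
  obtain ⟨A, hA, h5⟩ := lim_of_nrm hk (W := fun m => WPr (Lr b m) (m + 1))
    (Eventually.of_forall fun m => WPr_nonneg (by omega)) hu
    (squeeze_zero' (Eventually.of_forall fun m => norm_nonneg _) hT h4)
  have hq : (0 : ℝ) < ((b : ℝ) + 1) / 2 := by positivity
  have h6 : (0 : ℝ) < (((b : ℝ) + 1) / 2) ^ (5 / 24 : ℝ) := by positivity
  refine ⟨A / (((b : ℝ) + 1) / 2) ^ (5 / 24 : ℝ), by positivity, ?_⟩
  have h7 : Tendsto (fun m : ℕ => ((kr b m : ℝ) / ((m : ℝ) + 1)) ^ (5 / 24 : ℝ)) l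
      (𝓝 ((((b : ℝ) + 1) / 2) ^ (5 / 24 : ℝ))) :=
    ((kr_ratio hb).mono_left hl).rpow_const (Or.inl hq.ne')
  refine (h5.div h7 h6.ne').congr' ?_
  filter_upwards [hk.eventually (eventually_ge_atTop 1)] with m hm
  have h8 : (0 : ℝ) < kr b m := by exact_mod_cast hm
  have h9 : (0 : ℝ) < (m : ℝ) + 1 := by positivity
  have h10 : (0 : ℝ) < (kr b m : ℝ) ^ (5 / 24 : ℝ) := by positivity
  have h11 : (0 : ℝ) < ((m : ℝ) + 1) ^ (5 / 24 : ℝ) := by positivity
  show WPr (Lr b m) (m + 1) * (kr b m : ℝ) ^ (5 / 24 : ℝ) / ((kr b m : ℝ) / ((m : ℝ) + 1)) ^ (5 / 24 : ℝ) =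
    WPr (Lr b m) (m + 1) * ((m : ℝ) + 1) ^ (5 / 24 : ℝ)
  rw [Real.div_rpow h8.le h9.le]
  field_simp

end Pool.Agent.PLX

end
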