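import Pool.Agent.PLX.RgW
import Pool.Agent.PLX.TRRat2
import Pool.Agent.PB.MainRR

/-!
# The normaliser of `N` rows (project PLAX)

* `nrmN N = 2 ^ (N (N - 1)) ‖BN N‖ ^ 2 / bulkR N`; `nrmN_two : nrmN (2 k) = PBM.nrm k`;
* `phN N`: a number of modulus one with `nrmN N * (WP h).re = phN N * (2 ^ (N (N - 1)) (BN N ^ 2 WP h) / bulkN N)`;
* `h1_ofN`: an approximation of `2 ^ (N (N - 1)) (BN N ^ 2 WP h) / bulkN N` by `X` gives one of
  `nrmN N * (WP h).re` by `phN N * X`.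
-/

set_option autoImplicit false

noncomputable section

open Complex

namespace Pool.Agent.PLX

/-- the bulk term of `N` rows, as a real number -/
def bulkR (N : ℕ) : ℝ := (2 / 3 * (2 + √2)) ^ (N * (N - 1)) * (2 / 3) ^ N

theorem bulkR_pos (N : ℕ) : 0 < bulkR N := by
  have h1 : (0 : ℝ) ≤ √2 := Real.sqrt_nonneg _
  unfold bulkR
  positivity

theorem bulkN_eq (N : ℕ) : bulkN N = ((bulkR N : ℝ) : ℂ) := by
  unfold bulkN bulkR
  rw [PBR.rh_zero]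
  unfold PBR.r2
  push_cast
  congr 2
  ring

theorem norm_bulkN (N : ℕ) : ‖bulkN N‖ = bulkR N := by
  rw [bulkN_eq, Complex.norm_real, Real.norm_eq_abs, abs_of_pos (bulkR_pos N)]

/-- **the normaliser of `N` rows** -/
def nrmN (N : ℕ) : ℝ := 2 ^ (N * (N - 1)) * ‖BN N‖ ^ 2 / bulkR N

theorem nrmN_nonneg (N : ℕ) : 0 ≤ nrmN N := by
  have := bulkR_pos N
  unfold nrmN
  positivity

theorem nrmN_two (k : ℕ) : nrmN (2 * k) = PBM.nrm k := rfl

/-- the phase -/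
def phN (N : ℕ) : ℂ := if BN N = 0 then 1 else ((‖BN N‖ ^ 2 : ℝ) : ℂ) / BN N ^ 2

theorem norm_phN (N : ℕ) : ‖phN N‖ = 1 := by
  unfold phN
  split_ifs with h
  · exact norm_one
  · have h2 : ‖BN N‖ ^ 2 ≠ 0 := pow_ne_zero 2 (norm_ne_zero_iff.2 h)
    rw [norm_div, norm_pow (BN N), norm_real, Real.norm_of_nonneg (by positivity), div_self h2]

theorem phN_mul (N : ℕ) : phN N * BN N ^ 2 = ((‖BN N‖ ^ 2 : ℝ) : ℂ) := by
  unfold phN
  split_ifs with h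
  · rw [h]
    simp
  · field_simp

theorem nrmN_W {N r : ℕ} (h1 : 1 ≤ r) (h : r < N) : ((nrmN N * (WP h).re : ℝ) : ℂ) =
    phN N * (2 ^ (N * (N - 1)) * (BN N ^ 2 * WP h) / bulkN N) := by
  have e : ((nrmN N * (WP h).re : ℝ) : ℂ) = ((nrmN N : ℝ) : ℂ) * WP h := by
    rw [ofReal_mul, ← (WP_real h1 h).1]
  rw [e, bulkN_eq]
  unfold nrmN
  have h := phN_mul N
  push_cast at h ⊢
  rw [← h]
  ring

/-- **the form with a phase** -/
theorem h1_ofN {N r : ℕ} (h1 : 1 ≤ r) (h : r < N) {X : ℂ} {e : ℝ}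
    (h2 : ‖2 ^ (N * (N - 1)) * (BN N ^ 2 * WP h) / bulkN N - X‖ ≤ e) :
    ‖((nrmN N * (WP h).re : ℝ) : ℂ) - phN N * X‖ ≤ e := by
  rw [nrmN_W h1 h, ← mul_sub, norm_mul, norm_phN, one_mul]
  exact h2

end Pool.Agent.PLX

end
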