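import Pool.Agent.PB.QRep

/-!
# The quadratic statistic of a field as a superposition of products, a density for each species (PLAX)

Copy of the three theorems of `PB/QRep` with a general density `ρ : Bool → ℝ → ℂ` of the species:
* `prep_EL2`: the representation of the local kernel `EL`;
* **`nuQ_field2`**: `nuQ (aC X) = nuL (-2 ε X) nuL (ε tgh) + (1/2) ∫ nuL (QA q) nuL (QB q)`;
* `enorm_nuQ_field2`: the bound by the moduli.
-/

set_option autoImplicit false
set_option linter.unusedSectionVars false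

noncomputable section

open Complex MeasureTheory Set Filter Topology
open scoped ENNReal

namespace PB

open NUMF (l)
open PBK Pool.Agent.PB PBV NX

/-- **the representation of the local kernel** -/
theorem prep_EL2 {y0 y1 b1 S L : ℝ} (h : YOk y0 y1 b1) (hS : 0 ≤ S) (hL : 0 ≤ L)
    {X : Bool → ℂ → ℂ} (hX : XBd b1 S L X) {C : ℝ} (hC : 0 ≤ C)
    (hA : ∀ (q : QI4) (b : Bool) (z : ℂ), |z.im| ≤ y1 → ‖QA X y1 q b z‖ ≤ qa C S L q)
    (hE : ∀ (b c : Bool) (z w : ℂ), |z.im| ≤ y1 → |w.im| ≤ y1 → ‖EL X b c z w‖ ≤ C * S * WL L w.re)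
    {ρ : Bool → ℝ → ℂ} (hρ : ∀ s, Integrable (ρ s)) (hρm : ∀ s, Measurable (ρ s)) :
    PRep qm (fun _ : Bool => {z : ℂ | |z.im| ≤ y0}) eR ρ (EL X) (QA X y1) (QB y1)
      (qa C S L) (fun _ => cE 1 (y1 - y0)) (fun _ _ => 1) (fun _ _ => 1) := by
  have h01 := h.h01
  have hp := h.pi
  have hθ : 0 < y1 - y0 := by linarith
  have hsin : (1 : ℝ) * (y1 - y0) < Real.pi := by
    have := h.h0
    linarith
  have hy10 := h.pos
  have h1 := h.h1
  have h2 := h.hl
  refine ⟨?_, ?_, ?_, ?_, ?_, ?_, ?_, ?_, ?_, ?_, ?_, ?_, ?_, ?_⟩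
  · intro b c x y hx hy
    have hx' : |x.im| ≤ y0 := hx
    have hy' : |y.im| ≤ y0 := hy
    have hd : ∀ w : ℂ, |w.im| < b1 → DifferentiableAt ℂ (fun w => EL X b c x w) w := fun w hw =>
      EL_diff hX hS h.hl b c (by linarith) hw
    obtain ⟨i1, i2⟩ := decomp_idx (E := EL X b c) (y₁ := -y1) (y₂ := y1) (α := 1) (β := 0)
      (M := C * S) one_pos hp zero_lt_one (z := x)
      (fun w hw => (hd w (by
        have := hw.1; have := hw.2
        exact (abs_le.2 ⟨by linarith, by linarith⟩ : |w.im| ≤ y1).trans_lt h1)).continuousAt.continuousWithinAt)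
      (fun w hw => (hd w (by
        have := hw.1; have := hw.2
        exact (abs_lt.2 ⟨by linarith, by linarith⟩ : |w.im| < y1).trans h1)).differentiableWithinAt)
      (fun w hw => by
        rw [zero_mul, Real.exp_zero, mul_one]
        refine (hE b c x w (by linarith) (abs_le.2 ⟨by have := hw.1; linarith, by
          have := hw.2; linarith⟩)).trans ?_
        exact mul_le_of_le_one_right (mul_nonneg hC hS) (WL_le_one _ _))
      (w := y) ⟨by have := (abs_le.1 hy').1; linarith, by have := (abs_le.1 hy').2; linarith⟩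
    have e1 : ∀ p : Bool × Bool, p ≠ (b, c) → (fun q => QA X y1 (p, q) b x * QB y1 (p, q) c y) =
        fun _ => 0 := by
      intro p hp
      funext q
      unfold QA QB
      simp only []
      by_cases hb : b = p.1
      · by_cases hc : c = p.2
        · exact absurd (Prod.ext hb.symm hc.symm) hp
        · rw [if_neg hc, mul_zero]
      · rw [if_neg hb, zero_mul]
    have e2 : (fun q => QA X y1 ((b, c), q) b x * QB y1 ((b, c), q) c y) =
        fun q => AE (EL X b c) (-y1) y1 q x * BE 1 (-y1) y1 q y := by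
      funext q
      unfold QA QB
      simp
    have i3 : Integrable (fun q => QA X y1 q b x * QB y1 q c y) qm := by
      rw [integrable_qm]
      intro p
      by_cases hpb : p = (b, c)
      · rw [hpb, e2]
        exact i1
      · rw [e1 p hpb]
        exact integrable_zero _ _ _
    rw [integral_qm i3, Finset.sum_eq_single (b, c), e2, ← i2]
    · intro p _ hpb
      rw [e1 p hpb, integral_zero]
    · intro hn
      exact absurd (Finset.mem_univ _) hn
  · intro b c x y hx hy
    have hx' : |x.im| ≤ y0 := hx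
    have hy' : |y.im| ≤ y0 := hy
    refine EL_symm X b c ?_
    rw [sub_im]
    have := abs_sub x.im y.im
    linarith
  · intro b x _
    exact ((QA_measurable hX.m y1 b).comp (measurable_id.prodMk measurable_const)).aestronglyMeasurable
  · intro b x _
    exact ((QB_measurable y1 b).comp (measurable_id.prodMk measurable_const)).aestronglyMeasurable
  · intro b
    have hr : Measurable fun p : QI4 × ℝ => ρ b p.2 := (hρm b).comp measurable_snd
    refine (hr.mul ((QA_measurable hX.m y1 b).comp (measurable_fst.prodMk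
      (Complex.measurable_ofReal.comp measurable_snd)))).aestronglyMeasurable
  · intro b
    have hr : Measurable fun p : QI4 × ℝ => ρ b p.2 := (hρm b).comp measurable_snd
    refine (hr.mul ((QB_measurable y1 b).comp (measurable_fst.prodMk
      (Complex.measurable_ofReal.comp measurable_snd)))).aestronglyMeasurable
  · intro q b x hx
    rw [mul_one]
    exact hA q b x ((show |x.im| ≤ y0 from hx).trans h01.le)
  · intro q b x hx
    rw [mul_one]
    exact QB_le h q b hx
  · have := (integrable_WL_qm hL (C * S)).mul_const (cE 1 (y1 - y0))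
    exact this
  · exact fun q => qa_nonneg hC hS q
  · exact fun _ => (cE_pos one_pos hθ hsin).le
  · intro b
    simp only [mul_one]
    exact (hρ b).norm
  · intro b
    simp only [mul_one]
    exact (hρ b).norm
  · intro b u _
    show |(eR u).im| ≤ y0
    unfold eR
    simp [h.h0]

/-- **the quadratic statistic of a field** -/
theorem nuQ_field2 {y0 y1 b1 S L : ℝ} (h : YOk y0 y1 b1) (hS : 0 ≤ S) (hL : 0 ≤ L)
    {X : Bool → ℂ → ℂ} (hX : XBd b1 S L X)
    {ρ : Bool → ℝ → ℂ} (hρ : ∀ s, Integrable (ρ s)) (hρm : ∀ s, Measurable (ρ s))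
    {ι : Type} [Fintype ι] (sp : ι → Bool) {z : ι → ℂ} (hz : ∀ i, |(z i).im| ≤ y0) :
    Integrable (fun q => NX.nuL eR sp ρ (QA X y1 q) z * NX.nuL eR sp ρ (QB y1 q) z) qm ∧
    NX.nuQ eR sp ρ (aC X) z = NX.nuL eR sp ρ (fX X) z * NX.nuL eR sp ρ gT2 z +
      (1 / 2) * ∫ q, NX.nuL eR sp ρ (QA X y1 q) z * NX.nuL eR sp ρ (QB y1 q) z ∂qm := by
  obtain ⟨C, hC, hA⟩ := QA_le h
  obtain ⟨C', hC', hE⟩ := EL_le (b0 := y1) (b1 := b1) h.pos.le h.h1 (by
    have := h.h1; have := h.hl; linarith)
  have h01 := h.h01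
  have h1 := h.h1
  have h2 := h.hl
  have hCm : C ≤ max C C' := le_max_left _ _
  have hCm' : C' ≤ max C C' := le_max_right _ _
  have R := prep_EL2 h hS hL hX (C := max C C') (le_max_of_le_left hC)
    (fun q b z hz => (hA S L X hS hX q b z hz).trans (by
      unfold qa
      have := (WL_pos L q.2.2).le
      gcongr))
    (fun b c z w hz hw => (hE S L X hS hX b c z w hz hw).trans (by
      have := (WL_pos L w.re).le
      gcongr)) hρ hρm
  obtain ⟨i1, i2⟩ := nuQ_int R sp (z := z) hz
  refine ⟨i1, ?_⟩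
  set D : Bool → Set ℂ := fun _ : Bool => {z : ℂ | |z.im| ≤ y0} with hD
  have he : ∀ b u, ρ b u ≠ 0 → eR u ∈ D b := R.he
  have hm : ∀ b c x, x ∈ D b → AEStronglyMeasurable (fun u => EL X b c x (eR u) * ρ c u) volume := by
    intro b c x _
    have h3 : Measurable fun u : ℝ => EL X b c x (u : ℂ) := by
      have h4 := (EL_measurable hX.m b c).comp
        (measurable_const (a := x) |>.prodMk Complex.measurable_ofReal)
      exact h4
    exact (h3.mul (hρm c)).aestronglyMeasurable
  have q1 := R.qid hm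
  have hfi : ∀ b, Integrable fun u => ρ b u * fX X b (eR u) := by
    intro b
    have h3 : Measurable fun u : ℝ => fX X b (u : ℂ) :=
      ((hX.m b).comp Complex.measurable_ofReal).const_mul _
    refine ((hρ b).norm.mul_const (2 * S)).mono' ((hρm b).mul h3).aestronglyMeasurable
      (Filter.Eventually.of_forall fun u => ?_)
    rw [norm_mul]
    refine mul_le_mul_of_nonneg_left ?_ (norm_nonneg _)
    unfold fX eR
    rw [norm_mul, norm_mul, norm_eps, norm_neg]
    have h4 := hX.bd b (u : ℂ) (by simp; linarith [h.pos])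
    have h5 := mul_le_of_le_one_right hS (WL_le_one L (u : ℂ).re)
    have h6 : ‖(2 : ℂ)‖ = 2 := by simp
    rw [h6]
    linarith
  have hgi : ∀ b, Integrable fun u => ρ b u * gT2 b (eR u) := by
    intro b
    have h3 : Measurable fun u : ℝ => gT2 b (u : ℂ) :=
      (tgh_measurable.comp Complex.measurable_ofReal).const_mul _
    refine ((hρ b).norm.mul_const (1 + 2 / NUMF.r)).mono' ((hρm b).mul h3).aestronglyMeasurable
      (Filter.Eventually.of_forall fun u => ?_)
    rw [norm_mul]
    refine mul_le_mul_of_nonneg_left ?_ (norm_nonneg _)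
    unfold gT2 eR
    rw [norm_mul, norm_eps, one_mul]
    exact norm_tgh_le (by simp; linarith [h.pos])
  have q2 : QID D eR ρ (fun b c s u => fX X b s * gT2 c u + gT2 b s * fX X c u) :=
    (QI.prod hfi hgi).qid
  have e1 : NX.nuQ eR sp ρ (aC X) z =
      NX.nuQ eR sp ρ (fun b c s u => EL X b c s u + (fX X b s * gT2 c u + gT2 b s * fX X c u)) z := by
    rw [← nuQ_cD he _ hz, ← nuQ_cD he (fun b c s u => EL X b c s u + (fX X b s * gT2 c u + gT2 b s * fX X c u)) hz]
    congr 1
    funext b c x y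
    unfold cD
    split_ifs with hxy
    · refine aC_split X b c ?_
      have hx : |x.im| ≤ y0 := hxy.1
      have hy : |y.im| ≤ y0 := hxy.2
      rw [sub_im]
      have := abs_sub x.im y.im
      linarith
    · rfl
  rw [e1, nuQ_addD sp he q1 q2 hz, nuQ_prod sp hfi hgi, i2]
  ring

/-- **bound by the moduli** -/
theorem enorm_nuQ_field2 {y0 y1 b1 S L : ℝ} (h : YOk y0 y1 b1) (hS : 0 ≤ S) (hL : 0 ≤ L)
    {X : Bool → ℂ → ℂ} (hX : XBd b1 S L X)
    {ρ : Bool → ℝ → ℂ} (hρ : ∀ s, Integrable (ρ s)) (hρm : ∀ s, Measurable (ρ s))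
    {ι : Type} [Fintype ι] (sp : ι → Bool) {z : ι → ℂ} (hz : ∀ i, |(z i).im| ≤ y0) :
    ‖NX.nuQ eR sp ρ (aC X) z‖ₑ ≤ ‖NX.nuL eR sp ρ (fX X) z‖ₑ * ‖NX.nuL eR sp ρ gT2 z‖ₑ +
      ∫⁻ q, ‖NX.nuL eR sp ρ (QA X y1 q) z‖ₑ * ‖NX.nuL eR sp ρ (QB y1 q) z‖ₑ ∂qm := by
  obtain ⟨-, e⟩ := nuQ_field2 h hS hL hX hρ hρm sp hz
  rw [e]
  refine (enorm_add_le _ _).trans ?_
  rw [enorm_mul, enorm_mul]
  refine add_le_add le_rfl ?_
  have h1 : ‖(1 / 2 : ℂ)‖ₑ ≤ 1 := by
    rw [← ofReal_norm]
    refine ENNReal.ofReal_le_one.2 ?_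
    norm_num
  calc ‖(1 / 2 : ℂ)‖ₑ * ‖∫ q, NX.nuL eR sp ρ (QA X y1 q) z * NX.nuL eR sp ρ (QB y1 q) z ∂qm‖ₑ
      ≤ 1 * ∫⁻ q, ‖NX.nuL eR sp ρ (QA X y1 q) z * NX.nuL eR sp ρ (QB y1 q) z‖ₑ ∂qm :=
        mul_le_mul' h1 (enorm_integral_le_lintegral_enorm _)
    _ = _ := by
        rw [one_mul]
        refine lintegral_congr fun q => ?_
        rw [enorm_mul]

end PB
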