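import Pool.Agent.PLX.ForceK2
import Pool.Agent.PB.FBd

/-!
# Two fillings: bounds and measurability of the row forces, own and cross multiplicities

* `kO_rowS_bd`, `kO_rowX_bd`: bounds on the strips `PBOb.Str`, rows at `Re x = 0`;
* **`krA_bd`**: `‖krA α γ‖ ≤ m (‖α‖ + ‖γ‖) C`, `‖r1A α γ‖ ≤ (‖α‖ + ‖γ‖) C`, `C` absolute;
* measurability of `krA`, `r1A`.
-/

set_option autoImplicit false
set_option linter.unusedSectionVars false

noncomputable section

open MeasureTheory Set Filter Topology Finset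
open scoped Classical

namespace PBQ1

open NUMF PBForce Pool.Agent.PB NUP1S PBOb

variable {m : ℕ}

lemma rowX_ctB (z : ℂ) : rowX z = Complex.I * (2 * ct (z + 4 * l)) := by
  unfold rowX
  have h : ct (z + 4 * l) = -Complex.tan z := by
    have := cot_m (z + 4 * l)
    unfold Complex.cot at this
    unfold ct
    rw [this]
    congr 2
    ring
  rw [h]
  ring

lemma rowS_ctB (z : ℂ) : rowS z = Complex.I * (-ct (z + l) - ct (z - l)) := by
  unfold rowS ct Complex.cot
  ring

/-- a kernel bounded on the windows -/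
def BdG (K : ℂ → ℂ) : Prop := ∀ {a b : ℝ}, Gd (a + 4 * l) (b + 4 * l) → Gd (a + l) (b + l) →
  Gd (a - l) (b - l) → ∃ C : ℝ, 0 ≤ C ∧ ∀ z : ℂ, a ≤ z.re → z.re ≤ b → ‖K z‖ ≤ C

lemma bdG_rowX : BdG rowX := by
  intro a b h1 _ _
  obtain ⟨C1, p1, H1⟩ := ct_gd h1
  refine ⟨2 * C1, by positivity, fun z ha hb => ?_⟩
  have r1 : (z + 4 * l : ℂ).re = z.re + 4 * l := by simp
  rw [rowX_ctB, norm_mul, Complex.norm_I, one_mul, norm_mul, Complex.norm_ofNat]
  have n1 := H1 (z + 4 * l) (by rw [r1]; linarith) (by rw [r1]; linarith)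
  linarith

lemma bdG_rowS : BdG rowS := by
  intro a b _ h2 h3
  obtain ⟨C2, p2, H2⟩ := ct_gd h2
  obtain ⟨C3, p3, H3⟩ := ct_gd h3
  refine ⟨C2 + C3, by positivity, fun z ha hb => ?_⟩
  have r2 : (z + l : ℂ).re = z.re + l := by simp
  have r3 : (z - l : ℂ).re = z.re - l := by simp
  rw [rowS_ctB, norm_mul, Complex.norm_I, one_mul]
  have n2 := H2 (z + l) (by rw [r2]; linarith) (by rw [r2]; linarith)
  have n3 := H3 (z - l) (by rw [r3]; linarith) (by rw [r3]; linarith)
  refine (norm_sub_le _ _).trans ?_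
  rw [norm_neg]
  exact add_le_add n2 n3

/-- **bound of a force on the strips** -/
theorem kO_bdG {K : ℂ → ℂ} (hK : BdG K) : ∃ C : ℝ, 0 ≤ C ∧ ∀ (k : Option O3) (w x : ℂ),
    w ∈ Str k → x.re = 0 → ‖kO K (ob4 k) (w - l - x)‖ ≤ C := by
  have hl := l_pos
  obtain ⟨A1, a1, HA⟩ := hK (a := -(1 / 2) * l) (b := 1 / 5 * l)
    (Or.inl ⟨by linarith, by linarith⟩) (Or.inl ⟨by linarith, by linarith⟩)
    (Or.inr ⟨by linarith, by linarith⟩)
  obtain ⟨B1, b1, HB⟩ := hK (a := -(12 / 5) * l) (b := -(11 / 5) * l)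
    (Or.inl ⟨by linarith, by linarith⟩) (Or.inr ⟨by linarith, by linarith⟩)
    (Or.inr ⟨by linarith, by linarith⟩)
  obtain ⟨B2, b2, HB2⟩ := hK (a := -(17 / 5) * l) (b := -(16 / 5) * l)
    (Or.inl ⟨by linarith, by linarith⟩) (Or.inr ⟨by linarith, by linarith⟩)
    (Or.inr ⟨by linarith, by linarith⟩)
  obtain ⟨T1, t1, HT⟩ := hK (a := -(31 / 20) * l) (b := -(29 / 20) * l)
    (Or.inl ⟨by linarith, by linarith⟩) (Or.inr ⟨by linarith, by linarith⟩)
    (Or.inr ⟨by linarith, by linarith⟩)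
  obtain ⟨T2, t2, HT2⟩ := hK (a := -(51 / 20) * l) (b := -(49 / 20) * l)
    (Or.inl ⟨by linarith, by linarith⟩) (Or.inr ⟨by linarith, by linarith⟩)
    (Or.inr ⟨by linarith, by linarith⟩)
  refine ⟨A1 + (B1 + B2) + (T1 + T2), by positivity, fun k w x hw hx => ?_⟩
  obtain ⟨hw1, hw2⟩ := hw
  have r1 : (w - l - x : ℂ).re = w.re - l := by simp [hx]
  have r2 : (w - l - x - l : ℂ).re = w.re - l - l := by simp [hx]
  rcases k with _ | (_ | _ | _)
  · change 1 / 2 * l ≤ w.re at hw1
    change w.re ≤ 6 / 5 * l at hw2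
    have := HA (w - l - x) (by rw [r1]; linarith) (by rw [r1]; linarith)
    change ‖K (w - l - x)‖ ≤ _
    linarith
  · change -(13 / 10) * l ≤ w.re at hw1
    change w.re ≤ -(6 / 5) * l at hw2
    have := HB (w - l - x) (by rw [r1]; linarith) (by rw [r1]; linarith)
    change ‖K (w - l - x)‖ ≤ _
    linarith
  · change -(7 / 5) * l ≤ w.re at hw1
    change w.re ≤ -(6 / 5) * l at hw2
    have h1 := HB (w - l - x) (by rw [r1]; linarith) (by rw [r1]; linarith)
    have h2 := HB2 (w - l - x - l) (by rw [r2]; linarith) (by rw [r2]; linarith)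
    change ‖K (w - l - x) + K (w - l - x - l)‖ ≤ _
    refine (norm_add_le _ _).trans ?_
    linarith
  · change -(11 / 20) * l ≤ w.re at hw1
    change w.re ≤ -(9 / 20) * l at hw2
    have h1 := HT (w - l - x) (by rw [r1]; linarith) (by rw [r1]; linarith)
    have h2 := HT2 (w - l - x - l) (by rw [r2]; linarith) (by rw [r2]; linarith)
    change ‖K (w - l - x) + K (w - l - x - l)‖ ≤ _
    refine (norm_add_le _ _).trans ?_
    linarith

/-- **bounds of the row forces**: constant absolute -/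
theorem krA_bd : ∃ C : ℝ, 0 ≤ C ∧ ∀ (α γ : ℂ) (m : ℕ) (x : Fin m → ℂ), (∀ i, (x i).re = 0) →
    ∀ (k : Option O3) (w : ℂ), w ∈ Str k →
    ‖krA α γ (ob4 k) x w‖ ≤ m * ((‖α‖ + ‖γ‖) * C) ∧
    ∀ i0, ‖r1A α γ (ob4 k) x i0 w‖ ≤ (‖α‖ + ‖γ‖) * C := by
  obtain ⟨C1, hC1, H1⟩ := kO_bdG bdG_rowS
  obtain ⟨C2, hC2, H2⟩ := kO_bdG bdG_rowX
  refine ⟨max C1 C2, hC1.trans (le_max_left _ _), fun α γ m x hx k w hw => ?_⟩
  have key : ∀ i, ‖α * kO rowS (ob4 k) (w - l - x i) + γ * kO rowX (ob4 k) (w - l - x i)‖ ≤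
      (‖α‖ + ‖γ‖) * max C1 C2 := by
    intro i
    refine (norm_add_le _ _).trans ?_
    rw [norm_mul, norm_mul, add_mul]
    exact add_le_add
      (mul_le_mul_of_nonneg_left ((H1 k w (x i) hw (hx i)).trans (le_max_left _ _)) (norm_nonneg _))
      (mul_le_mul_of_nonneg_left ((H2 k w (x i) hw (hx i)).trans (le_max_right _ _)) (norm_nonneg _))
  refine ⟨?_, fun i0 => ?_⟩
  · unfold krA
    refine (norm_sum_le _ _).trans ?_
    calc ∑ i, ‖α * kO rowS (ob4 k) (w - l - x i) + γ * kO rowX (ob4 k) (w - l - x i)‖ ≤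
        ∑ _i : Fin m, (‖α‖ + ‖γ‖) * max C1 C2 := Finset.sum_le_sum fun i _ => key i
      _ = m * ((‖α‖ + ‖γ‖) * max C1 C2) := by simp
  · unfold r1A
    rw [norm_neg]
    exact key i0

/-! ### measurability -/

lemma measurable_rowX : Measurable rowX := by
  have e : rowX = fun z => Complex.I * (2 * ct (z + 4 * l)) := funext rowX_ctB
  rw [e]
  have h := measurable_ct
  exact measurable_const.mul (measurable_const.mul (h.comp (measurable_id.add_const _)))

lemma measurable_rowS : Measurable rowS := by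
  have e : rowS = fun z => Complex.I * (-ct (z + l) - ct (z - l)) := funext rowS_ctB
  rw [e]
  have h := measurable_ct
  exact measurable_const.mul (((h.comp (measurable_id.add_const _)).neg).sub
    (h.comp (measurable_id.sub_const _)))

lemma measurable_krA (α γ : ℂ) (k : NUP1.Bd.Ob) (x : Fin m → ℂ) : Measurable (krA α γ k x) := by
  unfold krA
  refine Finset.measurable_fun_sum _ fun i _ => ?_
  exact (((measurable_kO measurable_rowS _).comp
    ((measurable_id.sub_const _).sub_const _)).const_mul α).add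
    (((measurable_kO measurable_rowX _).comp
      ((measurable_id.sub_const _).sub_const _)).const_mul γ)

lemma measurable_r1A (α γ : ℂ) (k : NUP1.Bd.Ob) (x : Fin m → ℂ) (i0 : Fin m) :
    Measurable (r1A α γ k x i0) := by
  unfold r1A
  exact ((((measurable_kO measurable_rowS _).comp
    ((measurable_id.sub_const _).sub_const _)).const_mul α).add
    (((measurable_kO measurable_rowX _).comp
      ((measurable_id.sub_const _).sub_const _)).const_mul γ)).neg

end PBQ1

end
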