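import Pool.Agent.PB.Num
import Pool.Agent.PLX.ForceX
import Pool.Agent.PLX.Yq
import Pool.Agent.PLX.I1Q2

/-!
# The derivative of the prefactor, rows of the two groups separately (project PLAX)

* `T1 w = ∫ P ct (w + l - i s)`, `T4 w = ∫ P ct (w + 4 l - i s)`: the mean energies (derivatives) of two rows
  with their seas, own and cross: `T1_eq : T1 w = lLp w - lrh w`, `T4_eq : T4 w = lrh w`;
* `int_own`, `int_cross`: `∫ ro x s * rowS ..`, `∫ ro x s * rowX ..`;
* `LD_Pf`: the derivative of `Pf z x y` for arbitrary lists and velocities.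
-/

set_option autoImplicit false
set_option linter.unusedSectionVars false

noncomputable section

open MeasureTheory Set Filter Topology Finset
open scoped Classical

namespace PBQ1

open NUMF PBForce Pool.Agent.PB

/-! ### own and cross energies -/

/-- own energy -/
def T1 (w : ℂ) : ℂ := ∫ s : ℝ, Pc s * ct (w + l - s * Complex.I)

/-- cross energy -/
def T4 (w : ℂ) : ℂ := ∫ s : ℝ, Pc s * ct (w + 4 * l - s * Complex.I)

lemma differentiableAt_ct {z : ℂ} (h0 : 0 < z.re) (h1 : z.re < 8 * l) : DifferentiableAt ℂ ct z := by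
  have h := sin_neS h0 h1
  exact (Complex.differentiableAt_cos).div (Complex.differentiableAt_sin) h

/-- the sum rule for `ct` -/
lemma ct_rule {w : ℂ} (h0 : l < w.re) (h1 : w.re < 7 * l) :
    Integrable (fun s : ℝ => Pc s * ct (w + l - s * Complex.I)) ∧
    Integrable (fun s : ℝ => Pc s * ct (w - l - s * Complex.I)) ∧
    Integrable (fun s : ℝ => Pc s * ct (w - s * Complex.I)) ∧
    ∫ s : ℝ, Pc s * (ct (w + l - s * Complex.I) + ct (w - l - s * Complex.I) - ct (w - s * Complex.I)) =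
      ct w := by
  have hl := l_pos
  obtain ⟨C, hC, hb⟩ := ct_bound (a := w.re - l) (b := w.re + l) (by linarith) (by linarith)
  obtain ⟨k1, k2, k3, k4⟩ := sum_rule_pos' (f := ct) (w := w) (x := 0) (a := 0) (b := 8 * l)
    (M := 0) (C := C) (by rw [abs_zero]; exact hl) le_rfl hC (by linarith) (by linarith)
    (fun z h1 h2 => differentiableAt_ct h1 h2) (fun z h1 h2 => by
      rw [zero_mul, zero_add]
      exact hb z h1 h2)
  simp only [Complex.ofReal_zero, zero_mul, add_zero, sub_zero] at k1 k2 k3 k4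
  exact ⟨k1, k2, k3, k4⟩

lemma T_sum {w : ℂ} (h0 : -l < w.re) (h1 : w.re < 4 * l) :
    Integrable (fun s : ℝ => Pc s * ct (w + l - s * Complex.I)) ∧
    Integrable (fun s : ℝ => Pc s * ct (w + 4 * l - s * Complex.I)) ∧
    T1 w + T4 w = lLp w := by
  have hl := l_pos
  have r2 : (w + 2 * (l : ℂ)).re = w.re + 2 * l := by simp
  have r3 : (w + 3 * (l : ℂ)).re = w.re + 3 * l := by simp
  obtain ⟨a1, a2, a3, a4⟩ := ct_rule (w := w + 2 * l) (by rw [r2]; linarith) (by rw [r2]; linarith)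
  obtain ⟨b1, b2, b3, b4⟩ := ct_rule (w := w + 3 * l) (by rw [r3]; linarith) (by rw [r3]; linarith)
  have e1 : ∀ s : ℝ, w + 2 * (l : ℂ) - l - s * Complex.I = w + l - s * Complex.I := fun s => by ring
  have e2 : ∀ s : ℝ, w + 3 * (l : ℂ) + l - s * Complex.I = w + 4 * l - s * Complex.I := fun s => by ring
  have e3 : ∀ s : ℝ, w + 2 * (l : ℂ) + l - s * Complex.I = w + 3 * l - s * Complex.I := fun s => by ring
  have e4 : ∀ s : ℝ, w + 3 * (l : ℂ) - l - s * Complex.I = w + 2 * l - s * Complex.I := fun s => by ring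
  simp only [e1, e3] at a1 a2 a4
  simp only [e2, e4] at b1 b2 b4
  refine ⟨a2, b1, ?_⟩
  unfold T1 T4 lLp
  rw [← a4, ← b4, ← integral_add a2 b1]
  have i1 : Integrable fun s : ℝ => Pc s * (ct (w + 3 * l - s * Complex.I) +
      ct (w + l - s * Complex.I) - ct (w + 2 * l - s * Complex.I)) := by
    refine ((a1.add a2).sub a3).congr (Eventually.of_forall fun s => ?_)
    simp only [Pi.add_apply, Pi.sub_apply]
    ring
  have i2 : Integrable fun s : ℝ => Pc s * (ct (w + 4 * l - s * Complex.I) +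
      ct (w + 2 * l - s * Complex.I) - ct (w + 3 * l - s * Complex.I)) := by
    refine ((b1.add b2).sub b3).congr (Eventually.of_forall fun s => ?_)
    simp only [Pi.add_apply, Pi.sub_apply]
    ring
  rw [← integral_add i1 i2]
  refine integral_congr_ae (Eventually.of_forall fun s => ?_)
  simp only []
  ring

lemma T_sub {w : ℂ} (h0 : -l < w.re) (h1 : w.re < 4 * l) : T1 w - T4 w = dTT w := by
  obtain ⟨a, b, -⟩ := T_sum h0 h1
  unfold T1 T4 dTT fSd
  rw [← integral_sub a b]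
  refine integral_congr_ae (Eventually.of_forall fun s => ?_)
  simp only []
  rw [show w + l - s * Complex.I + 3 * (l : ℂ) = w + 4 * l - s * Complex.I by ring]
  ring

/-- **cross energy of two rows** -/
theorem T4_eq {w : ℂ} (h0 : -l < w.re) (h1 : w.re < 4 * l) : T4 w = lrh w := by
  have h2 := (T_sum h0 h1).2.2
  have h3 := T_sub h0 h1
  have h4 := dTT_eq h0 h1
  unfold lLp at h2
  linear_combination (1 / 2 : ℂ) * h2 - (1 / 2 : ℂ) * h3 - (1 / 2 : ℂ) * h4

/-- **own energy of two rows** -/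
theorem T1_eq {w : ℂ} (h0 : -l < w.re) (h1 : w.re < 4 * l) : T1 w = lLp w - lrh w := by
  have h2 := (T_sum h0 h1).2.2
  rw [T4_eq h0 h1] at h2
  linear_combination h2

lemma lFp_lLp (v : ℂ) : lFp v = lLp v - lLp (-v) := by
  unfold lFp lLp
  rw [show -v + 2 * (l : ℂ) = 2 * l - v by ring, show -v + 3 * (l : ℂ) = 3 * l - v by ring]
  ring

/-! ### integrals against the density of one row -/

lemma int_pos {f : ℂ → ℂ} {c : ℂ} (a b : ℝ)
    (h : Integrable fun s : ℝ => Pc s * f (((a - b : ℝ) : ℂ) * Complex.I + c - s * Complex.I)) :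
    Integrable (fun s : ℝ => Pc (s - (a : ℂ)) * f (c + Complex.I * (s - (b : ℂ)))) ∧
    ∫ s : ℝ, Pc (s - (a : ℂ)) * f (c + Complex.I * (s - (b : ℂ))) =
      ∫ s : ℝ, Pc s * f (((a - b : ℝ) : ℂ) * Complex.I + c - s * Complex.I) := by
  have e : ∀ s : ℝ, Pc (s - (a : ℂ)) * f (c + Complex.I * (s - (b : ℂ))) =
      (fun s : ℝ => Pc s * f (((a - b : ℝ) : ℂ) * Complex.I + c - s * Complex.I)) (a - s) := by
    intro s
    simp only []
    congr 1
    · rw [← Pc_even]
      congr 1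
      push_cast
      ring
    · congr 1
      push_cast
      ring
  simp only [e]
  refine ⟨h.comp_sub_left a, ?_⟩
  rw [integral_sub_left_eq_self
    (fun s : ℝ => Pc s * f (((a - b : ℝ) : ℂ) * Complex.I + c - s * Complex.I)) volume a]

lemma int_neg' {f : ℂ → ℂ} {c : ℂ} (a b : ℝ)
    (h : Integrable fun s : ℝ => Pc s * f (((b - a : ℝ) : ℂ) * Complex.I + c - s * Complex.I)) :
    Integrable (fun s : ℝ => Pc (s - (a : ℂ)) * f (c - Complex.I * (s - (b : ℂ)))) ∧
    ∫ s : ℝ, Pc (s - (a : ℂ)) * f (c - Complex.I * (s - (b : ℂ))) =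
      ∫ s : ℝ, Pc s * f (((b - a : ℝ) : ℂ) * Complex.I + c - s * Complex.I) := by
  have e : ∀ s : ℝ, Pc (s - (a : ℂ)) * f (c - Complex.I * (s - (b : ℂ))) =
      (fun s : ℝ => Pc s * f (((b - a : ℝ) : ℂ) * Complex.I + c - s * Complex.I)) (s - a) := by
    intro s
    simp only []
    congr 1
    · congr 1
      push_cast
      ring
    · congr 1
      push_cast
      ring
  simp only [e]
  refine ⟨h.comp_sub_right a, ?_⟩
  rw [integral_sub_right_eq_self
    (fun s : ℝ => Pc s * f (((b - a : ℝ) : ℂ) * Complex.I + c - s * Complex.I)) a]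

lemma rowS_ctN (w : ℂ) : rowS w = -Complex.I * ct (l + w) + Complex.I * ct (l - w) := by
  have c1 : ct (l + w) = Complex.cot (w + l) := by
    unfold ct Complex.cot
    rw [add_comm]
  have c2 : ct (l - w) = -Complex.cot (w - l) := by
    unfold ct Complex.cot
    rw [show (l : ℂ) - w = -(w - l) by ring, Complex.cos_neg, Complex.sin_neg, div_neg]
  unfold rowS
  rw [c1, c2]
  ring

lemma rowX_ctN (w : ℂ) : rowX w = 2 * Complex.I * ct (4 * l + w) := by
  have c3 : ct (4 * l + w) = -Complex.tan w := by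
    have := cot_m (4 * l + w)
    unfold ct
    unfold Complex.cot at this
    rw [this]
    congr 2
    ring
  unfold rowX
  rw [c3]
  ring

/-- one row against the own force -/
lemma int_rowS (a b : ℝ) :
    Integrable (fun s : ℝ => Pc (s - (a : ℂ)) * rowS (Complex.I * (s - (b : ℂ)))) ∧
    ∫ s : ℝ, Pc (s - (a : ℂ)) * rowS (Complex.I * (s - (b : ℂ))) =
      Complex.I * (lFp (((b - a : ℝ) : ℂ) * Complex.I) - 2 * lrh (((b - a : ℝ) : ℂ) * Complex.I)) := by
  have hl := l_pos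
  have r1 : (((a - b : ℝ) : ℂ) * Complex.I).re = 0 := by simp
  have r2 : (((b - a : ℝ) : ℂ) * Complex.I).re = 0 := by simp
  obtain ⟨p1, p2⟩ := int_pos (f := ct) (c := l) a b
    (T_sum (w := ((a - b : ℝ) : ℂ) * Complex.I) (by rw [r1]; linarith) (by rw [r1]; linarith)).1
  obtain ⟨q1, q2⟩ := int_neg' (f := ct) (c := l) a b
    (T_sum (w := ((b - a : ℝ) : ℂ) * Complex.I) (by rw [r2]; linarith) (by rw [r2]; linarith)).1
  have t1 := T1_eq (w := ((a - b : ℝ) : ℂ) * Complex.I) (by rw [r1]; linarith) (by rw [r1]; linarith)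
  have t2 := T1_eq (w := ((b - a : ℝ) : ℂ) * Complex.I) (by rw [r2]; linarith) (by rw [r2]; linarith)
  unfold T1 at t1 t2
  rw [t1] at p2
  rw [t2] at q2
  have e : ∀ s : ℝ, Pc (s - (a : ℂ)) * rowS (Complex.I * (s - (b : ℂ))) =
      -Complex.I * (Pc (s - (a : ℂ)) * ct (l + Complex.I * (s - (b : ℂ)))) +
        Complex.I * (Pc (s - (a : ℂ)) * ct (l - Complex.I * (s - (b : ℂ)))) := by
    intro s
    rw [rowS_ctN]
    ring
  simp only [e]
  refine ⟨(p1.const_mul _).add (q1.const_mul _), ?_⟩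
  rw [integral_add (p1.const_mul _) (q1.const_mul _), integral_const_mul, integral_const_mul, p2, q2,
    lFp_lLp]
  have e2 : -(((b - a : ℝ) : ℂ) * Complex.I) = ((a - b : ℝ) : ℂ) * Complex.I := by
    push_cast
    ring
  rw [e2, ← e2, lrh_odd]
  ring

/-- one row against the cross force -/
lemma int_rowX (a b : ℝ) :
    Integrable (fun s : ℝ => Pc (s - (a : ℂ)) * rowX (Complex.I * (s - (b : ℂ)))) ∧
    ∫ s : ℝ, Pc (s - (a : ℂ)) * rowX (Complex.I * (s - (b : ℂ))) =
      -(Complex.I * (2 * lrh (((b - a : ℝ) : ℂ) * Complex.I))) := by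
  have hl := l_pos
  have r1 : (((a - b : ℝ) : ℂ) * Complex.I).re = 0 := by simp
  obtain ⟨p1, p2⟩ := int_pos (f := ct) (c := 4 * l) a b
    (T_sum (w := ((a - b : ℝ) : ℂ) * Complex.I) (by rw [r1]; linarith) (by rw [r1]; linarith)).2.1
  have t1 := T4_eq (w := ((a - b : ℝ) : ℂ) * Complex.I) (by rw [r1]; linarith) (by rw [r1]; linarith)
  unfold T4 at t1
  rw [t1] at p2
  have e : ∀ s : ℝ, Pc (s - (a : ℂ)) * rowX (Complex.I * (s - (b : ℂ))) =
      (2 * Complex.I) * (Pc (s - (a : ℂ)) * ct (4 * l + Complex.I * (s - (b : ℂ)))) := by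
    intro s
    rw [rowX_ctN]
    ring
  simp only [e]
  refine ⟨p1.const_mul _, ?_⟩
  rw [integral_const_mul, p2]
  have e2 : ((a - b : ℝ) : ℂ) * Complex.I = -(((b - a : ℝ) : ℂ) * Complex.I) := by
    push_cast
    ring
  rw [e2, lrh_odd]
  ring

variable {m : ℕ} {x : Fin m → ℂ}

lemma hr_sub_eq {u v : ℂ} (hu : u.re = 0) (hv : v.re = 0) :
    (((v.im - u.im : ℝ) : ℂ)) * Complex.I = v - u := by
  conv_rhs => rw [im_eq hu, im_eq hv]
  push_cast
  ring

/-- **the own force of a row against the sea of the rows** -/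
theorem int_own (i0 : Fin m) (hx : ∀ i, (x i).re = 0) :
    Integrable (fun s : ℝ => ro x s * rowS (Complex.I * (s - hr (x i0)))) ∧
    ∫ s : ℝ, ro x s * rowS (Complex.I * (s - hr (x i0))) =
      Complex.I * ∑ i, (lFp (x i0 - x i) - 2 * lrh (x i0 - x i)) := by
  have h1 : ∀ i, Integrable (fun s : ℝ => Pc (s - hr (x i)) * rowS (Complex.I * (s - hr (x i0)))) ∧
      ∫ s : ℝ, Pc (s - hr (x i)) * rowS (Complex.I * (s - hr (x i0))) =
        Complex.I * (lFp (x i0 - x i) - 2 * lrh (x i0 - x i)) := by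
    intro i
    have h := int_rowS (x i).im (x i0).im
    rw [hr_sub_eq (hx i) (hx i0)] at h
    rw [hr_real (hx i), hr_real (hx i0)]
    exact h
  unfold ro
  simp only [Finset.sum_mul]
  refine ⟨integrable_finsetSum _ fun i _ => (h1 i).1, ?_⟩
  rw [integral_finsetSum _ fun i _ => (h1 i).1, Finset.mul_sum]
  exact Finset.sum_congr rfl fun i _ => (h1 i).2

/-- **the cross force of a row against the sea of the rows** -/
theorem int_cross (i0 : Fin m) (hx : ∀ i, (x i).re = 0) :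
    Integrable (fun s : ℝ => ro x s * rowX (Complex.I * (s - hr (x i0)))) ∧
    ∫ s : ℝ, ro x s * rowX (Complex.I * (s - hr (x i0))) =
      -(Complex.I * ∑ i, 2 * lrh (x i0 - x i)) := by
  have h1 : ∀ i, Integrable (fun s : ℝ => Pc (s - hr (x i)) * rowX (Complex.I * (s - hr (x i0)))) ∧
      ∫ s : ℝ, Pc (s - hr (x i)) * rowX (Complex.I * (s - hr (x i0))) =
        -(Complex.I * (2 * lrh (x i0 - x i))) := by
    intro i
    have h := int_rowX (x i).im (x i0).im
    rw [hr_sub_eq (hx i) (hx i0)] at h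
    rw [hr_real (hx i), hr_real (hx i0)]
    exact h
  unfold ro
  simp only [Finset.sum_mul]
  refine ⟨integrable_finsetSum _ fun i _ => (h1 i).1, ?_⟩
  rw [integral_finsetSum _ fun i _ => (h1 i).1, Finset.mul_sum, ← Finset.sum_neg_distrib]
  exact Finset.sum_congr rfl fun i _ => (h1 i).2

/-! ### the prefactor, arbitrary lists -/

/-- sums over all ordered pairs -/
lemma pairs_all2 {g : ℂ → ℂ} (hg : ∀ w, g (-w) = -g w) (x u : Fin m → ℂ) :
    ∑ a, ∑ b, g (x a - x b) * (u a - u b) = 2 * ∑ a, u a * ∑ b, g (x a - x b) := by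
  have h1 : ∑ a, ∑ b, g (x a - x b) * u a = ∑ a, u a * ∑ b, g (x a - x b) := by
    refine Finset.sum_congr rfl fun a _ => ?_
    rw [Finset.mul_sum]
    exact Finset.sum_congr rfl fun b _ => mul_comm _ _
  have h2 : ∑ a, ∑ b, g (x a - x b) * u b = -∑ a, u a * ∑ b, g (x a - x b) := by
    rw [Finset.sum_comm, ← h1, ← Finset.sum_neg_distrib]
    refine Finset.sum_congr rfl fun a _ => ?_
    rw [← Finset.sum_neg_distrib]
    refine Finset.sum_congr rfl fun b _ => ?_
    rw [show x b - x a = -(x a - x b) by ring, hg]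
    ring
  have h3 : ∀ a b, g (x a - x b) * (u a - u b) = g (x a - x b) * u a - g (x a - x b) * u b :=
    fun a b => by ring
  simp only [h3, Finset.sum_sub_distrib]
  rw [h1, h2]
  ring

/-- sums over the pairs `a < b` -/
lemma pairs_lt2 {g : ℂ → ℂ} (hg : ∀ w, g (-w) = -g w) (x u : Fin m → ℂ) :
    ∑ a, ∑ b, (if a < b then g (x a - x b) * (u a - u b) else 0) =
      ∑ a, u a * ∑ b, g (x a - x b) := by
  have h0 := pairs_all2 hg x u
  set s : Fin m → Fin m → ℂ := fun a b => g (x a - x b) * (u a - u b) with hs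
  have hsym : ∀ a b, s a b = s b a := by
    intro a b
    simp only [hs]
    rw [show x b - x a = -(x a - x b) by ring, hg]
    ring
  have h1 : ∑ a, ∑ b, s a b = ∑ a, ∑ b, (if a < b then s a b else 0) +
      ∑ a, ∑ b, (if b < a then s a b else 0) := by
    rw [← Finset.sum_add_distrib]
    refine Finset.sum_congr rfl fun a _ => ?_
    rw [← Finset.sum_add_distrib]
    refine Finset.sum_congr rfl fun b _ => ?_
    rcases lt_trichotomy a b with h | h | h
    · rw [if_pos h, if_neg h.not_gt, add_zero]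
    · subst h
      simp [hs]
    · rw [if_neg h.not_gt, if_pos h, zero_add]
  have h2 : ∑ a, ∑ b, (if b < a then s a b else 0) = ∑ a, ∑ b, (if a < b then s a b else 0) := by
    rw [Finset.sum_comm]
    refine Finset.sum_congr rfl fun a _ => Finset.sum_congr rfl fun b _ => ?_
    by_cases h : a < b
    · rw [if_pos h, if_pos h, hsym]
    · rw [if_neg h, if_neg h]
  change ∑ a, ∑ b, s a b = _ at h0
  change ∑ a, ∑ b, (if a < b then s a b else 0) = _
  rw [h1, h2] at h0
  linear_combination h0 / 2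

/-- logarithmic derivative of a two body product -/
lemma LD.pairs2 {F g : ℂ → ℂ} {y : ℝ → Fin m → ℂ} {t : ℝ} {u : Fin m → ℂ}
    (hy : ∀ i, HasDerivAt (fun η => y η i) (u i) t) (hg : ∀ w, g (-w) = -g w)
    (hF : ∀ i j, HasDerivAt F (F (y t i - y t j) * g (y t i - y t j)) (y t i - y t j)) :
    LD (fun η => NUP1.Grand.P fun i j => F (y η i - y η j))
      (∑ a, u a * ∑ b, g (y t a - y t b)) t := by
  rw [← pairs_lt2 hg (y t) u]
  unfold NUP1.Grand.P
  refine LD.prod _ fun a _ => LD.prod _ fun b _ => ?_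
  by_cases h : a < b
  · simp only [if_pos h]
    exact LD.comp (F := F) (X := fun η => y η a - y η b) (hF a b) ((hy a).sub (hy b))
  · simp only [if_neg h]
    exact LD.const 1 t

/-- pairs of two groups -/
lemma LD.cross2 {M : ℕ} {F g : ℂ → ℂ} {x : ℝ → Fin m → ℂ} {y : ℝ → Fin M → ℂ} {t : ℝ}
    {u : Fin m → ℂ} {v : Fin M → ℂ} (hx : ∀ i, HasDerivAt (fun η => x η i) (u i) t)
    (hy : ∀ j, HasDerivAt (fun η => y η j) (v j) t)
    (hF : ∀ i j, HasDerivAt F (F (x t i - y t j) * g (x t i - y t j)) (x t i - y t j)) :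
    LD (fun η => ∏ i, ∏ j, F (x η i - y η j))
      (∑ i, ∑ j, g (x t i - y t j) * (u i - v j)) t := by
  refine LD.prod _ fun a _ => LD.prod _ fun b _ => ?_
  exact LD.comp (F := F) (X := fun η => x η a - y η b) (hF a b) ((hx a).sub (hy b))

/-- one body products -/
lemma LD.ones2 {F g : ℂ → ℂ} {y : ℝ → Fin m → ℂ} {t : ℝ} {u : Fin m → ℂ} (z : ℂ)
    (hy : ∀ i, HasDerivAt (fun η => y η i) (u i) t)
    (hF : ∀ i, HasDerivAt F (F (z - y t i) * g (z - y t i)) (z - y t i)) :
    LD (fun η => ∏ i, F (z - y η i)) (-∑ i, u i * g (z - y t i)) t := by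
  have h := LD.prod (Finset.univ : Finset (Fin m)) (f := fun i η => F (z - y η i))
    (a := fun i => g (z - y t i) * -u i) (t := t) fun i _ =>
      LD.comp (F := F) (X := fun η => z - y η i) (hF i) ((hy i).const_sub z)
  have e : ∑ i, g (z - y t i) * -u i = -∑ i, u i * g (z - y t i) := by
    rw [← Finset.sum_neg_distrib]
    exact Finset.sum_congr rfl fun i _ => by ring
  rwa [e] at h

/-- logarithmic derivative of the empty rows of a group, divided by its bulk factors -/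
def eS (z : ℂ) (x u : Fin m → ℂ) : ℂ :=
  (∑ a, u a * ∑ b, (lFp (x a - x b) - 2 * lrh (x a - x b))) - ∑ i, u i * dTT (z - x i)

/-- logarithmic derivative of the bulk factors of the two groups -/
def eX {M : ℕ} (x u : Fin m → ℂ) (y v : Fin M → ℂ) : ℂ :=
  ∑ i, ∑ j, 2 * lrh (x i - y j) * (u i - v j)

/-- one group -/
lemma LD_group {y : ℝ → Fin m → ℂ} {t : ℝ} {z : ℂ} {u : Fin m → ℂ}
    (hy : ∀ i, HasDerivAt (fun η => y η i) (u i) t) (hx : ∀ i, (y t i).re = 0)
    (h0 : -l < z.re) (h1 : z.re < 4 * l) :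
    LD (fun η => Nu z (y η) / D1 z (y η)) (eS z (y t) u) t ∧ D1 z (y t) ≠ 0 := by
  have hl := l_pos
  have hre : ∀ i j, (y t i - y t j).re = 0 := fun i j => by simp [hx]
  have hrz : ∀ i, (z - y t i).re = z.re := fun i => by simp [hx]
  have hz5 : ∀ i, |(z - y t i).re| < 5 * l := fun i => by
    rw [hrz, abs_lt]
    constructor <;> linarith
  have h5 : ∀ i j, |(y t i - y t j).re| < 5 * l := fun i j => by
    rw [hre, abs_zero]
    linarith
  have nu : LD (fun η => Nu z (y η)) ((0 + -∑ i, u i * lLp (z - y t i)) +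
      ∑ a, u a * ∑ b, lFp (y t a - y t b)) t := by
    have a1 := LD.ones2 (F := fun v : ℂ => Complex.sin (v + 2 * l) * Complex.sin (v + 3 * l))
      (g := lLp) z hy fun i => hasDerivAt_Lpf (by rw [hrz]; exact h0) (by rw [hrz]; exact h1)
    have a2 := LD.pairs2 (F := Fp) (g := lFp) hy lFp_odd fun i j => hasDerivAt_Fp (hre i j)
    have a3 := ((LD.const ((Complex.sin (l : ℂ)) ^ m) t).mul a1).mul a2
    have e : (fun η => Nu z (y η)) = fun η => (Complex.sin (l : ℂ)) ^ m *
        (∏ i, (Complex.sin (z - y η i + 2 * l) * Complex.sin (z - y η i + 3 * l))) *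
        NUP1.Grand.P fun i j => Fp (y η i - y η j) := by
      funext η
      unfold Nu Pool.Agent.PB.Lp
      rw [Finset.prod_mul_distrib, Finset.prod_const, Finset.card_univ, Fintype.card_fin]
      rfl
    rw [e]
    exact a3
  have d1 : LD (fun η => D1 z (y η)) ((∑ a, u a * ∑ b, 2 * lrh (y t a - y t b)) +
      -∑ i, u i * (2 * lrh (z - y t i))) t := by
    have a1 := LD.ones2 (F := fun v => PBR.rh v ^ 2) (g := fun v => 2 * lrh v) z hy
      fun i => hasDerivAt_rh2 (hz5 i)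
    have a2 := LD.pairs2 (F := fun v => PBR.rh v ^ 2) (g := fun v => 2 * lrh v) hy
      (fun w => by rw [lrh_odd]; ring) fun i j => hasDerivAt_rh2 (h5 i j)
    exact a2.mul a1
  have nD1 : D1 z (y t) ≠ 0 := by
    unfold D1 NUP1.Grand.P
    refine mul_ne_zero (Finset.prod_ne_zero_iff.2 fun a _ => Finset.prod_ne_zero_iff.2
      fun b _ => ?_) (Finset.prod_ne_zero_iff.2 fun a _ => pow_ne_zero _
        (PBR.rh_ne_zero (hz5 a)))
    split_ifs
    · exact pow_ne_zero _ (PBR.rh_ne_zero (h5 a b))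
    · exact one_ne_zero
  refine ⟨?_, nD1⟩
  have key := nu.div d1 nD1
  have ez : ∀ i, dTT (z - y t i) = lLp (z - y t i) - 2 * lrh (z - y t i) := fun i => by
    rw [dTT_eq (by rw [hrz]; exact h0) (by rw [hrz]; exact h1)]
    rfl
  have e : (0 + -∑ i, u i * lLp (z - y t i)) + (∑ a, u a * ∑ b, lFp (y t a - y t b)) -
      ((∑ a, u a * ∑ b, 2 * lrh (y t a - y t b)) + -∑ i, u i * (2 * lrh (z - y t i))) =
      eS z (y t) u := by
    unfold eS
    simp only [ez, Finset.sum_sub_distrib, mul_sub]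
    ring
  rw [e] at key
  exact key

/-- **the derivative of the prefactor**, arbitrary lists and velocities -/
theorem LD_Pf {M : ℕ} {x : ℝ → Fin m → ℂ} {y : ℝ → Fin M → ℂ} {t : ℝ} {z : ℂ} {u : Fin m → ℂ}
    {v : Fin M → ℂ} (hx : ∀ i, HasDerivAt (fun η => x η i) (u i) t)
    (hy : ∀ j, HasDerivAt (fun η => y η j) (v j) t) (rx : ∀ i, (x t i).re = 0)
    (ry : ∀ j, (y t j).re = 0) (h0 : -l < z.re) (h1 : z.re < 4 * l) :
    LD (fun η => Pf z (x η) (y η)) (eS z (x t) u + eS z (y t) v - eX (x t) u (y t) v) t := by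
  have hl := l_pos
  obtain ⟨a1, -⟩ := LD_group hx rx h0 h1
  obtain ⟨b1, -⟩ := LD_group hy ry h0 h1
  have h5 : ∀ i j, |(x t i - y t j).re| < 5 * l := fun i j => by
    rw [Complex.sub_re, rx, ry, sub_zero, abs_zero]
    linarith
  have d2 : LD (fun η => D2 (x η) (y η)) (eX (x t) u (y t) v) t :=
    LD.cross2 (F := fun v => PBR.rh v ^ 2) (g := fun v => 2 * lrh v) hx hy
      fun i j => hasDerivAt_rh2 (h5 i j)
  have nD2 : D2 (x t) (y t) ≠ 0 := by
    unfold D2
    exact Finset.prod_ne_zero_iff.2 fun a _ => Finset.prod_ne_zero_iff.2 fun b _ =>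
      pow_ne_zero _ (PBR.rh_ne_zero (h5 a b))
  have key := (((LD.const ((3 / 2 : ℂ) ^ (m + M + 1) * Complex.sin (l : ℂ) / PBR.rh 0) t).mul
    a1).mul b1).div d2 nD2
  have e : (fun η => Pf z (x η) (y η)) = fun η =>
      (3 / 2 : ℂ) ^ (m + M + 1) * Complex.sin (l : ℂ) / PBR.rh 0 * (Nu z (x η) / D1 z (x η)) *
        (Nu z (y η) / D1 z (y η)) / D2 (x η) (y η) := by
    funext η
    change (3 / 2 : ℂ) ^ (m + M + 1) * Complex.sin (l : ℂ) * (Nu z (x η) * Nu z (y η)) /
      (D1 z (x η) * D1 z (y η) * D2 (x η) (y η) * PBR.rh 0) = _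
    simp only [div_eq_mul_inv, mul_inv]
    ring
  rw [e]
  have e2 : 0 + eS z (x t) u + eS z (y t) v - eX (x t) u (y t) v =
      eS z (x t) u + eS z (y t) v - eX (x t) u (y t) v := by ring
  rw [← e2]
  exact key

/-! ### every row of species Y is a `q`-fold row -/

section fil

open PLX (Fil)
open Pool.Agent.PLX (yq yqn_comp sum_yqn' sum_yqn_complex)

variable [Fil]

lemma sum_yq_two {α : Type*} (f : α → ℂ → ℂ) (x : Fin m → α) (u : Fin m → ℂ) :
    ∑ j, f (yq x j) (yq u j) = (Fil.q : ℂ) * ∑ i, f (x i) (u i) := by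
  have h := sum_yqn' Fil.q fun i => f (x i) (u i)
  rw [nsmul_eq_mul] at h
  exact h

lemma sum_yq_one {α : Type*} (f : α → ℂ) (x : Fin m → α) :
    ∑ j, f (yq x j) = (Fil.q : ℂ) * ∑ i, f (x i) := sum_yqn_complex _ f x

/-- sum of the own energies of the moved row -/
def gS (x : Fin m → ℂ) (i0 : Fin m) : ℂ :=
  Complex.I * ∑ i, (lFp (x i0 - x i) - 2 * lrh (x i0 - x i))

/-- sum of the cross energies of the moved row -/
def gX (x : Fin m → ℂ) (i0 : Fin m) : ℂ := Complex.I * ∑ i, 2 * lrh (x i0 - x i)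

lemma sum_vv' (i0 : Fin m) (f : Fin m → ℂ) : ∑ i, vv i0 i * f i = Complex.I * f i0 := by
  rw [← sum_vv i0 f]
  exact Finset.sum_congr rfl fun i _ => mul_comm _ _

lemma eS_vv (z : ℂ) (x : Fin m → ℂ) (i0 : Fin m) :
    eS z x (vv i0) = gS x i0 - Complex.I * dTT (z - x i0) := by
  unfold eS gS
  rw [sum_vv' i0 fun a => ∑ b, (lFp (x a - x b) - 2 * lrh (x a - x b)),
    sum_vv' i0 fun i => dTT (z - x i)]

lemma eS_yq (z : ℂ) (x : Fin m → ℂ) (i0 : Fin m) :
    eS z (yq x) (yq (vv i0)) = (Fil.q : ℂ) * ((Fil.q : ℂ) * gS x i0 - Complex.I * dTT (z - x i0)) := by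
  have h1 : ∀ a : ℂ, ∑ b, (lFp (a - yq x b) - 2 * lrh (a - yq x b)) =
      (Fil.q : ℂ) * ∑ i, (lFp (a - x i) - 2 * lrh (a - x i)) := fun a =>
    sum_yq_one (fun w => lFp (a - w) - 2 * lrh (a - w)) x
  unfold eS
  simp only [h1]
  rw [sum_yq_two (fun a v => v * ((Fil.q : ℂ) * ∑ i, (lFp (a - x i) - 2 * lrh (a - x i)))) x (vv i0),
    sum_yq_two (fun a v => v * dTT (z - a)) x (vv i0),
    sum_vv' i0 fun a => (Fil.q : ℂ) * ∑ i, (lFp (x a - x i) - 2 * lrh (x a - x i)),
    sum_vv' i0 fun i => dTT (z - x i)]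
  unfold gS
  ring

lemma eX_yq (x : Fin m → ℂ) (i0 : Fin m) :
    eX x (vv i0) (yq x) (yq (vv i0)) = (Fil.q : ℂ) * (2 * gX x i0) := by
  have h1 : ∀ a v : ℂ, ∑ j, 2 * lrh (a - yq x j) * (v - yq (vv i0) j) =
      (Fil.q : ℂ) * ∑ i, 2 * lrh (a - x i) * (v - vv i0 i) := fun a v =>
    sum_yq_two (fun w u => 2 * lrh (a - w) * (v - u)) x (vv i0)
  unfold eX
  simp only [h1]
  rw [← Finset.mul_sum]
  congr 1
  have h2 := pairs_all2 (g := fun v => 2 * lrh v) (fun w => by
    rw [lrh_odd]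
    ring) x (vv i0)
  rw [h2, sum_vv' i0 fun a => ∑ b, 2 * lrh (x a - x b)]
  rfl

/-- **the derivative of the prefactor in the height of a row**, both groups -/
theorem LD_Pfq {y : ℝ → Fin m → ℂ} {t : ℝ} {z : ℂ} (i0 : Fin m)
    (hy : ∀ i, HasDerivAt (fun η => y η i) (vv i0 i) t) (hx : ∀ i, (y t i).re = 0)
    (h0 : -l < z.re) (h1 : z.re < 4 * l) :
    LD (fun η => Pf z (y η) (yq (y η)))
      ((1 + (Fil.q : ℂ) ^ 2) * gS (y t) i0 - 2 * (Fil.q : ℂ) * gX (y t) i0 -
        (1 + (Fil.q : ℂ)) * (Complex.I * dTT (z - y t i0))) t := by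
  have h := LD_Pf (x := y) (y := fun η => yq (y η)) (u := vv i0) (v := yq (vv i0)) (z := z) hy
    (fun j => hy _) hx (fun j => hx _) h0 h1
  rw [eS_vv, eS_yq, eX_yq] at h
  have e : gS (y t) i0 - Complex.I * dTT (z - y t i0) +
      (Fil.q : ℂ) * ((Fil.q : ℂ) * gS (y t) i0 - Complex.I * dTT (z - y t i0)) -
      (Fil.q : ℂ) * (2 * gX (y t) i0) =
      (1 + (Fil.q : ℂ) ^ 2) * gS (y t) i0 - 2 * (Fil.q : ℂ) * gX (y t) i0 -
        (1 + (Fil.q : ℂ)) * (Complex.I * dTT (z - y t i0)) := by ring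
  rw [e] at h
  exact h

/-! ### the constants of the first Ward identity -/

lemma int_vc (i0 : Fin m) (hx : ∀ i, (x i).re = 0) :
    ∫ s : ℝ, ro x s * deriv vc (s - hr (x i0)) = gS x i0 - gX x i0 := by
  have hl := l_pos
  obtain ⟨a1, a2⟩ := int_own i0 hx
  obtain ⟨b1, b2⟩ := int_cross i0 hx
  have e : ∀ s : ℝ, ro x s * deriv vc (s - hr (x i0)) =
      ro x s * rowS (Complex.I * (s - hr (x i0))) + ro x s * rowX (Complex.I * (s - hr (x i0))) := by
    intro s
    rw [← rowD_I (w := (s : ℂ) - hr (x i0)) (by rw [hr_real (hx i0)]; simpa using hl), rowD_split]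
    ring
  simp only [e]
  rw [integral_add a1 b1, a2, b2]
  unfold gS gX
  ring

lemma int_frX1 (i0 : Fin m) (hx : ∀ i, (x i).re = 0) :
    ∫ s : ℝ, ro x s * frX1 x i0 s = -gX x i0 := by
  obtain ⟨b1, b2⟩ := int_cross i0 hx
  have e : ∀ s : ℝ, ro x s * frX1 x i0 s = ro x s * rowX (Complex.I * (s - hr (x i0))) := by
    intro s
    congr 1
    show rowX (NUP1.vl NUP1.l s - NUP1.l - x i0) = _
    congr 1
    rw [← line_eq s (x i0)]
    rfl
  simp only [e]
  rw [b2]
  rfl

/-- **the constant of the rows** -/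
theorem C02_eq' (i0 : Fin m) (hx : ∀ i, (x i).re = 0) :
    C02 x i0 = -((1 + (Fil.q : ℂ) ^ 2) * gS x i0) + 2 * (Fil.q : ℂ) * gX x i0 := by
  rw [C02_line hx, int_vc i0 hx, int_frX1 i0 hx, Fil.b_true, Fil.b_false]
  push_cast
  ring

/-- the constant of the leg -/
def C1v2 (z : ℂ) (x : Fin m → ℂ) (i0 : Fin m) : ℂ :=
  ∑ b : K4, ∫ s, rhK2 x b s * (xiK x i0 b (NUP1.vl NUP1.l s) * lamK z b (NUP1.vl NUP1.l s))

/-- **the constant of the leg** -/
theorem C1v2_eq {z : ℂ} (i0 : Fin m) (hx : ∀ i, (x i).re = 0) :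
    C1v2 z x i0 = (1 + (Fil.q : ℂ)) * (Complex.I * dTT (z - x i0)) := by
  have hl := l_pos
  unfold C1v2
  rw [sum_K4 (f := fun b : K4 => ∫ s, rhK2 x b s * (xiK x i0 b (NUP1.vl NUP1.l s) *
    lamK z b (NUP1.vl NUP1.l s))) (fun s k => by simp [rhK2_some]) true]
  have e : ∀ σ : Bool, ∫ s, rhK2 x (σ, none) s * (xiK x i0 (σ, none) (NUP1.vl NUP1.l s) *
      lamK z (σ, none) (NUP1.vl NUP1.l s)) = (Fil.b σ : ℂ) * (Complex.I * dTT (z - x i0)) := by
    intro σ
    have e1 : ∀ s : ℝ, rhK2 x (σ, none) s * (xiK x i0 (σ, none) (NUP1.vl NUP1.l s) *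
        lamK z (σ, none) (NUP1.vl NUP1.l s)) =
        (fun s : ℝ => (Fil.b σ : ℂ) * (Complex.I * (Pc s *
          fSd (z - x i0 + l - s * Complex.I)))) (s - (x i0).im) := by
      intro s
      change (Fil.b σ : ℂ) * rhoR x (l + s * Complex.I) * (xiR x i0 (l + s * Complex.I) *
        lamL z (l + s * Complex.I)) = _
      rw [rhoR_line (fun i => by rw [hx i, abs_zero]; exact hl),
        xiR_line i0 (fun i => by rw [hx i, abs_zero]; exact hl), hr_real (hx i0)]
      have hne := ro_ne i0 hx s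
      unfold lamL
      have e3 : z + 2 * (l : ℂ) - (l + s * Complex.I) =
          z - x i0 + l - ((s - (x i0).im : ℝ) : ℂ) * Complex.I := by
        conv_rhs => rw [im_eq (hx i0)]
        push_cast
        ring_nf
        simp
      have e4 : (((s - (x i0).im : ℝ) : ℂ)) = s - ((x i0).im : ℂ) := by push_cast; ring
      rw [e3, ← e4]
      beta_reduce
      generalize ((s - (x i0).im : ℝ) : ℂ) = q
      generalize fSd (z - x i0 + l - q * Complex.I) = F
      field_simp
    simp only [e1]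
    rw [integral_sub_right_eq_self
      (fun s : ℝ => (Fil.b σ : ℂ) * (Complex.I * (Pc s * fSd (z - x i0 + l - s * Complex.I))))
        (x i0).im, integral_const_mul, integral_const_mul]
    rfl
  rw [e, e]
  simp only [Bool.not_true, Fil.b_true, Fil.b_false]
  push_cast
  ring

/-- **(Num)**: the derivative of the prefactor in the height of a row, every row of species Y
`q`-fold -/
theorem Num2 {y : ℝ → Fin m → ℂ} {t : ℝ} {z : ℂ} (i0 : Fin m)
    (hy : ∀ i, HasDerivAt (fun η => y η i) (vv i0 i) t) (hx : ∀ i, (y t i).re = 0)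
    (h0 : -l < z.re) (h1 : z.re < 4 * l) :
    HasDerivAt (fun η => Pf z (y η) (yq (y η)))
      (-(Pf z (y t) (yq (y t)) * (C02 (y t) i0 + C1v2 z (y t) i0))) t := by
  have h := LD_Pfq (z := z) i0 hy hx h0 h1
  unfold LD at h
  refine h.congr_deriv ?_
  rw [C02_eq' i0 hx, C1v2_eq i0 hx]
  ring

end fil

/-! ### the landed case `q = 1` -/

section one

open PLX (Fil)

attribute [local instance] Fil.one

/-- for `q = 1` the constants are the landed ones -/
example (x : Fin m → ℂ) (i0 : Fin m) (hx : ∀ i, (x i).re = 0) : C02 x i0 = C0 x i0 := by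
  rw [C02_eq' i0 hx]
  have h := C0_line (i0 := i0) hx
  rw [int_vc i0 hx] at h
  rw [h]
  have e : (Fil.q : ℂ) = 1 := by
    show ((1 : ℕ) : ℂ) = 1
    exact Nat.cast_one
  rw [e]
  ring

end one

end PBQ1

end
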