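import Pool.Agent.RX.Ann
import Pool.Agent.PB.NzA

/-!
# Annihilation of the rows `x₀ ± 3 λ`, `x₀` in ONE group (helper52; project PLAX)

For groups of any sizes `(m, M)`:

* **`SS_ann1`**: the state sum with the rows `x₀ + 3 λ`, `x₀` in the first group is an explicit factor
  times the state sum without them (only the states `(-, +)` survive);
* **`nh_ann1`**: `nh z (x₀ + 3 λ, x₀, x) y = nh z x y`; `nh_ann1'` for `x₀ - 3 λ`;
* `nh_ann1Y`, `nh_ann1Y'`: the same in the second group.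
-/

set_option autoImplicit false
set_option linter.unusedSectionVars false
set_option linter.unusedSimpArgs false

noncomputable section

open Complex

namespace PBS

open NUP1 (l)
open NUP1.Grand (P)
open NUP1.Mu (P_cons P_congr P_mul)
open PBR (rh r2 rh_mul rh_mul' rh_neg rh_ne_zero rh_three)

/-- a term vanishes unless the new rows are in the states `-`, `+` -/
theorem tm_ann1_zero (z x0 : ℂ) {m M : ℕ} (x : Fin m → ℂ) (y : Fin M → ℂ) (c c' : SignType)
    (a : Fin m → SignType) (b : Fin M → SignType) (h : c ≠ .neg ∨ c' ≠ .pos) :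
    tm z (an x0 x) y (sa c c' a) b = 0 := by
  unfold tm
  rw [P_an, fw_three c c' h]
  simp

/-- the factor of the annihilation in one group -/
def CA1 (z x0 : ℂ) {m M : ℕ} (x : Fin m → ℂ) (y : Fin M → ℂ) : ℂ :=
  sin l ^ 2 * (sin (2 * l + (z - x0)) * sin (3 * l + (z - x0))) ^ 2 *
    ((∏ i, Kw (x0 - x i) ^ 2) * ∏ j, Kw (x0 - y j) ^ 2)

theorem tm_ann1 {m M : ℕ} {z x0 : ℂ} {x : Fin m → ℂ} {y : Fin M → ℂ}
    (hx : ∀ i, sin (x0 - x i) ≠ 0 ∧ sin (x0 - x i + l) ≠ 0 ∧ sin (x0 - x i + 2 * l) ≠ 0 ∧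
      sin (x0 - x i + 3 * l) ≠ 0) (a : Fin m → SignType) (b : Fin M → SignType) :
    tm z (an x0 x) y (sa .neg .pos a) b = CA1 z x0 x y * tm z x y a b := by
  unfold tm
  rw [P_an, prod_an x0 x .neg .pos a (fun s u => ww s * Lw s (z - u)), fw_np]
  have hgg : ∏ i, ∏ j, gw (sa .neg .pos a i) (b j) (an x0 x i - y j) =
      (∏ j, gw .neg (b j) (x0 + 3 * l - y j)) * ((∏ j, gw .pos (b j) (x0 - y j)) *
      ∏ i, ∏ j, gw (a i) (b j) (x i - y j)) := by
    rw [prod_an x0 x .neg .pos a (fun s u => ∏ j, gw s (b j) (u - y j))]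
  rw [hgg]
  have eX : (∏ j, fw .neg (a j) (x0 + 3 * l - x j)) * (∏ j, fw .pos (a j) (x0 - x j)) =
      ∏ i, Kw (x0 - x i) ^ 2 := by
    rw [← Finset.prod_mul_distrib]
    refine Finset.prod_congr rfl fun i _ => ?_
    rw [show x0 + 3 * (l : ℂ) - x i = x0 - x i + 3 * l by ring]
    exact ann_own (a i) (hx i).1 (hx i).2.1 (hx i).2.2.1 (hx i).2.2.2
  have eY : (∏ j, gw .neg (b j) (x0 + 3 * l - y j)) * (∏ j, gw .pos (b j) (x0 - y j)) =
      ∏ j, Kw (x0 - y j) ^ 2 := by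
    rw [← Finset.prod_mul_distrib]
    refine Finset.prod_congr rfl fun i _ => ?_
    rw [show x0 + 3 * (l : ℂ) - y i = x0 - y i + 3 * l by ring]
    exact ann_cross (b i) (x0 - y i)
  have eL : ww .neg * Lw .neg (z - (x0 + 3 * l)) * (ww .pos * Lw .pos (z - x0)) =
      sin l ^ 2 * (sin (2 * l + (z - x0)) * sin (3 * l + (z - x0))) ^ 2 := by
    rw [show z - (x0 + 3 * (l : ℂ)) = z - x0 - 3 * l by ring, ← ann_leg]
    show sin (l : ℂ) * Lw .neg (z - x0 - 3 * l) * (sin (l : ℂ) * Lw .pos (z - x0)) = _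
    ring
  unfold CA1
  rw [← eX, ← eY]
  generalize (∏ j, fw .neg (a j) (x0 + 3 * l - x j)) = A1 at *
  generalize (∏ j, fw .pos (a j) (x0 - x j)) = A2 at *
  generalize (∏ j, gw .neg (b j) (x0 + 3 * l - y j)) = B1 at *
  generalize (∏ j, gw .pos (b j) (x0 - y j)) = B2 at *
  generalize (∏ i, ww (a i) * Lw (a i) (z - x i)) = D1 at *
  generalize (∏ i, ww (b i) * Lw (b i) (z - y i)) = D2 at *
  generalize (P fun i j => fw (a i) (a j) (x i - x j)) = P1 at *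
  generalize (P fun i j => fw (b i) (b j) (y i - y j)) = P2 at *
  generalize (∏ i, ∏ j, gw (a i) (b j) (x i - y j)) = GG at *
  generalize ww .neg * Lw .neg (z - (x0 + 3 * l)) = L1 at *
  generalize ww .pos * Lw .pos (z - x0) = L2 at *
  linear_combination (A1 * A2 * (B1 * B2) * D1 * D2 * P1 * P2 * GG) * eL

/-- **annihilation in one group**: the state sum -/
theorem SS_ann1 {m M : ℕ} {z x0 : ℂ} {x : Fin m → ℂ} {y : Fin M → ℂ}
    (hx : ∀ i, sin (x0 - x i) ≠ 0 ∧ sin (x0 - x i + l) ≠ 0 ∧ sin (x0 - x i + 2 * l) ≠ 0 ∧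
      sin (x0 - x i + 3 * l) ≠ 0) :
    SS z (an x0 x) y = CA1 z x0 x y * SS z x y := by
  unfold SS
  rw [mul_left_comm]
  congr 1
  rw [Finset.mul_sum, sum_cons, Finset.sum_eq_single_of_mem (SignType.neg) (Finset.mem_univ _), sum_cons,
    Finset.sum_eq_single_of_mem (SignType.pos) (Finset.mem_univ _)]
  · refine Finset.sum_congr rfl fun a _ => ?_
    rw [Finset.mul_sum]
    refine Finset.sum_congr rfl fun b _ => ?_
    have hs : ∑ i, ((sa .neg .pos a i : SignType) : ℤ) = ∑ i, (a i : ℤ) := by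
      unfold sa
      rw [Fin.sum_univ_succ, Fin.sum_univ_succ]
      simp only [Fin.cons_zero, Fin.cons_succ]
      have h1 : ((SignType.neg : SignType) : ℤ) = -1 := rfl
      have h2 : ((SignType.pos : SignType) : ℤ) = 1 := rfl
      rw [h1, h2]
      ring
    have e : (∑ i, ((sa .neg .pos a i : SignType) : ℤ) = ∑ j, (b j : ℤ)) ↔
        ∑ i, (a i : ℤ) = ∑ j, (b j : ℤ) := by
      rw [hs]
    have e2 : (if ∑ i, ((sa .neg .pos a i : SignType) : ℤ) = ∑ j, (b j : ℤ) then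
        tm z (an x0 x) y (sa .neg .pos a) b else 0) =
        CA1 z x0 x y * (if ∑ i, (a i : ℤ) = ∑ j, (b j : ℤ) then tm z x y a b else 0) := by
      rw [if_congr e rfl rfl, tm_ann1 hx, mul_ite, mul_zero]
    exact e2
  · intro d _ hd
    refine Finset.sum_eq_zero fun a _ => Finset.sum_eq_zero fun b _ => ?_
    have := tm_ann1_zero z x0 x y .neg d a b (Or.inr hd)
    exact if_congr Iff.rfl this rfl |>.trans (ite_self _)
  · intro d _ hd
    rw [sum_cons]
    refine Finset.sum_eq_zero fun d' _ => Finset.sum_eq_zero fun a _ => Finset.sum_eq_zero fun b _ => ?_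
    have := tm_ann1_zero z x0 x y d d' a b (Or.inl hd)
    exact if_congr Iff.rfl this rfl |>.trans (ite_self _)

/-! ## the normaliser -/

theorem const_ann1 : (2 / 3 : ℂ) ^ 2 * rh (3 * l) ^ 2 = sin l ^ 2 := by
  have h1 := Pool.Agent.PB.cosl_sq
  have h2 := Pool.Agent.PB.sinl_sq
  have h4 := PBR.r2_sq
  rw [rh_three, h2]
  have e : (2 / 3 : ℂ) ^ 2 * (3 / 2 * (r2 - 1) * cos l) ^ 2 = (r2 - 1) ^ 2 * cos l ^ 2 := by ring
  rw [e, h1]
  linear_combination (r2 / 4) * h4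

/-- the normaliser with the rows `x₀ + 3 λ`, `x₀` in the first group -/
theorem PN_ann1 {m M : ℕ} {z x0 : ℂ} {x : Fin m → ℂ} {y : Fin M → ℂ} (h0 : |x0.re| ≤ l / 2)
    (hz : |z.re| ≤ l / 2) (hx : Rw x) (hy : Rw y) :
    PN z (an x0 x) y = CA1 z x0 x y * PN z x y := by
  have hl := l_pos
  have key : ∀ u : ℂ, |u.re| ≤ l / 2 → rh (x0 - u) * rh (x0 + 3 * l - u) = Kw (x0 - u) := by
    intro u hu
    have h := rw_sub h0 hu
    have e : x0 + 3 * (l : ℂ) - u = x0 - u + 3 * l := by ring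
    rw [e, rh_mul (by linarith) (by
      have h' := abs_le.1 h
      rw [abs_lt]
      constructor <;> linarith)]
    unfold Kw
    ring
  have keyz : rh (z - x0) * rh (z - (x0 + 3 * l)) = sin (2 * l + (z - x0)) * sin (3 * l + (z - x0)) := by
    have h := rw_sub hz h0
    have e : z - (x0 + 3 * (l : ℂ)) = z - x0 - 3 * l := by ring
    rw [e, rh_mul' (by linarith) (by
      have h' := abs_le.1 h
      rw [abs_lt]
      constructor <;> linarith)]
    ring
  have hP : P (fun i j => rh (an x0 x i - an x0 x j) ^ 2) =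
      rh (3 * l) ^ 2 * (∏ j, Kw (x0 - x j) ^ 2) * P (fun i j => rh (x i - x j) ^ 2) := by
    have e : x0 + 3 * (l : ℂ) - x0 = 3 * l := by ring
    have e1 : ∏ j, Kw (x0 - x j) ^ 2 = (∏ j, rh (x0 + 3 * l - x j) ^ 2) * ∏ j, rh (x0 - x j) ^ 2 := by
      rw [← Finset.prod_mul_distrib]
      exact Finset.prod_congr rfl fun i _ => by rw [← key _ (hx i)]; ring
    rw [P_cons, P_cons]
    unfold an
    rw [Fin.prod_univ_succ]
    simp only [Fin.cons_zero, Fin.cons_succ, e]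
    rw [e1]
    ring
  have hL : ∏ i, rh (z - an x0 x i) ^ 2 =
      (sin (2 * l + (z - x0)) * sin (3 * l + (z - x0))) ^ 2 * ∏ i, rh (z - x i) ^ 2 := by
    unfold an
    rw [Fin.prod_univ_succ, Fin.prod_univ_succ]
    simp only [Fin.cons_zero, Fin.cons_succ]
    rw [← keyz]
    ring
  have hG : ∏ i, ∏ j, rh (an x0 x i - y j) ^ 2 =
      (∏ j, Kw (x0 - y j) ^ 2) * ∏ i, ∏ j, rh (x i - y j) ^ 2 := by
    have eY : ∏ j, Kw (x0 - y j) ^ 2 = (∏ j, rh (x0 + 3 * l - y j) ^ 2) * ∏ j, rh (x0 - y j) ^ 2 := by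
      rw [← Finset.prod_mul_distrib]
      exact Finset.prod_congr rfl fun i _ => by rw [← key _ (hy i)]; ring
    unfold an
    rw [Fin.prod_univ_succ, Fin.prod_univ_succ]
    simp only [Fin.cons_zero, Fin.cons_succ]
    rw [eY]
    ring
  unfold PN
  rw [hP, hL, hG]
  unfold CA1
  rw [show m + 2 + M + 1 = (m + M + 1) + 2 by ring, pow_add (2 / 3 : ℂ) (m + M + 1) 2, ← const_ann1]
  ring

theorem CA1_ne {m M : ℕ} {z x0 : ℂ} {x : Fin m → ℂ} {y : Fin M → ℂ} (h0 : |x0.re| ≤ l / 2)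
    (hz : |z.re| ≤ l / 2) (hx : Rw x) (hy : Rw y) : CA1 z x0 x y ≠ 0 := by
  have h := CA_ne h0 hz hx hy
  intro h1
  apply h
  unfold CA1 at h1
  unfold CA
  rcases mul_eq_zero.1 h1 with h2 | h2
  · have e : sin (l : ℂ) ^ 4 * (sin (2 * l) * sin (3 * l)) ^ 4 *
        (sin (2 * l + (z - x0)) * sin (3 * l + (z - x0))) ^ 4 =
        (sin (2 * l) * sin (3 * l)) ^ 4 * (sin (l : ℂ) ^ 2 *
        (sin (2 * l + (z - x0)) * sin (3 * l + (z - x0))) ^ 2) ^ 2 := by ring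
    rw [e, h2]
    simp
  · have e : (∏ i, Kw (x0 - x i) ^ 4) * ∏ j, Kw (x0 - y j) ^ 4 =
        ((∏ i, Kw (x0 - x i) ^ 2) * ∏ j, Kw (x0 - y j) ^ 2) ^ 2 := by
      rw [mul_pow, ← Finset.prod_pow, ← Finset.prod_pow]
      congr 1 <;> exact Finset.prod_congr rfl fun i _ => by ring
    rw [e, h2]
    simp

/-- **annihilation in one group**: `n (z; x₀ + 3 λ, x₀, x | y) = n (z; x | y)`, groups of any sizes -/
theorem nh_ann1 {m M : ℕ} {z x0 : ℂ} {x : Fin m → ℂ} {y : Fin M → ℂ} (h0 : |x0.re| ≤ l / 2)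
    (hz : |z.re| ≤ l / 2) (hx : Rw x) (hy : Rw y)
    (sx : ∀ i, sin (x0 - x i) ≠ 0 ∧ sin (x0 - x i + l) ≠ 0) :
    nh z (an x0 x) y = nh z x y := by
  unfold nh
  rw [SS_ann1 (fun i => ann_gen h0 (hx i) (sx i).1 (sx i).2), PN_ann1 h0 hz hx hy]
  exact mul_div_mul_left _ _ (CA1_ne h0 hz hx hy)

/-- **annihilation in one group**, left side -/
theorem nh_ann1' {m M : ℕ} {z x0 : ℂ} {x : Fin m → ℂ} {y : Fin M → ℂ} (h0 : |x0.re| ≤ l / 2)
    (hz : |z.re| ≤ l / 2) (hx : Rw x) (hy : Rw y)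
    (sx : ∀ i, sin (x0 - x i) ≠ 0 ∧ sin (x0 - x i - l) ≠ 0) :
    nh z (an' x0 x) y = nh z x y := by
  have e2 : ∀ i, sin (-x0 - (-x) i) ≠ 0 ∧ sin (-x0 - (-x) i + l) ≠ 0 := by
    intro i
    obtain ⟨h1, h2⟩ := sx i
    constructor
    · intro h0
      apply h1
      rw [← neg_eq_zero, ← sin_neg, ← h0]
      congr 1
      simp
      ring
    · intro h0
      apply h2
      rw [← neg_eq_zero, ← sin_neg, ← h0]
      congr 1
      simp
      ring
  have e3 : ∀ {k : ℕ} {u : Fin k → ℂ}, Rw u → Rw (-u) := by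
    intro k u h i
    simpa using h i
  rw [← nh_neg, an_neg, nh_ann1 (by simpa using h0) (by simpa using hz) (e3 hx) (e3 hy) e2, nh_neg]

/-- **annihilation in the second group** -/
theorem nh_ann1Y {m M : ℕ} {z x0 : ℂ} {x : Fin m → ℂ} {y : Fin M → ℂ} (h0 : |x0.re| ≤ l / 2)
    (hz : |z.re| ≤ l / 2) (hx : Rw x) (hy : Rw y)
    (sy : ∀ i, sin (x0 - y i) ≠ 0 ∧ sin (x0 - y i + l) ≠ 0) :
    nh z x (an x0 y) = nh z x y := by
  rw [nh_swap, nh_ann1 h0 hz hy hx sy, nh_swap]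

/-- **annihilation in the second group**, left side -/
theorem nh_ann1Y' {m M : ℕ} {z x0 : ℂ} {x : Fin m → ℂ} {y : Fin M → ℂ} (h0 : |x0.re| ≤ l / 2)
    (hz : |z.re| ≤ l / 2) (hx : Rw x) (hy : Rw y)
    (sy : ∀ i, sin (x0 - y i) ≠ 0 ∧ sin (x0 - y i - l) ≠ 0) :
    nh z x (an' x0 y) = nh z x y := by
  rw [nh_swap, nh_ann1' h0 hz hy hx sy, nh_swap]

end PBS

end
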