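import Pool.Agent.PB.ExMix2
import Pool.Agent.PB.NzD

/-!
# PLAX: state sums of groups of sizes `(m, M)` with `(n, n')` quanta (the layer of PB.ExMix2)

* `DSU c c' s t x y n n'` : the state sum, `x : Fin m → ℂ`, `y : Fin M → ℂ`, `n`, `n'` quanta;
* `DZU` : its value at rows which may coincide (contour integral);
* `SpU q s` : spectators of growth `exp (2 q |Im|)`; charge `q = (n' - n) - (M - m)`: `SpU q s`, `SpU (-q) t`;
* `DZU_eq` (different heights), `DZU_GU` (any cutoff), `DZU_tendsto` (joint continuity), `DZU_perm`,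
  `DZU_self` (`m = M`: the landed `PBX.DZ`).
-/

set_option autoImplicit false
set_option linter.unusedSectionVars false
set_option linter.unusedVariables false

noncomputable section

open Complex MeasureTheory Filter Topology

namespace Pool.Agent.PLX

open NUP1 NUP1S NUP1.Bd NURow
open NUP1.N (Z3 Gr0)
open NUP1.Leg (hr)
open PBX (Rws ph GOk KK K3 isCompact_K3 NPr_K3 K3_KK mem_K3 NQr_KK measurable_ph pull pull_Rws pull_tendsto
  pull_im_le pull_ne bdd_ph diffAt_ph ph_row ph_row_sub meas_hr im_le NQ_KK)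

variable {m M : ℕ}

/-- the one body function, sizes `(m, M)` -/
def GU (c : ℂ) (β : ℝ) (x : Fin m → ℂ) (y : Fin M → ℂ) (g s : ℂ → ℂ) : ℂ → ℂ :=
  Gr0 (fun u => hr c x y u * (ph β x g u * s u)) x

/-- state sum with `n`, `n'` quanta and spectators `s`, `t` -/
def DSU (c c' : ℂ) (s t : ℂ → ℂ) (x : Fin m → ℂ) (y : Fin M → ℂ) (n n' : ℕ) : ℂ :=
  ∑ a ∈ St m n, ∑ b ∈ St M n', sta x (fun u => hr c x y u * s u) a *
    sta y (fun v => hr c' y x v * t v) b * crq x y a b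

/-- spectators of growth `exp (2 q |Im|)` -/
structure SpU (q : ℝ) (s : ℂ → ℂ) : Prop where
  meas : Measurable s
  diff : ∀ z : ℂ, -(17 / 10 * l) ≤ z.re → z.re ≤ 3 / 5 * l → DifferentiableAt ℂ s z
  gr : Gr (3 / 5 * l) (-(17 / 10 * l)) (2 * q) s

theorem SpU.of_SpA {s : ℂ → ℂ} (h : PBX.SpA s) : SpU 0 s := ⟨h.meas, h.diff, by
  rw [mul_zero]
  exact h.gr⟩

theorem SpU.mul {q r : ℝ} {s t : ℂ → ℂ} (h : SpU q s) (k : SpU r t) : SpU (q + r) (fun u => s u * t u) where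
  meas := h.meas.mul k.meas
  diff z h1 h2 := (h.diff z h1 h2).mul (k.diff z h1 h2)
  gr := (h.gr.mul k.gr).mono (le_of_eq (by ring))

theorem meas_hrU (c : ℂ) (x : Fin m → ℂ) (y : Fin M → ℂ) : Measurable (hr c x y) := by
  unfold NUP1.Leg.hr
  refine Measurable.mul (measurable_const.mul ?_) ?_
  · exact Finset.measurable_prod _ fun i _ => by fun_prop
  · exact Finset.measurable_prod _ fun i _ => by fun_prop

theorem diff_hrU (c : ℂ) {x : Fin m → ℂ} {y : Fin M → ℂ} (hx : Rws x) {z : ℂ}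
    (h1 : -(17 / 10 * l) ≤ z.re) (h2 : z.re ≤ 3 / 5 * l) : DifferentiableAt ℂ (hr c x y) z := by
  have hl := Bd.l_pos
  unfold NUP1.Leg.hr
  refine ((differentiableAt_const c).mul ?_).mul ?_
  · refine DifferentiableAt.fun_finsetProd fun i _ => ?_
    have hs : sin (z - x i - 2 * l) ≠ 0 := by
      refine Bd.sin_ne_zero_of_re ?_
      have e : (z - x i - 2 * l).re = z.re - (x i).re - 2 * l := by simp
      obtain ⟨h3, h4⟩ := abs_le.1 (hx i)
      rw [e]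
      exact NURow.sin_ne_neg (by linarith) (by linarith)
    fun_prop (disch := exact hs)
  · refine DifferentiableAt.fun_finsetProd fun i _ => ?_
    fun_prop

theorem Gr_hrU (c : ℂ) (α β : ℝ) (x : Fin m → ℂ) (y : Fin M → ℂ) :
    Gr α β (2 * (M : ℝ) - m) (hr c x y) := by
  have h2 : Gr α β (∑ _i : Fin m, (-1 : ℝ)) (fun z => ∏ i : Fin m, 1 / sin (z - x i - 2 * l)) :=
    Gr.finProd (fun i z => 1 / sin (z - x i - 2 * l)) (fun _ => -1) fun i => by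
      have := Gr.inv_sin (α := α) (β := β) (x i + 2 * l)
      simpa only [one_div, sub_sub] using this
  have h3 : Gr α β (∑ _i : Fin M, (2 : ℝ)) (fun z => ∏ i : Fin M, sin (z - y i + 3 * l) ^ 2) :=
    Gr.finProd (fun i z => sin (z - y i + 3 * l) ^ 2) (fun _ => 2) fun i => by
      have h := Gr.sin (α := α) (β := β) (y i - 3 * l)
      have h' := h.mul h
      have e : (fun z => sin (z - (y i - 3 * l)) * sin (z - (y i - 3 * l))) =
          fun z => sin (z - y i + 3 * l) ^ 2 := by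
        funext z
        rw [pow_two, show z - (y i - 3 * l) = z - y i + 3 * l by ring]
      rw [e] at h'
      exact h'.mono (by norm_num)
  have h4 := ((Gr.const (α := α) (β := β) c).mul h2).mul h3
  refine h4.mono (le_of_eq ?_)
  simp only [Finset.sum_const, Finset.card_univ, Fintype.card_fin, nsmul_eq_mul]
  ring

/-- **The state sum as a contour integral**, any cutoff. -/
theorem DSU_Z3 {c c' : ℂ} {s t g g' : ℂ → ℂ} {x : Fin m → ℂ} {y : Fin M → ℂ} {β q : ℝ} (hβ : 0 < β)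
    (hβ' : β ≤ 4 / 3) (ix : ∀ i j, i ≠ j → (x i).im ≠ (x j).im)
    (iy : ∀ i j, i ≠ j → (y i).im ≠ (y j).im) (hx : Rws x) (hy : Rws y) (hg : GOk β g)
    (hg' : GOk β g') (hs : SpU q s) (ht : SpU (-q) t) {n n' : ℕ} (hn : (n' : ℝ) + m = n + M + q) :
    DSU c c' s t x y n n' = Z3 (3 / 5 * l) (-(17 / 10 * l)) n n' (GU c β x y g s)
      (GU c' β y x g' t) := by
  have hl := Bd.l_pos
  have hw : NUP1.N.Wd (3 / 5 * l) (-(17 / 10 * l)) := ⟨by linarith, by linarith⟩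
  have kk : ∀ {z : ℂ}, -(17 / 10 * l) ≤ z.re → z.re ≤ 3 / 5 * l → z.re ∈ KK := fun h1 h2 =>
    ⟨by linarith, by linarith⟩
  have key : ∀ {m M : ℕ} {c : ℂ} {q : ℝ} {s g : ℂ → ℂ} {x : Fin m → ℂ} {y : Fin M → ℂ}, Rws x → GOk β g →
      SpU q s →
      (∀ z : ℂ, -(17 / 10 * l) ≤ z.re → z.re ≤ 3 / 5 * l →
        DifferentiableAt ℂ (fun u => hr c x y u * (ph β x g u * s u)) z) ∧
      Measurable (fun u => hr c x y u * (ph β x g u * s u)) ∧
      Gr (3 / 5 * l) (-(17 / 10 * l)) (-(2 * β - 2 * M + m - 2 * q))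
        (fun u => hr c x y u * (ph β x g u * s u)) := by
    intro m M c q s g x y hx hg hs
    refine ⟨fun z h1 h2 => (diff_hrU c hx h1 h2).mul
      ((diffAt_ph hβ hβ' hx hg (kk h1 h2)).mul (hs.diff z h1 h2)),
      (meas_hrU c x y).mul ((measurable_ph β x hg.meas).mul hs.meas), ?_⟩
    have h1 : Gr (3 / 5 * l) (-(17 / 10 * l)) (-(2 * β)) (ph β x g) := by
      obtain ⟨C, hC, h⟩ := bdd_ph hβ hβ' hx hg
      exact ⟨C, 0, hC, fun z h1 h2 _ => h z (kk h1 h2)⟩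
    exact ((Gr_hrU c _ _ x y).mul (h1.mul hs.gr)).mono (le_of_eq (by ring))
  obtain ⟨d1, m1, g1⟩ := key (c := c) (y := y) hx hg hs
  obtain ⟨d2, m2, g2⟩ := key (c := c') (y := x) hy hg' ht
  have rx : ∀ {m : ℕ} {x : Fin m → ℂ}, Rws x → ∀ i, -(17 / 10 * l) + l < (x i).re ∧
      (x i).re < 3 / 5 * l := by
    intro m x hx i
    obtain ⟨h3, h4⟩ := abs_le.1 (hx i)
    constructor <;> linarith
  unfold GU
  rw [← NUP1.N.assemG hw ix iy (rx hx) (rx hy) d1 d2 m1 m2 g1 g2 n n' (by linarith) (by linarith)]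
  unfold DSU
  refine Finset.sum_congr rfl fun a _ => Finset.sum_congr rfl fun b _ => ?_
  rw [NUP1.N.sta_congr' (x := x) (h := fun u => hr c x y u * s u)
      (k := fun u => hr c x y u * (ph β x g u * s u)) (fun i => by rw [ph_row, one_mul])
      (fun i => by rw [ph_row_sub, one_mul]) a,
    NUP1.N.sta_congr' (x := y) (h := fun u => hr c' y x u * t u)
      (k := fun u => hr c' y x u * (ph β y g' u * t u)) (fun i => by rw [ph_row, one_mul])
      (fun i => by rw [ph_row_sub, one_mul]) b]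

/-! ### limits -/

/-- the factor of the rows, sizes `(m, M)` -/
theorem ub_hrU {Θ : Type*} {S : Set Θ} {K : Set ℝ} {r ρ : ℝ} (c : ℂ) {x : Θ → Fin m → ℂ}
    {y : Θ → Fin M → ℂ} (hx : ∀ i, InBox S r ρ fun θ => x θ i)
    (hy : ∀ i, InBox S r ρ fun θ => y θ i) (hK : IsCompact K) (h : NPr r K) :
    UB S K (2 * (M : ℝ) - 2 * m) (fun θ u => hr c (x θ) (y θ) u * ∏ i, 1 / sin (u - x θ i)) := by
  have h1 : UB S K _ (fun θ z => ∏ i : Fin m, 1 / sin (z - x θ i + ((0 : ℝ) : ℂ))) :=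
    UB.prod Finset.univ fun i _ => ub_inv_sin (hx i) hK 0 fun d hd e he => by
      rw [add_zero]; exact (h d hd e he).1
  have h2 : UB S K _ (fun θ z => ∏ i : Fin m, 1 / sin (z - x θ i + ((-(2 * l) : ℝ) : ℂ))) :=
    UB.prod Finset.univ fun i _ => ub_inv_sin (hx i) hK (-(2 * l)) fun d hd e he => by
      rw [← sub_eq_add_neg]; exact (h d hd e he).2
  have h3 : UB S K _ (fun θ z => ∏ i : Fin M, sin (z - y θ i + ((3 * l : ℝ) : ℂ)) ^ 2) :=
    UB.prod Finset.univ fun i _ => (ub_sin (hy i) K (3 * l)).pow 2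
  have h4 := ((((UB.const S K c).mul h2).mul h3).mul h1).rate (s' := 2 * (M : ℝ) - 2 * m) (by
    simp only [Finset.card_univ, Fintype.card_fin]
    push_cast
    ring)
  refine h4.congr fun θ _ z _ => ?_
  unfold NUP1.Leg.hr
  push_cast
  simp only [add_zero, ← sub_eq_add_neg]

/-- uniform bound of the one body function on the three lines -/
theorem GU_ub {E : Type*} {S : Set E} {β R q : ℝ} (hβ : 0 < β) (hβ' : β ≤ 4 / 3) (c : ℂ)
    {x : E → Fin m → ℂ} {y : E → Fin M → ℂ} {g : ℂ → ℂ} (hg : GOk β g)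
    (hx : ∀ e ∈ S, Rws (x e)) (hy : ∀ e ∈ S, Rws (y e)) (bx : ∀ e ∈ S, ∀ i, |(x e i).im| ≤ R)
    (by' : ∀ e ∈ S, ∀ i, |(y e i).im| ≤ R) {s : E → ℂ → ℂ} {D : ℝ} (hD : 0 ≤ D)
    (hs : ∀ e ∈ S, ∀ z : ℂ, z.re ∈ K3 → ‖s e z‖ ≤ D * Real.exp (2 * q * |z.im|)) :
    ∃ C : ℝ, 0 ≤ C ∧ ∀ e ∈ S, ∀ z : ℂ, z.re ∈ K3 →
      ‖GU c β (x e) (y e) g (s e) z‖ ≤
        C * Real.exp (-((2 * β - 2 * ((M : ℝ) - m) - 2 * q) * |z.im|)) := by
  have ib : ∀ {k : ℕ} {x : E → Fin k → ℂ}, (∀ e ∈ S, Rws (x e)) → (∀ e ∈ S, ∀ i, |(x e i).im| ≤ R) →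
      ∀ i, InBox S (l / 2) R fun e => x e i := fun h1 h2 i e he => ⟨(h1 e he).abs i, h2 e he i⟩
  obtain ⟨C1, hC1, h1⟩ := ub_hrU (Θ := E) (S := S) c (ib hx bx) (ib hy by') isCompact_K3 NPr_K3
  have nq : NQr β (l / 2) K3 := fun d hd => NQr_KK hβ hβ' d (K3_KK hd)
  obtain ⟨C2, hC2, h2⟩ := ub_phi (Θ := E) (S := S) hβ (ib hx bx) isCompact_K3 nq
  obtain ⟨C3, hC3, h3⟩ := ub_prod_psi (Θ := E) (S := S) hβ (ib hx bx) isCompact_K3 nq
  obtain ⟨C4, hC4, h4⟩ := hg.bd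
  refine ⟨C1 * (C2 + C3 * C4) * D, by positivity, fun e he z hz => ?_⟩
  have a1 := h1 e he z hz
  have a2 := h2 e he z hz
  have a3 := h3 e he z hz
  have a4 := h4 z (K3_KK hz)
  have a5 := hs e he z hz
  simp only [zero_mul, Real.exp_zero, mul_one] at a3
  have ep : ph β (x e) g z = phi β (List.ofFn (x e)) z +
      (∏ i, psi β (z - x e i)) * (1 - g z) := by
    rw [phi_ofFn]
    unfold PBX.ph
    ring
  have a6 : ‖ph β (x e) g z‖ ≤ (C2 + C3 * C4) * Real.exp (-(2 * β) * |z.im|) := by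
    rw [ep, add_mul]
    refine (norm_add_le _ _).trans (add_le_add a2 ?_)
    rw [norm_mul, mul_assoc]
    exact mul_le_mul a3 a4 (norm_nonneg _) hC3
  have e0 : GU c β (x e) (y e) g (s e) z =
      (hr c (x e) (y e) z * ∏ i, 1 / sin (z - x e i)) * ph β (x e) g z * s e z := by
    unfold GU NUP1.N.Gr0
    ring
  rw [e0, norm_mul, norm_mul]
  calc _ ≤ (C1 * Real.exp ((2 * (M : ℝ) - 2 * m) * |z.im|)) *
        ((C2 + C3 * C4) * Real.exp (-(2 * β) * |z.im|)) * (D * Real.exp (2 * q * |z.im|)) :=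
        mul_le_mul (mul_le_mul a1 a6 (norm_nonneg _) (by positivity)) a5 (norm_nonneg _)
          (by positivity)
    _ = (C1 * (C2 + C3 * C4) * D) * (Real.exp ((2 * (M : ℝ) - 2 * m) * |z.im|) *
        Real.exp (-(2 * β) * |z.im|) * Real.exp (2 * q * |z.im|)) := by ring
    _ = _ := by
        rw [← Real.exp_add, ← Real.exp_add]
        congr 2
        ring

theorem GU_tendsto {E : Type*} {F : Filter E} {β : ℝ} (hβ : 0 < β) (hβ' : β ≤ 4 / 3) (c : ℂ)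
    {x : E → Fin m → ℂ} {y : E → Fin M → ℂ} {x0 : Fin m → ℂ} {y0 : Fin M → ℂ} (g : ℂ → ℂ) (hx0 : Rws x0)
    (tx : ∀ i, Tendsto (fun e => x e i) F (𝓝 (x0 i)))
    (ty : ∀ i, Tendsto (fun e => y e i) F (𝓝 (y0 i))) {s : E → ℂ → ℂ} {s0 : ℂ → ℂ} {z : ℂ}
    (hz : z.re ∈ K3) (ts : Tendsto (fun e => s e z) F (𝓝 (s0 z))) :
    Tendsto (fun e => GU c β (x e) (y e) g (s e) z) F (𝓝 (GU c β x0 y0 g s0 z)) := by
  have np : ∀ i, NP (z - x0 i).re := fun i => by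
    rw [sub_re]
    exact NPr_K3 _ hz _ (hx0.abs i)
  have t1 : ∀ i, Tendsto (fun e => 1 / sin (z - x e i)) F (𝓝 (1 / sin (z - x0 i))) := fun i =>
    tendsto_const_nhds.div ((Complex.continuous_sin.tendsto _).comp
      (tendsto_const_nhds.sub (tx i))) (Bd.sin_ne_zero_of_re (np i).1)
  have t2 : ∀ i, Tendsto (fun e => 1 / sin (z - x e i - 2 * l)) F
      (𝓝 (1 / sin (z - x0 i - 2 * l))) := fun i =>
    tendsto_const_nhds.div ((Complex.continuous_sin.tendsto _).comp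
      ((tendsto_const_nhds.sub (tx i)).sub_const _)) (Bd.sin_ne_zero_of_re (by
        have := (np i).2
        simpa using this))
  have t3 : ∀ i, Tendsto (fun e => sin (z - y e i + 3 * l) ^ 2) F
      (𝓝 (sin (z - y0 i + 3 * l) ^ 2)) := fun i =>
    ((Complex.continuous_sin.tendsto _).comp
      ((tendsto_const_nhds.sub (ty i)).add_const _)).pow 2
  have t4 : ∀ i, Tendsto (fun e => psi β (z - x e i)) F (𝓝 (psi β (z - x0 i))) := fun i =>
    ((diff_psi' (NQ_KK hβ hβ' hx0 (K3_KK hz) i)).continuousAt.tendsto).comp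
      (tendsto_const_nhds.sub (tx i))
  unfold GU NUP1.N.Gr0 NUP1.Leg.hr PBX.ph
  exact (((tendsto_const_nhds.mul (tendsto_finsetProd _ fun i _ => t2 i)).mul
    (tendsto_finsetProd _ fun i _ => t3 i)).mul
      ((tendsto_const_nhds.sub ((tendsto_finsetProd _ fun i _ => t4 i).mul_const _)).mul ts)).mul
      (tendsto_finsetProd _ fun i _ => t1 i)

theorem measurable_GU (c : ℂ) (β : ℝ) (x : Fin m → ℂ) (y : Fin M → ℂ) {g s : ℂ → ℂ}
    (hg : Measurable g) (hs : Measurable s) : Measurable (GU c β x y g s) := by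
  unfold GU NUP1.N.Gr0
  exact ((meas_hrU c x y).mul ((measurable_ph β x hg).mul hs)).mul
    (Finset.measurable_prod _ fun i _ => by fun_prop)

/-- **Joint continuity of the contour integral** in the rows and the spectators. -/
theorem Z3U_tendsto_rows {E : Type*} {F : Filter E} [F.IsCountablyGenerated] {β R q : ℝ}
    (hβ : 0 < β) (hβ' : β ≤ 4 / 3) (c c' : ℂ) {x : E → Fin m → ℂ} {y : E → Fin M → ℂ} {x0 : Fin m → ℂ}
    {y0 : Fin M → ℂ} {g g' : ℂ → ℂ} (hg : GOk β g) (hg' : GOk β g')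
    (hx : ∀ᶠ e in F, Rws (x e) ∧ Rws (y e) ∧ (∀ i, |(x e i).im| ≤ R) ∧ ∀ i, |(y e i).im| ≤ R)
    (hx0 : Rws x0) (hy0 : Rws y0) (tx : ∀ i, Tendsto (fun e => x e i) F (𝓝 (x0 i)))
    (ty : ∀ i, Tendsto (fun e => y e i) F (𝓝 (y0 i))) {s t : E → ℂ → ℂ} {s0 t0 : ℂ → ℂ} {D : ℝ}
    (hD : 0 ≤ D)
    (hs : ∀ᶠ e in F, Measurable (s e) ∧ Measurable (t e) ∧ ∀ z : ℂ, z.re ∈ K3 →
      ‖s e z‖ ≤ D * Real.exp (2 * q * |z.im|) ∧ ‖t e z‖ ≤ D * Real.exp (2 * (-q) * |z.im|))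
    (ts : ∀ z : ℂ, z.re ∈ K3 → Tendsto (fun e => s e z) F (𝓝 (s0 z)))
    (tt : ∀ z : ℂ, z.re ∈ K3 → Tendsto (fun e => t e z) F (𝓝 (t0 z))) {n n' : ℕ}
    (hn : (n' : ℝ) + m = n + M + q) :
    Tendsto (fun e => Z3 (3 / 5 * l) (-(17 / 10 * l)) n n' (GU c β (x e) (y e) g (s e))
      (GU c' β (y e) (x e) g' (t e))) F
      (𝓝 (Z3 (3 / 5 * l) (-(17 / 10 * l)) n n' (GU c β x0 y0 g s0) (GU c' β y0 x0 g' t0))) := by
  have hl := Bd.l_pos
  set S : Set E := {e | (Rws (x e) ∧ Rws (y e) ∧ (∀ i, |(x e i).im| ≤ R) ∧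
    ∀ i, |(y e i).im| ≤ R) ∧ (Measurable (s e) ∧ Measurable (t e) ∧ ∀ z : ℂ, z.re ∈ K3 →
      ‖s e z‖ ≤ D * Real.exp (2 * q * |z.im|) ∧ ‖t e z‖ ≤ D * Real.exp (2 * (-q) * |z.im|))} with hS
  have hSF : ∀ᶠ e in F, e ∈ S := hx.and hs
  obtain ⟨C1, hC1, b1⟩ := GU_ub (S := S) (R := R) hβ hβ' c (x := x) (y := y) (s := s) hg
    (fun e he => he.1.1) (fun e he => he.1.2.1) (fun e he => he.1.2.2.1)
    (fun e he => he.1.2.2.2) hD (fun e he z hz => (he.2.2.2 z hz).1)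
  obtain ⟨C2, hC2, b2⟩ := GU_ub (S := S) (R := R) hβ hβ' c' (x := y) (y := x) (s := t) hg'
    (fun e he => he.1.2.1) (fun e he => he.1.1) (fun e he => he.1.2.2.2)
    (fun e he => he.1.2.2.1) hD (fun e he z hz => (he.2.2.2 z hz).2)
  refine NUP1.N.Z3_tendsto (D := max C1 C2) (κ := 2 * β - 2 * ((M : ℝ) - m) - 2 * q)
    (κ' := 2 * β - 2 * ((m : ℝ) - M) - 2 * (-q)) (by linarith)
    (by linarith) (hSF.mono fun e he => measurable_GU c β _ _ hg.meas he.2.1)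
    (hSF.mono fun e he => measurable_GU c' β _ _ hg'.meas he.2.2.1)
    (fun z hz => GU_tendsto hβ hβ' c g hx0 tx ty (mem_K3 hz) (ts z (mem_K3 hz)))
    (fun z hz => GU_tendsto hβ hβ' c' g' hy0 ty tx (mem_K3 hz) (tt z (mem_K3 hz)))
    (hSF.mono fun e he z hz => ?_) (hSF.mono fun e he z hz => ?_)
    (by linarith) (by linarith)
  · exact (b1 e he z (mem_K3 hz)).trans
      (mul_le_mul_of_nonneg_right (le_max_left _ _) (Real.exp_pos _).le)
  · exact (b2 e he z (mem_K3 hz)).trans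
      (mul_le_mul_of_nonneg_right (le_max_right _ _) (Real.exp_pos _).le)

theorem SpU.bd {q : ℝ} {s : ℂ → ℂ} (hs : SpU q s) :
    ∃ D : ℝ, 0 ≤ D ∧ ∀ z : ℂ, z.re ∈ K3 → ‖s z‖ ≤ D * Real.exp (2 * q * |z.im|) := by
  have hl := Bd.l_pos
  obtain ⟨C, R, hC, h⟩ := hs.gr
  have r : ∀ {z : ℂ}, z.re ∈ K3 → -(17 / 10 * l) ≤ z.re ∧ z.re ≤ 3 / 5 * l := by
    intro z hz
    simp only [PBX.K3, Set.mem_insert_iff, Set.mem_singleton_iff] at hz
    rcases hz with h | h | h <;> rw [h] <;> constructor <;> linarith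
  exact PBX.bdd_glueR (R := R) (s := 2 * q) isCompact_K3
    (fun z hz => (hs.diff z (r hz).1 (r hz).2).continuousAt)
    ⟨C, hC, fun z hz hi => h z (r hz).1 (r hz).2 hi⟩

/-- **The state sum at arbitrary rows.** -/
def DZU (c c' : ℂ) (s t : ℂ → ℂ) (x : Fin m → ℂ) (y : Fin M → ℂ) (n n' : ℕ) : ℂ :=
  Z3 (3 / 5 * l) (-(17 / 10 * l)) n n' (GU c (4 / 3) x y (fun _ => 1) s)
    (GU c' (4 / 3) y x (fun _ => 1) t)

/-- equal sizes: the landed functions -/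
theorem GU_self (c : ℂ) (β : ℝ) (x y : Fin m → ℂ) (g s : ℂ → ℂ) : GU c β x y g s = PBX.GX c β x y g s :=
  (PBX.GX_eq c β x y g s).symm

theorem DZU_self (c c' : ℂ) (s t : ℂ → ℂ) (x y : Fin m → ℂ) (n : ℕ) :
    DZU c c' s t x y n n = PBX.DZ c c' s t x y n := by
  unfold DZU PBX.DZ
  rw [GU_self, GU_self]

section DZU

variable {c c' : ℂ} {s t : ℂ → ℂ} {x : Fin m → ℂ} {y : Fin M → ℂ} {q : ℝ} {n n' : ℕ}

/-- generic heights: the state sum -/
theorem DZU_eq (ix : ∀ i j, i ≠ j → (x i).im ≠ (x j).im)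
    (iy : ∀ i j, i ≠ j → (y i).im ≠ (y j).im) (hx : Rws x) (hy : Rws y) (hs : SpU q s)
    (ht : SpU (-q) t) (hn : (n' : ℝ) + m = n + M + q) : DZU c c' s t x y n n' = DSU c c' s t x y n n' :=
  (DSU_Z3 (by norm_num) le_rfl ix iy hx hy (GOk.one _) (GOk.one _) hs ht hn).symm

/-- the limit of the state sums of the rows pulled apart, as a contour integral with any cutoff -/
theorem pull_limU {β : ℝ} (hβ : 0 < β) (hβ' : β ≤ 4 / 3) {g g' : ℂ → ℂ} (hx : Rws x) (hy : Rws y)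
    (hg : GOk β g) (hg' : GOk β g') (hs : SpU q s) (ht : SpU (-q) t)
    (hn : (n' : ℝ) + m = n + M + q) :
    Tendsto (fun e => DSU c c' s t (pull x e) (pull y e) n n') (𝓝[>] 0)
      (𝓝 (Z3 (3 / 5 * l) (-(17 / 10 * l)) n n' (GU c β x y g s) (GU c' β y x g' t))) := by
  obtain ⟨D1, hD1, h1⟩ := hs.bd
  obtain ⟨D2, hD2, h2⟩ := ht.bd
  have hpos : ∀ᶠ e : ℝ in 𝓝[>] 0, 0 < e := self_mem_nhdsWithin
  have hle : ∀ᶠ e : ℝ in 𝓝[>] 0, e ≤ 1 := nhdsWithin_le_nhds (eventually_le_nhds one_pos)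
  have sx : 0 ≤ ∑ j, |(x j).im| := Finset.sum_nonneg fun _ _ => abs_nonneg _
  have sy : 0 ≤ ∑ j, |(y j).im| := Finset.sum_nonneg fun _ _ => abs_nonneg _
  have m0 : (0 : ℝ) ≤ m := Nat.cast_nonneg _
  have M0 : (0 : ℝ) ≤ M := Nat.cast_nonneg _
  have key := Z3U_tendsto_rows (F := 𝓝[>] (0 : ℝ)) (R := ∑ j, |(x j).im| + ∑ j, |(y j).im| + m + M)
    (q := q) hβ hβ' c c' (x := pull x) (y := pull y) (x0 := x) (y0 := y) hg hg'
    (by
      filter_upwards [hpos, hle] with e h0 h1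
      refine ⟨pull_Rws hx e, pull_Rws hy e, fun i => (pull_im_le x h0.le h1 i).trans (by linarith),
        fun i => (pull_im_le y h0.le h1 i).trans (by linarith)⟩)
    hx hy (pull_tendsto x) (pull_tendsto y) (s := fun _ => s) (t := fun _ => t) (s0 := s)
    (t0 := t) (D := max D1 D2) (le_max_of_le_left hD1)
    (Eventually.of_forall fun e => ⟨hs.meas, ht.meas, fun z hz =>
      ⟨(h1 z hz).trans (mul_le_mul_of_nonneg_right (le_max_left _ _) (Real.exp_pos _).le),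
        (h2 z hz).trans (mul_le_mul_of_nonneg_right (le_max_right _ _) (Real.exp_pos _).le)⟩⟩)
    (fun z _ => tendsto_const_nhds) (fun z _ => tendsto_const_nhds) hn
  refine key.congr' ?_
  filter_upwards [pull_ne x, pull_ne y] with e ex ey
  exact (DSU_Z3 hβ hβ' ex ey (pull_Rws hx e) (pull_Rws hy e) hg hg' hs ht hn).symm

/-- **The value does not depend on the cutoff.** -/
theorem DZU_GU {β : ℝ} (hβ : 0 < β) (hβ' : β ≤ 4 / 3) {g g' : ℂ → ℂ} (hx : Rws x) (hy : Rws y)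
    (hg : GOk β g) (hg' : GOk β g') (hs : SpU q s) (ht : SpU (-q) t)
    (hn : (n' : ℝ) + m = n + M + q) :
    DZU c c' s t x y n n' =
      Z3 (3 / 5 * l) (-(17 / 10 * l)) n n' (GU c β x y g s) (GU c' β y x g' t) :=
  tendsto_nhds_unique (pull_limU (by norm_num) le_rfl hx hy (GOk.one _) (GOk.one _) hs ht hn)
    (pull_limU hβ hβ' hx hy hg hg' hs ht hn)

/-- **Joint continuity in the rows and the spectators.** -/
theorem DZU_tendsto {E : Type*} {F : Filter E} [F.IsCountablyGenerated] {R q : ℝ} (c c' : ℂ)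
    {x : E → Fin m → ℂ} {y : E → Fin M → ℂ} {x0 : Fin m → ℂ} {y0 : Fin M → ℂ}
    (hx : ∀ᶠ e in F, Rws (x e) ∧ Rws (y e) ∧ (∀ i, |(x e i).im| ≤ R) ∧ ∀ i, |(y e i).im| ≤ R)
    (hx0 : Rws x0) (hy0 : Rws y0) (tx : ∀ i, Tendsto (fun e => x e i) F (𝓝 (x0 i)))
    (ty : ∀ i, Tendsto (fun e => y e i) F (𝓝 (y0 i))) {s t : E → ℂ → ℂ} {s0 t0 : ℂ → ℂ} {D : ℝ}
    (hD : 0 ≤ D)
    (hs : ∀ᶠ e in F, Measurable (s e) ∧ Measurable (t e) ∧ ∀ z : ℂ, z.re ∈ K3 →
      ‖s e z‖ ≤ D * Real.exp (2 * q * |z.im|) ∧ ‖t e z‖ ≤ D * Real.exp (2 * (-q) * |z.im|))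
    (ts : ∀ z : ℂ, z.re ∈ K3 → Tendsto (fun e => s e z) F (𝓝 (s0 z)))
    (tt : ∀ z : ℂ, z.re ∈ K3 → Tendsto (fun e => t e z) F (𝓝 (t0 z))) {n n' : ℕ}
    (hn : (n' : ℝ) + m = n + M + q) :
    Tendsto (fun e => DZU c c' (s e) (t e) (x e) (y e) n n') F (𝓝 (DZU c c' s0 t0 x0 y0 n n')) :=
  Z3U_tendsto_rows (by norm_num) le_rfl c c' (GOk.one _) (GOk.one _) hx hx0 hy0 tx ty hD hs ts tt hn

/-- the order of the rows -/
theorem DZU_perm (c c' : ℂ) (s t : ℂ → ℂ) (x : Fin m → ℂ) (y : Fin M → ℂ) (n n' : ℕ)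
    (σ : Equiv.Perm (Fin m)) (τ : Equiv.Perm (Fin M)) :
    DZU c c' s t (fun i => x (σ i)) (fun i => y (τ i)) n n' = DZU c c' s t x y n n' := by
  have key : ∀ {m M : ℕ} (c : ℂ) (s : ℂ → ℂ) (x : Fin m → ℂ) (y : Fin M → ℂ) (σ : Equiv.Perm (Fin m))
      (τ : Equiv.Perm (Fin M)),
      GU c (4 / 3) (fun i => x (σ i)) (fun i => y (τ i)) (fun _ => 1) s =
        GU c (4 / 3) x y (fun _ => 1) s := by
    intro m M c s x y σ τ
    funext u
    unfold GU NUP1.N.Gr0 NUP1.Leg.hr PBX.ph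
    beta_reduce
    rw [Equiv.prod_comp σ fun i => 1 / sin (u - x i), Equiv.prod_comp σ fun i =>
      1 / sin (u - x i - 2 * l), Equiv.prod_comp τ fun j => sin (u - y j + 3 * l) ^ 2,
      Equiv.prod_comp σ fun i => NUP1.psi (4 / 3) (u - x i)]
  unfold DZU
  rw [key c s x y σ τ, key c' t y x τ σ]

end DZU

end Pool.Agent.PLX

end
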