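import Pool.Agent.PLX.NzU
import Pool.Agent.PB.DisHol

/-!
# PLAX: `DZU` is jointly continuous and holomorphic in the rows and the spectators, sizes `(m, M)`

The layer of PB.DisHol for groups of sizes `(m, M)` and spectators of growth `exp (2 q |Im|)`,
`exp (- 2 q |Im|)`, `n' + m = n + M + q`; rows with real parts in `(-3 l / 5, 3 l / 5)`.
-/

set_option autoImplicit false
set_option linter.unusedSectionVars false
set_option linter.unusedVariables false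

noncomputable section

open Complex MeasureTheory Filter Topology Metric

namespace Pool.Agent.PLX

open NUP1 NUP1S NUP1.Bd NURow
open NUP1.N (Z3 Gr0)
open NUP1.Leg (hr)
open PBX (Rws ph GOk KK K3 isCompact_K3 K3_KK mem_K3 measurable_ph im_le Rwr NPr_K3r NQr_K3r K3_cases
  re_ev Lg Lg_ev Lg_hol Lg_tendsto Lg_meas LgR)

variable {m M : ℕ}

/-- uniform bound of the one body function on the three lines, rows in the larger strip -/
theorem GU_ubr {E : Type*} {S : Set E} {β r R q : ℝ} (hβ : 0 < β) (hβ' : β ≤ 4 / 3)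
    (hr : r < 3 / 5 * l) (c : ℂ) {x : E → Fin m → ℂ} {y : E → Fin M → ℂ} {g : ℂ → ℂ} (hg : GOk β g)
    (hx : ∀ e ∈ S, Rwr r (x e)) (hy : ∀ e ∈ S, Rwr r (y e)) (bx : ∀ e ∈ S, ∀ i, |(x e i).im| ≤ R)
    (by' : ∀ e ∈ S, ∀ i, |(y e i).im| ≤ R) {s : E → ℂ → ℂ} {D : ℝ} (hD : 0 ≤ D)
    (hs : ∀ e ∈ S, ∀ z : ℂ, z.re ∈ K3 → ‖s e z‖ ≤ D * Real.exp (2 * q * |z.im|)) :
    ∃ C : ℝ, 0 ≤ C ∧ ∀ e ∈ S, ∀ z : ℂ, z.re ∈ K3 →
      ‖GU c β (x e) (y e) g (s e) z‖ ≤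
        C * Real.exp (-((2 * β - 2 * ((M : ℝ) - m) - 2 * q) * |z.im|)) := by
  have ib : ∀ {k : ℕ} {x : E → Fin k → ℂ}, (∀ e ∈ S, Rwr r (x e)) → (∀ e ∈ S, ∀ i, |(x e i).im| ≤ R) →
      ∀ i, InBox S r R fun e => x e i := fun h1 h2 i e he => ⟨h1 e he i, h2 e he i⟩
  obtain ⟨C1, hC1, h1⟩ := ub_hrU (Θ := E) (S := S) c (ib hx bx) (ib hy by') isCompact_K3 (NPr_K3r hr)
  have nq : NQr β r K3 := NQr_K3r hβ hβ' hr
  obtain ⟨C2, hC2, h2⟩ := ub_phi (Θ := E) (S := S) hβ (ib hx bx) isCompact_K3 nq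
  obtain ⟨C3, hC3, h3⟩ := ub_prod_psi (Θ := E) (S := S) hβ (ib hx bx) isCompact_K3 nq
  obtain ⟨C4, hC4, h4⟩ := hg.bd
  refine ⟨C1 * (C2 + C3 * C4) * D, by positivity, fun e he z hz => ?_⟩
  have a1 := h1 e he z hz
  have a2 := h2 e he z hz
  have a3 := h3 e he z hz
  have a4 := h4 z (K3_KK hz)
  have a5 := hs e he z hz
  simp only [zero_mul, Real.exp_zero, mul_one] at a3
  have ep : ph β (x e) g z = phi β (List.ofFn (x e)) z +
      (∏ i, psi β (z - x e i)) * (1 - g z) := by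
    rw [phi_ofFn]
    unfold PBX.ph
    ring
  have a6 : ‖ph β (x e) g z‖ ≤ (C2 + C3 * C4) * Real.exp (-(2 * β) * |z.im|) := by
    rw [ep, add_mul]
    refine (norm_add_le _ _).trans (add_le_add a2 ?_)
    rw [norm_mul, mul_assoc]
    exact mul_le_mul a3 a4 (norm_nonneg _) hC3
  have e0 : GU c β (x e) (y e) g (s e) z =
      (NUP1.Leg.hr c (x e) (y e) z * ∏ i, 1 / sin (z - x e i)) * ph β (x e) g z * s e z := by
    unfold GU NUP1.N.Gr0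
    ring
  rw [e0, norm_mul, norm_mul]
  calc _ ≤ (C1 * Real.exp ((2 * (M : ℝ) - 2 * m) * |z.im|)) *
        ((C2 + C3 * C4) * Real.exp (-(2 * β) * |z.im|)) * (D * Real.exp (2 * q * |z.im|)) :=
        mul_le_mul (mul_le_mul a1 a6 (norm_nonneg _) (by positivity)) a5 (norm_nonneg _)
          (by positivity)
    _ = (C1 * (C2 + C3 * C4) * D) * (Real.exp ((2 * (M : ℝ) - 2 * m) * |z.im|) *
        Real.exp (-(2 * β) * |z.im|) * Real.exp (2 * q * |z.im|)) := by ring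
    _ = _ := by
        rw [← Real.exp_add, ← Real.exp_add]
        congr 2
        ring

/-- the one body function is holomorphic in rows and spectators -/
theorem GU_hol {β : ℝ} (hβ : 0 < β) (hβ' : β ≤ 4 / 3) (c : ℂ) (g : ℂ → ℂ)
    {x : ℂ → Fin m → ℂ} {y : ℂ → Fin M → ℂ} {s : ℂ → ℂ → ℂ} {θ0 z : ℂ} {r : ℝ} (hr : r < 3 / 5 * l)
    (hx : Rwr r (x θ0)) (dx : ∀ i, DifferentiableAt ℂ (fun θ => x θ i) θ0)
    (dy : ∀ i, DifferentiableAt ℂ (fun θ => y θ i) θ0) (hz : z.re ∈ K3)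
    (ds : DifferentiableAt ℂ (fun θ => s θ z) θ0) :
    DifferentiableAt ℂ (fun θ => GU c β (x θ) (y θ) g (s θ) z) θ0 := by
  have np : ∀ i, NP (z - x θ0 i).re := fun i => by
    rw [sub_re]
    exact NPr_K3r hr _ hz _ (hx i)
  have d1 : DifferentiableAt ℂ (fun θ => ∏ i, 1 / sin (z - x θ i)) θ0 :=
    DifferentiableAt.fun_finsetProd fun i _ => (differentiableAt_const 1).div
      ((differentiableAt_const z).sub (dx i)).csin (Bd.sin_ne_zero_of_re (np i).1)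
  have d2 : DifferentiableAt ℂ (fun θ => ∏ i, 1 / sin (z - x θ i - 2 * l)) θ0 :=
    DifferentiableAt.fun_finsetProd fun i _ => (differentiableAt_const 1).div
      (((differentiableAt_const z).sub (dx i)).sub_const _).csin (Bd.sin_ne_zero_of_re (by
        have := (np i).2
        simpa using this))
  have d3 : DifferentiableAt ℂ (fun θ => ∏ i, sin (z - y θ i + 3 * l) ^ 2) θ0 :=
    DifferentiableAt.fun_finsetProd fun i _ =>
      ((((differentiableAt_const z).sub (dy i)).add_const _).csin).pow 2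
  have d4 : DifferentiableAt ℂ (fun θ => ph β (x θ) g z) θ0 := by
    unfold PBX.ph
    refine DifferentiableAt.const_sub (DifferentiableAt.mul_const ?_ _) _
    refine DifferentiableAt.fun_finsetProd fun i _ => ?_
    refine DifferentiableAt.comp (g := psi β) (f := fun θ => z - x θ i) θ0
      (diff_psi' ?_) ((differentiableAt_const z).sub (dx i))
    rw [sub_re]
    exact NQr_K3r hβ hβ' hr _ hz _ (hx i)
  unfold GU NUP1.N.Gr0 NUP1.Leg.hr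
  exact (((d2.const_mul _).mul d3).mul (d4.mul ds)).mul d1

theorem GU_tendstor {E : Type*} {F : Filter E} {β r : ℝ} (hβ : 0 < β) (hβ' : β ≤ 4 / 3) (c : ℂ)
    {x : E → Fin m → ℂ} {y : E → Fin M → ℂ} {x0 : Fin m → ℂ} {y0 : Fin M → ℂ} (g : ℂ → ℂ)
    (hr : r < 3 / 5 * l) (hx0 : Rwr r x0) (tx : ∀ i, Tendsto (fun e => x e i) F (𝓝 (x0 i)))
    (ty : ∀ i, Tendsto (fun e => y e i) F (𝓝 (y0 i))) {s : E → ℂ → ℂ} {s0 : ℂ → ℂ} {z : ℂ}
    (hz : z.re ∈ K3) (ts : Tendsto (fun e => s e z) F (𝓝 (s0 z))) :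
    Tendsto (fun e => GU c β (x e) (y e) g (s e) z) F (𝓝 (GU c β x0 y0 g s0 z)) := by
  have np : ∀ i, NP (z - x0 i).re := fun i => by
    rw [sub_re]
    exact NPr_K3r hr _ hz _ (hx0 i)
  have t1 : ∀ i, Tendsto (fun e => 1 / sin (z - x e i)) F (𝓝 (1 / sin (z - x0 i))) := fun i =>
    tendsto_const_nhds.div ((Complex.continuous_sin.tendsto _).comp
      (tendsto_const_nhds.sub (tx i))) (Bd.sin_ne_zero_of_re (np i).1)
  have t2 : ∀ i, Tendsto (fun e => 1 / sin (z - x e i - 2 * l)) F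
      (𝓝 (1 / sin (z - x0 i - 2 * l))) := fun i =>
    tendsto_const_nhds.div ((Complex.continuous_sin.tendsto _).comp
      ((tendsto_const_nhds.sub (tx i)).sub_const _)) (Bd.sin_ne_zero_of_re (by
        have := (np i).2
        simpa using this))
  have t3 : ∀ i, Tendsto (fun e => sin (z - y e i + 3 * l) ^ 2) F
      (𝓝 (sin (z - y0 i + 3 * l) ^ 2)) := fun i =>
    ((Complex.continuous_sin.tendsto _).comp
      ((tendsto_const_nhds.sub (ty i)).add_const _)).pow 2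
  have t4 : ∀ i, Tendsto (fun e => psi β (z - x e i)) F (𝓝 (psi β (z - x0 i))) := fun i =>
    ((diff_psi' (by
      rw [sub_re]
      exact NQr_K3r hβ hβ' hr _ hz _ (hx0 i))).continuousAt.tendsto).comp
      (tendsto_const_nhds.sub (tx i))
  unfold GU NUP1.N.Gr0 NUP1.Leg.hr PBX.ph
  exact (((tendsto_const_nhds.mul (tendsto_finsetProd _ fun i _ => t2 i)).mul
    (tendsto_finsetProd _ fun i _ => t3 i)).mul
      ((tendsto_const_nhds.sub ((tendsto_finsetProd _ fun i _ => t4 i).mul_const _)).mul ts)).mul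
      (tendsto_finsetProd _ fun i _ => t1 i)

/-- convergent rows have bounded heights -/
theorem im_evU {E : Type*} {F : Filter E} {x : E → Fin m → ℂ} {y : E → Fin M → ℂ} {x0 : Fin m → ℂ}
    {y0 : Fin M → ℂ} (tx : ∀ i, Tendsto (fun e => x e i) F (𝓝 (x0 i)))
    (ty : ∀ i, Tendsto (fun e => y e i) F (𝓝 (y0 i))) :
    ∀ᶠ e in F, (∀ i, |(x e i).im| ≤ ∑ j, |(x0 j).im| + ∑ j, |(y0 j).im| + 1) ∧
      ∀ i, |(y e i).im| ≤ ∑ j, |(x0 j).im| + ∑ j, |(y0 j).im| + 1 := by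
  have key : ∀ {k : ℕ} {x : E → Fin k → ℂ} {x0 : Fin k → ℂ},
      (∀ i, Tendsto (fun e => x e i) F (𝓝 (x0 i))) →
      ∀ᶠ e in F, ∀ i, |(x e i).im| ≤ ∑ j, |(x0 j).im| + 1 := by
    intro k x x0 tx
    refine eventually_all.2 fun i => ?_
    have h1 : Tendsto (fun e => |(x e i).im|) F (𝓝 |(x0 i).im|) :=
      ((Complex.continuous_im.tendsto _).comp (tx i)).abs
    have h2 := im_le x0 i
    exact (h1.eventually_le_const (u := ∑ j, |(x0 j).im| + 1) (by linarith)).mono fun e h => h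
  have p1 := Finset.sum_nonneg fun j (_ : j ∈ (Finset.univ : Finset (Fin m))) =>
    abs_nonneg (x0 j).im
  have p2 := Finset.sum_nonneg fun j (_ : j ∈ (Finset.univ : Finset (Fin M))) =>
    abs_nonneg (y0 j).im
  filter_upwards [key tx, key ty] with e h1 h2
  exact ⟨fun i => (h1 i).trans (by linarith), fun i => (h2 i).trans (by linarith)⟩

/-- a strip slightly larger than the rows -/
theorem exists_stripU {x : Fin m → ℂ} {y : Fin M → ℂ} (hx : ∀ i, |(x i).re| < 3 / 5 * l)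
    (hy : ∀ i, |(y i).re| < 3 / 5 * l) :
    ∃ r : ℝ, r < 3 / 5 * l ∧ (∀ i, |(x i).re| < r) ∧ ∀ i, |(y i).re| < r := by
  have h1 : ∀ {k : ℕ} {x : Fin k → ℂ}, (∀ i, |(x i).re| < 3 / 5 * l) →
      ∀ᶠ r in 𝓝[<] (3 / 5 * l), ∀ i, |(x i).re| < r := fun hx =>
    eventually_all.2 fun i => (eventually_gt_nhds (hx i)).filter_mono nhdsWithin_le_nhds
  have h2 : ∀ᶠ r in 𝓝[<] (3 / 5 * l), r < 3 / 5 * l := self_mem_nhdsWithin
  obtain ⟨r, hr⟩ := (h2.and ((h1 hx).and (h1 hy))).exists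
  exact ⟨r, hr.1, hr.2.1, hr.2.2⟩

/-- **Joint continuity** for rows in the larger strip. -/
theorem DZU_tendsto' {E : Type*} {F : Filter E} [F.IsCountablyGenerated] {r q : ℝ}
    (hr : r < 3 / 5 * l) (c c' : ℂ) {x : E → Fin m → ℂ} {y : E → Fin M → ℂ} {x0 : Fin m → ℂ}
    {y0 : Fin M → ℂ}
    (hx : ∀ᶠ e in F, Rwr r (x e) ∧ Rwr r (y e)) (hx0 : Rwr r x0) (hy0 : Rwr r y0)
    (tx : ∀ i, Tendsto (fun e => x e i) F (𝓝 (x0 i)))
    (ty : ∀ i, Tendsto (fun e => y e i) F (𝓝 (y0 i))) {s t : E → ℂ → ℂ} {s0 t0 : ℂ → ℂ} {D : ℝ}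
    (hD : 0 ≤ D)
    (hs : ∀ᶠ e in F, Measurable (s e) ∧ Measurable (t e) ∧ ∀ z : ℂ, z.re ∈ K3 →
      ‖s e z‖ ≤ D * Real.exp (2 * q * |z.im|) ∧ ‖t e z‖ ≤ D * Real.exp (2 * (-q) * |z.im|))
    (ts : ∀ z : ℂ, z.re ∈ K3 → Tendsto (fun e => s e z) F (𝓝 (s0 z)))
    (tt : ∀ z : ℂ, z.re ∈ K3 → Tendsto (fun e => t e z) F (𝓝 (t0 z))) {n n' : ℕ}
    (hn : (n' : ℝ) + m = n + M + q) :
    Tendsto (fun e => DZU c c' (s e) (t e) (x e) (y e) n n') F (𝓝 (DZU c c' s0 t0 x0 y0 n n')) := by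
  have hl := Bd.l_pos
  set R : ℝ := ∑ j, |(x0 j).im| + ∑ j, |(y0 j).im| + 1 with hR
  have bd := im_evU tx ty
  set S : Set E := {e | (Rwr r (x e) ∧ Rwr r (y e)) ∧ ((∀ i, |(x e i).im| ≤ R) ∧
    ∀ i, |(y e i).im| ≤ R) ∧ (Measurable (s e) ∧ Measurable (t e) ∧ ∀ z : ℂ, z.re ∈ K3 →
      ‖s e z‖ ≤ D * Real.exp (2 * q * |z.im|) ∧ ‖t e z‖ ≤ D * Real.exp (2 * (-q) * |z.im|))} with hS
  have hSF : ∀ᶠ e in F, e ∈ S := hx.and (bd.and hs)
  obtain ⟨C1, hC1, b1⟩ := GU_ubr (S := S) (R := R) (β := 4 / 3) (by norm_num) le_rfl hr c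
    (x := x) (y := y) (s := s) (GOk.one _) (fun e he => he.1.1) (fun e he => he.1.2)
    (fun e he => he.2.1.1) (fun e he => he.2.1.2) hD (fun e he z hz => (he.2.2.2.2 z hz).1)
  obtain ⟨C2, hC2, b2⟩ := GU_ubr (S := S) (R := R) (β := 4 / 3) (by norm_num) le_rfl hr c'
    (x := y) (y := x) (s := t) (GOk.one _) (fun e he => he.1.2) (fun e he => he.1.1)
    (fun e he => he.2.1.2) (fun e he => he.2.1.1) hD (fun e he z hz => (he.2.2.2.2 z hz).2)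
  refine NUP1.N.Z3_tendsto (D := max C1 C2) (κ := 2 * (4 / 3) - 2 * ((M : ℝ) - m) - 2 * q)
    (κ' := 2 * (4 / 3) - 2 * ((m : ℝ) - M) - 2 * (-q)) (by linarith)
    (by linarith) (hSF.mono fun e he => measurable_GU c _ _ _ measurable_const he.2.2.1)
    (hSF.mono fun e he => measurable_GU c' _ _ _ measurable_const he.2.2.2.1)
    (fun z hz => GU_tendstor (by norm_num) le_rfl c _ hr hx0 tx ty (mem_K3 hz) (ts z (mem_K3 hz)))
    (fun z hz => GU_tendstor (by norm_num) le_rfl c' _ hr hy0 ty tx (mem_K3 hz)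
      (tt z (mem_K3 hz)))
    (hSF.mono fun e he z hz => ?_) (hSF.mono fun e he z hz => ?_)
    (by linarith) (by linarith)
  · exact (b1 e he z (mem_K3 hz)).trans
      (mul_le_mul_of_nonneg_right (le_max_left _ _) (Real.exp_pos _).le)
  · exact (b2 e he z (mem_K3 hz)).trans
      (mul_le_mul_of_nonneg_right (le_max_right _ _) (Real.exp_pos _).le)

/-- **Uniform bound of the state sum.** -/
theorem DZU_ub (m M : ℕ) {r R D q : ℝ} (hr : r < 3 / 5 * l) (hD : 0 ≤ D) (c c' : ℂ) {n n' : ℕ}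
    (hn : (n' : ℝ) + m = n + M + q) :
    ∃ C : ℝ, 0 ≤ C ∧ ∀ (x : Fin m → ℂ) (y : Fin M → ℂ) (s t : ℂ → ℂ), Rwr r x → Rwr r y →
      (∀ i, |(x i).im| ≤ R) → (∀ i, |(y i).im| ≤ R) →
      (∀ z : ℂ, z.re ∈ K3 → ‖s z‖ ≤ D * Real.exp (2 * q * |z.im|) ∧
        ‖t z‖ ≤ D * Real.exp (2 * (-q) * |z.im|)) → ‖DZU c c' s t x y n n'‖ ≤ C := by
  have hl := Bd.l_pos
  set E := (Fin m → ℂ) × (Fin M → ℂ) × (ℂ → ℂ) × (ℂ → ℂ)
  set S : Set E := {e | Rwr r e.1 ∧ Rwr r e.2.1 ∧ (∀ i, |(e.1 i).im| ≤ R) ∧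
    (∀ i, |(e.2.1 i).im| ≤ R) ∧ ∀ z : ℂ, z.re ∈ K3 → ‖e.2.2.1 z‖ ≤ D * Real.exp (2 * q * |z.im|) ∧
      ‖e.2.2.2 z‖ ≤ D * Real.exp (2 * (-q) * |z.im|)} with hS
  obtain ⟨C1, hC1, b1⟩ := GU_ubr (E := E) (S := S) (R := R) (β := 4 / 3) (by norm_num) le_rfl hr c
    (x := fun e => e.1) (y := fun e => e.2.1) (s := fun e => e.2.2.1) (GOk.one _)
    (fun e he => he.1) (fun e he => he.2.1) (fun e he => he.2.2.1) (fun e he => he.2.2.2.1) hD
    (fun e he z hz => (he.2.2.2.2 z hz).1)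
  obtain ⟨C2, hC2, b2⟩ := GU_ubr (E := E) (S := S) (R := R) (β := 4 / 3) (by norm_num) le_rfl hr c'
    (x := fun e => e.2.1) (y := fun e => e.1) (s := fun e => e.2.2.2) (GOk.one _)
    (fun e he => he.2.1) (fun e he => he.1) (fun e he => he.2.2.2.1) (fun e he => he.2.2.1) hD
    (fun e he z hz => (he.2.2.2.2 z hz).2)
  obtain ⟨K, hK, h⟩ := NUP1.N.Z3_ub (α := 3 / 5 * l) (β := -(17 / 10 * l)) (by linarith)
    (by linarith) n n' (max C1 C2) (2 * (4 / 3) - 2 * ((M : ℝ) - m) - 2 * q)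
    (2 * (4 / 3) - 2 * ((m : ℝ) - M) - 2 * (-q)) (by linarith) (by linarith)
  refine ⟨K, hK, fun x y s t hx hy bx by' hst => ?_⟩
  have he : ((x, y, s, t) : E) ∈ S := ⟨hx, hy, bx, by', hst⟩
  refine h _ _ (fun z hz => ?_) (fun z hz => ?_)
  · exact (b1 _ he z (mem_K3 hz)).trans
      (mul_le_mul_of_nonneg_right (le_max_left _ _) (Real.exp_pos _).le)
  · exact (b2 _ he z (mem_K3 hz)).trans
      (mul_le_mul_of_nonneg_right (le_max_right _ _) (Real.exp_pos _).le)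

/-- **The state sum is holomorphic along analytic curves of rows and spectators.** -/
theorem DZU_hol (c c' : ℂ) {x : ℂ → Fin m → ℂ} {y : ℂ → Fin M → ℂ} {s t : ℂ → ℂ → ℂ} {θ0 : ℂ}
    {D q : ℝ} (hD : 0 ≤ D)
    (hx : ∀ i, |(x θ0 i).re| < 3 / 5 * l) (hy : ∀ i, |(y θ0 i).re| < 3 / 5 * l)
    (dx : ∀ᶠ θ in 𝓝 θ0, ∀ i, DifferentiableAt ℂ (fun θ => x θ i) θ)
    (dy : ∀ᶠ θ in 𝓝 θ0, ∀ i, DifferentiableAt ℂ (fun θ => y θ i) θ)
    (hs : ∀ᶠ θ in 𝓝 θ0, Measurable (s θ) ∧ Measurable (t θ) ∧ ∀ z : ℂ, z.re ∈ K3 →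
      ‖s θ z‖ ≤ D * Real.exp (2 * q * |z.im|) ∧ ‖t θ z‖ ≤ D * Real.exp (2 * (-q) * |z.im|))
    (ds : ∀ᶠ θ in 𝓝 θ0, ∀ z : ℂ, z.re ∈ K3 → DifferentiableAt ℂ (fun θ => s θ z) θ ∧
      DifferentiableAt ℂ (fun θ => t θ z) θ) {n n' : ℕ} (hn : (n' : ℝ) + m = n + M + q) :
    DifferentiableAt ℂ (fun θ => DZU c c' (s θ) (t θ) (x θ) (y θ) n n') θ0 := by
  have hl := Bd.l_pos
  obtain ⟨r, hr, rx, ry⟩ := exists_stripU hx hy
  have tx : ∀ i, Tendsto (fun θ => x θ i) (𝓝 θ0) (𝓝 (x θ0 i)) := fun i =>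
    (dx.self_of_nhds i).continuousAt
  have ty : ∀ i, Tendsto (fun θ => y θ i) (𝓝 θ0) (𝓝 (y θ0 i)) := fun i =>
    (dy.self_of_nhds i).continuousAt
  set R : ℝ := ∑ j, |(x θ0 j).im| + ∑ j, |(y θ0 j).im| + 1 with hR
  set S : Set ℂ := {e | (Rwr r (x e) ∧ Rwr r (y e)) ∧ ((∀ i, |(x e i).im| ≤ R) ∧
    ∀ i, |(y e i).im| ≤ R) ∧ (Measurable (s e) ∧ Measurable (t e) ∧ ∀ z : ℂ, z.re ∈ K3 →
      ‖s e z‖ ≤ D * Real.exp (2 * q * |z.im|) ∧ ‖t e z‖ ≤ D * Real.exp (2 * (-q) * |z.im|))} with hS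
  have hSF : ∀ᶠ e in 𝓝 θ0, e ∈ S :=
    ((re_ev tx rx).and (re_ev ty ry)).and ((im_evU tx ty).and hs)
  obtain ⟨C1, hC1, b1⟩ := GU_ubr (S := S) (R := R) (β := 4 / 3) (by norm_num) le_rfl hr c
    (x := x) (y := y) (s := s) (GOk.one _) (fun e he => he.1.1) (fun e he => he.1.2)
    (fun e he => he.2.1.1) (fun e he => he.2.1.2) hD (fun e he z hz => (he.2.2.2.2 z hz).1)
  obtain ⟨C2, hC2, b2⟩ := GU_ubr (S := S) (R := R) (β := 4 / 3) (by norm_num) le_rfl hr c'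
    (x := y) (y := x) (s := t) (GOk.one _) (fun e he => he.1.2) (fun e he => he.1.1)
    (fun e he => he.2.1.2) (fun e he => he.2.1.1) hD (fun e he z hz => (he.2.2.2.2 z hz).2)
  refine NUP1.N.Z3_hol (D := max C1 C2) (κ := 2 * (4 / 3) - 2 * ((M : ℝ) - m) - 2 * q)
    (κ' := 2 * (4 / 3) - 2 * ((m : ℝ) - M) - 2 * (-q)) (by linarith)
    (by linarith) (hSF.mono fun e he => measurable_GU c _ _ _ measurable_const he.2.2.1)
    (hSF.mono fun e he => measurable_GU c' _ _ _ measurable_const he.2.2.2.1)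
    ?_ ?_ (hSF.mono fun e he z hz => ?_) (hSF.mono fun e he z hz => ?_)
    (by linarith) (by linarith)
  · filter_upwards [hSF, dx, dy, ds] with e he hdx hdy hds z hz
    exact GU_hol (by norm_num) le_rfl c _ hr he.1.1 hdx hdy (mem_K3 hz) (hds z (mem_K3 hz)).1
  · filter_upwards [hSF, dx, dy, ds] with e he hdx hdy hds z hz
    exact GU_hol (by norm_num) le_rfl c' _ hr he.1.2 hdy hdx (mem_K3 hz) (hds z (mem_K3 hz)).2
  · exact (b1 e he z (mem_K3 hz)).trans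
      (mul_le_mul_of_nonneg_right (le_max_left _ _) (Real.exp_pos _).le)
  · exact (b2 e he z (mem_K3 hz)).trans
      (mul_le_mul_of_nonneg_right (le_max_right _ _) (Real.exp_pos _).le)

/-! ## the legs -/

/-- **Holomorphy with legs**, `n' + m = n + M`. -/
theorem DZU_Lg_hol (c c' : ℂ) {p q : ℂ → ℂ} {x : ℂ → Fin m → ℂ} {y : ℂ → Fin M → ℂ} {θ0 : ℂ}
    (hx : ∀ i, |(x θ0 i).re| < 3 / 5 * l) (hy : ∀ i, |(y θ0 i).re| < 3 / 5 * l)
    (dx : ∀ᶠ θ in 𝓝 θ0, ∀ i, DifferentiableAt ℂ (fun θ => x θ i) θ)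
    (dy : ∀ᶠ θ in 𝓝 θ0, ∀ i, DifferentiableAt ℂ (fun θ => y θ i) θ)
    (dp : ∀ᶠ θ in 𝓝 θ0, DifferentiableAt ℂ p θ) (dq : ∀ᶠ θ in 𝓝 θ0, DifferentiableAt ℂ q θ)
    (hp : LgR (p θ0)) (hq : LgR (q θ0)) {n n' : ℕ} (hn : (n' : ℝ) + m = n + M) :
    DifferentiableAt ℂ (fun θ => DZU c c' (Lg (p θ) (q θ)) (Lg (q θ) (p θ)) (x θ) (y θ) n n') θ0 := by
  have tp : Tendsto p (𝓝 θ0) (𝓝 (p θ0)) := dp.self_of_nhds.continuousAt
  have tq : Tendsto q (𝓝 θ0) (𝓝 (q θ0)) := dq.self_of_nhds.continuousAt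
  obtain ⟨D1, hD1, b1⟩ := Lg_ev tp tq hp.1 hp.2
  obtain ⟨D2, hD2, b2⟩ := Lg_ev tq tp hq.1 hq.2
  refine DZU_hol c c' (s := fun θ => Lg (p θ) (q θ)) (t := fun θ => Lg (q θ) (p θ))
    (D := max D1 D2) (q := 0) (le_max_of_le_left hD1) hx hy dx dy ?_ ?_ (by linarith)
  · filter_upwards [b1, b2] with θ h1 h2
    refine ⟨Lg_meas _ _, Lg_meas _ _, fun z hz => ⟨?_, ?_⟩⟩
    · simpa using (h1 z hz).trans (le_max_left D1 D2)
    · simpa using (h2 z hz).trans (le_max_right D1 D2)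
  · filter_upwards [dp, dq, LgR.ev tp hp, LgR.ev tq hq] with θ h1 h2 h3 h4 z hz
    exact ⟨Lg_hol h1 h2 h3.1 h3.2 hz, Lg_hol h2 h1 h4.1 h4.2 hz⟩

/-- **Joint continuity with legs.** -/
theorem DZU_Lg_tendsto {E : Type*} {F : Filter E} [F.IsCountablyGenerated] (c c' : ℂ)
    {p q : E → ℂ} {p0 q0 : ℂ} {x : E → Fin m → ℂ} {y : E → Fin M → ℂ} {x0 : Fin m → ℂ} {y0 : Fin M → ℂ}
    (hx0 : ∀ i, |(x0 i).re| < 3 / 5 * l) (hy0 : ∀ i, |(y0 i).re| < 3 / 5 * l)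
    (tx : ∀ i, Tendsto (fun e => x e i) F (𝓝 (x0 i)))
    (ty : ∀ i, Tendsto (fun e => y e i) F (𝓝 (y0 i))) (tp : Tendsto p F (𝓝 p0))
    (tq : Tendsto q F (𝓝 q0)) (hp : LgR p0) (hq : LgR q0) {n n' : ℕ} (hn : (n' : ℝ) + m = n + M) :
    Tendsto (fun e => DZU c c' (Lg (p e) (q e)) (Lg (q e) (p e)) (x e) (y e) n n') F
      (𝓝 (DZU c c' (Lg p0 q0) (Lg q0 p0) x0 y0 n n')) := by
  obtain ⟨D1, hD1, b1⟩ := Lg_ev tp tq hp.1 hp.2
  obtain ⟨D2, hD2, b2⟩ := Lg_ev tq tp hq.1 hq.2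
  obtain ⟨r, hr, rx, ry⟩ := exists_stripU hx0 hy0
  refine DZU_tendsto' (D := max D1 D2) (q := 0) hr c c' ((re_ev tx rx).and (re_ev ty ry))
    (fun i => (rx i).le) (fun i => (ry i).le) tx ty (le_max_of_le_left hD1) ?_
    (fun z hz => Lg_tendsto tp tq hp.1 hp.2 hz) (fun z hz => Lg_tendsto tq tp hq.1 hq.2 hz)
    (by linarith)
  filter_upwards [b1, b2] with θ h1 h2
  refine ⟨Lg_meas _ _, Lg_meas _ _, fun z hz => ⟨?_, ?_⟩⟩
  · simpa using (h1 z hz).trans (le_max_left D1 D2)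
  · simpa using (h2 z hz).trans (le_max_right D1 D2)

end Pool.Agent.PLX

end
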