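import Pool.Agent.PB.FunH

/-!
# The function side in the narrow strip (helper72)

`σP = l / 20 = π / 160`: the functions of the legs are bounded on `|Re z| ≤ 3 l + l / 20` only (the
particle-hole form of the strings has its hole lines left of the zero `z - 3 l` of the legs).
`1/80 log j = (2 σP / π) log j`.

* **`kLP`**: the `K`-terms and the coefficients, `|Im z| ≤ 1/100 log j + 1`; `bP j k`: the coefficients.
-/

set_option autoImplicit false

noncomputable section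

open Complex MeasureTheory Set Filter Topology
open Pool.Agent.PB.Rec (EL EL_coef seg)
open PBV (aL aL_pos pi_div_aL kc FD kterm cf_le1)

namespace Pool.Agent.PLX

/-- `l / 20` -/
def σP : ℝ := Real.pi / 160

theorem σP_pos : 0 < σP := by unfold σP; positivity

theorem σP_lt : σP < aL := by
  unfold σP PBV.aL
  have := Real.pi_pos
  linarith

theorem two_σP : 2 * σP / Real.pi = 1 / 80 := by
  unfold σP
  have := Real.pi_ne_zero
  field_simp
  norm_num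

/-- the coefficients of `f j` -/
def bP (f : ℕ → ℂ → ℂ) (j : ℕ) (k : ℤ) : ℂ := kc aL σP (1 / 5) j (f j) k

/-- **K-terms of functions with `FD`, narrow strip** -/
theorem kLP (C e : ℝ) {ρ : ℝ} (hρ : 0 ≤ ρ) (hρσ : ρ < σP) :
    ∃ K0 : ℕ, ∀ K ≥ K0, ∃ V : ℝ, 0 < V ∧ ∀ᶠ j : ℕ in atTop, ∀ f : ℂ → ℂ, FD aL σP 1 0 C j f →
      (∀ z : ℂ, |z.re| ≤ aL + ρ → |z.im| ≤ 1 / 100 * Real.log j + 1 →
        ‖f z - EL (8 / 3) K (kc aL σP (1 / 5) j f) z‖ ≤ (j : ℝ) ^ (-e)) ∧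
      ∀ S : ℝ, (∀ t ∈ Icc (0 : ℝ) 1, ‖f (I * t)‖ ≤ S) →
        ∀ k ∈ Finset.Icc (-(K : ℤ)) K, ‖kc aL σP (1 / 5) j f k‖ ≤ V * (S + (j : ℝ) ^ (-e)) := by
  obtain ⟨K0, hK0⟩ := kterm (a := aL) (σ := σP) (ρ := ρ) (y₀ := 1) (b₀ := 0) (ε := 1 / 5) C e hρ hρσ
    σP_lt le_rfl σP_pos zero_le_one (by norm_num) (by norm_num)
  refine ⟨K0, fun K hK => ?_⟩
  obtain ⟨N0, hN0⟩ := hK0 K hK
  obtain ⟨V, hV0, hV⟩ := cf_le1 aL_pos K
  rw [pi_div_aL] at hV
  refine ⟨V, hV0, ?_⟩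
  filter_upwards [eventually_ge_atTop N0, eventually_ge_atTop 1] with j hj hj1 f hf
  have hL : 0 ≤ Real.log j := Real.log_nonneg (by exact_mod_cast hj1)
  have h1 : ∀ z : ℂ, |z.re| ≤ aL + ρ → |z.im| ≤ 1 / 100 * Real.log j + 1 →
      ‖f z - EL (8 / 3) K (kc aL σP (1 / 5) j f) z‖ ≤ (j : ℝ) ^ (-e) := by
    intro z hz hzi
    have := hN0 j hj f hf z hz (by rw [two_σP]; linarith)
    rwa [pi_div_aL] at this
  refine ⟨h1, fun S hS k hk => hV f _ S _ hS (fun t ht => h1 _ ?_ ?_) k hk⟩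
  · have := aL_pos
    simpa using (show 0 ≤ aL + ρ by linarith)
  · simp only [mul_im, I_re, ofReal_im, mul_zero, I_im, ofReal_re, one_mul, zero_add]
    rw [abs_of_nonneg ht.1]
    linarith [ht.2]

end Pool.Agent.PLX

end
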