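import Pool.Agent.PLX.RayZ
import Pool.Agent.PLX.FunS

/-!
# The recursion along a ray: the chain (helper3)

`f m` = the normalised function of the pure content with number `m` (legs at `z`), `F m j v z` = the same
after the elimination of `j` of the `n` extra rows, the other extra rows at `v`;
`F m 0 (0, .., 0) = f (m + 1)`, `F m n [] = f (m - 1)`.

* `RayH n C f F` : zeros and crude bound in the legs (`FD`), `K` terms in one row up to `3 l` (legs on the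
  axis), the exact elimination at `3 l`, the sharp bounds on the axis;
* **`RayH.chain`** : with `(E')` (`PBV.EPr`, all extra rows together at `i s`), `c < 2 / 3`: the
  coefficients `k ≠ 0` are `O(m^{-c})`, the zero coefficient has `|g (m + 2) - g m| = O(m^{-(1 + c)})`;
* **`RayH.out`** : `FunO2`, the form needed by the transfer; `FunO2.lim` : the limit for each parity.
-/

set_option autoImplicit false

noncomputable section

open Complex Filter Topology Set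
open Pool.Agent.PB.Rec (EL EL_coef EL_sub EL_le seg Bx Op seq_small)
open PBV (aL aL_pos pi_div_aL kc FD EPr log_ev)

namespace Pool.Agent.PLX

/-- the hypotheses of the function side along a ray -/
structure RayH (n : ℕ) (C : ℝ) (f : ℕ → ℂ → ℂ) (F : ℕ → ℕ → List ℂ → ℂ → ℂ) : Prop where
  ff : ∀ᶠ m : ℕ in atTop, FD aL σP 1 0 C m (f m)
  fp : ∀ᶠ m : ℕ in atTop, ∀ x ∈ seg 0, FD aL σP 1 0 C m (fun z => F m 0 (List.replicate n x) z)
  p0 : ∀ᶠ m : ℕ in atTop, ∀ z, F m 0 (List.replicate n 0) z = f (m + 1) z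
  p1 : ∀ᶠ m : ℕ in atTop, ∀ t ∈ Icc (0 : ℝ) 1, F m n [] (I * t) = f (m - 1) (I * t)
  uf : ∀ ε : ℝ, 0 < ε → ∀ᶠ m : ℕ in atTop, ∀ z : ℂ, |z.re| ≤ aL →
    |z.im| ≤ 9 / 80 * Real.log m + 1 → ‖f m z‖ ≤ (m : ℝ) ^ ε * Real.exp (2 * |z.im|)
  up : ∀ ε : ℝ, 0 < ε → ∀ᶠ m : ℕ in atTop, ∀ x ∈ seg 0, ∀ t ∈ Icc (0 : ℝ) 1,
    ‖F m 0 (List.replicate n x) (I * t)‖ ≤ (m : ℝ) ^ ε
  kx : ∀ e : ℝ, ∃ Kx : ℕ, 1 ≤ Kx ∧ ∀ᶠ m : ℕ in atTop, ∀ t ∈ Icc (0 : ℝ) 1,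
    (∀ u v : List ℂ, u.length + 1 + v.length = n → (∀ x ∈ u, Ax x) → (∀ x ∈ v, Ax x) →
      Kt (8 / 3) Kx (fun x => Ax x ∨ x = (aL : ℂ)) ((m : ℝ) ^ (-e)) fun x => F m 0 (u ++ x :: v) (I * t)) ∧
    ∀ j, j < n → ∀ v : List ℂ, v.length = n - j - 1 → (∀ x ∈ v, Ax x) →
      Kt (8 / 3) Kx (fun x => Ax x ∨ x = (aL : ℂ)) ((m : ℝ) ^ (-e)) fun x => F m j (x :: v) (I * t)
  cx : ∀ᶠ m : ℕ in atTop, ∀ t ∈ Icc (0 : ℝ) 1, ∀ j, j < n → ∀ v : List ℂ, v.length = n - j - 1 →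
    (∀ x ∈ v, Ax x) → F m j ((aL : ℂ) :: v) (I * t) = F m (j + 1) v (I * t)

variable {n : ℕ} {C : ℝ} {f : ℕ → ℂ → ℂ} {F : ℕ → ℕ → List ℂ → ℂ → ℂ}

theorem w_aL : (8 / 3 : ℝ) * aL = Real.pi := by
  unfold PBV.aL
  ring

theorem shift_pow {m : ℕ} (hm : 2 ≤ m) {c : ℝ} (hc : 0 ≤ c) (hc1 : c ≤ 1) :
    ((m - 1 : ℕ) : ℝ) ^ (-(1 + c)) ≤ 4 * (m : ℝ) ^ (-(1 + c)) := by
  have hm0 : (2 : ℝ) ≤ m := by exact_mod_cast hm
  have h1 : (m : ℝ) / 2 ≤ ((m - 1 : ℕ) : ℝ) := by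
    rw [Nat.cast_sub (by omega)]
    push_cast
    linarith
  calc ((m - 1 : ℕ) : ℝ) ^ (-(1 + c)) ≤ ((m : ℝ) / 2) ^ (-(1 + c)) :=
        Real.rpow_le_rpow_of_nonpos (by linarith) h1 (by linarith)
    _ = 2 ^ (1 + c) * (m : ℝ) ^ (-(1 + c)) := by
        rw [Real.div_rpow (by linarith) (by norm_num), Real.rpow_neg (by norm_num : (0 : ℝ) ≤ 2)]
        field_simp
    _ ≤ 4 * (m : ℝ) ^ (-(1 + c)) := by
        have h2 : (2 : ℝ) ^ (1 + c) ≤ 4 := by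
          calc (2 : ℝ) ^ (1 + c) ≤ 2 ^ (2 : ℝ) :=
                Real.rpow_le_rpow_of_exponent_le (by norm_num) (by linarith)
            _ = 4 := by norm_num
        exact mul_le_mul_of_nonneg_right h2 (Real.rpow_nonneg (by linarith) _)

/-- **two steps of the number, all coefficients** -/
theorem RayH.two (h : RayH n C f F) (hn : 1 ≤ n) {c : ℝ} (hc : 0 ≤ c) (hc1 : c < 2 / 3)
    (hE : EPr c fun m z x => F m 0 (List.replicate n x) z) :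
    ∃ K0 : ℕ, ∀ K ≥ K0, ∃ C' : ℝ, 0 ≤ C' ∧ ∀ᶠ m : ℕ in atTop, ∀ k ∈ Finset.Icc (-(K : ℤ)) K,
      ‖bP f (m - 1) k - bP f (m + 1) k * (1 + 4 * (1 / m) * (1 / 8) * (8 / 3) * (k : ℂ) ^ 2)‖ ≤
        C' * (m : ℝ) ^ (-(1 + c)) := by
  obtain ⟨CE, hE⟩ := hE
  obtain ⟨K0, hK0⟩ := kLP C (1 + c) (ρ := 0) le_rfl σP_pos
  obtain ⟨Kx, hKx, hkx⟩ := h.kx (1 + c)
  refine ⟨K0, fun K hK => ?_⟩
  obtain ⟨V, hV0, hV⟩ := hK0 K hK
  obtain ⟨V1, hV10, hV1⟩ := EL_coef (w := 8 / 3) (by norm_num) K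
  have hnK : 1 ≤ n * Kx := Nat.mul_pos hn hKx
  obtain ⟨C2, hC20, hC2⟩ := ray_two (w := 8 / 3) (L := aL) (R := aL) (by norm_num) w_aL aL_pos K Kx n hnK
    (1 / 8) (-(I / 2))
  set Mx : ℝ := 1 + 4 * (1 / 8) * (8 / 3) * (K : ℝ) ^ 2 with hMx
  have hMx0 : 0 ≤ Mx := by positivity
  set D : ℝ := C2 * (4 + |CE| + 2 * V) + V1 * 8 * Mx with hD
  refine ⟨D, by positivity, ?_⟩
  have hp1 : Tendsto (fun m : ℕ => m + 1) atTop atTop := tendsto_add_atTop_nat 1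
  have hm1 : Tendsto (fun m : ℕ => m - 1) atTop atTop := tendsto_sub_atTop_nat 1
  filter_upwards [hV, hp1.eventually hV, hm1.eventually hV, h.fp, hp1.eventually h.ff,
    hm1.eventually h.ff, h.p0, h.p1, h.up (1 / 3) (by norm_num), hkx, h.cx, hE,
    log_ev 100, hp1.eventually (log_ev 100), hm1.eventually (log_ev 100), eventually_ge_atTop 2]
    with m v0 v1 v2 gp f1 f2 gp0 gp1 gu gk gc gE l0 l1 l2 hm2 k hk
  have hm0 : (0 : ℝ) < m := by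
    have : 0 < m := by omega
    exact_mod_cast this
  have hm1' : (1 : ℝ) ≤ m := by
    have : 1 ≤ m := by omega
    exact_mod_cast this
  have hpn : 0 ≤ (m : ℝ) ^ (-(1 + c)) := Real.rpow_nonneg hm0.le _
  have haL := aL_pos
  have e13 : 1 ≤ (m : ℝ) ^ (1 / 3 : ℝ) := Real.one_le_rpow hm1' (by norm_num)
  have hple : (m : ℝ) ^ (-(1 + c)) ≤ 1 := Real.rpow_le_one_of_one_le_of_nonpos hm1' (by (clear * - hc; linarith))
  -- errors
  have em1 : ((m - 1 : ℕ) : ℝ) ^ (-(1 + c)) ≤ 4 * (m : ℝ) ^ (-(1 + c)) :=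
    shift_pow hm2 hc (by (clear * - hc1; linarith))
  have ep1 : ((m + 1 : ℕ) : ℝ) ^ (-(1 + c)) ≤ 4 * (m : ℝ) ^ (-(1 + c)) := by
    have : ((m + 1 : ℕ) : ℝ) ^ (-(1 + c)) ≤ (m : ℝ) ^ (-(1 + c)) := by
      refine Real.rpow_le_rpow_of_nonpos hm0 ?_ (by linarith)
      push_cast
      linarith
    linarith
  have bx : ∀ z ∈ Bx aL, |z.re| ≤ aL + 0 ∧ |z.im| ≤ 2 := fun z hz => ⟨by (clear * - hz; linarith [hz.1]), hz.2.le⟩
  have hIt : ∀ t ∈ Icc (0 : ℝ) 1, I * (t : ℂ) ∈ Bx aL := by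
    intro t ht
    refine ⟨by simpa using haL, ?_⟩
    simp only [mul_im, I_re, ofReal_im, mul_zero, I_im, ofReal_re, one_mul, zero_add]
    rw [abs_of_nonneg ht.1]
    clear * - ht
    linarith [ht.2]
  set a : ℂ → ℤ → ℂ := fun x => kc aL σP (1 / 5) m (fun z => F m 0 (List.replicate n x) z) with ha
  have hA : ∀ x ∈ seg 0, ∀ k ∈ Finset.Icc (-(K : ℤ)) K, ‖a x k‖ ≤ 2 * V * (m : ℝ) ^ (1 / 3 : ℝ) := by
    intro x hx k hk
    have e1 := (v0 _ (gp x hx)).2 ((m : ℝ) ^ (1 / 3 : ℝ)) (fun t ht => gu x hx t ht) k hk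
    refine e1.trans ?_
    have : (m : ℝ) ^ (-(1 + c)) ≤ (m : ℝ) ^ (1 / 3 : ℝ) := hple.trans e13
    clear * - this hV0
    nlinarith [mul_le_mul_of_nonneg_left this hV0.le]
  have key := hC2 (F m) (f (m - 1)) (bP f (m - 1)) a (1 / m) (4 * (m : ℝ) ^ (-(1 + c)))
    (|CE| * (m : ℝ) ^ (-(1 + c))) (2 * V * (m : ℝ) ^ (1 / 3 : ℝ)) (by positivity)
    (by rw [div_le_one hm0]; exact hm1') (by positivity)
    (fun x hx z hz => ((gp x hx).df z (by linarith [(bx z hz).1, σP_pos]) (by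
      rw [two_σP]
      clear * - l0 bx hz
      linarith [(bx z hz).2])).differentiableWithinAt)
    (fun x hx z hz => ((v0 _ (gp x hx)).1 z (bx z hz).1 (by linarith [(bx z hz).2])).trans (by linarith))
    hA
    (fun s hs t ht => by
      obtain ⟨D, h1, h2⟩ := gE s hs t ht
      refine ⟨D, h1, ?_⟩
      refine le_trans (le_of_eq ?_) (h2.trans (mul_le_mul_of_nonneg_right (le_abs_self CE) hpn))
      push_cast
      rfl)
    (fun t ht => ((v2 _ f2).1 _ (bx _ (hIt t ht)).1 (by linarith [(bx _ (hIt t ht)).2])).trans em1)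
    (fun t ht => gp1 t ht)
    (fun t ht u v huv hu hv => ((gk t ht).1 u v huv hu hv).mono (by linarith))
    (fun t ht j hj v hv hvA => ((gk t ht).2 j hj v hv hvA).mono (by (clear * - hpn; linarith)))
    (fun t ht j hj v hv hvA => gc t ht j hj v hv hvA) k hk
  -- the two expansions of `f (m + 1)`
  have hb1 : ‖bP f (m + 1) k - a 0 k‖ ≤ V1 * (8 * (m : ℝ) ^ (-(1 + c))) := by
    refine hV1 (fun k => bP f (m + 1) k - a 0 k) _ (fun t ht => ?_) k hk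
    rw [EL_sub]
    have h0m : (0 : ℂ) ∈ seg 0 := ⟨0, ⟨le_rfl, zero_le_one⟩, by simp⟩
    have g1 := (v1 _ f1).1 _ (bx _ (hIt t ht)).1 (by (clear * - l1 bx hIt ht; linarith [(bx _ (hIt t ht)).2]))
    have g2 := (v0 _ (gp 0 h0m)).1 _ (bx _ (hIt t ht)).1 (by (clear * - l0 bx hIt ht; linarith [(bx _ (hIt t ht)).2]))
    rw [gp0] at g2
    have e : EL (8 / 3) K (bP f (m + 1)) (I * t) - EL (8 / 3) K (a 0) (I * t) =
        (f (m + 1) (I * t) - EL (8 / 3) K (a 0) (I * t)) -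
          (f (m + 1) (I * t) - EL (8 / 3) K (bP f (m + 1)) (I * t)) := by ring
    rw [e]
    refine (norm_sub_le _ _).trans ?_
    have g1' : ‖f (m + 1) (I * t) - EL (8 / 3) K (bP f (m + 1)) (I * t)‖ ≤
        4 * (m : ℝ) ^ (-(1 + c)) := g1.trans ep1
    have g2' : ‖f (m + 1) (I * t) - EL (8 / 3) K (a 0) (I * t)‖ ≤ (m : ℝ) ^ (-(1 + c)) := g2
    clear * - a hpn g2 g1'
    linarith
  -- the factor
  have hkk : ‖(k : ℂ)‖ ≤ K := by
    rw [Complex.norm_intCast, abs_le]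
    rw [Finset.mem_Icc] at hk
    exact ⟨by exact_mod_cast hk.1, by exact_mod_cast hk.2⟩
  have hfac : ‖(1 : ℂ) + 4 * (1 / m) * (1 / 8) * (8 / 3) * (k : ℂ) ^ 2‖ ≤ Mx := by
    refine (norm_add_le _ _).trans ?_
    rw [norm_one, hMx]
    have e1 : ‖(4 : ℂ) * (1 / m) * (1 / 8) * (8 / 3) * (k : ℂ) ^ 2‖ =
        4 * (1 / m) * (1 / 8) * (8 / 3) * ‖(k : ℂ)‖ ^ 2 := by
      rw [norm_mul, norm_pow]
      congr 1
      have : (4 : ℂ) * (1 / m) * (1 / 8) * (8 / 3) = ((4 * (1 / m) * (1 / 8) * (8 / 3) : ℝ) : ℂ) := by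
        push_cast
        ring
      rw [this, norm_real, Real.norm_eq_abs, abs_of_nonneg (by positivity)]
    rw [e1]
    have e2 : (1 : ℝ) / m ≤ 1 := by
      rw [div_le_one hm0]
      exact hm1'
    have e3 : ‖(k : ℂ)‖ ^ 2 ≤ (K : ℝ) ^ 2 := by gcongr
    have e4 : 4 * (1 / (m : ℝ)) * (1 / 8) * (8 / 3) * ‖(k : ℂ)‖ ^ 2 ≤
        4 * 1 * (1 / 8) * (8 / 3) * (K : ℝ) ^ 2 := by (clear * - e2 e3; gcongr)
    clear * - e4
    linarith
  have e1 : bP f (m - 1) k - bP f (m + 1) k * (1 + 4 * (1 / m) * (1 / 8) * (8 / 3) * (k : ℂ) ^ 2) =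
      (bP f (m - 1) k - a 0 k * (1 + 4 * ((1 / m : ℝ) : ℂ) * ((1 / 8 : ℝ) : ℂ) * ((8 / 3 : ℝ) : ℂ) * (k : ℂ) ^ 2)) -
        (bP f (m + 1) k - a 0 k) * (1 + 4 * (1 / m) * (1 / 8) * (8 / 3) * (k : ℂ) ^ 2) := by
    push_cast
    ring
  rw [e1]
  refine (norm_sub_le _ _).trans ?_
  rw [norm_mul]
  have e2 : ‖bP f (m + 1) k - a 0 k‖ * ‖(1 : ℂ) + 4 * (1 / m) * (1 / 8) * (8 / 3) * (k : ℂ) ^ 2‖ ≤
      V1 * (8 * (m : ℝ) ^ (-(1 + c))) * Mx := mul_le_mul hb1 hfac (norm_nonneg _) (by positivity)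
  have e3 : ((1 : ℝ) / m) ^ 2 * (2 * V * (m : ℝ) ^ (1 / 3 : ℝ)) ≤ 2 * V * (m : ℝ) ^ (-(1 + c)) := by
    have g1 : ((1 : ℝ) / m) ^ 2 = (m : ℝ) ^ (-2 : ℝ) := by
      rw [Real.rpow_neg hm0.le, one_div, inv_pow]
      norm_cast
    have g2 : (m : ℝ) ^ (-2 : ℝ) * (m : ℝ) ^ (1 / 3 : ℝ) ≤ (m : ℝ) ^ (-(1 + c)) := by
      rw [← Real.rpow_add hm0]
      exact Real.rpow_le_rpow_of_exponent_le hm1' (by (clear * - hc1; linarith))
    rw [g1]
    calc (m : ℝ) ^ (-2 : ℝ) * (2 * V * (m : ℝ) ^ (1 / 3 : ℝ)) =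
          2 * V * ((m : ℝ) ^ (-2 : ℝ) * (m : ℝ) ^ (1 / 3 : ℝ)) := by ring
      _ ≤ _ := mul_le_mul_of_nonneg_left g2 (by positivity)
  have e4 : C2 * (4 * (m : ℝ) ^ (-(1 + c)) + |CE| * (m : ℝ) ^ (-(1 + c)) +
      ((1 : ℝ) / m) ^ 2 * (2 * V * (m : ℝ) ^ (1 / 3 : ℝ))) ≤
      C2 * (4 + |CE| + 2 * V) * (m : ℝ) ^ (-(1 + c)) := by
    rw [mul_assoc C2]
    refine mul_le_mul_of_nonneg_left ?_ hC20.le
    clear * - e3
    linarith
  have e5 := key.trans e4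
  rw [hD]
  clear * - a Mx key e2 e4
  linarith

/-- **The chain.** -/
theorem RayH.chain (h : RayH n C f F) (hn : 1 ≤ n) {c : ℝ} (hc : 0 ≤ c) (hc1 : c < 2 / 3)
    (hE : EPr c fun m z x => F m 0 (List.replicate n x) z) :
    ∃ K0 : ℕ, ∀ K ≥ K0, (∃ C' : ℝ, ∀ᶠ j : ℕ in atTop, ∀ k ∈ Finset.Icc (-(K : ℤ)) K, k ≠ 0 →
      ‖bP f j k‖ ≤ C' * (j : ℝ) ^ (-c)) ∧
      ∃ C' : ℝ, ∀ᶠ j : ℕ in atTop, ‖bP f (j + 2) 0 - bP f j 0‖ ≤ C' * (j : ℝ) ^ (-(1 + c)) := by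
  obtain ⟨K0, hK0⟩ := h.two hn hc hc1 hE
  refine ⟨K0, fun K hK => ?_⟩
  obtain ⟨C6, hC60, hC6⟩ := hK0 K hK
  have hp1 : Tendsto (fun m : ℕ => m + 1) atTop atTop := tendsto_add_atTop_nat 1
  constructor
  · -- decay of the coefficients with k ≠ 0
    have hdec : ∀ k ∈ Finset.Icc (-(K : ℤ)) K, k ≠ 0 → ∃ D : ℝ, 0 ≤ D ∧ ∀ᶠ m : ℕ in atTop,
        ‖bP f (m - 1) k‖ ≤ D * (m : ℝ) ^ (-c) := by
      intro k hk hk0
      obtain ⟨D, hD⟩ := seq_small (g := fun m => ‖bP f (m - 1) k‖) (θ := 4 / 3) (C := C6) hc (by (clear * - hc1; linarith))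
        (fun j => norm_nonneg _) (by
          filter_upwards [hC6, eventually_ge_atTop 1] with m hm hm1
          have hm0 : (0 : ℝ) < (m : ℝ) := by exact_mod_cast hm1
          have e1 := hm k hk
          have hk2 : (1 : ℝ) ≤ (k : ℝ) ^ 2 := by
            have : (1 : ℤ) ≤ k ^ 2 := by
              have := sq_nonneg k
              have h3 : k ^ 2 ≠ 0 := pow_ne_zero 2 hk0
              omega
            exact_mod_cast this
          have e2 : (1 : ℂ) + 4 * (1 / m) * (1 / 8) * (8 / 3) * (k : ℂ) ^ 2 =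
              ((1 + 4 / 3 * (k : ℝ) ^ 2 / m : ℝ) : ℂ) := by
            push_cast
            ring
          rw [e2] at e1
          have e3 : ‖((1 + 4 / 3 * (k : ℝ) ^ 2 / m : ℝ) : ℂ)‖ = 1 + 4 / 3 * (k : ℝ) ^ 2 / m := by
            rw [norm_real, Real.norm_eq_abs, abs_of_nonneg (by positivity)]
          have e4 : 1 + 4 / 3 / (m : ℝ) ≤ 1 + 4 / 3 * (k : ℝ) ^ 2 / m := by
            have : (4 / 3 : ℝ) ≤ 4 / 3 * (k : ℝ) ^ 2 := by (clear * - hk2; linarith)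
            gcongr
          have e5 := norm_sub_le (bP f (m - 1) k) (bP f (m - 1) k -
            bP f (m + 1) k * ((1 + 4 / 3 * (k : ℝ) ^ 2 / m : ℝ) : ℂ))
          rw [sub_sub_cancel, norm_mul, e3] at e5
          have e6 : ‖bP f (m + 1) k‖ * (1 + 4 / 3 / (m : ℝ)) ≤
              ‖bP f (m + 1) k‖ * (1 + 4 / 3 * (k : ℝ) ^ 2 / m) :=
            mul_le_mul_of_nonneg_left e4 (norm_nonneg _)
          have e7 : m + 2 - 1 = m + 1 := by omega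
          simp only [e7]
          clear * - e1 e5 e6
          linarith)
      refine ⟨|D|, abs_nonneg _, ?_⟩
      filter_upwards [hD] with m hm
      exact hm.trans (mul_le_mul_of_nonneg_right (le_abs_self D) (Real.rpow_nonneg (Nat.cast_nonneg _) _))
    choose! D hD0 hD using hdec
    refine ⟨∑ k ∈ Finset.Icc (-(K : ℤ)) K, |D k|, ?_⟩
    have h3 : ∀ᶠ m : ℕ in atTop, ∀ k ∈ Finset.Icc (-(K : ℤ)) K, k ≠ 0 →
        ‖bP f (m - 1) k‖ ≤ D k * (m : ℝ) ^ (-c) := by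
      rw [Filter.eventually_all_finset]
      intro k hk
      by_cases hk0 : k = 0
      · exact Eventually.of_forall fun j h => absurd hk0 h
      · filter_upwards [hD k hk hk0] with j hj _
        exact hj
    filter_upwards [hp1.eventually h3, eventually_ge_atTop 1] with j hj hj1 k hk hk0
    have hj0 : (0 : ℝ) < j := by exact_mod_cast hj1
    have e1 := hj k hk hk0
    rw [Nat.add_sub_cancel] at e1
    have hmono : ((j + 1 : ℕ) : ℝ) ^ (-c) ≤ (j : ℝ) ^ (-c) := by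
      refine Real.rpow_le_rpow_of_nonpos hj0 ?_ (by linarith)
      push_cast
      linarith
    have hp : 0 ≤ ((j + 1 : ℕ) : ℝ) ^ (-c) := Real.rpow_nonneg (Nat.cast_nonneg _) _
    have hS : D k ≤ ∑ k ∈ Finset.Icc (-(K : ℤ)) K, |D k| :=
      (le_abs_self _).trans (Finset.single_le_sum (f := fun k => |D k|) (fun _ _ => abs_nonneg _) hk)
    have hS0 : 0 ≤ ∑ k ∈ Finset.Icc (-(K : ℤ)) K, |D k| := Finset.sum_nonneg fun _ _ => abs_nonneg _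
    exact e1.trans (mul_le_mul hS hmono hp hS0)
  · -- the zero coefficient
    refine ⟨C6, ?_⟩
    filter_upwards [hp1.eventually hC6, eventually_ge_atTop 1] with j hj hj1
    have hj0 : (0 : ℝ) < j := by exact_mod_cast hj1
    have e1 := hj 0 (by simp)
    simp only [Nat.add_sub_cancel, Int.cast_zero, ne_eq, OfNat.ofNat_ne_zero, not_false_eq_true, zero_pow,
      mul_zero, add_zero, mul_one] at e1
    rw [norm_sub_rev]
    have e2 : j + 1 + 1 = j + 2 := rfl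
    rw [e2] at e1
    refine e1.trans (mul_le_mul_of_nonneg_left ?_ hC60)
    refine Real.rpow_le_rpow_of_nonpos hj0 ?_ (by linarith)
    push_cast
    linarith

/-! ### the output -/

/-- the output of the function side along a ray: as `PBV.FunO`, steps of two, narrow strip -/
structure FunO2 (c : ℝ) (f : ℕ → ℂ → ℂ) (g : ℕ → ℂ) : Prop where
  step : ∃ C' : ℝ, ∀ᶠ j : ℕ in atTop, ‖g (j + 2) - g j‖ ≤ C' * (j : ℝ) ^ (-(1 + c))
  val : ∀ ρ : ℝ, 0 ≤ ρ → ρ < σP → ∀ ε : ℝ, 0 < ε → ∀ᶠ j : ℕ in atTop, ∀ z : ℂ, |z.re| ≤ aL + ρ →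
    |z.im| ≤ 1 / 100 * Real.log j → ‖f j z - g j‖ ≤
      (j : ℝ) ^ (-(c * (1 - |z.im| / (1 / 100 * Real.log j))) + ε) * Real.exp (2 * |z.im|)
  ub : ∀ ε : ℝ, 0 < ε → ∀ᶠ j : ℕ in atTop, ∀ z : ℂ, |z.re| ≤ aL → |z.im| ≤ 9 / 80 * Real.log j + 1 →
    ‖f j z‖ ≤ (j : ℝ) ^ ε * Real.exp (2 * |z.im|)

/-- **output of the function side along a ray** -/
theorem RayH.out (h : RayH n C f F) (hn : 1 ≤ n) {c : ℝ} (hc : 0 ≤ c) (hc1 : c < 2 / 3)
    (hE : EPr c fun m z x => F m 0 (List.replicate n x) z) : FunO2 c f (fun j => bP f j 0) := by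
  obtain ⟨K0, hK0⟩ := h.chain hn hc hc1 hE
  refine ⟨(hK0 K0 le_rfl).2, fun ρ hρ hρσ ε hε => ?_, h.uf⟩
  have hx1 : (1 / 100 : ℝ) ≤ (1 - 1 / 5) * (2 * σP / Real.pi) := by
    rw [two_σP]
    norm_num
  obtain ⟨K1, hK1⟩ := PBV.value_tall (a := aL) (σ := σP) (ρ := ρ) (y₀ := 1) (b₀ := 0) (ε₀ := 1 / 5)
    (x₁ := 1 / 100) (c := c) C hρ hρσ σP_lt le_rfl
    σP_pos zero_le_one (by norm_num) (by norm_num) (by norm_num) hx1 hc
  obtain ⟨C', hC'⟩ := (hK0 (max K0 K1) (le_max_left _ _)).1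
  refine hK1 (max K0 K1) (le_max_right _ _) C' f h.ff (fun ε hε => ?_) hC' ε hε
  filter_upwards [h.uf ε hε, log_ev 0] with j h1 h2 z hz hzi
  exact h1 z (by rw [hz, abs_zero]; exact aL_pos.le) (by (clear * - h2 hzi; linarith))

end Pool.Agent.PLX

end
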