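import Pool.Agent.PLX.NzB
import Pool.Agent.PLX.RayC
import Pool.Agent.PB.FunI

/-!
# Two fillings: the function side for the literal function

`f0Q q m z` = rows `0^m`, `fxQ q m x z` = rows `x, 0^m` in the first group, every row `q`-fold in the
second group.

* `U0Q q C`: the crude bound; `U1Q q`: the sharp bound on `Re z = 0`;
* `FD_f0Q`, `FD_fxQ`; **`RayH.ofQ`**: the function side of the recursion along a ray from `U0Q`, `U1Q`
  and the rows.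
-/

set_option autoImplicit false

noncomputable section

open Complex MeasureTheory Set Filter Topology
open Pool.Agent.PB.Rec (seg)
open NUP1 (l lpos)
open PBV (aL FD aL_eq strip_open seg_Is FD_zero FD_cons)

namespace Pool.Agent.PLX

/-- crude bound -/
def U0Q (q : ℕ) (C : ℝ) : Prop :=
  (∀ᶠ j : ℕ in atTop, ∀ z : ℂ, |z.re| ≤ 61 / 20 * l → |z.im| ≤ 3 / 20 * Real.log j + 1 →
    ‖f0Q q j z‖ ≤ (j : ℝ) ^ C) ∧
  ∀ᶠ j : ℕ in atTop, ∀ s ∈ Icc (0 : ℝ) 1, ∀ z : ℂ, |z.re| ≤ 61 / 20 * l →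
    |z.im| ≤ 3 / 20 * Real.log j + 1 → ‖fxQ q j (I * s) z‖ ≤ (j : ℝ) ^ C

/-- sharp bound -/
def U1Q (q : ℕ) : Prop := ∀ ε : ℝ, 0 < ε →
  (∀ᶠ j : ℕ in atTop, ∀ z : ℂ, |z.re| ≤ aL → |z.im| ≤ 9 / 80 * Real.log j + 1 →
    ‖f0Q q j z‖ ≤ (j : ℝ) ^ ε * Real.exp (2 * |z.im|)) ∧
  ∀ᶠ j : ℕ in atTop, ∀ s ∈ Icc (0 : ℝ) 1, ∀ t ∈ Icc (0 : ℝ) 1,
    ‖fxQ q j (I * s) (I * t)‖ ≤ (j : ℝ) ^ ε

lemma σP_eq : σP = l / 20 := by
  unfold σP NUP1.l
  ring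

lemma aσ : aL + σP = 61 / 20 * l := by
  rw [aL_eq, σP_eq]
  ring

lemma aσ_lt : aL + σP < 43 / 10 * l := by
  have hl := lpos
  rw [aσ]
  linarith

lemma σ_lt : σP < 13 / 10 * l := by
  have hl := lpos
  rw [σP_eq]
  linarith

lemma aL_c : ((aL : ℝ) : ℂ) = 3 * l := by
  rw [aL_eq]
  push_cast
  ring

variable {q : ℕ} {C : ℝ}

/-- rows at `0` -/
theorem FD_f0Q (hq : 1 ≤ q) (h : U0Q q C) : ∀ᶠ m : ℕ in atTop, FD aL σP 1 0 C m (f0Q q m) := by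
  filter_upwards [h.1] with j hj
  obtain ⟨Q, hQ, hz⟩ := f0Q_zeros hq j
  refine FD_zero aσ_lt σ_lt (fun z h => (f0Q_diff q j).differentiableAt ((strip_open _).mem_nhds h))
    (fun z h => hQ.differentiableAt ((strip_open _).mem_nhds h)) (fun z _ => ?_) ?_
  · rw [aL_c]
    exact hz z
  · intro z h1 h2
    rw [two_σP] at h2
    rw [aσ] at h1
    exact hj z h1 (by linarith [Real.log_natCast_nonneg j])

lemma seg_re {x : ℂ} (hx : x ∈ seg 0) : |x.re| ≤ l / 2 := by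
  have hl := lpos
  obtain ⟨s, hs1, rfl⟩ := seg_Is hx
  simp
  linarith

/-- one moved row -/
theorem FD_fxQ (hq : 1 ≤ q) (h : U0Q q C) : ∀ᶠ m : ℕ in atTop, ∀ x ∈ seg 0,
    FD aL σP 1 0 C m (fun z => fxQ q m x z) := by
  have hl := lpos
  filter_upwards [h.2, eventually_ge_atTop 1] with j hj hj1 x hx
  have hx0 := seg_re hx
  obtain ⟨s, hs1, rfl⟩ := seg_Is hx
  obtain ⟨Q, hQ, hz⟩ := fxQ_zeros hq j hx0
  refine FD_cons hj1 (x := I * s) (by simp) (by simp [abs_of_nonneg hs1.1, hs1.2]) aσ_lt σ_lt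
    (fun z h => (fxQ_diff q j (by linarith)).differentiableAt ((strip_open _).mem_nhds h))
    (fun z h => hQ.differentiableAt ((strip_open _).mem_nhds h)) (fun z _ => ?_) ?_
  · rw [aL_c]
    exact hz z
  · intro z h1 h2
    rw [two_σP] at h2
    rw [aσ] at h1
    exact hj s hs1 z h1 (by linarith [Real.log_natCast_nonneg j])

/-- **the function side of the recursion along a ray**, from `U0Q`, `U1Q` and the rows -/
theorem RayH.ofQ {n : ℕ} (hq : 1 ≤ q) (h0 : U0Q q C) (h1 : U1Q q)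
    {F : ℕ → ℕ → List ℂ → ℂ → ℂ}
    (hF : ∀ᶠ m : ℕ in atTop, ∀ x ∈ seg 0, ∀ z, F m 0 (List.replicate n x) z = fxQ q m x z)
    (p1 : ∀ᶠ m : ℕ in atTop, ∀ t ∈ Icc (0 : ℝ) 1, F m n [] (I * t) = f0Q q (m - 1) (I * t))
    (kx : ∀ e : ℝ, ∃ Kx : ℕ, 1 ≤ Kx ∧ ∀ᶠ m : ℕ in atTop, ∀ t ∈ Icc (0 : ℝ) 1,
      (∀ u v : List ℂ, u.length + 1 + v.length = n → (∀ x ∈ u, Ax x) → (∀ x ∈ v, Ax x) →
        Kt (8 / 3) Kx (fun x => Ax x ∨ x = (aL : ℂ)) ((m : ℝ) ^ (-e))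
          fun x => F m 0 (u ++ x :: v) (I * t)) ∧
      ∀ j, j < n → ∀ v : List ℂ, v.length = n - j - 1 → (∀ x ∈ v, Ax x) →
        Kt (8 / 3) Kx (fun x => Ax x ∨ x = (aL : ℂ)) ((m : ℝ) ^ (-e)) fun x => F m j (x :: v) (I * t))
    (cx : ∀ᶠ m : ℕ in atTop, ∀ t ∈ Icc (0 : ℝ) 1, ∀ j, j < n → ∀ v : List ℂ, v.length = n - j - 1 →
      (∀ x ∈ v, Ax x) → F m j ((aL : ℂ) :: v) (I * t) = F m (j + 1) v (I * t)) :
    RayH n C (f0Q q) F where
  ff := FD_f0Q hq h0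
  fp := by
    filter_upwards [FD_fxQ hq h0, hF] with m h1 h2 x hx
    have := h1 x hx
    rwa [show (fun z => fxQ q m x z) = fun z => F m 0 (List.replicate n x) z from
      funext fun z => (h2 x hx z).symm] at this
  p0 := by
    filter_upwards [hF] with m h2 z
    rw [h2 0 ⟨0, ⟨le_rfl, zero_le_one⟩, by simp⟩ z, fxQ_zero]
  p1 := p1
  uf := fun ε hε => (h1 ε hε).1
  up := by
    intro ε hε
    filter_upwards [(h1 ε hε).2, hF] with m h1 h2 x hx t ht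
    rw [h2 x hx]
    obtain ⟨s, hs, rfl⟩ := seg_Is hx
    exact h1 s hs t ht
  kx := kx
  cx := cx

end Pool.Agent.PLX

end
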