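import Pool.Agent.PB.VandC

/-!
# The representation by exponentials for a function in two pieces (helper91)

`f` analytic on `[α, β] × [-τ, τ]`, `g` analytic on `[β, α + 2a] × [-τ, τ]`; `f - g` small on the line `Re = β`, `g (· + 2a) - f`
small on the line `Re = α`.  Then `f` inside the first box and `g` inside the second box are the SAME sum of exponentials
`Σ c_k e^{iπkz/a}` up to small errors:

* `glue` : the Cauchy formula with the kernel `ker a` of period `2 a`;
* `botI`, `topI` : expansion of the horizontal sides;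
* **`glue_repr`**.
-/

set_option autoImplicit false

noncomputable section

open Complex MeasureTheory Set Filter Topology intervalIntegral Finset

namespace Pool.Agent.PLX

open PBV

variable {a α β τ : ℝ}

/-- closed box -/
def Bx (u v τ : ℝ) : Set ℂ := {ζ | u ≤ ζ.re ∧ ζ.re ≤ v ∧ |ζ.im| ≤ τ}

/-- the boundary integral of a function -/
def bI (u v τ : ℝ) (F : ℂ → ℂ) : ℂ :=
  (∫ x in u..v, F (x - τ * I)) - (∫ x in u..v, F (x + τ * I)) + I * (∫ y in (-τ)..τ, F (v + y * I)) -
    I * (∫ y in (-τ)..τ, F (u + y * I))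

theorem bI_zero {u v : ℝ} (huv : u ≤ v) (hτ : 0 < τ) {F : ℂ → ℂ} (hF : DifferentiableOn ℂ F (Bx u v τ)) :
    bI u v τ F = 0 := by
  have hR : uIcc u v ×ℂ uIcc (-τ) τ = Bx u v τ := by
    ext ζ
    rw [mem_reProdIm, uIcc_of_le huv, uIcc_of_le (by linarith : -τ ≤ τ)]
    simp only [Set.mem_Icc, Bx, mem_ofPred_eq, abs_le]
    tauto
  have e1 : ((u : ℂ) - τ * I).re = u := by simp
  have e2 : ((v : ℂ) + τ * I).re = v := by simp
  have e3 : ((u : ℂ) - τ * I).im = -τ := by simp
  have e4 : ((v : ℂ) + τ * I).im = τ := by simp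
  have key := integral_boundary_rect_eq_zero_of_differentiableOn F
    (u - τ * I) (v + τ * I) (by
      rw [e1, e2, e3, e4, hR]
      exact hF)
  rw [e1, e2, e3, e4] at key
  unfold bI
  simp only [smul_eq_mul] at key
  have hb : ∀ x : ℝ, (x : ℂ) - τ * I = x + ((-τ : ℝ) : ℂ) * I := fun x => by push_cast; ring
  simp only [hb]
  linear_combination key

theorem bI_congr {u v : ℝ} {F G : ℂ → ℂ} (h : ∀ ζ : ℂ, (ζ.re = u ∨ ζ.re = v ∨ |ζ.im| = |τ|) → F ζ = G ζ) :
    bI u v τ F = bI u v τ G := by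
  unfold bI
  have e1 : ∀ x : ℝ, F (x - τ * I) = G (x - τ * I) := fun x => h _ (Or.inr (Or.inr (by simp)))
  have e2 : ∀ x : ℝ, F (x + τ * I) = G (x + τ * I) := fun x => h _ (Or.inr (Or.inr (by simp)))
  have e3 : ∀ y : ℝ, F (u + y * I) = G (u + y * I) := fun y => h _ (Or.inl (by simp))
  have e4 : ∀ y : ℝ, F (v + y * I) = G (v + y * I) := fun y => h _ (Or.inr (Or.inl (by simp)))
  simp only [e1, e2, e3, e4]

/-- inside -/
theorem bI_in (ha : 0 < a) (hτ : 0 < τ) {u v : ℝ} (huv : v ≤ u + 2 * a) {f : ℂ → ℂ}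
    (hf : ∀ ζ ∈ Bx u v τ, DifferentiableAt ℂ f ζ) {z : ℂ} (h1 : u < z.re) (h2 : z.re < v) (h3 : |z.im| < τ) :
    bI u v τ (fun ζ => (f ζ - f z) * ker a (ζ - z)) = 0 := by
  have hz : {ζ : ℂ | u < ζ.re ∧ ζ.re < v ∧ |ζ.im| < τ} ∈ 𝓝 z := by
    apply IsOpen.mem_nhds
    · refine (isOpen_lt continuous_const continuous_re).inter
        ((isOpen_lt continuous_re continuous_const).inter
          (isOpen_lt (continuous_im.abs) continuous_const))
    · exact ⟨h1, h2, h3⟩
  have hRz : Bx u v τ ∈ 𝓝 z := by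
    filter_upwards [hz] with ζ hζ
    exact ⟨hζ.1.le, hζ.2.1.le, hζ.2.2.le⟩
  have hd : DifferentiableOn ℂ (cG a f z) (Bx u v τ) := by
    unfold cG
    apply DifferentiableOn.mul
    · rw [differentiableOn_dslope hRz]
      exact fun ζ hζ => (hf ζ hζ).differentiableWithinAt
    · apply DifferentiableOn.div (differentiableOn_const _)
      · exact ((kS_diff a).comp (differentiable_id.sub (differentiable_const z))).differentiableOn
      · intro ζ hζ
        apply kS_ne ha
        rw [sub_re, abs_lt]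
        exact ⟨by linarith [hζ.1], by linarith [hζ.2.1]⟩
  rw [← bI_zero (by linarith) hτ hd]
  refine bI_congr fun ζ hζ => ?_
  rw [cG_eq]
  rintro rfl
  rcases hζ with h | h | h
  · linarith
  · linarith
  · rw [h, abs_of_pos hτ] at h3
    exact lt_irrefl _ h3

/-- outside -/
theorem bI_out (ha : 0 < a) (hτ : 0 < τ) {u v : ℝ} (huv : u ≤ v) {f : ℂ → ℂ}
    (hf : ∀ ζ ∈ Bx u v τ, DifferentiableAt ℂ f ζ) {z : ℂ} (h : (z.re < u ∧ v < z.re + 2 * a) ∨
      (v < z.re ∧ z.re - 2 * a < u)) (c : ℂ) :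
    bI u v τ (fun ζ => (f ζ - c) * ker a (ζ - z)) = 0 := by
  refine bI_zero huv hτ fun ζ hζ => DifferentiableAt.differentiableWithinAt ?_
  have hne : kE a (ζ - z) ≠ 0 := by
    apply kE_ne ha
    · rw [sub_re, abs_lt]
      obtain ⟨h1, h2, -⟩ := hζ
      rcases h with h | h
      · exact ⟨by linarith [h.1], by linarith [h.2]⟩
      · exact ⟨by linarith [h.2], by linarith [h.1]⟩
    · intro h0
      have h1 : ζ.re = z.re := by rw [sub_eq_zero.1 h0]
      obtain ⟨h2, h3, -⟩ := hζ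
      rcases h with h | h
      · linarith [h.1]
      · linarith [h.1]
  unfold PBV.ker
  refine DifferentiableAt.mul ((hf ζ hζ).sub_const c) (DifferentiableAt.div (differentiableAt_const _) ?_ hne)
  exact ((kE_diff a).comp (differentiable_id.sub (differentiable_const z))) ζ

/-! ### the glued Cauchy formula -/

theorem cont_line {u v : ℝ} {f : ℂ → ℂ} (hf : ∀ ζ ∈ Bx u v τ, DifferentiableAt ℂ f ζ) {b : ℂ}
    (hb : |b.im| ≤ τ) (hb0 : b.re = 0) : ContinuousOn (fun x : ℝ => f (x + b)) (Icc u v) := by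
  intro x hx
  have h : DifferentiableAt ℂ f (x + b) := by
    apply hf
    refine ⟨?_, ?_, ?_⟩
    · simp [hb0]; exact hx.1
    · simp [hb0]; exact hx.2
    · simpa using hb
  have h' : ContinuousAt (fun x : ℝ => f (x + b)) x :=
    ContinuousAt.comp (g := f) (f := fun x : ℝ => (x + b : ℂ)) h.continuousAt (by fun_prop)
  exact h'.continuousWithinAt

theorem cont_vert {u v : ℝ} {f : ℂ → ℂ} (hf : ∀ ζ ∈ Bx u v τ, DifferentiableAt ℂ f ζ) {r : ℂ}
    (h1 : u ≤ r.re) (h2 : r.re ≤ v) (h3 : r.im = 0) :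
    ContinuousOn (fun y : ℝ => f (r + y * I)) (Icc (-τ) τ) := by
  intro y hy
  have h : DifferentiableAt ℂ f (r + y * I) := by
    apply hf
    refine ⟨by simpa using h1, by simpa using h2, ?_⟩
    simp only [add_im, h3, mul_im, ofReal_re, I_im, mul_one, ofReal_im, I_re, mul_zero, add_zero, zero_add]
    exact abs_le.2 hy
  have h' : ContinuousAt (fun y : ℝ => f (r + y * I)) y :=
    ContinuousAt.comp (g := f) (f := fun y : ℝ => (r + y * I : ℂ)) h.continuousAt (by fun_prop)
  exact h'.continuousWithinAt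

theorem ker_cont (ha : 0 < a) {b : ℂ} (hb : b.im ≠ 0) (s : Set ℝ) :
    ContinuousOn (fun x : ℝ => ker a (x + b)) s := by
  unfold PBV.ker
  apply ContinuousOn.div continuousOn_const
  · exact ((kE_diff a).continuous.comp (by fun_prop)).continuousOn
  · intro x _ h0
    rw [kE_ex] at h0
    have h1 : ex a (-1) (x + b) = 1 := (sub_eq_zero.1 h0).symm
    have h2 := ex_norm a (-1) (x + b)
    rw [h1, norm_one] at h2
    have h5 : -(Real.pi * ((-1 : ℤ) : ℝ) * ((x : ℂ) + b).im / a) = Real.pi * b.im / a := by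
      simp
      ring
    rw [h5] at h2
    have h6 : Real.pi * b.im / a = 0 := by
      rw [← Real.exp_eq_one_iff]
      exact h2.symm
    have h7 : Real.pi * b.im / a ≠ 0 := by
      have := Real.pi_ne_zero
      have := ha.ne'
      positivity
    exact h7 h6

theorem ker_vert (ha : 0 < a) {b : ℂ} (hb : |b.re| < 2 * a) (hb0 : b.re ≠ 0) (s : Set ℝ) :
    ContinuousOn (fun y : ℝ => ker a (b + y * I)) s := by
  unfold PBV.ker
  apply ContinuousOn.div continuousOn_const
  · exact ((kE_diff a).continuous.comp (by fun_prop)).continuousOn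
  · intro y _
    apply kE_ne ha
    · simpa using hb
    · intro h
      apply hb0
      have := congrArg Complex.re h
      simpa using this

/-- horizontal integrals -/
def hI (a u v : ℝ) (b : ℂ) (f : ℂ → ℂ) (z : ℂ) : ℂ := ∫ x in u..v, f (x + b) * ker a (x + b - z)

/-- the right side of the Cauchy formula -/
def RS (a α β τ : ℝ) (f g : ℂ → ℂ) (z : ℂ) : ℂ :=
  (hI a α β (-(τ * I)) f z + hI a β (α + 2 * a) (-(τ * I)) g z) -
    (hI a α β (τ * I) f z + hI a β (α + 2 * a) (τ * I) g z) +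
    I * (∫ y in (-τ)..τ, (g (α + y * I + 2 * a) - f (α + y * I)) * ker a (α + y * I - z)) +
    I * (∫ y in (-τ)..τ, (f (β + y * I) - g (β + y * I)) * ker a (β + y * I - z))

/-- two boundary integrals with the same constant -/
theorem glue_aux (ha : 0 < a) (hτ : 0 < τ) (hαβ : α ≤ β) (hβ : β ≤ α + 2 * a) {f g : ℂ → ℂ}
    (hf : ∀ ζ ∈ Bx α β τ, DifferentiableAt ℂ f ζ) (hg : ∀ ζ ∈ Bx β (α + 2 * a) τ, DifferentiableAt ℂ g ζ) {z : ℂ}
    (hz1 : α < z.re) (hz2 : z.re < α + 2 * a) (hzβ : z.re ≠ β) (h3 : |z.im| < τ) (c : ℂ)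
    (h1 : bI α β τ (fun ζ => (f ζ - c) * ker a (ζ - z)) = 0)
    (h2 : bI β (α + 2 * a) τ (fun ζ => (g ζ - c) * ker a (ζ - z)) = 0) :
    2 * Real.pi * I * c = RS a α β τ f g z := by
  obtain ⟨h4, h5⟩ := abs_lt.1 h3
  -- horizontal sides
  have hor : ∀ (b : ℂ), (b.im = τ ∨ b.im = -τ) → b.re = 0 → ∀ {u v : ℝ} {f : ℂ → ℂ}, u ≤ v →
      (∀ ζ ∈ Bx u v τ, DifferentiableAt ℂ f ζ) →
      (∫ x in u..v, (f (x + b) - c) * ker a (x + b - z)) =
        hI a u v b f z - c * ∫ x in u..v, ker a (x + b - z) := by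
    intro b hb hb0 u v f huv hf
    have hbz : (b - z).im ≠ 0 := by
      rw [sub_im]
      rcases hb with h | h <;> rw [h] <;> intro h' <;> linarith
    have hb' : |b.im| ≤ τ := by
      rcases hb with h | h <;> rw [h]
      · rw [abs_of_pos hτ]
      · rw [abs_neg, abs_of_pos hτ]
    have ck : ContinuousOn (fun x : ℝ => ker a (x + b - z)) (Icc u v) := by
      refine (ker_cont ha hbz _).congr fun x _ => ?_
      rw [add_sub_assoc]
    have i1 : IntervalIntegrable (fun x : ℝ => f (x + b) * ker a (x + b - z)) volume u v :=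
      ((cont_line hf hb' hb0).mul ck).intervalIntegrable_of_Icc huv
    have i2 : IntervalIntegrable (fun x : ℝ => ker a (x + b - z)) volume u v :=
      ck.intervalIntegrable_of_Icc huv
    unfold hI
    rw [← intervalIntegral.integral_const_mul, ← intervalIntegral.integral_sub i1 (i2.const_mul _)]
    congr 1
    ext x
    ring
  have hker : ∀ (b : ℂ), (b.im = τ ∨ b.im = -τ) →
      (∫ x in α..β, ker a (x + b - z)) + (∫ x in β..(α + 2 * a), ker a (x + b - z)) =
        ∫ x in α..(α + 2 * a), ker a (x + b - z) := by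
    intro b hb
    have hbz : (b - z).im ≠ 0 := by
      rw [sub_im]
      rcases hb with h | h <;> rw [h] <;> intro h' <;> linarith
    have ck : ∀ s : Set ℝ, ContinuousOn (fun x : ℝ => ker a (x + b - z)) s := fun s => by
      refine (ker_cont ha hbz _).congr fun x _ => ?_
      rw [add_sub_assoc]
    exact intervalIntegral.integral_add_adjacent_intervals ((ck _).intervalIntegrable_of_Icc hαβ)
      ((ck _).intervalIntegrable_of_Icc hβ)
  -- vertical sides
  have cv : ∀ r : ℂ, r.im = 0 → |r.re - z.re| < 2 * a → r.re ≠ z.re →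
      ContinuousOn (fun y : ℝ => ker a (r + y * I - z)) (Icc (-τ) τ) := by
    intro r hr h h'
    refine (ker_vert ha (b := r - z) (by simpa using h) (by simpa [sub_eq_zero] using h') _).congr fun y _ => ?_
    congr 1
    ring
  have kβ := cv β (by simp) (by simp only [ofReal_re]; rw [abs_lt]; constructor <;> linarith) (by simpa using hzβ.symm)
  have kα := cv α (by simp) (by simp only [ofReal_re]; rw [abs_lt]; constructor <;> linarith)
    (by simp only [ofReal_re]; exact hz1.ne)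
  have vβ : (∫ y in (-τ)..τ, (f (β + y * I) - c) * ker a (β + y * I - z)) -
      (∫ y in (-τ)..τ, (g (β + y * I) - c) * ker a (β + y * I - z)) =
      ∫ y in (-τ)..τ, (f (β + y * I) - g (β + y * I)) * ker a (β + y * I - z) := by
    have i1 : IntervalIntegrable (fun y : ℝ => (f (β + y * I) - c) * ker a (β + y * I - z)) volume (-τ) τ :=
      (((cont_vert hf (r := β) (by simpa using hαβ) (by simp) (by simp)).sub continuousOn_const).mul
        kβ).intervalIntegrable_of_Icc (by linarith)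
    have i2 : IntervalIntegrable (fun y : ℝ => (g (β + y * I) - c) * ker a (β + y * I - z)) volume (-τ) τ :=
      (((cont_vert hg (r := β) (by simp) (by simpa using hβ) (by simp)).sub continuousOn_const).mul
        kβ).intervalIntegrable_of_Icc (by linarith)
    rw [← intervalIntegral.integral_sub i1 i2]
    congr 1
    ext y
    ring
  have vα : (∫ y in (-τ)..τ, (g (((α + 2 * a : ℝ) : ℂ) + y * I) - c) * ker a (((α + 2 * a : ℝ) : ℂ) + y * I - z)) -
      (∫ y in (-τ)..τ, (f (α + y * I) - c) * ker a (α + y * I - z)) =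
      ∫ y in (-τ)..τ, (g (α + y * I + 2 * a) - f (α + y * I)) * ker a (α + y * I - z) := by
    have e : ∀ y : ℝ, (g (((α + 2 * a : ℝ) : ℂ) + y * I) - c) * ker a (((α + 2 * a : ℝ) : ℂ) + y * I - z) =
        (g (α + y * I + 2 * a) - c) * ker a (α + y * I - z) := by
      intro y
      rw [show (((α + 2 * a : ℝ) : ℂ) + y * I) - z = (α + y * I - z) + 2 * a by push_cast; ring,
        ker_period ha.ne', show (((α + 2 * a : ℝ) : ℂ) + y * I) = α + y * I + 2 * a by push_cast; ring]
    simp only [e]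
    have i1 : IntervalIntegrable (fun y : ℝ => (g (α + y * I + 2 * a) - c) * ker a (α + y * I - z)) volume (-τ) τ := by
      have c1 := cont_vert hg (r := ((α + 2 * a : ℝ) : ℂ)) (by simpa using hβ) (by simp) (by simp)
      refine ((ContinuousOn.sub (c1.congr fun y _ => ?_) continuousOn_const).mul kα).intervalIntegrable_of_Icc
        (by linarith)
      congr 1
      push_cast
      ring
    have i2 : IntervalIntegrable (fun y : ℝ => (f (α + y * I) - c) * ker a (α + y * I - z)) volume (-τ) τ :=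
      (((cont_vert hf (r := α) (by simp) (by simpa using hαβ) (by simp)).sub continuousOn_const).mul
        kα).intervalIntegrable_of_Icc (by linarith)
    rw [← intervalIntegral.integral_sub i1 i2]
    congr 1
    ext y
    ring
  have hb : ∀ x : ℝ, (x : ℂ) - τ * I = x + -(τ * I) := fun x => sub_eq_add_neg _ _
  have t1 := hor (-(τ * I)) (Or.inr (by simp)) (by simp) hαβ hf
  have t2 := hor (-(τ * I)) (Or.inr (by simp)) (by simp) hβ hg
  have t3 := hor (τ * I) (Or.inl (by simp)) (by simp) hαβ hf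
  have t4 := hor (τ * I) (Or.inl (by simp)) (by simp) hβ hg
  have k1 := hker (-(τ * I)) (Or.inr (by simp))
  have k2 := hker (τ * I) (Or.inl (by simp))
  have k3 := ker_int_bot (a := a) (α := α) (τ := τ) ha h4
  have k4 := ker_int_top (a := a) (α := α) (τ := τ) ha h5
  simp only [hb] at k3
  rw [k3] at k1
  rw [k4] at k2
  unfold bI at h1 h2
  simp only [hb] at h1 h2
  rw [t1, t3] at h1
  rw [t2, t4] at h2
  unfold RS
  rw [← vβ, ← vα]
  linear_combination -h1 - h2 - c * k1 + c * k2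

/-- **the glued Cauchy formula** -/
theorem glue (ha : 0 < a) (hτ : 0 < τ) (hαβ : α ≤ β) (hβ : β ≤ α + 2 * a) {f g : ℂ → ℂ}
    (hf : ∀ ζ ∈ Bx α β τ, DifferentiableAt ℂ f ζ) (hg : ∀ ζ ∈ Bx β (α + 2 * a) τ, DifferentiableAt ℂ g ζ) {z : ℂ}
    (h3 : |z.im| < τ) :
    (α < z.re → z.re < β → 2 * Real.pi * I * f z = RS a α β τ f g z) ∧
      (β < z.re → z.re < α + 2 * a → 2 * Real.pi * I * g z = RS a α β τ f g z) := by
  constructor
  · intro h1 h2
    exact glue_aux ha hτ hαβ hβ hf hg h1 (by linarith) h2.ne h3 _ (bI_in ha hτ hβ hf h1 h2 h3)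
      (bI_out ha hτ hβ hg (Or.inl ⟨h2, by linarith⟩) _)
  · intro h1 h2
    exact glue_aux ha hτ hαβ hβ hf hg (by linarith) h2 h1.ne' h3 _
      (bI_out ha hτ hαβ hf (Or.inr ⟨h1, by linarith⟩) _) (bI_in ha hτ (by linarith) hg h1 h2 h3)

/-! ### the horizontal sides -/

/-- the expansion of the integral over the lower side -/
theorem botI {a u v τ B : ℝ} (ha : 0 < a) (huv : u ≤ v) (hv : v ≤ u + 2 * a) {g : ℝ → ℂ}
    (hg : ContinuousOn g (Set.Icc u v))
    (hB : ∀ x ∈ Set.Icc u v, ‖g x‖ ≤ B) {z : ℂ} (hz : -τ < z.im) (n : ℕ) :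
    ‖(∫ x in u..v, g x * PBV.ker a (x - τ * I - z)) -
      ∑ k ∈ range n, ((I * Real.pi / a) * ∫ x in u..v, g x * ex a (-(k : ℤ)) (x - τ * I)) *
        ex a k z‖ ≤
      2 * Real.pi * B * (Real.exp (-(Real.pi * (τ + z.im) / a)) ^ n /
        (1 - Real.exp (-(Real.pi * (τ + z.im) / a)))) := by
  set r : ℝ := Real.exp (-(Real.pi * (τ + z.im) / a)) with hr
  have hpi := Real.pi_pos
  have hr1 : r < 1 := by
    rw [hr]
    apply rexp_lt_one
    have : 0 < Real.pi * (τ + z.im) / a := by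
      have : 0 < τ + z.im := by linarith
      positivity
    linarith
  have him : ∀ x : ℝ, ((x : ℂ) - τ * I - z).im = -(τ + z.im) := by
    intro x; simp; ring
  have hq : ∀ x : ℝ, ‖ex a (-1) (x - τ * I - z)‖ = r := by
    intro x
    rw [ex_norm, him, hr]
    congr 1
    push_cast
    ring
  have hB0 : 0 ≤ B := (norm_nonneg _).trans (hB u ⟨le_refl _, huv⟩)
  have hgi : ∀ k : ℤ, ∀ b : ℂ, IntervalIntegrable (fun x : ℝ => g x * ex a k (x + b)) volume u v := by
    intro k b
    apply ContinuousOn.intervalIntegrable_of_Icc huv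
    apply hg.mul
    exact ((ex_diff a k).continuous.comp (by fun_prop)).continuousOn
  have hk : ∀ k : ℤ, ∀ x : ℝ, ex a (-k) ((x : ℂ) - τ * I - z) = ex a (-k) (x - τ * I) * ex a k z := by
    intro k x
    unfold ex
    rw [← Complex.exp_add]
    congr 1
    push_cast
    ring
  have h1 : ∀ k : ℕ, ((I * Real.pi / a) * ∫ x in u..v, g x * ex a (-(k : ℤ)) (x - τ * I)) *
      ex a k z = ∫ x in u..v, g x * ((I * Real.pi / a) * ex a (-(k : ℤ)) (x - τ * I - z)) := by
    intro k
    rw [mul_assoc, ← intervalIntegral.integral_mul_const, ← intervalIntegral.integral_const_mul]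
    congr 1
    ext x
    rw [hk]
    ring
  simp only [h1]
  have hi : ∀ k ∈ range n, IntervalIntegrable (fun x : ℝ => g x *
      ((I * Real.pi / a) * ex a (-(k : ℤ)) (x - τ * I - z))) volume u v := by
    intro k _
    have := (hgi (-(k : ℤ)) (-(τ * I) - z)).const_mul (I * Real.pi / a)
    refine this.congr ?_
    intro x _
    simp only
    rw [show (x : ℂ) + (-(τ * I) - z) = x - τ * I - z by ring]
    ring
  have hker : IntervalIntegrable (fun x : ℝ => g x * PBV.ker a (x - τ * I - z)) volume u v := by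
    apply ContinuousOn.intervalIntegrable_of_Icc huv
    apply hg.mul
    refine (ker_cont ha (b := -(τ * I) - z) (by
      have := him 0
      simp at this ⊢
      intro h
      linarith) _).congr fun x _ => ?_
    congr 1
    ring
  rw [← intervalIntegral.integral_finsetSum hi, ← intervalIntegral.integral_sub hker
    (by
      have := IntervalIntegrable.sum _ hi
      simpa only [Finset.sum_fn] using this)]
  have hle : ‖∫ x in u..v, (g x * PBV.ker a (x - τ * I - z) -
      ∑ k ∈ range n, g x * ((I * Real.pi / a) * ex a (-(k : ℤ)) (x - τ * I - z)))‖ ≤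
      (B * (Real.pi / a) * (r ^ n / (1 - r))) * |v - u| := by
    apply intervalIntegral.norm_integral_le_of_norm_le_const
    intro x hx
    rw [uIoc_of_le huv] at hx
    have e1 : g x * PBV.ker a (x - τ * I - z) -
        ∑ k ∈ range n, g x * ((I * Real.pi / a) * ex a (-(k : ℤ)) (x - τ * I - z)) =
        g x * ((I * Real.pi / a) * (ex a (-(n : ℤ)) (x - τ * I - z) /
          (1 - ex a (-1) (x - τ * I - z)))) := by
      rw [ker_bot ha (by rw [him]; linarith) n, ← Finset.mul_sum, ← Finset.mul_sum]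
      ring
    rw [e1, norm_mul, norm_mul]
    have e2 : ‖(I * Real.pi / a : ℂ)‖ = Real.pi / a := by
      rw [norm_div, norm_mul, norm_I, one_mul, norm_real, norm_real, Real.norm_of_nonneg hpi.le,
        Real.norm_of_nonneg ha.le]
    have e3 : ‖ex a (-(n : ℤ)) (x - τ * I - z)‖ = r ^ n := by
      rw [← hq x, ← norm_pow, ex_pow]
      congr 2
      ring
    have e4 : 1 - r ≤ ‖1 - ex a (-1) (x - τ * I - z)‖ := by
      have := one_sub_norm (q := ex a (-1) (x - τ * I - z))
      rwa [hq] at this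
    rw [e2, norm_div, e3]
    have h5 : 0 < 1 - r := by linarith
    have h6 : 0 ≤ r := (Real.exp_pos _).le
    have h7 := hB x ⟨hx.1.le, hx.2⟩
    rw [mul_assoc B]
    gcongr
  have h8 : 0 ≤ r ^ n / (1 - r) := by
    have h5 : 0 < 1 - r := by linarith
    have h6 : 0 ≤ r := (Real.exp_pos _).le
    positivity
  have h9 : |v - u| ≤ 2 * a := by rw [abs_of_nonneg (by linarith)]; linarith
  calc _ ≤ (B * (Real.pi / a) * (r ^ n / (1 - r))) * |v - u| := hle
    _ ≤ (B * (Real.pi / a) * (r ^ n / (1 - r))) * (2 * a) := mul_le_mul_of_nonneg_left h9 (by positivity)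
    _ = _ := by field_simp

/-- the expansion of the integral over the upper side -/
theorem topI {a u v τ B : ℝ} (ha : 0 < a) (huv : u ≤ v) (hv : v ≤ u + 2 * a) {g : ℝ → ℂ}
    (hg : ContinuousOn g (Set.Icc u v))
    (hB : ∀ x ∈ Set.Icc u v, ‖g x‖ ≤ B) {z : ℂ} (hz : z.im < τ) (n : ℕ) :
    ‖(∫ x in u..v, g x * PBV.ker a (x + τ * I - z)) +
      ∑ k ∈ range n, ((I * Real.pi / a) * ∫ x in u..v, g x * ex a (k + 1) (x + τ * I)) *
        ex a (-(k + 1)) z‖ ≤
      2 * Real.pi * B * (Real.exp (-(Real.pi * (τ - z.im) / a)) ^ (n + 1) /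
        (1 - Real.exp (-(Real.pi * (τ - z.im) / a)))) := by
  have hg' : ContinuousOn (fun x => g (-x)) (Set.Icc (-v) (-u)) := by
    refine hg.comp (by fun_prop) ?_
    intro x hx
    exact ⟨by linarith [hx.2], by linarith [hx.1]⟩
  have hB' : ∀ x ∈ Set.Icc (-v) (-u), ‖g (-x)‖ ≤ B := by
    intro x hx
    exact hB _ ⟨by linarith [hx.2], by linarith [hx.1]⟩
  have h := botI (τ := τ) ha (by linarith) (by linarith) hg' hB' (z := -z) (by simp; linarith) (n + 1)
  have hsub : ∀ F : ℝ → ℂ, ∫ x in (-v)..(-u), F x = ∫ x in u..v, F (-x) := by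
    intro F
    rw [intervalIntegral.integral_comp_neg]
  have hk : ∀ k : ℕ, ∫ x in (-v)..(-u),
      g (-x) * ex a (-(k : ℤ)) (x - τ * I) = ∫ x in u..v, g x * ex a k (x + τ * I) := by
    intro k
    rw [hsub]
    congr 1
    ext x
    rw [neg_neg]
    congr 1
    unfold ex
    congr 1
    push_cast
    ring
  have hK : ∫ x in (-v)..(-u), g (-x) * PBV.ker a (x - τ * I - -z) =
      (I * Real.pi / a) * (∫ x in u..v, g x) -
        ∫ x in u..v, g x * PBV.ker a (x + τ * I - z) := by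
    rw [hsub, ← intervalIntegral.integral_const_mul, ← intervalIntegral.integral_sub]
    · congr 1
      ext x
      have hw : 0 < ((x : ℂ) + τ * I - z).im := by simp; linarith
      rw [neg_neg, ker_refl ha hw, show ((-x : ℝ) : ℂ) - τ * I - -z = -(x + τ * I - z) by
        push_cast; ring]
      ring
    · exact (hg.intervalIntegrable_of_Icc huv).const_mul _
    · apply ContinuousOn.intervalIntegrable_of_Icc huv
      apply hg.mul
      refine (ker_cont ha (b := τ * I - z) (by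
        simp only [sub_im, mul_im, ofReal_re, I_im, mul_one, ofReal_im, I_re, mul_zero, add_zero]
        intro h
        linarith) _).congr fun x _ => ?_
      congr 1
      ring
  rw [hK] at h
  simp only [hk] at h
  rw [Finset.sum_range_succ' _ n] at h
  have h0 : ∀ x : ℝ, ex a ((0 : ℕ) : ℤ) (x + τ * I) = 1 := by
    intro x
    rw [Nat.cast_zero, ex_zero]
  have h0' : ex a ((0 : ℕ) : ℤ) (-z) = 1 := by rw [Nat.cast_zero, ex_zero]
  simp only [h0, h0', mul_one] at h
  have e1 : (-z).im = -z.im := by simp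
  rw [e1, show τ + -z.im = τ - z.im by ring] at h
  have e2 : ∀ k : ℕ, ex a ((k + 1 : ℕ) : ℤ) (-z) = ex a (-(k + 1)) z := by
    intro k
    unfold ex
    congr 1
    push_cast
    ring
  simp only [e2] at h
  have e3 : (I * Real.pi / a) * (∫ x in u..v, g x) -
        (∫ x in u..v, g x * PBV.ker a (x + τ * I - z)) -
      (∑ k ∈ range n, I * Real.pi / a * (∫ x in u..v, g x *
        ex a ((k + 1 : ℕ) : ℤ) (x + τ * I)) * ex a (-(k + 1)) z +
        I * Real.pi / a * ∫ x in u..v, g x) =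
      -((∫ x in u..v, g x * PBV.ker a (x + τ * I - z)) +
      ∑ k ∈ range n, ((I * Real.pi / a) * ∫ x in u..v, g x *
        ex a (k + 1) (x + τ * I)) * ex a (-(k + 1)) z) := by
    push_cast
    ring
  rw [e3, norm_neg] at h
  exact h

/-! ### the representation -/

/-- the coefficients of a piece -/
def cI (a u v τ : ℝ) (f : ℂ → ℂ) (k : ℤ) : ℂ :=
  (2 * Real.pi * I)⁻¹ * (if 0 ≤ k then (I * Real.pi / a) * ∫ x in u..v, f (x - τ * I) *
    ex a (-k) (x - τ * I) else (I * Real.pi / a) * ∫ x in u..v, f (x + τ * I) *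
    ex a (-k) (x + τ * I))

/-- the horizontal sides of one piece -/
theorem pieceI (ha : 0 < a) (hτ : 0 < τ) {u v : ℝ} (huv : u ≤ v) (hv : v ≤ u + 2 * a) {f : ℂ → ℂ} {B : ℝ}
    (hf : ∀ ζ ∈ Bx u v τ, DifferentiableAt ℂ f ζ)
    (hB : ∀ x ∈ Set.Icc u v, ‖f (x - τ * I)‖ ≤ B ∧ ‖f (x + τ * I)‖ ≤ B) (K : ℕ) {z : ℂ} (h3 : |z.im| < τ) :
    ‖(hI a u v (-(τ * I)) f z - hI a u v (τ * I) f z) - 2 * Real.pi * I *
      ∑ j ∈ range (2 * K + 1), cI a u v τ f ((j : ℤ) - K) * ex a ((j : ℤ) - K) z‖ ≤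
      4 * Real.pi * B * (Real.exp (-(Real.pi * (τ - |z.im|) / a)) ^ (K + 1) /
        (1 - Real.exp (-(Real.pi * (τ - |z.im|) / a)))) := by
  have hpi := Real.pi_pos
  set cb : ℕ → ℂ := fun k => (I * Real.pi / a) * ∫ x in u..v, f (x - τ * I) *
    ex a (-(k : ℤ)) (x - τ * I) with hcb
  set ct : ℕ → ℂ := fun k => (I * Real.pi / a) * ∫ x in u..v, f (x + τ * I) *
    ex a (k + 1) (x + τ * I) with hct
  obtain ⟨h4, h5⟩ := abs_lt.1 h3
  have hgb : ContinuousOn (fun x : ℝ => f (x - τ * I)) (Set.Icc u v) := by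
    have := cont_line hf (b := -(τ * I)) (by simp [abs_of_pos hτ]) (by simp)
    simpa only [sub_eq_add_neg] using this
  have hgt : ContinuousOn (fun x : ℝ => f (x + τ * I)) (Set.Icc u v) :=
    cont_line hf (b := τ * I) (by simp [abs_of_pos hτ]) (by simp)
  have hbot := botI ha huv hv hgb (fun x hx => (hB x hx).1) h4 (K + 1)
  have htop := topI ha huv hv hgt (fun x hx => (hB x hx).2) h5 K
  have hB0 : 0 ≤ B := (norm_nonneg _).trans (hB u ⟨le_refl _, huv⟩).1
  set q := Real.exp (-(Real.pi * (τ - |z.im|) / a)) with hq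
  have hq1 : q < 1 := by
    apply rexp_lt_one
    have : 0 < Real.pi * (τ - |z.im|) / a := by
      have : 0 < τ - |z.im| := by linarith
      positivity
    linarith
  have hqb : Real.exp (-(Real.pi * (τ + z.im) / a)) ≤ q := by
    rw [hq]
    apply Real.exp_le_exp.2
    have : -|z.im| ≤ z.im := neg_abs_le _
    gcongr
    linarith
  have hqt : Real.exp (-(Real.pi * (τ - z.im) / a)) ≤ q := by
    rw [hq]
    apply Real.exp_le_exp.2
    have : z.im ≤ |z.im| := le_abs_self _
    gcongr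
  have hbot' := hbot.trans (show _ ≤ 2 * Real.pi * B * (q ^ (K + 1) / (1 - q)) by
    have h6 : 0 < 1 - q := by linarith
    have h7 := (Real.exp_pos (-(Real.pi * (τ + z.im) / a))).le
    gcongr)
  have htop' := htop.trans (show _ ≤ 2 * Real.pi * B * (q ^ (K + 1) / (1 - q)) by
    have h6 : 0 < 1 - q := by linarith
    have h7 := (Real.exp_pos (-(Real.pi * (τ - z.im) / a))).le
    gcongr)
  have hpi0 : (2 * Real.pi * I : ℂ) ≠ 0 := by
    simp [Real.pi_ne_zero]
  have hsum : 2 * Real.pi * I * ∑ j ∈ range (2 * K + 1), cI a u v τ f ((j : ℤ) - K) * ex a ((j : ℤ) - K) z =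
      (∑ k ∈ range (K + 1), cb k * ex a k z) + ∑ k ∈ range K, ct k * ex a (-(k + 1)) z := by
    rw [show 2 * K + 1 = K + (K + 1) by ring, Finset.sum_range_add, add_comm, mul_add, mul_sum,
      mul_sum]
    congr 1
    · apply Finset.sum_congr rfl
      intro k _
      have e1 : ((K + k : ℕ) : ℤ) - K = k := by push_cast; ring
      rw [e1, cI, if_pos (by omega)]
      simp only [hcb]
      rw [← mul_assoc, mul_inv_cancel_left₀ hpi0]
    · rw [← Finset.sum_range_reflect]
      apply Finset.sum_congr rfl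
      intro k hk
      rw [Finset.mem_range] at hk
      have e1 : ((K - 1 - k : ℕ) : ℤ) - K = -(k + 1) := by omega
      rw [e1, cI, if_neg (by omega), neg_neg]
      simp only [hct]
      rw [← mul_assoc, mul_inv_cancel_left₀ hpi0]
  rw [hsum]
  have eb : ∀ x : ℝ, (x : ℂ) + -(τ * I) = x - τ * I := fun x => (sub_eq_add_neg _ _).symm
  unfold hI
  simp only [eb]
  calc _ = ‖((∫ x in u..v, f (x - τ * I) * PBV.ker a (x - τ * I - z)) -
        ∑ k ∈ range (K + 1), cb k * ex a k z) -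
      ((∫ x in u..v, f (x + τ * I) * PBV.ker a (x + τ * I - z)) +
        ∑ k ∈ range K, ct k * ex a (-(k + 1)) z)‖ := by
        congr 1
        ring
    _ ≤ _ := norm_sub_le _ _
    _ ≤ 2 * Real.pi * B * (q ^ (K + 1) / (1 - q)) + 2 * Real.pi * B * (q ^ (K + 1) / (1 - q)) :=
        add_le_add hbot' htop'
    _ = _ := by ring

/-- **the same exponentials for both pieces** -/
theorem glue_repr (ha : 0 < a) (hτ : 0 < τ) (hαβ : α ≤ β) (hβ : β ≤ α + 2 * a) {f g : ℂ → ℂ} {B D : ℝ}
    (hf : ∀ ζ ∈ Bx α β τ, DifferentiableAt ℂ f ζ) (hg : ∀ ζ ∈ Bx β (α + 2 * a) τ, DifferentiableAt ℂ g ζ)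
    (hBf : ∀ x ∈ Set.Icc α β, ‖f (x - τ * I)‖ ≤ B ∧ ‖f (x + τ * I)‖ ≤ B)
    (hBg : ∀ x ∈ Set.Icc β (α + 2 * a), ‖g (x - τ * I)‖ ≤ B ∧ ‖g (x + τ * I)‖ ≤ B)
    (hD1 : ∀ y ∈ Set.Icc (-τ) τ, ‖g (α + y * I + 2 * a) - f (α + y * I)‖ ≤ D)
    (hD2 : ∀ y ∈ Set.Icc (-τ) τ, ‖f (β + y * I) - g (β + y * I)‖ ≤ D) (K : ℕ) {z : ℂ} (h3 : |z.im| < τ) {s : ℝ}
    (hs : 0 < s) (hs1 : ∀ y : ℝ, ‖PBV.ker a (α + y * I - z)‖ ≤ Real.pi / a / s)
    (hs2 : ∀ y : ℝ, ‖PBV.ker a (β + y * I - z)‖ ≤ Real.pi / a / s) {w : ℂ}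
    (hw : (α < z.re ∧ z.re < β ∧ w = f z) ∨ (β < z.re ∧ z.re < α + 2 * a ∧ w = g z)) :
    ‖w - ∑ j ∈ range (2 * K + 1), (cI a α β τ f ((j : ℤ) - K) + cI a β (α + 2 * a) τ g ((j : ℤ) - K)) *
      ex a ((j : ℤ) - K) z‖ ≤
      4 * B * (Real.exp (-(Real.pi * (τ - |z.im|) / a)) ^ (K + 1) /
        (1 - Real.exp (-(Real.pi * (τ - |z.im|) / a)))) + 2 * τ * D / (a * s) := by
  have hpi := Real.pi_pos
  have hw' : 2 * Real.pi * I * w = RS a α β τ f g z := by
    rcases hw with ⟨h1, h2, rfl⟩ | ⟨h1, h2, rfl⟩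
    · exact (glue ha hτ hαβ hβ hf hg h3).1 h1 h2
    · exact (glue ha hτ hαβ hβ hf hg h3).2 h1 h2
  have p1 := pieceI ha hτ hαβ hβ hf hBf K h3
  have p2 := pieceI ha hτ hβ (by linarith) hg hBg K h3
  set X := Real.exp (-(Real.pi * (τ - |z.im|) / a)) ^ (K + 1) /
        (1 - Real.exp (-(Real.pi * (τ - |z.im|) / a))) with hX
  have hver : ∀ (F : ℝ → ℂ) (r : ℂ), (∀ y ∈ Set.Icc (-τ) τ, ‖F y‖ ≤ D) →
      (∀ y : ℝ, ‖PBV.ker a (r + y * I - z)‖ ≤ Real.pi / a / s) →
      ‖I * ∫ y in (-τ)..τ, F y * PBV.ker a (r + y * I - z)‖ ≤ D * (Real.pi / a / s) * (2 * τ) := by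
    intro F r hF hr
    rw [norm_mul, norm_I, one_mul]
    have h := intervalIntegral.norm_integral_le_of_norm_le_const (a := -τ) (b := τ)
      (f := fun y : ℝ => F y * PBV.ker a (r + y * I - z)) (C := D * (Real.pi / a / s)) (by
        intro y hy
        rw [uIoc_of_le (by linarith)] at hy
        rw [norm_mul]
        have e1 := hF y ⟨hy.1.le, hy.2⟩
        have e2 := hr y
        have e3 : 0 ≤ D := (norm_nonneg _).trans e1
        gcongr)
    rwa [show τ - -τ = 2 * τ by ring, abs_of_pos (by linarith : (0 : ℝ) < 2 * τ)] at h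
  have v1 := hver (fun y => g (α + y * I + 2 * a) - f (α + y * I)) α hD1 hs1
  have v2 := hver (fun y => f (β + y * I) - g (β + y * I)) β hD2 hs2
  have hpi0 : (2 * Real.pi * I : ℂ) ≠ 0 := by
    simp [Real.pi_ne_zero]
  have hn : ‖(2 * Real.pi * I : ℂ)‖ = 2 * Real.pi := by
    rw [norm_mul, norm_mul, norm_I, mul_one, norm_real, Real.norm_of_nonneg hpi.le]
    simp
  have key : ‖(2 * Real.pi * I) * (w - ∑ j ∈ range (2 * K + 1), (cI a α β τ f ((j : ℤ) - K) +
      cI a β (α + 2 * a) τ g ((j : ℤ) - K)) * ex a ((j : ℤ) - K) z)‖ ≤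
      4 * Real.pi * B * X + 4 * Real.pi * B * X + D * (Real.pi / a / s) * (2 * τ) + D * (Real.pi / a / s) * (2 * τ) := by
    have e : (2 * Real.pi * I) * (w - ∑ j ∈ range (2 * K + 1), (cI a α β τ f ((j : ℤ) - K) +
      cI a β (α + 2 * a) τ g ((j : ℤ) - K)) * ex a ((j : ℤ) - K) z) =
      ((hI a α β (-(τ * I)) f z - hI a α β (τ * I) f z) - 2 * Real.pi * I *
        ∑ j ∈ range (2 * K + 1), cI a α β τ f ((j : ℤ) - K) * ex a ((j : ℤ) - K) z) +
      ((hI a β (α + 2 * a) (-(τ * I)) g z - hI a β (α + 2 * a) (τ * I) g z) - 2 * Real.pi * I *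
        ∑ j ∈ range (2 * K + 1), cI a β (α + 2 * a) τ g ((j : ℤ) - K) * ex a ((j : ℤ) - K) z) +
      I * (∫ y in (-τ)..τ, (g (α + y * I + 2 * a) - f (α + y * I)) * PBV.ker a (α + y * I - z)) +
      I * (∫ y in (-τ)..τ, (f (β + y * I) - g (β + y * I)) * PBV.ker a (β + y * I - z)) := by
      rw [mul_sub, hw']
      simp only [add_mul, Finset.sum_add_distrib]
      unfold RS
      ring
    rw [e]
    refine (norm_add_le _ _).trans (add_le_add ((norm_add_le _ _).trans (add_le_add ((norm_add_le _ _).trans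
      (add_le_add p1 p2)) v1)) v2)
  rw [norm_mul, hn] at key
  have h2 : 0 < 2 * Real.pi := by linarith
  rw [← mul_le_mul_iff_right₀ h2]
  refine key.trans (le_of_eq ?_)
  field_simp
  ring

end Pool.Agent.PLX

end
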