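import Pool.Agent.PLX.GlueC

/-!
# The representation by exponentials for a function in three pieces (helper91)

As `GlueC`, pieces `f` on `[α, β]`, `g` on `[β, γ]`, `h` on `[γ, α + 2a]`, heights `≤ τ`: `f - g` small on `Re = β`, `g - h` small
on `Re = γ`, `h (· + 2a) - f` small on `Re = α`. **`glue_repr3`**: the three functions are the same sum of exponentials.
-/

set_option autoImplicit false

noncomputable section

open Complex MeasureTheory Set Filter Topology intervalIntegral Finset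

namespace Pool.Agent.PLX

open PBV

variable {a α β γ τ : ℝ}

/-- the right side of the Cauchy formula, three pieces -/
def RT (a α β γ τ : ℝ) (f g h : ℂ → ℂ) (z : ℂ) : ℂ :=
  (hI a α β (-(τ * I)) f z + hI a β γ (-(τ * I)) g z + hI a γ (α + 2 * a) (-(τ * I)) h z) -
    (hI a α β (τ * I) f z + hI a β γ (τ * I) g z + hI a γ (α + 2 * a) (τ * I) h z) +
    I * (∫ y in (-τ)..τ, (h (α + y * I + 2 * a) - f (α + y * I)) * ker a (α + y * I - z)) +
    I * (∫ y in (-τ)..τ, (f (β + y * I) - g (β + y * I)) * ker a (β + y * I - z)) +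
    I * (∫ y in (-τ)..τ, (g (γ + y * I) - h (γ + y * I)) * ker a (γ + y * I - z))

/-- a horizontal side -/
theorem hor_c (ha : 0 < a) (hτ : 0 < τ) {z : ℂ} (h3 : |z.im| < τ) (c : ℂ) (b : ℂ) (hb : b.im = τ ∨ b.im = -τ)
    (hb0 : b.re = 0) {u v : ℝ} {f : ℂ → ℂ} (huv : u ≤ v) (hf : ∀ ζ ∈ Bx u v τ, DifferentiableAt ℂ f ζ) :
    (∫ x in u..v, (f (x + b) - c) * ker a (x + b - z)) = hI a u v b f z - c * ∫ x in u..v, ker a (x + b - z) := by
  obtain ⟨h4, h5⟩ := abs_lt.1 h3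
  have hbz : (b - z).im ≠ 0 := by
    rw [sub_im]
    rcases hb with h | h <;> rw [h] <;> intro h' <;> linarith
  have hb' : |b.im| ≤ τ := by
    rcases hb with h | h <;> rw [h]
    · rw [abs_of_pos hτ]
    · rw [abs_neg, abs_of_pos hτ]
  have ck : ContinuousOn (fun x : ℝ => ker a (x + b - z)) (Icc u v) := by
    refine (ker_cont ha hbz _).congr fun x _ => ?_
    rw [add_sub_assoc]
  have i1 : IntervalIntegrable (fun x : ℝ => f (x + b) * ker a (x + b - z)) volume u v :=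
    ((cont_line hf hb' hb0).mul ck).intervalIntegrable_of_Icc huv
  have i2 : IntervalIntegrable (fun x : ℝ => ker a (x + b - z)) volume u v :=
    ck.intervalIntegrable_of_Icc huv
  unfold hI
  rw [← intervalIntegral.integral_const_mul, ← intervalIntegral.integral_sub i1 (i2.const_mul _)]
  congr 1
  ext x
  ring

/-- the difference of two functions on a vertical side -/
theorem ver_c (ha : 0 < a) (hτ : 0 < τ) {z : ℂ} (c : ℂ) {r u v u' v' : ℝ} {f g : ℂ → ℂ}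
    (hf : ∀ ζ ∈ Bx u v τ, DifferentiableAt ℂ f ζ) (hg : ∀ ζ ∈ Bx u' v' τ, DifferentiableAt ℂ g ζ) (h1 : u ≤ r)
    (h2 : r ≤ v) (h1' : u' ≤ r) (h2' : r ≤ v') (h : |r - z.re| < 2 * a) (h' : r ≠ z.re) :
    (∫ y in (-τ)..τ, (f (r + y * I) - c) * ker a (r + y * I - z)) -
      (∫ y in (-τ)..τ, (g (r + y * I) - c) * ker a (r + y * I - z)) =
      ∫ y in (-τ)..τ, (f (r + y * I) - g (r + y * I)) * ker a (r + y * I - z) := by
  have kr : ContinuousOn (fun y : ℝ => ker a (r + y * I - z)) (Icc (-τ) τ) := by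
    refine (ker_vert ha (b := (r : ℂ) - z) (by simpa using h) (by simpa [sub_eq_zero] using h') _).congr fun y _ => ?_
    congr 1
    ring
  have i1 : IntervalIntegrable (fun y : ℝ => (f (r + y * I) - c) * ker a (r + y * I - z)) volume (-τ) τ :=
    (((cont_vert hf (r := r) (by simpa using h1) (by simpa using h2) (by simp)).sub continuousOn_const).mul
      kr).intervalIntegrable_of_Icc (by linarith)
  have i2 : IntervalIntegrable (fun y : ℝ => (g (r + y * I) - c) * ker a (r + y * I - z)) volume (-τ) τ :=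
    (((cont_vert hg (r := r) (by simpa using h1') (by simpa using h2') (by simp)).sub continuousOn_const).mul
      kr).intervalIntegrable_of_Icc (by linarith)
  rw [← intervalIntegral.integral_sub i1 i2]
  congr 1
  ext y
  ring

/-- three boundary integrals with the same constant -/
theorem glue_aux3 (ha : 0 < a) (hτ : 0 < τ) (hαβ : α ≤ β) (hβγ : β ≤ γ) (hγ : γ ≤ α + 2 * a) {f g h : ℂ → ℂ}
    (hf : ∀ ζ ∈ Bx α β τ, DifferentiableAt ℂ f ζ) (hg : ∀ ζ ∈ Bx β γ τ, DifferentiableAt ℂ g ζ)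
    (hh : ∀ ζ ∈ Bx γ (α + 2 * a) τ, DifferentiableAt ℂ h ζ) {z : ℂ}
    (hz1 : α < z.re) (hz2 : z.re < α + 2 * a) (hzβ : z.re ≠ β) (hzγ : z.re ≠ γ) (h3 : |z.im| < τ) (c : ℂ)
    (h1 : bI α β τ (fun ζ => (f ζ - c) * ker a (ζ - z)) = 0)
    (h2 : bI β γ τ (fun ζ => (g ζ - c) * ker a (ζ - z)) = 0)
    (h2' : bI γ (α + 2 * a) τ (fun ζ => (h ζ - c) * ker a (ζ - z)) = 0) :
    2 * Real.pi * I * c = RT a α β γ τ f g h z := by
  obtain ⟨h4, h5⟩ := abs_lt.1 h3
  have hker : ∀ (b : ℂ), (b.im = τ ∨ b.im = -τ) →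
      (∫ x in α..β, ker a (x + b - z)) + (∫ x in β..γ, ker a (x + b - z)) +
        (∫ x in γ..(α + 2 * a), ker a (x + b - z)) = ∫ x in α..(α + 2 * a), ker a (x + b - z) := by
    intro b hb
    have hbz : (b - z).im ≠ 0 := by
      rw [sub_im]
      rcases hb with h | h <;> rw [h] <;> intro h' <;> linarith
    have ck : ∀ s : Set ℝ, ContinuousOn (fun x : ℝ => ker a (x + b - z)) s := fun s => by
      refine (ker_cont ha hbz _).congr fun x _ => ?_
      rw [add_sub_assoc]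
    rw [intervalIntegral.integral_add_adjacent_intervals ((ck _).intervalIntegrable_of_Icc hαβ)
      ((ck _).intervalIntegrable_of_Icc hβγ)]
    exact intervalIntegral.integral_add_adjacent_intervals ((ck _).intervalIntegrable_of_Icc (hαβ.trans hβγ))
      ((ck _).intervalIntegrable_of_Icc hγ)
  have vβ := ver_c ha hτ (z := z) c hf hg hαβ le_rfl le_rfl hβγ (by rw [abs_lt]; constructor <;> linarith) hzβ.symm
  have vγ := ver_c ha hτ (z := z) c hg hh hβγ le_rfl le_rfl hγ (by rw [abs_lt]; constructor <;> linarith) hzγ.symm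
  have vα : (∫ y in (-τ)..τ, (h (((α + 2 * a : ℝ) : ℂ) + y * I) - c) * ker a (((α + 2 * a : ℝ) : ℂ) + y * I - z)) -
      (∫ y in (-τ)..τ, (f (α + y * I) - c) * ker a (α + y * I - z)) =
      ∫ y in (-τ)..τ, (h (α + y * I + 2 * a) - f (α + y * I)) * ker a (α + y * I - z) := by
    have e : ∀ y : ℝ, (h (((α + 2 * a : ℝ) : ℂ) + y * I) - c) * ker a (((α + 2 * a : ℝ) : ℂ) + y * I - z) =
        (h (α + y * I + 2 * a) - c) * ker a (α + y * I - z) := by
      intro y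
      rw [show (((α + 2 * a : ℝ) : ℂ) + y * I) - z = (α + y * I - z) + 2 * a by push_cast; ring,
        ker_period ha.ne', show (((α + 2 * a : ℝ) : ℂ) + y * I) = α + y * I + 2 * a by push_cast; ring]
    simp only [e]
    have hh' : ∀ ζ ∈ Bx (γ - 2 * a) α τ, DifferentiableAt ℂ (fun ζ => h (ζ + 2 * a)) ζ := by
      intro ζ hζ
      have h6 : DifferentiableAt ℂ h (ζ + 2 * a) := by
        refine hh _ ⟨?_, ?_, ?_⟩
        · simp only [add_re, mul_re, re_ofNat, ofReal_re, im_ofNat, ofReal_im, mul_zero, sub_zero]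
          linarith [hζ.1]
        · simp only [add_re, mul_re, re_ofNat, ofReal_re, im_ofNat, ofReal_im, mul_zero, sub_zero]
          linarith [hζ.2.1]
        · simpa using hζ.2.2
      exact h6.comp ζ (differentiableAt_id.add_const _)
    have q := ver_c ha hτ (z := z) c (r := α) (f := fun ζ => h (ζ + 2 * a)) (g := f) hh' hf (by linarith) le_rfl le_rfl
      hαβ (by rw [abs_lt]; constructor <;> linarith) hz1.ne
    exact q
  have hb : ∀ x : ℝ, (x : ℂ) - τ * I = x + -(τ * I) := fun x => sub_eq_add_neg _ _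
  have t1 := hor_c ha hτ h3 c (-(τ * I)) (Or.inr (by simp)) (by simp) hαβ hf
  have t2 := hor_c ha hτ h3 c (-(τ * I)) (Or.inr (by simp)) (by simp) hβγ hg
  have t2' := hor_c ha hτ h3 c (-(τ * I)) (Or.inr (by simp)) (by simp) hγ hh
  have t3 := hor_c ha hτ h3 c (τ * I) (Or.inl (by simp)) (by simp) hαβ hf
  have t4 := hor_c ha hτ h3 c (τ * I) (Or.inl (by simp)) (by simp) hβγ hg
  have t4' := hor_c ha hτ h3 c (τ * I) (Or.inl (by simp)) (by simp) hγ hh
  have k1 := hker (-(τ * I)) (Or.inr (by simp))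
  have k2 := hker (τ * I) (Or.inl (by simp))
  have k3 := ker_int_bot (a := a) (α := α) (τ := τ) ha h4
  have k4 := ker_int_top (a := a) (α := α) (τ := τ) ha h5
  simp only [hb] at k3
  rw [k3] at k1
  rw [k4] at k2
  unfold bI at h1 h2 h2'
  simp only [hb] at h1 h2 h2'
  rw [t1, t3] at h1
  rw [t2, t4] at h2
  rw [t2', t4'] at h2'
  unfold RT
  rw [← vβ, ← vγ, ← vα]
  linear_combination -h1 - h2 - h2' - c * k1 + c * k2

/-- **the glued Cauchy formula, three pieces** -/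
theorem glue3 (ha : 0 < a) (hτ : 0 < τ) (hαβ : α ≤ β) (hβγ : β ≤ γ) (hγ : γ ≤ α + 2 * a) {f g h : ℂ → ℂ}
    (hf : ∀ ζ ∈ Bx α β τ, DifferentiableAt ℂ f ζ) (hg : ∀ ζ ∈ Bx β γ τ, DifferentiableAt ℂ g ζ)
    (hh : ∀ ζ ∈ Bx γ (α + 2 * a) τ, DifferentiableAt ℂ h ζ) {z : ℂ} (h3 : |z.im| < τ) :
    (α < z.re → z.re < β → 2 * Real.pi * I * f z = RT a α β γ τ f g h z) ∧
      (β < z.re → z.re < γ → 2 * Real.pi * I * g z = RT a α β γ τ f g h z) ∧
      (γ < z.re → z.re < α + 2 * a → 2 * Real.pi * I * h z = RT a α β γ τ f g h z) := by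
  refine ⟨fun h1 h2 => ?_, fun h1 h2 => ?_, fun h1 h2 => ?_⟩
  · exact glue_aux3 ha hτ hαβ hβγ hγ hf hg hh h1 (by linarith) h2.ne (by linarith) h3 _
      (bI_in ha hτ (by linarith) hf h1 h2 h3) (bI_out ha hτ hβγ hg (Or.inl ⟨h2, by linarith⟩) _)
      (bI_out ha hτ hγ hh (Or.inl ⟨by linarith, by linarith⟩) _)
  · exact glue_aux3 ha hτ hαβ hβγ hγ hf hg hh (by linarith) (by linarith) h1.ne' h2.ne h3 _
      (bI_out ha hτ hαβ hf (Or.inr ⟨h1, by linarith⟩) _) (bI_in ha hτ (by linarith) hg h1 h2 h3)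
      (bI_out ha hτ hγ hh (Or.inl ⟨h2, by linarith⟩) _)
  · exact glue_aux3 ha hτ hαβ hβγ hγ hf hg hh (by linarith) h2 (by linarith) h1.ne' h3 _
      (bI_out ha hτ hαβ hf (Or.inr ⟨by linarith, by linarith⟩) _)
      (bI_out ha hτ hβγ hg (Or.inr ⟨h1, by linarith⟩) _) (bI_in ha hτ (by linarith) hh h1 h2 h3)

/-- **the same exponentials for the three pieces** -/
theorem glue_repr3 (ha : 0 < a) (hτ : 0 < τ) (hαβ : α ≤ β) (hβγ : β ≤ γ) (hγ : γ ≤ α + 2 * a) {f g h : ℂ → ℂ}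
    {B D : ℝ}
    (hf : ∀ ζ ∈ Bx α β τ, DifferentiableAt ℂ f ζ) (hg : ∀ ζ ∈ Bx β γ τ, DifferentiableAt ℂ g ζ)
    (hh : ∀ ζ ∈ Bx γ (α + 2 * a) τ, DifferentiableAt ℂ h ζ)
    (hBf : ∀ x ∈ Set.Icc α β, ‖f (x - τ * I)‖ ≤ B ∧ ‖f (x + τ * I)‖ ≤ B)
    (hBg : ∀ x ∈ Set.Icc β γ, ‖g (x - τ * I)‖ ≤ B ∧ ‖g (x + τ * I)‖ ≤ B)
    (hBh : ∀ x ∈ Set.Icc γ (α + 2 * a), ‖h (x - τ * I)‖ ≤ B ∧ ‖h (x + τ * I)‖ ≤ B)
    (hD1 : ∀ y ∈ Set.Icc (-τ) τ, ‖h (α + y * I + 2 * a) - f (α + y * I)‖ ≤ D)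
    (hD2 : ∀ y ∈ Set.Icc (-τ) τ, ‖f (β + y * I) - g (β + y * I)‖ ≤ D)
    (hD3 : ∀ y ∈ Set.Icc (-τ) τ, ‖g (γ + y * I) - h (γ + y * I)‖ ≤ D) (K : ℕ) {z : ℂ} (h3 : |z.im| < τ) {s : ℝ}
    (hs : 0 < s) (hs1 : ∀ y : ℝ, ‖PBV.ker a (α + y * I - z)‖ ≤ Real.pi / a / s)
    (hs2 : ∀ y : ℝ, ‖PBV.ker a (β + y * I - z)‖ ≤ Real.pi / a / s)
    (hs3 : ∀ y : ℝ, ‖PBV.ker a (γ + y * I - z)‖ ≤ Real.pi / a / s) {w : ℂ}
    (hw : (α < z.re ∧ z.re < β ∧ w = f z) ∨ (β < z.re ∧ z.re < γ ∧ w = g z) ∨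
      (γ < z.re ∧ z.re < α + 2 * a ∧ w = h z)) :
    ‖w - ∑ j ∈ range (2 * K + 1), (cI a α β τ f ((j : ℤ) - K) + cI a β γ τ g ((j : ℤ) - K) +
      cI a γ (α + 2 * a) τ h ((j : ℤ) - K)) * ex a ((j : ℤ) - K) z‖ ≤
      6 * B * (Real.exp (-(Real.pi * (τ - |z.im|) / a)) ^ (K + 1) /
        (1 - Real.exp (-(Real.pi * (τ - |z.im|) / a)))) + 3 * τ * D / (a * s) := by
  have hpi := Real.pi_pos
  have hw' : 2 * Real.pi * I * w = RT a α β γ τ f g h z := by
    obtain ⟨g1, g2, g3⟩ := glue3 ha hτ hαβ hβγ hγ hf hg hh h3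
    rcases hw with ⟨h1, h2, rfl⟩ | ⟨h1, h2, rfl⟩ | ⟨h1, h2, rfl⟩
    · exact g1 h1 h2
    · exact g2 h1 h2
    · exact g3 h1 h2
  have p1 := pieceI ha hτ hαβ (by linarith) hf hBf K h3
  have p2 := pieceI ha hτ hβγ (by linarith) hg hBg K h3
  have p3 := pieceI ha hτ hγ (by linarith) hh hBh K h3
  set X := Real.exp (-(Real.pi * (τ - |z.im|) / a)) ^ (K + 1) /
        (1 - Real.exp (-(Real.pi * (τ - |z.im|) / a))) with hX
  have hver : ∀ (F : ℝ → ℂ) (r : ℂ), (∀ y ∈ Set.Icc (-τ) τ, ‖F y‖ ≤ D) →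
      (∀ y : ℝ, ‖PBV.ker a (r + y * I - z)‖ ≤ Real.pi / a / s) →
      ‖I * ∫ y in (-τ)..τ, F y * PBV.ker a (r + y * I - z)‖ ≤ D * (Real.pi / a / s) * (2 * τ) := by
    intro F r hF hr
    rw [norm_mul, norm_I, one_mul]
    have h := intervalIntegral.norm_integral_le_of_norm_le_const (a := -τ) (b := τ)
      (f := fun y : ℝ => F y * PBV.ker a (r + y * I - z)) (C := D * (Real.pi / a / s)) (by
        intro y hy
        rw [uIoc_of_le (by linarith)] at hy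
        rw [norm_mul]
        have e1 := hF y ⟨hy.1.le, hy.2⟩
        have e2 := hr y
        have e3 : 0 ≤ D := (norm_nonneg _).trans e1
        gcongr)
    rwa [show τ - -τ = 2 * τ by ring, abs_of_pos (by linarith : (0 : ℝ) < 2 * τ)] at h
  have v1 := hver (fun y => h (α + y * I + 2 * a) - f (α + y * I)) α hD1 hs1
  have v2 := hver (fun y => f (β + y * I) - g (β + y * I)) β hD2 hs2
  have v3 := hver (fun y => g (γ + y * I) - h (γ + y * I)) γ hD3 hs3
  have hpi0 : (2 * Real.pi * I : ℂ) ≠ 0 := by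
    simp [Real.pi_ne_zero]
  have hn : ‖(2 * Real.pi * I : ℂ)‖ = 2 * Real.pi := by
    rw [norm_mul, norm_mul, norm_I, mul_one, norm_real, Real.norm_of_nonneg hpi.le]
    simp
  have key : ‖(2 * Real.pi * I) * (w - ∑ j ∈ range (2 * K + 1), (cI a α β τ f ((j : ℤ) - K) +
      cI a β γ τ g ((j : ℤ) - K) + cI a γ (α + 2 * a) τ h ((j : ℤ) - K)) * ex a ((j : ℤ) - K) z)‖ ≤
      4 * Real.pi * B * X + 4 * Real.pi * B * X + 4 * Real.pi * B * X + D * (Real.pi / a / s) * (2 * τ) +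
        D * (Real.pi / a / s) * (2 * τ) + D * (Real.pi / a / s) * (2 * τ) := by
    have e : (2 * Real.pi * I) * (w - ∑ j ∈ range (2 * K + 1), (cI a α β τ f ((j : ℤ) - K) +
      cI a β γ τ g ((j : ℤ) - K) + cI a γ (α + 2 * a) τ h ((j : ℤ) - K)) * ex a ((j : ℤ) - K) z) =
      ((hI a α β (-(τ * I)) f z - hI a α β (τ * I) f z) - 2 * Real.pi * I *
        ∑ j ∈ range (2 * K + 1), cI a α β τ f ((j : ℤ) - K) * ex a ((j : ℤ) - K) z) +
      ((hI a β γ (-(τ * I)) g z - hI a β γ (τ * I) g z) - 2 * Real.pi * I *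
        ∑ j ∈ range (2 * K + 1), cI a β γ τ g ((j : ℤ) - K) * ex a ((j : ℤ) - K) z) +
      ((hI a γ (α + 2 * a) (-(τ * I)) h z - hI a γ (α + 2 * a) (τ * I) h z) - 2 * Real.pi * I *
        ∑ j ∈ range (2 * K + 1), cI a γ (α + 2 * a) τ h ((j : ℤ) - K) * ex a ((j : ℤ) - K) z) +
      I * (∫ y in (-τ)..τ, (h (α + y * I + 2 * a) - f (α + y * I)) * PBV.ker a (α + y * I - z)) +
      I * (∫ y in (-τ)..τ, (f (β + y * I) - g (β + y * I)) * PBV.ker a (β + y * I - z)) +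
      I * (∫ y in (-τ)..τ, (g (γ + y * I) - h (γ + y * I)) * PBV.ker a (γ + y * I - z)) := by
      rw [mul_sub, hw']
      simp only [add_mul, Finset.sum_add_distrib]
      unfold RT
      ring
    rw [e]
    exact norm_add_le_of_le (norm_add_le_of_le (norm_add_le_of_le (norm_add_le_of_le (norm_add_le_of_le p1 p2) p3)
      v1) v2) v3
  rw [norm_mul, hn] at key
  have h2 : 0 < 2 * Real.pi := by linarith
  rw [← mul_le_mul_iff_right₀ h2]
  refine key.trans (le_of_eq ?_)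
  field_simp
  ring

end Pool.Agent.PLX

end
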