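import Pool.Agent.PLX.KSixG

/-!
# PLX: the gluing without a near window (helper91)

* `WideC` (core): `f` analytic on `|Re x| < 4 l`, `‖f‖ ≤ N^(C+1)` on `|Re x| ≤ 53/20 l` at the heights `≤ log N / 50`, and the
  hypotheses on `J₊`, `J₋`; **`kSixC`**: the `K`-terms;
* `WideF`: trigonometric polynomial, `‖f‖ ≤ N^C` in the far zone `23/10 l ≤ |Re x| ≤ 53/20 l` up to the height
  `13/20 log N`, no near window; `WideF.crude` (the polynomial bound from the far zone), `WideF.mid` (two constants on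
  `|Re x| ≤ 23/10 l`: `1.73 * (13/20 - 1/50) ≥ 1`); **`kSixF`**.
-/

set_option autoImplicit false

noncomputable section

open Complex Set Filter Topology Polynomial
open Pool.Agent.PB.Rec (EL)

namespace Pool.Agent.PLX

/-- the core hypotheses -/
structure WideC (C E : ℝ) (N : ℕ) (f Jp Jm : ℂ → ℂ) : Prop where
  dif : ∀ x : ℂ, |x.re| < 4 * ll → DifferentiableAt ℂ f x
  mid : ∀ x : ℂ, |x.re| ≤ 53 / 20 * ll → |x.im| ≤ 1 / 50 * Real.log N → ‖f x‖ ≤ (N : ℝ) ^ (C + 1)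
  fp : ∀ x : ℂ, 23 / 10 * ll ≤ x.re → x.re ≤ 53 / 20 * ll → |x.im| ≤ 1 / 50 * Real.log N →
    ‖f x - Jp (x - (3 * ll : ℝ))‖ ≤ (N : ℝ) ^ (-E)
  fm : ∀ x : ℂ, -(53 / 20 * ll) ≤ x.re → x.re ≤ -(23 / 10 * ll) → |x.im| ≤ 1 / 50 * Real.log N →
    ‖f x - Jm (x + (3 * ll : ℝ))‖ ≤ (N : ℝ) ^ (-E)
  jd : ∀ y : ℂ, |y.re| ≤ 7 / 10 * ll → |y.im| ≤ 1 / 30 * Real.log N + 1 →
    DifferentiableAt ℂ Jp y ∧ DifferentiableAt ℂ Jm y
  jb : ∀ y : ℂ, |y.re| ≤ 7 / 10 * ll → |y.im| ≤ 1 / 30 * Real.log N + 1 → ‖Jp y‖ ≤ (N : ℝ) ^ C ∧ ‖Jm y‖ ≤ (N : ℝ) ^ C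
  zer : ∃ (ι : Type) (_ : Fintype ι) (c : ι → ℂ) (Q : ℂ → ℂ), N ≤ 2 * Fintype.card ι ∧
      (∀ j, |(c j).re| ≤ 1 / 10 * ll ∧ |(c j).im| ≤ 1) ∧
      ∀ y : ℂ, |y.re| ≤ 7 / 10 * ll → |y.im| ≤ 1 / 30 * Real.log N + 1 →
        DifferentiableAt ℂ Q y ∧ Jp y - Jm y = (∏ j, (y - c j)) * Q y

/-- the hypotheses without a near window -/
structure WideF (C Cp E : ℝ) (N : ℕ) (f Jp Jm : ℂ → ℂ) : Prop where
  poly : ∃ (P : ℂ[X]) (W : ℂ → ℂ) (D : ℕ), (D : ℝ) ≤ Cp * N ∧ P.natDegree ≤ D ∧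
    (∀ x : ℂ, |x.re| < 4 * ll → DifferentiableAt ℂ W x ∧ W x ≠ 0) ∧
    (∀ x : ℂ, |x.re| < 4 * ll → f x * W x = P.eval (cexp (2 * x * I))) ∧
    ∀ x x' : ℂ, x.im = x'.im → |x'.re| ≤ 3 * ll → |x.re| ≤ 3 * ll → ‖W x'‖ ≤ Real.exp (Cp * N) * ‖W x‖
  far : ∀ x : ℂ, 23 / 10 * ll ≤ |x.re| → |x.re| ≤ 53 / 20 * ll → |x.im| ≤ 13 / 20 * Real.log N → ‖f x‖ ≤ (N : ℝ) ^ C
  fp : ∀ x : ℂ, 23 / 10 * ll ≤ x.re → x.re ≤ 53 / 20 * ll → |x.im| ≤ 1 / 50 * Real.log N →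
    ‖f x - Jp (x - (3 * ll : ℝ))‖ ≤ (N : ℝ) ^ (-E)
  fm : ∀ x : ℂ, -(53 / 20 * ll) ≤ x.re → x.re ≤ -(23 / 10 * ll) → |x.im| ≤ 1 / 50 * Real.log N →
    ‖f x - Jm (x + (3 * ll : ℝ))‖ ≤ (N : ℝ) ^ (-E)
  jd : ∀ y : ℂ, |y.re| ≤ 7 / 10 * ll → |y.im| ≤ 1 / 30 * Real.log N + 1 →
    DifferentiableAt ℂ Jp y ∧ DifferentiableAt ℂ Jm y
  jb : ∀ y : ℂ, |y.re| ≤ 7 / 10 * ll → |y.im| ≤ 1 / 30 * Real.log N + 1 → ‖Jp y‖ ≤ (N : ℝ) ^ C ∧ ‖Jm y‖ ≤ (N : ℝ) ^ C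
  zer : ∃ (ι : Type) (_ : Fintype ι) (c : ι → ℂ) (Q : ℂ → ℂ), N ≤ 2 * Fintype.card ι ∧
      (∀ j, |(c j).re| ≤ 1 / 10 * ll ∧ |(c j).im| ≤ 1) ∧
      ∀ y : ℂ, |y.re| ≤ 7 / 10 * ll → |y.im| ≤ 1 / 30 * Real.log N + 1 →
        DifferentiableAt ℂ Q y ∧ Jp y - Jm y = (∏ j, (y - c j)) * Q y

variable {C Cp E : ℝ} {N : ℕ} {f Jp Jm : ℂ → ℂ}

/-- **the gluing**, for the core hypotheses -/
theorem kSixC {C E e : ℝ} (hE : e < E) : ∃ K0 : ℕ, ∀ K ≥ K0, ∃ N0 : ℕ, ∀ N ≥ N0,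
    ∀ f Jp Jm : ℂ → ℂ, WideC C E N f Jp Jm →
      Kt (8 / 3) K (fun x => Ax x ∨ x = aF) ((N : ℝ) ^ (-e)) (fun x => if x = aF then Jp 0 else f x) := by
  have hpi := Real.pi_pos
  have h3 := Real.pi_gt_d2
  have h4 := Real.pi_lt_d2
  have hl := ll_pos
  have hlv : ll = Real.pi / 8 := rfl
  set a : ℝ := 3 * ll with ha_def
  have ha : 0 < a := by rw [ha_def]; (clear * - h3 h4 hlv; linarith)
  have hw : Real.pi / a = 8 / 3 := by
    rw [ha_def, hlv]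
    field_simp
  set s : ℝ := Real.sin (Real.pi / 12) with hs_def
  have hs : 0 < s := Real.sin_pos_of_pos_of_lt_pi (by positivity) (by (clear * - h3 h4; linarith))
  obtain ⟨N2, hN2⟩ := PBV.small_Nx (δ := 7 / 10 * ll) (ρ := 1 / 2 * ll) (b0 := 1 / 10 * ll) (y0 := 1) (x1 := 1 / 30)
    (C + 1) E (ε := 1 / 5) (by (clear * - h3 h4 hlv; linarith)) (by (clear * - h3 h4 hlv; linarith)) (by linarith) (by (clear * - h3 h4 hlv; linarith)) (by linarith) (by norm_num)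
    (by norm_num) (by norm_num) (by norm_num) (by rw [hlv, le_div_iff₀ hpi]; linarith)
  set K0 : ℕ := ⌈(C + 1 + e + 1) * 50⌉₊ with hK0
  refine ⟨K0, fun K hK => ?_⟩
  have hKr : (C + 1 + e + 1) * 50 ≤ K := (Nat.le_ceil _).trans (by exact_mod_cast hK)
  obtain ⟨N3, hN3⟩ := fin_est (C := C) hE ha hs hw hKr
  obtain ⟨N5, hN5⟩ := exists_nat_ge (Real.exp 100)
  refine ⟨max (max N2 N3) (max N5 2), fun N hN f Jp Jm hf => ?_⟩
  have hNN2 : N2 ≤ N := by omega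
  have hNN3 : N3 ≤ N := by omega
  have hNN5 : N5 ≤ N := by omega
  have hNN6 : 2 ≤ N := by omega
  have hNr : (2 : ℝ) ≤ N := by exact_mod_cast hNN6
  have hNr0 : (0 : ℝ) < N := by (clear * - h3 h4 hNr; linarith)
  have hNr1 : (1 : ℝ) ≤ N := by (clear * - h3 h4 hNr; linarith)
  set L := Real.log N with hL
  have hL100 : 100 ≤ L := by
    rw [hL, Real.le_log_iff_exp_le hNr0]
    exact hN5.trans (by exact_mod_cast hNN5)
  set τ : ℝ := 1 / 50 * L with hτ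
  have hτ0 : 0 < τ := by rw [hτ]; (clear * - L h3 h4 hL100; linarith)
  have hτ2 : 2 ≤ τ := by rw [hτ]; (clear * - L hL100; linarith)
  have hτJ : τ ≤ 1 / 30 * L + 1 := by rw [hτ]; (clear * - L h3 h4 hL100; linarith)
  -- the difference of the two functions of the minus row
  have hJ : ∀ y : ℂ, |y.re| ≤ 1 / 2 * ll → |y.im| ≤ τ → ‖Jp y - Jm y‖ ≤ (N : ℝ) ^ (-E) := by
    intro y hy hyi
    obtain ⟨ι, hι, c, Q, hn, hcj, hJJ⟩ := hf.zer
    refine hN2 N hNN2 ι c (fun y => Jp y - Jm y) Q hn hcj ?_ ?_ ?_ y hy ?_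
    · exact fun w hw => (hJJ w hw.1 hw.2).1
    · exact fun w hw => (hJJ w hw.1 hw.2).2
    · intro w hw
      obtain ⟨b1, b2⟩ := hf.jb w hw.1 hw.2
      have e1 : (N : ℝ) ^ (C + 1) = (N : ℝ) ^ C * N := by rw [Real.rpow_add hNr0, Real.rpow_one]
      have hNC : 0 ≤ (N : ℝ) ^ C := by positivity
      rw [e1]
      refine (norm_sub_le _ _).trans ?_
      clear * - b1 b2 h3 h4 hNr hNC
      nlinarith
    · refine hyi.trans ?_
      rw [hτ]
      clear * - L h3 h4 hL100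
      nlinarith
  have hB : ∀ x : ℂ, |x.re| ≤ 5 / 2 * ll → |x.im| ≤ τ → ‖f x‖ ≤ (N : ℝ) ^ (C + 1) := fun x hx hxi =>
    hf.mid x (by (clear * - h3 h4 hlv hx; linarith)) hxi
  have hCC : (N : ℝ) ^ C ≤ (N : ℝ) ^ (C + 1) := Real.rpow_le_rpow_of_exponent_le hNr1 (by (clear * - h3 h4; linarith))
  have hgJ : ∀ x : ℂ, 5 / 2 * ll ≤ x.re → x.re ≤ 7 / 2 * ll → |(x - ((3 * ll : ℝ) : ℂ)).re| ≤ 1 / 2 * ll := by
    intro x h1 h2
    rw [sub_re, ofReal_re, abs_le]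
    constructor <;> (clear * - h1 h2; linarith)
  -- the glued function
  set g : ℂ → ℂ := fun x => Jp (x - ((3 * ll : ℝ) : ℂ)) with hg_def
  have h2a : -(5 / 2 * ll) + 2 * a = 7 / 2 * ll := by rw [ha_def]; ring
  have hdf : ∀ ζ ∈ Bx (-(5 / 2 * ll)) (5 / 2 * ll) τ, DifferentiableAt ℂ f ζ := fun ζ hζ =>
    hf.dif ζ (lt_of_le_of_lt (abs_le.2 ⟨hζ.1, hζ.2.1⟩) (by (clear * - h3 h4 hlv; linarith)))
  have hdg : ∀ ζ ∈ Bx (5 / 2 * ll) (-(5 / 2 * ll) + 2 * a) τ, DifferentiableAt ℂ g ζ := by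
    intro ζ hζ
    rw [h2a] at hζ
    have h5 := (hf.jd (ζ - ((3 * ll : ℝ) : ℂ)) ((hgJ ζ hζ.1 hζ.2.1).trans (by (clear * - h3 h4 hlv; linarith))) (by
      refine le_trans ?_ hτJ
      simpa using hζ.2.2)).1
    exact h5.comp ζ (differentiableAt_id.sub_const _)
  have hBf : ∀ x ∈ Icc (-(5 / 2 * ll)) (5 / 2 * ll), ‖f (x - τ * I)‖ ≤ (N : ℝ) ^ (C + 1) ∧
      ‖f (x + τ * I)‖ ≤ (N : ℝ) ^ (C + 1) := by
    intro x hx
    constructor <;> refine hB _ ?_ ?_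
    · simpa using abs_le.2 hx
    · simp [abs_of_pos hτ0]
    · simpa using abs_le.2 hx
    · simp [abs_of_pos hτ0]
  have hBg : ∀ x ∈ Icc (5 / 2 * ll) (-(5 / 2 * ll) + 2 * a), ‖g (x - τ * I)‖ ≤ (N : ℝ) ^ (C + 1) ∧
      ‖g (x + τ * I)‖ ≤ (N : ℝ) ^ (C + 1) := by
    intro x hx
    rw [h2a] at hx
    constructor
    · refine (hf.jb _ ((hgJ _ ?_ ?_).trans (by (clear * - h3 h4 hlv; linarith))) ?_).1.trans hCC
      · simpa using hx.1
      · simpa using hx.2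
      · refine le_trans (le_of_eq ?_) hτJ
        simp [abs_of_pos hτ0]
    · refine (hf.jb _ ((hgJ _ ?_ ?_).trans (by (clear * - h3 h4 hlv; linarith))) ?_).1.trans hCC
      · simpa using hx.1
      · simpa using hx.2
      · refine le_trans (le_of_eq ?_) hτJ
        simp [abs_of_pos hτ0]
  have hD1 : ∀ y ∈ Icc (-τ) τ, ‖g (((-(5 / 2 * ll) : ℝ) : ℂ) + y * I + 2 * a) -
      f (((-(5 / 2 * ll) : ℝ) : ℂ) + y * I)‖ ≤ 2 * (N : ℝ) ^ (-E) := by
    intro y hy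
    set x : ℂ := ((-(5 / 2 * ll) : ℝ) : ℂ) + y * I with hx
    have hxr : x.re = -(5 / 2 * ll) := by simp [hx]
    have hxi : |x.im| ≤ τ := by
      have : x.im = y := by simp [hx]
      rw [this]
      exact abs_le.2 hy
    have e1 : x + 2 * (a : ℂ) - ((3 * ll : ℝ) : ℂ) = x + ((3 * ll : ℝ) : ℂ) := by
      rw [ha_def]
      push_cast
      ring
    have e2 := hf.fm x (by rw [hxr]; (clear * - h3 h4 hlv; linarith)) (by rw [hxr]; (clear * - h3 h4 hlv; linarith)) hxi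
    have e3 := hJ (x + ((3 * ll : ℝ) : ℂ)) (by
      rw [add_re, ofReal_re, hxr, abs_le]
      constructor <;> (clear * - h3 h4 hlv; linarith)) (by simpa using hxi)
    show ‖Jp (x + 2 * (a : ℂ) - ((3 * ll : ℝ) : ℂ)) - f x‖ ≤ _
    rw [e1]
    calc ‖Jp (x + ((3 * ll : ℝ) : ℂ)) - f x‖ = ‖(Jp (x + ((3 * ll : ℝ) : ℂ)) - Jm (x + ((3 * ll : ℝ) : ℂ))) -
          (f x - Jm (x + ((3 * ll : ℝ) : ℂ)))‖ := by congr 1; ring
      _ ≤ _ := norm_sub_le _ _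
      _ ≤ 2 * (N : ℝ) ^ (-E) := by (clear * - x e2 e3; linarith)
  have hD2 : ∀ y ∈ Icc (-τ) τ, ‖f (((5 / 2 * ll : ℝ) : ℂ) + y * I) - g (((5 / 2 * ll : ℝ) : ℂ) + y * I)‖ ≤
      2 * (N : ℝ) ^ (-E) := by
    intro y hy
    have hE0 : 0 ≤ (N : ℝ) ^ (-E) := by positivity
    have e2 := hf.fp (((5 / 2 * ll : ℝ) : ℂ) + y * I) (by simp; (clear * - h3 h4 hlv; linarith)) (by simp; (clear * - h3 h4 hlv; linarith)) (by
      have h5 : (((5 / 2 * ll : ℝ) : ℂ) + y * I).im = y := by simp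
      rw [h5]
      exact abs_le.2 hy)
    exact e2.trans (by (clear * - hE0; linarith))
  -- the kernel
  have hker : ∀ (r : ℝ) (z : ℂ), s ≤ |Real.sin (Real.pi * (r - z.re) / (2 * a))| → ∀ y : ℝ,
      ‖PBV.ker a (r + y * I - z)‖ ≤ Real.pi / a / s := by
    intro r z h y
    refine PBV.ker_upper2 ha _ hs ?_
    have : ((r : ℂ) + y * I - z).re = r - z.re := by simp
    rwa [this]
  -- the final estimate
  have hfin : ∀ z : ℂ, |z.im| ≤ 1 → 4 * (N : ℝ) ^ (C + 1) * (Real.exp (-(Real.pi * (τ - |z.im|) / a)) ^ (K + 1) /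
        (1 - Real.exp (-(Real.pi * (τ - |z.im|) / a)))) + 2 * τ * (2 * (N : ℝ) ^ (-E)) / (a * s) ≤ (N : ℝ) ^ (-e) :=
    fun z hz => hN3 N hNN3 _ (abs_nonneg _) hz
  -- assembly
  set c : ℤ → ℂ := fun k => cI a (-(5 / 2 * ll)) (5 / 2 * ll) τ f k +
    cI a (5 / 2 * ll) (-(5 / 2 * ll) + 2 * a) τ g k with hc
  obtain ⟨p, hp, hp2⟩ := EL_poly (8 / 3) K c
  refine ⟨p, hp, fun x hx => ?_⟩
  show ‖(if x = aF then Jp 0 else f x) - _‖ ≤ _
  rw [← hp2 x, ← hw, ← PBV.sum_EL ha.ne' K c x]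
  have hαβ : -(5 / 2 * ll) ≤ 5 / 2 * ll := by (clear * - h3 h4 hlv; linarith)
  have hβ : 5 / 2 * ll ≤ -(5 / 2 * ll) + 2 * a := by rw [h2a]; (clear * - h3 h4 hlv; linarith)
  by_cases hxa : x = aF
  · have hxr : x.re = 3 * ll := by
      rw [hxa, aF_re]
    have hxi : x.im = 0 := by
      rw [hxa]
      exact Complex.ofReal_im _
    have e0 : (if x = aF then Jp 0 else f x) = g x := by
      rw [if_pos hxa, hg_def]
      show Jp 0 = Jp (x - ((3 * ll : ℝ) : ℂ))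
      congr 1
      rw [hxa]
      unfold aF ll
      rw [sub_self]
    rw [e0]
    exact (glue_repr ha hτ0 hαβ hβ hdf hdg hBf hBg hD1 hD2 K (z := x) (s := s) (by rw [hxi, abs_zero]; exact hτ0) hs
      (hker _ x (s_low (d := -(11 / 2)) (by rw [hxr]; ring) (by norm_num) (by norm_num)))
      (hker _ x (s_low (d := -(1 / 2)) (by rw [hxr]; ring) (by norm_num) (by norm_num)))
      (Or.inr ⟨by rw [hxr]; (clear * - h3 h4 hlv; linarith), by rw [hxr, h2a]; (clear * - h3 h4 hlv; linarith), rfl⟩)).trans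
        (hfin x (by rw [hxi, abs_zero]; norm_num))
  · have hxA : Ax x := hx.resolve_right hxa
    obtain ⟨hxr, hxi⟩ := hxA
    rw [if_neg hxa]
    exact (glue_repr ha hτ0 hαβ hβ hdf hdg hBf hBg hD1 hD2 K (z := x) (s := s) (by (clear * - τ L h3 h4 hL100 hτ hxi; linarith)) hs
      (hker _ x (s_low (d := -(5 / 2)) (by rw [hxr]; ring) (by norm_num) (by norm_num)))
      (hker _ x (s_low (d := 5 / 2) (by rw [hxr]; ring) (by norm_num) (by norm_num)))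
      (Or.inl ⟨by rw [hxr]; (clear * - h3 h4 hlv; linarith), by rw [hxr]; (clear * - h3 h4 hlv; linarith), rfl⟩)).trans (hfin x hxi)

/-! ### the middle zone from the far zone -/

theorem WideF.dif (hf : WideF C Cp E N f Jp Jm) (x : ℂ) (hx : |x.re| < 4 * ll) : DifferentiableAt ℂ f x := by
  obtain ⟨P, W, D, -, -, hW, hP, -⟩ := hf.poly
  have hopen : IsOpen {z : ℂ | |z.re| < 4 * ll} := isOpen_lt (by fun_prop) continuous_const
  have h1 : f =ᶠ[𝓝 x] fun z => P.eval (cexp (2 * z * I)) / W z := by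
    filter_upwards [hopen.mem_nhds hx] with z hz
    rw [eq_div_iff (hW z hz).2]
    exact hP z hz
  refine DifferentiableAt.congr_of_eventuallyEq ?_ h1
  refine DifferentiableAt.div ?_ (hW x hx).1 (hW x hx).2
  have h2 : DifferentiableAt ℂ (fun w : ℂ => P.eval w) (cexp (2 * x * I)) := P.differentiable.differentiableAt
  have h3 : DifferentiableAt ℂ (fun z : ℂ => cexp (2 * z * I)) x := by fun_prop
  exact h2.comp x h3

/-- the crude bound -/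
theorem WideF.crude (hf : WideF C Cp E N f Jp Jm) (hC : 0 ≤ C) (_hCp : 0 ≤ Cp) (hN : 1 ≤ N) {x : ℂ}
    (hx : |x.re| ≤ 53 / 20 * ll) (hxi : |x.im| ≤ 13 / 20 * Real.log N) :
    ‖f x‖ ≤ Real.exp ((Cp * (1 + Real.log (Real.pi * Real.exp 1 / (2 * (7 / 40 * ll)))) + C) * N) := by
  have hpi := Real.pi_pos
  have hl := ll_pos
  have hlv : ll = Real.pi / 8 := rfl
  have hNr : (1 : ℝ) ≤ N := by exact_mod_cast hN
  obtain ⟨P, W, D, hD, hPD, hW, hP, hr⟩ := hf.poly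
  have hWx := hW x (lt_of_le_of_lt hx (by (clear * - hl; linarith)))
  have hWn : 0 < ‖W x‖ := norm_pos_iff.2 hWx.2
  have hNC : (N : ℝ) ^ C ≤ Real.exp (C * N) := by
    rw [Real.rpow_def_of_pos (by (clear * - hNr; linarith)), Real.exp_le_exp]
    have := Real.log_le_sub_one_of_pos (show (0 : ℝ) < N by linarith)
    clear * - hC this
    nlinarith
  set c : ℝ := 99 / 40 * ll with hc
  set P' : ℂ[X] := P.comp (Polynomial.C (cexp (2 * (c : ℂ) * I)) * X) with hP'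
  have hP'D : P'.natDegree ≤ D := by
    refine Polynomial.natDegree_comp_le.trans ?_
    refine (Nat.mul_le_mul hPD (Polynomial.natDegree_C_mul_le _ _)).trans ?_
    rw [Polynomial.natDegree_X, mul_one]
  have he : ∀ y : ℂ, P'.eval (cexp (2 * y * I)) = P.eval (cexp (2 * (y + c) * I)) := by
    intro y
    rw [hP', Polynomial.eval_comp, Polynomial.eval_mul, Polynomial.eval_C, Polynomial.eval_X, ← Complex.exp_add]
    congr 2
    ring
  have h1 : ∀ y : ℂ, y.im = x.im → |y.re| ≤ 7 / 40 * ll →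
      ‖P'.eval (cexp (2 * y * I))‖ ≤ (N : ℝ) ^ C * (Real.exp (Cp * N) * ‖W x‖) := by
    intro y hy hy'
    obtain ⟨h5, h6⟩ := abs_le.1 hy'
    have hre : (y + c).re = y.re + c := by simp
    have him : (y + c).im = x.im := by simpa using hy
    have h7 : |(y + c).re| = (y + c).re := abs_of_nonneg (by rw [hre, hc]; (clear * - hl h5; linarith))
    have h8 : 23 / 10 * ll ≤ (y + c).re := by rw [hre, hc]; (clear * - h5; linarith)
    have h9 : (y + c).re ≤ 53 / 20 * ll := by rw [hre, hc]; (clear * - h6; linarith)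
    rw [he, ← hP (y + c) (by rw [h7]; (clear * - c hl hc h6 hre; linarith)), norm_mul]
    refine mul_le_mul (hf.far (y + c) (by rw [h7]; exact h8) (by rw [h7]; exact h9) (by rw [him]; exact hxi))
      (hr x (y + c) him.symm (by rw [h7]; (clear * - c hl hc h6 hre; linarith)) (by (clear * - hx hl; linarith))) (norm_nonneg _) (by positivity)
  have h2 := ISR.remez hP'D (by positivity) (by rw [hlv]; (clear * - hl hlv; linarith)) h1 (x := x - c) (by simp)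
  rw [he, sub_add_cancel, ← hP x (lt_of_le_of_lt hx (by (clear * - hl; linarith))), norm_mul] at h2
  set q : ℝ := Real.pi * Real.exp 1 / (2 * (7 / 40 * ll)) with hq
  have hq1 : 1 ≤ q := by
    rw [hq, le_div_iff₀ (by positivity)]
    have : 1 ≤ Real.exp 1 := Real.one_le_exp (by norm_num)
    rw [hlv]
    clear * - hl hlv hpi this
    nlinarith
  have h3 : q ^ D ≤ Real.exp (Cp * Real.log q * N) := by
    rw [← Real.exp_log (show 0 < q by (clear * - q hq1; linarith)), ← Real.exp_nat_mul, Real.log_exp, Real.exp_le_exp]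
    have h4 : 0 ≤ Real.log q := Real.log_nonneg hq1
    clear * - q hD h4
    nlinarith
  have h5 : ‖f x‖ ≤ q ^ D * ((N : ℝ) ^ C * Real.exp (Cp * N)) := by
    have h6 : ‖f x‖ * ‖W x‖ ≤ q ^ D * ((N : ℝ) ^ C * Real.exp (Cp * N)) * ‖W x‖ := by
      calc _ ≤ _ := h2
        _ = _ := by ring
    exact le_of_mul_le_mul_right h6 hWn
  calc ‖f x‖ ≤ q ^ D * ((N : ℝ) ^ C * Real.exp (Cp * N)) := h5
    _ ≤ Real.exp (Cp * Real.log q * N) * (Real.exp (C * N) * Real.exp (Cp * N)) := by (clear * - q h3 hNC hN; gcongr)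
    _ = _ := by
        rw [← Real.exp_add, ← Real.exp_add]
        congr 1
        ring

/-- the middle zone -/
theorem WideF.mid (hC : 0 ≤ C) (hCp : 0 ≤ Cp) : ∃ N0 : ℕ, ∀ N ≥ N0, ∀ f Jp Jm : ℂ → ℂ, WideF C Cp E N f Jp Jm →
    ∀ x : ℂ, |x.re| ≤ 53 / 20 * ll → |x.im| ≤ 1 / 50 * Real.log N → ‖f x‖ ≤ (N : ℝ) ^ (C + 1) := by
  have hpi := Real.pi_pos
  have hl := ll_pos
  have hlv : ll = Real.pi / 8 := rfl
  set C1 : ℝ := Cp * (1 + Real.log (Real.pi * Real.exp 1 / (2 * (7 / 40 * ll)))) + C with hC1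
  have hC10 : 0 ≤ C1 := by
    have hq1 : 1 ≤ Real.pi * Real.exp 1 / (2 * (7 / 40 * ll)) := by
      rw [le_div_iff₀ (by positivity)]
      have : 1 ≤ Real.exp 1 := Real.one_le_exp (by norm_num)
      rw [hlv]
      clear * - hl hlv hpi this
      nlinarith
    have := Real.log_nonneg hq1
    positivity
  have hκ : (1.73 : ℝ) * (23 / 10 * ll) < Real.pi / 2 := by rw [hlv]; linarith
  set q0 := Real.cos (1.73 * (23 / 10 * ll)) with hq0
  have hq0' : 0 < q0 := Real.cos_pos_of_mem_Ioo ⟨by (clear * - hl hlv; nlinarith), hκ⟩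
  obtain ⟨N0, hN0⟩ := exists_nat_ge (Real.exp (2 * C1 / q0))
  refine ⟨max N0 2, fun N hN f Jp Jm hf x hx hxi => ?_⟩
  have hN2 : 2 ≤ N := (le_max_right _ _).trans hN
  have hNr : (2 : ℝ) ≤ N := by exact_mod_cast hN2
  have hNr0 : (0 : ℝ) < N := by (clear * - hNr; linarith)
  have hNE : Real.exp (2 * C1 / q0) ≤ N := hN0.trans (by exact_mod_cast (le_max_left _ _).trans hN)
  have hL : 0 < Real.log N := Real.log_pos (by (clear * - hNr; linarith))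
  have hNC : 1 ≤ (N : ℝ) ^ C := Real.one_le_rpow (by (clear * - hNr; linarith)) hC
  have e1 : (N : ℝ) ^ (C + 1) = (N : ℝ) ^ C * N := by rw [Real.rpow_add hNr0, Real.rpow_one]
  have hup : (N : ℝ) ^ C ≤ (N : ℝ) ^ (C + 1) := by
    rw [e1]
    clear * - hNr hNC
    nlinarith
  rcases le_total (23 / 10 * ll) |x.re| with h1 | h1
  · exact (hf.far x h1 hx (hxi.trans (by (clear * - hL; nlinarith)))).trans hup
  · have h6 := ISR.thinS_log (g := f) (a := 0) (δ := 23 / 10 * ll) (c := 1 / 50) (c₁ := 13 / 20) (M := (N : ℝ) ^ C)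
      (C := C1) (q := 1) (κ := 1.73) hN2 (by positivity) (by norm_num) (by norm_num) hNC hC10 (by norm_num) hκ
      (by norm_num) (fun z hz => hf.dif z ?_) (fun z hz hzi => ?_) (fun z hz hzi => ?_) (z := x) (by simpa using h1) hxi
    · refine h6.trans ?_
      rw [e1]
      exact mul_le_mul_of_nonneg_left hNE (by positivity)
    · have h2 := hz.1
      rw [sub_zero] at h2
      clear * - hl h2
      linarith
    · rw [sub_zero] at hz
      exact hf.far z hz.ge (by rw [hz]; (clear * - hl; linarith)) hzi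
    · rw [sub_zero] at hz
      rw [Real.rpow_one]
      exact hf.crude hC hCp (by omega) (by (clear * - hl hz; linarith)) hzi.le

/-- **K6 without a near window** -/
theorem kSixF {C Cp E e : ℝ} (hC : 0 ≤ C) (hCp : 0 ≤ Cp) (hE : e < E) : ∃ K0 : ℕ, ∀ K ≥ K0, ∃ N0 : ℕ, ∀ N ≥ N0,
    ∀ f Jp Jm : ℂ → ℂ, WideF C Cp E N f Jp Jm →
      Kt (8 / 3) K (fun x => Ax x ∨ x = aF) ((N : ℝ) ^ (-e)) (fun x => if x = aF then Jp 0 else f x) := by
  obtain ⟨N1, h1⟩ := WideF.mid (E := E) hC hCp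
  obtain ⟨K0, h2⟩ := kSixC (C := C) hE
  refine ⟨K0, fun K hK => ?_⟩
  obtain ⟨N2, h3⟩ := h2 K hK
  exact ⟨max N1 N2, fun N hN f Jp Jm hf => h3 N ((le_max_right _ _).trans hN) f Jp Jm
    ⟨hf.dif, h1 N ((le_max_left _ _).trans hN) f Jp Jm hf, hf.fp, hf.fm, hf.jd, hf.jb, hf.zer⟩⟩

end Pool.Agent.PLX

end
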