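import Pool.Agent.PLX.NzU

/-!
# PLAX: one far row of the first group, all near rows

* `cF e z x0 mu nu` : the state `e` of the far row `x0` (`8 l / 5 < Re x0 < 33 l / 10`), near rows `mu`, `nu`
  which may coincide; `nzF` : the sum over the three states;
* `nzF_nh` : pairwise different heights of `mu` and of `nu`: `nzF z x0 mu nu = PBS.nh z (x0, mu) nu`;
* `cF_tendsto`, `nzF_tendsto` : joint continuity; `nzF_perm`.
-/

set_option autoImplicit false
set_option linter.unusedSectionVars false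
set_option linter.unusedVariables false

noncomputable section

open Complex Filter Topology

namespace Pool.Agent.PLX

open NUP1 (l lpos St sta sw pr qu nq crq Gr)
open NUP1.Grand (P)
open NUP1.Leg (hr)
open NURow (UB ub_sin ub_inv_sin InBox)
open PBX (Lg Rws SpA pull K3 Lg_SpA pull_ne pull_re pull_Rws pull_tendsto isCompact_K3)
open PBS (Th fw gw Lw ww)
open PBR (rh rh_neg rh_ne_zero differentiableAt_rh)
open Pool.Agent.PB
open RX (sumU Wo Vo kO kX k1 LL Fr Fr_of)

variable {m M : ℕ}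

/-- the charge of the rest for the state `e` of the far row -/
def ch (e : SignType) : ℤ := -(e : ℤ)

/-- **the state `e` of the far row `x0`** -/
def cF (e : SignType) (z x0 : ℂ) (mu : Fin m → ℂ) (nu : Fin M → ℂ) : ℂ :=
  Pf z mu nu * (k1 z e x0 * ((∏ i, kO e (x0 - mu i)) * ∏ j, kX e (x0 - nu j))) *
    sumU m M (ch e) fun n n' => DZU (cn m) (cn M) (fun u => Th z u * Wo e (u - x0))
      (fun u => Th z u * Vo e (u - x0)) mu nu n n'

/-- **one far row `x0` in the first group** -/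
def nzF (z x0 : ℂ) (mu : Fin m → ℂ) (nu : Fin M → ℂ) : ℂ := ∑ e : SignType, cF e z x0 mu nu

/-- the strip of the far row -/
def FS : Set ℂ := {x | 8 / 5 * l < x.re ∧ x.re < 33 / 10 * l}

theorem FS_open : IsOpen FS :=
  (isOpen_lt continuous_const Complex.continuous_re).inter
    (isOpen_lt Complex.continuous_re continuous_const)

/-! ### the spectators -/

theorem cosv (v : ℂ) : cos v = sin (v + 4 * l) := by
  have : (4 : ℂ) * (l : ℂ) = Real.pi / 2 := by
    unfold NUP1.l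
    push_cast
    ring
  rw [this, sin_add_pi_div_two]

theorem ch_pos : ((ch .pos : ℤ) : ℝ) = -1 := by
  show ((-(1 : ℤ) : ℤ) : ℝ) = -1
  norm_num

theorem ch_zero : ((ch .zero : ℤ) : ℝ) = 0 := by
  show ((-(0 : ℤ) : ℤ) : ℝ) = 0
  norm_num

theorem ch_neg : ((ch .neg : ℤ) : ℝ) = 1 := by
  show ((-(-1 : ℤ) : ℤ) : ℝ) = 1
  norm_num

theorem sn_ne {v : ℂ} {k : ℝ} (h1 : -(8 * l) < v.re + k * l) (h2 : v.re + k * l < 0) :
    sin (v + k * l) ≠ 0 := by
  refine NUP1.Bd.sin_ne_zero_of_re ?_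
  have e : (v + (k : ℂ) * l).re = v.re + k * l := by simp
  rw [e]
  exact NURow.sin_ne_neg h2 h1

/-- the far factors are analytic -/
theorem Wo_diff (e : SignType) {v : ℂ} (h1 : -(5 * l) < v.re) (h2 : v.re < -l) :
    DifferentiableAt ℂ (Wo e) v := by
  have hl := lpos
  have a0 : sin v ≠ 0 := by
    have := sn_ne (v := v) (k := 0) (by linarith) (by linarith)
    simpa using this
  have a1 : sin (v - 2 * l) ≠ 0 := by
    have := sn_ne (v := v) (k := -2) (by linarith) (by linarith)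
    rwa [show v + ((-2 : ℝ) : ℂ) * l = v - 2 * l by push_cast; ring] at this
  have a2 : sin (v - l) ≠ 0 := by
    have := sn_ne (v := v) (k := -1) (by linarith) (by linarith)
    rwa [show v + ((-1 : ℝ) : ℂ) * l = v - l by push_cast; ring] at this
  have a3 : sin (v + l) ≠ 0 := by
    have := sn_ne (v := v) (k := 1) (by linarith) (by linarith)
    rwa [show v + ((1 : ℝ) : ℂ) * l = v + l by push_cast; ring] at this
  cases e
  · show DifferentiableAt ℂ (fun v => sin v * sin (v + 2 * l) / (sin (v - l) * sin (v + l))) v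
    exact DifferentiableAt.div (by fun_prop) (by fun_prop) (mul_ne_zero a2 a3)
  · show DifferentiableAt ℂ (fun v => -(sin (v + l) * sin (v + 3 * l))) v
    fun_prop
  · show DifferentiableAt ℂ (fun v => -1 / (sin v * sin (v - 2 * l))) v
    exact DifferentiableAt.div (by fun_prop) (by fun_prop) (mul_ne_zero a0 a1)

theorem Vo_diff (e : SignType) {v : ℂ} (h1 : -(5 * l) < v.re) (h2 : v.re < -l) :
    DifferentiableAt ℂ (Vo e) v := by
  have hl := lpos
  have a1 : sin (v - 2 * l) ≠ 0 := by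
    have := sn_ne (v := v) (k := -2) (by linarith) (by linarith)
    rwa [show v + ((-2 : ℝ) : ℂ) * l = v - 2 * l by push_cast; ring] at this
  have a2 : sin (v - 3 * l) ≠ 0 := by
    have := sn_ne (v := v) (k := -3) (by linarith) (by linarith)
    rwa [show v + ((-3 : ℝ) : ℂ) * l = v - 3 * l by push_cast; ring] at this
  cases e
  · show DifferentiableAt ℂ (fun v => cos v ^ 2 / sin (v - 3 * l) ^ 2) v
    exact DifferentiableAt.div (by fun_prop) (by fun_prop) (pow_ne_zero _ a2)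
  · show DifferentiableAt ℂ (fun v => 1 / sin (v - 2 * l) ^ 2) v
    exact DifferentiableAt.div (by fun_prop) (by fun_prop) (pow_ne_zero _ a1)
  · show DifferentiableAt ℂ (fun v => sin (v + 3 * l) ^ 2) v
    fun_prop

theorem Wo_meas (e : SignType) : Measurable (Wo e) := by
  cases e
  · show Measurable (fun v : ℂ => sin v * sin (v + 2 * l) / (sin (v - l) * sin (v + l)))
    fun_prop
  · show Measurable (fun v : ℂ => -(sin (v + l) * sin (v + 3 * l)))
    fun_prop
  · show Measurable (fun v : ℂ => -1 / (sin v * sin (v - 2 * l)))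
    fun_prop

theorem Vo_meas (e : SignType) : Measurable (Vo e) := by
  cases e
  · show Measurable (fun v : ℂ => cos v ^ 2 / sin (v - 3 * l) ^ 2)
    fun_prop
  · show Measurable (fun v : ℂ => 1 / sin (v - 2 * l) ^ 2)
    fun_prop
  · show Measurable (fun v : ℂ => sin (v + 3 * l) ^ 2)
    fun_prop

theorem sn_low {X δ k : ℝ} (h1 : ∀ d ∈ K3, -(8 * l) < d + δ - X + k * l - 2 * δ)
    (h2 : ∀ d ∈ K3, d + δ - X + k * l < 0) :
    ∀ d ∈ K3, ∀ e : ℝ, |e| ≤ δ → Real.sin (d - e + (k * l - X)) ≠ 0 := by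
  intro d hd e he
  obtain ⟨h3, h4⟩ := abs_le.1 he
  have := h1 d hd
  have := h2 d hd
  exact NURow.sin_ne_neg (by linarith) (by linarith)

/-- the far factors, uniformly near a point of the strip -/
theorem far_ub (e : SignType) {X ρ : ℝ} (h1 : 8 / 5 * l < X) (h2 : X < 33 / 10 * l) :
    ∃ δ : ℝ, 0 < δ ∧
      UB {p : ℂ | |p.re| ≤ δ ∧ |p.im| ≤ ρ} K3 (2 * ((ch e : ℤ) : ℝ)) (fun p u => Wo e (u - (p + X))) ∧
      UB {p : ℂ | |p.re| ≤ δ ∧ |p.im| ≤ ρ} K3 (2 * (-((ch e : ℤ) : ℝ)))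
        (fun p u => Vo e (u - (p + X))) := by
  have hl := lpos
  set δ : ℝ := min (X - 8 / 5 * l) (33 / 10 * l - X) / 2 with hδ
  have m1 : min (X - 8 / 5 * l) (33 / 10 * l - X) ≤ X - 8 / 5 * l := min_le_left _ _
  have m2 : min (X - 8 / 5 * l) (33 / 10 * l - X) ≤ 33 / 10 * l - X := min_le_right _ _
  have m3 : 0 < min (X - 8 / 5 * l) (33 / 10 * l - X) := lt_min (by linarith) (by linarith)
  have hδ0 : 0 < δ := by rw [hδ]; linarith
  have d1 : δ ≤ (X - 8 / 5 * l) / 2 := by rw [hδ]; linarith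
  have d2 : δ ≤ (33 / 10 * l - X) / 2 := by rw [hδ]; linarith
  set S : Set ℂ := {p : ℂ | |p.re| ≤ δ ∧ |p.im| ≤ ρ} with hS
  have hb : InBox S δ ρ fun p : ℂ => p := fun p hp => hp
  have hK : ∀ d ∈ K3, -(17 / 10 * l) ≤ d ∧ d ≤ 3 / 5 * l := by
    intro d hd
    simp only [PBX.K3, Set.mem_insert_iff, Set.mem_singleton_iff] at hd
    rcases hd with rfl | rfl | rfl <;> constructor <;> linarith
  have hs : ∀ k : ℝ, UB S K3 1 (fun p u => sin (u - (p + X) + ((k * l : ℝ) : ℂ))) := fun k => by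
    refine (ub_sin hb K3 (k * l - X)).congr fun p _ u _ => ?_
    congr 1
    push_cast
    ring
  have hi : ∀ k : ℝ, -3 ≤ k → k ≤ 1 →
      UB S K3 (-1) (fun p u => 1 / sin (u - (p + X) + ((k * l : ℝ) : ℂ))) := fun k k1 k2 => by
    refine (ub_inv_sin hb isCompact_K3 (k * l - X) (sn_low (fun d hd => ?_) fun d hd => ?_)).congr
      fun p _ u _ => ?_
    · have := (hK d hd).1
      nlinarith
    · have := (hK d hd).2
      nlinarith
    · congr 2
      push_cast
      ring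
  refine ⟨δ, hδ0, ?_, ?_⟩
  · cases e
    · rw [ch_zero]
      have := (((hs 0).mul (hs 2)).mul ((hi (-1) (by norm_num) (by norm_num)).mul
        (hi 1 (by norm_num) le_rfl))).rate (s' := 2 * 0) (by ring)
      refine this.congr fun p _ u _ => ?_
      show sin (u - (p + X)) * sin (u - (p + X) + 2 * l) /
        (sin (u - (p + X) - l) * sin (u - (p + X) + l)) = _
      rw [show u - (p + (X : ℂ)) + ((0 * l : ℝ) : ℂ) = u - (p + X) by push_cast; ring,
        show u - (p + (X : ℂ)) + ((2 * l : ℝ) : ℂ) = u - (p + X) + 2 * l by push_cast; ring,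
        show u - (p + (X : ℂ)) + ((-1 * l : ℝ) : ℂ) = u - (p + X) - l by push_cast; ring,
        show u - (p + (X : ℂ)) + ((1 * l : ℝ) : ℂ) = u - (p + X) + l by push_cast; ring]
      rw [div_eq_mul_inv, mul_inv, one_div, one_div]
    · rw [ch_neg]
      have := ((hs 1).mul (hs 3)).neg.rate (s' := 2 * 1) (by ring)
      refine this.congr fun p _ u _ => ?_
      show -(sin (u - (p + X) + l) * sin (u - (p + X) + 3 * l)) = _
      rw [show u - (p + (X : ℂ)) + ((1 * l : ℝ) : ℂ) = u - (p + X) + l by push_cast; ring,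
        show u - (p + (X : ℂ)) + ((3 * l : ℝ) : ℂ) = u - (p + X) + 3 * l by push_cast; ring]
    · rw [ch_pos]
      have := ((hi 0 (by norm_num) (by norm_num)).mul
        (hi (-2) (by norm_num) (by norm_num))).neg.rate (s' := 2 * -1) (by ring)
      refine this.congr fun p _ u _ => ?_
      show -1 / (sin (u - (p + X)) * sin (u - (p + X) - 2 * l)) = _
      rw [show u - (p + (X : ℂ)) + ((0 * l : ℝ) : ℂ) = u - (p + X) by push_cast; ring,
        show u - (p + (X : ℂ)) + ((-2 * l : ℝ) : ℂ) = u - (p + X) - 2 * l by push_cast; ring]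
      rw [neg_div, one_div, mul_inv, one_div, one_div]
  · cases e
    · rw [ch_zero]
      have := (((hs 4).pow 2).mul ((hi (-3) le_rfl (by norm_num)).pow 2)).rate (s' := 2 * -0)
        (by push_cast; ring)
      refine this.congr fun p _ u _ => ?_
      show cos (u - (p + X)) ^ 2 / sin (u - (p + X) - 3 * l) ^ 2 = _
      rw [cosv, show u - (p + (X : ℂ)) + ((4 * l : ℝ) : ℂ) = u - (p + X) + 4 * l by push_cast; ring,
        show u - (p + (X : ℂ)) + ((-3 * l : ℝ) : ℂ) = u - (p + X) - 3 * l by push_cast; ring]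
      rw [div_eq_mul_inv, one_div, inv_pow]
    · rw [ch_neg]
      have := ((hi (-2) (by norm_num) (by norm_num)).pow 2).rate (s' := 2 * -1)
        (by push_cast; ring)
      refine this.congr fun p _ u _ => ?_
      show 1 / sin (u - (p + X) - 2 * l) ^ 2 = _
      rw [show u - (p + (X : ℂ)) + ((-2 * l : ℝ) : ℂ) = u - (p + X) - 2 * l by push_cast; ring]
      rw [one_div, one_div, inv_pow]
    · rw [ch_pos]
      have := ((hs 3).pow 2).rate (s' := 2 * - -1) (by push_cast; ring)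
      refine this.congr fun p _ u _ => ?_
      show sin (u - (p + X) + 3 * l) ^ 2 = _
      rw [show u - (p + (X : ℂ)) + ((3 * l : ℝ) : ℂ) = u - (p + X) + 3 * l by push_cast; ring]

theorem K3_strip {u x0 : ℂ} (hu : u.re ∈ K3) (h : x0 ∈ FS) :
    -(5 * l) < (u - x0).re ∧ (u - x0).re < -l := by
  have hl := lpos
  obtain ⟨h1, h2⟩ := h
  rw [sub_re]
  simp only [PBX.K3, Set.mem_insert_iff, Set.mem_singleton_iff] at hu
  rcases hu with hu | hu | hu <;> rw [hu] <;> constructor <;> linarith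

/-- growth of the far factors -/
theorem far_gr (e : SignType) (α β : ℝ) (x0 : ℂ) :
    Gr α β (2 * ((ch e : ℤ) : ℝ)) (fun u => Wo e (u - x0)) ∧
      Gr α β (2 * (-((ch e : ℤ) : ℝ))) (fun u => Vo e (u - x0)) := by
  have s : ∀ c : ℂ, Gr α β 1 (fun u => sin (u - x0 + c)) := fun c => by
    have := Gr.sin (α := α) (β := β) (x0 - c)
    have e : (fun u => sin (u - (x0 - c))) = fun u => sin (u - x0 + c) := by
      funext u
      congr 1
      ring
    rwa [e] at this
  have i : ∀ c : ℂ, Gr α β (-1) (fun u => (sin (u - x0 + c))⁻¹) := fun c => by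
    have := Gr.inv_sin (α := α) (β := β) (x0 - c)
    have e : (fun u => (sin (u - (x0 - c)))⁻¹) = fun u => (sin (u - x0 + c))⁻¹ := by
      funext u
      congr 2
      ring
    rwa [e] at this
  have a0 : ∀ u : ℂ, u - x0 + 0 = u - x0 := fun u => add_zero _
  have am : ∀ (u : ℂ) (c : ℂ), u - x0 + -c = u - x0 - c := fun u c => by ring
  cases e
  · rw [ch_zero]
    constructor
    · refine ((((s 0).mul (s (2 * l))).mul ((i (-l)).mul (i l))).mono (κ' := 2 * 0) (by norm_num)).congr 0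
        fun u _ _ _ => ?_
      show sin (u - x0) * sin (u - x0 + 2 * l) / (sin (u - x0 - l) * sin (u - x0 + l)) = _
      rw [a0, am, div_eq_mul_inv, mul_inv]
    · refine ((((s (4 * l)).mul (s (4 * l))).mul ((i (-(3 * l))).mul (i (-(3 * l))))).mono
        (κ' := 2 * -0) (by norm_num)).congr 0 fun u _ _ _ => ?_
      show cos (u - x0) ^ 2 / sin (u - x0 - 3 * l) ^ 2 = _
      rw [am, cosv, div_eq_mul_inv, sq, sq, mul_inv]
  · rw [ch_neg]
    constructor
    · refine (((((s l).mul (s (3 * l)))).cmul (-1)).mono (κ' := 2 * 1) (by norm_num)).congr 0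
        fun u _ _ _ => ?_
      show -(sin (u - x0 + l) * sin (u - x0 + 3 * l)) = _
      ring
    · refine (((i (-(2 * l))).mul (i (-(2 * l)))).mono (κ' := 2 * -1) (by norm_num)).congr 0
        fun u _ _ _ => ?_
      show 1 / sin (u - x0 - 2 * l) ^ 2 = _
      rw [am, one_div, sq, mul_inv]
  · rw [ch_pos]
    constructor
    · refine (((((i 0).mul (i (-(2 * l))))).cmul (-1)).mono (κ' := 2 * -1) (by norm_num)).congr 0
        fun u _ _ _ => ?_
      show -1 / (sin (u - x0) * sin (u - x0 - 2 * l)) = _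
      rw [a0, am, div_eq_mul_inv, mul_inv]
    · refine (((s (3 * l)).mul (s (3 * l))).mono (κ' := 2 * - -1) (by norm_num)).congr 0
        fun u _ _ _ => ?_
      show sin (u - x0 + 3 * l) ^ 2 = _
      rw [sq]

theorem Th_Lg (z : ℂ) : Th z = Lg z z := rfl

/-- the spectators of the far row -/
theorem far_SpU (e : SignType) {z x0 : ℂ} (hz : z ∈ LS) (h : x0 ∈ FS) :
    SpU ((ch e : ℤ) : ℝ) (fun u => Th z u * Wo e (u - x0)) ∧
      SpU (-((ch e : ℤ) : ℝ)) (fun u => Th z u * Vo e (u - x0)) := by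
  have hl := lpos
  have hL : SpU 0 (Th z) := SpU.of_SpA (Lg_SpA (q := z) hz.1 hz.2)
  have hv : ∀ u : ℂ, -(17 / 10 * l) ≤ u.re → u.re ≤ 3 / 5 * l →
      -(5 * l) < (u - x0).re ∧ (u - x0).re < -l := fun u h3 h4 => by
    obtain ⟨h1, h2⟩ := h
    rw [sub_re]
    constructor <;> linarith
  have hW : SpU ((ch e : ℤ) : ℝ) (fun u => Wo e (u - x0)) :=
    ⟨(Wo_meas e).comp (measurable_id.sub_const _), fun u h3 h4 =>
      (Wo_diff e (hv u h3 h4).1 (hv u h3 h4).2).comp u (differentiableAt_id.sub_const _),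
      (far_gr e _ _ x0).1⟩
  have hV : SpU (-((ch e : ℤ) : ℝ)) (fun u => Vo e (u - x0)) :=
    ⟨(Vo_meas e).comp (measurable_id.sub_const _), fun u h3 h4 =>
      (Vo_diff e (hv u h3 h4).1 (hv u h3 h4).2).comp u (differentiableAt_id.sub_const _),
      (far_gr e _ _ x0).2⟩
  have k1 := hL.mul hW
  have k2 := hL.mul hV
  rw [zero_add] at k1 k2
  exact ⟨k1, k2⟩

/-! ### generic rows -/

/-- pairwise different heights: the sum over the states -/
theorem cF_gen (e : SignType) {z x0 : ℂ} {mu : Fin m → ℂ} {nu : Fin M → ℂ} (hz : z ∈ LS)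
    (h : x0 ∈ FS) (hx : Rws mu) (hy : Rws nu) (ix : Hgt mu) (iy : Hgt nu) :
    cF e z x0 mu nu = Pf z mu nu * (k1 z e x0 * ((∏ i, kO e (x0 - mu i)) * ∏ j, kX e (x0 - nu j))) *
      sumU m M (ch e) fun n n' => DSU (cn m) (cn M) (fun u => Th z u * Wo e (u - x0))
        (fun u => Th z u * Vo e (u - x0)) mu nu n n' := by
  unfold cF
  congr 1
  exact sumU_congr fun n n' hn => DZU_eq ix iy hx hy (far_SpU e hz h).1 (far_SpU e hz h).2
    (cast_hn hn)

theorem far_Fr {x0 : ℂ} {mu : Fin m → ℂ} (h : x0 ∈ FS) (hx : Rws mu) (i : Fin m) :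
    Fr (x0 - mu i) := by
  have hl := lpos
  obtain ⟨h1, h2⟩ := h
  obtain ⟨h3, h4⟩ := abs_le.1 (hx i)
  exact Fr_of (by rw [sub_re]; linarith) (by rw [sub_re]; linarith)

/-- **pairwise different heights: the normalised state sum with the far row** -/
theorem nzF_nh {z x0 : ℂ} {mu : Fin m → ℂ} {nu : Fin M → ℂ} (hz : z ∈ LS) (h : x0 ∈ FS)
    (hx : Rws mu) (hy : Rws nu) (ix : Hgt mu) (iy : Hgt nu) :
    nzF z x0 mu nu = PBS.nh z (Fin.cons x0 mu : Fin (m + 1) → ℂ) nu := by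
  rw [RX.nh_far1 (fun i j hij => gn_im (by rw [sub_im]; exact sub_ne_zero.2 (ix i j hij)))
    (fun i j hij => gn_im (by rw [sub_im]; exact sub_ne_zero.2 (iy i j hij)))
    (fun i j => gc_re (sub_re_le (hx i) (hy j))) (hz_row hz hx) (hz_row hz hy) (far_Fr h hx)
    (far_Fr h hy)]
  unfold nzF
  exact Finset.sum_congr rfl fun e _ => cF_gen e hz h hx hy ix iy

/-! ### joint continuity -/

section
variable {E : Type*} {F : Filter E} {z w : E → ℂ} {z0 w0 : ℂ}

theorem k1_tendsto (e : SignType) (tz : Tendsto z F (𝓝 z0)) (tw : Tendsto w F (𝓝 w0))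
    (h : |(z0 - w0).re| < 5 * l) : Tendsto (fun e' => k1 (z e') e (w e')) F (𝓝 (k1 z0 e w0)) := by
  have hne : (2 / 3 : ℂ) * rh (z0 - w0) ^ 2 ≠ 0 :=
    mul_ne_zero (by norm_num) (pow_ne_zero _ (rh_ne_zero h))
  have t0 : Tendsto (fun e' => Lw e (z e' - w e')) F (𝓝 (Lw e (z0 - w0))) :=
    ((PBS.differentiable_Lw e).continuous.tendsto _).comp (tz.sub tw)
  unfold RX.k1 RX.LL
  exact Tendsto.div (tendsto_const_nhds.mul t0) (tendsto_const_nhds.mul ((rh_tendsto (tz.sub tw) h).pow 2)) hne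

theorem kO_tendsto (e : SignType) (tw : Tendsto w F (𝓝 w0)) (h1 : l < w0.re) (h2 : w0.re < 5 * l) :
    Tendsto (fun e' => kO e (w e')) F (𝓝 (kO e w0)) := by
  have hl := lpos
  have hr0 : |w0.re| < 5 * l := by
    rw [abs_lt]
    constructor <;> linarith
  have hd : DifferentiableAt ℂ (fun w => fw e .pos w) w0 := by
    have h8 : 8 * l = Real.pi := by unfold NUP1.l; ring
    have a0 : sin w0 ≠ 0 := NUP1.Bd.sin_ne_zero_of_re
      (Real.sin_pos_of_pos_of_lt_pi (by linarith) (by linarith)).ne'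
    have a1 : sin (w0 - l) ≠ 0 := NUP1.Bd.sin_ne_zero_of_re (by
      have e : (w0 - (l : ℂ)).re = w0.re - l := by simp
      rw [e]
      exact (Real.sin_pos_of_pos_of_lt_pi (by linarith) (by linarith)).ne')
    cases e
    · show DifferentiableAt ℂ (fun w => sin (3 * l + w) * sin (3 * l - w) * sin (w + 2 * l) / sin w) w0
      exact DifferentiableAt.div (by fun_prop) (by fun_prop) a0
    · show DifferentiableAt ℂ (fun w => sin (w + 2 * l) * sin (w + 3 * l) / (sin w * sin (w - l))) w0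
      exact DifferentiableAt.div (by fun_prop) (by fun_prop) (mul_ne_zero a0 a1)
    · show DifferentiableAt ℂ
        (fun w => sin (3 * l + w) * sin (3 * l - w) * (sin (2 * l + w) * sin (2 * l - w))) w0
      fun_prop
  unfold RX.kO
  exact Tendsto.div (hd.continuousAt.tendsto.comp tw) ((rh_tendsto tw hr0).pow 2)
    (pow_ne_zero _ (rh_ne_zero hr0))

theorem kX_tendsto (e : SignType) (tw : Tendsto w F (𝓝 w0)) (h : |w0.re| < 5 * l) :
    Tendsto (fun e' => kX e (w e')) F (𝓝 (kX e w0)) := by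
  have hd : Differentiable ℂ (fun w => gw .pos e (-w)) := by
    cases e
    · show Differentiable ℂ (fun w => sin (3 * l - -w) ^ 2)
      fun_prop
    · show Differentiable ℂ (fun w => sin (2 * l - -w) ^ 2 * sin (3 * l - -w) ^ 2)
      fun_prop
    · show Differentiable ℂ (fun _ : ℂ => (1 : ℂ))
      fun_prop
  unfold RX.kX
  exact Tendsto.div ((hd.continuous.tendsto _).comp tw) ((rh_tendsto tw h).pow 2)
    (pow_ne_zero _ (rh_ne_zero h))

/-- the far factors on the three lines, near a point -/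
theorem far_unif (e : SignType) (tw : Tendsto w F (𝓝 w0)) (h : w0 ∈ FS) :
    ∃ D : ℝ, 0 ≤ D ∧ ∀ᶠ e' in F, ∀ u : ℂ, u.re ∈ K3 →
      ‖Wo e (u - w e')‖ ≤ D * Real.exp (2 * ((ch e : ℤ) : ℝ) * |u.im|) ∧
        ‖Vo e (u - w e')‖ ≤ D * Real.exp (2 * (-((ch e : ℤ) : ℝ)) * |u.im|) := by
  obtain ⟨δ, hδ, ⟨C1, hC1, b1⟩, ⟨C2, hC2, b2⟩⟩ := far_ub e (ρ := |w0.im| + 1) h.1 h.2
  refine ⟨max C1 C2, le_max_of_le_left hC1, ?_⟩
  have t1 : Tendsto (fun e' => |(w e' - (w0.re : ℂ)).re|) F (𝓝 0) := by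
    have := (((Complex.continuous_re.tendsto _).comp (tw.sub_const ((w0.re : ℝ) : ℂ)))).abs
    simpa using this
  have t2 : Tendsto (fun e' => |(w e' - (w0.re : ℂ)).im|) F (𝓝 |w0.im|) := by
    have := (((Complex.continuous_im.tendsto _).comp (tw.sub_const ((w0.re : ℝ) : ℂ)))).abs
    simpa using this
  filter_upwards [t1.eventually (gt_mem_nhds hδ), t2.eventually (gt_mem_nhds (lt_add_one _))] with
    e' h1 h2 u hu
  have hp : (w e' - (w0.re : ℂ)) ∈ {p : ℂ | |p.re| ≤ δ ∧ |p.im| ≤ |w0.im| + 1} := ⟨h1.le, h2.le⟩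
  have a1 := b1 _ hp u hu
  have a2 := b2 _ hp u hu
  beta_reduce at a1 a2
  rw [sub_add_cancel] at a1 a2
  exact ⟨a1.trans (mul_le_mul_of_nonneg_right (le_max_left _ _) (Real.exp_pos _).le),
    a2.trans (mul_le_mul_of_nonneg_right (le_max_right _ _) (Real.exp_pos _).le)⟩

end

theorem cF_tendsto (e : SignType) {E : Type*} {F : Filter E} [F.IsCountablyGenerated] {z w : E → ℂ}
    {x : E → Fin m → ℂ} {y : E → Fin M → ℂ} {z0 w0 : ℂ} {x0 : Fin m → ℂ} {y0 : Fin M → ℂ}
    (tz : Tendsto z F (𝓝 z0)) (tw : Tendsto w F (𝓝 w0))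
    (tx : ∀ i, Tendsto (fun e => x e i) F (𝓝 (x0 i)))
    (ty : ∀ i, Tendsto (fun e => y e i) F (𝓝 (y0 i))) (hx : ∀ᶠ e in F, Rws (x e))
    (hy : ∀ᶠ e in F, Rws (y e)) (hx0 : Rws x0) (hy0 : Rws y0) (hz : z0 ∈ LS) (h : w0 ∈ FS)
    (hzw : |(z0 - w0).re| < 5 * l) :
    Tendsto (fun e' => cF e (z e') (w e') (x e') (y e')) F (𝓝 (cF e z0 w0 x0 y0)) := by
  have hl := lpos
  have hr1 : ∀ {k : ℕ} {x0 : Fin k → ℂ}, Rws x0 → ∀ i, l < (w0 - x0 i).re ∧ (w0 - x0 i).re < 5 * l := by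
    intro k x0 hx0 i
    obtain ⟨h1, h2⟩ := h
    obtain ⟨h3, h4⟩ := abs_le.1 (hx0 i)
    rw [sub_re]
    constructor <;> linarith
  unfold cF
  refine Tendsto.mul (Tendsto.mul (Pf_tendsto tz tx ty (fun i j => Rws.dist hx0 hx0 i j)
    (fun i j => Rws.dist hy0 hy0 i j) (fun i j => Rws.dist hx0 hy0 i j) (Rws.narZ hx0 hz)
    (Rws.narZ hy0 hz)) ((k1_tendsto e tz tw hzw).mul
    ((tendsto_finsetProd _ fun i _ => kO_tendsto e (tw.sub (tx i)) (hr1 hx0 i).1 (hr1 hx0 i).2).mul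
    (tendsto_finsetProd _ fun j _ => kX_tendsto e (tw.sub (ty j)) (by
      obtain ⟨h1, h2⟩ := hr1 hy0 j
      rw [abs_lt]
      constructor <;> linarith))))) (sumU_tendsto fun n n' hn => ?_)
  obtain ⟨D, hD, hb⟩ := Lg_unif tz hz
  obtain ⟨D', hD', hb'⟩ := far_unif e tw h
  refine DZU_tendsto (R := (∑ j, |(x0 j).im| + 1) + (∑ j, |(y0 j).im| + 1)) (cn m) (cn M)
    (D := D * D') ?_ hx0 hy0
    tx ty (mul_nonneg hD hD') ?_ (fun u hu => ?_) (fun u hu => ?_) (cast_hn hn)
  · filter_upwards [hx, hy, bd_im tx, bd_im ty] with e h1 h2 h3 h4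
    have s1 : 0 ≤ ∑ j, |(x0 j).im| := Finset.sum_nonneg fun _ _ => abs_nonneg _
    have s2 : 0 ≤ ∑ j, |(y0 j).im| := Finset.sum_nonneg fun _ _ => abs_nonneg _
    exact ⟨h1, h2, fun i => (h3 i).trans (by linarith), fun i => (h4 i).trans (by linarith)⟩
  · filter_upwards [hb, hb'] with e' h1 h2
    refine ⟨(PBX.Lg_meas _ _).mul ((Wo_meas e).comp (measurable_id.sub_const _)),
      (PBX.Lg_meas _ _).mul ((Vo_meas e).comp (measurable_id.sub_const _)), fun u hu => ?_⟩
    obtain ⟨a1, a2⟩ := h2 u hu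
    constructor
    · rw [norm_mul, mul_assoc]
      exact mul_le_mul (h1 u hu) a1 (norm_nonneg _) hD
    · rw [norm_mul, mul_assoc]
      exact mul_le_mul (h1 u hu) a2 (norm_nonneg _) hD
  · obtain ⟨k1, k2⟩ := K3_strip hu h
    exact (Lg_tendsto tz hz hu).mul ((Wo_diff e k1 k2).continuousAt.tendsto.comp
      (tendsto_const_nhds.sub tw))
  · obtain ⟨k1, k2⟩ := K3_strip hu h
    exact (Lg_tendsto tz hz hu).mul ((Vo_diff e k1 k2).continuousAt.tendsto.comp
      (tendsto_const_nhds.sub tw))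

/-- **joint continuity** in the legs, the far row and the near rows -/
theorem nzF_tendsto {E : Type*} {F : Filter E} [F.IsCountablyGenerated] {z w : E → ℂ}
    {x : E → Fin m → ℂ} {y : E → Fin M → ℂ} {z0 w0 : ℂ} {x0 : Fin m → ℂ} {y0 : Fin M → ℂ}
    (tz : Tendsto z F (𝓝 z0)) (tw : Tendsto w F (𝓝 w0))
    (tx : ∀ i, Tendsto (fun e => x e i) F (𝓝 (x0 i)))
    (ty : ∀ i, Tendsto (fun e => y e i) F (𝓝 (y0 i))) (hx : ∀ᶠ e in F, Rws (x e))
    (hy : ∀ᶠ e in F, Rws (y e)) (hx0 : Rws x0) (hy0 : Rws y0) (hz : z0 ∈ LS) (h : w0 ∈ FS)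
    (hzw : |(z0 - w0).re| < 5 * l) :
    Tendsto (fun e' => nzF (z e') (w e') (x e') (y e')) F (𝓝 (nzF z0 w0 x0 y0)) := by
  unfold nzF
  exact tendsto_finsetSum _ fun e _ => cF_tendsto e tz tw tx ty hx hy hx0 hy0 hz h hzw

theorem cF_perm (e : SignType) (z x0 : ℂ) (x : Fin m → ℂ) (y : Fin M → ℂ) (σ : Equiv.Perm (Fin m))
    (τ : Equiv.Perm (Fin M)) : cF e z x0 (fun i => x (σ i)) (fun i => y (τ i)) = cF e z x0 x y := by
  have h : ∀ n n' : ℕ, DZU (cn m) (cn M) (fun u => Th z u * Wo e (u - x0))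
      (fun u => Th z u * Vo e (u - x0)) (fun i => x (σ i)) (fun i => y (τ i)) n n' =
      DZU (cn m) (cn M) (fun u => Th z u * Wo e (u - x0)) (fun u => Th z u * Vo e (u - x0)) x y n n' :=
    fun n n' => DZU_perm (cn m) (cn M) _ _ x y n n' σ τ
  unfold cF
  rw [Pf_permU, Equiv.prod_comp σ fun i => kO e (x0 - x i), Equiv.prod_comp τ fun j => kX e (x0 - y j)]
  simp only [h]

theorem nzF_perm (z x0 : ℂ) (x : Fin m → ℂ) (y : Fin M → ℂ) (σ : Equiv.Perm (Fin m))
    (τ : Equiv.Perm (Fin M)) : nzF z x0 (fun i => x (σ i)) (fun i => y (τ i)) = nzF z x0 x y := by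
  unfold nzF
  exact Finset.sum_congr rfl fun e _ => cF_perm e z x0 x y σ τ

end Pool.Agent.PLX

end
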