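import Pool.Agent.PLX.RayStep

/-!
# Trigonometric polynomials of a fixed parity (helper91)

`TQ D F` : `F x = e^{- i D x} p (e^{2 i x})`, `deg p ≤ D` (a product of `D` sines).

* closure under products, sums (same degree), sines, cosines; `TQ.up : TQ D F → TQ (D + 2) F`;
* **`TQ.div`** : a `TQ (D + n) G` with `n` zeros `c j`, `e^{2 i c j}` different, is `F * ∏ j, sin (x - c j)`, `TQ D F`;
* **`TQ.interp`** : `F` from its values at the nodes `nd (2 K)` (`D = 2 K`); `lw_tq` : the weights are `TQ (2 K)`;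
* **`TQ.field`** : the form of `ISR.Wide.poly`.
-/

set_option autoImplicit false

open Complex Finset Polynomial

noncomputable section

namespace Pool.Agent.PLX

/-- products of `D` sines and their sums -/
def TQ (D : ℕ) (F : ℂ → ℂ) : Prop :=
  ∃ p : ℂ[X], p.natDegree ≤ D ∧ ∀ x, F x = cexp (-(D * (I * x))) * p.eval (cexp (2 * (I * x)))

namespace TQ

variable {D D' : ℕ} {F G : ℂ → ℂ}

theorem const (c : ℂ) : TQ 0 fun _ => c := ⟨C c, by simp, fun x => by simp⟩

theorem congr (h : TQ D F) (e : ∀ x, G x = F x) : TQ D G := by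
  obtain ⟨p, hp, h⟩ := h
  exact ⟨p, hp, fun x => by rw [e, h]⟩

theorem cast (h : TQ D F) (e : D = D') : TQ D' F := e ▸ h

theorem mul (h : TQ D F) (h' : TQ D' G) : TQ (D + D') fun x => F x * G x := by
  obtain ⟨p, hp, e⟩ := h
  obtain ⟨q, hq, e'⟩ := h'
  refine ⟨p * q, (natDegree_mul_le).trans (by omega), fun x => ?_⟩
  have h1 : cexp (-(((D + D' : ℕ) : ℂ) * (I * x))) = cexp (-(D * (I * x))) * cexp (-(D' * (I * x))) := by
    rw [← Complex.exp_add]
    congr 1
    push_cast
    ring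
  show F x * G x = _
  rw [e x, e' x, eval_mul, h1]
  ring

theorem add (h : TQ D F) (h' : TQ D G) : TQ D fun x => F x + G x := by
  obtain ⟨p, hp, e⟩ := h
  obtain ⟨q, hq, e'⟩ := h'
  refine ⟨p + q, (natDegree_add_le _ _).trans (max_le hp hq), fun x => ?_⟩
  show F x + G x = _
  rw [e x, e' x, eval_add]
  ring

theorem cmul (c : ℂ) (h : TQ D F) : TQ D fun x => c * F x := by
  have := (const c).mul h
  rwa [zero_add] at this

theorem mulc (c : ℂ) (h : TQ D F) : TQ D fun x => F x * c :=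
  (h.cmul c).congr fun x => mul_comm _ _

theorem neg (h : TQ D F) : TQ D fun x => -F x := (h.cmul (-1)).congr fun x => by ring

theorem sub (h : TQ D F) (h' : TQ D G) : TQ D fun x => F x - G x :=
  (h.add h'.neg).congr fun x => by ring

theorem zero : TQ D fun _ => 0 := ⟨0, by simp, fun _ => by simp⟩

theorem up (h : TQ D F) : TQ (D + 2) F := by
  obtain ⟨p, hp, e⟩ := h
  refine ⟨X * p, (natDegree_mul_le).trans ?_, fun x => ?_⟩
  · have := natDegree_X_le (R := ℂ)
    omega
  · have h1 : cexp (-(((D + 2 : ℕ) : ℂ) * (I * x))) * cexp (2 * (I * x)) = cexp (-(D * (I * x))) := by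
      rw [← Complex.exp_add]
      congr 1
      push_cast
      ring
    rw [e x, eval_mul, eval_X, ← h1]
    ring

theorem ups (h : TQ D F) (k : ℕ) : TQ (D + 2 * k) F := by
  induction k with
  | zero => exact h
  | succ k ih => exact ih.up

theorem sum {ι : Type*} (s : Finset ι) {F : ι → ℂ → ℂ} (h : ∀ i ∈ s, TQ D (F i)) :
    TQ D fun x => ∑ i ∈ s, F i x := by
  classical
  induction s using Finset.induction_on with
  | empty => exact zero.congr fun x => by simp
  | insert a s ha ih =>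
    have := (h a (mem_insert_self _ _)).add (ih fun i hi => h i (mem_insert_of_mem hi))
    exact this.congr fun x => by rw [sum_insert ha]

theorem prod {ι : Type*} (s : Finset ι) {F : ι → ℂ → ℂ} (d : ℕ) (h : ∀ i ∈ s, TQ d (F i)) :
    TQ (s.card * d) fun x => ∏ i ∈ s, F i x := by
  classical
  induction s using Finset.induction_on with
  | empty =>
    have := const 1
    rw [card_empty, zero_mul]
    exact this.congr fun x => by simp
  | insert a s ha ih =>
    have := (h a (mem_insert_self _ _)).mul (ih fun i hi => h i (mem_insert_of_mem hi))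
    refine (this.congr fun x => by rw [prod_insert ha]).cast ?_
    rw [card_insert_of_notMem ha]
    ring

theorem sin_add (a : ℂ) : TQ 1 fun x => Complex.sin (x + a) := by
  refine ⟨C (-(I / 2) * cexp (I * a)) * X + C (I / 2 * cexp (-(I * a))), ?_, fun x => ?_⟩
  · refine natDegree_add_le_of_degree_le ?_ ?_
    · exact (natDegree_C_mul_le _ _).trans natDegree_X_le
    · rw [natDegree_C]
      exact Nat.zero_le _
  · have e0 : Complex.sin (x + a) = (cexp (-(x + a) * I) - cexp ((x + a) * I)) * I / 2 := rfl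
    show Complex.sin (x + a) = _
    rw [eval_add, eval_mul, eval_C, eval_C, eval_X, e0]
    have e1 : cexp (-(x + a) * I) = cexp (-(((1 : ℕ) : ℂ) * (I * x))) * cexp (-(I * a)) := by
      rw [← Complex.exp_add]
      congr 1
      push_cast
      ring
    have e2 : cexp ((x + a) * I) = cexp (-(((1 : ℕ) : ℂ) * (I * x))) * (cexp (I * a) * cexp (2 * (I * x))) := by
      rw [← Complex.exp_add, ← Complex.exp_add]
      congr 1
      push_cast
      ring
    rw [e1, e2]
    ring

theorem sin_sub' (a : ℂ) : TQ 1 fun x => Complex.sin (a - x) :=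
  (sin_add (-a)).neg.congr fun x => by
    rw [← Complex.sin_neg]
    congr 1
    ring

theorem sin_lin (a : ℂ) : TQ 1 fun x => Complex.sin (x - a) :=
  (sin_add (-a)).congr fun x => by rw [sub_eq_add_neg]

/-- continuity -/
theorem continuous (h : TQ D F) : Continuous F := by
  obtain ⟨p, -, e⟩ := h
  have : F = fun x => cexp (-(D * (I * x))) * p.eval (cexp (2 * (I * x))) := funext e
  rw [this]
  exact (by fun_prop : Continuous fun x : ℂ => cexp (-(D * (I * x)))).mul
    (p.continuous.comp (by fun_prop : Continuous fun x : ℂ => cexp (2 * (I * x))))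

/-- analyticity -/
theorem differentiable (h : TQ D F) : Differentiable ℂ F := by
  obtain ⟨p, -, e⟩ := h
  have : F = fun x => cexp (-(D * (I * x))) * p.eval (cexp (2 * (I * x))) := funext e
  rw [this]
  refine Differentiable.mul (by fun_prop) ?_
  exact p.differentiable.comp (by fun_prop : Differentiable ℂ fun x : ℂ => cexp (2 * (I * x)))

/-- a sine as a linear factor -/
theorem sin_factor (x c : ℂ) : cexp (2 * (I * x)) - cexp (2 * (I * c)) =
    (2 * I * cexp (I * c)) * (cexp (I * x) * Complex.sin (x - c)) := by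
  have h1 : cexp (2 * (I * x)) = cexp (I * c) * (cexp (I * x) * cexp ((x - c) * I)) := by
    rw [← Complex.exp_add, ← Complex.exp_add]
    congr 1
    ring
  have h2 : cexp (2 * (I * c)) = cexp (I * c) * (cexp (I * x) * cexp (-(x - c) * I)) := by
    rw [← Complex.exp_add, ← Complex.exp_add]
    congr 1
    ring
  rw [h1, h2, Complex.sin]
  linear_combination (-(cexp (I * c) * cexp (I * x) * (cexp (-(x - c) * I) - cexp ((x - c) * I)))) * I_mul_I

/-- **division by simple zeros** -/
theorem div {ι : Type*} [Fintype ι] {n : ℕ} (hn : Fintype.card ι = n) (h : TQ (D + n) G) {c : ι → ℂ}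
    (hc : Function.Injective fun j => cexp (2 * (I * c j))) (h0 : ∀ j, G (c j) = 0) :
    ∃ F, TQ D F ∧ ∀ x, G x = F x * ∏ j, Complex.sin (x - c j) := by
  classical
  obtain ⟨p, hp, e⟩ := h
  have hr : ∀ j, p.eval (cexp (2 * (I * c j))) = 0 := by
    intro j
    have h1 := h0 j
    rw [e] at h1
    exact (mul_eq_zero.1 h1).resolve_left (Complex.exp_ne_zero _)
  have hd : (∏ j : ι, (X - C (cexp (2 * (I * c j))))) ∣ p := by
    refine Finset.prod_dvd_of_coprime ?_ fun j _ => dvd_iff_isRoot.2 (hr j)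
    intro i _ j _ hij
    exact pairwise_coprime_X_sub_C hc hij
  obtain ⟨q, hq⟩ := hd
  have hm : (∏ j : ι, (X - C (cexp (2 * (I * c j))))).Monic := monic_prod_of_monic _ _ fun j _ => monic_X_sub_C _
  have hnd : (∏ j : ι, (X - C (cexp (2 * (I * c j))))).natDegree = n := by
    rw [natDegree_prod_of_monic _ _ fun j _ => monic_X_sub_C _]
    simp [hn]
  refine ⟨fun x => cexp (-(D * (I * x))) * ((∏ j, 2 * I * cexp (I * c j)) * q.eval (cexp (2 * (I * x)))),
    ⟨C (∏ j, 2 * I * cexp (I * c j)) * q, ?_, fun x => by rw [eval_mul, eval_C]⟩, fun x => ?_⟩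
  · refine (natDegree_C_mul_le _ _).trans ?_
    rcases eq_or_ne q 0 with hq0 | hq0
    · rw [hq0, natDegree_zero]
      exact Nat.zero_le _
    · rw [hq, hm.natDegree_mul' hq0, hnd] at hp
      omega
  · have e1 : cexp (-(((D + n : ℕ) : ℂ) * (I * x))) * (∏ _j : ι, cexp (I * x)) = cexp (-(D * (I * x))) := by
      rw [prod_const, card_univ, hn, ← Complex.exp_nat_mul, ← Complex.exp_add]
      congr 1
      push_cast
      ring
    rw [e, hq, eval_mul, eval_prod]
    simp only [eval_sub, eval_X, eval_C, sin_factor, prod_mul_distrib]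
    rw [← e1]
    ring

/-- in the form of `RayStep` -/
theorem to_ez {K : ℕ} (h : TQ (2 * K) F) : ∃ p : ℂ[X], p.degree < (2 * K + 1 : ℕ) ∧
    ∀ x, F x = p.eval (ez 2 x) / ez 2 x ^ K := by
  obtain ⟨p, hp, e⟩ := h
  refine ⟨p, ?_, fun x => ?_⟩
  · refine lt_of_le_of_lt (degree_le_natDegree) ?_
    exact_mod_cast Nat.lt_succ_of_le hp
  · have h1 : ez 2 x = cexp (2 * (I * x)) := by
      unfold ez
      congr 1
      push_cast
      ring
    have h2 : cexp (-(((2 * K : ℕ) : ℂ) * (I * x))) * cexp (2 * (I * x)) ^ K = 1 := by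
      rw [← Complex.exp_nat_mul, ← Complex.exp_add, ← Complex.exp_zero]
      congr 1
      push_cast
      ring
    rw [h1, eq_div_iff (pow_ne_zero _ (Complex.exp_ne_zero _)), e]
    linear_combination (p.eval (cexp (2 * (I * x)))) * h2

/-- **interpolation** -/
theorem interp {K : ℕ} (h : TQ (2 * K) F) (x : ℂ) :
    F x = ∑ r : Fin (2 * K + 1), lw 2 K r x * F (nd (2 * K) r) := by
  obtain ⟨p, hp, e⟩ := h.to_ez
  rw [e, lw_exact two_ne_zero hp x]
  refine Finset.sum_congr rfl fun r _ => ?_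
  rw [e (nd (2 * K) r)]

end TQ

/-- the Lagrange weights -/
theorem lw_tq (K : ℕ) (r : Fin (2 * K + 1)) : TQ (2 * K) (lw 2 K r) := by
  have e : ∀ x, lw 2 K r x = cexp (-(((2 * K : ℕ) : ℂ) * (I * x))) *
      (C (ez 2 (nd (2 * K) r) ^ K) * Lagrange.basis Finset.univ (fun s => ez 2 (nd (2 * K) s)) r).eval
        (cexp (2 * (I * x))) := by
    intro x
    have h1 : ez 2 x = cexp (2 * (I * x)) := by
      unfold ez
      congr 1
      push_cast
      ring
    have h2 : cexp (-(((2 * K : ℕ) : ℂ) * (I * x))) * cexp (2 * (I * x)) ^ K = 1 := by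
      rw [← Complex.exp_nat_mul, ← Complex.exp_add, ← Complex.exp_zero]
      congr 1
      push_cast
      ring
    rw [eval_mul, eval_C, lw, h1, div_mul_eq_mul_div, div_eq_iff (pow_ne_zero _ (Complex.exp_ne_zero _))]
    linear_combination (-((Lagrange.basis Finset.univ (fun s => ez 2 (nd (2 * K) s)) r).eval (cexp (2 * (I * x))) *
      ez 2 (nd (2 * K) r) ^ K)) * h2
  refine ⟨_, ?_, e⟩
  refine (natDegree_C_mul_le _ _).trans ?_
  have h3 : Lagrange.basis Finset.univ (fun s => ez 2 (nd (2 * K) s)) r ≠ 0 :=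
    Lagrange.basis_ne_zero ((ez_nd_inj two_ne_zero (2 * K)).injOn) (Finset.mem_univ r)
  have h4 := Lagrange.natDegree_basis ((ez_nd_inj two_ne_zero (2 * K)).injOn) (Finset.mem_univ r)
    (s := Finset.univ)
  rw [h4]
  simp

/-- the interpolation polynomial of any function -/
def FG (K : ℕ) (g : ℂ → ℂ) (x : ℂ) : ℂ := ∑ r : Fin (2 * K + 1), lw 2 K r x * g (nd (2 * K) r)

theorem FG_tq (K : ℕ) (g : ℂ → ℂ) : TQ (2 * K) (FG K g) :=
  TQ.sum _ fun r _ => (lw_tq K r).mulc _

theorem FG_of_tq {K : ℕ} {F g : ℂ → ℂ} (h : TQ (2 * K) F) (e : ∀ r, g (nd (2 * K) r) = F (nd (2 * K) r)) (x : ℂ) :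
    FG K g x = F x := by
  rw [h.interp x]
  exact Finset.sum_congr rfl fun r _ => by rw [e]

/-- the field `poly` of `ISR.Wide` -/
theorem TQ.field {D : ℕ} {F f N : ℂ → ℂ} {R a₀ a₁ Cp Nn : ℝ} (h : TQ D F) (hD : (D : ℝ) ≤ Cp * Nn)
    (hN : ∀ x : ℂ, |x.re| < R → DifferentiableAt ℂ N x ∧ N x ≠ 0) (hf : ∀ x : ℂ, |x.re| < R → f x = F x / N x)
    (hr : ∀ x x' : ℂ, x.im = x'.im → |x'.re| ≤ a₀ → |x.re| ≤ a₁ → ‖N x'‖ ≤ Real.exp (Cp * Nn) * ‖N x‖) :
    ∃ (P : ℂ[X]) (W : ℂ → ℂ) (D : ℕ), (D : ℝ) ≤ Cp * Nn ∧ P.natDegree ≤ D ∧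
    (∀ x : ℂ, |x.re| < R → DifferentiableAt ℂ W x ∧ W x ≠ 0) ∧
    (∀ x : ℂ, |x.re| < R → f x * W x = P.eval (cexp (2 * x * I))) ∧
    ∀ x x' : ℂ, x.im = x'.im → |x'.re| ≤ a₀ → |x.re| ≤ a₁ → ‖W x'‖ ≤ Real.exp (Cp * Nn) * ‖W x‖ := by
  obtain ⟨p, hp, e⟩ := h
  refine ⟨p, fun x => cexp (D * (I * x)) * N x, D, hD, hp, fun x hx => ⟨?_, ?_⟩, fun x hx => ?_, fun x x' hi h1 h2 => ?_⟩
  · exact (by fun_prop : DifferentiableAt ℂ (fun x => cexp (D * (I * x))) x).mul (hN x hx).1
  · exact mul_ne_zero (Complex.exp_ne_zero _) (hN x hx).2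
  · rw [hf x hx, e]
    have h1 : cexp (D * (I * x)) * cexp (-(D * (I * x))) = 1 := by
      rw [← Complex.exp_add, add_neg_cancel, Complex.exp_zero]
    have h2 := (hN x hx).2
    have h3 : cexp (2 * x * I) = cexp (2 * (I * x)) := by
      congr 1
      ring
    rw [h3, div_mul_eq_mul_div, div_eq_iff h2]
    linear_combination (p.eval (cexp (2 * (I * x))) * N x) * h1
  · have h3 : ‖cexp (D * (I * x'))‖ = ‖cexp (D * (I * x))‖ := by
      rw [Complex.norm_exp, Complex.norm_exp]
      congr 1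
      simp [hi]
    rw [norm_mul, norm_mul, h3]
    nlinarith [hr x x' hi h1 h2, norm_nonneg (cexp (D * (I * x)))]

end Pool.Agent.PLX

end
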