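import Pool.Agent.PB.NHat
import Pool.Agent.PLX.TQ

/-!
# The state sum as a function of one row is a trigonometric polynomial (helper91)

Rows `x` of pairwise different heights, any `y`, any `z`:

* **`SS_row_tq`** : `∃ F, TQ (4 (m + M) + 2) F ∧ SS z (cons x0 x) y = F x0` for every `x0` whose height differs from the
  heights of the rows `x` (in fact for `sin (x0 - x i), sin (x0 - x i ± l) ≠ 0`).

The poles `x0 = x i`, `x i ± l` of the single terms cancel in pairs (antisymmetry; `(0, 0)` against `(∓, ±)`).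
-/

set_option autoImplicit false
set_option linter.unusedSectionVars false

noncomputable section

open Complex Filter Topology

namespace Pool.Agent.PLX

open NUP1 (l)
open NUP1.Grand (P)
open NUP1.Mu (P_cons sin_eight)
open PBS

/-- the common denominator of a pair -/
def Sn (w : ℂ) : ℂ := sin w * (sin (w + l) * sin (w - l))

/-- the numerator of the pair weight `fw` -/
def fN : SignType → SignType → ℂ → ℂ
  | .pos, .pos, w => sin (w + 3 * l) * sin (3 * l - w) * (sin (w + 2 * l) * sin (2 * l - w)) * Sn w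
  | .neg, .neg, w => sin (w + 3 * l) * sin (3 * l - w) * (sin (w + 2 * l) * sin (2 * l - w)) * Sn w
  | .zero, .zero, w => -(sin (w + 3 * l) * sin (3 * l - w) * (sin (w + 2 * l) * sin (2 * l - w)) * sin w)
  | .zero, .pos, w => sin (w + 3 * l) * sin (3 * l - w) * sin (w + 2 * l) * (sin (w + l) * sin (w - l))
  | .neg, .zero, w => sin (w + 3 * l) * sin (3 * l - w) * sin (w + 2 * l) * (sin (w + l) * sin (w - l))
  | .pos, .zero, w => sin (w + 3 * l) * sin (3 * l - w) * sin (w - 2 * l) * (sin (w + l) * sin (w - l))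
  | .zero, .neg, w => sin (w + 3 * l) * sin (3 * l - w) * sin (w - 2 * l) * (sin (w + l) * sin (w - l))
  | .neg, .pos, w => sin (w + 2 * l) * sin (w + 3 * l) * sin (w + l)
  | .pos, .neg, w => sin (w - 2 * l) * sin (w - 3 * l) * sin (w - l)

theorem fw_Sn (c d : SignType) {w : ℂ} (h0 : sin w ≠ 0) (h1 : sin (w + l) ≠ 0) (h2 : sin (w - l) ≠ 0) :
    fw c d w * Sn w = fN c d w := by
  have e1 : sin (l + w) = sin (w + l) := by rw [add_comm]
  have e2 : sin (l - w) = -sin (w - l) := by rw [← sin_neg, neg_sub]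
  have e3 : sin (3 * l + w) = sin (w + 3 * l) := by rw [add_comm]
  have e4 : sin (2 * l + w) = sin (w + 2 * l) := by rw [add_comm]
  cases c <;> cases d <;> simp only [fw, fN, Sn, e1, e2, e3, e4] <;> field_simp

/-! ### degrees -/

theorem tq_add (a : ℂ) (k : ℂ) : TQ 1 fun x => sin (x - a + k) :=
  (TQ.sin_add (k - a)).congr fun x => by congr 1; ring

theorem tq_sub (a : ℂ) (k : ℂ) : TQ 1 fun x => sin (k - (x - a)) :=
  (TQ.sin_sub' (k + a)).congr fun x => by congr 1; ring

theorem tq_sub' (a : ℂ) (k : ℂ) : TQ 1 fun x => sin (x - a - k) :=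
  (TQ.sin_add (-a - k)).congr fun x => by congr 1; ring

theorem tq_lin (a : ℂ) : TQ 1 fun x => sin (x - a) := TQ.sin_lin a

theorem tq_Sn (a : ℂ) : TQ 3 fun x => Sn (x - a) := (tq_lin a).mul ((tq_add a l).mul (tq_sub' a l))

theorem tq_fN (c d : SignType) (a : ℂ) : TQ 7 fun x => fN c d (x - a) := by
  have s0 := tq_lin a
  have p1 := tq_add a l
  have p2 := tq_add a (2 * l)
  have p3 := tq_add a (3 * l)
  have m1 := tq_sub' a l
  have m2 := tq_sub' a (2 * l)
  have m3 := tq_sub' a (3 * l)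
  have n2 := tq_sub a (2 * l)
  have n3 := tq_sub a (3 * l)
  have sn := tq_Sn a
  cases c <;> cases d <;> simp only [fN]
  · exact ((((p3.mul n3).mul (p2.mul n2)).mul s0).neg).up
  · exact ((((p3.mul n3).mul m2).mul (p1.mul m1))).up
  · exact ((((p3.mul n3).mul p2).mul (p1.mul m1))).up
  · exact ((((p3.mul n3).mul p2).mul (p1.mul m1))).up
  · exact (((p3.mul n3).mul (p2.mul n2)).mul sn)
  · exact (((p2.mul p3).mul p1)).ups 2
  · exact ((((p3.mul n3).mul m2).mul (p1.mul m1))).up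
  · exact (((m2.mul m3).mul m1)).ups 2
  · exact (((p3.mul n3).mul (p2.mul n2)).mul sn)

theorem cos_half (w : ℂ) : cos w = sin (w + 4 * l) := by
  rw [show w + 4 * (l : ℂ) = w + Real.pi / 2 by unfold NUP1.l; push_cast; ring, Complex.sin_add_pi_div_two]

theorem tq_gw (c d : SignType) (a : ℂ) : TQ 4 fun x => gw c d (x - a) := by
  have q : ∀ k : ℂ, TQ 1 fun x => sin (k + (x - a)) := fun k => (tq_add a k).congr fun x => by rw [add_comm]
  have sq : ∀ {F : ℂ → ℂ}, TQ 1 F → TQ 2 fun x => F x ^ 2 := fun h => (h.mul h).congr fun x => sq _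
  have one : TQ 0 fun _ : ℂ => (1 : ℂ) := TQ.const 1
  cases c <;> cases d <;> simp only [gw]
  · refine TQ.up ?_
    simp only [cos_half]
    exact sq (tq_add a _)
  · exact (sq (tq_sub a _)).up
  · exact (sq (q _)).up
  · exact (sq (q _)).up
  · exact one.ups 2
  · exact (sq (q _)).mul (sq (q _))
  · exact (sq (tq_sub a _)).up
  · exact (sq (tq_sub a _)).mul (sq (tq_sub a _))
  · exact one.ups 2

theorem tq_Lw (c : SignType) (z : ℂ) : TQ 2 fun x => Lw c (z - x) := by
  have q : ∀ k : ℂ, TQ 1 fun x => sin (z - x + k) := fun k =>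
    (TQ.sin_sub' (z + k)).congr fun x => by congr 1; ring
  have r : ∀ k : ℂ, TQ 1 fun x => sin (z - x - k) := fun k =>
    (TQ.sin_sub' (z - k)).congr fun x => by congr 1; ring
  cases c <;> simp only [Lw]
  · exact (q _).mul (r _)
  · exact (r _).mul (r _)
  · exact (q _).mul (q _)

/-! ### one row of the state sum -/

/-- the factor of one more row -/
def rf (z : ℂ) {m M : ℕ} (x : Fin m → ℂ) (y : Fin M → ℂ) (c : SignType) (a : Fin m → SignType) (b : Fin M → SignType)
    (x0 : ℂ) : ℂ :=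
  ww c * Lw c (z - x0) * (∏ i, fw c (a i) (x0 - x i)) * ∏ j, gw c (b j) (x0 - y j)

/-- its numerator -/
def rfN (z : ℂ) {m M : ℕ} (x : Fin m → ℂ) (y : Fin M → ℂ) (c : SignType) (a : Fin m → SignType) (b : Fin M → SignType)
    (x0 : ℂ) : ℂ :=
  ww c * Lw c (z - x0) * (∏ i, fN c (a i) (x0 - x i)) * ∏ j, gw c (b j) (x0 - y j)

theorem tm_row (z x0 : ℂ) {m M : ℕ} (x : Fin m → ℂ) (y : Fin M → ℂ) (c : SignType) (a : Fin m → SignType)
    (b : Fin M → SignType) :
    tm z (Fin.cons x0 x : Fin (m + 1) → ℂ) y (Fin.cons c a : Fin (m + 1) → SignType) b =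
      rf z x y c a b x0 * tm z x y a b := by
  unfold tm rf
  rw [Fin.prod_univ_succ (n := m), P_cons (n := m), Fin.prod_univ_succ (n := m)]
  simp only [Fin.cons_zero, Fin.cons_succ]
  ring

theorem sum_cast_cons {m : ℕ} (c : SignType) (a : Fin m → SignType) :
    ∑ i, ((Fin.cons c a : Fin (m + 1) → SignType) i : ℤ) = (c : ℤ) + ∑ i, (a i : ℤ) := by
  rw [Fin.sum_univ_succ]
  simp

theorem SS_row (z x0 : ℂ) {m M : ℕ} (x : Fin m → ℂ) (y : Fin M → ℂ) :
    SS z (Fin.cons x0 x : Fin (m + 1) → ℂ) y = sin l * ∑ c : SignType, ∑ a : Fin m → SignType, ∑ b : Fin M → SignType,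
      if (c : ℤ) + ∑ i, (a i : ℤ) = ∑ j, (b j : ℤ) then rf z x y c a b x0 * tm z x y a b else 0 := by
  unfold SS
  rw [sum_cons]
  congr 1
  refine Finset.sum_congr rfl fun c _ => Finset.sum_congr rfl fun a _ => Finset.sum_congr rfl fun b _ => ?_
  rw [sum_cast_cons, tm_row]

/-- the numerator of the state sum -/
def NS (z : ℂ) {m M : ℕ} (x : Fin m → ℂ) (y : Fin M → ℂ) (x0 : ℂ) : ℂ :=
  sin l * ∑ c : SignType, ∑ a : Fin m → SignType, ∑ b : Fin M → SignType,
      if (c : ℤ) + ∑ i, (a i : ℤ) = ∑ j, (b j : ℤ) then rfN z x y c a b x0 * tm z x y a b else 0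

/-- `x0` is not a pole -/
def NPl {m : ℕ} (x : Fin m → ℂ) (x0 : ℂ) : Prop :=
  ∀ i, sin (x0 - x i) ≠ 0 ∧ sin (x0 - x i + l) ≠ 0 ∧ sin (x0 - x i - l) ≠ 0

theorem NS_SS {z x0 : ℂ} {m M : ℕ} {x : Fin m → ℂ} (y : Fin M → ℂ) (h : NPl x x0) :
    NS z x y x0 = SS z (Fin.cons x0 x : Fin (m + 1) → ℂ) y * ∏ i, Sn (x0 - x i) := by
  rw [SS_row, NS, mul_assoc, Finset.sum_mul]
  congr 1
  refine Finset.sum_congr rfl fun c _ => ?_
  rw [Finset.sum_mul]
  refine Finset.sum_congr rfl fun a _ => ?_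
  rw [Finset.sum_mul]
  refine Finset.sum_congr rfl fun b _ => ?_
  split_ifs
  · have e : (∏ i, fw c (a i) (x0 - x i)) * ∏ i, Sn (x0 - x i) = ∏ i, fN c (a i) (x0 - x i) := by
      rw [← Finset.prod_mul_distrib]
      exact Finset.prod_congr rfl fun i _ => fw_Sn _ _ (h i).1 (h i).2.1 (h i).2.2
    unfold rf rfN
    rw [← e]
    ring
  · rw [zero_mul]

theorem rfN_tq (z : ℂ) {m M : ℕ} (x : Fin m → ℂ) (y : Fin M → ℂ) (c : SignType) (a : Fin m → SignType)
    (b : Fin M → SignType) : TQ (2 + m * 7 + M * 4) (rfN z x y c a b) := by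
  have h1 := (tq_Lw c z).cmul (ww c)
  have h2 := TQ.prod (Finset.univ : Finset (Fin m)) 7 fun i _ => tq_fN c (a i) (x i)
  have h3 := TQ.prod (Finset.univ : Finset (Fin M)) 4 fun j _ => tq_gw c (b j) (y j)
  rw [Finset.card_univ, Fintype.card_fin] at h2 h3
  exact (h1.mul h2).mul h3

theorem NS_tq (z : ℂ) {m M : ℕ} (x : Fin m → ℂ) (y : Fin M → ℂ) : TQ (2 + m * 7 + M * 4) (NS z x y) := by
  unfold NS
  refine TQ.cmul _ (TQ.sum _ fun c _ => TQ.sum _ fun a _ => TQ.sum _ fun b _ => ?_)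
  split_ifs
  · exact (rfN_tq z x y c a b).mulc _
  · exact TQ.zero

/-! ### equality on a dense set -/

theorem hgt_ev {m : ℕ} (x : Fin m → ℂ) (x0 : ℂ) :
    ∀ᶠ e : ℝ in 𝓝[>] (0 : ℝ), ∀ i, (x0 + e * I).im ≠ (x i).im := by
  rw [eventually_all]
  intro i
  rcases le_or_gt ((x i).im - x0.im) 0 with h | h
  · filter_upwards [self_mem_nhdsWithin] with e he
    have : (0 : ℝ) < e := he
    simp only [add_im, mul_im, ofReal_re, I_im, mul_one, ofReal_im, I_re, mul_zero, add_zero]
    intro h'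
    linarith
  · filter_upwards [Ioo_mem_nhdsGT h] with e he
    simp only [add_im, mul_im, ofReal_re, I_im, mul_one, ofReal_im, I_re, mul_zero, add_zero]
    intro h'
    linarith [he.2]

theorem up_tendsto (x0 : ℂ) : Tendsto (fun e : ℝ => x0 + e * I) (𝓝[>] (0 : ℝ)) (𝓝 x0) := by
  have h : Continuous fun e : ℝ => x0 + e * I := by fun_prop
  have h2 := h.tendsto 0
  simp only [ofReal_zero, zero_mul, add_zero] at h2
  exact h2.mono_left nhdsWithin_le_nhds

theorem ext_gen {m : ℕ} (x : Fin m → ℂ) {f g : ℂ → ℂ} (cf : Continuous f) (cg : Continuous g)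
    (h : ∀ x0 : ℂ, (∀ i, x0.im ≠ (x i).im) → f x0 = g x0) (x0 : ℂ) : f x0 = g x0 := by
  refine tendsto_nhds_unique ((cf.tendsto x0).comp (up_tendsto x0)) ?_
  refine ((cg.tendsto x0).comp (up_tendsto x0)).congr' ?_
  filter_upwards [hgt_ev x x0] with e he
  exact (h _ he).symm

theorem npl_of_im {m : ℕ} {x : Fin m → ℂ} {x0 : ℂ} (h : ∀ i, x0.im ≠ (x i).im) : NPl x x0 := fun i => by
  have h1 : (x0 - x i).im ≠ 0 := by rw [sub_im]; exact sub_ne_zero.2 (h i)
  exact ⟨sin_ne_of_im h1, sin_ne_of_im (by simpa using h1), sin_ne_of_im (by simpa using h1)⟩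

/-! ### symmetries of the numerator -/

theorem NS_perm (z : ℂ) {m M : ℕ} (x : Fin m → ℂ) (y : Fin M → ℂ) (σ : Equiv.Perm (Fin m)) (x0 : ℂ) :
    NS z (x ∘ σ) y x0 = NS z x y x0 := by
  unfold NS
  congr 1
  refine Finset.sum_congr rfl fun c _ => ?_
  refine (Equiv.sum_comp (σ.symm.arrowCongr (Equiv.refl SignType)) _).symm.trans ?_
  refine Finset.sum_congr rfl fun a _ => Finset.sum_congr rfl fun b _ => ?_
  have ea : (σ.symm.arrowCongr (Equiv.refl SignType)) a = a ∘ σ := by
    funext i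
    rfl
  have ht : tm z (x ∘ σ) y (a ∘ σ) b = tm z x y a b := tm_perm z x y a b σ (Equiv.refl _)
  have hr : rfN z (x ∘ σ) y c (a ∘ σ) b x0 = rfN z x y c a b x0 := by
    unfold rfN
    simp only [Function.comp_apply]
    rw [Equiv.prod_comp σ (fun i => fN c (a i) (x0 - x i))]
  rw [ea, ht, hr]
  simp only [Function.comp_apply]
  rw [Equiv.sum_comp σ (fun i => (a i : ℤ))]

theorem Sn_neg (w : ℂ) : Sn (-w) = -Sn w := by
  unfold Sn
  rw [sin_neg, show -w + (l : ℂ) = -(w - l) by ring, show -w - (l : ℂ) = -(w + l) by ring, sin_neg, sin_neg]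
  ring

theorem NS_neg (z : ℂ) {m M : ℕ} (x : Fin m → ℂ) (y : Fin M → ℂ) (x0 : ℂ) :
    NS (-z) (-x) (-y) (-x0) = (-1) ^ m * NS z x y x0 := by
  have cf : Continuous fun x0 : ℂ => NS (-z) (-x) (-y) (-x0) := (NS_tq _ _ _).continuous.comp continuous_neg
  have cg : Continuous fun x0 : ℂ => (-1) ^ m * NS z x y x0 := continuous_const.mul (NS_tq _ _ _).continuous
  refine ext_gen x cf cg (fun x0 h => ?_) x0
  have h1 : NPl x x0 := npl_of_im h
  have h2 : NPl (-x) (-x0) := npl_of_im fun i => by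
    simpa using h i
  have e1 : -(Fin.cons x0 x : Fin (m + 1) → ℂ) = (Fin.cons (-x0) (-x) : Fin (m + 1) → ℂ) := by
    funext i
    refine Fin.cases ?_ (fun j => ?_) i
    · simp
    · simp
  have e2 : ∏ i, Sn (-x0 - (-x) i) = (-1) ^ m * ∏ i, Sn (x0 - x i) := by
    have : ∀ i, Sn (-x0 - (-x) i) = (-1) * Sn (x0 - x i) := fun i => by
      rw [Pi.neg_apply, show -x0 - -x i = -(x0 - x i) by ring, Sn_neg]
      ring
    simp only [this]
    rw [Finset.prod_mul_distrib, Finset.prod_const, Finset.card_univ, Fintype.card_fin]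
  show NS (-z) (-x) (-y) (-x0) = (-1) ^ m * NS z x y x0
  rw [NS_SS _ h1, NS_SS _ h2, e2, ← e1, SS_neg]
  ring

/-! ### the three identities -/

theorem sin_sh (w : ℂ) (k : ℂ) : sin (k - w) = -sin (w - k) := by rw [← sin_neg, neg_sub]

/-- own rows, `x0 = x1 + l` -/
theorem fuse_f (c : SignType) {v : ℂ} (h0 : sin v ≠ 0) (h1 : sin (v + l) ≠ 0) (h2 : sin (v - l) ≠ 0) :
    fN .zero c (v + l) * fw .zero c v = fN .neg c (v + l) * fw .pos c v := by
  have a1 : v + l + l = v + 2 * l := by ring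
  have a2 : v + l + 2 * l = v + 3 * l := by ring
  have a3 : v + l + 3 * l = v + 4 * l := by ring
  have a4 : (v : ℂ) + l - l = v := by ring
  have a5 : v + l - 2 * l = v - l := by ring
  have b3 : 3 * l - (v + l) = 2 * l - v := by ring
  have b2 : 2 * l - (v + l) = l - v := by ring
  have c1 : sin (l + v) = sin (v + l) := by rw [add_comm]
  have c2 : sin (2 * l + v) = sin (v + 2 * l) := by rw [add_comm]
  have c3 : sin (3 * l + v) = sin (v + 3 * l) := by rw [add_comm]
  have d1 : sin (l - v) = -sin (v - l) := sin_sh v l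
  have d2 : sin (2 * l - v) = -sin (v - 2 * l) := sin_sh v (2 * l)
  have d3 : sin (3 * l - v) = -sin (v - 3 * l) := sin_sh v (3 * l)
  cases c <;> simp only [fN, fw, Sn, a1, a2, a3, a4, a5, b3, b2, c1, c2, c3, d1, d2, d3] <;> field_simp

/-- cross rows, `x0 = x1 + l` -/
theorem fuse_g (b : SignType) (u : ℂ) :
    gw .zero b (u + l) * gw .zero b u = gw .neg b (u + l) * gw .pos b u := by
  have e1 : cos (u + l) = sin (3 * l - u) := by
    rw [cos_half, ← sin_refl (3 * l - u)]
    congr 1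
    ring
  have e2 : cos u = sin (u + 4 * l) := cos_half u
  have a1 : 3 * l + (u + l) = u + 4 * l := by ring
  have a2 : 2 * l + (u + l) = 3 * l + u := by ring
  have a3 : 3 * l - (u + l) = 2 * l - u := by ring
  cases b <;> simp only [gw, e1, e2, a1, a2, a3] <;> ring

/-- the legs -/
theorem fuse_L (t : ℂ) : Lw .zero (t - l) * Lw .zero t = Lw .neg (t - l) * Lw .pos t := by
  have a1 : t - l + 3 * l = t + 2 * l := by ring
  have a2 : t - l - 3 * l = t - 4 * l := by ring
  have a3 : t - l - 2 * l = t - 3 * l := by ring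
  simp only [Lw, a1, a2, a3]
  ring

theorem fuse_c : ww .zero * ww .zero * fN .zero .zero l + ww .neg * ww .pos * fN .neg .pos l = 0 := by
  have a1 : (l : ℂ) + 3 * l = 4 * l := by ring
  have a2 : (l : ℂ) + 2 * l = 3 * l := by ring
  have a3 : 3 * (l : ℂ) - l = 2 * l := by ring
  have a4 : 2 * (l : ℂ) - l = l := by ring
  have a5 : (l : ℂ) + l = 2 * l := by ring
  simp only [ww, fN, a1, a2, a3, a4, a5]
  ring

theorem fN_l_zero {c d : SignType} (h : ¬((c = .zero ∧ d = .zero) ∨ (c = .neg ∧ d = .pos))) : fN c d l = 0 := by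
  cases c <;> cases d <;> simp [fN, Sn] at h ⊢

theorem fN_anti (c d : SignType) : fN c d 0 = -fN d c 0 := by
  have d1 : sin (0 - (l : ℂ)) = -sin l := by rw [zero_sub, sin_neg]
  have d2 : sin (0 - 2 * (l : ℂ)) = -sin (2 * l) := by rw [zero_sub, sin_neg]
  have d3 : sin (0 - 3 * (l : ℂ)) = -sin (3 * l) := by rw [zero_sub, sin_neg]
  cases c <;> cases d <;> simp only [fN, Sn, d1, d2, d3, zero_add, sub_zero, sin_zero] <;> ring

/-! ### the zeros of the numerator -/

/-- two rows split off -/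
theorem NS_two (z x0 x1 : ℂ) {m M : ℕ} (x : Fin m → ℂ) (y : Fin M → ℂ) :
    NS z (Fin.cons x1 x : Fin (m + 1) → ℂ) y x0 =
      sin l * ∑ a : Fin m → SignType, ∑ b : Fin M → SignType, (∑ c : SignType, ∑ d : SignType,
        if (c : ℤ) + (d : ℤ) + ∑ i, (a i : ℤ) = ∑ j, (b j : ℤ) then
          fN c d (x0 - x1) * (rfN z x y c a b x0 * rf z x y d a b x1) else 0) * tm z x y a b := by
  unfold NS
  congr 1
  have e1 : ∀ c : SignType, (∑ a : Fin (m + 1) → SignType, ∑ b : Fin M → SignType,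
      if (c : ℤ) + ∑ i, (a i : ℤ) = ∑ j, (b j : ℤ) then
        rfN z (Fin.cons x1 x : Fin (m + 1) → ℂ) y c a b x0 * tm z (Fin.cons x1 x : Fin (m + 1) → ℂ) y a b else 0) =
      ∑ a : Fin m → SignType, ∑ b : Fin M → SignType, (∑ d : SignType,
        if (c : ℤ) + (d : ℤ) + ∑ i, (a i : ℤ) = ∑ j, (b j : ℤ) then
          fN c d (x0 - x1) * (rfN z x y c a b x0 * rf z x y d a b x1) else 0) * tm z x y a b := by
    intro c
    rw [sum_cons, Finset.sum_comm]
    refine Finset.sum_congr rfl fun a _ => ?_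
    rw [Finset.sum_comm]
    refine Finset.sum_congr rfl fun b _ => ?_
    rw [Finset.sum_mul]
    refine Finset.sum_congr rfl fun d _ => ?_
    rw [sum_cast_cons, tm_row, ← add_assoc]
    split_ifs
    · unfold rfN
      rw [Fin.prod_univ_succ (n := m)]
      simp only [Fin.cons_zero, Fin.cons_succ]
      ring
    · rw [zero_mul]
  simp only [e1]
  rw [Finset.sum_comm]
  refine Finset.sum_congr rfl fun a _ => ?_
  rw [Finset.sum_comm]
  refine Finset.sum_congr rfl fun b _ => ?_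
  rw [← Finset.sum_mul]

theorem sum_sign (f : SignType → ℂ) : ∑ c, f c = f .zero + f .neg + f .pos := by
  have h : (Finset.univ : Finset SignType) = {.zero, .neg, .pos} := by decide
  rw [h, Finset.sum_insert (by decide), Finset.sum_insert (by decide), Finset.sum_singleton]
  ring

/-- the zero at `x0 = x1` -/
theorem NS_zero0 (z x1 : ℂ) {m M : ℕ} {x : Fin m → ℂ} (y : Fin M → ℂ) (h : NPl x x1) :
    NS z (Fin.cons x1 x : Fin (m + 1) → ℂ) y x1 = 0 := by
  rw [NS_two]
  rw [Finset.sum_eq_zero, mul_zero]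
  intro a _
  refine Finset.sum_eq_zero fun b _ => ?_
  set T : SignType → SignType → ℂ := fun c d =>
    if (c : ℤ) + (d : ℤ) + ∑ i, (a i : ℤ) = ∑ j, (b j : ℤ) then
      fN c d (x1 - x1) * (rfN z x y c a b x1 * rf z x y d a b x1) else 0 with hT
  have hr : ∀ c, rfN z x y c a b x1 = rf z x y c a b x1 * ∏ i, Sn (x1 - x i) := by
    intro c
    have e : (∏ i, fw c (a i) (x1 - x i)) * ∏ i, Sn (x1 - x i) = ∏ i, fN c (a i) (x1 - x i) := by
      rw [← Finset.prod_mul_distrib]
      exact Finset.prod_congr rfl fun i _ => fw_Sn _ _ (h i).1 (h i).2.1 (h i).2.2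
    unfold rf rfN
    rw [← e]
    ring
  have anti : ∀ c d, T c d = -T d c := by
    intro c d
    simp only [hT, sub_self]
    rw [add_comm (c : ℤ) (d : ℤ)]
    split_ifs
    · rw [hr, hr, fN_anti c d]
      ring
    · rw [neg_zero]
  have key : ∑ c, ∑ d, T c d = 0 := by
    have h1 : ∑ c, ∑ d, T c d = -∑ c, ∑ d, T c d := by
      conv_lhs => rw [Finset.sum_comm]
      rw [← Finset.sum_neg_distrib]
      refine Finset.sum_congr rfl fun c _ => ?_
      rw [← Finset.sum_neg_distrib]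
      exact Finset.sum_congr rfl fun d _ => anti d c
    linear_combination h1 / 2
  show (∑ c, ∑ d, T c d) * _ = 0
  rw [key, zero_mul]

/-- the zero at `x0 = x1 + l` -/
theorem NS_zero1 (z x1 : ℂ) {m M : ℕ} {x : Fin m → ℂ} (y : Fin M → ℂ) (h : NPl x x1) :
    NS z (Fin.cons x1 x : Fin (m + 1) → ℂ) y (x1 + l) = 0 := by
  rw [NS_two]
  rw [Finset.sum_eq_zero, mul_zero]
  intro a _
  refine Finset.sum_eq_zero fun b _ => ?_
  set T : SignType → SignType → ℂ := fun c d =>
    if (c : ℤ) + (d : ℤ) + ∑ i, (a i : ℤ) = ∑ j, (b j : ℤ) then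
      fN c d (x1 + l - x1) * (rfN z x y c a b (x1 + l) * rf z x y d a b x1) else 0 with hT
  have e0 : x1 + (l : ℂ) - x1 = l := by ring
  have hz : ∀ c d : SignType, ¬((c = .zero ∧ d = .zero) ∨ (c = .neg ∧ d = .pos)) → T c d = 0 := by
    intro c d hcd
    simp only [hT, e0, fN_l_zero hcd, zero_mul, ite_self]
  have hp : ∏ i, fN .zero (a i) (x1 + l - x i) * fw .zero (a i) (x1 - x i) =
      ∏ i, fN .neg (a i) (x1 + l - x i) * fw .pos (a i) (x1 - x i) := by
    refine Finset.prod_congr rfl fun i _ => ?_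
    have := fuse_f (a i) (h i).1 (h i).2.1 (h i).2.2
    rw [show x1 + (l : ℂ) - x i = x1 - x i + l by ring]
    exact this
  have hg : ∏ j, gw .zero (b j) (x1 + l - y j) * gw .zero (b j) (x1 - y j) =
      ∏ j, gw .neg (b j) (x1 + l - y j) * gw .pos (b j) (x1 - y j) := by
    refine Finset.prod_congr rfl fun j _ => ?_
    have := fuse_g (b j) (x1 - y j)
    rw [show x1 + (l : ℂ) - y j = x1 - y j + l by ring]
    exact this
  have hL := fuse_L (z - x1)
  rw [show z - x1 - (l : ℂ) = z - (x1 + l) by ring] at hL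
  rw [Finset.prod_mul_distrib, Finset.prod_mul_distrib] at hp hg
  have hc := fuse_c
  have key : T .zero .zero + T .neg .pos = 0 := by
    simp only [hT, e0]
    have i1 : ((SignType.zero : SignType) : ℤ) + ((SignType.zero : SignType) : ℤ) = 0 := rfl
    have i2 : ((SignType.neg : SignType) : ℤ) + ((SignType.pos : SignType) : ℤ) = 0 := rfl
    rw [i1, i2]
    split_ifs
    · unfold rfN rf
      set A := ∏ i, fN .zero (a i) (x1 + l - x i)
      set A' := ∏ i, fw .zero (a i) (x1 - x i)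
      set B := ∏ i, fN .neg (a i) (x1 + l - x i)
      set B' := ∏ i, fw .pos (a i) (x1 - x i)
      set C := ∏ j, gw .zero (b j) (x1 + l - y j)
      set C' := ∏ j, gw .zero (b j) (x1 - y j)
      set D := ∏ j, gw .neg (b j) (x1 + l - y j)
      set D' := ∏ j, gw .pos (b j) (x1 - y j)
      linear_combination (Lw .zero (z - (x1 + l)) * Lw .zero (z - x1) * (A * A') * (C * C')) * hc -
        ww .neg * ww .pos * fN .neg .pos l * ((A * A') * (C * C') * hL +
          Lw .neg (z - (x1 + l)) * Lw .pos (z - x1) * ((C * C') * hp + (B * B') * hg))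
    · rw [add_zero]
  show (∑ c, ∑ d, T c d) * _ = 0
  have hs : ∑ c, ∑ d, T c d = 0 := by
    rw [sum_sign, sum_sign, sum_sign, sum_sign]
    rw [hz .zero .neg (by decide), hz .zero .pos (by decide), hz .neg .zero (by decide), hz .neg .neg (by decide),
      hz .pos .zero (by decide), hz .pos .neg (by decide), hz .pos .pos (by decide)]
    linear_combination key
  rw [hs, zero_mul]

/-- the zero at `x0 = x1 - l` -/
theorem NS_zero2 (z x1 : ℂ) {m M : ℕ} {x : Fin m → ℂ} (y : Fin M → ℂ) (h : NPl x x1) :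
    NS z (Fin.cons x1 x : Fin (m + 1) → ℂ) y (x1 - l) = 0 := by
  have h' : NPl (-x) (-x1) := by
    intro i
    obtain ⟨h0, h1, h2⟩ := h i
    rw [Pi.neg_apply]
    refine ⟨?_, ?_, ?_⟩
    · rw [show -x1 - -x i = -(x1 - x i) by ring, sin_neg]
      exact neg_ne_zero.2 h0
    · rw [show -x1 - -x i + (l : ℂ) = -(x1 - x i - l) by ring, sin_neg]
      exact neg_ne_zero.2 h2
    · rw [show -x1 - -x i - (l : ℂ) = -(x1 - x i + l) by ring, sin_neg]
      exact neg_ne_zero.2 h1
  have e1 : (Fin.cons (-x1) (-x) : Fin (m + 1) → ℂ) = -(Fin.cons x1 x : Fin (m + 1) → ℂ) := by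
    funext i
    refine Fin.cases ?_ (fun j => ?_) i
    · simp
    · simp
  have h1 := NS_zero1 (-z) (-x1) (-y) h'
  rw [e1, show -x1 + (l : ℂ) = -(x1 - l) by ring, NS_neg] at h1
  exact (mul_eq_zero.1 h1).resolve_left (pow_ne_zero _ (by norm_num))

/-! ### the state sum -/

/-- the sign as an integer -/
def sg : SignType → ℤ
  | .zero => 0
  | .neg => -1
  | .pos => 1

theorem sg_inj {s t : SignType} (h : sg s = sg t) : s = t := by
  cases s <;> cases t <;> simp [sg] at h ⊢

theorem sg_sub (s t : SignType) : |sg s - sg t| ≤ 2 := by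
  cases s <;> cases t <;> decide

/-- the places of the poles -/
def pl {m : ℕ} (x : Fin m → ℂ) (p : Fin m × SignType) : ℂ := x p.1 + (((sg p.2 : ℤ) : ℝ) : ℂ) * l

theorem prod_sign (f : SignType → ℂ) : ∏ c, f c = f .zero * (f .neg * f .pos) := by
  have h : (Finset.univ : Finset SignType) = {.zero, .neg, .pos} := by decide
  rw [h, Finset.prod_insert (by decide), Finset.prod_insert (by decide), Finset.prod_singleton]

theorem prod_Sn {m : ℕ} (x : Fin m → ℂ) (x0 : ℂ) : ∏ p, sin (x0 - pl x p) = ∏ i, Sn (x0 - x i) := by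
  rw [Fintype.prod_prod_type]
  refine Finset.prod_congr rfl fun i _ => ?_
  rw [prod_sign]
  unfold pl Sn
  simp only [sg]
  rw [show x0 - (x i + (((0 : ℤ) : ℝ) : ℂ) * l) = x0 - x i by push_cast; ring,
    show x0 - (x i + (((-1 : ℤ) : ℝ) : ℂ) * l) = x0 - x i + l by push_cast; ring,
    show x0 - (x i + (((1 : ℤ) : ℝ) : ℂ) * l) = x0 - x i - l by push_cast; ring]

/-- pairwise different heights -/
def Hg {m : ℕ} (x : Fin m → ℂ) : Prop := ∀ i j, i ≠ j → (x i).im ≠ (x j).im

theorem norm_e2 (c : ℂ) : ‖cexp (2 * (I * c))‖ = Real.exp (-2 * c.im) := by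
  rw [Complex.norm_exp]
  congr 1
  simp

theorem pl_im {m : ℕ} (x : Fin m → ℂ) (p : Fin m × SignType) : (pl x p).im = (x p.1).im := by
  unfold pl
  simp

theorem pl_inj {m : ℕ} {x : Fin m → ℂ} (hx : Hg x) : Function.Injective fun p => cexp (2 * (I * pl x p)) := by
  rintro ⟨i, s⟩ ⟨j, t⟩ h
  have h1 := congrArg norm h
  simp only [norm_e2, pl_im] at h1
  have h2 : (x i).im = (x j).im := by
    have := Real.exp_injective h1
    linarith
  have hij : i = j := by
    by_contra hne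
    exact hx i j hne h2
  subst hij
  have h3 : cexp (2 * (I * pl x (i, s))) - cexp (2 * (I * pl x (i, t))) = 0 := sub_eq_zero.2 h
  rw [TQ.sin_factor] at h3
  have h4 : sin (pl x (i, s) - pl x (i, t)) = 0 := by
    rcases mul_eq_zero.1 h3 with h4 | h4
    · exact absurd h4 (mul_ne_zero (mul_ne_zero two_ne_zero I_ne_zero) (Complex.exp_ne_zero _))
    · exact (mul_eq_zero.1 h4).resolve_left (Complex.exp_ne_zero _)
  have e : pl x (i, s) - pl x (i, t) = ((((sg s - sg t : ℤ) : ℝ) * l : ℝ) : ℂ) := by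
    unfold pl
    push_cast
    ring
  rw [e, ← Complex.ofReal_sin, Complex.ofReal_eq_zero] at h4
  have hl : (0 : ℝ) < l := PBS.l_pos
  have h8 : 8 * l = Real.pi := by unfold NUP1.l; ring
  have hst : sg s - sg t = 0 := by
    obtain ⟨n, hn⟩ := Real.sin_eq_zero_iff.1 h4
    have h5 := abs_le.1 (sg_sub s t)
    rw [← h8] at hn
    have h7 : ((sg s - sg t : ℤ) : ℝ) = ((8 * n : ℤ) : ℝ) := by
      have h9 : (((sg s - sg t : ℤ) : ℝ) - 8 * n) * l = 0 := by linarith
      have h9 := (mul_eq_zero.1 h9).resolve_right hl.ne'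
      push_cast at h9 ⊢
      linarith
    have h6 : sg s - sg t = 8 * n := by exact_mod_cast h7
    omega
  rw [sg_inj (sub_eq_zero.1 hst)]

theorem NS_zero {m M : ℕ} (z : ℂ) {x : Fin m → ℂ} (y : Fin M → ℂ) (hx : Hg x) (p : Fin m × SignType) :
    NS z x y (pl x p) = 0 := by
  obtain ⟨i, s⟩ := p
  rcases m with _ | n
  · exact i.elim0
  · set σ : Equiv.Perm (Fin (n + 1)) := Equiv.swap 0 i with hσ
    set x' : Fin n → ℂ := fun k => x (σ k.succ) with hx'
    have e : x ∘ σ = (Fin.cons (x i) x' : Fin (n + 1) → ℂ) := by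
      funext k
      refine Fin.cases ?_ (fun j => ?_) k
      · rw [Function.comp_apply, Fin.cons_zero, hσ, Equiv.swap_apply_left]
      · rw [Function.comp_apply, Fin.cons_succ]
    have hN : NPl x' (x i) := by
      refine npl_of_im fun k => hx _ _ ?_
      intro h
      have : σ 0 = σ k.succ := by
        rw [← h, hσ, Equiv.swap_apply_left]
      exact (Fin.succ_ne_zero k).symm (σ.injective this)
    rw [← NS_perm z x y σ, e]
    unfold pl
    cases s <;> simp only [sg]
    · have := NS_zero0 z (x i) y hN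
      rwa [show x i + (((0 : ℤ) : ℝ) : ℂ) * (l : ℂ) = x i by push_cast; ring]
    · have := NS_zero2 z (x i) y hN
      rwa [show x i + (((-1 : ℤ) : ℝ) : ℂ) * (l : ℂ) = x i - l by push_cast; ring]
    · have := NS_zero1 z (x i) y hN
      rwa [show x i + (((1 : ℤ) : ℝ) : ℂ) * (l : ℂ) = x i + l by push_cast; ring]

/-- **the state sum as a function of one row** -/
theorem SS_row_tq {m M : ℕ} (z : ℂ) {x : Fin m → ℂ} (y : Fin M → ℂ) (hx : Hg x) :
    ∃ F : ℂ → ℂ, TQ (2 * (2 * (m + M) + 1)) F ∧ (∀ x0, NPl x x0 → SS z (Fin.cons x0 x : Fin (m + 1) → ℂ) y = F x0) := by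
  have hcard : Fintype.card (Fin m × SignType) = m * 3 := by
    rw [Fintype.card_prod, Fintype.card_fin]
    rfl
  have ht : TQ (2 * (2 * (m + M) + 1) + m * 3) (NS z x y) := (NS_tq z x y).cast (by ring)
  obtain ⟨F, hF, e⟩ := TQ.div hcard ht (pl_inj hx) (NS_zero z y hx)
  refine ⟨F, hF, fun x0 h => ?_⟩
  have h1 := NS_SS (z := z) y h
  rw [e, prod_Sn] at h1
  have h2 : ∏ i, Sn (x0 - x i) ≠ 0 := Finset.prod_ne_zero_iff.2 fun i _ =>
    mul_ne_zero (h i).1 (mul_ne_zero (h i).2.1 (h i).2.2)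
  exact (mul_right_cancel₀ h2 h1).symm

end Pool.Agent.PLX

end
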