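import Pool.Agent.PLX.KSix
import Pool.Agent.PLX.NzF
import Pool.Agent.PLX.RowP

/-!
# One row of the first group anywhere (helper91)

`nhG z x y x0` : legs at `z`, near rows `x : Fin m → ℂ`, `y : Fin M → ℂ` (`|Re| ≤ l / 2`, they may coincide), one row of the
first group at `x0`, `|Re x0| < 4 l` (interpolation of the trigonometric polynomial `SS z (x0, x) y` of `x0`).

* `nhG_nh` : different heights: `nhG z x y x0 = PBS.nh z (x0, x) y`;
* **`nhG_near`** : `|Re x0| ≤ l / 2` : `nhG z x y x0 = nzU z (x0, x) y`;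
* **`nhG_far`** : `x0 ∈ FS` : `nhG z x y x0 = nzF z x0 x y`;
* `nhG_tendsto` : joint continuity; `nhG_diff` : analyticity in `x0`; `nhG_neg`;
* **`nhG_poly`** : the field `poly` of `WideP`.
-/

set_option autoImplicit false
set_option linter.unusedSectionVars false
set_option linter.unusedVariables false

noncomputable section

open Complex Filter Topology Polynomial

namespace Pool.Agent.PLX

open NUP1 (l lpos)
open NUP1.Grand (P)
open PBX (Rws pull pull_ne pull_re pull_Rws pull_tendsto)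
open PBR (rh rh_neg rh_ne_zero differentiableAt_rh rh_upper rh_lower)
open PBS (SS PN nh)
open Pool.Agent.PB

variable {m M : ℕ}

/-! ### the normaliser -/

/-- the normaliser and one more row -/
theorem PN_row (z x0 : ℂ) (x : Fin m → ℂ) (y : Fin M → ℂ) :
    PN z (Fin.cons x0 x : Fin (m + 1) → ℂ) y =
      2 / 3 * rh (z - x0) ^ 2 * ((∏ i, rh (x0 - x i) ^ 2) * ∏ j, rh (x0 - y j) ^ 2) * PN z x y := by
  unfold PBS.PN
  rw [Fin.prod_univ_succ (n := m), NUP1.Mu.P_cons (n := m), Fin.prod_univ_succ (n := m)]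
  simp only [Fin.cons_zero, Fin.cons_succ]
  ring

/-- the row anywhere -/
theorem far_re {u v : ℂ} (hu : |u.re| < 4 * l) (hv : |v.re| ≤ l / 2) : |(u - v).re| < 9 / 2 * l := by
  rw [sub_re]
  obtain ⟨h1, h2⟩ := abs_lt.1 hu
  obtain ⟨h3, h4⟩ := abs_le.1 hv
  rw [abs_lt]
  constructor <;> (clear * - h1 h4 h2 h3; linarith)

theorem far_re' {u v : ℂ} (hu : |u.re| < 4 * l) (hv : |v.re| ≤ l / 2) : |(v - u).re| < 9 / 2 * l := by
  have := far_re hu hv
  rwa [← neg_sub, neg_re, abs_neg]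

theorem PN_ne' {z : ℂ} (hz : |z.re| ≤ l / 2) {x : Fin m → ℂ} {y : Fin M → ℂ} (hx : Rws x) (hy : Rws y) :
    PN z x y ≠ 0 := PBS.PN_ne (by (clear * - hz; linarith [lpos])) hx hy

theorem PN_row_ne {z x0 : ℂ} (hz : |z.re| ≤ l / 2) (h0 : |x0.re| < 4 * l) {x : Fin m → ℂ} {y : Fin M → ℂ}
    (hx : Rws x) (hy : Rws y) : PN z (Fin.cons x0 x : Fin (m + 1) → ℂ) y ≠ 0 := by
  have hl := lpos
  rw [PN_row]
  have h5 : ∀ {u : ℂ}, |u.re| < 9 / 2 * l → rh u ≠ 0 := fun h => rh_ne_zero (by (clear * - hl h; linarith))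
  refine mul_ne_zero (mul_ne_zero (mul_ne_zero (by norm_num) (pow_ne_zero _ (h5 (far_re' h0 hz)))) (mul_ne_zero ?_ ?_))
    (PN_ne' hz hx hy)
  · exact Finset.prod_ne_zero_iff.2 fun i _ => pow_ne_zero _ (h5 (far_re h0 (hx i)))
  · exact Finset.prod_ne_zero_iff.2 fun i _ => pow_ne_zero _ (h5 (far_re h0 (hy i)))

section
variable {E : Type*} {F : Filter E} {z w : E → ℂ} {x : E → Fin m → ℂ} {y : E → Fin M → ℂ} {z0 w0 : ℂ}
  {x0 : Fin m → ℂ} {y0 : Fin M → ℂ}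

theorem PN_tendsto (tz : Tendsto z F (𝓝 z0)) (tx : ∀ i, Tendsto (fun e => x e i) F (𝓝 (x0 i)))
    (ty : ∀ i, Tendsto (fun e => y e i) F (𝓝 (y0 i))) (hz : |z0.re| ≤ l / 2) (hx : Rws x0) (hy : Rws y0) :
    Tendsto (fun e => PN (z e) (x e) (y e)) F (𝓝 (PN z0 x0 y0)) := by
  have hl := lpos
  simp only [PN_D]
  refine tendsto_const_nhds.mul (((((D1_tendsto tz tx (fun i j => Rws.dist hx hx i j) ?_).mul
    (D1_tendsto tz ty (fun i j => Rws.dist hy hy i j) ?_)).mul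
      (D2_tendsto tx ty fun i j => Rws.dist hx hy i j)).mul tendsto_const_nhds))
  · exact Rws.narZ hx (mem_LS hz)
  · exact Rws.narZ hy (mem_LS hz)

theorem PN_row_tendsto (tz : Tendsto z F (𝓝 z0)) (tw : Tendsto w F (𝓝 w0))
    (tx : ∀ i, Tendsto (fun e => x e i) F (𝓝 (x0 i))) (ty : ∀ i, Tendsto (fun e => y e i) F (𝓝 (y0 i)))
    (hz : |z0.re| ≤ l / 2) (hw : |w0.re| < 4 * l) (hx : Rws x0) (hy : Rws y0) :
    Tendsto (fun e => PN (z e) (Fin.cons (w e) (x e) : Fin (m + 1) → ℂ) (y e)) F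
      (𝓝 (PN z0 (Fin.cons w0 x0 : Fin (m + 1) → ℂ) y0)) := by
  have hl := lpos
  simp only [PN_row]
  have h5 : ∀ {u : ℂ}, |u.re| < 9 / 2 * l → |u.re| < 5 * l := fun h => by linarith
  refine ((tendsto_const_nhds.mul ((rh_tendsto (tz.sub tw) (h5 (far_re' hw hz))).pow 2)).mul
    ((tendsto_finsetProd _ fun i _ => ?_).mul (tendsto_finsetProd _ fun i _ => ?_))).mul
      (PN_tendsto tz tx ty hz hx hy)
  · exact (rh_tendsto (tw.sub (tx i)) (h5 (far_re hw (hx i)))).pow 2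
  · exact (rh_tendsto (tw.sub (ty i)) (h5 (far_re hw (hy i)))).pow 2

end

theorem PN_row_diff {z x0 : ℂ} (hz : |z.re| ≤ l / 2) (h0 : |x0.re| < 4 * l) {x : Fin m → ℂ} {y : Fin M → ℂ}
    (hx : Rws x) (hy : Rws y) :
    DifferentiableAt ℂ (fun x0 => PN z (Fin.cons x0 x : Fin (m + 1) → ℂ) y) x0 := by
  have hl := lpos
  simp only [PN_row]
  have hr : ∀ {u : ℂ}, |u.re| < 9 / 2 * l → DifferentiableAt ℂ rh u := fun h => differentiableAt_rh (by linarith)
  refine DifferentiableAt.mul_const (DifferentiableAt.mul (DifferentiableAt.const_mul (DifferentiableAt.pow ?_ 2) _)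
    (DifferentiableAt.mul (DifferentiableAt.fun_finsetProd fun i _ => DifferentiableAt.pow ?_ 2)
      (DifferentiableAt.fun_finsetProd fun i _ => DifferentiableAt.pow ?_ 2))) _
  · exact (hr (far_re' h0 hz)).comp x0 (differentiableAt_id.const_sub _)
  · exact (hr (far_re h0 (hx i))).comp x0 (differentiableAt_id.sub_const _)
  · exact (hr (far_re h0 (hy i))).comp x0 (differentiableAt_id.sub_const _)

/-! ### the function -/

/-- the degree -/
def kD (m M : ℕ) : ℕ := 2 * (m + M) + 1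

/-- the state sum of a near row -/
def gN (z : ℂ) (x : Fin m → ℂ) (y : Fin M → ℂ) (s : ℂ) : ℂ :=
  nzU z (Fin.cons s x : Fin (m + 1) → ℂ) y * PN z (Fin.cons s x : Fin (m + 1) → ℂ) y

/-- the state sum of one row anywhere -/
def sG (z : ℂ) (x : Fin m → ℂ) (y : Fin M → ℂ) (x0 : ℂ) : ℂ := FG (kD m M) (gN z x y) x0

/-- **one row of the first group at `x0`** -/
def nhG (z : ℂ) (x : Fin m → ℂ) (y : Fin M → ℂ) (x0 : ℂ) : ℂ :=
  sG z x y x0 / PN z (Fin.cons x0 x : Fin (m + 1) → ℂ) y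

theorem sG_tq (z : ℂ) (x : Fin m → ℂ) (y : Fin M → ℂ) : TQ (2 * kD m M) (sG z x y) := FG_tq _ _

theorem nd_re (D : ℕ) (r : Fin (D + 1)) : |(nd D r).re| ≤ l / 2 := by
  rw [(nd_ax0 D r).1, abs_zero]
  linarith [lpos]

section
variable {E : Type*} {F : Filter E} [F.IsCountablyGenerated] {z w : E → ℂ} {x : E → Fin m → ℂ}
  {y : E → Fin M → ℂ} {z0 w0 : ℂ} {x0 : Fin m → ℂ} {y0 : Fin M → ℂ}

theorem cons_tendsto (tw : Tendsto w F (𝓝 w0)) (tx : ∀ i, Tendsto (fun e => x e i) F (𝓝 (x0 i)))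
    (i : Fin (m + 1)) : Tendsto (fun e => (Fin.cons (w e) (x e) : Fin (m + 1) → ℂ) i) F
      (𝓝 ((Fin.cons w0 x0 : Fin (m + 1) → ℂ) i)) := by
  refine Fin.cases ?_ (fun j => ?_) i
  · simpa using tw
  · simpa using tx j

theorem gN_tendsto (tz : Tendsto z F (𝓝 z0)) (tw : Tendsto w F (𝓝 w0))
    (tx : ∀ i, Tendsto (fun e => x e i) F (𝓝 (x0 i))) (ty : ∀ i, Tendsto (fun e => y e i) F (𝓝 (y0 i)))
    (hz : |z0.re| ≤ l / 2) (hwe : ∀ᶠ e in F, |(w e).re| ≤ l / 2) (hw : |w0.re| ≤ l / 2)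
    (hxe : ∀ᶠ e in F, Rws (x e)) (hye : ∀ᶠ e in F, Rws (y e)) (hx : Rws x0) (hy : Rws y0) :
    Tendsto (fun e => gN (z e) (x e) (y e) (w e)) F (𝓝 (gN z0 x0 y0 w0)) := by
  unfold gN
  refine Tendsto.mul ?_ (PN_row_tendsto tz tw tx ty hz (by (clear * - hw; linarith [lpos])) hx hy)
  refine nzU_tendsto tz (cons_tendsto tw tx) ty ?_ hye (Rws.cons hw hx) hy (mem_LS hz)
  filter_upwards [hwe, hxe] with e h1 h2
  exact Rws.cons h1 h2

theorem sG_tendsto (tz : Tendsto z F (𝓝 z0)) (tw : Tendsto w F (𝓝 w0))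
    (tx : ∀ i, Tendsto (fun e => x e i) F (𝓝 (x0 i))) (ty : ∀ i, Tendsto (fun e => y e i) F (𝓝 (y0 i)))
    (hz : |z0.re| ≤ l / 2) (hxe : ∀ᶠ e in F, Rws (x e)) (hye : ∀ᶠ e in F, Rws (y e)) (hx : Rws x0) (hy : Rws y0) :
    Tendsto (fun e => sG (z e) (x e) (y e) (w e)) F (𝓝 (sG z0 x0 y0 w0)) := by
  unfold sG FG
  refine tendsto_finsetSum _ fun r _ => Tendsto.mul ?_ ?_
  · exact ((lw_tq (kD m M) r).continuous.tendsto _).comp tw
  · exact gN_tendsto tz tendsto_const_nhds tx ty hz (Eventually.of_forall fun _ => nd_re _ r) (nd_re _ r) hxe hye hx hy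

/-- **joint continuity** -/
theorem nhG_tendsto (tz : Tendsto z F (𝓝 z0)) (tw : Tendsto w F (𝓝 w0))
    (tx : ∀ i, Tendsto (fun e => x e i) F (𝓝 (x0 i))) (ty : ∀ i, Tendsto (fun e => y e i) F (𝓝 (y0 i)))
    (hz : |z0.re| ≤ l / 2) (hw : |w0.re| < 4 * l) (hxe : ∀ᶠ e in F, Rws (x e)) (hye : ∀ᶠ e in F, Rws (y e))
    (hx : Rws x0) (hy : Rws y0) :
    Tendsto (fun e => nhG (z e) (x e) (y e) (w e)) F (𝓝 (nhG z0 x0 y0 w0)) := by
  unfold nhG
  exact (sG_tendsto tz tw tx ty hz hxe hye hx hy).div (PN_row_tendsto tz tw tx ty hz hw hx hy)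
    (PN_row_ne hz hw hx hy)

end

theorem Hgt.cons' {x0 : ℂ} {x : Fin m → ℂ} (h : ∀ i, x0.im ≠ (x i).im) (hx : Hgt x) :
    Hgt (Fin.cons x0 x : Fin (m + 1) → ℂ) := by
  intro i j
  refine Fin.cases ?_ (fun i => ?_) i <;> refine Fin.cases ?_ (fun j => ?_) j
  · intro h
    exact absurd rfl h
  · intro _
    rw [Fin.cons_zero, Fin.cons_succ]
    exact h j
  · intro _
    rw [Fin.cons_zero, Fin.cons_succ]
    exact (h i).symm
  · intro hij
    rw [Fin.cons_succ, Fin.cons_succ]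
    exact hx i j fun e => hij (by rw [e])

/-- near rows of different heights: the state sum is the trigonometric polynomial -/
theorem gN_F {z : ℂ} {x : Fin m → ℂ} {y : Fin M → ℂ} (hz : |z.re| ≤ l / 2) (hx : Rws x) (hy : Rws y) (ix : Hgt x)
    (iy : Hgt y) {F : ℂ → ℂ} (cF : Continuous F)
    (hF : ∀ x0, NPl x x0 → SS z (Fin.cons x0 x : Fin (m + 1) → ℂ) y = F x0) {s : ℂ} (hs : |s.re| ≤ l / 2) :
    gN z x y s = F s := by
  have t1 : Tendsto (fun e : ℝ => gN z x y (s + e * I)) (𝓝[>] (0 : ℝ)) (𝓝 (gN z x y s)) :=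
    gN_tendsto (x := fun _ => x) (y := fun _ => y) tendsto_const_nhds (up_tendsto s) (fun i => tendsto_const_nhds)
      (fun i => tendsto_const_nhds) hz (Eventually.of_forall fun e => by simpa using hs) hs
      (Eventually.of_forall fun _ => hx) (Eventually.of_forall fun _ => hy) hx hy
  refine tendsto_nhds_unique (t1.congr' ?_) ((cF.tendsto s).comp (up_tendsto s))
  filter_upwards [hgt_ev x s] with e he
  have hs' : |(s + e * I).re| ≤ l / 2 := by simpa using hs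
  rw [Function.comp_apply, ← hF _ (npl_of_im he)]
  unfold gN
  rw [nzU_nh (mem_LS hz) (Rws.cons hs' hx) hy (Hgt.cons' he ix) iy]
  unfold PBS.nh
  exact div_mul_cancel₀ _ (PN_row_ne hz (by (clear * - hs'; linarith [lpos])) hx hy)

/-- near rows of different heights -/
theorem sG_SS {z : ℂ} {x : Fin m → ℂ} {y : Fin M → ℂ} (hz : |z.re| ≤ l / 2) (hx : Rws x) (hy : Rws y) (ix : Hgt x)
    (iy : Hgt y) {x0 : ℂ} (h0 : NPl x x0) : sG z x y x0 = SS z (Fin.cons x0 x : Fin (m + 1) → ℂ) y := by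
  obtain ⟨F, hF, e⟩ := SS_row_tq z y (x := x) ix
  rw [e x0 h0]
  exact FG_of_tq hF (fun r => gN_F hz hx hy ix iy hF.continuous e (nd_re _ r)) x0

/-- **different heights** -/
theorem nhG_nh {z : ℂ} {x : Fin m → ℂ} {y : Fin M → ℂ} (hz : |z.re| ≤ l / 2) (hx : Rws x) (hy : Rws y) (ix : Hgt x)
    (iy : Hgt y) {x0 : ℂ} (h0 : NPl x x0) : nhG z x y x0 = nh z (Fin.cons x0 x : Fin (m + 1) → ℂ) y := by
  unfold nhG PBS.nh
  rw [sG_SS hz hx hy ix iy h0]

/-- a relation for all rows from rows of different heights -/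
theorem of_pull {z w : ℂ} {x : Fin m → ℂ} {y : Fin M → ℂ} (hz : |z.re| ≤ l / 2) (hw : |w.re| < 4 * l) (hx : Rws x)
    (hy : Rws y) {G : (Fin m → ℂ) → (Fin M → ℂ) → ℂ}
    (tG : Tendsto (fun e => G (pull x e) (pull y e)) (𝓝[>] (0 : ℝ)) (𝓝 (G x y)))
    (h : ∀ᶠ e in 𝓝[>] (0 : ℝ), nhG z (pull x e) (pull y e) w = G (pull x e) (pull y e)) :
    nhG z x y w = G x y := by
  have t1 : Tendsto (fun e => nhG z (pull x e) (pull y e) w) (𝓝[>] (0 : ℝ)) (𝓝 (nhG z x y w)) :=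
    nhG_tendsto tendsto_const_nhds tendsto_const_nhds (pull_tendsto x) (pull_tendsto y) hz hw
      (Eventually.of_forall fun e => pull_Rws hx e) (Eventually.of_forall fun e => pull_Rws hy e) hx hy
  exact tendsto_nhds_unique (t1.congr' h) tG

/-- **the near row** -/
theorem nhG_near {z : ℂ} {x : Fin m → ℂ} {y : Fin M → ℂ} (hz : |z.re| ≤ l / 2) (hx : Rws x) (hy : Rws y) {x0 : ℂ}
    (h0 : |x0.re| ≤ l / 2) : nhG z x y x0 = nzU z (Fin.cons x0 x : Fin (m + 1) → ℂ) y := by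
  have h4 : |x0.re| < 4 * l := by linarith [lpos]
  refine of_pull (G := fun x y => nzU z (Fin.cons x0 x : Fin (m + 1) → ℂ) y) hz h4 hx hy ?_ ?_
  · exact nzU_tendsto tendsto_const_nhds (cons_tendsto tendsto_const_nhds (pull_tendsto x)) (pull_tendsto y)
      (Eventually.of_forall fun e => Rws.cons h0 (pull_Rws hx e)) (Eventually.of_forall fun e => pull_Rws hy e)
      (Rws.cons h0 hx) hy (mem_LS hz)
  · filter_upwards [pull_Hgt x, pull_Hgt y] with e ex ey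
    obtain ⟨F, hF, eF⟩ := SS_row_tq z (pull y e) (x := pull x e) ex
    have rx := pull_Rws hx e
    have ry := pull_Rws hy e
    have h1 : sG z (pull x e) (pull y e) x0 = F x0 :=
      FG_of_tq hF (fun r => gN_F hz rx ry ex ey hF.continuous eF (nd_re _ r)) x0
    show sG z (pull x e) (pull y e) x0 / PN z (Fin.cons x0 (pull x e) : Fin (m + 1) → ℂ) (pull y e) = _
    rw [h1, ← gN_F hz rx ry ex ey hF.continuous eF h0]
    unfold gN
    exact mul_div_cancel_right₀ _ (PN_row_ne hz h4 rx ry)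

theorem npl_far {x0 : ℂ} {x : Fin m → ℂ} (h1 : 8 / 5 * l < x0.re) (h2 : x0.re < 4 * l) (hx : Rws x) : NPl x x0 := by
  have hl := lpos
  intro i
  obtain ⟨h3, h4⟩ := abs_le.1 (hx i)
  have e0 : (x0 - x i).re = x0.re - (x i).re := rfl
  refine ⟨PBS.sin_ne_of_bd ?_ ?_, PBS.sin_ne_of_bd ?_ ?_, PBS.sin_ne_of_bd ?_ ?_⟩
  · rw [e0]; (clear * - h1 hl h4; linarith)
  · rw [e0]; (clear * - h2 hl h3; linarith)
  · rw [add_re, e0, ofReal_re]; (clear * - h1 hl h4; linarith)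
  · rw [add_re, e0, ofReal_re]; (clear * - h2 hl h3; linarith)
  · rw [sub_re, e0, ofReal_re]; (clear * - h1 hl h4; linarith)
  · rw [sub_re, e0, ofReal_re]; linarith

/-- **the far row** -/
theorem nhG_far {z : ℂ} {x : Fin m → ℂ} {y : Fin M → ℂ} (hz : |z.re| ≤ l / 2) (hx : Rws x) (hy : Rws y) {x0 : ℂ}
    (h0 : x0 ∈ FS) : nhG z x y x0 = nzF z x0 x y := by
  have hl := lpos
  obtain ⟨h1, h2⟩ := h0
  have h4 : |x0.re| < 4 * l := by
    rw [abs_lt]
    constructor <;> (clear * - hl h1 h2; linarith)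
  have hzw : |(z - x0).re| < 5 * l := by
    have := far_re' h4 hz
    clear * - hl this
    linarith
  refine of_pull (G := fun x y => nzF z x0 x y) hz h4 hx hy ?_ ?_
  · exact nzF_tendsto tendsto_const_nhds tendsto_const_nhds (pull_tendsto x) (pull_tendsto y)
      (Eventually.of_forall fun e => pull_Rws hx e) (Eventually.of_forall fun e => pull_Rws hy e) hx hy
      (mem_LS hz) ⟨h1, h2⟩ hzw
  · filter_upwards [pull_Hgt x, pull_Hgt y] with e ex ey
    have rx := pull_Rws hx e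
    have ry := pull_Rws hy e
    rw [nhG_nh hz rx ry ex ey (npl_far h1 (by (clear * - hl h2; linarith)) rx), nzF_nh (mem_LS hz) ⟨h1, h2⟩ rx ry ex ey]

/-- **reflection** -/
theorem nhG_neg {z : ℂ} {x : Fin m → ℂ} {y : Fin M → ℂ} (hz : |z.re| ≤ l / 2) (hx : Rws x) (hy : Rws y) {x0 : ℂ}
    (h0 : |x0.re| < 4 * l) : nhG (-z) (-x) (-y) (-x0) = nhG z x y x0 := by
  have hz' : |(-z).re| ≤ l / 2 := by rwa [neg_re, abs_neg]
  have hw' : |(-x0).re| < 4 * l := by rwa [neg_re, abs_neg]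
  set w : ℝ → ℂ := fun e => x0 + e * I with hw
  have tw : Tendsto w (𝓝[>] (0 : ℝ)) (𝓝 x0) := up_tendsto x0
  have key : ∀ {x : Fin m → ℂ} {y : Fin M → ℂ}, Rws x → Rws y → Hgt x → Hgt y →
      nhG (-z) (-x) (-y) (-x0) = nhG z x y x0 := by
    intro x y hx hy ix iy
    have t1 : Tendsto (fun e : ℝ => nhG (-z) (-x) (-y) (-w e)) (𝓝[>] (0 : ℝ)) (𝓝 (nhG (-z) (-x) (-y) (-x0))) :=
      nhG_tendsto (x := fun _ => -x) (y := fun _ => -y) tendsto_const_nhds tw.neg (fun i => tendsto_const_nhds)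
        (fun i => tendsto_const_nhds) hz' hw' (Eventually.of_forall fun _ => Rws.neg hx)
        (Eventually.of_forall fun _ => Rws.neg hy) (Rws.neg hx) (Rws.neg hy)
    have t2 : Tendsto (fun e : ℝ => nhG z x y (w e)) (𝓝[>] (0 : ℝ)) (𝓝 (nhG z x y x0)) :=
      nhG_tendsto (x := fun _ => x) (y := fun _ => y) tendsto_const_nhds tw (fun i => tendsto_const_nhds)
        (fun i => tendsto_const_nhds) hz h0 (Eventually.of_forall fun _ => hx)
        (Eventually.of_forall fun _ => hy) hx hy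
    refine tendsto_nhds_unique (t1.congr' ?_) t2
    filter_upwards [hgt_ev x x0] with e he
    have e1 : (Fin.cons (-w e) (-x) : Fin (m + 1) → ℂ) = -(Fin.cons (w e) x : Fin (m + 1) → ℂ) :=
      (neg_cons (w e) x).symm
    rw [nhG_nh hz' (Rws.neg hx) (Rws.neg hy) (Hgt.neg ix) (Hgt.neg iy) (npl_of_im fun i => by
      rw [neg_im, Pi.neg_apply, neg_im]
      exact fun h' => he i (neg_injective h')), nhG_nh hz hx hy ix iy (npl_of_im he), e1, PBS.nh_neg]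
  have t1 : Tendsto (fun e => nhG (-z) (-pull x e) (-pull y e) (-x0)) (𝓝[>] (0 : ℝ))
      (𝓝 (nhG (-z) (-x) (-y) (-x0))) :=
    nhG_tendsto (x := fun e => -pull x e) (y := fun e => -pull y e) tendsto_const_nhds tendsto_const_nhds
      (fun i => (pull_tendsto x i).neg) (fun i => (pull_tendsto y i).neg) hz' hw'
      (Eventually.of_forall fun e => Rws.neg (pull_Rws hx e))
      (Eventually.of_forall fun e => Rws.neg (pull_Rws hy e)) (Rws.neg hx) (Rws.neg hy)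
  refine (of_pull (G := fun x y => nhG (-z) (-x) (-y) (-x0)) hz h0 hx hy t1 ?_).symm
  filter_upwards [pull_Hgt x, pull_Hgt y] with e ex ey
  exact (key (pull_Rws hx e) (pull_Rws hy e) ex ey).symm

/-- **analyticity in the row** -/
theorem nhG_diff {z : ℂ} {x : Fin m → ℂ} {y : Fin M → ℂ} (hz : |z.re| ≤ l / 2) (hx : Rws x) (hy : Rws y) {x0 : ℂ}
    (h0 : |x0.re| < 4 * l) : DifferentiableAt ℂ (nhG z x y) x0 := by
  unfold nhG
  exact ((sG_tq z x y).differentiable x0).div (PN_row_diff hz h0 hx hy) (PN_row_ne hz h0 hx hy)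

/-! ### the field `poly` -/

/-- `rh` at the same height -/
theorem rh_ratio : ∃ B : ℝ, 1 ≤ B ∧ ∀ u v : ℂ, |u.im| = |v.im| → |u.re| ≤ (5 - 1 / 4) * l → |v.re| ≤ (5 - 1 / 4) * l →
    ‖rh u‖ ≤ B * ‖rh v‖ := by
  have hl := lpos
  have hs := PBR.sδ_pos (δ := 1 / 4) (by norm_num) (by norm_num)
  set c : ℝ := PBR.sδ (1 / 4) with hc
  have hA : 0 < 4 / c ^ 4 := by positivity
  have hB : 0 < 4 * c ^ 7 := by positivity
  refine ⟨max 1 (4 / c ^ 4 / (4 * c ^ 7)), le_max_left _ _, fun u v huv hu hv => ?_⟩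
  have h1 := rh_upper (δ := 1 / 4) (w := u) (by norm_num) (by norm_num) (by
    refine hu.trans ?_
    clear * - hl
    nlinarith)
  have h2 := rh_lower (δ := 1 / 4) (w := v) (by norm_num) (by norm_num) hv
  rw [huv] at h1
  have hE := Real.exp_pos |v.im|
  calc ‖rh u‖ ≤ 4 / c ^ 4 * Real.exp |v.im| := h1
    _ = 4 / c ^ 4 / (4 * c ^ 7) * (4 * c ^ 7 * Real.exp |v.im|) := by field_simp
    _ ≤ max 1 (4 / c ^ 4 / (4 * c ^ 7)) * ‖rh v‖ :=
        mul_le_mul (le_max_right _ _) h2 (by positivity) (le_trans zero_le_one (le_max_left _ _))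

theorem ratio_aux {a p r s t r' s' t' B E : ℝ} {m M : ℕ} (ha : 0 ≤ a) (hp : 0 ≤ p) (hr : 0 ≤ r) (hs : 0 ≤ s)
    (ht : 0 ≤ t) (_ : 0 ≤ r') (hs' : 0 ≤ s') (ht' : 0 ≤ t') (hB : 0 ≤ B) (h1 : r' ≤ B * r) (h2 : s' ≤ B ^ m * s)
    (h3 : t' ≤ B ^ M * t) (hE : B ^ (m + M + 1) ≤ E) : a * r' * (s' * t') * p ≤ E * (a * r * (s * t) * p) := by
  calc a * r' * (s' * t') * p ≤ a * (B * r) * ((B ^ m * s) * (B ^ M * t)) * p := by (clear * - h1 ha h2 h3 ht' hB hs hs' hr hp; gcongr)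
    _ = B ^ (m + M + 1) * (a * r * (s * t) * p) := by ring
    _ ≤ _ := mul_le_mul_of_nonneg_right hE (by positivity)

/-- **the field `poly`** for one row of the first group -/
theorem nhG_poly : ∃ B : ℝ, 4 ≤ B ∧ ∀ (m M : ℕ) (z : ℂ) (x : Fin m → ℂ) (y : Fin M → ℂ) (Cp : ℝ) (N : ℕ),
    |z.re| ≤ l / 2 → Rws x → Rws y → B * (m + M + 1) ≤ Cp * N →
    ∃ (P : ℂ[X]) (W : ℂ → ℂ) (D : ℕ), (D : ℝ) ≤ Cp * N ∧ P.natDegree ≤ D ∧
    (∀ x0 : ℂ, |x0.re| < 4 * ll → DifferentiableAt ℂ W x0 ∧ W x0 ≠ 0) ∧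
    (∀ x0 : ℂ, |x0.re| < 4 * ll → nhG z x y x0 * W x0 = P.eval (cexp (2 * x0 * I))) ∧
    ∀ x0 x' : ℂ, x0.im = x'.im → |x'.re| ≤ 3 * ll + 1 / 5 * ll → |x0.re| ≤ 3 * ll + 1 / 5 * ll →
      ‖W x'‖ ≤ Real.exp (Cp * N) * ‖W x0‖ := by
  obtain ⟨B, hB, hr⟩ := rh_ratio
  have hl := lpos
  refine ⟨max 4 (2 * B), le_max_left _ _, fun m M z x y Cp N hz hx hy hN => ?_⟩
  have hmM : (0 : ℝ) ≤ (m : ℝ) + M := by positivity
  have hll : ll = l := rfl
  have hD : (((2 * kD m M : ℕ) : ℕ) : ℝ) ≤ Cp * N := by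
    refine le_trans ?_ hN
    unfold kD
    push_cast
    clear * -
    nlinarith [le_max_left (4 : ℝ) (2 * B)]
  refine TQ.field (N := fun x0 => PN z (Fin.cons x0 x : Fin (m + 1) → ℂ) y) (sG_tq z x y) hD
    (fun x0 h0 => ⟨PN_row_diff hz h0 hx hy, PN_row_ne hz h0 hx hy⟩) (fun x0 h0 => rfl) ?_
  intro x0 x' hi h1 h2
  rw [hll] at h1 h2
  have hk : ∀ v : ℂ, |v.re| ≤ l / 2 → ‖rh (x' - v) ^ 2‖ ≤ B ^ 2 * ‖rh (x0 - v) ^ 2‖ := by
    intro v hv
    obtain ⟨h3, h4⟩ := abs_le.1 hv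
    obtain ⟨h5, h6⟩ := abs_le.1 h1
    obtain ⟨h7, h8⟩ := abs_le.1 h2
    rw [norm_pow, norm_pow, ← mul_pow]
    refine pow_le_pow_left₀ (norm_nonneg _) (hr _ _ (by rw [sub_im, sub_im, hi]) ?_ ?_) 2
    · rw [sub_re, abs_le]; constructor <;> (clear * - hl h4 h5 h3 h6; linarith)
    · rw [sub_re, abs_le]; constructor <;> (clear * - hl h4 h7 h3 h8; linarith)
  have hprod : ∀ {k : ℕ} (u : Fin k → ℂ), Rws u → ‖∏ i, rh (x' - u i) ^ 2‖ ≤ (B ^ 2) ^ k * ‖∏ i, rh (x0 - u i) ^ 2‖ := by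
    intro k u hu
    rw [norm_prod, norm_prod]
    calc ∏ i, ‖rh (x' - u i) ^ 2‖ ≤ ∏ i, (B ^ 2 * ‖rh (x0 - u i) ^ 2‖) :=
          Finset.prod_le_prod (fun i _ => norm_nonneg _) fun i _ => hk _ (hu i)
      _ = _ := by rw [Finset.prod_mul_distrib, Finset.prod_const, Finset.card_univ, Fintype.card_fin]
  have hz2 : ‖rh (z - x') ^ 2‖ ≤ B ^ 2 * ‖rh (z - x0) ^ 2‖ := by
    have := hk z hz
    rwa [← neg_sub z x', ← neg_sub z x0, rh_neg, rh_neg] at this
  have h3 := hprod x hx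
  have h4 := hprod y hy
  have hP := norm_nonneg (PN z x y)
  show ‖PN z (Fin.cons x' x : Fin (m + 1) → ℂ) y‖ ≤ Real.exp (Cp * N) * ‖PN z (Fin.cons x0 x : Fin (m + 1) → ℂ) y‖
  rw [PN_row, PN_row]
  simp only [norm_mul]
  have hBp : (1 : ℝ) ≤ B ^ 2 := one_le_pow₀ hB
  have hexp : (B ^ 2) ^ (m + M + 1) ≤ Real.exp (Cp * N) := by
    have h5 : Real.exp (2 * B * (m + M + 1)) ≤ Real.exp (Cp * N) := by
      refine Real.exp_le_exp.2 (le_trans ?_ hN)
      exact mul_le_mul_of_nonneg_right (le_max_right _ _) (by linarith)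
    refine le_trans ?_ h5
    have h6 : B ≤ Real.exp B := by linarith [Real.add_one_le_exp B]
    calc (B ^ 2) ^ (m + M + 1) ≤ (Real.exp B ^ 2) ^ (m + M + 1) := by (clear * - hB h6; gcongr)
      _ = Real.exp (2 * B * (m + M + 1)) := by
          rw [← pow_mul, ← Real.exp_nat_mul]
          congr 1
          push_cast
          ring
  exact ratio_aux (norm_nonneg _) (norm_nonneg _) (norm_nonneg _) (norm_nonneg _) (norm_nonneg _) (norm_nonneg _)
    (norm_nonneg _) (norm_nonneg _) (by linarith) hz2 h3 h4 hexp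

end Pool.Agent.PLX

end
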