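import Pool.Agent.PLX.CrossN
import Pool.Agent.PLX.KSixF
import Pool.Agent.PLX.MinU
import Pool.Agent.PLX.NhG

/-!
# PLX: (K) from the bounds of the row functions (helper91)

`Cont b m P Q` : `P` = rows of the group of the moved row, `Q` = rows of the other group, one of the contents of `CtOk`
(`P`, `Q` in either order).  No row of the content is at a height, no near window (25):

* `MinB b` (K2): `‖JU z P.get Q.get w‖ ≤ m^C`, `|Re w| ≤ 7 l / 10`, `|Im w| ≤ 13/20 log m`;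
* `FarB b` (K3): the states `0`, `+` of the far row are `≤ m^C`, `23 l / 10 ≤ Re x ≤ 53 l / 20`, `|Im x| ≤ 13/20 log m`;
* `FarS b` (K4): they are `≤ m^{-E}` for every `E`, `|Im x| ≤ log m / 50`;
* **`kRows_of : 1 ≤ b → MinB b → FarB b → FarS b → KRows nL b`**.
-/

set_option autoImplicit false

noncomputable section

open Complex Filter Topology Polynomial

namespace Pool.Agent.PLX

open NUP1 (l lpos)
open PBX (Rws)
open Pool.Agent.PB
open Pool.Agent.RX (YS YS_open)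

/-- the rows `P` of the group of the moved row and the rows `Q` of the other group -/
inductive Cont (b m : ℕ) : List ℂ → List ℂ → Prop
  | fst {m1 m2 : ℕ} {EX EY : List ℂ} (h : CtOk b m m1 m2 EX EY) : Cont b m (EX ++ zr m1) (EY ++ zr m2)
  | snd {m1 m2 : ℕ} {EX EY : List ℂ} (h : CtOk b m m1 m2 EX EY) : Cont b m (EY ++ zr m2) (EX ++ zr m1)

/-- **(K2)** -/
def MinB (b : ℕ) : Prop := ∃ (C : ℝ) (m0 : ℕ), ∀ m ≥ m0, ∀ P Q : List ℂ, Cont b m P Q → ∀ z : ℂ, Ax z →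
  ∀ w : ℂ, |w.re| ≤ 7 / 10 * ll → |w.im| ≤ 13 / 20 * Real.log m → ‖JU z P.get Q.get w‖ ≤ (m : ℝ) ^ C

/-- **(K3)** -/
def FarB (b : ℕ) : Prop := ∃ (C : ℝ) (m0 : ℕ), ∀ m ≥ m0, ∀ P Q : List ℂ, Cont b m P Q → ∀ z : ℂ, Ax z →
  ∀ e : SignType, e ≠ .neg → ∀ x : ℂ, 23 / 10 * ll ≤ x.re → x.re ≤ 53 / 20 * ll → |x.im| ≤ 13 / 20 * Real.log m →
    ‖cF e z x P.get Q.get‖ ≤ (m : ℝ) ^ C

/-- **(K4)** -/
def FarS (b : ℕ) : Prop := ∀ E : ℝ, ∃ m0 : ℕ, ∀ m ≥ m0, ∀ P Q : List ℂ, Cont b m P Q → ∀ z : ℂ, Ax z →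
  ∀ e : SignType, e ≠ .neg → ∀ x : ℂ, 23 / 10 * ll ≤ x.re → x.re ≤ 53 / 20 * ll → |x.im| ≤ 1 / 50 * Real.log m →
    ‖cF e z x P.get Q.get‖ ≤ (m : ℝ) ^ (-E)

/-! ### contents -/

theorem nr_E {E : List ℂ} (h : ∀ x ∈ E, Ax x) (k : ℕ) : Nr (E ++ zr k) := (Nr_ax h).append (Nr_zr k)

theorem Cont.nr {b m : ℕ} {P Q : List ℂ} (h : Cont b m P Q) : Nr P ∧ Nr Q := by
  cases h with
  | fst h => exact ⟨nr_E h.ax _, nr_E h.ay _⟩
  | snd h => exact ⟨nr_E h.ay _, nr_E h.ax _⟩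

theorem zr_neg (k : ℕ) : (zr k).map Neg.neg = zr k := by
  unfold zr
  rw [List.map_replicate, neg_zero]

theorem ax_neg {x : ℂ} (h : Ax x) : Ax (-x) := ⟨by rw [neg_re, h.1, neg_zero], by rw [neg_im, abs_neg]; exact h.2⟩

theorem CtOk.neg {b m m1 m2 : ℕ} {EX EY : List ℂ} (h : CtOk b m m1 m2 EX EY) :
    CtOk b m m1 m2 (EX.map Neg.neg) (EY.map Neg.neg) := by
  refine ⟨h.le1, h.ge1, h.le2, h.ge2, by simpa using h.len, fun x hx => ?_, fun x hx => ?_, by simpa using h.lo,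
    by simpa using h.hi⟩
  · obtain ⟨y, hy, rfl⟩ := List.mem_map.1 hx
    exact ax_neg (h.ax y hy)
  · obtain ⟨y, hy, rfl⟩ := List.mem_map.1 hx
    exact ax_neg (h.ay y hy)

theorem Cont.neg {b m : ℕ} {P Q : List ℂ} (h : Cont b m P Q) : Cont b m (P.map Neg.neg) (Q.map Neg.neg) := by
  cases h with
  | fst h =>
    rw [List.map_append, List.map_append, zr_neg, zr_neg]
    exact Cont.fst h.neg
  | snd h =>
    rw [List.map_append, List.map_append, zr_neg, zr_neg]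
    exact Cont.snd h.neg

/-- sizes -/
theorem Cont.size {b m : ℕ} (hb : 1 ≤ b) (hm : 4 ≤ m) {P Q : List ℂ} (h : Cont b m P Q) :
    m ≤ 2 * P.length ∧ P.length + Q.length + 1 ≤ (4 * b + 5) * m := by
  have key : ∀ {m1 m2 : ℕ} {EX EY : List ℂ}, CtOk b m m1 m2 EX EY → m ≤ 2 * m1 ∧ m ≤ 2 * m2 ∧
      EX.length + m1 + (EY.length + m2) + 1 ≤ (4 * b + 5) * m := by
    intro m1 m2 EX EY h
    have h1 := h.le1
    have h2 := h.ge1
    have h3 := h.le2
    have h4 := h.ge2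
    have h5 := h.len
    have h6 : b * m = (b - 1) * m + m := by
      obtain ⟨c, rfl⟩ := Nat.exists_eq_add_of_le hb
      rw [show 1 + c - 1 = c by omega]
      ring
    have h7 : (b - 1) * 4 ≤ (b - 1) * m := Nat.mul_le_mul_left _ hm
    have h8 : b * 4 ≤ b * m := Nat.mul_le_mul_left _ hm
    refine ⟨by omega, by omega, ?_⟩
    have h9 : (4 * b + 5) * m = 4 * (b * m) + 5 * m := by ring
    rw [h9]
    omega
  cases h with
  | fst h =>
    obtain ⟨h1, h2, h3⟩ := key h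
    simp only [zr, List.length_append, List.length_replicate]
    exact ⟨by omega, h3⟩
  | snd h =>
    obtain ⟨h1, h2, h3⟩ := key h
    simp only [zr, List.length_append, List.length_replicate]
    exact ⟨by omega, by omega⟩

/-- a function of a negated list -/
theorem get_neg {α : Type*} (G : ∀ k : ℕ, (Fin k → ℂ) → α) (P : List ℂ) :
    G (P.map Neg.neg).length (P.map Neg.neg).get = G P.length (-P.get) := by
  have key : ∀ (k : ℕ) (h : k = P.length) (f : Fin k → ℂ), (∀ i, f i = -P.get (Fin.cast h i)) →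
      G k f = G P.length (-P.get) := by
    intro k h f hf
    subst h
    congr 1
    funext i
    rw [hf i]
    rfl
  refine key _ (List.length_map _) _ fun i => ?_
  simp

theorem JU_get_neg (z w : ℂ) (P Q : List ℂ) :
    JU z (P.map Neg.neg).get (Q.map Neg.neg).get w = JU z (-P.get) (-Q.get) w := by
  rw [get_neg (fun k f => JU z f (Q.map Neg.neg).get w) P]
  exact get_neg (fun k f => JU z (-P.get) f w) Q

theorem cF_get_neg (e : SignType) (z w : ℂ) (P Q : List ℂ) :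
    cF e z w (P.map Neg.neg).get (Q.map Neg.neg).get = cF e z w (-P.get) (-Q.get) := by
  rw [get_neg (fun k f => cF e z w f (Q.map Neg.neg).get) P]
  exact get_neg (fun k f => cF e z w (-P.get) f) Q

theorem JU_equiv (z w : ℂ) {m M m' M' : ℕ} (x : Fin m → ℂ) (y : Fin M → ℂ) (e : Fin m' ≃ Fin m)
    (f : Fin M' ≃ Fin M) : JU z (fun i => x (e i)) (fun i => y (f i)) w = JU z x y w := by
  obtain rfl : m' = m := by simpa using Fintype.card_congr e
  obtain rfl : M' = M := by simpa using Fintype.card_congr f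
  exact JU_perm z x y e f w

/-- **the value at the far point** -/
theorem JU_zero {z : ℂ} (hz : |z.re| < 7 / 10 * l) {k : ℕ} (hk : 1 ≤ k) {E Q : List ℂ} (hE : ∀ x ∈ E, Ax x)
    (hQ : Nr Q) : JU z (E ++ zr k).get Q.get 0 = nL z (red k (aF :: E)) Q := by
  obtain ⟨j, rfl⟩ := Nat.exists_eq_add_of_le' hk
  have hp : (E ++ zr (j + 1)).Perm (0 :: (E ++ zr j)) := by
    unfold zr
    rw [List.replicate_succ]
    exact List.perm_middle
  obtain ⟨e, he⟩ := perm_equiv hp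
  have h1 : JU z (0 :: (E ++ zr j)).get Q.get 0 = JU z (E ++ zr (j + 1)).get Q.get 0 := by
    rw [show (0 :: (E ++ zr j)).get = fun i => (E ++ zr (j + 1)).get (e i) from funext he]
    exact JU_equiv z 0 _ _ e (Equiv.refl _)
  rw [← h1, get_cons, red_far, red_near _ hE, Nat.add_sub_cancel]
  exact JU_self hz (by simpa using (half_pos lpos).le) (nr_E hE j).get hQ.get

/-! ### the hypotheses of the K-terms -/

/-- `WideF` for one content -/
theorem wide_of {b m : ℕ} {P Q : List ℂ} {z : ℂ} {C E Cp : ℝ} (hb : 1 ≤ b) (hm : 4 ≤ m) (hPQ : Cont b m P Q)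
    (hz : Ax z) (hC : 0 ≤ C) (hlog : 1 / 30 * Real.log m + 1 ≤ 13 / 20 * Real.log m)
    (hpoly : ∃ (P' : ℂ[X]) (W : ℂ → ℂ) (D : ℕ), (D : ℝ) ≤ Cp * m ∧ P'.natDegree ≤ D ∧
      (∀ x0 : ℂ, |x0.re| < 4 * ll → DifferentiableAt ℂ W x0 ∧ W x0 ≠ 0) ∧
      (∀ x0 : ℂ, |x0.re| < 4 * ll → nhG z P.get Q.get x0 * W x0 = P'.eval (cexp (2 * x0 * I))) ∧
      ∀ x0 x' : ℂ, x0.im = x'.im → |x'.re| ≤ 3 * ll + 1 / 5 * ll → |x0.re| ≤ 3 * ll + 1 / 5 * ll →
        ‖W x'‖ ≤ Real.exp (Cp * m) * ‖W x0‖)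
    (hmin : ∀ w : ℂ, |w.re| ≤ 7 / 10 * ll → |w.im| ≤ 13 / 20 * Real.log m → ‖JU z P.get Q.get w‖ ≤ (m : ℝ) ^ C)
    (hmin' : ∀ w : ℂ, |w.re| ≤ 7 / 10 * ll → |w.im| ≤ 13 / 20 * Real.log m →
      ‖JU (-z) (P.map Neg.neg).get (Q.map Neg.neg).get w‖ ≤ (m : ℝ) ^ C)
    (hfar : ∀ e : SignType, e ≠ .neg → ∀ x : ℂ, 23 / 10 * ll ≤ x.re → x.re ≤ 53 / 20 * ll →
      |x.im| ≤ 13 / 20 * Real.log m → ‖cF e z x P.get Q.get‖ ≤ (m : ℝ) ^ C)
    (hfar' : ∀ e : SignType, e ≠ .neg → ∀ x : ℂ, 23 / 10 * ll ≤ x.re → x.re ≤ 53 / 20 * ll →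
      |x.im| ≤ 13 / 20 * Real.log m → ‖cF e (-z) x (P.map Neg.neg).get (Q.map Neg.neg).get‖ ≤ (m : ℝ) ^ C)
    (hfs : ∀ e : SignType, e ≠ .neg → ∀ x : ℂ, 23 / 10 * ll ≤ x.re → x.re ≤ 53 / 20 * ll →
      |x.im| ≤ 1 / 50 * Real.log m → ‖cF e z x P.get Q.get‖ ≤ (m : ℝ) ^ (-(E + 1)))
    (hfs' : ∀ e : SignType, e ≠ .neg → ∀ x : ℂ, 23 / 10 * ll ≤ x.re → x.re ≤ 53 / 20 * ll →
      |x.im| ≤ 1 / 50 * Real.log m →
        ‖cF e (-z) x (P.map Neg.neg).get (Q.map Neg.neg).get‖ ≤ (m : ℝ) ^ (-(E + 1))) :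
    WideF (C + 1) Cp E m (nhG z P.get Q.get) (JU z P.get Q.get) (JV z P.get Q.get) := by
  have hl := lpos
  have hll : ll = l := rfl
  obtain ⟨nP, nQ⟩ := hPQ.nr
  have rP := nP.get
  have rQ := nQ.get
  have hz1 : |z.re| ≤ l / 2 := by rw [hz.1, abs_zero]; linarith
  have hz2 : |z.re| < 7 / 10 * l := by rw [hz.1, abs_zero]; (clear * - hl; linarith)
  have hz1' : |(-z).re| ≤ l / 2 := by rwa [neg_re, abs_neg]
  have hz2' : |(-z).re| < 7 / 10 * l := by rwa [neg_re, abs_neg]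
  have hmr : (4 : ℝ) ≤ m := by exact_mod_cast hm
  have hm0 : (0 : ℝ) < m := by (clear * - hmr; linarith)
  have hL : 0 ≤ Real.log m := Real.log_nonneg (by (clear * - hmr; linarith))
  have hCC : (m : ℝ) ^ (C + 1) = (m : ℝ) ^ C * m := by rw [Real.rpow_add hm0, Real.rpow_one]
  have hC1 : 1 ≤ (m : ℝ) ^ C := Real.one_le_rpow (by linarith) hC
  have hup : (m : ℝ) ^ C ≤ (m : ℝ) ^ (C + 1) := by
    rw [hCC]
    clear * - hmr hC1
    nlinarith
  have hE1 : (m : ℝ) ^ (-(E + 1)) = (m : ℝ) ^ (-E) * (m : ℝ)⁻¹ := by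
    rw [← Real.rpow_neg_one, ← Real.rpow_add hm0]
    congr 1
    ring
  have hEE : (m : ℝ) ^ (-(E + 1)) + (m : ℝ) ^ (-(E + 1)) ≤ (m : ℝ) ^ (-E) := by
    rw [hE1]
    have h0 : 0 ≤ (m : ℝ) ^ (-E) := by positivity
    have h1 : (m : ℝ)⁻¹ ≤ 1 / 2 := by
      rw [inv_le_comm₀ hm0 (by norm_num)]
      linarith
    clear * - h0 h1
    nlinarith
  -- the right far zone
  have hR : ∀ x : ℂ, 23 / 10 * ll ≤ x.re → x.re ≤ 53 / 20 * ll →
      ‖nhG z P.get Q.get x - JU z P.get Q.get (x - ((3 * ll : ℝ) : ℂ))‖ ≤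
        ‖cF .zero z x P.get Q.get‖ + ‖cF .pos z x P.get Q.get‖ := by
    intro x h1 h2
    rw [hll] at h1 h2
    have hx : x ∈ FS := ⟨by linarith, by linarith⟩
    have hw : |(x - ((3 * ll : ℝ) : ℂ)).re| < 13 / 10 * l := by
      rw [sub_re, ofReal_re, hll, abs_lt]
      constructor <;> (clear * - hl h1 h2; linarith)
    have e1 : x = (x - ((3 * ll : ℝ) : ℂ)) + 3 * (l : ℂ) := by
      rw [hll]
      push_cast
      ring
    have e2 : cF .neg z x P.get Q.get = JU z P.get Q.get (x - ((3 * ll : ℝ) : ℂ)) := by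
      conv_lhs => rw [e1]
      exact JU_far hz2 hw rP rQ
    rw [nhG_far hz1 rP rQ hx]
    unfold nzF
    rw [sum_sign, e2]
    calc _ = ‖cF .zero z x P.get Q.get + cF .pos z x P.get Q.get‖ := by
          congr 1
          ring
      _ ≤ _ := norm_add_le _ _
  -- the left far zone
  have hLf : ∀ x : ℂ, -(53 / 20 * ll) ≤ x.re → x.re ≤ -(23 / 10 * ll) →
      ‖nhG z P.get Q.get x - JV z P.get Q.get (x + ((3 * ll : ℝ) : ℂ))‖ ≤
        ‖cF .zero (-z) (-x) (P.map Neg.neg).get (Q.map Neg.neg).get‖ +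
          ‖cF .pos (-z) (-x) (P.map Neg.neg).get (Q.map Neg.neg).get‖ := by
    intro x h1 h2
    rw [hll] at h1 h2
    have h4 : |x.re| < 4 * l := by
      rw [abs_lt]
      constructor <;> (clear * - hl h1 h2; linarith)
    have hx : -x ∈ FS := ⟨by rw [neg_re]; (clear * - hl h2; linarith), by rw [neg_re]; (clear * - hl h1; linarith)⟩
    have hw : |(-(x + ((3 * ll : ℝ) : ℂ))).re| < 13 / 10 * l := by
      rw [neg_re, add_re, ofReal_re, hll, abs_lt]
      constructor <;> (clear * - hl h2 h1; linarith)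
    have e1 : -x = (-(x + ((3 * ll : ℝ) : ℂ))) + 3 * (l : ℂ) := by
      rw [hll]
      push_cast
      ring
    have e2 : cF .neg (-z) (-x) (-P.get) (-Q.get) = JV z P.get Q.get (x + ((3 * ll : ℝ) : ℂ)) := by
      conv_lhs => rw [e1]
      exact JU_far hz2' hw (Rws.neg rP) (Rws.neg rQ)
    rw [← nhG_neg hz1 rP rQ h4, nhG_far hz1' (Rws.neg rP) (Rws.neg rQ) hx, cF_get_neg, cF_get_neg]
    unfold nzF
    rw [sum_sign, e2]
    calc _ = ‖cF .zero (-z) (-x) (-P.get) (-Q.get) + cF .pos (-z) (-x) (-P.get) (-Q.get)‖ := by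
          congr 1
          ring
      _ ≤ _ := norm_add_le _ _
  have hJV : ∀ w : ℂ, |w.re| ≤ 7 / 10 * ll → |w.im| ≤ 13 / 20 * Real.log m →
      ‖JV z P.get Q.get w‖ ≤ (m : ℝ) ^ C := by
    intro w h1 h2
    have h3 := hmin' (-w) (by rwa [neg_re, abs_neg]) (by rwa [neg_im, abs_neg])
    rw [JU_get_neg] at h3
    exact h3
  have hneg : ∀ x : ℂ, -(53 / 20 * ll) ≤ x.re → x.re ≤ -(23 / 10 * ll) →
      23 / 10 * ll ≤ (-x).re ∧ (-x).re ≤ 53 / 20 * ll := fun x h1 h2 =>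
    ⟨by rw [neg_re]; (clear * - h2; linarith), by rw [neg_re]; (clear * - h1; linarith)⟩
  refine ⟨?_, fun x h1 h2 h3 => ?_, fun x h1 h2 h3 => ?_, fun x h1 h2 h3 => ?_,
    fun y h1 h2 => ?_, fun y h1 h2 => ?_, ?_⟩
  · obtain ⟨P', W, D, a1, a2, a3, a4, a5⟩ := hpoly
    have := ll_pos
    exact ⟨P', W, D, a1, a2, a3, a4, fun x x' i1 i2 i3 => a5 x x' i1 (by (clear * - hl hll i2; linarith)) (by (clear * - hl hll i3; linarith))⟩
  · rcases le_total 0 x.re with h0 | h0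
    · rw [abs_of_nonneg h0] at h1 h2
      have h4 := hR x h1 h2
      have h5 := hmin (x - ((3 * ll : ℝ) : ℂ)) (by
        rw [sub_re, ofReal_re, abs_le]
        have := ll_pos
        constructor <;> (clear * - h1 hl hll h2; linarith)) (by simpa using h3)
      have h6 := norm_sub_norm_le (nhG z P.get Q.get x) (JU z P.get Q.get (x - ((3 * ll : ℝ) : ℂ)))
      have h7 := hfar .zero (by decide) x h1 h2 h3
      have h8 := hfar .pos (by decide) x h1 h2 h3
      rw [hCC]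
      clear * - hmr h4 h5 h6 h7 h8 hC1
      nlinarith
    · rw [abs_of_nonpos h0] at h1 h2
      have h4 := hLf x (by (clear * - h2; linarith)) (by (clear * - h1; linarith))
      have h5 := hJV (x + ((3 * ll : ℝ) : ℂ)) (by
        rw [add_re, ofReal_re, abs_le]
        have := ll_pos
        constructor <;> (clear * - hl hll h2 h1; linarith)) (by simpa using h3)
      have h6 := norm_sub_norm_le (nhG z P.get Q.get x) (JV z P.get Q.get (x + ((3 * ll : ℝ) : ℂ)))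
      obtain ⟨i1, i2⟩ := hneg x (by (clear * - h2; linarith)) (by (clear * - h1; linarith))
      have i3 : |(-x).im| ≤ 13 / 20 * Real.log m := by rwa [neg_im, abs_neg]
      have h7 := hfar' .zero (by decide) (-x) i1 i2 i3
      have h8 := hfar' .pos (by decide) (-x) i1 i2 i3
      rw [hCC]
      clear * - hmr h4 h5 h6 h7 h8 hC1
      nlinarith
  · exact (hR x h1 h2).trans ((add_le_add (hfs .zero (by decide) x h1 h2 h3) (hfs .pos (by decide) x h1 h2 h3)).trans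
      hEE)
  · obtain ⟨i1, i2⟩ := hneg x h1 h2
    have i3 : |(-x).im| ≤ 1 / 50 * Real.log m := by rwa [neg_im, abs_neg]
    exact (hLf x h1 h2).trans ((add_le_add (hfs' .zero (by decide) (-x) i1 i2 i3)
      (hfs' .pos (by decide) (-x) i1 i2 i3)).trans hEE)
  · have hy : |y.re| < 13 / 10 * l := by
      rw [hll] at h1
      clear * - hl h1
      linarith
    exact ⟨(JU_diff hz2 rP rQ).differentiableAt (YS_open.mem_nhds hy),
      (JV_diff hz2 rP rQ).differentiableAt (YS_open.mem_nhds hy)⟩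
  · exact ⟨(hmin y h1 (h2.trans hlog)).trans hup, (hJV y h1 (h2.trans hlog)).trans hup⟩
  · obtain ⟨R, hR1, hR2⟩ := JU_zeros hz2 rP rQ
    refine ⟨Fin P.length, inferInstance, P.get, R, ?_, fun j => ?_, fun y h1 h2 => ⟨?_, hR2 y⟩⟩
    · rw [Fintype.card_fin]
      exact (hPQ.size hb hm).1
    · have hA : Ax (P.get j) := by
        have hmem := List.get_mem P j
        have hax : ∀ {E : List ℂ} {k : ℕ}, (∀ x ∈ E, Ax x) → ∀ x ∈ E ++ zr k, Ax x := by
          intro E k hE x hx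
          rcases List.mem_append.1 hx with hx | hx
          · exact hE x hx
          · rw [List.eq_of_mem_replicate hx]
            exact ⟨by simp, by simp⟩
        cases hPQ with
        | fst h => exact hax h.ax _ hmem
        | snd h => exact hax h.ay _ hmem
      have := ll_pos
      exact ⟨by rw [hA.1, abs_zero]; linarith, hA.2⟩
    · have hy : |y.re| < 13 / 10 * l := by
        rw [hll] at h1
        clear * - hl h1
        linarith
      exact hR1.differentiableAt ((isOpen_lt (continuous_abs.comp Complex.continuous_re)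
        continuous_const).mem_nhds hy)

/-! ### the theorem -/

/-- one term of (K) -/
theorem kt_of {b m K : ℕ} {ε : ℝ} {z : ℂ} (hz : Ax z)
    (hK : ∀ P Q : List ℂ, Cont b m P Q → Kt (8 / 3) K (fun x => Ax x ∨ x = aF) ε
      (fun x => if x = aF then JU z P.get Q.get 0 else nhG z P.get Q.get x))
    {k : ℕ} (hk : 1 ≤ k) {G H : List ℂ} (hG : ∀ x ∈ G, Ax x) (hc : Cont b m (G ++ zr k) H) :
    Kt (8 / 3) K (fun x => Ax x ∨ x = aF) ε (fun x => nL z (red k (x :: G)) H) := by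
  have hl := lpos
  have hz1 : |z.re| ≤ l / 2 := by rw [hz.1, abs_zero]; linarith
  have hz2 : |z.re| < 7 / 10 * l := by rw [hz.1, abs_zero]; (clear * - hl; linarith)
  obtain ⟨nP, nQ⟩ := hc.nr
  obtain ⟨p, hp, hpe⟩ := hK _ _ hc
  refine ⟨p, hp, fun x hx => ?_⟩
  have h := hpe x hx
  have e1 : (if x = aF then JU z (G ++ zr k).get H.get 0 else nhG z (G ++ zr k).get H.get x) =
      nL z (red k (x :: G)) H := by
    rcases hx with hx | rfl
    · rw [if_neg (ax_ne hx), red_cons (ax_ne hx), red_near _ hG,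
        nhG_near hz1 nP.get nQ.get (by rw [hx.1, abs_zero]; linarith), ← get_cons]
      rfl
    · rw [if_pos rfl]
      exact JU_zero hz2 hk hG nQ
  simp only [e1] at h
  exact h

/-- **(K) from the bounds of the row functions** -/
theorem kRows_of {b : ℕ} (hb : 1 ≤ b) (h1 : MinB b) (h2 : FarB b) (h3 : FarS b) : KRows nL b := by
  have hl := lpos
  intro e
  obtain ⟨C1, m1, h1⟩ := h1
  obtain ⟨C2, m2, h2⟩ := h2
  set C : ℝ := max (max C1 C2) 0 with hC_def
  have hC : 0 ≤ C := le_max_right _ _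
  have hC1 : C1 ≤ C := (le_max_left _ _).trans (le_max_left _ _)
  have hC2 : C2 ≤ C := (le_max_right _ _).trans (le_max_left _ _)
  set E : ℝ := max e 0 + 1 with hE_def
  have hE1 : e < E := by
    have := le_max_left e 0
    linarith
  obtain ⟨m3, h3⟩ := h3 (E + 1)
  obtain ⟨B, hB, hpoly⟩ := nhG_poly
  set Cp : ℝ := B * (4 * b + 5) with hCp_def
  have hCp : 0 ≤ Cp := by positivity
  obtain ⟨K0, hK0⟩ := kSixF (C := C + 1) (Cp := Cp) (E := E) (e := e) (by linarith) hCp hE1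
  refine ⟨K0, fun K hK => ?_⟩
  obtain ⟨m4, hm4⟩ := hK0 K hK
  obtain ⟨m5, hm5⟩ := exists_nat_ge (Real.exp 100)
  refine ⟨max (max m1 m2) (max (max m3 m4) (max m5 4)), fun m hm n1 n2 EX EY hc z hz => ?_⟩
  have i1 : m1 ≤ m := by omega
  have i2 : m2 ≤ m := by omega
  have i3 : m3 ≤ m := by omega
  have i4 : m4 ≤ m := by omega
  have i5 : m5 ≤ m := by omega
  have i6 : 4 ≤ m := by omega
  have hmr : (4 : ℝ) ≤ m := by exact_mod_cast i6
  have hlog : 100 ≤ Real.log m := by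
    rw [Real.le_log_iff_exp_le (by linarith)]
    exact hm5.trans (by exact_mod_cast i5)
  have hza := hz.ax
  have hzn := ax_neg hza
  have hzr : |z.re| ≤ l / 2 := by rw [hz.1, abs_zero]; (clear * - hl; linarith)
  have hpow1 : (m : ℝ) ^ C1 ≤ (m : ℝ) ^ C := Real.rpow_le_rpow_of_exponent_le (by (clear * - hmr; linarith)) hC1
  have hpow2 : (m : ℝ) ^ C2 ≤ (m : ℝ) ^ C := Real.rpow_le_rpow_of_exponent_le (by (clear * - hmr; linarith)) hC2
  have hwide : ∀ P Q : List ℂ, Cont b m P Q →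
      WideF (C + 1) Cp E m (nhG z P.get Q.get) (JU z P.get Q.get) (JV z P.get Q.get) := by
    intro P Q hPQ
    have hsz : B * ((P.length : ℝ) + Q.length + 1) ≤ Cp * m := by
      have h := (hPQ.size hb i6).2
      have h' : (P.length : ℝ) + Q.length + 1 ≤ (4 * b + 5) * m := by exact_mod_cast h
      rw [hCp_def, mul_assoc]
      exact mul_le_mul_of_nonneg_left h' (by linarith)
    exact wide_of hb i6 hPQ hza hC (by linarith) (hpoly _ _ z P.get Q.get Cp m hzr hPQ.nr.1.get hPQ.nr.2.get hsz)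
      (fun w a1 a2 => (h1 m i1 P Q hPQ z hza w a1 a2).trans hpow1)
      (fun w a1 a2 => (h1 m i1 _ _ hPQ.neg (-z) hzn w a1 a2).trans hpow1)
      (fun s hs x a1 a2 a3 => (h2 m i2 P Q hPQ z hza s hs x a1 a2 a3).trans hpow2)
      (fun s hs x a1 a2 a3 => (h2 m i2 _ _ hPQ.neg (-z) hzn s hs x a1 a2 a3).trans hpow2)
      (fun s hs x a1 a2 a3 => h3 m i3 P Q hPQ z hza s hs x a1 a2 a3)
      (fun s hs x a1 a2 a3 => h3 m i3 _ _ hPQ.neg (-z) hzn s hs x a1 a2 a3)
  have hKt : ∀ P Q : List ℂ, Cont b m P Q → Kt (8 / 3) K (fun x => Ax x ∨ x = aF) ((m : ℝ) ^ (-e))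
      (fun x => if x = aF then JU z P.get Q.get 0 else nhG z P.get Q.get x) :=
    fun P Q hPQ => hm4 m i4 _ _ _ (hwide P Q hPQ)
  have hk1 : 1 ≤ n1 := by
    have := hc.le1
    omega
  have hk2 : 1 ≤ n2 := by
    have j1 := hc.le2
    have j2 : b * 4 ≤ b * m := Nat.mul_le_mul_left _ i6
    omega
  refine ⟨kt_of hza hKt hk1 hc.ax (Cont.fst hc), ?_⟩
  obtain ⟨p, hp, hpe⟩ := kt_of hza hKt hk2 hc.ay (Cont.snd hc)
  refine ⟨p, hp, fun y hy => ?_⟩
  have h := hpe y hy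
  have e1 : nL z (EX ++ zr n1) (red n2 (y :: EY)) = nL z (red n2 (y :: EY)) (EX ++ zr n1) := by
    refine nL_swap (mem_LS hzr) ?_ (nr_E hc.ax _)
    rcases hy with hy | rfl
    · rw [red_cons (ax_ne hy), red_near _ hc.ay]
      intro x hx
      rcases List.mem_cons.1 hx with rfl | hx
      · rw [hy.1, abs_zero]
        clear * - hl
        linarith
      · exact nr_E hc.ay _ x hx
    · rw [red_far, red_near _ hc.ay]
      exact nr_E hc.ay _
  show ‖nL z (EX ++ zr n1) (red n2 (y :: EY)) - _‖ ≤ _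
  rw [e1]
  exact h

/-- `FarS` from a bound `exp (-m^c)` -/
theorem FarS.of_exp {b : ℕ} {c : ℝ} (hc : 0 < c) (h : ∃ m0 : ℕ, ∀ m ≥ m0, ∀ P Q : List ℂ, Cont b m P Q →
    ∀ z : ℂ, Ax z → ∀ e : SignType, e ≠ .neg → ∀ x : ℂ, 23 / 10 * ll ≤ x.re → x.re ≤ 53 / 20 * ll →
      |x.im| ≤ 1 / 50 * Real.log m → ‖cF e z x P.get Q.get‖ ≤ Real.exp (-(m : ℝ) ^ c)) : FarS b := by
  obtain ⟨m0, h⟩ := h
  intro E
  have h1 : ∀ᶠ m : ℕ in atTop, E * Real.log m ≤ (m : ℝ) ^ c := by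
    have h2 := tendsto_natCast_atTop_atTop.eventually
      ((isLittleO_log_rpow_atTop hc).bound (show 0 < 1 / (|E| + 1) by positivity))
    filter_upwards [h2, eventually_ge_atTop 2] with m h3 h4
    have hm2 : (2 : ℝ) ≤ m := by exact_mod_cast h4
    have hL : 0 < Real.log m := Real.log_pos (by linarith)
    rw [Real.norm_of_nonneg hL.le, Real.norm_of_nonneg (by positivity), one_div, inv_mul_eq_div,
      le_div_iff₀ (by positivity)] at h3
    clear * - h3 hL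
    nlinarith [le_abs_self E]
  obtain ⟨m1, hm1⟩ := h1.exists_forall_of_atTop
  refine ⟨max m0 (max m1 2), fun m hm P Q hPQ z hz e he x a1 a2 a3 => ?_⟩
  refine (h m (by omega) P Q hPQ z hz e he x a1 a2 a3).trans ?_
  have hm2 : (2 : ℝ) ≤ m := by exact_mod_cast (by omega : 2 ≤ m)
  have h4 := hm1 m (by omega)
  rw [Real.rpow_def_of_pos (by (clear * - hm2; linarith) : (0 : ℝ) < m) (-E)]
  refine Real.exp_le_exp.2 ?_
  clear * - h4
  nlinarith

end Pool.Agent.PLX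

end
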