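import Pool.Agent.PLX.FarK4
import Pool.Agent.PLX.KAsm

/-!
# PLAX (K): mean field of a removed row and of a far row, against the direct factors

* `kOn_one`, `kXn_one` : `kO_one`, `kX_one` of the state `-` for `11 l / 5 ≤ Re x ≤ 19 l / 5`;
* `TS K r f` : two-sided growth `exp (r |Im|)`; `TS.ratio`;
* `MX1`, `MY1` ...
-/

set_option autoImplicit false
set_option linter.unusedVariables false

open MeasureTheory Set Filter Topology Complex

noncomputable section

namespace FarMF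

open NUMF (l l_pos h H P Ag zj mf ch)
open PBR (rh)
open RX (kO kX)

section

variable {e t : ℝ} (e1 : 6 / 5 ≤ e) (e2 : e ≤ 14 / 5)
include e1 e2

lemma wrh2 : Real.log ‖rh (zj (1 + e) t) ^ 2‖ = H t ((1 + e) * l) - Real.log 2 := by
  rw [norm_pow_log, log_rh (by rw [abs_of_pos (by (clear * - e1; linarith))]; (clear * - e2; linarith))]
  push_cast
  ring

lemma wrh2_ne : rh (zj (1 + e) t) ^ 2 ≠ 0 :=
  pow_ne_zero _ (rh_zj_ne (by rw [abs_of_pos (by (clear * - e1; linarith))]; linarith))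

lemma ws2 : sin (zj (1 + e) t + 2 * l) ≠ 0 ∧ Real.log ‖sin (zj (1 + e) t + 2 * l)‖ =
    (h t ((1 - e) * l) - Real.log 2) / 2 := by
  have e0 : zj (1 + e) t + 2 * l = zj (1 + e + 2) t := s_add 2 _ (by push_cast; ring)
  have n : sin (zj (1 + e + 2) t) ≠ 0 := sn (by (clear * - e1; linarith)) (by rw [abs_of_pos (by (clear * - e1; linarith))]; (clear * - e2; linarith))
  rw [e0, lsin n, show (4 : ℝ) - (1 + e + 2) = 1 - e by ring]
  exact ⟨n, rfl⟩

lemma ws3 : sin (zj (1 + e) t + 3 * l) ≠ 0 ∧ Real.log ‖sin (zj (1 + e) t + 3 * l)‖ =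
    (h t (e * l) - Real.log 2) / 2 := by
  have e0 : zj (1 + e) t + 3 * l = zj (1 + e + 3) t := s_add 3 _ (by push_cast; ring)
  have n : sin (zj (1 + e + 3) t) ≠ 0 := sn (by (clear * - e1; linarith)) (by rw [abs_of_pos (by (clear * - e1; linarith))]; linarith)
  have q := NUMF.h_neg_right t (e * l)
  rw [e0, lsin n, show (4 : ℝ) - (1 + e + 3) = -e by ring, show -e * l = -(e * l) by ring, q]
  exact ⟨n, rfl⟩

lemma ws0 : sin (zj (1 + e) t) ≠ 0 ∧ Real.log ‖sin (zj (1 + e) t)‖ =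
    (h t ((3 - e) * l) - Real.log 2) / 2 := by
  have n : sin (zj (1 + e) t) ≠ 0 := sn (by (clear * - e1; linarith)) (by rw [abs_of_pos (by (clear * - e1; linarith))]; linarith)
  rw [lsin n, show (4 : ℝ) - (1 + e) = 3 - e by ring]
  exact ⟨n, rfl⟩

lemma wsm1 : sin (zj (1 + e) t - l) ≠ 0 ∧ Real.log ‖sin (zj (1 + e) t - l)‖ =
    (h t ((4 - e) * l) - Real.log 2) / 2 := by
  have n : sin (zj e t) ≠ 0 := sn (by (clear * - e1; linarith)) (by rw [abs_of_pos (by (clear * - e1; linarith))]; linarith)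
  rw [zj_sub, lsin n]
  exact ⟨n, rfl⟩

theorem cross_negW : kX .neg (zj (1 + e) t) ≠ 0 ∧
    Real.log ‖kX .neg (zj (1 + e) t)‖ + MC P 2 (zj (1 + e) t) = 0 := by
  have a := (MC2 NUMF.integral_P NUMF.P_integrable hP e t).2
  simp only [Hr_P] at a
  have r := wrh2 (t := t) e1 e2
  have rn := wrh2_ne (t := t) e1 e2
  obtain ⟨n3, s3⟩ := ws3 (t := t) e1 e2
  obtain ⟨n2, s2⟩ := ws2 (t := t) e1 e2
  have e0 : kX .neg (zj (1 + e) t) = sin (zj (1 + e) t + 2 * l) ^ 2 * sin (zj (1 + e) t + 3 * l) ^ 2 /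
      rh (zj (1 + e) t) ^ 2 := by
    unfold RX.kX
    simp only [PBS.gw]
    rw [l_eq, sub_neg_eq_add, sub_neg_eq_add, add_comm (2 * (l : ℂ)), add_comm (3 * (l : ℂ))]
  have m3 := pow_ne_zero 2 n3
  have m2 := pow_ne_zero 2 n2
  have c := NUMF.conv_unit t (y := e) (by rw [abs_of_pos (by (clear * - e1; linarith))]; (clear * - e2; linarith))
  have c' := NUMF.conv_unit t (y := 1 - e) (by rw [abs_le]; constructor <;> (clear * - e2 e1; linarith))
  have r6 := NUMF.H_refl t (6 + e)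
  have q := NUMF.H_neg_right t ((e - 1) * l)
  have q0 := NUMF.H_neg_right t (e * l)
  rw [show (8 : ℝ) - (6 + e) = 2 - e by ring] at r6
  rw [show 1 - e + 1 = 2 - e by ring, show (1 - e - 1) * l = -(e * l) by ring, q0,
    show (1 - e) * l = -((e - 1) * l) by ring, q] at c'
  rw [show -((e - 1) * l) = (1 - e) * l by ring] at c'
  rw [e0, norm_div, Real.log_div (norm_ne_zero_iff.2 (mul_ne_zero m2 m3)) (norm_ne_zero_iff.2 rn), norm_mul,
    Real.log_mul (norm_ne_zero_iff.2 m2) (norm_ne_zero_iff.2 m3), norm_pow_log, norm_pow_log, s3, s2, r, a]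
  refine ⟨div_ne_zero (mul_ne_zero m2 m3) rn, ?_⟩
  rw [show (1 + e) * l = (e + 1) * l by ring]
  push_cast
  clear * - c c' r6
  linarith

theorem own_negW : kO .neg (zj (1 + e) t) ≠ 0 ∧
    Real.log ‖kO .neg (zj (1 + e) t)‖ + MO P 2 (zj (1 + e) t) = 0 := by
  have a := (MO2 NUMF.integral_P NUMF.P_integrable hP e t).2
  simp only [Hr_P] at a
  have r := wrh2 (t := t) e1 e2
  have rn := wrh2_ne (t := t) e1 e2
  obtain ⟨n3, s3⟩ := ws3 (t := t) e1 e2
  obtain ⟨n2, s2⟩ := ws2 (t := t) e1 e2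
  obtain ⟨n0, s0⟩ := ws0 (t := t) e1 e2
  obtain ⟨n1, s1⟩ := wsm1 (t := t) e1 e2
  have e0 : kO .neg (zj (1 + e) t) = sin (zj (1 + e) t + 2 * l) * sin (zj (1 + e) t + 3 * l) /
      (sin (zj (1 + e) t) * sin (zj (1 + e) t - l)) / rh (zj (1 + e) t) ^ 2 := by
    unfold RX.kO
    simp only [PBS.fw]
    rw [l_eq]
  have m1 := mul_ne_zero n2 n3
  have m2 := mul_ne_zero n0 n1
  have c := NUMF.conv_unit t (y := e) (by rw [abs_of_pos (by (clear * - e1; linarith))]; (clear * - e2; linarith))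
  have c' := NUMF.conv_unit t (y := 1 - e) (by rw [abs_le]; constructor <;> (clear * - e2 e1; linarith))
  have c3 := NUMF.conv_unit t (y := 3 - e) (by rw [abs_of_pos (by (clear * - e2; linarith))]; (clear * - e1; linarith))
  have c4 := NUMF.conv_unit t (y := 4 - e) (by rw [abs_of_pos (by (clear * - e2; linarith))]; (clear * - e1; linarith))
  have r3 := NUMF.H_refl t (3 + e)
  have q := NUMF.H_neg_right t ((e - 1) * l)
  have q0 := NUMF.H_neg_right t (e * l)
  rw [show (8 : ℝ) - (3 + e) = 5 - e by ring] at r3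
  rw [show 1 - e + 1 = 2 - e by ring, show (1 - e - 1) * l = -(e * l) by ring, q0] at c'
  rw [show 3 - e + 1 = 4 - e by ring, show 3 - e - 1 = 2 - e by ring] at c3
  rw [show 4 - e + 1 = 5 - e by ring, show 4 - e - 1 = 3 - e by ring] at c4
  rw [show -((e - 1) * l) = (1 - e) * l by ring] at q
  rw [e0, norm_div, Real.log_div (norm_ne_zero_iff.2 (div_ne_zero m1 m2)) (norm_ne_zero_iff.2 rn), norm_div,
    Real.log_div (norm_ne_zero_iff.2 m1) (norm_ne_zero_iff.2 m2), norm_mul, norm_mul,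
    Real.log_mul (norm_ne_zero_iff.2 n2) (norm_ne_zero_iff.2 n3),
    Real.log_mul (norm_ne_zero_iff.2 n0) (norm_ne_zero_iff.2 n1), s3, s2, s0, s1, r, a]
  refine ⟨div_ne_zero (div_ne_zero m1 m2) rn, ?_⟩
  rw [show (1 + e) * l = (e + 1) * l by ring]
  clear * - c c' c3 c4 r3 q
  linarith

end

lemma far_eW {x : ℂ} (h1 : 11 / 5 * l ≤ x.re) (h2 : x.re ≤ 19 / 5 * l) : ∃ e : ℝ, 6 / 5 ≤ e ∧ e ≤ 14 / 5 ∧
    x = zj (1 + e) x.im := by
  have hl := l_pos
  refine ⟨x.re / l - 1, ?_, ?_, as_zj x⟩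
  · have : 11 / 5 ≤ x.re / l := by rw [le_div_iff₀ hl]; exact h1
    clear * - this
    linarith
  · have : x.re / l ≤ 19 / 5 := by rw [div_le_iff₀ hl]; exact h2
    clear * - this
    linarith

variable {x : ℂ} (h1 : 11 / 5 * l ≤ x.re) (h2 : x.re ≤ 19 / 5 * l)
include h1 h2

/-- **the other group, state `-`: no mean field** -/
theorem kXn_one : kX .neg x ≠ 0 ∧ Real.log ‖kX .neg x‖ + MC P 2 x = 0 := by
  obtain ⟨r, r1, r2, hx⟩ := far_eW h1 h2
  rw [hx]
  exact cross_negW (t := x.im) r1 r2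

/-- **the own group, state `-`: no mean field** -/
theorem kOn_one : kO .neg x ≠ 0 ∧ Real.log ‖kO .neg x‖ + MO P 2 x = 0 := by
  obtain ⟨r, r1, r2, hx⟩ := far_eW h1 h2
  rw [hx]
  exact own_negW (t := x.im) r1 r2

end FarMF

namespace Pool.Agent.PLX

open NUP1 (l lpos)
open PBX (Rws)
open PBR (rh)
open _root_.RX (kO kX k1 LL)
open Pool.Agent.PB (Lp Fp)
open FarMF (MO MC kk)

/-! ### two-sided growth -/

/-- **growth exactly `exp (r |Im|)`** on the lines of `K` -/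
def TS (K : Set ℝ) (r : ℝ) (f : ℂ → ℂ) : Prop := ∃ C : ℝ, 1 ≤ C ∧ ∀ w : ℂ, w.re ∈ K →
  Real.exp (r * |w.im|) ≤ C * ‖f w‖ ∧ ‖f w‖ ≤ C * Real.exp (r * |w.im|)

theorem TS.congr {K : Set ℝ} {r r' : ℝ} {f g : ℂ → ℂ} (h : TS K r f) (hr : r = r')
    (hg : ∀ w : ℂ, w.re ∈ K → g w = f w) : TS K r' g := by
  subst hr
  obtain ⟨C, hC, h⟩ := h
  exact ⟨C, hC, fun w hw => by rw [hg w hw]; exact h w hw⟩

theorem TS.ne {K : Set ℝ} {r : ℝ} {f : ℂ → ℂ} (h : TS K r f) {w : ℂ} (hw : w.re ∈ K) : f w ≠ 0 := by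
  obtain ⟨C, hC, h⟩ := h
  intro h0
  have := (h w hw).1
  rw [h0, norm_zero, mul_zero] at this
  exact absurd this (not_le.2 (Real.exp_pos _))

theorem TS.mul {K : Set ℝ} {r s : ℝ} {f g : ℂ → ℂ} (h : TS K r f) (k : TS K s g) :
    TS K (r + s) fun w => f w * g w := by
  obtain ⟨C, hC, h⟩ := h
  obtain ⟨D, hD, k⟩ := k
  refine ⟨C * D, by (clear * - hC hD; nlinarith), fun w hw => ?_⟩
  obtain ⟨h1, h2⟩ := h w hw
  obtain ⟨k1, k2⟩ := k w hw
  rw [norm_mul, add_mul, Real.exp_add]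
  constructor
  · calc _ ≤ C * ‖f w‖ * (D * ‖g w‖) := mul_le_mul h1 k1 (Real.exp_pos _).le (by positivity)
      _ = _ := by ring
  · calc _ ≤ C * Real.exp (r * |w.im|) * (D * Real.exp (s * |w.im|)) :=
          mul_le_mul h2 k2 (norm_nonneg _) (by positivity)
      _ = _ := by ring

theorem TS.inv {K : Set ℝ} {r : ℝ} {f : ℂ → ℂ} (h : TS K r f) : TS K (-r) fun w => 1 / f w := by
  have hn := fun (w : ℂ) (hw : w.re ∈ K) => h.ne hw
  obtain ⟨C, hC, h⟩ := h
  refine ⟨C, hC, fun w hw => ?_⟩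
  obtain ⟨h1, h2⟩ := h w hw
  have hp : 0 < ‖f w‖ := norm_pos_iff.2 (hn w hw)
  have he := Real.exp_pos (r * |w.im|)
  rw [norm_div, norm_one, neg_mul, Real.exp_neg]
  constructor
  · rw [mul_one_div, inv_eq_one_div, div_le_div_iff₀ he hp]
    linarith
  · rw [div_le_iff₀ hp, mul_assoc, mul_comm _ ‖f w‖, ← mul_assoc, ← div_eq_mul_inv, le_div_iff₀ he]
    linarith

theorem TS.div {K : Set ℝ} {r s : ℝ} {f g : ℂ → ℂ} (h : TS K r f) (k : TS K s g) :
    TS K (r - s) fun w => f w / g w :=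
  (h.mul k.inv).congr (by ring) fun w _ => by ring

theorem TS.sq {K : Set ℝ} {r : ℝ} {f : ℂ → ℂ} (h : TS K r f) : TS K (2 * r) fun w => f w ^ 2 :=
  (h.mul h).congr (by ring) fun w _ => by ring

theorem ts_const {K : Set ℝ} {c : ℂ} (hc : c ≠ 0) : TS K 0 fun _ => c := by
  have hp : 0 < ‖c‖ := norm_pos_iff.2 hc
  refine ⟨1 + ‖c‖ + 1 / ‖c‖, ?_, fun w _ => ?_⟩
  · have : 0 ≤ 1 / ‖c‖ := by positivity
    linarith
  · rw [zero_mul, Real.exp_zero, mul_one]
    have h1 : 1 / ‖c‖ * ‖c‖ = 1 := by field_simp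
    have h2 : 0 ≤ 1 / ‖c‖ := by positivity
    constructor <;> (clear * - hp h1 h2; nlinarith)

/-- sines away from the zeros, `Re = θ l`, `8 n + δ ≤ θ ≤ 8 (n + 1) - δ` -/
theorem asin_ge {δ x : ℝ} (n : ℤ) (hδ : 0 ≤ δ) (hδ4 : δ ≤ 4) (h1 : (8 * n + δ) * l ≤ x)
    (h2 : x ≤ (8 * (n + 1) - δ) * l) : Real.sin (δ * l) ≤ |Real.sin x| := by
  have hl := lpos
  have h8 : 8 * l = Real.pi := by
    unfold NUP1.l
    ring
  have e : |Real.sin x| = |Real.sin (x - n * Real.pi)| := by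
    rw [Real.sin_sub_int_mul_pi]
    rw [abs_mul, abs_zpow, abs_neg, abs_one, one_zpow, one_mul]
  rw [e]
  set y := x - n * Real.pi with hy
  have y1 : δ * l ≤ y := by
    rw [hy, ← h8]
    clear * - h1
    linarith
  have y2 : y ≤ Real.pi - δ * l := by
    rw [hy]
    have : n * Real.pi = 8 * n * l := by rw [← h8]; ring
    rw [this, ← h8]
    linarith
  have hπ : δ * l ≤ Real.pi / 2 := by
    rw [← h8]
    clear * - h1 h2
    nlinarith
  refine le_trans ?_ (le_abs_self _)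
  have h0 : 0 ≤ δ * l := by positivity
  rcases le_total y (Real.pi / 2) with h | h
  · exact Real.sin_le_sin_of_le_of_le_pi_div_two (by linarith [Real.pi_pos]) h y1
  · rw [← Real.sin_pi_sub y]
    exact Real.sin_le_sin_of_le_of_le_pi_div_two (by linarith [Real.pi_pos]) (by linarith) (by linarith)

theorem ts_sin {K : Set ℝ} {v : ℂ → ℂ} {δ : ℝ} (n : ℤ) (hδ : 0 < δ) (hδ4 : δ ≤ 4)
    (him : ∀ w : ℂ, |(v w).im| = |w.im|)
    (hre : ∀ w : ℂ, w.re ∈ K → (8 * n + δ) * l ≤ (v w).re ∧ (v w).re ≤ (8 * (n + 1) - δ) * l) :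
    TS K 1 fun w => Complex.sin (v w) := by
  have hl := lpos
  have h8 : 8 * l = Real.pi := by
    unfold NUP1.l
    ring
  have hs : 0 < Real.sin (δ * l) := Real.sin_pos_of_pos_of_lt_pi (by positivity) (by rw [← h8]; (clear * - hl hδ4; nlinarith))
  have hs1 := Real.sin_le_one (δ * l)
  refine ⟨2 / Real.sin (δ * l), ?_, fun w hw => ?_⟩
  · rw [le_div_iff₀ hs]
    linarith
  · obtain ⟨a, b⟩ := hre w hw
    have h1 := asin_ge n hδ.le hδ4 a b
    have h2 := PBR.norm_sin_ge (v w)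
    have h3 := PBR.norm_sin_le (v w)
    rw [him] at h2 h3
    rw [one_mul]
    have he := Real.exp_pos |w.im|
    constructor
    · rw [div_mul_eq_mul_div, le_div_iff₀ hs]
      have : Real.sin (δ * l) / 2 * Real.exp |w.im| ≤ |Real.sin (v w).re| / 2 * Real.exp |w.im| := by
        clear * - h1
        gcongr
      clear * - h2 this
      nlinarith
    · refine h3.trans ?_
      have : 1 ≤ 2 / Real.sin (δ * l) := by
        rw [le_div_iff₀ hs]
        linarith
      clear * - he this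
      nlinarith

theorem ts_rh {K : Set ℝ} (hK : ∀ t ∈ K, |t| ≤ 4 * l) : TS K 1 rh := by
  have hs := PBR.sδ_pos (δ := 1) one_pos (by norm_num)
  set A := 4 / PBR.sδ 1 ^ 4 with hA
  set B := 4 * PBR.sδ 1 ^ 7 with hB
  have hA0 : 0 < A := by positivity
  have hB0 : 0 < B := by positivity
  refine ⟨1 + A + 1 / B, ?_, fun w hw => ?_⟩
  · have : 0 ≤ 1 / B := by positivity
    linarith
  · have u := PBR.rh_upper (δ := 1) (w := w) one_pos (by norm_num) (by
      have := hK _ hw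
      have := lpos
      linarith)
    have v := PBR.rh_lower (δ := 1) (w := w) one_pos (by norm_num) (by
      have := hK _ hw
      have := lpos
      linarith)
    rw [← hA] at u
    rw [← hB] at v
    rw [one_mul]
    have he := Real.exp_pos |w.im|
    have h1 : 1 / B * B = 1 := by field_simp
    have h2 : 0 ≤ 1 / B := by positivity
    constructor
    · calc Real.exp |w.im| = 1 / B * (B * Real.exp |w.im|) := by rw [← mul_assoc, h1, one_mul]
        _ ≤ 1 / B * ‖PBR.rh w‖ := by gcongr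
        _ ≤ _ := by
          have := norm_nonneg (PBR.rh w)
          clear * - B A this hA0
          nlinarith
    · refine u.trans ?_
      clear * - A B he hB0 h1
      nlinarith

/-- the ratio of the values at a row of the axis and at a row `0` -/
theorem TS.ratio {K : Set ℝ} {r : ℝ} {f : ℂ → ℂ} (h : TS K r f) : ∃ C : ℝ, 1 ≤ C ∧ ∀ w x : ℂ, w.re ∈ K →
    Ax x → ‖f (w - x)‖ ≤ C * ‖f w‖ := by
  obtain ⟨C, hC, h⟩ := h
  refine ⟨C * C * Real.exp |r|, ?_, fun w x hw hx => ?_⟩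
  · have : 1 ≤ Real.exp |r| := Real.one_le_exp (abs_nonneg _)
    have h2 : 1 ≤ C * C := by (clear * - hC; nlinarith)
    nlinarith
  · have h1 := (h (w - x) (by rw [sub_re, hx.1, sub_zero]; exact hw)).2
    have h2 := (h w hw).1
    rw [sub_im] at h1
    have h3 : r * |w.im - x.im| ≤ |r| + r * |w.im| := by
      have a1 := abs_abs_sub_abs_le_abs_sub (w.im - x.im) w.im
      rw [show w.im - x.im - w.im = -x.im by ring, abs_neg] at a1
      have a2 : |r * (|w.im - x.im| - |w.im|)| ≤ |r| := by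
        rw [abs_mul]
        have := a1.trans hx.2
        have := abs_nonneg r
        nlinarith
      have := le_abs_self (r * (|w.im - x.im| - |w.im|))
      linarith
    have h4 := Real.exp_le_exp.2 h3
    rw [Real.exp_add] at h4
    calc ‖f (w - x)‖ ≤ C * Real.exp (r * |w.im - x.im|) := h1
      _ ≤ C * (Real.exp |r| * (C * ‖f w‖)) := by
        refine mul_le_mul_of_nonneg_left (h4.trans ?_) (by linarith)
        exact mul_le_mul_of_nonneg_left h2 (Real.exp_pos _).le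
      _ = _ := by ring

/-- the logarithm -/
theorem TS.logb {K : Set ℝ} {r : ℝ} {f : ℂ → ℂ} (h : TS K r f) : ∃ C : ℝ, 0 ≤ C ∧ ∀ w : ℂ, w.re ∈ K →
    |Real.log ‖f w‖| ≤ C + |r| * |w.im| := by
  have hn := fun (w : ℂ) (hw : w.re ∈ K) => h.ne hw
  obtain ⟨C, hC, h⟩ := h
  refine ⟨Real.log C, Real.log_nonneg hC, fun w hw => ?_⟩
  obtain ⟨h1, h2⟩ := h w hw
  have hp : 0 < ‖f w‖ := norm_pos_iff.2 (hn w hw)
  have hC0 : 0 < C := by linarith
  have l1 := Real.log_le_log (Real.exp_pos _) h1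
  have l2 := Real.log_le_log hp h2
  rw [Real.log_exp, Real.log_mul hC0.ne' hp.ne'] at l1
  rw [Real.log_mul hC0.ne' (Real.exp_pos _).ne', Real.log_exp] at l2
  have a1 : abs (r * |w.im|) = |r| * |w.im| := by rw [abs_mul, abs_abs]
  have a2 := le_abs_self (r * |w.im|)
  have a3 := neg_abs_le (r * |w.im|)
  rw [a1] at a2 a3
  rw [abs_le]
  constructor <;> linarith

/-- the product over the rows of a content -/
theorem prod_rows {f : ℂ → ℂ} {w : ℂ} {C : ℝ} (hC : 1 ≤ C) (h : ∀ x, Ax x → ‖f (w - x)‖ ≤ C * ‖f w‖)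
    {E : List ℂ} (hE : ∀ x ∈ E, Ax x) (k : ℕ) :
    ‖∏ i, f (w - (E ++ zr k).get i)‖ ≤ C ^ E.length * ‖f w‖ ^ (E ++ zr k).length := by
  have e1 : ∏ i, f (w - (E ++ zr k).get i) = ((E ++ zr k).map fun x => f (w - x)).prod := by
    rw [← List.prod_ofFn, ← List.ofFn_get (E ++ zr k), List.map_ofFn]
    simp
  rw [e1, List.map_append, List.prod_append, norm_mul, List.length_append, pow_add, ← mul_assoc]
  have e2 : ((zr k).map fun x => f (w - x)).prod = f w ^ k := by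
    unfold zr
    rw [List.map_replicate, List.prod_replicate, sub_zero]
  have e3 : (zr k).length = k := by simp [zr]
  rw [e2, e3, norm_pow]
  refine mul_le_mul_of_nonneg_right ?_ (by positivity)
  clear e1
  induction E with
  | nil => simp
  | cons a E ih =>
    rw [List.map_cons, List.prod_cons, norm_mul, List.length_cons, pow_succ, pow_succ]
    have h1 := h a (hE a (by simp))
    have h2 := ih fun x hx => hE x (by simp [hx])
    calc _ ≤ (C * ‖f w‖) * (C ^ E.length * ‖f w‖ ^ E.length) :=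
          mul_le_mul h1 h2 (norm_nonneg _) (by positivity)
      _ = _ := by ring

/-! ### the factors of one row -/

/-- the range of the state `-` -/
def Kn : Set ℝ := Set.Icc (23 / 10 * l) (37 / 10 * l)

/-- the range of the states `0`, `+` -/
def Kf : Set ℝ := Set.Icc (23 / 10 * l) (53 / 20 * l)

/-- the range of a state -/
def KF (e : SignType) : Set ℝ := if e = .neg then Kn else Kf

theorem Kf_Kn {t : ℝ} (h : t ∈ Kf) : t ∈ Kn := by
  have hl := lpos
  obtain ⟨h1, h2⟩ := h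
  exact ⟨h1, by (clear * - hl h2; linarith)⟩

theorem KF_Kn {e : SignType} {t : ℝ} (h : t ∈ KF e) : t ∈ Kn := by
  unfold KF at h
  split_ifs at h
  · exact h
  · exact Kf_Kn h

theorem ts_add {K : Set ℝ} {a b : ℝ} (hK : ∀ t ∈ K, a * l ≤ t ∧ t ≤ b * l) (k : ℝ) {δ : ℝ} (n : ℤ)
    (hδ : 0 < δ) (hδ4 : δ ≤ 4) (h1 : 8 * n + δ ≤ a + k) (h2 : b + k ≤ 8 * (n + 1) - δ) :
    TS K 1 fun w => Complex.sin (w + ((k * l : ℝ) : ℂ)) := by
  have hl := lpos
  refine ts_sin n hδ hδ4 (fun w => by simp) fun w hw => ?_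
  obtain ⟨a1, a2⟩ := hK _ hw
  rw [add_re, ofReal_re]
  constructor <;> (clear * - a1 h1 hl a2 h2; nlinarith)

theorem ts_sub {K : Set ℝ} {a b : ℝ} (hK : ∀ t ∈ K, a * l ≤ t ∧ t ≤ b * l) (k : ℝ) {δ : ℝ} (n : ℤ)
    (hδ : 0 < δ) (hδ4 : δ ≤ 4) (h1 : 8 * n + δ ≤ k - b) (h2 : k - a ≤ 8 * (n + 1) - δ) :
    TS K 1 fun w => Complex.sin (((k * l : ℝ) : ℂ) - w) := by
  have hl := lpos
  refine ts_sin n hδ hδ4 (fun w => by simp) fun w hw => ?_
  obtain ⟨a1, a2⟩ := hK _ hw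
  rw [sub_re, ofReal_re]
  constructor <;> (clear * - a2 h1 hl a1 h2; nlinarith)

theorem Kn_ab : ∀ t ∈ Kn, 23 / 10 * l ≤ t ∧ t ≤ 37 / 10 * l := fun t h => h

theorem Kf_ab : ∀ t ∈ Kf, 23 / 10 * l ≤ t ∧ t ≤ 53 / 20 * l := fun t h => h

theorem rh_Kn : TS Kn 1 rh := ts_rh fun t h => by
  have hl := lpos
  obtain ⟨h1, h2⟩ := h
  rw [abs_of_nonneg (by linarith)]
  linarith

theorem rh_Kf : TS Kf 1 rh := ts_rh fun t h => by
  have hl := lpos
  obtain ⟨h1, h2⟩ := h
  rw [abs_of_nonneg (by (clear * - hl h1; linarith))]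
  linarith

/-- **the own row** -/
theorem kO_TS (e : SignType) : ∃ r : ℝ, TS (KF e) r (kO e) := by
  cases e
  · -- zero
    have h := ((((ts_add Kf_ab 3 (δ := 1) 0 (by norm_num) (by norm_num) (by norm_num) (by norm_num)).mul
      (ts_sub Kf_ab 3 (δ := 1 / 10) 0 (by norm_num) (by norm_num) (by norm_num) (by norm_num))).mul
      (ts_add Kf_ab 2 (δ := 1) 0 (by norm_num) (by norm_num) (by norm_num) (by norm_num))).div
      (ts_add Kf_ab 0 (δ := 1) 0 (by norm_num) (by norm_num) (by norm_num) (by norm_num))).div rh_Kf.sq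
    refine ⟨_, h.congr rfl fun w _ => ?_⟩
    unfold _root_.RX.kO
    simp only [PBS.fw]
    push_cast
    rw [add_comm (3 * (l : ℂ)), zero_mul, add_zero]
  · have h := (((ts_add Kn_ab 2 (δ := 1) 0 (by norm_num) (by norm_num) (by norm_num) (by norm_num)).mul
      (ts_add Kn_ab 3 (δ := 1) 0 (by norm_num) (by norm_num) (by norm_num) (by norm_num))).div
      ((ts_add Kn_ab 0 (δ := 1) 0 (by norm_num) (by norm_num) (by norm_num) (by norm_num)).mul
      (ts_add Kn_ab (-1) (δ := 1) 0 (by norm_num) (by norm_num) (by norm_num) (by norm_num)))).div rh_Kn.sq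
    refine ⟨_, h.congr rfl fun w _ => ?_⟩
    unfold _root_.RX.kO
    simp only [PBS.fw]
    push_cast
    rw [zero_mul, add_zero, neg_one_mul, ← sub_eq_add_neg]
  · have h := (((ts_add Kf_ab 3 (δ := 1) 0 (by norm_num) (by norm_num) (by norm_num) (by norm_num)).mul
      (ts_sub Kf_ab 3 (δ := 1 / 10) 0 (by norm_num) (by norm_num) (by norm_num) (by norm_num))).mul
      ((ts_add Kf_ab 2 (δ := 1) 0 (by norm_num) (by norm_num) (by norm_num) (by norm_num)).mul
      (ts_sub Kf_ab 2 (δ := 1 / 10) (-1) (by norm_num) (by norm_num) (by norm_num) (by norm_num)))).div rh_Kf.sq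
    refine ⟨_, h.congr rfl fun w _ => ?_⟩
    unfold _root_.RX.kO
    simp only [PBS.fw]
    push_cast
    rw [add_comm (3 * (l : ℂ)), add_comm (2 * (l : ℂ))]

/-- **the row of the other group** -/
theorem kX_TS (e : SignType) : ∃ r : ℝ, TS (KF e) r (kX e) := by
  cases e
  · have h := (ts_add Kf_ab 3 (δ := 1) 0 (by norm_num) (by norm_num) (by norm_num) (by norm_num)).sq.div
      rh_Kf.sq
    refine ⟨_, h.congr rfl fun w _ => ?_⟩
    unfold _root_.RX.kX
    simp only [PBS.gw]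
    push_cast
    rw [sub_neg_eq_add, add_comm (3 * (l : ℂ))]
  · have h := ((ts_add Kn_ab 2 (δ := 1) 0 (by norm_num) (by norm_num) (by norm_num) (by norm_num)).sq.mul
      (ts_add Kn_ab 3 (δ := 1) 0 (by norm_num) (by norm_num) (by norm_num) (by norm_num)).sq).div
      rh_Kn.sq
    refine ⟨_, h.congr rfl fun w _ => ?_⟩
    unfold _root_.RX.kX
    simp only [PBS.gw]
    push_cast
    rw [sub_neg_eq_add, sub_neg_eq_add, add_comm (3 * (l : ℂ)), add_comm (2 * (l : ℂ))]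
  · have h := rh_Kf.sq.inv
    refine ⟨_, h.congr rfl fun w _ => ?_⟩
    unfold _root_.RX.kX
    simp only [PBS.gw]

/-- **the legs and the row itself** -/
theorem k1_le : ∃ C : ℝ, 1 ≤ C ∧ ∀ (e : SignType) (z x0 : ℂ), Ax z → x0.re ∈ Kn →
    ‖k1 z e x0‖ ≤ C := by
  have hl := lpos
  obtain ⟨C, hC, h⟩ := ts_rh (K := Set.Icc (-(37 / 10 * l)) (-(23 / 10 * l))) (fun t h => by
    obtain ⟨h1, h2⟩ := h
    rw [abs_of_nonpos (by linarith)]
    clear * - hl h1
    linarith)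
  refine ⟨3 / 2 * C ^ 2, by (clear * - hC; nlinarith), fun e z x0 hz hx => ?_⟩
  obtain ⟨x1, x2⟩ := hx
  have hre : (z - x0).re ∈ Set.Icc (-(37 / 10 * l)) (-(23 / 10 * l)) := by
    rw [sub_re, hz.1, zero_sub]
    exact ⟨by (clear * - x2; linarith), by (clear * - x1; linarith)⟩
  obtain ⟨h1, h2⟩ := h _ hre
  rw [one_mul] at h1
  have hn : 0 < ‖rh (z - x0)‖ := norm_pos_iff.2 ((ts_rh (K := Set.Icc (-(37 / 10 * l)) (-(23 / 10 * l)))
    (fun t h => by
    obtain ⟨h1, h2⟩ := h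
    rw [abs_of_nonpos (by (clear * - hl h2; linarith))]
    clear * - hl h1
    linarith)).ne hre)
  have sl : ‖Complex.sin (l : ℂ)‖ ≤ 1 := by
    have := PBR.norm_sin_le (l : ℂ)
    rwa [ofReal_im, abs_zero, Real.exp_zero] at this
  have him : ∀ k : ℝ, ‖Complex.sin (z - x0 + ((k * l : ℝ) : ℂ))‖ ≤ Real.exp |(z - x0).im| := fun k => by
    have := PBR.norm_sin_le (z - x0 + ((k * l : ℝ) : ℂ))
    rwa [add_im, ofReal_im, add_zero] at this
  have hE := Real.exp_pos |(z - x0).im|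
  have key : ‖LL z e x0‖ ≤ Real.exp |(z - x0).im| ^ 2 := by
    unfold _root_.RX.LL
    rw [norm_mul]
    have two : ∀ k k' : ℝ, ‖Complex.sin (z - x0 + ((k * l : ℝ) : ℂ)) * Complex.sin (z - x0 + ((k' * l : ℝ) : ℂ))‖ ≤
        Real.exp |(z - x0).im| ^ 2 := fun k k' => by
      rw [norm_mul, sq]
      exact mul_le_mul (him k) (him k') (norm_nonneg _) hE.le
    have q3 : z - x0 - 3 * (l : ℂ) = z - x0 + ((-3 * l : ℝ) : ℂ) := by push_cast; ring
    have q2 : z - x0 - 2 * (l : ℂ) = z - x0 + ((-2 * l : ℝ) : ℂ) := by push_cast; ring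
    have p3 : z - x0 + 3 * (l : ℂ) = z - x0 + ((3 * l : ℝ) : ℂ) := by push_cast; ring
    have p2 : z - x0 + 2 * (l : ℂ) = z - x0 + ((2 * l : ℝ) : ℂ) := by push_cast; ring
    cases e
    · show ‖(1 : ℂ)‖ * ‖Complex.sin (z - x0 + 3 * l) * Complex.sin (z - x0 - 3 * l)‖ ≤ _
      rw [norm_one, one_mul, p3, q3]
      exact two 3 (-3)
    · show ‖Complex.sin (l : ℂ)‖ * ‖Complex.sin (z - x0 - 3 * l) * Complex.sin (z - x0 - 2 * l)‖ ≤ _
      rw [q3, q2]
      exact (mul_le_of_le_one_left (norm_nonneg _) sl).trans (two (-3) (-2))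
    · show ‖Complex.sin (l : ℂ)‖ * ‖Complex.sin (z - x0 + 3 * l) * Complex.sin (z - x0 + 2 * l)‖ ≤ _
      rw [p3, p2]
      exact (mul_le_of_le_one_left (norm_nonneg _) sl).trans (two 3 2)
  unfold _root_.RX.k1
  rw [norm_div, norm_mul, norm_pow, div_le_iff₀ (by
    have : (0 : ℝ) < ‖(2 / 3 : ℂ)‖ := norm_pos_iff.2 (by norm_num)
    positivity)]
  have h23 : ‖(2 / 3 : ℂ)‖ = 2 / 3 := by
    rw [norm_div]
    simp
  rw [h23]
  calc ‖LL z e x0‖ ≤ Real.exp |(z - x0).im| ^ 2 := key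
    _ ≤ (C * ‖rh (z - x0)‖) ^ 2 := by (clear * - h1; gcongr)
    _ = _ := by ring

/-! ### the two mean values of one row -/

/-- the gain of one row `0` of the own group -/
def gn (e : SignType) (h : ℝ) : ℝ := if e = .neg then 0 else 1 / 5 * Real.exp (-(8 / 3) * |h|)

theorem gn_nonneg (e : SignType) (h : ℝ) : 0 ≤ gn e h := by
  unfold gn
  split_ifs
  · exact le_rfl
  · positivity

/-- **one row of the own group** -/
theorem kO_gn {e : SignType} {x : ℂ} (hx : x.re ∈ KF e) :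
    ‖kO e x‖ * Real.exp (MO NUMF.P (kk e) x) ≤ Real.exp (-gn e x.im) := by
  have hl := lpos
  unfold KF at hx
  unfold gn
  split_ifs at hx ⊢ with he
  · subst he
    obtain ⟨h1, h2⟩ := hx
    obtain ⟨n, h⟩ := FarMF.kOn_one (x := x) (by rw [← FarMF.l_eq]; (clear * - hl h1; linarith)) (by rw [← FarMF.l_eq]; (clear * - hl h2; linarith))
    rw [neg_zero, Real.exp_zero]
    exact (FarMF.exp_one (norm_pos_iff.2 n) h).le
  · obtain ⟨h1, h2⟩ := hx
    rw [← neg_mul]
    exact FarMF.kO_le (x := x) (by rw [← FarMF.l_eq]; (clear * - hl h1; linarith)) (by rw [← FarMF.l_eq]; (clear * - hl h2; linarith)) he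

/-- **one row of the other group** -/
theorem kX_gn {e : SignType} {x : ℂ} (hx : x.re ∈ KF e) :
    ‖kX e x‖ * Real.exp (MC NUMF.P (kk e) x) = 1 := by
  have hl := lpos
  unfold KF at hx
  split_ifs at hx with he
  · subst he
    obtain ⟨h1, h2⟩ := hx
    obtain ⟨n, h⟩ := FarMF.kXn_one (x := x) (by rw [← FarMF.l_eq]; (clear * - hl h1; linarith)) (by rw [← FarMF.l_eq]; (clear * - hl h2; linarith))
    exact FarMF.exp_one (norm_pos_iff.2 n) h
  · obtain ⟨h1, h2⟩ := hx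
    exact FarMF.kX_one (x := x) (by rw [← FarMF.l_eq]; (clear * - hl h1; linarith)) (by rw [← FarMF.l_eq]; (clear * - hl h2; linarith)) e

theorem kO_ne {e : SignType} {x : ℂ} (hx : x.re ∈ KF e) : kO e x ≠ 0 := by
  obtain ⟨r, h⟩ := kO_TS e
  exact h.ne hx

theorem kX_ne' {e : SignType} {x : ℂ} (hx : x.re ∈ KF e) : kX e x ≠ 0 := by
  obtain ⟨r, h⟩ := kX_TS e
  exact h.ne hx

/-- a power of the modulus against an exponential of the mean value, numbers `n` and `s` -/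
theorem pow_mean {a M g D : ℝ} (ha : 0 < a) (h : a * Real.exp M ≤ Real.exp (-g)) {n : ℕ} {s : ℝ}
    (hs : 0 ≤ s) (hD : |s - n| ≤ D) :
    a ^ n * Real.exp (s * M) ≤ Real.exp (-(s * g)) * Real.exp (D * |Real.log a|) := by
  have h1 : Real.log a + M ≤ -g := by
    have := Real.log_le_log (mul_pos ha (Real.exp_pos _)) h
    rwa [Real.log_mul ha.ne' (Real.exp_pos _).ne', Real.log_exp, Real.log_exp] at this
  have e : a ^ n = Real.exp (n * Real.log a) := by rw [Real.exp_nat_mul, Real.exp_log ha]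
  rw [e, ← Real.exp_add, ← Real.exp_add]
  refine Real.exp_le_exp.2 ?_
  have h2 : (n - s) * Real.log a ≤ D * |Real.log a| := by
    refine (le_abs_self _).trans ?_
    rw [abs_mul, abs_sub_comm]
    exact mul_le_mul_of_nonneg_right hD (abs_nonneg _)
  clear * - h2 hs h1
  nlinarith

/-- **the direct factors of the moved row against the mean field of its spectators**: `p + |EP|` rows of the
own group, `q + |EQ|` rows of the other group, seas with `sP`, `sQ` rows -/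
theorem pre_le : ∃ C : ℝ, 1 ≤ C ∧ ∀ (e : SignType) (x0 : ℂ), x0.re ∈ KF e → ∀ z : ℂ, Ax z →
    ∀ EP EQ : List ℂ, (∀ x ∈ EP, Ax x) → (∀ x ∈ EQ, Ax x) → ∀ (p q : ℕ) (sP sQ D : ℝ), 0 ≤ sP → 0 ≤ sQ →
    |sP - (EP ++ zr p).length| ≤ D → |sQ - (EQ ++ zr q).length| ≤ D →
    ‖k1 z e x0 * ((∏ i, kO e (x0 - (EP ++ zr p).get i)) * ∏ j, kX e (x0 - (EQ ++ zr q).get j))‖ *
      Real.exp (sP * MO NUMF.P (kk e) x0 + sQ * MC NUMF.P (kk e) x0) ≤
      Real.exp (C * (EP.length + EQ.length + 1 + D) * (1 + |x0.im|)) * Real.exp (-(sP * gn e x0.im)) := by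
  obtain ⟨C1, hC1, h1⟩ := k1_le
  have hr : ∀ e : SignType, ∃ C : ℝ, 1 ≤ C ∧ ∀ w : ℂ, w.re ∈ KF e →
      (∀ x, Ax x → ‖kO e (w - x)‖ ≤ C * ‖kO e w‖) ∧ (∀ x, Ax x → ‖kX e (w - x)‖ ≤ C * ‖kX e w‖) ∧
      |Real.log ‖kO e w‖| ≤ C * (1 + |w.im|) ∧ |Real.log ‖kX e w‖| ≤ C * (1 + |w.im|) := by
    intro e
    obtain ⟨r, hr⟩ := kO_TS e
    obtain ⟨s, hs⟩ := kX_TS e
    obtain ⟨A, hA, a⟩ := hr.ratio
    obtain ⟨B, hB, b⟩ := hs.ratio
    obtain ⟨A', hA', a'⟩ := hr.logb
    obtain ⟨B', hB', b'⟩ := hs.logb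
    have r0 := abs_nonneg r
    have s0 := abs_nonneg s
    refine ⟨A + B + A' + B' + |r| + |s|, by linarith, fun w hw => ⟨fun x hx => ?_, fun x hx => ?_, ?_, ?_⟩⟩
    · refine (a w x hw hx).trans (mul_le_mul_of_nonneg_right (by linarith) (norm_nonneg _))
    · refine (b w x hw hx).trans (mul_le_mul_of_nonneg_right (by linarith) (norm_nonneg _))
    · refine (a' w hw).trans ?_
      have := abs_nonneg w.im
      clear * - hA hB hB' r0 s0 this hA'
      nlinarith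
    · refine (b' w hw).trans ?_
      have := abs_nonneg w.im
      clear * - hA hB hA' r0 s0 this hB'
      nlinarith
  obtain ⟨C2, hC2, h2⟩ : ∃ C : ℝ, 1 ≤ C ∧ ∀ (e : SignType) (w : ℂ), w.re ∈ KF e →
      (∀ x, Ax x → ‖kO e (w - x)‖ ≤ C * ‖kO e w‖) ∧ (∀ x, Ax x → ‖kX e (w - x)‖ ≤ C * ‖kX e w‖) ∧
      |Real.log ‖kO e w‖| ≤ C * (1 + |w.im|) ∧ |Real.log ‖kX e w‖| ≤ C * (1 + |w.im|) := by
    obtain ⟨A, hA, a⟩ := hr .zero
    obtain ⟨B, hB, b⟩ := hr .neg
    obtain ⟨C, hC, c⟩ := hr .pos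
    have mono : ∀ {D E : ℝ} {e : SignType} {w : ℂ}, D ≤ E →
        ((∀ x, Ax x → ‖kO e (w - x)‖ ≤ D * ‖kO e w‖) ∧ (∀ x, Ax x → ‖kX e (w - x)‖ ≤ D * ‖kX e w‖) ∧
        |Real.log ‖kO e w‖| ≤ D * (1 + |w.im|) ∧ |Real.log ‖kX e w‖| ≤ D * (1 + |w.im|)) →
        ((∀ x, Ax x → ‖kO e (w - x)‖ ≤ E * ‖kO e w‖) ∧ (∀ x, Ax x → ‖kX e (w - x)‖ ≤ E * ‖kX e w‖) ∧
        |Real.log ‖kO e w‖| ≤ E * (1 + |w.im|) ∧ |Real.log ‖kX e w‖| ≤ E * (1 + |w.im|)) := by
      intro D E e w hDE h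
      obtain ⟨i1, i2, i3, i4⟩ := h
      have := abs_nonneg w.im
      exact ⟨fun x hx => (i1 x hx).trans (mul_le_mul_of_nonneg_right hDE (norm_nonneg _)),
        fun x hx => (i2 x hx).trans (mul_le_mul_of_nonneg_right hDE (norm_nonneg _)),
        i3.trans (mul_le_mul_of_nonneg_right hDE (by linarith)),
        i4.trans (mul_le_mul_of_nonneg_right hDE (by linarith))⟩
    refine ⟨A + B + C, by linarith, fun e w hw => ?_⟩
    cases e
    · exact mono (by linarith) (a w hw)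
    · exact mono (by linarith) (b w hw)
    · exact mono (by linarith) (c w hw)
  refine ⟨2 * (C1 + C2), by linarith, fun e x0 hx z hz EP EQ hEP hEQ p q sP sQ D hsP hsQ hP hQ => ?_⟩
  obtain ⟨i1, i2, i3, i4⟩ := h2 e x0 hx
  have hO := norm_pos_iff.2 (kO_ne hx)
  have hX := norm_pos_iff.2 (kX_ne' hx)
  have j1 := h1 e z x0 hz (KF_Kn hx)
  have j2 := prod_rows hC2 i1 hEP p
  have j3 := prod_rows hC2 i2 hEQ q
  have m1 := pow_mean hO (kO_gn hx) hsP hP
  have m2 := pow_mean (M := MC NUMF.P (kk e) x0) (g := 0) hX (by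
    rw [neg_zero, Real.exp_zero]
    exact (kX_gn hx).le) hsQ hQ
  rw [mul_zero, neg_zero, Real.exp_zero, one_mul] at m2
  have hD : 0 ≤ D := (abs_nonneg _).trans hP
  have him := abs_nonneg x0.im
  have hC0 : 0 < C1 := by linarith
  have hC3 : 0 < C2 := by linarith
  rw [norm_mul, norm_mul, Real.exp_add]
  have e1 : ∀ n : ℕ, C2 ^ n ≤ Real.exp (C2 * n) := fun n => by
    rw [mul_comm, Real.exp_nat_mul]
    have : C2 ≤ Real.exp C2 := by linarith [Real.add_one_le_exp C2]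
    gcongr
  have e2 : C1 ≤ Real.exp C1 := by linarith [Real.add_one_le_exp C1]
  calc _ ≤ C1 * ((C2 ^ EP.length * ‖kO e x0‖ ^ (EP ++ zr p).length) *
        (C2 ^ EQ.length * ‖kX e x0‖ ^ (EQ ++ zr q).length)) *
        (Real.exp (sP * MO NUMF.P (kk e) x0) * Real.exp (sQ * MC NUMF.P (kk e) x0)) := by
        clear * - j1 j2 j3 hC2 hO hC1
        gcongr
    _ = C1 * C2 ^ EP.length * C2 ^ EQ.length *
        (‖kO e x0‖ ^ (EP ++ zr p).length * Real.exp (sP * MO NUMF.P (kk e) x0)) *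
        (‖kX e x0‖ ^ (EQ ++ zr q).length * Real.exp (sQ * MC NUMF.P (kk e) x0)) := by ring
    _ ≤ Real.exp C1 * Real.exp (C2 * EP.length) * Real.exp (C2 * EQ.length) *
        (Real.exp (-(sP * gn e x0.im)) * Real.exp (D * |Real.log ‖kO e x0‖|)) *
        Real.exp (D * |Real.log ‖kX e x0‖|) := by
        gcongr
        · exact e1 _
        · exact e1 _
    _ ≤ Real.exp C1 * Real.exp (C2 * EP.length) * Real.exp (C2 * EQ.length) *
        (Real.exp (-(sP * gn e x0.im)) * Real.exp (D * (C2 * (1 + |x0.im|)))) *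
        Real.exp (D * (C2 * (1 + |x0.im|))) := by
        clear * - i3 hD i4
        gcongr
    _ = Real.exp (C1 + C2 * EP.length + C2 * EQ.length + D * (C2 * (1 + |x0.im|)) + D * (C2 * (1 + |x0.im|))) *
        Real.exp (-(sP * gn e x0.im)) := by
        simp only [Real.exp_add]
        ring
    _ ≤ Real.exp (2 * (C1 + C2) * (EP.length + EQ.length + 1 + D) * (1 + |x0.im|)) *
        Real.exp (-(sP * gn e x0.im)) := by
        refine mul_le_mul_of_nonneg_right (Real.exp_le_exp.2 ?_) (Real.exp_pos _).le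
        have a1 : (0 : ℝ) ≤ EP.length := by positivity
        have a2 : (0 : ℝ) ≤ EQ.length := by positivity
        have a3 : 0 ≤ C1 * (EP.length + EQ.length + D) := by positivity
        have a4 : 0 ≤ C2 * (EP.length + EQ.length + 1) := by positivity
        have a5 : 0 ≤ C1 * D * |x0.im| := by positivity
        have a6 : 0 ≤ 2 * (C1 + C2) * (EP.length + EQ.length + 1) * |x0.im| := by positivity
        clear * - hC1 hC2 a3 a4 a5 a6 hC0 hD a1 a2
        nlinarith [mul_nonneg hC0.le hD, mul_nonneg hC0.le a1, mul_nonneg hC0.le a2]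

end Pool.Agent.PLX

end
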