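import Pool.Agent.PLX.PB.KMass
import Pool.Agent.PLX.PB.KRow
import Pool.Agent.PLX.KEx

/-!
# PLAX (K): the join of the exact side

`E : Bool → List ℂ` moved rows (`Ax`), `k : Bool → ℕ` rows `0`; `nE E k a = |E a| + k a` rows of the group `a`;
far row `x0` of the group `σ` in the state `e` (`JU z x y w`: `e = -`, `x0 = w + 3 l`).

* `Pf_swap` : the prefactor is symmetric in the two groups;
* `HC E z ζ a t` : the potential of the legs at `z` and of the moved rows;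
* **`exists_KC`** : the value of a content with atoms, groups in any order;
* **`exists_KJ`** : value of the content times the direct factors of the far row times the masses of the
  spectators (atoms `x` and groups `g`) is at most `exp (C ..) * exp (- nE σ * gn e (Im x0))`;
* **`exists_KJ0`** : the same on the line (no curve).
-/

set_option autoImplicit false
set_option linter.unusedSectionVars false
set_option linter.unusedVariables false

noncomputable section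

open Complex MeasureTheory Set Filter Topology
open PLX (EMs)

namespace PBV.PLX

open NUMF (l l_pos)
open NUO (pA)
open PBR (rh)
open PBH (AT)
open PBH.PLX (Atm HS AtOk RL RO RX)
open PB0.PLX (MFo MFx mfs)
open Pool.Agent.PB (Pf)
open Pool.Agent.PLX (zr Ax KF gn)
open _root_.RX (kO kX k1)
open FarMF (MO MC kk)

/-! ### symmetry -/

/-- **the prefactor is symmetric in the two groups** -/
theorem Pf_swap {m M : ℕ} (z : ℂ) (x : Fin m → ℂ) (y : Fin M → ℂ) : Pf z x y = Pf z y x := by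
  have h : Pool.Agent.PB.D2 x y = Pool.Agent.PB.D2 y x := by
    unfold Pool.Agent.PB.D2
    rw [Finset.prod_comm]
    refine Finset.prod_congr rfl fun j _ => Finset.prod_congr rfl fun i _ => ?_
    rw [← PBR.rh_neg, neg_sub]
  unfold Pool.Agent.PB.Pf
  rw [h, add_comm m M, mul_comm (Pool.Agent.PB.Nu z x), mul_comm (Pool.Agent.PB.D1 z x)]

/-- numbers of all rows -/
def nE (E : Bool → List ℂ) (k : Bool → ℕ) (a : Bool) : ℝ := ((E a).length : ℝ) + k a

lemma nE_nonneg (E : Bool → List ℂ) (k : Bool → ℕ) (a : Bool) : 0 ≤ nE E k a := by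
  unfold nE
  positivity

lemma nS_nE (E : Bool → List ℂ) (k : Bool → ℕ) :
    nS (E true) (E false) (k true) (k false) = nE E k := by
  funext a
  cases a <;> rfl

/-- the potential of the legs at `z` and of the moved rows -/
def HC (E : Bool → List ℂ) (z : ℂ) (ζ : Bool → ℝ → ℝ) (a : Bool) (t : ℝ) : ℝ :=
  AT z.re (z.re - 3 * l) z.im (ζ a) t + RL E ζ a t

lemma HE_HC (E : Bool → List ℂ) (z : ℂ) (ζ : Bool → ℝ → ℝ) (a : Bool) (t : ℝ) :
    HE (E true) (E false) z ζ a t = HC E z ζ a t := by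
  unfold HE HC PBH.PLX.RL
  cases a <;> simp [add_assoc]

/-- the size of a content -/
def dE (E : Bool → List ℂ) : ℝ := ((E true).length : ℝ) + (E false).length + 1

lemma dE_one (E : Bool → List ℂ) : 1 ≤ dE E := by
  unfold dE
  have : (0:ℝ) ≤ ((E true).length : ℝ) + (E false).length := by positivity
  linarith

lemma ax_box {x : ℂ} (h : Ax x) : |x.re| ≤ l / 2 ∧ |x.im| ≤ 1 := by
  have hl := l_pos
  refine ⟨?_, h.2⟩
  rw [h.1, abs_zero]
  positivity

/-- **the value of a content with atoms**, the groups in any order -/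
theorem exists_KC {δ : ℝ} (hδ : 0 < δ) (hδ1 : δ ≤ l / 2) : ∃ C : ℝ, 1 ≤ C ∧
    ∀ (E : Bool → List ℂ) (k : Bool → ℕ) (z : ℂ), (∀ a, ∀ x ∈ E a, Ax x) → Ax z →
    ∀ (n : ℕ) (K : ℝ) (x : Bool → Fin n → Atm), 0 ≤ K → AtOk K δ x →
    ∀ (h0 : ℝ) (ζ : Bool → ℝ → ℝ), (∀ a t, |ζ a t| ≤ δ / 2) → (∀ a, Continuous (ζ a)) →
      (∀ a t, |nE E k a * NUMF.P t * ζ a t| ≤ h0) →
      (∀ a, Integrable (fun t => nE E k a * NUMF.P t * (HC E z ζ a t + HS x ζ a t))) ∧
      ∀ σ : Bool, ‖Pf z (E σ ++ zr (k σ)).get (E (!σ) ++ zr (k !σ)).get‖ * Real.exp (EMs (nE E k) +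
        ∑ a, ∫ t, nE E k a * NUMF.P t * (HC E z ζ a t + HS x ζ a t)) ≤
        Real.exp (C * (dE E ^ 2 + (dE E + n * K) * h0) + ∑ a, nE E k a * mHS x a) := by
  obtain ⟨C, hC, H⟩ := exists_KValS hδ hδ1
  have hl := l_pos
  refine ⟨C, hC, ?_⟩
  intro E k z hE hz n K x hK hx h0 ζ hζ hc hh
  have hz' := ax_box hz
  obtain ⟨z1, z2⟩ := abs_le.1 hz'.1
  have h := H (E true) (E false) (k true) (k false) z (fun x hx => ax_box (hE true x hx))
    (fun x hx => ax_box (hE false x hx)) z1 (by linarith) n K x hK hx h0 ζ hζ hc (by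
      rw [nS_nE]
      exact hh)
  simp only [nS_nE, HE_HC] at h
  obtain ⟨h1, h2⟩ := h
  refine ⟨h1, fun σ => ?_⟩
  cases σ
  · rw [Pf_swap]
    exact h2
  · exact h2

/-- **the join of the exact side** -/
theorem exists_KJ {δ : ℝ} (hδ : 0 < δ) (hδ1 : δ ≤ l / 2) : ∃ C : ℝ, 1 ≤ C ∧
    ∀ (e : SignType) (x0 : ℂ), x0.re ∈ KF e → ∀ (σ : Bool) (E : Bool → List ℂ) (k : Bool → ℕ) (z : ℂ),
    (∀ a, ∀ x ∈ E a, Ax x) → Ax z →
    ∀ (n : ℕ) (K : ℝ) (x : Bool → Fin n → Atm), 0 ≤ K → AtOk K δ x →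
    ∀ (n' : ℕ) (g : Fin n' → NUSea.PLX.H0.Gd),
    (∀ a t, ‖Sfar e x0 σ a (pA (fun _ => 0) t)‖ = NUGC.PLX.spF g a (pA (fun _ => 0) t) *
      Real.exp (HS x (fun _ _ => 0) a t)) →
    ∀ (h0 : ℝ) (ζ : Bool → ℝ → ℝ), (∀ a t, |ζ a t| ≤ δ / 2) → (∀ a, Continuous (ζ a)) →
      (∀ a t, |nE E k a * NUMF.P t * ζ a t| ≤ h0) →
      (∀ a, Integrable (fun t => nE E k a * NUMF.P t * (HC E z ζ a t + HS x ζ a t))) ∧
      ‖Pf z (E σ ++ zr (k σ)).get (E (!σ) ++ zr (k !σ)).get *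
        (k1 z e x0 * ((∏ i, kO e (x0 - (E σ ++ zr (k σ)).get i)) *
          ∏ j, kX e (x0 - (E (!σ) ++ zr (k !σ)).get j)))‖ *
        Real.exp (EMs (nE E k) + (∑ a, ∫ t, nE E k a * NUMF.P t * (HC E z ζ a t + HS x ζ a t)) +
          ∑ i, mfs (nE E k) MFo MFx (g i).σ (g i).c (g i).w) ≤
        Real.exp (C * (dE E ^ 2 + (dE E + n * K) * h0 + dE E * (1 + |x0.im|))) *
          Real.exp (-(nE E k σ * gn e x0.im)) := by
  obtain ⟨C1, hC1, H1⟩ := exists_KC hδ hδ1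
  obtain ⟨C2, hC2, H2⟩ := Pool.Agent.PLX.pre_le
  refine ⟨C1 + C2, by linarith, ?_⟩
  intro e x0 hx0 σ E k z hE hz n K x hK hx n' g hS h0 ζ hζ hc hh
  obtain ⟨i1, h1⟩ := H1 E k z hE hz n K x hK hx h0 ζ hζ hc hh
  refine ⟨i1, ?_⟩
  have hh0 : 0 ≤ h0 := (abs_nonneg _).trans (hh true 0)
  have h1 := h1 σ
  have hm := mass_far hδ hx g e x0 σ hS (nE E k)
  have h2 := H2 e x0 hx0 z hz (E σ) (E !σ) (hE σ) (hE !σ) (k σ) (k !σ) (nE E k σ) (nE E k !σ) 0
    (nE_nonneg _ _ _) (nE_nonneg _ _ _) (by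
      rw [List.length_append, Pool.Agent.PLX.zr, List.length_replicate]
      unfold nE
      push_cast
      rw [sub_self, abs_zero]) (by
      rw [List.length_append, Pool.Agent.PLX.zr, List.length_replicate]
      unfold nE
      push_cast
      rw [sub_self, abs_zero])
  rw [← hm] at h2
  have hd : ((E σ).length : ℝ) + (E !σ).length + 1 + 0 = dE E := by
    unfold dE
    cases σ
    · show ((E false).length : ℝ) + (E true).length + 1 + 0 = _
      ring
    · show ((E true).length : ℝ) + (E false).length + 1 + 0 = _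
      ring
  rw [hd] at h2
  obtain ⟨A, hA⟩ : ∃ A : ℝ, A = ‖Pf z (E σ ++ zr (k σ)).get (E (!σ) ++ zr (k !σ)).get‖ := ⟨_, rfl⟩
  obtain ⟨B, hB⟩ : ∃ B : ℝ, B = ‖k1 z e x0 * ((∏ i, kO e (x0 - (E σ ++ zr (k σ)).get i)) *
    ∏ j, kX e (x0 - (E (!σ) ++ zr (k !σ)).get j))‖ := ⟨_, rfl⟩
  rw [norm_mul, ← hA, ← hB]
  rw [← hA] at h1
  rw [← hB] at h2
  obtain ⟨S, hSd⟩ : ∃ S : ℝ, S = ∑ a, ∫ t, nE E k a * NUMF.P t * (HC E z ζ a t + HS x ζ a t) := ⟨_, rfl⟩
  obtain ⟨T, hT⟩ : ∃ T : ℝ, T = ∑ i, mfs (nE E k) MFo MFx (g i).σ (g i).c (g i).w := ⟨_, rfl⟩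
  obtain ⟨U, hU⟩ : ∃ U : ℝ, U = ∑ a, nE E k a * mHS x a := ⟨_, rfl⟩
  rw [← hSd, ← hT]
  rw [← hSd, ← hU] at h1
  rw [← hU, ← hT] at h2
  have hA0 : 0 ≤ A := by
    rw [hA]
    exact norm_nonneg _
  have hB0 : 0 ≤ B := by
    rw [hB]
    exact norm_nonneg _
  have hd1 := dE_one E
  have e1 : A * B * Real.exp (EMs (nE E k) + S + T) =
      (A * Real.exp (EMs (nE E k) + S)) * Real.exp (-U) * (B * Real.exp (U + T)) := by
    rw [show EMs (nE E k) + S + T = (EMs (nE E k) + S) + -U + (U + T) by ring, Real.exp_add,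
      Real.exp_add]
    ring
  rw [e1]
  have h3 : (A * Real.exp (EMs (nE E k) + S)) * Real.exp (-U) ≤
      Real.exp (C1 * (dE E ^ 2 + (dE E + n * K) * h0)) := by
    calc _ ≤ Real.exp (C1 * (dE E ^ 2 + (dE E + n * K) * h0) + U) * Real.exp (-U) :=
          mul_le_mul_of_nonneg_right h1 (Real.exp_pos _).le
      _ = _ := by
        rw [← Real.exp_add]
        congr 1
        ring
  calc (A * Real.exp (EMs (nE E k) + S)) * Real.exp (-U) * (B * Real.exp (U + T))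
      ≤ Real.exp (C1 * (dE E ^ 2 + (dE E + n * K) * h0)) *
        (Real.exp (C2 * dE E * (1 + |x0.im|)) * Real.exp (-(nE E k σ * gn e x0.im))) :=
        mul_le_mul h3 h2 (by positivity) (Real.exp_pos _).le
    _ ≤ _ := by
        rw [← mul_assoc, ← Real.exp_add]
        refine mul_le_mul_of_nonneg_right (Real.exp_le_exp.2 ?_) (Real.exp_pos _).le
        have p1 : 0 ≤ (n : ℝ) * K := by positivity
        have p2 : 0 ≤ C2 * (dE E ^ 2 + (dE E + n * K) * h0) := by positivity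
        have p3 : 0 ≤ C1 * (dE E * (1 + |x0.im|)) := by positivity
        nlinarith

/-- the integrals on the line -/
theorem int_line {δ K : ℝ} (hδ : 0 < δ) (hδ1 : δ ≤ l / 2) {n : ℕ} {x : Bool → Fin n → Atm}
    (hx : AtOk K δ x) {E : Bool → List ℂ} (k : Bool → ℕ) {z : ℂ} (hE : ∀ a, ∀ x ∈ E a, Ax x) (hz : Ax z)
    (a : Bool) : ∫ t, nE E k a * NUMF.P t * (HC E z (fun _ _ => 0) a t + HS x (fun _ _ => 0) a t) =
      nE E k a * (lin (E true) (E false) a + NUMFH.lE z + ∫ t, NUMF.P t * HS x (fun _ _ => 0) a t) := by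
  have hl := l_pos
  have hz' := ax_box hz
  obtain ⟨z1, z2⟩ := abs_le.1 hz'.1
  have h := exists_HE hδ hδ1 (E true) (E false) z (fun x hx => (ax_box (hE true x hx)).1)
    (fun x hx => (ax_box (hE false x hx)).1) (by linarith) (by linarith) a (nE E k a) 0 (fun _ _ => 0)
    (nE_nonneg E k a) (fun t => by
      rw [abs_zero]
      positivity) continuous_const (fun t => by
      rw [mul_zero, abs_zero])
  simp only [HE_HC] at h
  obtain ⟨i1, e1⟩ := h
  rw [mul_zero] at e1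
  have e1 := sub_eq_zero.1 (abs_nonpos_iff.1 e1)
  obtain ⟨i2, -⟩ := int_HS hδ hx a
  have i3 := i2.const_mul (nE E k a)
  have e : (fun t => nE E k a * NUMF.P t * (HC E z (fun _ _ => 0) a t + HS x (fun _ _ => 0) a t)) =
      fun t => nE E k a * NUMF.P t * HC E z (fun _ _ => 0) a t +
        nE E k a * (NUMF.P t * HS x (fun _ _ => 0) a t) := by
    funext t
    ring
  rw [e, integral_add i1 i3, e1, integral_const_mul]
  ring

/-- **the join of the exact side, on the line** -/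
theorem exists_KJ0 {δ : ℝ} (hδ : 0 < δ) (hδ1 : δ ≤ l / 2) : ∃ C : ℝ, 1 ≤ C ∧
    ∀ (e : SignType) (x0 : ℂ), x0.re ∈ KF e → ∀ (σ : Bool) (E : Bool → List ℂ) (k : Bool → ℕ) (z : ℂ),
    (∀ a, ∀ x ∈ E a, Ax x) → Ax z →
    ∀ (n : ℕ) (K : ℝ) (x : Bool → Fin n → Atm), 0 ≤ K → AtOk K δ x →
    ∀ (n' : ℕ) (g : Fin n' → NUSea.PLX.H0.Gd),
    (∀ a t, ‖Sfar e x0 σ a (pA (fun _ => 0) t)‖ = NUGC.PLX.spF g a (pA (fun _ => 0) t) *
      Real.exp (HS x (fun _ _ => 0) a t)) →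
      ‖Pf z (E σ ++ zr (k σ)).get (E (!σ) ++ zr (k !σ)).get *
        (k1 z e x0 * ((∏ i, kO e (x0 - (E σ ++ zr (k σ)).get i)) *
          ∏ j, kX e (x0 - (E (!σ) ++ zr (k !σ)).get j)))‖ *
        Real.exp (EMs (nE E k) + (∑ a, nE E k a * (lin (E true) (E false) a + NUMFH.lE z +
          ∫ t, NUMF.P t * HS x (fun _ _ => 0) a t)) +
          ∑ i, mfs (nE E k) MFo MFx (g i).σ (g i).c (g i).w) ≤
        Real.exp (C * (dE E ^ 2 + dE E * (1 + |x0.im|))) * Real.exp (-(nE E k σ * gn e x0.im)) := by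
  obtain ⟨C, hC, H⟩ := exists_KJ hδ hδ1
  refine ⟨C, hC, ?_⟩
  intro e x0 hx0 σ E k z hE hz n K x hK hx n' g hS
  have h := (H e x0 hx0 σ E k z hE hz n K x hK hx n' g hS 0 (fun _ _ => 0) (fun a t => by
    rw [abs_zero]
    positivity) (fun _ => continuous_const) (fun a t => by
    rw [mul_zero, abs_zero])).2
  simp only [int_line hδ hδ1 hx k hE hz] at h
  rw [mul_zero, add_zero] at h
  exact h

end PBV.PLX

end
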