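import Pool.Agent.PLX.KJoin
import Pool.Agent.PLX.PB.KGeoA

/-!
# PLAX (K): the join of the exact side for the instances `KI`

`y : KI n` admissible at the size `m` (`KOk`); far row `x0` in the state `e`, group `σ`; groups `g` and
spectators `y.S` with `‖Sfar e x0 σ a u‖ = spF g a u * y.S a u` on the line:

* **`exists_KJI`** : `‖Pf * k1 * prod kO * prod kX‖ * exp (y.em + ∑ i, MF (g i)) ≤
  exp (C (1 + |Im x0|)) * exp (- sN m σ * gn e (Im x0))`.
-/

set_option autoImplicit false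
set_option linter.unusedSectionVars false
set_option linter.unusedVariables false

noncomputable section

open Complex MeasureTheory Set Filter Topology
open PLX (EMs Fil Ends)

namespace PBK.PLX

open NUMF (l l_pos)
open NUO (pA)
open PBH.PLX (Atm HS AtOk)
open PotH.PLX (sN)
open PB0.PLX (MFo MFx mfs)
open PBV.PLX (nE Sfar dE exists_KJ0)
open Pool.Agent.PB (Pf)
open Pool.Agent.PLX (zr Ax KF gn)
open _root_.RX (kO kX k1)

lemma KI.s_nE {n : ℕ} (y : KI n) : nE y.E y.k = y.s := by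
  funext a
  cases a <;> rfl

/-- **the join of the exact side for an instance** -/
theorem exists_KJI [Fil] [Ends] (n' : ℕ) {K δ : ℝ} (hδ : 0 < δ) (hδ1 : δ ≤ l / 2) : ∃ C : ℝ, 1 ≤ C ∧
    ∀ (n : ℕ) (Sp : (Bool → ℂ → ℝ) → Prop) (m : ℕ) (y : KI n), KOk n' K δ Sp m y →
    ∀ (e : SignType) (x0 : ℂ), x0.re ∈ KF e → ∀ (σ : Bool) (k' : ℕ) (g : Fin k' → NUSea.PLX.H0.Gd),
    (∀ a t, ‖Sfar e x0 σ a (pA (fun _ => 0) t)‖ = NUGC.PLX.spF g a (pA (fun _ => 0) t) *
      y.S a (pA (fun _ => 0) t)) →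
      ‖Pf y.z (y.W σ).get (y.W !σ).get * (k1 y.z e x0 * ((∏ i, kO e (x0 - (y.W σ).get i)) *
          ∏ j, kX e (x0 - (y.W !σ).get j)))‖ *
        Real.exp (y.em + ∑ i, mfs (sN m) MFo MFx (g i).σ (g i).c (g i).w) ≤
        Real.exp (C * (1 + |x0.im|)) * Real.exp (-(sN m σ * gn e x0.im)) := by
  have hl := l_pos
  obtain ⟨C, hC, H⟩ := exists_KJ0 hδ hδ1
  refine ⟨C * (2 * ((n' : ℝ) + 1) ^ 2), by
    have : (1:ℝ) ≤ ((n' : ℝ) + 1) ^ 2 := one_le_pow₀ (by
      have : (0:ℝ) ≤ n' := by positivity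
      linarith)
    nlinarith, ?_⟩
  intro n Sp m y hy e x0 hx0 σ k' g hS
  have h := H e x0 hx0 σ y.E y.k y.z hy.ax hy.z n (max K 0) y.x (le_max_right _ _)
    (AtOk.mono hy.atm (le_max_left _ _)) k' g (fun a t => by
      rw [hS a t, hy.cur (fun _ => 0) (fun t => by
        rw [abs_zero]
        positivity) a t])
  have hs : y.s = sN m := funext fun a => hy.s_eq a
  rw [KI.s_nE, hs] at h
  have hem : y.em = EMs (sN m) + ∑ a, sN m a * (PBV.PLX.lin (y.E true) (y.E false) a +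
      NUMFH.lE y.z + ∫ t, NUMF.P t * HS y.x (fun _ _ => 0) a t) := by
    unfold KI.em
    rw [hs]
  rw [← hem] at h
  refine h.trans (mul_le_mul_of_nonneg_right (Real.exp_le_exp.2 ?_) (Real.exp_pos _).le)
  have h1 : dE y.E ≤ n' + 1 := by
    have h2 := hy.len
    have h3 : (((y.E true).length : ℝ) + (y.E false).length) ≤ n' := by exact_mod_cast h2
    unfold PBV.PLX.dE
    linarith
  have h0 := PBV.PLX.dE_one y.E
  have h4 : dE y.E ^ 2 ≤ ((n' : ℝ) + 1) ^ 2 := pow_le_pow_left₀ (by linarith) h1 2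
  have h5 : (n' : ℝ) + 1 ≤ ((n' : ℝ) + 1) ^ 2 := by
    have : (0:ℝ) ≤ n' := by positivity
    nlinarith
  have h6 : 0 ≤ |x0.im| := abs_nonneg _
  have h7 : dE y.E * (1 + |x0.im|) ≤ ((n' : ℝ) + 1) ^ 2 * (1 + |x0.im|) :=
    mul_le_mul_of_nonneg_right (h1.trans h5) (by linarith)
  have h8 : dE y.E ^ 2 ≤ ((n' : ℝ) + 1) ^ 2 * (1 + |x0.im|) := by
    have : 0 ≤ ((n' : ℝ) + 1) ^ 2 * |x0.im| := by positivity
    linarith
  rw [mul_assoc]
  refine mul_le_mul_of_nonneg_left ?_ (by linarith)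
  linarith

end PBK.PLX

end
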