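import Pool.Agent.PLX.DZUcls
import Pool.Agent.PLX.MinU
import Pool.Agent.PLX.PB.HolU
import Pool.Agent.NUP1L.Swap

/-!
# PLAX (K): the exact half of the bounds, contents of any sizes, one group with spectators of a charge

* `SpW q s` : spectators of growth `exp (2 q |Im|)`, analytic on `-23/10 l ≤ Re ≤ 21/20 l`;
  instances `SpW.Lg`, `SpW.sX`, `SpW.sY`, `SpW.far`;
* `spS σ S T a` : `S` on the species `σ`, `T` on the other one; `kq σ κ` : the charge `κ` of `σ`, seen from X;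
* `ZK c β ro ex ex0 s` : the class functions; `oneC_ZK`, `decZ_ZK`;
* **`DZ_ZK`** : the state sum is the functional `FF (ZK ..)`;
* **`KRep`** : the sum over the charges `κ` with first group the rows of the species `σ` is at most
  `∑ k < 2 m + 1, FE (ZK ..) P (k + aX) (k + aY) .. 1`;
* `nzU_KRep`, `JU_KRep`, `cF_KRep` : the three functions; `JU_closed` : bounds in the closed strip.
-/

set_option autoImplicit false
set_option linter.unusedSectionVars false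
set_option linter.unusedVariables false

noncomputable section

open Complex MeasureTheory
open scoped ENNReal

namespace Pool.Agent.PLX

open NUO NUP1 NUP1S NUP1.Bd NURow
open NUP1.N (Z3 Z3_swap)
open PBX (Rws ph GOk KK K1_KK Lg gP Lg_meas Lg_diff Lg_gr Bdd_of_Gr)
open PBX.PLX (obU oneC_XXU)
open PBC.PLX (DecZ)
open PBF.PLX (FF FE FA Crs)
open NUGC.PLX (ParC OneC SpecAt SpecS)
open _root_.RX (sumU Wo Vo kO kX k1 LL Fr Fr_of)
open Pool.Agent.PB (Pf LS cn)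
open PBS (Th)
open _root_.PLX (Fil)

/-! ### the spectators -/

/-- **spectators of growth `exp (2 q |Im|)`** on the strip of all lines -/
structure SpW (q : ℝ) (s : ℂ → ℂ) : Prop where
  meas : Measurable s
  diff : ∀ z : ℂ, -(23 / 10 * l) ≤ z.re → z.re ≤ 21 / 20 * l → DifferentiableAt ℂ s z
  gr : Gr (21 / 20 * l) (-(23 / 10 * l)) (2 * q) s

theorem SpW.mul {q r : ℝ} {s t : ℂ → ℂ} (h : SpW q s) (k : SpW r t) : SpW (q + r) (fun u => s u * t u) where
  meas := h.meas.mul k.meas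
  diff z h1 h2 := (h.diff z h1 h2).mul (k.diff z h1 h2)
  gr := (h.gr.mul k.gr).mono (le_of_eq (by ring))

theorem SpW.spU {q : ℝ} {s : ℂ → ℂ} (h : SpW q s) : SpU q s where
  meas := h.meas
  diff z h1 h2 := by
    have hl := lpos
    exact h.diff z (by linarith) (by linarith)
  gr := by
    have hl := lpos
    obtain ⟨C, R, hC, hb⟩ := h.gr
    exact ⟨C, R, hC, fun z h1 h2 hi => hb z (by linarith) (by linarith) hi⟩

/-- the shifted spectator -/
theorem SpW.shift {q : ℝ} {s : ℂ → ℂ} (h : SpW q s) :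
    (∀ w : ℂ, w.re ∈ K2 → DifferentiableAt ℂ (fun w => s w * s (w - l)) w) ∧
      Bdd K2 (4 * q) fun w => s w * s (w - l) := by
  have hl := lpos
  have hd : ∀ w : ℂ, w.re ∈ K2 → DifferentiableAt ℂ (fun w => s w * s (w - l)) w := by
    rintro w ⟨h1, h2⟩
    refine (h.diff w (by linarith) (by linarith)).mul ?_
    refine (h.diff (w - l) ?_ ?_).comp w (differentiableAt_id.sub_const _)
    · have e : (w - (l : ℂ)).re = w.re - l := by simp
      rw [e]
      linarith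
    · have e : (w - (l : ℂ)).re = w.re - l := by simp
      rw [e]
      linarith
  refine ⟨hd, ?_⟩
  obtain ⟨C, R, hC, hb⟩ := h.gr
  refine PBX.bdd_glueR (R := R) isCompact_K2 (fun z hz => (hd z hz).continuousAt)
    ⟨C * C, by positivity, fun z hz hi => ?_⟩
  have e : (z - (l : ℂ)).re = z.re - l := by simp
  have e' : (z - (l : ℂ)).im = z.im := by simp
  obtain ⟨h1, h2⟩ := hz
  have b1 := hb z (by linarith) (by linarith) hi
  have b2 := hb (z - l) (by rw [e]; linarith) (by rw [e]; linarith) (by rw [e']; exact hi)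
  rw [e'] at b2
  rw [norm_mul]
  calc ‖s z‖ * ‖s (z - l)‖ ≤ (C * Real.exp (2 * q * |z.im|)) * (C * Real.exp (2 * q * |z.im|)) :=
        mul_le_mul b1 b2 (norm_nonneg _) (by positivity)
    _ = C * C * Real.exp (4 * q * |z.im|) := by
        have e3 : Real.exp (4 * q * |z.im|) = Real.exp (2 * q * |z.im|) * Real.exp (2 * q * |z.im|) := by
          rw [← Real.exp_add]
          congr 1
          ring
        rw [e3]
        ring

theorem sc_A (a : Bool) : sc (a, .A) = if a then 1 else -1 := by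
  cases a <;> simp [sc, Bd.chg]

/-- the data of the class formula -/
theorem SpW.specQ {a : Bool} {q : ℝ} {s : ℂ → ℂ} (h : SpW (sc (a, .A) * q) s) :
    SpecQ a (-q) s (fun w => s w * s (w - l)) := by
  have hl := lpos
  have d1 : ∀ z : ℂ, z.re ∈ K1 → DifferentiableAt ℂ s z := by
    rintro z (⟨h1, h2⟩ | ⟨h1, h2⟩)
    · exact h.diff z (by linarith) (by linarith)
    · exact h.diff z (by linarith) (by linarith)
  refine ⟨h.meas, h.meas.mul (h.meas.comp (measurable_id.sub_const _)), ?_, ?_, d1, h.shift.1,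
    fun z _ => rfl⟩
  · have h1 := Bdd_of_Gr (K := K1) isCompact_K1 (α := 21 / 20 * l) (β := -(23 / 10 * l))
      (s := 2 * (sc (a, .A) * q)) (by
        rintro r (⟨h1, h2⟩ | ⟨h1, h2⟩)
        · constructor <;> linarith
        · constructor <;> linarith) h.gr (fun z hz => (d1 z hz).continuousAt)
    exact h1.rate (by ring)
  · refine h.shift.2.rate ?_
    rw [sc_S]
    ring

theorem SpW.specAt {a : Bool} {q : ℝ} {s : ℂ → ℂ} (h : SpW (sc (a, .A) * q) s) {x0 : ℝ}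
    (hx0 : 3 / 5 * l ≤ x0) : SpecAt x0 a (-q) s := by
  have hl := lpos
  have hd : ∀ z : ℂ, z.re ∈ Set.Icc x0 (21 / 20 * l) → DifferentiableAt ℂ s z := fun z hz =>
    h.diff z (by linarith [hz.1]) hz.2
  refine ⟨?_, hd⟩
  have h1 := Bdd_of_Gr (K := Set.Icc x0 (21 / 20 * l)) isCompact_Icc (α := 21 / 20 * l)
    (β := -(23 / 10 * l)) (s := 2 * (sc (a, .A) * q)) (by
      rintro r ⟨h1, h2⟩
      constructor <;> linarith) h.gr (fun z hz => (hd z hz).continuousAt)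
  exact h1.rate (by ring)

theorem specS_mul (P : NUO.Par) (s : ℂ → ℂ) : SpecS P ∅ s (fun w => s w * s (w - l)) :=
  ⟨fun t _ => le_of_eq (norm_mul _ _), fun r e t _ _ _ => le_of_eq (norm_mul _ _)⟩

/-! #### instances -/

/-- the legs -/
theorem SpW.leg {z : ℂ} (h1 : -(19 / 20 * l) < z.re) (h2 : z.re < 37 / 10 * l) : SpW 0 (Lg z z) where
  meas := Lg_meas z z
  diff u h3 h4 := Lg_diff (sin_pos_of (by linarith) (by linarith)).ne'
  gr := by
    rw [mul_zero]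
    exact Lg_gr _ _ z z

/-- the minus row, own group -/
theorem SpW.minusX (w : ℂ) : SpW 1 (fun u => sin (u - w) * sin (u - w - 2 * l)) where
  meas := by fun_prop
  diff u _ _ := by fun_prop
  gr := sX_gr _ _ w

/-- the minus row, other group -/
theorem SpW.minusY {w : ℂ} (hw : |w.re| < 7 / 10 * l) : SpW (-1) (fun v => 1 / sin (v - w + 3 * l) ^ 2) where
  meas := by fun_prop
  diff u h3 h4 := by
    have hl := lpos
    obtain ⟨h1, h2⟩ := abs_lt.1 hw
    have h0 : sin (u - w + 3 * l) ≠ 0 := by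
      refine Bd.sin_ne_zero_of_re ?_
      have e : (u - w + 3 * (l : ℂ)).re = u.re - w.re + 3 * l := by simp
      rw [e]
      exact (sin_pos_of (by linarith) (by linarith)).ne'
    fun_prop (disch := exact pow_ne_zero _ h0)
  gr := sY_gr _ _ w

/-- the spectators of `JU` -/
theorem SpW.sX {z w : ℂ} (hz : |z.re| < 7 / 10 * l) : SpW 1 (sX z w) := by
  have hl := lpos
  obtain ⟨h1, h2⟩ := abs_lt.1 hz
  have h := (SpW.leg (z := z) (by linarith) (by linarith)).mul (SpW.minusX w)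
  rw [zero_add] at h
  exact h

theorem SpW.sY {z w : ℂ} (hz : |z.re| < 7 / 10 * l) (hw : |w.re| < 7 / 10 * l) : SpW (-1) (sY z w) := by
  have hl := lpos
  obtain ⟨h1, h2⟩ := abs_lt.1 hz
  have h := (SpW.leg (z := z) (by linarith) (by linarith)).mul (SpW.minusY hw)
  rw [zero_add] at h
  exact h

/-- the states of a far row -/
theorem SpW.far (e : SignType) {z x0 : ℂ} (hz : |z.re| < 7 / 10 * l) (h1 : 41 / 20 * l < x0.re)
    (h2 : x0.re < 27 / 10 * l) :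
    SpW ((ch e : ℤ) : ℝ) (fun u => Th z u * Wo e (u - x0)) ∧
      SpW (-((ch e : ℤ) : ℝ)) (fun u => Th z u * Vo e (u - x0)) := by
  have hl := lpos
  obtain ⟨z1, z2⟩ := abs_lt.1 hz
  have hL : SpW 0 (Th z) := SpW.leg (z := z) (by linarith) (by linarith)
  have hv : ∀ u : ℂ, -(23 / 10 * l) ≤ u.re → u.re ≤ 21 / 20 * l →
      -(5 * l) < (u - x0).re ∧ (u - x0).re < -l := fun u h3 h4 => by
    rw [sub_re]
    constructor <;> linarith
  have hW : SpW ((ch e : ℤ) : ℝ) (fun u => Wo e (u - x0)) :=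
    ⟨(Wo_meas e).comp (measurable_id.sub_const _), fun u h3 h4 =>
      (Wo_diff e (hv u h3 h4).1 (hv u h3 h4).2).comp u (differentiableAt_id.sub_const _),
      (far_gr e _ _ x0).1⟩
  have hV : SpW (-((ch e : ℤ) : ℝ)) (fun u => Vo e (u - x0)) :=
    ⟨(Vo_meas e).comp (measurable_id.sub_const _), fun u h3 h4 =>
      (Vo_diff e (hv u h3 h4).1 (hv u h3 h4).2).comp u (differentiableAt_id.sub_const _),
      (far_gr e _ _ x0).2⟩
  have k1 := hL.mul hW
  have k2 := hL.mul hV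
  rw [zero_add] at k1 k2
  exact ⟨k1, k2⟩

/-! ### exchange of the two groups -/

theorem DZU_swap {m M : ℕ} (c c' : ℂ) (s t : ℂ → ℂ) (x : Fin m → ℂ) (y : Fin M → ℂ) (n n' : ℕ) :
    DZU c c' s t x y n n' = DZU c' c t s y x n' n := by
  unfold DZU
  rw [Z3_swap]

theorem sumU_swap {m M : ℕ} (Q : ℤ) (F : ℕ → ℕ → ℂ) :
    sumU m M Q F = sumU M m (-Q) fun n n' => F n' n := by
  unfold RX.sumU
  rw [Finset.sum_comm]
  refine Finset.sum_congr rfl fun n' _ => Finset.sum_congr rfl fun n _ => ?_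
  by_cases h : (n' : ℤ) + m = n + M + Q
  · rw [if_pos h, if_pos (by linarith)]
  · rw [if_neg h, if_neg fun h' => h (by linarith)]

/-! ### the class functions -/

/-- the species `σ` has `S`, the other one `T` -/
def spS {α : Type*} (σ : Bool) (S T : α) (a : Bool) : α := if a = σ then S else T

/-- a charge `κ` of the species `σ`, seen from X -/
def kq (σ : Bool) (κ : ℤ) : ℤ := if σ then κ else -κ

theorem kq_cast (σ : Bool) (κ : ℤ) : ((kq σ κ : ℤ) : ℝ) = sc (σ, .A) * κ := by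
  cases σ <;> simp [kq, sc, Bd.chg]

theorem SpW.spS {σ : Bool} {κ : ℤ} {S T : ℂ → ℂ} (hS : SpW κ S) (hT : SpW (-(κ : ℝ)) T) (a : Bool) :
    SpW (sc (a, .A) * ((kq σ κ : ℤ) : ℝ)) (spS σ S T a) := by
  rw [kq_cast, sc_A, sc_A]
  cases σ <;> cases a <;> simp [PLX.spS] <;> assumption

variable {N : Bool → ℕ}

/-- **the class functions**: constants `c a`, rows `ro a`, cutoff points, spectators `s a` -/
def ZK (c : Bool → ℂ) (β : ℝ) (ro : ∀ a, Fin (N a) → ℂ) (ex ex0 : Bool → List ℂ)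
    (s : Bool → ℂ → ℂ) : Bool → Option O3 → ℂ → ℂ := fun a =>
  XXU (c a) β (ro a) (ro (!a)) (gP β (ex a)) (gP (4 / 3) (ex0 a)) (s a) (fun w => s a w * s a (w - l))

variable {P : NUO.Par} {ep β : ℝ} {c : Bool → ℂ} {c0 : ℝ} {ro : ∀ a, Fin (N a) → ℂ}
  {ex ex0 : Bool → List ℂ} {s : Bool → ℂ → ℂ} {q : ℤ}

/-- **the bounds of the class functions** -/
theorem oneC_ZK {x0 : ℝ} (hx0 : 3 / 5 * l ≤ x0) (hx0' : x0 ≤ 19 / 20 * l)
    (hP : ParC P) (hep0 : 0 < ep) (hep : ep ≤ 1 / 100) (hβ : 0 < β) (hβ' : β ≤ 4 / 3)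
    (hr : ∀ a, Rws (ro a)) (hex : ∀ a, ∀ w ∈ ex a, |w.re| ≤ l / 2)
    (hc : ∀ a, ‖c a‖ = c0) (hs : ∀ a, SpW (sc (a, .A) * (q : ℝ)) (s a)) :
    OneC (ZK c β ro ex ex0 s) (obU c0 β ro ex ex0 fun a u => ‖s a u‖) P ep (2 * β) x0
      (-q + N true - N false) (⋃ a, Set.range fun i => (ro a i).im) := by
  have h := oneC_XXU (P := P) (ep := ep) (β := β) (x0 := x0) (q := -q) (E := ∅) (c := c) (s1 := s)
    (s2 := fun a w => s a w * s a (w - l)) hx0 hx0' hP hep0 hep hβ hβ' hr hex ex0 hc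
    (fun a => (hs a).meas) (fun a => (hs a).meas.mul ((hs a).meas.comp (measurable_id.sub_const _)))
    (fun a => by
      have := (hs a).specAt hx0
      push_cast
      exact this) (fun a => specS_mul P (s a)) (by simp)
  rw [Set.empty_union] at h
  exact h

theorem decZ_ZK (hP : ParC P) (hβ : 0 < β) (hβ' : β ≤ 4 / 3) (hr : ∀ a, Rws (ro a))
    (hex : ∀ a, ∀ w ∈ ex a, |w.re| ≤ l / 2) (hex0 : ∀ a, ∀ w ∈ ex0 a, |w.re| ≤ l / 2)
    (hs : ∀ a, SpW (sc (a, .A) * (q : ℝ)) (s a)) :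
    DecZ (ZK c β ro ex ex0 s) P (3 / 5 * l) (2 * β) ((-q + N true - N false : ℤ) : ℝ) :=
  decZ_XXU (Q' := -(q : ℝ)) hP hβ hβ' hr (fun a => GOk.gP hβ hβ' (hex a))
    (fun a => GOk.gP (by norm_num) le_rfl (hex0 a)) (fun a => (hs a).specQ) (by push_cast; ring)

/-- **the state sum is the functional** -/
theorem DZ_ZK [Fil] (hP : ParC P) (hρ : ∀ r, ∃ ρ0, 0 < ρ0 ∧ ∀ t, ρ0 ≤ P.rad r t)
    (hep0 : 0 < ep) (hep : ep ≤ 1 / 100) (hβ : 0 < β) (hβ' : β ≤ 4 / 3)
    (hr : ∀ a, Rws (ro a)) (hex : ∀ a, ∀ w ∈ ex a, |w.re| ≤ l / 2)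
    (hex0 : ∀ a, ∀ w ∈ ex0 a, |w.re| ≤ l / 2) (hc : ∀ a, ‖c a‖ = c0)
    (hs : ∀ a, SpW (sc (a, .A) * (q : ℝ)) (s a)) {n n' : ℕ}
    (hn : (n' : ℤ) + N true = n + N false + q) {η η' : Crs}
    (hη : ∀ r ≤ n + n', ∀ᵐ O ∂(Measure.pi fun _ : Fin r => NUO.nu), NUCR.CurB ep (η r O) (η' r O)) :
    DZU (c true) (c false) (s true) (s false) (ro true) (ro false) n n' =
      FF (ZK c β ro ex ex0 s) P n n' η η' (fun _ _ _ _ _ => 1) := by
  have eT : sc (true, .A) * (q : ℝ) = q := by rw [sc_A]; simp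
  have eF : sc (false, .A) * (q : ℝ) = -(q : ℝ) := by rw [sc_A]; simp
  refine DZU_FF (s2 := fun a w => s a w * s a (w - l)) hP hρ hep0 hep hβ hβ' hr hex hex0 hc ?_ ?_
    (fun a => ?_) (fun a => ?_) (E := ∅) (by simp) (fun a => specS_mul P (s a)) hn hη
  · rw [← eT]
    exact (hs true).spU
  · rw [← eF]
    exact (hs false).spU
  · have := (hs a).specQ
    push_cast
    exact this
  · have := (hs a).specAt (x0 := 3 / 5 * l) le_rfl
    push_cast
    exact this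

/-! ### the sum over the numbers of quanta -/

/-- the sum over `n`, `n'` in terms of the smaller number -/
theorem sumU_enorm_le' {m M : ℕ} {Q : ℤ} {F : ℕ → ℕ → ℂ} {G : ℕ → ℝ≥0∞} {aX aY : ℕ}
    (ha : (aY : ℤ) + m = aX + M + Q) (h0 : aX = 0 ∨ aY = 0)
    (h : ∀ k ∈ Finset.range (2 * m + 1), ‖F (k + aX) (k + aY)‖ₑ ≤ G k) :
    ‖sumU m M Q F‖ₑ ≤ ∑ k ∈ Finset.range (2 * m + 1), G k := by
  classical
  have e : sumU m M Q F = ∑ p ∈ (Finset.range (2 * m + 1) ×ˢ Finset.range (2 * M + 1)).filter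
      (fun p : ℕ × ℕ => (p.2 : ℤ) + m = p.1 + M + Q), F p.1 p.2 := by
    unfold RX.sumU
    rw [Finset.sum_filter, Finset.sum_product]
  rw [e]
  refine (enorm_sum_le _ _).trans ?_
  set S := (Finset.range (2 * m + 1) ×ˢ Finset.range (2 * M + 1)).filter
    (fun p : ℕ × ℕ => (p.2 : ℤ) + m = p.1 + M + Q) with hS
  have hk : ∀ p ∈ S, p.1 = (p.1 - aX) + aX ∧ p.2 = (p.1 - aX) + aY ∧
      p.1 - aX ∈ Finset.range (2 * m + 1) := by
    intro p hp
    obtain ⟨h1, h2⟩ := Finset.mem_filter.1 hp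
    obtain ⟨h3, h4⟩ := Finset.mem_product.1 h1
    have h5 := Finset.mem_range.1 h3
    refine ⟨?_, ?_, Finset.mem_range.2 (by omega)⟩
    · rcases h0 with h0 | h0 <;> omega
    · rcases h0 with h0 | h0 <;> omega
  have hi : Set.InjOn (fun p : ℕ × ℕ => p.1 - aX) (S : Set (ℕ × ℕ)) := by
    intro p hp p' hp' he
    obtain ⟨a1, a2, _⟩ := hk p hp
    obtain ⟨b1, b2, _⟩ := hk p' hp'
    simp only at he
    ext
    · rw [a1, b1, he]
    · rw [a2, b2, he]
  calc ∑ p ∈ S, ‖F p.1 p.2‖ₑ ≤ ∑ p ∈ S, G (p.1 - aX) := by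
        refine Finset.sum_le_sum fun p hp => ?_
        obtain ⟨a1, a2, a3⟩ := hk p hp
        have := h (p.1 - aX) a3
        rwa [← a1, ← a2] at this
    _ = ∑ k ∈ S.image (fun p : ℕ × ℕ => p.1 - aX), G k := (Finset.sum_image hi).symm
    _ ≤ ∑ k ∈ Finset.range (2 * m + 1), G k := by
        refine Finset.sum_le_sum_of_subset ?_
        intro k hkk
        obtain ⟨p, hp, rfl⟩ := Finset.mem_image.1 hkk
        exact (hk p hp).2.2

/-- **the exact half of (K)**: first group = the rows of the species `σ`, spectators `S` of charge `κ` on it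
and `T` of charge `-κ` on the other one; the numbers of quanta `k + aX`, `k + aY` -/
theorem KRep [Fil] (hP : ParC P) (hρ : ∀ r, ∃ ρ0, 0 < ρ0 ∧ ∀ t, ρ0 ≤ P.rad r t)
    (hep0 : 0 < ep) (hep : ep ≤ 1 / 100) (hβ : 0 < β) (hβ' : β ≤ 4 / 3)
    (hr : ∀ a, Rws (ro a)) (hex : ∀ a, ∀ w ∈ ex a, |w.re| ≤ l / 2)
    (hex0 : ∀ a, ∀ w ∈ ex0 a, |w.re| ≤ l / 2) {C C' : ℂ} (hC : ‖C‖ = c0) (hC' : ‖C'‖ = c0)
    {σ : Bool} {κ : ℤ} {S T : ℂ → ℂ} (hS : SpW κ S) (hT : SpW (-(κ : ℝ)) T) {aX aY : ℕ}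
    (ha : (aY : ℤ) + N true = aX + N false + kq σ κ) (h0 : aX = 0 ∨ aY = 0) {η η' : ℕ → Crs}
    (hη : ∀ k ∈ Finset.range (2 * N true + 1), ∀ r ≤ (k + aX) + (k + aY),
      ∀ᵐ O ∂(Measure.pi fun _ : Fin r => NUO.nu), NUCR.CurB ep (η k r O) (η' k r O)) :
    ‖sumU (N σ) (N (!σ)) κ fun n n' => DZU C C' S T (ro σ) (ro (!σ)) n n'‖ₑ ≤
      ∑ k ∈ Finset.range (2 * N true + 1), FE (ZK (spS σ C C') β ro ex ex0 (spS σ S T)) P
        (k + aX) (k + aY) (η k) (η' k) (fun _ _ _ _ _ => 1) := by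
  have hc : ∀ a, ‖spS σ C C' a‖ = c0 := by
    intro a
    unfold spS
    split_ifs
    · exact hC
    · exact hC'
  have hs : ∀ a, SpW (sc (a, .A) * ((kq σ κ : ℤ) : ℝ)) (spS σ S T a) := fun a => SpW.spS hS hT a
  -- the sum with the species X first
  have e : (sumU (N σ) (N (!σ)) κ fun n n' => DZU C C' S T (ro σ) (ro (!σ)) n n') =
      sumU (N true) (N false) (kq σ κ) fun n n' => DZU (spS σ C C' true) (spS σ C C' false)
        (spS σ S T true) (spS σ S T false) (ro true) (ro false) n n' := by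
    cases σ
    · rw [sumU_swap]
      show sumU (N true) (N false) (-κ) (fun n n' => DZU C C' S T (ro false) (ro true) n' n) =
        sumU (N true) (N false) (-κ) fun n n' => DZU C' C T S (ro true) (ro false) n n'
      congr 1
      funext n n'
      exact DZU_swap _ _ _ _ _ _ _ _
    · rfl
  rw [e]
  refine sumU_enorm_le' ha h0 fun k hk => ?_
  rw [DZ_ZK hP hρ hep0 hep hβ hβ' hr hex hex0 hc hs (by push_cast; linarith) (hη k hk)]
  refine (PBF.PLX.FF_le _).trans ?_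
  rw [PBF.PLX.FA_eq_FE]
  exact PBF.PLX.FE_mono fun r O a b x => by simp

/-! ### the three functions -/

theorem norm_cn (k : ℕ) : ‖cn k‖ = ‖cn 0‖ := by
  unfold Pool.Agent.PB.cn
  rw [norm_mul, norm_mul, norm_pow, norm_pow, norm_neg, norm_one, one_pow, one_pow]

theorem spS_cn (σ : Bool) : (spS σ (cn (N σ)) (cn (N (!σ)))) = fun a => cn (N a) := by
  funext a
  cases σ <;> cases a <;> rfl

theorem spS_same {α : Type*} (σ : Bool) (S : α) : spS σ S S = fun _ => S := by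
  funext a
  unfold spS
  split_ifs <;> rfl

/-- **the content** -/
theorem nzU_KRep [Fil] (hP : ParC P) (hρ : ∀ r, ∃ ρ0, 0 < ρ0 ∧ ∀ t, ρ0 ≤ P.rad r t)
    (hep0 : 0 < ep) (hep : ep ≤ 1 / 100) (hβ : 0 < β) (hβ' : β ≤ 4 / 3)
    (hr : ∀ a, Rws (ro a)) (hex : ∀ a, ∀ w ∈ ex a, |w.re| ≤ l / 2)
    (hex0 : ∀ a, ∀ w ∈ ex0 a, |w.re| ≤ l / 2) {z : ℂ} (h1 : -(19 / 20 * l) < z.re)
    (h2 : z.re < 37 / 10 * l) {aX aY : ℕ}
    (ha : (aY : ℤ) + N true = aX + N false) (h0 : aX = 0 ∨ aY = 0) {η η' : ℕ → Crs}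
    (hη : ∀ k ∈ Finset.range (2 * N true + 1), ∀ r ≤ (k + aX) + (k + aY),
      ∀ᵐ O ∂(Measure.pi fun _ : Fin r => NUO.nu), NUCR.CurB ep (η k r O) (η' k r O)) :
    ‖nzU z (ro true) (ro false)‖ₑ ≤ ‖Pf z (ro true) (ro false)‖ₑ *
      ∑ k ∈ Finset.range (2 * N true + 1), FE (ZK (fun a => cn (N a)) β ro ex ex0 fun _ => Lg z z) P
        (k + aX) (k + aY) (η k) (η' k) (fun _ _ _ _ _ => 1) := by
  have hL : SpW ((0 : ℤ) : ℝ) (Lg z z) := by
    have := SpW.leg (z := z) h1 h2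
    simpa using this
  have hL' : SpW (-((0 : ℤ) : ℝ)) (Lg z z) := by simpa using hL
  have h := KRep (σ := true) (κ := 0) (C := cn (N true)) (C' := cn (N (!true))) hP hρ hep0 hep hβ hβ'
    hr hex hex0 (norm_cn _) (norm_cn _) hL hL' (by
      show (aY : ℤ) + N true = aX + N false + 0
      linarith) h0 hη
  rw [spS_cn, spS_same] at h
  unfold nzU
  rw [enorm_mul]
  exact mul_le_mul' le_rfl h

/-- **a row removed from the species `σ`** -/
theorem JU_KRep [Fil] (hP : ParC P) (hρ : ∀ r, ∃ ρ0, 0 < ρ0 ∧ ∀ t, ρ0 ≤ P.rad r t)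
    (hep0 : 0 < ep) (hep : ep ≤ 1 / 100) (hβ : 0 < β) (hβ' : β ≤ 4 / 3)
    (hr : ∀ a, Rws (ro a)) (hex : ∀ a, ∀ w ∈ ex a, |w.re| ≤ l / 2)
    (hex0 : ∀ a, ∀ w ∈ ex0 a, |w.re| ≤ l / 2) {z w : ℂ} (hz : |z.re| < 7 / 10 * l)
    (hw : |w.re| < 7 / 10 * l) {σ : Bool} {aX aY : ℕ}
    (ha : (aY : ℤ) + N true = aX + N false + kq σ 1) (h0 : aX = 0 ∨ aY = 0) {η η' : ℕ → Crs}
    (hη : ∀ k ∈ Finset.range (2 * N true + 1), ∀ r ≤ (k + aX) + (k + aY),
      ∀ᵐ O ∂(Measure.pi fun _ : Fin r => NUO.nu), NUCR.CurB ep (η k r O) (η' k r O)) :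
    ‖JU z (ro σ) (ro (!σ)) w‖ₑ ≤ ‖Pf z (ro σ) (ro (!σ)) * PJU z (ro σ) (ro (!σ)) w‖ₑ *
      ∑ k ∈ Finset.range (2 * N true + 1), FE (ZK (spS σ (-cn (N σ)) (cn (N (!σ)))) β ro ex ex0
        (spS σ (sX z w) (sY z w))) P (k + aX) (k + aY) (η k) (η' k) (fun _ _ _ _ _ => 1) := by
  have hS : SpW ((1 : ℤ) : ℝ) (sX z w) := by
    have := SpW.sX (z := z) (w := w) hz
    simpa using this
  have hT : SpW (-((1 : ℤ) : ℝ)) (sY z w) := by
    have := SpW.sY hz hw
    simpa using this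
  have h := KRep (σ := σ) (κ := 1) (C := -cn (N σ)) (C' := cn (N (!σ))) hP hρ hep0 hep hβ hβ'
    hr hex hex0 (by rw [norm_neg]; exact norm_cn _) (norm_cn _) hS hT ha h0 hη
  unfold JU
  rw [enorm_mul]
  exact mul_le_mul' le_rfl h

/-- a bound in the open strip holds in the closed one -/
theorem JU_closed {m M : ℕ} {z : ℂ} (hz : |z.re| < 7 / 10 * l) {x : Fin m → ℂ} {y : Fin M → ℂ}
    (hx : Rws x) (hy : Rws y) {H C : ℝ}
    (h : ∀ w : ℂ, |w.re| < 7 / 10 * l → |w.im| ≤ H → ‖JU z x y w‖ ≤ C) {w : ℂ}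
    (hw : |w.re| ≤ 7 / 10 * l) (hH : |w.im| ≤ H) : ‖JU z x y w‖ ≤ C := by
  have hl := lpos
  set g : ℝ → ℂ := fun t => ((t * w.re : ℝ) : ℂ) + w.im * I with hg
  have g1 : g 1 = w := by
    rw [hg]
    apply Complex.ext <;> simp
  have hre : ∀ t, (g t).re = t * w.re := fun t => by simp [hg]
  have him : ∀ t, (g t).im = w.im := fun t => by simp [hg]
  have hc : ContinuousAt g 1 := by
    rw [hg]
    fun_prop
  have hJ : ContinuousAt (JU z x y) w := by
    have ho : IsOpen {w : ℂ | |w.re| < 13 / 10 * l} :=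
      isOpen_lt (continuous_abs.comp Complex.continuous_re) continuous_const
    refine ((JU_diff hz hx hy).differentiableAt (ho.mem_nhds ?_)).continuousAt
    show |w.re| < 13 / 10 * l
    linarith
  have t1 : Filter.Tendsto (fun t => JU z x y (g t)) (nhdsWithin (1 : ℝ) (Set.Iio 1)) (nhds (JU z x y w)) := by
    have h2 : Filter.Tendsto g (nhdsWithin (1 : ℝ) (Set.Iio 1)) (nhds w) := by
      have := hc.tendsto
      rw [g1] at this
      exact this.mono_left nhdsWithin_le_nhds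
    exact hJ.tendsto.comp h2
  refine le_of_tendsto t1.norm ?_
  have hpos : ∀ᶠ t : ℝ in nhdsWithin (1 : ℝ) (Set.Iio 1), 0 < t :=
    nhdsWithin_le_nhds (eventually_gt_nhds zero_lt_one)
  have hlt : ∀ᶠ t : ℝ in nhdsWithin (1 : ℝ) (Set.Iio 1), t < 1 := self_mem_nhdsWithin
  filter_upwards [hpos, hlt] with t ht0 ht1
  refine h _ ?_ (by rw [him]; exact hH)
  rw [hre, abs_mul, abs_of_pos ht0]
  rcases (abs_nonneg w.re).eq_or_lt with h0 | h0
  · rw [← h0, mul_zero]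
    positivity
  · nlinarith

/-- **the state `e` of a far row in the species `σ`** -/
theorem cF_KRep [Fil] (e : SignType) (hP : ParC P) (hρ : ∀ r, ∃ ρ0, 0 < ρ0 ∧ ∀ t, ρ0 ≤ P.rad r t)
    (hep0 : 0 < ep) (hep : ep ≤ 1 / 100) (hβ : 0 < β) (hβ' : β ≤ 4 / 3)
    (hr : ∀ a, Rws (ro a)) (hex : ∀ a, ∀ w ∈ ex a, |w.re| ≤ l / 2)
    (hex0 : ∀ a, ∀ w ∈ ex0 a, |w.re| ≤ l / 2) {z x0 : ℂ} (hz : |z.re| < 7 / 10 * l)
    (h1 : 41 / 20 * l < x0.re) (h2 : x0.re < 27 / 10 * l) {σ : Bool} {aX aY : ℕ}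
    (ha : (aY : ℤ) + N true = aX + N false + kq σ (ch e)) (h0 : aX = 0 ∨ aY = 0) {η η' : ℕ → Crs}
    (hη : ∀ k ∈ Finset.range (2 * N true + 1), ∀ r ≤ (k + aX) + (k + aY),
      ∀ᵐ O ∂(Measure.pi fun _ : Fin r => NUO.nu), NUCR.CurB ep (η k r O) (η' k r O)) :
    ‖cF e z x0 (ro σ) (ro (!σ))‖ₑ ≤ ‖Pf z (ro σ) (ro (!σ)) *
        (k1 z e x0 * ((∏ i, kO e (x0 - ro σ i)) * ∏ j, kX e (x0 - ro (!σ) j)))‖ₑ *
      ∑ k ∈ Finset.range (2 * N true + 1), FE (ZK (fun a => cn (N a)) β ro ex ex0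
        (spS σ (fun u => Th z u * Wo e (u - x0)) (fun u => Th z u * Vo e (u - x0)))) P
        (k + aX) (k + aY) (η k) (η' k) (fun _ _ _ _ _ => 1) := by
  obtain ⟨hS, hT⟩ := SpW.far e hz h1 h2
  have h := KRep (σ := σ) (κ := ch e) (C := cn (N σ)) (C' := cn (N (!σ))) hP hρ hep0 hep hβ hβ'
    hr hex hex0 (norm_cn _) (norm_cn _) hS hT ha h0 hη
  rw [spS_cn] at h
  unfold cF
  rw [enorm_mul]
  exact mul_le_mul' le_rfl h

end Pool.Agent.PLX

end
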