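import Pool.Agent.PLX.SpFar
import Pool.Agent.PLX.KRep
import Pool.Agent.PLX.NUGC.S4C
import Pool.Agent.PLX.PB.HPotA
import Pool.Agent.PLX.IST.SpRow

/-!
# PLAX (K): the spectators of a charge as a pair of groups times neutral atoms

* `pF L h u = ∏ (k, a) ∈ L, |sin (u - i h + a)| ^ k`; `pF_exp` : on a curve it is the exponential of
  `∑ k NL`; `pF_le` : the bound on the line of a constituent;
* `PK b h` : the pair of groups of a unit charge at the height `h` (`.w` and `.p` at `5/4 l` and `-11/4 l`);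
* `LW`, `LV` : the sines of the states of a far row; `gF e σ h` : the factor of the groups of the state `e`
  (`1` for `e = 0`); `xK e σ x0` : the atoms, all at the height of `x0`;
* **`KSpk`** : `|S_a| = gF * exp (HS x)` on every curve of size `l / 8`, `AtOk 2 (l / 4)`, `13` atoms,
  windows `23/10 l ≤ Re x0 ≤ 53/20 l` (`e = 0, +`), `≤ 37/10 l` (`e = -`, this is `JU` with `x0 = w + 3 l`);
* **`KSpk_L`** : `|S_a| / gF` is bounded on the lines of the constituents, `gF_pos` : `gF > 0` on `DomC`.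
-/

set_option autoImplicit false
set_option linter.unusedSectionVars false
set_option linter.unusedVariables false

noncomputable section

open Complex MeasureTheory Filter Topology

namespace Pool.Agent.PLX

open NUP1 (l lpos vl)
open NUO (pA)
open _root_.RX (Wo Vo)
open NUSea.PLX.H0 (Gd)
open NUGC.PLX (spF lsG spL DomC)
open PBH.PLX (Atm HS AtOk NL pw pw_norm)
open NUGC (Ek Spt)

/-! ### products of sines -/

/-- modulus of a product of sines at the height `h` -/
def pF (L : List (ℤ × ℝ)) (h : ℝ) (u : ℂ) : ℝ :=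
  (L.map fun p => ‖sin (u - h * I + p.2)‖ ^ p.1).prod

/-- the inverse -/
def nf (L : List (ℤ × ℝ)) : List (ℤ × ℝ) := L.map fun p => (-p.1, p.2)

theorem pF_nil (h : ℝ) (u : ℂ) : pF [] h u = 1 := rfl

theorem pF_cons (k : ℤ) (a : ℝ) (L : List (ℤ × ℝ)) (h : ℝ) (u : ℂ) :
    pF ((k, a) :: L) h u = ‖sin (u - h * I + a)‖ ^ k * pF L h u := by
  unfold pF
  rw [List.map_cons, List.prod_cons]

theorem pF_append (L L' : List (ℤ × ℝ)) (h : ℝ) (u : ℂ) : pF (L ++ L') h u = pF L h u * pF L' h u := by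
  unfold pF
  rw [List.map_append, List.prod_append]

theorem pF_nf (L : List (ℤ × ℝ)) (h : ℝ) (u : ℂ) : pF (nf L) h u = (pF L h u)⁻¹ := by
  induction L with
  | nil => simp [nf, pF]
  | cons p L ih =>
    obtain ⟨k, a⟩ := p
    have e : nf ((k, a) :: L) = (-k, a) :: nf L := rfl
    rw [e, pF_cons, pF_cons, ih, mul_inv, zpow_neg]

theorem pF_nonneg (L : List (ℤ × ℝ)) (h : ℝ) (u : ℂ) : 0 ≤ pF L h u := by
  unfold pF
  refine List.prod_nonneg fun x hx => ?_
  obtain ⟨p, _, rfl⟩ := List.mem_map.1 hx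
  positivity

/-! ### the bound on a line -/

theorem pF_le {δ : ℝ} (h0 : 0 < δ) (h1 : δ ≤ 1) (h : ℝ) (u : ℂ) : ∀ L : List (ℤ × ℝ),
    (∀ p ∈ L, p.1 < 0 → δ ≤ |Real.sin (u.re + p.2)|) →
    pF L h u ≤ (δ⁻¹) ^ (L.map fun p => p.1.natAbs).sum * Real.cosh (u.im - h) ^ (L.map fun p => p.1).sum := by
  intro L
  induction L with
  | nil => intro _; simp [pF]
  | cons p L ih =>
    intro hL
    obtain ⟨k, a⟩ := p
    have hc := Real.cosh_pos (u.im - h)
    have hi := ih fun p hp => hL p (List.mem_cons_of_mem _ hp)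
    have hd : 1 ≤ δ⁻¹ := (one_le_inv₀ h0).2 h1
    have ere : (u - h * I + a).re = u.re + a := by simp
    have eim : (u - h * I + a).im = u.im - h := by simp
    rw [pF_cons, List.map_cons, List.sum_cons, List.map_cons, List.sum_cons, pow_add, zpow_add₀ hc.ne']
    have key : ‖sin (u - h * I + a)‖ ^ k ≤ (δ⁻¹) ^ k.natAbs * Real.cosh (u.im - h) ^ k := by
      rcases le_or_gt 0 k with hk | hk
      · obtain ⟨n, rfl⟩ := Int.eq_ofNat_of_zero_le hk
        have h2 := PBO.sin_up (u - h * I + a)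
        rw [eim] at h2
        show ‖sin (u - h * I + a)‖ ^ ((n : ℕ) : ℤ) ≤ (δ⁻¹) ^ ((n : ℤ)).natAbs * Real.cosh (u.im - h) ^ ((n : ℕ) : ℤ)
        rw [zpow_natCast, zpow_natCast, Int.natAbs_natCast]
        calc ‖sin (u - h * I + a)‖ ^ n ≤ Real.cosh (u.im - h) ^ n := pow_le_pow_left₀ (norm_nonneg _) h2 n
          _ ≤ _ := le_mul_of_one_le_left (by positivity) (one_le_pow₀ hd)
      · have h3 := hL (k, a) (List.mem_cons_self ..) hk
        have h2 := NUP1.Bd.le_norm_sin (u - h * I + a)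
        rw [ere, eim] at h2
        have h4 : δ * Real.cosh (u.im - h) ≤ ‖sin (u - h * I + a)‖ :=
          (mul_le_mul_of_nonneg_right h3 hc.le).trans h2
        obtain ⟨n, hn⟩ : ∃ n : ℕ, k = -(n : ℤ) := ⟨k.natAbs, by omega⟩
        subst hn
        rw [zpow_neg, zpow_neg, zpow_natCast, zpow_natCast, Int.natAbs_neg, Int.natAbs_natCast]
        calc (‖sin (u - h * I + a)‖ ^ n)⁻¹ ≤ ((δ * Real.cosh (u.im - h)) ^ n)⁻¹ :=
              inv_anti₀ (by positivity) (pow_le_pow_left₀ (by positivity) h4 n)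
          _ = _ := by rw [mul_pow, mul_inv, inv_pow]
    calc ‖sin (u - h * I + a)‖ ^ k * pF L h u ≤ ((δ⁻¹) ^ k.natAbs * Real.cosh (u.im - h) ^ k) *
          ((δ⁻¹) ^ (L.map fun p => p.1.natAbs).sum * Real.cosh (u.im - h) ^ (L.map fun p => p.1).sum) :=
          mul_le_mul key hi (pF_nonneg _ _ _) (by positivity)
      _ = _ := by ring

/-- distance of a real number from the zeros `0`, `± 8 l` -/
def Aw (δ a : ℝ) : Prop := δ ≤ |a| ∧ |a| ≤ 8 * l - δ

theorem Aw.sin {δ a : ℝ} (h0 : 0 < δ) (h : Aw δ a) : Real.sin δ ≤ |Real.sin a| := sn_bd h0 h.1 h.2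

theorem pF_pos {δ h : ℝ} {u : ℂ} (h0 : 0 < δ) {L : List (ℤ × ℝ)} (hL : ∀ p ∈ L, Aw δ (u.re + p.2)) :
    0 < pF L h u := by
  have hl := lpos
  unfold pF
  refine List.prod_pos fun x hx => ?_
  obtain ⟨p, hp, rfl⟩ := List.mem_map.1 hx
  have h1 := hL p hp
  have h2 := NUP1.Bd.le_norm_sin (u - h * I + p.2)
  have ere : (u - h * I + p.2).re = u.re + p.2 := by simp
  rw [ere] at h2
  have hs : 0 < Real.sin δ := SPR.sin_pos' h0 (by
    obtain ⟨a1, a2⟩ := h1
    linarith)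
  have h3 := h1.sin h0
  have hc := Real.cosh_pos (u - h * I + p.2).im
  have : 0 < ‖sin (u - h * I + p.2)‖ := lt_of_lt_of_le (mul_pos (hs.trans_le h3) hc) h2
  positivity

/-! ### on a curve -/

/-- the line of an atom -/
def ya (a : ℝ) : ℝ := if -l < a then 3 * l - a else -(5 * l) - a

theorem ya_le {δ a : ℝ} (h0 : 0 < δ) (h : Aw δ (l + a)) : |ya a| ≤ 4 * l - δ := by
  obtain ⟨h1, h2⟩ := h
  unfold ya
  split_ifs with h3
  · rw [abs_of_pos (by linarith)] at h1 h2
    rw [abs_le]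
    constructor <;> linarith
  · push Not at h3
    rcases h3.eq_or_lt with h4 | h4
    · rw [h4] at h1
      simp at h1
      linarith
    · rw [abs_of_neg (by linarith)] at h1 h2
      rw [abs_le]
      constructor <;> linarith

theorem nsin_pA (a c : ℝ) (η : ℝ → ℝ) (t : ℝ) :
    ‖sin (pA η t - c * I + a)‖ = ‖cosh (pw (ya a) c η t)‖ := by
  have e1 : cosh (pw (3 * l - a) c η t) = sin (pA η t - c * I + a) := by
    have h1 : sin (pA η t - c * I + a) = cos (pA η t - c * I + a - 4 * l) := by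
      have h2 : (4 : ℂ) * l = (Real.pi : ℂ) / 2 := by
        unfold NUP1.l
        push_cast
        ring
      rw [h2, Complex.cos_sub_pi_div_two]
    rw [h1, ← Complex.cosh_mul_I]
    unfold NUO.pA NUP1.vl pw
    rw [← Complex.cosh_neg]
    congr 1
    push_cast
    linear_combination (-((t : ℂ) - c)) * I_sq
  unfold ya
  split_ifs with h3
  · rw [e1]
  · rw [← e1]
    have e2 : pw (3 * l - a) c η t = pw (-(5 * l) - a) c η t + Real.pi * I := by
      unfold pw NUP1.l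
      push_cast
      ring
    rw [e2, Complex.cosh_add, Complex.cosh_mul_I, Complex.sinh_mul_I, Complex.cos_pi, Complex.sin_pi]
    simp

/-- on a curve -/
theorem pF_exp {δ : ℝ} (h0 : 0 < δ) (h1 : δ ≤ 4 * l) {η : ℝ → ℝ} (hη : ∀ t, |η t| ≤ δ / 2) (h t : ℝ) :
    ∀ L : List (ℤ × ℝ), (∀ p ∈ L, Aw δ (l + p.2)) →
    pF L h (pA η t) = Real.exp ((L.map fun p => (p.1 : ℝ) * NL (ya p.2) h η t).sum) := by
  intro L
  induction L with
  | nil => intro _; simp [pF]
  | cons p L ih =>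
    intro hL
    obtain ⟨k, a⟩ := p
    have h2 := hL (k, a) (List.mem_cons_self ..)
    have h3 := pw_norm h0 h1 (ya_le h0 h2) hη (c := h) t
    rw [pF_cons, ih fun p hp => hL p (List.mem_cons_of_mem _ hp), List.map_cons, List.sum_cons, Real.exp_add,
      nsin_pA]
    congr 1
    unfold NL
    rw [← Real.rpow_intCast, Real.rpow_def_of_pos h3, mul_comm]

/-! ### atoms -/

/-- the zero atom -/
def zA (h : ℝ) : Atm := ⟨0, 0, 0, h⟩

/-- the atoms of a list -/
def atL (h : ℝ) (L : List (ℤ × ℝ)) : List Atm := L.map fun p => ⟨(p.1 : ℝ), ya p.2, 0, h⟩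

theorem sum_getD {f : Atm → ℝ} {z : Atm} (hz : f z = 0) : ∀ (n : ℕ) (L : List Atm), L.length ≤ n →
    ∑ i : Fin n, f (L.getD i z) = (L.map f).sum := by
  intro n
  induction n with
  | zero =>
    intro L hL
    have : L = [] := List.eq_nil_of_length_eq_zero (by omega)
    subst this
    simp
  | succ n ih =>
    intro L hL
    rw [Fin.sum_univ_succ]
    cases L with
    | nil =>
      have := ih [] (by simp)
      simp [hz] 
    | cons x L =>
      have := ih L (by simpa using hL)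
      rw [List.map_cons, List.sum_cons, ← this]
      simp

theorem AT_sum {δ : ℝ} (h : ℝ) (η : ℝ → ℝ) (t : ℝ) : ∀ L : List (ℤ × ℝ),
    ((atL h L).map fun x => x.k * PBH.AT x.y1 x.y2 x.c η t).sum =
      (L.map fun p => (p.1 : ℝ) * NL (ya p.2) h η t).sum - ((L.map fun p => p.1).sum : ℤ) * NL 0 h η t := by
  intro L
  induction L with
  | nil => simp [atL]
  | cons p L ih =>
    have e : atL h (p :: L) = ⟨(p.1 : ℝ), ya p.2, 0, h⟩ :: atL h L := rfl
    rw [e, List.map_cons, List.sum_cons, ih, List.map_cons, List.sum_cons, List.map_cons, List.sum_cons]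
    simp only [PBH.PLX.AT_NL]
    push_cast
    ring


/-! ### the pair of groups of a unit charge -/

/-- **the pair of groups of a unit charge** at the height `h`: `.w` on the species `b` -/
def PK (b : Bool) (h : ℝ) : Fin 2 → Gd :=
  ![⟨if b then .w else .p, true, true, h⟩, ⟨if b then .p else .w, true, false, h⟩]

/-- the factor of the pair on the species `b` -/
def Lp : List (ℤ × ℝ) := [(1, -(5 / 4 * l)), (1, -(13 / 4 * l)), (-1, -(9 / 4 * l)), (1, -(5 / 4 * l)),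
  (-1, -(9 / 4 * l)), (-1, -(1 / 4 * l)), (2, -(1 / 4 * l)), (1, -(9 / 4 * l)), (1, 7 / 4 * l),
  (-1, -(5 / 4 * l)), (-1, 3 / 4 * l)]

/-- the factor of the pair on the other species -/
def Lm : List (ℤ × ℝ) := [(1, 11 / 4 * l), (-1, 7 / 4 * l), (-1, -(17 / 4 * l)), (1, 11 / 4 * l),
  (1, 3 / 4 * l), (-1, 7 / 4 * l), (2, 15 / 4 * l), (-2, -(13 / 4 * l)), (-2, 11 / 4 * l)]

theorem pi8 : (Real.pi : ℂ) = 8 * l := by
  unfold NUP1.l
  push_cast
  ring

theorem pi8r : Real.pi = 8 * l := by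
  unfold NUP1.l
  ring

theorem ns_neg {a b : ℂ} (h : a = -b) : ‖sin a‖ = ‖sin b‖ := by
  rw [h, Complex.sin_neg, norm_neg]

theorem ns_per {a b : ℂ} (h : a = b + 8 * l) : ‖sin a‖ = ‖sin b‖ := by
  rw [h, ← pi8, Complex.sin_add_pi, norm_neg]

theorem nc_sin {a b : ℂ} (h : a = b) : ‖cos a‖ = ‖sin (b + 4 * l)‖ := by
  have h2 : (4 : ℂ) * l = (Real.pi : ℂ) / 2 := by
    rw [pi8]
    ring
  rw [h, h2, Complex.sin_add_pi_div_two]

/-- the four factors -/
theorem f_h5_own (h : ℝ) (u : ℂ) : ‖NUP1.Leg.Ck (vl (5 / 4 * l) h - u)‖ =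
    pF [(1, -(5 / 4 * l)), (1, -(13 / 4 * l)), (-1, -(9 / 4 * l))] h u := by
  unfold NUP1.Leg.Ck NUP1.vl
  rw [norm_div, norm_mul]
  simp only [pF_cons, pF_nil]
  rw [ns_neg (a := ((5 / 4 * l : ℝ) : ℂ) + h * I - u) (b := u - h * I + ((-(5 / 4 * l) : ℝ) : ℂ))
      (by push_cast; ring),
    ns_neg (a := ((5 / 4 * l : ℝ) : ℂ) + h * I - u + 2 * l) (b := u - h * I + ((-(13 / 4 * l) : ℝ) : ℂ))
      (by push_cast; ring),
    ns_neg (a := ((5 / 4 * l : ℝ) : ℂ) + h * I - u + l) (b := u - h * I + ((-(9 / 4 * l) : ℝ) : ℂ))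
      (by push_cast; ring)]
  rw [zpow_one, zpow_one, zpow_neg_one, mul_one, div_eq_mul_inv, mul_assoc]

theorem f_hm_oth (h : ℝ) (u : ℂ) : ‖NUP1.Leg.Dk (vl (-(11 / 4) * l) h - u)‖ =
    pF [(1, -(5 / 4 * l)), (-1, -(9 / 4 * l)), (-1, -(1 / 4 * l))] h u := by
  unfold NUP1.Leg.Dk NUP1.vl
  rw [norm_div, norm_mul]
  simp only [pF_cons, pF_nil]
  rw [nc_sin rfl, ns_neg (a := ((-(11 / 4) * l : ℝ) : ℂ) + h * I - u + 4 * l)
      (b := u - h * I + ((-(5 / 4 * l) : ℝ) : ℂ)) (by push_cast; ring),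
    ns_per (a := 3 * (l : ℂ) - (((-(11 / 4) * l : ℝ) : ℂ) + h * I - u))
      (b := u - h * I + ((-(9 / 4 * l) : ℝ) : ℂ)) (by push_cast; ring),
    ns_neg (a := 3 * (l : ℂ) + (((-(11 / 4) * l : ℝ) : ℂ) + h * I - u))
      (b := u - h * I + ((-(1 / 4 * l) : ℝ) : ℂ)) (by push_cast; ring)]
  rw [zpow_one, zpow_neg_one, zpow_neg_one, mul_one, div_eq_mul_inv, mul_inv]

theorem f_q1_own (h : ℝ) (u : ℂ) : ‖NUP1.q (vl (1 / 4 * l) h - u)‖ =
    pF [(2, -(1 / 4 * l)), (1, -(9 / 4 * l)), (1, 7 / 4 * l), (-1, -(5 / 4 * l)), (-1, 3 / 4 * l)] h u := by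
  unfold NUP1.q NUP1.vl
  simp only [pF_cons, pF_nil, norm_div, norm_mul, norm_neg, norm_pow]
  rw [ns_neg (a := ((1 / 4 * l : ℝ) : ℂ) + h * I - u) (b := u - h * I + ((-(1 / 4 * l) : ℝ) : ℂ))
      (by push_cast; ring),
    ns_neg (a := ((1 / 4 * l : ℝ) : ℂ) + h * I - u + 2 * l) (b := u - h * I + ((-(9 / 4 * l) : ℝ) : ℂ))
      (by push_cast; ring),
    ns_neg (a := ((1 / 4 * l : ℝ) : ℂ) + h * I - u - 2 * l) (b := u - h * I + ((7 / 4 * l : ℝ) : ℂ))
      (by push_cast; ring),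
    ns_neg (a := ((1 / 4 * l : ℝ) : ℂ) + h * I - u + l) (b := u - h * I + ((-(5 / 4 * l) : ℝ) : ℂ))
      (by push_cast; ring),
    ns_neg (a := ((1 / 4 * l : ℝ) : ℂ) + h * I - u - l) (b := u - h * I + ((3 / 4 * l : ℝ) : ℂ))
      (by push_cast; ring)]
  rw [zpow_one, zpow_one, zpow_neg_one, zpow_neg_one, mul_one, div_eq_mul_inv, mul_inv, zpow_ofNat]
  ring

theorem f_h5_oth (h : ℝ) (u : ℂ) : ‖NUP1.Leg.Dk (vl (5 / 4 * l) h - u)‖ =
    pF [(1, 11 / 4 * l), (-1, 7 / 4 * l), (-1, -(17 / 4 * l))] h u := by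
  unfold NUP1.Leg.Dk NUP1.vl
  rw [norm_div, norm_mul]
  simp only [pF_cons, pF_nil]
  rw [show ‖cos (((5 / 4 * l : ℝ) : ℂ) + h * I - u)‖ = ‖sin (u - h * I + ((11 / 4 * l : ℝ) : ℂ))‖ by
      rw [← Complex.cos_neg, nc_sin (b := u - h * I + ((-(5 / 4 * l) : ℝ) : ℂ)) (by push_cast; ring)]
      congr 2
      push_cast
      ring,
    show 3 * (l : ℂ) - (((5 / 4 * l : ℝ) : ℂ) + h * I - u) = u - h * I + ((7 / 4 * l : ℝ) : ℂ) by
      push_cast; ring,
    ns_neg (a := 3 * (l : ℂ) + (((5 / 4 * l : ℝ) : ℂ) + h * I - u))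
      (b := u - h * I + ((-(17 / 4 * l) : ℝ) : ℂ)) (by push_cast; ring)]
  rw [zpow_one, zpow_neg_one, zpow_neg_one, mul_one, div_eq_mul_inv, mul_inv]

theorem f_hm_own (h : ℝ) (u : ℂ) : ‖NUP1.Leg.Ck (vl (-(11 / 4) * l) h - u)‖ =
    pF [(1, 11 / 4 * l), (1, 3 / 4 * l), (-1, 7 / 4 * l)] h u := by
  unfold NUP1.Leg.Ck NUP1.vl
  rw [norm_div, norm_mul]
  simp only [pF_cons, pF_nil]
  rw [ns_neg (a := ((-(11 / 4) * l : ℝ) : ℂ) + h * I - u) (b := u - h * I + ((11 / 4 * l : ℝ) : ℂ))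
      (by push_cast; ring),
    ns_neg (a := ((-(11 / 4) * l : ℝ) : ℂ) + h * I - u + 2 * l) (b := u - h * I + ((3 / 4 * l : ℝ) : ℂ))
      (by push_cast; ring),
    ns_neg (a := ((-(11 / 4) * l : ℝ) : ℂ) + h * I - u + l) (b := u - h * I + ((7 / 4 * l : ℝ) : ℂ))
      (by push_cast; ring)]
  rw [zpow_one, zpow_one, zpow_neg_one, mul_one, div_eq_mul_inv, mul_assoc]

theorem f_q1_oth (h : ℝ) (u : ℂ) : ‖NUP1.Bd.qg (vl (1 / 4 * l) h - u)‖ =
    pF [(2, 15 / 4 * l), (-2, -(13 / 4 * l)), (-2, 11 / 4 * l)] h u := by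
  unfold NUP1.Bd.qg NUP1.vl
  simp only [pF_cons, pF_nil, norm_div, norm_mul, norm_pow]
  rw [show ‖cos (((1 / 4 * l : ℝ) : ℂ) + h * I - u)‖ = ‖sin (u - h * I + ((15 / 4 * l : ℝ) : ℂ))‖ by
      rw [← Complex.cos_neg, nc_sin (b := u - h * I + ((-(1 / 4 * l) : ℝ) : ℂ)) (by push_cast; ring)]
      congr 2
      push_cast
      ring,
    ns_neg (a := ((1 / 4 * l : ℝ) : ℂ) + h * I - u + 3 * l) (b := u - h * I + ((-(13 / 4 * l) : ℝ) : ℂ))
      (by push_cast; ring),
    ns_neg (a := ((1 / 4 * l : ℝ) : ℂ) + h * I - u - 3 * l) (b := u - h * I + ((11 / 4 * l : ℝ) : ℂ))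
      (by push_cast; ring)]
  rw [mul_one, div_eq_mul_inv, mul_inv, zpow_neg, zpow_neg, zpow_ofNat, zpow_ofNat, zpow_ofNat]

theorem spF_PK (b : Bool) (h : ℝ) (a : Bool) (u : ℂ) :
    spF (PK b h) a u = pF (if a = b then Lp else Lm) h u := by
  have e5 : (vl ((Ek.h5).ps * l) h) = vl (5 / 4 * l) h := by
    unfold Ek.ps Ek.x
    norm_num
  have em : (vl ((Ek.hm).ps * l) h) = vl (-(11 / 4) * l) h := by
    unfold Ek.ps Ek.x
    norm_num
  have e1 : (vl ((Ek.q1).ps * l) h) = vl (1 / 4 * l) h := by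
    unfold Ek.ps Ek.x
    norm_num
  unfold NUGC.PLX.spF
  rw [Fin.prod_univ_two]
  have hp : pF Lp h u = pF [(1, -(5 / 4 * l)), (1, -(13 / 4 * l)), (-1, -(9 / 4 * l))] h u *
      (pF [(1, -(5 / 4 * l)), (-1, -(9 / 4 * l)), (-1, -(1 / 4 * l))] h u *
      pF [(2, -(1 / 4 * l)), (1, -(9 / 4 * l)), (1, 7 / 4 * l), (-1, -(5 / 4 * l)), (-1, 3 / 4 * l)] h u) := by
    rw [← pF_append, ← pF_append]
    rfl
  have hm : pF Lm h u = pF [(1, 11 / 4 * l), (-1, 7 / 4 * l), (-1, -(17 / 4 * l))] h u *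
      (pF [(1, 11 / 4 * l), (1, 3 / 4 * l), (-1, 7 / 4 * l)] h u *
      pF [(2, 15 / 4 * l), (-2, -(13 / 4 * l)), (-2, 11 / 4 * l)] h u) := by
    rw [← pF_append, ← pF_append]
    rfl
  rw [← f_h5_own, ← f_hm_oth, ← f_q1_own] at hp
  rw [← f_h5_oth, ← f_hm_own, ← f_q1_oth] at hm
  cases b <;> cases a <;>
    simp [PK, lsG, NUSp.kG, spL, NUSp.spo, Spt.f, Ek.f, NUGC.hq, NUGC.sq, e5, em, e1, hp, hm] <;> ring

/-! ### the states of a far row -/

/-- the window of the state `e` -/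
def Win (e : SignType) (ρ : ℝ) : Prop :=
  23 / 10 * l ≤ ρ ∧ ρ ≤ (if e = .neg then 37 / 10 * l else 53 / 20 * l)

/-- own species -/
def LW : SignType → ℝ → List (ℤ × ℝ)
  | .zero, ρ => [(1, -ρ), (1, 2 * l - ρ), (-1, -l - ρ), (-1, l - ρ)]
  | .neg, ρ => [(1, l - ρ), (1, 3 * l - ρ)]
  | .pos, ρ => [(-1, -ρ), (-1, -(2 * l) - ρ)]

/-- other species -/
def LV : SignType → ℝ → List (ℤ × ℝ)
  | .zero, ρ => [(2, 4 * l - ρ), (-2, -(3 * l) - ρ)]
  | .neg, ρ => [(-2, -(2 * l) - ρ)]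
  | .pos, ρ => [(2, 3 * l - ρ)]

theorem dec (x0 : ℂ) (u : ℂ) (a : ℝ) : u - x0 + a = u - x0.im * I + ((a - x0.re : ℝ) : ℂ) := by
  apply Complex.ext
  · simp
    ring
  · simp

theorem Wo_pF (e : SignType) (x0 u : ℂ) : ‖Wo e (u - x0)‖ = pF (LW e x0.re) x0.im u := by
  have d0 := dec x0 u 0
  have d1 := dec x0 u l
  have d2 := dec x0 u (2 * l)
  have d3 := dec x0 u (3 * l)
  have dm1 := dec x0 u (-l)
  have dm2 := dec x0 u (-(2 * l))
  cases e
  · show ‖sin (u - x0) * sin (u - x0 + 2 * l) / (sin (u - x0 - l) * sin (u - x0 + l))‖ = _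
    simp only [LW, pF_cons, pF_nil, norm_div, norm_mul]
    rw [show u - x0 = u - x0.im * I + ((-x0.re : ℝ) : ℂ) by
        rw [show (-x0.re : ℝ) = 0 - x0.re by ring, ← d0]; simp,
      show u - x0.im * I + ((-x0.re : ℝ) : ℂ) + 2 * l = u - x0.im * I + ((2 * l - x0.re : ℝ) : ℂ) by
        push_cast; ring,
      show u - x0.im * I + ((-x0.re : ℝ) : ℂ) - l = u - x0.im * I + ((-l - x0.re : ℝ) : ℂ) by
        push_cast; ring,
      show u - x0.im * I + ((-x0.re : ℝ) : ℂ) + l = u - x0.im * I + ((l - x0.re : ℝ) : ℂ) by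
        push_cast; ring]
    rw [zpow_one, zpow_one, zpow_neg_one, zpow_neg_one, mul_one, div_eq_mul_inv, mul_inv]
    ring
  · show ‖-(sin (u - x0 + l) * sin (u - x0 + 3 * l))‖ = _
    simp only [LW, pF_cons, pF_nil, norm_neg, norm_mul]
    rw [← d1, ← d3, zpow_one, zpow_one, mul_one]
    push_cast
    rfl
  · show ‖-1 / (sin (u - x0) * sin (u - x0 - 2 * l))‖ = _
    simp only [LW, pF_cons, pF_nil, norm_div, norm_neg, norm_mul, norm_one]
    rw [show u - x0 = u - x0.im * I + ((-x0.re : ℝ) : ℂ) by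
        rw [show (-x0.re : ℝ) = 0 - x0.re by ring, ← d0]; simp,
      show u - x0.im * I + ((-x0.re : ℝ) : ℂ) - 2 * l = u - x0.im * I + ((-(2 * l) - x0.re : ℝ) : ℂ) by
        push_cast; ring]
    rw [zpow_neg_one, zpow_neg_one, mul_one, one_div, mul_inv]

theorem Vo_pF (e : SignType) (x0 u : ℂ) : ‖Vo e (u - x0)‖ = pF (LV e x0.re) x0.im u := by
  have d3 := dec x0 u (3 * l)
  have d4 := dec x0 u (4 * l)
  have dm2 := dec x0 u (-(2 * l))
  have dm3 := dec x0 u (-(3 * l))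
  cases e
  · show ‖cos (u - x0) ^ 2 / sin (u - x0 - 3 * l) ^ 2‖ = _
    simp only [LV, pF_cons, pF_nil, norm_div, norm_pow]
    rw [← d4, ← dm3, nc_sin rfl, zpow_neg, zpow_ofNat, zpow_ofNat, mul_one, div_eq_mul_inv]
    push_cast
    rw [← sub_eq_add_neg]
  · show ‖1 / sin (u - x0 - 2 * l) ^ 2‖ = _
    simp only [LV, pF_cons, pF_nil, norm_div, norm_pow, norm_one]
    rw [← dm2, zpow_neg, zpow_ofNat, mul_one, one_div]
    push_cast
    rw [← sub_eq_add_neg]
  · show ‖sin (u - x0 + 3 * l) ^ 2‖ = _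
    simp only [LV, pF_cons, pF_nil, norm_pow]
    rw [← d3, zpow_ofNat, mul_one]
    push_cast
    rfl

/-- the sines of the spectators of the state `e` of the species `σ` -/
def LS (e : SignType) (σ : Bool) (ρ : ℝ) (a : Bool) : List (ℤ × ℝ) := if a = σ then LW e ρ else LV e ρ

/-- the sines of the groups -/
def LGr (e : SignType) (σ : Bool) (a : Bool) : List (ℤ × ℝ) :=
  match e with
  | .zero => []
  | .neg => if a = σ then Lp else Lm
  | .pos => if a = σ then Lm else Lp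

/-- **the factor of the groups of the state `e` of the species `σ`** at the height `h` -/
def gF (e : SignType) (σ : Bool) (h : ℝ) (a : Bool) (u : ℂ) : ℝ :=
  match e with
  | .zero => 1
  | .neg => spF (PK σ h) a u
  | .pos => spF (PK (!σ) h) a u

theorem gF_pF (e : SignType) (σ : Bool) (h : ℝ) (a : Bool) (u : ℂ) : gF e σ h a u = pF (LGr e σ a) h u := by
  cases e
  · rfl
  · exact spF_PK _ _ _ _
  · show spF (PK (!σ) h) a u = pF (if a = σ then Lm else Lp) h u
    rw [spF_PK]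
    cases a <;> cases σ <;> rfl

/-- the sines of the ratio -/
def LR (e : SignType) (σ : Bool) (ρ : ℝ) (a : Bool) : List (ℤ × ℝ) := LS e σ ρ a ++ nf (LGr e σ a)

/-- **the atoms** -/
def xK (e : SignType) (σ : Bool) (x0 : ℂ) (a : Bool) (i : Fin 13) : Atm :=
  (atL x0.im (LR e σ x0.re a)).getD i (zA x0.im)

theorem LR_len (e : SignType) (σ : Bool) (ρ : ℝ) (a : Bool) : (LR e σ ρ a).length ≤ 13 := by
  cases e <;> cases σ <;> cases a <;> simp [LR, LS, LGr, LW, LV, Lp, Lm, nf]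

/-- the charges are equal -/
theorem LR_sum (e : SignType) (σ : Bool) (ρ : ℝ) (a : Bool) : ((LR e σ ρ a).map fun p => p.1).sum = 0 := by
  cases e <;> cases σ <;> cases a <;> rfl

theorem LR_abs (e : SignType) (σ : Bool) (ρ : ℝ) (a : Bool) : ∀ p ∈ LR e σ ρ a, |(p.1 : ℝ)| ≤ 2 := by
  have h : ∀ p ∈ LR e σ ρ a, |p.1| ≤ 2 := by
    cases e <;> cases σ <;> cases a <;>
      simp [LR, LS, LGr, LW, LV, Lp, Lm, nf]
  intro p hp
  have := h p hp
  exact_mod_cast this

/-! ### places of the sines -/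

theorem Aw.pos {δ a : ℝ} (h1 : δ ≤ a) (h2 : a ≤ 8 * l - δ) (h0 : 0 ≤ δ) : Aw δ a := by
  unfold Aw
  rw [abs_of_nonneg (h0.trans h1)]
  exact ⟨h1, h2⟩

theorem Aw.neg {δ a : ℝ} (h1 : a ≤ -δ) (h2 : -(8 * l - δ) ≤ a) (h0 : 0 ≤ δ) : Aw δ a := by
  unfold Aw
  rw [abs_of_nonpos (by linarith)]
  constructor <;> linarith

theorem mem_nf {L : List (ℤ × ℝ)} {p : ℤ × ℝ} (h : p ∈ nf L) : (-p.1, p.2) ∈ L := by
  unfold nf at h
  obtain ⟨q, h1, rfl⟩ := List.mem_map.1 h
  simpa using h1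

/-- the sines of the groups, at the line -/
theorem Lpm_line {L : List (ℤ × ℝ)} (hL : L = Lp ∨ L = Lm) {p : ℤ × ℝ} (h : p ∈ L) :
    Aw (l / 4) (l + p.2) := by
  have hl := lpos
  rcases hL with rfl | rfl
  · simp only [Lp, List.mem_cons, List.not_mem_nil, or_false] at h
    rcases h with rfl | rfl | rfl | rfl | rfl | rfl | rfl | rfl | rfl | rfl | rfl <;>
      first
        | exact Aw.pos (by linarith) (by linarith) (by linarith)
        | exact Aw.neg (by linarith) (by linarith) (by linarith)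
  · simp only [Lm, List.mem_cons, List.not_mem_nil, or_false] at h
    rcases h with rfl | rfl | rfl | rfl | rfl | rfl | rfl | rfl | rfl <;>
      first
        | exact Aw.pos (by linarith) (by linarith) (by linarith)
        | exact Aw.neg (by linarith) (by linarith) (by linarith)

/-- the sines of the groups, on the strips of the constituents -/
theorem Lpm_dom {L : List (ℤ × ℝ)} (hL : L = Lp ∨ L = Lm) {p : ℤ × ℝ} (h : p ∈ L) {u : ℂ}
    (hu : u ∈ DomC) : Aw (l / 5) (u.re + p.2) := by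
  have hl := lpos
  have hu' : u.re = -(1 / 2 * l) ∨ u.re = -(3 / 2 * l) ∨
      (-(13 / 10 * l) ≤ u.re ∧ u.re ≤ -(5 / 4 * l)) ∨ (-(23 / 10 * l) ≤ u.re ∧ u.re ≤ -(9 / 4 * l)) ∨
      (13 / 20 * l ≤ u.re ∧ u.re ≤ 21 / 20 * l) := hu
  generalize u.re = t at hu'
  clear hu
  have hu2 : ∃ a b : ℝ, a ≤ t ∧ t ≤ b ∧ ((a = -(1 / 2 * l) ∧ b = -(1 / 2 * l)) ∨
      (a = -(3 / 2 * l) ∧ b = -(3 / 2 * l)) ∨ (a = -(13 / 10 * l) ∧ b = -(5 / 4 * l)) ∨
      (a = -(23 / 10 * l) ∧ b = -(9 / 4 * l)) ∨ (a = 13 / 20 * l ∧ b = 21 / 20 * l)) := by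
    rcases hu' with h1 | h1 | ⟨h1, h2⟩ | ⟨h1, h2⟩ | ⟨h1, h2⟩
    · exact ⟨_, _, h1.ge, h1.le, Or.inl ⟨rfl, rfl⟩⟩
    · exact ⟨_, _, h1.ge, h1.le, Or.inr (Or.inl ⟨rfl, rfl⟩)⟩
    · exact ⟨_, _, h1, h2, Or.inr (Or.inr (Or.inl ⟨rfl, rfl⟩))⟩
    · exact ⟨_, _, h1, h2, Or.inr (Or.inr (Or.inr (Or.inl ⟨rfl, rfl⟩)))⟩
    · exact ⟨_, _, h1, h2, Or.inr (Or.inr (Or.inr (Or.inr ⟨rfl, rfl⟩)))⟩
  obtain ⟨a, b, ha, hb, hab⟩ := hu2
  rcases hL with rfl | rfl
  · simp only [Lp, List.mem_cons, List.not_mem_nil, or_false] at h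
    rcases h with rfl | rfl | rfl | rfl | rfl | rfl | rfl | rfl | rfl | rfl | rfl <;>
      rcases hab with ⟨rfl, rfl⟩ | ⟨rfl, rfl⟩ | ⟨rfl, rfl⟩ | ⟨rfl, rfl⟩ | ⟨rfl, rfl⟩ <;>
      first
        | exact Aw.pos (by linarith) (by linarith) (by linarith)
        | exact Aw.neg (by linarith) (by linarith) (by linarith)
  · simp only [Lm, List.mem_cons, List.not_mem_nil, or_false] at h
    rcases h with rfl | rfl | rfl | rfl | rfl | rfl | rfl | rfl | rfl <;>
      rcases hab with ⟨rfl, rfl⟩ | ⟨rfl, rfl⟩ | ⟨rfl, rfl⟩ | ⟨rfl, rfl⟩ | ⟨rfl, rfl⟩ <;>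
      first
        | exact Aw.pos (by linarith) (by linarith) (by linarith)
        | exact Aw.neg (by linarith) (by linarith) (by linarith)

/-- the sines of the spectators, at the line -/
theorem LS_line {e : SignType} {σ : Bool} {ρ : ℝ} (hρ : Win e ρ) {a : Bool} {p : ℤ × ℝ}
    (h : p ∈ LS e σ ρ a) : Aw (l / 4) (l + p.2) := by
  have hl := lpos
  obtain ⟨h1, h2⟩ := hρ
  unfold LS at h
  cases e
  · rw [if_neg (by decide)] at h2
    split_ifs at h
    · simp only [LW, List.mem_cons, List.not_mem_nil, or_false] at h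
      rcases h with rfl | rfl | rfl | rfl <;>
        first
          | exact Aw.pos (by linarith) (by linarith) (by linarith)
          | exact Aw.neg (by linarith) (by linarith) (by linarith)
    · simp only [LV, List.mem_cons, List.not_mem_nil, or_false] at h
      rcases h with rfl | rfl <;>
        first
          | exact Aw.pos (by linarith) (by linarith) (by linarith)
          | exact Aw.neg (by linarith) (by linarith) (by linarith)
  · rw [if_pos rfl] at h2
    split_ifs at h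
    · simp only [LW, List.mem_cons, List.not_mem_nil, or_false] at h
      rcases h with rfl | rfl <;>
        first
          | exact Aw.pos (by linarith) (by linarith) (by linarith)
          | exact Aw.neg (by linarith) (by linarith) (by linarith)
    · simp only [LV, List.mem_cons, List.not_mem_nil, or_false] at h
      rcases h with rfl
      exact Aw.neg (by linarith) (by linarith) (by linarith)
  · rw [if_neg (by decide)] at h2
    split_ifs at h
    · simp only [LW, List.mem_cons, List.not_mem_nil, or_false] at h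
      rcases h with rfl | rfl <;> exact Aw.neg (by linarith) (by linarith) (by linarith)
    · simp only [LV, List.mem_cons, List.not_mem_nil, or_false] at h
      rcases h with rfl
      exact Aw.pos (by linarith) (by linarith) (by linarith)

/-- the negative powers of the spectators, on the lines of the constituents -/
theorem LS_LnR {e : SignType} {σ : Bool} {ρ : ℝ} (hρ : Win e ρ) {a : Bool} {p : ℤ × ℝ}
    (h : p ∈ LS e σ ρ a) (hp : p.1 < 0) {t : ℝ} (ht1 : -(113 / 50 * l) ≤ t) (ht2 : t ≤ 19 / 25 * l) :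
    Aw (l / 25) (t + p.2) := by
  have hl := lpos
  obtain ⟨h1, h2⟩ := hρ
  unfold LS at h
  cases e
  · rw [if_neg (by decide)] at h2
    split_ifs at h
    · simp only [LW, List.mem_cons, List.not_mem_nil, or_false] at h
      rcases h with rfl | rfl | rfl | rfl
      · simp at hp
      · simp at hp
      · exact Aw.neg (by linarith) (by linarith) (by linarith)
      · exact Aw.neg (by linarith) (by linarith) (by linarith)
    · simp only [LV, List.mem_cons, List.not_mem_nil, or_false] at h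
      rcases h with rfl | rfl
      · simp at hp
      · exact Aw.neg (by linarith) (by linarith) (by linarith)
  · rw [if_pos rfl] at h2
    split_ifs at h
    · simp only [LW, List.mem_cons, List.not_mem_nil, or_false] at h
      rcases h with rfl | rfl
      · simp at hp
      · simp at hp
    · simp only [LV, List.mem_cons, List.not_mem_nil, or_false] at h
      rcases h with rfl
      exact Aw.neg (by linarith) (by linarith) (by linarith)
  · rw [if_neg (by decide)] at h2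
    split_ifs at h
    · simp only [LW, List.mem_cons, List.not_mem_nil, or_false] at h
      rcases h with rfl | rfl
      · exact Aw.neg (by linarith) (by linarith) (by linarith)
      · exact Aw.neg (by linarith) (by linarith) (by linarith)
    · simp only [LV, List.mem_cons, List.not_mem_nil, or_false] at h
      rcases h with rfl
      simp at hp

theorem LGr_cases (e : SignType) (σ a : Bool) : LGr e σ a = [] ∨ LGr e σ a = Lp ∨ LGr e σ a = Lm := by
  cases e <;> cases σ <;> cases a <;> simp [LGr]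

theorem LR_line {e : SignType} {σ : Bool} {ρ : ℝ} (hρ : Win e ρ) {a : Bool} {p : ℤ × ℝ}
    (h : p ∈ LR e σ ρ a) : Aw (l / 4) (l + p.2) := by
  unfold LR at h
  rcases List.mem_append.1 h with h | h
  · exact LS_line hρ h
  · have h1 := mem_nf h
    rcases LGr_cases e σ a with h2 | h2
    · rw [h2] at h1
      simp at h1
    · exact Lpm_line h2 (p := (-p.1, p.2)) h1

/-! ### the theorems -/

/-- **the atoms are bounded** -/
theorem xK_ok {e : SignType} {σ : Bool} {x0 : ℂ} (hx : Win e x0.re) : AtOk 2 (l / 4) (xK e σ x0) := by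
  have hl := lpos
  intro a i
  have key : ∀ x ∈ atL x0.im (LR e σ x0.re a), |x.k| ≤ 2 ∧ |x.y1| ≤ 4 * l - l / 4 ∧ |x.y2| ≤ 4 * l - l / 4 := by
    intro x h
    unfold atL at h
    obtain ⟨p, h1, rfl⟩ := List.mem_map.1 h
    refine ⟨LR_abs e σ x0.re a p h1, ya_le (by linarith) (LR_line hx h1), ?_⟩
    rw [abs_zero]
    linarith
  unfold xK
  by_cases hi : (i : ℕ) < (atL x0.im (LR e σ x0.re a)).length
  · rw [List.getD_eq_getElem _ _ hi]
    exact key _ (List.getElem_mem hi)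
  · rw [List.getD_eq_default _ _ (by omega)]
    refine ⟨?_, ?_, ?_⟩
    · show |(0 : ℝ)| ≤ 2
      norm_num
    · show |(0 : ℝ)| ≤ 4 * l - l / 4
      rw [abs_zero]
      linarith
    · show |(0 : ℝ)| ≤ 4 * l - l / 4
      rw [abs_zero]
      linarith

/-- all atoms are at the height of the row -/
theorem xK_c (e : SignType) (σ : Bool) (x0 : ℂ) (a : Bool) (i : Fin 13) : (xK e σ x0 a i).c = x0.im := by
  unfold xK
  by_cases hi : (i : ℕ) < (atL x0.im (LR e σ x0.re a)).length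
  · rw [List.getD_eq_getElem _ _ hi]
    have h := List.getElem_mem hi
    obtain ⟨p, _, h2⟩ := List.mem_map.1 h
    rw [← h2]
  · rw [List.getD_eq_default _ _ (by omega)]
    rfl

theorem atL_len (h : ℝ) (L : List (ℤ × ℝ)) : (atL h L).length = L.length := by
  unfold atL
  exact List.length_map _

/-- **the sum of the atoms** -/
theorem HS_xK (e : SignType) (σ : Bool) (x0 : ℂ) (ζ : Bool → ℝ → ℝ) (a : Bool) (t : ℝ) :
    HS (xK e σ x0) ζ a t = ((LS e σ x0.re a).map fun p => (p.1 : ℝ) * NL (ya p.2) x0.im (ζ a) t).sum -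
      ((LGr e σ a).map fun p => (p.1 : ℝ) * NL (ya p.2) x0.im (ζ a) t).sum := by
  have h1 := sum_getD (f := fun x : Atm => x.k * PBH.AT x.y1 x.y2 x.c (ζ a) t) (z := zA x0.im)
    (by simp [zA]) 13 (atL x0.im (LR e σ x0.re a)) (by rw [atL_len]; exact LR_len e σ x0.re a)
  have h2 := AT_sum (δ := 1) x0.im (ζ a) t (LR e σ x0.re a)
  rw [LR_sum, Int.cast_zero, zero_mul, sub_zero] at h2
  have h3 : HS (xK e σ x0) ζ a t = ∑ i : Fin 13, (fun x : Atm => x.k * PBH.AT x.y1 x.y2 x.c (ζ a) t)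
      ((atL x0.im (LR e σ x0.re a)).getD i (zA x0.im)) := rfl
  rw [h3, h1, h2]
  unfold LR
  rw [List.map_append, List.sum_append, sub_eq_add_neg]
  congr 1
  generalize LGr e σ a = L
  induction L with
  | nil => simp [nf]
  | cons p L ih =>
    have e1 : nf (p :: L) = (-p.1, p.2) :: nf L := rfl
    rw [e1, List.map_cons, List.sum_cons, List.map_cons, List.sum_cons, ih]
    push_cast
    ring

/-- **(K): the spectators of a state are the groups times atoms**, every height, every curve of size `l / 8` -/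
theorem KSpk {e : SignType} {σ : Bool} {x0 : ℂ} (hx : Win e x0.re) {ζ : Bool → ℝ → ℝ}
    (hζ : ∀ a t, |ζ a t| ≤ l / 8) (a : Bool) (t : ℝ) :
    ‖spS σ (fun u => Wo e (u - x0)) (fun u => Vo e (u - x0)) a (pA (ζ a) t)‖ =
      gF e σ x0.im a (pA (ζ a) t) * Real.exp (HS (xK e σ x0) ζ a t) := by
  have hl := lpos
  have hη : ∀ t, |ζ a t| ≤ l / 4 / 2 := fun t => (hζ a t).trans (by linarith)
  have e1 : ‖spS σ (fun u => Wo e (u - x0)) (fun u => Vo e (u - x0)) a (pA (ζ a) t)‖ =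
      pF (LS e σ x0.re a) x0.im (pA (ζ a) t) := by
    unfold spS LS
    split_ifs
    · exact Wo_pF e x0 _
    · exact Vo_pF e x0 _
  rw [e1, gF_pF, HS_xK, Real.exp_sub,
    pF_exp (δ := l / 4) (by linarith) (by linarith) hη x0.im t _ fun p hp => LS_line hx hp,
    pF_exp (δ := l / 4) (by linarith) (by linarith) hη x0.im t (LGr e σ a) fun p hp => ?_]
  · rw [mul_div_assoc', mul_comm, mul_div_assoc, div_self (Real.exp_pos _).ne', mul_one]
  · rcases LGr_cases e σ a with h2 | h2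
    · rw [h2] at hp
      simp at hp
    · exact Lpm_line h2 hp

/-- **the factor of the groups is positive** on the strips of the constituents -/
theorem gF_pos (e : SignType) (σ : Bool) (h : ℝ) (a : Bool) {u : ℂ} (hu : u ∈ DomC) : 0 < gF e σ h a u := by
  have hl := lpos
  rw [gF_pF]
  refine pF_pos (δ := l / 5) (by linarith) fun p hp => ?_
  rcases LGr_cases e σ a with h2 | h2
  · rw [h2] at hp
    simp at hp
  · exact Lpm_dom h2 hp hu

/-- the neutral rest -/
def Gk (e : SignType) (σ : Bool) (x0 : ℂ) (a : Bool) (u : ℂ) : ℝ :=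
  ‖spS σ (fun u => Wo e (u - x0)) (fun u => Vo e (u - x0)) a u‖ / gF e σ x0.im a u

theorem Gk_mul (e : SignType) (σ : Bool) (x0 : ℂ) (a : Bool) {u : ℂ} (hu : u ∈ DomC) :
    Gk e σ x0 a u * gF e σ x0.im a u = ‖spS σ (fun u => Wo e (u - x0)) (fun u => Vo e (u - x0)) a u‖ :=
  div_mul_cancel₀ _ (gF_pos e σ x0.im a hu).ne'

theorem LnR_DomC {u : ℂ} (hu : SPR.PLX.LnR (1 / 100) u.re) : u ∈ DomC := by
  have hl := lpos
  rcases hu with h | h | h | h | h
  · exact Or.inr (Or.inr (Or.inr (Or.inl ⟨by linarith [h.1], h.2⟩)))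
  · exact Or.inr (Or.inr (Or.inl ⟨by linarith [h.1], h.2⟩))
  · exact Or.inl h
  · exact Or.inr (Or.inl h)
  · exact Or.inr (Or.inr (Or.inr (Or.inr ⟨by linarith [h.1], by linarith [h.2]⟩)))

/-- **the neutral rest is bounded on the lines of the constituents** -/
theorem Gk_SpL : ∃ G : ℝ, 1 ≤ G ∧ ∀ (e : SignType) (σ : Bool) (x0 : ℂ), Win e x0.re →
    SPR.PLX.SpL G (1 / 100) (Gk e σ x0) := by
  have hl := lpos
  obtain ⟨δ, hδ⟩ : ∃ δ, δ = Real.sin (l / 25) := ⟨_, rfl⟩
  have hd : 0 < δ := by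
    rw [hδ]
    exact SPR.sin_pos' (by positivity) (by linarith)
  have hd1 : δ ≤ 1 := by
    rw [hδ]
    exact Real.sin_le_one _
  have hi : 1 ≤ δ⁻¹ := (one_le_inv₀ hd).2 hd1
  refine ⟨(δ⁻¹) ^ 26, one_le_pow₀ hi, fun e σ x0 hx a u hu => ?_⟩
  have hD := LnR_DomC hu
  have e1 : ‖spS σ (fun u => Wo e (u - x0)) (fun u => Vo e (u - x0)) a u‖ = pF (LS e σ x0.re a) x0.im u := by
    unfold spS LS
    split_ifs
    · exact Wo_pF e x0 _
    · exact Vo_pF e x0 _
  have e2 : Gk e σ x0 a u = pF (LR e σ x0.re a) x0.im u := by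
    unfold Gk LR
    rw [e1, gF_pF, pF_append, pF_nf, div_eq_mul_inv]
  rw [e2]
  refine ⟨pF_nonneg _ _ _, ?_⟩
  have h1 : -(113 / 50 * l) ≤ u.re ∧ u.re ≤ 19 / 25 * l := by
    rcases hu with h | h | h | h | h <;> constructor <;> (try obtain ⟨h3, h4⟩ := h) <;> linarith
  have h2 := pF_le hd hd1 x0.im u (LR e σ x0.re a) fun p hp hn => by
    rw [hδ]
    unfold LR at hp
    rcases List.mem_append.1 hp with hp | hp
    · exact (LS_LnR hx hp hn h1.1 h1.2).sin (by positivity)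
    · have h3 := mem_nf hp
      rcases LGr_cases e σ a with h4 | h4
      · rw [h4] at h3
        simp at h3
      · obtain ⟨h5, h6⟩ := Lpm_dom h4 (p := (-p.1, p.2)) h3 hD
        exact Aw.sin (by positivity) ⟨by linarith, by linarith⟩
  rw [LR_sum, zpow_zero, mul_one] at h2
  refine h2.trans (pow_le_pow_right₀ hi ?_)
  have key : ∀ (ρ : ℝ), ((LR e σ ρ a).map fun p => p.1.natAbs).sum ≤ 26 := fun ρ => by
    cases e <;> cases σ <;> cases a <;> simp [LR, LS, LGr, LW, LV, Lp, Lm, nf]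
  exact key _

/-! ### the spectators of `JU` -/

theorem Win_JU {w : ℂ} (hw : |w.re| ≤ 7 / 10 * l) : Win .neg (w + 3 * l).re := by
  have hl := lpos
  obtain ⟨h1, h2⟩ := abs_le.1 hw
  have e : (w + 3 * (l : ℂ)).re = w.re + 3 * l := by simp
  unfold Win
  rw [if_pos rfl, e]
  constructor <;> linarith

theorem im_JU (w : ℂ) : (w + 3 * (l : ℂ)).im = w.im := by simp

/-- the state `-` at `w + 3 l` is the row removed at `w` -/
theorem Wo_JU (w u : ℂ) : ‖Wo .neg (u - (w + 3 * l))‖ = ‖sin (u - w) * sin (u - w - 2 * l)‖ := by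
  show ‖-(sin (u - (w + 3 * l) + l) * sin (u - (w + 3 * l) + 3 * l))‖ = _
  rw [norm_neg, mul_comm]
  congr 3 <;> ring

theorem Vo_JU (w u : ℂ) : ‖Vo .neg (u - (w + 3 * l))‖ = ‖1 / sin (u - w + 3 * l) ^ 2‖ := by
  show ‖1 / sin (u - (w + 3 * l) - 2 * l) ^ 2‖ = _
  rw [norm_div, norm_div, norm_pow, norm_pow]
  congr 2
  exact (ns_per (by ring)).symm

end Pool.Agent.PLX

end
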