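import Pool.Agent.PLX.KSpk

/-!
# PLAX (K): the spectators of a charge, windows with a parameter, two sided bounds

* `WinD d e ρ` : `(2 + d) l ≤ ρ`, `ρ ≤ (4 - d) l` (`e = -`), `ρ ≤ (3 - d) l` (`e = 0, +`), `0 < d ≤ 1/4`;
  `WinD_JU` : `JU`, `|Re w| ≤ (1 - d) l`;
* `xK_okD` : `AtOk 2 (d l)`, **`KSpkD`** : the identity of `KSpk` on curves of size `d l / 2`;
* **`Gk_two`** : `sin δ ^ 26 ≤ Gk ≤ (sin δ) ^ (-26)` at every point whose real part is at distance `δ` from the
  zeros of the sines; `Pl δ r` : distance from the places of the pair of groups; `Lpm_pl`, `LS_pl`.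
-/

set_option autoImplicit false
set_option linter.unusedSectionVars false
set_option linter.unusedVariables false

noncomputable section

open Complex MeasureTheory Filter Topology

namespace Pool.Agent.PLX

open NUP1 (l lpos vl)
open NUO (pA)
open _root_.RX (Wo Vo)
open NUSea.PLX.H0 (Gd)
open NUGC.PLX (spF lsG spL DomC)
open PBH.PLX (Atm HS AtOk NL pw pw_norm)

/-- the window of the state `e`, margin `d` -/
def WinD (d : ℝ) (e : SignType) (ρ : ℝ) : Prop :=
  (2 + d) * l ≤ ρ ∧ ρ ≤ (if e = .neg then (4 - d) * l else (3 - d) * l)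

theorem Win.winD {e : SignType} {ρ : ℝ} (h : Win e ρ) : WinD (1 / 4) e ρ := by
  have hl := lpos
  obtain ⟨h1, h2⟩ := h
  unfold WinD
  refine ⟨by linarith, ?_⟩
  split_ifs at h2 ⊢ <;> linarith

theorem WinD.mono {d d' : ℝ} {e : SignType} {ρ : ℝ} (h : WinD d e ρ) (hd : d' ≤ d) : WinD d' e ρ := by
  have hl := lpos
  obtain ⟨h1, h2⟩ := h
  have h3 := mul_le_mul_of_nonneg_right hd hl.le
  unfold WinD
  refine ⟨by linarith, ?_⟩
  split_ifs at h2 ⊢ <;> linarith

theorem WinD_JU {d : ℝ} {w : ℂ} (hw : |w.re| ≤ (1 - d) * l) : WinD d .neg (w + 3 * l).re := by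
  have hl := lpos
  obtain ⟨h1, h2⟩ := abs_le.1 hw
  have e : (w + 3 * (l : ℂ)).re = w.re + 3 * l := by simp
  unfold WinD
  rw [if_pos rfl, e]
  constructor <;> linarith

theorem Aw.mono {δ δ' a : ℝ} (h : Aw δ a) (hd : δ' ≤ δ) : Aw δ' a := ⟨hd.trans h.1, h.2.trans (by linarith)⟩

/-- the sines of the spectators, at the line -/
theorem LS_lineD {d : ℝ} (hd : 0 < d) (hd1 : d ≤ 1 / 4) {e : SignType} {σ : Bool} {ρ : ℝ} (hρ : WinD d e ρ)
    {a : Bool} {p : ℤ × ℝ} (h : p ∈ LS e σ ρ a) : Aw (d * l) (l + p.2) := by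
  have hl := lpos
  have hdl : 0 < d * l := by positivity
  have hdl1 : d * l ≤ 1 / 4 * l := mul_le_mul_of_nonneg_right hd1 hl.le
  obtain ⟨h1, h2⟩ := hρ
  unfold LS at h
  cases e
  · rw [if_neg (by decide)] at h2
    split_ifs at h
    · simp only [LW, List.mem_cons, List.not_mem_nil, or_false] at h
      rcases h with rfl | rfl | rfl | rfl
      · exact Aw.neg (by linarith) (by linarith) (by linarith)
      · exact Aw.pos (by linarith) (by linarith) (by linarith)
      · exact Aw.neg (by linarith) (by linarith) (by linarith)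
      · exact Aw.neg (by linarith) (by linarith) (by linarith)
    · simp only [LV, List.mem_cons, List.not_mem_nil, or_false] at h
      rcases h with rfl | rfl
      · exact Aw.pos (by linarith) (by linarith) (by linarith)
      · exact Aw.neg (by linarith) (by linarith) (by linarith)
  · rw [if_pos rfl] at h2
    split_ifs at h
    · simp only [LW, List.mem_cons, List.not_mem_nil, or_false] at h
      rcases h with rfl | rfl
      · exact Aw.neg (by linarith) (by linarith) (by linarith)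
      · exact Aw.pos (by linarith) (by linarith) (by linarith)
    · simp only [LV, List.mem_cons, List.not_mem_nil, or_false] at h
      rcases h with rfl
      exact Aw.neg (by linarith) (by linarith) (by linarith)
  · rw [if_neg (by decide)] at h2
    split_ifs at h
    · simp only [LW, List.mem_cons, List.not_mem_nil, or_false] at h
      rcases h with rfl | rfl
      · exact Aw.neg (by linarith) (by linarith) (by linarith)
      · exact Aw.neg (by linarith) (by linarith) (by linarith)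
    · simp only [LV, List.mem_cons, List.not_mem_nil, or_false] at h
      rcases h with rfl
      exact Aw.pos (by linarith) (by linarith) (by linarith)

theorem LG_lineD {d : ℝ} (hd : 0 < d) (hd1 : d ≤ 1 / 4) {e : SignType} {σ a : Bool} {p : ℤ × ℝ}
    (h : p ∈ LGr e σ a) : Aw (d * l) (l + p.2) := by
  have hl := lpos
  have hdl1 : d * l ≤ 1 / 4 * l := mul_le_mul_of_nonneg_right hd1 hl.le
  rcases LGr_cases e σ a with h2 | h2
  · rw [h2] at h
    simp at h
  · exact (Lpm_line h2 h).mono (by linarith)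

theorem LR_lineD {d : ℝ} (hd : 0 < d) (hd1 : d ≤ 1 / 4) {e : SignType} {σ : Bool} {ρ : ℝ} (hρ : WinD d e ρ)
    {a : Bool} {p : ℤ × ℝ} (h : p ∈ LR e σ ρ a) : Aw (d * l) (l + p.2) := by
  unfold LR at h
  rcases List.mem_append.1 h with h | h
  · exact LS_lineD hd hd1 hρ h
  · exact LG_lineD hd hd1 (p := (-p.1, p.2)) (mem_nf h)

/-- **the atoms are bounded** -/
theorem xK_okD {d : ℝ} (hd : 0 < d) (hd1 : d ≤ 1 / 4) {e : SignType} {σ : Bool} {x0 : ℂ} (hx : WinD d e x0.re) :
    AtOk 2 (d * l) (xK e σ x0) := by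
  have hl := lpos
  have hdl : 0 < d * l := by positivity
  have hdl1 : d * l ≤ 1 / 4 * l := mul_le_mul_of_nonneg_right hd1 hl.le
  intro a i
  have key : ∀ x ∈ atL x0.im (LR e σ x0.re a), |x.k| ≤ 2 ∧ |x.y1| ≤ 4 * l - d * l ∧ |x.y2| ≤ 4 * l - d * l := by
    intro x h
    unfold atL at h
    obtain ⟨p, h1, rfl⟩ := List.mem_map.1 h
    refine ⟨LR_abs e σ x0.re a p h1, ya_le hdl (LR_lineD hd hd1 hx h1), ?_⟩
    rw [abs_zero]
    linarith
  unfold xK
  by_cases hi : (i : ℕ) < (atL x0.im (LR e σ x0.re a)).length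
  · rw [List.getD_eq_getElem _ _ hi]
    exact key _ (List.getElem_mem hi)
  · rw [List.getD_eq_default _ _ (by omega)]
    refine ⟨?_, ?_, ?_⟩
    · show |(0 : ℝ)| ≤ 2
      norm_num
    · show |(0 : ℝ)| ≤ 4 * l - d * l
      rw [abs_zero]
      linarith
    · show |(0 : ℝ)| ≤ 4 * l - d * l
      rw [abs_zero]
      linarith

theorem spS_pF (e : SignType) (σ : Bool) (x0 : ℂ) (a : Bool) (u : ℂ) :
    ‖spS σ (fun u => Wo e (u - x0)) (fun u => Vo e (u - x0)) a u‖ = pF (LS e σ x0.re a) x0.im u := by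
  unfold spS LS
  split_ifs
  · exact Wo_pF e x0 _
  · exact Vo_pF e x0 _

theorem Gk_pF (e : SignType) (σ : Bool) (x0 : ℂ) (a : Bool) (u : ℂ) :
    Gk e σ x0 a u = pF (LR e σ x0.re a) x0.im u := by
  unfold Gk LR
  rw [spS_pF, gF_pF, pF_append, pF_nf, div_eq_mul_inv]

/-- **(K): the spectators of a state are the groups times atoms**, every height, every curve of size `d l / 2` -/
theorem KSpkD {d : ℝ} (hd : 0 < d) (hd1 : d ≤ 1 / 4) {e : SignType} {σ : Bool} {x0 : ℂ} (hx : WinD d e x0.re)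
    {ζ : Bool → ℝ → ℝ} (hζ : ∀ a t, |ζ a t| ≤ d * l / 2) (a : Bool) (t : ℝ) :
    ‖spS σ (fun u => Wo e (u - x0)) (fun u => Vo e (u - x0)) a (pA (ζ a) t)‖ =
      gF e σ x0.im a (pA (ζ a) t) * Real.exp (HS (xK e σ x0) ζ a t) := by
  have hl := lpos
  have hdl : 0 < d * l := by positivity
  have hdl1 : d * l ≤ 1 / 4 * l := mul_le_mul_of_nonneg_right hd1 hl.le
  rw [spS_pF, gF_pF, HS_xK, Real.exp_sub,
    pF_exp (δ := d * l) hdl (by linarith) (hζ a) x0.im t _ fun p hp => LS_lineD hd hd1 hx hp,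
    pF_exp (δ := d * l) hdl (by linarith) (hζ a) x0.im t (LGr e σ a) fun p hp => LG_lineD hd hd1 hp]
  rw [mul_div_assoc', mul_comm, mul_div_assoc, div_self (Real.exp_pos _).ne', mul_one]

/-- the neutral rest on a curve -/
theorem Gk_curve {d : ℝ} (hd : 0 < d) (hd1 : d ≤ 1 / 4) {e : SignType} {σ : Bool} {x0 : ℂ} (hx : WinD d e x0.re)
    {ζ : Bool → ℝ → ℝ} (hζ : ∀ a t, |ζ a t| ≤ d * l / 2) (a : Bool) (t : ℝ) :
    Gk e σ x0 a (pA (ζ a) t) = Real.exp (HS (xK e σ x0) ζ a t) := by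
  have hl := lpos
  have hdl : 0 < d * l := by positivity
  have hdl1 : d * l ≤ 1 / 4 * l := mul_le_mul_of_nonneg_right hd1 hl.le
  have hg : 0 < gF e σ x0.im a (pA (ζ a) t) := by
    rw [gF_pF, pF_exp (δ := d * l) hdl (by linarith) (hζ a) x0.im t (LGr e σ a) fun p hp => LG_lineD hd hd1 hp]
    exact Real.exp_pos _
  unfold Gk
  rw [KSpkD hd hd1 hx hζ a t, mul_comm, mul_div_assoc, div_self hg.ne', mul_one]

/-! ### two sided bounds -/

theorem pF_two {δ : ℝ} (h0 : 0 < δ) (h1 : δ ≤ 1) (h : ℝ) (u : ℂ) {L : List (ℤ × ℝ)}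
    (hL : ∀ p ∈ L, δ ≤ |Real.sin (u.re + p.2)|) (hs : (L.map fun p => p.1).sum = 0) {n : ℕ}
    (hn : (L.map fun p => p.1.natAbs).sum ≤ n) : δ ^ n ≤ pF L h u ∧ pF L h u ≤ (δ⁻¹) ^ n := by
  have hd : 1 ≤ δ⁻¹ := (one_le_inv₀ h0).2 h1
  have up : ∀ L : List (ℤ × ℝ), (∀ p ∈ L, δ ≤ |Real.sin (u.re + p.2)|) → (L.map fun p => p.1).sum = 0 →
      (L.map fun p => p.1.natAbs).sum ≤ n → pF L h u ≤ (δ⁻¹) ^ n := by
    intro L hL hs hn
    have h2 := pF_le h0 h1 h u L fun p hp _ => hL p hp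
    rw [hs, zpow_zero, mul_one] at h2
    exact h2.trans (pow_le_pow_right₀ hd hn)
  refine ⟨?_, up L hL hs hn⟩
  have h3 := up (nf L) (fun p hp => hL (-p.1, p.2) (mem_nf hp)) (by
    have : ∀ L : List (ℤ × ℝ), ((nf L).map fun p => p.1).sum = -(L.map fun p => p.1).sum := by
      intro L
      induction L with
      | nil => rfl
      | cons p L ih =>
        have e1 : nf (p :: L) = (-p.1, p.2) :: nf L := rfl
        rw [e1, List.map_cons, List.sum_cons, ih, List.map_cons, List.sum_cons]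
        ring
    rw [this, hs, neg_zero]) (by
    have : ∀ L : List (ℤ × ℝ), ((nf L).map fun p => p.1.natAbs).sum = (L.map fun p => p.1.natAbs).sum := by
      intro L
      induction L with
      | nil => rfl
      | cons p L ih =>
        have e1 : nf (p :: L) = (-p.1, p.2) :: nf L := rfl
        rw [e1, List.map_cons, List.sum_cons, ih, List.map_cons, List.sum_cons]
        simp
    rw [this]
    exact hn)
  rw [pF_nf] at h3
  have hp : 0 < pF L h u := by
    unfold pF
    refine List.prod_pos fun x hx => ?_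
    obtain ⟨p, hp, rfl⟩ := List.mem_map.1 hx
    have h2 := NUP1.Bd.le_norm_sin (u - h * I + p.2)
    have ere : (u - h * I + p.2).re = u.re + p.2 := by simp
    rw [ere] at h2
    have hc := Real.cosh_pos (u - h * I + p.2).im
    have : 0 < ‖sin (u - h * I + p.2)‖ := lt_of_lt_of_le (mul_pos (h0.trans_le (hL p hp)) hc) h2
    positivity
  rw [inv_pow, inv_le_inv₀ hp (by positivity)] at h3
  exact h3

theorem LR_natAbs (e : SignType) (σ : Bool) (ρ : ℝ) (a : Bool) :
    ((LR e σ ρ a).map fun p => p.1.natAbs).sum ≤ 26 := by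
  cases e <;> cases σ <;> cases a <;> simp [LR, LS, LGr, LW, LV, Lp, Lm, nf]

/-- **two sided bound of the neutral rest** at a point away from the zeros of the sines -/
theorem Gk_two {δ : ℝ} (h0 : 0 < δ) (h4 : δ ≤ 4 * l) {e : SignType} {σ : Bool} {x0 : ℂ} {a : Bool} {u : ℂ}
    (hL : ∀ p ∈ LR e σ x0.re a, Aw δ (u.re + p.2)) :
    Real.sin δ ^ 26 ≤ Gk e σ x0 a u ∧ Gk e σ x0 a u ≤ (Real.sin δ)⁻¹ ^ 26 := by
  rw [Gk_pF]
  exact pF_two (SPR.sin_pos' h0 h4) (Real.sin_le_one _) x0.im u (fun p hp => (hL p hp).sin h0) (LR_sum e σ x0.re a)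
    (LR_natAbs e σ x0.re a)

/-! ### places -/

/-- at distance `δ` from the places of the pair of groups -/
def Pl (δ r : ℝ) : Prop := -(27 / 8 * l) + δ ≤ r ∧ r ≤ 9 / 8 * l ∧
  δ ≤ |r + 11 / 4 * l| ∧ δ ≤ |r + 7 / 4 * l| ∧ δ ≤ |r + 3 / 4 * l| ∧ δ ≤ |r - 1 / 4 * l| ∧ δ ≤ |r - 5 / 4 * l|

theorem Lpm_pl {δ r : ℝ} (h0 : 0 < δ) (hδ : δ ≤ l / 8) (h : Pl δ r) {L : List (ℤ × ℝ)} (hL : L = Lp ∨ L = Lm)
    {p : ℤ × ℝ} (hp : p ∈ L) : Aw δ (r + p.2) := by
  have hl := lpos
  obtain ⟨r1, r2, d1, d2, d3, d4, d5⟩ := h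
  -- an offset with a given zero
  have key : ∀ c : ℝ, δ ≤ |r + c| → -(8 * l) + δ ≤ r + c → r + c ≤ 8 * l - δ → Aw δ (r + c) := by
    intro c h1 h2 h3
    exact ⟨h1, abs_le.2 ⟨by linarith, h3⟩⟩
  have a5 : Aw δ (r + -(5 / 4 * l)) := key _ (by rwa [← sub_eq_add_neg]) (by linarith) (by linarith)
  have a1 : Aw δ (r + -(1 / 4 * l)) := key _ (by rwa [← sub_eq_add_neg]) (by linarith) (by linarith)
  have a7 : Aw δ (r + 7 / 4 * l) := key _ d2 (by linarith) (by linarith)
  have a3 : Aw δ (r + 3 / 4 * l) := key _ d3 (by linarith) (by linarith)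
  have a11 : Aw δ (r + 11 / 4 * l) := key _ d1 (by linarith) (by linarith)
  have n9 : Aw δ (r + -(9 / 4 * l)) := Aw.neg (by linarith) (by linarith) h0.le
  have n13 : Aw δ (r + -(13 / 4 * l)) := Aw.neg (by linarith) (by linarith) h0.le
  have n17 : Aw δ (r + -(17 / 4 * l)) := Aw.neg (by linarith) (by linarith) h0.le
  have p15 : Aw δ (r + 15 / 4 * l) := Aw.pos (by linarith) (by linarith) h0.le
  rcases hL with rfl | rfl
  · simp only [Lp, List.mem_cons, List.not_mem_nil, or_false] at hp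
    rcases hp with rfl | rfl | rfl | rfl | rfl | rfl | rfl | rfl | rfl | rfl | rfl <;> assumption
  · simp only [Lm, List.mem_cons, List.not_mem_nil, or_false] at hp
    rcases hp with rfl | rfl | rfl | rfl | rfl | rfl | rfl | rfl | rfl <;> assumption

/-- at distance `δ` from the zeros and poles of the state `e` of a row `ρ` -/
def Ps (e : SignType) (δ ρ r : ℝ) : Prop :=
  match e with
  | .zero => Aw δ (r - ρ) ∧ Aw δ (r + 2 * l - ρ) ∧ Aw δ (r - l - ρ) ∧ Aw δ (r + l - ρ) ∧ Aw δ (r + 4 * l - ρ) ∧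
      Aw δ (r - 3 * l - ρ)
  | .neg => Aw δ (r + l - ρ) ∧ Aw δ (r + 3 * l - ρ) ∧ Aw δ (r - 2 * l - ρ)
  | .pos => Aw δ (r - ρ) ∧ Aw δ (r - 2 * l - ρ) ∧ Aw δ (r + 3 * l - ρ)

theorem LS_ps {e : SignType} {σ : Bool} {δ ρ r : ℝ} (h : Ps e δ ρ r) {a : Bool} {p : ℤ × ℝ}
    (hp : p ∈ LS e σ ρ a) : Aw δ (r + p.2) := by
  unfold LS at hp
  have tr : ∀ {x y : ℝ}, Aw δ x → y = x → Aw δ y := fun hx e => e ▸ hx
  cases e
  · obtain ⟨b1, b2, b3, b4, b5, b6⟩ := h
    split_ifs at hp
    · simp only [LW, List.mem_cons, List.not_mem_nil, or_false] at hp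
      rcases hp with rfl | rfl | rfl | rfl
      · exact tr b1 (by ring)
      · exact tr b2 (by ring)
      · exact tr b3 (by ring)
      · exact tr b4 (by ring)
    · simp only [LV, List.mem_cons, List.not_mem_nil, or_false] at hp
      rcases hp with rfl | rfl
      · exact tr b5 (by ring)
      · exact tr b6 (by ring)
  · obtain ⟨b1, b2, b3⟩ := h
    split_ifs at hp
    · simp only [LW, List.mem_cons, List.not_mem_nil, or_false] at hp
      rcases hp with rfl | rfl
      · exact tr b1 (by ring)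
      · exact tr b2 (by ring)
    · simp only [LV, List.mem_cons, List.not_mem_nil, or_false] at hp
      rcases hp with rfl
      exact tr b3 (by ring)
  · obtain ⟨b1, b2, b3⟩ := h
    split_ifs at hp
    · simp only [LW, List.mem_cons, List.not_mem_nil, or_false] at hp
      rcases hp with rfl | rfl
      · exact tr b1 (by ring)
      · exact tr b2 (by ring)
    · simp only [LV, List.mem_cons, List.not_mem_nil, or_false] at hp
      rcases hp with rfl
      exact tr b3 (by ring)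

/-- **two sided bound of the neutral rest** on a line -/
theorem Gk_line {δ : ℝ} (h0 : 0 < δ) (hδ : δ ≤ l / 8) {e : SignType} {σ : Bool} {x0 : ℂ} {u : ℂ}
    (hP : Pl δ u.re) (hS : Ps e δ x0.re u.re) (a : Bool) :
    Real.sin δ ^ 26 ≤ Gk e σ x0 a u ∧ Gk e σ x0 a u ≤ (Real.sin δ)⁻¹ ^ 26 := by
  have hl := lpos
  refine Gk_two h0 (by linarith) fun p hp => ?_
  unfold LR at hp
  rcases List.mem_append.1 hp with hp | hp
  · exact LS_ps hS hp
  · have h1 := mem_nf hp
    rcases LGr_cases e σ a with h2 | h2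
    · rw [h2] at h1
      simp at h1
    · exact Lpm_pl h0 hδ hP h2 (p := (-p.1, p.2)) h1

/-- the groups do not vanish -/
theorem gF_posP {δ : ℝ} (h0 : 0 < δ) (hδ : δ ≤ l / 8) (e : SignType) (σ : Bool) (h : ℝ) (a : Bool) {u : ℂ}
    (hP : Pl δ u.re) : 0 < gF e σ h a u := by
  rw [gF_pF]
  refine pF_pos (δ := δ) h0 fun p hp => ?_
  rcases LGr_cases e σ a with h2 | h2
  · rw [h2] at hp
    simp at hp
  · exact Lpm_pl h0 hδ hP h2 hp

end Pool.Agent.PLX

end
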