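import Pool.Agent.PLX.DZU
import Pool.Agent.PB.NzE
import Pool.Agent.RX.Un

/-!
# PLAX: the dislocated function for groups of sizes `(m, M)`, all rows

* `nzU z x y` : legs at `z`, rows `x : Fin m → ℂ`, `y : Fin M → ℂ`, `|Re| ≤ l / 2` (they may coincide);
* `nzU_nh` (different heights: `PBS.nh`), `nzU_tendsto`, `nzU_diff`, `nzU_perm`, `nzU_neg`, `nzU_self`.
-/

set_option autoImplicit false
set_option linter.unusedSectionVars false
set_option linter.unusedVariables false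

noncomputable section

open Complex Filter Topology

namespace Pool.Agent.PLX

open NUP1 (l lpos St sta sw pr qu nq crq)
open NUP1.Grand (P)
open NUP1.Leg (hr)
open PBX (Lg Rws SpA pull K3 Lg_SpA pull_ne pull_re pull_Rws pull_tendsto)
open PBR (rh rh_neg rh_ne_zero differentiableAt_rh)
open Pool.Agent.PB
open RX (sumU)

variable {m M : ℕ}

/-! ### sums over the numbers of quanta -/

theorem sumU_congr {Q : ℤ} {F G : ℕ → ℕ → ℂ}
    (h : ∀ n n' : ℕ, (n' : ℤ) + m = n + M + Q → F n n' = G n n') : sumU m M Q F = sumU m M Q G := by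
  unfold RX.sumU
  refine Finset.sum_congr rfl fun n _ => Finset.sum_congr rfl fun n' _ => ?_
  split_ifs with hq
  · exact h n n' hq
  · rfl

theorem sumU_tendsto {E : Type*} {F : Filter E} {Q : ℤ} {f : E → ℕ → ℕ → ℂ} {g : ℕ → ℕ → ℂ}
    (h : ∀ n n' : ℕ, (n' : ℤ) + m = n + M + Q → Tendsto (fun e => f e n n') F (𝓝 (g n n'))) :
    Tendsto (fun e => sumU m M Q (f e)) F (𝓝 (sumU m M Q g)) := by
  unfold RX.sumU
  refine tendsto_finsetSum _ fun n _ => tendsto_finsetSum _ fun n' _ => ?_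
  split_ifs with hq
  · exact h n n' hq
  · exact tendsto_const_nhds

theorem sumU_diff {Q : ℤ} {f : ℂ → ℕ → ℕ → ℂ} {z : ℂ}
    (h : ∀ n n' : ℕ, (n' : ℤ) + m = n + M + Q → DifferentiableAt ℂ (fun z => f z n n') z) :
    DifferentiableAt ℂ (fun z => sumU m M Q (f z)) z := by
  unfold RX.sumU
  refine DifferentiableAt.fun_sum fun n _ => DifferentiableAt.fun_sum fun n' _ => ?_
  split_ifs with hq
  · exact h n n' hq
  · exact differentiableAt_const _

theorem cast_hn {Q : ℤ} {n n' : ℕ} (h : (n' : ℤ) + m = n + M + Q) : (n' : ℝ) + m = n + M + (Q : ℝ) := by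
  exact_mod_cast h

theorem DSU_zero {c c' : ℂ} {s t : ℂ → ℂ} {x : Fin m → ℂ} {y : Fin M → ℂ} {n n' : ℕ}
    (h : 2 * m < n ∨ 2 * M < n') : DSU c c' s t x y n n' = 0 := by
  unfold DSU
  rcases h with h | h
  · rw [St_empty h, Finset.sum_empty]
  · refine Finset.sum_eq_zero fun a _ => ?_
    rw [St_empty h, Finset.sum_empty]

/-! ### the function -/

/-- **the dislocated function, legs at `z`, sizes `(m, M)`, all rows** -/
def nzU (z : ℂ) (x : Fin m → ℂ) (y : Fin M → ℂ) : ℂ :=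
  Pf z x y * sumU m M 0 fun n n' => DZU (cn m) (cn M) (Lg z z) (Lg z z) x y n n'

theorem LgU {z : ℂ} (hz : z ∈ LS) : SpU (((0 : ℤ)) : ℝ) (Lg z z) ∧ SpU (-(((0 : ℤ)) : ℝ)) (Lg z z) := by
  have h := SpU.of_SpA (Lg_SpA (q := z) hz.1 hz.2)
  simpa using h

/-- pairwise different heights: the sum over the states -/
theorem nzU_gen {z : ℂ} {x : Fin m → ℂ} {y : Fin M → ℂ} (hz : z ∈ LS) (hx : Rws x) (hy : Rws y)
    (ix : Hgt x) (iy : Hgt y) :
    nzU z x y = Pf z x y * sumU m M 0 fun n n' => DSU (cn m) (cn M) (Lg z z) (Lg z z) x y n n' := by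
  unfold nzU
  congr 1
  exact sumU_congr fun n n' h => DZU_eq ix iy hx hy (LgU hz).1 (LgU hz).2 (cast_hn h)

theorem hz_row {z : ℂ} {x : Fin m → ℂ} (hz : z ∈ LS) (hx : Rws x) (i : Fin m) :
    sin (z - x i + 2 * l) ≠ 0 ∧ sin (z - x i + 3 * l) ≠ 0 := by
  obtain ⟨h1, h2⟩ := den_row hz (hx i)
  refine ⟨h1, ?_⟩
  rwa [show z - (x i - (l : ℂ)) + 2 * l = z - x i + 3 * l by ring] at h2

/-- **pairwise different heights: the normalised state sum** -/
theorem nzU_nh {z : ℂ} {x : Fin m → ℂ} {y : Fin M → ℂ} (hz : z ∈ LS) (hx : Rws x) (hy : Rws y)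
    (ix : Hgt x) (iy : Hgt y) : nzU z x y = PBS.nh z x y := by
  rw [nzU_gen hz hx hy ix iy, RX.nh_eqU
    (fun i j hij => gn_im (by rw [sub_im]; exact sub_ne_zero.2 (ix i j hij)))
    (fun i j hij => gn_im (by rw [sub_im]; exact sub_ne_zero.2 (iy i j hij)))
    (fun i j => gc_re (sub_re_le (hx i) (hy j))) (hz_row hz hx) (hz_row hz hy)]
  rfl

theorem nzU_tendsto {E : Type*} {F : Filter E} [F.IsCountablyGenerated] {z : E → ℂ}
    {x : E → Fin m → ℂ} {y : E → Fin M → ℂ} {z0 : ℂ} {x0 : Fin m → ℂ} {y0 : Fin M → ℂ}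
    (tz : Tendsto z F (𝓝 z0)) (tx : ∀ i, Tendsto (fun e => x e i) F (𝓝 (x0 i)))
    (ty : ∀ i, Tendsto (fun e => y e i) F (𝓝 (y0 i))) (hx : ∀ᶠ e in F, Rws (x e))
    (hy : ∀ᶠ e in F, Rws (y e)) (hx0 : Rws x0) (hy0 : Rws y0) (hz : z0 ∈ LS) :
    Tendsto (fun e => nzU (z e) (x e) (y e)) F (𝓝 (nzU z0 x0 y0)) := by
  unfold nzU
  refine Tendsto.mul (Pf_tendsto tz tx ty (fun i j => Rws.dist hx0 hx0 i j)
    (fun i j => Rws.dist hy0 hy0 i j) (fun i j => Rws.dist hx0 hy0 i j) (Rws.narZ hx0 hz)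
    (Rws.narZ hy0 hz)) (sumU_tendsto fun n n' hn => ?_)
  obtain ⟨D, hD, hb⟩ := Lg_unif tz hz
  refine DZU_tendsto (R := (∑ j, |(x0 j).im| + 1) + (∑ j, |(y0 j).im| + 1)) (cn m) (cn M) ?_ hx0 hy0
    tx ty hD ?_ (fun u hu => Lg_tendsto tz hz hu) (fun u hu => Lg_tendsto tz hz hu) (cast_hn hn)
  · filter_upwards [hx, hy, bd_im tx, bd_im ty] with e h1 h2 h3 h4
    have s1 : 0 ≤ ∑ j, |(x0 j).im| := Finset.sum_nonneg fun _ _ => abs_nonneg _
    have s2 : 0 ≤ ∑ j, |(y0 j).im| := Finset.sum_nonneg fun _ _ => abs_nonneg _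
    exact ⟨h1, h2, fun i => (h3 i).trans (by linarith), fun i => (h4 i).trans (by linarith)⟩
  · filter_upwards [hb] with e he
    refine ⟨PBX.Lg_meas _ _, PBX.Lg_meas _ _, fun u hu => ?_⟩
    simpa using he u hu

/-! ### analyticity in the legs -/

theorem Lg_z_diff {z u : ℂ} (h : sin (z - u + 2 * l) ≠ 0) : DifferentiableAt ℂ (fun z => Lg z z u) z := by
  unfold PBX.Lg
  fun_prop (disch := exact h)

theorem sta_diffU (c : ℂ) {x : Fin m → ℂ} (y : Fin M → ℂ) (a : Fin m → SignType) {z : ℂ}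
    (hz : z ∈ LS) (hx : Rws x) :
    DifferentiableAt ℂ (fun z => sta x (fun u => hr c x y u * Lg z z u) a) z := by
  unfold NUP1.sta
  refine DifferentiableAt.mul_const (DifferentiableAt.fun_finsetProd fun i _ => ?_) _
  obtain ⟨k1, k2⟩ := den_row hz (hx i)
  have d1 : DifferentiableAt ℂ (fun z => hr c x y (x i) * Lg z z (x i)) z := (Lg_z_diff k1).const_mul _
  have d2 : DifferentiableAt ℂ (fun z => hr c x y (x i - l) * Lg z z (x i - l)) z :=
    (Lg_z_diff k2).const_mul _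
  rcases a i with _ | _ | _
  · exact d1
  · exact (d1.mul d2).const_mul _
  · exact differentiableAt_const _

/-- **analyticity in the legs** -/
theorem nzU_diff {x : Fin m → ℂ} {y : Fin M → ℂ} (hx : Rws x) (hy : Rws y) :
    DifferentiableOn ℂ (fun z => nzU z x y) LS := by
  refine diff_of_joint (F := 𝓝[>] (0 : ℝ)) (D := fun z e => nzU z (pull x e) (pull y e))
    (fun z hz => ?_) LS_open ?_
  · have t2 : ∀ {k : ℕ} (x : Fin k → ℂ) (i : Fin k), Tendsto (fun p : ℂ × ℝ => pull x p.2 i)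
        (𝓝 z ×ˢ 𝓝[>] 0) (𝓝 (x i)) := fun x i => (pull_tendsto x i).comp tendsto_snd
    exact nzU_tendsto (F := 𝓝 z ×ˢ 𝓝[>] (0 : ℝ)) (z := fun p => p.1) (x := fun p => pull x p.2)
      (y := fun p => pull y p.2) tendsto_fst (t2 x) (t2 y)
      (Eventually.of_forall fun p => pull_Rws hx p.2) (Eventually.of_forall fun p => pull_Rws hy p.2)
      hx hy hz
  · filter_upwards [pull_Hgt x, pull_Hgt y] with e h1 h2
    have rx := pull_Rws hx e
    have ry := pull_Rws hy e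
    have : DifferentiableOn ℂ (fun z => Pf z (pull x e) (pull y e) *
        sumU m M 0 fun n n' => DSU (cn m) (cn M) (Lg z z) (Lg z z) (pull x e) (pull y e) n n') LS :=
      fun z hz => ((Pf_diff (fun i j => Rws.dist rx rx i j) (fun i j => Rws.dist ry ry i j)
        (fun i j => Rws.dist rx ry i j) (Rws.narZ rx hz) (Rws.narZ ry hz)).mul
        (sumU_diff fun n n' _ => by
          unfold DSU
          exact DifferentiableAt.fun_sum fun a _ => DifferentiableAt.fun_sum fun b _ =>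
            ((sta_diffU (cn m) (pull y e) a hz rx).mul (sta_diffU (cn M) (pull x e) b hz ry)).mul_const
              _)).differentiableWithinAt
    exact this.congr fun z hz => nzU_gen hz rx ry h1 h2

/-! ### reflection -/

/-- **(A2), all rows** -/
theorem nzU_neg {z : ℂ} (hz : |z.re| < 7 / 5 * l) {x : Fin m → ℂ} {y : Fin M → ℂ} (hx : Rws x)
    (hy : Rws y) : nzU (-z) (-x) (-y) = nzU z x y := by
  obtain ⟨h1, h2⟩ := mem_LS_neg hz
  have t1 : Tendsto (fun e => nzU (-z) (-pull x e) (-pull y e)) (𝓝[>] (0 : ℝ))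
      (𝓝 (nzU (-z) (-x) (-y))) :=
    nzU_tendsto (x := fun e => -pull x e) (y := fun e => -pull y e) tendsto_const_nhds
      (fun i => (pull_tendsto x i).neg) (fun i => (pull_tendsto y i).neg)
      (Eventually.of_forall fun e => Rws.neg (pull_Rws hx e))
      (Eventually.of_forall fun e => Rws.neg (pull_Rws hy e)) (Rws.neg hx) (Rws.neg hy) h2
  have t2 : Tendsto (fun e => nzU z (pull x e) (pull y e)) (𝓝[>] (0 : ℝ)) (𝓝 (nzU z x y)) :=
    nzU_tendsto tendsto_const_nhds (pull_tendsto x) (pull_tendsto y)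
      (Eventually.of_forall fun e => pull_Rws hx e) (Eventually.of_forall fun e => pull_Rws hy e)
      hx hy h1
  refine tendsto_nhds_unique (t1.congr' ?_) t2
  filter_upwards [pull_Hgt x, pull_Hgt y] with e ex ey
  have rx := pull_Rws hx e
  have ry := pull_Rws hy e
  rw [nzU_nh h2 (Rws.neg rx) (Rws.neg ry) (Hgt.neg ex) (Hgt.neg ey), nzU_nh h1 rx ry ex ey,
    PBS.nh_neg]

/-! ### the order of the rows -/

theorem Nu_perm (z : ℂ) (x : Fin m → ℂ) (σ : Equiv.Perm (Fin m)) :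
    Nu z (fun i => x (σ i)) = Nu z x := by
  unfold PB.Nu
  have h : P (fun i j => Fp (x (σ i) - x (σ j))) = P (fun i j => Fp (x i - x j)) :=
    PBS.P_perm (F := fun i j => Fp (x i - x j)) (fun i j => by
      rw [← Fp_neg, neg_sub]) σ
  rw [h, Equiv.prod_comp σ fun i => sin l * Lp z (x i)]

theorem Pf_permU (z : ℂ) (x : Fin m → ℂ) (y : Fin M → ℂ) (σ : Equiv.Perm (Fin m))
    (τ : Equiv.Perm (Fin M)) : Pf z (fun i => x (σ i)) (fun i => y (τ i)) = Pf z x y := by
  unfold PB.Pf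
  rw [D1_perm, D1_perm, D2_perm, Nu_perm, Nu_perm]

theorem nzU_perm (z : ℂ) (x : Fin m → ℂ) (y : Fin M → ℂ) (σ : Equiv.Perm (Fin m))
    (τ : Equiv.Perm (Fin M)) : nzU z (fun i => x (σ i)) (fun i => y (τ i)) = nzU z x y := by
  have h : ∀ n n' : ℕ, DZU (cn m) (cn M) (Lg z z) (Lg z z) (fun i => x (σ i)) (fun i => y (τ i)) n n' =
      DZU (cn m) (cn M) (Lg z z) (Lg z z) x y n n' := fun n n' =>
    DZU_perm (cn m) (cn M) (Lg z z) (Lg z z) x y n n' σ τ
  unfold nzU
  rw [Pf_permU]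
  simp only [h]

/-- equal sizes: the landed function -/
theorem nzU_self (z : ℂ) (x y : Fin m → ℂ) : nzU z x y = nz z x y := by
  unfold nzU PB.nz
  congr 1
  unfold RX.sumU
  refine Finset.sum_congr rfl fun n hn => ?_
  rw [Finset.sum_eq_single_of_mem n hn fun n' _ hne => if_neg fun h => hne (by omega),
    if_pos (by ring)]
  exact DZU_self (cn m) (cn m) (Lg z z) (Lg z z) x y n

end Pool.Agent.PLX

end
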