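import Pool.Agent.PLX.DisU
import Pool.Agent.PB.NzH

/-!
# PLAX: the dislocated function on the whole strip of the legs, sizes `(m, M)`

`fU mu nu z` : legs at `z`, rows `mu` in the first, `nu` in the second group.

* `nzU_leg` : (A1); `fU_right`, `fU_left`, `fU_even`, `fU_perm`, `fU_leg`, `fU_leg'`;
* `nzU_tendsto'`, `nzU_hol`, `nzU_neg'`, `fU_tendsto'`, **`fU_hol`** : rows in the open strip
  `|Re| < 3 l / 5`, legs `|Re z| < 43 l / 10`, along analytic curves of legs and rows;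
* **`fU_zeros`** : `fU (z + 3 l) - fU (z - 3 l)` vanishes at the rows common to the two groups;
* `fU_self` (`mu = nu` : the landed `fN`), `fU_swap`.
-/

set_option autoImplicit false
set_option linter.unusedSectionVars false
set_option linter.unusedVariables false

noncomputable section

open Complex Filter Topology Metric Set

namespace Pool.Agent.PLX

open NUP1 (l lpos)
open PBX (Lg Rws pull pull_re pull_Rws pull_tendsto pull_ne)
open Pool.Agent.PB
open RX (sumU)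

variable {m M : ℕ}

/-! ### (A1) -/

theorem Hgt.tail {k : ℕ} {x0 : ℂ} {x : Fin k → ℂ} (ix : Hgt (Fin.cons x0 x : Fin (k + 1) → ℂ)) : Hgt x :=
  fun i j hij => by
    simpa using ix i.succ j.succ fun h => hij (Fin.succ_injective _ h)

/-- the exact leg identity, pairwise different heights -/
theorem nzU_leg_gen {x0 : ℂ} {x : Fin m → ℂ} {y : Fin M → ℂ} (h0 : |x0.re| ≤ l / 2) (hx : Rws x)
    (hy : Rws y) (ix : Hgt (Fin.cons x0 x : Fin (m + 1) → ℂ))
    (iy : Hgt (Fin.cons x0 y : Fin (M + 1) → ℂ)) :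
    nzU (x0 + 3 * l) (Fin.cons x0 x : Fin (m + 1) → ℂ) (Fin.cons x0 y : Fin (M + 1) → ℂ) =
      nzU x0 x y := by
  have kx : ∀ i, (x i).im ≠ x0.im := fun i => by simpa using ix i.succ 0 (Fin.succ_ne_zero i)
  have ky : ∀ i, (y i).im ≠ x0.im := fun i => by simpa using iy i.succ 0 (Fin.succ_ne_zero i)
  rw [nzU_nh (mem_LS3 h0) (Rws.cons h0 hx) (Rws.cons h0 hy) ix iy,
    nzU_nh (mem_LS h0) hx hy (Hgt.tail ix) (Hgt.tail iy)]
  have ks : ∀ {w : ℂ}, w.im ≠ 0 → sin w ≠ 0 := fun h => PBS.sin_ne_of_im h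
  refine PBS.nh_node h0 hx hy (fun i => ⟨ks ?_, ks ?_⟩) fun i => ⟨ks ?_, ks ?_⟩
  · rw [sub_im]
    exact sub_ne_zero.2 (kx i).symm
  · rw [add_im, sub_im, ofReal_im, add_zero]
    exact sub_ne_zero.2 (kx i).symm
  · rw [sub_im]
    exact sub_ne_zero.2 (ky i).symm
  · rw [add_im, sub_im, ofReal_im, add_zero]
    exact sub_ne_zero.2 (ky i).symm

/-- **The exact leg identity (A1), all rows.** -/
theorem nzU_leg {x0 : ℂ} {x : Fin m → ℂ} {y : Fin M → ℂ} (h0 : |x0.re| ≤ l / 2) (hx : Rws x)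
    (hy : Rws y) :
    nzU (x0 + 3 * l) (Fin.cons x0 x : Fin (m + 1) → ℂ) (Fin.cons x0 y : Fin (M + 1) → ℂ) =
      nzU x0 x y := by
  have rx := Rws.cons h0 hx
  have ry := Rws.cons h0 hy
  set px : ℝ → Fin m → ℂ := fun e i => pull (Fin.cons x0 x : Fin (m + 1) → ℂ) e i.succ with hpx
  set py : ℝ → Fin M → ℂ := fun e i => pull (Fin.cons x0 y : Fin (M + 1) → ℂ) e i.succ with hpy
  have rpx : ∀ e, Rws (px e) := fun e i => pull_Rws rx e i.succ
  have rpy : ∀ e, Rws (py e) := fun e i => pull_Rws ry e i.succ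
  have t1 : Tendsto (fun e => nzU (x0 + 3 * l) (pull (Fin.cons x0 x : Fin (m + 1) → ℂ) e)
      (pull (Fin.cons x0 y : Fin (M + 1) → ℂ) e)) (𝓝[>] (0 : ℝ))
      (𝓝 (nzU (x0 + 3 * l) (Fin.cons x0 x : Fin (m + 1) → ℂ) (Fin.cons x0 y : Fin (M + 1) → ℂ))) :=
    nzU_tendsto tendsto_const_nhds (pull_tendsto _) (pull_tendsto _)
      (Eventually.of_forall fun e => pull_Rws rx e) (Eventually.of_forall fun e => pull_Rws ry e)
      rx ry (mem_LS3 h0)
  have t2 : Tendsto (fun e => nzU x0 (px e) (py e)) (𝓝[>] (0 : ℝ)) (𝓝 (nzU x0 x y)) :=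
    nzU_tendsto tendsto_const_nhds
      (fun i => by simpa using pull_tendsto (Fin.cons x0 x : Fin (m + 1) → ℂ) i.succ)
      (fun i => by simpa using pull_tendsto (Fin.cons x0 y : Fin (M + 1) → ℂ) i.succ)
      (Eventually.of_forall rpx) (Eventually.of_forall rpy) hx hy (mem_LS h0)
  refine tendsto_nhds_unique (t1.congr' ?_) t2
  filter_upwards [pull_Hgt (Fin.cons x0 x : Fin (m + 1) → ℂ),
    pull_Hgt (Fin.cons x0 y : Fin (M + 1) → ℂ)] with e h1 h2
  rw [pull_cons x0 x e] at h1 ⊢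
  rw [pull_cons x0 y e] at h2 ⊢
  exact nzU_leg_gen h0 (rpx e) (rpy e) h1 h2

/-! ### the open strip of the rows -/

theorem cast0 {n n' : ℕ} (h : (n' : ℤ) + m = n + M + 0) : (n' : ℝ) + m = n + M := by
  have := cast_hn h
  simpa using this

/-- **joint continuity of `nzU`, open strip** -/
theorem nzU_tendsto' {E : Type*} {F : Filter E} [F.IsCountablyGenerated] {z : E → ℂ}
    {x : E → Fin m → ℂ} {y : E → Fin M → ℂ} {z0 : ℂ} {x0 : Fin m → ℂ} {y0 : Fin M → ℂ}
    (tz : Tendsto z F (𝓝 z0)) (tx : ∀ i, Tendsto (fun e => x e i) F (𝓝 (x0 i)))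
    (ty : ∀ i, Tendsto (fun e => y e i) F (𝓝 (y0 i))) (hx0 : Rwo x0) (hy0 : Rwo y0)
    (hz : z0 ∈ LS) : Tendsto (fun e => nzU (z e) (x e) (y e)) F (𝓝 (nzU z0 x0 y0)) := by
  unfold nzU
  exact Tendsto.mul (Pf_tendsto tz tx ty (Rwo.dist hx0 hx0) (Rwo.dist hy0 hy0)
    (Rwo.dist hx0 hy0) (Rwo.narZ hx0 hz) (Rwo.narZ hy0 hz)) (sumU_tendsto fun n n' hn =>
      DZU_Lg_tendsto (cn m) (cn M) hx0 hy0 tx ty tz tz hz hz (cast0 hn))

/-- the state sum in the legs and rows, along analytic curves -/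
theorem SZU_hol {z : ℂ → ℂ} {x : ℂ → Fin m → ℂ} {y : ℂ → Fin M → ℂ} {θ0 : ℂ} (c c' : ℂ)
    (dz : ∀ᶠ θ in 𝓝 θ0, DifferentiableAt ℂ z θ)
    (dx : ∀ᶠ θ in 𝓝 θ0, ∀ i, DifferentiableAt ℂ (fun θ => x θ i) θ)
    (dy : ∀ᶠ θ in 𝓝 θ0, ∀ i, DifferentiableAt ℂ (fun θ => y θ i) θ) (hx : Rwo (x θ0))
    (hy : Rwo (y θ0)) (hz : z θ0 ∈ LS) {n n' : ℕ} (hn : (n' : ℝ) + m = n + M) :
    DifferentiableAt ℂ (fun θ => DZU c c' (Lg (z θ) (z θ)) (Lg (z θ) (z θ)) (x θ) (y θ) n n') θ0 :=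
  DZU_Lg_hol c c' hx hy dx dy dz dz hz hz hn

/-- **holomorphy of `nzU` in legs and rows, along analytic curves** -/
theorem nzU_hol {z : ℂ → ℂ} {x : ℂ → Fin m → ℂ} {y : ℂ → Fin M → ℂ} {θ0 : ℂ}
    (dz : ∀ᶠ θ in 𝓝 θ0, DifferentiableAt ℂ z θ)
    (dx : ∀ᶠ θ in 𝓝 θ0, ∀ i, DifferentiableAt ℂ (fun θ => x θ i) θ)
    (dy : ∀ᶠ θ in 𝓝 θ0, ∀ i, DifferentiableAt ℂ (fun θ => y θ i) θ) (hx : Rwo (x θ0))
    (hy : Rwo (y θ0)) (hz : z θ0 ∈ LS) :
    DifferentiableAt ℂ (fun θ => nzU (z θ) (x θ) (y θ)) θ0 := by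
  unfold nzU
  exact (Pf_hol dz.self_of_nhds dx.self_of_nhds dy.self_of_nhds (Rwo.dist hx hx) (Rwo.dist hy hy)
    (Rwo.dist hx hy) (Rwo.narZ hx hz) (Rwo.narZ hy hz)).mul
      (sumU_diff fun n n' hn => SZU_hol (cn m) (cn M) dz dx dy hx hy hz (cast0 hn))

/-- **(A2), rows in the open strip** -/
theorem nzU_neg' {z : ℂ} (hz : |z.re| < 7 / 5 * l) {x : Fin m → ℂ} {y : Fin M → ℂ} (hx : Rwo x)
    (hy : Rwo y) : nzU (-z) (-x) (-y) = nzU z x y := by
  have hl := lpos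
  obtain ⟨z1, z2⟩ := mem_LS_neg hz
  set S : Set ℂ := rS x ∩ rS y with hS
  have hSo : IsOpen S := (rS_open x).inter (rS_open y)
  have hSc : Convex ℝ S := (rS_convex x).inter (rS_convex y)
  have hd1 : DifferentiableOn ℂ (fun θ => nzU (-z) (-rsc x θ) (-rsc y θ)) S := fun θ hθ =>
    (nzU_hol (z := fun _ => -z) (x := fun θ => -rsc x θ) (y := fun θ => -rsc y θ)
      (Eventually.of_forall fun _ => differentiableAt_const _)
      (Eventually.of_forall fun θ i => (rsc_diff x i θ).neg)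
      (Eventually.of_forall fun θ i => (rsc_diff y i θ).neg) (rS_rwo hθ.1).neg
      (rS_rwo hθ.2).neg z2).differentiableWithinAt
  have hd2 : DifferentiableOn ℂ (fun θ => nzU z (rsc x θ) (rsc y θ)) S := fun θ hθ =>
    (nzU_hol (z := fun _ => z) (x := fun θ => rsc x θ) (y := fun θ => rsc y θ)
      (Eventually.of_forall fun _ => differentiableAt_const _)
      (Eventually.of_forall fun θ i => rsc_diff x i θ)
      (Eventually.of_forall fun θ i => rsc_diff y i θ) (rS_rwo hθ.1)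
      (rS_rwo hθ.2) z1).differentiableWithinAt
  have hsm : ∀ {k : ℕ} {x : Fin k → ℂ}, Rwo x → ∀ θ : ℂ, |θ.re| < 1 / 2 → Rws (rsc x θ) := by
    intro k x hx θ hθ i
    rw [rsc_re, abs_mul]
    have h1 := (hx i).le
    calc |(x i).re| * |θ.re| ≤ 3 / 5 * l * (1 / 2) :=
          mul_le_mul h1 hθ.le (abs_nonneg _) (by positivity)
      _ ≤ l / 2 := by linarith
  have h0 : (0 : ℂ) ∈ S := by
    constructor <;> intro i <;> simpa using by positivity
  have hev : (fun θ => nzU (-z) (-rsc x θ) (-rsc y θ)) =ᶠ[𝓝 (0 : ℂ)]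
      fun θ => nzU z (rsc x θ) (rsc y θ) := by
    have hn : {θ : ℂ | |θ.re| < 1 / 2} ∈ 𝓝 (0 : ℂ) :=
      (isOpen_lt (by fun_prop) continuous_const).mem_nhds (by simp)
    filter_upwards [hn] with θ hθ
    exact nzU_neg hz (hsm hx θ hθ) (hsm hy θ hθ)
  have key := (hd1.analyticOnNhd hSo).eqOn_of_preconnected_of_eventuallyEq
    (hd2.analyticOnNhd hSo) hSc.isPreconnected h0 hev
  have h1 := key (x := 1) ⟨mem_rS_one hx, mem_rS_one hy⟩
  simpa only [rsc_one] using h1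

/-! ### the function on the whole strip -/

/-- **the dislocated function of groups of sizes `(m, M)`**, legs at `z` -/
def fU (mu : Fin m → ℂ) (nu : Fin M → ℂ) (z : ℂ) : ℂ :=
  if 0 ≤ z.re then nzU z mu nu else nzU (-z) (-mu) (-nu)

/-- equal groups: the landed function -/
theorem fU_self (mu : Fin m → ℂ) (z : ℂ) : fU mu mu z = fN mu z := by
  unfold fU PB.fN
  rw [nzU_self, nzU_self]

theorem fU_right {mu : Fin m → ℂ} {nu : Fin M → ℂ} (hmu : Rwo mu) (hnu : Rwo nu) {z : ℂ}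
    (hz : z ∈ LS) : fU mu nu z = nzU z mu nu := by
  unfold fU
  split_ifs with h
  · rfl
  · have hl := lpos
    obtain ⟨h1, h2⟩ := hz
    rw [not_le] at h
    exact nzU_neg' (by rw [abs_lt]; constructor <;> linarith) hmu hnu

theorem fU_left {mu : Fin m → ℂ} {nu : Fin M → ℂ} (hmu : Rwo mu) (hnu : Rwo nu) {z : ℂ}
    (hz : -z ∈ LS) : fU mu nu z = nzU (-z) (-mu) (-nu) := by
  unfold fU
  split_ifs with h
  · have hl := lpos
    obtain ⟨h1, h2⟩ := hz
    have h3 : -(7 / 5 * l) < (-z).re := h1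
    rw [neg_re] at h3
    exact (nzU_neg' (by rw [abs_lt]; constructor <;> linarith) hmu hnu).symm
  · rfl

/-- **(A2)** -/
theorem fU_even {mu : Fin m → ℂ} {nu : Fin M → ℂ} (hmu : Rwo mu) (hnu : Rwo nu) {z : ℂ}
    (hz : |z.re| < 43 / 10 * l) : fU (-mu) (-nu) (-z) = fU mu nu z := by
  rcases LS_or hz with h | h
  · rw [fU_right hmu hnu h, fU_left (Rwo.neg hmu) (Rwo.neg hnu) (z := -z) (by rwa [neg_neg]), neg_neg,
      neg_neg, neg_neg]
  · rw [fU_left hmu hnu h, fU_right (Rwo.neg hmu) (Rwo.neg hnu) h]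

theorem fU_perm (mu : Fin m → ℂ) (nu : Fin M → ℂ) (σ : Equiv.Perm (Fin m)) (τ : Equiv.Perm (Fin M))
    (z : ℂ) : fU (fun i => mu (σ i)) (fun i => nu (τ i)) z = fU mu nu z := by
  unfold fU
  rw [nzU_perm z mu nu σ τ]
  split_ifs
  · rfl
  · exact nzU_perm (-z) (-mu) (-nu) σ τ

/-- **joint continuity, open strip** -/
theorem fU_tendsto' {E : Type*} {F : Filter E} [F.IsCountablyGenerated] {z : E → ℂ}
    {x : E → Fin m → ℂ} {y : E → Fin M → ℂ} {z0 : ℂ} {x0 : Fin m → ℂ} {y0 : Fin M → ℂ}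
    (tz : Tendsto z F (𝓝 z0)) (tx : ∀ i, Tendsto (fun e => x e i) F (𝓝 (x0 i)))
    (ty : ∀ i, Tendsto (fun e => y e i) F (𝓝 (y0 i))) (hx0 : Rwo x0) (hy0 : Rwo y0)
    (hz : |z0.re| < 43 / 10 * l) : Tendsto (fun e => fU (x e) (y e) (z e)) F (𝓝 (fU x0 y0 z0)) := by
  have hx := Rwo_ev tx hx0
  have hy := Rwo_ev ty hy0
  rcases LS_or hz with hL | hL
  · rw [fU_right hx0 hy0 hL]
    refine (nzU_tendsto' tz tx ty hx0 hy0 hL).congr' ?_
    filter_upwards [hx, hy, tz.eventually (LS_open.mem_nhds hL)] with e he he' hze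
    exact (fU_right he he' hze).symm
  · rw [fU_left hx0 hy0 hL]
    refine (nzU_tendsto' (z := fun e => -z e) (x := fun e => -x e) (y := fun e => -y e) tz.neg
      (fun i => (tx i).neg) (fun i => (ty i).neg) (Rwo.neg hx0) (Rwo.neg hy0) hL).congr' ?_
    filter_upwards [hx, hy, tz.neg.eventually (LS_open.mem_nhds hL)] with e he he' hze
    exact (fU_left he he' hze).symm

/-- **holomorphy of `fU` in legs and rows, along analytic curves** -/
theorem fU_hol {z : ℂ → ℂ} {x : ℂ → Fin m → ℂ} {y : ℂ → Fin M → ℂ} {θ0 : ℂ}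
    (dz : ∀ᶠ θ in 𝓝 θ0, DifferentiableAt ℂ z θ)
    (dx : ∀ᶠ θ in 𝓝 θ0, ∀ i, DifferentiableAt ℂ (fun θ => x θ i) θ)
    (dy : ∀ᶠ θ in 𝓝 θ0, ∀ i, DifferentiableAt ℂ (fun θ => y θ i) θ) (hx : Rwo (x θ0))
    (hy : Rwo (y θ0)) (hz : |(z θ0).re| < 43 / 10 * l) :
    DifferentiableAt ℂ (fun θ => fU (x θ) (y θ) (z θ)) θ0 := by
  have tz : Tendsto z (𝓝 θ0) (𝓝 (z θ0)) := dz.self_of_nhds.continuousAt
  have tx : ∀ i, Tendsto (fun θ => x θ i) (𝓝 θ0) (𝓝 (x θ0 i)) := fun i =>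
    (dx.self_of_nhds i).continuousAt
  have ty : ∀ i, Tendsto (fun θ => y θ i) (𝓝 θ0) (𝓝 (y θ0 i)) := fun i =>
    (dy.self_of_nhds i).continuousAt
  have hxe := Rwo_ev tx hx
  have hye := Rwo_ev ty hy
  rcases LS_or hz with hL | hL
  · refine (nzU_hol dz dx dy hx hy hL).congr_of_eventuallyEq ?_
    filter_upwards [hxe, hye, tz.eventually (LS_open.mem_nhds hL)] with e he he' hze
    exact fU_right he he' hze
  · refine (nzU_hol (z := fun e => -z e) (x := fun e => -x e) (y := fun e => -y e)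
      (dz.mono fun θ h => h.neg) (dx.mono fun θ h i => (h i).neg) (dy.mono fun θ h i => (h i).neg)
      (Rwo.neg hx) (Rwo.neg hy) hL).congr_of_eventuallyEq ?_
    filter_upwards [hxe, hye, tz.neg.eventually (LS_open.mem_nhds hL)] with e he he' hze
    exact fU_left he he' hze

/-- analytic in the legs -/
theorem fU_diff {mu : Fin m → ℂ} {nu : Fin M → ℂ} (hmu : Rwo mu) (hnu : Rwo nu) :
    DifferentiableOn ℂ (fU mu nu) {z | |z.re| < 43 / 10 * l} := fun z hz =>
  (fU_hol (z := fun z => z) (x := fun _ => mu) (y := fun _ => nu) (θ0 := z)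
    (Eventually.of_forall fun _ => differentiableAt_id)
    (Eventually.of_forall fun _ _ => differentiableAt_const _)
    (Eventually.of_forall fun _ _ => differentiableAt_const _) hmu hnu hz).differentiableWithinAt

/-! ### the exact leg identity -/

/-- **(A1), legs to the right** -/
theorem fU_leg {x0 : ℂ} {mu : Fin m → ℂ} {nu : Fin M → ℂ} (h0 : |x0.re| ≤ l / 2) (hmu : Rws mu)
    (hnu : Rws nu) : fU (Fin.cons x0 mu : Fin (m + 1) → ℂ) (Fin.cons x0 nu : Fin (M + 1) → ℂ)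
      (x0 + 3 * l) = fU mu nu x0 := by
  rw [fU_right (Rws.rwo (Rws.cons h0 hmu)) (Rws.rwo (Rws.cons h0 hnu)) (mem_LS3 h0),
    fU_right (Rws.rwo hmu) (Rws.rwo hnu) (mem_LS h0), nzU_leg h0 hmu hnu]

/-- **(A1), legs to the left** -/
theorem fU_leg' {x0 : ℂ} {mu : Fin m → ℂ} {nu : Fin M → ℂ} (h0 : |x0.re| ≤ l / 2) (hmu : Rws mu)
    (hnu : Rws nu) : fU (Fin.cons x0 mu : Fin (m + 1) → ℂ) (Fin.cons x0 nu : Fin (M + 1) → ℂ)
      (x0 - 3 * l) = fU mu nu x0 := by
  have hl := lpos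
  have h0' : |(-x0).re| ≤ l / 2 := by rwa [neg_re, abs_neg]
  have e : -(x0 - 3 * (l : ℂ)) = -x0 + 3 * l := by ring
  have hz : |(x0 - 3 * (l : ℂ)).re| < 43 / 10 * l := by
    have e1 : (x0 - 3 * (l : ℂ)).re = x0.re - 3 * l := by simp
    rw [e1]
    obtain ⟨h1, h2⟩ := abs_le.1 h0
    rw [abs_lt]
    constructor <;> linarith
  have hx : |x0.re| < 43 / 10 * l := by linarith
  rw [← fU_even (Rws.rwo (Rws.cons h0 hmu)) (Rws.rwo (Rws.cons h0 hnu)) hz, neg_cons, neg_cons, e,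
    fU_leg h0' (Rws.neg hmu) (Rws.neg hnu), fU_even (Rws.rwo hmu) (Rws.rwo hnu) hx]

/-- the difference vanishes at a common row -/
theorem fU_node {x : Fin (m + 1) → ℂ} {y : Fin (M + 1) → ℂ} (hx : Rws x) (hy : Rws y)
    (i : Fin (m + 1)) (j : Fin (M + 1)) (h : x i = y j) :
    fU x y (x i + 3 * l) - fU x y (x i - 3 * l) = 0 := by
  have hx' : Rws fun k : Fin m => x (Equiv.swap 0 i k.succ) := fun k => hx _
  have hy' : Rws fun k : Fin M => y (Equiv.swap 0 j k.succ) := fun k => hy _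
  rw [← fU_perm x y (Equiv.swap 0 i) (Equiv.swap 0 j) (x i + 3 * l),
    ← fU_perm x y (Equiv.swap 0 i) (Equiv.swap 0 j) (x i - 3 * l), cons_swap, cons_swap y j, ← h,
    fU_leg (hx i) hx' hy', fU_leg' (hx i) hx' hy', sub_self]

theorem fU_node' {x : Fin m → ℂ} {y : Fin M → ℂ} (hx : Rws x) (hy : Rws y) (i : Fin m) (j : Fin M)
    (h : x i = y j) : fU x y (x i + 3 * l) - fU x y (x i - 3 * l) = 0 := by
  rcases m with _ | m
  · exact i.elim0
  rcases M with _ | M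
  · exact j.elim0
  · exact fU_node hx hy i j h

/-- **the zeros of the difference**: the rows common to the two groups -/
theorem fU_zeros {mu : Fin m → ℂ} {nu : Fin M → ℂ} (hmu : Rws mu) (hnu : Rws nu) {ι : Fin m → Fin M}
    (hι : Function.Injective ι) (hc : ∀ j, nu (ι j) = mu j) :
    ∃ Q : ℂ → ℂ, DifferentiableOn ℂ Q {z | |z.re| < 13 / 10 * l} ∧
      ∀ z, fU mu nu (z + 3 * l) - fU mu nu (z - 3 * l) = (∏ j, (z - mu j)) * Q z := by
  classical
  have hl := lpos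
  set Ω : Set ℂ := {z | |z.re| < 13 / 10 * l} with hΩ
  have hop : IsOpen Ω := isOpen_lt (continuous_abs.comp Complex.continuous_re) continuous_const
  set R : ℝ := ∑ j, |(mu j).im| + 1 with hR
  set U : Set ℂ := {z | |z.re| < l ∧ |z.im| < R} with hU
  have hUo : IsOpen U := (isOpen_lt (continuous_abs.comp Complex.continuous_re)
    continuous_const).inter (isOpen_lt (continuous_abs.comp Complex.continuous_im) continuous_const)
  have hUb : Bornology.IsBounded U := by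
    refine (Metric.isBounded_iff_subset_closedBall (0 : ℂ)).2 ⟨l + R, fun z hz => ?_⟩
    rw [Metric.mem_closedBall, dist_zero_right]
    have := Complex.norm_le_abs_re_add_abs_im z
    linarith [hz.1, hz.2]
  have hUc : closure U ⊆ Ω := by
    have h1 : closure U ⊆ {z : ℂ | |z.re| ≤ l} := by
      refine closure_minimal (fun z hz => hz.1.le) ?_
      exact isClosed_le (continuous_abs.comp Complex.continuous_re) continuous_const
    intro z hz
    have h2 : |z.re| ≤ l := h1 hz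
    show |z.re| < 13 / 10 * l
    linarith
  have e1 : ∀ z : ℂ, (z + 3 * (l : ℂ)).re = z.re + 3 * l := fun z => by simp
  have e2 : ∀ z : ℂ, (z - 3 * (l : ℂ)).re = z.re - 3 * l := fun z => by simp
  have k1 : ∀ z ∈ Ω, |(z + 3 * (l : ℂ)).re| < 43 / 10 * l := by
    intro z hz
    obtain ⟨h1, h2⟩ := abs_lt.1 (show |z.re| < 13 / 10 * l from hz)
    rw [e1, abs_lt]
    constructor <;> linarith
  have k2 : ∀ z ∈ Ω, |(z - 3 * (l : ℂ)).re| < 43 / 10 * l := by
    intro z hz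
    obtain ⟨h1, h2⟩ := abs_lt.1 (show |z.re| < 13 / 10 * l from hz)
    rw [e2, abs_lt]
    constructor <;> linarith
  have hdom : IsOpen {z : ℂ | |z.re| < 43 / 10 * l} :=
    isOpen_lt (continuous_abs.comp Complex.continuous_re) continuous_const
  -- the rows of the second group, the common ones moved
  obtain ⟨N, hN⟩ : ∃ N : (Fin m → ℂ) → Fin M → ℂ, N = fun y => Function.extend ι y nu := ⟨_, rfl⟩
  have N1 : ∀ y j, N y (ι j) = y j := fun y j => by rw [hN]; exact hι.extend_apply y nu j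
  have N2 : N mu = nu := by
    funext k
    by_cases hk : ∃ j, ι j = k
    · obtain ⟨j, rfl⟩ := hk
      rw [N1, hc]
    · rw [hN]
      exact Function.extend_apply' _ _ _ hk
  have N3 : ∀ y, Rws y → Rws (N y) := by
    intro y hy k
    by_cases hk : ∃ j, ι j = k
    · obtain ⟨j, rfl⟩ := hk
      rw [N1]
      exact hy j
    · rw [hN]
      have e : (Function.extend ι y nu) k = nu k := Function.extend_apply' _ _ _ hk
      show |((Function.extend ι y nu) k).re| ≤ l / 2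
      rw [e]
      exact hnu k
  have N4 : ∀ {E : Type} {F : Filter E} {y : E → Fin m → ℂ}, (∀ i, Tendsto (fun e => y e i) F (𝓝 (mu i))) →
      ∀ k, Tendsto (fun e => N (y e) k) F (𝓝 (nu k)) := by
    intro E F y ty k
    by_cases hk : ∃ j, ι j = k
    · obtain ⟨j, rfl⟩ := hk
      simp only [N1, hc]
      exact ty j
    · have e : ∀ v, N v k = nu k := fun v => by
        rw [hN]
        exact Function.extend_apply' _ _ _ hk
      simp only [e]
      exact tendsto_const_nhds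
  obtain ⟨-, Q, hQ, hfQ⟩ := zero_rowsW (ι := Fin m) hop hUo hUb hUc (c := mu) (S := GS m)
    (D := fun z y => fU y (N y) (z + 3 * l) - fU y (N y) (z - 3 * l))
    (fun j => by
      have h1 := hmu j
      have h2 := PBX.im_le mu j
      exact ⟨by linarith, by linarith⟩)
    (mem_closure_GS hmu)
    (fun y hy i j hij => by
      by_contra hne
      exact hy.2 i j hne (by rw [hij]))
    (fun y hy z hz => by
      have hd := fU_diff (Rws.rwo hy.1) (Rws.rwo (N3 y hy.1))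
      have d1 : DifferentiableAt ℂ (fun z : ℂ => fU y (N y) (z + 3 * l)) z :=
        DifferentiableAt.comp z (hd.differentiableAt (hdom.mem_nhds (k1 z hz)))
          (differentiableAt_id.add_const _)
      have d2 : DifferentiableAt ℂ (fun z : ℂ => fU y (N y) (z - 3 * l)) z :=
        DifferentiableAt.comp z (hd.differentiableAt (hdom.mem_nhds (k2 z hz)))
          (differentiableAt_id.sub_const _)
      exact (d1.sub d2).differentiableWithinAt)
    (fun z hz => by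
      have tr : ∀ i, Tendsto (fun p : ℂ × (Fin m → ℂ) => p.2 i) (𝓝 z ×ˢ 𝓝[GS m] mu)
          (𝓝 (mu i)) := fun i =>
        (((continuous_apply i).tendsto mu).mono_left nhdsWithin_le_nhds).comp tendsto_snd
      have key : ∀ (w : ℂ × (Fin m → ℂ) → ℂ) (w0 : ℂ), Tendsto w (𝓝 z ×ˢ 𝓝[GS m] mu) (𝓝 w0) →
          |w0.re| < 43 / 10 * l → Tendsto (fun p : ℂ × (Fin m → ℂ) => fU p.2 (N p.2) (w p))
            (𝓝 z ×ˢ 𝓝[GS m] mu) (𝓝 (fU mu (N mu) w0)) := by
        intro w w0 tw hw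
        rw [N2]
        exact fU_tendsto' (F := 𝓝 z ×ˢ 𝓝[GS m] mu) (z := w) (x := fun p => p.2)
          (y := fun p => N p.2) tw tr (N4 tr) (Rws.rwo hmu) (Rws.rwo hnu) hw
      exact (key (fun p => p.1 + 3 * l) (z + 3 * l) (tendsto_fst.add_const _) (k1 z hz)).sub
        (key (fun p => p.1 - 3 * l) (z - 3 * l) (tendsto_fst.sub_const _) (k2 z hz)))
    (by
      filter_upwards [self_mem_nhdsWithin] with y hy j
      exact fU_node' hy.1 (N3 y hy.1) j (ι j) (N1 y j).symm)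
  simp only [N2] at hfQ
  exact ⟨Q, hQ, hfQ⟩

end Pool.Agent.PLX

end
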