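import Pool.Agent.NURow.Fin2
import Pool.Agent.NURow.PinK

/-!
# PLAX, exact layer: the moves of the half quanta, total charge `Q` (the layer of NURow.PinV, PinY, Fin2)

The families have charge `Q` (`FmD lo hi κ Q`), numbers `n - n' = Q`.  The landed structures `MvH`, `FxH` are used with the
decay `κ + 2 Q cw` instead of `κ`; nothing else changes.
* `moveXQ`, `moveYQ` : the two moves; `cS_cFQ` : the start classes as the final classes.
-/

set_option autoImplicit false
set_option linter.unusedSectionVars false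

noncomputable section

open Complex MeasureTheory
open scoped Classical

namespace Pool.Agent.PLX

open NUP1 NUP1S NUP1.Bd NUP1.Leg NURow

variable {lo hi : Option O3 → ℝ} {κ Q cw cw' a₀ a y b α : ℝ} {S S' : Sp} {K K' r gw : ℂ → ℂ}
  {X Y : Option O3 → ℂ → ℂ}

/-- the data of a move at a fixed second half quantum -/
theorem pinDQ (hκ : 0 < κ) (hok : OkS lo hi) (hlo : lo none ≤ α) (hhi : α ≤ hi none)
    (hF : FmD lo hi κ Q (XB X Y)) (m : MvH lo hi (κ + 2 * Q * cw) cw a₀ a y S K r)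
    (v : FxH lo hi (κ + 2 * Q * cw') cw' b S' K') (hgm : Measurable gw)
    (hg : PB (2 * (cw * cw')) (Set.Icc (a₀ - b) (a - b)) gw) (t' : ℝ) :
    PinD α lo hi κ (Q - cw') cw a₀ a y (X1 (XB X Y) S' (vl b t')) S
      (fun w => K w * (K' (vl b t') * gw (w - vl b t'))) r where
  κ0 := hκ
  lt := m.lt
  pi := m.pi
  loA := hlo
  hiA := hhi
  ok := hok
  fam := hF.x1 v.ms _ fun c k => by
    rw [re_vl]
    exact v.pb c k
  mK := m.mK.mul (measurable_const.mul (hgm.comp (measurable_id.sub_const _)))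
  ms := m.ms
  dK := by
    have h1 := NURow.DecOn.one' m.dK hg.1 (vl b t') fun x hx => by
      rw [re_vl]
      exact ⟨by linarith [hx.1], by linarith [hx.2]⟩
    obtain ⟨D, hD⟩ := h1
    refine ⟨D * ‖K' (vl b t')‖, fun z hz => ?_⟩
    have h2 := hD z hz
    rw [norm_mul] at h2
    rw [norm_mul, norm_mul]
    calc ‖K z‖ * (‖K' (vl b t')‖ * ‖gw (z - vl b t')‖)
        = (‖K z‖ * ‖gw (z - vl b t')‖) * ‖K' (vl b t')‖ := by ring
      _ ≤ _ := mul_le_mul_of_nonneg_right h2 (norm_nonneg _)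
      _ = _ := by
        rw [show κ + 2 * (Q - cw') * cw = κ + 2 * Q * cw - 2 * (cw * cw') by ring]
        ring
  cK := by
    refine m.cK.mul (continuousOn_const.mul fun u hu => ?_)
    have h1 := hg.2 (u - vl b t') (by
      rw [sub_re, re_vl]
      exact ⟨by linarith [hu.1], by linarith [hu.2]⟩)
    exact (DifferentiableAt.comp u h1
      (differentiableAt_id.sub_const _)).continuousAt.continuousWithinAt
  aK := by
    refine m.aK.mul ((differentiableOn_const _).mul fun u hu => ?_)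
    have h1 := hg.2 (u - vl b t') (by
      rw [sub_re, re_vl]
      exact ⟨by linarith [hu.1], by linarith [hu.2]⟩)
    exact (DifferentiableAt.comp u h1 (differentiableAt_id.sub_const _)).differentiableWithinAt
  reg := m.reg
  pol := m.pol
  num := m.num
  mem1 := m.mem1
  mem2 := m.mem2
  pin := m.pin
  comp := m.comp

theorem toXQ (hF : FmD lo hi κ Q (XB X Y)) :
    FamL true (fun k => Set.Icc (lo k) (hi k)) κ Q X ∧
      FamL false (fun k => Set.Icc (lo k) (hi k)) κ Q Y :=
  ⟨⟨fun k => hF.meas true k, fun k => hF.dec true k⟩,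
    ⟨fun k => hF.meas false k, fun k => hF.dec false k⟩⟩

theorem toHQ (v : FxH lo hi (κ + 2 * Q * cw) cw b S K) :
    HLn (fun k => Set.Icc (lo k) (hi k)) κ Q cw b S K where
  ms := v.ms
  bd c k x hx := by
    refine Bdd.mono' (v.pb c k).1 ?_
    intro d hd
    rw [Set.mem_singleton_iff] at hd
    rw [hd]
    exact ⟨by linarith [hx.2], by linarith [hx.1]⟩
  km := v.mK
  kd := v.dK

theorem fxH_cast {κ' : ℝ} (v : FxH lo hi κ cw b S K) (h : κ = κ') : FxH lo hi κ' cw b S K := by
  subst h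
  exact v

theorem mvH_cast {κ' : ℝ} (v : MvH lo hi κ cw a₀ a y S K r) (h : κ = κ') : MvH lo hi κ' cw a₀ a y S K r := by
  subst h
  exact v

/-- **the half quantum bound to its host** -/
theorem hostQ (hκ : 0 < κ) (hF : FmD lo hi κ Q (XB X Y)) (m : MvH lo hi (κ + 2 * Q * cw) cw a₀ a y S K r)
    (C : ℂ) : FxH lo hi (κ + 2 * Q * (cw + sc4 false (some .S))) (cw + sc4 false (some .S)) (y + 2 * l)
      (hostS false S) (fun w => C * Y (some .S) (w - 2 * l) * K w) where
  ms c k := by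
    unfold hostS
    exact ((measurable_gz _ _).comp (measurable_id.sub_const _)).mul (m.ms c k)
  pb c k := by
    have h1 := (m.comp c k).mono (K := Set.Icc (y - hi k) (y - lo k))
      (Set.Icc_subset_Icc (by linarith [m.pin.1]) (by linarith [m.pin.2]))
    have h2 : PB (2 * ((cw + sc4 false (some .S)) * sc4 c k))
        (Set.Icc (y + 2 * l - hi k) (y + 2 * l - lo k))
        fun z => sH false S c k (z + ((-(2 * l) : ℝ) : ℂ)) := by
      refine PB.shiftW (-(2 * l)) (h1.mono ?_)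
      rintro _ ⟨x, hx, rfl⟩
      exact ⟨by simp only []; linarith [hx.1], by simp only []; linarith [hx.2]⟩
    have e : (fun z => sH false S c k (z + ((-(2 * l) : ℝ) : ℂ))) = hostS false S c k := by
      funext z
      unfold sH hostS
      push_cast
      rw [show z + -(2 * (l : ℂ)) + 2 * l = z by ring, ← sub_eq_add_neg]
    rwa [e] at h2
  mK := by
    have h1 := hF.meas false (some .S)
    exact (measurable_const.mul (h1.comp (measurable_id.sub_const _))).mul m.mK
  dK := by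
    have h0 : y + 2 * l ∈ Set.Icc a₀ a :=
      ⟨by linarith [m.mem1, m.pin.1], by linarith [m.mem2, m.pin.2]⟩
    have h1 := (m.dK.mono (Set.singleton_subset_iff.2 h0))
    have h2 := hF.dec false (some .S)
    have h3 : DecOn (κ + 2 * Q * sc4 false (some .S)) {y + 2 * l}
        fun z => XB X Y false (some .S) (z - ((2 * l : ℝ) : ℂ)) :=
      (NURow.DecOn.shiftL (2 * l) h2).mono (Set.singleton_subset_iff.2 ⟨y, m.pin, rfl⟩)
    have h4 := NURow.DecOn.mulD (NURow.DecOn.constMul C h3) h1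
    refine NURow.DecOn.monoR (κ := κ + 2 * Q * sc4 false (some .S) + (κ + 2 * Q * cw)) ?_ (by linarith)
    obtain ⟨D, hD⟩ := h4
    refine ⟨D, fun z hz => ?_⟩
    have := hD z hz
    push_cast at this
    exact this

/-- **The line of `w` is moved: the class with `w` on its final line and the class in which `w` is
bound to a string of species Y.** -/
theorem moveXQ (hκ : 0 < κ) (hok : OkS lo hi) (hlo : lo none ≤ α) (hhi : α ≤ hi none)
    (hF : FmD lo hi κ Q (XB X Y)) {c : CD} (ha : c.a = 31 / 50 * l)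
    (m : MvH lo hi (κ + 2 * Q * cw) cw (31 / 50 * l) (5 / 4 * l) (-(11 / 8) * l) c.S c.K rD)
    (v : FxH lo hi (κ + 2 * Q * cw') cw' c.b c.S' c.K') (hgm : Measurable c.gw)
    (hg : PB (2 * (cw * cw')) (Set.Icc (31 / 50 * l - c.b) (5 / 4 * l - c.b)) c.gw) {n n' : ℕ}
    (hQ : c.dX ≤ n → c.dY ≤ n' →
      cw + cw' + (((n - c.dX : ℕ) : ℝ) - ((n' - c.dY : ℕ) : ℝ)) = Q)
    {lnX : ∀ p p' : ℕ, (Fin p → O3) → (Fin p' → O3) → Fin p → ℝ}
    {lnY : ∀ p p' : ℕ, (Fin p → O3) → (Fin p' → O3) → Fin p' → ℝ} (hl : LnA lo hi lnX lnY) :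
    c.val X Y α n n' lnX lnY =
      c.mX.val X Y α n n' lnX lnY + (c.hX Y).val X Y α n n' lnX lnY := by
  rw [CD.val_JJ, CD.val_JJ, CD.val_JJ]
  by_cases h : c.dX ≤ n ∧ c.dY ≤ n'
  swap
  · have h1 : ¬ (c.mX.dX ≤ n ∧ c.mX.dY ≤ n') := h
    have h2 : ¬ ((c.hX Y).dX ≤ n ∧ (c.hX Y).dY ≤ n') := fun h3 =>
      h ⟨h3.1, (Nat.le_add_right _ 2).trans h3.2⟩
    rw [if_neg h, if_neg h1, if_neg h2, add_zero]
  have h1 : c.mX.dX ≤ n ∧ c.mX.dY ≤ n' := h
  rw [if_pos h, if_pos h1]
  have hQ' := hQ h.1 h.2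
  -- integrability
  have hL : LOk fun k => Set.Icc (lo k) (hi k) := hok
  obtain ⟨fX, fY⟩ := toXQ hF
  have hα : α ∈ Set.Icc (lo none) (hi none) := ⟨hlo, hhi⟩
  have hl31 : (31 / 50 * l : ℝ) ∈ Set.Icc (31 / 50 * l) (5 / 4 * l) := ⟨le_rfl, m.lt.le⟩
  have hl54 : (5 / 4 * l : ℝ) ∈ Set.Icc (31 / 50 * l) (5 / 4 * l) := ⟨m.lt.le, le_rfl⟩
  have hgb : ∀ u : ℝ, u ∈ Set.Icc (31 / 50 * l) (5 / 4 * l) →
      Bdd {u - c.b} (2 * (cw * cw')) c.gw := fun u hu => Bdd.mono' hg.1 (by
    intro d hd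
    rw [Set.mem_singleton_iff] at hd
    rw [hd]
    exact ⟨by linarith [hu.1], by linarith [hu.2]⟩)
  have i0 : Integrable (JJ X Y c.S c.S' c.gw c.K c.K' α (n - c.dX) (n' - c.dY) lnX lnY
      (31 / 50 * l) c.b) (volume.prod volume) :=
    integrable_JJ hL hκ hQ' fX fY (toHQ (m.fx (Or.inl rfl))) (toHQ v) hgm (hgb _ hl31) hα
      (fun p p' k k' i => hl.hX p p' k k' i) (fun p p' k k' i => hl.hY p p' k k' i)
  have i1 : Integrable (JJ X Y c.S c.S' c.gw c.K c.K' α (n - c.dX) (n' - c.dY) lnX lnY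
      (5 / 4 * l) c.b) (volume.prod volume) :=
    integrable_JJ hL hκ hQ' fX fY (toHQ (m.fx (Or.inr rfl))) (toHQ v) hgm (hgb _ hl54) hα
      (fun p p' k k' i => hl.hX p p' k k' i) (fun p p' k k' i => hl.hY p p' k k' i)
  -- the move at fixed `w'`
  have mv := fun t' : ℝ => (pinDQ hκ hok hlo hhi hF m v hgm hg t').move
    (n := n - c.dX) (n' := n' - c.dY) (by linarith) hl
  have eJ : ∀ (u t' : ℝ), (∫ t : ℝ, JJ X Y c.S c.S' c.gw c.K c.K' α (n - c.dX) (n' - c.dY) lnX lnY
      u c.b (t, t')) = ∫ t : ℝ, (fun w => c.K w * (c.K' (vl c.b t') * c.gw (w - vl c.b t')))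
        (vl u t) * ZobjQ (X1 (X1 (XB X Y) c.S' (vl c.b t')) c.S (vl u t) true)
          (X1 (X1 (XB X Y) c.S' (vl c.b t')) c.S (vl u t) false) α (n - c.dX) (n' - c.dY)
          lnX lnY := by
    intro u t'
    refine integral_congr_ae (Filter.Eventually.of_forall fun t => ?_)
    simp only [JJ, Pre]
    rw [XS_X1t X Y, XS_X1f X Y]
    ring
  have f0 := fub2 i0
  have f1 := fub2 i1
  rw [ha]
  show (∫ y, JJ X Y c.S c.S' c.gw c.K c.K' α (n - c.dX) (n' - c.dY) lnX lnY (31 / 50 * l) c.b y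
      ∂(volume.prod volume)) = (∫ y, JJ X Y c.S c.S' c.gw c.K c.K' α (n - c.dX) (n' - c.dY)
      lnX lnY (5 / 4 * l) c.b y ∂(volume.prod volume)) + _
  by_cases h2 : 2 ≤ n' - c.dY
  · have h3 : (c.hX Y).dX ≤ n ∧ (c.hX Y).dY ≤ n' := ⟨h.1, by
      show c.dY + 2 ≤ n'
      omega⟩
    rw [if_pos h3]
    have e1 : n' - (c.hX Y).dY = n' - c.dY - 2 := by
      show n' - (c.dY + 2) = _
      omega
    rw [e1]
    show _ = _ + ∫ y, JJ X Y (hostS false c.S) c.S'
      (fun x => c.gw x * c.S' false (some .S) (2 * l - x))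
      (fun w => -(2 * Real.pi * rD (2 * l) * wt .S * Y (some .S) (w - 2 * l)) * c.K w) c.K' α
      (n - c.dX) (n' - c.dY - 2) lnX lnY (5 / 8 * l) c.b y ∂(volume.prod volume)
    have hS : sc4 false (some .S) = -2 := by
      simp [sc, ob4, ob3, chg]
    have iH : Integrable (JJ X Y (hostS false c.S) c.S'
      (fun x => c.gw x * c.S' false (some .S) (2 * l - x))
      (fun w => -(2 * Real.pi * rD (2 * l) * wt .S * Y (some .S) (w - 2 * l)) * c.K w) c.K' α
      (n - c.dX) (n' - c.dY - 2) lnX lnY (5 / 8 * l) c.b) (volume.prod volume) := by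
      have hH := toHQ (hostQ hκ hF m (-(2 * Real.pi * rD (2 * l) * wt .S)))
      rw [pinned_line] at hH
      have eK : (fun w => -(2 * Real.pi * rD (2 * l) * wt .S) * Y (some .S) (w - 2 * l) * c.K w) =
          fun w => -(2 * Real.pi * rD (2 * l) * wt .S * Y (some .S) (w - 2 * l)) * c.K w := by
        funext w
        ring
      rw [eK] at hH
      refine integrable_JJ hL hκ ?_ fX fY hH (toHQ v)
        (hgm.mul ((v.ms _ _).comp (measurable_const.sub measurable_id))) ?_ hα
        (fun p p' k k' i => hl.hX p p' k k' i) (fun p p' k k' i => hl.hY p p' k k' i)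
      · rw [Nat.cast_sub h2, hS]
        push_cast
        linarith
      · have b1 := hgb (5 / 8 * l) ⟨by
          have := m.mem1
          have := m.pin.1
          linarith [pinned_line], by
          have := m.mem2
          have := m.pin.2
          linarith [pinned_line]⟩
        obtain ⟨C, hC, b2⟩ := (v.pb false (some .S)).1
        have b3 : Bdd {5 / 8 * l - c.b} (2 * (cw' * sc4 false (some .S)))
            fun x => c.S' false (some .S) (2 * l - x) := by
          refine ⟨C, hC, fun z hz => ?_⟩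
          have hz' : z.re = 5 / 8 * l - c.b := hz
          have := b2 (2 * l - z) (by
            rw [sub_re, hz']
            simp only [mul_re, re_ofNat, ofReal_re, im_ofNat, ofReal_im, mul_zero, sub_zero]
            have := pinned_line
            exact ⟨by linarith [m.pin.2], by linarith [m.pin.1]⟩)
          have e : (2 * (l : ℂ) - z).im = -z.im := by simp
          rwa [e, abs_neg] at this
        exact (b1.mul b3).rate (by ring)
    have fH := fub2 iH
    rw [f0.2, f1.2, fH.2, ← integral_add f1.1 fH.1]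
    refine integral_congr_ae (Filter.Eventually.of_forall fun t' => ?_)
    simp only []
    have h4 := (mv t').1
    rw [if_pos h2, ← eJ, ← eJ, ← integral_const_mul] at h4
    have h5 : (∫ t : ℝ, 2 * Real.pi * pinI α (-(11 / 8) * l) (X1 (XB X Y) c.S' (vl c.b t')) c.S
        (fun w => c.K w * (c.K' (vl c.b t') * c.gw (w - vl c.b t'))) rD (n - c.dX)
        (n' - c.dY - 2) lnX lnY t) = -∫ t : ℝ, JJ X Y (hostS false c.S) c.S'
      (fun x => c.gw x * c.S' false (some .S) (2 * l - x))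
      (fun w => -(2 * Real.pi * rD (2 * l) * wt .S * Y (some .S) (w - 2 * l)) * c.K w) c.K' α
      (n - c.dX) (n' - c.dY - 2) lnX lnY (5 / 8 * l) c.b (t, t') := by
      rw [← integral_neg]
      exact integral_congr_ae (Filter.Eventually.of_forall fun t =>
        pinI_JJ c.S c.S' c.K c.K' c.gw _ _ lnX lnY c.b t t')
    rw [h5] at h4
    linear_combination -h4
  · have h3 : ¬ ((c.hX Y).dX ≤ n ∧ (c.hX Y).dY ≤ n') := by
      rintro ⟨-, h3⟩
      have h4 : c.dY + 2 ≤ n' := h3
      omega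
    rw [if_neg h3, add_zero, f0.2, f1.2]
    refine integral_congr_ae (Filter.Eventually.of_forall fun t' => ?_)
    simp only []
    have h4 := (mv t').1
    rw [if_neg h2, ← eJ, ← eJ, mul_zero] at h4
    linear_combination -h4

theorem flipQ (hF : FmD lo hi κ Q (XB X Y)) : FmD lo hi κ (-Q) (XB Y X) where
  meas c k := by
    cases c
    · exact hF.meas true k
    · exact hF.meas false k
  dec c k := by
    rw [show κ + 2 * -Q * sc4 c k = κ + 2 * Q * sc4 (!c) k by rw [sc4_not]; ring]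
    cases c
    · exact hF.dec true k
    · exact hF.dec false k
  cont c k h := by
    cases c
    · exact hF.cont true k h
    · exact hF.cont false k h
  diff c k h := by
    cases c
    · exact hF.diff true k h
    · exact hF.diff false k h

/-- **The line of `w'` is moved: the class with `w'` on its final line and the class in which `w'`
is bound to a string of species X.** `cw'` = own charge of `w'` (the spectators `c.S'` in own
orientation are `Sp.flip c.S'`). -/
theorem moveYQ (hκ : 0 < κ) (hok : OkS lo hi) (hlo : lo none ≤ α) (hhi : α ≤ hi none)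
    (hF : FmD lo hi κ Q (XB X Y)) {c : CD} (hb : c.b = 31 / 50 * l)
    (m : MvH lo hi (κ - 2 * Q * cw') cw' (31 / 50 * l) (5 / 4 * l) (-(11 / 8) * l) (Sp.flip c.S') c.K' rD)
    (v : FxH lo hi (κ + 2 * Q * cw) cw c.a c.S c.K) (hgm : Measurable c.gw)
    (hg : PB (-(2 * (cw * cw'))) (Set.Icc (c.a - 5 / 4 * l) (c.a - 31 / 50 * l)) c.gw) {n n' : ℕ}
    (hQ : c.dX ≤ n → c.dY ≤ n' →
      cw - cw' + (((n - c.dX : ℕ) : ℝ) - ((n' - c.dY : ℕ) : ℝ)) = Q)
    {lnX : ∀ p p' : ℕ, (Fin p → O3) → (Fin p' → O3) → Fin p → ℝ}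
    {lnY : ∀ p p' : ℕ, (Fin p → O3) → (Fin p' → O3) → Fin p' → ℝ}
    (hl : LnA lo hi (swL' lnY) (swL lnX)) :
    c.val X Y α n n' lnX lnY =
      c.mY.val X Y α n n' lnX lnY + (c.hY X).val X Y α n n' lnX lnY := by
  have hg' : PB (2 * (cw' * -cw)) (Set.Icc (31 / 50 * l - c.a) (5 / 4 * l - c.a))
      fun x => c.gw (-x) := by
    refine PB.neg (K := Set.Icc (31 / 50 * l - c.a) (5 / 4 * l - c.a)) ?_
    rw [show 2 * (cw' * -cw) = -(2 * (cw * cw')) by ring]
    refine hg.mono ?_
    rintro _ ⟨x, hx, rfl⟩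
    exact ⟨by simp only []; linarith [hx.2], by simp only []; linarith [hx.1]⟩
  have h := moveXQ (Q := -Q) (c := c.flip) (n := n') (n' := n) hκ hok hlo hhi (flipQ hF) hb
    (mvH_cast m (by ring)) (fxH_cast v.flip (by ring))
    (hgm.comp measurable_neg) hg' (fun h1 h2 => by
      have := hQ h2 h1
      show cw' + -cw + (((n' - c.dY : ℕ) : ℝ) - ((n - c.dX : ℕ) : ℝ)) = -Q
      linarith) hl
  rw [CD.flip_val, h, CD.flip_mX, CD.flip_hX, CD.flip_val c.mY, CD.flip_val (c.hY X)]

/-! ## the start classes as the final classes -/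

section inst

variable {kF kP kF' kP' : ℂ → ℂ}
  {n n' : ℕ} {lnX : ∀ p p' : ℕ, (Fin p → O3) → (Fin p' → O3) → Fin p → ℝ}
  {lnY : ∀ p p' : ℕ, (Fin p → O3) → (Fin p' → O3) → Fin p' → ℝ}

/-- **The start classes as the final classes**, from the data of the half quanta, charge `Q = n - n'`. -/
theorem cS_cFQ (hκ : 0 < κ) (hok : OkS lo hi) (hlo : lo none ≤ α) (hhi : α ≤ hi none)
    (hF : FmD lo hi κ Q (XB X Y)) (hn : (n : ℝ) - n' = Q)
    (mX : MvH lo hi (κ + Q) (1 / 2) (31 / 50 * l) (5 / 4 * l) (-(11 / 8) * l) SF kF rD)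
    (mY : MvH lo hi (κ - Q) (1 / 2) (31 / 50 * l) (5 / 4 * l) (-(11 / 8) * l) SF kF' rD)
    (fF : FxH lo hi (κ + Q) (1 / 2) (-(11 / 4) * l) SF kF)
    (fP : FxH lo hi (κ - Q) (-1 / 2) (-(11 / 4) * l) SP kP)
    (fF' : FxH lo hi (κ - Q) (1 / 2) (-(11 / 4) * l) SF kF')
    (fP' : FxH lo hi (κ + Q) (-1 / 2) (-(11 / 4) * l) SP kP')
    (hl : LnA lo hi lnX lnY) (hl' : LnA lo hi (swL' lnY) (swL lnX)) :
    ∑ t ∈ T3, ∑ t' ∈ T3, t.sg * t'.sg * (cS kF kP kF' kP' t t').val X Y α n n' lnX lnY =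
      ∑ t, ∑ t', t.sg * t'.sg * (cF X Y kF kP kF' kP' t t').val X Y α n n' lnX lnY := by
  have hflS : Sp.flip (fl SF) = SF := by
    funext c k x
    simp [Sp.flip, fl]
  have m1 : MvH lo hi (κ + 2 * Q * (1 / 2)) (1 / 2) (31 / 50 * l) (5 / 4 * l) (-(11 / 8) * l) SF kF rD :=
    mvH_cast mX (by ring)
  have m2 : MvH lo hi (κ - 2 * Q * (1 / 2)) (1 / 2) (31 / 50 * l) (5 / 4 * l) (-(11 / 8) * l) SF kF' rD :=
    mvH_cast mY (by ring)
  refine sum_cS_cF ?_ ?_
  · intro t' ht'
    have ht3 : t' = .W ∨ t' = .F ∨ t' = .P := by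
      unfold T3 at ht'
      simpa using ht'
    rcases ht3 with rfl | rfl | rfl
    · exact moveXQ hκ hok hlo hhi hF (c := cS kF kP kF' kP' .W .W) rfl m1
        (fxH_cast ((mY.fx (Or.inl rfl)).flip) (by ring)) (measurable_gT .W .W) gw_X.1 (fun _ _ => by
          simp only [NURow.cS, HT.nq, Nat.sub_zero]
          linarith) hl
    · exact moveXQ hκ hok hlo hhi hF (c := cS kF kP kF' kP' .W .F) rfl m1
        (fxH_cast fF'.flip (by ring)) (measurable_gT .W .F) gw_X.2.1 (fun _ _ => by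
          simp only [NURow.cS, HT.nq, Nat.sub_zero]
          linarith) hl
    · exact moveXQ hκ hok hlo hhi hF (c := cS kF kP kF' kP' .W .P) rfl m1
        (fxH_cast fP'.flip (by ring)) (measurable_gT .W .P) gw_X.2.2 (fun h1 _ => by
          have h2 : 1 ≤ n := h1
          simp only [NURow.cS, HT.nq, Nat.sub_zero]
          push_cast [Nat.cast_sub h2]
          linarith) hl
  · intro t
    cases t
    · exact moveYQ hκ hok hlo hhi hF (c := (cS kF kP kF' kP' .W .W).mX) rfl
        (by show MvH lo hi _ (1 / 2) _ _ _ (Sp.flip (fl SF)) kF' rD; rw [hflS]; exact m2)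
        (m1.fx (Or.inr rfl)) (measurable_gT .W .W) gw_Y.1 (fun _ _ => by
          simp only [CD.mX, NURow.cS, HT.nq, Nat.sub_zero]
          linarith) hl'
    · exact moveYQ hκ hok hlo hhi hF (c := cS kF kP kF' kP' .F .W) rfl
        (by show MvH lo hi _ (1 / 2) _ _ _ (Sp.flip (fl SF)) kF' rD; rw [hflS]; exact m2)
        (fxH_cast fF (by ring)) (measurable_gT .F .W) gw_Y.2.1 (fun _ _ => by
          simp only [NURow.cS, HT.nq, Nat.sub_zero]
          linarith) hl'
    · exact moveYQ hκ hok hlo hhi hF (c := cS kF kP kF' kP' .P .W) rfl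
        (by show MvH lo hi _ (1 / 2) _ _ _ (Sp.flip (fl SF)) kF' rD; rw [hflS]; exact m2)
        (fxH_cast fP (by ring)) (measurable_gT .P .W) gw_Y.2.2.1 (fun _ h1 => by
          have h2 : 1 ≤ n' := h1
          simp only [NURow.cS, HT.nq, Nat.sub_zero]
          push_cast [Nat.cast_sub h2]
          linarith) hl'
    · have hh := hostQ hκ hF m1 (-(2 * Real.pi * rD (2 * l) * wt .S))
      rw [pinned_line] at hh
      have hK : ((cS kF kP kF' kP' .H .W).hX Y).K = fun w =>
          -(2 * Real.pi * rD (2 * l) * wt .S) * Y (some .S) (w - 2 * l) * kF w := by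
        funext w
        show -(2 * Real.pi * rD (2 * l) * wt .S * Y (some .S) (w - 2 * l)) * kF w = _
        ring
      have hh' : FxH lo hi (κ + 2 * Q * (1 / 2 + sc4 false (some .S))) (1 / 2 + sc4 false (some .S))
          ((cS kF kP kF' kP' .H .W).hX Y).a
          ((cS kF kP kF' kP' .H .W).hX Y).S ((cS kF kP kF' kP' .H .W).hX Y).K := by
        rw [hK]
        exact hh
      refine moveYQ hκ hok hlo hhi hF (c := (cS kF kP kF' kP' .H .W).hX Y) rfl
        (by show MvH lo hi _ (1 / 2) _ _ _ (Sp.flip (fl SF)) kF' rD; rw [hflS]; exact m2)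
        hh' ?_ gw_Y.2.2.2 (fun _ h1 => ?_) hl'
      · exact (measurable_gT .W .W).mul (measurable_CC.comp (by fun_prop))
      · have h2 : 2 ≤ n' := h1
        have h3 : sc4 false (some .S) = -2 := by simp [sc4, sc, chg, ob4, ob3]
        have h4 : ((cS kF kP kF' kP' .H .W).hX Y).dX = 0 := rfl
        have h5 : ((cS kF kP kF' kP' .H .W).hX Y).dY = 2 := rfl
        rw [h3, h4, h5, Nat.cast_sub h2, Nat.sub_zero]
        push_cast
        linarith

end inst

/-! ## the half quanta on the strips of the final stage -/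

/-- the half quantum which is moved, decay `κ` of the prefactor -/
theorem mvQ_SF {s : ℝ} (mK : Measurable K) (hK : PB s (Set.Icc (31 / 50 * l) (5 / 4 * l)) K)
    (hκ : s ≤ -κ) :
    MvH loP hiP κ (1 / 2) (31 / 50 * l) (5 / 4 * l) (-(11 / 8) * l) SF K rD :=
  let h := mvH_SF (κ := -1) (K := fun _ => (0 : ℂ)) measurable_const
    (PB.mono_rate (s := -1) (⟨⟨0, le_rfl, fun _ _ => by simp⟩, fun _ _ => differentiableAt_const _⟩) le_rfl)
    (by norm_num)
  { lt := h.lt
    pi := h.pi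
    mK := mK
    ms := h.ms
    dK := hK.decOn hκ
    cK := hK.contOn
    aK := hK.diffOn
    reg := h.reg
    pol := h.pol
    num := h.num
    mem1 := h.mem1
    mem2 := h.mem2
    pin := h.pin
    comp := h.comp }

end Pool.Agent.PLX

end
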