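import Pool.Agent.PLX.RayStep
import Pool.Agent.PB.EPrOf

/-!
# The recursion along a ray: the modes in the legs (helper3)

On top of `ray_step` (rows only, one at a time up to `3 l`): the function has legs at `z`, the Ward step is
the landed `(E')` (`PBV.EPr`), i.e. it is exact only up to first and second derivatives in the legs.

* `Mo w K k g` : the coefficient of `exp (i w k z)`, a fixed linear combination of values at nodes;
* `rec_coef` : the coefficients as functions of the row position, to first order in `q`;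
* `ray_two` : one step, all coefficients: `b k = a k (1 + 4 q α w k²) + O(ε + δ + q² A)`.
-/

set_option autoImplicit false

noncomputable section

open Complex Filter Topology Set
open Pool.Agent.PB.Rec (EL EL_coef EL_add EL_sub EL_add' EL_smul EL_le EL_diff Op_EL Op_sub Op_le Mk Mk_le
  Lk Lk_deriv lam lam' seg Bx Bx_open It_ball y_le Op seq_small)

namespace Pool.Agent.PLX

/-! ### the coefficient as a linear combination of values -/

/-- weights -/
def mu (w : ℝ) (K : ℕ) (k : ℤ) (r : Fin (2 * K + 1)) : ℂ :=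
  (Lagrange.basis Finset.univ (fun s => ez w (nd (2 * K) s)) r).coeff (k + K).toNat *
    ez w (nd (2 * K) r) ^ K

/-- **the coefficient** -/
def Mo (w : ℝ) (K : ℕ) (k : ℤ) (g : ℂ → ℂ) : ℂ := ∑ r, mu w K k r * g (nd (2 * K) r)

theorem ez_pow (w : ℝ) (K : ℕ) {k : ℤ} (hk : k ∈ Finset.Icc (-(K : ℤ)) K) (z : ℂ) :
    ez w z ^ (k + K).toNat = exp (I * w * k * z) * ez w z ^ K := by
  rw [Finset.mem_Icc] at hk
  unfold ez
  rw [← exp_nat_mul, ← exp_nat_mul, ← exp_add]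
  congr 1
  have h : (((k + K).toNat : ℕ) : ℂ) = (k : ℂ) + K := by
    have h1 : (((k + K).toNat : ℕ) : ℤ) = k + K := Int.toNat_of_nonneg (by omega)
    have h2 : ((((k + K).toNat : ℕ) : ℤ) : ℂ) = ((k + K : ℤ) : ℂ) := by rw [h1]
    push_cast at h2
    exact h2
  rw [h]
  ring

/-- the polynomial of a finite exponential sum -/
def pE (K : ℕ) (a : ℤ → ℂ) : Polynomial ℂ :=
  ∑ k ∈ Finset.Icc (-(K : ℤ)) K, Polynomial.C (a k) * Polynomial.X ^ (k + K).toNat

theorem pE_eval (w : ℝ) (K : ℕ) (a : ℤ → ℂ) (z : ℂ) :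
    (pE K a).eval (ez w z) = EL w K a z * ez w z ^ K := by
  unfold pE EL
  rw [Polynomial.eval_finsetSum, Finset.sum_mul]
  refine Finset.sum_congr rfl fun k hk => ?_
  rw [Polynomial.eval_mul, Polynomial.eval_C, Polynomial.eval_pow, Polynomial.eval_X, ez_pow w K hk]
  ring

theorem pE_deg (K : ℕ) (a : ℤ → ℂ) : (pE K a).degree < (2 * K + 1 : ℕ) := by
  unfold pE
  refine lt_of_le_of_lt (Polynomial.degree_sum_le _ _) ?_
  rw [Finset.sup_lt_iff (by exact_mod_cast WithBot.bot_lt_coe _)]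
  intro k hk
  refine lt_of_le_of_lt (Polynomial.degree_C_mul_X_pow_le _ _) ?_
  rw [Finset.mem_Icc] at hk
  exact_mod_cast (by omega : (k + K).toNat < 2 * K + 1)

theorem pE_coeff (K : ℕ) (a : ℤ → ℂ) {k : ℤ} (hk : k ∈ Finset.Icc (-(K : ℤ)) K) :
    (pE K a).coeff (k + K).toNat = a k := by
  unfold pE
  rw [Polynomial.finsetSum_coeff, Finset.sum_eq_single k]
  · simp
  · intro k' hk' hne
    rw [Polynomial.coeff_C_mul_X_pow, if_neg]
    intro h
    rw [Finset.mem_Icc] at hk hk'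
    apply hne
    omega
  · intro h
    exact absurd hk h

theorem Mo_EL {w : ℝ} (hw : w ≠ 0) {K : ℕ} {k : ℤ} (hk : k ∈ Finset.Icc (-(K : ℤ)) K) (a : ℤ → ℂ) :
    Mo w K k (EL w K a) = a k := by
  have h := Lagrange.eq_interpolate (s := Finset.univ) (v := fun s => ez w (nd (2 * K) s)) (f := pE K a)
    ((ez_nd_inj hw (2 * K)).injOn) (by simpa using pE_deg K a)
  have h2 := congrArg (fun p => Polynomial.coeff p (k + K).toNat) h
  simp only [Lagrange.interpolate_apply, Polynomial.finsetSum_coeff, Polynomial.coeff_C_mul] at h2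
  rw [pE_coeff K a hk] at h2
  rw [h2]
  unfold Mo mu
  refine Finset.sum_congr rfl fun r _ => ?_
  rw [pE_eval]
  ring

theorem Mo_sub (w : ℝ) (K : ℕ) (k : ℤ) (f g : ℂ → ℂ) :
    Mo w K k (fun z => f z - g z) = Mo w K k f - Mo w K k g := by
  unfold Mo
  rw [← Finset.sum_sub_distrib]
  exact Finset.sum_congr rfl fun r _ => by ring

/-- size of the weights -/
def MW (w : ℝ) (K : ℕ) (k : ℤ) : ℝ := ∑ r, ‖mu w K k r‖

theorem MW_nonneg (w : ℝ) (K : ℕ) (k : ℤ) : 0 ≤ MW w K k :=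
  Finset.sum_nonneg fun _ _ => norm_nonneg _

theorem nd_eq (D : ℕ) (r : Fin (D + 1)) : ∃ t ∈ Icc (0 : ℝ) 1, nd D r = I * (t : ℂ) := by
  refine ⟨((r : ℕ) / (D + 1 : ℕ) : ℝ), ⟨by positivity, ?_⟩, rfl⟩
  rw [div_le_one (by positivity)]
  exact_mod_cast r.2.le

theorem Mo_le {w : ℝ} {K : ℕ} {k : ℤ} {g : ℂ → ℂ} {ε : ℝ} (h : ∀ t ∈ Icc (0 : ℝ) 1, ‖g (I * t)‖ ≤ ε) :
    ‖Mo w K k g‖ ≤ MW w K k * ε := by
  unfold Mo MW
  rw [Finset.sum_mul]
  refine norm_sum_le_of_le _ fun r _ => ?_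
  rw [norm_mul]
  obtain ⟨t, ht, e⟩ := nd_eq (2 * K) r
  rw [e]
  exact mul_le_mul_of_nonneg_left (h t ht) (norm_nonneg _)

theorem Mo_congr {w : ℝ} {K : ℕ} {k : ℤ} {f g : ℂ → ℂ} (h : ∀ t ∈ Icc (0 : ℝ) 1, f (I * t) = g (I * t)) :
    Mo w K k f = Mo w K k g := by
  unfold Mo
  refine Finset.sum_congr rfl fun r _ => ?_
  obtain ⟨t, ht, e⟩ := nd_eq (2 * K) r
  rw [e, h t ht]

theorem Kt.mono {w : ℝ} {K : ℕ} {S : ℂ → Prop} {ε ε' : ℝ} {g : ℂ → ℂ} (h : Kt w K S ε g) (he : ε ≤ ε') :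
    Kt w K S ε' g := by
  obtain ⟨p, hp, hpS⟩ := h
  exact ⟨p, hp, fun x hx => (hpS x hx).trans he⟩

theorem Kt_Mo {w : ℝ} {K : ℕ} {S : ℂ → Prop} {ε : ℝ} {K' : ℕ} {k : ℤ} {g : ℂ → ℂ → ℂ}
    (h : ∀ t ∈ Icc (0 : ℝ) 1, Kt w K S ε (fun x => g x (I * t))) :
    Kt w K S (MW w K' k * ε) (fun x => Mo w K' k (g x)) := by
  have h1 := Kt.sum (w := w) (K := K) (S := S) (Finset.univ : Finset (Fin (2 * K' + 1)))
    (fun r => mu w K' k r) (ε := fun _ => ε) (g := fun r x => g x (nd (2 * K') r)) (fun r _ => by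
      obtain ⟨t, ht, e⟩ := nd_eq (2 * K') r
      rw [e]
      exact h t ht)
  rw [← Finset.sum_mul] at h1
  exact h1

/-! ### the coefficients as functions of the row -/

/-- **The coefficients along the segment, first order in `q`** (steps 1 - 5 of `Rec.rec_mode`). -/
theorem rec_coef {w R : ℝ} (hw : 0 < w) (hR0 : 0 < R) (K : ℕ) (α : ℝ) (β : ℂ) :
    ∃ C : ℝ, 0 < C ∧ ∀ (Psi : ℂ → ℂ → ℂ) (x0 : ℂ) (a : ℂ → ℤ → ℂ) (q ε δ A : ℝ),
      x0.im = 0 → 0 ≤ q → q ≤ 1 → 0 ≤ ε →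
      (∀ x ∈ seg x0, DifferentiableOn ℂ (fun z => Psi z x) (Bx R)) →
      (∀ x ∈ seg x0, ∀ z ∈ Bx R, ‖Psi z x - EL w K (a x) z‖ ≤ ε) →
      (∀ x ∈ seg x0, ∀ k ∈ Finset.Icc (-(K : ℤ)) K, ‖a x k‖ ≤ A) →
      (∀ s ∈ Icc (0 : ℝ) 1, ∀ t ∈ Icc (0 : ℝ) 1, ∃ D : ℂ,
        HasDerivAt (fun s : ℝ => Psi (I * t) (x0 + I * s)) D s ∧
        ‖D - q * Op α β (fun z => Psi z (x0 + I * s)) (exp (I * w * (x0 + I * s))) (I * t)‖ ≤ δ) →
      ∀ s ∈ Icc (0 : ℝ) 1, ∀ k ∈ Finset.Icc (-(K : ℤ)) K,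
        ‖a (x0 + I * s) k - (a x0 k + q * (Lk w α β (exp (I * w * x0)) (exp (I * w * (x0 + I * s))) k * a x0 k))‖ ≤
          C * (ε + δ + q ^ 2 * A) := by
  obtain ⟨V, hV0, hV⟩ := EL_coef hw K
  set r : ℝ := min (R / 2) (1 / 2) with hr
  have hr0 : 0 < r := lt_min (by linarith) (by norm_num)
  have hrR : 2 * r ≤ R := by have := min_le_left (R / 2) (1 / 2 : ℝ); linarith
  have hr1 : 2 * r ≤ 1 := by have := min_le_right (R / 2) (1 / 2 : ℝ); linarith
  set E : ℝ := (2 * K + 1) * Real.exp (|w| * K * 2) with hE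
  have hE0 : 0 < E := by positivity
  set Y : ℝ := Real.exp w with hY
  have hY0 : 0 < Y := Real.exp_pos _
  set B2 : ℝ := 8 * Y * (|α| + ‖β‖) / r ^ 2 with hB2
  have hB20 : 0 ≤ B2 := by positivity
  set Mb : ℝ := 2 * Y * (|α| * (w * K) ^ 2 + ‖β‖ * (w * K)) with hMb
  have hMb0 : 0 ≤ Mb := by positivity
  -- the constant
  set C1 : ℝ := V * (3 + B2 + E * Mb) + 1 with hC1
  have hC10 : 0 < C1 := by positivity
  set C2 : ℝ := 1 + B2 + E * Mb * C1 with hC2
  have hC20 : 0 < C2 := by positivity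
  set C3 : ℝ := V * (2 + C2) with hC3
  have hC30 : 0 < C3 := by positivity
  refine ⟨C3, hC30, ?_⟩
  intro Psi x0 a q ε δ A hx0i hq0 hq1 hε hdf ha hA hd
  have hmem0 : x0 ∈ seg x0 := ⟨0, ⟨le_rfl, zero_le_one⟩, by simp⟩
  have hIt : ∀ t ∈ Icc (0 : ℝ) 1, I * (t : ℂ) ∈ Bx R := by
    intro t ht
    refine ⟨by simpa using hR0, ?_⟩
    simp only [mul_im, I_re, ofReal_im, mul_zero, I_im, ofReal_re, one_mul, zero_add]
    rw [abs_of_nonneg ht.1]
    linarith [ht.2]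
  have hδ : 0 ≤ δ := by
    obtain ⟨D, _, h⟩ := hd 0 ⟨le_rfl, zero_le_one⟩ 0 ⟨le_rfl, zero_le_one⟩
    exact (norm_nonneg _).trans h
  have hA0 : 0 ≤ A := (norm_nonneg _).trans (hA x0 hmem0 0 (by simp))
  have hsg : ∀ s ∈ Icc (0 : ℝ) 1, x0 + I * s ∈ seg x0 := fun s hs => ⟨s, hs, rfl⟩
  have hIt' : ∀ (a : ℤ → ℂ) (B : ℝ), (∀ k ∈ Finset.Icc (-(K : ℤ)) K, ‖a k‖ ≤ B) → ∀ z ∈ Bx R,
      ‖EL w K a z‖ ≤ E * B := by
    intro a B h z hz
    have hB0 : 0 ≤ B := (norm_nonneg _).trans (h 0 (by simp))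
    refine (EL_le h z).trans ?_
    rw [hE]
    have : |z.im| ≤ 2 := hz.2.le
    gcongr
  -- the operator on Psi and on the expansion
  have hop : ∀ s ∈ Icc (0 : ℝ) 1, ∀ t ∈ Icc (0 : ℝ) 1,
      ‖Op α β (fun z => Psi z (x0 + I * s)) (exp (I * w * (x0 + I * s))) (I * t) -
        EL w K (fun k => Mk w α β (exp (I * w * (x0 + I * s))) k * a (x0 + I * s) k) (I * t)‖ ≤ B2 * ε := by
    intro s hs t ht
    obtain ⟨hy, hy'⟩ := y_le hw hx0i hs
    rw [← Op_EL, ← Op_sub (Bx_open R) (hdf _ (hsg s hs)) ((EL_diff w K _).differentiableOn) (hIt t ht)]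
    refine Op_le hr0 (by linarith) ?_ ?_ hy hy'
    · exact ((hdf _ (hsg s hs)).mono (It_ball hrR hr1 ht)).sub (EL_diff w K _).differentiableOn
    · intro u hu
      exact ha _ (hsg s hs) u (It_ball hrR hr1 ht hu)
  -- step 1: crude dependence on x
  have h1 : ∀ s ∈ Icc (0 : ℝ) 1, ∀ t ∈ Icc (0 : ℝ) 1,
      ‖Psi (I * t) (x0 + I * s) - Psi (I * t) x0‖ ≤ δ + q * (B2 * ε + E * (Mb * A)) := by
    intro s hs t ht
    choose! D hD hDδ using hd
    have hbd : ∀ s' ∈ Icc (0 : ℝ) 1, ‖D s' t‖ ≤ δ + q * (B2 * ε + E * (Mb * A)) := by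
      intro s' hs'
      have e1 := hDδ s' hs' t ht
      have e2 := hop s' hs' t ht
      obtain ⟨hy, hy'⟩ := y_le hw hx0i hs'
      have e3 : ‖EL w K (fun k => Mk w α β (exp (I * w * (x0 + I * s'))) k * a (x0 + I * s') k) (I * t)‖ ≤
          E * (Mb * A) := by
        refine hIt' _ _ (fun k hk => ?_) _ (hIt t ht)
        rw [norm_mul]
        exact mul_le_mul (Mk_le hw hk hy hy') (hA _ (hsg s' hs') k hk) (norm_nonneg _) hMb0
      have e4 : ‖Op α β (fun z => Psi z (x0 + I * s')) (exp (I * w * (x0 + I * s'))) (I * t)‖ ≤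
          B2 * ε + E * (Mb * A) := by
        have := norm_add_le (Op α β (fun z => Psi z (x0 + I * s')) (exp (I * w * (x0 + I * s'))) (I * t) -
          EL w K (fun k => Mk w α β (exp (I * w * (x0 + I * s'))) k * a (x0 + I * s') k) (I * t))
          (EL w K (fun k => Mk w α β (exp (I * w * (x0 + I * s'))) k * a (x0 + I * s') k) (I * t))
        rw [sub_add_cancel] at this
        linarith
      have e5 := norm_add_le (D s' t - q * Op α β (fun z => Psi z (x0 + I * s')) (exp (I * w * (x0 + I * s'))) (I * t))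
        (q * Op α β (fun z => Psi z (x0 + I * s')) (exp (I * w * (x0 + I * s'))) (I * t))
      rw [sub_add_cancel, norm_mul, norm_real, Real.norm_eq_abs, abs_of_nonneg hq0] at e5
      have := mul_le_mul_of_nonneg_left e4 hq0
      linarith
    have h2 := (convex_Icc (0 : ℝ) 1).norm_image_sub_le_of_norm_hasDerivWithin_le
      (f := fun s : ℝ => Psi (I * t) (x0 + I * s)) (C := δ + q * (B2 * ε + E * (Mb * A)))
      (fun s' hs' => (hD s' hs' t ht).hasDerivWithinAt) hbd (⟨le_rfl, zero_le_one⟩ : (0 : ℝ) ∈ Icc (0 : ℝ) 1) hs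
    simp only [ofReal_zero, mul_zero, add_zero, sub_zero, Real.norm_eq_abs] at h2
    rw [abs_of_nonneg hs.1] at h2
    refine h2.trans ?_
    have hnn : 0 ≤ δ + q * (B2 * ε + E * (Mb * A)) := by positivity
    exact mul_le_of_le_one_right hnn hs.2
  -- step 2: crude coefficients
  have h2 : ∀ s ∈ Icc (0 : ℝ) 1, ∀ k ∈ Finset.Icc (-(K : ℤ)) K,
      ‖a (x0 + I * s) k - a x0 k‖ ≤ C1 * (ε + δ + q * A) := by
    intro s hs k hk
    have h3 : ‖a (x0 + I * s) k - a x0 k‖ ≤ V * (2 * ε + (δ + q * (B2 * ε + E * (Mb * A)))) := by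
      refine hV (fun k => a (x0 + I * s) k - a x0 k) _ (fun t ht => ?_) k hk
      rw [EL_sub]
      have e1 := ha _ (hsg s hs) _ (hIt t ht)
      have e2 := ha x0 hmem0 _ (hIt t ht)
      have e3 := h1 s hs t ht
      have e : EL w K (a (x0 + I * s)) (I * t) - EL w K (a x0) (I * t) =
          -(Psi (I * t) (x0 + I * s) - EL w K (a (x0 + I * s)) (I * t)) +
            (Psi (I * t) x0 - EL w K (a x0) (I * t)) +
            (Psi (I * t) (x0 + I * s) - Psi (I * t) x0) := by ring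
      rw [e]
      refine (norm_add_le _ _).trans ((add_le_add (norm_add_le _ _) le_rfl).trans ?_)
      rw [norm_neg]
      linarith
    refine h3.trans ?_
    have hqε : q * (B2 * ε) ≤ B2 * ε := mul_le_of_le_one_left (mul_nonneg hB20 hε) hq1
    have hqA : q * (E * (Mb * A)) = E * Mb * (q * A) := by ring
    have hqA0 : 0 ≤ q * A := mul_nonneg hq0 hA0
    have hEM : 0 ≤ E * Mb := by positivity
    have this : 2 * ε + (δ + q * (B2 * ε + E * (Mb * A))) ≤ (3 + B2 + E * Mb) * (ε + δ + q * A) := by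
      have g1 : (3 + B2 + E * Mb) * (ε + δ + q * A) = 3 * ε + 3 * δ + 3 * (q * A) + B2 * ε + B2 * δ + B2 * (q * A) +
        E * Mb * ε + E * Mb * δ + E * Mb * (q * A) := by ring
      rw [mul_add q, hqA, g1]
      linarith [mul_nonneg hB20 hδ, mul_nonneg hB20 hqA0, mul_nonneg hEM hε, mul_nonneg hEM hδ]
    have h4 := mul_le_mul_of_nonneg_left this hV0.le
    have h5 : 0 ≤ ε + δ + q * A := by positivity
    have h6 : C1 * (ε + δ + q * A) = V * ((3 + B2 + E * Mb) * (ε + δ + q * A)) + (ε + δ + q * A) := by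
      rw [hC1]
      ring
    rw [h6]
    linarith
  -- step 3, 4: refined dependence
  have h3 : ∀ s ∈ Icc (0 : ℝ) 1, ∀ t ∈ Icc (0 : ℝ) 1,
      ‖Psi (I * t) (x0 + I * s) - Psi (I * t) x0 -
        q * EL w K (fun k => Lk w α β (exp (I * w * x0)) (exp (I * w * (x0 + I * s))) k * a x0 k) (I * t)‖ ≤
        C2 * (ε + δ + q ^ 2 * A) := by
    intro s hs t ht
    choose! D hD hDδ using hd
    set F : ℝ → ℂ := fun s => Psi (I * t) (x0 + I * s) -
      q * EL w K (fun k => Lk w α β (exp (I * w * x0)) (exp (I * w * (x0 + I * s))) k * a x0 k) (I * t) with hF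
    have hFd : ∀ s' ∈ Icc (0 : ℝ) 1, HasDerivWithinAt F (D s' t -
        q * EL w K (fun k => Mk w α β (exp (I * w * (x0 + I * s'))) k * a x0 k) (I * t)) (Icc 0 1) s' := by
      intro s' hs'
      have g1 : HasDerivAt (fun s : ℝ =>
          EL w K (fun k => Lk w α β (exp (I * w * x0)) (exp (I * w * (x0 + I * s))) k * a x0 k) (I * t))
          (EL w K (fun k => Mk w α β (exp (I * w * (x0 + I * s'))) k * a x0 k) (I * t)) s' := by
        unfold EL
        exact HasDerivAt.fun_sum fun k _ =>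
          ((Lk_deriv w α β (exp (I * w * x0)) x0 k s').mul_const (a x0 k)).mul_const _
      exact ((hD s' hs' t ht).sub (g1.const_mul (q : ℂ))).hasDerivWithinAt
    have hbd : ∀ s' ∈ Icc (0 : ℝ) 1, ‖D s' t -
        q * EL w K (fun k => Mk w α β (exp (I * w * (x0 + I * s'))) k * a x0 k) (I * t)‖ ≤
        δ + q * (B2 * ε + E * (Mb * (C1 * (ε + δ + q * A)))) := by
      intro s' hs'
      obtain ⟨hy, hy'⟩ := y_le hw hx0i hs'
      have e1 := hDδ s' hs' t ht
      have e2 := hop s' hs' t ht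
      have e3 : ‖EL w K (fun k => Mk w α β (exp (I * w * (x0 + I * s'))) k * (a (x0 + I * s') k - a x0 k)) (I * t)‖ ≤
          E * (Mb * (C1 * (ε + δ + q * A))) := by
        refine hIt' _ _ (fun k hk => ?_) _ (hIt t ht)
        rw [norm_mul]
        exact mul_le_mul (Mk_le hw hk hy hy') (h2 s' hs' k hk) (norm_nonneg _) hMb0
      have e4 : EL w K (fun k => Mk w α β (exp (I * w * (x0 + I * s'))) k * (a (x0 + I * s') k - a x0 k)) (I * t) =
          EL w K (fun k => Mk w α β (exp (I * w * (x0 + I * s'))) k * a (x0 + I * s') k) (I * t) -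
          EL w K (fun k => Mk w α β (exp (I * w * (x0 + I * s'))) k * a x0 k) (I * t) := by
        rw [← EL_sub]
        congr 1
        funext k
        ring
      rw [e4] at e3
      set P := Op α β (fun z => Psi z (x0 + I * s')) (exp (I * w * (x0 + I * s'))) (I * t)
      set Q := EL w K (fun k => Mk w α β (exp (I * w * (x0 + I * s'))) k * a (x0 + I * s') k) (I * t)
      set S := EL w K (fun k => Mk w α β (exp (I * w * (x0 + I * s'))) k * a x0 k) (I * t)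
      have e5 : D s' t - q * S = (D s' t - q * P) + q * ((P - Q) + (Q - S)) := by ring
      rw [e5]
      refine (norm_add_le _ _).trans ?_
      rw [norm_mul, norm_real, Real.norm_eq_abs, abs_of_nonneg hq0]
      exact add_le_add e1 (mul_le_mul_of_nonneg_left ((norm_add_le _ _).trans (add_le_add e2 e3)) hq0)
    have h4 := (convex_Icc (0 : ℝ) 1).norm_image_sub_le_of_norm_hasDerivWithin_le (f := F) hFd hbd
      (⟨le_rfl, zero_le_one⟩ : (0 : ℝ) ∈ Icc (0 : ℝ) 1) hs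
    have hF0 : F 0 = Psi (I * t) x0 := by
      simp only [hF, ofReal_zero, mul_zero, add_zero]
      have : EL w K (fun k => Lk w α β (exp (I * w * x0)) (exp (I * w * x0)) k * a x0 k) (I * t) = 0 := by
        unfold EL
        refine Finset.sum_eq_zero fun k _ => ?_
        simp [Lk]
      rw [this, mul_zero, sub_zero]
    rw [hF0, sub_zero, Real.norm_eq_abs, abs_of_nonneg hs.1] at h4
    have e : Psi (I * t) (x0 + I * s) - Psi (I * t) x0 -
        q * EL w K (fun k => Lk w α β (exp (I * w * x0)) (exp (I * w * (x0 + I * s))) k * a x0 k) (I * t) =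
        F s - Psi (I * t) x0 := by
      simp only [hF]
      ring
    rw [e]
    refine h4.trans ?_
    have hnn : 0 ≤ δ + q * (B2 * ε + E * (Mb * (C1 * (ε + δ + q * A)))) := by positivity
    have hle1 : (δ + q * (B2 * ε + E * (Mb * (C1 * (ε + δ + q * A))))) * s ≤
        δ + q * (B2 * ε + E * (Mb * (C1 * (ε + δ + q * A)))) := mul_le_of_le_one_right hnn hs.2
    refine hle1.trans ?_
    have hqε : q * (B2 * ε) ≤ B2 * ε := mul_le_of_le_one_left (mul_nonneg hB20 hε) hq1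
    have hqe : q * (ε + δ + q * A) ≤ ε + δ + q ^ 2 * A := by
      have g1 : q * (ε + δ + q * A) = q * ε + q * δ + q ^ 2 * A := by ring
      rw [g1]
      linarith [mul_le_of_le_one_left hε hq1, mul_le_of_le_one_left hδ hq1]
    have hEMC : 0 ≤ E * Mb * C1 := by positivity
    have h6 : q * (E * (Mb * (C1 * (ε + δ + q * A)))) = E * Mb * C1 * (q * (ε + δ + q * A)) := by ring
    have h7 := mul_le_mul_of_nonneg_left hqe hEMC
    have hq2A : 0 ≤ q ^ 2 * A := by positivity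
    have h8 : C2 * (ε + δ + q ^ 2 * A) = ε + δ + q ^ 2 * A + B2 * ε + B2 * δ + B2 * (q ^ 2 * A) +
        E * Mb * C1 * (ε + δ + q ^ 2 * A) := by
      rw [hC2]
      ring
    rw [mul_add q, h6, h8]
    linarith [mul_nonneg hB20 hδ, mul_nonneg hB20 hq2A]
  -- step 5: refined coefficients
  intro s hs k hk
  have h6 : ‖a (x0 + I * s) k -
      (a x0 k + q * (Lk w α β (exp (I * w * x0)) (exp (I * w * (x0 + I * s))) k * a x0 k))‖ ≤
      V * (2 * ε + C2 * (ε + δ + q ^ 2 * A)) := by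
    refine hV (fun k => a (x0 + I * s) k -
      (a x0 k + q * (Lk w α β (exp (I * w * x0)) (exp (I * w * (x0 + I * s))) k * a x0 k))) _ (fun t ht => ?_) k hk
    rw [EL_sub, EL_add', EL_smul]
    have e1 := ha _ (hsg s hs) _ (hIt t ht)
    have e2 := ha x0 hmem0 _ (hIt t ht)
    have e3 := h3 s hs t ht
    set S := EL w K (fun k => Lk w α β (exp (I * w * x0)) (exp (I * w * (x0 + I * s))) k * a x0 k) (I * t)
    have e : EL w K (a (x0 + I * s)) (I * t) - (EL w K (a x0) (I * t) + q * S) =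
        -(Psi (I * t) (x0 + I * s) - EL w K (a (x0 + I * s)) (I * t)) +
          (Psi (I * t) x0 - EL w K (a x0) (I * t)) +
          (Psi (I * t) (x0 + I * s) - Psi (I * t) x0 - q * S) := by ring
    rw [e]
    refine (norm_add_le _ _).trans ((add_le_add (norm_add_le _ _) le_rfl).trans ?_)
    rw [norm_neg]
    linarith
  refine h6.trans ?_
  have hq2A : 0 ≤ q ^ 2 * A := by positivity
  rw [hC3, mul_assoc]
  refine mul_le_mul_of_nonneg_left ?_ hV0.le
  have g1 : (2 + C2) * (ε + δ + q ^ 2 * A) = 2 * ε + 2 * δ + 2 * (q ^ 2 * A) + C2 * (ε + δ + q ^ 2 * A) := by ring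
  rw [g1]
  linarith

/-! ### one step -/

theorem ez_L {w L : ℝ} (hL : w * L = Real.pi) : ez w (L : ℂ) = -1 := by
  unfold ez
  have e : I * (w : ℂ) * (L : ℂ) = Real.pi * I := by
    have : ((w * L : ℝ) : ℂ) = (Real.pi : ℂ) := by rw [hL]
    push_cast at this
    linear_combination I * this
  rw [e, exp_pi_mul_I]

/-- the exponential polynomial of one mode: `c (1 + q Lk)` -/
def pG (w α : ℝ) (β : ℂ) (q : ℝ) (k : ℤ) (N : ℕ) (c : ℂ) : Polynomial ℂ :=
  Polynomial.C (c * (1 - q * (lam w α β k + lam' w α β k))) * Polynomial.X ^ N +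
    (Polynomial.C (c * (q * lam w α β k)) * Polynomial.X ^ (N - 1) +
      Polynomial.C (c * (q * lam' w α β k)) * Polynomial.X ^ (N + 1))

theorem pG_deg (w α : ℝ) (β : ℂ) (q : ℝ) (k : ℤ) {N : ℕ} (hN : 1 ≤ N) (c : ℂ) :
    (pG w α β q k N c).degree < (2 * N + 1 : ℕ) := by
  have h : ∀ (u : ℂ) (n : ℕ), n < 2 * N + 1 →
      (Polynomial.C u * Polynomial.X ^ n).degree < ((2 * N + 1 : ℕ) : WithBot ℕ) := fun u n hn =>
    lt_of_le_of_lt (Polynomial.degree_C_mul_X_pow_le _ _) (by exact_mod_cast hn)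
  unfold pG
  refine lt_of_le_of_lt (Polynomial.degree_add_le _ _) (max_lt (h _ _ (by omega)) ?_)
  exact lt_of_le_of_lt (Polynomial.degree_add_le _ _) (max_lt (h _ _ (by omega)) (h _ _ (by omega)))

theorem pG_eval (w α : ℝ) (β : ℂ) (q : ℝ) (k : ℤ) {N : ℕ} (hN : 1 ≤ N) (c : ℂ) {y : ℂ} (hy : y ≠ 0) :
    (pG w α β q k N c).eval y / y ^ N = c + q * (Lk w α β 1 y k * c) := by
  obtain ⟨M, rfl⟩ : ∃ M, N = M + 1 := ⟨N - 1, by omega⟩
  unfold pG Lk
  simp only [Polynomial.eval_add, Polynomial.eval_mul, Polynomial.eval_C, Polynomial.eval_pow,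
    Polynomial.eval_X, Nat.add_sub_cancel, inv_one]
  have h1 : y ^ M ≠ 0 := pow_ne_zero _ hy
  rw [show y ^ (M + 1 + 1) = y ^ M * y * y by ring, show y ^ (M + 1) = y ^ M * y by ring]
  field_simp
  ring

/-- `Lk` at `y = -1` -/
theorem Lk_neg (w α : ℝ) (β : ℂ) (k : ℤ) : Lk w α β 1 (-1) k = 4 * α * w * (k : ℂ) ^ 2 := by
  unfold Lk lam lam'
  rw [show ((-1 : ℂ))⁻¹ = -1 by norm_num, inv_one]
  ring

/-- **One step of the recursion, all modes.** -/
theorem ray_two {w L R : ℝ} (hw : 0 < w) (hL : w * L = Real.pi) (hR : 0 < R) (K Kx n : ℕ)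
    (hn : 1 ≤ n * Kx) (α : ℝ) (β : ℂ) :
    ∃ C : ℝ, 0 < C ∧ ∀ (F : ℕ → List ℂ → ℂ → ℂ) (f0 : ℂ → ℂ) (b0 : ℤ → ℂ) (a : ℂ → ℤ → ℂ) (q ε δ A : ℝ),
      0 ≤ q → q ≤ 1 → 0 ≤ ε →
      (∀ x ∈ seg 0, DifferentiableOn ℂ (fun z => F 0 (List.replicate n x) z) (Bx R)) →
      (∀ x ∈ seg 0, ∀ z ∈ Bx R, ‖F 0 (List.replicate n x) z - EL w K (a x) z‖ ≤ ε) →
      (∀ x ∈ seg 0, ∀ k ∈ Finset.Icc (-(K : ℤ)) K, ‖a x k‖ ≤ A) →
      (∀ s ∈ Icc (0 : ℝ) 1, ∀ t ∈ Icc (0 : ℝ) 1, ∃ D : ℂ,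
        HasDerivAt (fun s : ℝ => F 0 (List.replicate n (I * s)) (I * t)) D s ∧
        ‖D - q * Op α β (fun z => F 0 (List.replicate n (I * s)) z) (exp (I * w * (I * s))) (I * t)‖ ≤ δ) →
      (∀ t ∈ Icc (0 : ℝ) 1, ‖f0 (I * t) - EL w K b0 (I * t)‖ ≤ ε) →
      (∀ t ∈ Icc (0 : ℝ) 1, F n [] (I * t) = f0 (I * t)) →
      (∀ t ∈ Icc (0 : ℝ) 1, ∀ u v : List ℂ, u.length + 1 + v.length = n → (∀ x ∈ u, Ax x) →
        (∀ x ∈ v, Ax x) → Kt w Kx (fun x => Ax x ∨ x = (L : ℂ)) ε fun x => F 0 (u ++ x :: v) (I * t)) →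
      (∀ t ∈ Icc (0 : ℝ) 1, ∀ j, j < n → ∀ v : List ℂ, v.length = n - j - 1 → (∀ x ∈ v, Ax x) →
        Kt w Kx (fun x => Ax x ∨ x = (L : ℂ)) ε fun x => F j (x :: v) (I * t)) →
      (∀ t ∈ Icc (0 : ℝ) 1, ∀ j, j < n → ∀ v : List ℂ, v.length = n - j - 1 → (∀ x ∈ v, Ax x) →
        F j ((L : ℂ) :: v) (I * t) = F (j + 1) v (I * t)) →
      ∀ k ∈ Finset.Icc (-(K : ℤ)) K,
        ‖b0 k - a 0 k * (1 + 4 * q * α * w * (k : ℂ) ^ 2)‖ ≤ C * (ε + δ + q ^ 2 * A) := by
  obtain ⟨C3, hC30, hC3⟩ := rec_coef hw hR K α β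
  obtain ⟨C1, hC1⟩ := ray_step hw.ne' (L : ℂ) Kx n
  -- bound of the weights
  set W : ℝ := ∑ k ∈ Finset.Icc (-(K : ℤ)) K, MW w K k with hWd
  have hW0 : 0 ≤ W := Finset.sum_nonneg fun _ _ => MW_nonneg _ _ _
  have hWk : ∀ k ∈ Finset.Icc (-(K : ℤ)) K, MW w K k ≤ W := fun k hk =>
    Finset.single_le_sum (f := fun k => MW w K k) (fun _ _ => MW_nonneg _ _ _) hk
  refine ⟨W + |C1| * (W + C3) + 1, by positivity, ?_⟩
  intro F f0 b0 a q ε δ A hq0 hq1 hε hdf ha hA hd hb0 hp1 hK0 hKj hC k hk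
  have hδ : 0 ≤ δ := by
    obtain ⟨D, _, h⟩ := hd 0 ⟨le_rfl, zero_le_one⟩ 0 ⟨le_rfl, zero_le_one⟩
    exact (norm_nonneg _).trans h
  have h0m : (0 : ℂ) ∈ seg 0 := ⟨0, ⟨le_rfl, zero_le_one⟩, by simp⟩
  have hA0 : 0 ≤ A := (norm_nonneg _).trans (hA 0 h0m 0 (by simp))
  set η : ℝ := ε + δ + q ^ 2 * A with hη
  have hη0 : 0 ≤ η := by positivity
  have hεη : ε ≤ η := by
    rw [hη]
    nlinarith [mul_nonneg (sq_nonneg q) hA0]
  have hIt : ∀ t ∈ Icc (0 : ℝ) 1, I * (t : ℂ) ∈ Bx R := by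
    intro t ht
    refine ⟨by simpa using hR, ?_⟩
    simp only [mul_im, I_re, ofReal_im, mul_zero, I_im, ofReal_re, one_mul, zero_add]
    rw [abs_of_nonneg ht.1]
    linarith [ht.2]
  have hcoef := hC3 (fun z x => F 0 (List.replicate n x) z) 0 a q ε δ A (by simp) hq0 hq1 hε hdf ha hA
    (fun s hs t ht => by simpa only [zero_add] using hd s hs t ht)
  simp only [zero_add, mul_zero, exp_zero] at hcoef
  have hn' : 1 ≤ n * Kx := hn
  -- the step
  have hWε : MW w K k * ε ≤ (W + C3) * η := by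
    calc MW w K k * ε ≤ W * η := mul_le_mul (hWk k hk) hεη hε hW0
      _ ≤ (W + C3) * η := by nlinarith
  have key := hC1 ((W + C3) * η) (fun j v => Mo w K k (F j v)) (pG w α β q k (n * Kx) (a 0 k))
    (by positivity) (pG_deg w α β q k hn' _)
    (fun u v huv hu hv => (Kt_Mo (g := fun x => F 0 (u ++ x :: v))
      (fun t ht => hK0 t ht u v huv hu hv)).mono hWε)
    (fun j hj v hv hvA => (Kt_Mo (g := fun x => F j (x :: v))
      (fun t ht => hKj t ht j hj v hv hvA)).mono hWε)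
    (fun j hj v hv hvA => Mo_congr fun t ht => hC t ht j hj v hv hvA)
    (fun x hx => by
      have ex : x = I * (x.im : ℂ) := by
        apply Complex.ext <;> simp [hx.1]
      have hs : x.im ∈ Icc (0 : ℝ) 1 := ⟨hx.2.1, hx.2.2⟩
      have hxs : x ∈ seg 0 := ⟨x.im, hs, by rw [zero_add]; exact ex⟩
      have e1 := hcoef x.im hs k hk
      rw [← ex] at e1
      have hey : exp (I * w * x) = ez w x := rfl
      rw [hey] at e1
      rw [pG_eval w α β q k hn' _ (ez_ne w x)]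
      have e2 : ‖Mo w K k (fun z => F 0 (List.replicate n x) z - EL w K (a x) z)‖ ≤ MW w K k * ε :=
        Mo_le fun t ht => ha x hxs _ (hIt t ht)
      rw [Mo_sub, Mo_EL hw.ne' hk] at e2
      have e3 : Mo w K k (F 0 (List.replicate n x)) -
          (a 0 k + q * (Lk w α β 1 (ez w x) k * a 0 k)) =
          (Mo w K k (fun z => F 0 (List.replicate n x) z) - a x k) +
            (a x k - (a 0 k + q * (Lk w α β 1 (ez w x) k * a 0 k))) := by ring
      rw [e3]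
      refine (norm_add_le _ _).trans ((add_le_add e2 e1).trans ?_)
      have : MW w K k * ε ≤ W * η := mul_le_mul (hWk k hk) hεη hε hW0
      linarith)
  rw [pG_eval w α β q k hn' _ (ez_ne w _), ez_L hL, Lk_neg] at key
  have e4 : ‖Mo w K k (fun z => f0 z - EL w K b0 z)‖ ≤ MW w K k * ε := Mo_le hb0
  rw [Mo_sub, Mo_EL hw.ne' hk] at e4
  have e5 : Mo w K k (F n []) = Mo w K k (fun z => f0 z) := Mo_congr hp1
  rw [e5] at key
  have e6 : b0 k - a 0 k * (1 + 4 * q * α * w * (k : ℂ) ^ 2) =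
      -(Mo w K k (fun z => f0 z) - b0 k) +
        (Mo w K k (fun z => f0 z) - (a 0 k + q * (4 * α * w * (k : ℂ) ^ 2 * a 0 k))) := by ring
  rw [e6]
  refine (norm_add_le _ _).trans ?_
  rw [norm_neg]
  have e7 : MW w K k * ε ≤ W * η := mul_le_mul (hWk k hk) hεη hε hW0
  have e8 : C1 * ((W + C3) * η) ≤ |C1| * ((W + C3) * η) :=
    mul_le_mul_of_nonneg_right (le_abs_self C1) (by positivity)
  have e9 : (W + |C1| * (W + C3) + 1) * η = W * η + |C1| * ((W + C3) * η) + η := by ring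
  rw [e9]
  linarith

end Pool.Agent.PLX

end
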