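import Pool.Agent.PLX.Rg1
import Pool.Agent.PLX.PinQ

/-!
# PLAX, exact layer: prefactors and base families, groups of sizes `(m, M)` (the layer of PB.Reg2)

* `RU.Ok.PB_KF_A` (rate `-1 + (M - m)`), `PB_KF'_A` (`-1 - (M - m)`), `PB_KP_B` (`-1 - 2 β - (M - m)`), `PB_KP'_B`;
* `RU.I0_pre` .. : the eleven integrands in the form of the classes; `RU.Ok.UD_rows` : uniform data;
* `RU.Ok.fmD` : the base families of the final stage, charge `Q = m - M`.
-/

set_option autoImplicit false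
set_option linter.unusedSectionVars false
set_option linter.unusedVariables false

noncomputable section

open Complex MeasureTheory

namespace Pool.Agent.PLX

open NUP1 NUP1S NUP1.Bd NURow PBX
open NUP1.N (Z3 Gr0 GXs GYs ZP ZP' ZPP prc pr1 rA rB I0 IP IP' IPP ID ID' OnL)
open NUP1.Leg (hE hr thE cc Ck Dk)

section one

variable {m M : ℕ} {x : Fin m → ℂ} {y : Fin M → ℂ} {p q : ℂ}

theorem measurable_pr1U (p q : ℂ) (x : Fin m → ℂ) (y : Fin M → ℂ) : Measurable (pr1 p q x y) := by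
  have h1 := measurable_rA x
  have h2 := measurable_rB y
  unfold NUP1.N.pr1 NUP1.N.prc Leg.kap
  fun_prop

theorem gr_pr1U (α β : ℝ) (p q : ℂ) (x : Fin m → ℂ) (y : Fin M → ℂ) :
    Gr α β (-1 + ((M : ℝ) - m)) (pr1 p q x y) := by
  have a1 := Gr.inv_sin (α := α) (β := β) p
  have a2 := Gr.inv_sin (α := α) (β := β) (p + 2 * l)
  have a3 := Gr.sin (α := α) (β := β) (q - 3 * l)
  have a4 : Gr α β (m * (-1 : ℝ)) (rA x) := Gr.prodc _ _ fun i => by
    simpa only [one_div] using Gr.inv_sin (α := α) (β := β) (x i)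
  have a5 : Gr α β (M * (1 : ℝ)) (rB y) := Gr.prodc _ _ fun i => by
    have := Gr.sin (α := α) (β := β) (y i - 3 * l)
    refine this.congr 0 fun z _ _ _ => ?_
    rw [show z - (y i - 3 * l) = z - y i + 3 * l by ring]
  have a6 := ((((a1.mul a2).mul (Gr.const (sin (2 * l)))).mul a3).mul a4).mul a5
  refine (a6.mono (κ' := -1 + ((M : ℝ) - m)) (le_of_eq (by ring))).congr 0 fun z _ _ _ => ?_
  unfold NUP1.N.pr1 NUP1.N.prc Leg.kap
  rw [show z - (p + 2 * l) = z - p - 2 * l by ring,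
    show z - (q - 3 * l) = z - q + 3 * l by ring, div_eq_mul_inv, mul_inv]
  ring

/-- real parts without poles of the prefactor -/
theorem diffAt_pr1U {w : ℂ} (h1 : sin (w - p) ≠ 0) (h2 : sin (w - p - 2 * l) ≠ 0)
    (h3 : ∀ i, sin (w - x i) ≠ 0) : DifferentiableAt ℂ (pr1 p q x y) w := by
  have d1 : DifferentiableAt ℂ (rA x) w := by
    unfold NUP1.N.rA
    refine DifferentiableAt.fun_finsetProd fun i _ => ?_
    have := h3 i
    fun_prop (disch := exact this)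
  have d2 : DifferentiableAt ℂ (rB y) w := by
    unfold NUP1.N.rB
    refine DifferentiableAt.fun_finsetProd fun i _ => ?_
    fun_prop
  have d3 : DifferentiableAt ℂ (fun w => Leg.kap (w - p)) w := by
    unfold Leg.kap
    have := mul_ne_zero h1 h2
    fun_prop (disch := exact this)
  unfold NUP1.N.pr1 NUP1.N.prc
  exact ((d3.mul (by fun_prop)).mul d1).mul d2

theorem PB_pr1U {K : Set ℝ} (hK : IsCompact K) {a b : ℝ} (hs : ∀ r ∈ K, b ≤ r ∧ r ≤ a)
    (h1 : ∀ d ∈ K, Real.sin (d - p.re) ≠ 0) (h2 : ∀ d ∈ K, Real.sin (d - p.re - 2 * l) ≠ 0)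
    (h3 : ∀ d ∈ K, ∀ i, Real.sin (d - (x i).re) ≠ 0) : NURow.PB (-1 + ((M : ℝ) - m)) K (pr1 p q x y) := by
  refine PB_of_Gr hK hs (gr_pr1U a b p q x y) fun z hz => diffAt_pr1U ?_ ?_ fun i => ?_
  · exact Bd.sin_ne_zero_of_re (by rw [sub_re]; exact h1 _ hz)
  · refine Bd.sin_ne_zero_of_re ?_
    have e : (z - p - 2 * l).re = z.re - p.re - 2 * l := by simp
    rw [e]
    exact h2 _ hz
  · exact Bd.sin_ne_zero_of_re (by rw [sub_re]; exact h3 _ hz i)

/-- **between `31/50 l` and `5/4 l`** -/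
theorem PB_pr1U_A (hp : |p.re| ≤ l / 2) (hx : Rws x) :
    NURow.PB (-1 + ((M : ℝ) - m)) (Set.Icc (31 / 50 * l) (5 / 4 * l)) (pr1 p q x y) := by
  have hl := Bd.l_pos
  obtain ⟨a1, a2⟩ := abs_le.1 hp
  refine PB_pr1U isCompact_Icc (fun r hr => hr) (fun d hd => ?_) (fun d hd => ?_)
    fun d hd i => ?_
  · obtain ⟨h1, h2⟩ := hd
    exact sin_ne_pos (by (clear * - hl a2 h1; linarith)) (by (clear * - hl a1 h2; linarith))
  · obtain ⟨h1, h2⟩ := hd
    exact sin_ne_neg (by (clear * - hl a1 h2; linarith)) (by (clear * - hl a2 h1; linarith))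
  · obtain ⟨h1, h2⟩ := hd
    obtain ⟨b1, b2⟩ := abs_le.1 (hx i)
    exact sin_ne_pos (by (clear * - hl h1 b2; linarith)) (by (clear * - hl h2 b1; linarith))

/-- **on `-11/4 l`** -/
theorem PB_pr1U_B (hp : |p.re| ≤ l / 2) (hx : Rws x) :
    NURow.PB (-1 + ((M : ℝ) - m)) (Set.Icc (-(11 / 4) * l) (-(11 / 4) * l)) (pr1 p q x y) := by
  have hl := Bd.l_pos
  obtain ⟨a1, a2⟩ := abs_le.1 hp
  refine PB_pr1U isCompact_Icc (fun r hr => hr) (fun d hd => ?_) (fun d hd => ?_)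
    fun d hd i => ?_
  · obtain ⟨h1, h2⟩ := hd
    exact sin_ne_neg (by (clear * - hl a1 h2; linarith)) (by (clear * - hl a2 h1; linarith))
  · obtain ⟨h1, h2⟩ := hd
    exact sin_ne_neg (by (clear * - hl a1 h2; linarith)) (by (clear * - hl a2 h1; linarith))
  · obtain ⟨h1, h2⟩ := hd
    obtain ⟨b1, b2⟩ := abs_le.1 (hx i)
    exact sin_ne_neg (by (clear * - hl h2 b1; linarith)) (by (clear * - hl h1 b2; linarith))

end one

/-! ## one body function at a captured quantum -/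

section data

variable {m M : ℕ} {D : RU m M}

theorem RU.Ok.meas_X (H : D.Ok) (k : Option O3) : Measurable (D.X k) :=
  measurable_XXU H.gg.meas H.gg0.meas (measurable_thE _ _ _ _) (measurable_thS _ _ _ _) k

theorem RU.Ok.meas_Y (H : D.Ok) (k : Option O3) : Measurable (D.Y k) := H.sw.meas_X k

theorem RU.Ok.PB_X (H : D.Ok) :
    NURow.PB (-(2 * D.β) + 2 * ((M : ℝ) - m)) (Set.Icc (l / 4) (l / 4)) (D.X none) := by
  have hl := Bd.l_pos
  have h1 : NURow.PB (2 * ((M : ℝ) - m)) (Set.Icc (l / 4) (l / 4)) (RRU D.c D.x D.y) := by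
    refine PB_of_Gr isCompact_Icc (fun r hr => hr) (Gr_RRU D.c _ _ D.x D.y) fun z hz => ?_
    obtain ⟨h1, h2⟩ := hz
    unfold RRU
    refine (((differentiableAt_const _).mul ?_).mul ?_).mul ?_
    · refine DifferentiableAt.fun_finsetProd fun i _ => ?_
      have n : sin (z - D.x i) ≠ 0 := by
        obtain ⟨c1, c2⟩ := abs_le.1 (H.hx i)
        refine Bd.sin_ne_zero_of_re ?_
        rw [sub_re]
        rcases lt_or_gt_of_ne (H.nx i) with h3 | h3
        · exact sin_ne_pos (by (clear * - h1 h3; linarith)) (by (clear * - hl h2 c1; linarith))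
        · exact sin_ne_neg (by (clear * - h2 h3; linarith)) (by (clear * - hl h1 c2; linarith))
      fun_prop (disch := exact n)
    · refine DifferentiableAt.fun_finsetProd fun i _ => ?_
      have n : sin (z - D.x i - 2 * l) ≠ 0 := by
        obtain ⟨c1, c2⟩ := abs_le.1 (H.hx i)
        refine Bd.sin_ne_zero_of_re ?_
        have e : (z - D.x i - 2 * l).re = z.re - (D.x i).re - 2 * l := by simp
        rw [e]
        exact sin_ne_neg (by (clear * - hl h2 c1; linarith)) (by (clear * - hl h1 c2; linarith))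
      fun_prop (disch := exact n)
    · refine DifferentiableAt.fun_finsetProd fun i _ => ?_
      fun_prop
  have h2 : NURow.PB (-(2 * D.β)) (Set.Icc (l / 4) (l / 4)) (ph D.β D.x D.g) :=
    ⟨Bdd.mono_set (bdd_ph H.b0 H.b1 H.hx H.gg) fun r hr => by
      obtain ⟨h1, h2⟩ := hr
      constructor <;> (clear * - hl h1 h2; linarith),
      fun z hz => diffAt_ph H.b0 H.b1 H.hx H.gg (quarter_KK hz)⟩
  have h3 : NURow.PB 0 (Set.Icc (l / 4) (l / 4)) (thE D.p D.p D.q D.q) :=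
    PB_of_Gr isCompact_Icc (fun r hr => hr) (gr_thE _ _ _ _ _ _) fun z hz =>
      diffAt_thE H.hp H.hq (by linarith [hz.1]) (by linarith [hz.2])
  exact ((h1.mul h2).mul h3).rate (by ring)

theorem RU.Ok.PB_Y (H : D.Ok) :
    NURow.PB (-(2 * D.β) + 2 * ((m : ℝ) - M)) (Set.Icc (l / 4) (l / 4)) (D.Y none) :=
  H.sw.PB_X

/-! ## prefactors -/

theorem RU.measurable_KF (D : RU m M) : Measurable D.KF := measurable_pr1U _ _ _ _

theorem RU.measurable_KF' (D : RU m M) : Measurable D.KF' := measurable_pr1U _ _ _ _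

theorem RU.Ok.measurable_KP (H : D.Ok) : Measurable D.KP :=
  (D.measurable_KF.mul ((H.meas_Y none).comp (measurable_id.add_const (3 * l : ℂ)))).const_mul _

theorem RU.Ok.measurable_KP' (H : D.Ok) : Measurable D.KP' :=
  (D.measurable_KF'.mul ((H.meas_X none).comp (measurable_id.add_const (3 * l : ℂ)))).const_mul _

theorem RU.Ok.PB_KF_A (H : D.Ok) :
    NURow.PB (-1 + ((M : ℝ) - m)) (Set.Icc (31 / 50 * l) (5 / 4 * l)) D.KF := PB_pr1U_A H.hp H.hx

theorem RU.Ok.PB_KF'_A (H : D.Ok) :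
    NURow.PB (-1 + ((m : ℝ) - M)) (Set.Icc (31 / 50 * l) (5 / 4 * l)) D.KF' := PB_pr1U_A H.hq H.hy

theorem RU.Ok.PB_KF_B (H : D.Ok) :
    NURow.PB (-1 + ((M : ℝ) - m)) (Set.Icc (-(11 / 4) * l) (-(11 / 4) * l)) D.KF := PB_pr1U_B H.hp H.hx

theorem RU.Ok.PB_KF'_B (H : D.Ok) :
    NURow.PB (-1 + ((m : ℝ) - M)) (Set.Icc (-(11 / 4) * l) (-(11 / 4) * l)) D.KF' := PB_pr1U_B H.hq H.hy

theorem RU.Ok.PB_KP_B (H : D.Ok) :
    NURow.PB (-1 - 2 * D.β - ((M : ℝ) - m)) (Set.Icc (-(11 / 4) * l) (-(11 / 4) * l)) D.KP := by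
  have h1 := H.PB_Y.shift (K := Set.Icc (-(11 / 4) * l) (-(11 / 4) * l)) (3 * l)
    fun x hx => ⟨by (clear * - hx; linarith [hx.1]), by (clear * - hx; linarith [hx.2])⟩
  refine (((H.PB_KF_B.mul h1).cmul (sin l / sin (2 * l))).rate (by ring)).congr' fun z => ?_
  unfold RU.KP
  push_cast
  rfl

theorem RU.Ok.PB_KP'_B (H : D.Ok) :
    NURow.PB (-1 - 2 * D.β - ((m : ℝ) - M)) (Set.Icc (-(11 / 4) * l) (-(11 / 4) * l)) D.KP' := H.sw.PB_KP_B

theorem RU.measurable_XD (D : RU m M) : Measurable D.XD := measurable_XDg _ _ _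

theorem RU.measurable_XD' (D : RU m M) : Measurable D.XD' := measurable_XDg _ _ _

theorem RU.Ok.PB_XD_B (H : D.Ok) :
    NURow.PB (-2) (Set.Icc (-(11 / 4) * l) (-(11 / 4) * l)) D.XD := PB_XDg H.hp H.hq H.hy

theorem RU.Ok.PB_XD'_B (H : D.Ok) :
    NURow.PB (-2) (Set.Icc (-(11 / 4) * l) (-(11 / 4) * l)) D.XD' := PB_XDg H.hq H.hp H.hx

theorem RU.Ok.KP_eq (H : D.Ok) {w : ℂ} (hw : w.re = -(11 / 4) * l) :
    sin l / sin (2 * l) * (prc D.p D.q D.x w * D.hY (w + 3 * l)) = D.KP w := by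
  unfold RU.KP RU.KF NUP1.N.pr1
  rw [← Gr0_hY, ← cap_rows H.hy H.ny D.hY hw]
  ring

theorem RU.Ok.KP'_eq (H : D.Ok) {w : ℂ} (hw : w.re = -(11 / 4) * l) :
    sin l / sin (2 * l) * (prc D.q D.p D.y w * D.hX (w + 3 * l)) = D.KP' w := H.sw.KP_eq hw

/-! ## the integrands -/

variable {α β₀ : ℝ} {n n' : ℕ}

/-- **both alone** -/
theorem RU.I0_pre (D : RU m M) (w w' : ℂ) :
    I0 α β₀ D.p D.q D.x D.y D.hX D.hY n n' w w' = D.KF w * D.KF' w' * gFF (w - w') *
      Z3 α β₀ n n' (GXs D.hX D.x w w') (GYs D.hY D.y w w') := by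
  unfold NUP1.N.I0 gFF RU.KF RU.KF'
  ring

/-- **`w` with a captured quantum** -/
theorem RU.Ok.IP_pre (H : D.Ok) {w : ℂ} (hw : w.re = -(11 / 4) * l) (w' : ℂ) :
    IP α β₀ D.p D.q D.x D.y D.hX D.hY n n' w w' = D.KP w * D.KF' w' * gPF (w - w') *
      ZP α β₀ D.x D.y D.hX D.hY n n' w w' := by
  rw [← H.KP_eq hw]
  unfold NUP1.N.IP gPF RU.KF'
  rw [show w' - (w + 3 * l) = -(w - w') - 3 * l by ring]
  ring

/-- **`w'` with a captured quantum** -/
theorem RU.Ok.IP'_pre (H : D.Ok) (w : ℂ) {w' : ℂ} (hw' : w'.re = -(11 / 4) * l) :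
    IP' α β₀ D.p D.q D.x D.y D.hX D.hY n n' w w' = D.KF w * D.KP' w' * gFP (w - w') *
      ZP' α β₀ D.x D.y D.hX D.hY n n' w w' := by
  rw [← H.KP'_eq hw']
  unfold NUP1.N.IP' gFP RU.KF
  rw [show w - (w' + 3 * l) = w - w' - 3 * l by ring]
  ring

/-- **both with a captured quantum** -/
theorem RU.Ok.IPP_pre (H : D.Ok) {w w' : ℂ} (hw : w.re = -(11 / 4) * l)
    (hw' : w'.re = -(11 / 4) * l) :
    IPP α β₀ D.p D.q D.x D.y D.hX D.hY n n' w w' = D.KP w * D.KP' w' * gPP (w - w') *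
      ZPP α β₀ D.x D.y D.hX D.hY n n' w w' := by
  rw [← H.KP_eq hw, ← H.KP'_eq hw']
  unfold NUP1.N.IPP gPP
  rw [show w' - (w + 3 * l) = -(w - w') - 3 * l by ring,
    show w - (w' + 3 * l) = w - w' - 3 * l by ring]
  ring

/-- **captured pair `w = w' + 3 l`** -/
theorem RU.ID_pre (D : RU m M) (w' : ℂ) :
    ID α β₀ D.p D.q D.x D.y D.hX D.hY n n' w' = D.XD w' *
      Z3 α β₀ n n' (Gr0 D.hX D.x) (fun v => Gr0 D.hY D.y v * Tk (w' - v)) := rfl

/-- **captured pair `w' = w + 3 l`** -/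
theorem RU.ID'_pre (D : RU m M) (w : ℂ) :
    ID' α β₀ D.p D.q D.x D.y D.hX D.hY n n' w = D.XD' w *
      Z3 α β₀ n n' (fun u => Gr0 D.hX D.x u * Tk (w - u)) (Gr0 D.hY D.y) := rfl

/-! ## uniform data -/

/-- **the uniform data** -/
theorem RU.Ok.UD_rows (H : D.Ok) : ∃ C R : ℝ,
    Rg.UD (3 / 5 * l) (-(17 / 10) * l) (-(11 / 4) * l) C (2 * D.β) R D.p D.q D.x D.y D.hX D.hY := by
  obtain ⟨C, R, h⟩ := H.UD_pull
  refine ⟨C, R, ?_⟩
  have h0 := h 0 le_rfl zero_le_one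
  have e : D.pull 0 = D := by
    obtain ⟨c, c', β, x, y, p, q, g, g', g0, g0'⟩ := D
    unfold RU.pull PBX.pull
    simp
  have e1 : PBX.pull D.x 0 = D.x := by
    funext i
    simp [PBX.pull]
  have e2 : PBX.pull D.y 0 = D.y := by
    funext i
    simp [PBX.pull]
  rwa [e, e1, e2] at h0

/-! ## the base families of the final stage -/

theorem RU.Ok.PB_S (H : D.Ok) :
    NURow.PB (-(2 * (4 / 3)) + 4 * ((M : ℝ) - m)) (Set.Icc (-(11 / 8) * l) (-(5 / 4) * l)) (D.X (some .S)) := by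
  have hl := Bd.l_pos
  have hK : IsCompact (Set.Icc (-(11 / 8) * l) (-(5 / 4) * l)) := isCompact_Icc
  have h1 : NURow.PB (2 * ((M : ℝ) - m)) (Set.Icc (-(11 / 8) * l) (-(5 / 4) * l)) (RRU D.c D.x D.y) :=
    ⟨Bdd.mono_set (bdd_RRU D.c H.hx H.hy isCompact_K1 NPr_K1) fun r hr => P_K1 hr,
      fun z hz => diffAt_RRU D.c NPr_K1 H.hx (P_K1 hz)⟩
  have h2 : NURow.PB (2 * ((M : ℝ) - m)) (Set.Icc (-(11 / 8) * l) (-(5 / 4) * l))
      (fun w => RRU D.c D.x D.y (w - l)) := by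
    refine ⟨bdd_shift_l (bdd_RRU D.c H.hx H.hy (hK.image (by fun_prop)) NPr_P), fun z hz => ?_⟩
    refine (diffAt_RRU (y := D.y) D.c NPr_P H.hx (z := z - l) ?_).comp z
      (differentiableAt_id.sub_const _)
    exact ⟨z.re, hz, by simp [sub_eq_add_neg]⟩
  have h3 : NURow.PB (-(2 * (4 / 3))) (Set.Icc (-(11 / 8) * l) (-(5 / 4) * l))
      (ph (4 / 3) D.x D.g0) :=
    ⟨Bdd.mono_set (bdd_ph (by norm_num) le_rfl H.hx H.gg0) fun r hr => K1_KK (P_K1 hr),
      fun z hz => diffAt_ph (by norm_num) le_rfl H.hx H.gg0 (K1_KK (P_K1 hz))⟩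
  have h4 : NURow.PB 0 (Set.Icc (-(11 / 8) * l) (-(5 / 4) * l)) (thE D.p D.p D.q D.q) :=
    PB_of_Gr hK (fun r hr => hr) (gr_thE _ _ _ _ _ _) fun z hz =>
      diffAt_thE H.hp H.hq (by (clear * - hl hz; linarith [hz.1])) (by (clear * - hl hz; linarith [hz.2]))
  have h5 : NURow.PB 0 (Set.Icc (-(11 / 8) * l) (-(5 / 4) * l))
      (fun w => thE D.p D.p D.q D.q (w - l)) := by
    refine ⟨bdd_shift_l (Bdd_of_Gr (hK.image (by fun_prop)) (α := 0) (β := -(3 * l)) ?_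
      (gr_thE _ _ _ _ _ _) ?_), fun z hz => ?_⟩
    · rintro _ ⟨r, ⟨h1, h2⟩, rfl⟩
      constructor <;> (clear * - hl h1 h2; linarith)
    · rintro z ⟨r, ⟨h1, h2⟩, hr⟩
      exact (diffAt_thE H.hp H.hq (by linarith) (by linarith)).continuousAt
    · have e : (z - (l : ℂ)).re = z.re - l := by simp
      exact (diffAt_thE (u := z - l) H.hp H.hq (by rw [e]; linarith [hz.1])
        (by rw [e]; linarith [hz.2])).comp z (differentiableAt_id.sub_const _)
  exact (((h1.mul h2).mul h3).mul (h4.mul h5)).rate (by ring)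

theorem RU.Ok.spec1 (H : D.Ok) (b : Bool) :
    SpecQ b 0 (thE D.p D.p D.q D.q) (thS D.p D.p D.q D.q) := thE_SpecQ b H.hp H.hq

/-- **One species**, charge `q' = M - m` of the other rows -/
theorem RU.Ok.fam1 (H : D.Ok) {κ : ℝ} (hκ : κ ≤ 2 * D.β) (k : Option O3) :
    Measurable (D.X k) ∧ DecOn (κ - 2 * ((M : ℝ) - m) * chg (ob4 k)) (Set.Icc (loP k) (hiP k)) (D.X k) ∧
    (loP k < hiP k → ContinuousOn (D.X k) (CS (loP k) (hiP k)) ∧
      DifferentiableOn ℂ (D.X k) (OS (loP k) (hiP k))) := by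
  have hl := Bd.l_pos
  have h := H.spec1 true
  have hb := H.b1
  have hQ : (-((M : ℝ) - m)) * sc (true, .A) = 0 * sc (true, .A) - ((M : ℝ) - m) := by
    simp [sc, chg]
  have cS : ((chg Ob.S : ℕ) : ℝ) = 2 := by norm_num [chg]
  have cA : ((chg Ob.A : ℕ) : ℝ) = 1 := by norm_num [chg]
  have cL : ((chg Ob.L : ℕ) : ℝ) = 1 := by norm_num [chg]
  have cT : ((chg (ob3 .T) : ℕ) : ℝ) = 2 := by norm_num [chg, ob3]
  have sA : sc (true, .A) = 1 := by simp [sc, chg]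
  refine ⟨H.meas_X k, ?_, ?_⟩
  · rcases k with _ | (_ | _ | _)
    · refine DecOn_of (Bdd.mono_set (bdd_GXU (c := D.c) H.b0 H.b1 H.hx H.hy H.gg h hQ) ?_) ?_
      · rintro x ⟨h1, h2⟩
        have h1 : 3 / 5 * l ≤ x := h1
        have h2 : x ≤ 3 / 5 * l := h2
        exact Or.inl ⟨h1, by (clear * - hl h2; linarith)⟩
      · rw [sA]
        simp only [ob4, Option.elim]
        rw [cA]
        clear * - hκ
        linarith
    · refine DecOn_of (Bdd.mono_set (bdd_GXU (c := D.c) H.b0 H.b1 H.hx H.hy H.gg h hQ) ?_) ?_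
      · rintro x ⟨h1, h2⟩
        have h1 : -(5 / 4) * l ≤ x := h1
        have h2 : x ≤ -(5 / 4) * l := h2
        exact Or.inr ⟨by (clear * - hl h1; linarith), by (clear * - h2; linarith)⟩
      · rw [sA]
        simp only [ob4, ob3, Option.elim]
        rw [cL]
        linarith
    · refine DecOn_of H.PB_S.1 ?_
      simp only [ob4, ob3, Option.elim]
      rw [cS]
      clear * - hκ hb
      linarith
    · refine DecOn_of (Bdd.mono_set
        ((bdd_TTU D.c H.b0 H.b1 le_rfl H.hx H.hy H.gg H.gg0).mul h.b2) ?_) ?_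
      · rintro x ⟨h1, h2⟩
        have h1 : -(1 / 2) * l ≤ x := h1
        have h2 : x ≤ -(1 / 2) * l := h2
        exact ⟨by (clear * - hl h1; linarith), by linarith⟩
      · simp only [ob4, Option.elim]
        rw [cT]
        linarith
  · intro hlt
    rcases k with _ | (_ | _ | _)
    · exact absurd hlt (lt_irrefl _)
    · exact absurd hlt (lt_irrefl _)
    · refine ⟨fun z hz => (H.PB_S.2 z ⟨hz.1, hz.2⟩).continuousAt.continuousWithinAt,
        fun z hz => (H.PB_S.2 z ⟨hz.1.le, hz.2.le⟩).differentiableWithinAt⟩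
    · exact absurd hlt (lt_irrefl _)

/-- **The base families of the final stage**, charge `Q = m - M`. -/
theorem RU.Ok.fmD (H : D.Ok) {κ : ℝ} (hκ : κ ≤ 2 * D.β) : FmD loP hiP κ ((m : ℝ) - M) (XB D.X D.Y) where
  meas c k := by
    cases c
    · exact (H.sw.fam1 (κ := κ) hκ k).1
    · exact (H.fam1 hκ k).1
  dec c k := by
    cases c
    · have := (H.sw.fam1 (κ := κ) hκ k).2.1
      rw [show κ + 2 * ((m : ℝ) - M) * sc4 false k = κ - 2 * ((m : ℝ) - M) * chg (ob4 k) by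
        simp only [sc4, sc]; push_cast; ring]
      exact this
    · have := (H.fam1 hκ k).2.1
      rw [show κ + 2 * ((m : ℝ) - M) * sc4 true k = κ - 2 * ((M : ℝ) - m) * chg (ob4 k) by
        simp only [sc4, sc]; push_cast; ring]
      exact this
  cont c k h := by
    cases c
    · exact ((H.sw.fam1 (κ := κ) hκ k).2.2 h).1
    · exact ((H.fam1 (κ := κ) hκ k).2.2 h).1
  diff c k h := by
    cases c
    · exact ((H.sw.fam1 (κ := κ) hκ k).2.2 h).2
    · exact ((H.fam1 (κ := κ) hκ k).2.2 h).2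

end data

end Pool.Agent.PLX

end
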