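import Pool.Agent.NUP1L.FinalG
import Pool.Agent.NUP1L.RowC

/-!
# PLAX, exact layer: the eleven integrands for groups of sizes `(m, M)` (the layer of NUP1L.FinalC, FinalD)

Rows `x : Fin m → ℂ`, `y : Fin M → ℂ`, quanta `n`, `n'` with `n + M = n' + m`.
-/

set_option autoImplicit false
set_option linter.unusedSectionVars false
set_option linter.unusedVariables false

noncomputable section

open Complex MeasureTheory Filter Topology

namespace Pool.Agent.PLX.Rg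

open NUP1 NUP1.N
open NUP1.Bd (Ob chg wt pw pt oneL Dec cwo Hc Ql qg measurable_Hc measurable_Ql rl)
open NUP1.Leg (Ck Dk kap)

variable {α β A B : ℝ}

/-- uniform data of one family of rows and ends: everything in a box, `h` decays on the lines; `κ = 2 b` for the
cutoff of exponent `b` -/
structure UD (α β B : ℝ) (D κ R : ℝ) {m M : ℕ} (p q : ℂ) (x : Fin m → ℂ) (y : Fin M → ℂ) (hX hY : ℂ → ℂ) :
    Prop where
  bp : Bx R p
  bq : Bx R q
  bx : ∀ i, Bx R (x i)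
  bY : ∀ i, Bx R (y i)
  mX : Measurable hX
  mY : Measurable hY
  hX : ∀ z : ℂ, (OnL α β z.re ∨ z.re = B + 3 * l) → ‖hX z‖ ≤ D * Real.exp (-((κ + m - 2 * M) * |z.im|))
  hY : ∀ z : ℂ, (OnL α β z.re ∨ z.re = B + 3 * l) → ‖hY z‖ ≤ D * Real.exp (-((κ + M - 2 * m) * |z.im|))

theorem UD.symm {D κ R : ℝ} {m M : ℕ} {p q : ℂ} {x : Fin m → ℂ} {y : Fin M → ℂ} {hX hY : ℂ → ℂ}
    (U : UD α β B D κ R p q x y hX hY) : UD α β B D κ R q p y x hY hX :=
  ⟨U.bq, U.bp, U.bY, U.bx, U.mY, U.mX, U.hY, U.hX⟩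

theorem UD.D0 {D κ R : ℝ} {m M : ℕ} {p q : ℂ} {x : Fin m → ℂ} {y : Fin M → ℂ} {hX hY : ℂ → ℂ}
    (U : UD α β B D κ R p q x y hX hY) : 0 ≤ D := by
  have := (norm_nonneg _).trans (U.hX (α : ℂ) (Or.inl (Or.inl (ofReal_re _))))
  simpa using this

/-- the one body function with rows on the three lines -/
theorem Gr0_box (L : Ln α β A B) (D κ R : ℝ) (m M : ℕ) : ∃ C : ℝ, 0 ≤ C ∧
    ∀ (p q : ℂ) (x : Fin m → ℂ) (y : Fin M → ℂ) (hX hY : ℂ → ℂ), UD α β B D κ R p q x y hX hY →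
      ∀ z : ℂ, OnL α β z.re → ‖Gr0 hX x z‖ ≤ C * Real.exp (-((κ - 2 * ((M : ℝ) - m)) * |z.im|)) := by
  obtain ⟨a, ha, h1⟩ := rA_box (m := m) (Far_al L) R
  obtain ⟨b, hb, h2⟩ := rA_box (m := m) (Far_be L) R
  obtain ⟨c, hc, h3⟩ := rA_box (m := m) (Far_bl L) R
  by_cases hD : 0 ≤ D
  · refine ⟨D * (a + b + c), by positivity, fun p q x y hX hY U z hz => ?_⟩
    have g1 := U.hX z (Or.inl hz)
    have g2 : ‖rA x z‖ ≤ (a + b + c) * Real.exp (-(m * |z.im|)) := by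
      rcases hz with hz | hz | hz
      · exact (h1 x U.bx z hz).trans
          (mul_le_mul_of_nonneg_right (by linarith) (Real.exp_pos _).le)
      · exact (h2 x U.bx z hz).trans
          (mul_le_mul_of_nonneg_right (by linarith) (Real.exp_pos _).le)
      · exact (h3 x U.bx z hz).trans
          (mul_le_mul_of_nonneg_right (by linarith) (Real.exp_pos _).le)
    have e : Gr0 hX x z = hX z * rA x z := rfl
    rw [e, norm_mul]
    calc _ ≤ (D * Real.exp (-((κ + m - 2 * M) * |z.im|))) * ((a + b + c) * Real.exp (-(m * |z.im|))) := by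
          gcongr
      _ = _ := by
          rw [show -((κ - 2 * ((M : ℝ) - m)) * |z.im|) = -((κ + m - 2 * M) * |z.im|) + -(m * |z.im|) by ring,
            Real.exp_add]
          ring
  · exact ⟨0, le_rfl, fun p q x y hX hY U => absurd U.D0 hD⟩

section meas
variable {m M : ℕ} {x : Fin m → ℂ} {y : Fin M → ℂ} {hX hY : ℂ → ℂ} (mX : Measurable hX) (mY : Measurable hY)
  (p q : ℂ) (n n' : ℕ)
include mX mY

theorem m_I0 : Measurable (Function.uncurry (I0 α β p q x y hX hY n n')) := by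
  have a1 : Measurable fun s : ℂ × ℂ => Dk (s.1 - s.2) := m_Dk.comp (by fun_prop)
  have a2 : Measurable fun s : ℂ × ℂ => pr1 p q x y s.1 := (m_pr1 p q x y).comp measurable_fst
  have a3 : Measurable fun s : ℂ × ℂ => pr1 q p y x s.2 := (m_pr1 q p y x).comp measurable_snd
  have gX : Measurable (Function.uncurry fun (s : ℂ × ℂ) (u : ℂ) => GXs hX x s.1 s.2 u) := by
    have b1 : Measurable fun r : (ℂ × ℂ) × ℂ => Gr0 hX x r.2 := (Gr0_meas mX x).comp measurable_snd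
    have b2 : Measurable fun r : (ℂ × ℂ) × ℂ => Ck (r.1.1 - r.2) := m_Ck.comp (by fun_prop)
    have b3 : Measurable fun r : (ℂ × ℂ) × ℂ => Dk (r.1.2 - r.2) := m_Dk.comp (by fun_prop)
    exact b1.mul (b2.mul b3)
  have gY : Measurable (Function.uncurry fun (s : ℂ × ℂ) (u : ℂ) => GYs hY y s.1 s.2 u) := by
    have b1 : Measurable fun r : (ℂ × ℂ) × ℂ => Gr0 hY y r.2 := (Gr0_meas mY y).comp measurable_snd
    have b2 : Measurable fun r : (ℂ × ℂ) × ℂ => Dk (r.1.1 - r.2) := m_Dk.comp (by fun_prop)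
    have b3 : Measurable fun r : (ℂ × ℂ) × ℂ => Ck (r.1.2 - r.2) := m_Ck.comp (by fun_prop)
    exact b1.mul (b2.mul b3)
  exact (a1.mul (a2.mul a3)).mul (Z3_meas α β n n' gX gY)

theorem m_ZP : Measurable (Function.uncurry (ZP α β x y hX hY n n')) := by
  have e : Function.uncurry (ZP α β x y hX hY n n') = fun s : ℂ × ℂ =>
      ZP α β x y hX hY n n' s.1 s.2 := rfl
  rw [e]
  unfold ZP
  split_ifs
  · refine Z3_meas (S := ℂ × ℂ) α β n (n' - 1) ?_ ?_
    · have b1 : Measurable fun r : (ℂ × ℂ) × ℂ => Gr0 hX x r.2 :=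
        (Gr0_meas mX x).comp measurable_snd
      have b2 : Measurable fun r : (ℂ × ℂ) × ℂ => Ck (r.1.1 - r.2) := m_Ck.comp (by fun_prop)
      have b3 : Measurable fun r : (ℂ × ℂ) × ℂ => Dk (r.1.2 - r.2) := m_Dk.comp (by fun_prop)
      have b4 : Measurable fun r : (ℂ × ℂ) × ℂ => qg (r.2 - (r.1.1 + 3 * l)) :=
        m_qg.comp (by fun_prop)
      exact (b1.mul (b2.mul b3)).mul b4
    · have b1 : Measurable fun r : (ℂ × ℂ) × ℂ => Gr0 hY y r.2 :=
        (Gr0_meas mY y).comp measurable_snd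
      have b2 : Measurable fun r : (ℂ × ℂ) × ℂ => Ck (r.1.2 - r.2) := m_Ck.comp (by fun_prop)
      have b3 : Measurable fun r : (ℂ × ℂ) × ℂ => Ck (r.2 - (r.1.1 + 3 * l)) :=
        m_Ck.comp (by fun_prop)
      exact (b1.mul b2).mul b3
  · exact measurable_const

theorem m_ZP' : Measurable (Function.uncurry (ZP' α β x y hX hY n n')) := by
  have e : Function.uncurry (ZP' α β x y hX hY n n') = fun s : ℂ × ℂ =>
      ZP' α β x y hX hY n n' s.1 s.2 := rfl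
  rw [e]
  unfold ZP'
  split_ifs
  · refine Z3_meas (S := ℂ × ℂ) α β (n - 1) n' ?_ ?_
    · have b1 : Measurable fun r : (ℂ × ℂ) × ℂ => Gr0 hX x r.2 :=
        (Gr0_meas mX x).comp measurable_snd
      have b2 : Measurable fun r : (ℂ × ℂ) × ℂ => Ck (r.1.1 - r.2) := m_Ck.comp (by fun_prop)
      have b3 : Measurable fun r : (ℂ × ℂ) × ℂ => Ck (r.2 - (r.1.2 + 3 * l)) :=
        m_Ck.comp (by fun_prop)
      exact (b1.mul b2).mul b3
    · have b1 : Measurable fun r : (ℂ × ℂ) × ℂ => Gr0 hY y r.2 :=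
        (Gr0_meas mY y).comp measurable_snd
      have b2 : Measurable fun r : (ℂ × ℂ) × ℂ => Dk (r.1.1 - r.2) := m_Dk.comp (by fun_prop)
      have b3 : Measurable fun r : (ℂ × ℂ) × ℂ => Ck (r.1.2 - r.2) := m_Ck.comp (by fun_prop)
      have b4 : Measurable fun r : (ℂ × ℂ) × ℂ => qg (r.2 - (r.1.2 + 3 * l)) :=
        m_qg.comp (by fun_prop)
      exact (b1.mul (b2.mul b3)).mul b4
  · exact measurable_const

theorem m_ZPP : Measurable (Function.uncurry (ZPP α β x y hX hY n n')) := by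
  have e : Function.uncurry (ZPP α β x y hX hY n n') = fun s : ℂ × ℂ =>
      ZPP α β x y hX hY n n' s.1 s.2 := rfl
  rw [e]
  unfold ZPP
  split_ifs
  · refine Z3_meas (S := ℂ × ℂ) α β (n - 1) (n' - 1) ?_ ?_
    · have b1 : Measurable fun r : (ℂ × ℂ) × ℂ => Gr0 hX x r.2 :=
        (Gr0_meas mX x).comp measurable_snd
      have b2 : Measurable fun r : (ℂ × ℂ) × ℂ => Ck (r.1.1 - r.2) := m_Ck.comp (by fun_prop)
      have b3 : Measurable fun r : (ℂ × ℂ) × ℂ => Ck (r.2 - (r.1.2 + 3 * l)) :=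
        m_Ck.comp (by fun_prop)
      have b4 : Measurable fun r : (ℂ × ℂ) × ℂ => qg (r.2 - (r.1.1 + 3 * l)) :=
        m_qg.comp (by fun_prop)
      exact ((b1.mul b2).mul b4).mul b3
    · have b1 : Measurable fun r : (ℂ × ℂ) × ℂ => Gr0 hY y r.2 :=
        (Gr0_meas mY y).comp measurable_snd
      have b2 : Measurable fun r : (ℂ × ℂ) × ℂ => Ck (r.1.2 - r.2) := m_Ck.comp (by fun_prop)
      have b3 : Measurable fun r : (ℂ × ℂ) × ℂ => Ck (r.2 - (r.1.1 + 3 * l)) :=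
        m_Ck.comp (by fun_prop)
      have b4 : Measurable fun r : (ℂ × ℂ) × ℂ => qg (r.2 - (r.1.2 + 3 * l)) :=
        m_qg.comp (by fun_prop)
      exact ((b1.mul b2).mul b3).mul b4
  · exact measurable_const

theorem m_IP : Measurable (Function.uncurry (IP α β p q x y hX hY n n')) := by
  have a1 : Measurable fun s : ℂ × ℂ => Dk (s.1 - s.2) := m_Dk.comp (by fun_prop)
  have a2 : Measurable fun s : ℂ × ℂ => Ck (s.2 - (s.1 + 3 * l)) := m_Ck.comp (by fun_prop)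
  have a3 : Measurable fun s : ℂ × ℂ => prc p q x s.1 := (m_prc p q x).comp measurable_fst
  have a4 : Measurable fun s : ℂ × ℂ => hY (s.1 + 3 * l) := mY.comp (by fun_prop)
  have a5 : Measurable fun s : ℂ × ℂ => pr1 q p y x s.2 := (m_pr1 q p y x).comp measurable_snd
  exact (measurable_const.mul ((a1.mul a2).mul ((a3.mul a4).mul a5))).mul (m_ZP mX mY n n')

theorem m_IP' : Measurable (Function.uncurry (IP' α β p q x y hX hY n n')) := by
  have a1 : Measurable fun s : ℂ × ℂ => Dk (s.1 - s.2) := m_Dk.comp (by fun_prop)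
  have a2 : Measurable fun s : ℂ × ℂ => Ck (s.1 - (s.2 + 3 * l)) := m_Ck.comp (by fun_prop)
  have a3 : Measurable fun s : ℂ × ℂ => prc q p y s.2 := (m_prc q p y).comp measurable_snd
  have a4 : Measurable fun s : ℂ × ℂ => hX (s.2 + 3 * l) := mX.comp (by fun_prop)
  have a5 : Measurable fun s : ℂ × ℂ => pr1 p q x y s.1 := (m_pr1 p q x y).comp measurable_fst
  exact (measurable_const.mul ((a1.mul a2).mul (a5.mul (a3.mul a4)))).mul (m_ZP' mX mY n n')

theorem m_IPP : Measurable (Function.uncurry (IPP α β p q x y hX hY n n')) := by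
  have a1 : Measurable fun s : ℂ × ℂ => Dk (s.1 - s.2) := m_Dk.comp (by fun_prop)
  have a2 : Measurable fun s : ℂ × ℂ => Ck (s.2 - (s.1 + 3 * l)) := m_Ck.comp (by fun_prop)
  have a2' : Measurable fun s : ℂ × ℂ => Ck (s.1 - (s.2 + 3 * l)) := m_Ck.comp (by fun_prop)
  have a3 : Measurable fun s : ℂ × ℂ => prc p q x s.1 := (m_prc p q x).comp measurable_fst
  have a4 : Measurable fun s : ℂ × ℂ => hY (s.1 + 3 * l) := mY.comp (by fun_prop)
  have a3' : Measurable fun s : ℂ × ℂ => prc q p y s.2 := (m_prc q p y).comp measurable_snd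
  have a4' : Measurable fun s : ℂ × ℂ => hX (s.2 + 3 * l) := mX.comp (by fun_prop)
  have a6 : Measurable fun s : ℂ × ℂ => qg (s.1 - s.2) := m_qg.comp (by fun_prop)
  exact (measurable_const.mul ((((a1.mul a2).mul a2').mul a6).mul
    ((a3.mul a4).mul (a3'.mul a4')))).mul (m_ZPP mX mY n n')

theorem m_ID : Measurable (ID α β p q x y hX hY n n') := by
  refine (m_XD p q y).mul ?_
  refine Z3_meas (S := ℂ) α β n n' (GX := fun _ => Gr0 hX x)
    (GY := fun w' v => Gr0 hY y v * Tk (w' - v)) ?_ ?_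
  · exact (Gr0_meas mX x).comp measurable_snd
  · have b1 : Measurable fun r : ℂ × ℂ => Gr0 hY y r.2 := (Gr0_meas mY y).comp measurable_snd
    have b2 : Measurable fun r : ℂ × ℂ => Tk (r.1 - r.2) := m_Tk.comp (by fun_prop)
    exact b1.mul b2

theorem m_ID' : Measurable (ID' α β p q x y hX hY n n') := by
  refine (m_XD q p x).mul ?_
  refine Z3_meas (S := ℂ) α β n n' (GX := fun w u => Gr0 hX x u * Tk (w - u))
    (GY := fun _ => Gr0 hY y) ?_ ?_
  · have b1 : Measurable fun r : ℂ × ℂ => Gr0 hX x r.2 := (Gr0_meas mX x).comp measurable_snd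
    have b2 : Measurable fun r : ℂ × ℂ => Tk (r.1 - r.2) := m_Tk.comp (by fun_prop)
    exact b1.mul b2
  · exact (Gr0_meas mY y).comp measurable_snd

end meas

section zb
variable {m M : ℕ}

theorem num_eq {n n' m M : ℕ} (hn : n + M = n' + m) : (n' : ℝ) - n = (M : ℝ) - m := by
  have : ((n + M : ℕ) : ℝ) = ((n' + m : ℕ) : ℝ) := by rw [hn]
  push_cast at this
  linarith

/-- bound without captured quanta -/
theorem b_Z0 (L : Ln α β A B) (D κ R : ℝ) {n n' : ℕ} (hn : n + M = n' + m) (hK : 2 < κ) {σ τ : ℝ}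
    (hσ : LnAB A B σ) (hτ : LnAB A B τ) : ∃ C : ℝ, 0 ≤ C ∧
    ∀ (p q : ℂ) (x : Fin m → ℂ) (y : Fin M → ℂ) (hX hY : ℂ → ℂ), UD α β B D κ R p q x y hX hY →
      ∀ w w' : ℂ, w.re = σ → w'.re = τ →
      ‖Z3 α β n n' (GXs hX x w w') (GYs hY y w w')‖ ≤
        C * Real.exp (((M : ℝ) - m) * (|w'.im| - |w.im|)) := by
  have hl := lpos
  have w1 := L.w.lo
  have w2 := L.w.hi
  have hd := num_eq hn
  obtain ⟨G, hG, bG⟩ := Gr0_box L D κ R m M
  obtain ⟨G', hG', bG'⟩ := Gr0_box L D κ R M m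
  obtain ⟨c1, p1, b1⟩ := SB_Ck L hσ
  obtain ⟨c2, p2, b2⟩ := SB_Dk L hτ
  obtain ⟨c3, p3, b3⟩ := SB_Dk L hσ
  obtain ⟨c4, p4, b4⟩ := SB_Ck L hτ
  obtain ⟨C, hC, bC⟩ := Z3_le_spec (α := α) (β := β) (by linarith) (by linarith) n n'
    (G * (c1 * c2) + G' * (c3 * c4)) (κ - 2 * ((M : ℝ) - m)) (κ - 2 * ((m : ℝ) - M)) 1 (-1) (-1) 1
    ((M : ℝ) - m) 0 0 (by rw [hd]; ring) (by norm_num; linarith) (by norm_num; linarith)
  refine ⟨C, hC, fun p q x y hX hY U w w' hw hw' => ?_⟩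
  have q1 : 0 ≤ G * (c1 * c2) := by positivity
  have q2 : 0 ≤ G' * (c3 * c4) := by positivity
  have key := bC (GXs hX x w w') (GYs hY y w w') w.im w'.im
    (fun z hz => mono_c (spec2 hG p1 (bG p q x y hX hY U z hz) (b1 w z hw hz) (b2 w' z hw' hz))
      (by linarith))
    (fun z hz => mono_c (spec2 hG' p3 (bG' q p y x hY hX U.symm z hz) (b3 w z hw hz)
      (b4 w' z hw' hz)) (by linarith))
  refine key.trans (le_of_eq ?_)
  rw [show (n' : ℝ) = n + ((M : ℝ) - m) by linarith]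
  congr 2
  ring

/-- bound with a captured quantum of `Y` -/
theorem b_ZP (L : Ln α β A B) (D κ R : ℝ) {n n' : ℕ} (hn : n + M = n' + m) (hK : 2 < κ) {τ : ℝ}
    (hτ : LnAB A B τ) : ∃ C : ℝ, 0 ≤ C ∧
    ∀ (p q : ℂ) (x : Fin m → ℂ) (y : Fin M → ℂ) (hX hY : ℂ → ℂ), UD α β B D κ R p q x y hX hY →
      ∀ w w' : ℂ, w.re = B → w'.re = τ →
      ‖ZP α β x y hX hY n n' w w'‖ ≤
        C * Real.exp ((1 + ((M : ℝ) - m)) * |w.im| + (((M : ℝ) - m) - 1) * |w'.im|) := by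
  have hl := lpos
  have w1 := L.w.lo
  have w2 := L.w.hi
  have hd := num_eq hn
  by_cases hn1 : 1 ≤ n'
  · obtain ⟨G, hG, bG⟩ := Gr0_box L D κ R m M
    obtain ⟨G', hG', bG'⟩ := Gr0_box L D κ R M m
    obtain ⟨c1, p1, b1⟩ := SB_Ck L (σ := B) (Or.inr rfl)
    obtain ⟨c2, p2, b2⟩ := SB_Dk L hτ
    obtain ⟨c3, p3, b3⟩ := SB_qg L
    obtain ⟨c4, p4, b4⟩ := SB_Ck L hτ
    obtain ⟨c5, p5, b5⟩ := SB_Cs L
    have e : ((n' - 1 : ℕ) : ℝ) = (n : ℝ) + ((M : ℝ) - m) - 1 := by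
      rw [Nat.cast_sub hn1, ← hd]
      push_cast
      ring
    obtain ⟨C, hC, bC⟩ := Z3_le_spec (α := α) (β := β) (by linarith) (by linarith) n (n' - 1)
      (G * (c1 * c3 * c2) + G' * (c5 * c4)) (κ - 2 * ((M : ℝ) - m)) (κ - 2 * ((m : ℝ) - M))
      (-1) (-1) 1 1 ((M : ℝ) - m) (-1) 0
      (by rw [e]; ring)
      (by norm_num; linarith) (by norm_num; linarith)
    refine ⟨C, hC, fun p q x y hX hY U w w' hw hw' => ?_⟩
    have q1 : 0 ≤ G * (c1 * c3 * c2) := by positivity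
    have q2 : 0 ≤ G' * (c5 * c4) := by positivity
    have key := bC
      (fun u => Gr0 hX x u * (Ck (w - u) * Dk (w' - u)) * qg (u - (w + 3 * l)))
      (fun v => Gr0 hY y v * Ck (w' - v) * Ck (v - (w + 3 * l))) w.im w'.im
      (fun z hz => by
        have h1 : ‖Ck (w - z) * qg (z - (w + 3 * l))‖ ≤ c1 * c3 *
            Real.exp (-1 * |z.im - w.im|) := ckqg p1 p3 b1 b3 w z hw hz
        have h2 := spec2 hG (by positivity) (bG p q x y hX hY U z hz) h1 (b2 w' z hw' hz)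
        rw [show Gr0 hX x z * (Ck (w - z) * Dk (w' - z)) * qg (z - (w + 3 * l)) =
          Gr0 hX x z * (Ck (w - z) * qg (z - (w + 3 * l)) * Dk (w' - z)) by ring]
        exact mono_c h2 (by linarith))
      (fun z hz => by
        have h2 := spec2 hG' p5 (bG' q p y x hY hX U.symm z hz) (b5 w z hw hz) (b4 w' z hw' hz)
        rw [show Gr0 hY y z * Ck (w' - z) * Ck (z - (w + 3 * l)) =
          Gr0 hY y z * (Ck (z - (w + 3 * l)) * Ck (w' - z)) by ring]
        exact mono_c h2 (by linarith))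
    unfold ZP
    rw [if_pos hn1]
    refine key.trans (le_of_eq ?_)
    rw [e]
    congr 2
    ring
  · refine ⟨0, le_rfl, fun p q x y hX hY U w w' hw hw' => ?_⟩
    unfold ZP
    rw [if_neg hn1]
    simp

/-- bound with a captured quantum of `X` -/
theorem b_ZP' (L : Ln α β A B) (D κ R : ℝ) {n n' : ℕ} (hn : n + M = n' + m) (hK : 2 < κ) {σ : ℝ}
    (hσ : LnAB A B σ) : ∃ C : ℝ, 0 ≤ C ∧
    ∀ (p q : ℂ) (x : Fin m → ℂ) (y : Fin M → ℂ) (hX hY : ℂ → ℂ), UD α β B D κ R p q x y hX hY →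
      ∀ w w' : ℂ, w.re = σ → w'.re = B →
      ‖ZP' α β x y hX hY n n' w w'‖ ≤
        C * Real.exp ((1 - ((M : ℝ) - m)) * |w'.im| + (-((M : ℝ) - m) - 1) * |w.im|) := by
  have hl := lpos
  have w1 := L.w.lo
  have w2 := L.w.hi
  have hd := num_eq hn
  by_cases hn1 : 1 ≤ n
  · obtain ⟨G, hG, bG⟩ := Gr0_box L D κ R m M
    obtain ⟨G', hG', bG'⟩ := Gr0_box L D κ R M m
    obtain ⟨c1, p1, b1⟩ := SB_Ck L (σ := B) (Or.inr rfl)
    obtain ⟨c2, p2, b2⟩ := SB_Dk L hσ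
    obtain ⟨c3, p3, b3⟩ := SB_qg L
    obtain ⟨c4, p4, b4⟩ := SB_Ck L hσ
    obtain ⟨c5, p5, b5⟩ := SB_Cs L
    have e : ((n - 1 : ℕ) : ℝ) = (n : ℝ) - 1 := by
      rw [Nat.cast_sub hn1]; norm_num
    obtain ⟨C, hC, bC⟩ := Z3_le_spec (α := α) (β := β) (by linarith) (by linarith) (n - 1) n'
      (G * (c4 * c5) + G' * (c2 * (c1 * c3))) (κ - 2 * ((M : ℝ) - m)) (κ - 2 * ((m : ℝ) - M))
      1 1 (-1) (-1) ((M : ℝ) - m) 0 1
      (by rw [e]; linarith)
      (by norm_num; linarith) (by norm_num; linarith)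
    refine ⟨C, hC, fun p q x y hX hY U w w' hw hw' => ?_⟩
    have q1 : 0 ≤ G * (c4 * c5) := by positivity
    have q2 : 0 ≤ G' * (c2 * (c1 * c3)) := by positivity
    have key := bC
      (fun u => Gr0 hX x u * Ck (w - u) * Ck (u - (w' + 3 * l)))
      (fun v => Gr0 hY y v * (Dk (w - v) * Ck (w' - v)) * qg (v - (w' + 3 * l))) w.im w'.im
      (fun z hz => by
        have h2 := spec2 hG p4 (bG p q x y hX hY U z hz) (b4 w z hw hz) (b5 w' z hw' hz)
        rw [show Gr0 hX x z * Ck (w - z) * Ck (z - (w' + 3 * l)) =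
          Gr0 hX x z * (Ck (w - z) * Ck (z - (w' + 3 * l))) by ring]
        exact mono_c h2 (by linarith))
      (fun z hz => by
        have h1 : ‖Ck (w' - z) * qg (z - (w' + 3 * l))‖ ≤ c1 * c3 *
            Real.exp (-1 * |z.im - w'.im|) := ckqg p1 p3 b1 b3 w' z hw' hz
        have h2 := spec2 hG' p2 (bG' q p y x hY hX U.symm z hz) (b2 w z hw hz) h1
        rw [show Gr0 hY y z * (Dk (w - z) * Ck (w' - z)) * qg (z - (w' + 3 * l)) =
          Gr0 hY y z * (Dk (w - z) * (Ck (w' - z) * qg (z - (w' + 3 * l)))) by ring]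
        exact mono_c h2 (by linarith))
    unfold ZP'
    rw [if_pos hn1]
    refine key.trans (le_of_eq ?_)
    rw [e, show (n' : ℝ) = n + ((M : ℝ) - m) by linarith]
    congr 2
    ring
  · refine ⟨0, le_rfl, fun p q x y hX hY U w w' hw hw' => ?_⟩
    unfold ZP'
    rw [if_neg hn1]
    simp

/-- bound with both captured quanta -/
theorem b_ZPP (L : Ln α β A B) (D κ R : ℝ) {n n' : ℕ} (hn : n + M = n' + m) (hK : 2 < κ) :
    ∃ C : ℝ, 0 ≤ C ∧
    ∀ (p q : ℂ) (x : Fin m → ℂ) (y : Fin M → ℂ) (hX hY : ℂ → ℂ), UD α β B D κ R p q x y hX hY →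
      ∀ w w' : ℂ, w.re = B → w'.re = B →
      ‖ZPP α β x y hX hY n n' w w'‖ ≤ C * Real.exp (((M : ℝ) - m) * (|w.im| - |w'.im|)) := by
  have hl := lpos
  have w1 := L.w.lo
  have w2 := L.w.hi
  have hd := num_eq hn
  by_cases hn1 : 1 ≤ n ∧ 1 ≤ n'
  · obtain ⟨G, hG, bG⟩ := Gr0_box L D κ R m M
    obtain ⟨G', hG', bG'⟩ := Gr0_box L D κ R M m
    obtain ⟨c1, p1, b1⟩ := SB_Ck L (σ := B) (Or.inr rfl)
    obtain ⟨c3, p3, b3⟩ := SB_qg L
    obtain ⟨c5, p5, b5⟩ := SB_Cs L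
    have e : ((n - 1 : ℕ) : ℝ) = (n : ℝ) - 1 := by
      rw [Nat.cast_sub hn1.1]; norm_num
    have e' : ((n' - 1 : ℕ) : ℝ) = (n : ℝ) + ((M : ℝ) - m) - 1 := by
      rw [Nat.cast_sub hn1.2, ← hd]
      push_cast
      ring
    obtain ⟨C, hC, bC⟩ := Z3_le_spec (α := α) (β := β) (by linarith) (by linarith) (n - 1) (n' - 1)
      (G * (c1 * c3 * c5) + G' * (c5 * (c1 * c3))) (κ - 2 * ((M : ℝ) - m)) (κ - 2 * ((m : ℝ) - M))
      (-1) 1 1 (-1) ((M : ℝ) - m) 0 0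
      (by rw [e, e']; ring) (by norm_num; linarith) (by norm_num; linarith)
    refine ⟨C, hC, fun p q x y hX hY U w w' hw hw' => ?_⟩
    have q1 : 0 ≤ G * (c1 * c3 * c5) := by positivity
    have q2 : 0 ≤ G' * (c5 * (c1 * c3)) := by positivity
    have key := bC
      (fun u => Gr0 hX x u * Ck (w - u) * qg (u - (w + 3 * l)) * Ck (u - (w' + 3 * l)))
      (fun v => Gr0 hY y v * Ck (w' - v) * Ck (v - (w + 3 * l)) * qg (v - (w' + 3 * l)))
      w.im w'.im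
      (fun z hz => by
        have h2 := spec2 hG (by positivity) (bG p q x y hX hY U z hz)
          (ckqg p1 p3 b1 b3 w z hw hz) (b5 w' z hw' hz)
        rw [show Gr0 hX x z * Ck (w - z) * qg (z - (w + 3 * l)) * Ck (z - (w' + 3 * l)) =
          Gr0 hX x z * (Ck (w - z) * qg (z - (w + 3 * l)) * Ck (z - (w' + 3 * l))) by ring]
        exact mono_c h2 (by linarith))
      (fun z hz => by
        have h2 := spec2 hG' p5 (bG' q p y x hY hX U.symm z hz) (b5 w z hw hz)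
          (ckqg p1 p3 b1 b3 w' z hw' hz)
        rw [show Gr0 hY y z * Ck (w' - z) * Ck (z - (w + 3 * l)) * qg (z - (w' + 3 * l)) =
          Gr0 hY y z * (Ck (z - (w + 3 * l)) * (Ck (w' - z) * qg (z - (w' + 3 * l)))) by ring]
        exact mono_c h2 (by linarith))
    unfold ZPP
    rw [if_pos hn1]
    refine key.trans (le_of_eq ?_)
    rw [e, e']
    congr 2
    ring
  · refine ⟨0, le_rfl, fun p q x y hX hY U w w' hw hw' => ?_⟩
    unfold ZPP
    rw [if_neg hn1]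
    simp

/-- bound of the captured pairs -/
theorem b_ZD (L : Ln α β A B) (D κ R : ℝ) {n n' : ℕ} (hn : n + M = n' + m) (hK : 2 < κ) :
    ∃ C : ℝ, 0 ≤ C ∧
    ∀ (p q : ℂ) (x : Fin m → ℂ) (y : Fin M → ℂ) (hX hY : ℂ → ℂ), UD α β B D κ R p q x y hX hY →
      ∀ w : ℂ, w.re = B →
      ‖Z3 α β n n' (Gr0 hX x) (fun v => Gr0 hY y v * Tk (w - v))‖ ≤ C ∧
      ‖Z3 α β n n' (fun u => Gr0 hX x u * Tk (w - u)) (Gr0 hY y)‖ ≤ C := by
  have hl := lpos
  have w1 := L.w.lo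
  have w2 := L.w.hi
  have hd := num_eq hn
  obtain ⟨G, hG, bG⟩ := Gr0_box L D κ R m M
  obtain ⟨G', hG', bG'⟩ := Gr0_box L D κ R M m
  obtain ⟨c, pc, b⟩ := SB_Tk L
  have q1 : 0 ≤ G * c := by positivity
  have q2 : 0 ≤ G' * c := by positivity
  set E := G * c + G + (G' * c + G') with hE
  obtain ⟨C, hC, bC⟩ := Z3_le_spec (α := α) (β := β) (by linarith) (by linarith) n n'
    E (κ - 2 * ((M : ℝ) - m)) (κ - 2 * ((m : ℝ) - M)) 0 0 0 0 ((M : ℝ) - m) 0 0
    (by rw [hd]; ring) (by norm_num; linarith) (by norm_num; linarith)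
  refine ⟨C, hC, fun p q x y hX hY U w hw => ?_⟩
  have g1 : ∀ z : ℂ, OnL α β z.re → ‖Gr0 hX x z‖ ≤
      E * Real.exp (-((κ - 2 * ((M : ℝ) - m)) * |z.im|) + 0 * |z.im - 0| + 0 * |z.im - 0|) := by
    intro z hz
    rw [zero_mul, add_zero, add_zero]
    exact mono_c (bG p q x y hX hY U z hz) (by linarith)
  have g2 : ∀ z : ℂ, OnL α β z.re → ‖Gr0 hY y z‖ ≤
      E * Real.exp (-((κ - 2 * ((m : ℝ) - M)) * |z.im|) + 0 * |z.im - 0| + 0 * |z.im - 0|) := by
    intro z hz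
    rw [zero_mul, add_zero, add_zero]
    exact mono_c (bG' q p y x hY hX U.symm z hz) (by linarith)
  have bT : ∀ z : ℂ, OnL α β z.re → ‖Tk (w - z)‖ ≤ c := by
    intro z hz
    have := b w z hw hz
    simpa using this
  have g3 : ∀ z : ℂ, OnL α β z.re → ‖Gr0 hX x z * Tk (w - z)‖ ≤
      E * Real.exp (-((κ - 2 * ((M : ℝ) - m)) * |z.im|) + 0 * |z.im - 0| + 0 * |z.im - 0|) := by
    intro z hz
    rw [zero_mul, add_zero, add_zero, norm_mul]
    calc _ ≤ (G * Real.exp (-((κ - 2 * ((M : ℝ) - m)) * |z.im|))) * c :=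
          mul_le_mul (bG p q x y hX hY U z hz) (bT z hz) (norm_nonneg _) (by positivity)
      _ = (G * c) * Real.exp (-((κ - 2 * ((M : ℝ) - m)) * |z.im|)) := by ring
      _ ≤ _ := mul_le_mul_of_nonneg_right (by linarith) (Real.exp_pos _).le
  have g4 : ∀ z : ℂ, OnL α β z.re → ‖Gr0 hY y z * Tk (w - z)‖ ≤
      E * Real.exp (-((κ - 2 * ((m : ℝ) - M)) * |z.im|) + 0 * |z.im - 0| + 0 * |z.im - 0|) := by
    intro z hz
    rw [zero_mul, add_zero, add_zero, norm_mul]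
    calc _ ≤ (G' * Real.exp (-((κ - 2 * ((m : ℝ) - M)) * |z.im|))) * c :=
          mul_le_mul (bG' q p y x hY hX U.symm z hz) (bT z hz) (norm_nonneg _) (by positivity)
      _ = (G' * c) * Real.exp (-((κ - 2 * ((m : ℝ) - M)) * |z.im|)) := by ring
      _ ≤ _ := mul_le_mul_of_nonneg_right (by linarith) (Real.exp_pos _).le
  have e0 : C * Real.exp (((n : ℝ) * (0 - 2 * 0) + n' * (0 + 2 * 0)) * |(0 : ℝ)| +
      (n * (0 - 2 * 0) + n' * (0 + 2 * 0)) * |(0 : ℝ)| -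
      2 * (((M : ℝ) - m) * 0 * |(0 : ℝ)| + ((M : ℝ) - m) * 0 * |(0 : ℝ)| + 0 * 0 * |(0 : ℝ) - 0|)) = C := by
    rw [show ((n : ℝ) * (0 - 2 * 0) + n' * (0 + 2 * 0)) * |(0 : ℝ)| +
      (n * (0 - 2 * 0) + n' * (0 + 2 * 0)) * |(0 : ℝ)| -
      2 * (((M : ℝ) - m) * 0 * |(0 : ℝ)| + ((M : ℝ) - m) * 0 * |(0 : ℝ)| + 0 * 0 * |(0 : ℝ) - 0|) = 0 by ring,
      Real.exp_zero, mul_one]
  constructor
  · have key := bC (Gr0 hX x) (fun v => Gr0 hY y v * Tk (w - v)) 0 0 g1 g4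
    rwa [e0] at key
  · have key := bC (fun u => Gr0 hX x u * Tk (w - u)) (Gr0 hY y) 0 0 g3 g2
    rwa [e0] at key

end zb


end Pool.Agent.PLX.Rg

end
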