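import Pool.Agent.PLX.RgA

/-!
# PLAX, exact layer: the eleven integrands decay, sizes `(m, M)` (the layer of NUP1L.FinalE)
-/

set_option autoImplicit false
set_option linter.unusedSectionVars false
set_option linter.unusedVariables false

noncomputable section

open Complex MeasureTheory Filter Topology

namespace Pool.Agent.PLX.Rg

open NUP1 NUP1.N
open NUP1.Bd (Ob chg wt pw pt oneL Dec cwo Hc Ql qg measurable_Hc measurable_Ql rl)
open NUP1.Leg (Ck Dk kap)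

variable {α β A B : ℝ}

/-- one half quantum with all rows -/
theorem bp1 (L : Ln α β A B) (D κ R : ℝ) (m M : ℕ) {σ : ℝ} (hσ : LnAB A B σ) : ∃ C : ℝ, 0 ≤ C ∧
    ∀ (p q : ℂ) (x : Fin m → ℂ) (y : Fin M → ℂ) (hX hY : ℂ → ℂ), UD α β B D κ R p q x y hX hY →
      ∀ s : ℝ, ‖pr1 p q x y (vl σ s)‖ ≤ C * Real.exp (-((1 - ((M : ℝ) - m)) * |s|)) := by
  obtain ⟨f1, f2⟩ := Far_AB L hσ
  obtain ⟨C, hC, h⟩ := pr1_box (m := m) (M := M) f1 f2 R
  refine ⟨C, hC, fun p q x y hX hY U s => ?_⟩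
  have := h p q x y U.bp U.bq U.bx U.bY (vl σ s) (vlre _ _)
  rwa [vlim, show -((1 + (m : ℝ) - M) * |s|) = -((1 - ((M : ℝ) - m)) * |s|) by ring] at this

/-- one half quantum with a captured quantum -/
theorem bpc (L : Ln α β A B) (D κ R : ℝ) (m M : ℕ) : ∃ C : ℝ, 0 ≤ C ∧
    ∀ (p q : ℂ) (x : Fin m → ℂ) (y : Fin M → ℂ) (hX hY : ℂ → ℂ), UD α β B D κ R p q x y hX hY →
      ∀ s : ℝ, ‖prc p q x (vl B s) * hY (vl B s + 3 * l)‖ ≤
        C * Real.exp (-((1 + (κ + ((M : ℝ) - m))) * |s|)) := by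
  obtain ⟨f1, f2⟩ := Far_AB L (σ := B) (Or.inr rfl)
  obtain ⟨C, hC, h⟩ := prc_box (m := m) f1 f2 R
  by_cases hD : 0 ≤ D
  · refine ⟨C * D, by positivity, fun p q x y hX hY U s => ?_⟩
    have g1 := h p q x U.bp U.bq U.bx (vl B s) (vlre _ _)
    have g2 := U.hY (vl B s + 3 * l) (Or.inr (vl3_re B s))
    rw [vlim] at g1
    rw [vl3_im] at g2
    rw [norm_mul]
    calc _ ≤ (C * Real.exp (-((1 + m) * |s|))) * (D * Real.exp (-((κ + M - 2 * m) * |s|))) := by gcongr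
      _ = _ := by
          rw [show -((1 + (κ + ((M : ℝ) - m))) * |s|) = -((1 + m) * |s|) + -((κ + M - 2 * m) * |s|) by ring,
            Real.exp_add]
          ring
  · exact ⟨0, le_rfl, fun p q x y hX hY U => absurd U.D0 hD⟩

section
variable {m M : ℕ}

/-- no captured quantum -/
theorem db_I0 (L : Ln α β A B) (D κ R : ℝ) {n n' : ℕ} (hn : n + M = n' + m) (hK : 2 < κ) {σ τ : ℝ}
    (hσ : LnAB A B σ) (hτ : LnAB A B τ) : ∃ C : ℝ,
    ∀ (p q : ℂ) (x : Fin m → ℂ) (y : Fin M → ℂ) (hX hY : ℂ → ℂ), UD α β B D κ R p q x y hX hY →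
      DB σ τ C (I0 α β p q x y hX hY n n') := by
  obtain ⟨d, hd, b1⟩ := bD L hσ hτ
  obtain ⟨c, hc, b2⟩ := bp1 L D κ R m M hσ
  obtain ⟨c', hc', b3⟩ := bp1 L D κ R M m hτ
  obtain ⟨z, hz, b4⟩ := b_Z0 L D κ R hn hK hσ hτ
  refine ⟨d * (c * c') * z, fun p q x y hX hY U s t => ?_⟩
  have g1 : ‖Dk (vl σ s - vl τ t)‖ ≤ d := (b1 s t).trans (by
    have : Real.exp (-|s - t|) ≤ 1 := Real.exp_le_one_iff.2 (by linarith [abs_nonneg (s - t)])
    nlinarith)
  have g2 := b2 p q x y hX hY U s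
  have g3 := b3 q p y x hY hX U.symm t
  have g4 := b4 p q x y hX hY U (vl σ s) (vl τ t) (vlre _ _) (vlre _ _)
  rw [vlim, vlim] at g4
  unfold I0
  rw [norm_mul, norm_mul, norm_mul]
  calc _ ≤ d * ((c * Real.exp (-((1 - ((M : ℝ) - m)) * |s|))) *
        (c' * Real.exp (-((1 - ((m : ℝ) - M)) * |t|)))) *
        (z * Real.exp (((M : ℝ) - m) * (|t| - |s|))) := by gcongr
    _ = d * (c * c') * z * Real.exp (-((1 - ((M : ℝ) - m)) * |s|) + -((1 - ((m : ℝ) - M)) * |t|) +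
        ((M : ℝ) - m) * (|t| - |s|)) := by
        rw [Real.exp_add, Real.exp_add]
        ring
    _ = d * (c * c') * z * Real.exp (-|s| + -|t|) := by
        congr 2
        ring
    _ = _ := by rw [Real.exp_add]

/-- captured quantum of `Y` -/
theorem db_IP (L : Ln α β A B) (D κ R : ℝ) {n n' : ℕ} (hn : n + M = n' + m) (hK : 2 < κ) {τ : ℝ}
    (hτ : LnAB A B τ) : ∃ C : ℝ,
    ∀ (p q : ℂ) (x : Fin m → ℂ) (y : Fin M → ℂ) (hX hY : ℂ → ℂ), UD α β B D κ R p q x y hX hY →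
      DB B τ C (IP α β p q x y hX hY n n') := by
  obtain ⟨d, hd, b1⟩ := bD L (σ := B) (Or.inr rfl) hτ
  obtain ⟨e, he, b5⟩ := bC L hτ
  obtain ⟨c, hc, b2⟩ := bpc L D κ R m M
  obtain ⟨c', hc', b3⟩ := bp1 L D κ R M m hτ
  obtain ⟨z, hz, b4⟩ := b_ZP L D κ R hn hK hτ
  refine ⟨‖(sin l / sin (2 * l) : ℂ)‖ * (d * e * (c * c')) * z, fun p q x y hX hY U s t => ?_⟩
  have g1 := b1 s t
  have g5 := b5 s t
  have g2 := b2 p q x y hX hY U s
  have g3 := b3 q p y x hY hX U.symm t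
  have g4 := b4 p q x y hX hY U (vl B s) (vl τ t) (vlre _ _) (vlre _ _)
  rw [vlim, vlim] at g4
  unfold IP
  rw [norm_mul, norm_mul, norm_mul, norm_mul, norm_mul]
  have hs := abs_nonneg s
  have ht := abs_nonneg t
  calc _ ≤ ‖(sin l / sin (2 * l) : ℂ)‖ * ((d * Real.exp (-|s - t|)) * (e * Real.exp |t - s|) *
        ((c * Real.exp (-((1 + (κ + ((M : ℝ) - m))) * |s|))) *
          (c' * Real.exp (-((1 - ((m : ℝ) - M)) * |t|))))) *
        (z * Real.exp ((1 + ((M : ℝ) - m)) * |s| + (((M : ℝ) - m) - 1) * |t|)) := by gcongr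
    _ = ‖(sin l / sin (2 * l) : ℂ)‖ * (d * e * (c * c')) * z *
        Real.exp (-|s - t| + |t - s| + (-((1 + (κ + ((M : ℝ) - m))) * |s|) +
          -((1 - ((m : ℝ) - M)) * |t|)) + ((1 + ((M : ℝ) - m)) * |s| + (((M : ℝ) - m) - 1) * |t|)) := by
        rw [Real.exp_add (-|s - t| + |t - s| + _), Real.exp_add (-|s - t| + |t - s|),
          Real.exp_add (-|s - t|), Real.exp_add (-((1 + (κ + ((M : ℝ) - m))) * |s|))]
        ring
    _ ≤ ‖(sin l / sin (2 * l) : ℂ)‖ * (d * e * (c * c')) * z * Real.exp (-|s| + -|t|) := by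
        refine mul_le_mul_of_nonneg_left (exp_le1 ?_) (by positivity)
        rw [abs_sub_comm s t]
        nlinarith
    _ = _ := by rw [Real.exp_add]

/-- captured quantum of `X` -/
theorem db_IP' (L : Ln α β A B) (D κ R : ℝ) {n n' : ℕ} (hn : n + M = n' + m) (hK : 2 < κ) {σ : ℝ}
    (hσ : LnAB A B σ) : ∃ C : ℝ,
    ∀ (p q : ℂ) (x : Fin m → ℂ) (y : Fin M → ℂ) (hX hY : ℂ → ℂ), UD α β B D κ R p q x y hX hY →
      DB σ B C (IP' α β p q x y hX hY n n') := by
  obtain ⟨d, hd, b1⟩ := bD L hσ (τ := B) (Or.inr rfl)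
  obtain ⟨e, he, b5⟩ := bC L hσ
  obtain ⟨c, hc, b2⟩ := bpc L D κ R M m
  obtain ⟨c', hc', b3⟩ := bp1 L D κ R m M hσ
  obtain ⟨z, hz, b4⟩ := b_ZP' L D κ R hn hK hσ
  refine ⟨‖(sin l / sin (2 * l) : ℂ)‖ * (d * e * (c' * c)) * z, fun p q x y hX hY U s t => ?_⟩
  have g1 := b1 s t
  have g5 := b5 t s
  have g2 := b2 q p y x hY hX U.symm t
  have g3 := b3 p q x y hX hY U s
  have g4 := b4 p q x y hX hY U (vl σ s) (vl B t) (vlre _ _) (vlre _ _)
  rw [vlim, vlim] at g4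
  unfold IP'
  rw [norm_mul, norm_mul, norm_mul, norm_mul, norm_mul]
  have hs := abs_nonneg s
  have ht := abs_nonneg t
  calc _ ≤ ‖(sin l / sin (2 * l) : ℂ)‖ * ((d * Real.exp (-|s - t|)) * (e * Real.exp |s - t|) *
        ((c' * Real.exp (-((1 - ((M : ℝ) - m)) * |s|))) *
          (c * Real.exp (-((1 + (κ + ((m : ℝ) - M))) * |t|))))) *
        (z * Real.exp ((1 - ((M : ℝ) - m)) * |t| + (-((M : ℝ) - m) - 1) * |s|)) := by gcongr
    _ = ‖(sin l / sin (2 * l) : ℂ)‖ * (d * e * (c' * c)) * z *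
        Real.exp (-|s - t| + |s - t| + (-((1 - ((M : ℝ) - m)) * |s|) +
          -((1 + (κ + ((m : ℝ) - M))) * |t|)) +
          ((1 - ((M : ℝ) - m)) * |t| + (-((M : ℝ) - m) - 1) * |s|)) := by
        rw [Real.exp_add (-|s - t| + |s - t| + _), Real.exp_add (-|s - t| + |s - t|),
          Real.exp_add (-|s - t|), Real.exp_add (-((1 - ((M : ℝ) - m)) * |s|))]
        ring
    _ ≤ ‖(sin l / sin (2 * l) : ℂ)‖ * (d * e * (c' * c)) * z * Real.exp (-|s| + -|t|) := by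
        refine mul_le_mul_of_nonneg_left (exp_le1 ?_) (by positivity)
        nlinarith
    _ = _ := by rw [Real.exp_add]

/-- both captured quanta -/
theorem db_IPP (L : Ln α β A B) (D κ R : ℝ) {n n' : ℕ} (hn : n + M = n' + m) (hK : 2 < κ) : ∃ C : ℝ,
    ∀ (p q : ℂ) (x : Fin m → ℂ) (y : Fin M → ℂ) (hX hY : ℂ → ℂ), UD α β B D κ R p q x y hX hY →
      DB B B C (IPP α β p q x y hX hY n n') := by
  have hB : LnAB A B B := Or.inr rfl
  obtain ⟨d, hd, b1⟩ := bD L hB hB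
  obtain ⟨e, he, b5⟩ := bC L hB
  obtain ⟨c, hc, b2⟩ := bpc L D κ R m M
  obtain ⟨c', hc', b2'⟩ := bpc L D κ R M m
  obtain ⟨z, hz, b4⟩ := b_ZPP L D κ R hn hK
  obtain ⟨g, hg, b6⟩ := LB_qg (δ := B - B) (by rw [sub_self, abs_zero]; have := lpos; positivity)
  refine ⟨‖((sin l / sin (2 * l)) ^ 2 : ℂ)‖ * (d * e * e * g * (c * c')) * z,
    fun p q x y hX hY U s t => ?_⟩
  have g1 := b1 s t
  have g5 := b5 s t
  have g5' := b5 t s
  have g2 := b2 p q x y hX hY U s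
  have g2' := b2' q p y x hY hX U.symm t
  have g4 := b4 p q x y hX hY U (vl B s) (vl B t) (vlre _ _) (vlre _ _)
  rw [vlim, vlim] at g4
  have g6 := b6 (vl B s - vl B t) (vl_sub_re _ _ _ _)
  rw [vl_sub_im] at g6
  unfold IPP
  rw [norm_mul, norm_mul, norm_mul, norm_mul, norm_mul, norm_mul, norm_mul (prc p q x _ * _)]
  have hs := abs_nonneg s
  have ht := abs_nonneg t
  have hst := abs_nonneg (s - t)
  calc _ ≤ ‖((sin l / sin (2 * l)) ^ 2 : ℂ)‖ * ((d * Real.exp (-|s - t|)) *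
        (e * Real.exp |t - s|) * (e * Real.exp |s - t|) * (g * Real.exp (-2 * |s - t|)) *
        ((c * Real.exp (-((1 + (κ + ((M : ℝ) - m))) * |s|))) *
          (c' * Real.exp (-((1 + (κ + ((m : ℝ) - M))) * |t|))))) *
        (z * Real.exp (((M : ℝ) - m) * (|s| - |t|))) := by gcongr
    _ = ‖((sin l / sin (2 * l)) ^ 2 : ℂ)‖ * (d * e * e * g * (c * c')) * z *
        Real.exp (-|s - t| + |t - s| + |s - t| + -2 * |s - t| +
          (-((1 + (κ + ((M : ℝ) - m))) * |s|) + -((1 + (κ + ((m : ℝ) - M))) * |t|)) +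
          ((M : ℝ) - m) * (|s| - |t|)) := by
        rw [Real.exp_add (-|s - t| + |t - s| + |s - t| + -2 * |s - t| + _),
          Real.exp_add (-|s - t| + |t - s| + |s - t| + -2 * |s - t|),
          Real.exp_add (-|s - t| + |t - s| + |s - t|), Real.exp_add (-|s - t| + |t - s|),
          Real.exp_add (-|s - t|), Real.exp_add (-((1 + (κ + ((M : ℝ) - m))) * |s|))]
        ring
    _ ≤ ‖((sin l / sin (2 * l)) ^ 2 : ℂ)‖ * (d * e * e * g * (c * c')) * z *
        Real.exp (-|s| + -|t|) := by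
        refine mul_le_mul_of_nonneg_left (exp_le1 ?_) (by positivity)
        rw [abs_sub_comm t s]
        nlinarith
    _ = _ := by rw [Real.exp_add]

/-- the prefactor of a captured pair -/
theorem bXD (L : Ln α β A B) (D κ R : ℝ) (m M : ℕ) : ∃ C : ℝ, 0 ≤ C ∧
    ∀ (p q : ℂ) (x : Fin m → ℂ) (y : Fin M → ℂ) (hX hY : ℂ → ℂ), UD α β B D κ R p q x y hX hY →
      ∀ s : ℝ, ‖XD p q y (vl B s)‖ ≤ C * Real.exp (-|s|) := by
  obtain ⟨C, hC, b1⟩ := inv_box (Far_B L) R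
  obtain ⟨E, hE, b2⟩ := inv_box (Far_Bl L) R
  refine ⟨‖(sin (2 * l) ^ 2 : ℂ)‖ * (E * C) * (Real.exp R * C) ^ M, by positivity,
    fun p q x y hX hY U s => ?_⟩
  have hw : (vl B s).re = B := vlre _ _
  have hwi : (vl B s).im = s := vlim _ _
  set w := vl B s with hwd
  have g1 := b1 q U.bq w hw
  have g2 := b2 p U.bp (w + l) (by simp [hw])
  have him : (w + l).im = s := by simp [hwi]
  rw [him] at g2
  rw [hwi] at g1
  have e1 : XD p q y w = -sin (2 * l) ^ 2 * (1 / sin (w + l - p) * (1 / sin (w - q))) *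
      ∏ j, (-sin (w - y j - 2 * l) / sin (w - y j)) := by
    unfold XD
    rw [show w - p + l = w + l - p by ring, div_eq_mul_inv, mul_inv]
    ring
  have e2 : ‖∏ j, (-sin (w - y j - 2 * l) / sin (w - y j))‖ ≤ (Real.exp R * C) ^ M := by
    rw [norm_prod]
    calc _ ≤ ∏ _j : Fin M, (Real.exp R * C) := by
          refine Finset.prod_le_prod (fun i _ => norm_nonneg _) fun j _ => ?_
          have h1 := b1 (y j) (U.bY j) w hw
          rw [hwi] at h1
          have h2 : ‖sin (w - y j - 2 * l)‖ ≤ Real.exp R * Real.exp |s| := by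
            refine (Bd.norm_sin_le_exp _).trans ?_
            rw [← Real.exp_add]
            refine Real.exp_le_exp.2 ?_
            have h3 : (w - y j - 2 * l).im = s - (y j).im := by simp [hwi]
            rw [h3]
            have := abs_sub s (y j).im
            have := (U.bY j).2
            linarith
          rw [div_eq_mul_one_div, norm_mul, norm_neg]
          calc _ ≤ (Real.exp R * Real.exp |s|) * (C * Real.exp (-|s|)) := by gcongr
            _ = Real.exp R * C * (Real.exp |s| * Real.exp (-|s|)) := by ring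
            _ = _ := by rw [← Real.exp_add, add_neg_cancel, Real.exp_zero, mul_one]
      _ = _ := by rw [Finset.prod_const, Finset.card_univ, Fintype.card_fin]
  rw [e1, norm_mul, norm_mul, norm_mul, norm_neg]
  have hs := abs_nonneg s
  calc _ ≤ ‖(sin (2 * l) ^ 2 : ℂ)‖ * ((E * Real.exp (-|s|)) * (C * Real.exp (-|s|))) *
        (Real.exp R * C) ^ M := by gcongr
    _ = ‖(sin (2 * l) ^ 2 : ℂ)‖ * (E * C) * (Real.exp R * C) ^ M *
        (Real.exp (-|s|) * Real.exp (-|s|)) := by ring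
    _ ≤ _ := by
        refine mul_le_mul_of_nonneg_left ?_ (by positivity)
        rw [← Real.exp_add]
        exact exp_le1 (by linarith)

/-- the captured pairs -/
theorem db_ID (L : Ln α β A B) (D κ R : ℝ) {n n' : ℕ} (hn : n + M = n' + m) (hK : 2 < κ) : ∃ C : ℝ,
    ∀ (p q : ℂ) (x : Fin m → ℂ) (y : Fin M → ℂ) (hX hY : ℂ → ℂ), UD α β B D κ R p q x y hX hY →
      ∀ s : ℝ, ‖ID α β p q x y hX hY n n' (vl B s)‖ ≤ C * Real.exp (-|s|) ∧
        ‖ID' α β p q x y hX hY n n' (vl B s)‖ ≤ C * Real.exp (-|s|) := by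
  obtain ⟨c, hc, b1⟩ := bXD L D κ R m M
  obtain ⟨c', hc', b1'⟩ := bXD L D κ R M m
  obtain ⟨z, hz, b2⟩ := b_ZD L D κ R hn hK
  have q1 : 0 ≤ c * z := by positivity
  have q2 : 0 ≤ c' * z := by positivity
  refine ⟨c * z + c' * z, fun p q x y hX hY U s => ?_⟩
  obtain ⟨g1, g2⟩ := b2 p q x y hX hY U (vl B s) (vlre _ _)
  have h1 := b1 p q x y hX hY U s
  have h2 := b1' q p y x hY hX U.symm s
  constructor
  · unfold ID
    rw [norm_mul]
    calc _ ≤ (c * Real.exp (-|s|)) * z := by gcongr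
      _ = (c * z) * Real.exp (-|s|) := by ring
      _ ≤ _ := mul_le_mul_of_nonneg_right (by linarith) (Real.exp_pos _).le
  · unfold ID'
    rw [norm_mul]
    calc _ ≤ (c' * Real.exp (-|s|)) * z := by gcongr
      _ = (c' * z) * Real.exp (-|s|) := by ring
      _ ≤ _ := mul_le_mul_of_nonneg_right (by linarith) (Real.exp_pos _).le

end

end Pool.Agent.PLX.Rg

end
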