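import Pool.Agent.PLX.RgB

/-!
# PLAX, exact layer: the double residue as eleven joint contour integrals, sizes `(m, M)` (the layer of NUP1L.FinalF)
-/

set_option autoImplicit false
set_option linter.unusedSectionVars false
set_option linter.unusedVariables false

noncomputable section

open Complex MeasureTheory Filter Topology

namespace Pool.Agent.PLX.Rg

open NUP1 NUP1.N
open NUP1.Bd (Ob chg wt pw pt oneL Dec cwo Hc Ql qg measurable_Hc measurable_Ql rl)
open NUP1.Leg (Ck Dk kap FSP LegJ GsL GsR)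

variable {α β A B : ℝ}

section
variable {m M : ℕ} {x : Fin m → ℂ} {y : Fin M → ℂ} {hX hY : ℂ → ℂ} {p q : ℂ} {κ κ' D κ₀ R : ℝ} {n n' : ℕ}

theorem PY_eq (p q : ℂ) (x : Fin m → ℂ) (hY : ℂ → ℂ) {w w' : ℂ} (h : ∀ i, w.im ≠ (y i).im) :
    pr1 p q x y w * PY y hY w w' = prc p q x w *
      (sin l / sin (2 * l) * (hY (w + 3 * l) * Ck (w' - (w + 3 * l)))) := by
  have h1 := rB_cancel y h
  unfold pr1 PY Gr0
  linear_combination (prc p q x w * (sin l / sin (2 * l) * (hY (w + 3 * l) *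
    Ck (w' - (w + 3 * l))))) * h1

theorem PX_eq (p q : ℂ) (y : Fin M → ℂ) (hX : ℂ → ℂ) {w w' : ℂ} (h : ∀ i, w'.im ≠ (x i).im) :
    pr1 q p y x w' * PX x hX w w' = prc q p y w' *
      (sin l / sin (2 * l) * (hX (w' + 3 * l) * Ck (w - (w' + 3 * l)))) := by
  have h1 := rB_cancel x h
  unfold pr1 PX Gr0
  linear_combination (prc q p y w' * (sin l / sin (2 * l) * (hX (w' + 3 * l) *
    Ck (w - (w' + 3 * l))))) * h1

theorem LL_AA (L : Ln α β A B) (Q : RD α β x y hX hY κ κ' n n') :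
    LL A A (FSP p q x y hX hY n n') = LL A A (I0 α β p q x y hX hY n n') := by
  refine LL_congr Set.countable_empty fun s t _ _ => ?_
  unfold Leg.FSP I0
  rw [SP_AA L Q (vlre _ _) (vlre _ _)]

theorem G2_I0 (L : Ln α β A B) (U : UD α β B D κ₀ R p q x y hX hY) (hn : n + M = n' + m) (hK : 2 < κ₀)
    {σ τ : ℝ} (hσ : LnAB A B σ) (hτ : LnAB A B τ) : G2 σ τ (I0 α β p q x y hX hY n n') := by
  obtain ⟨C, hC⟩ := db_I0 L D κ₀ R hn hK hσ hτ
  exact ⟨m_I0 U.mX U.mY p q n n', C, hC p q x y hX hY U⟩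

theorem G2_IP (L : Ln α β A B) (U : UD α β B D κ₀ R p q x y hX hY) (hn : n + M = n' + m) (hK : 2 < κ₀)
    {τ : ℝ} (hτ : LnAB A B τ) : G2 B τ (IP α β p q x y hX hY n n') := by
  obtain ⟨C, hC⟩ := db_IP L D κ₀ R hn hK hτ
  exact ⟨m_IP U.mX U.mY p q n n', C, hC p q x y hX hY U⟩

theorem G2_IP' (L : Ln α β A B) (U : UD α β B D κ₀ R p q x y hX hY) (hn : n + M = n' + m) (hK : 2 < κ₀)
    {σ : ℝ} (hσ : LnAB A B σ) : G2 σ B (IP' α β p q x y hX hY n n') := by
  obtain ⟨C, hC⟩ := db_IP' L D κ₀ R hn hK hσ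
  exact ⟨m_IP' U.mX U.mY p q n n', C, hC p q x y hX hY U⟩

theorem G2_IPP (L : Ln α β A B) (U : UD α β B D κ₀ R p q x y hX hY) (hn : n + M = n' + m) (hK : 2 < κ₀) :
    G2 B B (IPP α β p q x y hX hY n n') := by
  obtain ⟨C, hC⟩ := db_IPP L D κ₀ R hn hK
  exact ⟨m_IPP U.mX U.mY p q n n', C, hC p q x y hX hY U⟩

theorem hts (x : Fin m → ℂ) (y : Fin M → ℂ) :
    (Set.range (fun i => (x i).im) ∪ Set.range (fun j => (y j).im)).Countable :=
  ((Set.finite_range _).union (Set.finite_range _)).countable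

theorem LL_BA (L : Ln α β A B) (Q : RD α β x y hX hY κ κ' n n')
    (U : UD α β B D κ₀ R p q x y hX hY) (hn : n + M = n' + m) (hK : 2 < κ₀) :
    LL B A (FSP p q x y hX hY n n') = LL B A (I0 α β p q x y hX hY n n') +
      LL B A (IP α β p q x y hX hY n n') := by
  have hA : LnAB A B A := Or.inl rfl
  have hB : LnAB A B B := Or.inr rfl
  rw [← LL_add (G2_I0 L U hn hK hB hA) (G2_IP L U hn hK hA)]
  refine LL_congr (hts x y) fun s t hs ht => ?_
  simp only [Set.mem_union, Set.mem_range, not_or, not_exists] at hs ht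
  have hi : ∀ i, (vl B s).im ≠ (y i).im := fun i => by rw [vlim]; exact fun h => hs.2 i h.symm
  unfold Leg.FSP I0 IP
  rw [SP_BA L Q (vlre _ _) (vlre _ _) hi]
  have h1 := PY_eq p q x hY (w' := vl A t) hi
  linear_combination (Dk (vl B s - vl A t) * pr1 q p y x (vl A t) *
    ZP α β x y hX hY n n' (vl B s) (vl A t)) * h1

theorem LL_AB (L : Ln α β A B) (Q : RD α β x y hX hY κ κ' n n')
    (U : UD α β B D κ₀ R p q x y hX hY) (hn : n + M = n' + m) (hK : 2 < κ₀) :
    LL A B (FSP p q x y hX hY n n') = LL A B (I0 α β p q x y hX hY n n') +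
      LL A B (IP' α β p q x y hX hY n n') := by
  have hA : LnAB A B A := Or.inl rfl
  have hB : LnAB A B B := Or.inr rfl
  rw [← LL_add (G2_I0 L U hn hK hA hB) (G2_IP' L U hn hK hA)]
  refine LL_congr (hts x y) fun s t hs ht => ?_
  simp only [Set.mem_union, Set.mem_range, not_or, not_exists] at hs ht
  have hi : ∀ i, (vl B t).im ≠ (x i).im := fun i => by rw [vlim]; exact fun h => ht.1 i h.symm
  unfold Leg.FSP I0 IP'
  rw [SP_AB L Q (vlre _ _) (vlre _ _) hi]
  have h1 := PX_eq p q y hX (w := vl A s) hi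
  linear_combination (Dk (vl A s - vl B t) * pr1 p q x y (vl A s) *
    ZP' α β x y hX hY n n' (vl A s) (vl B t)) * h1

theorem LL_BB (L : Ln α β A B) (Q : RD α β x y hX hY κ κ' n n')
    (U : UD α β B D κ₀ R p q x y hX hY) (hn : n + M = n' + m) (hK : 2 < κ₀) :
    LL B B (FSP p q x y hX hY n n') = LL B B (I0 α β p q x y hX hY n n') +
      LL B B (IP' α β p q x y hX hY n n') + LL B B (IP α β p q x y hX hY n n') +
      LL B B (IPP α β p q x y hX hY n n') := by
  have hB : LnAB A B B := Or.inr rfl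
  rw [← LL_add (G2_I0 L U hn hK hB hB) (G2_IP' L U hn hK hB),
    ← LL_add ((G2_I0 L U hn hK hB hB).add (G2_IP' L U hn hK hB)) (G2_IP L U hn hK hB),
    ← LL_add (((G2_I0 L U hn hK hB hB).add (G2_IP' L U hn hK hB)).add (G2_IP L U hn hK hB))
      (G2_IPP L U hn hK)]
  refine LL_congr (hts x y) fun s t hs ht => ?_
  simp only [Set.mem_union, Set.mem_range, not_or, not_exists] at hs ht
  have hi : ∀ i, (vl B t).im ≠ (x i).im := fun i => by rw [vlim]; exact fun h => ht.1 i h.symm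
  have hj : ∀ i, (vl B s).im ≠ (y i).im := fun i => by rw [vlim]; exact fun h => hs.2 i h.symm
  unfold Leg.FSP I0 IP' IP IPP
  rw [SP_BB L Q (vlre _ _) (vlre _ _) hi hj]
  have h1 := PX_eq p q y hX (w := vl B s) hi
  have h2 := PY_eq p q x hY (w' := vl B t) hj
  set w := vl B s
  set w' := vl B t
  linear_combination (Dk (w - w') * pr1 p q x y w * ZP' α β x y hX hY n n' w w') * h1 +
    (Dk (w - w') * pr1 q p y x w' * ZP α β x y hX hY n n' w w') * h2 +
    (Dk (w - w') * qg (w - w') * ZPP α β x y hX hY n n' w w' *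
      (pr1 p q x y w * PY y hY w w')) * h1 +
    (Dk (w - w') * qg (w - w') * ZPP α β x y hX hY n n' w w' *
      (prc q p y w' * (sin l / sin (2 * l) * (hX (w' + 3 * l) * Ck (w - (w' + 3 * l)))))) * h2

theorem XD_eq (p q : ℂ) (y : Fin M → ℂ) (z : ℂ) : Leg.X0 p q y z = XD p q y z := by
  unfold Leg.X0 XD
  congr 1
  refine Finset.prod_congr rfl fun j _ => ?_
  rw [show 2 * l - (z - y j) = -(z - y j - 2 * l) by ring, Complex.sin_neg]

theorem Tk_diff_B (L : Ln α β A B) {w : ℂ} (hw : w.re = B) (z : ℂ) (h1 : β ≤ z.re)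
    (h2 : z.re ≤ α) : DifferentiableAt ℂ (fun u => Tk (w - u)) z := by
  have hl := lpos
  have w1 := L.w.lo
  have w2 := L.w.hi
  have l1 := L.b1
  have l2 := L.b2
  have e : (w - z + l).re = B - z.re + l := by simp [hw]
  have e' : (2 * l - (w - z)).re = 2 * l - (B - z.re) := by simp [hw]
  have hne : sin (w - z + l) ≠ 0 := by
    refine sin_ne_re' ?_ ?_ ?_
    · rw [e]; linarith
    · rw [e]; linarith
    · rw [e]; intro h'; linarith
  have hne' : sin (2 * l - (w - z)) ≠ 0 := by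
    refine sin_ne_re' ?_ ?_ ?_
    · rw [e']; linarith
    · rw [e']; linarith
    · rw [e']; intro h'; linarith
  have hne2 : sin (2 * l - (w - z)) * sin (w - z + l) ≠ 0 := mul_ne_zero hne' hne
  unfold Tk
  fun_prop (disch := exact hne2)

theorem gr_Tk (w : ℂ) : Gr α β 0 fun u => Tk (w - u) := by
  have h := ((Gr.sin (α := α) (β := β) (w - l)).mul (Gr.sin (w + 2 * l))).mul
    ((Gr.inv_sin (w - 2 * l)).mul (Gr.inv_sin (w + l)))
  refine ((h.cmul (-1)).congr (g := fun u => Tk (w - u)) 0 fun z _ _ _ => ?_).mono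
    (le_of_eq (by norm_num))
  unfold Tk
  rw [show w - z - l = -(z - (w - l)) by ring, show w - z + 2 * l = -(z - (w + 2 * l)) by ring,
    show 2 * l - (w - z) = z - (w - 2 * l) by ring, show w - z + l = -(z - (w + l)) by ring,
    Complex.sin_neg, Complex.sin_neg, Complex.sin_neg, neg_mul_neg, div_eq_mul_inv, mul_inv,
    inv_neg]
  ring

theorem GsL_eq (L : Ln α β A B) (Q : RD α β x y hX hY κ κ' n n') {w : ℂ} (hw : w.re = B) :
    GsL hX hY x y n n' w = Z3 α β n n' (Gr0 hX x) (fun v => Gr0 hY y v * Tk (w - v)) := by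
  have key := assemG (α := α) (β := β) L.w Q.hx Q.hy Q.rx Q.ry (hX := hX)
    (hY := fun v => hY v * Tk (w - v)) Q.aX
    (fun z h1 h2 => (Q.aY z h1 h2).mul (Tk_diff_B L hw z h1 h2)) Q.mX
    (Q.mY.mul (m_Tk.comp (by fun_prop))) Q.gX
    ((Q.gY.mul (gr_Tk w)).mono (κ' := -κ') (by linarith)) n n' Q.c1 Q.c2
  rw [gr0_mul] at key
  exact key

theorem GsR_eq (L : Ln α β A B) (Q : RD α β x y hX hY κ κ' n n') {w : ℂ} (hw : w.re = B) :
    GsR hX hY x y n n' w = Z3 α β n n' (fun u => Gr0 hX x u * Tk (w - u)) (Gr0 hY y) := by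
  have key := assemG (α := α) (β := β) L.w Q.hx Q.hy Q.rx Q.ry
    (hX := fun u => hX u * Tk (w - u)) (hY := hY)
    (fun z h1 h2 => (Q.aX z h1 h2).mul (Tk_diff_B L hw z h1 h2)) Q.aY
    (Q.mX.mul (m_Tk.comp (by fun_prop))) Q.mY
    ((Q.gX.mul (gr_Tk w)).mono (κ' := -κ) (by linarith)) Q.gY n n' Q.c1 Q.c2
  rw [gr0_mul] at key
  exact key

/-- **The double residue is the sum of eleven joint contour integrals** (distinct heights). -/
theorem LegJ_E11 (L : Ln α β A B) (Q : RD α β x y hX hY κ κ' n n')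
    (U : UD α β B D κ₀ R p q x y hX hY) (hn : n + M = n' + m) (hK : 2 < κ₀) :
    LegJ A B p q x y hX hY n n' = E11 α β p q x y hX hY n n' A B := by
  have e1 : LI B (fun z => Leg.X0 p q y z * GsL hX hY x y n n' z) =
      LI B (ID α β p q x y hX hY n n') := by
    refine LI_congr (Eventually.of_forall fun t => ?_)
    show Leg.X0 p q y (vl B t) * GsL hX hY x y n n' (vl B t) = _
    rw [GsL_eq L Q (vlre _ _), XD_eq]
    rfl
  have e2 : LI B (fun z => Leg.X0 q p x z * GsR hX hY x y n n' z) =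
      LI B (ID' α β p q x y hX hY n n') := by
    refine LI_congr (Eventually.of_forall fun t => ?_)
    show Leg.X0 q p x (vl B t) * GsR hX hY x y n n' (vl B t) = _
    rw [GsR_eq L Q (vlre _ _), XD_eq]
    rfl
  unfold Leg.LegJ E11
  rw [LL_AA L Q, LL_BA L Q U hn hK, LL_AB L Q U hn hK, LL_BB L Q U hn hK, e1, e2]
  ring

end


end Pool.Agent.PLX.Rg

end
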