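import Pool.Agent.PLX.RgC

/-!
# PLAX, exact layer: the eleven integrals are continuous in the data, sizes `(m, M)` (the layer of NUP1L.FinalG)
-/

set_option autoImplicit false
set_option linter.unusedSectionVars false
set_option linter.unusedVariables false

noncomputable section

open Complex MeasureTheory Filter Topology

namespace Pool.Agent.PLX.Rg

open NUP1 NUP1.N
open NUP1.Bd (Ob chg wt pw pt oneL Dec cwo Hc Ql qg measurable_Hc measurable_Ql rl)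
open NUP1.Leg (Ck Dk kap)

variable {α β A B : ℝ}

/-! ### bounds of the one body functions -/

section gb
variable {m M : ℕ}

theorem gb_0 (L : Ln α β A B) (D κ R : ℝ) (m M : ℕ) {σ τ : ℝ}
    (hσ : LnAB A B σ) (hτ : LnAB A B τ) : ∃ E : ℝ, 0 ≤ E ∧
    ∀ (p q : ℂ) (x : Fin m → ℂ) (y : Fin M → ℂ) (hX hY : ℂ → ℂ), UD α β B D κ R p q x y hX hY →
      ∀ w w' : ℂ, w.re = σ → w'.re = τ → ∀ z : ℂ, OnL α β z.re →
      ‖GXs hX x w w' z‖ ≤ E * Real.exp (-((κ - 2 * ((M : ℝ) - m)) * |z.im|) + 1 * |z.im - w.im| +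
        -1 * |z.im - w'.im|) ∧
      ‖GYs hY y w w' z‖ ≤ E * Real.exp (-((κ - 2 * ((m : ℝ) - M)) * |z.im|) + -1 * |z.im - w.im| +
        1 * |z.im - w'.im|) := by
  obtain ⟨G, hG, bG⟩ := Gr0_box L D κ R m M
  obtain ⟨G', hG', bG'⟩ := Gr0_box L D κ R M m
  obtain ⟨c1, p1, b1⟩ := SB_Ck L hσ
  obtain ⟨c2, p2, b2⟩ := SB_Dk L hτ
  obtain ⟨c3, p3, b3⟩ := SB_Dk L hσ
  obtain ⟨c4, p4, b4⟩ := SB_Ck L hτ
  have q1 : 0 ≤ G * (c1 * c2) := by positivity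
  have q2 : 0 ≤ G' * (c3 * c4) := by positivity
  refine ⟨G * (c1 * c2) + G' * (c3 * c4), by positivity, fun p q x y hX hY U w w' hw hw' z hz => ?_⟩
  exact ⟨mono_c (spec2 hG p1 (bG p q x y hX hY U z hz) (b1 w z hw hz) (b2 w' z hw' hz))
    (by linarith), mono_c (spec2 hG' p3 (bG' q p y x hY hX U.symm z hz) (b3 w z hw hz)
    (b4 w' z hw' hz)) (by linarith)⟩

theorem gb_P (L : Ln α β A B) (D κ R : ℝ) (m M : ℕ) {τ : ℝ} (hτ : LnAB A B τ) : ∃ E : ℝ, 0 ≤ E ∧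
    ∀ (p q : ℂ) (x : Fin m → ℂ) (y : Fin M → ℂ) (hX hY : ℂ → ℂ), UD α β B D κ R p q x y hX hY →
      ∀ w w' : ℂ, w.re = B → w'.re = τ → ∀ z : ℂ, OnL α β z.re →
      ‖Gr0 hX x z * (Ck (w - z) * Dk (w' - z)) * qg (z - (w + 3 * l))‖ ≤
        E * Real.exp (-((κ - 2 * ((M : ℝ) - m)) * |z.im|) + -1 * |z.im - w.im| + -1 * |z.im - w'.im|) ∧
      ‖Gr0 hY y z * Ck (w' - z) * Ck (z - (w + 3 * l))‖ ≤
        E * Real.exp (-((κ - 2 * ((m : ℝ) - M)) * |z.im|) + 1 * |z.im - w.im| + 1 * |z.im - w'.im|) := by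
  obtain ⟨G, hG, bG⟩ := Gr0_box L D κ R m M
  obtain ⟨G', hG', bG'⟩ := Gr0_box L D κ R M m
  obtain ⟨c1, p1, b1⟩ := SB_Ck L (σ := B) (Or.inr rfl)
  obtain ⟨c2, p2, b2⟩ := SB_Dk L hτ
  obtain ⟨c3, p3, b3⟩ := SB_qg L
  obtain ⟨c4, p4, b4⟩ := SB_Ck L hτ
  obtain ⟨c5, p5, b5⟩ := SB_Cs L
  have q1 : 0 ≤ G * (c1 * c3 * c2) := by positivity
  have q2 : 0 ≤ G' * (c5 * c4) := by positivity
  refine ⟨G * (c1 * c3 * c2) + G' * (c5 * c4), by positivity,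
    fun p q x y hX hY U w w' hw hw' z hz => ⟨?_, ?_⟩⟩
  · have h2 := spec2 hG (by positivity) (bG p q x y hX hY U z hz)
      (ckqg p1 p3 b1 b3 w z hw hz) (b2 w' z hw' hz)
    rw [show Gr0 hX x z * (Ck (w - z) * Dk (w' - z)) * qg (z - (w + 3 * l)) =
      Gr0 hX x z * (Ck (w - z) * qg (z - (w + 3 * l)) * Dk (w' - z)) by ring]
    exact mono_c h2 (by linarith)
  · have h2 := spec2 hG' p5 (bG' q p y x hY hX U.symm z hz) (b5 w z hw hz) (b4 w' z hw' hz)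
    rw [show Gr0 hY y z * Ck (w' - z) * Ck (z - (w + 3 * l)) =
      Gr0 hY y z * (Ck (z - (w + 3 * l)) * Ck (w' - z)) by ring]
    exact mono_c h2 (by linarith)

theorem gb_P' (L : Ln α β A B) (D κ R : ℝ) (m M : ℕ) {σ : ℝ} (hσ : LnAB A B σ) : ∃ E : ℝ, 0 ≤ E ∧
    ∀ (p q : ℂ) (x : Fin m → ℂ) (y : Fin M → ℂ) (hX hY : ℂ → ℂ), UD α β B D κ R p q x y hX hY →
      ∀ w w' : ℂ, w.re = σ → w'.re = B → ∀ z : ℂ, OnL α β z.re →
      ‖Gr0 hX x z * Ck (w - z) * Ck (z - (w' + 3 * l))‖ ≤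
        E * Real.exp (-((κ - 2 * ((M : ℝ) - m)) * |z.im|) + 1 * |z.im - w.im| + 1 * |z.im - w'.im|) ∧
      ‖Gr0 hY y z * (Dk (w - z) * Ck (w' - z)) * qg (z - (w' + 3 * l))‖ ≤
        E * Real.exp (-((κ - 2 * ((m : ℝ) - M)) * |z.im|) + -1 * |z.im - w.im| + -1 * |z.im - w'.im|) := by
  obtain ⟨G, hG, bG⟩ := Gr0_box L D κ R m M
  obtain ⟨G', hG', bG'⟩ := Gr0_box L D κ R M m
  obtain ⟨c1, p1, b1⟩ := SB_Ck L (σ := B) (Or.inr rfl)
  obtain ⟨c2, p2, b2⟩ := SB_Dk L hσ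
  obtain ⟨c3, p3, b3⟩ := SB_qg L
  obtain ⟨c4, p4, b4⟩ := SB_Ck L hσ
  obtain ⟨c5, p5, b5⟩ := SB_Cs L
  have q1 : 0 ≤ G * (c4 * c5) := by positivity
  have q2 : 0 ≤ G' * (c2 * (c1 * c3)) := by positivity
  refine ⟨G * (c4 * c5) + G' * (c2 * (c1 * c3)), by positivity,
    fun p q x y hX hY U w w' hw hw' z hz => ⟨?_, ?_⟩⟩
  · have h2 := spec2 hG p4 (bG p q x y hX hY U z hz) (b4 w z hw hz) (b5 w' z hw' hz)
    rw [show Gr0 hX x z * Ck (w - z) * Ck (z - (w' + 3 * l)) =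
      Gr0 hX x z * (Ck (w - z) * Ck (z - (w' + 3 * l))) by ring]
    exact mono_c h2 (by linarith)
  · have h2 := spec2 hG' p2 (bG' q p y x hY hX U.symm z hz) (b2 w z hw hz)
      (ckqg p1 p3 b1 b3 w' z hw' hz)
    rw [show Gr0 hY y z * (Dk (w - z) * Ck (w' - z)) * qg (z - (w' + 3 * l)) =
      Gr0 hY y z * (Dk (w - z) * (Ck (w' - z) * qg (z - (w' + 3 * l)))) by ring]
    exact mono_c h2 (by linarith)

theorem gb_PP (L : Ln α β A B) (D κ R : ℝ) (m M : ℕ) : ∃ E : ℝ, 0 ≤ E ∧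
    ∀ (p q : ℂ) (x : Fin m → ℂ) (y : Fin M → ℂ) (hX hY : ℂ → ℂ), UD α β B D κ R p q x y hX hY →
      ∀ w w' : ℂ, w.re = B → w'.re = B → ∀ z : ℂ, OnL α β z.re →
      ‖Gr0 hX x z * Ck (w - z) * qg (z - (w + 3 * l)) * Ck (z - (w' + 3 * l))‖ ≤
        E * Real.exp (-((κ - 2 * ((M : ℝ) - m)) * |z.im|) + -1 * |z.im - w.im| + 1 * |z.im - w'.im|) ∧
      ‖Gr0 hY y z * Ck (w' - z) * Ck (z - (w + 3 * l)) * qg (z - (w' + 3 * l))‖ ≤
        E * Real.exp (-((κ - 2 * ((m : ℝ) - M)) * |z.im|) + 1 * |z.im - w.im| + -1 * |z.im - w'.im|) := by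
  obtain ⟨G, hG, bG⟩ := Gr0_box L D κ R m M
  obtain ⟨G', hG', bG'⟩ := Gr0_box L D κ R M m
  obtain ⟨c1, p1, b1⟩ := SB_Ck L (σ := B) (Or.inr rfl)
  obtain ⟨c3, p3, b3⟩ := SB_qg L
  obtain ⟨c5, p5, b5⟩ := SB_Cs L
  have q1 : 0 ≤ G * (c1 * c3 * c5) := by positivity
  have q2 : 0 ≤ G' * (c5 * (c1 * c3)) := by positivity
  refine ⟨G * (c1 * c3 * c5) + G' * (c5 * (c1 * c3)), by positivity,
    fun p q x y hX hY U w w' hw hw' z hz => ⟨?_, ?_⟩⟩
  · have h2 := spec2 hG (by positivity) (bG p q x y hX hY U z hz)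
      (ckqg p1 p3 b1 b3 w z hw hz) (b5 w' z hw' hz)
    rw [show Gr0 hX x z * Ck (w - z) * qg (z - (w + 3 * l)) * Ck (z - (w' + 3 * l)) =
      Gr0 hX x z * (Ck (w - z) * qg (z - (w + 3 * l)) * Ck (z - (w' + 3 * l))) by ring]
    exact mono_c h2 (by linarith)
  · have h2 := spec2 hG' p5 (bG' q p y x hY hX U.symm z hz) (b5 w z hw hz)
      (ckqg p1 p3 b1 b3 w' z hw' hz)
    rw [show Gr0 hY y z * Ck (w' - z) * Ck (z - (w + 3 * l)) * qg (z - (w' + 3 * l)) =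
      Gr0 hY y z * (Ck (z - (w + 3 * l)) * (Ck (w' - z) * qg (z - (w' + 3 * l)))) by ring]
    exact mono_c h2 (by linarith)

end gb

/-! ### the family -/

/-- a family of data with uniform bounds and its limit -/
structure Fm {ι : Type*} (F : Filter ι) (α β B D κ R : ℝ) {m M : ℕ} (p q : ι → ℂ)
    (x : ι → Fin m → ℂ) (y : ι → Fin M → ℂ) (hX hY : ι → ℂ → ℂ) (p0 q0 : ℂ) (x0 : Fin m → ℂ) (y0 : Fin M → ℂ)
    (hX0 hY0 : ℂ → ℂ) : Prop where
  U : ∀ᶠ e in F, UD α β B D κ R (p e) (q e) (x e) (y e) (hX e) (hY e)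
  b1 : Bx R p0
  b2 : Bx R q0
  b3 : ∀ i, Bx R (x0 i)
  b4 : ∀ i, Bx R (y0 i)
  tp : Tendsto p F (𝓝 p0)
  tq : Tendsto q F (𝓝 q0)
  tx : ∀ i, Tendsto (fun e => x e i) F (𝓝 (x0 i))
  ty : ∀ i, Tendsto (fun e => y e i) F (𝓝 (y0 i))
  tX : ∀ z : ℂ, (OnL α β z.re ∨ z.re = B + 3 * l) → Tendsto (fun e => hX e z) F (𝓝 (hX0 z))
  tY : ∀ z : ℂ, (OnL α β z.re ∨ z.re = B + 3 * l) → Tendsto (fun e => hY e z) F (𝓝 (hY0 z))

section
variable {ι : Type*} {F : Filter ι} {D κ R : ℝ} {m M : ℕ} {p q : ι → ℂ}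
    {x : ι → Fin m → ℂ} {y : ι → Fin M → ℂ} {hX hY : ι → ℂ → ℂ} {p0 q0 : ℂ} {x0 : Fin m → ℂ} {y0 : Fin M → ℂ}
    {hX0 hY0 : ℂ → ℂ}

theorem Fm.symm (H : Fm F α β B D κ R p q x y hX hY p0 q0 x0 y0 hX0 hY0) :
    Fm F α β B D κ R q p y x hY hX q0 p0 y0 x0 hY0 hX0 :=
  ⟨H.U.mono fun _ h => h.symm, H.b2, H.b1, H.b4, H.b3, H.tq, H.tp, H.ty, H.tx, H.tY, H.tX⟩

theorem t_prc (H : Fm F α β B D κ R p q x y hX hY p0 q0 x0 y0 hX0 hY0) {σ : ℝ} (h1 : Far σ)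
    (h2 : Far (σ - 2 * l)) {z : ℂ} (hz : z.re = σ) :
    Tendsto (fun e => prc (p e) (q e) (x e) z) F (𝓝 (prc p0 q0 x0 z)) :=
  ((t_kap h1 h2 H.b1 hz H.tp).mul (t_sin z H.tq)).mul (t_rA h1 hz H.b3 H.tx)

theorem t_pr1 (H : Fm F α β B D κ R p q x y hX hY p0 q0 x0 y0 hX0 hY0) {σ : ℝ} (h1 : Far σ)
    (h2 : Far (σ - 2 * l)) {z : ℂ} (hz : z.re = σ) :
    Tendsto (fun e => pr1 (p e) (q e) (x e) (y e) z) F (𝓝 (pr1 p0 q0 x0 y0 z)) :=
  (t_prc H h1 h2 hz).mul (t_rB z H.ty)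

theorem t_Gr0 (L : Ln α β A B) (H : Fm F α β B D κ R p q x y hX hY p0 q0 x0 y0 hX0 hY0) {z : ℂ}
    (hz : OnL α β z.re) : Tendsto (fun e => Gr0 (hX e) (x e) z) F (𝓝 (Gr0 hX0 x0 z)) := by
  have hF : Far z.re := by
    rcases hz with hz | hz | hz <;> rw [hz]
    · exact Far_al L
    · exact Far_be L
    · exact Far_bl L
  exact (H.tX z (Or.inl hz)).mul (t_rA hF rfl H.b3 H.tx)

theorem t_XD (L : Ln α β A B) (H : Fm F α β B D κ R p q x y hX hY p0 q0 x0 y0 hX0 hY0) {z : ℂ}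
    (hz : z.re = B) : Tendsto (fun e => XD (p e) (q e) (y e) z) F (𝓝 (XD p0 q0 y0 z)) := by
  have e : ∀ (p q : ℂ) (y : Fin M → ℂ), XD p q y z =
      -sin (2 * l) ^ 2 * (1 / sin (z + l - p) * (1 / sin (z - q))) *
      ∏ j, (-sin (z - y j - 2 * l) * (1 / sin (z - y j))) := by
    intro p q y
    unfold XD
    rw [show z - p + l = z + l - p by ring, div_eq_mul_inv, mul_inv,
      Finset.prod_congr rfl fun j _ => div_eq_mul_one_div (-sin (z - y j - 2 * l)) (sin (z - y j))]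
    ring
  simp_rw [e]
  refine Tendsto.mul (Tendsto.const_mul _ ((t_inv (Far_Bl L) H.b1 (by simp [hz]) H.tp).mul
    (t_inv (Far_B L) H.b2 hz H.tq))) ?_
  refine tendsto_finsetProd _ fun i _ => Tendsto.mul ?_ (t_inv (Far_B L) (H.b4 i) hz (H.ty i))
  have : Continuous fun u : ℂ => -sin (z - u - 2 * l) := by fun_prop
  exact (this.tendsto (y0 i)).comp (H.ty i)

variable [F.IsCountablyGenerated]

theorem mGr (H : Fm F α β B D κ R p q x y hX hY p0 q0 x0 y0 hX0 hY0) (k : ℂ → ℂ)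
    (hk : Measurable k) : ∀ᶠ e in F, Measurable fun u => Gr0 (hX e) (x e) u * k u := by
  filter_upwards [H.U] with e he
  exact (Gr0_meas he.mX _).mul hk

theorem t_Z0 (L : Ln α β A B) (H : Fm F α β B D κ R p q x y hX hY p0 q0 x0 y0 hX0 hY0)
    {n n' : ℕ} (hn : n + M = n' + m) (hK : 2 < κ) {σ τ : ℝ} (hσ : LnAB A B σ) (hτ : LnAB A B τ) {w w' : ℂ}
    (hw : w.re = σ) (hw' : w'.re = τ) :
    Tendsto (fun e => Z3 α β n n' (GXs (hX e) (x e) w w') (GYs (hY e) (y e) w w')) F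
      (𝓝 (Z3 α β n n' (GXs hX0 x0 w w') (GYs hY0 y0 w w'))) := by
  have w1 := L.w.lo
  have w2 := L.w.hi
  have hl := lpos
  obtain ⟨E, hE, hb⟩ := gb_0 L D κ R m M hσ hτ
  refine Z3_tendsto_two (D := E) (κ := κ - 2 * ((M : ℝ) - m)) (κ' := κ - 2 * ((m : ℝ) - M)) (s1 := 1) (s2 := -1) (r1 := -1)
    (r2 := 1) (d0 := (M : ℝ) - m) (d1 := 0) (d2 := 0) (W := |w.im| + |w'.im|) (by linarith) (by linarith)
    (by rw [num_eq hn]; ring) (by norm_num; linarith) (by norm_num; linarith)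
    (mGr H _ ((Ck_meas w).mul (Dk_meas w'))) (mGr H.symm _ ((Dk_meas w).mul (Ck_meas w')))
    (fun z hz => (t_Gr0 L H hz).mul_const _) (fun z hz => (t_Gr0 L H.symm hz).mul_const _)
    (fun _ => w.im) (fun _ => w'.im) (Eventually.of_forall fun _ => ⟨?_, ?_⟩) ?_ ?_
  · linarith [abs_nonneg w'.im]
  · linarith [abs_nonneg w.im]
  · filter_upwards [H.U] with e he
    exact fun z hz => (hb _ _ _ _ _ _ he w w' hw hw' z hz).1
  · filter_upwards [H.U] with e he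
    exact fun z hz => (hb _ _ _ _ _ _ he w w' hw hw' z hz).2

theorem t_ZP (L : Ln α β A B) (H : Fm F α β B D κ R p q x y hX hY p0 q0 x0 y0 hX0 hY0)
    {n n' : ℕ} (hn : n + M = n' + m) (hK : 2 < κ) {τ : ℝ} (hτ : LnAB A B τ) {w w' : ℂ}
    (hw : w.re = B) (hw' : w'.re = τ) :
    Tendsto (fun e => ZP α β (x e) (y e) (hX e) (hY e) n n' w w') F
      (𝓝 (ZP α β x0 y0 hX0 hY0 n n' w w')) := by
  have w1 := L.w.lo
  have w2 := L.w.hi
  have hl := lpos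
  unfold ZP
  by_cases hn1 : 1 ≤ n'
  · simp only [if_pos hn1]
    have e : ((n' - 1 : ℕ) : ℝ) = (n : ℝ) + ((M : ℝ) - m) - 1 := by
      rw [Nat.cast_sub hn1, ← num_eq hn]
      push_cast
      ring
    obtain ⟨E, hE, hb⟩ := gb_P L D κ R m M hτ
    have mX : ∀ᶠ e in F, Measurable fun u => Gr0 (hX e) (x e) u * (Ck (w - u) * Dk (w' - u)) *
        qg (u - (w + 3 * l)) := by
      filter_upwards [H.U] with e he
      exact ((Gr0_meas he.mX _).mul ((Ck_meas w).mul (Dk_meas w'))).mul (qg_meas' _)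
    have mY : ∀ᶠ e in F, Measurable fun v => Gr0 (hY e) (y e) v * Ck (w' - v) *
        Ck (v - (w + 3 * l)) := by
      filter_upwards [H.U] with e he
      exact ((Gr0_meas he.mY _).mul (Ck_meas w')).mul (Ck_meas' _)
    refine Z3_tendsto_two (D := E) (κ := κ - 2 * ((M : ℝ) - m)) (κ' := κ - 2 * ((m : ℝ) - M)) (s1 := -1) (s2 := -1) (r1 := 1)
      (r2 := 1) (d0 := (M : ℝ) - m) (d1 := -1) (d2 := 0) (W := |w.im| + |w'.im|) (by linarith)
      (by linarith) (by rw [e]; ring) (by norm_num; linarith) (by norm_num; linarith) mX mY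
      (fun z hz => ((t_Gr0 L H hz).mul_const _).mul_const _)
      (fun z hz => ((t_Gr0 L H.symm hz).mul_const _).mul_const _)
      (fun _ => w.im) (fun _ => w'.im) (Eventually.of_forall fun _ => ⟨?_, ?_⟩) ?_ ?_
    · linarith [abs_nonneg w'.im]
    · linarith [abs_nonneg w.im]
    · filter_upwards [H.U] with e he
      exact fun z hz => (hb _ _ _ _ _ _ he w w' hw hw' z hz).1
    · filter_upwards [H.U] with e he
      exact fun z hz => (hb _ _ _ _ _ _ he w w' hw hw' z hz).2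
  · simp only [if_neg hn1]
    exact tendsto_const_nhds

theorem t_ZP' (L : Ln α β A B) (H : Fm F α β B D κ R p q x y hX hY p0 q0 x0 y0 hX0 hY0)
    {n n' : ℕ} (hn : n + M = n' + m) (hK : 2 < κ) {σ : ℝ} (hσ : LnAB A B σ) {w w' : ℂ}
    (hw : w.re = σ) (hw' : w'.re = B) :
    Tendsto (fun e => ZP' α β (x e) (y e) (hX e) (hY e) n n' w w') F
      (𝓝 (ZP' α β x0 y0 hX0 hY0 n n' w w')) := by
  have w1 := L.w.lo
  have w2 := L.w.hi
  have hl := lpos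
  unfold ZP'
  by_cases hn1 : 1 ≤ n
  · simp only [if_pos hn1]
    have hd := num_eq hn
    have e : ((n - 1 : ℕ) : ℝ) = (n : ℝ) - 1 := by
      rw [Nat.cast_sub hn1]; norm_num
    obtain ⟨E, hE, hb⟩ := gb_P' L D κ R m M hσ
    have mX : ∀ᶠ e in F, Measurable fun u => Gr0 (hX e) (x e) u * Ck (w - u) *
        Ck (u - (w' + 3 * l)) := by
      filter_upwards [H.U] with e he
      exact ((Gr0_meas he.mX _).mul (Ck_meas w)).mul (Ck_meas' _)
    have mY : ∀ᶠ e in F, Measurable fun v => Gr0 (hY e) (y e) v * (Dk (w - v) * Ck (w' - v)) *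
        qg (v - (w' + 3 * l)) := by
      filter_upwards [H.U] with e he
      exact ((Gr0_meas he.mY _).mul ((Dk_meas w).mul (Ck_meas w'))).mul (qg_meas' _)
    refine Z3_tendsto_two (D := E) (κ := κ - 2 * ((M : ℝ) - m)) (κ' := κ - 2 * ((m : ℝ) - M)) (s1 := 1) (s2 := 1) (r1 := -1)
      (r2 := -1) (d0 := (M : ℝ) - m) (d1 := 0) (d2 := 1) (W := |w.im| + |w'.im|) (by linarith)
      (by linarith) (by rw [e]; linarith) (by norm_num; linarith) (by norm_num; linarith) mX mY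
      (fun z hz => ((t_Gr0 L H hz).mul_const _).mul_const _)
      (fun z hz => ((t_Gr0 L H.symm hz).mul_const _).mul_const _)
      (fun _ => w.im) (fun _ => w'.im) (Eventually.of_forall fun _ => ⟨?_, ?_⟩) ?_ ?_
    · linarith [abs_nonneg w'.im]
    · linarith [abs_nonneg w.im]
    · filter_upwards [H.U] with e he
      exact fun z hz => (hb _ _ _ _ _ _ he w w' hw hw' z hz).1
    · filter_upwards [H.U] with e he
      exact fun z hz => (hb _ _ _ _ _ _ he w w' hw hw' z hz).2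
  · simp only [if_neg hn1]
    exact tendsto_const_nhds

theorem t_ZPP (L : Ln α β A B) (H : Fm F α β B D κ R p q x y hX hY p0 q0 x0 y0 hX0 hY0)
    {n n' : ℕ} (hn : n + M = n' + m) (hK : 2 < κ) {w w' : ℂ} (hw : w.re = B) (hw' : w'.re = B) :
    Tendsto (fun e => ZPP α β (x e) (y e) (hX e) (hY e) n n' w w') F
      (𝓝 (ZPP α β x0 y0 hX0 hY0 n n' w w')) := by
  have w1 := L.w.lo
  have w2 := L.w.hi
  have hl := lpos
  unfold ZPP
  by_cases hn1 : 1 ≤ n ∧ 1 ≤ n'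
  · simp only [if_pos hn1]
    have e : ((n - 1 : ℕ) : ℝ) = (n : ℝ) - 1 := by
      rw [Nat.cast_sub hn1.1]; norm_num
    have e' : ((n' - 1 : ℕ) : ℝ) = (n : ℝ) + ((M : ℝ) - m) - 1 := by
      rw [Nat.cast_sub hn1.2, ← num_eq hn]
      push_cast
      ring
    obtain ⟨E, hE, hb⟩ := gb_PP L D κ R m M
    have mX : ∀ᶠ e in F, Measurable fun u => Gr0 (hX e) (x e) u * Ck (w - u) *
        qg (u - (w + 3 * l)) * Ck (u - (w' + 3 * l)) := by
      filter_upwards [H.U] with e he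
      exact (((Gr0_meas he.mX _).mul (Ck_meas w)).mul (qg_meas' _)).mul (Ck_meas' _)
    have mY : ∀ᶠ e in F, Measurable fun v => Gr0 (hY e) (y e) v * Ck (w' - v) *
        Ck (v - (w + 3 * l)) * qg (v - (w' + 3 * l)) := by
      filter_upwards [H.U] with e he
      exact (((Gr0_meas he.mY _).mul (Ck_meas w')).mul (Ck_meas' _)).mul (qg_meas' _)
    refine Z3_tendsto_two (D := E) (κ := κ - 2 * ((M : ℝ) - m)) (κ' := κ - 2 * ((m : ℝ) - M)) (s1 := -1) (s2 := 1) (r1 := 1)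
      (r2 := -1) (d0 := (M : ℝ) - m) (d1 := 0) (d2 := 0) (W := |w.im| + |w'.im|) (by linarith)
      (by linarith) (by rw [e, e']; ring) (by norm_num; linarith) (by norm_num; linarith) mX mY
      (fun z hz => (((t_Gr0 L H hz).mul_const _).mul_const _).mul_const _)
      (fun z hz => (((t_Gr0 L H.symm hz).mul_const _).mul_const _).mul_const _)
      (fun _ => w.im) (fun _ => w'.im) (Eventually.of_forall fun _ => ⟨?_, ?_⟩) ?_ ?_
    · linarith [abs_nonneg w'.im]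
    · linarith [abs_nonneg w.im]
    · filter_upwards [H.U] with e he
      exact fun z hz => (hb _ _ _ _ _ _ he w w' hw hw' z hz).1
    · filter_upwards [H.U] with e he
      exact fun z hz => (hb _ _ _ _ _ _ he w w' hw hw' z hz).2
  · simp only [if_neg hn1]
    exact tendsto_const_nhds

theorem t_ZD (L : Ln α β A B) (H : Fm F α β B D κ R p q x y hX hY p0 q0 x0 y0 hX0 hY0)
    {n n' : ℕ} (hn : n + M = n' + m) (hK : 2 < κ) {w : ℂ} (hw : w.re = B) :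
    Tendsto (fun e => Z3 α β n n' (Gr0 (hX e) (x e)) (fun v => Gr0 (hY e) (y e) v * Tk (w - v))) F
      (𝓝 (Z3 α β n n' (Gr0 hX0 x0) (fun v => Gr0 hY0 y0 v * Tk (w - v)))) ∧
    Tendsto (fun e => Z3 α β n n' (fun u => Gr0 (hX e) (x e) u * Tk (w - u)) (Gr0 (hY e) (y e))) F
      (𝓝 (Z3 α β n n' (fun u => Gr0 hX0 x0 u * Tk (w - u)) (Gr0 hY0 y0))) := by
  have w1 := L.w.lo
  have w2 := L.w.hi
  have hl := lpos
  obtain ⟨G, hG, bG⟩ := Gr0_box L D κ R m M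
  obtain ⟨G', hG', bG'⟩ := Gr0_box L D κ R M m
  obtain ⟨c, pc, b⟩ := SB_Tk L
  have q1 : 0 ≤ G * c := by positivity
  have q2 : 0 ≤ G' * c := by positivity
  set E := G * c + G + (G' * c + G') with hE
  have mT : Measurable fun u : ℂ => Tk (w - u) := m_Tk.comp (by fun_prop)
  have bT : ∀ z : ℂ, OnL α β z.re → ‖Tk (w - z)‖ ≤ c := by
    intro z hz
    have := b w z hw hz
    simpa using this
  have k1 : ∀ {p q : ℂ} {x : Fin m → ℂ} {y : Fin M → ℂ} {hX hY : ℂ → ℂ}, UD α β B D κ R p q x y hX hY →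
      ∀ z : ℂ, OnL α β z.re → ‖Gr0 hX x z‖ ≤ E * Real.exp (-((κ - 2 * ((M : ℝ) - m)) * |z.im|)) :=
    fun U z hz => mono_c (bG _ _ _ _ _ _ U z hz) (by linarith)
  have k1' : ∀ {p q : ℂ} {x : Fin m → ℂ} {y : Fin M → ℂ} {hX hY : ℂ → ℂ}, UD α β B D κ R p q x y hX hY →
      ∀ z : ℂ, OnL α β z.re → ‖Gr0 hY y z‖ ≤ E * Real.exp (-((κ - 2 * ((m : ℝ) - M)) * |z.im|)) :=
    fun U z hz => mono_c (bG' _ _ _ _ _ _ U.symm z hz) (by linarith)
  have k2 : ∀ {p q : ℂ} {x : Fin m → ℂ} {y : Fin M → ℂ} {hX hY : ℂ → ℂ}, UD α β B D κ R p q x y hX hY →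
      ∀ z : ℂ, OnL α β z.re → ‖Gr0 hX x z * Tk (w - z)‖ ≤
        E * Real.exp (-((κ - 2 * ((M : ℝ) - m)) * |z.im|)) := by
    intro p q x y hX hY U z hz
    rw [norm_mul]
    calc _ ≤ (G * Real.exp (-((κ - 2 * ((M : ℝ) - m)) * |z.im|))) * c :=
          mul_le_mul (bG p q x y hX hY U z hz) (bT z hz) (norm_nonneg _) (by positivity)
      _ = (G * c) * Real.exp (-((κ - 2 * ((M : ℝ) - m)) * |z.im|)) := by ring
      _ ≤ _ := mul_le_mul_of_nonneg_right (by linarith) (Real.exp_pos _).le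
  have k2' : ∀ {p q : ℂ} {x : Fin m → ℂ} {y : Fin M → ℂ} {hX hY : ℂ → ℂ}, UD α β B D κ R p q x y hX hY →
      ∀ z : ℂ, OnL α β z.re → ‖Gr0 hY y z * Tk (w - z)‖ ≤
        E * Real.exp (-((κ - 2 * ((m : ℝ) - M)) * |z.im|)) := by
    intro p q x y hX hY U z hz
    rw [norm_mul]
    calc _ ≤ (G' * Real.exp (-((κ - 2 * ((m : ℝ) - M)) * |z.im|))) * c :=
          mul_le_mul (bG' _ _ _ _ _ _ U.symm z hz) (bT z hz) (norm_nonneg _) (by positivity)
      _ = (G' * c) * Real.exp (-((κ - 2 * ((m : ℝ) - M)) * |z.im|)) := by ring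
      _ ≤ _ := mul_le_mul_of_nonneg_right (by linarith) (Real.exp_pos _).le
  have hd := num_eq hn
  constructor
  · refine Z3_tendsto (D := E) (κ := κ - 2 * ((M : ℝ) - m)) (κ' := κ - 2 * ((m : ℝ) - M)) (by linarith)
      (by linarith) ?_ (mGr H.symm _ mT) (fun z hz => t_Gr0 L H hz)
      (fun z hz => (t_Gr0 L H.symm hz).mul_const _) ?_ ?_ (by linarith) (by linarith)
    · filter_upwards [H.U] with e he
      exact Gr0_meas he.mX _
    · filter_upwards [H.U] with e he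
      exact k1 he
    · filter_upwards [H.U] with e he
      exact k2' he
  · refine Z3_tendsto (D := E) (κ := κ - 2 * ((M : ℝ) - m)) (κ' := κ - 2 * ((m : ℝ) - M)) (by linarith)
      (by linarith) (mGr H _ mT) ?_ (fun z hz => (t_Gr0 L H hz).mul_const _)
      (fun z hz => t_Gr0 L H.symm hz) ?_ ?_ (by linarith) (by linarith)
    · filter_upwards [H.U] with e he
      exact Gr0_meas he.mY _
    · filter_upwards [H.U] with e he
      exact k2 he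
    · filter_upwards [H.U] with e he
      exact k1' he

/-! ### the eleven integrals -/

theorem t_I0 (L : Ln α β A B) (H : Fm F α β B D κ R p q x y hX hY p0 q0 x0 y0 hX0 hY0)
    {n n' : ℕ} (hn : n + M = n' + m) (hK : 2 < κ) {σ τ : ℝ} (hσ : LnAB A B σ) (hτ : LnAB A B τ) :
    Tendsto (fun e => LL σ τ (I0 α β (p e) (q e) (x e) (y e) (hX e) (hY e) n n')) F
      (𝓝 (LL σ τ (I0 α β p0 q0 x0 y0 hX0 hY0 n n'))) := by
  obtain ⟨C, hC⟩ := db_I0 L D κ R hn hK hσ hτ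
  obtain ⟨f1, f2⟩ := Far_AB L hσ
  obtain ⟨f3, f4⟩ := Far_AB L hτ
  refine LL_tendsto (C := C) ?_ ?_ fun s t => ?_
  · filter_upwards [H.U] with e he
    exact m_I0 he.mX he.mY _ _ n n'
  · filter_upwards [H.U] with e he
    exact hC _ _ _ _ _ _ he
  · exact (Tendsto.const_mul _ ((t_pr1 H f1 f2 (vlre σ s)).mul
      (t_pr1 H.symm f3 f4 (vlre τ t)))).mul (t_Z0 L H hn hK hσ hτ (vlre _ _) (vlre _ _))

theorem t_IP (L : Ln α β A B) (H : Fm F α β B D κ R p q x y hX hY p0 q0 x0 y0 hX0 hY0)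
    {n n' : ℕ} (hn : n + M = n' + m) (hK : 2 < κ) {τ : ℝ} (hτ : LnAB A B τ) :
    Tendsto (fun e => LL B τ (IP α β (p e) (q e) (x e) (y e) (hX e) (hY e) n n')) F
      (𝓝 (LL B τ (IP α β p0 q0 x0 y0 hX0 hY0 n n'))) := by
  obtain ⟨C, hC⟩ := db_IP L D κ R hn hK hτ
  obtain ⟨f1, f2⟩ := Far_AB L (σ := B) (Or.inr rfl)
  obtain ⟨f3, f4⟩ := Far_AB L hτ
  refine LL_tendsto (C := C) ?_ ?_ fun s t => ?_
  · filter_upwards [H.U] with e he
    exact m_IP he.mX he.mY _ _ n n'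
  · filter_upwards [H.U] with e he
    exact hC _ _ _ _ _ _ he
  · exact (Tendsto.const_mul _ (Tendsto.const_mul _ (((t_prc H f1 f2 (vlre B s)).mul
      (H.tY _ (Or.inr (vl3_re B s)))).mul (t_pr1 H.symm f3 f4 (vlre τ t))))).mul
      (t_ZP L H hn hK hτ (vlre _ _) (vlre _ _))

theorem t_IP' (L : Ln α β A B) (H : Fm F α β B D κ R p q x y hX hY p0 q0 x0 y0 hX0 hY0)
    {n n' : ℕ} (hn : n + M = n' + m) (hK : 2 < κ) {σ : ℝ} (hσ : LnAB A B σ) :
    Tendsto (fun e => LL σ B (IP' α β (p e) (q e) (x e) (y e) (hX e) (hY e) n n')) F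
      (𝓝 (LL σ B (IP' α β p0 q0 x0 y0 hX0 hY0 n n'))) := by
  obtain ⟨C, hC⟩ := db_IP' L D κ R hn hK hσ
  obtain ⟨f1, f2⟩ := Far_AB L (σ := B) (Or.inr rfl)
  obtain ⟨f3, f4⟩ := Far_AB L hσ
  refine LL_tendsto (C := C) ?_ ?_ fun s t => ?_
  · filter_upwards [H.U] with e he
    exact m_IP' he.mX he.mY _ _ n n'
  · filter_upwards [H.U] with e he
    exact hC _ _ _ _ _ _ he
  · exact (Tendsto.const_mul _ (Tendsto.const_mul _ ((t_pr1 H f3 f4 (vlre σ s)).mul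
      ((t_prc H.symm f1 f2 (vlre B t)).mul (H.tX _ (Or.inr (vl3_re B t))))))).mul
      (t_ZP' L H hn hK hσ (vlre _ _) (vlre _ _))

theorem t_IPP (L : Ln α β A B) (H : Fm F α β B D κ R p q x y hX hY p0 q0 x0 y0 hX0 hY0)
    {n n' : ℕ} (hn : n + M = n' + m) (hK : 2 < κ) :
    Tendsto (fun e => LL B B (IPP α β (p e) (q e) (x e) (y e) (hX e) (hY e) n n')) F
      (𝓝 (LL B B (IPP α β p0 q0 x0 y0 hX0 hY0 n n'))) := by
  obtain ⟨C, hC⟩ := db_IPP L D κ R hn hK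
  obtain ⟨f1, f2⟩ := Far_AB L (σ := B) (Or.inr rfl)
  refine LL_tendsto (C := C) ?_ ?_ fun s t => ?_
  · filter_upwards [H.U] with e he
    exact m_IPP he.mX he.mY _ _ n n'
  · filter_upwards [H.U] with e he
    exact hC _ _ _ _ _ _ he
  · exact (Tendsto.const_mul _ (Tendsto.const_mul _ (((t_prc H f1 f2 (vlre B s)).mul
      (H.tY _ (Or.inr (vl3_re B s)))).mul ((t_prc H.symm f1 f2 (vlre B t)).mul
      (H.tX _ (Or.inr (vl3_re B t))))))).mul (t_ZPP L H hn hK (vlre _ _) (vlre _ _))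

theorem t_ID (L : Ln α β A B) (H : Fm F α β B D κ R p q x y hX hY p0 q0 x0 y0 hX0 hY0)
    {n n' : ℕ} (hn : n + M = n' + m) (hK : 2 < κ) :
    Tendsto (fun e => LI B (ID α β (p e) (q e) (x e) (y e) (hX e) (hY e) n n')) F
      (𝓝 (LI B (ID α β p0 q0 x0 y0 hX0 hY0 n n'))) ∧
    Tendsto (fun e => LI B (ID' α β (p e) (q e) (x e) (y e) (hX e) (hY e) n n')) F
      (𝓝 (LI B (ID' α β p0 q0 x0 y0 hX0 hY0 n n'))) := by
  obtain ⟨C, hC⟩ := db_ID L D κ R hn hK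
  constructor
  · refine LI_tendsto (C := C) ?_ ?_ fun t => ?_
    · filter_upwards [H.U] with e he
      exact m_ID he.mX he.mY _ _ n n'
    · filter_upwards [H.U] with e he
      exact fun t => (hC _ _ _ _ _ _ he t).1
    · exact (t_XD L H (vlre _ _)).mul (t_ZD L H hn hK (vlre _ _)).1
  · refine LI_tendsto (C := C) ?_ ?_ fun t => ?_
    · filter_upwards [H.U] with e he
      exact m_ID' he.mX he.mY _ _ n n'
    · filter_upwards [H.U] with e he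
      exact fun t => (hC _ _ _ _ _ _ he t).2
    · exact (t_XD L H.symm (vlre _ _)).mul (t_ZD L H hn hK (vlre _ _)).2

/-- **The eleven integrals converge.** -/
theorem E11_tendsto (L : Ln α β A B) (H : Fm F α β B D κ R p q x y hX hY p0 q0 x0 y0 hX0 hY0)
    {n n' : ℕ} (hn : n + M = n' + m) (hK : 2 < κ) :
    Tendsto (fun e => E11 α β (p e) (q e) (x e) (y e) (hX e) (hY e) n n' A B) F
      (𝓝 (E11 α β p0 q0 x0 y0 hX0 hY0 n n' A B)) := by
  have hA : LnAB A B A := Or.inl rfl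
  have hB : LnAB A B B := Or.inr rfl
  unfold E11
  exact (((((t_I0 L H hn hK hA hA).sub (t_I0 L H hn hK hA hB)).sub (t_IP' L H hn hK hA)).sub
    ((t_I0 L H hn hK hB hA).add (t_IP L H hn hK hA))).add
    ((((t_I0 L H hn hK hB hB).add (t_IP' L H hn hK hB)).add (t_IP L H hn hK hB)).add
      (t_IPP L H hn hK))).sub
    (((t_ID L H hn hK).1.add (t_ID L H hn hK).2).const_mul _)

end


end Pool.Agent.PLX.Rg

end
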