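import Pool.Agent.PLX.RgD

/-!
# PLAX, exact layer: the two-point function `RE` for `m ≤ M` rows and the limit of equal heights
(the layer of NUP1L.LegFin, RowC)
-/

set_option autoImplicit false
set_option linter.unusedSectionVars false
set_option linter.unusedVariables false

noncomputable section

open Complex MeasureTheory Filter Topology

namespace Pool.Agent.PLX.Rg

open NUP1 NUP1.Leg
open NUTP (th ea)
open NUTP.Gas (gasF)
open NUP1.N (Ln RD E11 Bx OnL LnAB)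

variable {m M : ℕ} {A B : ℝ}

/-- grouping by the number of quanta of the first group -/
theorem sum_group' (F : (Fin m → SignType) → (Fin M → SignType) → ℂ) (hmM : m ≤ M) :
    (∑ a : Fin m → SignType, ∑ b : Fin M → SignType,
      if ∑ i, nq (a i) + M = ∑ j, nq (b j) + m then F a b else 0) =
      ∑ n ∈ Finset.range (2 * m + 1), ∑ a ∈ St m n, ∑ b ∈ St M (n + (M - m)), F a b := by
  have h := sum_group (m := M) (M := m) (fun b a => F a b) hmM
  rw [Finset.sum_comm] at h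
  have e : ∀ (a : Fin m → SignType) (b : Fin M → SignType),
      (if ∑ i, nq (b i) + m = ∑ j, nq (a j) + M then F a b else 0) =
      if ∑ i, nq (a i) + M = ∑ j, nq (b j) + m then F a b else 0 := fun a b => by
    by_cases hc : ∑ i, nq (b i) + m = ∑ j, nq (a j) + M
    · rw [if_pos hc, if_pos hc.symm]
    · rw [if_neg hc, if_neg fun k => hc k.symm]
  simp only [e] at h
  rw [h]
  refine Finset.sum_congr rfl fun n _ => ?_
  rw [Finset.sum_comm]

/-- **The two-point function `RE` as double line integrals**, `m ≤ M`. -/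
theorem RE_LLs {p h q g : ℂ} {x : Fin m → ℂ} {y : Fin M → ℂ} (H : Ht p h q g x y)
    (R : Rp h g x y) (hmM : m ≤ M) (hα1 : 1 / 2 * l < A) (hα2 : A < 3 / 2 * l)
    (hβ1 : -(9 / 2 * l) < B) (hβ2 : B < -(3 / 2 * l)) (h3 : 3 * l < A - B)
    (h5 : A - B < 5 * l) :
    (gasF th 1 true (ea (-q)) (ea (-g))).RE (List.ofFn fun i => ea (-x i))
      (List.ofFn fun j => ea (-y j)) (ea (-p)) (ea (-h)) =
    sin l * (Bp h q x * Bp g p y) * ∑ n ∈ Finset.range (2 * m + 1),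
      LegJ A B h g x y (hE (cc m) h p g q x y) (hE (cc M) g q h p y x) n (n + (M - m)) := by
  rw [RE_state (fun i j hij => Gz_sub (H.xx i j hij)) (fun i j hij => Gz_sub (H.yy i j hij))
    (fun α β => by
      rcases α with _ | i <;> rcases β with _ | j
      · exact Gz_sub H.hg
      · exact Gz_sub (H.hy j)
      · exact Gz_sub fun h => H.gx i h.symm
      · exact Gz_sub (H.xy i j))
    (fun i => Gz_sub (H.hx i)) (fun i => Gz_sub (H.qx i)) (fun j => Gz_sub (H.gy j))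
    (fun j => Gz_sub (H.py j))]
  congr 1
  rw [sum_group' _ hmM]
  refine Finset.sum_congr rfl fun n _ => ?_
  exact legJ_eq H R _ _ hα1 hα2 hβ1 hβ2 h3 h5 (by omega)

/-- uniform data from the box -/
theorem UD_hC {α β B b : ℝ} {D D' R : ℝ} (c c' : ℂ) {p h q g : ℂ} {x : Fin m → ℂ} {y : Fin M → ℂ}
    (h1 : Bx R h) (h4 : Bx R g)
    (hx : ∀ i, Bx R (x i)) (hy : ∀ i, Bx R (y i))
    (b1 : ∀ z : ℂ, (OnL α β z.re ∨ z.re = B + 3 * l) →
      ‖hC b c h p g q x y z‖ ≤ D * Real.exp (-((2 * b + m - 2 * M) * |z.im|)))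
    (b2 : ∀ z : ℂ, (OnL α β z.re ∨ z.re = B + 3 * l) →
      ‖hC b c' g q h p y x z‖ ≤ D' * Real.exp (-((2 * b + M - 2 * m) * |z.im|))) :
    UD α β B (max D D') (2 * b) R h g x y (hC b c h p g q x y) (hC b c' g q h p y x) :=
  ⟨h1, h4, hx, hy, meas_hC _ _ _ _ _ _ _ _, meas_hC _ _ _ _ _ _ _ _,
    fun z hz => (b1 z hz).trans (mul_le_mul_of_nonneg_right (le_max_left _ _) (Real.exp_pos _).le),
    fun z hz => (b2 z hz).trans (mul_le_mul_of_nonneg_right (le_max_right _ _) (Real.exp_pos _).le)⟩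

/-- **The two-point function `RE` for equal heights of the rows and the ends**: the eleven
integrals at the limit of the heights, `m ≤ M` rows. -/
theorem RE_tendsto {ι : Type*} {F : Filter ι} [F.IsCountablyGenerated] {a b R : ℝ} (hmM : m ≤ M)
    (ha : a = 31 / 50 ∨ a = 5 / 4) (hb : 1 < b) (hb' : b ≤ 4 / 3)
    {p h q g : ι → ℂ} {x : ι → Fin m → ℂ} {y : ι → Fin M → ℂ} {p0 h0 q0 g0 : ℂ} {x0 : Fin m → ℂ}
    {y0 : Fin M → ℂ}
    (H : ∀ᶠ e in F, Ht (p e) (h e) (q e) (g e) (x e) (y e))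
    (B1 : ∀ᶠ e in F, Bx R (p e)) (B2 : ∀ᶠ e in F, Bx R (h e)) (B3 : ∀ᶠ e in F, Bx R (q e))
    (B4 : ∀ᶠ e in F, Bx R (g e)) (B5 : ∀ᶠ e in F, ∀ i, Bx R (x e i))
    (B6 : ∀ᶠ e in F, ∀ i, Bx R (y e i))
    (b1 : Bx R p0) (b2 : Bx R h0) (b3 : Bx R q0) (b4 : Bx R g0) (b5 : ∀ i, Bx R (x0 i))
    (b6 : ∀ i, Bx R (y0 i))
    (t1 : Tendsto p F (𝓝 p0)) (t2 : Tendsto h F (𝓝 h0)) (t3 : Tendsto q F (𝓝 q0))
    (t4 : Tendsto g F (𝓝 g0)) (t5 : ∀ i, Tendsto (fun e => x e i) F (𝓝 (x0 i)))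
    (t6 : ∀ i, Tendsto (fun e => y e i) F (𝓝 (y0 i))) :
    Tendsto (fun e => (gasF th 1 true (ea (-(q e))) (ea (-(g e)))).RE
      (List.ofFn fun i => ea (-(x e i))) (List.ofFn fun j => ea (-(y e j))) (ea (-(p e)))
      (ea (-(h e)))) F
    (𝓝 (sin l * (Bp h0 q0 x0 * Bp g0 p0 y0) * ∑ n ∈ Finset.range (2 * m + 1),
      E11 (3 / 5 * l) (-(17 / 10) * l) h0 g0 x0 y0 (hC b (cc m) h0 p0 g0 q0 x0 y0)
        (hC b (cc M) g0 q0 h0 p0 y0 x0) n (n + (M - m)) (a * l) (-(11 / 4) * l))) := by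
  have hl := lpos
  have L := NUP1.N.Ln_start ha
  have hb0 : 0 < b := by linarith
  -- the lines
  have hline : ∀ z : ℂ, (OnL (3 / 5 * l) (-(17 / 10) * l) z.re ∨
      z.re = -(11 / 4) * l + 3 * l) → z.re ∈ K4 := by
    intro z hz
    simp only [K4, Set.mem_insert_iff, Set.mem_singleton_iff]
    rcases hz with (hz | hz | hz) | hz
    · exact Or.inl hz
    · exact Or.inr (Or.inl hz)
    · exact Or.inr (Or.inr (Or.inl hz))
    · exact Or.inr (Or.inr (Or.inr (by rw [hz]; ring)))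
  obtain ⟨D, hD, bD⟩ := bd_hC Kok_K4 hb0 hb' (cc m) m M R
  obtain ⟨D', hD', bD'⟩ := bd_hC Kok_K4 hb0 hb' (cc M) M m R
  -- the family
  have hF : Fm F (3 / 5 * l) (-(17 / 10) * l) (-(11 / 4) * l) (max D D') (2 * b) R h g x y
      (fun e => hC b (cc m) (h e) (p e) (g e) (q e) (x e) (y e))
      (fun e => hC b (cc M) (g e) (q e) (h e) (p e) (y e) (x e)) h0 g0 x0 y0
      (hC b (cc m) h0 p0 g0 q0 x0 y0) (hC b (cc M) g0 q0 h0 p0 y0 x0) := by
    refine ⟨?_, b2, b4, b5, b6, t2, t4, t5, t6, fun z hz => ?_, fun z hz => ?_⟩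
    · filter_upwards [B1, B2, B3, B4, B5, B6] with e k1 k2 k3 k4 k5 k6
      exact UD_hC (cc m) (cc M) k2 k4 k5 k6 (fun z hz => bD _ _ _ _ _ _ k2 k1 k4 k3 k5 k6 z (hline z hz))
        fun z hz => bD' _ _ _ _ _ _ k4 k3 k2 k1 k6 k5 z (hline z hz)
    · exact tendsto_hC Kok_K4 (hline z hz) hb0 hb' (cc m) t2 t1 t4 t3 t5 t6 b2.1 b3.1
        fun i => (b5 i).1
    · exact tendsto_hC Kok_K4 (hline z hz) hb0 hb' (cc M) t4 t3 t2 t1 t6 t5 b4.1 b1.1
        fun i => (b6 i).1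
  have hK : 2 < 2 * b := by linarith
  have hnn : ∀ n : ℕ, n + M = n + (M - m) + m := fun n => by omega
  -- the limit of the integrals
  have hlim : Tendsto (fun e => sin l * (Bp (h e) (q e) (x e) * Bp (g e) (p e) (y e)) *
      ∑ n ∈ Finset.range (2 * m + 1), E11 (3 / 5 * l) (-(17 / 10) * l) (h e) (g e) (x e) (y e)
        (hC b (cc m) (h e) (p e) (g e) (q e) (x e) (y e))
        (hC b (cc M) (g e) (q e) (h e) (p e) (y e) (x e)) n (n + (M - m)) (a * l) (-(11 / 4) * l)) F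
      (𝓝 (sin l * (Bp h0 q0 x0 * Bp g0 p0 y0) * ∑ n ∈ Finset.range (2 * m + 1),
        E11 (3 / 5 * l) (-(17 / 10) * l) h0 g0 x0 y0 (hC b (cc m) h0 p0 g0 q0 x0 y0)
          (hC b (cc M) g0 q0 h0 p0 y0 x0) n (n + (M - m)) (a * l) (-(11 / 4) * l))) :=
    (tendsto_const_nhds.mul ((tendsto_Bp t2 t3 t5).mul (tendsto_Bp t4 t1 t6))).mul
      (tendsto_finsetSum _ fun n _ => E11_tendsto L hF (hnn n) hK)
  refine hlim.congr' ?_
  filter_upwards [H, B1, B2, B3, B4, B5, B6] with e He k1 k2 k3 k4 k5 k6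
  have hRp : Rp (h e) (g e) (x e) (y e) := ⟨k2.1, k4.1, fun i => (k5 i).1, fun i => (k6 i).1⟩
  rw [RE_LLs He hRp hmM L.a3 L.a4 L.b4 L.b5 L.d1 L.d2]
  congr 1
  refine Finset.sum_congr rfl fun n _ => ?_
  rw [← LegJ_hC b]
  refine (LegJ_E11 L (κ := 2 * b + m - 2 * M) (κ' := 2 * b + M - 2 * m) ?_ (κ₀ := 2 * b) (R := R)
    (D := max D D') ?_ (hnn n) hK).symm
  · exact RD_hC (R := R) (α := 3 / 5 * l) (β := -(17 / 10) * l) (b := b) (by linarith)
      (by linarith) (by linarith) (by linarith) hb0 hb' (cc m) (cc M) k2 k1 k4 k3 k4 k3 k2 k1 k5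
      k6 He.xx He.yy (hnn n)
  · exact UD_hC (cc m) (cc M) k2 k4 k5 k6 (fun z hz => bD _ _ _ _ _ _ k2 k1 k4 k3 k5 k6 z (hline z hz))
        fun z hz => bD' _ _ _ _ _ _ k4 k3 k2 k1 k6 k5 z (hline z hz)

end Pool.Agent.PLX.Rg

end
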