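import Pool.Agent.PB.RR0

/-!
# Two cut rows of a cylinder with any number of rows, all rapidities 0 (project PLAX, exact side)

`N` rows, the rows `0` and `r` (`1 ≤ r < N`) are cut.  `WP`: the two-point function of the ring functionals.
`RRP`: the gas of two cut rows, `N - 1 - r` full lines above and `r - 1` full lines below, at generic lines tending to
`0`, tends to `BN N ^ 2 * WP`.  (`r = k`, `N = 2 k`: `PB/RR0`.)
-/

set_option autoImplicit false

namespace Pool.Agent.PLX

open _root_.Pool.Agent.EXL _root_.Pool.Agent.EXL.Pat _root_.Pool.Agent.NUF _root_.Pool.Agent.NUU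
  _root_.Pool.Agent.NUT2 _root_.Pool.Agent.NUBD Filter Topology
open _root_.Pool.Agent.NU5 hiding r0 rk Ik Jk
open NUTP (th)
open PB (gasData0)

/-- the lines between the two cut rows -/
def Jr (N r : ℕ) : List (St N × St N) := (((List.finRange N).drop 1).take (r - 1)).map lk

/-- the other lines -/
def Ir (N r : ℕ) : List (St N × St N) := ((List.finRange N).drop (r + 1)).map lk

variable {N r : ℕ}

/-- the first cut row -/
def r0 (h : r < N) : Fin N := ⟨0, by omega⟩

/-- the second cut row -/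
def rr (h : r < N) : Fin N := ⟨r, h⟩

/-- **The two-point function of `N` rows at `0`**, cut rows `0` and `r`. -/
noncomputable def WP (h : r < N) : ℂ :=
  WR (Sum.inr 0) (Sum.inr 1) (fun _ => 0) (Ir N r) (Jr N r) (xr (r0 h)) (xl (r0 h)) (xr (rr h)) (xl (rr h))

/-- **The scalar of `N` rows at `0`.** -/
noncomputable def BN (N : ℕ) : ℂ := BD (fun _ : Unit => (0 : ℂ)) (List.replicate N ())

/-- the scalar does not depend on the names of the rows -/
theorem BN_eq {ι : Type*} (z : ι → ℂ) {X : List ι} (h : ∀ i ∈ X, z i = 0) (hX : X.length = N) :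
    BD z X = BN N := by
  have e : ∀ f : ℂ → ℂ, X.map (fun i => f (z i)) =
      (List.replicate X.length ()).map (fun _ : Unit => f 0) := by
    intro f
    rw [List.map_replicate, List.eq_replicate_iff]
    refine ⟨by simp, ?_⟩
    intro b hb
    obtain ⟨i, hi, rfl⟩ := List.mem_map.1 hb
    rw [h i hi]
  unfold BN
  rw [← hX]
  unfold BD
  rw [List.length_replicate]
  have e1 := e fun w => Complex.exp (Complex.I * ((X.length : ℂ) - 1) * w)
  have e2' := e e2
  rw [e1, e2']

/-! ### the lists -/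

theorem finRange_split (h1 : 1 ≤ r) (h : r < N) :
    List.finRange N = r0 h :: (((List.finRange N).drop 1).take (r - 1) ++ rr h :: (List.finRange N).drop (r + 1)) := by
  have h0 : 0 < (List.finRange N).length := by
    rw [List.length_finRange]
    omega
  have h2 : r < (List.finRange N).length := by
    rw [List.length_finRange]
    exact h
  have h3 := split_rows (List.finRange N) h1 h0 h2
  have e0 : (List.finRange N)[0] = r0 h := by
    rw [List.getElem_finRange]
    rfl
  have e1 : (List.finRange N)[r] = rr h := by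
    rw [List.getElem_finRange]
    rfl
  rw [e0, e1] at h3
  exact h3

theorem rowsR_r (h1 : 1 ≤ r) (h : r < N) : rowsR (Ir N r) (Jr N r) (xr (r0 h)) (xr (rr h)) =
    (List.finRange N).map xr := by
  conv_rhs => rw [finRange_split h1 h]
  unfold NU5.rowsR Ir Jr
  rw [List.map_map, List.map_map, List.map_cons, List.map_append, List.map_cons]
  rfl

theorem rowsL_r (h1 : 1 ≤ r) (h : r < N) : rowsL (Ir N r) (Jr N r) (xl (r0 h)) (xl (rr h)) =
    (List.finRange N).map xl := by
  conv_rhs => rw [finRange_split h1 h]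
  unfold NU5.rowsL Ir Jr
  rw [List.map_map, List.map_map, List.map_cons, List.map_append, List.map_cons]
  rfl

theorem Ok_r (h1 : 1 ≤ r) (h : r < N) : Ok (Ir N r) (Jr N r) [xr (r0 h)] [xl (r0 h)] (xr (rr h)) (xl (rr h))
    (xr (r0 h)) (xr (rr h)) where
  nd := by
    rw [(sites_perm _ _ _ _ _ _).nodup_iff, rowsR_r h1 h, rowsL_r h1 h]
    exact all_nodup _
  m_mem := by simp
  k_mem := Or.inl rfl

theorem spare (h1 : 1 ≤ r) (h : r < N) (j : Fin 4) : (Sum.inr j : St N) ∉
    sites (Ir N r) (Jr N r) [xr (r0 h)] [xl (r0 h)] (xr (rr h)) (xl (rr h)) := by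
  rw [(sites_perm _ _ _ _ _ _).mem_iff, rowsR_r h1 h, rowsL_r h1 h]
  simp

/-! ### the rapidities of the sites from those of the lines -/

/-- The rapidities of the sites from those of the lines. -/
noncomputable def zmr (N r : ℕ) (X : Fin (N - 1 - r) → ℂ) (Y : Fin (r - 1) → ℂ) (ra rb rq rg : ℂ) : St N → ℂ
  | Sum.inl (j, s) => if _h0 : j.val = 0 then (if s then rb else ra) else
      if _h1 : j.val < r then Y ⟨j.val - 1, by omega⟩ else
        if _h2 : j.val = r then (if s then rg else rq) else X ⟨j.val - r - 1, by omega⟩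
  | Sum.inr _ => 0

section lines

variable {X : Fin (N - 1 - r) → ℂ} {Y : Fin (r - 1) → ℂ} {ra rb rq rg : ℂ}

theorem zmr_J (h : r < N) : (Jr N r).map (li (zmr N r X Y ra rb rq rg)) = List.ofFn fun i => NUTP.ea (Y i) := by
  apply List.ext_getElem
  · simp only [Jr, List.length_map, List.length_take, List.length_drop, List.length_finRange,
      List.length_ofFn]
    omega
  · intro i h1 h2
    rw [List.length_ofFn] at h2
    simp only [Jr, List.getElem_map, List.getElem_take, List.getElem_drop, List.getElem_finRange,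
      List.getElem_ofFn]
    unfold li
    congr 1
    show zmr N r X Y ra rb rq rg (Sum.inl (_, false)) = Y ⟨i, h2⟩
    have e1 : (Fin.cast (List.length_finRange (n := N)) ⟨1 + i, by
      rw [List.length_finRange]; omega⟩ : Fin N).val = 1 + i := rfl
    unfold zmr
    simp only [e1]
    rw [dif_neg (by omega), dif_pos (by omega)]
    congr 1
    exact Fin.ext (by simp)

theorem zmr_I : (Ir N r).map (li (zmr N r X Y ra rb rq rg)) = List.ofFn fun i => NUTP.ea (X i) := by
  apply List.ext_getElem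
  · simp only [Ir, List.length_map, List.length_drop, List.length_finRange, List.length_ofFn]
    omega
  · intro i h1 h2
    rw [List.length_ofFn] at h2
    simp only [Ir, List.getElem_map, List.getElem_drop, List.getElem_finRange, List.getElem_ofFn]
    unfold li
    congr 1
    show zmr N r X Y ra rb rq rg (Sum.inl (_, false)) = X ⟨i, h2⟩
    have e1 : (Fin.cast (List.length_finRange (n := N)) ⟨r + 1 + i, by
      rw [List.length_finRange]; omega⟩ : Fin N).val = r + 1 + i := rfl
    unfold zmr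
    simp only [e1]
    rw [dif_neg (by omega), dif_neg (by omega), dif_neg (by omega)]
    congr 1
    exact Fin.ext (by simp; omega)

theorem zmr_same : ∀ s ∈ Ir N r ++ Jr N r,
    zmr N r X Y ra rb rq rg s.2 = zmr N r X Y ra rb rq rg s.1 := by
  have key : ∀ j : Fin N, j.val ≠ 0 → j.val ≠ r →
      zmr N r X Y ra rb rq rg (lk j).2 = zmr N r X Y ra rb rq rg (lk j).1 := by
    intro j h0 h1
    show zmr N r X Y ra rb rq rg (Sum.inl (j, true)) = zmr N r X Y ra rb rq rg (Sum.inl (j, false))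
    unfold zmr
    simp only [dif_neg h0, dif_neg h1]
  intro s hs
  rcases List.mem_append.1 hs with hs | hs
  · obtain ⟨j, hj, rfl⟩ := List.mem_map.1 hs
    obtain ⟨i, hi, rfl⟩ := List.mem_iff_getElem.1 hj
    rw [List.length_drop, List.length_finRange] at hi
    refine key _ ?_ ?_
    · rw [List.getElem_drop, List.getElem_finRange]
      show r + 1 + i ≠ 0
      omega
    · rw [List.getElem_drop, List.getElem_finRange]
      show r + 1 + i ≠ r
      omega
  · obtain ⟨j, hj, rfl⟩ := List.mem_map.1 hs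
    obtain ⟨i, hi, rfl⟩ := List.mem_iff_getElem.1 hj
    rw [List.length_take, List.length_drop, List.length_finRange] at hi
    refine key _ ?_ ?_
    · rw [List.getElem_take, List.getElem_drop, List.getElem_finRange]
      show 1 + i ≠ 0
      omega
    · rw [List.getElem_take, List.getElem_drop, List.getElem_finRange]
      show 1 + i ≠ r
      omega

theorem zmr_ends (h1 : 1 ≤ r) (h : r < N) (X : Fin (N - 1 - r) → ℂ) (Y : Fin (r - 1) → ℂ) (ra rb rq rg : ℂ) :
    zmr N r X Y ra rb rq rg (xr (r0 h)) = ra ∧ zmr N r X Y ra rb rq rg (xl (r0 h)) = rb ∧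
    zmr N r X Y ra rb rq rg (xr (rr h)) = rq ∧ zmr N r X Y ra rb rq rg (xl (rr h)) = rg := by
  have h0 : (r0 h).val = 0 := rfl
  have hr : (rr h).val = r := rfl
  refine ⟨?_, ?_, ?_, ?_⟩
  · unfold zmr
    simp only [dif_pos h0]
    rfl
  · unfold zmr
    simp only [dif_pos h0]
    rfl
  · unfold zmr
    simp only [hr, dif_neg (show ¬ r = 0 by omega), dif_neg (lt_irrefl r)]
    rfl
  · unfold zmr
    simp only [hr, dif_neg (show ¬ r = 0 by omega), dif_neg (lt_irrefl r)]
    rfl

end lines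

variable {β : Type*} {l : Filter β} {X : β → Fin (N - 1 - r) → ℂ} {Y : β → Fin (r - 1) → ℂ}
  {ra rb rq rg : β → ℂ}

theorem zmr_tendsto (hX : ∀ i, Tendsto (fun t => X t i) l (𝓝 0)) (hY : ∀ i, Tendsto (fun t => Y t i) l (𝓝 0))
    (ha : Tendsto ra l (𝓝 0)) (hb : Tendsto rb l (𝓝 0)) (hq : Tendsto rq l (𝓝 0)) (hg : Tendsto rg l (𝓝 0))
    (j : Fin N) (s : Bool) :
    Tendsto (fun t => (0 : ℂ) - zmr N r (X t) (Y t) (ra t) (rb t) (rq t) (rg t) (Sum.inl (j, s))) l (𝓝 0) := by
  suffices h : Tendsto (fun t => zmr N r (X t) (Y t) (ra t) (rb t) (rq t) (rg t) (Sum.inl (j, s))) l (𝓝 0) by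
    have h2 := h.const_sub (0 : ℂ)
    rwa [sub_zero] at h2
  by_cases h0 : j.val = 0
  · have e : ∀ t, zmr N r (X t) (Y t) (ra t) (rb t) (rq t) (rg t) (Sum.inl (j, s)) =
        if s then rb t else ra t := fun t => by
      unfold zmr
      simp only [dif_pos h0]
    simp only [e]
    cases s
    · exact ha
    · exact hb
  by_cases h1 : j.val < r
  · have e : ∀ t, zmr N r (X t) (Y t) (ra t) (rb t) (rq t) (rg t) (Sum.inl (j, s)) =
        Y t ⟨j.val - 1, by omega⟩ := fun t => by
      unfold zmr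
      simp only [dif_neg h0, dif_pos h1]
    simp only [e]
    exact hY _
  by_cases h2 : j.val = r
  · have e : ∀ t, zmr N r (X t) (Y t) (ra t) (rb t) (rq t) (rg t) (Sum.inl (j, s)) =
        if s then rg t else rq t := fun t => by
      unfold zmr
      simp only [dif_neg h0, dif_neg h1, dif_pos h2]
    simp only [e]
    cases s
    · exact hq
    · exact hg
  · have e : ∀ t, zmr N r (X t) (Y t) (ra t) (rb t) (rq t) (rg t) (Sum.inl (j, s)) =
        X t ⟨j.val - r - 1, by omega⟩ := fun t => by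
      unfold zmr
      simp only [dif_neg h0, dif_neg h1, dif_neg h2]
    simp only [e]
    exact hX _

/-- **The gas of two cut rows tends to `BN N ^ 2 * WP`.** -/
theorem RRP (h1 : 1 ≤ r) (h : r < N)
    (hX : ∀ i, Tendsto (fun t => X t i) l (𝓝 0))
    (hY : ∀ i, Tendsto (fun t => Y t i) l (𝓝 0))
    (ha : Tendsto ra l (𝓝 0)) (hb : Tendsto rb l (𝓝 0))
    (hq : Tendsto rq l (𝓝 0)) (hg : Tendsto rg l (𝓝 0))
    (hgen : ∀ᶠ t in l, NUTP.G th (NUTP.ea (ra t) :: NUTP.ea (rb t) :: NUTP.ea (rq t) ::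
      NUTP.ea (rg t) :: ((List.ofFn fun i => NUTP.ea (X t i)) ++ List.ofFn fun i => NUTP.ea (Y t i)))) :
    Tendsto (fun t => gasR (List.ofFn fun i => NUTP.ea (X t i)) (List.ofFn fun i => NUTP.ea (Y t i))
      (NUTP.ea (ra t)) (NUTP.ea (rb t)) (NUTP.ea (rq t)) (NUTP.ea (rg t))) l
      (𝓝 (BN N ^ 2 * WP h)) := by
  have nr : ((List.finRange N).map (xr (n := N))).Nodup := (List.nodup_append.1 (all_nodup N)).1
  have nl : ((List.finRange N).map (xl (n := N))).Nodup := (List.nodup_append.1 (all_nodup N)).2.1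
  have nl' := List.nodup_reverse.2 nl
  have c01 : (Sum.inr 0 : St N) ≠ Sum.inr 1 := by simp
  have n1 : ∀ j : Fin 4, (Sum.inr j : St N) ∉ (List.finRange N).map xr := by simp
  have n2 : ∀ j : Fin 4, (Sum.inr j : St N) ∉ ((List.finRange N).map xl).reverse := by simp
  obtain ⟨ρ, hρ, hR⟩ := regR_ball (α := St N) c01
  have hRr := (hR (fun _ => 0) _ nr (n1 0) (n1 1) fun i _ => Metric.mem_ball_self hρ).1
  have hRl := (hR (fun _ => 0) _ nl' (n2 0) (n2 1) fun i _ => Metric.mem_ball_self hρ).1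
  have hUr : UDRing (Sum.inr 0) (Sum.inr 1) ((List.finRange N).map (xr (n := N))) :=
    udRingAll (St N) _ _ (Sum.inr 2) _ nr (by simp) (by simp) (by simp) (n1 0) (n1 1) (n1 2)
  have hUl : UDRing (Sum.inr 0) (Sum.inr 1) ((List.finRange N).map (xl (n := N))).reverse :=
    udRingAll (St N) _ _ (Sum.inr 2) _ nl' (by simp) (by simp) (by simp) (n2 0) (n2 1) (n2 2)
  have hrf : UDRefl ((List.finRange N).map (xl (n := N))).reverse := udRefl nl' (udRingAll _)
  set zt : β → St N → ℂ := fun t => zmr N r (X t) (Y t) (ra t) (rb t) (rq t) (rg t) with hzt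
  have hT := zmr_tendsto hX hY ha hb hq hg
  have hzr : ∀ j ∈ rowsR (Ir N r) (Jr N r) (xr (r0 h)) (xr (rr h)),
      Tendsto (fun t => (0 : ℂ) - zt t j) l (𝓝 ((fun _ => 0 : St N → ℂ) j)) := by
    rw [rowsR_r h1 h]
    intro j hj
    obtain ⟨i, -, rfl⟩ := List.mem_map.1 hj
    exact hT i false
  have hzl : ∀ j ∈ rowsL (Ir N r) (Jr N r) (xl (r0 h)) (xl (rr h)),
      Tendsto (fun t => (0 : ℂ) - zt t j) l (𝓝 ((fun _ => 0 : St N → ℂ) j)) := by
    rw [rowsL_r h1 h]
    intro j hj
    obtain ⟨i, -, rfl⟩ := List.mem_map.1 hj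
    exact hT i true
  have hends := fun t => zmr_ends h1 h (X t) (Y t) (ra t) (rb t) (rq t) (rg t)
  have hgen' : ∀ᶠ t in l, NUTP.G th (NUTP.ea (zt t (xr (r0 h))) :: NUTP.ea (zt t (xl (r0 h))) ::
      NUTP.ea (zt t (xr (rr h))) :: NUTP.ea (zt t (xl (rr h))) ::
        ((Ir N r).map (li (zt t)) ++ (Jr N r).map (li (zt t)))) := hgen.mono fun t ht => by
    rw [hzt]
    simp only [(hends t).1, (hends t).2.1, (hends t).2.2.1, (hends t).2.2.2, zmr_I, zmr_J h]
    exact ht
  have hsame : ∀ t, ∀ s ∈ Ir N r ++ Jr N r, zt t s.2 = zt t s.1 := fun t => zmr_same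
  have hnr : (rowsR (Ir N r) (Jr N r) (xr (r0 h)) (xr (rr h))).Nodup := (Ok_r h1 h).nd1
  have hnl : (rowsL (Ir N r) (Jr N r) (xl (r0 h)) (xl (rr h))).Nodup := (Ok_r h1 h).nd2
  have e : ∀ t i, (0 : ℂ) - zt t i = -zt t i + 0 := fun t i => by ring
  have hGr : ∀ᶠ t in l, Gz (fun i => (0 : ℂ) - zt t i)
      (rowsR (Ir N r) (Jr N r) (xr (r0 h)) (xr (rr h))) := hgen'.mono fun t ht => by
    simp only [e]
    exact (Gz_neg (G_rowsR ht)).shift _
  have hGl : ∀ᶠ t in l, Gz (fun i => (0 : ℂ) - zt t i)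
      (rowsL (Ir N r) (Jr N r) (xl (r0 h)) (xl (rr h))).reverse := hgen'.mono fun t ht => by
    simp only [e]
    exact (Gz_neg (Gz_rev (G_rowsL (hsame t) ht))).shift _
  have hBr := BE_tendsto (β := β) hnr hGr hzr
  have hBl := BE_tendsto (β := β) (List.nodup_reverse.2 hnl) hGl
    fun j hj => hzl j (List.mem_reverse.1 hj)
  have hok : okR ((Real.pi / 8 : ℂ) - 0) := by
    rw [sub_zero]
    exact okR_hex
  have key := RR_tendsto (x := 0) latData gasData0 (Ok_r h1 h) (c := Sum.inr 0) (d := Sum.inr 1)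
    (by simp) (spare h1 h 0) (spare h1 h 1) hsame hgen' hzr hzl (fun j _ => hok)
    (fun j _ => hok) (by rw [rowsR_r h1 h]; exact hRr) (by rw [rowsL_r h1 h]; exact hRl)
    (by rw [rowsR_r h1 h]; exact hUr) (by rw [rowsL_r h1 h]; exact hUl) (by rw [rowsL_r h1 h]; exact hrf) hBr hBl
  have e1 : BD (fun _ : St N => 0) (rowsR (Ir N r) (Jr N r) (xr (r0 h)) (xr (rr h))) = BN N :=
    BN_eq _ (fun _ _ => rfl) (by rw [rowsR_r h1 h, List.length_map, List.length_finRange])
  have e2 : BD (fun _ : St N => 0) (rowsL (Ir N r) (Jr N r) (xl (r0 h)) (xl (rr h))).reverse = BN N :=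
    BN_eq _ (fun _ _ => rfl) (by rw [rowsL_r h1 h, List.length_reverse, List.length_map, List.length_finRange])
  have e3 : WR (Sum.inr 0) (Sum.inr 1) (fun _ => 0) (Ir N r) (Jr N r) (xr (r0 h)) (xl (r0 h))
      (xr (rr h)) (xl (rr h)) = WP h := rfl
  rw [e1, e2, e3] at key
  rw [sq]
  refine key.congr fun t => ?_
  rw [hzt]
  simp only [(hends t).1, (hends t).2.1, (hends t).2.2.1, (hends t).2.2.2, zmr_I, zmr_J h]

end Pool.Agent.PLX
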