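import Pool.Agent.PLX.FarK4
import Pool.Agent.PLX.MinU
import Pool.Agent.PLX.IST.Src0
import Pool.Agent.IST.SpRow

/-!
# PLAX (K): spectators with a charge at one height, the states of a far row

* `qh c t = 1/2 log ((cosh 2t + c) / (cosh 2t + 1))`, `Rm D f` : `C¹`, `f`, `f'` of size `D exp (-2|t|)`;
* `lsin_line` : `log |sin (a l + i t)| = log cosh t + qh (- cos 2 a l) t`;
* **`SpK B q h sX sY`** : spectators of charge `q` (growth `cosh ^ (2 q)` on the first group, `cosh ^ (- 2 q)` on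
  the second) placed at height `h`, of size `B` : analytic and bounded on the strip of the objects and of the
  line, remainder `RemOk B B` on the line `Re u = l`;
* **`far_SpK`** : the state `e` of a far row `x0`, `23/10 l ≤ Re x0 ≤ 53/20 l`, every height:
  `SpK B (ch e) (Im x0)`, one `B`;
* `near_SpK` : the same for the minus row.
-/

set_option autoImplicit false
set_option linter.unusedSectionVars false
set_option linter.unusedVariables false

noncomputable section

open Complex MeasureTheory Filter Topology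

namespace Pool.Agent.PLX

open NUP1 (l lpos)
open NUSea.PLX.H0 (RemOk)
open _root_.RX (sumU Wo Vo kO kX k1)
open PBX (Lg Lg_SpA)
open NUP1 (Gr)

/-! ### remainders -/

/-- half the logarithm of a ratio -/
def qh (c t : ℝ) : ℝ :=
  1 / 2 * (Real.log (Real.cosh (2 * t) + c) - Real.log (Real.cosh (2 * t) + 1))

/-- size `D`, decay `exp (-2|t|)`, with the derivative -/
structure Rm (D : ℝ) (f : ℝ → ℝ) : Prop where
  c : ContDiff ℝ 1 f
  b : ∀ t, |f t| ≤ D * Real.exp (-(2 * |t|))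
  d : ∀ t, |deriv f t| ≤ D * Real.exp (-(2 * |t|))

lemma Rm.nn {D : ℝ} {f : ℝ → ℝ} (h : Rm D f) : 0 ≤ D := by
  have h1 := (abs_nonneg _).trans (h.b 0)
  simpa using h1

lemma Rm.add {D D' : ℝ} {f g : ℝ → ℝ} (h : Rm D f) (k : Rm D' g) : Rm (D + D') fun t => f t + g t where
  c := h.c.add k.c
  b t := by
    have := abs_add_le (f t) (g t)
    have := h.b t
    have := k.b t
    linarith
  d t := by
    have h1 : deriv (fun t => f t + g t) t = deriv f t + deriv g t :=
      deriv_fun_add (h.c.differentiable one_ne_zero t) (k.c.differentiable one_ne_zero t)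
    rw [h1]
    have := abs_add_le (deriv f t) (deriv g t)
    have := h.d t
    have := k.d t
    linarith

lemma Rm.neg {D : ℝ} {f : ℝ → ℝ} (h : Rm D f) : Rm D fun t => -f t where
  c := h.c.neg
  b t := by
    rw [abs_neg]
    exact h.b t
  d t := by
    have h1 : deriv (fun t => -f t) t = -deriv f t := deriv.fun_neg
    rw [h1, abs_neg]
    exact h.d t

lemma Rm.mono {D D' : ℝ} {f : ℝ → ℝ} (h : Rm D f) (hD : D ≤ D') : Rm D' f :=
  ⟨h.c, fun t => (h.b t).trans (mul_le_mul_of_nonneg_right hD (Real.exp_pos _).le),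
    fun t => (h.d t).trans (mul_le_mul_of_nonneg_right hD (Real.exp_pos _).le)⟩

lemma Rm.congr {D : ℝ} {f g : ℝ → ℝ} (h : Rm D f) (e : ∀ t, g t = f t) : Rm D g := by
  have : g = f := funext e
  rw [this]
  exact h

lemma ch_ge (t : ℝ) : Real.exp (2 * |t|) / 2 ≤ Real.cosh (2 * t) := by
  rw [← Real.cosh_abs, abs_mul, abs_two, Real.cosh_eq]
  have := Real.exp_pos (-(2 * |t|))
  linarith

lemma qh_arg {c δ t : ℝ} (h0 : 0 < δ) (hδ : δ ≤ 1) (h1 : -1 + δ ≤ c) :
    δ * Real.cosh (2 * t) ≤ Real.cosh (2 * t) + c := by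
  have := Real.one_le_cosh (2 * t)
  nlinarith

theorem qh_rm {c δ : ℝ} (h0 : 0 < δ) (hδ : δ ≤ 1) (h1 : -1 + δ ≤ c) (h2 : c ≤ 1) :
    Rm (4 / δ) (qh c) := by
  have hc : ∀ t : ℝ, 1 ≤ Real.cosh (2 * t) := fun t => Real.one_le_cosh _
  have hA : ∀ t : ℝ, δ * Real.cosh (2 * t) ≤ Real.cosh (2 * t) + c := fun t => qh_arg h0 hδ h1
  have hA0 : ∀ t : ℝ, 0 < Real.cosh (2 * t) + c := fun t =>
    lt_of_lt_of_le (mul_pos h0 (by linarith [hc t])) (hA t)
  have hB0 : ∀ t : ℝ, 0 < Real.cosh (2 * t) + 1 := fun t => by linarith [hc t]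
  have hcosh : ContDiff ℝ 1 fun t : ℝ => Real.cosh (2 * t) :=
    Real.contDiff_cosh.comp (contDiff_const.mul contDiff_id)
  have he : ∀ t : ℝ, 1 / Real.cosh (2 * t) ≤ 2 * Real.exp (-(2 * |t|)) := fun t => by
    have h3 := ch_ge t
    have h4 : 1 / Real.cosh (2 * t) ≤ 1 / (Real.exp (2 * |t|) / 2) :=
      one_div_le_one_div_of_le (by positivity) h3
    rw [Real.exp_neg]
    refine h4.trans (le_of_eq ?_)
    field_simp
  refine ⟨?_, fun t => ?_, fun t => ?_⟩
  · unfold qh
    refine contDiff_const.mul (ContDiff.sub ?_ ?_)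
    · exact ContDiff.log (hcosh.add contDiff_const) fun t => (hA0 t).ne'
    · exact ContDiff.log (hcosh.add contDiff_const) fun t => (hB0 t).ne'
  · obtain ⟨K, hK⟩ : ∃ K, K = Real.cosh (2 * t) := ⟨_, rfl⟩
    have a := hA0 t
    have b := hB0 t
    have a' := hA t
    have c' := hc t
    have e' := he t
    unfold qh
    rw [← hK] at a b a' c' e' ⊢
    have hd : 0 < δ * K := by positivity
    have k1 : Real.log (K + 1) - Real.log (K + c) ≤ 2 / (δ * K) := by
      rw [← Real.log_div b.ne' a.ne']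
      refine (Real.log_le_sub_one_of_pos (div_pos b a)).trans ?_
      have : (K + 1) / (K + c) - 1 = (1 - c) / (K + c) := by
        field_simp
        ring
      rw [this]
      refine (div_le_div_of_nonneg_left (by linarith) hd a').trans ?_
      exact div_le_div_of_nonneg_right (by linarith) hd.le
    have k2 : Real.log (K + c) ≤ Real.log (K + 1) := Real.log_le_log a (by linarith)
    rw [abs_le]
    have k3 : 2 / (δ * K) = 2 / δ * (1 / K) := by field_simp
    have k4 : 2 / (δ * K) ≤ 4 / δ * Real.exp (-(2 * |t|)) := by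
      rw [k3]
      have := mul_le_mul_of_nonneg_left e' (by positivity : 0 ≤ 2 / δ)
      refine this.trans (le_of_eq ?_)
      ring
    have k5 : 0 ≤ 4 / δ * Real.exp (-(2 * |t|)) := by positivity
    constructor <;> linarith
  · have a := hA0 t
    have b := hB0 t
    have a' := hA t
    have c' := hc t
    have e' := he t
    have hder : HasDerivAt (qh c) (1 / 2 * (Real.sinh (2 * t) * 2 / (Real.cosh (2 * t) + c) -
        Real.sinh (2 * t) * 2 / (Real.cosh (2 * t) + 1))) t := by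
      have h3 : HasDerivAt (fun t : ℝ => 2 * t) 2 t := by
        simpa using (hasDerivAt_id t).const_mul (2 : ℝ)
      have h4 : HasDerivAt (fun t : ℝ => Real.cosh (2 * t)) (Real.sinh (2 * t) * 2) t :=
        (Real.hasDerivAt_cosh (2 * t)).comp t h3
      exact (((h4.add_const c).log a.ne').sub ((h4.add_const 1).log b.ne')).const_mul _
    rw [hder.deriv]
    have hs : |Real.sinh (2 * t)| ≤ Real.cosh (2 * t) := by
      rw [abs_le]
      have := Real.cosh_sub_sinh (2 * t)
      have := Real.cosh_add_sinh (2 * t)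
      have := Real.exp_pos (-(2 * t))
      have := Real.exp_pos (2 * t)
      constructor <;> linarith
    obtain ⟨K, hK⟩ : ∃ K, K = Real.cosh (2 * t) := ⟨_, rfl⟩
    obtain ⟨S, hS⟩ : ∃ S, S = Real.sinh (2 * t) := ⟨_, rfl⟩
    rw [← hK] at a b a' c' e' hs ⊢
    rw [← hS] at hs ⊢
    have e1 : 1 / 2 * (S * 2 / (K + c) - S * 2 / (K + 1)) = S * (1 - c) / ((K + c) * (K + 1)) := by
      field_simp
      ring
    rw [e1, abs_div, abs_mul, abs_of_pos (mul_pos a b), abs_of_nonneg (by linarith : 0 ≤ 1 - c)]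
    have hK0 : 0 < K := by linarith
    calc |S| * (1 - c) / ((K + c) * (K + 1)) ≤ K * 2 / ((δ * K) * K) := by
          gcongr <;> linarith
      _ = 2 / δ * (1 / K) := by
          field_simp
      _ ≤ 2 / δ * (2 * Real.exp (-(2 * |t|))) := by gcongr
      _ = _ := by ring

/-- **a translate of decaying functions is a remainder** -/
theorem Rm.remOk {D : ℝ} {f : Bool → ℝ → ℝ} (h : ∀ a, Rm D (f a)) (s : ℝ) :
    RemOk D (D ^ 2) fun a t => f a (t - s) := by
  have hD := (h true).nn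
  refine ⟨fun a => ?_, fun a t => ?_, fun a T hT => ?_⟩
  · exact (h a).c.comp (contDiff_id.sub contDiff_const)
  · refine ((h a).b _).trans ?_
    have h1 : Real.exp (-(2 * |t - s|)) ≤ 1 := Real.exp_le_one_iff.2 (by
      have := abs_nonneg (t - s)
      linarith)
    have := mul_le_mul_of_nonneg_left h1 hD
    linarith
  · have hi := NUDispW.int_exp_abs (by norm_num : (0 : ℝ) < 4) s
    have hle : ∀ t, f a (t - s) ^ 2 + deriv (fun t => f a (t - s)) t ^ 2 ≤
        2 * D ^ 2 * Real.exp (-(4 * |t - s|)) := by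
      intro t
      have h1 : deriv (fun t => f a (t - s)) t = deriv (f a) (t - s) := deriv_comp_sub_const _ _ _
      rw [h1]
      have h2 := (h a).b (t - s)
      have h3 := (h a).d (t - s)
      have h4 : (D * Real.exp (-(2 * |t - s|))) ^ 2 = D ^ 2 * Real.exp (-(4 * |t - s|)) := by
        rw [mul_pow, ← Real.exp_nat_mul]
        congr 2
        push_cast
        ring
      have h5 : f a (t - s) ^ 2 ≤ D ^ 2 * Real.exp (-(4 * |t - s|)) := by
        rw [← h4, ← sq_abs]
        gcongr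
      have h6 : deriv (f a) (t - s) ^ 2 ≤ D ^ 2 * Real.exp (-(4 * |t - s|)) := by
        rw [← h4, ← sq_abs]
        gcongr
      linarith
    have hcd : Continuous fun t => f a (t - s) ^ 2 + deriv (fun t => f a (t - s)) t ^ 2 := by
      have h1 : ContDiff ℝ 1 fun t => f a (t - s) := (h a).c.comp (contDiff_id.sub contDiff_const)
      exact (h1.continuous.pow 2).add ((h1.continuous_deriv le_rfl).pow 2)
    have hI : Integrable fun t : ℝ => 2 * D ^ 2 * Real.exp (-(4 * |t - s|)) := hi.1.const_mul _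
    calc ∫ t in (-(T + 1))..(T + 1), (f a (t - s) ^ 2 + deriv (fun t => f a (t - s)) t ^ 2)
        ≤ ∫ t in (-(T + 1))..(T + 1), 2 * D ^ 2 * Real.exp (-(4 * |t - s|)) :=
          intervalIntegral.integral_mono_on (by linarith) (hcd.intervalIntegrable _ _)
            hI.intervalIntegrable fun t _ => hle t
      _ = ∫ t in Set.Ioc (-(T + 1)) (T + 1), 2 * D ^ 2 * Real.exp (-(4 * |t - s|)) :=
          intervalIntegral.integral_of_le (by linarith)
      _ ≤ ∫ t, 2 * D ^ 2 * Real.exp (-(4 * |t - s|)) :=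
          setIntegral_le_integral hI (Eventually.of_forall fun t => by positivity)
      _ = D ^ 2 := by
          rw [integral_const_mul, hi.2]
          ring

/-! ### sines on a line -/

theorem norm_sin_line (a t : ℝ) : ‖sin ((a : ℂ) + t * I)‖ ^ 2 =
    (Real.cosh (2 * t) - Real.cos (2 * a)) / 2 := by
  have h1 := NUP1.Bd.norm_sin_sq ((a : ℂ) + t * I)
  have e1 : ((a : ℂ) + t * I).re = a := by simp
  have e2 : ((a : ℂ) + t * I).im = t := by simp
  rw [e1, e2] at h1
  have h3 := Real.cosh_sq t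
  have h4 := Real.cos_sq' a
  rw [h1, Real.cosh_two_mul, Real.cos_two_mul]
  nlinarith

theorem sin_line_eq {a t δ : ℝ} (h0 : 0 < δ) (h : δ ≤ |Real.sin a|) :
    ‖sin ((a : ℂ) + t * I)‖ = Real.cosh t * Real.exp (qh (-Real.cos (2 * a)) t) := by
  have h1 := norm_sin_line a t
  have hs : δ ^ 2 ≤ Real.sin a ^ 2 := by
    rw [← sq_abs (Real.sin a)]
    gcongr
  have hc : Real.cos (2 * a) = 1 - 2 * Real.sin a ^ 2 := by
    rw [Real.cos_two_mul, Real.cos_sq']
    ring
  have hch := Real.one_le_cosh (2 * t)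
  have hpos : 0 < Real.cosh (2 * t) + -Real.cos (2 * a) := by
    rw [hc]
    nlinarith [sq_pos_of_pos h0]
  have hq : Real.exp (qh (-Real.cos (2 * a)) t) ^ 2 =
      (Real.cosh (2 * t) + -Real.cos (2 * a)) / (Real.cosh (2 * t) + 1) := by
    rw [← Real.exp_nat_mul]
    unfold qh
    rw [show ((2 : ℕ) : ℝ) * (1 / 2 * (Real.log (Real.cosh (2 * t) + -Real.cos (2 * a)) -
      Real.log (Real.cosh (2 * t) + 1))) = Real.log (Real.cosh (2 * t) + -Real.cos (2 * a)) -
      Real.log (Real.cosh (2 * t) + 1) by push_cast; ring, Real.exp_sub, Real.exp_log hpos,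
      Real.exp_log (by linarith)]
  have h2 : (Real.cosh t * Real.exp (qh (-Real.cos (2 * a)) t)) ^ 2 =
      ‖sin ((a : ℂ) + t * I)‖ ^ 2 := by
    have hC := Real.cosh_pos t
    have h5 : Real.cosh (2 * t) = 2 * Real.cosh t ^ 2 - 1 := by
      rw [Real.cosh_two_mul, Real.sinh_sq]
      ring
    rw [mul_pow, hq, h1, h5]
    generalize Real.cosh t = C at hC
    generalize Real.cos (2 * a) = k
    have h6 : 2 * C ^ 2 - 1 + 1 ≠ 0 := by
      have := sq_pos_of_pos hC
      linarith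
    field_simp
    ring
  exact ((sq_eq_sq₀ (norm_nonneg _) (by have := Real.cosh_pos t; positivity)).1 h2.symm)

/-! ### factors with a growth at one height -/

/-- the strip of the objects and of the line -/
def ST : Set ℂ := {u | -(227 / 100 * l) ≤ u.re ∧ u.re ≤ 11 / 10 * l}

/-- a factor of growth `cosh ^ n` at the height `h`, size `B` -/
structure Fc (B : ℝ) (n : ℤ) (h : ℝ) (f : ℂ → ℂ) : Prop where
  B0 : 0 ≤ B
  d : ∀ u ∈ ST, DifferentiableAt ℂ f u
  b : ∀ u ∈ ST, ‖f u‖ ≤ B * Real.cosh (u.im - h) ^ n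
  r : ∃ g : ℝ → ℝ, Rm B g ∧ ∀ s : ℝ, ‖f ((l : ℂ) + s * I)‖ =
    Real.cosh (s - h) ^ n * Real.exp (g (s - h))

theorem Fc.mono {B B' h : ℝ} {n : ℤ} {f : ℂ → ℂ} (k : Fc B n h f) (hB : B ≤ B') : Fc B' n h f where
  B0 := k.B0.trans hB
  d := k.d
  b u hu := (k.b u hu).trans (mul_le_mul_of_nonneg_right hB (by have := Real.cosh_pos (u.im - h); positivity))
  r := by
    obtain ⟨g, h1, h2⟩ := k.r
    exact ⟨g, h1.mono hB, h2⟩

theorem Fc.congr {B h : ℝ} {n : ℤ} {f g : ℂ → ℂ} (k : Fc B n h f) (e : ∀ u, g u = f u) : Fc B n h g := by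
  have : g = f := funext e
  rw [this]
  exact k

theorem Fc.neg {B h : ℝ} {n : ℤ} {f : ℂ → ℂ} (k : Fc B n h f) : Fc B n h fun u => -f u where
  B0 := k.B0
  d u hu := (k.d u hu).neg
  b u hu := by
    rw [norm_neg]
    exact k.b u hu
  r := by
    obtain ⟨g, h1, h2⟩ := k.r
    refine ⟨g, h1, fun s => ?_⟩
    rw [norm_neg]
    exact h2 s

theorem Fc.mul {B B' h : ℝ} {n n' : ℤ} {f g : ℂ → ℂ} (k : Fc B n h f) (k' : Fc B' n' h g) :
    Fc (B * B' + (B + B')) (n + n') h fun u => f u * g u where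
  B0 := by
    have := k.B0
    have := k'.B0
    positivity
  d u hu := (k.d u hu).mul (k'.d u hu)
  b u hu := by
    have hc := Real.cosh_pos (u.im - h)
    have h1 := k.B0
    have h2 := k'.B0
    rw [norm_mul, zpow_add₀ hc.ne']
    calc ‖f u‖ * ‖g u‖ ≤ (B * Real.cosh (u.im - h) ^ n) * (B' * Real.cosh (u.im - h) ^ n') :=
          mul_le_mul (k.b u hu) (k'.b u hu) (norm_nonneg _) (by positivity)
      _ = B * B' * (Real.cosh (u.im - h) ^ n * Real.cosh (u.im - h) ^ n') := by ring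
      _ ≤ _ := mul_le_mul_of_nonneg_right (by linarith) (by positivity)
  r := by
    obtain ⟨g1, h1, e1⟩ := k.r
    obtain ⟨g2, h2, e2⟩ := k'.r
    have k1 := k.B0
    have k2 := k'.B0
    refine ⟨fun t => g1 t + g2 t, (h1.add h2).mono (by nlinarith), fun s => ?_⟩
    have hc := Real.cosh_pos (s - h)
    rw [norm_mul, e1, e2, zpow_add₀ hc.ne', Real.exp_add]
    ring

/-- the size of the elementary factors -/
def BF (δ : ℝ) : ℝ := 1 + δ⁻¹ + 4 / δ ^ 2

theorem BF_pos {δ : ℝ} (h : 0 < δ) : 0 < BF δ := by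
  unfold BF
  positivity

theorem pt_re (x : ℂ) (c s : ℝ) : (l : ℂ) + s * I - x + c = ((l - x.re + c : ℝ) : ℂ) +
    ((s - x.im : ℝ) : ℂ) * I := by
  apply Complex.ext <;> simp

/-- a sine -/
theorem Fc.sn {δ : ℝ} (h0 : 0 < δ) (h1 : δ ≤ 1) (x : ℂ) (c : ℝ)
    (hl : δ ≤ |Real.sin (l - x.re + c)|) : Fc (BF δ) 1 x.im fun u => sin (u - x + c) where
  B0 := (BF_pos h0).le
  d u _ := by fun_prop
  b u _ := by
    have h2 := PBO.sin_up (u - x + c)
    have e : (u - x + c).im = u.im - x.im := by simp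
    rw [e] at h2
    rw [zpow_one]
    refine h2.trans (le_mul_of_one_le_left (Real.cosh_pos _).le ?_)
    unfold BF
    have : 0 ≤ δ⁻¹ := by positivity
    have : 0 ≤ 4 / δ ^ 2 := by positivity
    linarith
  r := by
    refine ⟨qh (-Real.cos (2 * (l - x.re + c))), ?_, fun s => ?_⟩
    · have hs : δ ^ 2 ≤ Real.sin (l - x.re + c) ^ 2 := by
        rw [← sq_abs (Real.sin _)]
        gcongr
      have hc : Real.cos (2 * (l - x.re + c)) = 1 - 2 * Real.sin (l - x.re + c) ^ 2 := by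
        rw [Real.cos_two_mul, Real.cos_sq']
        ring
      have hs1 := Real.sin_sq_le_one (l - x.re + c)
      refine (qh_rm (δ := δ ^ 2) (by positivity) (by nlinarith) (by nlinarith) (by nlinarith)).mono ?_
      unfold BF
      have : 0 ≤ δ⁻¹ := by positivity
      linarith
    · rw [pt_re, sin_line_eq h0 hl, zpow_one]

/-- the inverse of a sine -/
theorem Fc.isn {δ : ℝ} (h0 : 0 < δ) (h1 : δ ≤ 1) (x : ℂ) (c : ℝ)
    (hl : ∀ r : ℝ, -(227 / 100 * l) ≤ r → r ≤ 11 / 10 * l → δ ≤ |Real.sin (r - x.re + c)|) :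
    Fc (BF δ) (-1) x.im fun u => (sin (u - x + c))⁻¹ where
  B0 := (BF_pos h0).le
  d u hu := by
    have hn : sin (u - x + c) ≠ 0 := by
      intro h
      have h2 := NUP1.Bd.le_norm_sin (u - x + c)
      have e : (u - x + c).re = u.re - x.re + c := by simp
      rw [h, norm_zero, e] at h2
      have h3 := hl u.re hu.1 hu.2
      have h4 := Real.cosh_pos (u - x + c).im
      have : 0 < |Real.sin (u.re - x.re + c)| * Real.cosh (u - x + c).im := by
        have := h0.trans_le h3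
        positivity
      linarith
    exact DifferentiableAt.inv (by fun_prop) hn
  b u hu := by
    have h2 := NUP1.Bd.le_norm_sin (u - x + c)
    have e : (u - x + c).re = u.re - x.re + c := by simp
    have e' : (u - x + c).im = u.im - x.im := by simp
    rw [e, e'] at h2
    have h3 := hl u.re hu.1 hu.2
    have hc := Real.cosh_pos (u.im - x.im)
    have h4 : δ * Real.cosh (u.im - x.im) ≤ ‖sin (u - x + c)‖ :=
      (mul_le_mul_of_nonneg_right h3 hc.le).trans h2
    rw [norm_inv, zpow_neg_one]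
    calc ‖sin (u - x + c)‖⁻¹ ≤ (δ * Real.cosh (u.im - x.im))⁻¹ :=
          inv_anti₀ (by positivity) h4
      _ = δ⁻¹ * (Real.cosh (u.im - x.im))⁻¹ := mul_inv _ _
      _ ≤ _ := by
        refine mul_le_mul_of_nonneg_right ?_ (by positivity)
        unfold BF
        have : 0 ≤ 4 / δ ^ 2 := by positivity
        linarith
  r := by
    have hl1 : δ ≤ |Real.sin (l - x.re + c)| := hl l (by have := lpos; linarith) (by have := lpos; linarith)
    obtain ⟨g, h2, h3⟩ := (Fc.sn h0 h1 x c hl1).r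
    refine ⟨fun t => -g t, h2.neg, fun s => ?_⟩
    have := h3 s
    rw [zpow_one] at this
    rw [norm_inv, this, zpow_neg_one, Real.exp_neg, mul_inv]

/-! ### spectators -/

/-- **spectators of charge `q` at the height `h`**, size `B` -/
structure SpK (B : ℝ) (q : ℤ) (h : ℝ) (sX sY : ℂ → ℂ) : Prop where
  uX : SpU q sX
  uY : SpU (-(q : ℝ)) sY
  fX : Fc B (2 * q) h sX
  fY : Fc B (-(2 * q)) h sY

/-- the remainder on the line -/
theorem SpK.rem {B h : ℝ} {q : ℤ} {sX sY : ℂ → ℂ} (k : SpK B q h sX sY) :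
    ∃ ψ : Bool → ℝ → ℝ, RemOk B (B ^ 2) ψ ∧
      (∀ s : ℝ, ‖sX ((l : ℂ) + s * I)‖ = Real.cosh (s - h) ^ (2 * q) * Real.exp (ψ true s)) ∧
      ∀ s : ℝ, ‖sY ((l : ℂ) + s * I)‖ = Real.cosh (s - h) ^ (-(2 * q)) * Real.exp (ψ false s) := by
  obtain ⟨g, h1, h2⟩ := k.fX.r
  obtain ⟨g', h1', h2'⟩ := k.fY.r
  refine ⟨fun a t => (if a then g else g') (t - h), ?_, fun s => ?_, fun s => ?_⟩
  · refine Rm.remOk (f := fun a => if a then g else g') (fun a => ?_) h
    cases a
    · exact h1'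
    · exact h1
  · exact h2 s
  · exact h2' s

/-- the distance of the poles of the far states -/
def dF : ℝ := Real.sin (2 / 25 * l)

theorem dF_pos : 0 < dF := by
  have hl := lpos
  exact SPR.sin_pos' (by positivity) (by linarith)

theorem dF_le : dF ≤ 1 := Real.sin_le_one _

/-- **the states of a far row** are spectators of the charge `ch e` at the height of the row -/
theorem far_SpK : ∃ B : ℝ, 0 ≤ B ∧ ∀ (e : SignType) (x0 : ℂ), 23 / 10 * l ≤ x0.re → x0.re ≤ 53 / 20 * l →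
    SpK B (ch e) x0.im (fun u => Wo e (u - x0)) (fun u => Vo e (u - x0)) := by
  have hl := lpos
  have hd := dF_pos
  have hd1 := dF_le
  have hs : ∀ {a : ℝ}, 2 / 25 * l ≤ |a| → |a| ≤ 8 * l - 2 / 25 * l → dF ≤ |Real.sin a| :=
    fun h1 h2 => SPR.abs_sin_ge' (by positivity) h1 h2
  -- the elementary factors
  have sn : ∀ {x0 : ℂ}, 23 / 10 * l ≤ x0.re → x0.re ≤ 53 / 20 * l → ∀ k : ℝ, (-6 ≤ k ∧ k ≤ 1) ∨ (2 ≤ k ∧ k ≤ 6) →
      Fc (BF dF) 1 x0.im fun u => sin (u - x0 + ((k * l : ℝ) : ℂ)) := fun {x0} h1 h2 k hk => by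
    refine Fc.sn hd hd1 x0 (k * l) ?_
    rcases hk with ⟨a, b⟩ | ⟨a, b⟩
    · have a' := mul_le_mul_of_nonneg_right a hl.le
      have b' := mul_le_mul_of_nonneg_right b hl.le
      refine hs ?_ ?_ <;> rw [abs_of_neg (by linarith)] <;> linarith
    · have a' := mul_le_mul_of_nonneg_right a hl.le
      have b' := mul_le_mul_of_nonneg_right b hl.le
      refine hs ?_ ?_ <;> rw [abs_of_pos (by linarith)] <;> linarith
  have isn : ∀ {x0 : ℂ}, 23 / 10 * l ≤ x0.re → x0.re ≤ 53 / 20 * l → ∀ k : ℝ, -3 ≤ k → k ≤ 1 →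
      Fc (BF dF) (-1) x0.im fun u => (sin (u - x0 + ((k * l : ℝ) : ℂ)))⁻¹ := fun {x0} h1 h2 k a b => by
    refine Fc.isn hd hd1 x0 (k * l) fun r h3 h4 => ?_
    have a' := mul_le_mul_of_nonneg_right a hl.le
    have b' := mul_le_mul_of_nonneg_right b hl.le
    refine hs ?_ ?_ <;> rw [abs_of_neg (by linarith)] <;> linarith
  obtain ⟨b1, hb1⟩ : ∃ b1, b1 = BF dF := ⟨_, rfl⟩
  rw [← hb1] at sn isn
  have hb0 : 0 ≤ b1 := by
    rw [hb1]
    exact (BF_pos hd).le
  obtain ⟨b2, hb2⟩ : ∃ b2, b2 = b1 * b1 + (b1 + b1) := ⟨_, rfl⟩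
  obtain ⟨b4, hb4⟩ : ∃ b4, b4 = b2 * b2 + (b2 + b2) := ⟨_, rfl⟩
  have hb20 : 0 ≤ b2 := by
    rw [hb2]
    positivity
  have h24 : b2 ≤ b4 := by
    rw [hb4]
    nlinarith
  refine ⟨b4, by rw [hb4]; positivity, fun e x0 h1 h2 => ?_⟩
  have hx : x0 ∈ FS := ⟨by linarith, by linarith⟩
  have two : ∀ {n n' : ℤ} {f g : ℂ → ℂ}, Fc b1 n x0.im f → Fc b1 n' x0.im g →
      Fc b2 (n + n') x0.im fun u => f u * g u := fun h h' => by
    rw [hb2]
    exact h.mul h'
  have four : ∀ {n n' : ℤ} {f g : ℂ → ℂ}, Fc b2 n x0.im f → Fc b2 n' x0.im g →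
      Fc b4 (n + n') x0.im fun u => f u * g u := fun h h' => by
    rw [hb4]
    exact h.mul h'
  have hv : ∀ u : ℂ, -(17 / 10 * l) ≤ u.re → u.re ≤ 3 / 5 * l →
      -(5 * l) < (u - x0).re ∧ (u - x0).re < -l := fun u h3 h4 => by
    rw [sub_re]
    constructor <;> linarith
  refine ⟨⟨(Wo_meas e).comp (measurable_id.sub_const _), fun u h3 h4 =>
      (Wo_diff e (hv u h3 h4).1 (hv u h3 h4).2).comp u (differentiableAt_id.sub_const _),
      (far_gr e _ _ x0).1⟩, ⟨(Vo_meas e).comp (measurable_id.sub_const _), fun u h3 h4 =>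
      (Vo_diff e (hv u h3 h4).1 (hv u h3 h4).2).comp u (differentiableAt_id.sub_const _),
      (far_gr e _ _ x0).2⟩, ?_, ?_⟩
  · cases e
    · have k := four (two (sn h1 h2 0 (by norm_num)) (sn h1 h2 2 (by norm_num)))
        (two (isn h1 h2 (-1) (by norm_num) (by norm_num)) (isn h1 h2 1 (by norm_num) le_rfl))
      refine Fc.congr k fun u => ?_
      show sin (u - x0) * sin (u - x0 + 2 * l) / (sin (u - x0 - l) * sin (u - x0 + l)) = _
      rw [div_eq_mul_inv, mul_inv]
      push_cast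
      ring_nf
    · have k := (two (sn h1 h2 1 (by norm_num)) (sn h1 h2 3 (by norm_num))).neg.mono h24
      refine Fc.congr k fun u => ?_
      show -(sin (u - x0 + l) * sin (u - x0 + 3 * l)) = _
      push_cast
      ring_nf
    · have k := (two (isn h1 h2 0 (by norm_num) (by norm_num))
        (isn h1 h2 (-2) (by norm_num) (by norm_num))).neg.mono h24
      refine Fc.congr k fun u => ?_
      show -1 / (sin (u - x0) * sin (u - x0 - 2 * l)) = _
      rw [neg_div, one_div, mul_inv]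
      push_cast
      ring_nf
  · cases e
    · have k := four (two (sn h1 h2 4 (by norm_num)) (sn h1 h2 4 (by norm_num)))
        (two (isn h1 h2 (-3) (by norm_num) (by norm_num)) (isn h1 h2 (-3) (by norm_num) (by norm_num)))
      refine Fc.congr k fun u => ?_
      show cos (u - x0) ^ 2 / sin (u - x0 - 3 * l) ^ 2 = _
      rw [cosv, div_eq_mul_inv, ← inv_pow]
      push_cast
      ring_nf
    · have k := (two (isn h1 h2 (-2) (by norm_num) (by norm_num))
        (isn h1 h2 (-2) (by norm_num) (by norm_num))).mono h24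
      refine Fc.congr k fun u => ?_
      show 1 / sin (u - x0 - 2 * l) ^ 2 = _
      rw [one_div, ← inv_pow]
      push_cast
      ring_nf
    · have k := (two (sn h1 h2 3 (by norm_num)) (sn h1 h2 3 (by norm_num))).mono h24
      refine Fc.congr k fun u => ?_
      show sin (u - x0 + 3 * l) ^ 2 = _
      push_cast
      ring_nf

/-! ### the minus row and the legs -/

theorem sn_bd {δ a : ℝ} (h0 : 0 < δ) (h1 : δ ≤ |a|) (h2 : |a| ≤ 8 * l - δ) : Real.sin δ ≤ |Real.sin a| :=
  SPR.abs_sin_ge' h0 h1 h2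

theorem SpK.mul {B B' h : ℝ} {q q' : ℤ} {sX sY tX tY : ℂ → ℂ} (k : SpK B q h sX sY)
    (k' : SpK B' q' h tX tY) :
    SpK (B * B' + (B + B')) (q + q') h (fun u => sX u * tX u) fun u => sY u * tY u where
  uX := by
    have := k.uX.mul k'.uX
    rwa [← Int.cast_add] at this
  uY := by
    have := k.uY.mul k'.uY
    rwa [← neg_add, ← Int.cast_add] at this
  fX := by
    have := k.fX.mul k'.fX
    rwa [← mul_add] at this
  fY := by
    have := k.fY.mul k'.fY
    rwa [show -(2 * q) + -(2 * q') = -(2 * (q + q')) by ring] at this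

/-- **the minus row** `w`, `|Re w| ≤ 7/10 l`, every height: charge `1` -/
theorem minus_SpK : ∃ B : ℝ, 0 ≤ B ∧ ∀ w : ℂ, |w.re| ≤ 7 / 10 * l →
    SpK B 1 w.im (fun u => sin (u - w) * sin (u - w - 2 * l)) (fun v => 1 / sin (v - w + 3 * l) ^ 2) := by
  have hl := lpos
  obtain ⟨δ, hδ⟩ : ∃ δ, δ = Real.sin (3 / 100 * l) := ⟨_, rfl⟩
  have hd : 0 < δ := by
    rw [hδ]
    exact SPR.sin_pos' (by positivity) (by linarith)
  have hd1 : δ ≤ 1 := by
    rw [hδ]
    exact Real.sin_le_one _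
  have hB := (BF_pos hd).le
  refine ⟨BF δ * BF δ + (BF δ + BF δ), by positivity, fun w hw => ?_⟩
  obtain ⟨h1, h2⟩ := abs_le.1 hw
  have k1 : Fc (BF δ) 1 w.im fun u => sin (u - w + ((0 : ℝ) : ℂ)) := by
    refine Fc.sn hd hd1 w 0 ?_
    rw [hδ]
    refine sn_bd (by positivity) ?_ ?_ <;> rw [abs_of_pos (by linarith)] <;> linarith
  have k2 : Fc (BF δ) 1 w.im fun u => sin (u - w + ((-2 * l : ℝ) : ℂ)) := by
    refine Fc.sn hd hd1 w (-2 * l) ?_
    rw [hδ]
    refine sn_bd (by positivity) ?_ ?_ <;> rw [abs_of_neg (by linarith)] <;> linarith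
  have k3 : Fc (BF δ) (-1) w.im fun u => (sin (u - w + ((3 * l : ℝ) : ℂ)))⁻¹ := by
    refine Fc.isn hd hd1 w (3 * l) fun r h3 h4 => ?_
    rw [hδ]
    refine sn_bd (by positivity) ?_ ?_ <;> rw [abs_of_pos (by linarith)] <;> linarith
  refine ⟨?_, ?_, ?_, ?_⟩
  · rw [cas1]
    exact ⟨by fun_prop, fun u _ _ => by fun_prop, sX_gr _ _ w⟩
  · rw [cas1]
    refine ⟨by fun_prop, fun u h3 h4 => ?_, sY_gr _ _ w⟩
    have e : (u - w + 3 * (l : ℂ)).re = u.re - w.re + 3 * l := by simp
    have hs : sin (u - w + 3 * l) ^ 2 ≠ 0 :=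
      pow_ne_zero _ (Pool.Agent.RX.sin_ne_08 (by rw [e]; linarith) (by rw [e]; linarith))
    fun_prop (disch := exact hs)
  · refine Fc.congr (k1.mul k2) fun u => ?_
    push_cast
    ring_nf
  · refine Fc.congr (k3.mul k3) fun u => ?_
    rw [one_div, ← inv_pow]
    push_cast
    ring_nf

theorem Lg_eq (z u : ℂ) : Lg z z u = sin (u - z + ((3 * l : ℝ) : ℂ)) * (sin (u - z + ((-2 * l : ℝ) : ℂ)))⁻¹ := by
  unfold PBX.Lg
  rw [show z - u - 3 * (l : ℂ) = -(u - z + ((3 * l : ℝ) : ℂ)) by push_cast; ring,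
    show z - u + 2 * (l : ℂ) = -(u - z + ((-2 * l : ℝ) : ℂ)) by push_cast; ring, Complex.sin_neg,
    Complex.sin_neg, neg_div_neg_eq, div_eq_mul_inv]

/-- **the legs**, `|Re z| ≤ l / 2`, every height: neutral -/
theorem leg_SpK : ∃ B : ℝ, 0 ≤ B ∧ ∀ z : ℂ, |z.re| ≤ l / 2 → SpK B 0 z.im (Lg z z) (Lg z z) := by
  have hl := lpos
  obtain ⟨δ, hδ⟩ : ∃ δ, δ = Real.sin (3 / 100 * l) := ⟨_, rfl⟩
  have hd : 0 < δ := by
    rw [hδ]
    exact SPR.sin_pos' (by positivity) (by linarith)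
  have hd1 : δ ≤ 1 := by
    rw [hδ]
    exact Real.sin_le_one _
  have hB := (BF_pos hd).le
  refine ⟨BF δ * BF δ + (BF δ + BF δ), by positivity, fun z hz => ?_⟩
  obtain ⟨h1, h2⟩ := abs_le.1 hz
  have k1 : Fc (BF δ) 1 z.im fun u => sin (u - z + ((3 * l : ℝ) : ℂ)) := by
    refine Fc.sn hd hd1 z (3 * l) ?_
    rw [hδ]
    refine sn_bd (by positivity) ?_ ?_ <;> rw [abs_of_pos (by linarith)] <;> linarith
  have k2 : Fc (BF δ) (-1) z.im fun u => (sin (u - z + ((-2 * l : ℝ) : ℂ)))⁻¹ := by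
    refine Fc.isn hd hd1 z (-2 * l) fun r h3 h4 => ?_
    rw [hδ]
    refine sn_bd (by positivity) ?_ ?_ <;> rw [abs_of_neg (by linarith)] <;> linarith
  have k3 : Fc (BF δ * BF δ + (BF δ + BF δ)) 0 z.im (Lg z z) :=
    (k1.mul k2).congr fun u => Lg_eq z u
  have hL : SpU 0 (Lg z z) :=
    SpU.of_SpA (Lg_SpA (q := z) (by linarith) (by linarith))
  refine ⟨?_, ?_, ?_, ?_⟩
  · simpa using hL
  · simpa using hL
  · simpa using k3
  · simpa using k3

end Pool.Agent.PLX

end
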